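import Pool.Agent.W_7d29a1_SD.TrSD80
import Pool.Agent.W_7d29a1_Q29.Tr29
import Pool.Agent.W_7d29a1_Q29.Lit29
import Pool.Agent.W_7d29a1_L2.All81

/-!
Theorem PL: from the law of the environment to the letters of the problem.
-/

namespace Pool.Agent.W_7d29a1_PL

open MeasureTheory ProbabilityTheory Filter Topology Pool.Agent.W_MP_7d29a1_pr
  Pool.Agent.W_7d29a1_h46 Pool.Agent.W_7d29a1_h46u Pool.Agent.W_7d29a1_D2.B35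
  Pool.Agent.W_7d29a1_Q29 Pool.Agent.W_7d29a1_NV Pool.Agent.W_7d29a1_SD

variable {Ω : Type*} [MeasurableSpace Ω] {μ : Measure Ω} [IsProbabilityMeasure μ] {d : ℕ}
  {ρ : Measure ℝ} [IsProbabilityMeasure ρ] {ω : ℕ × Site d → Ω → ℝ} {β : ℝ}

/-- The variance. -/
lemma lvar52 (hd : 0 < d) (hω : IID μ ρ ω) (hρ : EM ρ) (h : Vec d) (n : ℕ) :
    Var[Lit29.X ω β h n; μ] = Va ρ β h n := var29 hd hω hρ h n

/-- The mean. -/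
lemma lmean52 (hd : 0 < d) (hω : IID μ ρ ω) (hρ : EM ρ) (h : Vec d) (n : ℕ) :
    ∫ x, Lit29.X ω β h n x ∂μ = A ρ β h n - Real.log ((2 * d : ℝ) ^ n) :=
  mean29 hd hω hρ h n

/-- The mean of the probability of an event. -/
lemma lep52 (hω : IID μ ρ ω) (h : Vec d) {n : ℕ} (E : Set (Fin n → Step d)) :
    Lit29.EP μ ω β h E = ∫ η, PolT β h η E ∂(law d ρ) :=
  StrA_int hω (measurable_PolT β h E)

/-- The complement of an event. -/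
lemma polc52 (hd : 0 < d) (h : Vec d) (η : Env d) {n : ℕ} (E : Set (Fin n → Step d)) :
    PolT β h η Eᶜ = 1 - PolT β h η E := by
  classical
  have hpos := ZT_univ_pos (n := n) hd β h η
  unfold PolT
  rw [eq_sub_iff_add_eq, ← add_div, div_eq_one_iff_eq hpos.ne']
  unfold ZT
  rw [← Finset.sum_add_distrib]
  refine Finset.sum_congr rfl fun s _ => ?_
  rw [if_pos (Set.mem_univ s)]
  by_cases hs : s ∈ E
  · rw [if_pos hs, if_neg (by simpa using hs), zero_add]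
  · rw [if_neg hs, if_pos (by simpa using hs), add_zero]

/-- The mass outside of a tube. -/
lemma ltub52 (hd : 0 < d) (hω : IID μ ρ ω) (h v : Vec d) (n : ℕ) (r : ℝ) :
    Lit29.EP μ ω β h (tube d n v r)ᶜ =
      ∫ η, (1 - PolT β h η (tube d n v r)) ∂(law d ρ) := by
  rw [lep52 hω]
  exact integral_congr_ae (Filter.Eventually.of_forall fun η => polc52 hd h η _)

lemma ltb52 (hd : 0 < d) (hω : IID μ ρ ω) (h v : Vec d) (n : ℕ) (R : ℝ) :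
    Lit29.EP μ ω β h (tube d n v (R * Real.sqrt n))ᶜ = Tb ρ β h v R n :=
  ltub52 hd hω h v n _

/-- (i) Almost every tilt. -/
theorem trPL52 (hω : IID μ ρ ω) (hρ : EM ρ) (hnc : ∀ c : ℝ, ρ {c} ≠ 1) (hβ : 0 < β) (hd : d = 2)
    (hM : ∀ᵐ h : Vec 2, VSD ρ β h → ∃ c : ℝ, 0 < c ∧ ∃ᶠ n : ℕ in atTop,
      (n : ℝ) ^ c ≤ Va ρ β h n) :
    ∀ᵐ h : Vec d, ∃ c : ℝ, 0 < c ∧ ∃ᶠ n : ℕ in atTop, (n : ℝ) ^ c ≤ Var[Lit29.X ω β h n; μ] := by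
  subst hd
  filter_upwards [hM] with h hh
  obtain ⟨c, hc, H⟩ := hh (W_7d29a1_L2.vsd2 hρ hnc hβ h)
  refine ⟨c, hc, H.mono fun n hn => ?_⟩
  rw [lvar52 two_pos hω hρ]
  exact hn

/-- (ii) Every tilt and every velocity. -/
theorem trPLz52 (hω : IID μ ρ ω) (hρ : EM ρ) (hnc : ∀ c : ℝ, ρ {c} ≠ 1) (hβ : 0 < β) (hd : d = 2)
    (hM : ∀ h v : Vec 2, VSD ρ β h → ∃ c ε : ℝ, 0 < c ∧ 0 < ε ∧ ∃ᶠ n : ℕ in atTop,
      (n : ℝ) ^ c ≤ Va ρ β h n ∨ ε ≤ Tb ρ β h v ((n : ℝ) ^ c) n) :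
    ∀ h v : Vec d, ∃ c ε : ℝ, 0 < c ∧ 0 < ε ∧ ∃ᶠ n : ℕ in atTop,
      (n : ℝ) ^ c ≤ Var[Lit29.X ω β h n; μ] ∨
        ε ≤ Lit29.EP μ ω β h (tube d n v ((n : ℝ) ^ c * Real.sqrt n))ᶜ := by
  subst hd
  intro h v
  obtain ⟨c, ε, hc, hε, H⟩ := hM h v (W_7d29a1_L2.vsd2 hρ hnc hβ h)
  refine ⟨c, ε, hc, hε, H.mono fun n hn => ?_⟩
  rw [lvar52 two_pos hω hρ, ltb52 two_pos hω]
  exact hn

/-- (iii) Almost every velocity and every tilt. -/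
theorem trPLv52 (hω : IID μ ρ ω) (hρ : EM ρ) (hnc : ∀ c : ℝ, ρ {c} ≠ 1) (hβ : 0 < β) (hd : d = 2)
    (hM : ∀ᵐ v : Vec 2, ∀ h : Vec 2, VSD ρ β h → ∃ c : ℝ, 0 < c ∧ ∃ᶠ n : ℕ in atTop,
      ∃ R : ℝ, 1 ≤ R ∧ (n : ℝ) ^ c < R * Tb ρ β h v R n) :
    ∀ᵐ v : Vec d, ∀ h : Vec d, ∃ c : ℝ, 0 < c ∧ ∃ᶠ n : ℕ in atTop, ∃ R : ℝ, 1 ≤ R ∧
      (n : ℝ) ^ c < R * Lit29.EP μ ω β h (tube d n v (R * Real.sqrt n))ᶜ := by
  subst hd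
  filter_upwards [hM] with v hv h
  obtain ⟨c, hc, H⟩ := hv h (W_7d29a1_L2.vsd2 hρ hnc hβ h)
  refine ⟨c, hc, H.mono fun n hn => ?_⟩
  obtain ⟨R, hR, h1⟩ := hn
  refine ⟨R, hR, ?_⟩
  rw [ltb52 two_pos hω]
  exact h1

end Pool.Agent.W_7d29a1_PL
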