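import Pool.Agent.W_7d29a1_PL.NuT32
import Pool.Agent.W_7d29a1_WP.ExpWP52
import Pool.Agent.W_7d29a1_L2.All81
import Pool.Agent.W_7d29a1_Q29.Half72
import Pool.Agent.W_7d29a1_D2.K2a20

/-!
THEOREM NU2 in the letters of the problem (helper32): `d = 2`, almost every velocity, EVERY tilt.
-/

namespace Pool.Agent.W_7d29a1_PL

open MeasureTheory ProbabilityTheory Filter Topology Pool.Agent.W_MP_7d29a1_pr
  Pool.Agent.W_7d29a1_h46 Pool.Agent.W_7d29a1_h46u Pool.Agent.W_7d29a1_D2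
  Pool.Agent.W_7d29a1_D2.B35 Pool.Agent.W_7d29a1_D2.K20 Pool.Agent.W_7d29a1_V Pool.Agent.W_7d29a1_VT
  Pool.Agent.W_7d29a1_Q29 Pool.Agent.W_7d29a1_SD Pool.Agent.W_7d29a1_WP Pool.Agent.W_7d29a1_KZ

variable {Ω : Type*} [MeasurableSpace Ω] {μ : Measure Ω} [IsProbabilityMeasure μ] {d : ℕ}
  {ρ : Measure ℝ} [IsProbabilityMeasure ρ] {ω : ℕ × Site d → Ω → ℝ} {β : ℝ}

/-- A tube of radius `n ^ (1 / 2 + c)` which is not typical bounds the exponent from below. -/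
theorem nuH32 (hd : 0 < d) (hω : IID μ ρ ω) {h v : Vec d} {c : ℝ}
    (H : ¬ HalfD ρ β h v c) : 1 / 2 + c ≤ nuT μ β ω h v := by
  unfold HalfD at H
  push Not at H
  obtain ⟨ε, hε, hF⟩ := H
  refine nuT_fr52 hd hω hε ?_
  refine (hF.and_eventually (eventually_ge_atTop 1)).mono fun n hn => ?_
  obtain ⟨h1, hn1⟩ := hn
  have hn0 : (0 : ℝ) < n := by exact_mod_cast hn1
  have e1 : (n : ℝ) ^ c * Real.sqrt n = (n : ℝ) ^ (1 / 2 + c) := by
    rw [Real.sqrt_eq_rpow, ← Real.rpow_add hn0]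
    congr 1
    ring
  unfold Tb at h1
  rw [e1] at h1
  exact h1.le

/-- The gap is bounded below on every ball (`d = 2`). -/
lemma gap32 (hρ : EM ρ) (hnc : ∀ c : ℝ, ρ {c} ≠ 1) (hβ : 0 < β) (K : ℝ) :
    ∃ g : ℝ, 0 < g ∧ ∀ h : Vec 2, ‖h‖ ≤ K →
      lam ρ β h + g ≤ Real.log (Phi h) + Real.log (∫ t, Real.exp (β * t) ∂ρ) := by
  have hd : 0 < 2 := by norm_num
  have hc : Continuous fun h : Vec 2 => Real.log (Phi h) +
      Real.log (∫ t, Real.exp (β * t) ∂ρ) - lam ρ β h :=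
    ((Continuous.log continuous_Phi72 fun h => (Phi_pos61 hd _).ne').add continuous_const).sub
      (continuous_of_convex (lam_convex hd hρ β))
  rcases lt_or_ge K 0 with hK | hK
  · exact ⟨1, one_pos, fun h hh => absurd (norm_nonneg h) (by linarith)⟩
  have hne : (Metric.closedBall (0 : Vec 2) K).Nonempty := ⟨0, Metric.mem_closedBall_self hK⟩
  obtain ⟨h₀, -, hmin⟩ := (isCompact_closedBall (0 : Vec 2) K).exists_isMinOn hne hc.continuousOn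
  refine ⟨Real.log (Phi h₀) + Real.log (∫ t, Real.exp (β * t) ∂ρ) - lam ρ β h₀, ?_,
    fun h hh => ?_⟩
  · have h1 : VSD ρ β h₀ := W_7d29a1_L2.vsd2 hρ hnc hβ h₀
    unfold VSD at h1
    linarith
  · have h1 : h ∈ Metric.closedBall (0 : Vec 2) K := by
      rw [mem_closedBall_zero_iff]
      exact hh
    have h2 := hmin h1
    simp only [Set.mem_setOf_eq] at h2
    linarith

/-- **THEOREM NU2** (`d = 2`): on every ball of tilts the wandering exponent of the problem is at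
least `1 / 2 + c`, at almost every velocity. -/
theorem nuTr32 (hω : IID μ ρ ω) (hρ : EM ρ) (hnc : ∀ c : ℝ, ρ {c} ≠ 1) (hβ : 0 < β) (hd : d = 2)
    (hK : MainKA 2 ρ β) (hPt : PointPL ρ β) (K : ℝ) :
    ∃ c : ℝ, 0 < c ∧ ∀ᵐ v : Vec d, ∀ h : Vec d, ‖h‖ ≤ K → 1 / 2 + c ≤ nuT μ β ω h v := by
  subst hd
  obtain ⟨g, hg, hgap⟩ := gap32 (ρ := ρ) hρ hnc hβ K
  obtain ⟨c, hc, hv⟩ := nuT32 hρ hK hPt g hg
  refine ⟨c, hc, ?_⟩
  filter_upwards [hv] with v hv h hh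
  exact nuH32 two_pos hω (hv h (hgap h hh))

/-- `ν > 1 / 2` at almost every velocity and EVERY tilt (`d = 2`). -/
theorem nuGt32 (hω : IID μ ρ ω) (hρ : EM ρ) (hnc : ∀ c : ℝ, ρ {c} ≠ 1) (hβ : 0 < β) (hd : d = 2)
    (hK : MainKA 2 ρ β) (hPt : PointPL ρ β) :
    ∀ᵐ v : Vec d, ∀ h : Vec d, 1 / 2 < nuT μ β ω h v := by
  have h1 : ∀ᵐ v : Vec d, ∀ k : ℕ, ∃ c : ℝ, 0 < c ∧ ∀ h : Vec d, ‖h‖ ≤ k →
      1 / 2 + c ≤ nuT μ β ω h v := by
    rw [ae_all_iff]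
    intro k
    obtain ⟨c, hc, hv⟩ := nuTr32 hω hρ hnc hβ hd hK hPt (k : ℝ)
    filter_upwards [hv] with v hv
    exact ⟨c, hc, hv⟩
  filter_upwards [h1] with v hv h
  obtain ⟨k, hk⟩ := exists_nat_ge ‖h‖
  obtain ⟨c, hc, H⟩ := hv k
  have := H h hk
  linarith

end Pool.Agent.W_7d29a1_PL
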