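import Pool.Agent.W_7d29a1_PL.DefsPL
import Pool.Agent.W_7d29a1_SP.Bas15
import Pool.Agent.W_7d29a1_SP.Cnt79

/-!
Theorem PL: continuing a lucky event to one horizon, and the fluctuations of a sum of two times
(helper78).
-/

namespace Pool.Agent.W_7d29a1_PL

open MeasureTheory ProbabilityTheory Filter Topology Pool.Agent.W_MP_7d29a1_pr
  Pool.Agent.W_7d29a1_h46 Pool.Agent.W_7d29a1_h46u Pool.Agent.W_7d29a1_D2.B35
  Pool.Agent.W_7d29a1_Q29 Pool.Agent.W_7d29a1_R34 Pool.Agent.W_7d29a1_SP

namespace P78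

open Pool.Agent.W_7d29a1_SP.C79

variable {d : ℕ} {ρ : Measure ℝ} [IsProbabilityMeasure ρ]

/-- The lower part of the fluctuation of the remaining rows. -/
noncomputable def lo (ρ : Measure ℝ) (β : ℝ) (h : Vec d) (r : ℕ) (η : Env d) : ℝ :=
  max 0 (A ρ β h r - X β h η r)

lemma lo_nn (β : ℝ) (h : Vec d) (r : ℕ) (η : Env d) : 0 ≤ lo ρ β h r η := le_max_left _ _

lemma lo_meas (β : ℝ) (h : Vec d) (r : ℕ) : Measurable (lo ρ β h r) :=
  measurable_const.max (measurable_const.sub (measurable_X β h r))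

lemma lo_le (β : ℝ) (h : Vec d) (r : ℕ) (η : Env d) :
    lo ρ β h r η ≤ |X β h η r - A ρ β h r| := by
  refine max_le (abs_nonneg _) ?_
  rw [abs_sub_comm]
  exact le_abs_self _

lemma lo_int (hd : 0 < d) (hρ : EM ρ) (β : ℝ) (h : Vec d) (r : ℕ) :
    Integrable (lo ρ β h r) (law d ρ) := by
  refine (intX15 hd hρ β h r).abs.mono' (lo_meas β h r).aestronglyMeasurable
    (Eventually.of_forall fun η => ?_)
  rw [Real.norm_of_nonneg (lo_nn β h r η)]
  exact lo_le β h r η

/-- The lower part is half of the fluctuation. -/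
lemma lo_half (hd : 0 < d) (hρ : EM ρ) (β : ℝ) (h : Vec d) (r : ℕ) :
    ∫ η, lo ρ β h r η ∂(law d ρ) = Fn ρ β h r / 2 := by
  have h1 : ∀ η : Env d, lo ρ β h r η = (|X β h η r - A ρ β h r| - (X β h η r - A ρ β h r)) / 2 := by
    intro η
    unfold lo
    rcases le_total 0 (X β h η r - A ρ β h r) with h0 | h0
    · rw [abs_of_nonneg h0, max_eq_left (by linarith)]
      ring
    · rw [abs_of_nonpos h0, max_eq_right (by linarith)]
      ring
  have i1 := intX15 hd hρ β h r
  rw [integral_congr_ae (Eventually.of_forall h1), integral_div, integral_sub i1.abs i1,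
    mean15 hd hρ β h r, sub_zero]
  rfl

/-- The continuation from the time `s` on an event of the first rows. -/
lemma push (hd : 0 < d) (hρ : EM ρ) (β : ℝ) (h : Vec d) (s r : ℕ) {B : Set (Env d)}
    (hB : MeasurableSet B) (hdep : DependsOn (fun η => η ∈ B) (Pa d s)) {u : ℝ} (hu : 0 < u) :
    u * (law d ρ).real (B ∩ {η | X β h η (s + r) < X β h η s + A ρ β h r - u}) ≤
      Fn ρ β h r / 2 * (law d ρ).real B := by
  set g := lo ρ β h r with hg
  have hgm : Measurable g := lo_meas β h r
  have hg0 : ∀ η, 0 ≤ g η := lo_nn β h r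
  have hgi : Integrable g (law d ρ) := lo_int hd hρ β h r
  have hgs : ∀ y : Site d, Integrable (fun η => g (sh s y η)) (law d ρ) := fun y =>
    (mp_sh s y).integrable_comp_of_integrable hgi
  have i2 : ∀ w : Fin s → Step d, Integrable (fun η => (one B η * FreeU_p β h s w η) *
      g (sh s (pos w s) η)) (law d ρ) := fun w =>
    (hgs (pos w s)).bdd_mul (c := 1)
      ((one_meas hB).mul (FreeU_meas β h s w)).aestronglyMeasurable
      (Eventually.of_forall fun η => by
        rw [norm_mul]
        refine mul_le_one₀ (one_abs B η) (norm_nonneg _) ?_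
        rw [Real.norm_eq_abs, abs_of_nonneg (FreeU_nonneg hd β h s w η)]
        exact FreeU_le_one hd β h s w η)
  have i1 : ∀ w : Fin s → Step d, Integrable (fun η => one B η * FreeU_p β h s w η) (law d ρ) :=
    fun w => mul_int hB ((integrable_const (1 : ℝ)).mono' (FreeU_meas β h s w).aestronglyMeasurable
      (Eventually.of_forall fun η => by
        rw [Real.norm_eq_abs, abs_of_nonneg (FreeU_nonneg hd β h s w η)]
        exact FreeU_le_one hd β h s w η))
  have e1 : ∀ w : Fin s → Step d, ∫ η, (one B η * FreeU_p β h s w η) *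
      g (sh s (pos w s) η) ∂(law d ρ) =
      (∫ η, one B η * FreeU_p β h s w η ∂(law d ρ)) * ∫ η, g η ∂(law d ρ) := by
    intro w
    have h1 := integral_indep (ρ := ρ) (Pa d s) (F := fun η => one B η * FreeU_p β h s w η)
      (G := fun η => g (sh s (pos w s) η)) ((one_meas hB).mul (FreeU_meas β h s w))
      (hgm.comp (measurable_sh s (pos w s)))
      (fun η η' hη => by
        simp only
        rw [one_dep hdep hη, FreeU_dep β h s w hη])
      (fun η η' hη => by
        have h2 := FreeU_dep2 β h s r (pos w s) hη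
        rw [hg]
        simp only [lo] at h2 ⊢
        rw [h2])
    rw [h1, integral_sh s (pos w s) hgm]
  set D := {η | X β h η (s + r) < X β h η s + A ρ β h r - u} with hD
  have hDm : MeasurableSet D := measurableSet_lt (measurable_X β h (s + r))
    (((measurable_X β h s).add_const _).sub_const _)
  have hpt : ∀ η, u * one (B ∩ D) η ≤ ∑ w : Fin s → Step d, (one B η * FreeU_p β h s w η) *
      g (sh s (pos w s) η) := by
    intro η
    have h4 : 0 ≤ ∑ w : Fin s → Step d, (one B η * FreeU_p β h s w η) *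
        g (sh s (pos w s) η) :=
      Finset.sum_nonneg fun w _ => mul_nonneg (mul_nonneg (one_nn B η)
        (FreeU_nonneg hd β h s w η)) (hg0 _)
    by_cases hη : η ∈ B ∩ D
    · rw [one_of hη, mul_one]
      have hB1 : one B η = 1 := one_of hη.1
      simp only [hB1, one_mul]
      have h1 := FreeU_pt hd β h s r η
      have h2 : ∑ w : Fin s → Step d, FreeU_p β h s w η *
          (A ρ β h r - X β h (sh s (pos w s) η) r) ≤ ∑ w : Fin s → Step d, FreeU_p β h s w η *
          g (sh s (pos w s) η) :=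
        Finset.sum_le_sum fun w _ => mul_le_mul_of_nonneg_left (le_max_right _ _)
          (FreeU_nonneg hd β h s w η)
      have h3 : ∑ w : Fin s → Step d, FreeU_p β h s w η *
          (A ρ β h r - X β h (sh s (pos w s) η) r) =
          A ρ β h r - ∑ w : Fin s → Step d, FreeU_p β h s w η *
            X β h (sh s (pos w s) η) r := by
        simp only [mul_sub]
        rw [Finset.sum_sub_distrib, ← Finset.sum_mul, FreeU_sum hd, one_mul]
      have h5 : X β h η (s + r) < X β h η s + A ρ β h r - u := hη.2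
      linarith
    · rw [one_not hη, mul_zero]
      exact h4
  have i4 : Integrable (fun η => ∑ w : Fin s → Step d, (one B η * FreeU_p β h s w η) *
      g (sh s (pos w s) η)) (law d ρ) := integrable_finsetSum _ fun w _ => i2 w
  have hfin := integral_mono ((one_int (ρ := ρ) (hB.inter hDm)).const_mul u) i4 hpt
  rw [integral_const_mul, one_I (hB.inter hDm), integral_finsetSum _ fun w _ => i2 w,
    Finset.sum_congr rfl fun w _ => e1 w, ← Finset.sum_mul,
    ← integral_finsetSum _ fun w _ => i1 w] at hfin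
  have e2 : ∫ η, ∑ w : Fin s → Step d, one B η * FreeU_p β h s w η ∂(law d ρ) =
      (law d ρ).real B := by
    simp only [← Finset.mul_sum, FreeU_sum hd, mul_one]
    exact one_I hB
  rw [e2, hg, lo_half hd hρ β h r] at hfin
  linarith

/-- The random fluctuation of a sum of two times. -/
lemma Fn_add (hd : 0 < d) (hρ : EM ρ) (β : ℝ) (h : Vec d) (s r : ℕ) :
    Fn ρ β h (s + r) ≤ Fn ρ β h s + Fn ρ β h r + 2 * (En ρ β h s + En ρ β h r) := by
  have hgs : ∀ y : Site d, Integrable (fun η => lo ρ β h r (sh s y η)) (law d ρ) := fun y =>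
    (mp_sh s y).integrable_comp_of_integrable (lo_int hd hρ β h r)
  have i2 : ∀ w : Fin s → Step d, Integrable (fun η => FreeU_p β h s w η *
      lo ρ β h r (sh s (pos w s) η)) (law d ρ) := fun w =>
    (hgs (pos w s)).bdd_mul (c := 1) (FreeU_meas β h s w).aestronglyMeasurable
      (Eventually.of_forall fun η => by
        rw [Real.norm_eq_abs, abs_of_nonneg (FreeU_nonneg hd β h s w η)]
        exact FreeU_le_one hd β h s w η)
  have i1 : ∀ w : Fin s → Step d, Integrable (FreeU_p β h s w) (law d ρ) := fun w =>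
    (integrable_const (1 : ℝ)).mono' (FreeU_meas β h s w).aestronglyMeasurable
      (Eventually.of_forall fun η => by
        rw [Real.norm_eq_abs, abs_of_nonneg (FreeU_nonneg hd β h s w η)]
        exact FreeU_le_one hd β h s w η)
  have e1 : ∀ w : Fin s → Step d, ∫ η, FreeU_p β h s w η *
      lo ρ β h r (sh s (pos w s) η) ∂(law d ρ) =
      (∫ η, FreeU_p β h s w η ∂(law d ρ)) * ∫ η, lo ρ β h r η ∂(law d ρ) := by
    intro w
    have h1 := integral_indep (ρ := ρ) (Pa d s) (F := FreeU_p β h s w)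
      (G := fun η => lo ρ β h r (sh s (pos w s) η)) (FreeU_meas β h s w)
      ((lo_meas β h r).comp (measurable_sh s (pos w s))) (FreeU_dep β h s w)
      (fun η η' hη => by
        have h2 := FreeU_dep2 β h s r (pos w s) hη
        simp only [lo] at h2 ⊢
        rw [h2])
    rw [h1, integral_sh s (pos w s) (lo_meas β h r)]
  have hpt : ∀ η, lo ρ β h (s + r) η ≤ lo ρ β h s η + (∑ w : Fin s → Step d,
      FreeU_p β h s w η * lo ρ β h r (sh s (pos w s) η)) +
        (A ρ β h (s + r) - A ρ β h s - A ρ β h r) := by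
    intro η
    have h1 := FreeU_pt hd β h s r η
    have h2 : ∑ w : Fin s → Step d, FreeU_p β h s w η *
        (A ρ β h r - X β h (sh s (pos w s) η) r) ≤ ∑ w : Fin s → Step d, FreeU_p β h s w η *
        lo ρ β h r (sh s (pos w s) η) :=
      Finset.sum_le_sum fun w _ => mul_le_mul_of_nonneg_left (le_max_right _ _)
        (FreeU_nonneg hd β h s w η)
    have h3 : ∑ w : Fin s → Step d, FreeU_p β h s w η *
        (A ρ β h r - X β h (sh s (pos w s) η) r) =
        A ρ β h r - ∑ w : Fin s → Step d, FreeU_p β h s w η *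
          X β h (sh s (pos w s) η) r := by
      simp only [mul_sub]
      rw [Finset.sum_sub_distrib, ← Finset.sum_mul, FreeU_sum hd, one_mul]
    have h4 : 0 ≤ ∑ w : Fin s → Step d, FreeU_p β h s w η *
        lo ρ β h r (sh s (pos w s) η) :=
      Finset.sum_nonneg fun w _ => mul_nonneg (FreeU_nonneg hd β h s w η) (lo_nn β h r _)
    have h5 : 0 ≤ lo ρ β h s η := lo_nn β h s η
    have h6 : A ρ β h s - X β h η s ≤ lo ρ β h s η := le_max_right _ _
    have h7 := A_add_le hd hρ β h s r
    refine max_le ?_ ?_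
    · linarith
    · linarith
  have i4 : Integrable (fun η => ∑ w : Fin s → Step d, FreeU_p β h s w η *
      lo ρ β h r (sh s (pos w s) η)) (law d ρ) := integrable_finsetSum _ fun w _ => i2 w
  have i5 : Integrable (fun η => lo ρ β h s η + ∑ w : Fin s → Step d,
      FreeU_p β h s w η * lo ρ β h r (sh s (pos w s) η)) (law d ρ) := (lo_int hd hρ β h s).add i4
  have hfin := integral_mono (lo_int hd hρ β h (s + r)) (i5.add (integrable_const
    (A ρ β h (s + r) - A ρ β h s - A ρ β h r))) hpt
  simp only [Pi.add_apply] at hfin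
  rw [integral_add i5 (integrable_const _), integral_add (lo_int hd hρ β h s) i4,
    integral_finsetSum _ fun w _ => i2 w,
    Finset.sum_congr rfl fun w _ => e1 w, ← Finset.sum_mul,
    ← integral_finsetSum _ fun w _ => i1 w] at hfin
  have e2 : ∫ η, ∑ w : Fin s → Step d, FreeU_p β h s w η ∂(law d ρ) = 1 := by
    simp only [FreeU_sum hd]
    simp
  rw [e2, one_mul, lo_half hd hρ β h r, lo_half hd hρ β h s, lo_half hd hρ β h (s + r)] at hfin
  simp only [integral_const, probReal_univ, smul_eq_mul, one_mul] at hfin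
  have h8 := En_nonneg15 hd hρ β h (s + r)
  unfold En at h8 ⊢
  push_cast at h8
  linarith

/-- OTTAVIANI: a lucky horizon in a window is continued to the end of the window. -/
lemma ott (hd : 0 < d) (hρ : EM ρ) (β : ℝ) (h : Vec d) (H S : ℕ) (w : ℝ) {Ψ : ℝ} (hΨ : 0 < Ψ)
    (hr : ∀ r : ℕ, r ≤ S → En ρ β h r ≤ Ψ ∧ Fn ρ β h r ≤ Ψ) :
    (law d ρ).real {η | ∃ s : ℕ, s ≤ S ∧
      ((H + s : ℕ) : ℝ) * lam ρ β h + w ≤ X β h η (H + s)} ≤
    2 * (law d ρ).real {η | ((H + S : ℕ) : ℝ) * lam ρ β h + w - 2 * Ψ ≤ X β h η (H + S)} := by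
  obtain ⟨Ev, hEv⟩ : ∃ Ev : ℕ → Set (Env d), Ev = fun s =>
    {η | ((H + s : ℕ) : ℝ) * lam ρ β h + w ≤ X β h η (H + s)} := ⟨_, rfl⟩
  obtain ⟨T, hT⟩ : ∃ T : Set (Env d), T =
    {η | ((H + S : ℕ) : ℝ) * lam ρ β h + w - 2 * Ψ ≤ X β h η (H + S)} := ⟨_, rfl⟩
  have hTm : MeasurableSet T := by
    rw [hT]
    exact measurableSet_le measurable_const (measurable_X β h (H + S))
  have hEm : ∀ s, MeasurableSet (Ev s) := fun s => by
    rw [hEv]
    exact measurableSet_le measurable_const (measurable_X β h (H + s))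
  have hEd : ∀ s, DependsOn (fun η => η ∈ Ev s) (Pa d (H + s)) := by
    intro s η η' hη
    have h2 : X β h η (H + s) = X β h η' (H + s) := by
      have h3 : Z β h η (H + s) = Z β h η' (H + s) := dependsOn_Z β h _ fun p hp => hη p hp.2
      unfold X
      rw [h3]
    rw [hEv]
    show (((H + s : ℕ) : ℝ) * lam ρ β h + w ≤ X β h η (H + s)) =
      (((H + s : ℕ) : ℝ) * lam ρ β h + w ≤ X β h η' (H + s))
    rw [h2]
  obtain ⟨B, hBd⟩ : ∃ B : ℕ → Set (Env d), B = fun s => Ev s ∩ ⋂ s' ∈ Finset.range s, (Ev s')ᶜ :=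
    ⟨_, rfl⟩
  have hBm : ∀ s, MeasurableSet (B s) := fun s => by
    rw [hBd]
    exact (hEm s).inter (Finset.measurableSet_biInter _ fun s' _ => (hEm s').compl)
  have hBdep : ∀ s, DependsOn (fun η => η ∈ B s) (Pa d (H + s)) := by
    intro s η η' hη
    rw [hBd]
    simp only [Set.mem_inter_iff, Set.mem_iInter, Set.mem_compl_iff, Finset.mem_range]
    have h1 : (η ∈ Ev s) = (η' ∈ Ev s) := hEd s hη
    have h2 : ∀ s' < s, (η ∈ Ev s') = (η' ∈ Ev s') := fun s' hs' =>
      hEd s' fun p hp => hη p (by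
        change p.1 ≤ H + s
        have : p.1 ≤ H + s' := hp
        omega)
    rw [h1]
    have h3 : (∀ i < s, η ∉ Ev i) ↔ (∀ i < s, η' ∉ Ev i) :=
      forall₂_congr fun i hi => by rw [h2 i hi]
    rw [eq_iff_iff]
    exact and_congr Iff.rfl h3
  have hdis : (↑(Finset.range (S + 1)) : Set ℕ).PairwiseDisjoint fun s => B s ∩ T := by
    intro i _ j _ hij
    refine Set.disjoint_left.2 fun η h1 h2 => ?_
    rw [hBd] at h1 h2
    obtain ⟨⟨h3, h4⟩, _⟩ := h1
    obtain ⟨⟨h5, h6⟩, _⟩ := h2
    simp only [Set.mem_iInter, Set.mem_compl_iff, Finset.mem_range] at h4 h6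
    rcases lt_or_gt_of_ne hij with h7 | h7
    · exact h6 i h7 h3
    · exact h4 j h7 h5
  have hsub : {η | ∃ s : ℕ, s ≤ S ∧ ((H + s : ℕ) : ℝ) * lam ρ β h + w ≤ X β h η (H + s)} ⊆
      ⋃ s ∈ Finset.range (S + 1), B s := by
    classical
    rintro η ⟨s, hs, h1⟩
    have h2 : ∃ s, η ∈ Ev s := ⟨s, by rw [hEv]; exact h1⟩
    have h3 := Nat.find_spec h2
    have h4 : Nat.find h2 ≤ s := Nat.find_min' h2 (by rw [hEv]; exact h1)
    simp only [Set.mem_iUnion, Finset.mem_range]
    refine ⟨Nat.find h2, by omega, ?_⟩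
    rw [hBd]
    refine ⟨h3, ?_⟩
    simp only [Set.mem_iInter, Set.mem_compl_iff, Finset.mem_range]
    exact fun i hi => Nat.find_min h2 hi
  have hone : ∀ s, s ≤ S → (law d ρ).real (B s) ≤ 2 * (law d ρ).real (B s ∩ T) := by
    intro s hs
    obtain ⟨r, rfl⟩ : ∃ r, S = s + r := ⟨S - s, by omega⟩
    obtain ⟨hE, hF⟩ := hr r (by omega)
    have h1 := push hd hρ β h (H + s) r (hBm s) (hBdep s) hΨ
    have h2 : (law d ρ).real (B s) ≤ (law d ρ).real (B s ∩ T) +
        (law d ρ).real (B s ∩ {η | X β h η (H + s + r) < X β h η (H + s) + A ρ β h r - Ψ}) := by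
      refine le_trans (measureReal_mono ?_ (measure_ne_top _ _)) (measureReal_union_le _ _)
      intro η hη
      by_cases h3 : X β h η (H + s + r) < X β h η (H + s) + A ρ β h r - Ψ
      · exact Or.inr ⟨hη, h3⟩
      · refine Or.inl ⟨hη, ?_⟩
        rw [hBd, hEv] at hη
        have h4 : ((H + s : ℕ) : ℝ) * lam ρ β h + w ≤ X β h η (H + s) := hη.1
        rw [hT]
        show ((H + (s + r) : ℕ) : ℝ) * lam ρ β h + w - 2 * Ψ ≤ X β h η (H + (s + r))
        rw [← Nat.add_assoc]
        unfold En at hE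
        push_cast at h4 ⊢
        linarith [not_lt.1 h3]
    have h3 : Fn ρ β h r / 2 * (law d ρ).real (B s) ≤ Ψ / 2 * (law d ρ).real (B s) :=
      mul_le_mul_of_nonneg_right (by linarith) measureReal_nonneg
    have h4 : (law d ρ).real (B s ∩ {η | X β h η (H + s + r) <
        X β h η (H + s) + A ρ β h r - Ψ}) ≤ (law d ρ).real (B s) / 2 := by
      refine le_of_mul_le_mul_left ?_ hΨ
      linarith
    linarith
  calc (law d ρ).real {η | ∃ s : ℕ, s ≤ S ∧
      ((H + s : ℕ) : ℝ) * lam ρ β h + w ≤ X β h η (H + s)} ≤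
        (law d ρ).real (⋃ s ∈ Finset.range (S + 1), B s) := measureReal_mono hsub (measure_ne_top _ _)
    _ ≤ ∑ s ∈ Finset.range (S + 1), (law d ρ).real (B s) := measureReal_biUnion_finset_le _ _
    _ ≤ ∑ s ∈ Finset.range (S + 1), 2 * (law d ρ).real (B s ∩ T) :=
        Finset.sum_le_sum fun s hs => hone s (by
          have := Finset.mem_range.1 hs
          omega)
    _ = 2 * (law d ρ).real (⋃ s ∈ Finset.range (S + 1), B s ∩ T) := by
        rw [← Finset.mul_sum, measureReal_biUnion_finset hdis fun s _ => (hBm s).inter hTm]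
    _ ≤ 2 * (law d ρ).real T := by
        refine mul_le_mul_of_nonneg_left (measureReal_mono ?_ (measure_ne_top _ _)) (by norm_num)
        intro η hη
        simp only [Set.mem_iUnion] at hη
        obtain ⟨s, _, h1⟩ := hη
        exact h1.2
    _ = _ := by rw [hT]

end P78

end Pool.Agent.W_7d29a1_PL
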