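import Pool.Agent.W_7d29a1_PL.DefsPL
import Pool.Agent.W_7d29a1_SP.Cnt79
import Pool.Agent.W_7d29a1_Q29.Vsd61

/-!
UNB: the fluctuations are unbounded at every tilt with localisation and a gap (helper47).
-/

set_option autoImplicit false

namespace Pool.Agent.W_7d29a1_PL

open MeasureTheory ProbabilityTheory Filter Topology Pool.Agent.W_MP_7d29a1_pr
  Pool.Agent.W_7d29a1_h46 Pool.Agent.W_7d29a1_h46u Pool.Agent.W_7d29a1_D2.B35
  Pool.Agent.W_7d29a1_Q29 Pool.Agent.W_7d29a1_R34 Pool.Agent.W_7d29a1_SP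

/-- A lower bound for the free energy when all the sites are good. -/
lemma X_box47 {d : ℕ} (hd : 0 < d) (β : ℝ) (h : Vec d) {b : ℝ} {η : Env d} {m : ℕ}
    (hη : ∀ p ∈ Finset.Icc 1 m ×ˢ boxF d m, b ≤ β * η p) :
    m * (Real.log (Phi h) + b) ≤ X β h η m := by
  have hPhi : 0 < Phi h := Phi_pos61 hd h
  have h1 : Phi h ^ m * Real.exp (m * b) ≤ Z β h η m := by
    rw [Z_eq, ← sum_walks61 h m, Finset.sum_mul]
    refine Finset.sum_le_sum fun s _ => ?_
    unfold wgt
    rw [← Real.exp_add]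
    refine Real.exp_le_exp.2 (add_le_add le_rfl ?_)
    unfold energy
    rw [Finset.mul_sum]
    have h2 : ∑ _i : Fin m, b = m * b := by
      rw [Finset.sum_const, Finset.card_univ, Fintype.card_fin, nsmul_eq_mul]
    rw [← h2]
    refine Finset.sum_le_sum fun i _ => hη _ ?_
    rw [Finset.mem_product]
    exact ⟨Finset.mem_Icc.2 ⟨Nat.le_add_left 1 i, i.2⟩, pos_mem_box s _⟩
  have h2 := Real.log_le_log (by positivity) h1
  rw [Real.log_mul (by positivity) (Real.exp_pos _).ne', Real.log_pow, Real.log_exp] at h2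
  have h3 : Real.log (Z β h η m) = X β h η m := rfl
  rw [h3] at h2
  linarith

/-- UNB: the fluctuations are unbounded. -/
theorem unb47 {d : ℕ} {ρ : Measure ℝ} [IsProbabilityMeasure ρ] (hd : 0 < d) (hρ : EM ρ)
    (β : ℝ) {h : Vec d} {c₀ g : ℝ} (hc : 0 < c₀) (hg : 0 < g) (hloc : Loc1 ρ β h c₀)
    (hgap : lam ρ β h + g ≤ Real.log (Phi h) + Real.log (∫ t, Real.exp (β * t) ∂ρ)) (K : ℝ) :
    ∃ k : ℕ, K ≤ fM ρ β h k := by
  by_contra hcon
  push Not at hcon
  obtain ⟨C, hC, hcnt⟩ := cnt79 (d := d) (ρ := ρ) hd hρ β c₀ hc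
  have hint : Integrable (fun t => Real.exp (β * t)) ρ := hρ β
  set b : ℝ := Real.log (∫ t, Real.exp (β * t) ∂ρ) - g / 2 with hb
  have hI : 0 < ∫ t, Real.exp (β * t) ∂ρ := integral_exp_pos hint
  set S : Set ℝ := {t | b ≤ β * t} with hS
  have hSm : MeasurableSet S := measurableSet_le measurable_const (measurable_id.const_mul β)
  have hSpos : 0 < ρ.real S := by
    by_contra h0
    have h1 : ρ.real S = 0 := le_antisymm (not_lt.1 h0) measureReal_nonneg
    have h2 : ρ S = 0 := by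
      rwa [measureReal_def, ENNReal.toReal_eq_zero_iff, or_iff_left (measure_ne_top _ _)] at h1
    have h3 : ∀ᵐ t ∂ρ, Real.exp (β * t) ≤ Real.exp b := by
      have h4 : ∀ᵐ t ∂ρ, t ∉ S := measure_eq_zero_iff_ae_notMem.1 h2
      filter_upwards [h4] with t ht
      have : ¬ (b ≤ β * t) := ht
      exact Real.exp_le_exp.2 (lt_of_not_ge this).le
    have h5 := integral_mono_ae hint (integrable_const (Real.exp b)) h3
    rw [integral_const] at h5
    simp only [probReal_univ, smul_eq_mul, one_mul] at h5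
    have h6 := Real.log_le_log hI h5
    rw [Real.log_exp] at h6
    linarith
  -- a contradiction for large `m`
  obtain ⟨m, hm⟩ := exists_nat_gt (2 * (C * (|K| + 1)) / g)
  have hK0 : 0 ≤ |K| := abs_nonneg K
  have hm0 : 0 < (m : ℝ) := lt_of_le_of_lt (by positivity) hm
  have hm1 : 1 ≤ m := by exact_mod_cast hm0
  set Bx : Finset (ℕ × Site d) := Finset.Icc 1 m ×ˢ boxF d m with hBx
  set V : Set (Env d) := {η | ∀ p ∈ Bx, η p ∈ S} with hV
  have hVp : (law d ρ).real V = ρ.real S ^ Bx.card := by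
    have h1 : V = Set.pi (Bx : Set (ℕ × Site d)) fun _ => S := by
      ext η
      simp [hV, Set.mem_pi]
    rw [h1, measureReal_def, law, Measure.infinitePi_pi _ (fun x _ => hSm), Finset.prod_const,
      ENNReal.toReal_pow, ← measureReal_def]
  set x : ℝ := m * (g / 2) with hx
  set q : ℝ := (law d ρ).real {η | A ρ β h m + x ≤ X β h η m} with hq
  have hVq : (law d ρ).real V ≤ q := by
    refine measureReal_mono fun η hη => ?_
    have h1 := X_box47 hd β h (b := b) (η := η) (m := m) fun p hp => hη p hp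
    have h2 := A_le_lam hd hρ β h m
    have h3 : (m : ℝ) * (lam ρ β h + g / 2) ≤ m * (Real.log (Phi h) + b) :=
      mul_le_mul_of_nonneg_left (by rw [hb]; linarith) hm0.le
    show A ρ β h m + x ≤ X β h η m
    rw [hx]
    nlinarith
  have hq0 : 0 < q := by
    refine lt_of_lt_of_le ?_ hVq
    rw [hVp]
    positivity
  obtain ⟨T, hT⟩ := exists_nat_ge (C * m / q)
  have h1 := hcnt h hloc m T x q |K| hm1 hq0 le_rfl hT fun k _ => by
    have h2 := (hcon k).le.trans (le_abs_self K)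
    unfold fM at h2
    exact ⟨(le_max_left _ _).trans h2, (le_max_right _ _).trans h2⟩
  rw [div_lt_iff₀ hg] at hm
  rw [hx] at h1
  linarith

/-- The levels: `lo`, `hi` of `Sy` and monotonicity. -/
theorem lev47 {d : ℕ} {ρ : Measure ℝ} [IsProbabilityMeasure ρ] (hd : 0 < d) (hρ : EM ρ)
    (β : ℝ) {h : Vec d} {c₀ g : ℝ} (hc : 0 < c₀) (hg : 0 < g) (hloc : Loc1 ρ β h c₀)
    (hgap : lam ρ β h + g ≤ Real.log (Phi h) + Real.log (∫ t, Real.exp (β * t) ∂ρ)) :
    ∃ m : ℕ → ℕ, (∀ l k : ℕ, k < m l → fM ρ β h k < 2 ^ l) ∧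
      (∀ l : ℕ, 2 ^ l ≤ fM ρ β h (m l)) ∧ Monotone m := by
  classical
  have hex : ∀ l : ℕ, ∃ k : ℕ, (2 : ℝ) ^ l ≤ fM ρ β h k := fun l =>
    unb47 hd hρ β hc hg hloc hgap (2 ^ l)
  refine ⟨fun l => Nat.find (hex l), fun l k hk => not_le.1 (Nat.find_min (hex l) hk),
    fun l => Nat.find_spec (hex l), fun l l' hl => ?_⟩
  refine Nat.find_min' (hex l) ?_
  have h1 := Nat.find_spec (hex l')
  refine le_trans ?_ h1
  exact pow_le_pow_right₀ one_le_two hl

end Pool.Agent.W_7d29a1_PL
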