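import Mathlib

/-!
Leaf RISE: the rising sun count for finite sequences.
-/

set_option autoImplicit false

namespace Pool.Agent.W_7d29a1_PL.Rs33

open Finset

/-- The rising sun count, normalised form: `g` has partial sums `≤ 0` from the points of `B`,
`g ≤ -E` on `B`, and partial sums `≤ M` from `0`. -/
theorem rise0 (g : ℕ → ℝ) (N : ℕ) {E M : ℝ} (hE : 0 ≤ E) (B : Finset ℕ)
    (h1 : ∀ k ∈ B, k < N → g k ≤ -E)
    (h2 : ∀ k ∈ B, ∀ H : ℕ, k + H ≤ N → ∑ i ∈ range H, g (k + i) ≤ 0)
    (h3 : ∀ H : ℕ, H ≤ N → ∑ i ∈ range H, g i ≤ M) :
    ∀ n : ℕ, n ≤ N → ∑ i ∈ range n, g i ≤ M + E * (n - 2 * ((B ∩ range n).card : ℝ)) := by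
  classical
  intro n
  induction n using Nat.strong_induction_on with
  | _ n ih =>
    intro hn
    rcases Nat.eq_zero_or_pos n with h0 | h0
    · subst h0
      have h4 := h3 0 (Nat.zero_le _)
      simp only [range_zero, sum_empty, Nat.cast_zero, inter_empty, card_empty] at h4 ⊢
      linarith
    · obtain ⟨m, rfl⟩ : ∃ m, n = m + 1 := ⟨n - 1, by omega⟩
      by_cases hm : m ∈ B
      · have e1 : B ∩ range (m + 1) = insert m (B ∩ range m) := by
          ext x
          simp only [mem_inter, mem_range, mem_insert]
          constructor
          · rintro ⟨hx, hx2⟩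
            by_cases hxm : x = m
            · exact Or.inl hxm
            · exact Or.inr ⟨hx, by omega⟩
          · rintro (hx | ⟨hx, hx2⟩)
            · subst hx
              exact ⟨hm, by omega⟩
            · exact ⟨hx, by omega⟩
        have e2 : (B ∩ range (m + 1)).card = (B ∩ range m).card + 1 := by
          rw [e1, card_insert_of_notMem]
          simp
        have e3 := ih m (by omega) (by omega)
        have e4 := h1 m hm (by omega)
        rw [sum_range_succ, e2]
        push_cast
        linarith
      · by_cases hne : (B ∩ range m).Nonempty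
        · set b := (B ∩ range m).max' hne with hb
          have hbm : b ∈ B ∩ range m := max'_mem _ _
          have hbB : b ∈ B := (mem_inter.1 hbm).1
          have hbl : b < m := mem_range.1 (mem_inter.1 hbm).2
          have e1 : B ∩ range (m + 1) = insert b (B ∩ range b) := by
            ext x
            simp only [mem_inter, mem_range, mem_insert]
            constructor
            · rintro ⟨hx, hx2⟩
              have hxm : x ≠ m := fun h => hm (h ▸ hx)
              have hxb : x ≤ b := le_max' _ _ (mem_inter.2 ⟨hx, mem_range.2 (by omega)⟩)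
              by_cases hxe : x = b
              · exact Or.inl hxe
              · exact Or.inr ⟨hx, by omega⟩
            · rintro (hx | ⟨hx, hx2⟩)
              · subst hx
                exact ⟨hbB, by omega⟩
              · exact ⟨hx, by omega⟩
          have e2 : (B ∩ range (m + 1)).card = (B ∩ range b).card + 1 := by
            rw [e1, card_insert_of_notMem]
            simp
          have e3 := ih b (by omega) (by omega)
          have e4 := h2 b hbB (m + 1 - b) (by omega)
          have e5 : ∑ i ∈ range (m + 1), g i =
              ∑ i ∈ range b, g i + ∑ i ∈ range (m + 1 - b), g (b + i) := by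
            have e6 := sum_range_add g b (m + 1 - b)
            have e7 : b + (m + 1 - b) = m + 1 := by omega
            rw [e7] at e6
            exact e6
          have e8 : (b : ℝ) + 2 ≤ ((m + 1 : ℕ) : ℝ) := by
            have : b + 2 ≤ m + 1 := by omega
            exact_mod_cast this
          rw [e5, e2]
          push_cast at e8 ⊢
          nlinarith
        · have e1 : B ∩ range (m + 1) = ∅ := by
            ext x
            simp only [mem_inter, mem_range, notMem_empty, iff_false, not_and, not_lt]
            intro hx
            by_contra hcon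
            have hxm : x ≠ m := fun h => hm (h ▸ hx)
            exact hne ⟨x, mem_inter.2 ⟨hx, mem_range.2 (by omega)⟩⟩
          have e2 := h3 (m + 1) hn
          have e3 : 0 ≤ E * (((m + 1 : ℕ) : ℝ)) := by positivity
          rw [e1, card_empty]
          push_cast at e3 ⊢
          linarith

/-- Leaf RISE: the bad points are at most half of the points, up to the mean of `f`. -/
theorem rise33 (f : ℕ → ℝ) (N : ℕ) {E κ M : ℝ} (hE : 0 ≤ E) (B : Finset ℕ) (hB : B ⊆ range N)
    (h1 : ∀ k ∈ B, f k ≤ -(1 - κ) * E)
    (h2 : ∀ k ∈ B, ∀ H : ℕ, 1 ≤ H → k + H ≤ N → ∑ i ∈ range H, f (k + i) ≤ κ * H * E)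
    (h3 : ∀ H : ℕ, H ≤ N → ∑ i ∈ range H, f i ≤ κ * H * E + M) :
    ∑ k ∈ range N, f k ≤ κ * E * N + M - E * (2 * (B.card : ℝ) - N) := by
  have h := rise0 (fun k => f k - κ * E) N hE B (fun k hk _ => by
      have := h1 k hk
      linarith) (fun k hk H hH => by
      rcases Nat.eq_zero_or_pos H with h0 | h0
      · subst h0
        simp
      · have := h2 k hk H h0 hH
        rw [sum_sub_distrib, sum_const, card_range, nsmul_eq_mul]
        linarith) (fun H hH => by
      have := h3 H hH
      rw [sum_sub_distrib, sum_const, card_range, nsmul_eq_mul]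
      have h5 : ∑ i ∈ range H, f i - (H : ℝ) * (κ * E) ≤ M := by linarith
      exact h5) N le_rfl
  rw [sum_sub_distrib, sum_const, card_range, nsmul_eq_mul, inter_eq_left.2 hB] at h
  linarith

end Pool.Agent.W_7d29a1_PL.Rs33
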