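import Pool.Agent.W_7d29a1_SP.DefsSP
import Pool.Agent.W_7d29a1_Q29.Box98
import Pool.Agent.W_7d29a1_Q29.Qf39
import Pool.Agent.W_7d29a1_PL.Rise33

/-!
Leaf USE: the visited sites are lucky with positive frequency (no entropy of the skeleton).
-/

set_option autoImplicit false

namespace Pool.Agent.W_7d29a1_PL.Us33

open MeasureTheory ProbabilityTheory Filter Topology Pool.Agent.W_MP_7d29a1_pr
  Pool.Agent.W_7d29a1_h46 Pool.Agent.W_7d29a1_h46u Pool.Agent.W_7d29a1_D2.B35
  Pool.Agent.W_7d29a1_Q29 Pool.Agent.W_7d29a1_R34 Pool.Agent.W_7d29a1_SP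

open Finset (range Icc)

variable {d : ℕ}

/-- The remaining free energy at the time `t`, centred by the slope `la`. -/
noncomputable def uu (β : ℝ) (h : Vec d) (η : Env d) {n : ℕ} (la : ℝ) (w : Fin n → Step d)
    (t : ℕ) : ℝ :=
  X β h (sh t (pos w t) η) (n - t) - (n - t : ℕ) * la

/-- Minus the logarithm of the density of the next `s` steps. -/
noncomputable def DD (β : ℝ) (h : Vec d) (η : Env d) {n : ℕ} (w : Fin n → Step d)
    (t s : ℕ) : ℝ :=
  X β h (sh t (pos w t) η) (n - t) - X β h (sh (t + s) (pos w (t + s)) η) (n - (t + s)) -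
    X β h (sh t (pos w t) η) s

lemma sh_sh33 (t s : ℕ) (x z : Site d) (η : Env d) :
    sh s z (sh t x η) = sh (t + s) (x + z) η := by
  funext p
  unfold sh
  simp only
  congr 1
  ext1
  · simp only
    omega
  · simp only
    abel

lemma sh_zero33 (η : Env d) : sh 0 (0 : Site d) η = η := by
  funext p
  unfold sh
  simp

lemma pos_zero33 {n : ℕ} (w : Fin n → Step d) : pos w 0 = 0 := by
  unfold pos
  exact Finset.sum_eq_zero fun i _ => if_neg (Nat.not_lt_zero _)

lemma uu_sub33 (β : ℝ) (h : Vec d) (η : Env d) {n : ℕ} (la : ℝ) (w : Fin n → Step d) {t s : ℕ}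
    (hts : t + s ≤ n) :
    uu β h η la w t - uu β h η la w (t + s) =
      DD β h η w t s + (X β h (sh t (pos w t) η) s - s * la) := by
  unfold uu DD
  have h1 : ((n - t : ℕ) : ℝ) = ((n - (t + s) : ℕ) : ℝ) + s := by
    have : n - t = (n - (t + s)) + s := by omega
    rw [this]
    push_cast
    ring
  rw [h1]
  ring

lemma uu_end33 (β : ℝ) (h : Vec d) (η : Env d) {n : ℕ} (la : ℝ) (w : Fin n → Step d) :
    uu β h η la w n = 0 := by
  unfold uu X
  rw [Nat.sub_self, Z_zero, Real.log_one]
  simp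

lemma uu_start33 (β : ℝ) (h : Vec d) (η : Env d) {n : ℕ} (la : ℝ) (w : Fin n → Step d) :
    uu β h η la w 0 = X β h η n - n * la := by
  unfold uu
  rw [pos_zero33, sh_zero33, Nat.sub_zero]

/-- The walks split at the time `i`. -/
lemma marg33 (β : ℝ) (h : Vec d) (η : Env d) (i k : ℕ) (g : Site d → ℝ) :
    ∑ w : Fin (i + k) → Step d, wgt β h η w * g (pos w i) =
      ∑ s : Fin i → Step d, wgt β h η s * (g (pos s i) * Z β h (sh i (pos s i) η) k) := by
  rw [sum_glue]
  refine Finset.sum_congr rfl fun s _ => ?_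
  have h1 : ∀ q : Fin k → Step d, wgt β h η (Fin.append s q) * g (pos (Fin.append s q) i) =
      wgt β h η s * (g (pos s i) * wgt β h (sh i (pos s i) η) q) := fun q => by
    rw [wgt_glue, pos_glue_le s q le_rfl]
    ring
  rw [Finset.sum_congr rfl fun q _ => h1 q, ← Finset.mul_sum, ← Finset.mul_sum, ← Z_eq]

/-- The density has mean one. -/
lemma expDD33 (hd : 0 < d) (β : ℝ) (h : Vec d) (η : Env d) {n t s : ℕ} (hts : t + s ≤ n) :
    ∑ w : Fin n → Step d, wgt β h η w * Real.exp (DD β h η w t s) = Z β h η n := by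
  obtain ⟨l, rfl⟩ := Nat.exists_eq_add_of_le hts
  have hE : ∀ (ξ : Env d) (k : ℕ), Real.exp (X β h ξ k) = Z β h ξ k := fun ξ k =>
    Real.exp_log (Z_pos hd β h ξ k)
  have hl : t + s + l - (t + s) = l := by omega
  have hl2 : t + s + l - t = s + l := by omega
  have e1 : ∀ w : Fin (t + s + l) → Step d, Real.exp (DD β h η w t s) =
      Z β h (sh t (pos w t) η) (s + l) / Z β h (sh t (pos w t) η) s /
        Z β h (sh (t + s) (pos w (t + s)) η) l := by
    intro w
    unfold DD
    rw [hl, hl2, Real.exp_sub, Real.exp_sub, hE, hE, hE]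
    field_simp
  simp only [e1]
  -- split off the last `l` steps
  rw [sum_glue (i := t + s) (k := l)]
  have e2 : ∀ s1 : Fin (t + s) → Step d, ∑ q : Fin l → Step d, wgt β h η (Fin.append s1 q) *
      (Z β h (sh t (pos (Fin.append s1 q) t) η) (s + l) /
        Z β h (sh t (pos (Fin.append s1 q) t) η) s /
        Z β h (sh (t + s) (pos (Fin.append s1 q) (t + s)) η) l) =
      wgt β h η s1 * (Z β h (sh t (pos s1 t) η) (s + l) / Z β h (sh t (pos s1 t) η) s) := by
    intro s1
    have e3 : ∀ q : Fin l → Step d, wgt β h η (Fin.append s1 q) *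
        (Z β h (sh t (pos (Fin.append s1 q) t) η) (s + l) /
          Z β h (sh t (pos (Fin.append s1 q) t) η) s /
          Z β h (sh (t + s) (pos (Fin.append s1 q) (t + s)) η) l) =
        wgt β h η s1 * (Z β h (sh t (pos s1 t) η) (s + l) / Z β h (sh t (pos s1 t) η) s) /
          Z β h (sh (t + s) (pos s1 (t + s)) η) l *
          wgt β h (sh (t + s) (pos s1 (t + s)) η) q := by
      intro q
      rw [wgt_glue, pos_glue_le s1 q (Nat.le_add_right t s), pos_glue_le s1 q le_rfl]
      ring
    rw [Finset.sum_congr rfl fun q _ => e3 q, ← Finset.mul_sum, ← Z_eq,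
      div_mul_cancel₀ _ (Z_pos hd β h _ l).ne']
  rw [Finset.sum_congr rfl fun s1 _ => e2 s1,
    marg33 β h η t s fun x => Z β h (sh t x η) (s + l) / Z β h (sh t x η) s]
  have e4 : t + s + l = t + (s + l) := by ring
  rw [e4, Z_add]
  refine Finset.sum_congr rfl fun s1 _ => ?_
  rw [div_mul_cancel₀ _ (Z_pos hd β h _ s).ne']

/-- The pathwise inequality. -/
lemma path33 (β : ℝ) (h : Vec d) (η : Env d) {n H j N : ℕ} {la x κ a M : ℝ}
    (w : Fin n → Step d) (L : Set (Env d)) (hj : j + N * H ≤ n) (hx : 0 < x)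
    (hκ : 0 ≤ κ) (ha : 0 ≤ a)
    (h1 : ∀ ξ : Env d, ξ ∉ L → X β h ξ H - H * la ≤ -((1 - κ) * x))
    (h2 : ∀ ξ : Env d, ξ ∉ L → ∀ R : ℕ, 2 ≤ R → R * H ≤ n →
      X β h ξ (R * H) - (R * H : ℕ) * la ≤ κ * R * x)
    (hM : ∀ t : ℕ, t ≤ n → uu β h η la w 0 - uu β h η la w t ≤ M)
    (K : Finset ℕ) (hK : K ⊆ range N)
    (hKL : ∀ i ∈ K, sh (j + i * H) (pos w (j + i * H)) η ∉ L)
    (hKD : ∀ i ∈ K, ∀ R : ℕ, 1 ≤ R → i + R ≤ N → DD β h η w (j + i * H) (R * H) ≤ a * R) :
    2 * x * (K.card : ℝ) ≤ ((1 + κ) * x + a) * ((N : ℝ) + 1) + M + (n * la - X β h η n) +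
      uu β h η la w (j + N * H) := by
  classical
  set τ : ℕ → ℕ := fun i => if i = 0 then 0 else j + (i - 1) * H with hτ
  set f : ℕ → ℝ := fun i => uu β h η la w (τ i) - uu β h η la w (τ (i + 1)) with hf
  have hτ1 : ∀ i, τ (i + 1) = j + i * H := fun i => by
    simp only [hτ, Nat.add_eq_zero_iff, one_ne_zero, and_false, if_false, Nat.add_sub_cancel]
  have hτ0 : τ 0 = 0 := by simp only [hτ, if_true]
  have tel : ∀ k R : ℕ, ∑ i ∈ range R, f (k + i) =
      uu β h η la w (τ k) - uu β h η la w (τ (k + R)) := by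
    intro k R
    induction R with
    | zero => simp
    | succ R ih =>
      rw [Finset.sum_range_succ, ih]
      simp only [hf]
      have : k + R + 1 = k + (R + 1) := by ring
      rw [this]
      ring
  set κ' : ℝ := κ + a / x with hκ'
  have hκ0 : 0 ≤ κ' := by positivity
  have hκx : κ' * x = κ * x + a := by
    rw [hκ', add_mul, div_mul_cancel₀ _ hx.ne']
  have hle : ∀ i ≤ N, j + i * H ≤ n := fun i hi =>
    le_trans (Nat.add_le_add_left (Nat.mul_le_mul_right H hi) j) hj
  -- one step of `R` blocks from a bad block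
  have key : ∀ i ∈ K, ∀ R : ℕ, 1 ≤ R → i + R ≤ N →
      uu β h η la w (j + i * H) - uu β h η la w (j + (i + R) * H) ≤
        a * R + (X β h (sh (j + i * H) (pos w (j + i * H)) η) (R * H) - (R * H : ℕ) * la) := by
    intro i hi R hR hiR
    have e1 : j + (i + R) * H = (j + i * H) + R * H := by ring
    have e2 : (j + i * H) + R * H ≤ n := by
      rw [← e1]
      exact hle _ hiR
    rw [e1, uu_sub33 β h η la w e2]
    have := hKD i hi R hR hiR
    linarith
  set B : Finset ℕ := K.image (fun i => i + 1) with hB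
  have hBc : B.card = K.card := Finset.card_image_of_injective _ (add_left_injective 1)
  have hBs : B ⊆ range (N + 1) := by
    intro k hk
    obtain ⟨i, hi, rfl⟩ := Finset.mem_image.1 hk
    have := Finset.mem_range.1 (hK hi)
    exact Finset.mem_range.2 (by omega)
  have hr := Rs33.rise33 f (N + 1) (E := x) (κ := κ') (M := M) hx.le B hBs ?_ ?_ ?_
  · have h0 := tel 0 (N + 1)
    simp only [zero_add] at h0
    rw [h0, hτ0, hτ1, uu_start33, hBc] at hr
    push_cast at hr
    have e3 : κ' * x * ((N : ℝ) + 1) = (κ * x + a) * ((N : ℝ) + 1) := by rw [hκx]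
    rw [e3] at hr
    nlinarith [hr]
  · intro k hk
    obtain ⟨i, hi, rfl⟩ := Finset.mem_image.1 hk
    have hiN := Finset.mem_range.1 (hK hi)
    have e1 := key i hi 1 le_rfl (by omega)
    have e2 := h1 _ (hKL i hi)
    simp only [hf]
    rw [hτ1, hτ1]
    rw [one_mul, Nat.cast_one, mul_one] at e1
    have e3 : -(1 - κ') * x = -((1 - κ) * x) + a := by
      have : -(1 - κ') * x = -x + κ' * x := by ring
      rw [this, hκx]
      ring
    rw [e3]
    linarith
  · intro k hk R hR hkR
    obtain ⟨i, hi, rfl⟩ := Finset.mem_image.1 hk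
    rw [tel]
    have e0 : i + 1 + R = (i + R) + 1 := by ring
    rw [e0, hτ1, hτ1]
    have e1 := key i hi R hR (by omega)
    have e4 : κ' * R * x = (κ * x + a) * R := by
      have : κ' * R * x = (κ' * x) * R := by ring
      rw [this, hκx]
    rw [e4]
    rcases Nat.lt_or_ge R 2 with h3 | h3
    · have hR1 : R = 1 := by omega
      subst hR1
      have e2 := h1 _ (hKL i hi)
      rw [one_mul, Nat.cast_one, mul_one] at e1
      rw [Nat.cast_one, mul_one]
      nlinarith
    · have e5 : R * H ≤ n := by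
        have e6 : j + (i + R) * H ≤ n := hle _ (by omega)
        have e7 : R * H ≤ (i + R) * H := Nat.mul_le_mul_right H (by omega)
        omega
      have e2 := h2 _ (hKL i hi) R h3 e5
      nlinarith
  · intro R hR
    have h0 := tel 0 R
    simp only [zero_add] at h0
    rw [h0, hτ0]
    have e1 : τ R ≤ n := by
      rcases R with _ | R
      · rw [hτ0]
        exact Nat.zero_le _
      · rw [hτ1]
        exact hle _ (by omega)
    have e2 := hM _ e1
    have e3 : 0 ≤ κ' * R * x := by positivity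
    linarith

/-- The offsets. -/
lemma offs33 {n H : ℕ} (hH : 1 ≤ H) (g : ℕ → ℝ) :
    ∑ j ∈ range H, ∑ i ∈ range ((n - j) / H), g (j + i * H) = ∑ t ∈ range (n + 1 - H), g t := by
  rw [Finset.sum_sigma']
  refine Finset.sum_bij' (fun p _ => p.1 + p.2 * H) (fun t _ => ⟨t % H, t / H⟩) ?_ ?_ ?_ ?_ ?_
  · rintro ⟨j, i⟩ hp
    rw [Finset.mem_sigma] at hp
    have hj := Finset.mem_range.1 hp.1
    have hi := Finset.mem_range.1 hp.2
    have e1 : (i + 1) * H ≤ n - j := by
      have := Nat.div_mul_le_self (n - j) H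
      exact (Nat.mul_le_mul_right H hi).trans this
    rw [Finset.mem_range]
    simp only
    rw [add_mul, one_mul] at e1
    omega
  · intro t ht
    have ht' := Finset.mem_range.1 ht
    rw [Finset.mem_sigma]
    simp only [Finset.mem_range]
    refine ⟨Nat.mod_lt _ (by omega), ?_⟩
    have e1 := Nat.mod_add_div t H
    have e2 : t % H < H := Nat.mod_lt _ (by omega)
    rw [Nat.lt_iff_add_one_le, Nat.le_div_iff_mul_le (by omega)]
    rw [add_mul, one_mul, mul_comm (t / H) H]
    omega
  · rintro ⟨j, i⟩ hp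
    rw [Finset.mem_sigma] at hp
    have hj := Finset.mem_range.1 hp.1
    have e1 : (j + i * H) % H = j := by
      rw [Nat.add_mul_mod_self_right]
      exact Nat.mod_eq_of_lt hj
    have e2 : (j + i * H) / H = i := by
      rw [Nat.add_mul_div_right _ _ (by omega), Nat.div_eq_of_lt hj, zero_add]
    simp only [e1, e2]
  · intro t _
    simp only
    rw [mul_comm]
    exact Nat.mod_add_div t H
  · rintro ⟨j, i⟩ _
    rfl

/-- A geometric sum. -/
lemma geo33 {a : ℝ} (ha : Real.log 2 ≤ a) (N : ℕ) :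
    ∑ R ∈ Icc 1 N, Real.exp (-(a * R)) ≤ 2 * Real.exp (-a) - 2 * Real.exp (-(a * (N + 1))) := by
  have hr : Real.exp (-a) ≤ 1 / 2 := by
    have := Real.exp_le_exp.2 (neg_le_neg ha)
    rw [Real.exp_neg (Real.log 2), Real.exp_log (by norm_num)] at this
    linarith
  induction N with
  | zero => simp
  | succ N ih =>
    rw [Finset.sum_Icc_succ_top (by omega)]
    push_cast
    have e1 : Real.exp (-(a * ((N : ℝ) + 1 + 1))) =
        Real.exp (-(a * ((N : ℝ) + 1))) * Real.exp (-a) := by
      rw [← Real.exp_add]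
      congr 1
      ring
    have e2 := Real.exp_pos (-(a * ((N : ℝ) + 1)))
    rw [e1]
    nlinarith

/-- The indicator of the unlucky environments. -/
noncomputable def bd (L : Set (Env d)) (ξ : Env d) : ℝ := Lᶜ.indicator (fun _ => (1 : ℝ)) ξ

lemma bd_le33 (L : Set (Env d)) (ξ : Env d) : bd L ξ ≤ 1 := by
  unfold bd
  by_cases hξ : ξ ∈ Lᶜ
  · rw [Set.indicator_of_mem hξ]
  · rw [Set.indicator_of_notMem hξ]
    exact zero_le_one

lemma bd_nn33 (L : Set (Env d)) (ξ : Env d) : 0 ≤ bd L ξ := by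
  unfold bd
  exact Set.indicator_nonneg (fun _ _ => zero_le_one) ξ

lemma bd_mem33 {L : Set (Env d)} {ξ : Env d} (hξ : ξ ∈ L) : bd L ξ = 0 := by
  unfold bd
  have h1 : ξ ∉ Lᶜ := fun h2 => h2 hξ
  rw [Set.indicator_of_notMem h1]

open Classical in
/-- The bad blocks are counted by `K` and the exceptional blocks. -/
lemma cnt33 (β : ℝ) (h : Vec d) (η : Env d) {n H j N : ℕ} {a : ℝ}
    (w : Fin n → Step d) (L : Set (Env d)) :
    ∑ i ∈ range N, bd L (sh (j + i * H) (pos w (j + i * H)) η) ≤
      (((range N).filter fun i => sh (j + i * H) (pos w (j + i * H)) η ∉ L ∧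
        ∀ R : ℕ, 1 ≤ R → i + R ≤ N → DD β h η w (j + i * H) (R * H) ≤ a * R).card : ℝ) +
      ∑ i ∈ range N, ∑ R ∈ Icc 1 N, (if i + R ≤ N then
        Real.exp (DD β h η w (j + i * H) (R * H) - a * R) else 0) := by
  rw [Finset.card_filter, Nat.cast_sum, ← Finset.sum_add_distrib]
  refine Finset.sum_le_sum fun i hi => ?_
  have hnn : ∀ R ∈ Icc 1 N, (0 : ℝ) ≤ (if i + R ≤ N then
      Real.exp (DD β h η w (j + i * H) (R * H) - a * R) else 0) := fun R _ => by
    split_ifs
    · exact (Real.exp_pos _).le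
    · exact le_rfl
  by_cases hL : sh (j + i * H) (pos w (j + i * H)) η ∈ L
  · rw [bd_mem33 hL]
    have := Finset.sum_nonneg hnn
    positivity
  · by_cases hR : ∀ R : ℕ, 1 ≤ R → i + R ≤ N → DD β h η w (j + i * H) (R * H) ≤ a * R
    · rw [if_pos ⟨hL, hR⟩]
      have h1 := bd_le33 L (sh (j + i * H) (pos w (j + i * H)) η)
      have h2 := Finset.sum_nonneg hnn
      push_cast
      linarith
    · push Not at hR
      obtain ⟨R, hR1, hR2, hR3⟩ := hR
      have h1 := bd_le33 L (sh (j + i * H) (pos w (j + i * H)) η)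
      have h2 := Finset.single_le_sum hnn (Finset.mem_Icc.2 ⟨hR1, by omega⟩ : R ∈ Icc 1 N)
      rw [if_pos hR2] at h2
      have h3 : 1 ≤ Real.exp (DD β h η w (j + i * H) (R * H) - a * R) :=
        Real.one_le_exp (by linarith)
      have h4 : (0 : ℝ) ≤ ((if sh (j + i * H) (pos w (j + i * H)) η ∉ L ∧
        ∀ R : ℕ, 1 ≤ R → i + R ≤ N → DD β h η w (j + i * H) (R * H) ≤ a * R then 1 else 0 : ℕ) :
          ℝ) := Nat.cast_nonneg _
      linarith

/-- The marginals of the polymer. -/
lemma qt33 (hd : 0 < d) (β : ℝ) (h : Vec d) (η : Env d) {n t : ℕ} (ht : t ≤ n)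
    (g : Site d → ℝ) : ∑ w : Fin n → Step d, wgt β h η w * g (pos w t) =
      Z β h η n * ∑ y ∈ boxF d t, Qt β h n t y η * g y := by
  classical
  have hZ := Z_pos hd β h η n
  rw [Finset.mul_sum]
  have e1 : ∀ y ∈ boxF d t, Z β h η n * (Qt β h n t y η * g y) =
      ∑ w : Fin n → Step d, (if pos w t = y then wgt β h η w * g y else 0) := by
    intro y _
    rw [Qt_eq39 β h ht, ← mul_assoc, mul_div_cancel₀ _ hZ.ne', Finset.sum_mul]
    refine Finset.sum_congr rfl fun w _ => ?_
    split_ifs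
    · rfl
    · rw [zero_mul]
  rw [Finset.sum_congr rfl e1, Finset.sum_comm]
  refine Finset.sum_congr rfl fun w _ => ?_
  rw [Finset.sum_ite_eq, if_pos (pos_mem_boxF39 w le_rfl)]

/-- One offset, one environment. -/
lemma walk33 (hd : 0 < d) (β : ℝ) (h : Vec d) (η : Env d) {n H j N : ℕ}
    {la x κ a Ms ue : ℝ} (L : Set (Env d)) (hj : j + N * H ≤ n) (hx : 0 < x)
    (hκ : 0 ≤ κ) (ha : Real.log 2 ≤ a)
    (h1 : ∀ ξ : Env d, ξ ∉ L → X β h ξ H - H * la ≤ -((1 - κ) * x))
    (h2 : ∀ ξ : Env d, ξ ∉ L → ∀ R : ℕ, 2 ≤ R → R * H ≤ n →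
      X β h ξ (R * H) - (R * H : ℕ) * la ≤ κ * R * x)
    (hMs : ∀ t : ℕ, t ≤ n → X β h η t - t * la ≤ Ms)
    (hue : ∀ y ∈ boxF d n, X β h (sh (j + N * H) y η) (n - (j + N * H)) -
      (n - (j + N * H) : ℕ) * la ≤ ue) :
    2 * x * ∑ i ∈ range N, ∑ y ∈ boxF d (j + i * H), Qt β h n (j + i * H) y η *
      bd L (sh (j + i * H) y η) ≤
      ((1 + κ) * x + a) * ((N : ℝ) + 1) + Ms + Real.log (n + 1) + (n * la - X β h η n) + ue +
        2 * x * (N * (2 * Real.exp (-a))) := by
  classical
  have hZ := Z_pos hd β h η n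
  have ha0 : 0 ≤ a := (Real.log_nonneg (by norm_num)).trans ha
  have hle : ∀ i ≤ N, j + i * H ≤ n := fun i hi =>
    le_trans (Nat.add_le_add_left (Nat.mul_le_mul_right H hi) j) hj
  set S : (Fin n → Step d) → ℝ := fun w => ∑ t ∈ range (n + 1), Real.exp (DD β h η w 0 t) with hS
  set T : (Fin n → Step d) → ℝ := fun w => ∑ i ∈ range N, ∑ R ∈ Icc 1 N, (if i + R ≤ N then
        Real.exp (DD β h η w (j + i * H) (R * H) - a * R) else 0) with hT
  set c0 : ℝ := ((1 + κ) * x + a) * ((N : ℝ) + 1) + Ms + Real.log (n + 1) - 1 +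
    (n * la - X β h η n) + ue with hc0
  have hn1 : (0 : ℝ) < (n : ℝ) + 1 := by positivity
  -- pathwise
  have hw : ∀ w : Fin n → Step d,
      2 * x * ∑ i ∈ range N, bd L (sh (j + i * H) (pos w (j + i * H)) η) ≤
        c0 + S w / (n + 1) + 2 * x * T w := by
    intro w
    have e1 := cnt33 β h η (H := H) (j := j) (N := N) (a := a) w L
    set K := (range N).filter fun i => sh (j + i * H) (pos w (j + i * H)) η ∉ L ∧
        ∀ R : ℕ, 1 ≤ R → i + R ≤ N → DD β h η w (j + i * H) (R * H) ≤ a * R with hK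
    have e2 := path33 β h η (la := la) (x := x) (κ := κ) (a := a)
      (M := Ms + (Real.log (n + 1) + S w / (n + 1) - 1)) w L hj hx hκ ha0 h1 h2 (by
        intro t ht
        have f1 := uu_sub33 β h η la w (t := 0) (s := t) (by omega)
        rw [pos_zero33, sh_zero33, zero_add] at f1
        have f2 := hMs t ht
        have f3 : Real.exp (DD β h η w 0 t) ≤ S w :=
          Finset.single_le_sum (f := fun t => Real.exp (DD β h η w 0 t))
            (fun t _ => (Real.exp_pos _).le) (Finset.mem_range.2 (by omega))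
        have f4 : 0 < S w := (Real.exp_pos _).trans_le f3
        have f5 : DD β h η w 0 t ≤ Real.log (S w) := by
          rw [Real.le_log_iff_exp_le f4]
          exact f3
        have f6 : Real.log (S w) = Real.log (n + 1) + Real.log (S w / (n + 1)) := by
          rw [← Real.log_mul hn1.ne' (div_pos f4 hn1).ne', mul_div_cancel₀ _ hn1.ne']
        have f7 := Real.log_le_sub_one_of_pos (div_pos f4 hn1)
        linarith) K (Finset.filter_subset _ _)
      (fun i hi => (Finset.mem_filter.1 hi).2.1) (fun i hi => (Finset.mem_filter.1 hi).2.2)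
    have e3 : uu β h η la w (j + N * H) ≤ ue := by
      unfold uu
      exact hue _ (pos_mem_boxF39 w hj)
    have e4 := mul_le_mul_of_nonneg_left e1 (by positivity : 0 ≤ 2 * x)
    rw [mul_add] at e4
    rw [hc0]
    linarith
  -- sum over the walks
  have h3 : ∑ w : Fin n → Step d, wgt β h η w *
      (2 * x * ∑ i ∈ range N, bd L (sh (j + i * H) (pos w (j + i * H)) η)) ≤
      ∑ w : Fin n → Step d, wgt β h η w * (c0 + S w / (n + 1) + 2 * x * T w) :=
    Finset.sum_le_sum fun w _ => mul_le_mul_of_nonneg_left (hw w) (wgt_pos β h η w).le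
  have h4 : ∑ w : Fin n → Step d, wgt β h η w *
      (2 * x * ∑ i ∈ range N, bd L (sh (j + i * H) (pos w (j + i * H)) η)) =
      Z β h η n * (2 * x * ∑ i ∈ range N, ∑ y ∈ boxF d (j + i * H), Qt β h n (j + i * H) y η *
      bd L (sh (j + i * H) y η)) := by
    have e1 : ∀ w : Fin n → Step d, wgt β h η w *
        (2 * x * ∑ i ∈ range N, bd L (sh (j + i * H) (pos w (j + i * H)) η)) =
        2 * x * ∑ i ∈ range N, wgt β h η w * bd L (sh (j + i * H) (pos w (j + i * H)) η) := by
      intro w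
      rw [Finset.mul_sum, Finset.mul_sum, Finset.mul_sum]
      refine Finset.sum_congr rfl fun i _ => ?_
      ring
    rw [Finset.sum_congr rfl fun w _ => e1 w, ← Finset.mul_sum, Finset.sum_comm]
    have e2 : ∀ i ∈ range N, ∑ w : Fin n → Step d, wgt β h η w *
        bd L (sh (j + i * H) (pos w (j + i * H)) η) =
        Z β h η n * ∑ y ∈ boxF d (j + i * H), Qt β h n (j + i * H) y η *
        bd L (sh (j + i * H) y η) := fun i hi =>
      qt33 hd β h η (hle i (Finset.mem_range.1 hi).le) fun y => bd L (sh (j + i * H) y η)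
    rw [Finset.sum_congr rfl e2, ← Finset.mul_sum]
    ring
  have h5 : ∑ w : Fin n → Step d, wgt β h η w * S w = Z β h η n * (n + 1) := by
    simp only [hS, Finset.mul_sum]
    rw [Finset.sum_comm]
    have e1 : ∀ t ∈ range (n + 1), ∑ w : Fin n → Step d, wgt β h η w *
        Real.exp (DD β h η w 0 t) = Z β h η n := fun t ht =>
      expDD33 hd β h η (by
        have := Finset.mem_range.1 ht
        omega)
    rw [Finset.sum_congr rfl e1, Finset.sum_const, Finset.card_range, nsmul_eq_mul]
    push_cast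
    ring
  have h6 : ∑ w : Fin n → Step d, wgt β h η w * T w ≤ Z β h η n * (N * (2 * Real.exp (-a))) := by
    simp only [hT, Finset.mul_sum]
    rw [Finset.sum_comm]
    have e1 : ∀ i ∈ range N, ∑ w : Fin n → Step d, ∑ R ∈ Icc 1 N, wgt β h η w *
        (if i + R ≤ N then Real.exp (DD β h η w (j + i * H) (R * H) - a * R) else 0) ≤
        Z β h η n * (2 * Real.exp (-a)) := by
      intro i _
      rw [Finset.sum_comm]
      have e2 : ∀ R ∈ Icc 1 N, ∑ w : Fin n → Step d, wgt β h η w *
          (if i + R ≤ N then Real.exp (DD β h η w (j + i * H) (R * H) - a * R) else 0) ≤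
          Z β h η n * Real.exp (-(a * R)) := by
        intro R _
        by_cases hR : i + R ≤ N
        · have e3 : ∀ w : Fin n → Step d, wgt β h η w * (if i + R ≤ N then
              Real.exp (DD β h η w (j + i * H) (R * H) - a * R) else 0) =
              wgt β h η w * Real.exp (DD β h η w (j + i * H) (R * H)) *
                Real.exp (-(a * R)) := by
            intro w
            rw [if_pos hR, mul_assoc, ← Real.exp_add]
            rfl
          rw [Finset.sum_congr rfl fun w _ => e3 w, ← Finset.sum_mul, expDD33 hd β h η (by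
            have e4 : j + (i + R) * H ≤ n := hle _ hR
            have e5 : j + (i + R) * H = j + i * H + R * H := by ring
            omega)]
        · simp only [if_neg hR, mul_zero, Finset.sum_const_zero]
          exact (mul_pos hZ (Real.exp_pos _)).le
      refine (Finset.sum_le_sum e2).trans ?_
      rw [← Finset.mul_sum]
      refine mul_le_mul_of_nonneg_left ?_ hZ.le
      have e6 := geo33 ha N
      have e7 := Real.exp_pos (-(a * ((N : ℝ) + 1)))
      linarith
    refine (Finset.sum_le_sum e1).trans (le_of_eq ?_)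
    rw [Finset.sum_const, Finset.card_range, nsmul_eq_mul]
    ring
  have h7 : ∑ w : Fin n → Step d, wgt β h η w * (c0 + S w / (n + 1) + 2 * x * T w) =
      Z β h η n * c0 + (∑ w : Fin n → Step d, wgt β h η w * S w) / (n + 1) +
        2 * x * ∑ w : Fin n → Step d, wgt β h η w * T w := by
    rw [Z_eq, Finset.sum_mul, Finset.sum_div, Finset.mul_sum, ← Finset.sum_add_distrib,
      ← Finset.sum_add_distrib]
    refine Finset.sum_congr rfl fun w _ => ?_
    ring
  rw [h4, h7, h5] at h3
  have h8 := mul_le_mul_of_nonneg_left h6 (by positivity : 0 ≤ 2 * x)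
  have h9 : Z β h η n * (n + 1) / (n + 1) = Z β h η n := by
    rw [mul_div_assoc, div_self hn1.ne', mul_one]
  rw [h9] at h3
  have h10 : Z β h η n * (2 * x * ∑ i ∈ range N, ∑ y ∈ boxF d (j + i * H),
      Qt β h n (j + i * H) y η * bd L (sh (j + i * H) y η)) ≤
      Z β h η n * (((1 + κ) * x + a) * ((N : ℝ) + 1) + Ms + Real.log (n + 1) +
        (n * la - X β h η n) + ue + 2 * x * (N * (2 * Real.exp (-a)))) := by
    refine h3.trans ?_
    have e1 : Z β h η n * (((1 + κ) * x + a) * ((N : ℝ) + 1) + Ms + Real.log (n + 1) +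
        (n * la - X β h η n) + ue + 2 * x * (N * (2 * Real.exp (-a)))) =
        Z β h η n * c0 + Z β h η n + 2 * x * (Z β h η n * (N * (2 * Real.exp (-a)))) := by
      rw [hc0]
      ring
    rw [e1]
    linarith
  exact le_of_mul_le_mul_left h10 hZ

end Pool.Agent.W_7d29a1_PL.Us33
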