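import Pool.Agent.W_7d29a1_PL.DefsPL
import Pool.Agent.W_7d29a1_PL.Use33
import Pool.Agent.W_7d29a1_Q29.Vsd61

/-!
USE without an entropy of the skeleton: the error is `10 n log (1 + x)`.
-/

set_option autoImplicit false

namespace Pool.Agent.W_7d29a1_PL

open MeasureTheory ProbabilityTheory Filter Topology Pool.Agent.W_MP_7d29a1_pr
  Pool.Agent.W_7d29a1_h46 Pool.Agent.W_7d29a1_h46u Pool.Agent.W_7d29a1_D2.B35
  Pool.Agent.W_7d29a1_Q29 Pool.Agent.W_7d29a1_R34 Pool.Agent.W_7d29a1_SP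

open Finset (range Icc)

/-- USE, without `log H`. -/
def UseL (d : ℕ) (ρ : Measure ℝ) (β : ℝ) : Prop := ∀ h : Vec d, ∃ C : ℝ, 0 ≤ C ∧
  ∀ (n H : ℕ) (x κ K : ℝ), 1 ≤ H → H ≤ n → 1 ≤ x → 0 < κ → κ ≤ 1 / 2 → 0 < K →
    (∀ k : ℕ, k ≤ n → Va ρ β h k ≤ K) →
    (1 - κ) * x * (n - H) ≤ 2 * x * (∑ t ∈ Finset.range n, us ρ β h n t (Lk ρ β h n H 0 x κ 0)) +
      H * (En ρ β h n + C * (H + 1) + C * x + C * Real.log (n + 1) +
        C * Real.sqrt ((n + 1) * K)) + 10 * n * Real.log (1 + x)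

namespace Us33

variable {d : ℕ} {ρ : Measure ℝ}

lemma Lk_meas33 (β : ℝ) (h : Vec d) (n H S : ℕ) (x κ z : ℝ) :
    MeasurableSet (Lk ρ β h n H S x κ z) := by
  unfold Lk
  refine MeasurableSet.union ?_ ?_
  · have e : Lg0 ρ β h H S x κ z = ⋃ s : ℕ, ⋃ (_ : s ≤ S), {η : Env d |
        ((H + s : ℕ) : ℝ) * lam ρ β h - (1 - κ) * x - z ≤ X β h η (H + s)} := by
      ext η
      simp only [Lg0, Set.mem_ofPred_eq, Set.mem_iUnion, exists_prop]
    rw [e]
    exact MeasurableSet.iUnion fun s => MeasurableSet.iUnion fun _ =>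
      measurableSet_le measurable_const (measurable_X β h _)
  · have e : {η : Env d | ∃ N : ℕ, 2 ≤ N ∧ N * H ≤ n ∧ η ∈ LgN ρ β h H S x κ z N} =
        ⋃ N : ℕ, ⋃ (_ : 2 ≤ N), ⋃ (_ : N * H ≤ n), ⋃ s : ℕ, ⋃ (_ : s ≤ S), {η : Env d |
          ((N * H + s : ℕ) : ℝ) * lam ρ β h + κ * N * x - z ≤ X β h η (N * H + s)} := by
      ext η
      simp only [LgN, Set.mem_ofPred_eq, Set.mem_iUnion, exists_prop]
    rw [e]
    exact MeasurableSet.iUnion fun N => MeasurableSet.iUnion fun _ =>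
      MeasurableSet.iUnion fun _ => MeasurableSet.iUnion fun s => MeasurableSet.iUnion fun _ =>
      measurableSet_le measurable_const (measurable_X β h _)

/-- The mass of the unlucky sites. -/
noncomputable def GG (β : ℝ) (h : Vec d) (n : ℕ) (L : Set (Env d)) (t : ℕ) (η : Env d) : ℝ :=
  ∑ y ∈ boxF d t, Qt β h n t y η * bd L (sh t y η)

lemma bd_add33 (L : Set (Env d)) (ξ : Env d) :
    bd L ξ + L.indicator (fun _ => (1 : ℝ)) ξ = 1 := by
  by_cases hξ : ξ ∈ L
  · rw [bd_mem33 hξ, Set.indicator_of_mem hξ, zero_add]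
  · have h1 : ξ ∈ Lᶜ := hξ
    unfold bd
    rw [Set.indicator_of_mem h1, Set.indicator_of_notMem hξ, add_zero]

lemma GG_add33 (hd : 0 < d) (β : ℝ) (h : Vec d) {n t : ℕ} (ht : t ≤ n) (L : Set (Env d))
    (η : Env d) : GG β h n L t η +
      ∑ y ∈ boxF d t, Qt β h n t y η * L.indicator (fun _ => (1 : ℝ)) (sh t y η) = 1 := by
  unfold GG
  rw [← Finset.sum_add_distrib]
  refine Eq.trans (Finset.sum_congr rfl fun y _ => ?_) (Qt_sum_box39 hd β h ht le_rfl η)
  rw [← mul_add, bd_add33, mul_one]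

lemma GG_nn33 (β : ℝ) (h : Vec d) (n : ℕ) (L : Set (Env d)) (t : ℕ) (η : Env d) :
    0 ≤ GG β h n L t η :=
  Finset.sum_nonneg fun y _ => mul_nonneg (Qt_nonneg39 β h n t y η) (bd_nn33 L _)

lemma GG_int33 [IsProbabilityMeasure ρ] (hd : 0 < d) (β : ℝ) (h : Vec d) {n t : ℕ} (ht : t ≤ n)
    {L : Set (Env d)} (hL : MeasurableSet L) : Integrable (GG β h n L t) (law d ρ) := by
  have hm : Measurable (GG β h n L t) := by
    unfold GG
    refine Finset.measurable_sum _ fun y _ => (measurable_Qt39 β h n t y).mul ?_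
    unfold bd
    exact (measurable_const.indicator hL.compl).comp (measurable_sh t y)
  refine Integrable.mono' (integrable_const (1 : ℝ)) hm.aestronglyMeasurable
    (Eventually.of_forall fun η => ?_)
  rw [Real.norm_eq_abs, abs_of_nonneg (GG_nn33 β h n L t η)]
  have h1 := GG_add33 hd β h ht L η
  have h2 : 0 ≤ ∑ y ∈ boxF d t, Qt β h n t y η * L.indicator (fun _ => (1 : ℝ)) (sh t y η) :=
    Finset.sum_nonneg fun y _ => mul_nonneg (Qt_nonneg39 β h n t y η)
      (Set.indicator_nonneg (fun _ _ => zero_le_one) _)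
  linarith

lemma GG_us33 [IsProbabilityMeasure ρ] (hd : 0 < d) (β : ℝ) (h : Vec d) {n t : ℕ} (ht : t ≤ n)
    {L : Set (Env d)} (hL : MeasurableSet L) :
    us ρ β h n t L = 1 - ∫ η, GG β h n L t η ∂(law d ρ) := by
  have h1 : ∀ η : Env d, ∑ y ∈ boxF d t, Qt β h n t y η *
      L.indicator (fun _ => (1 : ℝ)) (sh t y η) = 1 - GG β h n L t η := fun η => by
    have := GG_add33 hd β h ht L η
    linarith
  unfold us
  simp only [h1]
  rw [integral_sub (integrable_const _) (GG_int33 hd β h ht hL)]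
  simp

/-- The last piece of the offset `j`. -/
noncomputable def uE (ρ : Measure ℝ) (β : ℝ) (h : Vec d) (n H s q : ℕ) (η : Env d) : ℝ :=
  H * |lam ρ β h| + Real.log ((boxF d n).card * (Phi h * ∫ t, Real.exp (β * t) ∂ρ) ^ q) +
    (∑ y ∈ boxF d n, Z β h (sh s y η) q) /
      ((boxF d n).card * (Phi h * ∫ t, Real.exp (β * t) ∂ρ) ^ q) - 1

lemma mu_pos33 [IsProbabilityMeasure ρ] (hd : 0 < d) (hρ : EM ρ) (β : ℝ) (h : Vec d) :
    0 < Phi h * ∫ t, Real.exp (β * t) ∂ρ := by
  refine mul_pos (Phi_pos61 hd h) ?_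
  exact integral_exp_pos (hρ β)

lemma card_pos33 (n : ℕ) : (0 : ℝ) < (boxF d n).card := by
  rw [card_boxF]
  positivity

lemma uE_le33 [IsProbabilityMeasure ρ] (hd : 0 < d) (hρ : EM ρ) (β : ℝ) (h : Vec d)
    {n H s q : ℕ} (hq : q ≤ H) (η : Env d) {y : Site d} (hy : y ∈ boxF d n) :
    X β h (sh s y η) q - q * lam ρ β h ≤ uE ρ β h n H s q η := by
  have hμ := mu_pos33 (d := d) hd hρ β h
  have hc : 0 < (boxF d n).card * (Phi h * ∫ t, Real.exp (β * t) ∂ρ) ^ q :=
    mul_pos (card_pos33 n) (pow_pos hμ q)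
  set c := (boxF d n).card * (Phi h * ∫ t, Real.exp (β * t) ∂ρ) ^ q with hcd
  have h1 : Z β h (sh s y η) q ≤ ∑ y ∈ boxF d n, Z β h (sh s y η) q :=
    Finset.single_le_sum (f := fun y => Z β h (sh s y η) q)
      (fun y _ => (Z_pos hd β h _ q).le) hy
  have h0 := Z_pos hd β h (sh s y η) q
  set T := ∑ y ∈ boxF d n, Z β h (sh s y η) q with hT
  have hT0 : 0 < T := h0.trans_le h1
  have h2 : X β h (sh s y η) q ≤ Real.log T := Real.log_le_log h0 h1
  have h3 : Real.log T = Real.log c + Real.log (T / c) := by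
    rw [← Real.log_mul hc.ne' (div_pos hT0 hc).ne', mul_div_cancel₀ _ hc.ne']
  have h4 := Real.log_le_sub_one_of_pos (div_pos hT0 hc)
  have h5 : -(q * lam ρ β h) ≤ H * |lam ρ β h| := by
    have e1 : -(q * lam ρ β h) ≤ q * |lam ρ β h| := by
      have := neg_abs_le (lam ρ β h)
      have hq0 : (0 : ℝ) ≤ q := Nat.cast_nonneg q
      nlinarith
    have e2 : (q : ℝ) ≤ H := by exact_mod_cast hq
    exact e1.trans (mul_le_mul_of_nonneg_right e2 (abs_nonneg _))
  unfold uE
  rw [← hcd, ← hT]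
  linarith

lemma uE_int33 [IsProbabilityMeasure ρ] (hρ : EM ρ) (β : ℝ) (h : Vec d)
    (n H s q : ℕ) : Integrable (uE ρ β h n H s q) (law d ρ) := by
  unfold uE
  have h1 : ∀ y : Site d, Integrable (fun η => Z β h (sh s y η) q) (law d ρ) := fun y =>
    (mp_sh s y).integrable_comp_of_integrable (annealed61 hρ β h q).1
  exact ((integrable_const _).add ((integrable_finsetSum _ fun y _ => h1 y).div_const _)).sub
    (integrable_const _)

lemma uE_I33 [IsProbabilityMeasure ρ] (hd : 0 < d) (hρ : EM ρ) (β : ℝ) (h : Vec d)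
    {n H s q : ℕ} (hq : q ≤ H) : ∫ η, uE ρ β h n H s q η ∂(law d ρ) ≤
      H * |lam ρ β h| + (d * (1 + Real.log (n + 1)) +
        H * |Real.log (Phi h * ∫ t, Real.exp (β * t) ∂ρ)|) := by
  have hμ := mu_pos33 (d := d) hd hρ β h
  have hcd := card_pos33 (d := d) n
  have hc : 0 < (boxF d n).card * (Phi h * ∫ t, Real.exp (β * t) ∂ρ) ^ q :=
    mul_pos hcd (pow_pos hμ q)
  have h1 : ∀ y : Site d, Integrable (fun η => Z β h (sh s y η) q) (law d ρ) := fun y =>
    (mp_sh s y).integrable_comp_of_integrable (annealed61 hρ β h q).1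
  have h2 : ∫ η, (∑ y ∈ boxF d n, Z β h (sh s y η) q) ∂(law d ρ) =
      (boxF d n).card * (Phi h * ∫ t, Real.exp (β * t) ∂ρ) ^ q := by
    rw [integral_finsetSum _ fun y _ => h1 y]
    have e1 : ∀ y ∈ boxF d n, ∫ η, Z β h (sh s y η) q ∂(law d ρ) =
        (Phi h * ∫ t, Real.exp (β * t) ∂ρ) ^ q := fun y _ => by
      rw [integral_sh s y (F := fun η => Z β h η q) (measurable_Z β h q)]
      exact (annealed61 hρ β h q).2
    rw [Finset.sum_congr rfl e1, Finset.sum_const, nsmul_eq_mul]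
  have h3 : ∫ η, uE ρ β h n H s q η ∂(law d ρ) = H * |lam ρ β h| +
      Real.log ((boxF d n).card * (Phi h * ∫ t, Real.exp (β * t) ∂ρ) ^ q) := by
    have e1 : ∀ η : Env d, uE ρ β h n H s q η = (H * |lam ρ β h| +
        Real.log ((boxF d n).card * (Phi h * ∫ t, Real.exp (β * t) ∂ρ) ^ q) - 1) +
        (∑ y ∈ boxF d n, Z β h (sh s y η) q) /
          ((boxF d n).card * (Phi h * ∫ t, Real.exp (β * t) ∂ρ) ^ q) := fun η => by
      unfold uE
      ring
    simp only [e1]
    rw [integral_add (integrable_const _)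
      ((integrable_finsetSum _ fun y _ => h1 y).div_const _), integral_div, h2,
      div_self hc.ne', integral_const]
    simp
  rw [h3, Real.log_mul hcd.ne' (pow_pos hμ q).ne', Real.log_pow]
  have h4 : Real.log ((boxF d n).card : ℝ) ≤ d * (1 + Real.log (n + 1)) := by
    rw [card_boxF]
    push_cast
    rw [Real.log_pow]
    refine mul_le_mul_of_nonneg_left ?_ (Nat.cast_nonneg d)
    have e1 : (2 * (n : ℝ) + 1) ≤ 2 * (n + 1) := by linarith
    have e2 := Real.log_le_log (by positivity) e1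
    rw [Real.log_mul (by norm_num) (by positivity)] at e2
    have e3 : Real.log 2 ≤ 1 := by
      have := Real.log_two_lt_d9
      linarith
    linarith
  have h5 : (q : ℝ) * Real.log (Phi h * ∫ t, Real.exp (β * t) ∂ρ) ≤
      H * |Real.log (Phi h * ∫ t, Real.exp (β * t) ∂ρ)| := by
    have e2 : (q : ℝ) ≤ H := by exact_mod_cast hq
    have hq0 : (0 : ℝ) ≤ q := Nat.cast_nonneg q
    exact (mul_le_mul_of_nonneg_left (le_abs_self _) hq0).trans
      (mul_le_mul_of_nonneg_right e2 (abs_nonneg _))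
  linarith

/-- The bound of the excess of the free energies. -/
noncomputable def MsE (ρ : Measure ℝ) (β : ℝ) (h : Vec d) (n : ℕ) (c : ℝ) (η : Env d) : ℝ :=
  ((∑ T ∈ range (n + 1), (X β h η T - A ρ β h T) ^ 2) / c + c) / 2

lemma MsE_le33 [IsProbabilityMeasure ρ] (hd : 0 < d) (hρ : EM ρ) (β : ℝ) (h : Vec d) {n : ℕ}
    {c : ℝ} (hc : 0 < c) (η : Env d) {t : ℕ} (ht : t ≤ n) :
    X β h η t - t * lam ρ β h ≤ MsE ρ β h n c η := by
  have h1 := A_le_lam hd hρ β h t
  have h2 : (X β h η t - A ρ β h t) ^ 2 ≤ ∑ T ∈ range (n + 1), (X β h η T - A ρ β h T) ^ 2 :=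
    Finset.single_le_sum (f := fun T => (X β h η T - A ρ β h T) ^ 2) (fun T _ => sq_nonneg _)
      (Finset.mem_range.2 (by omega))
  have h3 := div_le_div_of_nonneg_right h2 hc.le
  have h4 : X β h η t - A ρ β h t ≤ ((X β h η t - A ρ β h t) ^ 2 / c + c) / 2 := by
    have e1 : (X β h η t - A ρ β h t) ^ 2 / c + c - 2 * (X β h η t - A ρ β h t) =
        (X β h η t - A ρ β h t - c) ^ 2 / c := by
      field_simp
      ring
    have e2 : 0 ≤ (X β h η t - A ρ β h t - c) ^ 2 / c := by positivity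
    linarith
  unfold MsE
  linarith

lemma MsE_int33 [IsProbabilityMeasure ρ] (hd : 0 < d) (hρ : EM ρ) (β : ℝ) (h : Vec d) (n : ℕ)
    (c : ℝ) : Integrable (MsE ρ β h n c) (law d ρ) := by
  unfold MsE
  exact (((integrable_finsetSum _ fun T _ => Pool.Agent.W_7d29a1_Q29.S98.X_dev_int hd hρ β h T).div_const _).add
    (integrable_const _)).div_const _

lemma MsE_I33 [IsProbabilityMeasure ρ] (hd : 0 < d) (hρ : EM ρ) (β : ℝ) (h : Vec d) {n : ℕ}
    {K : ℝ} (hK : 0 < K) (hV : ∀ k : ℕ, k ≤ n → Va ρ β h k ≤ K) :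
    ∫ η, MsE ρ β h n (Real.sqrt ((n + 1) * K)) η ∂(law d ρ) ≤ Real.sqrt ((n + 1) * K) := by
  have h0 : 0 < ((n : ℝ) + 1) * K := by positivity
  set c := Real.sqrt ((n + 1) * K) with hcd
  have hc : 0 < c := Real.sqrt_pos.2 h0
  have hc2 : c * c = (n + 1) * K := Real.mul_self_sqrt h0.le
  have e1 : ∀ η : Env d, MsE ρ β h n c η =
      (∑ T ∈ range (n + 1), (X β h η T - A ρ β h T) ^ 2) / (2 * c) + c / 2 := fun η => by
    unfold MsE
    field_simp
  simp only [e1]
  rw [integral_add ((integrable_finsetSum _ fun T _ => Pool.Agent.W_7d29a1_Q29.S98.X_dev_int hd hρ β h T).div_const _)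
    (integrable_const _), integral_div, integral_finsetSum _ fun T _ => Pool.Agent.W_7d29a1_Q29.S98.X_dev_int hd hρ β h T,
    integral_const]
  have e2 : ∑ T ∈ range (n + 1), ∫ η, (X β h η T - A ρ β h T) ^ 2 ∂(law d ρ) ≤ (n + 1) * K := by
    have e3 : ∀ T ∈ range (n + 1), ∫ η, (X β h η T - A ρ β h T) ^ 2 ∂(law d ρ) ≤ K := by
      intro T hT
      exact hV T (by
        have := Finset.mem_range.1 hT
        omega)
    refine (Finset.sum_le_sum e3).trans (le_of_eq ?_)
    rw [Finset.sum_const, Finset.card_range, nsmul_eq_mul]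
    push_cast
    ring
  have e4 : (∑ T ∈ range (n + 1), ∫ η, (X β h η T - A ρ β h T) ^ 2 ∂(law d ρ)) / (2 * c) ≤
      c / 2 := by
    rw [div_le_iff₀ (by positivity)]
    refine e2.trans (le_of_eq ?_)
    rw [← hc2]
    ring
  simp only [probReal_univ, smul_eq_mul, one_mul]
  linarith

end Us33

open Us33 in
/-- Leaf USE, without `log H`. -/
theorem useL33 {d : ℕ} {ρ : Measure ℝ} [IsProbabilityMeasure ρ] (hd : 0 < d) (hρ : EM ρ)
    (β : ℝ) : UseL d ρ β := by
  intro h
  set la := lam ρ β h with hla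
  set lm := |Real.log (Phi h * ∫ t, Real.exp (β * t) ∂ρ)| with hlm
  have hlm0 : 0 ≤ lm := abs_nonneg _
  refine ⟨10 + |la| + lm + 2 * d, by positivity, fun n H x κ K hH hHn hx hκ hκ2 hK hV => ?_⟩
  set L := Lk ρ β h n H 0 x κ 0 with hL
  have hLm : MeasurableSet L := Lk_meas33 β h n H 0 x κ 0
  have hx0 : 0 < x := by linarith
  set c := Real.sqrt ((n + 1) * K) with hcd
  have hc : 0 < c := Real.sqrt_pos.2 (by positivity)
  set a := Real.log 2 + Real.log (1 + x) with ha
  have hl2 : 0 < Real.log 2 := Real.log_pos (by norm_num)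
  have hlx : Real.log 2 ≤ Real.log (1 + x) := Real.log_le_log (by norm_num) (by linarith)
  have ha2 : Real.log 2 ≤ a := by linarith
  have hea : Real.exp (-a) = 1 / (2 * (1 + x)) := by
    rw [ha, Real.exp_neg, Real.exp_add, Real.exp_log (by norm_num),
      Real.exp_log (by linarith), one_div]
  -- the hypotheses on the unlucky environments
  have hb1 : ∀ ξ : Env d, ξ ∉ L → X β h ξ H - H * la ≤ -((1 - κ) * x) := by
    intro ξ hξ
    have h1 : ξ ∉ Lg0 ρ β h H 0 x κ 0 := fun h2 => hξ (Or.inl h2)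
    by_contra hcon
    rw [not_le] at hcon
    refine h1 ⟨0, le_rfl, ?_⟩
    simp only [add_zero]
    linarith
  have hb2 : ∀ ξ : Env d, ξ ∉ L → ∀ R : ℕ, 2 ≤ R → R * H ≤ n →
      X β h ξ (R * H) - (R * H : ℕ) * la ≤ κ * R * x := by
    intro ξ hξ R hR hRn
    by_contra hcon
    rw [not_le] at hcon
    refine hξ (Or.inr ⟨R, hR, hRn, 0, le_rfl, ?_⟩)
    simp only [add_zero]
    linarith
  -- one environment
  set N : ℕ → ℕ := fun j => (n - j) / H with hN
  have hNle : ∀ j ∈ range H, j + N j * H ≤ n := by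
    intro j hj
    have h1 := Finset.mem_range.1 hj
    have h2 := Nat.div_mul_le_self (n - j) H
    simp only [hN]
    omega
  have hNq : ∀ j ∈ range H, n - (j + N j * H) ≤ H := by
    intro j hj
    have h1 := Finset.mem_range.1 hj
    have h2 := Nat.mod_add_div (n - j) H
    have h3 : (n - j) % H < H := Nat.mod_lt _ (by omega)
    simp only [hN]
    rw [mul_comm H] at h2
    omega
  have hη : ∀ η : Env d, 2 * x * ∑ t ∈ range (n + 1 - H), GG β h n L t η ≤
      ∑ j ∈ range H, (((1 + κ) * x + a) * ((N j : ℝ) + 1) + MsE ρ β h n c η +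
        Real.log (n + 1) + (n * la - X β h η n) +
        uE ρ β h n H (j + N j * H) (n - (j + N j * H)) η +
        2 * x * (N j * (2 * Real.exp (-a)))) := by
    intro η
    rw [← offs33 hH fun t => GG β h n L t η, Finset.mul_sum]
    refine Finset.sum_le_sum fun j hj => ?_
    exact walk33 hd β h η L (hNle j hj) hx0 hκ.le ha2 hb1 hb2
      (fun t ht => MsE_le33 hd hρ β h hc η ht)
      (fun y hy => uE_le33 hd hρ β h (hNq j hj) η hy)
  -- integrate
  have i1 : Integrable (fun η => 2 * x * ∑ t ∈ range (n + 1 - H), GG β h n L t η)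
      (law d ρ) := (integrable_finsetSum _ fun t ht => GG_int33 hd β h (by
        have := Finset.mem_range.1 ht
        omega) hLm).const_mul _
  have hX : Integrable (fun η => X β h η n) (law d ρ) := (concU hd hρ β h n).1
  have i2 : ∀ j, Integrable (fun η => ((1 + κ) * x + a) * ((N j : ℝ) + 1) + MsE ρ β h n c η +
        Real.log (n + 1) + (n * la - X β h η n) +
        uE ρ β h n H (j + N j * H) (n - (j + N j * H)) η +
        2 * x * (N j * (2 * Real.exp (-a)))) (law d ρ) := fun j =>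
    (((((integrable_const _).add (MsE_int33 hd hρ β h n c)).add (integrable_const _)).add
      ((integrable_const _).sub hX)).add (uE_int33 hρ β h n H _ _)).add (integrable_const _)
  have h3 := integral_mono i1 (integrable_finsetSum _ fun j _ => i2 j) hη
  rw [integral_const_mul, integral_finsetSum _ fun t ht => GG_int33 hd β h (by
        have := Finset.mem_range.1 ht
        omega) hLm] at h3
  rw [integral_finsetSum _ fun j _ => i2 j] at h3
  -- the right side
  have h4 : ∀ j ∈ range H, ∫ η, (((1 + κ) * x + a) * ((N j : ℝ) + 1) + MsE ρ β h n c η +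
        Real.log (n + 1) + (n * la - X β h η n) +
        uE ρ β h n H (j + N j * H) (n - (j + N j * H)) η +
        2 * x * (N j * (2 * Real.exp (-a)))) ∂(law d ρ) ≤
      ((1 + κ) * x + a + 2) * ((N j : ℝ) + 1) + (c + Real.log (n + 1) + En ρ β h n +
        (H * |la| + (d * (1 + Real.log (n + 1)) + H * lm))) := by
    intro j hj
    have e1 : ∀ η : Env d, ((1 + κ) * x + a) * ((N j : ℝ) + 1) + MsE ρ β h n c η +
        Real.log (n + 1) + (n * la - X β h η n) +
        uE ρ β h n H (j + N j * H) (n - (j + N j * H)) η +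
        2 * x * (N j * (2 * Real.exp (-a))) =
        (((1 + κ) * x + a) * ((N j : ℝ) + 1) + Real.log (n + 1) + n * la +
          2 * x * (N j * (2 * Real.exp (-a)))) + (MsE ρ β h n c η +
          (uE ρ β h n H (j + N j * H) (n - (j + N j * H)) η - X β h η n)) := fun η => by
      ring
    simp only [e1]
    have i3 : Integrable (fun η => uE ρ β h n H (j + N j * H) (n - (j + N j * H)) η -
      X β h η n) (law d ρ) := (uE_int33 hρ β h n H _ _).sub hX
    have i4 : Integrable (fun η => MsE ρ β h n c η +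
      (uE ρ β h n H (j + N j * H) (n - (j + N j * H)) η - X β h η n)) (law d ρ) :=
      (MsE_int33 hd hρ β h n c).add i3
    rw [integral_add (integrable_const _) i4, integral_add (MsE_int33 hd hρ β h n c) i3,
      integral_sub (uE_int33 hρ β h n H _ _) hX, integral_const]
    simp only [probReal_univ, smul_eq_mul, one_mul]
    have e2 := MsE_I33 hd hρ β h hK hV
    rw [← hcd] at e2
    have e3 := uE_I33 hd hρ β h (n := n) (H := H) (s := j + N j * H)
      (q := n - (j + N j * H)) (hNq j hj)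
    rw [← hla, ← hlm] at e3
    have e4 : En ρ β h n = n * la - ∫ η, X β h η n ∂(law d ρ) := rfl
    have e5 : 2 * x * (N j * (2 * Real.exp (-a))) ≤ 2 * ((N j : ℝ) + 1) := by
      rw [hea]
      have f1 : 2 * x * (N j * (2 * (1 / (2 * (1 + x))))) = 2 * (N j : ℝ) * (x / (1 + x)) := by
        field_simp
      rw [f1]
      have f2 : x / (1 + x) ≤ 1 := (div_le_one (by linarith)).2 (by linarith)
      have f3 : (0 : ℝ) ≤ 2 * (N j : ℝ) := by positivity
      nlinarith
    rw [e4]
    linarith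
  have h5 := h3.trans (Finset.sum_le_sum h4)
  rw [Finset.sum_add_distrib, ← Finset.mul_sum, Finset.sum_const, Finset.card_range,
    nsmul_eq_mul] at h5
  -- the number of blocks
  have h6 : ∑ j ∈ range H, ((N j : ℝ) + 1) = n + 1 := by
    have e1 := offs33 (n := n) hH fun _ => (1 : ℝ)
    simp only [Finset.sum_const, Finset.card_range, nsmul_eq_mul, mul_one] at e1
    rw [Finset.sum_add_distrib, e1, Finset.sum_const, Finset.card_range, nsmul_eq_mul, mul_one]
    have e2 : n + 1 - H + H = n + 1 := by omega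
    have e3 : ((n + 1 - H + H : ℕ) : ℝ) = ((n + 1 : ℕ) : ℝ) := by rw [e2]
    push_cast at e3
    linarith
  rw [h6] at h5
  -- the left side
  have h7 : ∑ t ∈ range (n + 1 - H), ∫ η, GG β h n L t η ∂(law d ρ) =
      ((n : ℝ) + 1 - H) - ∑ t ∈ range (n + 1 - H), us ρ β h n t L := by
    have e1 : ∀ t ∈ range (n + 1 - H), ∫ η, GG β h n L t η ∂(law d ρ) =
        1 - us ρ β h n t L := by
      intro t ht
      have := GG_us33 (ρ := ρ) hd β h (n := n) (t := t) (by
        have := Finset.mem_range.1 ht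
        omega) hLm
      linarith
    rw [Finset.sum_congr rfl e1, Finset.sum_sub_distrib, Finset.sum_const, Finset.card_range,
      nsmul_eq_mul, mul_one]
    have e3 : ((n + 1 - H : ℕ) : ℝ) = (n : ℝ) + 1 - H := by
      rw [Nat.cast_sub (by omega)]
      push_cast
      ring
    rw [e3]
  have h8 : ∑ t ∈ range (n + 1 - H), us ρ β h n t L ≤ ∑ t ∈ range n, us ρ β h n t L := by
    refine Finset.sum_le_sum_of_subset_of_nonneg (Finset.range_subset_range.2 (by omega))
      fun t _ _ => ?_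
    unfold us
    exact integral_nonneg fun η => Finset.sum_nonneg fun y _ =>
      mul_nonneg (Qt_nonneg39 β h n t y η) (Set.indicator_nonneg (fun _ _ => zero_le_one) _)
  rw [h7] at h5
  -- numbers
  set U := ∑ t ∈ range n, us ρ β h n t L with hU
  set l1 := Real.log ((n : ℝ) + 1) with hl1
  have hl10 : 0 ≤ l1 := Real.log_nonneg (by
    have : (0 : ℝ) ≤ n := Nat.cast_nonneg n
    linarith)
  have hn1 : (1 : ℝ) ≤ n := by exact_mod_cast hH.trans hHn
  have hH1 : (1 : ℝ) ≤ H := by exact_mod_cast hH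
  have h9 : a + 2 ≤ 5 * Real.log (1 + x) := by
    have := Real.log_two_gt_d9
    linarith
  have h10 : (a + 2) * ((n : ℝ) + 1) ≤ 10 * n * Real.log (1 + x) := by
    have e1 : (0 : ℝ) ≤ (n : ℝ) + 1 := by linarith
    have e2 := mul_le_mul_of_nonneg_right h9 e1
    have e3 : 0 ≤ Real.log (1 + x) := by linarith
    nlinarith
  have h11 : 2 * x * (∑ t ∈ range (n + 1 - H), us ρ β h n t L) ≤ 2 * x * U :=
    mul_le_mul_of_nonneg_left h8 (by positivity)
  have hd0 : (0 : ℝ) ≤ d := Nat.cast_nonneg d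
  have hla0 : 0 ≤ |la| := abs_nonneg _
  have h12 : (H : ℝ) * (c + l1 + En ρ β h n + (H * |la| + (d * (1 + l1) + H * lm))) +
      2 * x * H ≤ H * (En ρ β h n + (10 + |la| + lm + 2 * d) * (H + 1) +
        (10 + |la| + lm + 2 * d) * x + (10 + |la| + lm + 2 * d) * l1 +
        (10 + |la| + lm + 2 * d) * c) := by
    have e1 : 0 ≤ (|la| + lm + 2 * d) * x := by positivity
    have e2 : 0 ≤ (|la| + lm + 2 * d) * c := by positivity
    have e3 : 0 ≤ (|la| + lm) * l1 := by positivity
    have e4 : 0 ≤ (d : ℝ) * l1 := by positivity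
    have e5 : 0 ≤ (d : ℝ) * H := by positivity
    have e6 : c + l1 + (H * |la| + (d * (1 + l1) + H * lm)) + 2 * x ≤
        (10 + |la| + lm + 2 * d) * (H + 1) +
        (10 + |la| + lm + 2 * d) * x + (10 + |la| + lm + 2 * d) * l1 +
        (10 + |la| + lm + 2 * d) * c := by
      have f1 : (10 + |la| + lm + 2 * d) * ((H : ℝ) + 1) =
          10 * (H + 1) + H * |la| + |la| + H * lm + lm + 2 * (d * H) + 2 * d := by ring
      have f2 : (10 + |la| + lm + 2 * d) * x = 10 * x + (|la| + lm + 2 * d) * x := by ring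
      have f3 : (10 + |la| + lm + 2 * d) * l1 =
          10 * l1 + (|la| + lm) * l1 + 2 * (d * l1) := by ring
      have f4 : (10 + |la| + lm + 2 * d) * c = 10 * c + (|la| + lm + 2 * d) * c := by ring
      have f5 : (d : ℝ) * (1 + l1) = d + d * l1 := by ring
      rw [f1, f2, f3, f4, f5]
      linarith
    have e7 := mul_le_mul_of_nonneg_left e6 (by linarith : (0 : ℝ) ≤ H)
    have e8 : (H : ℝ) * (c + l1 + En ρ β h n + (H * |la| + (d * (1 + l1) + H * lm))) +
      2 * x * H = H * En ρ β h n +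
        H * (c + l1 + (H * |la| + (d * (1 + l1) + H * lm)) + 2 * x) := by ring
    have e9 : (H : ℝ) * (En ρ β h n + (10 + |la| + lm + 2 * d) * (H + 1) +
        (10 + |la| + lm + 2 * d) * x + (10 + |la| + lm + 2 * d) * l1 +
        (10 + |la| + lm + 2 * d) * c) = H * En ρ β h n +
        H * ((10 + |la| + lm + 2 * d) * (H + 1) +
        (10 + |la| + lm + 2 * d) * x + (10 + |la| + lm + 2 * d) * l1 +
        (10 + |la| + lm + 2 * d) * c) := by ring
    rw [e8, e9]
    linarith
  have h13 : 0 ≤ (1 - κ) * x := mul_nonneg (by linarith) hx0.le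
  have h14 : (1 - κ) * x * (n - H) ≤ (1 - κ) * x * (n + 1) :=
    mul_le_mul_of_nonneg_left (by linarith) h13
  have h15 : 2 * x * (((n : ℝ) + 1 - H) - ∑ t ∈ range (n + 1 - H), us ρ β h n t L) =
      2 * (x * (n + 1)) - 2 * x * H -
        2 * x * ∑ t ∈ range (n + 1 - H), us ρ β h n t L := by ring
  have h16 : ((1 + κ) * x + a + 2) * ((n : ℝ) + 1) =
      (1 + κ) * (x * (n + 1)) + (a + 2) * (n + 1) := by ring
  have h17 : (1 - κ) * x * ((n : ℝ) + 1) =
      2 * (x * (n + 1)) - (1 + κ) * (x * (n + 1)) := by ring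
  rw [h15, h16] at h5
  rw [h17] at h14
  linarith

end Pool.Agent.W_7d29a1_PL
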