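import Pool.Agent.W_7d29a1_PL.Cor24
import Pool.Agent.W_7d29a1_PL.Unb47
import Pool.Agent.W_7d29a1_PL.UseL33

/-!
The core at one tilt and one scale, without a lower bound of the fluctuation (helper63, after the
text Cor24 of helper24; `UseL` is the usage of helper33).
-/

set_option autoImplicit false

namespace Pool.Agent.W_7d29a1_PL

open MeasureTheory ProbabilityTheory Filter Topology Pool.Agent.W_MP_7d29a1_pr
  Pool.Agent.W_7d29a1_h46 Pool.Agent.W_7d29a1_h46u Pool.Agent.W_7d29a1_D2.B35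
  Pool.Agent.W_7d29a1_Q29 Pool.Agent.W_7d29a1_R34 Pool.Agent.W_7d29a1_SP
  Pool.Agent.W_7d29a1_PL.C24

/-- COR at one scale. -/
def CorL (d : ℕ) (ρ : Measure ℝ) (β : ℝ) : Prop := ∀ g C₀ : ℝ, 0 < g → 0 ≤ C₀ →
  ∃ c : ℝ, 0 < c ∧ ∀ h : Vec d,
    lam ρ β h + g ≤ Real.log (Phi h) + Real.log (∫ t, Real.exp (β * t) ∂ρ) →
    ∃ n₀ : ℕ, ∀ n : ℕ, n₀ ≤ n →
      (∀ k : ℕ, k ≤ 4 * n → Va ρ β h k ≤ (n : ℝ) ^ c ∧ En ρ β h k ≤ (n : ℝ) ^ c) →
      ¬ Bd ρ β h n (c * Real.log n) C₀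

/-- The logarithm of a large level. -/
lemma xlog63 {C x : ℝ} (hC : 0 ≤ C) (hx : max 1 ((150 * C) ^ 2) ≤ x) :
    C * Real.log (1 + x) ≤ x / 50 := by
  have h1 : 1 ≤ x := (le_max_left _ _).trans hx
  have h2 : (150 * C) ^ 2 ≤ x := (le_max_right _ _).trans hx
  set r : ℝ := Real.sqrt x with hr
  have hr0 : 0 ≤ r := Real.sqrt_nonneg _
  have hr2 : r ^ 2 = x := Real.sq_sqrt (by linarith)
  have hr1 : 1 ≤ r := by
    by_contra hc
    push Not at hc
    nlinarith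
  have h3 : 150 * C ≤ r := by
    rw [← hr2] at h2
    exact le_of_sq_le_sq h2 hr0
  have h4 : Real.log (1 + x) ≤ 3 * r := by
    have h5 : 1 + x ≤ (2 * r) ^ 2 := by nlinarith
    have h6 := Real.log_le_log (by linarith) h5
    rw [Real.log_pow] at h6
    have h7 := Real.log_le_sub_one_of_pos (show 0 < r by linarith)
    rw [Real.log_mul (by norm_num) (by linarith)] at h6
    have h8 := Real.log_two_lt_d9
    push_cast at h6
    linarith
  have h9 : C * Real.log (1 + x) ≤ C * (3 * r) := mul_le_mul_of_nonneg_left h4 hC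
  have h10 : 150 * C * r ≤ r * r := mul_le_mul_of_nonneg_right h3 hr0
  nlinarith

/-- The numbers of the usage. -/
lemma useL63 {n H : ℕ} {x C s E K : ℝ} (hn : 1 ≤ n) (hH : H ^ 4 ≤ n) (hx : 1 ≤ x)
    (hC : 0 ≤ C) (hxA : 10 * Real.log (1 + x) ≤ x / 50) (hxw : x ≤ (n : ℝ) ^ (1 / 16 : ℝ))
    (hE : E ≤ (n : ℝ) ^ (1 / 16 : ℝ)) (hK : K ≤ (n : ℝ) ^ (1 / 16 : ℝ))
    (hbig : 100 * (6 * C + 1) ≤ (n : ℝ) ^ (1 / 16 : ℝ))
    (hbig2 : (3 : ℝ) ≤ (n : ℝ) ^ (1 / 16 : ℝ))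
    (h : (1 - 1 / 20) * x * (n - H) ≤ 2 * x * s + H * (E + C * (H + 1) + C * x +
      C * Real.log (n + 1) + C * Real.sqrt ((n + 1) * K)) + 10 * n * Real.log (1 + x)) :
    2 / 5 * (n : ℝ) ≤ s := by
  have hn1 : (1 : ℝ) ≤ n := by exact_mod_cast hn
  have hn0 : (0 : ℝ) < n := by linarith
  set w : ℝ := (n : ℝ) ^ (1 / 16 : ℝ) with hw
  have hw0 : 0 < w := Real.rpow_pos_of_pos hn0 _
  have hw16 : w ^ 16 = n := by
    rw [hw, ← Real.rpow_natCast, ← Real.rpow_mul hn0.le]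
    norm_num
  have hH4 : (H : ℝ) ^ 4 ≤ (w ^ 4) ^ 4 := by
    rw [← pow_mul]
    norm_num
    rw [hw16]
    exact_mod_cast hH
  have hHw : (H : ℝ) ≤ w ^ 4 := le_of_pow_le_pow_left₀ (by norm_num) (by positivity) hH4
  have hH0 : (0 : ℝ) ≤ H := Nat.cast_nonneg H
  have hw1 : 1 ≤ w := by linarith
  -- powers of w
  have p4 : (1 : ℝ) ≤ w ^ 4 := one_le_pow₀ hw1
  have hsq : Real.sqrt ((n + 1) * K) ≤ 2 * w ^ 9 := by
    rw [Real.sqrt_le_left (by positivity)]
    have e1 : (n + 1 : ℝ) ≤ 2 * w ^ 16 := by rw [hw16]; linarith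
    have e2 : (n + 1 : ℝ) * K ≤ (n + 1) * w := mul_le_mul_of_nonneg_left hK (by linarith)
    have e3 : (n + 1 : ℝ) * w ≤ 2 * w ^ 16 * w := mul_le_mul_of_nonneg_right e1 hw0.le
    have e4 : 2 * w ^ 16 * w ≤ (2 * w ^ 9) ^ 2 := by
      have : (2 * w ^ 9) ^ 2 = 4 * w ^ 17 * w := by ring
      rw [this]
      have e5 : 0 ≤ w ^ 17 := by positivity
      have e6 : 1 * w ^ 17 ≤ w * w ^ 17 := mul_le_mul_of_nonneg_right hw1 e5
      have : 4 * w ^ 17 * w = 4 * (w * w ^ 17) := by ring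
      rw [this]
      have : 2 * w ^ 16 * w = 2 * w ^ 17 := by ring
      rw [this]
      nlinarith
    linarith
  have hlg : Real.log (n + 1) ≤ w ^ 9 := by
    have e1 : (n + 1 : ℝ) ≤ w ^ 17 := by
      have : w ^ 17 = w * w ^ 16 := by ring
      rw [this, hw16]
      nlinarith
    have e2 := Real.log_le_log (by positivity) e1
    rw [Real.log_pow] at e2
    have e3 := Real.log_le_sub_one_of_pos hw0
    have e4 : (17 : ℝ) * w ≤ w ^ 8 * w := by
      refine mul_le_mul_of_nonneg_right ?_ hw0.le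
      calc (17 : ℝ) ≤ 3 ^ 8 := by norm_num
        _ ≤ w ^ 8 := pow_le_pow_left₀ (by norm_num) hbig2 8
    have e5 : w ^ 8 * w = w ^ 9 := by ring
    push_cast at e2
    linarith
  have hin : E + C * (H + 1) + C * x + C * Real.log (n + 1) + C * Real.sqrt ((n + 1) * K) ≤
      (6 * C + 1) * w ^ 9 := by
    have e10 : C * x ≤ C * w ^ 9 := by
      refine mul_le_mul_of_nonneg_left (hxw.trans ?_) hC
      calc w = w ^ 1 := (pow_one w).symm
        _ ≤ w ^ 9 := pow_le_pow_right₀ hw1 (by norm_num)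
    have e9 : C * Real.log (n + 1) ≤ C * w ^ 9 := mul_le_mul_of_nonneg_left hlg hC
    have e1 : w ≤ w ^ 9 := by
      calc w = w ^ 1 := (pow_one w).symm
        _ ≤ w ^ 9 := pow_le_pow_right₀ hw1 (by norm_num)
    have e2 : w ^ 4 ≤ w ^ 9 := pow_le_pow_right₀ hw1 (by norm_num)
    have e3 : C * (H + 1) ≤ C * (2 * w ^ 9) :=
      mul_le_mul_of_nonneg_left (by linarith) hC
    have e4 : C * Real.sqrt ((n + 1) * K) ≤ C * (2 * w ^ 9) := mul_le_mul_of_nonneg_left hsq hC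
    linarith
  have hin2 : H * (E + C * (H + 1) + C * x + C * Real.log (n + 1) +
      C * Real.sqrt ((n + 1) * K)) ≤ n / 100 := by
    have e0 : 0 ≤ (6 * C + 1) * w ^ 9 := by positivity
    have e1 : H * (E + C * (H + 1) + C * x + C * Real.log (n + 1) +
        C * Real.sqrt ((n + 1) * K)) ≤ H * ((6 * C + 1) * w ^ 9) :=
      mul_le_mul_of_nonneg_left hin hH0
    have e2 : H * ((6 * C + 1) * w ^ 9) ≤ w ^ 4 * ((6 * C + 1) * w ^ 9) :=
      mul_le_mul_of_nonneg_right hHw e0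
    have e3 : w ^ 4 * ((6 * C + 1) * w ^ 9) = (6 * C + 1) * w ^ 13 := by ring
    have e4 : (6 * C + 1) ≤ w / 100 := by linarith
    have e5 : (6 * C + 1) * w ^ 13 ≤ w / 100 * w ^ 13 :=
      mul_le_mul_of_nonneg_right e4 (by positivity)
    have e6 : w / 100 * w ^ 13 = w ^ 14 / 100 := by ring
    have e7 : w ^ 14 ≤ w ^ 16 := pow_le_pow_right₀ hw1 (by norm_num)
    rw [hw16] at e7
    linarith
  have hHn : (H : ℝ) ≤ n / 100 ∨ (H : ℝ) ≤ n / 81 := by
    right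
    have e1 : w ^ 4 * 81 ≤ w ^ 16 := by
      have e2 : (3 : ℝ) ^ 4 ≤ w ^ 4 := pow_le_pow_left₀ (by norm_num) hbig2 4
      have e3 : w ^ 16 = w ^ 4 * w ^ 12 := by ring
      rw [e3]
      refine mul_le_mul_of_nonneg_left ?_ (by positivity)
      calc (81 : ℝ) = 3 ^ 4 := by norm_num
        _ ≤ w ^ 4 := e2
        _ ≤ w ^ 12 := pow_le_pow_right₀ hw1 (by norm_num)
    rw [hw16] at e1
    linarith
  have hHn' : (H : ℝ) ≤ n / 81 := by
    rcases hHn with h1 | h1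
    · linarith
    · exact h1
  -- the entropy
  have hent : 10 * n * Real.log (1 + x) ≤ x * n / 50 := by
    have e4 : 10 * Real.log (1 + x) * n ≤ x / 50 * n := mul_le_mul_of_nonneg_right hxA hn0.le
    linarith
  have hx2 : H * (E + C * (H + 1) + C * x + C * Real.log (n + 1) +
      C * Real.sqrt ((n + 1) * K)) ≤ x * n / 100 := by
    have : (n : ℝ) ≤ x * n := by nlinarith
    linarith
  have h3 : (1 - 1 / 20) * x * (n - n / 81) ≤ (1 - 1 / 20) * x * ((n : ℝ) - H) :=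
    mul_le_mul_of_nonneg_left (by linarith) (by nlinarith)
  have h4 : (1 - 1 / 20) * x * (n - n / 81) ≤ 2 * x * s + x * n / 100 + x * n / 50 := by linarith
  have h5 : x * (2 * s) ≥ x * (9 / 10 * n) := by nlinarith
  have h6 : 2 * s ≥ 9 / 10 * n := le_of_mul_le_mul_left h5 (by linarith)
  linarith

/-- The levels of the core. -/
lemma selL63 {d : ℕ} {ρ : Measure ℝ} {β : ℝ} {h : Vec d} [IsProbabilityMeasure ρ] (hd : 0 < d)
    (hρ : EM ρ) (hS : SelP) {a B Λ Λ' : ℕ} {ε c Cc : ℝ} (X₀ : ℝ) (ha : 1 ≤ a) (hΛ : Λ ≤ Λ') (hΛ2 : 2 ≤ Λ')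
    (hΛ3 : (Cc * B + 1) * Real.exp Cc ≤ Λ') (hCc : 1 ≤ Cc) (hc : 0 < c) (hε : 0 < ε)
    (hchp : ∀ (m : ℕ) (x : ℝ), 1 ≤ m → 1 ≤ x → ε * x ≤ Fn ρ β h m →
      ∃ j : ℕ, (2 : ℝ) ^ j ≤ Cc * (1 + Va ρ β h m) ^ 2 ∧ ∀ (T : ℕ) (Φ : ℝ),
        Cc * m * Real.exp (Cc * j) ≤ T → (∀ k : ℕ, k ≤ T → En ρ β h k ≤ Φ ∧ Fn ρ β h k ≤ Φ) →
          2 ^ (j + 1) * x ≤ Φ)
    (hub : ∀ K : ℝ, ∃ k : ℕ, K ≤ fM ρ β h k) : ∃ n₀ : ℕ, ∀ n : ℕ, n₀ ≤ n →
      (∀ k : ℕ, k ≤ 4 * n → Va ρ β h k ≤ (n : ℝ) ^ c ∧ En ρ β h k ≤ (n : ℝ) ^ c) →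
      ∃ (m : ℕ → ℕ) (I : Finset ℕ), Sy ρ β h n a B Λ ε m I ∧
        (∀ p ∈ I, X₀ ≤ 2 ^ p) ∧ (∀ p ∈ I, m p ≤ n) ∧
        (I.card : ℝ) ≤ ⌊6 * c * Real.log n⌋₊ ∧
        1 / 8 * Real.log n ≤ (3 * a : ℕ) * (∑ p ∈ I, Dl n m p) +
          ((⌊6 * c * Real.log n⌋₊ : ℕ) + 1) * Real.log Λ' := by
  classical
  obtain ⟨m, hlo, hhi, hmono⟩ := lev24 (fM ρ β h) hub
  have hf0 : fM ρ β h 0 = 0 := by
    unfold fM
    rw [En_zero15, Fn_zero15, max_self]
  have hm1 : ∀ l, 1 ≤ m l := by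
    intro l
    by_contra hc0
    have h0 : m l = 0 := by omega
    have h1 := hhi l
    rw [h0, hf0] at h1
    have : (0 : ℝ) < 2 ^ l := by positivity
    linarith
  obtain ⟨ls, hls⟩ : ∃ ls : ℕ, fM ρ β h 1 < (2 : ℝ) ^ ls :=
    pow_unbounded_of_one_lt _ (by norm_num)
  have hmls : 2 ≤ m ls := by
    by_contra hc0
    have h0 : m ls = 1 := by have := hm1 ls; omega
    have h1 := hhi ls
    rw [h0] at h1
    linarith
  -- the large n
  have hT1 : Tendsto (fun n : ℕ => Real.log n) atTop atTop :=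
    Real.tendsto_log_atTop.comp tendsto_natCast_atTop_atTop
  obtain ⟨lx, hlx⟩ : ∃ lx : ℕ, X₀ < (2 : ℝ) ^ lx := pow_unbounded_of_one_lt _ (by norm_num)
  set l₀ : ℕ := max (a + ls) lx with hl₀
  have hals : a + ls ≤ l₀ := le_max_left _ _
  have hl2 : X₀ ≤ (2 : ℝ) ^ l₀ :=
    hlx.le.trans (pow_le_pow_right₀ (by norm_num) (le_max_right _ _))
  have E1 : ∀ᶠ n : ℕ in atTop, (1 : ℝ) ≤ Real.log n := hT1.eventually_ge_atTop _
  have E2 : ∀ᶠ n : ℕ in atTop, max 1 (Real.log (8 * Cc)) / c ≤ Real.log n :=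
    hT1.eventually_ge_atTop _
  have E3 : ∀ᶠ n : ℕ in atTop, B ^ 2 + 3 + m l₀ ^ 8 ≤ n := eventually_ge_atTop _
  obtain ⟨n₀, hn₀⟩ := eventually_atTop.1 (E1.and (E2.and E3))
  refine ⟨n₀, fun n hn hV => ?_⟩
  obtain ⟨e1, e2, e3⟩ := hn₀ n hn
  have hn1 : 1 ≤ n := by omega
  have hn1' : (1 : ℝ) ≤ n := by exact_mod_cast hn1
  have hn0 : (0 : ℝ) < n := by linarith
  have hlg1 : 1 ≤ Real.log n := e1
  have e2' : max 1 (Real.log (8 * Cc)) ≤ c * Real.log n := by
    rw [div_le_iff₀ hc] at e2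
    linarith
  have e21 : 1 ≤ c * Real.log n := (le_max_left _ _).trans e2'
  have e22 : Real.log (8 * Cc) ≤ c * Real.log n := (le_max_right _ _).trans e2'
  have hnc1 : 1 ≤ (n : ℝ) ^ c := Real.one_le_rpow hn1' hc.le
  have hfM : ∀ k : ℕ, k ≤ 4 * n → fM ρ β h k ≤ (n : ℝ) ^ c := fun k hk =>
    fM_le24 hd hρ hnc1 (hV k hk).1 (hV k hk).2
  have h3c : (n : ℝ) ^ c ≤ (n : ℝ) ^ (3 * c) :=
    Real.rpow_le_rpow_of_exponent_le hn1' (by linarith)
  -- levels with `m l ≤ 4 n`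
  have hlev : ∀ l : ℕ, m l ≤ 4 * n → (2 : ℝ) ^ l ≤ (n : ℝ) ^ c := fun l hl =>
    (hhi l).trans (hfM _ hl)
  -- the first level beyond
  have hex : ∃ l : ℕ, n < m l ^ 4 := by
    obtain ⟨l, hl⟩ : ∃ l : ℕ, (n : ℝ) ^ c < (2 : ℝ) ^ l :=
      pow_unbounded_of_one_lt _ (by norm_num)
    refine ⟨l, ?_⟩
    have h1 : 4 * n < m l := by
      by_contra hc0
      exact absurd (hlev l (not_lt.1 hc0)) (not_le.2 hl)
    have h2 : m l ≤ m l ^ 4 := Nat.le_self_pow (by norm_num) _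
    omega
  set L := Nat.find hex with hL
  have hLs : n < m L ^ 4 := Nat.find_spec hex
  have hLm : ∀ l, l < L → m l ^ 4 ≤ n := fun l hl => not_lt.1 (Nat.find_min hex hl)
  have hLm' : ∀ l, l < L → m l ≤ n := fun l hl =>
    (Nat.le_self_pow (by norm_num) _).trans (hLm l hl)
  have hm8 : m l₀ ^ 8 ≤ n := by omega
  have hl0L : l₀ < L := by
    by_contra hc0
    push Not at hc0
    have h1 : m L ^ 4 ≤ m l₀ ^ 4 := Nat.pow_le_pow_left (hmono hc0) 4
    have h2 : m l₀ ^ 4 ≤ m l₀ ^ 8 := Nat.pow_le_pow_right (hm1 l₀) (by norm_num)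
    omega
  -- the last index
  set l2 := ⌊6 * c * Real.log n⌋₊ with hl2d
  have hidx : ∀ i : ℕ, (2 : ℝ) ^ i ≤ 8 * Cc * (n : ℝ) ^ (3 * c) → i ≤ l2 := fun i hi =>
    idx24 hn1 hCc e22 hi
  have h8 : (n : ℝ) ^ c ≤ 4 * Cc * (n : ℝ) ^ (3 * c) := by
    have : (0 : ℝ) ≤ (n : ℝ) ^ (3 * c) := by positivity
    nlinarith
  have hLl2 : L ≤ l2 := by
    have hL1 : 1 ≤ L := by omega
    refine hidx L ?_
    have h1 := hlev (L - 1) (by have := hLm' (L - 1) (by omega); omega)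
    have h2 : (2 : ℝ) ^ L = 2 * 2 ^ (L - 1) := by
      rw [← pow_succ']
      congr 1
      omega
    rw [h2]
    linarith
  -- the truncated levels
  set m' : ℕ → ℕ := fun l => min (m l) n with hm'
  have hm'mono : Monotone m' := fun l l' hl => min_le_min (hmono hl) le_rfl
  set N : Finset ℕ := (Finset.range L).filter fun l =>
    (∀ j : ℕ, m (l + j + 1) ≤ n → Λ' ^ (j + 1) * m l < m (l + j + 1)) ∧
    (∀ k : ℕ, k ≤ B * m l → Fn ρ β h k ≤ ε * 2 ^ l) with hN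
  have hcheap : ∀ l : ℕ, l₀ ≤ l → l < L → l ∉ N →
      ∃ j : ℕ, l + j + 1 ≤ l2 ∧ m' (l + j + 1) ≤ Λ' ^ (j + 1) * m' l := by
    intro l hl0 hlL hlN
    have hmln : m l ≤ n := hLm' l hlL
    have hm'l : m' l = m l := min_eq_left hmln
    rw [hN, Finset.mem_filter, not_and] at hlN
    have h1 := hlN (Finset.mem_range.2 hlL)
    rw [not_and_or] at h1
    rcases h1 with h1 | h1
    · push Not at h1
      obtain ⟨j, hj1, hj2⟩ := h1
      refine ⟨j, hidx _ ?_, ?_⟩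
      · have := hlev (l + j + 1) (by omega)
        have h3 : (0 : ℝ) ≤ 4 * Cc * (n : ℝ) ^ (3 * c) := by positivity
        linarith
      · rw [hm'l]
        exact (min_le_left _ _).trans hj2
    · push Not at h1
      obtain ⟨k', hk1, hk2⟩ := h1
      have hk4 : k' ≤ 4 * n := by
        rcases le_total B (m l) with hB | hB
        · have h2 : B * m l ≤ m l * m l := Nat.mul_le_mul_right _ hB
          have h3 : m l * m l ≤ m l ^ 4 := by
            calc m l * m l = m l ^ 2 := by ring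
              _ ≤ m l ^ 4 := Nat.pow_le_pow_right (hm1 l) (by norm_num)
          have := hLm l hlL
          omega
        · have h2 : B * m l ≤ B * B := Nat.mul_le_mul_left _ hB
          have h3 : B * B = B ^ 2 := by ring
          omega
      have hk'1 : 1 ≤ k' := by
        by_contra hc0
        have h0 : k' = 0 := by omega
        rw [h0, Fn_zero15] at hk2
        have : 0 < ε * 2 ^ l := by positivity
        linarith
      obtain ⟨j, hj1, hj2⟩ := hchp k' (2 ^ l) hk'1 (one_le_pow₀ (by norm_num)) hk2.le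
      -- the time
      set T : ℕ := ⌈Cc * k' * Real.exp (Cc * j)⌉₊ with hT
      obtain ⟨k'', hk''1, hk''2⟩ := Finset.exists_max_image (Finset.range (T + 1)) (fM ρ β h)
        ⟨0, by simp⟩
      have h4 := hj2 T (fM ρ β h k'') (Nat.le_ceil _) fun i hi =>
        ⟨(le_max_left _ _).trans (hk''2 i (Finset.mem_range.2 (by omega))),
          (le_max_right _ _).trans (hk''2 i (Finset.mem_range.2 (by omega)))⟩
      have h5 : m (l + j + 1) ≤ k'' := by
        by_contra hc0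
        push Not at hc0
        have h6 := hlo _ _ hc0
        have h7 : (2 : ℝ) ^ (j + 1) * 2 ^ l = 2 ^ (l + j + 1) := by
          rw [← pow_add]
          congr 1
          omega
        linarith
      have h6 : k'' ≤ T := by
        have := Finset.mem_range.1 hk''1
        omega
      refine ⟨j, hidx _ ?_, ?_⟩
      · -- the index
        have g1 : (2 : ℝ) ^ l ≤ (n : ℝ) ^ c := hlev l (by omega)
        have g2 : (2 : ℝ) ^ j ≤ Cc * (2 * (n : ℝ) ^ c) ^ 2 := by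
          refine hj1.trans (mul_le_mul_of_nonneg_left ?_ (by linarith))
          refine pow_le_pow_left₀ (by have := Va_nn24 (ρ := ρ) (β := β) (h := h) k'; linarith) ?_ 2
          have := (hV k' hk4).1
          linarith
        have g3 : (2 : ℝ) ^ (l + j + 1) = 2 * 2 ^ l * 2 ^ j := by
          rw [pow_succ, pow_add]
          ring
        have g4 : (n : ℝ) ^ (3 * c) = (n : ℝ) ^ c * ((n : ℝ) ^ c) ^ 2 := by
          rw [← Real.rpow_natCast ((n : ℝ) ^ c) 2, ← Real.rpow_mul hn0.le, ← Real.rpow_add hn0]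
          congr 1
          push_cast
          ring
        rw [g3, g4]
        have g5 : 2 * (2 : ℝ) ^ l * 2 ^ j ≤ 2 * (n : ℝ) ^ c * (Cc * (2 * (n : ℝ) ^ c) ^ 2) :=
          mul_le_mul (by linarith) g2 (by positivity) (by positivity)
        refine g5.trans (le_of_eq (by ring))
      · rw [hm'l]
        refine (min_le_left _ _).trans (h5.trans (h6.trans ?_))
        have hml : (1 : ℝ) ≤ m l := by exact_mod_cast hm1 l
        have g1 : (k' : ℝ) ≤ B * m l := by exact_mod_cast hk1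
        have g2 : Cc * k' * Real.exp (Cc * j) ≤ Cc * (B * m l) * Real.exp (Cc * j) :=
          mul_le_mul_of_nonneg_right (mul_le_mul_of_nonneg_left g1 (by linarith))
            (Real.exp_pos _).le
        have g3 : (1 : ℝ) ≤ Real.exp (Cc * j) := Real.one_le_exp (by positivity)
        have g4 : (T : ℝ) ≤ Cc * k' * Real.exp (Cc * j) + 1 :=
          (Nat.ceil_lt_add_one (by positivity)).le
        have g5 : (T : ℝ) ≤ (Cc * B + 1) * Real.exp (Cc * j) * m l := by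
          have : (1 : ℝ) ≤ Real.exp (Cc * j) * m l := by nlinarith
          have e : (Cc * B + 1) * Real.exp (Cc * j) * m l =
            Cc * (B * m l) * Real.exp (Cc * j) + Real.exp (Cc * j) * m l := by ring
          rw [e]
          linarith
        have g6 : (Cc * B + 1) * Real.exp (Cc * j) ≤ (Λ' : ℝ) ^ (j + 1) := by
          have q1 : Real.exp (Cc * j) = Real.exp Cc ^ j := by
            rw [← Real.exp_nat_mul]
            congr 1
            ring
          have q2 : (1 : ℝ) ≤ Cc * B + 1 := by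
            have : 0 ≤ Cc * B := by positivity
            linarith
          have q3 : Real.exp Cc ≤ Λ' := by
            refine le_trans ?_ hΛ3
            have := Real.exp_pos Cc
            nlinarith
          have q5 : (1 : ℝ) ≤ Real.exp Cc := Real.one_le_exp (by linarith)
          have q6 : Cc * B + 1 ≤ (Λ' : ℝ) := by
            refine le_trans ?_ hΛ3
            nlinarith
          rw [q1, pow_succ']
          exact mul_le_mul q6 (pow_le_pow_left₀ (Real.exp_pos _).le q3 _) (by positivity)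
            (by positivity)
        have g7 : (T : ℝ) ≤ (Λ' : ℝ) ^ (j + 1) * m l :=
          g5.trans (mul_le_mul_of_nonneg_right g6 (by positivity))
        exact_mod_cast g7
  obtain ⟨I, hI1, hI2, hI3⟩ := hS m' l₀ L l2 (3 * a) Λ' N hm'mono
    (le_min (hm1 l₀) hn1) hl0L.le hLl2 (by omega) hΛ2 hcheap
  refine ⟨m, I, ?_, ?_, ?_, ?_, ?_⟩
  · -- the system
    refine ⟨hlo, hhi, fun p hp => ?_, fun p hp => ?_, fun p hp j hj => ?_, hI2, fun p hp k hk => ?_⟩
    · have h1 := (hI1 p hp).2.1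
      refine ⟨by omega, ?_⟩
      have h2 : m ls ≤ m (p - a) := hmono (by omega)
      omega
    · exact hLm p (hI1 p hp).2.2
    · have h1 := (hI1 p hp).1
      rw [hN, Finset.mem_filter] at h1
      have h2 := h1.2.1 j hj
      refine lt_of_le_of_lt (Nat.mul_le_mul_right _ (Nat.pow_le_pow_left hΛ _)) h2
    · have h1 := (hI1 p hp).1
      rw [hN, Finset.mem_filter] at h1
      exact h1.2.2 k hk
  · intro p hp
    exact hl2.trans (pow_le_pow_right₀ (by norm_num) (hI1 p hp).2.1)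
  · exact fun p hp => hLm' p (hI1 p hp).2.2
  · have h1 : I ⊆ Finset.range l2 := fun p hp => Finset.mem_range.2 (by
      have := (hI1 p hp).2.2
      omega)
    have h2 := Finset.card_le_card h1
    rw [Finset.card_range] at h2
    exact_mod_cast h2
  · -- the sum
    have hsum : ∑ p ∈ I, Real.log (m' (p + 1) / m' p) = ∑ p ∈ I, Dl n m p := by
      refine Finset.sum_congr rfl fun p hp => ?_
      have h1 : m' p = m p := min_eq_left (hLm' p (hI1 p hp).2.2)
      unfold Dl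
      rw [h1]
    rw [hsum] at hI3
    refine le_trans ?_ hI3
    have h1 : m' l₀ = m l₀ := min_eq_left (hLm' l₀ hl0L)
    have h2 : n ≤ m' L ^ 4 := by
      rcases le_total (m L) n with h3 | h3
      · have : m' L = m L := min_eq_left h3
        rw [this]
        exact hLs.le
      · have : m' L = n := min_eq_right h3
        rw [this]
        exact Nat.le_self_pow (by norm_num) _
    have h3 : (0 : ℝ) < m l₀ := by exact_mod_cast hm1 l₀
    have h4 : (0 : ℝ) < m' L := by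
      have : 1 ≤ m' L := le_min (hm1 L) hn1
      exact_mod_cast this
    rw [h1, Real.log_div h4.ne' h3.ne']
    have h5 : Real.log n ≤ 4 * Real.log (m' L) := by
      have : Real.log n ≤ Real.log ((m' L : ℝ) ^ 4) :=
        Real.log_le_log hn0 (by exact_mod_cast h2)
      rw [Real.log_pow] at this
      exact_mod_cast this
    have h6 : 8 * Real.log (m l₀) ≤ Real.log n := by
      have : Real.log ((m l₀ : ℝ) ^ 8) ≤ Real.log n :=
        Real.log_le_log (by positivity) (by exact_mod_cast hm8)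
      rw [Real.log_pow] at this
      exact_mod_cast this
    linarith

/-- The core at one tilt and one scale, without a lower bound of the fluctuation. -/
theorem corL63 {d : ℕ} {ρ : Measure ℝ} [IsProbabilityMeasure ρ] (hd : 0 < d) (hρ : EM ρ) {β : ℝ}
    (hLoc : LocE d ρ β) (hU : UseL d ρ β) (hA : AddP d ρ β) (hC : ChpP d ρ β) (hS : SelP) :
    CorL d ρ β := by
  classical
  intro g C₀ hg hC₀
  obtain ⟨c₀, hc₀, hloc⟩ := hLoc g hg
  obtain ⟨a, B, Λ, ε, cA, CA, ha, hε, hcA, hCA, hadd⟩ :=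
    hA c₀ (1 / 20) hc₀ (by norm_num) (by norm_num)
  obtain ⟨Cc, hCc, hchp⟩ := hC c₀ ε hc₀ hε
  obtain ⟨Λ', hΛ1, hΛ2, hΛ3⟩ : ∃ Λ' : ℕ, Λ ≤ Λ' ∧ 2 ≤ Λ' ∧
      (Cc * B + 1) * Real.exp Cc ≤ Λ' := by
    refine ⟨max Λ (max 2 ⌈(Cc * B + 1) * Real.exp Cc⌉₊), le_max_left _ _,
      (le_max_left _ _).trans (le_max_right _ _), ?_⟩
    refine (Nat.le_ceil _).trans ?_
    exact_mod_cast (le_max_right _ _).trans (le_max_right _ _)
  have hℓ : 0 ≤ Real.log Λ' := Real.log_nonneg (by exact_mod_cast (by omega : 1 ≤ Λ'))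
  set M : ℝ := 3 * a * (10 / cA * (1 + 7 * C₀ * (CA + 1)) + 7 * CA / cA) + 7 * Real.log Λ' with hM
  have hM0 : 0 ≤ M := by
    have : 0 ≤ 10 / cA * (1 + 7 * C₀ * (CA + 1)) + 7 * CA / cA := by positivity
    positivity
  obtain ⟨c, hc0, hc1, hc2⟩ : ∃ c : ℝ, 0 < c ∧ c ≤ 1 / 16 ∧ c * M ≤ 1 / 16 := by
    refine ⟨1 / (16 * (M + 1)), by positivity, ?_, ?_⟩
    · rw [div_le_div_iff₀ (by positivity) (by norm_num)]
      linarith
    · rw [div_mul_eq_mul_div, div_le_div_iff₀ (by positivity) (by norm_num)]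
      linarith
  refine ⟨c, hc0, fun h hgap => ?_⟩
  have hL1 : Loc1 ρ β h c₀ := hloc h hgap
  obtain ⟨Cu, hCu, huse'⟩ := hU h
  have hT1 : Tendsto (fun n : ℕ => Real.log n) atTop atTop :=
    Real.tendsto_log_atTop.comp tendsto_natCast_atTop_atTop
  have hbd : ∀ K : ℝ, ∃ k : ℕ, K ≤ fM ρ β h k := fun K => unb47 hd hρ β hc₀ hg hL1 hgap K
  set X₀ : ℝ := max 1 ((150 * 10) ^ 2) with hX₀
  obtain ⟨n₁, hn₁⟩ := selL63 hd hρ hS X₀ ha hΛ1 hΛ2 hΛ3 hCc hc0 hε (hchp h hL1) hbd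
  have E1 : ∀ᶠ n : ℕ in atTop, max (100 * (6 * Cu + 1)) 3 ≤ (n : ℝ) ^ (1 / 16 : ℝ) :=
    ((tendsto_rpow_atTop (by norm_num : (0 : ℝ) < 1 / 16)).comp
      tendsto_natCast_atTop_atTop).eventually_ge_atTop _
  have E2 : ∀ᶠ n : ℕ in atTop, 1 / c ≤ Real.log n := hT1.eventually_ge_atTop _
  obtain ⟨n₂, hn₂⟩ := eventually_atTop.1 (E1.and E2)
  refine ⟨max n₁ (max n₂ 1), fun n hn hV hB => ?_⟩
  have hn1 : n₁ ≤ n := (le_max_left _ _).trans hn
  have hn2 : n₂ ≤ n := (le_max_left _ _).trans ((le_max_right _ _).trans hn)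
  have hn3 : 1 ≤ n := (le_max_right _ _).trans ((le_max_right _ _).trans hn)
  have hn1' : (1 : ℝ) ≤ n := by exact_mod_cast hn3
  have hn0 : (0 : ℝ) < n := by linarith
  obtain ⟨m, I, hSy, hIx, hIn, hIc, hsum⟩ := hn₁ n hn1 hV
  obtain ⟨e1, e2⟩ := hn₂ n hn2
  have e11 : 100 * (6 * Cu + 1) ≤ (n : ℝ) ^ (1 / 16 : ℝ) := (le_max_left _ _).trans e1
  have e12 : (3 : ℝ) ≤ (n : ℝ) ^ (1 / 16 : ℝ) := (le_max_right _ _).trans e1
  have e2' : 1 ≤ c * Real.log n := by
    rw [div_le_iff₀ hc0] at e2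
    linarith
  have hlg : 0 < Real.log n := by
    by_contra hc'
    push Not at hc'
    nlinarith
  have hc16 : (n : ℝ) ^ c ≤ (n : ℝ) ^ (1 / 16 : ℝ) := Real.rpow_le_rpow_of_exponent_le hn1' hc1
  have hnc1 : 1 ≤ (n : ℝ) ^ c := Real.one_le_rpow hn1' hc0.le
  have hV16 : ∀ k : ℕ, k ≤ 4 * n → Va ρ β h k ≤ (n : ℝ) ^ (1 / 16 : ℝ) ∧
      En ρ β h k ≤ (n : ℝ) ^ (1 / 16 : ℝ) := fun k hk =>
    ⟨(hV k hk).1.trans hc16, (hV k hk).2.trans hc16⟩
  have hm1 : ∀ l, 1 ≤ m l := by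
    intro l
    by_contra hc0
    have h0 : m l = 0 := by omega
    have h1 := hSy.hi l
    have hf0 : fM ρ β h 0 = 0 := by
      unfold fM
      rw [En_zero15, Fn_zero15, max_self]
    rw [h0, hf0] at h1
    have : (0 : ℝ) < 2 ^ l := by positivity
    linarith
  have hmono : Monotone m := by
    intro l l' hl
    by_contra hc'
    push Not at hc'
    have h1 := hSy.lo l (m l') hc'
    have h2 := hSy.hi l'
    have h3 : (2 : ℝ) ^ l ≤ 2 ^ l' := pow_le_pow_right₀ (by norm_num) hl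
    linarith
  have hDl : ∀ p ∈ I, 0 ≤ Dl n m p := by
    intro p hp
    unfold Dl
    refine Real.log_nonneg ?_
    rw [one_le_div (by exact_mod_cast hm1 p)]
    exact_mod_cast le_min (hmono (Nat.le_succ p)) (hIn p hp)
  -- the events
  set Bs : ℕ → Set (Env d) := fun p =>
    Lk ρ β h n (m p - 2 * m (p - a)) 0 (2 ^ p) (1 / 20) 0 with hBs
  have haddJ : ∀ J : Finset ℕ, J ⊆ I → (law d ρ).real (⋂ p ∈ J, Bs p) ≤
      Real.exp (CA * J.card - cA * ∑ p ∈ J, Dl n m p) := fun J hJ =>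
    hadd h hL1 n m J (Sy_sub24 hJ hSy) hV16
  -- the good ones
  set I' : Finset ℕ := I.filter fun p => 1 ≤ m p - 2 * m (p - a) with hI'
  have hI'I : I' ⊆ I := Finset.filter_subset _ _
  have hbad : ∀ p ∈ I \ I', Dl n m p ≤ CA / cA := by
    intro p hp
    rw [Finset.mem_sdiff, hI', Finset.mem_filter, not_and] at hp
    have h1 : m p - 2 * m (p - a) = 0 := by
      have := hp.2 hp.1
      omega
    have h2 := haddJ {p} (Finset.singleton_subset_iff.2 hp.1)
    simp only [Finset.mem_singleton, Set.iInter_iInter_eq_left, Finset.card_singleton,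
      Nat.cast_one, mul_one, Finset.sum_singleton] at h2
    have h3 : Bs p = Set.univ := by
      show Lk ρ β h n (m p - 2 * m (p - a)) 0 (2 ^ p) (1 / 20) 0 = Set.univ
      rw [h1]
      exact Lk_univ24 n 0 (by positivity) (by norm_num)
    rw [h3, probReal_univ, ← Real.exp_zero, Real.exp_le_exp] at h2
    rw [le_div_iff₀ hcA]
    linarith
  have hsplit : ∑ p ∈ I, Dl n m p ≤ ∑ p ∈ I', Dl n m p + CA / cA * I.card := by
    rw [← Finset.sum_sdiff hI'I, add_comm]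
    have h1 : ∑ p ∈ I \ I', Dl n m p ≤ (I \ I').card • (CA / cA) :=
      Finset.sum_le_card_nsmul _ _ _ hbad
    rw [nsmul_eq_mul] at h1
    have h2 : ((I \ I').card : ℝ) ≤ I.card := by
      exact_mod_cast Finset.card_le_card Finset.sdiff_subset
    have h3 : ((I \ I').card : ℝ) * (CA / cA) ≤ I.card * (CA / cA) :=
      mul_le_mul_of_nonneg_right h2 (by positivity)
    have h4 : (I.card : ℝ) * (CA / cA) = CA / cA * I.card := mul_comm _ _
    linarith
  -- the usage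
  have hus : ∀ p ∈ I', 2 / 5 * (n : ℝ) ≤ ∑ t ∈ Finset.range n, us ρ β h n t (Bs p) := by
    intro p hp
    have hpI : p ∈ I := hI'I hp
    have hH1 : 1 ≤ m p - 2 * m (p - a) := (Finset.mem_filter.1 hp).2
    have hHm : m p - 2 * m (p - a) ≤ m p := Nat.sub_le _ _
    have h1 := huse' n (m p - 2 * m (p - a)) (2 ^ p) (1 / 20) ((n : ℝ) ^ c) hH1
      (hHm.trans (hIn p hpI)) (one_le_pow₀ (by norm_num)) (by norm_num) (by norm_num)
      (Real.rpow_pos_of_pos hn0 _) (fun k hk => (hV k (by omega)).1)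
    refine useL63 hn3 ?_ (one_le_pow₀ (by norm_num) : (1 : ℝ) ≤ 2 ^ p) hCu
      (xlog63 (by norm_num) (hIx p hpI)) (((hSy.hi p).trans (fM_le24 hd hρ hnc1
        (hV _ (by have := hIn p hpI; omega)).1 (hV _ (by have := hIn p hpI; omega)).2)).trans hc16)
      (hV16 n (by omega)).2 hc16 e11 e12 h1
    exact (Nat.pow_le_pow_left hHm 4).trans (hSy.sm p hpI)
  -- the budget
  have hbud := hB I' Bs (fun p => cA * Dl n m p) CA
    (fun p hp => ⟨Lk_meas24 _ _ _ _ _ _, Lk_dep24 _ _ _ _ _ _,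
      mul_nonneg hcA.le (hDl p (hI'I hp))⟩) (by linarith)
    (fun J hJ => by
      refine (haddJ J (hJ.trans hI'I)).trans (le_of_eq ?_)
      rw [Finset.mul_sum])
  have hlow : 1 / 10 * cA * ∑ p ∈ I', Dl n m p ≤
      ∑ p ∈ I', cA * Dl n m p * ((∑ t ∈ Finset.range n, us ρ β h n t (Bs p)) / n - 3 / 10) := by
    rw [Finset.mul_sum]
    refine Finset.sum_le_sum fun p hp => ?_
    have h1 : 2 / 5 ≤ (∑ t ∈ Finset.range n, us ρ β h n t (Bs p)) / n := by
      rw [le_div_iff₀ hn0]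
      exact hus p hp
    have h2 : 0 ≤ cA * Dl n m p := mul_nonneg hcA.le (hDl p (hI'I hp))
    have h3 : cA * Dl n m p * (1 / 10) ≤ cA * Dl n m p *
        ((∑ t ∈ Finset.range n, us ρ β h n t (Bs p)) / n - 3 / 10) :=
      mul_le_mul_of_nonneg_left (by linarith) h2
    linarith
  have hcard : (I'.card : ℝ) ≤ I.card := by exact_mod_cast Finset.card_le_card hI'I
  have hfl : ((⌊6 * c * Real.log n⌋₊ : ℕ) : ℝ) ≤ 6 * c * Real.log n :=
    Nat.floor_le (by positivity)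
  refine cnt24 (a := a) (cA := cA) (CA := CA) (C₀ := C₀) (ℓ := Real.log Λ') (c := c)
    (lg := Real.log n) (sI := ∑ p ∈ I, Dl n m p) (sJ := ∑ p ∈ I', Dl n m p) (kI := I.card)
    (l2 := ((⌊6 * c * Real.log n⌋₊ : ℕ) : ℝ)) hcA (by linarith) hC₀ hℓ hlg hc2 hsum hsplit ?_ ?_ ?_
  · have h1 : C₀ * (CA + 1) * I'.card ≤ C₀ * (CA + 1) * I.card :=
      mul_le_mul_of_nonneg_left hcard (by positivity)
    linarith
  · linarith
  · linarith

/-- The core at one scale, with the usage plugged in. -/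
theorem corLU63 {d : ℕ} {ρ : Measure ℝ} [IsProbabilityMeasure ρ] (hd : 0 < d) (hρ : EM ρ) {β : ℝ}
    (hLoc : LocE d ρ β) (hA : AddP d ρ β) (hC : ChpP d ρ β) (hS : SelP) : CorL d ρ β :=
  corL63 hd hρ hLoc (useL33 hd hρ β) hA hC hS

/-- CORL implies COR. -/
theorem corP_of_corL63 {d : ℕ} {ρ : Measure ℝ} {β : ℝ} (h : CorL d ρ β) : CorP d ρ β := by
  intro g C₀ hg hC₀
  obtain ⟨c, hc, H⟩ := h g C₀ hg hC₀
  refine ⟨c, 0, hc, fun h hgap => ?_⟩
  obtain ⟨n₀, hn₀⟩ := H h hgap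
  exact ⟨n₀, fun n hn hV _ => hn₀ n hn hV⟩

end Pool.Agent.W_7d29a1_PL
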