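import Pool.Agent.W_7d29a1_PL.DefsPL
import Pool.Agent.W_7d29a1_AM.AmpX94

/-!
A power law for the variance in two transversal dimensions, every law with exponential moments:
frozen statements of the leaves which replace those that use the Gaussian growth (helper73).
-/

namespace Pool.Agent.W_7d29a1_PL

open MeasureTheory ProbabilityTheory Filter Topology Pool.Agent.W_MP_7d29a1_pr
  Pool.Agent.W_7d29a1_h46 Pool.Agent.W_7d29a1_h46u Pool.Agent.W_7d29a1_D2.B35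
  Pool.Agent.W_7d29a1_Q29 Pool.Agent.W_7d29a1_R34 Pool.Agent.W_7d29a1_SP

section Leaves

variable (d : ℕ) (ρ : Measure ℝ) (β : ℝ)

/-- GROWX: amplification of every law (`7 / 5` moment) and counting in time. -/
def GrowX : Prop := ∀ c₀ D : ℝ, 0 < c₀ → 1 ≤ D → ∃ C : ℝ, 1 ≤ C ∧ ∀ h : Vec d,
  Loc1 ρ β h c₀ → ∀ (m T : ℕ) (s₀ s₁ q Φ : ℝ), 1 ≤ m → 0 < q → q ≤ 1 / 2 →
    C * (1 + Real.log (1 / q)) ≤ s₁ - s₀ →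
    ∫ η, (max (X β h η m - s₀) 0) ^ (7 / 5 : ℝ) ∂(law d ρ) ≤ ((s₁ - s₀) / q) ^ (7 / 5 : ℝ) →
    A ρ β h m ≤ s₁ → q ≤ (law d ρ).real {η | X β h η m ≤ s₀} →
    q ≤ (law d ρ).real {η | s₁ < X β h η m} → C * m * (1 / q) ^ C ≤ T →
    (∀ k : ℕ, k ≤ T → En ρ β h k ≤ Φ ∧ Fn ρ β h k ≤ Φ) → D * (s₁ - s₀) ≤ Φ + 1

/-- MOM: the `7 / 5` moment of the upper part under regularity (counting in time only). -/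
def MomP : Prop := ∀ c₀ K : ℝ, 0 < c₀ → 1 ≤ K → ∃ C : ℝ, 1 ≤ C ∧ ∀ h : Vec d, Loc1 ρ β h c₀ →
  ∀ (n m : ℕ) (y : ℝ), 1 ≤ m → m ≤ n → 1 ≤ y →
    (∀ j k : ℕ, k ≤ n → k ≤ 8 ^ j * m → En ρ β h k ≤ 2 ^ j * y ∧ Fn ρ β h k ≤ 2 ^ j * y) →
    Va ρ β h m ^ 7 * m ^ 3 ≤ K * n ^ 3 →
      ∫ η, (max (X β h η m - A ρ β h m) 0) ^ (7 / 5 : ℝ) ∂(law d ρ) ≤ C * y ^ (7 / 5 : ℝ)

/-- GROWR: growth under regularity, every law: to be used in place of `GrowP`. -/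
def GrowR : Prop := ∀ c₀ D K : ℝ, 0 < c₀ → 1 ≤ D → 1 ≤ K → ∃ C : ℝ, 1 ≤ C ∧ ∀ h : Vec d,
  Loc1 ρ β h c₀ → ∀ (n m T : ℕ) (s₀ s₁ q Φ y : ℝ), 1 ≤ m → m ≤ n → 1 ≤ y →
    (∀ j k : ℕ, k ≤ n → k ≤ 8 ^ j * m → En ρ β h k ≤ 2 ^ j * y ∧ Fn ρ β h k ≤ 2 ^ j * y) →
    Va ρ β h m ^ 7 * m ^ 3 ≤ K * n ^ 3 → y ≤ K * (s₁ - s₀) →
    C * (1 + Real.log (1 / q)) ≤ s₁ - s₀ → 0 < q → q ≤ 1 →
    A ρ β h m ≤ s₁ → q ≤ (law d ρ).real {η | X β h η m ≤ s₀} →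
    q ≤ (law d ρ).real {η | s₁ < X β h η m} → C * m * (1 / q) ^ C ≤ T →
    (∀ k : ℕ, k ≤ T → En ρ β h k ≤ Φ ∧ Fn ρ β h k ≤ Φ) → D * (s₁ - s₀) ≤ Φ + 1

/-- GROWN: growth, every law, no moment: `GrowP` with the one hypothesis that the gap is larger
than the logarithm of the probability. -/
def GrowN : Prop := ∀ c₀ D : ℝ, 0 < c₀ → 1 ≤ D → ∃ C : ℝ, 1 ≤ C ∧ ∀ h : Vec d,
  Loc1 ρ β h c₀ → ∀ (m T : ℕ) (s₀ s₁ q Φ : ℝ), 1 ≤ m → 0 < q → q ≤ 1 →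
    C * (1 + Real.log (1 / q)) ≤ s₁ - s₀ →
    A ρ β h m ≤ s₁ → q ≤ (law d ρ).real {η | X β h η m ≤ s₀} →
    q ≤ (law d ρ).real {η | s₁ < X β h η m} → C * m * (1 / q) ^ C ≤ T →
    (∀ k : ℕ, k ≤ T → En ρ β h k ≤ Φ ∧ Fn ρ β h k ≤ Φ) → D * (s₁ - s₀) ≤ Φ + 1

/-- BALX: the free energy is not above its mean with too large a probability, every law. -/
def BalX : Prop := ∃ C q : ℝ, 1 ≤ C ∧ 0 < q ∧ ∀ (h : Vec d) (m : ℕ), C ≤ Fn ρ β h m →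
  q ≤ (law d ρ).real {η | X β h η m ≤ A ρ β h m + Fn ρ β h m / 16}

/-- COSTX: `CostP` at levels above the logarithm. -/
def CostX : Prop := ∀ c₀ κ : ℝ, 0 < c₀ → 0 < κ → κ ≤ 1 / 2 → ∃ (a₀ B Λ : ℕ) (ε c C : ℝ),
  0 < ε ∧ 0 < c ∧ 1 ≤ C ∧ ∀ a : ℕ, a₀ ≤ a → ∀ h : Vec d, Loc1 ρ β h c₀ →
  ∀ (n : ℕ) (m : ℕ → ℕ) (I : Finset ℕ), Sy ρ β h n a B Λ ε m I →
    (∀ p ∈ I, C * (1 + Real.log n) ≤ 2 ^ p) →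
    (∀ k : ℕ, k ≤ 4 * n → Va ρ β h k ≤ (n : ℝ) ^ (1 / 16 : ℝ) ∧
      En ρ β h k ≤ (n : ℝ) ^ (1 / 16 : ℝ)) → ∀ p ∈ I, ∀ i : ℕ,
    (law d ρ).real (Lg ρ β h n (m p - 2 * m (p - a)) (2 * m (p - a)) (2 ^ p) κ (κ / 8 * 2 ^ p) i) ≤
      C * Real.exp (-(c * i)) * ((m p : ℝ) / (min (m (p + i + 1)) n : ℕ)) ^ c

/-- ADDX: `AddP` at levels above the logarithm. -/
def AddX : Prop := ∀ c₀ κ : ℝ, 0 < c₀ → 0 < κ → κ ≤ 1 / 2 → ∃ (a B Λ : ℕ) (ε c C : ℝ),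
  1 ≤ a ∧ 0 < ε ∧ 0 < c ∧ 1 ≤ C ∧ ∀ h : Vec d, Loc1 ρ β h c₀ →
  ∀ (n : ℕ) (m : ℕ → ℕ) (I : Finset ℕ), Sy ρ β h n a B Λ ε m I →
    (∀ p ∈ I, C * (1 + Real.log n) ≤ 2 ^ p) →
    (∀ k : ℕ, k ≤ 4 * n → Va ρ β h k ≤ (n : ℝ) ^ (1 / 16 : ℝ) ∧
      En ρ β h k ≤ (n : ℝ) ^ (1 / 16 : ℝ)) →
    (law d ρ).real (⋂ p ∈ I, Lk ρ β h n (m p - 2 * m (p - a)) 0 (2 ^ p) κ 0) ≤
      Real.exp (C * I.card - c * ∑ p ∈ I, Dl n m p)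

/-- CHPX: a large random fluctuation is cheap, every law. -/
def ChpX : Prop := ∀ c₀ δ : ℝ, 0 < c₀ → 0 < δ → ∃ C : ℝ, 1 ≤ C ∧ ∀ h : Vec d, Loc1 ρ β h c₀ →
  ∀ (m : ℕ) (x : ℝ), 1 ≤ m → C ≤ x → δ * x ≤ Fn ρ β h m →
    ∃ j : ℕ, (2 : ℝ) ^ j ≤ C * (1 + Va ρ β h m) ^ 2 ∧ ∀ (T : ℕ) (Φ : ℝ),
      C * m * Real.exp (C * j) ≤ T → (∀ k : ℕ, k ≤ T → En ρ β h k ≤ Φ ∧ Fn ρ β h k ≤ Φ) →
        2 ^ (j + 1) * x ≤ Φ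

end Leaves

/-- The Gaussian leaves imply those of every law. -/
theorem addX_of_addP73 {d : ℕ} {ρ : Measure ℝ} {β : ℝ} (h : AddP d ρ β) : AddX d ρ β := by
  intro c₀ κ h1 h2 h3
  obtain ⟨a, B, Λ, ε, c, C, ha, hε, hc, hC, hh⟩ := h c₀ κ h1 h2 h3
  exact ⟨a, B, Λ, ε, c, C, ha, hε, hc, hC, fun g hg n m I hS _ hk => hh g hg n m I hS hk⟩

theorem growN_of_growP73 {d : ℕ} {ρ : Measure ℝ} {β : ℝ} (h : GrowP d ρ β) : GrowN d ρ β := by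
  intro c₀ D h1 h2
  obtain ⟨C, hC, hh⟩ := h c₀ D h1 h2
  refine ⟨C, hC, fun g hg m T s₀ s₁ q Φ hm hq hq1 hl hA h0 h1 hT hk => ?_⟩
  have h3 : 0 ≤ Real.log (1 / q) := Real.log_nonneg (by rw [le_div_iff₀ hq]; linarith)
  have h4 : 0 ≤ C * (1 + Real.log (1 / q)) := by positivity
  exact hh g hg m T s₀ s₁ q Φ hm hq hq1 (by linarith) hA h0 h1 hT hk

theorem costX_of_costP73 {d : ℕ} {ρ : Measure ℝ} {β : ℝ} (h : CostP d ρ β) : CostX d ρ β := by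
  intro c₀ κ h1 h2 h3
  obtain ⟨a, B, Λ, ε, c, C, hε, hc, hC, hh⟩ := h c₀ κ h1 h2 h3
  exact ⟨a, B, Λ, ε, c, C, hε, hc, hC,
    fun a' ha' g hg n m I hS _ hk => hh a' ha' g hg n m I hS hk⟩

theorem chpX_of_chpP73 {d : ℕ} {ρ : Measure ℝ} {β : ℝ} (h : ChpP d ρ β) : ChpX d ρ β := by
  intro c₀ δ h1 h2
  obtain ⟨C, hC, hh⟩ := h c₀ δ h1 h2
  exact ⟨C, hC, fun g hg m x hm hx hF => hh g hg m x hm (hC.trans hx) hF⟩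

end Pool.Agent.W_7d29a1_PL
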