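import Pool.Agent.W_7d29a1_PL.Cost7
import Pool.Agent.W_7d29a1_PL.DefsPX

/-!
Leaf COSTX: the price of a single luck, every law (over the growth without moment).
-/

set_option autoImplicit false

namespace Pool.Agent.W_7d29a1_PL.C7

open MeasureTheory ProbabilityTheory Filter Topology Pool.Agent.W_MP_7d29a1_pr
  Pool.Agent.W_7d29a1_h46 Pool.Agent.W_7d29a1_h46u Pool.Agent.W_7d29a1_D2.B35
  Pool.Agent.W_7d29a1_Q29 Pool.Agent.W_7d29a1_R34 Pool.Agent.W_7d29a1_SP

variable {d : ℕ} {ρ : Measure ℝ}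

/-- SING for every law: one lucky level, the gap is larger than the logarithm. -/
def SingX (d : ℕ) (ρ : Measure ℝ) (β : ℝ) : Prop := ∀ c₀ D : ℝ, 0 < c₀ → 1 ≤ D →
  ∃ C : ℝ, 1 ≤ C ∧ ∀ h : Vec d, Loc1 ρ β h c₀ → ∀ (T₀ T₁ T : ℕ) (θ s₀ φ Φ : ℝ),
    1 ≤ T₁ → T₁ ≤ T → 0 ≤ φ →
    (∀ k : ℕ, k ≤ T₁ - T₀ → En ρ β h k ≤ φ ∧ Fn ρ β h k ≤ φ) →
    (∀ k : ℕ, k ≤ T → En ρ β h k ≤ Φ ∧ Fn ρ β h k ≤ Φ) →
    A ρ β h T₁ + 4 * Fn ρ β h T₁ ≤ s₀ →
    C * (1 + Real.log T) ≤ lam ρ β h * T₁ + θ - (3 * φ + 1) - s₀ →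
    Φ + 1 < D * (lam ρ β h * T₁ + θ - (3 * φ + 1) - s₀) →
    (law d ρ).real {η | ∃ s : ℕ, T₀ ≤ s ∧ s ≤ T₁ ∧ lam ρ β h * s + θ ≤ X β h η s} ≤
      C * ((T₁ : ℝ) / T) ^ (1 / C)

/-- SING from the growth without moment. -/
theorem singX7 [IsProbabilityMeasure ρ] (hd : 0 < d) (hρ : EM ρ) {β : ℝ}
    (hG : GrowN d ρ β) : SingX d ρ β := by
  intro c₀ D hc hD
  obtain ⟨C₁, hC₁, hgrow⟩ := hG c₀ (2 * D) hc (by linarith)
  refine ⟨4 * C₁, by linarith, ?_⟩
  intro h hL T₀ T₁ T θ s₀ φ Φ hT1 hTT hφ hk hK hs₀ hlog hΦ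
  obtain ⟨C, hC⟩ : ∃ C, C = 4 * C₁ := ⟨_, rfl⟩
  rw [← hC] at hlog ⊢
  have hC4 : 4 ≤ C := by linarith
  have hC0 : 0 < C := by linarith
  have hT1' : (1 : ℝ) ≤ T₁ := by exact_mod_cast hT1
  have hTT' : (T₁ : ℝ) ≤ T := by exact_mod_cast hTT
  have hT0 : (0 : ℝ) < T := by linarith
  have hT01 : (1 : ℝ) ≤ T := by linarith
  have hlogT : 0 ≤ Real.log T := Real.log_nonneg hT01
  obtain ⟨g, hg⟩ : ∃ g, g = lam ρ β h * T₁ + θ - (3 * φ + 1) - s₀ := ⟨_, rfl⟩
  rw [← hg] at hlog hΦ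
  have hg0 : 0 < g := by
    have : 0 < C * (1 + Real.log T) := by positivity
    linarith
  have hF0 : 0 ≤ Fn ρ β h T₁ := Fn_nonneg15 β h T₁
  obtain ⟨r, hr⟩ : ∃ r : ℝ, r = (T₁ : ℝ) / T := ⟨_, rfl⟩
  rw [← hr]
  have hr0 : 0 < r := by
    rw [hr]
    positivity
  have hr1 : r ≤ 1 := by
    rw [hr, div_le_one hT0]
    exact hTT'
  have hrT : 1 / r ≤ T := by
    rw [hr, one_div_div, div_le_iff₀ (by linarith)]
    nlinarith
  obtain ⟨p, hp⟩ : ∃ p, p = (law d ρ).real {η | s₀ + g / 2 < X β h η T₁} := ⟨_, rfl⟩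
  have hp0 : 0 ≤ p := by
    rw [hp]
    exact measureReal_nonneg
  have h3 := S79.push79 (ρ := ρ) hd hρ β h hφ hk (θ := θ)
  have h4 : (law d ρ).real {η | lam ρ β h * T₁ + θ - (3 * φ + 1) ≤ X β h η T₁} ≤ p := by
    rw [hp]
    refine measureReal_mono ?_ (measure_ne_top _ _)
    intro η hη
    have h5 : lam ρ β h * T₁ + θ - (3 * φ + 1) ≤ X β h η T₁ := hη
    show s₀ + g / 2 < X β h η T₁
    linarith
  refine h3.trans ?_
  refine (mul_le_mul_of_nonneg_left h4 (by norm_num : (0 : ℝ) ≤ 2)).trans ?_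
  by_contra hcon
  push Not at hcon
  have hp1 : p ≤ 1 := by
    rw [hp]
    exact measureReal_le_one
  obtain ⟨q, hq⟩ : ∃ q, q = min p (1 / 2) := ⟨_, rfl⟩
  have hpq : p ≤ 2 * q := by
    rcases le_total p (1 / 2) with h5 | h5
    · rw [hq, min_eq_left h5]
      linarith
    · rw [hq, min_eq_right h5]
      linarith
  have hqp : q ≤ p := by
    rw [hq]
    exact min_le_left _ _
  have hqh : q ≤ 1 / 2 := by
    rw [hq]
    exact min_le_right _ _
  have hrC : 0 < r ^ (1 / C) := Real.rpow_pos_of_pos hr0 _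
  have hq1 : C / 4 * r ^ (1 / C) < q := by linarith
  have hq0 : 0 < q := lt_trans (by positivity) hq1
  -- the logarithm
  have hq2 : r ^ (1 / C) < q := by
    have : 1 * r ^ (1 / C) ≤ C / 4 * r ^ (1 / C) :=
      mul_le_mul_of_nonneg_right (by linarith) hrC.le
    linarith
  have hl : Real.log (1 / q) ≤ Real.log T := by
    have h5 : Real.log (1 / q) ≤ Real.log (1 / r ^ (1 / C)) :=
      Real.log_le_log (by positivity) (one_div_le_one_div_of_le hrC hq2.le)
    have h6 : Real.log (1 / r ^ (1 / C)) = 1 / C * Real.log (1 / r) := by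
      rw [one_div, Real.log_inv, Real.log_rpow hr0, one_div r, Real.log_inv]
      ring
    have h7 : Real.log (1 / r) ≤ Real.log T := Real.log_le_log (by positivity) hrT
    have h8 : 0 ≤ Real.log (1 / r) := Real.log_nonneg (by rw [le_div_iff₀ hr0]; linarith)
    have h9 : 1 / C * Real.log (1 / r) ≤ 1 * Real.log (1 / r) :=
      mul_le_mul_of_nonneg_right (by rw [div_le_one hC0]; linarith) h8
    linarith
  have hl2 : C₁ * (1 + Real.log (1 / q)) ≤ s₀ + g / 2 - s₀ := by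
    have h5 : C₁ * (1 + Real.log (1 / q)) ≤ C₁ * (1 + Real.log T) :=
      mul_le_mul_of_nonneg_left (by linarith) (by linarith)
    have h6 : C * (1 + Real.log T) = 4 * (C₁ * (1 + Real.log T)) := by
      rw [hC]
      ring
    have h7 : 0 ≤ C₁ * (1 + Real.log T) := by positivity
    linarith
  -- the count
  have hcount : C₁ * T₁ * (1 / q) ^ C₁ ≤ T := by
    have h5 : 1 / q ≤ 4 / C * (1 / r ^ (1 / C)) := by
      rw [div_mul_div_comm, mul_one, div_le_div_iff₀ hq0 (by positivity)]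
      have h6 : C * r ^ (1 / C) = 4 * (C / 4 * r ^ (1 / C)) := by ring
      rw [one_mul, h6]
      linarith
    have h6 : (1 / q) ^ C₁ ≤ (4 / C * (1 / r ^ (1 / C))) ^ C₁ :=
      Real.rpow_le_rpow (by positivity) h5 (by linarith)
    have h7 : (4 / C * (1 / r ^ (1 / C))) ^ C₁ = (4 / C) ^ C₁ * (1 / r ^ (1 / C)) ^ C₁ :=
      Real.mul_rpow (by positivity) (by positivity)
    have h8 : (4 / C) ^ C₁ ≤ 4 / C := by
      have h9 : (4 / C) ^ C₁ ≤ (4 / C) ^ (1 : ℝ) :=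
        Real.rpow_le_rpow_of_exponent_ge (by positivity) (by rw [div_le_one hC0]; exact hC4) hC₁
      rwa [Real.rpow_one] at h9
    have h9 : (1 / r ^ (1 / C)) ^ C₁ ≤ 1 / r := by
      have h10 : (1 / r ^ (1 / C)) = (1 / r) ^ (1 / C) := by
        rw [Real.div_rpow zero_le_one hr0.le, Real.one_rpow]
      rw [h10, ← Real.rpow_mul (by positivity)]
      have h11 : (1 : ℝ) ≤ 1 / r := by
        rw [le_div_iff₀ hr0]
        linarith
      calc (1 / r) ^ (1 / C * C₁) ≤ (1 / r) ^ (1 : ℝ) := by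
            refine Real.rpow_le_rpow_of_exponent_le h11 ?_
            rw [hC]
            have : 1 / (4 * C₁) * C₁ = 1 / 4 := by
              field_simp
            rw [this]
            norm_num
        _ = 1 / r := Real.rpow_one _
    have h10 : (1 / q) ^ C₁ ≤ 4 / C * (1 / r) := by
      rw [h7] at h6
      exact h6.trans (mul_le_mul h8 h9 (by positivity) (by positivity))
    have h11 : C₁ * T₁ * (1 / q) ^ C₁ ≤ C₁ * T₁ * (4 / C * (1 / r)) :=
      mul_le_mul_of_nonneg_left h10 (by positivity)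
    have h12 : C₁ * T₁ * (4 / C * (1 / r)) = T := by
      rw [hC, hr]
      have : (T₁ : ℝ) ≠ 0 := by linarith
      have : C₁ ≠ 0 := by linarith
      field_simp
    linarith
  have h13 : (1 / 2 : ℝ) ≤ (law d ρ).real {η | X β h η T₁ ≤ s₀} := S79.half79 hd hρ β h T₁ hs₀
  have h14 := hgrow h hL T₁ T s₀ (s₀ + g / 2) q Φ hT1 hq0 (by linarith) hl2 (by linarith)
    (hqh.trans h13) (by rw [← hp]; exact hqp) hcount hK
  have h15 : 2 * D * (s₀ + g / 2 - s₀) = D * g := by ring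
  rw [h15] at h14
  linarith

/-- SING at one horizon, in the form of the group `i`, every law. -/
lemma one7x {β : ℝ} {C₀ κ : ℝ} (hκ : 0 < κ) (hC : 1 ≤ C₀) {h : Vec d}
    (hs : ∀ (T₀ T₁ T : ℕ) (θ s₀ φ Φ : ℝ),
    1 ≤ T₁ → T₁ ≤ T → 0 ≤ φ →
    (∀ k : ℕ, k ≤ T₁ - T₀ → En ρ β h k ≤ φ ∧ Fn ρ β h k ≤ φ) →
    (∀ k : ℕ, k ≤ T → En ρ β h k ≤ Φ ∧ Fn ρ β h k ≤ Φ) →
    A ρ β h T₁ + 4 * Fn ρ β h T₁ ≤ s₀ →
    C₀ * (1 + Real.log T) ≤ lam ρ β h * T₁ + θ - (3 * φ + 1) - s₀ →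
    Φ + 1 < 8 / κ * (lam ρ β h * T₁ + θ - (3 * φ + 1) - s₀) →
    (law d ρ).real {η | ∃ s : ℕ, T₀ ≤ s ∧ s ≤ T₁ ∧ lam ρ β h * s + θ ≤ X β h η s} ≤
      C₀ * ((T₁ : ℝ) / T) ^ (1 / C₀))
    {n m0 M i p : ℕ} (hG : Gp7 n m0 M i) (hlog : C₀ * (1 + Real.log n) ≤ κ / 2 * 2 ^ p)
    (hM : ∀ k : ℕ, k < M → fM ρ β h k < 2 ^ (p + i + 1)) {T₀ T₁ : ℕ}
    (hT : T₁ ≤ 2 ^ (i + 1) * m0) (hT1 : 1 ≤ T₁) {θ φ : ℝ} (hφ : 0 ≤ φ)
    (hk : ∀ k : ℕ, k ≤ T₁ - T₀ → En ρ β h k ≤ φ ∧ Fn ρ β h k ≤ φ)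
    (hθ : 4 * Fn ρ β h T₁ + 3 * φ + 1 + κ / 2 * (2 ^ i * 2 ^ p) ≤ En ρ β h T₁ + θ) :
    (law d ρ).real {η | ∃ s : ℕ, T₀ ≤ s ∧ s ≤ T₁ ∧ lam ρ β h * s + θ ≤ X β h η s} ≤
      4 * C₀ * Real.exp (-(1 / C₀ / 2 * i)) * ((m0 : ℝ) / M) ^ (1 / C₀ / 2) := by
  have h1 : κ / 2 * (2 ^ i * 2 ^ p) ≤
      lam ρ β h * T₁ + θ - (3 * φ + 1) - (A ρ β h T₁ + 4 * Fn ρ β h T₁) := by
    unfold En at hθ
    linarith
  have e1 : (1 : ℝ) ≤ 2 ^ i := one_le_pow₀ (by norm_num)
  have e2 : (1 : ℝ) ≤ 2 ^ p := one_le_pow₀ (by norm_num)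
  refine le_trans (hs T₀ T₁ (M - 1) θ (A ρ β h T₁ + 4 * Fn ρ β h T₁) φ (2 ^ (p + i + 1)) hT1
    ?_ hφ hk ?_ (le_refl _) ?_ ?_) (pr7 hG hC hT)
  · have := hG.lt
    omega
  · intro k hk
    have h1 : k < M := by
      have := hG.lt
      omega
    exact ⟨(le_max_left _ _).trans (hM k h1).le, (le_max_right _ _).trans (hM k h1).le⟩
  · refine le_trans ?_ h1
    have h2 : Real.log ((M - 1 : ℕ) : ℝ) ≤ Real.log n := by
      refine Real.log_le_log ?_ ?_
      · have h3 : 0 < M - 1 := by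
          have := hG.lt
          omega
        exact_mod_cast h3
      · have h3 : M - 1 ≤ n := by
          have := hG.le
          omega
        exact_mod_cast h3
    have h3 : C₀ * (1 + Real.log ((M - 1 : ℕ) : ℝ)) ≤ C₀ * (1 + Real.log n) :=
      mul_le_mul_of_nonneg_left (by linarith) (by linarith)
    refine (h3.trans hlog).trans (mul_le_mul_of_nonneg_left ?_ (by positivity))
    nlinarith
  · have h2 : 8 / κ * (κ / 2 * (2 ^ i * 2 ^ p)) ≤
        8 / κ * (lam ρ β h * T₁ + θ - (3 * φ + 1) - (A ρ β h T₁ + 4 * Fn ρ β h T₁)) :=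
      mul_le_mul_of_nonneg_left h1 (by positivity)
    have h3 : 8 / κ * (κ / 2 * ((2 : ℝ) ^ i * 2 ^ p)) = 4 * (2 ^ i * 2 ^ p) := by
      field_simp
      ring
    have h4 : (2 : ℝ) ^ (p + i + 1) = 2 * (2 ^ i * 2 ^ p) := by ring
    have h5 : (1 : ℝ) ≤ 2 ^ i * 2 ^ p := by nlinarith
    rw [h4]
    linarith

/-- COSTX. -/
theorem costX7 [IsProbabilityMeasure ρ] (hd : 0 < d) (hρ : EM ρ) {β : ℝ}
    (hS : SingX d ρ β) : CostX d ρ β := by
  intro c₀ κ hc₀ hκ hκ2
  obtain ⟨C₀, hC₀, hsing⟩ := hS c₀ (8 / κ) hc₀ (by rw [le_div_iff₀ hκ]; linarith)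
  have hC₀' : 0 < C₀ := by linarith
  obtain ⟨k0, hk0⟩ := pow_unbounded_of_one_lt (64 / κ) (by norm_num : (1 : ℝ) < 2)
  obtain ⟨a0, ha0⟩ := pow_unbounded_of_one_lt (1408 / κ) (by norm_num : (1 : ℝ) < 2)
  have hk01 : 1 ≤ k0 := by
    by_contra hcon
    have e : k0 = 0 := by omega
    rw [e, pow_zero, div_lt_iff₀ hκ] at hk0
    linarith
  obtain ⟨c, hcd⟩ : ∃ c : ℝ, c = min (1 / C₀ / 2) (1 / 16) := ⟨_, rfl⟩
  have hc1 : c ≤ 1 / C₀ / 2 := by
    rw [hcd]
    exact min_le_left _ _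
  have hc2 : c ≤ 1 / 16 := by
    rw [hcd]
    exact min_le_right _ _
  have hc : 0 < c := by
    rw [hcd]
    exact lt_min (by positivity) (by norm_num)
  obtain ⟨C, hCd⟩ : ∃ C : ℝ, C = 2 ^ (2 * k0) * (4 * C₀) + 8 / κ ^ 2 +
      2 * C₀ / κ := ⟨_, rfl⟩
  have hCz1 : 0 ≤ 8 / κ ^ 2 := by positivity
  have hCz2 : 0 ≤ 2 ^ (2 * k0) * (4 * C₀) := by positivity
  have hCz3 : 0 ≤ 2 * C₀ / κ := by positivity
  have hCa : 2 ^ (2 * k0) * (4 * C₀) ≤ C := by
    rw [hCd]
    linarith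
  have hCb : 8 / κ ^ 2 ≤ C := by
    rw [hCd]
    linarith
  have hCc : 2 * C₀ / κ ≤ C := by
    rw [hCd]
    linarith
  have hC1 : 1 ≤ C := by
    have h1 : (1 : ℝ) ≤ 2 ^ (2 * k0) := one_le_pow₀ (by norm_num)
    nlinarith
  refine ⟨a0, 2 ^ (2 * k0), 16, κ / 64, c, C, by positivity, hc, hC1, ?_⟩
  intro a ha h hL n m I hSy hlg hV p hp i
  have hm2 : 2 ≤ m (p - a) := (hSy.big p hp).2
  have hap : a ≤ p := (hSy.big p hp).1
  have hmn : m p ^ 4 ≤ n := hSy.sm p hp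
  -- the sizes
  obtain ⟨x, hx⟩ : ∃ x : ℝ, x = 2 ^ p := ⟨_, rfl⟩
  obtain ⟨y, hy⟩ : ∃ y : ℝ, y = 2 ^ (p - a) := ⟨_, rfl⟩
  have hx0 : 0 < x := by
    rw [hx]
    positivity
  have hy1 : 1 ≤ y := by
    rw [hy]
    exact one_le_pow₀ (by norm_num)
  have hxy : 1408 * y ≤ κ * x := by
    have h1 : (2 : ℝ) ^ a0 ≤ 2 ^ a := pow_le_pow_right₀ (by norm_num) ha
    have h2 : x = 2 ^ a * y := by
      rw [hx, hy, ← pow_add]
      congr 1
      omega
    have h3 : 1408 / κ ≤ 2 ^ a := ha0.le.trans h1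
    rw [div_le_iff₀ hκ] at h3
    rw [h2]
    nlinarith
  have hx1 : 1 ≤ x := by nlinarith
  have hφ := phi7 (ρ := ρ) hd hρ β h hm2 (y := y) (fun k hk => by
    rw [hy]
    exact hSy.lo _ k hk)
  have hmp : 2 * m (p - a) < m p := by
    by_contra hcon
    have h1 := hφ (m p) (by omega)
    have h2 := hSy.hi p
    have h3 : fM ρ β h (m p) ≤ 29 * y := max_le h1.1 h1.2
    rw [← hx] at h2
    nlinarith
  have hm3 : 3 ≤ m p := by omega
  have hmn' : m p ≤ n := le_trans (Nat.le_self_pow (by norm_num) _) hmn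
  have hfs : ∀ k : ℕ, k ≤ 2 ^ (2 * k0) * m p → Fn ρ β h k ≤ κ / 64 * x := by
    intro k hk
    rw [hx]
    exact hSy.fs p hp k hk
  have hE : x ≤ En ρ β h (m p) := by
    have h2 := hSy.hi p
    have h3 := hfs (m p) (Nat.le_mul_of_pos_left _ (by positivity))
    rw [← hx] at h2
    rcases le_max_iff.1 h2 with h4 | h4
    · exact h4
    · nlinarith
  have hn1 : (1 : ℝ) ≤ n := by
    have : 1 ≤ n := by omega
    exact_mod_cast this
  have hnx : x ≤ (n : ℝ) ^ (1 / 16 : ℝ) := hE.trans (hV (m p) (by omega)).2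
  have hEn0 := fun k => En_nonneg15 (ρ := ρ) hd hρ β h k
  have hFn0 := fun k => Fn_nonneg15 (ρ := ρ) β h k
  have hlog : C₀ * (1 + Real.log n) ≤ κ / 2 * 2 ^ p := by
    have h1 := hlg p hp
    have h2 : 0 ≤ 1 + Real.log n := by
      have := Real.log_nonneg hn1
      linarith
    have h3 : 2 * C₀ / κ * (1 + Real.log n) ≤ 2 ^ p :=
      (mul_le_mul_of_nonneg_right hCc h2).trans h1
    have h4 : κ / 2 * (2 * C₀ / κ * (1 + Real.log n)) ≤ κ / 2 * 2 ^ p :=
      mul_le_mul_of_nonneg_left h3 (by positivity)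
    have h5 : κ / 2 * (2 * C₀ / κ * (1 + Real.log n)) = C₀ * (1 + Real.log n) := by
      field_simp
    linarith
  obtain ⟨M, hM⟩ : ∃ M : ℕ, M = min (m (p + i + 1)) n := ⟨_, rfl⟩
  obtain ⟨H, hH⟩ : ∃ H : ℕ, H = m p - 2 * m (p - a) := ⟨_, rfl⟩
  obtain ⟨S, hSd⟩ : ∃ S : ℕ, S = 2 * m (p - a) := ⟨_, rfl⟩
  have hHS : H + S = m p := by omega
  have hH1 : 1 ≤ H := by omega
  rw [← hM, ← hH, ← hSd, ← hx]
  have hMlo : ∀ k : ℕ, k < M → fM ρ β h k < 2 ^ (p + i + 1) := fun k hk =>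
    hSy.lo _ k (lt_of_lt_of_le hk (by rw [hM]; exact min_le_left _ _))
  have hm0 : (0 : ℝ) < m p := by
    have : 0 < m p := by omega
    exact_mod_cast this
  rcases le_or_gt ((2 ^ i) ^ 8) n with hi | hi
  · -- the short horizons
    have hG : Gp7 n (m p) M i := by
      rw [hM]
      exact gp7 hm3 hmn (fun hle => hSy.nc p hp i hle) hi
    have hMpos : (0 : ℝ) < M := by
      have := hG.lt
      have h2 : 0 < M := by omega
      exact_mod_cast h2
    have hr1 : (m p : ℝ) / M ≤ 1 := by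
      rw [div_le_one hMpos]
      have h2 : m p ≤ 2 ^ (i + 1) * m p := Nat.le_mul_of_pos_left _ (by positivity)
      have h3 : m p ≤ M := h2.trans hG.lt.le
      exact_mod_cast h3
    have hr0 : (0 : ℝ) < (m p : ℝ) / M := by positivity
    -- it is enough
    have key : ∀ P : ℝ, P ≤ 2 ^ (2 * k0) * (4 * C₀ * Real.exp (-(1 / C₀ / 2 * i)) *
        ((m p : ℝ) / M) ^ (1 / C₀ / 2)) →
        P ≤ C * Real.exp (-(c * i)) * ((m p : ℝ) / M) ^ c := by
      intro P hP
      have h1 : Real.exp (-(1 / C₀ / 2 * i)) ≤ Real.exp (-(c * i)) := by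
        refine Real.exp_le_exp.2 ?_
        have : c * (i : ℝ) ≤ 1 / C₀ / 2 * i := mul_le_mul_of_nonneg_right hc1 (by positivity)
        linarith
      have h2 : ((m p : ℝ) / M) ^ (1 / C₀ / 2) ≤ ((m p : ℝ) / M) ^ c :=
        Real.rpow_le_rpow_of_exponent_ge hr0 hr1 hc1
      calc P ≤ 2 ^ (2 * k0) * (4 * C₀) * (Real.exp (-(1 / C₀ / 2 * i)) *
            ((m p : ℝ) / M) ^ (1 / C₀ / 2)) := by
              refine hP.trans (le_of_eq ?_)
              ring
        _ ≤ C * (Real.exp (-(c * i)) * ((m p : ℝ) / M) ^ c) := by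
              refine mul_le_mul hCa (mul_le_mul h1 h2 (by positivity) (by positivity))
                (by positivity) (by linarith)
        _ = _ := by ring
    have h1i : (1 : ℝ) ≤ 2 ^ i := one_le_pow₀ (by norm_num)
    have one_le_K : (1 : ℝ) ≤ 2 ^ (2 * k0) := one_le_pow₀ (by norm_num)
    rcases lt_or_ge i (2 * k0) with hi0 | hi0
    · -- exact horizons
      have hB : 2 ^ (i + 1) * m p ≤ 2 ^ (2 * k0) * m p :=
        Nat.mul_le_mul_right _ (Nat.pow_le_pow_right (by norm_num) hi0)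
      rcases Nat.eq_zero_or_pos i with hz | hz
      · subst hz
        refine key _ ?_
        have h1 := one7x (ρ := ρ) (β := β) hκ hC₀ (hsing h hL) hG hlog hMlo (T₀ := H) (T₁ := m p)
          (by omega) (by omega) (θ := -((1 - κ) * x) - κ / 8 * x) (φ := 29 * y) (by linarith)
          (fun k hk => hφ k (by omega)) (by
            have h2 := hfs (m p) (Nat.le_mul_of_pos_left _ (by positivity))
            rw [← hx]
            simp only [pow_zero, one_mul]
            nlinarith)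
        have h3 : (law d ρ).real (Lg ρ β h n H S x κ (κ / 8 * x) 0) ≤ (law d ρ).real
            {η | ∃ s : ℕ, H ≤ s ∧ s ≤ m p ∧
              lam ρ β h * s + (-((1 - κ) * x) - κ / 8 * x) ≤ X β h η s} := by
          refine measureReal_mono ?_
          rintro η ⟨s, hs, h4⟩
          refine ⟨H + s, by omega, by omega, ?_⟩
          rw [mul_comm]
          linarith
        refine (h3.trans h1).trans ?_
        have h5 : 0 ≤ 4 * C₀ * Real.exp (-(1 / C₀ / 2 * (0 : ℕ))) *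
            ((m p : ℝ) / M) ^ (1 / C₀ / 2) := by positivity
        nlinarith
      · obtain ⟨j, rfl⟩ : ∃ j, i = j + 1 := ⟨i - 1, by omega⟩
        refine key _ ?_
        obtain ⟨W, hW⟩ : ∃ W : ℝ, W = 4 * C₀ * Real.exp (-(1 / C₀ / 2 * (j + 1 : ℕ))) *
            ((m p : ℝ) / M) ^ (1 / C₀ / 2) := ⟨_, rfl⟩
        rw [← hW]
        have hW0 : 0 ≤ W := by
          rw [hW]
          positivity
        have hN : ∀ N ∈ Finset.Ico (2 ^ (j + 1)) (2 ^ (j + 2)),
            (law d ρ).real (LgN ρ β h H S x κ (κ / 8 * x) N) ≤ W := by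
          intro N hN
          rw [Finset.mem_Ico] at hN
          have hNp : N * H + S ≤ N * m p := by
            have e1 : N * m p = N * H + N * S := by rw [← hHS, mul_add]
            have e2 : S ≤ N * S := Nat.le_mul_of_pos_left _ (by
              have : 0 < 2 ^ (j + 1) := by positivity
              omega)
            omega
          have hNT : N * H + S ≤ 2 ^ (j + 1 + 1) * m p :=
            hNp.trans (Nat.mul_le_mul_right _ hN.2.le)
          have hNr : (2 : ℝ) ^ (j + 1) ≤ N := by exact_mod_cast hN.1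
          have h2r : (2 : ℝ) ≤ 2 ^ (j + 1) := by
            calc (2 : ℝ) = 2 ^ 1 := by norm_num
              _ ≤ 2 ^ (j + 1) := pow_le_pow_right₀ (by norm_num) (by omega)
          have h1 := one7x (ρ := ρ) (β := β) hκ hC₀ (hsing h hL) hG hlog hMlo (T₀ := N * H)
            (T₁ := N * H + S) hNT (by omega) (θ := κ * N * x - κ / 8 * x) (φ := 29 * y)
            (by linarith) (fun k hk => hφ k (by omega)) (by
              have h2 := hfs (N * H + S) (hNT.trans hB)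
              have h3 := hEn0 (N * H + S)
              rw [← hx]
              have h4 : κ * x * 2 ^ (j + 1) ≤ κ * x * N :=
                mul_le_mul_of_nonneg_left hNr (by positivity)
              have h5 : κ * x * 2 ≤ κ * x * 2 ^ (j + 1) :=
                mul_le_mul_of_nonneg_left h2r (by positivity)
              nlinarith)
          rw [hW]
          refine le_trans (measureReal_mono ?_) h1
          rintro η ⟨s, hs, h4⟩
          refine ⟨N * H + s, by omega, by omega, ?_⟩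
          rw [mul_comm]
          linarith
        have hsub : Lg ρ β h n H S x κ (κ / 8 * x) (j + 1) ⊆
            ⋃ N ∈ Finset.Ico (2 ^ (j + 1)) (2 ^ (j + 2)), LgN ρ β h H S x κ (κ / 8 * x) N := by
          rintro η ⟨N, h1, h2, _, h4⟩
          exact Set.mem_biUnion (Finset.mem_coe.2 (Finset.mem_Ico.2 ⟨h1, h2⟩)) h4
        refine (measureReal_mono hsub (measure_ne_top _ _)).trans
          ((measureReal_biUnion_finset_le _ _).trans ?_)
        refine (Finset.sum_le_sum hN).trans ?_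
        rw [Finset.sum_const, nsmul_eq_mul]
        refine mul_le_mul_of_nonneg_right ?_ hW0
        have e1 : (Finset.Ico (2 ^ (j + 1)) (2 ^ (j + 2))).card ≤ 2 ^ (2 * k0) := by
          rw [Nat.card_Ico]
          refine (Nat.sub_le _ _).trans (Nat.pow_le_pow_right (by norm_num) (by omega))
        exact_mod_cast e1
    · -- the dyadic push
      obtain ⟨j, rfl⟩ : ∃ j, i = j + 1 := ⟨i - 1, by omega⟩
      have h2r : (2 : ℝ) ≤ 2 ^ (j + 1) := by
        calc (2 : ℝ) = 2 ^ 1 := by norm_num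
          _ ≤ 2 ^ (j + 1) := pow_le_pow_right₀ (by norm_num) (by omega)
      have hT : 2 ^ (j + 2) * H + S ≤ 2 ^ (j + 1 + 1) * m p := by
        have e1 : 2 ^ (j + 1 + 1) * m p = 2 ^ (j + 2) * H + 2 ^ (j + 2) * S := by
          rw [← hHS, mul_add]
        have e2 : S ≤ 2 ^ (j + 2) * S := Nat.le_mul_of_pos_left _ (by positivity)
        omega
      have hreg : ∀ k : ℕ, k ≤ 2 ^ (j + 2) * H + S →
          fM ρ β h k ≤ κ / 32 * (2 ^ (j + 1) * x) := by
        intro k hk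
        rw [hx]
        refine reg7 (n := n) (m0 := m p) (p := p) (m := m) (fun l k hk => hSy.lo l k hk)
          (fun j hj => hSy.nc p hp j hj) (hk.trans hT) ?_ hκ hk0.le hi0
        have := hG.lt
        have := hG.le
        omega
      refine key _ ?_
      have h1 := one7x (ρ := ρ) (β := β) hκ hC₀ (hsing h hL) hG hlog hMlo (T₀ := 2 ^ (j + 1) * H)
        (T₁ := 2 ^ (j + 2) * H + S) hT (by omega) (θ := κ * 2 ^ (j + 1) * x - κ / 8 * x)
        (φ := κ / 32 * (2 ^ (j + 1) * x)) (by positivity) (fun k hk =>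
          ⟨(le_max_left _ _).trans (hreg k (by omega)),
            (le_max_right _ _).trans (hreg k (by omega))⟩) (by
          have h2 : Fn ρ β h (2 ^ (j + 2) * H + S) ≤ κ / 32 * (2 ^ (j + 1) * x) :=
            (le_max_right _ _).trans (hreg _ le_rfl)
          have h3 := hEn0 (2 ^ (j + 2) * H + S)
          rw [← hx]
          have h5 : κ * x * 2 ≤ κ * x * 2 ^ (j + 1) :=
            mul_le_mul_of_nonneg_left h2r (by positivity)
          nlinarith)
      have h3 : (law d ρ).real (Lg ρ β h n H S x κ (κ / 8 * x) (j + 1)) ≤ (law d ρ).real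
          {η | ∃ s : ℕ, 2 ^ (j + 1) * H ≤ s ∧ s ≤ 2 ^ (j + 2) * H + S ∧
            lam ρ β h * s + (κ * 2 ^ (j + 1) * x - κ / 8 * x) ≤ X β h η s} := by
        refine measureReal_mono ?_
        rintro η ⟨N, hN1, hN2, _, s, hs, h4⟩
        have e1 : 2 ^ (j + 1) * H ≤ N * H := Nat.mul_le_mul_right _ hN1
        have e2 : N * H ≤ 2 ^ (j + 2) * H := Nat.mul_le_mul_right _ hN2.le
        refine ⟨N * H + s, by omega, by omega, ?_⟩
        have hNr : (2 : ℝ) ^ (j + 1) ≤ N := by exact_mod_cast hN1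
        have h5 : κ * x * 2 ^ (j + 1) ≤ κ * x * N :=
          mul_le_mul_of_nonneg_left hNr (by positivity)
        rw [mul_comm]
        nlinarith
      refine (h3.trans h1).trans ?_
      refine le_mul_of_one_le_left (by positivity) one_le_K
  · -- the long horizons
    have hi1 : 1 ≤ i := by
      by_contra hcon
      have e : i = 0 := by omega
      rw [e] at hi
      simp at hi
      omega
    obtain ⟨j, rfl⟩ : ∃ j, i = j + 1 := ⟨i - 1, by omega⟩
    have hrhs : 0 ≤ C * Real.exp (-(c * (j + 1 : ℕ))) * ((m p : ℝ) / M) ^ c := by positivity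
    rcases le_or_gt (2 ^ (j + 1) * H) n with hle | hgt
    swap
    · have h0 : Lg ρ β h n H S x κ (κ / 8 * x) (j + 1) = ∅ := by
        rw [Set.eq_empty_iff_forall_notMem]
        rintro η ⟨N, h1, _, h3, _⟩
        have := Nat.mul_le_mul_right H h1
        omega
      rw [h0, measureReal_empty]
      exact hrhs
    have hT4 : 2 ^ (j + 2) * H + S ≤ 4 * n := by
      have e1 : 2 ^ (j + 2) * H = 2 * (2 ^ (j + 1) * H) := by ring
      omega
    obtain ⟨K, hK⟩ : ∃ K : ℝ, K = (n : ℝ) ^ (1 / 16 : ℝ) := ⟨_, rfl⟩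
    have hK1 : 1 ≤ K := by
      rw [hK]
      exact Real.one_le_rpow hn1 (by norm_num)
    rw [← hK] at hnx
    have hK8 : K * K < 2 ^ (j + 1) := by
      have h1 : (n : ℝ) < ((2 : ℝ) ^ (j + 1)) ^ 8 := by exact_mod_cast hi
      have h2 : (K * K) ^ 8 = n := by
        rw [hK, ← Real.rpow_add (by linarith), ← Real.rpow_natCast, ← Real.rpow_mul (by linarith)]
        norm_num
      rw [← h2] at h1
      exact lt_of_pow_lt_pow_left₀ 8 (by positivity) h1
    have hVK : ∀ k : ℕ, k ≤ 4 * n → Va ρ β h k ≤ K ∧ En ρ β h k ≤ K ∧ Fn ρ β h k ≤ K := by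
      intro k hk
      obtain ⟨h1, h2⟩ := hV k hk
      rw [← hK] at h1 h2
      refine ⟨h1, h2, ?_⟩
      have h3 := Fn_sq15 (ρ := ρ) hd hρ β h k
      have h4 := hFn0 k
      by_contra hcon
      push Not at hcon
      nlinarith
    have hpush := S79.push79 (ρ := ρ) hd hρ β h (T₀ := 2 ^ (j + 1) * H)
      (T₁ := 2 ^ (j + 2) * H + S) (θ := κ * 2 ^ (j + 1) * x - κ / 8 * x) (φ := K) (by linarith)
      (fun k hk => ⟨(hVK k (by omega)).2.1, (hVK k (by omega)).2.2⟩)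
    have h3 : (law d ρ).real (Lg ρ β h n H S x κ (κ / 8 * x) (j + 1)) ≤ (law d ρ).real
        {η | ∃ s : ℕ, 2 ^ (j + 1) * H ≤ s ∧ s ≤ 2 ^ (j + 2) * H + S ∧
          lam ρ β h * s + (κ * 2 ^ (j + 1) * x - κ / 8 * x) ≤ X β h η s} := by
      refine measureReal_mono ?_
      rintro η ⟨N, hN1, hN2, _, s, hs, h4⟩
      have e1 : 2 ^ (j + 1) * H ≤ N * H := Nat.mul_le_mul_right _ hN1
      have e2 : N * H ≤ 2 ^ (j + 2) * H := Nat.mul_le_mul_right _ hN2.le
      refine ⟨N * H + s, by omega, by omega, ?_⟩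
      have hNr : (2 : ℝ) ^ (j + 1) ≤ N := by exact_mod_cast hN1
      have h5 : κ * x * 2 ^ (j + 1) ≤ κ * x * N :=
        mul_le_mul_of_nonneg_left hNr (by positivity)
      rw [mul_comm]
      nlinarith
    have hch := chb7 (ρ := ρ) hd hρ β h (2 ^ (j + 2) * H + S) (y := κ / 2 * 2 ^ (j + 1))
      (K := K) (by positivity) (hVK _ hT4).1
      (b := lam ρ β h * (2 ^ (j + 2) * H + S : ℕ) + (κ * 2 ^ (j + 1) * x - κ / 8 * x) -
        (3 * K + 1)) (by
        have h4 := hEn0 (2 ^ (j + 2) * H + S)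
        unfold En at h4
        have h5 : K * K * x ≤ 2 ^ (j + 1) * x := mul_le_mul_of_nonneg_right hK8.le hx0.le
        have h6 : 1408 ≤ κ * x := by nlinarith
        have h7 : 1408 ≤ κ * K := by nlinarith
        have h8 : K * 1408 ≤ κ * 2 ^ (j + 1) := by nlinarith
        have h9 : κ * 2 ^ (j + 1) * 1 ≤ κ * 2 ^ (j + 1) * x :=
          mul_le_mul_of_nonneg_left hx1 (by positivity)
        have h10 : (2 : ℝ) ≤ 2 ^ (j + 1) := by
          calc (2 : ℝ) = 2 ^ 1 := by norm_num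
            _ ≤ 2 ^ (j + 1) := pow_le_pow_right₀ (by norm_num) (by omega)
        have h11 : κ * x * 2 ≤ κ * x * 2 ^ (j + 1) :=
          mul_le_mul_of_nonneg_left h10 (by positivity)
        nlinarith)
    refine (h3.trans (hpush.trans (mul_le_mul_of_nonneg_left hch (by norm_num)))).trans ?_
    -- the numbers
    have hM1 : (1 : ℝ) / n ≤ (m p : ℝ) / M := by
      have h4 : (1 : ℝ) ≤ m p := by
        have : 1 ≤ m p := by omega
        exact_mod_cast this
      have h5 : M ≤ n := by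
        rw [hM]
        exact min_le_right _ _
      have h5' : (M : ℝ) ≤ n := by exact_mod_cast h5
      have h6 : 0 < M := by
        rw [hM]
        refine lt_min ?_ (by omega)
        by_contra hcon
        have e : m (p + (j + 1) + 1) = 0 := by omega
        have h7 := hSy.hi (p + (j + 1) + 1)
        rw [e] at h7
        unfold fM at h7
        rw [En_zero15, Fn_zero15, max_self] at h7
        have h8 : (0 : ℝ) < 2 ^ (p + (j + 1) + 1) := by positivity
        linarith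
      have h6' : (0 : ℝ) < M := by exact_mod_cast h6
      exact div_le_div₀ (by positivity) h4 h6' h5'
    have hr : K⁻¹ ≤ ((m p : ℝ) / M) ^ c := by
      have h4 : (1 / (n : ℝ)) ^ (1 / 16 : ℝ) ≤ (1 / (n : ℝ)) ^ c :=
        Real.rpow_le_rpow_of_exponent_ge (by positivity)
          (by rw [div_le_one (by linarith)]; exact hn1) hc2
      have h5 : (1 / (n : ℝ)) ^ c ≤ ((m p : ℝ) / M) ^ c :=
        Real.rpow_le_rpow (by positivity) hM1 hc.le
      have h6 : (1 / (n : ℝ)) ^ (1 / 16 : ℝ) = K⁻¹ := by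
        rw [hK, one_div, Real.inv_rpow (by linarith)]
      rw [← h6]
      exact h4.trans h5
    have he : ((2 : ℝ) ^ (j + 1))⁻¹ ≤ Real.exp (-(c * (j + 1 : ℕ))) := by
      rw [Real.exp_neg]
      refine inv_anti₀ (Real.exp_pos _) ?_
      have h4 : (2 : ℝ) ^ (j + 1) = Real.exp (Real.log 2 * (j + 1 : ℕ)) := by
        rw [Real.exp_mul, Real.exp_log (by norm_num), Real.rpow_natCast]
      rw [h4]
      refine Real.exp_le_exp.2 (mul_le_mul_of_nonneg_right ?_ (by positivity))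
      have := Real.log_two_gt_d9
      linarith
    have hprod : ((2 : ℝ) ^ (j + 1))⁻¹ * K⁻¹ ≤
        Real.exp (-(c * (j + 1 : ℕ))) * ((m p : ℝ) / M) ^ c :=
      mul_le_mul he hr (by positivity) (by positivity)
    have hz : 2 * (K / (κ / 2 * 2 ^ (j + 1)) ^ 2) ≤ 8 / κ ^ 2 * (((2 : ℝ) ^ (j + 1))⁻¹ * K⁻¹) := by
      have h4 : 2 * (K / (κ / 2 * (2 : ℝ) ^ (j + 1)) ^ 2) =
          8 / κ ^ 2 * (((2 : ℝ) ^ (j + 1))⁻¹ * (K / 2 ^ (j + 1))) := by
        field_simp
        ring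
      rw [h4]
      refine mul_le_mul_of_nonneg_left (mul_le_mul_of_nonneg_left ?_ (by positivity))
        (by positivity)
      rw [div_le_iff₀ (by positivity), ← div_eq_inv_mul, le_div_iff₀ (by linarith)]
      exact hK8.le
    calc 2 * (K / (κ / 2 * 2 ^ (j + 1)) ^ 2)
        ≤ 8 / κ ^ 2 * (((2 : ℝ) ^ (j + 1))⁻¹ * K⁻¹) := hz
      _ ≤ C * (Real.exp (-(c * (j + 1 : ℕ))) * ((m p : ℝ) / M) ^ c) :=
          mul_le_mul hCb hprod (by positivity) (by linarith)
      _ = _ := by ring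

end Pool.Agent.W_7d29a1_PL.C7

namespace Pool.Agent.W_7d29a1_PL

open MeasureTheory ProbabilityTheory Filter Topology Pool.Agent.W_MP_7d29a1_pr
  Pool.Agent.W_7d29a1_h46 Pool.Agent.W_7d29a1_h46u Pool.Agent.W_7d29a1_D2.B35
  Pool.Agent.W_7d29a1_Q29 Pool.Agent.W_7d29a1_R34 Pool.Agent.W_7d29a1_SP

/-- COSTX, over the growth without moment. -/
theorem costXN7 {d : ℕ} {ρ : Measure ℝ} [IsProbabilityMeasure ρ] (hd : 0 < d) (hρ : EM ρ) {β : ℝ}
    (hG : GrowN d ρ β) : CostX d ρ β :=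
  C7.costX7 hd hρ (C7.singX7 hd hρ hG)

end Pool.Agent.W_7d29a1_PL
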