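import Pool.Agent.W_7d29a1_PL.PlugX73
import Pool.Agent.W_7d29a1_PL.CostX7
import Pool.Agent.W_7d29a1_AM.AmpNU5

/-!
**Theorem PL for every law with exponential moments**: in two transversal dimensions the variance
is at least a power, infinitely often, at almost every tilt of very strong disorder (helper73).
-/

namespace Pool.Agent.W_7d29a1_PL

open MeasureTheory ProbabilityTheory Filter Topology Pool.Agent.W_MP_7d29a1_pr
  Pool.Agent.W_7d29a1_h46 Pool.Agent.W_7d29a1_h46u Pool.Agent.W_7d29a1_D2.B35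
  Pool.Agent.W_7d29a1_Q29 Pool.Agent.W_7d29a1_R34 Pool.Agent.W_7d29a1_SP

variable {ρ : Measure ℝ} [IsProbabilityMeasure ρ]

/-- The growth of every law in the letters of `DefsPX`. -/
theorem growN73 {d : ℕ} (hd : 0 < d) (hρ : EM ρ) (hnc : ∀ c : ℝ, ρ {c} ≠ 1) {β : ℝ} (hβ : 0 < β) :
    GrowN d ρ β := by
  have h5 : Pool.Agent.W_7d29a1_AM.GrowN d ρ β :=
    Pool.Agent.W_7d29a1_AM.growN5 (cnt79 hd hρ β)
      (Pool.Agent.W_7d29a1_AM.ampNAll5 hd hρ hnc hβ)
  intro c₀ D h1 h2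
  obtain ⟨C, hC, hh⟩ := h5 c₀ D h1 h2
  refine ⟨C, hC, fun g hg m T s₀ s₁ q Φ hm hq hq1 hl hA h0 h1' hT hk => ?_⟩
  have h3 : 0 ≤ Real.log (1 / q) := Real.log_nonneg (by rw [le_div_iff₀ hq]; linarith)
  have h4 : 0 < C * (1 + Real.log (1 / q)) := by positivity
  have hq2 : q ≤ 1 / 2 := by
    have hm1 : MeasurableSet {η : Env d | s₁ < X β g η m} :=
      measurableSet_lt measurable_const (measurable_X (d := d) β g m)
    have hdis : Disjoint {η : Env d | X β g η m ≤ s₀} {η : Env d | s₁ < X β g η m} := by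
      rw [Set.disjoint_left]
      intro η (ha : X β g η m ≤ s₀) (hb : s₁ < X β g η m)
      linarith
    have h6 := measureReal_union (μ := law d ρ) hdis hm1
    have h7 : (law d ρ).real ({η : Env d | X β g η m ≤ s₀} ∪ {η : Env d | s₁ < X β g η m}) ≤ 1 :=
      measureReal_le_one
    linarith
  exact hh g hg m T s₀ s₁ q Φ hm hq hq2 hl hA h0 h1' hT hk

/-- COSTX, every dimension, every law. -/
theorem costX73 {d : ℕ} (hd : 0 < d) (hρ : EM ρ) (hnc : ∀ c : ℝ, ρ {c} ≠ 1) {β : ℝ} (hβ : 0 < β) :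
    CostX d ρ β :=
  costXN7 hd hρ (growN73 hd hρ hnc hβ)

/-- The core, every dimension, every law, no hypothesis left. -/
theorem corU73 {d : ℕ} (hd : 0 < d) (hρ : EM ρ) (hnc : ∀ c : ℝ, ρ {c} ≠ 1) {β : ℝ} (hβ : 0 < β) :
    CorP d ρ β :=
  corX73 hd hρ (growN73 hd hρ hnc hβ) (costX73 hd hρ hnc hβ)

/-- **Theorem PL**, every law: the variance is at least a power of the length, infinitely often, at
almost every tilt of very strong disorder. -/
theorem mainPLU73 (hρ : EM ρ) (hnc : ∀ c : ℝ, ρ {c} ≠ 1) {β : ℝ} (hβ : 0 < β) : MainPL ρ β :=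
  plugX73 hρ hnc hβ (growN73 (by norm_num) hρ hnc hβ) (costX73 (by norm_num) hρ hnc hβ)

end Pool.Agent.W_7d29a1_PL
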