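import Pool.Agent.W_7d29a1_PL.AddP54
import Pool.Agent.W_7d29a1_PL.DefsPX

/-!
Leaf ADDX: the prices of the levels add up, every law.
-/

set_option autoImplicit false

namespace Pool.Agent.W_7d29a1_PL.Ad54

open MeasureTheory ProbabilityTheory Filter Topology Pool.Agent.W_MP_7d29a1_pr
  Pool.Agent.W_7d29a1_h46 Pool.Agent.W_7d29a1_h46u Pool.Agent.W_7d29a1_D2.B35
  Pool.Agent.W_7d29a1_Q29 Pool.Agent.W_7d29a1_R34 Pool.Agent.W_7d29a1_SP

variable {d : ℕ} {ρ : Measure ℝ} {β : ℝ}

/-- Leaf ADDX. -/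
theorem addX54 (hd : 0 < d) [IsProbabilityMeasure ρ] (hcat : CatP d ρ β)
    (hcost : CostX d ρ β) : AddX d ρ β := by
  intro c₀ κ hc₀ hκ hκ2
  obtain ⟨Cc, hCc, hcat⟩ := hcat c₀ hc₀
  obtain ⟨a₀, B, Λ₀, ε, c, Cs, hε, hc, hCs, hcost⟩ := hcost c₀ κ hc₀ hκ hκ2
  set Cz : ℝ := 2 * (2 * Cc + |Real.log c₀|) with hCz
  have hCz0 : 0 < Cz := by
    have := abs_nonneg (Real.log c₀)
    rw [hCz]
    linarith
  obtain ⟨a₁, ha₁⟩ := pow_unbounded_of_one_lt (8 * Cz / κ) (one_lt_two : (1 : ℝ) < 2)
  set a : ℕ := max (max a₀ a₁) 3 with ha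
  have haa0 : a₀ ≤ a := (le_max_left _ _).trans (le_max_left _ _)
  have haa1 : a₁ ≤ a := (le_max_right _ _).trans (le_max_left _ _)
  have haa3 : 3 ≤ a := le_max_right _ _
  have h2a : 8 * Cz ≤ κ * 2 ^ a := by
    have h1 : (2 : ℝ) ^ a₁ ≤ 2 ^ a := pow_le_pow_right₀ one_le_two haa1
    have h2 := (ha₁.le.trans h1)
    rw [div_le_iff₀ hκ] at h2
    linarith
  obtain ⟨Λ₁, hΛ₁⟩ := exists_nat_ge (Real.exp (4 * ((a : ℝ) + 1)))
  set Λ : ℕ := max Λ₀ Λ₁ with hΛ
  have hΛe : Real.exp (4 * ((a : ℝ) + 1)) ≤ Λ :=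
    hΛ₁.trans (by exact_mod_cast le_max_right _ _)
  have hΛ1 : (2 : ℝ) ≤ Λ := by
    have h1 := Real.add_one_le_exp (4 * ((a : ℝ) + 1))
    have h2 : (0 : ℝ) ≤ a := Nat.cast_nonneg _
    linarith
  have hΛ2 : 2 ≤ Λ := by exact_mod_cast hΛ1
  have hCt : (1 : ℝ) ≤ max Cs (16 * Cc) := le_max_of_le_left hCs
  obtain ⟨C₀, hC₀, hadd⟩ := addC54 a hc hCt
  refine ⟨a, B, Λ, ε, min c (1 / 16), max Cs (Real.log C₀), by omega, hε,
    lt_min hc (by norm_num), le_max_of_le_left hCs, ?_⟩
  intro h hloc n m I hSy hlg hVE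
  have hSy' : Sy ρ β h n a B Λ₀ ε m I :=
    { lo := hSy.lo
      hi := hSy.hi
      big := hSy.big
      sm := hSy.sm
      nc := fun p hp j hj => by
        refine lt_of_le_of_lt ?_ (hSy.nc p hp j hj)
        exact Nat.mul_le_mul_right _ (Nat.pow_le_pow_left (le_max_left _ _) _)
      sp := hSy.sp
      fs := hSy.fs }
  have hcostI := hcost a haa0 h hloc n m I hSy' (fun p hp => by
    refine le_trans (mul_le_mul_of_nonneg_right (le_max_left _ _) ?_) (hlg p hp)
    have := Real.log_natCast_nonneg n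
    linarith) hVE
  rcases I.eq_empty_or_nonempty with hI0 | hIne
  · subst hI0
    simp
  have hm : Monotone m := by
    intro l l' hll
    by_contra hlt
    push Not at hlt
    have h1 := hSy.lo l (m l') hlt
    have h2 := hSy.hi l'
    have h3 : (2 : ℝ) ^ l ≤ 2 ^ l' := pow_le_pow_right₀ one_le_two hll
    linarith
  have hap : ∀ p ∈ I, a ≤ p := fun p hp => (hSy.big p hp).1
  have hma2 : ∀ p ∈ I, 2 ≤ m (p - a) := fun p hp => (hSy.big p hp).2
  have hm2 : ∀ p ∈ I, 2 ≤ m p := fun p hp => (hma2 p hp).trans (hm (Nat.sub_le p a))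
  have hmn : ∀ p ∈ I, m p < n := by
    intro p hp
    have h1 := hSy.sm p hp
    have h2 := hm2 p hp
    have h3 : m p ^ 1 < m p ^ 4 := Nat.pow_lt_pow_right (by omega) (by norm_num)
    rw [pow_one] at h3
    exact h3.trans_le h1
  have hn3 : 3 ≤ n := by
    obtain ⟨p, hp⟩ := hIne
    have := hm2 p hp
    have := hmn p hp
    omega
  -- the logarithmic scale
  set x : ℕ → ℝ := fun j => Real.log ((max 1 (min (m j) n) : ℕ) : ℝ) with hx
  have hxpos : ∀ j, (0 : ℝ) < ((max 1 (min (m j) n) : ℕ) : ℝ) := fun j => by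
    have : 1 ≤ max 1 (min (m j) n) := le_max_left _ _
    exact_mod_cast this
  have hxm : Monotone x := by
    intro i j hij
    refine Real.log_le_log (hxpos i) ?_
    exact_mod_cast max_le_max le_rfl (min_le_min (hm hij) le_rfl)
  have hxval : ∀ j, 1 ≤ m j → m j ≤ n → x j = Real.log (m j) := by
    intro j h1 h2
    simp only [hx]
    rw [min_eq_left h2, max_eq_right h1]
  have hxp : ∀ p ∈ I, x p = Real.log (m p) := fun p hp =>
    hxval p (by have := hm2 p hp; omega) (hmn p hp).le
  have hxq : ∀ q ∈ I, x (q - a) = Real.log (m (q - a)) := fun q hq =>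
    hxval _ (by have := hma2 q hq; omega) ((hm (Nat.sub_le q a)).trans (hmn q hq).le)
  have hxmin : ∀ p ∈ I, ∀ j, p ≤ j → x j = Real.log ((min (m j) n : ℕ) : ℝ) := by
    intro p hp j hj
    simp only [hx]
    have h1 := hm2 p hp
    have h2 := hm hj
    rw [max_eq_right (le_min (by omega) (by omega))]
  -- stages
  set H : ℕ → ℕ := fun r => m r - 2 * m (r - a) with hH
  set sg : ℕ → ℕ := fun s => 2 * m (s - a) with hsg
  set z : ℕ → ℝ := fun s => Cz * 2 ^ (s - a) with hz
  have hsgm : Monotone sg := fun s t hst => Nat.mul_le_mul_left 2 (hm (Nat.sub_le_sub_right hst a))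
  have hzm : Monotone z := fun s t hst => mul_le_mul_of_nonneg_left
    (pow_le_pow_right₀ one_le_two (Nat.sub_le_sub_right hst a)) hCz0.le
  have hz0 : ∀ s, 0 ≤ z s := fun s => mul_nonneg hCz0.le (pow_nonneg zero_le_two _)
  have hzκ : ∀ p ∈ I, z p ≤ κ / 8 * 2 ^ p := by
    intro p hp
    have h1 := hap p hp
    have h2 : (2 : ℝ) ^ p = 2 ^ (p - a) * 2 ^ a := by
      rw [← pow_add, Nat.sub_add_cancel h1]
    have h3 : (0 : ℝ) < 2 ^ (p - a) := pow_pos two_pos _
    show Cz * 2 ^ (p - a) ≤ κ / 8 * 2 ^ p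
    rw [h2]
    nlinarith
  -- the bound for every truncation
  have main : ∀ N : ℕ, (law d ρ).real (U54 ρ β h n H κ N I (sg 0) (z 0)) ≤
      C₀ ^ I.card * Real.exp (-(min c (1 / 16) * ∑ r ∈ I, (x (r + 1) - x r))) := by
    intro N
    refine hadd x (Real.log n) (Real.log Λ) N I
      (fun q J => (law d ρ).real (U54 ρ β h n H κ N J (sg q) (z q)))
      (fun p i J => (law d ρ).real (Lg ρ β h n (H p) (sg p) (2 ^ p) κ (z p) i ∩
        U54 ρ β h n H κ N J (sg p) (z p)))
      (fun p i => (law d ρ).real (Lg ρ β h n (H p) (sg p) (2 ^ p) κ (κ / 8 * 2 ^ p) i))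
      hxm ?_ ?_ ?_ ?_ ?_ ?_ ?_ ?_ ?_ ?_ ?_ 0 I (Finset.Subset.refl _) (fun r _ => Nat.zero_le r)
    · -- 4 (a + 1) ≤ log Λ
      rw [Real.le_log_iff_exp_le (by linarith)]
      exact hΛe
    · -- x l < log n
      intro l hl
      rw [hxp l hl]
      refine Real.log_lt_log ?_ ?_
      · have := hm2 l hl
        exact_mod_cast (by omega : 0 < m l)
      · exact_mod_cast hmn l hl
    · -- spacing
      intro l hl l' hl' hll
      have := hSy.sp l hl l' hl' hll
      omega
    · -- goodness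
      intro l hl i hi hlt
      have h1 : m (l + i) < n := by
        by_contra hge
        push Not at hge
        have h2 := hxmin l hl (l + i) (by omega)
        rw [min_eq_right hge] at h2
        rw [h2] at hlt
        exact lt_irrefl _ hlt
      have h2 := hSy.nc l hl (i - 1) (by
        rw [show l + (i - 1) + 1 = l + i by omega]
        exact h1.le)
      rw [show l + (i - 1) + 1 = l + i by omega, show i - 1 + 1 = i by omega] at h2
      have h3 := hm2 l hl
      have h4 : x (l + i) = Real.log (m (l + i)) :=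
        hxval _ (by have := hm (by omega : l ≤ l + i); omega) h1.le
      rw [h4, hxp l hl]
      have h5 : ((Λ : ℝ) ^ i * m l) ≤ m (l + i) := by exact_mod_cast h2.le
      have h6 : (0 : ℝ) < m l := by exact_mod_cast (by omega : 0 < m l)
      have h7 : (0 : ℝ) < (Λ : ℝ) ^ i := pow_pos (by linarith) _
      have h8 := Real.log_le_log (mul_pos h7 h6) h5
      rw [Real.log_mul h7.ne' h6.ne', Real.log_pow] at h8
      linarith
    · -- f q ∅ = 1
      intro q
      have h1 : U54 ρ β h n H κ N ∅ (sg q) (z q) = Set.univ := by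
        ext η
        simp [U54]
      show (law d ρ).real (U54 ρ β h n H κ N ∅ (sg q) (z q)) = 1
      rw [h1]
      exact probReal_univ
    · -- the union
      intro q p J hqp hJ hp _
      have hcov : U54 ρ β h n H κ N J (sg q) (z q) ⊆ ⋃ i ∈ Finset.range (N + 1),
          (Lg ρ β h n (H p) (sg p) (2 ^ p) κ (z p) i ∩
            U54 ρ β h n H κ N (J.erase p) (sg p) (z p)) := by
        intro η hη
        obtain ⟨i, hi, hL⟩ := hη p hp
        simp only [Set.mem_iUnion]
        exact ⟨i, hi, Lg_mono54 (hsgm hqp) (hzm hqp) hL,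
          U54_mono le_rfl (Finset.erase_subset _ _) (hsgm hqp) (hzm hqp) hη⟩
      exact (measureReal_mono hcov (measure_ne_top _ _)).trans
        (measureReal_biUnion_finset_le _ _)
    · -- antitone
      intro p i J J' hJ
      exact measureReal_mono (Set.inter_subset_inter_right _
        (U54_mono le_rfl hJ le_rfl le_rfl)) (measure_ne_top _ _)
    · -- G ∅ ≤ V
      intro p hp i
      exact measureReal_mono (Set.inter_subset_left.trans (Lg_mono54 le_rfl (hzκ p hp)))
        (measure_ne_top _ _)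
    · intro p i
      exact measureReal_nonneg
    · -- CATCH
      intro p hp i _ q hq hpq _ J hJ hJq
      set M : ℕ := 2 ^ (i + 2) * H p + sg p with hM
      have hmap := hma2 p hp
      have hmaq := hma2 q hq
      have hM1 : 1 ≤ M := by
        have : 4 ≤ sg p := by
          show 4 ≤ 2 * m (p - a)
          omega
        omega
      have hMle : M ≤ 2 ^ (i + 3) * m p := by
        have h1 : H p ≤ m p := Nat.sub_le _ _
        have h2 : sg p ≤ 2 * m p := Nat.mul_le_mul_left 2 (hm (Nat.sub_le p a))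
        have h3 : 2 ^ (i + 2) * H p ≤ 2 ^ (i + 2) * m p := Nat.mul_le_mul_left _ h1
        have h4 : 2 * m p ≤ 2 ^ (i + 2) * m p := by
          refine Nat.mul_le_mul_right _ ?_
          calc 2 = 2 ^ 1 := by norm_num
            _ ≤ 2 ^ (i + 2) := Nat.pow_le_pow_right (by norm_num) (by omega)
        have h5 : 2 ^ (i + 3) * m p = 2 ^ (i + 2) * m p + 2 ^ (i + 2) * m p := by ring
        omega
      -- the next level is far
      have hfar : 2 * m (p - a) ≤ m (q - a) := by
        have h1 := hSy.sp p hp q hq hpq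
        have h2 : m (p + (2 * a - 1) + 1) ≤ n :=
          (hm (by omega : p + (2 * a - 1) + 1 ≤ q)).trans (hmn q hq).le
        have h3 := hSy.nc p hp (2 * a - 1) h2
        have h4 : m (p + (2 * a - 1) + 1) ≤ m (q - a) := hm (by omega)
        have h5 : 2 * m (p - a) ≤ Λ ^ (2 * a - 1 + 1) * m p := by
          refine Nat.mul_le_mul ?_ (hm (Nat.sub_le p a))
          calc 2 ≤ Λ := hΛ2
            _ = Λ ^ 1 := (pow_one _).symm
            _ ≤ Λ ^ (2 * a - 1 + 1) := Nat.pow_le_pow_right (by omega) (by omega)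
        omega
      have h2q : (1 : ℝ) ≤ 2 ^ (q - a) := one_le_pow₀ one_le_two
      have hstep := hcat h hloc M (m (q - a) - 1) (2 ^ (q - a))
        (Lg ρ β h n (H p) (sg p) (2 ^ p) κ (z p) i)
        (U54 ρ β h n H κ N J (sg p) (z p)) (U54 ρ β h n H κ N J (sg q) (z q)) hM1 (by omega)
        (Lg_meas54 _ _ _ _ _ _ _) (U54_meas _ _ _ _ _ _ _) (U54_meas _ _ _ _ _ _ _)
        (Lg_dep54 _ _ _ _ _ _ _ le_rfl) (U54_dep _ _ _ _ _ _ _)
        (fun k hk => by
          have h1 := hSy.lo (q - a) k (by omega)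
          exact ⟨(le_max_left _ _).trans h1.le, (le_max_right _ _).trans h1.le⟩)
        (fun s y η hs _ hA hX hG r hr => by
          obtain ⟨j, hj, hL⟩ := hG r hr
          refine ⟨j, hj, Lg_shift54 hd hc₀ hA hX ?_ ?_ hL⟩
          · show 2 * m (p - a) + s ≤ 2 * m (q - a)
            omega
          · have h1 := hap p hp
            have h2 : (2 : ℝ) ^ (q - a) = 2 ^ (p - a) * 2 ^ (q - p) := by
              rw [← pow_add]
              congr 1
              omega
            have h3 : (2 : ℝ) ≤ 2 ^ (q - p) := by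
              calc (2 : ℝ) = 2 ^ 1 := (pow_one _).symm
                _ ≤ 2 ^ (q - p) := pow_le_pow_right₀ one_le_two (by omega)
            have h4 : (0 : ℝ) < 2 ^ (p - a) := pow_pos two_pos _
            have h5 : 2 * (2 : ℝ) ^ (p - a) ≤ 2 ^ (q - a) := by
              rw [h2]
              nlinarith
            have h6 := abs_nonneg (Real.log c₀)
            show Cz * 2 ^ (p - a) + Cc * (2 ^ (q - a) + 1) + |Real.log c₀| ≤ Cz * 2 ^ (q - a)
            have h7 : Cz * (2 * 2 ^ (p - a)) ≤ Cz * 2 ^ (q - a) :=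
              mul_le_mul_of_nonneg_left h5 hCz0.le
            have h8 : Cc * (2 ^ (q - a) + 1) ≤ Cc * (2 * 2 ^ (q - a)) :=
              mul_le_mul_of_nonneg_left (by linarith) (by linarith)
            have h9 : |Real.log c₀| * 1 ≤ |Real.log c₀| * 2 ^ (q - a) :=
              mul_le_mul_of_nonneg_left h2q h6
            have h10 : Cz * 2 ^ (q - a) =
                4 * (Cc * 2 ^ (q - a)) + 2 * (|Real.log c₀| * 2 ^ (q - a)) := by
              rw [hCz]
              ring
            linarith)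
      refine hstep.trans (mul_le_mul_of_nonneg_right ?_ measureReal_nonneg)
      -- the numbers
      have hmp : (0 : ℝ) < m p := by
        have := hm2 p hp
        exact_mod_cast (by omega : 0 < m p)
      have hmq : (0 : ℝ) < m (q - a) := by exact_mod_cast (by omega : 0 < m (q - a))
      have hexp : Real.exp (i * Real.log 2 + x p - x (q - a)) = 2 ^ i * m p / m (q - a) := by
        rw [hxp p hp, hxq q hq, Real.exp_sub, Real.exp_add, Real.exp_log hmp, Real.exp_log hmq,
          Real.exp_nat_mul, Real.exp_log two_pos]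
      have hT : (m (q - a) : ℝ) / 2 ≤ ((m (q - a) - 1 : ℕ) : ℝ) := by
        rw [Nat.cast_sub (by omega)]
        have : (2 : ℝ) ≤ m (q - a) := by exact_mod_cast hmaq
        push_cast
        linarith
      have hfrac : (M : ℝ) / ((m (q - a) - 1 : ℕ) : ℝ) ≤
          16 * Real.exp (i * Real.log 2 + x p - x (q - a)) := by
        rw [hexp]
        have h1 : (M : ℝ) ≤ 2 ^ (i + 3) * m p := by exact_mod_cast hMle
        calc (M : ℝ) / ((m (q - a) - 1 : ℕ) : ℝ) ≤ (2 ^ (i + 3) * m p) / (m (q - a) / 2) :=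
              div_le_div₀ (by positivity) h1 (by positivity) hT
          _ = 16 * (2 ^ i * m p / m (q - a)) := by
              field_simp
              ring
      have hV : (law d ρ).real (Lg ρ β h n (H p) (sg p) (2 ^ p) κ (z p) i) ≤
          (law d ρ).real (Lg ρ β h n (H p) (sg p) (2 ^ p) κ (κ / 8 * 2 ^ p) i) :=
        measureReal_mono (Lg_mono54 le_rfl (hzκ p hp)) (measure_ne_top _ _)
      have hV0 : 0 ≤ (law d ρ).real (Lg ρ β h n (H p) (sg p) (2 ^ p) κ (κ / 8 * 2 ^ p) i) :=
        measureReal_nonneg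
      have hE0 := (Real.exp_pos (i * Real.log 2 + x p - x (q - a))).le
      calc Cc * ((law d ρ).real (Lg ρ β h n (H p) (sg p) (2 ^ p) κ (z p) i) +
            (M : ℝ) / ((m (q - a) - 1 : ℕ) : ℝ))
          ≤ Cc * ((law d ρ).real (Lg ρ β h n (H p) (sg p) (2 ^ p) κ (κ / 8 * 2 ^ p) i) +
            16 * Real.exp (i * Real.log 2 + x p - x (q - a))) :=
            mul_le_mul_of_nonneg_left (add_le_add hV hfrac) (by linarith)
        _ ≤ 16 * Cc * ((law d ρ).real (Lg ρ β h n (H p) (sg p) (2 ^ p) κ (κ / 8 * 2 ^ p) i) +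
            Real.exp (i * Real.log 2 + x p - x (q - a))) := by nlinarith
        _ ≤ max Cs (16 * Cc) * ((law d ρ).real (Lg ρ β h n (H p) (sg p) (2 ^ p) κ
            (κ / 8 * 2 ^ p) i) + Real.exp (i * Real.log 2 + x p - x (q - a))) :=
            mul_le_mul_of_nonneg_right (le_max_right _ _) (add_nonneg hV0 hE0)
    · -- COST
      intro p hp i _
      refine (hcostI p hp i).trans ?_
      have hmp : (0 : ℝ) < m p := by
        have := hm2 p hp
        exact_mod_cast (by omega : 0 < m p)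
      have hmin : (0 : ℝ) < ((min (m (p + i + 1)) n : ℕ) : ℝ) := by
        have h1 := hm2 p hp
        have h2 := hm (by omega : p ≤ p + i + 1)
        have : 0 < min (m (p + i + 1)) n := lt_min (by omega) (by omega)
        exact_mod_cast this
      have h1 : ((m p : ℝ) / (min (m (p + i + 1)) n : ℕ)) ^ c =
          Real.exp (-(c * (x (p + i + 1) - x p))) := by
        rw [hxp p hp, hxmin p hp (p + i + 1) (by omega), Real.rpow_def_of_pos (div_pos hmp hmin),
          Real.log_div hmp.ne' hmin.ne']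
        congr 1
        ring
      rw [h1, mul_assoc, ← Real.exp_add]
      refine mul_le_mul (le_max_left _ _) (le_of_eq ?_) (Real.exp_pos _).le (by linarith)
      congr 1
  -- the limit
  have hK0 : 0 ≤ C₀ ^ I.card * Real.exp (-(min c (1 / 16) * ∑ r ∈ I, (x (r + 1) - x r))) := by
    positivity
  have hsub : (⋂ p ∈ I, Lk ρ β h n (m p - 2 * m (p - a)) 0 (2 ^ p) κ 0) ⊆
      ⋃ N : ℕ, U54 ρ β h n H κ N I (sg 0) (z 0) := by
    intro η hη
    simp only [Set.mem_iInter] at hη
    choose! i hi using fun p (hp : p ∈ I) => Lk_sub54 (hη p hp)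
    refine Set.mem_iUnion.2 ⟨I.sup i, fun r hr => ⟨i r, ?_, Lg_mono54 (Nat.zero_le _) (hz0 0)
      (hi r hr)⟩⟩
    exact Finset.mem_range.2 (Nat.lt_succ_of_le (Finset.le_sup (f := i) hr))
  have hmonoU : Monotone fun N : ℕ => U54 ρ β h n H κ N I (sg 0) (z 0) :=
    fun N N' hN => U54_mono hN (Finset.Subset.refl _) le_rfl le_rfl
  have hmeas : (law d ρ) (⋂ p ∈ I, Lk ρ β h n (m p - 2 * m (p - a)) 0 (2 ^ p) κ 0) ≤
      ENNReal.ofReal (C₀ ^ I.card * Real.exp (-(min c (1 / 16) * ∑ r ∈ I, (x (r + 1) - x r)))) := by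
    refine (measure_mono hsub).trans ?_
    rw [hmonoU.measure_iUnion]
    refine iSup_le fun N => ?_
    rw [← ENNReal.ofReal_toReal (measure_ne_top (law d ρ) (U54 ρ β h n H κ N I (sg 0) (z 0)))]
    exact ENNReal.ofReal_le_ofReal (main N)
  have hreal : (law d ρ).real (⋂ p ∈ I, Lk ρ β h n (m p - 2 * m (p - a)) 0 (2 ^ p) κ 0) ≤
      C₀ ^ I.card * Real.exp (-(min c (1 / 16) * ∑ r ∈ I, (x (r + 1) - x r))) :=
    ENNReal.toReal_le_of_le_ofReal hK0 hmeas
  refine hreal.trans ?_
  have hD : ∑ r ∈ I, (x (r + 1) - x r) = ∑ p ∈ I, Dl n m p := by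
    refine Finset.sum_congr rfl fun p hp => ?_
    have hmp : (0 : ℝ) < m p := by
      have := hm2 p hp
      exact_mod_cast (by omega : 0 < m p)
    have hmin : (0 : ℝ) < ((min (m (p + 1)) n : ℕ) : ℝ) := by
      have h1 := hm2 p hp
      have h2 := hm (by omega : p ≤ p + 1)
      have : 0 < min (m (p + 1)) n := lt_min (by omega) (by omega)
      exact_mod_cast this
    rw [hxp p hp, hxmin p hp (p + 1) (by omega), Dl, Real.log_div hmin.ne' hmp.ne']
  rw [hD]
  have hC0pos : 0 < C₀ := by linarith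
  calc C₀ ^ I.card * Real.exp (-(min c (1 / 16) * ∑ p ∈ I, Dl n m p))
      = Real.exp (Real.log C₀ * I.card - min c (1 / 16) * ∑ p ∈ I, Dl n m p) := by
        rw [sub_eq_add_neg, Real.exp_add, mul_comm (Real.log C₀), Real.exp_nat_mul,
          Real.exp_log hC0pos]
    _ ≤ Real.exp (max Cs (Real.log C₀) * I.card - min c (1 / 16) * ∑ p ∈ I, Dl n m p) := by
        refine Real.exp_le_exp.2 (sub_le_sub_right (mul_le_mul_of_nonneg_right (le_max_right _ _)
          (Nat.cast_nonneg _)) _)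

end Pool.Agent.W_7d29a1_PL.Ad54
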