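import Pool.Agent.W_7d29a1_SP.DefsSP2

/-!
A power law for the variance in two transversal dimensions: definitions and frozen statements of
the leaves (helper38).
-/

namespace Pool.Agent.W_7d29a1_PL

open MeasureTheory ProbabilityTheory Filter Topology Pool.Agent.W_MP_7d29a1_pr
  Pool.Agent.W_7d29a1_h46 Pool.Agent.W_7d29a1_h46u Pool.Agent.W_7d29a1_D2.B35
  Pool.Agent.W_7d29a1_Q29 Pool.Agent.W_7d29a1_R34 Pool.Agent.W_7d29a1_SP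

/-- The larger one of the two fluctuations. -/
noncomputable def fM {d : ℕ} (ρ : Measure ℝ) (β : ℝ) (h : Vec d) (k : ℕ) : ℝ :=
  max (En ρ β h k) (Fn ρ β h k)

/-- Luck `x` at the scale `H`, group `0`: horizon `H + s`, `s ≤ S`, slack `z`. -/
def Lg0 {d : ℕ} (ρ : Measure ℝ) (β : ℝ) (h : Vec d) (H S : ℕ) (x κ z : ℝ) : Set (Env d) :=
  {η | ∃ s : ℕ, s ≤ S ∧
    ((H + s : ℕ) : ℝ) * lam ρ β h - (1 - κ) * x - z ≤ X β h η (H + s)}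

/-- Luck `x` at the scale `H`, horizon `N H + s`, `s ≤ S`, slack `z`. -/
def LgN {d : ℕ} (ρ : Measure ℝ) (β : ℝ) (h : Vec d) (H S : ℕ) (x κ z : ℝ) (N : ℕ) :
    Set (Env d) :=
  {η | ∃ s : ℕ, s ≤ S ∧
    ((N * H + s : ℕ) : ℝ) * lam ρ β h + κ * N * x - z ≤ X β h η (N * H + s)}

/-- Luck `x` at the scale `H`, group `i`, horizons `N H ≤ n`. -/
def Lg {d : ℕ} (ρ : Measure ℝ) (β : ℝ) (h : Vec d) (n H S : ℕ) (x κ z : ℝ) : ℕ → Set (Env d)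
  | 0 => Lg0 ρ β h H S x κ z
  | i + 1 => {η | ∃ N : ℕ, 2 ^ (i + 1) ≤ N ∧ N < 2 ^ (i + 2) ∧ N * H ≤ n ∧
      η ∈ LgN ρ β h H S x κ z N}

/-- Luck `x` at the scale `H`. -/
def Lk {d : ℕ} (ρ : Measure ℝ) (β : ℝ) (h : Vec d) (n H S : ℕ) (x κ z : ℝ) : Set (Env d) :=
  Lg0 ρ β h H S x κ z ∪ {η | ∃ N : ℕ, 2 ≤ N ∧ N * H ≤ n ∧ η ∈ LgN ρ β h H S x κ z N}

/-- The mean mass of the luck at the position at the time `t` of the polymer of length `n`. -/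
noncomputable def us {d : ℕ} (ρ : Measure ℝ) (β : ℝ) (h : Vec d) (n t : ℕ) (B : Set (Env d)) : ℝ :=
  ∫ η, ∑ y ∈ boxF d t, Qt β h n t y η * B.indicator (fun _ => (1 : ℝ)) (sh t y η) ∂(law d ρ)

/-- A system of levels: `m l` is the first time at which a fluctuation reaches `2 ^ l`; the levels
of `I` are spaced by `3 a`, not cheap, and the random fluctuation is small there. -/
structure Sy {d : ℕ} (ρ : Measure ℝ) (β : ℝ) (h : Vec d) (n a B Λ : ℕ) (ε : ℝ) (m : ℕ → ℕ)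
    (I : Finset ℕ) : Prop where
  lo : ∀ l k : ℕ, k < m l → fM ρ β h k < 2 ^ l
  hi : ∀ l : ℕ, 2 ^ l ≤ fM ρ β h (m l)
  big : ∀ p ∈ I, a ≤ p ∧ 2 ≤ m (p - a)
  sm : ∀ p ∈ I, m p ^ 4 ≤ n
  nc : ∀ p ∈ I, ∀ j : ℕ, m (p + j + 1) ≤ n → Λ ^ (j + 1) * m p < m (p + j + 1)
  sp : ∀ p ∈ I, ∀ q ∈ I, p < q → p + 3 * a ≤ q
  fs : ∀ p ∈ I, ∀ k : ℕ, k ≤ B * m p → Fn ρ β h k ≤ ε * 2 ^ p

/-- The length of the level `p`. -/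
noncomputable def Dl (n : ℕ) (m : ℕ → ℕ) (p : ℕ) : ℝ :=
  Real.log ((min (m (p + 1)) n : ℕ) / (m p : ℝ))

/-- The budget of the polymer of length `n`: events of small joint probability at a fixed site are
rarely seen at the position of the polymer. -/
def Bd {d : ℕ} (ρ : Measure ℝ) (β : ℝ) (h : Vec d) (n : ℕ) (V C : ℝ) : Prop :=
  ∀ (I : Finset ℕ) (B : ℕ → Set (Env d)) (θ : ℕ → ℝ) (D : ℝ),
    (∀ p ∈ I, MeasurableSet (B p) ∧ DependsOn (fun η => η ∈ B p) {q | 1 ≤ q.1} ∧ 0 ≤ θ p) →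
    0 ≤ D → (∀ J : Finset ℕ, J ⊆ I → (law d ρ).real (⋂ p ∈ J, B p) ≤
      Real.exp (D * J.card - ∑ p ∈ J, θ p)) →
    ∑ p ∈ I, θ p * ((∑ t ∈ Finset.range n, us ρ β h n t (B p)) / n - 3 / 10) ≤
      V + C * (D + 1) * I.card

/-- The power bound of the variance. -/
noncomputable def kp (Q c : ℝ) (t : ℕ) : ℝ := Q * (t : ℝ) ^ c

/-- The data of a good point (`d = 2`), with a power bound of the variance. -/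
structure Pq (ρ : Measure ℝ) (β : ℝ) (h : Vec 2) (g M δ Q c R : ℝ) : Prop where
  gap : lam ρ β h + g ≤ Real.log (Phi h) + Real.log (∫ t, Real.exp (β * t) ∂ρ)
  curv : ∀ r : ℝ, 0 < r → r ≤ δ → ∀ j : Fin 2,
    lam ρ β (h + r • ej j) + lam ρ β (h - r • ej j) - 2 * lam ρ β h ≤ M * r ^ 2
  var : ∀ t : ℕ, Va ρ β h t ≤ kp Q c t
  dens : ∀ (t : ℕ) (r : ℝ), 0 < r → r ≤ δ → ∀ (j : Fin 2) (s : ℝ), (s = 1 ∨ s = -1) →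
    ∃ g : Vec 2, ‖g - h - (s * r) • ej j‖ ≤ r / 9 ∧ Va ρ β g t ≤ kp Q c t
  rate : ∀ n : ℕ, En ρ β h n ≤ R * (n : ℝ) ^ (49 / 100 : ℝ)

section Leaves

variable (d : ℕ) (ρ : Measure ℝ) (β : ℝ)

/-- USE: at a positive fraction of the times the polymer is at a lucky site. -/
def UseP : Prop := ∃ C₁ : ℝ, 0 ≤ C₁ ∧ ∀ h : Vec d, ∃ C : ℝ, 0 ≤ C ∧ ∀ (n H : ℕ) (x κ K : ℝ),
  1 ≤ H → H ≤ n → 0 < x → 0 < κ → κ ≤ 1 / 2 → (∀ k : ℕ, k ≤ n → Va ρ β h k ≤ K) →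
    (1 - κ) * x * (n - H) ≤ 2 * x * (∑ t ∈ Finset.range n, us ρ β h n t (Lk ρ β h n H 0 x κ 0)) +
      H * (En ρ β h n + C * (H + 1) + C * Real.sqrt ((n + 1) * K)) +
      C₁ * n * Real.log (2 * H + 1)

/-- RSL: the rising sun lemma behind USE. -/
def RslP : Prop := ∀ (N : ℕ) (f : ℕ → ℝ) (a b e : ℝ) (W : Finset ℕ), 0 ≤ a → 0 ≤ b →
  W ⊆ Finset.range N → (∀ k ∈ W, f k ≤ -b) →
  (∀ k ∈ W, ∀ M : ℕ, 1 ≤ M → k + M ≤ N → ∑ i ∈ Finset.range M, f (k + i) ≤ M * a) →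
  (∀ M : ℕ, M ≤ N → ∑ i ∈ Finset.range M, (f i - a) ≤ e) → 0 ≤ e →
    ∑ k ∈ Finset.range N, f k ≤ 2 * a * (N - W.card : ℝ) + e - b * (N - 2 * (N - W.card : ℝ))

/-- CAT: rare events of the near rows do not help the later levels. -/
def CatP : Prop := ∀ c₀ : ℝ, 0 < c₀ → ∃ C : ℝ, 1 ≤ C ∧ ∀ h : Vec d, Loc1 ρ β h c₀ →
  ∀ (m T : ℕ) (Φ : ℝ) (L G G' : Set (Env d)), 1 ≤ m → 1 ≤ T → MeasurableSet L →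
    MeasurableSet G → MeasurableSet G' → DependsOn (fun η => η ∈ L) {p | 1 ≤ p.1 ∧ p.1 ≤ m} →
    DependsOn (fun η => η ∈ G) {p | 1 ≤ p.1} →
    (∀ k : ℕ, k ≤ T → En ρ β h k ≤ Φ ∧ Fn ρ β h k ≤ Φ) →
    (∀ (s : ℕ) (y : Site d) (η : Env d), s ≤ T → y ∈ boxF d s → c₀ * Z β h η s ≤ PP β h η s y →
      s * lam ρ β h - C * (Φ + 1) ≤ X β h η s → sh s y η ∈ G → η ∈ G') →
    (law d ρ).real (L ∩ G) ≤ C * ((law d ρ).real L + m / T) * (law d ρ).real G'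

/-- COST: the price of a single luck. -/
def CostP : Prop := ∀ c₀ κ : ℝ, 0 < c₀ → 0 < κ → κ ≤ 1 / 2 → ∃ (a₀ B Λ : ℕ) (ε c C : ℝ),
  0 < ε ∧ 0 < c ∧ 1 ≤ C ∧ ∀ a : ℕ, a₀ ≤ a → ∀ h : Vec d, Loc1 ρ β h c₀ →
  ∀ (n : ℕ) (m : ℕ → ℕ) (I : Finset ℕ), Sy ρ β h n a B Λ ε m I →
    (∀ k : ℕ, k ≤ 4 * n → Va ρ β h k ≤ (n : ℝ) ^ (1 / 16 : ℝ) ∧
      En ρ β h k ≤ (n : ℝ) ^ (1 / 16 : ℝ)) → ∀ p ∈ I, ∀ i : ℕ,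
    (law d ρ).real (Lg ρ β h n (m p - 2 * m (p - a)) (2 * m (p - a)) (2 ^ p) κ (κ / 8 * 2 ^ p) i) ≤
      C * Real.exp (-(c * i)) * ((m p : ℝ) / (min (m (p + i + 1)) n : ℕ)) ^ c

/-- ADD: the prices of the levels add up. -/
def AddP : Prop := ∀ c₀ κ : ℝ, 0 < c₀ → 0 < κ → κ ≤ 1 / 2 → ∃ (a B Λ : ℕ) (ε c C : ℝ),
  1 ≤ a ∧ 0 < ε ∧ 0 < c ∧ 1 ≤ C ∧ ∀ h : Vec d, Loc1 ρ β h c₀ →
  ∀ (n : ℕ) (m : ℕ → ℕ) (I : Finset ℕ), Sy ρ β h n a B Λ ε m I →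
    (∀ k : ℕ, k ≤ 4 * n → Va ρ β h k ≤ (n : ℝ) ^ (1 / 16 : ℝ) ∧
      En ρ β h k ≤ (n : ℝ) ^ (1 / 16 : ℝ)) →
    (law d ρ).real (⋂ p ∈ I, Lk ρ β h n (m p - 2 * m (p - a)) 0 (2 ^ p) κ 0) ≤
      Real.exp (C * I.card - c * ∑ p ∈ I, Dl n m p)

/-- CHP: a large random fluctuation is cheap. -/
def ChpP : Prop := ∀ c₀ δ : ℝ, 0 < c₀ → 0 < δ → ∃ C : ℝ, 1 ≤ C ∧ ∀ h : Vec d, Loc1 ρ β h c₀ →
  ∀ (m : ℕ) (x : ℝ), 1 ≤ m → 1 ≤ x → δ * x ≤ Fn ρ β h m →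
    ∃ j : ℕ, (2 : ℝ) ^ j ≤ C * (1 + Va ρ β h m) ^ 2 ∧ ∀ (T : ℕ) (Φ : ℝ),
      C * m * Real.exp (C * j) ≤ T → (∀ k : ℕ, k ≤ T → En ρ β h k ≤ Φ ∧ Fn ρ β h k ≤ Φ) →
        2 ^ (j + 1) * x ≤ Φ

/-- JEN: a function of the future at the position of the polymer. -/
def JenP : Prop := ∀ (h : Vec d) (n t : ℕ) (R : Finset (Site d)) (G : Env d → ℝ), t ≤ n →
  R ⊆ boxF d t → Measurable G → DependsOn G {p | 1 ≤ p.1} → (∀ η, 0 ≤ G η) →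
    Integrable (fun η => G η ^ 2) (law d ρ) →
    ∫ η, ∑ y ∈ R, Qt β h n t y η * G (sh t y η) ∂(law d ρ) ≤
      Real.sqrt (R.card * St ρ β h n t * ∫ η, G η ^ 2 ∂(law d ρ))

/-- SEL (sequences): the levels which are not cheap fill the logarithmic scale. -/
def SelP : Prop := ∀ (m : ℕ → ℕ) (l₀ l₁ l₂ b Λ : ℕ) (N : Finset ℕ), Monotone m → 1 ≤ m l₀ →
  l₀ ≤ l₁ → l₁ ≤ l₂ → 1 ≤ b → 2 ≤ Λ →
  (∀ l : ℕ, l₀ ≤ l → l < l₁ → l ∉ N →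
    ∃ j : ℕ, l + j + 1 ≤ l₂ ∧ m (l + j + 1) ≤ Λ ^ (j + 1) * m l) →
  ∃ I : Finset ℕ, (∀ p ∈ I, p ∈ N ∧ l₀ ≤ p ∧ p < l₁) ∧
    (∀ p ∈ I, ∀ q ∈ I, p < q → p + b ≤ q) ∧
    Real.log (m l₁ / m l₀) ≤ b * (∑ p ∈ I, Real.log (m (p + 1) / m p)) +
      (l₂ + 1) * Real.log Λ

/-- BUD (`d = 2`): the budget at a good point. -/
def BudP : Prop := ∀ g M : ℝ, 0 < g → 0 < M → ∃ c₁ C : ℝ, 0 < c₁ ∧ 0 ≤ C ∧
  ∀ (h : Vec 2) (δ Q c R : ℝ), 0 < δ → 1 ≤ Q → 0 < c → c ≤ c₁ → Pq ρ β h g M δ Q c R →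
    ∃ n₀ : ℕ, ∀ n : ℕ, n₀ ≤ n → Bd ρ β h n (C * c * Real.log n) C

/-- COR: the core, at one tilt: if the fluctuations are at most a small power of `n` (and beat every
multiple of `log n` at some time), then the budget is violated. -/
def CorP : Prop := ∀ g C₀ : ℝ, 0 < g → 0 ≤ C₀ → ∃ c A : ℝ, 0 < c ∧ ∀ h : Vec d,
  lam ρ β h + g ≤ Real.log (Phi h) + Real.log (∫ t, Real.exp (β * t) ∂ρ) →
    ∃ n₀ : ℕ, ∀ n : ℕ, n₀ ≤ n →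
      (∀ k : ℕ, k ≤ 4 * n → Va ρ β h k ≤ (n : ℝ) ^ c ∧ En ρ β h k ≤ (n : ℝ) ^ c) →
      (∃ k : ℕ, k ^ 8 ≤ n ∧ A * Real.log n ≤ fM ρ β h k) → ¬ Bd ρ β h n (c * Real.log n) C₀

/-- STEPQ (`d = 2`): doubling of the fluctuation, power bound. -/
def StepQ : Prop := ∀ g M : ℝ, 0 < g → 0 < M → ∃ Ca Cb c₁ : ℝ, 1 ≤ Ca ∧ 1 ≤ Cb ∧ 0 < c₁ ∧
  ∀ (h : Vec 2) (δ Q c R : ℝ), 0 < δ → 1 ≤ Q → 0 < c → c ≤ c₁ → Pq ρ β h g M δ Q c R →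
    ∃ Cs : ℝ, ∀ (n k : ℕ) (Ψ : ℝ), 1 ≤ n → k ≤ n → Cs ≤ Ψ →
      (En ρ β h k = Ψ ∨ Fn ρ β h k = Ψ) → ∃ (T j : ℕ), n ≤ T ∧ j ≤ T ∧
        (2 * Ψ ≤ En ρ β h j ∨ 2 * Ψ ≤ Fn ρ β h j) ∧
        ∀ Φ : ℝ, (∀ i : ℕ, i ≤ T → En ρ β h i ≤ Φ ∧ Fn ρ β h i ≤ Φ) →
          (T : ℝ) ≤ Ca * n * (kp Q c (128 * T) * Φ) ^ Cb

/-- LOWQ (`d = 2`): the fluctuation beats every multiple of the logarithm. -/
def LowQ : Prop := ∀ g M A : ℝ, 0 < g → 0 < M → ∃ c₁ : ℝ, 0 < c₁ ∧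
  ∀ (h : Vec 2) (δ Q c R : ℝ), 0 < δ → 1 ≤ Q → 0 < c → c ≤ c₁ → Pq ρ β h g M δ Q c R →
    ∃ n₀ : ℕ, ∀ n : ℕ, n₀ ≤ n → ∃ k : ℕ, k ≤ n ∧ A * Real.log n ≤ fM ρ β h k

/-- BETQ (`d = 2`): the upper bound of the nonrandom fluctuation. -/
def BetQ : Prop := ∀ g M : ℝ, 0 < g → 0 < M → ∃ c₁ : ℝ, 0 < c₁ ∧
  ∀ (h : Vec 2) (δ Q c R : ℝ), 0 < δ → 1 ≤ Q → 0 < c → c ≤ c₁ → Pq ρ β h g M δ Q c R →
    ∃ n₀ : ℕ, ∀ n k : ℕ, n₀ ≤ n → k ≤ n → En ρ β h k ≤ (n : ℝ) ^ (8 * c)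

/-- PNTQ (`d = 2`): the main argument. -/
def PntQ : Prop := ∀ g M : ℝ, 0 < g → 0 < M → ∃ c : ℝ, 0 < c ∧ ∀ (h : Vec 2) (δ Q R : ℝ),
  0 < δ → ¬ Pq ρ β h g M δ Q c R

/-- The theorem (`d = 2`). -/
def MainPL : Prop := ∀ᵐ h : Vec 2, VSD ρ β h → ∃ c : ℝ, 0 < c ∧ ∃ᶠ n : ℕ in atTop,
  (n : ℝ) ^ c ≤ Va ρ β h n

/-- AEQ: from the points to almost every point. -/
def AeqP : Prop := PntQ ρ β → RateP ρ β → CurvP ρ β → MainPL ρ β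

end Leaves

end Pool.Agent.W_7d29a1_PL
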