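import Pool.Agent.W_7d29a1_PL.Catch76
import Pool.Agent.W_7d29a1_PL.DefsPL

/-!
Leaf CAT, frozen form.
-/

set_option autoImplicit false

namespace Pool.Agent.W_7d29a1_PL

open MeasureTheory ProbabilityTheory Filter Topology Pool.Agent.W_MP_7d29a1_pr
  Pool.Agent.W_7d29a1_h46 Pool.Agent.W_7d29a1_h46u Pool.Agent.W_7d29a1_D2.B35
  Pool.Agent.W_7d29a1_Q29 Pool.Agent.W_7d29a1_R34 Pool.Agent.W_7d29a1_SP

/-- CAT. -/
theorem cat76 {d : ℕ} {ρ : Measure ℝ} [IsProbabilityMeasure ρ] (hd : 0 < d) (hρ : EM ρ)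
    (β : ℝ) : CatP d ρ β := by
  intro c₀ hc
  obtain ⟨C, hC, hmain⟩ := catch76 hd hρ β c₀ hc
  refine ⟨C + 1, by linarith, ?_⟩
  intro h hloc m T Φ L G G' hm hT hL hG hG' hdL hdG hΦ hin
  have hΦ0 : 0 ≤ Φ :=
    le_trans (integral_nonneg fun η => abs_nonneg _) (hΦ 0 (Nat.zero_le _)).2
  have h1 := hmain h hloc m T Φ L G G' hm hT hL hG hdL hdG (fun k hk => (hΦ k hk).2) (by
    intro s hs y η hat hX hsh
    refine hin s y η hs ?_ hat ?_ hsh
    · by_contra hy
      have h5 : PP β h η s y = 0 := by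
        unfold PP ZT
        refine Finset.sum_eq_zero fun q _ => if_neg fun hq => hy ?_
        have h6 : pos q s = y := hq
        rw [← h6]
        exact pos_mem_box q s
      rw [h5] at hat
      have h2 := mul_pos hc (Z_pos hd β h η s)
      linarith
    · have h2 := (hΦ s hs).1
      unfold En at h2
      have h3 : C * Φ ≤ C * Φ := le_rfl
      nlinarith [hC])
  refine h1.trans (mul_le_mul_of_nonneg_right (mul_le_mul_of_nonneg_right (by linarith) ?_)
    measureReal_nonneg)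
  exact add_nonneg measureReal_nonneg (by positivity)

end Pool.Agent.W_7d29a1_PL
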