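import Pool.Agent.W_7d29a1_PL.Chp35
import Pool.Agent.W_7d29a1_PL.DefsPX

/-!
THEOREM PL for every law, leaf CHPX from `GrowN` alone (helper34; the text of helper35 for `ChpP`
with the logarithmic condition of `GrowN`).
-/

namespace Pool.Agent.W_7d29a1_PL

open MeasureTheory ProbabilityTheory Filter Topology Pool.Agent.W_MP_7d29a1_pr
  Pool.Agent.W_7d29a1_h46 Pool.Agent.W_7d29a1_h46u Pool.Agent.W_7d29a1_D2.B35
  Pool.Agent.W_7d29a1_Q29 Pool.Agent.W_7d29a1_R34 Pool.Agent.W_7d29a1_SP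

open Chp35 in
/-- The logarithm of the probability of the level `j`. -/
lemma logq34 (j : ℕ) : Real.log (1 / qj j) ≤ 2 + 3 * j := by
  have h1 : 1 / qj j ≤ 4 * Real.exp (3 * j) := by
    have h2 := price j (C := 1) zero_le_one
    rw [Real.rpow_one, Real.rpow_one] at h2
    simpa using h2
  have h2 := Real.log_le_log (one_div_pos.2 (qj_pos j)) h1
  rw [Real.log_mul (by norm_num) (Real.exp_pos _).ne', Real.log_exp] at h2
  have h3 : Real.log 4 ≤ 2 := by
    have h4 : Real.log 4 = 2 * Real.log 2 := by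
      rw [show (4 : ℝ) = 2 ^ 2 by norm_num, Real.log_pow]
      norm_num
    have h5 := Real.log_two_lt_d9
    linarith
  linarith

open Chp35 in
/-- CHPX. -/
theorem chpX34 {d : ℕ} (hd : 0 < d) {ρ : Measure ℝ} [IsProbabilityMeasure ρ] (hρ : EM ρ) {β : ℝ}
    (hG : GrowN d ρ β) : ChpX d ρ β := by
  intro c₀ δ hc₀ hδ
  obtain ⟨Cg, hCg, hgrow⟩ := hG c₀ (12 / δ + 1) hc₀ (by
    have : 0 < 12 / δ := by positivity
    linarith)
  have hC0 : 0 ≤ Cg := by linarith
  have h4C : (0 : ℝ) < 4 ^ Cg := by positivity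
  refine ⟨1 + 167936 / δ ^ 4 + Cg * 4 ^ Cg + 3 * Cg + 12 * Cg / δ, by
    have : 0 < 167936 / δ ^ 4 := by positivity
    have := mul_nonneg hC0 h4C.le
    have : 0 ≤ 12 * Cg / δ := by positivity
    linarith, fun h hL m x hm hxC hF => ?_⟩
  obtain ⟨C, hC⟩ : ∃ C, C = 1 + 167936 / δ ^ 4 + Cg * 4 ^ Cg + 3 * Cg + 12 * Cg / δ := ⟨_, rfl⟩
  rw [← hC] at hxC ⊢
  have p3 : 0 ≤ 12 * Cg / δ := by positivity
  have p1 : 0 < 167936 / δ ^ 4 := by positivity
  have p2 : 0 ≤ Cg * 4 ^ Cg := mul_nonneg hC0 h4C.le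
  have hx : 1 ≤ x := by
    refine le_trans ?_ hxC
    rw [hC]
    linarith
  obtain ⟨F, hFd⟩ : ∃ F, F = Fn ρ β h m := ⟨_, rfl⟩
  rw [← hFd] at hF
  have hFC : 12 * Cg ≤ F := by
    refine le_trans ?_ hF
    have h1 : 12 * Cg / δ ≤ x := by
      refine le_trans ?_ hxC
      rw [hC]
      linarith
    rw [div_le_iff₀ hδ] at h1
    linarith
  have hFδ : δ ≤ F := by nlinarith
  have hF0 : 0 < F := hδ.trans_le hFδ
  have hm' : Measurable fun η => X β h η m - A ρ β h m := (measurable_X β h m).sub_const _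
  have i1 := intX15 (ρ := ρ) hd hρ β h m
  have i2 := N85.Va_int (ρ := ρ) hd hρ β h m
  have i0 := mean15 (ρ := ρ) hd hρ β h m
  have hVa : ∫ η, (X β h η m - A ρ β h m) ^ 2 ∂(law d ρ) = Va ρ β h m := rfl
  have hV0 : 0 ≤ Va ρ β h m := integral_nonneg fun _ => sq_nonneg _
  -- the two sides
  have hside : ∀ σ : ℝ, σ = 1 ∨ σ = -1 →
      ∃ j : ℕ, qj j ≤ (law d ρ).real {η | lv F j < σ * (X β h η m - A ρ β h m)} := by
    intro σ hσ
    have hσ2 : σ ^ 2 = 1 := by rcases hσ with h1 | h1 <;> rw [h1] <;> norm_num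
    have hσa : |σ| = 1 := by rcases hσ with h1 | h1 <;> rw [h1] <;> norm_num
    refine dyad (hm'.const_mul σ) (i1.const_mul σ) ?_ hF0 ?_
    · simp only [mul_pow, hσ2, one_mul]
      exact i2
    · have e2 : ∀ η : Env d, max (σ * (X β h η m - A ρ β h m)) 0 =
          1 / 2 * |X β h η m - A ρ β h m| + σ / 2 * (X β h η m - A ρ β h m) := by
        intro η
        have e3 : |σ * (X β h η m - A ρ β h m)| = |X β h η m - A ρ β h m| := by
          rw [abs_mul, hσa, one_mul]
        rw [← e3]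
        rcases le_total 0 (σ * (X β h η m - A ρ β h m)) with h3 | h3
        · rw [max_eq_left h3, abs_of_nonneg h3]
          ring
        · rw [max_eq_right h3, abs_of_nonpos h3]
          ring
      simp only [e2]
      rw [integral_add (i1.abs.const_mul _) (i1.const_mul _), integral_const_mul,
        integral_const_mul, i0, hFd]
      unfold Fn
      ring
  -- the conclusion from the two probabilities
  have hfin : ∀ (j : ℕ) (s₀ s₁ : ℝ), s₁ - s₀ = lv F j → A ρ β h m ≤ s₁ →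
      qj j ≤ (law d ρ).real {η | X β h η m ≤ s₀} →
      qj j ≤ (law d ρ).real {η | s₁ < X β h η m} →
      ∀ (T : ℕ) (Φ : ℝ), C * m * Real.exp (C * j) ≤ T →
        (∀ k : ℕ, k ≤ T → En ρ β h k ≤ Φ ∧ Fn ρ β h k ≤ Φ) → 2 ^ (j + 1) * x ≤ Φ := by
    intro j s₀ s₁ hs hA h0 h1 T Φ hT hΦ
    have hT' : Cg * m * (1 / qj j) ^ Cg ≤ T := by
      refine le_trans ?_ hT
      have e1 := price j hC0
      have e2 : Cg * m * (1 / qj j) ^ Cg ≤ Cg * m * (4 ^ Cg * Real.exp (3 * Cg * j)) :=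
        mul_le_mul_of_nonneg_left e1 (by positivity)
      refine e2.trans ?_
      have e3 : Real.exp (3 * Cg * j) ≤ Real.exp (C * j) :=
        Real.exp_le_exp.2 (mul_le_mul_of_nonneg_right (by rw [hC]; linarith) (by positivity))
      have e4 : Cg * m * (4 ^ Cg * Real.exp (3 * Cg * j)) =
          Cg * 4 ^ Cg * m * Real.exp (3 * Cg * j) := by ring
      rw [e4]
      have hm0 : (0 : ℝ) ≤ m := by positivity
      exact mul_le_mul (mul_le_mul_of_nonneg_right (by rw [hC]; linarith) hm0) e3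
        (Real.exp_pos _).le (mul_nonneg (by rw [hC]; linarith) hm0)
    have hlogc : Cg * (1 + Real.log (1 / qj j)) ≤ s₁ - s₀ := by
      rw [hs]
      have k1 := logq34 j
      have k2 : ((j : ℝ) + 1) ≤ 2 ^ j := by exact_mod_cast Nat.lt_two_pow_self (n := j)
      have k3 : Cg * (1 + Real.log (1 / qj j)) ≤ Cg * (3 * (j + 1)) :=
        mul_le_mul_of_nonneg_left (by linarith) hC0
      have k4 : Cg * (3 * ((j : ℝ) + 1)) ≤ 3 * Cg * 2 ^ j := by nlinarith
      have k5 : 3 * Cg * 2 ^ j ≤ lv F j := by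
        unfold lv
        have k6 : (0 : ℝ) < 2 ^ j := by positivity
        nlinarith
      linarith
    have e5 := hgrow h hL m T s₀ s₁ (qj j) Φ hm (qj_pos j) (by linarith [qj_le j]) hlogc
      hA h0 h1 hT' hΦ
    rw [hs] at e5
    have e6 : 3 * (2 ^ j * x) ≤ (12 / δ + 1) * lv F j := by
      have k1 : (12 / δ) * (2 ^ j / 4 * (δ * x)) ≤ (12 / δ) * lv F j := by
        unfold lv
        exact mul_le_mul_of_nonneg_left (mul_le_mul_of_nonneg_left hF (by positivity))
          (by positivity)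
      have k2 : (12 / δ) * (2 ^ j / 4 * (δ * x)) = 3 * (2 ^ j * x) := by
        field_simp
        ring
      have k3 := (lv_pos hF0 j).le
      nlinarith
    have e7 : (1 : ℝ) ≤ 2 ^ j * x := by
      have k1 : (1 : ℝ) ≤ 2 ^ j := one_le_pow₀ one_le_two
      nlinarith
    rw [pow_succ]
    linarith
  have hjb : ∀ (j : ℕ) (σ : ℝ), σ = 1 ∨ σ = -1 →
      qj j ≤ (law d ρ).real {η | lv F j < σ * (X β h η m - A ρ β h m)} →
      (2 : ℝ) ^ j ≤ C * (1 + Va ρ β h m) ^ 2 := by
    intro j σ hσ hq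
    have hσ2 : σ ^ 2 = 1 := by rcases hσ with h1 | h1 <;> rw [h1] <;> norm_num
    have hl := lv_pos hF0 j
    have e1 : qj j * lv F j ^ 2 ≤ Va ρ β h m := by
      have k1 := mul_meas_ge_le_integral_of_nonneg (μ := law d ρ)
        (f := fun η => (X β h η m - A ρ β h m) ^ 2) (Eventually.of_forall fun η => sq_nonneg _)
        i2 (lv F j ^ 2)
      rw [hVa] at k1
      have k2 : (law d ρ).real {η | lv F j < σ * (X β h η m - A ρ β h m)} ≤
          (law d ρ).real {η | lv F j ^ 2 ≤ (X β h η m - A ρ β h m) ^ 2} := by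
        refine measureReal_mono fun η hη => ?_
        simp only [Set.mem_ofPred_eq] at hη ⊢
        have k3 : (σ * (X β h η m - A ρ β h m)) ^ 2 = (X β h η m - A ρ β h m) ^ 2 := by
          rw [mul_pow, hσ2, one_mul]
        rw [← k3]
        exact pow_le_pow_left₀ hl.le hη.le 2
      have k4 := mul_le_mul_of_nonneg_left (hq.trans k2) (sq_nonneg (lv F j))
      linarith
    refine (jbd hδ hFδ e1).trans ?_
    have e2 : Va ρ β h m ^ 2 ≤ (1 + Va ρ β h m) ^ 2 :=
      pow_le_pow_left₀ hV0 (by linarith) 2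
    exact mul_le_mul (by rw [hC]; linarith) e2 (sq_nonneg _) (by rw [hC]; linarith)
  -- the two cases
  have hms : MeasurableSet {η : Env d | X β h η m ≤ A ρ β h m} :=
    measurableSet_le (measurable_X β h m) measurable_const
  have hcompl : (law d ρ).real {η | X β h η m ≤ A ρ β h m} +
      (law d ρ).real {η | A ρ β h m < X β h η m} = 1 := by
    have : {η : Env d | A ρ β h m < X β h η m} = {η : Env d | X β h η m ≤ A ρ β h m}ᶜ := by
      ext η
      simp
    rw [this, probReal_compl_eq_one_sub hms]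
    ring
  rcases le_total (1 / 2) ((law d ρ).real {η | X β h η m ≤ A ρ β h m}) with hc | hc
  · obtain ⟨j, hj⟩ := hside 1 (Or.inl rfl)
    refine ⟨j, hjb j 1 (Or.inl rfl) hj, hfin j (A ρ β h m) (A ρ β h m + lv F j) (by ring)
      (by linarith [lv_pos hF0 j]) (by linarith [qj_le j]) ?_⟩
    refine hj.trans (measureReal_mono fun η hη => ?_)
    simp only [Set.mem_ofPred_eq, one_mul] at hη ⊢
    linarith
  · obtain ⟨j, hj⟩ := hside (-1) (Or.inr rfl)
    refine ⟨j, hjb j (-1) (Or.inr rfl) hj, hfin j (A ρ β h m - lv F j) (A ρ β h m) (by ring)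
      le_rfl ?_ (by linarith [qj_le j])⟩
    refine hj.trans (measureReal_mono fun η hη => ?_)
    simp only [Set.mem_ofPred_eq] at hη ⊢
    linarith

end Pool.Agent.W_7d29a1_PL
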