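import Pool.Agent.W_7d29a1_PL.DefsPL

/-!
Leaf SEL: the levels which are not cheap fill the logarithmic scale.
-/

set_option autoImplicit false

namespace Pool.Agent.W_7d29a1_PL.Sel66

/-- The walk: cheap jumps and used levels. -/
lemma walk66 {x : ℕ → ℝ} {l₀ l₁ l₂ : ℕ} {N : Finset ℕ} {C : ℝ} (hC : 0 ≤ C)
    (hx : ∀ k l : ℕ, l₀ ≤ k → k ≤ l → x k ≤ x l) (h12 : l₁ ≤ l₂)
    (h : ∀ l : ℕ, l₀ ≤ l → l < l₁ → l ∉ N →
      ∃ j : ℕ, l + j + 1 ≤ l₂ ∧ x (l + j + 1) ≤ (j + 1) * C + x l) :
    ∀ n l : ℕ, l + n = l₁ → l₀ ≤ l →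
      x l₁ - x l ≤ ∑ p ∈ (Finset.Ico l l₁).filter (· ∈ N), (x (p + 1) - x p) +
        ((l₂ : ℝ) - l) * C := by
  intro n
  induction n using Nat.strong_induction_on with
  | _ n ih =>
    intro l hl h0
    have hD : ∀ p ∈ (Finset.Ico l l₁).filter (· ∈ N), 0 ≤ x (p + 1) - x p := by
      intro p hp
      have hp' := Finset.mem_Ico.1 (Finset.mem_filter.1 hp).1
      exact sub_nonneg.2 (hx p (p + 1) (h0.trans hp'.1) (Nat.le_succ p))
    rcases Nat.eq_zero_or_pos n with hn | hn
    · have hll : l = l₁ := by omega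
      subst hll
      have h1 : (l : ℝ) ≤ l₂ := by exact_mod_cast h12
      have h2 := Finset.sum_nonneg hD
      have h3 : 0 ≤ ((l₂ : ℝ) - l) * C := mul_nonneg (by linarith) hC
      linarith
    · have hlt : l < l₁ := by omega
      by_cases hN : l ∈ N
      · have h1 := ih (n - 1) (by omega) (l + 1) (by omega) (by omega)
        have h2 : (Finset.Ico l l₁).filter (· ∈ N) =
            insert l ((Finset.Ico (l + 1) l₁).filter (· ∈ N)) := by
          ext p
          simp only [Finset.mem_filter, Finset.mem_Ico, Finset.mem_insert]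
          constructor
          · rintro ⟨h3, h4⟩
            by_cases h5 : p = l
            · exact Or.inl h5
            · exact Or.inr ⟨⟨by omega, h3.2⟩, h4⟩
          · rintro (h3 | h3)
            · subst h3
              exact ⟨⟨le_rfl, hlt⟩, hN⟩
            · exact ⟨⟨by omega, h3.1.2⟩, h3.2⟩
        rw [h2, Finset.sum_insert (by simp)]
        push_cast at h1
        nlinarith
      · obtain ⟨j, hj, hj'⟩ := h l h0 hlt hN
        rcases le_or_gt l₁ (l + j + 1) with h1 | h1
        · have h2 := hx l₁ (l + j + 1) (by omega) h1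
          have h3 := Finset.sum_nonneg hD
          have h4 : ((j : ℝ) + 1) ≤ (l₂ : ℝ) - l := by
            have : ((l + j + 1 : ℕ) : ℝ) ≤ l₂ := by exact_mod_cast hj
            push_cast at this
            linarith
          have h5 := mul_le_mul_of_nonneg_right h4 hC
          linarith
        · have h2 := ih (n - (j + 1)) (by omega) (l + j + 1) (by omega) (by omega)
          have h3 : ∑ p ∈ (Finset.Ico (l + j + 1) l₁).filter (· ∈ N), (x (p + 1) - x p) ≤
              ∑ p ∈ (Finset.Ico l l₁).filter (· ∈ N), (x (p + 1) - x p) := by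
            refine Finset.sum_le_sum_of_subset_of_nonneg ?_ fun p hp _ => hD p hp
            refine Finset.filter_subset_filter _ ?_
            exact Finset.Ico_subset_Ico (by omega) le_rfl
          push_cast at h2
          nlinarith

/-- One residue class carries its share. -/
lemma res66 {b : ℕ} (hb : 1 ≤ b) (S : Finset ℕ) (D : ℕ → ℝ) :
    ∃ I ⊆ S, (∀ p ∈ I, ∀ q ∈ I, p < q → p + b ≤ q) ∧ ∑ p ∈ S, D p ≤ b * ∑ p ∈ I, D p := by
  classical
  have h1 : ∑ p ∈ S, D p = ∑ r ∈ Finset.range b, ∑ p ∈ S.filter (fun p => p % b = r), D p := by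
    rw [Finset.sum_fiberwise_of_maps_to]
    intro p _
    exact Finset.mem_range.2 (Nat.mod_lt _ (by omega))
  obtain ⟨r, hr, hmax⟩ := Finset.exists_max_image (Finset.range b)
    (fun r => ∑ p ∈ S.filter (fun p => p % b = r), D p) ⟨0, Finset.mem_range.2 (by omega)⟩
  refine ⟨S.filter fun p => p % b = r, Finset.filter_subset _ _, ?_, ?_⟩
  · intro p hp q hq hpq
    have e1 := (Finset.mem_filter.1 hp).2
    have e2 := (Finset.mem_filter.1 hq).2
    have h2 := Nat.div_add_mod p b
    have h3 := Nat.div_add_mod q b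
    rw [e1] at h2
    rw [e2] at h3
    have h4 : p / b < q / b := by
      by_contra h5
      have h6 : q / b ≤ p / b := by omega
      have h7 := Nat.mul_le_mul_left b h6
      omega
    have h5 : b * (p / b + 1) ≤ b * (q / b) := Nat.mul_le_mul_left b h4
    rw [Nat.mul_add] at h5
    omega
  · rw [h1]
    have h2 := Finset.sum_le_sum hmax
    rw [Finset.sum_const, Finset.card_range, nsmul_eq_mul] at h2
    exact h2

end Pool.Agent.W_7d29a1_PL.Sel66

namespace Pool.Agent.W_7d29a1_PL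

open Sel66

/-- **SEL.** -/
theorem sel66 : SelP := by
  classical
  intro m l₀ l₁ l₂ b Λ N hm h0 h01 h12 hb hΛ h
  have hpos : ∀ l : ℕ, l₀ ≤ l → (0 : ℝ) < m l := by
    intro l hl
    have := h0.trans (hm hl)
    exact_mod_cast this
  have hΛ0 : (0 : ℝ) < Λ := by
    have : 0 < Λ := by omega
    exact_mod_cast this
  have hC : 0 ≤ Real.log Λ := Real.log_natCast_nonneg Λ
  have hx : ∀ k l : ℕ, l₀ ≤ k → k ≤ l → Real.log (m k) ≤ Real.log (m l) := fun k l hk hkl =>
    Real.log_le_log (hpos k hk) (by exact_mod_cast hm hkl)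
  have h' : ∀ l : ℕ, l₀ ≤ l → l < l₁ → l ∉ N → ∃ j : ℕ, l + j + 1 ≤ l₂ ∧
      Real.log (m (l + j + 1)) ≤ (j + 1) * Real.log Λ + Real.log (m l) := by
    intro l hl hl1 hN
    obtain ⟨j, hj, hj'⟩ := h l hl hl1 hN
    refine ⟨j, hj, ?_⟩
    have h1 : ((m (l + j + 1) : ℕ) : ℝ) ≤ (Λ : ℝ) ^ (j + 1) * m l := by exact_mod_cast hj'
    have h2 := Real.log_le_log (hpos (l + j + 1) (by omega)) h1
    rw [Real.log_mul (by positivity) (hpos l hl).ne', Real.log_pow] at h2
    push_cast at h2
    exact h2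
  have h1 := walk66 (x := fun l => Real.log (m l)) hC hx h12 h' (l₁ - l₀) l₀ (by omega) le_rfl
  obtain ⟨I, hI, hsp, hsum⟩ := res66 hb ((Finset.Ico l₀ l₁).filter (· ∈ N))
    (fun p => Real.log (m (p + 1)) - Real.log (m p))
  refine ⟨I, fun p hp => ?_, hsp, ?_⟩
  · have h2 := Finset.mem_filter.1 (hI hp)
    exact ⟨h2.2, (Finset.mem_Ico.1 h2.1).1, (Finset.mem_Ico.1 h2.1).2⟩
  · have h2 : ∑ p ∈ I, Real.log (m (p + 1) / m p) =
        ∑ p ∈ I, (Real.log (m (p + 1)) - Real.log (m p)) := by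
      refine Finset.sum_congr rfl fun p hp => ?_
      have h3 := (Finset.mem_Ico.1 (Finset.mem_filter.1 (hI hp)).1).1
      rw [Real.log_div (hpos _ (by omega)).ne' (hpos _ h3).ne']
    rw [h2, Real.log_div (hpos _ h01).ne' (hpos _ le_rfl).ne']
    have h3 : (0 : ℝ) ≤ l₀ := Nat.cast_nonneg _
    have h4 : ((l₂ : ℝ) - l₀) * Real.log Λ ≤ (l₂ + 1) * Real.log Λ :=
      mul_le_mul_of_nonneg_right (by linarith) hC
    linarith

end Pool.Agent.W_7d29a1_PL
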