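import Pool.Agent.W_7d29a1_PL.UseB10
import Pool.Agent.W_7d29a1_R34.DefsR34

/-!
Leaf USE: at a positive fraction of the times the polymer is at a lucky site.
-/

set_option autoImplicit false

namespace Pool.Agent.W_7d29a1_PL.U10

open MeasureTheory ProbabilityTheory Filter Topology Pool.Agent.W_MP_7d29a1_pr
  Pool.Agent.W_7d29a1_h46 Pool.Agent.W_7d29a1_h46u Pool.Agent.W_7d29a1_D2.B35
  Pool.Agent.W_7d29a1_Q29 Pool.Agent.W_7d29a1_NV Pool.Agent.W_7d29a1_SP Pool.Agent.W_7d29a1_PL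
  Pool.Agent.W_7d29a1_Q29.S98

variable {d : ℕ} {ρ : Measure ℝ}

lemma X_meas10 (β : ℝ) (h : Vec d) (k : ℕ) : Measurable fun η : Env d => X β h η k :=
  measurable_X β h k

lemma Lk_meas10 (β : ℝ) (h : Vec d) (n H S : ℕ) (x κ z : ℝ) :
    MeasurableSet (Lk ρ β h n H S x κ z) := by
  have h1 : ∀ (a : ℝ) (k : ℕ), MeasurableSet {η : Env d | a ≤ X β h η k} := fun a k =>
    measurableSet_le measurable_const (measurable_X β h k)
  have e : Lk ρ β h n H S x κ z =
      (⋃ s : ℕ, ⋃ _ : s ≤ S,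
        {η : Env d | ((H + s : ℕ) : ℝ) * lam ρ β h - (1 - κ) * x - z ≤ X β h η (H + s)}) ∪
      (⋃ N : ℕ, ⋃ _ : 2 ≤ N, ⋃ _ : N * H ≤ n, ⋃ s : ℕ, ⋃ _ : s ≤ S,
        {η : Env d | ((N * H + s : ℕ) : ℝ) * lam ρ β h + κ * N * x - z ≤
          X β h η (N * H + s)}) := by
    ext η
    simp only [Lk, Lg0, LgN, Set.mem_union, Set.mem_iUnion, Set.mem_ofPred_eq, exists_prop]
  rw [e]
  refine MeasurableSet.union ?_ ?_
  · exact MeasurableSet.iUnion fun s => MeasurableSet.iUnion fun _ => h1 _ _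
  · exact MeasurableSet.iUnion fun N => MeasurableSet.iUnion fun _ => MeasurableSet.iUnion fun _ =>
      MeasurableSet.iUnion fun s => MeasurableSet.iUnion fun _ => h1 _ _

lemma Zsh10 [IsProbabilityMeasure ρ] (hρ : EM ρ) (β : ℝ) (h : Vec d) (t r : ℕ) (y : Site d) :
    Integrable (fun η => Z β h (sh t y η) r) (law d ρ) ∧
      ∫ η, Z β h (sh t y η) r ∂(law d ρ) = (Phi h * ∫ s, Real.exp (β * s) ∂ρ) ^ r := by
  have h1 := annealed61 (d := d) hρ β h r
  have h2 := mp_sh (ρ := ρ) (d := d) t y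
  refine ⟨h2.integrable_comp_of_integrable h1.1, ?_⟩
  rw [← h1.2]
  have h3 := integral_map (μ := law d ρ) (measurable_sh (d := d) t y).aemeasurable
    (f := fun η => Z β h η r) (measurable_Z β h r).aestronglyMeasurable
  rw [h2.map_eq] at h3
  exact h3.symm

/-- One offset. -/
lemma one10 [IsProbabilityMeasure ρ] (hd : 0 < d) (hρ : EM ρ) (β : ℝ) (h : Vec d)
    {n j H N : ℕ} (hn : j + N * H ≤ n) {x κ K : ℝ} (hx : 0 < x) (hκ : 0 < κ)
    (hκ2 : κ ≤ 1 / 2) (hK : ∀ k : ℕ, k ≤ n → Va ρ β h k ≤ K) :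
    (1 - κ) * x * N ≤ 2 * x * (∑ k ∈ Finset.range N,
        us ρ β h n (j + k * H) (Lk ρ β h n H 0 x κ 0)) +
      Real.sqrt ((n + 1) * K) + (j + N * H : ℕ) * lam ρ β h - A ρ β h n +
      (Real.log (boxF d (j + N * H)).card + (n - (j + N * H) : ℕ) *
        (Real.log (Phi h) + Real.log (∫ s, Real.exp (β * s) ∂ρ))) +
      Real.log (boxF d j).card + N * Real.log (boxF d H).card := by
  classical
  set L := Lk ρ β h n H 0 x κ 0 with hL
  have hLm : MeasurableSet L := Lk_meas10 β h n H 0 x κ 0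
  set t := j + N * H with ht
  set r := n - t with hr
  have hP := Phi_pos61 hd h
  have hm0 : 0 < ∫ s, Real.exp (β * s) ∂ρ := integral_exp_pos (hρ β)
  have hbc : (0 : ℝ) < (boxF d t).card := by
    rw [card_boxF]
    positivity
  set M₀ : ℝ := (boxF d t).card * (Phi h * ∫ s, Real.exp (β * s) ∂ρ) ^ r with hM₀
  have hM₀0 : 0 < M₀ := by positivity
  have hlog : Real.log M₀ = Real.log (boxF d t).card + r *
      (Real.log (Phi h) + Real.log (∫ s, Real.exp (β * s) ∂ρ)) := by
    rw [hM₀, Real.log_mul hbc.ne' (by positivity), Real.log_pow, Real.log_mul hP.ne' hm0.ne']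
  have hei : Integrable (eη β h t r) (law d ρ) := by
    unfold eη
    exact integrable_finsetSum _ fun y _ => (Zsh10 hρ β h t r y).1
  have hee : ∫ η, eη β h t r η ∂(law d ρ) = M₀ := by
    unfold eη
    rw [integral_finsetSum _ fun y _ => (Zsh10 hρ β h t r y).1,
      Finset.sum_congr rfl fun y _ => (Zsh10 hρ β h t r y).2, Finset.sum_const, nsmul_eq_mul]
  have hMx := Mx_int (ρ := ρ) hd hρ β h hK
  have hXi : Integrable (fun η => X β h η n) (law d ρ) := (concU hd hρ β h n).1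
  have hui : ∀ k ∈ Finset.range N, Integrable (uη β h n (j + k * H) L) (law d ρ) := by
    intro k hk
    have hk1 := Finset.mem_range.1 hk
    have h3 : j + k * H ≤ n := by
      have h4 : k * H ≤ N * H := Nat.mul_le_mul_right H hk1.le
      omega
    exact uη_int hd β h h3 hLm
  have hsi := integrable_finsetSum (Finset.range N) hui
  have i1 : Integrable (fun η => 2 * x * ∑ k ∈ Finset.range N, uη β h n (j + k * H) L η)
      (law d ρ) := hsi.const_mul _
  have i2 : Integrable (fun η => eη β h t r η / M₀ + Real.log M₀ - 1) (law d ρ) :=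
    ((hei.div_const M₀).add (integrable_const _)).sub (integrable_const _)
  have h1 : ∫ _η : Env d, (1 - κ) * x * N ∂(law d ρ) ≤
      ∫ η, (2 * x * (∑ k ∈ Finset.range N, uη β h n (j + k * H) L η) + Mx ρ β h n η +
        (t : ℕ) * lam ρ β h - X β h η n + (eη β h t r η / M₀ + Real.log M₀ - 1) +
        Real.log (boxF d j).card + N * Real.log (boxF d H).card) ∂(law d ρ) := by
    refine integral_mono (integrable_const _) ?_ fun η =>
      fix10 (ρ := ρ) hd hρ β h η hn hx hκ hκ2 hM₀0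
    exact ((((((i1.add hMx.1).add (integrable_const _)).sub hXi).add i2).add
      (integrable_const _)).add (integrable_const _))
  rw [integral_const, probReal_univ, one_smul] at h1
  have h2 : ∫ η, (2 * x * (∑ k ∈ Finset.range N, uη β h n (j + k * H) L η) + Mx ρ β h n η +
        (t : ℕ) * lam ρ β h - X β h η n + (eη β h t r η / M₀ + Real.log M₀ - 1) +
        Real.log (boxF d j).card + N * Real.log (boxF d H).card) ∂(law d ρ) =
      2 * x * (∑ k ∈ Finset.range N, us ρ β h n (j + k * H) L) +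
        ∫ η, Mx ρ β h n η ∂(law d ρ) + t * lam ρ β h - A ρ β h n + Real.log M₀ +
        Real.log (boxF d j).card + N * Real.log (boxF d H).card := by
    have j1 : ∀ η : Env d, (2 * x * (∑ k ∈ Finset.range N, uη β h n (j + k * H) L η) +
        Mx ρ β h n η + (t : ℕ) * lam ρ β h - X β h η n +
        (eη β h t r η / M₀ + Real.log M₀ - 1) +
        Real.log (boxF d j).card + N * Real.log (boxF d H).card) =
        2 * x * (∑ k ∈ Finset.range N, uη β h n (j + k * H) L η) + (Mx ρ β h n η +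
        (-X β h η n + (eη β h t r η / M₀ + ((t : ℕ) * lam ρ β h + Real.log M₀ - 1 +
        Real.log (boxF d j).card + N * Real.log (boxF d H).card)))) := fun η => by ring
    simp only [j1]
    set c₁ : ℝ := (t : ℕ) * lam ρ β h + Real.log M₀ - 1 + Real.log (boxF d j).card +
      N * Real.log (boxF d H).card with hc₁
    have k4 : Integrable (fun η => eη β h t r η / M₀ + c₁) (law d ρ) :=
      (hei.div_const M₀).add (integrable_const _)
    have k3 : Integrable (fun η => -X β h η n + (eη β h t r η / M₀ + c₁)) (law d ρ) :=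
      hXi.neg.add k4
    have k2 : Integrable (fun η => Mx ρ β h n η + (-X β h η n + (eη β h t r η / M₀ + c₁)))
      (law d ρ) := hMx.1.add k3
    have e1 : ∫ η, (2 * x * (∑ k ∈ Finset.range N, uη β h n (j + k * H) L η) +
        (Mx ρ β h n η + (-X β h η n + (eη β h t r η / M₀ + c₁)))) ∂(law d ρ) =
        ∫ η, 2 * x * (∑ k ∈ Finset.range N, uη β h n (j + k * H) L η) ∂(law d ρ) +
        ∫ η, (Mx ρ β h n η + (-X β h η n + (eη β h t r η / M₀ + c₁))) ∂(law d ρ) :=
      integral_add i1 k2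
    have e2 : ∫ η, (Mx ρ β h n η + (-X β h η n + (eη β h t r η / M₀ + c₁))) ∂(law d ρ) =
        ∫ η, Mx ρ β h n η ∂(law d ρ) +
        ∫ η, (-X β h η n + (eη β h t r η / M₀ + c₁)) ∂(law d ρ) := integral_add hMx.1 k3
    have e3 : ∫ η, (-X β h η n + (eη β h t r η / M₀ + c₁)) ∂(law d ρ) =
        ∫ η, (-X β h η n) ∂(law d ρ) + ∫ η, (eη β h t r η / M₀ + c₁) ∂(law d ρ) :=
      integral_add hXi.neg k4
    have e4 : ∫ η, (eη β h t r η / M₀ + c₁) ∂(law d ρ) =
        ∫ η, eη β h t r η / M₀ ∂(law d ρ) + ∫ _η : Env d, c₁ ∂(law d ρ) :=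
      integral_add (hei.div_const M₀) (integrable_const _)
    rw [e1, e2, e3, e4, integral_const, probReal_univ,
      one_smul, integral_div, hee, div_self hM₀0.ne', integral_neg, integral_const_mul,
      integral_finsetSum _ hui]
    have j2 : ∑ k ∈ Finset.range N, ∫ η, uη β h n (j + k * H) L η ∂(law d ρ) =
        ∑ k ∈ Finset.range N, us ρ β h n (j + k * H) L := rfl
    rw [j2]
    have j3 : ∫ η, X β h η n ∂(law d ρ) = A ρ β h n := rfl
    rw [j3]
    ring
  rw [h2, hlog] at h1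
  have h3 := hMx.2
  linarith

/-- The offsets. -/
lemma offs10 {n H : ℕ} (hH : 1 ≤ H) (hn : H ≤ n) (φ : ℕ → ℝ) :
    ∑ j ∈ Finset.range H, ∑ k ∈ Finset.range ((n - j) / H), φ (j + k * H) =
      ∑ t ∈ Finset.range (n + 1 - H), φ t := by
  rw [Finset.sum_sigma']
  refine Finset.sum_nbij' (fun p => p.1 + p.2 * H) (fun t => ⟨t % H, t / H⟩) ?_ ?_ ?_ ?_ ?_
  · rintro ⟨j, k⟩ hp
    rw [Finset.mem_sigma] at hp
    have h1 := Finset.mem_range.1 hp.1
    have h2 := Finset.mem_range.1 hp.2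
    simp only at h1 h2
    have h3 : k + 1 ≤ (n - j) / H := h2
    have h4 := (Nat.le_div_iff_mul_le hH).1 h3
    rw [Finset.mem_range]
    simp only
    have h5 : (k + 1) * H = k * H + H := by ring
    omega
  · intro t ht
    have h1 := Finset.mem_range.1 ht
    rw [Finset.mem_sigma]
    have h2 := Nat.mod_lt t hH
    have h3 := Nat.mod_add_div t H
    refine ⟨Finset.mem_range.2 h2, Finset.mem_range.2 ?_⟩
    show t / H < (n - t % H) / H
    have h4 : t / H + 1 ≤ (n - t % H) / H := by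
      rw [Nat.le_div_iff_mul_le hH]
      have h5 : (t / H + 1) * H = H * (t / H) + H := by ring
      omega
    exact h4
  · rintro ⟨j, k⟩ hp
    rw [Finset.mem_sigma] at hp
    have h1 := Finset.mem_range.1 hp.1
    simp only at h1
    have h2 : (j + k * H) % H = j := by
      rw [Nat.add_mul_mod_self_right, Nat.mod_eq_of_lt h1]
    have h3 : (j + k * H) / H = k := by
      rw [Nat.add_mul_div_right _ _ hH, Nat.div_eq_of_lt h1, Nat.zero_add]
    simp only [h2, h3]
  · intro t _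
    simp only
    have h3 := Nat.mod_add_div t H
    rw [mul_comm] at h3
    exact h3
  · rintro ⟨j, k⟩ _
    rfl

lemma logcard10 (t : ℕ) : Real.log (boxF d t).card = d * Real.log (2 * t + 1) := by
  rw [card_boxF]
  push_cast
  rw [Real.log_pow]

/-- Concavity of the logarithm. -/
lemma conc10 {n H : ℕ} (hH : 1 ≤ H) (hn : H ≤ n) :
    H * Real.log (2 * n + 1) ≤ n * Real.log (2 * H + 1) := by
  have hH0 : (0 : ℝ) < H := by exact_mod_cast hH
  have hn0 : (0 : ℝ) < n := by exact_mod_cast (lt_of_lt_of_le hH hn)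
  have hHn : (H : ℝ) ≤ n := by exact_mod_cast hn
  have h1 : (1 + 2 * (n : ℝ)) ^ ((H : ℝ) / n) ≤ 1 + (H : ℝ) / n * (2 * n) :=
    rpow_one_add_le_one_add_mul_self (by linarith) (by positivity)
      ((div_le_one hn0).2 hHn)
  have h2 : 1 + (H : ℝ) / n * (2 * n) = 2 * H + 1 := by
    field_simp
    ring
  rw [h2] at h1
  have h3 := Real.log_le_log (Real.rpow_pos_of_pos (by linarith) _) h1
  rw [Real.log_rpow (by linarith), add_comm 1 (2 * (n : ℝ))] at h3
  have h4 := mul_le_mul_of_nonneg_left h3 hn0.le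
  have h5 : (n : ℝ) * (H / n * Real.log (2 * n + 1)) = H * Real.log (2 * n + 1) := by
    field_simp
  rw [h5] at h4
  exact h4

/-- USE with an absolute constant in front of the entropy. -/
theorem use10 [IsProbabilityMeasure ρ] (hd : 0 < d) (hρ : EM ρ) (β : ℝ) (h : Vec d) :
    ∃ C : ℝ, 0 ≤ C ∧ ∀ (n H : ℕ) (x κ K : ℝ), 1 ≤ H → H ≤ n →
    0 < x → 0 < κ → κ ≤ 1 / 2 → (∀ k : ℕ, k ≤ n → Va ρ β h k ≤ K) →
    (1 - κ) * x * (n - H) ≤ 2 * x * (∑ t ∈ Finset.range n, us ρ β h n t (Lk ρ β h n H 0 x κ 0)) +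
      H * (En ρ β h n + C * (H + 1) + C * Real.sqrt ((n + 1) * K)) +
      3 * d * n * Real.log (2 * H + 1) := by
  set ann := Real.log (Phi h) + Real.log (∫ s, Real.exp (β * s) ∂ρ) with hann
  set lm := lam ρ β h with hlm
  have hle : lm ≤ ann := lam_le_ann61 hd hρ β h
  refine ⟨1 + (ann - lm), by linarith, fun n H x κ K hH hn hx hκ hκ2 hK => ?_⟩
  set L := Lk ρ β h n H 0 x κ 0 with hL
  have hs0 : 0 ≤ Real.sqrt ((n + 1) * K) := Real.sqrt_nonneg _
  have hd0 : (0 : ℝ) ≤ d := Nat.cast_nonneg _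
  have hH0 : (1 : ℝ) ≤ H := by exact_mod_cast hH
  have hl0 : 0 ≤ Real.log (2 * (H : ℝ) + 1) := Real.log_nonneg (by linarith)
  -- one offset
  have h1 : ∀ j ∈ Finset.range H, (1 - κ) * x * ((n - j) / H : ℕ) ≤
      2 * x * (∑ k ∈ Finset.range ((n - j) / H), us ρ β h n (j + k * H) L) +
        (Real.sqrt ((n + 1) * K) + En ρ β h n + H * (ann - lm) +
        d * Real.log (2 * n + 1) + d * Real.log (2 * H + 1)) +
        ((n - j) / H : ℕ) * (d * Real.log (2 * H + 1)) := by
    intro j hj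
    have hjH := Finset.mem_range.1 hj
    have h2 : (n - j) / H * H ≤ n - j := Nat.div_mul_le_self _ _
    have h3 : j + (n - j) / H * H ≤ n := by omega
    have h4 := one10 (ρ := ρ) hd hρ β h h3 hx hκ hκ2 hK
    rw [← hann, ← hlm, ← hL, logcard10, logcard10, logcard10] at h4
    have h5 : n - (j + (n - j) / H * H) < H := by
      have h6 := Nat.mod_add_div (n - j) H
      have h7 := Nat.mod_lt (n - j) hH
      have h8 : (n - j) / H * H = H * ((n - j) / H) := mul_comm _ _
      omega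
    have h6 : ((n - (j + (n - j) / H * H) : ℕ) : ℝ) = n - (j + (n - j) / H * H : ℕ) := by
      rw [Nat.cast_sub h3]
    have h7 : ((n - (j + (n - j) / H * H) : ℕ) : ℝ) ≤ H := by exact_mod_cast h5.le
    have h8 : ((j + (n - j) / H * H : ℕ) : ℝ) ≤ n := by exact_mod_cast h3
    have h9 : Real.log (2 * ((j + (n - j) / H * H : ℕ) : ℝ) + 1) ≤ Real.log (2 * n + 1) :=
      Real.log_le_log (by positivity) (by linarith)
    have hjr : (j : ℝ) ≤ H := by exact_mod_cast hjH.le
    have h10 : Real.log (2 * (j : ℝ) + 1) ≤ Real.log (2 * H + 1) :=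
      Real.log_le_log (by positivity) (by linarith)
    have h11 := mul_le_mul_of_nonneg_left h9 hd0
    have h12 := mul_le_mul_of_nonneg_left h10 hd0
    have h13 := mul_le_mul_of_nonneg_right h7 (by linarith : (0 : ℝ) ≤ ann - lm)
    have h14 : En ρ β h n = n * lm - A ρ β h n := rfl
    rw [h14]
    have h15 : ((n - (j + (n - j) / H * H) : ℕ) : ℝ) * ann =
        ((n - (j + (n - j) / H * H) : ℕ) : ℝ) * (ann - lm) +
          (n - (j + (n - j) / H * H : ℕ)) * lm := by
      rw [← h6]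
      ring
    rw [h15] at h4
    linarith
  have h2 := Finset.sum_le_sum h1
  have h3 : ∑ j ∈ Finset.range H, (((n - j) / H : ℕ) : ℝ) = (n + 1 - H : ℕ) := by
    have h4 := offs10 hH hn (fun _ => (1 : ℝ))
    simp only [Finset.sum_const, Finset.card_range, nsmul_eq_mul, mul_one] at h4
    exact h4
  have h4 := offs10 hH hn (fun t => us ρ β h n t L)
  rw [← Finset.mul_sum, h3, Finset.sum_add_distrib, Finset.sum_add_distrib, ← Finset.mul_sum,
    ← Finset.sum_mul, h3, h4, Finset.sum_const, Finset.card_range, nsmul_eq_mul] at h2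
  have h5 : ∑ t ∈ Finset.range (n + 1 - H), us ρ β h n t L ≤
      ∑ t ∈ Finset.range n, us ρ β h n t L := by
    refine Finset.sum_le_sum_of_subset_of_nonneg ?_ fun t _ _ => us_nonneg hd β h n t L
    intro t ht
    rw [Finset.mem_range] at ht ⊢
    omega
  have h6 : ((n + 1 - H : ℕ) : ℝ) = n + 1 - H := by
    rw [Nat.cast_sub (by omega)]
    push_cast
    ring
  rw [h6] at h2
  have h7 := conc10 hH hn
  have hnH : (H : ℝ) ≤ n := by exact_mod_cast hn
  have h8 : (1 - κ) * x * (n - H) ≤ (1 - κ) * x * (n + 1 - H) :=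
    mul_le_mul_of_nonneg_left (by linarith) (mul_nonneg (by linarith) hx.le)
  have h9 := mul_le_mul_of_nonneg_left h5 (by positivity : (0 : ℝ) ≤ 2 * x)
  have h10 := mul_le_mul_of_nonneg_left h7 hd0
  have h11 : (H : ℝ) * (d * Real.log (2 * H + 1)) ≤ n * (d * Real.log (2 * H + 1)) :=
    mul_le_mul_of_nonneg_right hnH (mul_nonneg hd0 hl0)
  have h12 : ((n : ℝ) + 1 - H) * (d * Real.log (2 * H + 1)) ≤ n * (d * Real.log (2 * H + 1)) :=
    mul_le_mul_of_nonneg_right (by linarith) (mul_nonneg hd0 hl0)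
  have h13 : 0 ≤ (H : ℝ) * ((ann - lm) * Real.sqrt ((n + 1) * K)) :=
    mul_nonneg (by linarith) (mul_nonneg (by linarith) hs0)
  have h14 : 0 ≤ (H : ℝ) * (ann - lm) := mul_nonneg (by linarith) (by linarith)
  have h15 : (0 : ℝ) ≤ H * (H + 1) := by positivity
  nlinarith

end Pool.Agent.W_7d29a1_PL.U10

namespace Pool.Agent.W_7d29a1_PL

open MeasureTheory ProbabilityTheory Filter Topology Pool.Agent.W_MP_7d29a1_pr
  Pool.Agent.W_7d29a1_h46 Pool.Agent.W_7d29a1_h46u

/-- Leaf USE. -/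
theorem useP10 {d : ℕ} {ρ : Measure ℝ} [IsProbabilityMeasure ρ] (hd : 0 < d) (hρ : EM ρ) (β : ℝ) :
    UseP d ρ β :=
  ⟨3 * d, by positivity, fun h => U10.use10 hd hρ β h⟩

end Pool.Agent.W_7d29a1_PL
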