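import Mathlib

/-!
Exponential moments of a sum of indicators from the probabilities of the intersections.
-/

set_option autoImplicit false

namespace Pool.Agent.W_7d29a1_PL

open MeasureTheory Finset

/-- The weight of the events. -/
noncomputable def wt62 {Ω ι : Type*} (s : Finset ι) (L : ι → Set Ω) (a : ι → ℝ) (ω : Ω) : ℝ :=
  Real.exp (∑ p ∈ s, a p * (L p).indicator (fun _ => (1 : ℝ)) ω)

lemma wt62_prod {Ω ι : Type*} (s : Finset ι) (L : ι → Set Ω) (a : ι → ℝ) (ω : Ω) :
    wt62 s L a ω =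
      ∏ p ∈ s, ((Real.exp (a p) - 1) * (L p).indicator (fun _ => (1 : ℝ)) ω + 1) := by
  unfold wt62
  rw [Real.exp_sum]
  refine prod_congr rfl fun p _ => ?_
  by_cases h : ω ∈ L p
  · rw [Set.indicator_of_mem h]
    ring_nf
  · rw [Set.indicator_of_notMem h]
    simp

lemma ind_prod62 {Ω ι : Type*} (I : Finset ι) (L : ι → Set Ω) (ω : Ω) :
    ∏ p ∈ I, (L p).indicator (fun _ => (1 : ℝ)) ω = (⋂ p ∈ I, L p).indicator (fun _ => (1 : ℝ)) ω := by
  by_cases h : ω ∈ ⋂ p ∈ I, L p
  · rw [Set.indicator_of_mem h]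
    refine prod_eq_one fun p hp => ?_
    rw [Set.indicator_of_mem (Set.mem_iInter₂.1 h p hp)]
  · rw [Set.indicator_of_notMem h]
    have h1 : ∃ p ∈ I, ω ∉ L p := by
      by_contra hcon
      push Not at hcon
      exact h (Set.mem_iInter₂.2 hcon)
    obtain ⟨p, hp, hω⟩ := h1
    exact prod_eq_zero hp (Set.indicator_of_notMem hω _)

lemma wt62_eq {Ω ι : Type*} [DecidableEq ι] (s : Finset ι) (L : ι → Set Ω) (a : ι → ℝ) (ω : Ω) :
    wt62 s L a ω = ∑ I ∈ s.powerset, (∏ p ∈ I, (Real.exp (a p) - 1)) *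
      (⋂ p ∈ I, L p).indicator (fun _ => (1 : ℝ)) ω := by
  rw [wt62_prod, prod_add]
  refine sum_congr rfl fun I _ => ?_
  rw [prod_const_one, mul_one, prod_mul_distrib, ind_prod62]

/-- The exponential moment. -/
theorem exp62 {Ω ι : Type*} [DecidableEq ι] [MeasurableSpace Ω] {μ : Measure Ω}
    [IsProbabilityMeasure μ] (s : Finset ι) {L : ι → Set Ω} (hL : ∀ p ∈ s, MeasurableSet (L p))
    {a : ι → ℝ} (ha : ∀ p ∈ s, 0 ≤ a p) {C : ℝ} (hC : 0 ≤ C)
    (h : ∀ I, I ⊆ s → μ.real (⋂ p ∈ I, L p) ≤ ∏ p ∈ I, (C * Real.exp (-a p))) :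
    Integrable (wt62 s L a) μ ∧ ∫ ω, wt62 s L a ω ∂μ ≤ (1 + C) ^ s.card := by
  have hm : ∀ I ∈ s.powerset, MeasurableSet (⋂ p ∈ I, L p) := fun I hI =>
    Finset.measurableSet_biInter I fun p hp => hL p (mem_powerset.1 hI hp)
  have hi : ∀ I ∈ s.powerset, Integrable (fun ω => (∏ p ∈ I, (Real.exp (a p) - 1)) *
      (⋂ p ∈ I, L p).indicator (fun _ => (1 : ℝ)) ω) μ := fun I hI =>
    ((integrable_const (1 : ℝ)).indicator (hm I hI)).const_mul _
  have he : wt62 s L a = fun ω => ∑ I ∈ s.powerset, (∏ p ∈ I, (Real.exp (a p) - 1)) *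
      (⋂ p ∈ I, L p).indicator (fun _ => (1 : ℝ)) ω := funext fun ω => wt62_eq s L a ω
  rw [he]
  refine ⟨integrable_finsetSum _ hi, ?_⟩
  rw [integral_finsetSum _ hi]
  have hone : ∀ I ∈ s.powerset, ∫ ω, (∏ p ∈ I, (Real.exp (a p) - 1)) *
      (⋂ p ∈ I, L p).indicator (fun _ => (1 : ℝ)) ω ∂μ ≤ C ^ I.card := by
    intro I hI
    have hIs := mem_powerset.1 hI
    rw [integral_const_mul, integral_indicator (hm I hI), setIntegral_const, smul_eq_mul, mul_one]
    have h0 : 0 ≤ ∏ p ∈ I, (Real.exp (a p) - 1) := prod_nonneg fun p hp => by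
      have := Real.one_le_exp (ha p (hIs hp))
      linarith
    calc (∏ p ∈ I, (Real.exp (a p) - 1)) * μ.real (⋂ p ∈ I, L p)
        ≤ (∏ p ∈ I, (Real.exp (a p) - 1)) * ∏ p ∈ I, (C * Real.exp (-a p)) :=
          mul_le_mul_of_nonneg_left (h I hIs) h0
      _ = ∏ p ∈ I, ((Real.exp (a p) - 1) * (C * Real.exp (-a p))) := prod_mul_distrib.symm
      _ ≤ ∏ _p ∈ I, C := by
          refine prod_le_prod (fun p hp => ?_) fun p hp => ?_
          · have := Real.one_le_exp (ha p (hIs hp))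
            have h1 := Real.exp_pos (-a p)
            have h2 : 0 ≤ Real.exp (a p) - 1 := by linarith
            positivity
          · have e1 : Real.exp (a p) * Real.exp (-a p) = 1 := by
              rw [← Real.exp_add]
              simp
            have h1 := Real.exp_pos (-a p)
            calc (Real.exp (a p) - 1) * (C * Real.exp (-a p)) =
                C * (Real.exp (a p) * Real.exp (-a p)) - C * Real.exp (-a p) := by ring
              _ ≤ C := by
                rw [e1]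
                nlinarith [mul_nonneg hC h1.le]
      _ = C ^ I.card := by rw [prod_const]
  refine (sum_le_sum hone).trans (le_of_eq ?_)
  have h2 := prod_add (fun _ : ι => C) (fun _ : ι => (1 : ℝ)) s
  simp only [prod_const, one_pow, mul_one] at h2
  rw [← h2, add_comm]

end Pool.Agent.W_7d29a1_PL
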