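import Pool.Agent.W_7d29a1_SP.Luck93
import Pool.Agent.W_7d29a1_PL.Exp62

/-!
Budget: the mass of the positions, weighted by a function of their future.
-/

namespace Pool.Agent.W_7d29a1_PL

open MeasureTheory ProbabilityTheory Filter Topology Pool.Agent.W_MP_7d29a1_pr
  Pool.Agent.W_7d29a1_h46 Pool.Agent.W_7d29a1_h46u Pool.Agent.W_7d29a1_D2.B35
  Pool.Agent.W_7d29a1_Q29 Pool.Agent.W_7d29a1_R34 Pool.Agent.W_7d29a1_SP

namespace B62

variable {d : ℕ} {ρ : Measure ℝ} [IsProbabilityMeasure ρ]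

open S98 in
/-- The positions of `R` weighted by a bounded function of the future. -/
theorem massW62 (hd : 0 < d) {β : ℝ} {h : Vec d} {n t : ℕ} (ht : t ≤ n)
    (R : Finset (Site d)) {N : ℝ} (hN : (R.card : ℝ) ≤ N) {W : Env d → ℝ} (hWm : Measurable W)
    (hW0 : ∀ η, 0 ≤ W η) {K : ℝ} (hWK : ∀ η, W η ≤ K)
    (hdep : ∀ y, DependsOn (fun η : Env d => W (sh t y η)) (Pa d t)ᶜ) :
    ∫ η, ∑ y ∈ R, Qt β h n t y η * W (sh t y η) ∂(law d ρ) ≤
      Real.sqrt ((∫ η, W η ^ 2 ∂(law d ρ)) * N * St ρ β h n t) := by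
  set P : Measure (Env d) := law d ρ with hP
  set g : Site d → Env d → ℝ := fun y => cE ρ (Pa d t)ᶜ (Qt β h n t y) with hg
  set V : Site d → Env d → ℝ := fun y η => W (sh t y η) with hV
  have hK0 : 0 ≤ K := (hW0 (fun _ => 0)).trans (hWK _)
  have hgm : ∀ y, Measurable (g y) := fun y => S98.measurable_cE (measurable_Qt β h n t y) _
  have hg0 : ∀ y η, 0 ≤ g y η := fun y η => S98.cE_nonneg (fun η => Qt_nonneg hd β h n t y η) _ η
  have hg1 : ∀ y η, g y η ≤ 1 := fun y η => cE_le_one (measurable_Qt β h n t y)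
    (fun η => Qt_nonneg hd β h n t y η) (fun η => Qt_le_one hd β h ht y η) _ η
  have hVm : ∀ y, Measurable (V y) := fun y => hWm.comp (measurable_sh t y)
  have hV0 : ∀ y η, 0 ≤ V y η := fun y η => hW0 _
  have hV1 : ∀ y η, V y η ≤ K := fun y η => hWK _
  have bdd : ∀ {F : Env d → ℝ} {M : ℝ}, Measurable F → (∀ η, 0 ≤ F η) → (∀ η, F η ≤ M) →
      Integrable F P := by
    intro F M hF h0 h1
    refine Integrable.mono' (integrable_const M) hF.aestronglyMeasurable
      (Eventually.of_forall fun η => ?_)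
    rw [Real.norm_eq_abs, abs_of_nonneg (h0 η)]
    exact h1 η
  have hVd : ∀ y, DependsOn (V y) (Pa d t)ᶜ := hdep
  have hQVi : ∀ y, Integrable (fun η => V y η * Qt β h n t y η) P := fun y =>
    bdd (M := K * 1) ((hVm y).mul (measurable_Qt β h n t y))
      (fun η => mul_nonneg (hV0 y η) (Qt_nonneg hd β h n t y η))
      (fun η => mul_le_mul (hV1 y η) (Qt_le_one hd β h ht y η) (Qt_nonneg hd β h n t y η) hK0)
  have hgVi : ∀ y, Integrable (fun η => V y η * g y η) P := fun y =>
    bdd (M := K * 1) ((hVm y).mul (hgm y)) (fun η => mul_nonneg (hV0 y η) (hg0 y η))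
      (fun η => mul_le_mul (hV1 y η) (hg1 y η) (hg0 y η) hK0)
  have hV2i : ∀ y, Integrable (fun η => V y η ^ 2) P := fun y =>
    bdd (M := K ^ 2) ((hVm y).pow_const 2) (fun η => sq_nonneg _)
      (fun η => pow_le_pow_left₀ (hV0 y η) (hV1 y η) 2)
  have hg2i : ∀ y, Integrable (fun η => g y η ^ 2) P := fun y =>
    bdd (M := 1) ((hgm y).pow_const 2) (fun η => sq_nonneg _)
      (fun η => pow_le_one₀ (hg0 y η) (hg1 y η))
  have hN0 : 0 ≤ N := (Nat.cast_nonneg _).trans hN
  have hoff : ∀ y, y ∉ boxF d n → ∀ η, g y η = 0 := by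
    intro y hy η
    have hy' : y ∉ boxF d t := fun h1 => hy (boxF_mono ht h1)
    simp only [hg]
    unfold cE
    simp only [Qt_off hy']
    simp
  have hsum : ∑ y ∈ R, ∫ η, g y η ^ 2 ∂P ≤ St ρ β h n t := by
    unfold St
    rw [integral_finsetSum _ fun y _ => hg2i y]
    classical
    have h1 : ∑ y ∈ R, ∫ η, g y η ^ 2 ∂P = ∑ y ∈ R ∩ boxF d n, ∫ η, g y η ^ 2 ∂P := by
      symm
      refine Finset.sum_subset Finset.inter_subset_left fun y hy hy' => ?_
      have h2 : y ∉ boxF d n := fun h3 => hy' (Finset.mem_inter.2 ⟨hy, h3⟩)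
      simp only [hoff y h2]
      simp
    rw [h1]
    exact Finset.sum_le_sum_of_subset_of_nonneg Finset.inter_subset_right
      fun _ _ _ => integral_nonneg fun _ => sq_nonneg _
  have hS0 : 0 ≤ St ρ β h n t := le_trans (Finset.sum_nonneg fun y _ =>
    integral_nonneg fun _ => sq_nonneg _) hsum
  have e0 : ∫ η, ∑ y ∈ R, Qt β h n t y η * W (sh t y η) ∂P = ∑ y ∈ R, ∫ η, V y η * g y η ∂P := by
    have e1 : ∀ η, ∑ y ∈ R, Qt β h n t y η * W (sh t y η) = ∑ y ∈ R, V y η * Qt β h n t y η :=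
      fun η => Finset.sum_congr rfl fun y _ => mul_comm _ _
    simp only [e1]
    rw [integral_finsetSum _ fun y _ => hQVi y]
    exact Finset.sum_congr rfl fun y _ => S98.int_mul_cE _ (hQVi y) (hVd y)
  set D := ∫ η, W η ^ 2 ∂P with hD
  have hD0 : 0 ≤ D := integral_nonneg fun _ => sq_nonneg _
  have hp : ∀ y, ∫ η, V y η ^ 2 ∂P = D := fun y =>
    integral_sh t y (F := fun η => W η ^ 2) (hWm.pow_const 2)
  rw [e0]
  refine S98.sqrt_of_all hS0 (mul_nonneg hD0 hN0) fun s hs => ?_
  have h1 : ∀ y ∈ R, 2 * ∫ η, V y η * g y η ∂P ≤ s * ∫ η, g y η ^ 2 ∂P + D / s := by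
    intro y _
    have h2 : ∫ η, 2 * (V y η * g y η) ∂P ≤ ∫ η, (s * g y η ^ 2 + 1 / s * V y η ^ 2) ∂P := by
      refine integral_mono ((hgVi y).const_mul 2) (((hg2i y).const_mul s).add
        ((hV2i y).const_mul (1 / s))) fun η => ?_
      simp only
      set x := V y η
      set z := g y η
      have h5 : 0 ≤ (s * z - x) ^ 2 / s := div_nonneg (sq_nonneg _) hs.le
      have h6 : (s * z - x) ^ 2 / s = s * z ^ 2 + 1 / s * x ^ 2 - 2 * (x * z) := by
        field_simp
        ring
      linarith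
    rw [integral_const_mul, integral_add ((hg2i y).const_mul s) ((hV2i y).const_mul (1 / s)),
      integral_const_mul, integral_const_mul, hp y] at h2
    rw [one_div, inv_mul_eq_div] at h2
    exact h2
  rw [Finset.mul_sum]
  refine (Finset.sum_le_sum h1).trans ?_
  rw [Finset.sum_add_distrib, ← Finset.mul_sum, Finset.sum_const, nsmul_eq_mul]
  have h9 : (R.card : ℝ) * (D / s) ≤ D * N / s := by
    rw [mul_div_assoc']
    refine div_le_div_of_nonneg_right ?_ hs.le
    nlinarith
  have h11 := mul_le_mul_of_nonneg_left hsum hs.le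
  linarith

/-- Jensen with a defective probability. -/
lemma jen62 {ι : Type*} (R : Finset ι) (q w : ι → ℝ) (hq : ∀ y ∈ R, 0 ≤ q y)
    (hs : ∑ y ∈ R, q y ≤ 1) (hw : ∀ y ∈ R, 1 ≤ w y) {x : ℝ} (hx : 1 ≤ x) :
    ∑ y ∈ R, q y * Real.log (w y) ≤ Real.log x + (1 + ∑ y ∈ R, q y * w y) / x - 1 := by
  have hx0 : 0 < x := by linarith
  have h1 : ∀ y ∈ R, q y * Real.log (w y) ≤ q y * (Real.log x + w y / x - 1) := by
    intro y hy
    refine mul_le_mul_of_nonneg_left ?_ (hq y hy)
    have hwy : 0 < w y := by linarith [hw y hy]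
    have h2 := Real.log_le_sub_one_of_pos (show 0 < w y / x by positivity)
    rw [Real.log_div hwy.ne' hx0.ne'] at h2
    linarith
  have h3 : ∑ y ∈ R, q y * (Real.log x + w y / x - 1) =
      (Real.log x - 1) * ∑ y ∈ R, q y + (∑ y ∈ R, q y * w y) / x := by
    rw [Finset.mul_sum, Finset.sum_div, ← Finset.sum_add_distrib]
    refine Finset.sum_congr rfl fun y _ => ?_
    ring
  have h4 := Finset.sum_le_sum h1
  rw [h3] at h4
  have hs0 : 0 ≤ ∑ y ∈ R, q y := Finset.sum_nonneg hq
  have hlx : 0 ≤ Real.log x := Real.log_nonneg hx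
  have h5 : (Real.log x - 1) * ∑ y ∈ R, q y ≤ Real.log x - 1 + 1 / x := by
    have h6 : Real.log x - 1 + 1 / x ≥ 0 := by
      have h7 := Real.log_le_sub_one_of_pos (show 0 < 1 / x by positivity)
      rw [Real.log_div one_ne_zero hx0.ne', Real.log_one] at h7
      linarith
    have h8 : 0 < 1 / x := by positivity
    by_cases h9 : Real.log x - 1 ≤ 0
    · nlinarith
    · have h10 := not_le.1 h9
      nlinarith
  have h11 : (1 + ∑ y ∈ R, q y * w y) / x = 1 / x + (∑ y ∈ R, q y * w y) / x := by ring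
  rw [h11]
  linarith

open S98 in
lemma sumR62 (hd : 0 < d) (β : ℝ) (h : Vec d) {n t : ℕ} (ht : t ≤ n) (R : Finset (Site d))
    (η : Env d) : ∑ y ∈ R, Qt β h n t y η ≤ 1 := by
  classical
  rw [← S98.Qt_sum hd β h ht η]
  have h1 : ∑ y ∈ R, Qt β h n t y η = ∑ y ∈ R ∩ boxF d t, Qt β h n t y η := by
    symm
    refine Finset.sum_subset Finset.inter_subset_left fun y hy hy' => ?_
    exact Qt_off (fun h3 => hy' (Finset.mem_inter.2 ⟨hy, h3⟩)) η
  rw [h1]
  exact Finset.sum_le_sum_of_subset_of_nonneg Finset.inter_subset_right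
    fun y _ _ => Qt_nonneg hd β h n t y η

end B62

open S98 in
/-- The budget of the events at the time `t`: the expected weight of the lucky levels of the
positions in `R`. -/
theorem bud62 {d : ℕ} {ρ : Measure ℝ} [IsProbabilityMeasure ρ] {ι : Type*} [DecidableEq ι]
    (hd : 0 < d) {β : ℝ} {h : Vec d} {n t : ℕ} (ht : t ≤ n) (R : Finset (Site d)) {N : ℝ}
    (hN : (R.card : ℝ) ≤ N) (s : Finset ι) {L : ι → Set (Env d)}
    (hL : ∀ p ∈ s, MeasurableSet (L p)) {a : ι → ℝ} (ha : ∀ p ∈ s, 0 ≤ a p) {C : ℝ} (hC : 0 ≤ C)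
    (hI : ∀ I, I ⊆ s → (law d ρ).real (⋂ p ∈ I, L p) ≤ ∏ p ∈ I, (C * Real.exp (-a p)))
    (hdep : ∀ p ∈ s, ∀ y, DependsOn (fun η : Env d => sh t y η ∈ L p) (Pa d t)ᶜ) :
    ∫ η, ∑ y ∈ R, Qt β h n t y η *
        ∑ p ∈ s, a p * (L p).indicator (fun _ => (1 : ℝ)) (sh t y η) ∂(law d ρ) ≤
      2 * Real.log (1 + Real.sqrt ((1 + C) ^ s.card * N * St ρ β h n t)) := by
  set P : Measure (Env d) := law d ρ with hP
  set b : ι → ℝ := fun p => a p / 2 with hb
  set W : Env d → ℝ := wt62 s L b with hW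
  have hWm : Measurable W := by
    rw [hW]
    unfold wt62
    refine Real.measurable_exp.comp (Finset.measurable_sum _ fun p hp => ?_)
    exact (measurable_const.indicator (hL p hp)).const_mul _
  have hind : ∀ p η, 0 ≤ (L p).indicator (fun _ => (1 : ℝ)) η := fun p η =>
    Set.indicator_nonneg (fun _ _ => zero_le_one) _
  have hind1 : ∀ p η, (L p).indicator (fun _ => (1 : ℝ)) η ≤ 1 := fun p η =>
    Set.indicator_le_self' (fun _ _ => zero_le_one) _
  have hsum0 : ∀ η, 0 ≤ ∑ p ∈ s, b p * (L p).indicator (fun _ => (1 : ℝ)) η := fun η =>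
    Finset.sum_nonneg fun p hp => mul_nonneg (by
      have := ha p hp
      show 0 ≤ a p / 2
      linarith) (hind p η)
  have hW1 : ∀ η, 1 ≤ W η := fun η => Real.one_le_exp (hsum0 η)
  have hW0 : ∀ η, 0 ≤ W η := fun η => zero_le_one.trans (hW1 η)
  set K := Real.exp (∑ p ∈ s, b p) with hK
  have hWK : ∀ η, W η ≤ K := by
    intro η
    refine Real.exp_le_exp.2 (Finset.sum_le_sum fun p hp => ?_)
    have h1 : 0 ≤ b p := by
      have := ha p hp
      show 0 ≤ a p / 2
      linarith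
    exact mul_le_of_le_one_right h1 (hind1 p η)
  have hW2 : ∀ η, W η ^ 2 = wt62 s L a η := by
    intro η
    rw [hW]
    unfold wt62
    rw [← Real.exp_nat_mul]
    congr 1
    rw [Finset.mul_sum]
    refine Finset.sum_congr rfl fun p _ => ?_
    simp only [hb]
    push_cast
    ring
  have hdepW : ∀ y, DependsOn (fun η : Env d => W (sh t y η)) (Pa d t)ᶜ := by
    intro y η η' hη
    show W (sh t y η) = W (sh t y η')
    rw [hW]
    unfold wt62
    congr 1
    refine Finset.sum_congr rfl fun p hp => ?_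
    have h1 : (sh t y η ∈ L p) = (sh t y η' ∈ L p) := hdep p hp y hη
    by_cases h2 : sh t y η ∈ L p
    · have h3 : sh t y η' ∈ L p := h1 ▸ h2
      rw [Set.indicator_of_mem h2, Set.indicator_of_mem h3]
    · have h3 : sh t y η' ∉ L p := fun h4 => h2 (h1.symm ▸ h4)
      rw [Set.indicator_of_notMem h2, Set.indicator_of_notMem h3]
  have hmass := B62.massW62 (ρ := ρ) hd (β := β) (h := h) ht R hN hWm hW0 hWK hdepW
  have hE : ∫ η, W η ^ 2 ∂P ≤ (1 + C) ^ s.card := by
    simp only [hW2]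
    exact (exp62 s hL ha hC hI).2
  have hN0 : 0 ≤ N := (Nat.cast_nonneg _).trans hN
  have hS0 : 0 ≤ St ρ β h n t := integral_nonneg fun η => Finset.sum_nonneg fun y _ => sq_nonneg _
  set A := Real.sqrt ((1 + C) ^ s.card * N * St ρ β h n t) with hA
  have hA0 : 0 ≤ A := Real.sqrt_nonneg _
  have hmA : ∫ η, ∑ y ∈ R, Qt β h n t y η * W (sh t y η) ∂P ≤ A := by
    refine hmass.trans (Real.sqrt_le_sqrt ?_)
    gcongr
  have hlog : ∀ η, Real.log (W η) = (1 / 2) * ∑ p ∈ s, a p * (L p).indicator (fun _ => (1 : ℝ)) η := by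
    intro η
    rw [hW]
    unfold wt62
    rw [Real.log_exp, Finset.mul_sum]
    refine Finset.sum_congr rfl fun p _ => ?_
    simp only [hb]
    ring
  -- the pointwise inequality
  have hpt : ∀ η, ∑ y ∈ R, Qt β h n t y η *
      ∑ p ∈ s, a p * (L p).indicator (fun _ => (1 : ℝ)) (sh t y η) ≤
      2 * (Real.log (1 + A) + (1 + ∑ y ∈ R, Qt β h n t y η * W (sh t y η)) / (1 + A) - 1) := by
    intro η
    have h1 := B62.jen62 R (fun y => Qt β h n t y η) (fun y => W (sh t y η))
      (fun y _ => Qt_nonneg hd β h n t y η) (B62.sumR62 hd β h ht R η) (fun y _ => hW1 _)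
      (show (1 : ℝ) ≤ 1 + A by linarith)
    simp only [hlog] at h1
    have h2 : ∑ y ∈ R, Qt β h n t y η *
        ∑ p ∈ s, a p * (L p).indicator (fun _ => (1 : ℝ)) (sh t y η) =
        2 * ∑ y ∈ R, Qt β h n t y η *
          (1 / 2 * ∑ p ∈ s, a p * (L p).indicator (fun _ => (1 : ℝ)) (sh t y η)) := by
      rw [Finset.mul_sum]
      refine Finset.sum_congr rfl fun y _ => ?_
      ring
    rw [h2]
    linarith
  have iW : Integrable (fun η => ∑ y ∈ R, Qt β h n t y η * W (sh t y η)) P := by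
    refine integrable_finsetSum _ fun y _ => ?_
    refine Integrable.mono' (integrable_const (1 * K)) ((measurable_Qt β h n t y).mul
      (hWm.comp (measurable_sh t y))).aestronglyMeasurable (Eventually.of_forall fun η => ?_)
    have h3 := Qt_nonneg hd β h n t y η
    rw [Real.norm_eq_abs, abs_of_nonneg (mul_nonneg h3 (hW0 _))]
    exact mul_le_mul (Qt_le_one hd β h ht y η) (hWK _) (hW0 _) zero_le_one
  have iR : Integrable (fun η => 2 * (Real.log (1 + A) +
      (1 + ∑ y ∈ R, Qt β h n t y η * W (sh t y η)) / (1 + A) - 1)) P := by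
    have j1 : Integrable (fun η => (1 + ∑ y ∈ R, Qt β h n t y η * W (sh t y η)) / (1 + A)) P :=
      ((integrable_const (1 : ℝ)).add iW).div_const _
    exact (((integrable_const _).add j1).sub (integrable_const 1)).const_mul 2
  have iL : Integrable (fun η => ∑ y ∈ R, Qt β h n t y η *
      ∑ p ∈ s, a p * (L p).indicator (fun _ => (1 : ℝ)) (sh t y η)) P := by
    refine integrable_finsetSum _ fun y _ => ?_
    have hm : Measurable fun η : Env d =>
        ∑ p ∈ s, a p * (L p).indicator (fun _ => (1 : ℝ)) (sh t y η) := by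
      refine Finset.measurable_sum _ fun p hp => ?_
      exact ((measurable_const.indicator (hL p hp)).comp (measurable_sh t y)).const_mul _
    refine Integrable.mono' (integrable_const (1 * ∑ p ∈ s, a p)) ((measurable_Qt β h n t y).mul
      hm).aestronglyMeasurable (Eventually.of_forall fun η => ?_)
    have h3 := Qt_nonneg hd β h n t y η
    have h4 : 0 ≤ ∑ p ∈ s, a p * (L p).indicator (fun _ => (1 : ℝ)) (sh t y η) :=
      Finset.sum_nonneg fun p hp => mul_nonneg (ha p hp) (hind p _)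
    have h5 : ∑ p ∈ s, a p * (L p).indicator (fun _ => (1 : ℝ)) (sh t y η) ≤ ∑ p ∈ s, a p :=
      Finset.sum_le_sum fun p hp => mul_le_of_le_one_right (ha p hp) (hind1 p _)
    rw [Real.norm_eq_abs, abs_of_nonneg (mul_nonneg h3 h4)]
    exact mul_le_mul (Qt_le_one hd β h ht y η) h5 h4 zero_le_one
  refine (integral_mono iL iR hpt).trans ?_
  have j1 : Integrable (fun η => (1 + ∑ y ∈ R, Qt β h n t y η * W (sh t y η)) / (1 + A)) P :=
    ((integrable_const (1 : ℝ)).add iW).div_const _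
  have j2 : Integrable (fun η => Real.log (1 + A) +
      (1 + ∑ y ∈ R, Qt β h n t y η * W (sh t y η)) / (1 + A)) P := (integrable_const _).add j1
  rw [integral_const_mul, integral_sub j2 (integrable_const 1), integral_add (integrable_const _) j1,
    integral_div, integral_add (integrable_const 1) iW]
  simp only [integral_const, probReal_univ, smul_eq_mul, one_mul]
  have h6 : (1 + ∫ η, ∑ y ∈ R, Qt β h n t y η * W (sh t y η) ∂P) / (1 + A) ≤ 1 := by
    rw [div_le_one (by linarith)]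
    linarith
  linarith

end Pool.Agent.W_7d29a1_PL
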