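import Pool.Agent.W_7d29a1_PL.DefsPL
import Pool.Agent.W_7d29a1_PL.Bud62
import Pool.Agent.W_7d29a1_SP.Lk96

/-!
The budget at a good point (helper67).
-/

namespace Pool.Agent.W_7d29a1_PL

open MeasureTheory ProbabilityTheory Filter Topology Pool.Agent.W_MP_7d29a1_pr
  Pool.Agent.W_7d29a1_h46 Pool.Agent.W_7d29a1_h46u Pool.Agent.W_7d29a1_D2.B35
  Pool.Agent.W_7d29a1_Q29 Pool.Agent.W_7d29a1_R34 Pool.Agent.W_7d29a1_SP

namespace B67

variable {d : ℕ} {ρ : Measure ℝ}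

lemma kp_mono {Q c : ℝ} (hQ : 0 ≤ Q) (hc : 0 ≤ c) {a b : ℕ} (hab : a ≤ b) :
    kp Q c a ≤ kp Q c b := by
  unfold kp
  exact mul_le_mul_of_nonneg_left
    (Real.rpow_le_rpow (Nat.cast_nonneg a) (by exact_mod_cast hab) hc) hQ

/-- The mean mass of an event is at most one. -/
lemma us_le_one [IsProbabilityMeasure ρ] (hd : 0 < d) {β : ℝ} {h : Vec d} {n t : ℕ} (ht : t ≤ n)
    {B : Set (Env d)} (hB : MeasurableSet B) : us ρ β h n t B ≤ 1 := by
  have h1 : ∀ η : Env d, ∑ y ∈ boxF d t, Qt β h n t y η *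
      B.indicator (fun _ => (1 : ℝ)) (sh t y η) ≤ 1 := by
    intro η
    refine le_trans (Finset.sum_le_sum fun y _ => mul_le_of_le_one_right
      (S98.Qt_nonneg hd β h n t y η) (Set.indicator_le_self' (fun _ _ => zero_le_one) _)) ?_
    exact (S98.Qt_sum hd β h ht η).le
  have hi : Integrable (fun η : Env d => ∑ y ∈ boxF d t, Qt β h n t y η *
      B.indicator (fun _ => (1 : ℝ)) (sh t y η)) (law d ρ) := by
    refine integrable_finsetSum _ fun y _ => ?_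
    refine Integrable.mono' (integrable_const (1 : ℝ)) ((S98.measurable_Qt β h n t y).mul
      ((measurable_const.indicator hB).comp (measurable_sh t y))).aestronglyMeasurable
      (Eventually.of_forall fun η => ?_)
    have h2 : 0 ≤ B.indicator (fun _ => (1 : ℝ)) (sh t y η) :=
      Set.indicator_nonneg (fun _ _ => zero_le_one) _
    have h3 : B.indicator (fun _ => (1 : ℝ)) (sh t y η) ≤ 1 :=
      Set.indicator_le_self' (fun _ _ => zero_le_one) _
    rw [Real.norm_eq_abs, abs_of_nonneg (mul_nonneg (S98.Qt_nonneg hd β h n t y η) h2)]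
    exact mul_le_one₀ (S98.Qt_le_one hd β h ht y η) h2 h3
  unfold us
  refine (integral_mono hi (integrable_const (1 : ℝ)) h1).trans (le_of_eq ?_)
  simp

/-- The budget at one time. -/
theorem one67 [IsProbabilityMeasure ρ] (hd : 0 < d) {β : ℝ} {h : Vec d} {n t : ℕ} (ht : t ≤ n)
    {R : Finset (Site d)} (hR : R ⊆ boxF d t) {N l : ℝ} (hN : (R.card : ℝ) ≤ N)
    (hl : ∫ η, (1 - ∑ y ∈ R, Qt β h n t y η) ∂(law d ρ) ≤ l)
    (I : Finset ℕ) (B : ℕ → Set (Env d)) (θ : ℕ → ℝ) {D : ℝ}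
    (hB : ∀ p ∈ I, MeasurableSet (B p) ∧ DependsOn (fun η => η ∈ B p) {q | 1 ≤ q.1} ∧ 0 ≤ θ p)
    (hJ : ∀ J : Finset ℕ, J ⊆ I → (law d ρ).real (⋂ p ∈ J, B p) ≤
      Real.exp (D * J.card - ∑ p ∈ J, θ p)) :
    ∑ p ∈ I, θ p * us ρ β h n t (B p) ≤
      2 * Real.log (1 + Real.sqrt ((1 + Real.exp D) ^ I.card * N * St ρ β h n t)) +
        l * ∑ p ∈ I, θ p := by
  classical
  obtain ⟨Θ, hΘ⟩ : ∃ Θ, Θ = ∑ p ∈ I, θ p := ⟨_, rfl⟩
  have hθ0 : ∀ p ∈ I, 0 ≤ θ p := fun p hp => (hB p hp).2.2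
  have hΘ0 : 0 ≤ Θ := hΘ ▸ Finset.sum_nonneg hθ0
  set w : Env d → ℝ := fun η => ∑ p ∈ I, θ p * (B p).indicator (fun _ => (1 : ℝ)) η with hw
  have hwm : Measurable w := Finset.measurable_sum _ fun p hp =>
    (measurable_const.indicator (hB p hp).1).const_mul _
  have hw0 : ∀ η, 0 ≤ w η := fun η => Finset.sum_nonneg fun p hp =>
    mul_nonneg (hθ0 p hp) (Set.indicator_nonneg (fun _ _ => zero_le_one) _)
  have hw1 : ∀ η, w η ≤ Θ := fun η => by
    rw [hΘ]
    exact Finset.sum_le_sum fun p hp => mul_le_of_le_one_right (hθ0 p hp)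
      (Set.indicator_le_self' (fun _ _ => zero_le_one) _)
  have hQw : ∀ y, Integrable (fun η => Qt β h n t y η * w (sh t y η)) (law d ρ) := by
    intro y
    refine Integrable.mono' (integrable_const Θ) ((S98.measurable_Qt β h n t y).mul
      (hwm.comp (measurable_sh t y))).aestronglyMeasurable (Eventually.of_forall fun η => ?_)
    have h1 := S98.Qt_nonneg hd β h n t y η
    rw [Real.norm_eq_abs, abs_of_nonneg (mul_nonneg h1 (hw0 _))]
    calc Qt β h n t y η * w (sh t y η) ≤ 1 * Θ :=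
          mul_le_mul (S98.Qt_le_one hd β h ht y η) (hw1 _) (hw0 _) zero_le_one
      _ = Θ := one_mul Θ
  have hQi : ∀ y, Integrable (fun η => Qt β h n t y η) (law d ρ) := fun y =>
    Integrable.mono' (integrable_const (1 : ℝ)) (S98.measurable_Qt β h n t y).aestronglyMeasurable
      (Eventually.of_forall fun η => by
        rw [Real.norm_eq_abs]
        exact S98.Qt_abs hd β h ht y η)
  have hQB : ∀ p ∈ I, ∀ y, Integrable (fun η => Qt β h n t y η *
      (B p).indicator (fun _ => (1 : ℝ)) (sh t y η)) (law d ρ) := by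
    intro p hp y
    refine Integrable.mono' (integrable_const (1 : ℝ)) ((S98.measurable_Qt β h n t y).mul
      ((measurable_const.indicator (hB p hp).1).comp (measurable_sh t y))).aestronglyMeasurable
      (Eventually.of_forall fun η => ?_)
    have h2 : 0 ≤ (B p).indicator (fun _ => (1 : ℝ)) (sh t y η) :=
      Set.indicator_nonneg (fun _ _ => zero_le_one) _
    have h3 : (B p).indicator (fun _ => (1 : ℝ)) (sh t y η) ≤ 1 :=
      Set.indicator_le_self' (fun _ _ => zero_le_one) _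
    rw [Real.norm_eq_abs, abs_of_nonneg (mul_nonneg (S98.Qt_nonneg hd β h n t y η) h2)]
    exact mul_le_one₀ (S98.Qt_le_one hd β h ht y η) h2 h3
  -- the sum of the masses
  have e1 : ∑ p ∈ I, θ p * us ρ β h n t (B p) =
      ∫ η, ∑ y ∈ boxF d t, Qt β h n t y η * w (sh t y η) ∂(law d ρ) := by
    have h1 : ∀ p ∈ I, θ p * us ρ β h n t (B p) = ∫ η, θ p * ∑ y ∈ boxF d t, Qt β h n t y η *
        (B p).indicator (fun _ => (1 : ℝ)) (sh t y η) ∂(law d ρ) := by
      intro p _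
      rw [integral_const_mul]
      rfl
    rw [Finset.sum_congr rfl h1, ← integral_finsetSum I fun p hp =>
      (integrable_finsetSum _ fun y _ => hQB p hp y).const_mul (θ p)]
    refine integral_congr_ae (Eventually.of_forall fun η => ?_)
    show ∑ p ∈ I, θ p * ∑ y ∈ boxF d t, Qt β h n t y η *
      (B p).indicator (fun _ => (1 : ℝ)) (sh t y η) = ∑ y ∈ boxF d t, Qt β h n t y η * w (sh t y η)
    simp only [hw, Finset.mul_sum]
    rw [Finset.sum_comm]
    refine Finset.sum_congr rfl fun y _ => Finset.sum_congr rfl fun p _ => ?_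
    ring
  -- inside and outside
  have hpt : ∀ η, ∑ y ∈ boxF d t, Qt β h n t y η * w (sh t y η) ≤
      ∑ y ∈ R, Qt β h n t y η * w (sh t y η) + (1 - ∑ y ∈ R, Qt β h n t y η) * Θ := by
    intro η
    rw [← Finset.sum_sdiff hR, add_comm]
    refine add_le_add le_rfl ?_
    have h1 : 1 - ∑ y ∈ R, Qt β h n t y η = ∑ y ∈ boxF d t \ R, Qt β h n t y η := by
      rw [← S98.Qt_sum hd β h ht η, ← Finset.sum_sdiff hR]
      ring
    rw [h1, Finset.sum_mul]
    exact Finset.sum_le_sum fun y _ =>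
      mul_le_mul_of_nonneg_left (hw1 _) (S98.Qt_nonneg hd β h n t y η)
  have iR : Integrable (fun η => ∑ y ∈ R, Qt β h n t y η * w (sh t y η)) (law d ρ) :=
    integrable_finsetSum _ fun y _ => hQw y
  have iO : Integrable (fun η => (1 - ∑ y ∈ R, Qt β h n t y η) * Θ) (law d ρ) :=
    ((integrable_const (1 : ℝ)).sub (integrable_finsetSum _ fun y _ => hQi y)).mul_const Θ
  have h2 : ∑ p ∈ I, θ p * us ρ β h n t (B p) ≤
      ∫ η, ∑ y ∈ R, Qt β h n t y η * w (sh t y η) ∂(law d ρ) +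
        (∫ η, (1 - ∑ y ∈ R, Qt β h n t y η) ∂(law d ρ)) * Θ := by
    rw [e1, ← integral_mul_const, ← integral_add iR iO]
    exact integral_mono (integrable_finsetSum _ fun y _ => hQw y) (iR.add iO) hpt
  have h3 := bud62 (ρ := ρ) hd (β := β) (h := h) ht R hN I (L := B)
    (fun p hp => (hB p hp).1) (a := θ) hθ0 (C := Real.exp D) (Real.exp_pos D).le ?_ ?_
  · rw [← hΘ]
    have h4 := mul_le_mul_of_nonneg_right hl hΘ0
    linarith
  · intro J hJI
    refine (hJ J hJI).trans (le_of_eq ?_)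
    rw [Finset.prod_mul_distrib, Finset.prod_const, ← Real.exp_sum, ← Real.exp_nat_mul,
      ← Real.exp_add, Finset.sum_neg_distrib]
    congr 1
    ring
  · intro p hp y η η' hη
    show (sh t y η ∈ B p) = (sh t y η' ∈ B p)
    refine (hB p hp).2.1 fun q hq => ?_
    have hq1 : 1 ≤ q.1 := hq
    refine hη _ ?_
    intro h2
    simp only [Pa, Set.mem_setOf_eq] at h2
    omega

/-- The numbers of the logarithm. -/
lemma log67 {D Y : ℝ} (hD : 0 ≤ D) (hY : 0 ≤ Y) (k : ℕ) :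
    2 * Real.log (1 + Real.sqrt ((1 + Real.exp D) ^ k * Y)) ≤
      (D + 1) * k + Real.log (2 + 2 * Y) := by
  have hE0 := Real.exp_pos D
  have hE1 : 1 ≤ (1 + Real.exp D) ^ k := one_le_pow₀ (by linarith)
  obtain ⟨a, ha⟩ : ∃ a, a = Real.sqrt ((1 + Real.exp D) ^ k * Y) := ⟨_, rfl⟩
  have ha0 : 0 ≤ a := by
    rw [ha]
    exact Real.sqrt_nonneg _
  have ha2 : a ^ 2 = (1 + Real.exp D) ^ k * Y := by
    rw [ha]
    exact Real.sq_sqrt (by positivity)
  rw [← ha]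
  have h1 : 2 * Real.log (1 + a) = Real.log ((1 + a) ^ 2) := by
    rw [Real.log_pow]
    norm_num
  have h2 : (1 + a) ^ 2 ≤ (1 + Real.exp D) ^ k * (2 + 2 * Y) := by
    have h3 : (1 + a) ^ 2 ≤ 2 + 2 * a ^ 2 := by nlinarith [sq_nonneg (1 - a)]
    rw [ha2] at h3
    nlinarith
  have h3 : Real.log (1 + Real.exp D) ≤ D + 1 := by
    have h4 : 1 + Real.exp D ≤ 2 * Real.exp D := by
      have := Real.one_le_exp hD
      linarith
    have h5 : 2 * Real.exp D ≤ Real.exp (D + 1) := by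
      rw [Real.exp_add]
      have h6 := Real.add_one_le_exp (1 : ℝ)
      nlinarith
    have h7 := Real.log_le_log (by positivity) (h4.trans h5)
    rwa [Real.log_exp] at h7
  rw [h1]
  refine (Real.log_le_log (by positivity) h2).trans ?_
  rw [Real.log_mul (by positivity) (by positivity), Real.log_pow]
  have h4 : (k : ℝ) * Real.log (1 + Real.exp D) ≤ k * (D + 1) :=
    mul_le_mul_of_nonneg_left h3 (Nat.cast_nonneg k)
  linarith

/-- The window is small for large `n`, and its logarithm is at most `10 c log n`. -/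
lemma num67 {C C₁ Q c δ : ℝ} (hC : 1 ≤ C) (hC₁ : 1 ≤ C₁) (hQ : 1 ≤ Q) (hc : 0 < c)
    (hc1 : c ≤ 1 / 16) (hδ : 0 < δ) : ∃ n₀ : ℕ, 1000 ≤ n₀ ∧ ∀ n : ℕ, n₀ ≤ n →
      C₁ * (kp Q c n + Real.sqrt ((n : ℝ) ^ (8 * c))) ≤ δ * Real.sqrt ((n : ℝ) / 10) ∧
      Real.log (2 + 2 * (3600 * C * kp Q c n *
        (C₁ * (kp Q c n + Real.sqrt ((n : ℝ) ^ (8 * c)))) ^ 2)) ≤ 10 * (c * Real.log n) := by
  obtain ⟨G, hG⟩ : ∃ G, G = 2 + 7200 * C * Q * (C₁ * (Q + 1)) ^ 2 := ⟨_, rfl⟩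
  have hG0 : 1 ≤ G := by
    rw [hG]
    have : 0 ≤ 7200 * C * Q * (C₁ * (Q + 1)) ^ 2 := by positivity
    linarith
  -- two limits
  have l1 : Tendsto (fun n : ℕ => (n : ℝ) ^ (1 / 4 : ℝ)) atTop atTop :=
    (tendsto_rpow_atTop (by norm_num : (0 : ℝ) < 1 / 4)).comp tendsto_natCast_atTop_atTop
  have l2 : Tendsto (fun n : ℕ => c * Real.log (n : ℝ)) atTop atTop :=
    (Real.tendsto_log_atTop.comp tendsto_natCast_atTop_atTop).const_mul_atTop hc
  obtain ⟨n₁, hn₁⟩ := eventually_atTop.1 ((l1.eventually_ge_atTop (4 * C₁ * (Q + 1) / δ)).and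
    (l2.eventually_ge_atTop (Real.log G)))
  refine ⟨max 1000 n₁, le_max_left _ _, fun n hn => ?_⟩
  obtain ⟨h1, h2⟩ := hn₁ n (le_trans (le_max_right _ _) hn)
  have hn1000 : 1000 ≤ n := le_trans (le_max_left _ _) hn
  have hn1 : (1 : ℝ) ≤ n := by exact_mod_cast (by omega : 1 ≤ n)
  have hn0 : (0 : ℝ) < n := by linarith
  have hsq : Real.sqrt ((n : ℝ) ^ (8 * c)) = (n : ℝ) ^ (4 * c) := by
    rw [Real.sqrt_eq_rpow, ← Real.rpow_mul hn0.le]
    congr 1
    ring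
  have hkp : kp Q c n ≤ Q * (n : ℝ) ^ (4 * c) := by
    unfold kp
    exact mul_le_mul_of_nonneg_left (Real.rpow_le_rpow_of_exponent_le hn1 (by linarith))
      (by linarith)
  have hkp0 : 0 ≤ kp Q c n := by
    unfold kp
    positivity
  have hp0 : 0 < (n : ℝ) ^ (4 * c) := by positivity
  have hW : C₁ * (kp Q c n + Real.sqrt ((n : ℝ) ^ (8 * c))) ≤
      C₁ * (Q + 1) * (n : ℝ) ^ (4 * c) := by
    rw [hsq]
    have h3 : kp Q c n + (n : ℝ) ^ (4 * c) ≤ (Q + 1) * (n : ℝ) ^ (4 * c) := by linarith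
    calc C₁ * (kp Q c n + (n : ℝ) ^ (4 * c)) ≤ C₁ * ((Q + 1) * (n : ℝ) ^ (4 * c)) :=
          mul_le_mul_of_nonneg_left h3 (by linarith)
      _ = C₁ * (Q + 1) * (n : ℝ) ^ (4 * c) := by ring
  have hW0 : 0 ≤ C₁ * (kp Q c n + Real.sqrt ((n : ℝ) ^ (8 * c))) := by
    have := Real.sqrt_nonneg ((n : ℝ) ^ (8 * c))
    positivity
  constructor
  · refine hW.trans ?_
    have h3 : (n : ℝ) ^ (4 * c) ≤ (n : ℝ) ^ (1 / 4 : ℝ) :=
      Real.rpow_le_rpow_of_exponent_le hn1 (by linarith)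
    have h4 : (n : ℝ) ^ (1 / 4 : ℝ) * (n : ℝ) ^ (1 / 4 : ℝ) = Real.sqrt n := by
      rw [← Real.rpow_add hn0, Real.sqrt_eq_rpow]
      norm_num
    have h5 : Real.sqrt n / 4 ≤ Real.sqrt ((n : ℝ) / 10) := by
      refine Real.le_sqrt_of_sq_le ?_
      rw [div_pow, Real.sq_sqrt hn0.le]
      linarith
    have h6 : 4 * C₁ * (Q + 1) ≤ (n : ℝ) ^ (1 / 4 : ℝ) * δ := by
      rwa [div_le_iff₀ hδ] at h1
    have hq0 : 0 < (n : ℝ) ^ (1 / 4 : ℝ) := by positivity
    calc C₁ * (Q + 1) * (n : ℝ) ^ (4 * c) ≤ C₁ * (Q + 1) * (n : ℝ) ^ (1 / 4 : ℝ) :=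
          mul_le_mul_of_nonneg_left h3 (by positivity)
      _ ≤ ((n : ℝ) ^ (1 / 4 : ℝ) * δ / 4) * (n : ℝ) ^ (1 / 4 : ℝ) :=
          mul_le_mul_of_nonneg_right (by linarith) hq0.le
      _ = δ * (((n : ℝ) ^ (1 / 4 : ℝ) * (n : ℝ) ^ (1 / 4 : ℝ)) / 4) := by ring
      _ = δ * (Real.sqrt n / 4) := by rw [h4]
      _ ≤ δ * Real.sqrt ((n : ℝ) / 10) := mul_le_mul_of_nonneg_left h5 hδ.le
  · have h3 : 2 + 2 * (3600 * C * kp Q c n *
        (C₁ * (kp Q c n + Real.sqrt ((n : ℝ) ^ (8 * c)))) ^ 2) ≤ G * (n : ℝ) ^ (9 * c) := by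
      have e1 : (n : ℝ) ^ (9 * c) = (n : ℝ) ^ c * ((n : ℝ) ^ (4 * c)) ^ 2 := by
        rw [← Real.rpow_natCast, ← Real.rpow_mul hn0.le, ← Real.rpow_add hn0]
        congr 1
        push_cast
        ring
      have e2 : 1 ≤ (n : ℝ) ^ (9 * c) := Real.one_le_rpow hn1 (by linarith)
      have e3 : (C₁ * (kp Q c n + Real.sqrt ((n : ℝ) ^ (8 * c)))) ^ 2 ≤
          (C₁ * (Q + 1) * (n : ℝ) ^ (4 * c)) ^ 2 := pow_le_pow_left₀ hW0 hW 2
      have e4 : 3600 * C * kp Q c n *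
          (C₁ * (kp Q c n + Real.sqrt ((n : ℝ) ^ (8 * c)))) ^ 2 ≤
          3600 * C * kp Q c n * (C₁ * (Q + 1) * (n : ℝ) ^ (4 * c)) ^ 2 :=
        mul_le_mul_of_nonneg_left e3 (by positivity)
      have e5 : 3600 * C * kp Q c n * (C₁ * (Q + 1) * (n : ℝ) ^ (4 * c)) ^ 2 =
          3600 * C * Q * (C₁ * (Q + 1)) ^ 2 * (n : ℝ) ^ (9 * c) := by
        rw [e1]
        unfold kp
        ring
      rw [hG]
      nlinarith
    have h4 : Real.log (G * (n : ℝ) ^ (9 * c)) = Real.log G + 9 * (c * Real.log n) := by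
      rw [Real.log_mul (by positivity) (by positivity), Real.log_rpow hn0]
      ring
    have h5 : 0 < 2 + 2 * (3600 * C * kp Q c n *
        (C₁ * (kp Q c n + Real.sqrt ((n : ℝ) ^ (8 * c)))) ^ 2) := by positivity
    refine (Real.log_le_log h5 h3).trans ?_
    rw [h4]
    linarith

end B67

open B67 in
/-- **BUD.** The budget at a good point. -/
theorem budP67 {ρ : Measure ℝ} [IsProbabilityMeasure ρ] (hρ : EM ρ) {β : ℝ} (hL : LeakR ρ β)
    (hNP : NPB 2 ρ β) (hBet : BetQ ρ β) : BudP ρ β := by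
  classical
  intro g₀ M hg₀ hM
  obtain ⟨C₀, hC₀, hNP⟩ := hNP
  obtain ⟨cB, hcB, hBet⟩ := hBet g₀ M hg₀ hM
  obtain ⟨C, hCdef⟩ : ∃ C, C = C₀ + 1 := ⟨_, rfl⟩
  have hC : 1 ≤ C := by linarith
  obtain ⟨M', hM'⟩ : ∃ M', M' = 8 * M + 8 := ⟨_, rfl⟩
  have hM1 : 1 ≤ M' := by linarith
  obtain ⟨C₁, hC₁⟩ : ∃ C₁, C₁ = 8 * M' + 240000 * M' * Real.sqrt (200 * C) + 50 * M' := ⟨_, rfl⟩
  have hr0 : 0 ≤ M' * Real.sqrt (200 * C) := by positivity
  have hC11 : 1 ≤ C₁ := by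
    rw [hC₁]
    nlinarith
  have hC18 : 8 * M' ≤ C₁ := by
    rw [hC₁]
    nlinarith
  refine ⟨min cB (1 / 16), 10, lt_min hcB (by norm_num), by norm_num, ?_⟩
  intro h δ Q c R hδ hQ hc hc1 P
  have hcB1 : c ≤ cB := hc1.trans (min_le_left _ _)
  have hc16 : c ≤ 1 / 16 := hc1.trans (min_le_right _ _)
  obtain ⟨nB, hnB⟩ := hBet h δ Q c R hδ hQ hc hcB1 P
  obtain ⟨δ', hδ'⟩ : ∃ δ', δ' = min δ 1 / 2 := ⟨_, rfl⟩
  have hδ'0 : 0 < δ' := by
    rw [hδ']
    exact half_pos (lt_min hδ one_pos)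
  have hδ'1 : δ' ≤ 1 := by
    rw [hδ']
    have := min_le_right δ 1
    linarith
  have hδ'2 : 2 * δ' ≤ δ := by
    rw [hδ']
    have := min_le_left δ 1
    linarith
  obtain ⟨n₁, hn₁, hnum⟩ := num67 (C := C) (C₁ := C₁) (Q := Q) (c := c) (δ := δ' ^ 4) hC hC11 hQ
    hc hc16 (by positivity)
  refine ⟨max nB n₁, fun n hn => ?_⟩
  have hnB' : nB ≤ n := (le_max_left _ _).trans hn
  have hn1' : n₁ ≤ n := (le_max_right _ _).trans hn
  have hn1000 : 1000 ≤ n := hn₁.trans hn1'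
  have hnR : (1000 : ℝ) ≤ n := by exact_mod_cast hn1000
  have hn0 : (0 : ℝ) < n := by linarith
  obtain ⟨hwin, hlogn⟩ := hnum n hn1'
  obtain ⟨K, hK⟩ : ∃ K, K = kp Q c n := ⟨_, rfl⟩
  obtain ⟨e, he⟩ : ∃ e, e = (n : ℝ) ^ (8 * c) := ⟨_, rfl⟩
  obtain ⟨W, hW⟩ : ∃ W, W = C₁ * (K + Real.sqrt e) := ⟨_, rfl⟩
  rw [← hK, ← he, ← hW] at hwin hlogn
  have hK1 : 1 ≤ K := by
    rw [hK]
    unfold kp
    have h1 : 1 ≤ (n : ℝ) ^ c := Real.one_le_rpow (by linarith) hc.le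
    nlinarith
  have he0 : 0 ≤ e := by
    rw [he]
    positivity
  have hse := Real.sqrt_nonneg e
  have hWK : C₁ * K ≤ W := by
    rw [hW]
    nlinarith
  have hWe : 8 * M' * Real.sqrt e ≤ W := by
    rw [hW]
    nlinarith
  have hW1 : 1 ≤ W := by nlinarith
  have hW0 : 0 < W := by linarith
  have hkK : ∀ t : ℕ, t ≤ n → kp Q c t ≤ K := by
    intro t ht
    rw [hK]
    exact kp_mono (by linarith) hc.le ht
  have hVa : ∀ t : ℕ, t ≤ n → Va ρ β h t ≤ K := fun t ht => (P.var t).trans (hkK t ht)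
  intro I B θ D hB hD hJ
  obtain ⟨Θ, hΘ⟩ : ∃ Θ, Θ = ∑ p ∈ I, θ p := ⟨_, rfl⟩
  have hθ0 : ∀ p ∈ I, 0 ≤ θ p := fun p hp => (hB p hp).2.2
  have hΘ0 : 0 ≤ Θ := hΘ ▸ Finset.sum_nonneg hθ0
  have hSt0 : ∀ t : ℕ, 0 ≤ St ρ β h n t := fun t => by
    unfold St
    exact integral_nonneg fun η => Finset.sum_nonneg fun y _ => sq_nonneg _
  obtain ⟨x, hx⟩ : ∃ x, x = 200 * C * K / n := ⟨_, rfl⟩
  have hx0 : 0 < x := by
    rw [hx]
    positivity
  obtain ⟨V, hV⟩ : ∃ V, V = (D + 1) * I.card + 10 * (c * Real.log n) := ⟨_, rfl⟩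
  have hlog0 : 0 ≤ Real.log n := Real.log_nonneg (by linarith)
  have hV0 : 0 ≤ V := by
    rw [hV]
    positivity
  -- a good time
  have hgood : ∀ t ∈ Finset.range n, n ≤ 10 * t → St ρ β h n t ≤ x →
      ∑ p ∈ I, θ p * us ρ β h n t (B p) ≤ V + 1 / 8 * Θ := by
    intro t htr h10 hStx
    have htn : t ≤ n := (Finset.mem_range.1 htr).le
    have ht1 : 1 ≤ t := by omega
    have ht0 : (0 : ℝ) < t := by exact_mod_cast ht1
    have htn' : (t : ℝ) ≤ n := by exact_mod_cast htn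
    have h10' : (n : ℝ) / 10 ≤ t := by
      have : (n : ℝ) ≤ 10 * t := by exact_mod_cast h10
      linarith
    have hWt : W ≤ δ' ^ 4 * Real.sqrt t :=
      hwin.trans (mul_le_mul_of_nonneg_left (Real.sqrt_le_sqrt h10') (by positivity))
    obtain ⟨v, -, hv⟩ := sub94 (d := 2) (by norm_num) hρ β h t
    have hv' : ∀ g : Vec 2, A ρ β h t + inner ℝ v (g - h) ≤ A ρ β g t := by
      intro g
      have := hv (g - h)
      rwa [add_sub_cancel] at this
    have hdens : ∀ r : ℝ, 0 < r → r ≤ δ' → ∀ (j : Fin 2) (s : ℝ), (s = 1 ∨ s = -1) →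
        ∃ g : Vec 2, ‖g - h - (s * r) • ej j‖ ≤ r / 9 ∧ Va ρ β g t ≤ K := by
      intro r hr hrδ j s hs
      obtain ⟨g, hg1, hg2⟩ := P.dens t r hr (by linarith) j s hs
      exact ⟨g, hg1, hg2.trans (hkK t htn)⟩
    have hEt : En ρ β h t ≤ 2 * e := by
      have := hnB n t hnB' htn
      rw [← he] at this
      linarith
    have hsd := sd96 (ρ := ρ) hρ (β := β) (h := h) (M := M) hM.le hM' hδ'2 ht1 he0 hW0 hWe P.curv
      hEt
    have hleak := leakN96 (M := M') (K := K) (W := W) (t := t) (x := St ρ β h n t) (C := C)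
      (C₁ := C₁) (N := n) hM1 hK1 hC ht0 htn' (hSt0 t) (by rw [← hx]; exact hStx)
      (by rw [hC₁]; linarith) hWK
    have h1 := (hL M' K δ' W h v n t hM1 hK1 hδ'0 hδ'1 ht1 htn hW0 hWt (hVa n le_rfl)
      (hVa (n - t) (by omega)) hv' hdens hsd).trans hleak
    obtain ⟨Rr, hRdef⟩ : ∃ Rr, Rr = (boxF 2 t).filter
        (fun y => ∀ j, |(emb y - v) j| < W * Real.sqrt t) := ⟨_, rfl⟩
    rw [← hRdef] at h1
    have hR : Rr ⊆ boxF 2 t := by
      rw [hRdef]
      exact Finset.filter_subset _ _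
    have hst2 : Real.sqrt t ^ 2 = t := Real.sq_sqrt (Nat.cast_nonneg t)
    have hst0 : 0 ≤ Real.sqrt t := Real.sqrt_nonneg _
    have hw0 : 0 ≤ W * Real.sqrt t := mul_nonneg hW0.le hst0
    have hcard : (Rr.card : ℝ) ≤ 9 * (W ^ 2 * t + 1) := by
      have h2 : (Rr.card : ℝ) ≤ ((ballW v (W * Real.sqrt t)).card : ℝ) := by
        rw [hRdef]
        exact_mod_cast Finset.card_le_card (win_sub93 v t _)
      have h3 := card_ballW (d := 2) v (w := W * Real.sqrt t) hw0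
      have h4 : (2 * (W * Real.sqrt t) + 1) ^ 2 ≤ 9 * (W ^ 2 * t + 1) := by
        have h5 : (W * Real.sqrt t) ^ 2 = W ^ 2 * t := by rw [mul_pow, hst2]
        rw [← h5]
        nlinarith [sq_nonneg (W * Real.sqrt t - 1)]
      linarith
    have h2 := one67 (ρ := ρ) (d := 2) (by norm_num) (β := β) (h := h) htn hR hcard h1 I B θ
      (D := D) hB hJ
    rw [← hΘ] at h2
    have h3 := log67 (D := D) (Y := 9 * (W ^ 2 * t + 1) * St ρ β h n t) hD
      (mul_nonneg (by positivity) (hSt0 t)) I.card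
    rw [← mul_assoc] at h3
    have h4 : 9 * (W ^ 2 * t + 1) * St ρ β h n t ≤ 3600 * C * K * W ^ 2 := by
      have hW2 : 1 ≤ W ^ 2 := one_le_pow₀ hW1
      have h5 : W ^ 2 * t + 1 ≤ 2 * W ^ 2 * n := by nlinarith
      calc 9 * (W ^ 2 * t + 1) * St ρ β h n t ≤ 9 * (2 * W ^ 2 * n) * x :=
            mul_le_mul (by linarith) hStx (hSt0 t) (by positivity)
        _ = 3600 * C * K * W ^ 2 := by
            rw [hx]
            field_simp
            ring
    have h5 : Real.log (2 + 2 * (9 * (W ^ 2 * t + 1) * St ρ β h n t)) ≤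
        10 * (c * Real.log n) := by
      refine le_trans (Real.log_le_log ?_ (by linarith)) hlogn
      have : 0 ≤ 9 * (W ^ 2 * t + 1) * St ρ β h n t := mul_nonneg (by positivity) (hSt0 t)
      linarith
    rw [hV]
    linarith
  -- a bad time
  have hbad : ∀ t ∈ Finset.range n, ∑ p ∈ I, θ p * us ρ β h n t (B p) ≤ Θ := by
    intro t htr
    rw [hΘ]
    exact Finset.sum_le_sum fun p hp => mul_le_of_le_one_right (hθ0 p hp)
      (us_le_one (by norm_num) (Finset.mem_range.1 htr).le (hB p hp).1)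
  -- the bad times are few
  obtain ⟨T₁, hT₁⟩ : ∃ T₁, T₁ = (Finset.range n).filter (fun t => 10 * t < n) := ⟨_, rfl⟩
  obtain ⟨T₂, hT₂⟩ : ∃ T₂, T₂ = (Finset.range n).filter
    (fun t => 1 ≤ t ∧ x < St ρ β h n t) := ⟨_, rfl⟩
  have hc1' : (T₁.card : ℝ) ≤ n / 10 + 1 := by
    have h1 : T₁ ⊆ Finset.range (n / 10 + 1) := by
      intro t ht
      rw [hT₁, Finset.mem_filter] at ht
      rw [Finset.mem_range]
      omega
    have h2 := Finset.card_le_card h1
    rw [Finset.card_range] at h2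
    have h3 : ((n / 10 : ℕ) : ℝ) ≤ (n : ℝ) / 10 := by
      have := @Nat.cast_div_le ℝ _ _ _ n 10
      simpa using this
    have h4 : (T₁.card : ℝ) ≤ ((n / 10 + 1 : ℕ) : ℝ) := by exact_mod_cast h2
    rw [Nat.cast_add, Nat.cast_one] at h4
    linarith
  have hc2' : (T₂.card : ℝ) ≤ n / 200 := by
    have h1 : T₂.card * x ≤ ∑ t ∈ T₂, St ρ β h n t := by
      rw [← nsmul_eq_mul]
      refine Finset.card_nsmul_le_sum _ _ _ fun t ht => ?_
      rw [hT₂, Finset.mem_filter] at ht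
      exact ht.2.2.le
    have h2 : ∑ t ∈ T₂, St ρ β h n t ≤ ∑ t ∈ Finset.Icc 1 n, St ρ β h n t := by
      refine Finset.sum_le_sum_of_subset_of_nonneg ?_ fun t _ _ => hSt0 t
      intro t ht
      rw [hT₂, Finset.mem_filter, Finset.mem_range] at ht
      rw [Finset.mem_Icc]
      exact ⟨ht.2.1, ht.1.le⟩
    have h3 : ∑ t ∈ Finset.Icc 1 n, St ρ β h n t ≤ C₀ * Va ρ β h n := hNP h n
    have h4 : C₀ * Va ρ β h n ≤ C * K := by
      calc C₀ * Va ρ β h n ≤ C₀ * K := mul_le_mul_of_nonneg_left (hVa n le_rfl) hC₀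
        _ ≤ C * K := mul_le_mul_of_nonneg_right (by linarith) (by linarith)
    have h5 : (T₂.card : ℝ) * x ≤ C * K := by linarith
    have h6 : (n : ℝ) / 200 * x = C * K := by
      rw [hx]
      field_simp
    by_contra hcon
    push Not at hcon
    have h7 := mul_lt_mul_of_pos_right hcon hx0
    linarith
  obtain ⟨U, hU⟩ : ∃ U, U = V + 1 / 8 * Θ := ⟨_, rfl⟩
  rw [← hU] at hgood
  have hsum : ∑ t ∈ Finset.range n, ∑ p ∈ I, θ p * us ρ β h n t (B p) ≤
      ∑ t ∈ Finset.range n, (U + ((if t ∈ T₁ then Θ else 0) +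
        (if t ∈ T₂ then Θ else 0))) := by
    refine Finset.sum_le_sum fun t ht => ?_
    have h1 : 0 ≤ U := by
      rw [hU]
      positivity
    by_cases a1 : t ∈ T₁
    · have := hbad t ht
      rw [if_pos a1]
      split_ifs <;> linarith
    · by_cases a2 : t ∈ T₂
      · have := hbad t ht
        rw [if_neg a1, if_pos a2]
        linarith
      · rw [if_neg a1, if_neg a2]
        have b1 : n ≤ 10 * t := by
          by_contra hcon
          exact a1 (by rw [hT₁, Finset.mem_filter]; exact ⟨ht, not_le.1 hcon⟩)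
        have b2 : St ρ β h n t ≤ x := by
          by_contra hcon
          refine a2 ?_
          rw [hT₂, Finset.mem_filter]
          exact ⟨ht, by omega, not_le.1 hcon⟩
        have := hgood t ht b1 b2
        linarith
  have hind : ∀ T : Finset ℕ, T ⊆ Finset.range n →
      ∑ t ∈ Finset.range n, (if t ∈ T then Θ else 0) = T.card * Θ := by
    intro T hT
    rw [← Finset.sum_filter, Finset.sum_const, nsmul_eq_mul]
    congr 2
    congr 1
    ext t
    rw [Finset.mem_filter]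
    exact ⟨fun h => h.2, fun h => ⟨hT h, h⟩⟩
  rw [Finset.sum_add_distrib, Finset.sum_add_distrib, Finset.sum_const, Finset.card_range,
    nsmul_eq_mul, hind T₁ (by rw [hT₁]; exact Finset.filter_subset _ _),
    hind T₂ (by rw [hT₂]; exact Finset.filter_subset _ _)] at hsum
  have hfin : ∑ p ∈ I, θ p * ((∑ t ∈ Finset.range n, us ρ β h n t (B p)) / n - 3 / 10) =
      (∑ t ∈ Finset.range n, ∑ p ∈ I, θ p * us ρ β h n t (B p)) / n - 3 / 10 * Θ := by
    rw [Finset.sum_comm, Finset.sum_div, hΘ, Finset.mul_sum, ← Finset.sum_sub_distrib]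
    refine Finset.sum_congr rfl fun p _ => ?_
    rw [← Finset.mul_sum]
    ring
  rw [hfin]
  have h1 : (∑ t ∈ Finset.range n, ∑ p ∈ I, θ p * us ρ β h n t (B p)) / n ≤ V + 3 / 10 * Θ := by
    rw [div_le_iff₀ hn0]
    have h2 : (T₁.card : ℝ) * Θ ≤ (n / 10 + 1) * Θ := mul_le_mul_of_nonneg_right hc1' hΘ0
    have h3 : (T₂.card : ℝ) * Θ ≤ n / 200 * Θ := mul_le_mul_of_nonneg_right hc2' hΘ0
    have h4 : (1000 : ℝ) * Θ ≤ n * Θ := mul_le_mul_of_nonneg_right hnR hΘ0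
    rw [hU] at hsum
    nlinarith
  have h2 : V ≤ 10 * c * Real.log n + 10 * (D + 1) * I.card := by
    rw [hV]
    have : 0 ≤ (D + 1) * (I.card : ℝ) := by positivity
    nlinarith
  linarith

end Pool.Agent.W_7d29a1_PL
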