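import Pool.Agent.W_7d29a1_PL.DefsPL

/-!
Theorem PL, the point: the core at one tilt, the budget, the growth beyond the logarithm and the
upper bound of the nonrandom fluctuation contradict a power bound of the variance with a small
exponent (helper73).
-/

namespace Pool.Agent.W_7d29a1_PL

open MeasureTheory ProbabilityTheory Filter Topology Pool.Agent.W_MP_7d29a1_pr
  Pool.Agent.W_7d29a1_h46 Pool.Agent.W_7d29a1_h46u Pool.Agent.W_7d29a1_D2.B35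
  Pool.Agent.W_7d29a1_Q29 Pool.Agent.W_7d29a1_R34 Pool.Agent.W_7d29a1_SP

/-- The budget is monotone in the volume. -/
lemma bd_mono73 {d : ℕ} {ρ : Measure ℝ} {β : ℝ} {h : Vec d} {n : ℕ} {V V' C : ℝ} (hV : V ≤ V')
    (hB : Bd ρ β h n V C) : Bd ρ β h n V' C := by
  intro I B θ D h1 h2 h3
  have h4 := hB I B θ D h1 h2 h3
  linarith

/-- The constant of the power bound may be enlarged. -/
lemma pq_mono73 {ρ : Measure ℝ} {β : ℝ} {h : Vec 2} {g M δ Q Q' c R : ℝ} (hQ : Q ≤ Q')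
    (hP : Pq ρ β h g M δ Q c R) : Pq ρ β h g M δ Q' c R := by
  have hk : ∀ t : ℕ, kp Q c t ≤ kp Q' c t := fun t =>
    mul_le_mul_of_nonneg_right hQ (Real.rpow_nonneg (Nat.cast_nonneg t) c)
  refine ⟨hP.gap, hP.curv, fun t => (hP.var t).trans (hk t), ?_, hP.rate⟩
  intro t r h1 h2 j s hs
  obtain ⟨g', h3, h4⟩ := hP.dens t r h1 h2 j s hs
  exact ⟨g', h3, h4.trans (hk t)⟩

/-- The power bound at all the times up to `4 n`. -/
lemma pow_le73 {n : ℕ} {Q c c₂ : ℝ} (hc : 0 < c) (hc2 : c ≤ c₂ / 16) (hn : 4 ≤ n)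
    (hn2 : Q ≤ (n : ℝ) ^ (c₂ / 2)) {k : ℕ} (hk : k ≤ 4 * n) : kp Q c k ≤ (n : ℝ) ^ c₂ := by
  have hn' : (4 : ℝ) ≤ n := by exact_mod_cast hn
  have h1 : (1 : ℝ) ≤ n := by linarith
  have h0 : (0 : ℝ) < n := by linarith
  have hk' : (k : ℝ) ≤ (n : ℝ) ^ (2 : ℝ) := by
    have : (k : ℝ) ≤ 4 * n := by exact_mod_cast hk
    rw [Real.rpow_two]; nlinarith
  have h2 : (k : ℝ) ^ c ≤ (n : ℝ) ^ (c₂ / 2) := by
    calc (k : ℝ) ^ c ≤ ((n : ℝ) ^ (2 : ℝ)) ^ c :=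
          Real.rpow_le_rpow (Nat.cast_nonneg k) hk' hc.le
      _ = (n : ℝ) ^ (2 * c) := by rw [← Real.rpow_mul h0.le]
      _ ≤ (n : ℝ) ^ (c₂ / 2) := Real.rpow_le_rpow_of_exponent_le h1 (by linarith)
  calc kp Q c k = Q * (k : ℝ) ^ c := rfl
    _ ≤ (n : ℝ) ^ (c₂ / 2) * (n : ℝ) ^ (c₂ / 2) :=
        mul_le_mul hn2 h2 (Real.rpow_nonneg (Nat.cast_nonneg k) c) (Real.rpow_nonneg h0.le _)
    _ = (n : ℝ) ^ c₂ := by rw [← Real.rpow_add h0]; congr 1; ring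

/-- PNTQ: the main argument at a good point. -/
theorem pntQ73 {ρ : Measure ℝ} {β : ℝ} (hC : CorP 2 ρ β) (hB : BudP ρ β) (hL : LowQ ρ β)
    (hE : BetQ ρ β) : PntQ ρ β := by
  intro g M hg hM
  obtain ⟨cb, Cb, hcb, hCb, hB'⟩ := hB g M hg hM
  obtain ⟨cc, A, hcc, hC'⟩ := hC g Cb hg hCb
  obtain ⟨cl, hcl, hL'⟩ := hL g M (8 * A) hg hM
  obtain ⟨ce, hce, hE'⟩ := hE g M hg hM
  obtain ⟨c, hc0, hc1, hc2, hc3, hc4, hc5⟩ : ∃ c : ℝ, 0 < c ∧ c ≤ cb ∧ c ≤ cl ∧ c ≤ ce ∧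
      c ≤ cc / 16 ∧ Cb * c ≤ cc := by
    have h5 : 0 < cc / (Cb + 1) := div_pos hcc (by linarith)
    refine ⟨min cb (min cl (min ce (min (cc / 16) (cc / (Cb + 1))))), ?_, ?_, ?_, ?_, ?_, ?_⟩
    · exact lt_min hcb (lt_min hcl (lt_min hce (lt_min (by linarith) h5)))
    · exact min_le_left _ _
    · exact (min_le_right _ _).trans (min_le_left _ _)
    · exact (min_le_right _ _).trans ((min_le_right _ _).trans (min_le_left _ _))
    · exact (min_le_right _ _).trans ((min_le_right _ _).trans ((min_le_right _ _).trans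
        (min_le_left _ _)))
    · have h6 : min cb (min cl (min ce (min (cc / 16) (cc / (Cb + 1))))) ≤ cc / (Cb + 1) :=
        (min_le_right _ _).trans ((min_le_right _ _).trans ((min_le_right _ _).trans
          (min_le_right _ _)))
      calc Cb * min cb (min cl (min ce (min (cc / 16) (cc / (Cb + 1)))))
          ≤ Cb * (cc / (Cb + 1)) := mul_le_mul_of_nonneg_left h6 hCb
        _ ≤ (Cb + 1) * (cc / (Cb + 1)) := mul_le_mul_of_nonneg_right (by linarith) h5.le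
        _ = cc := by field_simp
  refine ⟨c, hc0, ?_⟩
  intro h δ Q R hδ hP0
  have hP : Pq ρ β h g M δ (max Q 1) c R := pq_mono73 (le_max_left Q 1) hP0
  have hQ1 : (1 : ℝ) ≤ max Q 1 := le_max_right Q 1
  obtain ⟨nb, hnb⟩ := hB' h δ (max Q 1) c R hδ hQ1 hc0 hc1 hP
  obtain ⟨nc, hnc⟩ := hC' h hP.gap
  obtain ⟨nl, hnl⟩ := hL' h δ (max Q 1) c R hδ hQ1 hc0 hc2 hP
  obtain ⟨ne, hne⟩ := hE' h δ (max Q 1) c R hδ hQ1 hc0 hc3 hP
  obtain ⟨nq, hnq⟩ : ∃ nq : ℕ, ∀ n : ℕ, nq ≤ n → max Q 1 ≤ (n : ℝ) ^ (cc / 2) := by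
    have h1 : Tendsto (fun n : ℕ => (n : ℝ) ^ (cc / 2)) atTop atTop :=
      (tendsto_rpow_atTop (by linarith)).comp tendsto_natCast_atTop_atTop
    obtain ⟨N, hN⟩ := eventually_atTop.1 (h1.eventually_ge_atTop (max Q 1))
    exact ⟨N, hN⟩
  obtain ⟨N, hN1, hN2, hN3, hN4, hN5, hN6⟩ : ∃ N : ℕ, nb ≤ N ∧ nc ≤ N ∧ nl ≤ N ∧ ne ≤ N ∧
      nq ≤ N ∧ 4 ≤ N := ⟨nb + nc + nl + ne + nq + 4, by omega, by omega, by omega, by omega,
        by omega, by omega⟩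
  have hNn : N ≤ N ^ 8 := Nat.le_self_pow (by norm_num) N
  obtain ⟨n, hn⟩ : ∃ n : ℕ, n = N ^ 8 := ⟨_, rfl⟩
  rw [← hn] at hNn
  have hn4 : 4 ≤ n := hN6.trans hNn
  have hn4' : (4 : ℝ) ≤ n := by exact_mod_cast hn4
  have hn1 : (1 : ℝ) ≤ n := by linarith
  have hn0 : (0 : ℝ) < n := by linarith
  have hlog : 0 ≤ Real.log n := Real.log_nonneg hn1
  refine hnc n (hN2.trans hNn) ?_ ?_ (bd_mono73 ?_ (hnb n (hN1.trans hNn)))
  · intro k hk
    refine ⟨(hP.var k).trans (pow_le73 hc0 hc4 hn4 (hnq n (hN5.trans hNn)) hk), ?_⟩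
    have h1 := hne (4 * n) k (by omega) hk
    refine h1.trans ?_
    have h2 : ((4 * n : ℕ) : ℝ) ≤ (n : ℝ) ^ (2 : ℝ) := by
      rw [Real.rpow_two]; push_cast; nlinarith
    calc ((4 * n : ℕ) : ℝ) ^ (8 * c) ≤ ((n : ℝ) ^ (2 : ℝ)) ^ (8 * c) :=
          Real.rpow_le_rpow (Nat.cast_nonneg _) h2 (by linarith)
      _ = (n : ℝ) ^ (2 * (8 * c)) := by rw [← Real.rpow_mul hn0.le]
      _ ≤ (n : ℝ) ^ cc := Real.rpow_le_rpow_of_exponent_le hn1 (by linarith)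
  · obtain ⟨k, hk, hk2⟩ := hnl N hN3
    refine ⟨k, ?_, ?_⟩
    · rw [hn]; exact Nat.pow_le_pow_left hk 8
    · have h3 : Real.log (n : ℝ) = 8 * Real.log (N : ℝ) := by
        rw [hn]; push_cast; rw [Real.log_pow]; norm_num
      rw [h3]
      calc A * (8 * Real.log (N : ℝ)) = 8 * A * Real.log (N : ℝ) := by ring
        _ ≤ _ := hk2
  · exact mul_le_mul_of_nonneg_right hc5 hlog

end Pool.Agent.W_7d29a1_PL
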