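import Mathlib

/-!
ADD, the abstract induction: if the later levels lose a weight `W j` at each jump to the level
`g j`, and the weights are summable against `exp (c ∑ D)`, then the levels add up.
-/

set_option autoImplicit false

namespace Pool.Agent.W_7d29a1_PL.Ad54

open Finset

/-- ADD: the abstract induction over the levels. -/
theorem addA54 (D : ℕ → ℝ) (hD : ∀ r, 0 ≤ D r) {c C : ℝ} (hc : 0 ≤ c) (hC : 1 ≤ C)
    (f : ℕ → Finset ℕ → ℝ) (hf1 : ∀ q, f q ∅ ≤ 1)
    (hstep : ∀ (q : ℕ) (I : Finset ℕ) (p : ℕ), p ∈ I → (∀ r ∈ I, p ≤ r) → q ≤ p →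
      ∃ (J : Finset ℕ) (W : ℕ → ℝ) (g : ℕ → ℕ), (∀ j ∈ J, 0 ≤ W j) ∧ (∀ j ∈ J, p < g j) ∧
        f q I ≤ ∑ j ∈ J, W j * f (g j) (I.filter (g j ≤ ·)) ∧
        ∑ j ∈ J, W j * Real.exp (c * ∑ r ∈ Ico p (g j), D r) ≤ C) :
    ∀ (q : ℕ) (I : Finset ℕ), (∀ r ∈ I, q ≤ r) →
      f q I ≤ C ^ I.card * Real.exp (-(c * ∑ r ∈ I, D r)) := by
  have main : ∀ (n : ℕ) (q : ℕ) (I : Finset ℕ), I.card = n → (∀ r ∈ I, q ≤ r) →
      f q I ≤ C ^ I.card * Real.exp (-(c * ∑ r ∈ I, D r)) := by
    intro n
    induction n using Nat.strong_induction_on with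
    | _ n ih =>
      intro q I hn hq
      rcases I.eq_empty_or_nonempty with rfl | hne
      · simpa using hf1 q
      · obtain ⟨p, hp, hmin⟩ : ∃ p ∈ I, ∀ r ∈ I, p ≤ r :=
          ⟨I.min' hne, I.min'_mem hne, fun r hr => I.min'_le r hr⟩
        obtain ⟨J, W, g, hW, hg, h1, h2⟩ := hstep q I p hp hmin (hq p hp)
        have hC0 : (0 : ℝ) ≤ C := zero_le_one.trans hC
        have hterm : ∀ j ∈ J, W j * f (g j) (I.filter (g j ≤ ·)) ≤
            W j * Real.exp (c * ∑ r ∈ Ico p (g j), D r) *
              (C ^ (I.card - 1) * Real.exp (-(c * ∑ r ∈ I, D r))) := by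
          intro j hj
          have hss : I.filter (g j ≤ ·) ⊂ I := by
            refine Finset.ssubset_iff_subset_ne.2 ⟨Finset.filter_subset _ _, fun he => ?_⟩
            have : p ∈ I.filter (g j ≤ ·) := by
              rw [he]
              exact hp
            have h3 := (Finset.mem_filter.1 this).2
            exact absurd (hg j hj) (not_lt.2 h3)
          have hlt : (I.filter (g j ≤ ·)).card < I.card := Finset.card_lt_card hss
          have h4 := ih (I.filter (g j ≤ ·)).card (hn ▸ hlt) (g j) _ rfl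
            (fun r hr => (Finset.mem_filter.1 hr).2)
          have h5 : C ^ (I.filter (g j ≤ ·)).card ≤ C ^ (I.card - 1) :=
            pow_le_pow_right₀ hC (by omega)
          have h6 : ∑ r ∈ I, D r ≤ ∑ r ∈ Ico p (g j), D r + ∑ r ∈ I.filter (g j ≤ ·), D r := by
            rw [← Finset.sum_filter_add_sum_filter_not I (g j ≤ ·), add_comm]
            refine add_le_add ?_ le_rfl
            refine Finset.sum_le_sum_of_subset_of_nonneg ?_ fun r _ _ => hD r
            intro r hr
            obtain ⟨hr1, hr2⟩ := Finset.mem_filter.1 hr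
            exact Finset.mem_Ico.2 ⟨hmin r hr1, not_le.1 hr2⟩
          have h7 : Real.exp (-(c * ∑ r ∈ I.filter (g j ≤ ·), D r)) ≤
              Real.exp (c * ∑ r ∈ Ico p (g j), D r) * Real.exp (-(c * ∑ r ∈ I, D r)) := by
            rw [← Real.exp_add]
            refine Real.exp_le_exp.2 ?_
            have := mul_le_mul_of_nonneg_left h6 hc
            rw [mul_add] at this
            linarith
          calc W j * f (g j) (I.filter (g j ≤ ·))
              ≤ W j * (C ^ (I.filter (g j ≤ ·)).card *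
                Real.exp (-(c * ∑ r ∈ I.filter (g j ≤ ·), D r))) :=
                mul_le_mul_of_nonneg_left h4 (hW j hj)
            _ ≤ W j * (C ^ (I.card - 1) *
                (Real.exp (c * ∑ r ∈ Ico p (g j), D r) * Real.exp (-(c * ∑ r ∈ I, D r)))) := by
                refine mul_le_mul_of_nonneg_left (mul_le_mul h5 h7 (Real.exp_pos _).le
                  (pow_nonneg hC0 _)) (hW j hj)
            _ = _ := by ring
        refine h1.trans ((Finset.sum_le_sum hterm).trans ?_)
        rw [← Finset.sum_mul]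
        have hcard : 1 ≤ I.card := Finset.card_pos.2 hne
        calc (∑ j ∈ J, W j * Real.exp (c * ∑ r ∈ Ico p (g j), D r)) *
              (C ^ (I.card - 1) * Real.exp (-(c * ∑ r ∈ I, D r)))
            ≤ C * (C ^ (I.card - 1) * Real.exp (-(c * ∑ r ∈ I, D r))) :=
              mul_le_mul_of_nonneg_right h2 (mul_nonneg (pow_nonneg hC0 _) (Real.exp_pos _).le)
          _ = C ^ I.card * Real.exp (-(c * ∑ r ∈ I, D r)) := by
              rw [← mul_assoc, ← pow_succ', Nat.sub_add_cancel hcard]
  intro q I hq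
  exact main I.card q I rfl hq

end Pool.Agent.W_7d29a1_PL.Ad54
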