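import Pool.Agent.W_7d29a1_PL.DefsPL
import Pool.Agent.W_7d29a1_SP.Bas15

/-!
First consequences of a system of levels: monotonicity, the nonrandom fluctuation dominates, the
levels `p - a` and `p` are far apart.
-/

namespace Pool.Agent.W_7d29a1_PL

open MeasureTheory ProbabilityTheory Filter Topology Pool.Agent.W_MP_7d29a1_pr
  Pool.Agent.W_7d29a1_h46 Pool.Agent.W_7d29a1_h46u Pool.Agent.W_7d29a1_D2.B35
  Pool.Agent.W_7d29a1_Q29 Pool.Agent.W_7d29a1_R34 Pool.Agent.W_7d29a1_SP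

variable {d : ℕ} {ρ : Measure ℝ} {β : ℝ} {h : Vec d} {n a B Λ : ℕ} {ε : ℝ} {m : ℕ → ℕ}
  {I : Finset ℕ}

lemma Sy.mono90 (hS : Sy ρ β h n a B Λ ε m I) : Monotone m := by
  refine monotone_nat_of_le_succ fun l => ?_
  by_contra hcon
  push Not at hcon
  have h1 := hS.lo l _ hcon
  have h2 := hS.hi (l + 1)
  have h3 : (2 : ℝ) ^ l ≤ 2 ^ (l + 1) := pow_le_pow_right₀ (by norm_num) (Nat.le_succ l)
  linarith

lemma Sy.sub90 (hS : Sy ρ β h n a B Λ ε m I) {J : Finset ℕ} (hJ : J ⊆ I) :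
    Sy ρ β h n a B Λ ε m J where
  lo := hS.lo
  hi := hS.hi
  big p hp := hS.big p (hJ hp)
  sm p hp := hS.sm p (hJ hp)
  nc p hp := hS.nc p (hJ hp)
  sp p hp q hq := hS.sp p (hJ hp) q (hJ hq)
  fs p hp := hS.fs p (hJ hp)

/-- The nonrandom fluctuation is the larger one at the time `m p`. -/
lemma Sy.en90 (hS : Sy ρ β h n a B Λ ε m I) (hB : 1 ≤ B) (hε : ε < 1) {p : ℕ} (hp : p ∈ I) :
    2 ^ p ≤ En ρ β h (m p) := by
  have h1 := hS.hi p
  have h2 := hS.fs p hp (m p) (Nat.le_mul_of_pos_left _ hB)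
  have h3 : ε * 2 ^ p < 2 ^ p := by
    have : (0 : ℝ) < 2 ^ p := by positivity
    nlinarith
  unfold fM at h1
  rcases le_max_iff.1 h1 with h4 | h4
  · exact h4
  · linarith

/-- Subadditivity: many blocks. -/
lemma En_blk90 [IsProbabilityMeasure ρ] (hd : 0 < d) (hρ : EM ρ) (u v k : ℕ) :
    En ρ β h (u * k + v) ≤ u * En ρ β h k + En ρ β h v := by
  induction u with
  | zero => simp
  | succ u ih =>
    have h1 := En_add15 hd hρ β h k (u * k + v)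
    have h2 : (u + 1) * k + v = k + (u * k + v) := by ring
    rw [h2]
    push_cast
    linarith

/-- The levels `p - a` and `p` are far apart. -/
lemma Sy.far90 [IsProbabilityMeasure ρ] (hd : 0 < d) (hρ : EM ρ)
    (hS : Sy ρ β h n a B Λ ε m I) (hB : 1 ≤ B) (hε : ε < 1) {p : ℕ} (hp : p ∈ I) :
    2 ^ a * (m (p - a) - 1) ≤ m p := by
  obtain ⟨hap, h2⟩ := hS.big p hp
  obtain ⟨k, hk⟩ : ∃ k : ℕ, m (p - a) = k + 1 := ⟨m (p - a) - 1, by omega⟩
  have hk1 : 1 ≤ k := by omega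
  rw [hk, Nat.add_sub_cancel]
  by_contra hcon
  push Not at hcon
  have hE := hS.en90 hB hε hp
  have hdm := Nat.div_add_mod (m p) k
  set u := m p / k with hu
  set v := m p % k with hv
  have hvk : v < k := Nat.mod_lt _ hk1
  have h3 := En_blk90 (β := β) (h := h) hd hρ u v k
  have h4 : u * k + v = m p := by
    rw [mul_comm]
    exact hdm
  rw [h4] at h3
  have h5 : ∀ i : ℕ, i < m (p - a) → En ρ β h i < 2 ^ (p - a) := fun i hi =>
    lt_of_le_of_lt (le_max_left _ _) (hS.lo (p - a) i hi)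
  have h6 := h5 k (by omega)
  have h7 := h5 v (by omega)
  have hu1 : u + 1 ≤ 2 ^ a := by
    have h8 : u < 2 ^ a := by
      rw [hu]
      exact Nat.div_lt_of_lt_mul (by rw [mul_comm]; exact hcon)
    omega
  have h9 : (u : ℝ) + 1 ≤ 2 ^ a := by exact_mod_cast hu1
  have h10 : (2 : ℝ) ^ p = 2 ^ a * 2 ^ (p - a) := by
    rw [← pow_add]
    congr 1
    omega
  have h11 : (0 : ℝ) < 2 ^ (p - a) := by positivity
  have h12 : (u : ℝ) * En ρ β h k ≤ u * 2 ^ (p - a) :=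
    mul_le_mul_of_nonneg_left h6.le (Nat.cast_nonneg _)
  have h13 : ((u : ℝ) + 1) * 2 ^ (p - a) ≤ 2 ^ a * 2 ^ (p - a) :=
    mul_le_mul_of_nonneg_right h9 h11.le
  nlinarith

lemma Sy.far90' [IsProbabilityMeasure ρ] (hd : 0 < d) (hρ : EM ρ)
    (hS : Sy ρ β h n a B Λ ε m I) (hB : 1 ≤ B) (hε : ε < 1) {p : ℕ} (hp : p ∈ I)
    (ha : 1 ≤ a) : 2 ^ (a - 1) * m (p - a) ≤ m p := by
  have h1 := hS.far90 hd hρ hB hε hp
  have h2 := (hS.big p hp).2
  refine le_trans ?_ h1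
  obtain ⟨b, rfl⟩ : ∃ b : ℕ, a = b + 1 := ⟨a - 1, by omega⟩
  rw [Nat.add_sub_cancel, pow_succ, mul_assoc]
  exact Nat.mul_le_mul_left _ (by omega)

/-- The scale of the level `p` is positive. -/
lemma Sy.one90 [IsProbabilityMeasure ρ] (hd : 0 < d) (hρ : EM ρ)
    (hS : Sy ρ β h n a B Λ ε m I) (hB : 1 ≤ B) (hε : ε < 1) {p : ℕ} (hp : p ∈ I)
    (ha : 3 ≤ a) : 1 ≤ m p - 2 * m (p - a) ∧ m p ≤ 2 * (m p - 2 * m (p - a)) := by
  have h1 := hS.far90' hd hρ hB hε hp (by omega)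
  have h2 := (hS.big p hp).2
  have h3 : 2 ^ 2 ≤ 2 ^ (a - 1) := Nat.pow_le_pow_right (by norm_num) (by omega)
  have h4 : 2 ^ 2 * m (p - a) ≤ 2 ^ (a - 1) * m (p - a) := Nat.mul_le_mul_right _ h3
  omega

end Pool.Agent.W_7d29a1_PL
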