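import Pool.Agent.W_7d29a1_PL.AddE76
import Pool.Agent.W_7d29a1_PL.SyB90
import Pool.Agent.W_7d29a1_PL.AddA54
import Pool.Agent.W_7d29a1_PL.AddB54

/-!
Leaf ADD from CAT and COST: the prices of the levels add up (helper76).
-/

set_option autoImplicit false

namespace Pool.Agent.W_7d29a1_PL.AD76

open MeasureTheory ProbabilityTheory Filter Topology Pool.Agent.W_MP_7d29a1_pr
  Pool.Agent.W_7d29a1_h46 Pool.Agent.W_7d29a1_h46u Pool.Agent.W_7d29a1_D2.B35
  Pool.Agent.W_7d29a1_Q29 Pool.Agent.W_7d29a1_R34 Pool.Agent.W_7d29a1_SP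
  Pool.Agent.W_7d29a1_SP.C79

variable {d : ℕ} {ρ : Measure ℝ}

/-- The logarithm of the time, stopped at `n`. -/
noncomputable def ph (n : ℕ) (m : ℕ → ℕ) (l : ℕ) : ℝ := Real.log ((min (m l) n : ℕ) : ℝ)

lemma ph_mono (n : ℕ) {m : ℕ → ℕ} (hm : Monotone m) : Monotone (ph n m) := by
  intro k l hkl
  unfold ph
  have h1 : min (m k) n ≤ min (m l) n := min_le_min_right n (hm hkl)
  rcases Nat.eq_zero_or_pos (min (m k) n) with h0 | h0
  · rw [h0, Nat.cast_zero, Real.log_zero]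
    exact Real.log_natCast_nonneg _
  · exact Real.log_le_log (by exact_mod_cast h0) (by exact_mod_cast h1)

/-- The length, on the levels of `I`. -/
noncomputable def Dd (n : ℕ) (m : ℕ → ℕ) (I : Finset ℕ) (r : ℕ) : ℝ :=
  if r ∈ I then Dl n m r else 0

lemma Dl_eq {n : ℕ} {m : ℕ → ℕ} (hm : Monotone m) {r : ℕ} (h1 : 1 ≤ m r) (h2 : m r ≤ n) :
    Dl n m r = ph n m (r + 1) - ph n m r := by
  unfold Dl ph
  have h3 : m r ≤ m (r + 1) := hm (Nat.le_succ r)
  have h4 : 1 ≤ min (m (r + 1)) n := le_min (h1.trans h3) (h1.trans h2)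
  have h5 : ((min (m (r + 1)) n : ℕ) : ℝ) ≠ 0 := by
    have : (1 : ℝ) ≤ (min (m (r + 1)) n : ℕ) := by exact_mod_cast h4
    linarith
  have h6 : ((m r : ℕ) : ℝ) ≠ 0 := by
    have : (1 : ℝ) ≤ (m r : ℕ) := by exact_mod_cast h1
    linarith
  rw [Real.log_div h5 h6, min_eq_left h2]

lemma sumI {n : ℕ} {m : ℕ → ℕ} (hm : Monotone m) {I : Finset ℕ}
    (hI : ∀ r ∈ I, 1 ≤ m r ∧ m r ≤ n) {p g b : ℕ} (hpb : p ≤ b)
    (hb : ∀ r ∈ I, p ≤ r → r < g → r < b) :
    ∑ r ∈ Finset.Ico p g, Dd n m I r ≤ ph n m b - ph n m p := by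
  classical
  have h1 : ∑ r ∈ Finset.Ico p g, Dd n m I r =
      ∑ r ∈ (Finset.Ico p g).filter (· ∈ I), (ph n m (r + 1) - ph n m r) := by
    unfold Dd
    rw [← Finset.sum_filter]
    refine Finset.sum_congr rfl fun r hr => ?_
    have h2 := hI r (Finset.mem_filter.1 hr).2
    exact Dl_eq hm h2.1 h2.2
  rw [h1]
  refine Pool.Agent.W_7d29a1_PL.Ad54.sumD54 (ph_mono n hm) hpb fun r hr => ?_
  obtain ⟨h2, h3⟩ := Finset.mem_filter.1 hr
  obtain ⟨h4, h5⟩ := Finset.mem_Ico.1 h2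
  exact Finset.mem_Ico.2 ⟨h4, hb r h3 h4 h5⟩

lemma Sy_mono {β : ℝ} {h : Vec d} {n a B B' Λ Λ' : ℕ} {ε ε' : ℝ} {m : ℕ → ℕ} {I : Finset ℕ}
    (hS : Sy ρ β h n a B' Λ' ε' m I) (hB : B ≤ B') (hΛ : Λ ≤ Λ') (hε : ε' ≤ ε) :
    Sy ρ β h n a B Λ ε m I where
  lo := hS.lo
  hi := hS.hi
  big := hS.big
  sm := hS.sm
  nc p hp j hj := lt_of_le_of_lt (Nat.mul_le_mul_right _ (Nat.pow_le_pow_left hΛ _))
    (hS.nc p hp j hj)
  sp := hS.sp
  fs p hp k hk := (hS.fs p hp k (hk.trans (Nat.mul_le_mul_right _ hB))).trans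
    (mul_le_mul_of_nonneg_right hε (by positivity))

/-- The levels of `J`, with the slack of the level `q`. -/
def El (ρ : Measure ℝ) (β : ℝ) (h : Vec d) (n a : ℕ) (m : ℕ → ℕ) (κ w : ℝ) (q : ℕ)
    (J : Finset ℕ) : Set (Env d) :=
  ⋂ r ∈ J, Lk ρ β h n (m r - 2 * m (r - a)) (2 * m (q - a)) (2 ^ r) κ (w * 2 ^ q)

lemma El_meas (β : ℝ) (h : Vec d) (n a : ℕ) (m : ℕ → ℕ) (κ w : ℝ) (q : ℕ) (J : Finset ℕ) :
    MeasurableSet (El ρ β h n a m κ w q J) := by
  refine Finset.measurableSet_biInter _ fun r _ => ?_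
  rw [Lk_eq]
  exact Un_meas ..

lemma El_dep (β : ℝ) (h : Vec d) (n a : ℕ) (m : ℕ → ℕ) (κ w : ℝ) (q : ℕ) (J : Finset ℕ) :
    DependsOn (fun η => η ∈ El ρ β h n a m κ w q J) {p : ℕ × Site d | 1 ≤ p.1} := by
  intro η η' hη
  have h1 : ∀ r, (η ∈ Lk ρ β h n (m r - 2 * m (r - a)) (2 * m (q - a)) (2 ^ r) κ (w * 2 ^ q)) =
      (η' ∈ Lk ρ β h n (m r - 2 * m (r - a)) (2 * m (q - a)) (2 ^ r) κ (w * 2 ^ q)) := by
    intro r
    rw [Lk_eq]
    exact Un_dep1 β h _ _ _ _ _ _ hη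
  simp only [El, Set.mem_iInter]
  exact propext ⟨fun h2 r hr => (h1 r) ▸ h2 r hr, fun h2 r hr => (h1 r).symm ▸ h2 r hr⟩

/-- One group of horizons of the first level. -/
lemma key76 [IsProbabilityMeasure ρ] (hd : 0 < d) (hρ : EM ρ) {β : ℝ} {c₀ κ C₁ C₂ c₂ c w ε : ℝ}
    {a B Λ n q p b : ℕ} {h : Vec d} {m : ℕ → ℕ} {I J : Finset ℕ} (hc₀ : 0 < c₀) (hC₁ : 1 ≤ C₁)
    (hC₂ : 1 ≤ C₂) (hc : 0 ≤ c) (hcc : c ≤ c₂) (hch : c ≤ 1 / 2) (ha : 3 ≤ a)
    (hw0 : 0 ≤ w) (hw : w ≤ κ / 8) (hwa : w * 2 ^ a = 2 * (2 * C₁ + |Real.log c₀|))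
    (hB : 1 ≤ B) (hε : ε < 1) (hΛ : 4096 ≤ Λ)
    (hcat : ∀ (m T : ℕ) (Φ : ℝ) (L G G' : Set (Env d)), 1 ≤ m → 1 ≤ T → MeasurableSet L →
      MeasurableSet G → MeasurableSet G' →
      DependsOn (fun η => η ∈ L) {p : ℕ × Site d | 1 ≤ p.1 ∧ p.1 ≤ m} →
      DependsOn (fun η => η ∈ G) {p : ℕ × Site d | 1 ≤ p.1} →
      (∀ k : ℕ, k ≤ T → En ρ β h k ≤ Φ ∧ Fn ρ β h k ≤ Φ) →
      (∀ (s : ℕ) (y : Site d) (η : Env d), s ≤ T → y ∈ boxF d s →
        c₀ * Z β h η s ≤ PP β h η s y →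
        s * lam ρ β h - C₁ * (Φ + 1) ≤ X β h η s → sh s y η ∈ G → η ∈ G') →
      (law d ρ).real (L ∩ G) ≤ C₁ * ((law d ρ).real L + m / T) * (law d ρ).real G')
    (hS : Sy ρ β h n a B Λ ε m I)
    (hcost : ∀ p ∈ I, ∀ i : ℕ,
      (law d ρ).real (Lg ρ β h n (m p - 2 * m (p - a)) (2 * m (p - a)) (2 ^ p) κ
        (κ / 8 * 2 ^ p) i) ≤
      C₂ * Real.exp (-(c₂ * i)) * ((m p : ℝ) / (min (m (p + i + 1)) n : ℕ)) ^ c₂)
    (hJ : J = I.filter (b ≤ ·)) (hp : p ∈ J) (hmin : ∀ r ∈ J, p ≤ r) (hqp : q ≤ p) (i : ℕ) :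
    ∃ (W : ℝ) (g : ℕ), 0 ≤ W ∧ p < g ∧
      (law d ρ).real (Lg ρ β h n (m p - 2 * m (p - a)) (2 * m (q - a)) (2 ^ p) κ (w * 2 ^ q) i ∩
        El ρ β h n a m κ w q (J.filter (g ≤ ·))) ≤
        W * (law d ρ).real (El ρ β h n a m κ w g (J.filter (g ≤ ·))) ∧
      W * Real.exp (c * ∑ r ∈ Finset.Ico p g, Dd n m I r) ≤
        C₁ * C₂ * Real.exp (-(c₂ * i)) + C₁ * Real.exp (-(Real.log 4 * i)) := by
  classical
  have hm := hS.mono90
  have hJI : ∀ r ∈ J, r ∈ I := fun r hr => by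
    rw [hJ] at hr
    exact (Finset.mem_filter.1 hr).1
  have hIJ : ∀ r ∈ I, p ≤ r → r ∈ J := fun r hr hpr => by
    rw [hJ]
    rw [hJ] at hp
    exact Finset.mem_filter.2 ⟨hr, (Finset.mem_filter.1 hp).2.trans hpr⟩
  have hpI := hJI p hp
  have hIm : ∀ r ∈ I, 1 ≤ m r ∧ m r ≤ n := fun r hr => by
    have h1 := (hS.big r hr).2
    have h2 := hm (Nat.sub_le r a)
    refine ⟨by omega, ?_⟩
    have h3 := hS.sm r hr
    refine le_trans ?_ h3
    exact Nat.le_self_pow (by norm_num) _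
  have hmp := hIm p hpI
  have hH := (hS.one90 hd hρ hB hε hpI ha).1
  set L : Set (Env d) :=
    Lg ρ β h n (m p - 2 * m (p - a)) (2 * m (q - a)) (2 ^ p) κ (w * 2 ^ q) i with hL
  have hqa : m (q - a) ≤ m (p - a) := hm (by omega)
  have hz : w * 2 ^ q ≤ κ / 8 * 2 ^ p := by
    have h1 : (2 : ℝ) ^ q ≤ 2 ^ p := pow_le_pow_right₀ (by norm_num) hqp
    calc w * 2 ^ q ≤ w * 2 ^ p := mul_le_mul_of_nonneg_left h1 hw0
      _ ≤ κ / 8 * 2 ^ p := mul_le_mul_of_nonneg_right hw (by positivity)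
  set t : ℝ := ph n m (p + i + 1) - ph n m p with ht
  have ht0 : 0 ≤ t := sub_nonneg.2 (ph_mono n hm (by omega))
  have hPL : (law d ρ).real L ≤ C₂ * Real.exp (-(c₂ * i)) * Real.exp (-(c₂ * t)) := by
    have h1 : (law d ρ).real L ≤ (law d ρ).real (Lg ρ β h n (m p - 2 * m (p - a))
        (2 * m (p - a)) (2 ^ p) κ (κ / 8 * 2 ^ p) i) := by
      refine measureReal_mono ?_ (measure_ne_top _ _)
      rw [hL, Lg_eq, Lg_eq]
      exact Un_mono β h subset_rfl (Nat.mul_le_mul_left _ hqa) hz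
    refine h1.trans ((hcost p hpI i).trans (le_of_eq ?_))
    have h2 : (0 : ℝ) < m p := by exact_mod_cast hmp.1
    have h3 : 1 ≤ min (m (p + i + 1)) n :=
      le_min (hmp.1.trans (hm (by omega))) (hmp.1.trans hmp.2)
    have h4 : (0 : ℝ) < (min (m (p + i + 1)) n : ℕ) := by exact_mod_cast h3
    rw [Real.rpow_def_of_pos (div_pos h2 h4), Real.log_div h2.ne' h4.ne', ht]
    unfold ph
    rw [min_eq_left hmp.2]
    ring_nf
  have hPL0 : 0 ≤ (law d ρ).real L := measureReal_nonneg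
  have hexp : ∀ s : ℝ, s ≤ t → (law d ρ).real L * Real.exp (c * s) ≤
      C₂ * Real.exp (-(c₂ * i)) := by
    intro s hs
    calc (law d ρ).real L * Real.exp (c * s)
        ≤ (C₂ * Real.exp (-(c₂ * i)) * Real.exp (-(c₂ * t))) * Real.exp (c₂ * t) := by
          refine mul_le_mul hPL (Real.exp_le_exp.2 ?_) (Real.exp_pos _).le (by positivity)
          calc c * s ≤ c * t := mul_le_mul_of_nonneg_left hs hc
            _ ≤ c₂ * t := mul_le_mul_of_nonneg_right hcc ht0
      _ = C₂ * Real.exp (-(c₂ * i)) := by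
          rw [mul_assoc, ← Real.exp_add, neg_add_cancel, Real.exp_zero, mul_one]
  have he1 : 0 < Real.exp (-(c₂ * i)) := Real.exp_pos _
  have he2 : 0 < Real.exp (-(Real.log 4 * i)) := Real.exp_pos _
  rcases (J.filter (p + i + 1 ≤ ·)).eq_empty_or_nonempty with hemp | hne
  · refine ⟨(law d ρ).real L, p + i + 1, hPL0, by omega, ?_, ?_⟩
    · rw [hemp]
      have h1 : El ρ β h n a m κ w (p + i + 1) ∅ = Set.univ := by
        unfold El
        simp
      rw [h1, probReal_univ, mul_one]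
      exact measureReal_mono Set.inter_subset_left (measure_ne_top _ _)
    · have h1 := hexp _ (sumI hm hIm (p := p) (g := p + i + 1) (b := p + i + 1) (by omega)
        fun r _ _ h => h)
      refine h1.trans ?_
      have h2 : C₂ * Real.exp (-(c₂ * i)) ≤ C₁ * (C₂ * Real.exp (-(c₂ * i))) :=
        le_mul_of_one_le_left (by positivity) hC₁
      have h3 : 0 ≤ C₁ * Real.exp (-(Real.log 4 * i)) := by positivity
      linarith
  · obtain ⟨g, hg1, hg2⟩ : ∃ g ∈ J.filter (p + i + 1 ≤ ·),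
        ∀ r ∈ J.filter (p + i + 1 ≤ ·), g ≤ r :=
      ⟨_, Finset.min'_mem _ hne, fun r hr => Finset.min'_le _ r hr⟩
    obtain ⟨hgJ, hgi⟩ := Finset.mem_filter.1 hg1
    have hgI := hJI g hgJ
    have hgp : p + 3 * a ≤ g := hS.sp p hpI g hgI (by omega)
    have hbig := hS.big g hgI
    have hgn := hIm g hgI
    set M : ℕ := m (g - a) with hM
    have hMg : M ≤ m g := hm (Nat.sub_le g a)
    have hMn : M ≤ n := hMg.trans hgn.2
    have hM2 : 2 ≤ M := hbig.2
    -- the distance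
    have hfar : 64 ^ (i + 1) * m p < M := by
      obtain ⟨j, hj⟩ : ∃ j : ℕ, p + j + 1 = g - a := ⟨g - a - p - 1, by omega⟩
      have h1 := hS.nc p hpI j (by rw [hj]; exact hMn)
      rw [hj] at h1
      refine lt_of_le_of_lt (Nat.mul_le_mul_right _ ?_) h1
      calc 64 ^ (i + 1) ≤ 64 ^ (2 * (j + 1)) := Nat.pow_le_pow_right (by norm_num) (by omega)
        _ = 4096 ^ (j + 1) := by rw [pow_mul]; norm_num
        _ ≤ Λ ^ (j + 1) := Nat.pow_le_pow_left hΛ _
    have h64 : 64 ≤ 64 ^ (i + 1) := by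
      calc 64 = 64 ^ 1 := rfl
        _ ≤ 64 ^ (i + 1) := Nat.pow_le_pow_right (by norm_num) (by omega)
    have hfar2 : 64 * m p < M := lt_of_le_of_lt (Nat.mul_le_mul_right _ h64) hfar
    -- the slack
    have hslS : ∀ s : ℕ, s ≤ M - 1 → s + 2 * m (q - a) ≤ 2 * m (g - a) := by
      intro s hs
      have h1 : m (q - a) ≤ m p := hm (by omega)
      rw [← hM]
      omega
    set Φ : ℝ := 2 ^ (g - a) with hΦ
    have hΦ1 : 1 ≤ Φ := one_le_pow₀ (by norm_num)
    have hslz : w * 2 ^ q + C₁ * (Φ + 1) - Real.log c₀ ≤ w * 2 ^ g := by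
      have h1 : (2 : ℝ) ^ g = 2 ^ a * Φ := by
        rw [hΦ, ← pow_add]
        congr 1
        omega
      have h2 : (2 : ℝ) ^ q * 2 ≤ 2 ^ g := by
        rw [← pow_succ]
        exact pow_le_pow_right₀ (by norm_num) (by omega)
      have h3 : w * 2 ^ g = 2 * ((2 * C₁ + |Real.log c₀|) * Φ) := by
        rw [h1, ← mul_assoc, hwa]
        ring
      have h4 : w * 2 ^ q ≤ (2 * C₁ + |Real.log c₀|) * Φ := by
        have h5 := mul_le_mul_of_nonneg_left h2 hw0
        rw [h3, ← mul_assoc] at h5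
        linarith
      have h6 : -Real.log c₀ ≤ |Real.log c₀| := neg_le_abs _
      have h7 : |Real.log c₀| ≤ |Real.log c₀| * Φ := le_mul_of_one_le_right (abs_nonneg _) hΦ1
      have h8 : C₁ * (Φ + 1) ≤ 2 * C₁ * Φ := by nlinarith
      rw [h3]
      nlinarith
    have hcat1 := hcat (2 ^ (i + 2) * m p) (M - 1) Φ L
      (El ρ β h n a m κ w q (J.filter (g ≤ ·))) (El ρ β h n a m κ w g (J.filter (g ≤ ·)))
      (Nat.mul_pos (by positivity) hmp.1) (by omega) (by
        rw [hL, Lg_eq]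
        exact Un_meas ..) (El_meas ..) (El_meas ..) (by
        rw [hL, Lg_eq]
        refine Un_dep2 β h _ _ _ fun N hN => ?_
        have h1 : 1 ≤ N ∧ N ≤ 2 ^ (i + 2) := by
          cases i with
          | zero =>
            have h2 : N = 1 := hN
            rw [h2]
            norm_num
          | succ j =>
            obtain ⟨h2, h3, _⟩ := hN
            have h4 : 0 < 2 ^ (j + 1) := by positivity
            exact ⟨by omega, h3.le.trans (Nat.pow_le_pow_right (by norm_num) (by omega))⟩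
        have h2 : m p - 2 * m (p - a) + 2 * m (q - a) ≤ m p := by omega
        calc N * (m p - 2 * m (p - a)) + 2 * m (q - a)
            ≤ N * (m p - 2 * m (p - a)) + N * (2 * m (q - a)) :=
              Nat.add_le_add_left (Nat.le_mul_of_pos_left _ h1.1) _
          _ = N * (m p - 2 * m (p - a) + 2 * m (q - a)) := by ring
          _ ≤ N * m p := Nat.mul_le_mul_left _ h2
          _ ≤ 2 ^ (i + 2) * m p := Nat.mul_le_mul_right _ h1.2)
      (El_dep ..) (fun k hk => by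
        have h1 := hS.lo (g - a) k (by omega)
        unfold fM at h1
        exact ⟨(le_max_left _ _).trans h1.le, (le_max_right _ _).trans h1.le⟩)
      (fun s y η hs hy hat hX hsh => by
        refine Set.mem_iInter₂.2 fun r hr => ?_
        have h1 := Set.mem_iInter₂.1 hsh r hr
        rw [Lk_eq] at h1 ⊢
        exact Un_tr hd hc₀ hy hat hX h1 (hslS s hs) hslz)
    refine ⟨C₁ * ((law d ρ).real L + (2 ^ (i + 2) * m p : ℕ) / ((M - 1 : ℕ) : ℝ)), g, ?_, ?_,
      hcat1, ?_⟩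
    · have h1 : (0 : ℝ) ≤ (2 ^ (i + 2) * m p : ℕ) / ((M - 1 : ℕ) : ℝ) := by positivity
      have : 0 ≤ (law d ρ).real L + (2 ^ (i + 2) * m p : ℕ) / ((M - 1 : ℕ) : ℝ) := by linarith
      exact mul_nonneg (by linarith) this
    · omega
    · set s : ℝ := ∑ r ∈ Finset.Ico p g, Dd n m I r with hs
      have hs1 : s ≤ t := sumI hm hIm (by omega) fun r hr hpr hrg => by
        by_contra hcon
        have h1 := hg2 r (Finset.mem_filter.2 ⟨hIJ r hr hpr, by omega⟩)
        omega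
      set t' : ℝ := ph n m (g - a) - ph n m p with ht'
      have hs2 : s ≤ t' := sumI hm hIm (by omega) fun r hr hpr hrg => by
        have h1 := hS.sp r hr g hgI hrg
        omega
      have h1 := hexp s hs1
      have hMr : (0 : ℝ) < M := by
        have : (2 : ℝ) ≤ M := by exact_mod_cast hM2
        linarith
      have hpr : (0 : ℝ) < m p := by exact_mod_cast hmp.1
      have ht'e : t' = Real.log M - Real.log (m p) := by
        rw [ht']
        unfold ph
        rw [min_eq_left hmp.2, ← hM, min_eq_left hMn]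
      have hfr : (64 : ℝ) ^ (i + 1) * m p ≤ M := by exact_mod_cast hfar.le
      have ht'2 : (i + 1) * Real.log 64 ≤ t' := by
        have h2 := Real.log_le_log (by positivity) hfr
        rw [Real.log_mul (by positivity) hpr.ne', Real.log_pow] at h2
        push_cast at h2
        rw [ht'e]
        linarith
      have h64' : Real.log 64 = 6 * Real.log 2 := by
        rw [show (64 : ℝ) = 2 ^ 6 by norm_num, Real.log_pow]
        norm_num
      have h4' : Real.log 4 = 2 * Real.log 2 := by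
        rw [show (4 : ℝ) = 2 ^ 2 by norm_num, Real.log_pow]
        norm_num
      have hl2 : 0 < Real.log 2 := Real.log_pos (by norm_num)
      have ht'0 : 0 ≤ t' := by
        refine le_trans ?_ ht'2
        rw [h64']
        positivity
      have hR : ((2 ^ (i + 2) * m p : ℕ) : ℝ) / ((M - 1 : ℕ) : ℝ) * Real.exp (c * s) ≤
          Real.exp (-(Real.log 4 * i)) := by
        have h2 : ((M - 1 : ℕ) : ℝ) = M - 1 := by
          rw [Nat.cast_sub (by omega), Nat.cast_one]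
        have h3 : (M : ℝ) / 2 ≤ M - 1 := by
          have : (2 : ℝ) ≤ M := by exact_mod_cast hM2
          linarith
        have h4 : ((2 ^ (i + 2) * m p : ℕ) : ℝ) / ((M - 1 : ℕ) : ℝ) ≤
            2 ^ (i + 3) * Real.exp (-t') := by
          have h5 : Real.exp (-t') = m p / M := by
            rw [ht'e, neg_sub, Real.exp_sub, Real.exp_log hpr, Real.exp_log hMr]
          rw [h5, h2]
          push_cast
          calc (2 : ℝ) ^ (i + 2) * m p / (M - 1) ≤ 2 ^ (i + 2) * m p / (M / 2) :=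
                div_le_div_of_nonneg_left (by positivity) (by positivity) h3
            _ = 2 ^ (i + 3) * (m p / M) := by
                rw [pow_succ (2 : ℝ) (i + 2)]
                field_simp
        calc ((2 ^ (i + 2) * m p : ℕ) : ℝ) / ((M - 1 : ℕ) : ℝ) * Real.exp (c * s)
            ≤ 2 ^ (i + 3) * Real.exp (-t') * Real.exp (t' / 2) := by
              refine mul_le_mul h4 (Real.exp_le_exp.2 ?_) (Real.exp_pos _).le (by positivity)
              calc c * s ≤ c * t' := mul_le_mul_of_nonneg_left hs2 hc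
                _ ≤ 1 / 2 * t' := mul_le_mul_of_nonneg_right hch ht'0
                _ = t' / 2 := by ring
          _ = Real.exp ((i + 3) * Real.log 2 - t' / 2) := by
              have h5 : (2 : ℝ) ^ (i + 3) = Real.exp ((i + 3) * Real.log 2) := by
                rw [mul_comm, Real.exp_mul, Real.exp_log (by norm_num)]
                norm_cast
              rw [h5, ← Real.exp_add, ← Real.exp_add]
              congr 1
              ring
          _ ≤ Real.exp (-(Real.log 4 * i)) := by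
              refine Real.exp_le_exp.2 ?_
              rw [h4']
              rw [h64'] at ht'2
              nlinarith
      have h9 : C₁ * ((law d ρ).real L + (2 ^ (i + 2) * m p : ℕ) / ((M - 1 : ℕ) : ℝ)) *
          Real.exp (c * s) = C₁ * ((law d ρ).real L * Real.exp (c * s)) +
          C₁ * (((2 ^ (i + 2) * m p : ℕ) : ℝ) / ((M - 1 : ℕ) : ℝ) * Real.exp (c * s)) := by
        ring
      rw [h9]
      have h10 := mul_le_mul_of_nonneg_left h1 (show 0 ≤ C₁ by linarith)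
      have h11 := mul_le_mul_of_nonneg_left hR (show 0 ≤ C₁ by linarith)
      linarith

/-- ADD. -/
theorem add76 [IsProbabilityMeasure ρ] (hd : 0 < d) (hρ : EM ρ) {β : ℝ} (hCat : CatP d ρ β)
    (hCost : CostP d ρ β) : AddP d ρ β := by
  classical
  intro c₀ κ hc₀ hκ hκ2
  obtain ⟨C₁, hC₁, hcat⟩ := hCat c₀ hc₀
  obtain ⟨a₀, B, Λ, ε, c₂, C₂, hε, hc₂, hC₂, hcost⟩ := hCost c₀ κ hc₀ hκ hκ2
  obtain ⟨Cz, hCz⟩ : ∃ Cz : ℝ, Cz = 2 * C₁ + |Real.log c₀| := ⟨_, rfl⟩
  have hCz0 : 0 < Cz := by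
    rw [hCz]
    have := abs_nonneg (Real.log c₀)
    linarith
  obtain ⟨a₁, ha₁⟩ := pow_unbounded_of_one_lt (16 * Cz / κ) (one_lt_two : (1 : ℝ) < 2)
  obtain ⟨a, haa⟩ : ∃ a : ℕ, a = a₀ + a₁ + 3 := ⟨_, rfl⟩
  obtain ⟨w, hww⟩ : ∃ w : ℝ, w = 2 * Cz / 2 ^ a := ⟨_, rfl⟩
  have h2a : (0 : ℝ) < 2 ^ a := by positivity
  have hw0 : 0 ≤ w := by
    rw [hww]
    positivity
  have hw : w ≤ κ / 8 := by
    rw [hww, div_le_iff₀ h2a]
    have h1 : (2 : ℝ) ^ a₁ ≤ 2 ^ a := pow_le_pow_right₀ (by norm_num) (by omega)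
    rw [div_lt_iff₀ hκ] at ha₁
    nlinarith
  have hwa : w * 2 ^ a = 2 * (2 * C₁ + |Real.log c₀|) := by
    rw [hww, div_mul_cancel₀ _ h2a.ne', hCz]
  obtain ⟨c, hcdef⟩ : ∃ c : ℝ, c = min c₂ (1 / 2) := ⟨_, rfl⟩
  have hc : 0 < c := by
    rw [hcdef]
    exact lt_min hc₂ (by norm_num)
  have hcc : c ≤ c₂ := by
    rw [hcdef]
    exact min_le_left _ _
  have hch : c ≤ 1 / 2 := by
    rw [hcdef]
    exact min_le_right _ _
  have hl4 : 0 < Real.log 4 := Real.log_pos (by norm_num)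
  have hg : ∀ θ : ℝ, 0 < θ → 1 ≤ 1 / (1 - Real.exp (-θ)) := by
    intro θ hθ
    have h1 : Real.exp (-θ) < 1 := by
      rw [← Real.exp_zero]
      exact Real.exp_lt_exp.2 (by linarith)
    have h2 := Real.exp_pos (-θ)
    rw [le_div_iff₀ (by linarith)]
    linarith
  obtain ⟨C₃, hC₃⟩ : ∃ C₃ : ℝ, C₃ = C₁ * C₂ * (1 / (1 - Real.exp (-c₂))) +
      C₁ * (1 / (1 - Real.exp (-Real.log 4))) := ⟨_, rfl⟩
  have hC₃1 : 1 ≤ C₃ := by
    rw [hC₃]
    have h1 := hg c₂ hc₂
    have h2 := hg _ hl4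
    have h3 : 1 ≤ C₁ * C₂ := by nlinarith
    have h4 : 1 ≤ C₁ * C₂ * (1 / (1 - Real.exp (-c₂))) := by nlinarith
    have h5 : 0 ≤ C₁ * (1 / (1 - Real.exp (-Real.log 4))) :=
      mul_nonneg (by linarith) (by linarith)
    linarith
  refine ⟨a, B + 1, Λ + 4096, min ε (1 / 2), c, max 1 (Real.log C₃), by omega,
    lt_min hε (by norm_num), hc, le_max_left _ _, ?_⟩
  intro h hloc n m I hS hgr
  have hS' : Sy ρ β h n a B Λ ε m I :=
    Sy_mono hS (by omega) (by omega) (min_le_left _ _)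
  have hm := hS.mono90
  have hcost' := hcost a (by omega) h hloc n m I hS' hgr
  have hIm : ∀ r ∈ I, 1 ≤ m r ∧ m r ≤ n := fun r hr => by
    have h1 := (hS.big r hr).2
    have h2 := hm (Nat.sub_le r a)
    refine ⟨by omega, ?_⟩
    have h3 := hS.sm r hr
    refine le_trans ?_ h3
    exact Nat.le_self_pow (by norm_num) _
  have hDd : ∀ r, 0 ≤ Dd n m I r := by
    intro r
    unfold Dd
    split_ifs with hr
    · rw [Dl_eq hm (hIm r hr).1 (hIm r hr).2]
      exact sub_nonneg.2 (ph_mono n hm (Nat.le_succ r))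
    · exact le_rfl
  set f : ℕ → Finset ℕ → ℝ := fun q J =>
    if ∃ b, J = I.filter (b ≤ ·) then (law d ρ).real (El ρ β h n a m κ w q J) else 0 with hf
  have hf1 : ∀ q, f q ∅ ≤ 1 := by
    intro q
    simp only [hf]
    split_ifs
    · exact measureReal_le_one
    · exact zero_le_one
  have hmain := Pool.Agent.W_7d29a1_PL.Ad54.addA54 (Dd n m I) hDd hc.le hC₃1 f hf1 (by
    intro q J p hp hmin hqp
    by_cases hJ : ∃ b, J = I.filter (b ≤ ·)
    · obtain ⟨b, hb⟩ := hJ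
      have hpI : p ∈ I := by
        rw [hb] at hp
        exact (Finset.mem_filter.1 hp).1
      have hkey := key76 (ρ := ρ) hd hρ (β := β) (c := c) (w := w) (ε := min ε (1 / 2)) (q := q)
        hc₀ hC₁ hC₂ hc.le hcc hch (by omega) hw0 hw hwa (by omega)
        (lt_of_le_of_lt (min_le_right _ _) (by norm_num)) (by omega)
        (fun m T Φ L G G' => hcat h hloc m T Φ L G G') hS hcost' hb hp hmin hqp
      choose W g hW hg1 hg2 hg3 using hkey
      refine ⟨Finset.range (n + 1), W, g, fun j _ => hW j, fun j _ => hg1 j, ?_, ?_⟩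
      · have hfJ : f q J = (law d ρ).real (El ρ β h n a m κ w q J) := by
          simp only [hf]
          rw [if_pos ⟨b, hb⟩]
        have hfg : ∀ j, f (g j) (J.filter (g j ≤ ·)) =
            (law d ρ).real (El ρ β h n a m κ w (g j) (J.filter (g j ≤ ·))) := by
          intro j
          simp only [hf]
          rw [if_pos]
          refine ⟨max b (g j), ?_⟩
          rw [hb]
          ext r
          simp only [Finset.mem_filter, max_le_iff]
          tauto
        rw [hfJ]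
        simp only [hfg]
        refine le_trans ?_ (Finset.sum_le_sum fun j _ => hg2 j)
        refine le_trans (measureReal_mono ?_ (measure_ne_top _ _))
          (measureReal_biUnion_finset_le _ _)
        intro η hη
        have h1 := Set.mem_iInter₂.1 hη p hp
        have hH := (hS.one90 hd hρ (by omega)
          (lt_of_le_of_lt (min_le_right _ _) (by norm_num)) hpI (by omega)).1
        have h2 := Lk_sub β h (2 * m (q - a)) (2 ^ p) κ (w * 2 ^ q) hH (Nat.lt_two_pow_self) h1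
        simp only [Set.mem_iUnion, exists_prop] at h2 ⊢
        obtain ⟨i, hi, h3⟩ := h2
        refine ⟨i, hi, h3, ?_⟩
        exact Set.mem_iInter₂.2 fun r hr => Set.mem_iInter₂.1 hη r (Finset.mem_filter.1 hr).1
      · refine (Finset.sum_le_sum fun j _ => hg3 j).trans ?_
        rw [Finset.sum_add_distrib, ← Finset.mul_sum, ← Finset.mul_sum, hC₃]
        have h1 := Pool.Agent.W_7d29a1_PL.Ad54.geo54 hc₂ n
        have h2 := Pool.Agent.W_7d29a1_PL.Ad54.geo54 hl4 n
        refine add_le_add (mul_le_mul_of_nonneg_left h1 (by positivity))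
          (mul_le_mul_of_nonneg_left h2 (by positivity))
    · refine ⟨∅, fun _ => 0, fun _ => 0, fun j hj => absurd hj (Finset.notMem_empty j),
        fun j hj => absurd hj (Finset.notMem_empty j), ?_, ?_⟩
      · simp only [hf]
        rw [if_neg hJ]
        simp
      · simp only [Finset.sum_empty]
        linarith) 0 I (fun r _ => Nat.zero_le r)
  have hf0 : f 0 I = (law d ρ).real (El ρ β h n a m κ w 0 I) := by
    simp only [hf]
    rw [if_pos ⟨0, by simp⟩]
  rw [hf0] at hmain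
  have hsum : ∑ r ∈ I, Dd n m I r = ∑ p ∈ I, Dl n m p :=
    Finset.sum_congr rfl fun r hr => by
      unfold Dd
      rw [if_pos hr]
  rw [hsum] at hmain
  refine le_trans (measureReal_mono ?_ (measure_ne_top _ _)) (hmain.trans ?_)
  · refine Set.iInter₂_mono fun r _ => ?_
    rw [Lk_eq, Lk_eq]
    exact Un_mono β h subset_rfl (Nat.zero_le _) (by positivity)
  · have h1 : C₃ ^ I.card ≤ Real.exp (max 1 (Real.log C₃) * I.card) := by
      have h2 : C₃ ^ I.card = Real.exp (Real.log C₃ * I.card) := by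
        rw [Real.exp_mul, Real.exp_log (by linarith)]
        norm_cast
      rw [h2]
      exact Real.exp_le_exp.2 (mul_le_mul_of_nonneg_right (le_max_right _ _)
        (Nat.cast_nonneg _))
    calc C₃ ^ I.card * Real.exp (-(c * ∑ p ∈ I, Dl n m p))
        ≤ Real.exp (max 1 (Real.log C₃) * I.card) * Real.exp (-(c * ∑ p ∈ I, Dl n m p)) :=
          mul_le_mul_of_nonneg_right h1 (Real.exp_pos _).le
      _ = Real.exp (max 1 (Real.log C₃) * I.card - c * ∑ p ∈ I, Dl n m p) := by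
          rw [← Real.exp_add]
          congr 1

end Pool.Agent.W_7d29a1_PL.AD76
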