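import Pool.Agent.W_7d29a1_PL.DefsPL
import Pool.Agent.W_7d29a1_SP.Cnt79
import Pool.Agent.W_7d29a1_SP.Bas15

/-!
Leaf ADD: the prices of the levels add up, from `CatP` and `CostP`.
-/

set_option autoImplicit false

namespace Pool.Agent.W_7d29a1_PL.A89

open MeasureTheory ProbabilityTheory Filter Topology Pool.Agent.W_MP_7d29a1_pr
  Pool.Agent.W_7d29a1_h46 Pool.Agent.W_7d29a1_h46u Pool.Agent.W_7d29a1_D2.B35
  Pool.Agent.W_7d29a1_Q29 Pool.Agent.W_7d29a1_R34 Pool.Agent.W_7d29a1_SP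

variable {d : ℕ} {ρ : Measure ℝ} {β : ℝ} {h : Vec d}

/-! ### The events -/

lemma Lg0_mono {H S S' : ℕ} {x κ z z' : ℝ} (hS : S ≤ S') (hz : z ≤ z') :
    Lg0 ρ β h H S x κ z ⊆ Lg0 ρ β h H S' x κ z' := by
  rintro η ⟨s, hs, hX⟩
  exact ⟨s, hs.trans hS, by linarith⟩

lemma LgN_mono {H S S' N : ℕ} {x κ z z' : ℝ} (hS : S ≤ S') (hz : z ≤ z') :
    LgN ρ β h H S x κ z N ⊆ LgN ρ β h H S' x κ z' N := by
  rintro η ⟨s, hs, hX⟩
  exact ⟨s, hs.trans hS, by linarith⟩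

lemma Lg_mono {n H S S' : ℕ} {x κ z z' : ℝ} (hS : S ≤ S') (hz : z ≤ z') (i : ℕ) :
    Lg ρ β h n H S x κ z i ⊆ Lg ρ β h n H S' x κ z' i := by
  cases i with
  | zero => exact Lg0_mono hS hz
  | succ i =>
    rintro η ⟨N, h1, h2, h3, h4⟩
    exact ⟨N, h1, h2, h3, LgN_mono hS hz h4⟩

lemma Lk_mono {n H S S' : ℕ} {x κ z z' : ℝ} (hS : S ≤ S') (hz : z ≤ z') :
    Lk ρ β h n H S x κ z ⊆ Lk ρ β h n H S' x κ z' := by
  rintro η (h1 | ⟨N, h1, h2, h3⟩)
  · exact Or.inl (Lg0_mono hS hz h1)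
  · exact Or.inr ⟨N, h1, h2, LgN_mono hS hz h3⟩

lemma Lk_sub {n H S : ℕ} {x κ z : ℝ} (hH : 1 ≤ H) {η : Env d}
    (hη : η ∈ Lk ρ β h n H S x κ z) :
    ∃ i ∈ Finset.range (n + 1), η ∈ Lg ρ β h n H S x κ z i := by
  rcases hη with h1 | ⟨N, h1, h2, h3⟩
  · exact ⟨0, Finset.mem_range.2 (Nat.succ_pos n), h1⟩
  · have hN0 : N ≠ 0 := by omega
    obtain ⟨j, hj⟩ : ∃ j, Nat.log 2 N = j + 1 := by
      have : 0 < Nat.log 2 N := Nat.log_pos (by norm_num) h1
      exact ⟨Nat.log 2 N - 1, by omega⟩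
    have h4 := Nat.pow_log_le_self 2 hN0
    have h5 := Nat.lt_pow_succ_log_self (b := 2) (by norm_num) N
    rw [hj] at h4 h5
    refine ⟨j + 1, Finset.mem_range.2 ?_, N, h4, h5, h2, h3⟩
    have h6 : j + 1 < 2 ^ (j + 1) := Nat.lt_two_pow_self
    have h7 : N ≤ N * H := Nat.le_mul_of_pos_right N hH
    omega

lemma Lg0_meas {H S : ℕ} {x κ z : ℝ} : MeasurableSet (Lg0 ρ β h H S x κ z) := by
  have e : Lg0 ρ β h H S x κ z = ⋃ s : ℕ, ⋃ _ : s ≤ S,
      {η : Env d | ((H + s : ℕ) : ℝ) * lam ρ β h - (1 - κ) * x - z ≤ X β h η (H + s)} := by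
    ext η
    simp only [Lg0, Set.mem_ofPred_eq, Set.mem_iUnion, exists_prop]
  rw [e]
  exact MeasurableSet.iUnion fun s => MeasurableSet.iUnion fun _ =>
    measurableSet_le measurable_const (measurable_X β h _)

lemma LgN_meas {H S N : ℕ} {x κ z : ℝ} : MeasurableSet (LgN ρ β h H S x κ z N) := by
  have e : LgN ρ β h H S x κ z N = ⋃ s : ℕ, ⋃ _ : s ≤ S,
      {η : Env d | ((N * H + s : ℕ) : ℝ) * lam ρ β h + κ * N * x - z ≤
        X β h η (N * H + s)} := by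
    ext η
    simp only [LgN, Set.mem_ofPred_eq, Set.mem_iUnion, exists_prop]
  rw [e]
  exact MeasurableSet.iUnion fun s => MeasurableSet.iUnion fun _ =>
    measurableSet_le measurable_const (measurable_X β h _)

lemma Lg_meas {n H S : ℕ} {x κ z : ℝ} (i : ℕ) : MeasurableSet (Lg ρ β h n H S x κ z i) := by
  cases i with
  | zero => exact Lg0_meas
  | succ i =>
    have e : Lg ρ β h n H S x κ z (i + 1) = ⋃ N : ℕ,
        ⋃ _ : 2 ^ (i + 1) ≤ N ∧ N < 2 ^ (i + 2) ∧ N * H ≤ n, LgN ρ β h H S x κ z N := by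
      ext η
      simp only [Lg, Set.mem_ofPred_eq, Set.mem_iUnion, exists_prop, and_assoc]
    rw [e]
    exact MeasurableSet.iUnion fun N => MeasurableSet.iUnion fun _ => LgN_meas

lemma Lk_meas {n H S : ℕ} {x κ z : ℝ} : MeasurableSet (Lk ρ β h n H S x κ z) := by
  have e : Lk ρ β h n H S x κ z = Lg0 ρ β h H S x κ z ∪ ⋃ N : ℕ,
      ⋃ _ : 2 ≤ N ∧ N * H ≤ n, LgN ρ β h H S x κ z N := by
    ext η
    simp only [Lk, Set.mem_union, Set.mem_ofPred_eq, Set.mem_iUnion, exists_prop, and_assoc]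
  rw [e]
  exact Lg0_meas.union (MeasurableSet.iUnion fun N => MeasurableSet.iUnion fun _ => LgN_meas)

lemma X_dep89 (β : ℝ) (h : Vec d) {η η' : Env d} {m : ℕ}
    (hη : ∀ p ∈ {p : ℕ × Site d | 1 ≤ p.1 ∧ p.1 ≤ m}, η p = η' p) {k : ℕ} (hk : k ≤ m) :
    X β h η k = X β h η' k := by
  have h1 : Z β h η k = Z β h η' k := dependsOn_Z β h k fun p hp =>
    hη p ⟨hp.1, hp.2.trans hk⟩
  unfold X
  rw [h1]

lemma Lg0_congr {H S : ℕ} {x κ z : ℝ} {η η' : Env d}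
    (hX : ∀ s, s ≤ S → X β h η (H + s) = X β h η' (H + s))
    (h1 : η ∈ Lg0 ρ β h H S x κ z) : η' ∈ Lg0 ρ β h H S x κ z := by
  obtain ⟨s, hs, h2⟩ := h1
  exact ⟨s, hs, by rw [← hX s hs]; exact h2⟩

lemma LgN_congr {H S N : ℕ} {x κ z : ℝ} {η η' : Env d}
    (hX : ∀ s, s ≤ S → X β h η (N * H + s) = X β h η' (N * H + s))
    (h1 : η ∈ LgN ρ β h H S x κ z N) : η' ∈ LgN ρ β h H S x κ z N := by
  obtain ⟨s, hs, h2⟩ := h1
  exact ⟨s, hs, by rw [← hX s hs]; exact h2⟩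

lemma Lg_congr {n H S M : ℕ} {x κ z : ℝ} {i : ℕ} (hM : 2 ^ (i + 1) * H + S ≤ M) {η η' : Env d}
    (hη : ∀ p ∈ {p : ℕ × Site d | 1 ≤ p.1 ∧ p.1 ≤ M}, η p = η' p)
    (h1 : η ∈ Lg ρ β h n H S x κ z i) : η' ∈ Lg ρ β h n H S x κ z i := by
  cases i with
  | zero =>
    exact Lg0_congr (fun s hs => X_dep89 β h hη (by
      rw [zero_add, pow_one] at hM
      omega)) h1
  | succ i =>
    obtain ⟨N, h2, h3, h4, h5⟩ := h1
    refine ⟨N, h2, h3, h4, LgN_congr (fun s hs => X_dep89 β h hη ?_) h5⟩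
    have h6 : N * H ≤ 2 ^ (i + 1 + 1) * H := Nat.mul_le_mul_right H h3.le
    omega

lemma Lg_dep {n H S M : ℕ} {x κ z : ℝ} {i : ℕ} (hM : 2 ^ (i + 1) * H + S ≤ M) :
    DependsOn (fun η : Env d => η ∈ Lg ρ β h n H S x κ z i) {p | 1 ≤ p.1 ∧ p.1 ≤ M} := by
  intro η η' hη
  exact propext ⟨fun h1 => Lg_congr hM hη h1, fun h1 => Lg_congr hM (fun p hp => (hη p hp).symm) h1⟩

lemma Lk_congr {n H S : ℕ} {x κ z : ℝ} {η η' : Env d}
    (hη : ∀ p ∈ {p : ℕ × Site d | 1 ≤ p.1}, η p = η' p)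
    (h1 : η ∈ Lk ρ β h n H S x κ z) : η' ∈ Lk ρ β h n H S x κ z := by
  have hX : ∀ k, X β h η k = X β h η' k := fun k =>
    X_dep89 (m := k) β h (fun p hp => hη p hp.1) le_rfl
  rcases h1 with h1 | ⟨N, h1, h2, h3⟩
  · exact Or.inl (Lg0_congr (fun s _ => hX _) h1)
  · exact Or.inr ⟨N, h1, h2, LgN_congr (fun s _ => hX _) h3⟩

lemma iI_dep {n S : ℕ} {κ z : ℝ} {m : ℕ → ℕ} {a : ℕ} (J : Finset ℕ) :
    DependsOn (fun η : Env d => η ∈ ⋂ p ∈ J,
      Lk ρ β h n (m p - 2 * m (p - a)) S (2 ^ p) κ z) {p | 1 ≤ p.1} := by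
  intro η η' hη
  refine propext ⟨fun h1 => ?_, fun h1 => ?_⟩
  · have h2 := Set.mem_iInter₂.1 h1
    exact Set.mem_iInter₂.2 fun p hp => Lk_congr hη (h2 p hp)
  · have h2 := Set.mem_iInter₂.1 h1
    exact Set.mem_iInter₂.2 fun p hp => Lk_congr (fun q hq => (hη q hq).symm) (h2 p hp)

lemma iI_meas {n S : ℕ} {κ z : ℝ} {m : ℕ → ℕ} {a : ℕ} (J : Finset ℕ) :
    MeasurableSet (⋂ p ∈ J, Lk ρ β h n (m p - 2 * m (p - a)) S (2 ^ p) κ z) :=
  Finset.measurableSet_biInter _ fun _ _ => Lk_meas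

/-- From an atom. -/
lemma trans89 (hd : 0 < d) (β : ℝ) (h : Vec d) {c₀ : ℝ} (hc : 0 < c₀) {η : Env d} {s : ℕ}
    {y : Site d} (hy : y ∈ boxF d s) (hA : c₀ * Z β h η s ≤ PP β h η s y) (k : ℕ) :
    Real.log c₀ + X β h η s + X β h (sh s y η) k ≤ X β h η (s + k) := by
  have hZ := Z_pos hd β h η s
  have hZk := Z_pos hd β h (sh s y η) k
  have h1 : c₀ * Z β h η s * Z β h (sh s y η) k ≤ Z β h η (s + k) := by
    rw [S98.Z_split]
    refine (mul_le_mul_of_nonneg_right hA hZk.le).trans ?_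
    exact Finset.single_le_sum (f := fun y => PP β h η s y * Z β h (sh s y η) k)
      (fun y _ => mul_nonneg (PP_nonneg β h η s y) (Z_pos hd β h _ k).le) hy
  unfold X
  rw [← Real.log_mul hc.ne' hZ.ne', ← Real.log_mul (by positivity) hZk.ne']
  exact Real.log_le_log (by positivity) h1

lemma Lk_trans (hd : 0 < d) {c₀ : ℝ} (hc : 0 < c₀) {n H S S' s : ℕ} {x κ z z' w : ℝ}
    {η : Env d} {y : Site d} (hy : y ∈ boxF d s) (hA : c₀ * Z β h η s ≤ PP β h η s y)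
    (hX : s * lam ρ β h - w ≤ X β h η s) (hS : s + S ≤ S') (hz : z + w - Real.log c₀ ≤ z')
    (hη : sh s y η ∈ Lk ρ β h n H S x κ z) : η ∈ Lk ρ β h n H S' x κ z' := by
  rcases hη with ⟨s', hs', h1⟩ | ⟨N, hN, hn, s', hs', h1⟩
  · refine Or.inl ⟨s' + s, by omega, ?_⟩
    have h2 := trans89 hd β h hc hy hA (H + s')
    have e : H + (s' + s) = s + (H + s') := by ring
    rw [e]
    push_cast at h1 ⊢
    linarith
  · refine Or.inr ⟨N, hN, hn, s' + s, by omega, ?_⟩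
    have h2 := trans89 hd β h hc hy hA (N * H + s')
    have e : N * H + (s' + s) = s + (N * H + s') := by ring
    rw [e]
    push_cast at h1 ⊢
    linarith

/-! ### The levels -/

section Levels

variable {n a B Λ : ℕ} {ε : ℝ} {m : ℕ → ℕ} {I : Finset ℕ}

lemma mono89 (hS : Sy ρ β h n a B Λ ε m I) : Monotone m := by
  intro l l' hl
  by_contra hlt
  push Not at hlt
  have h1 := hS.lo l (m l') hlt
  have h2 := hS.hi l'
  have h3 : (2 : ℝ) ^ l ≤ 2 ^ l' := pow_le_pow_right₀ (by norm_num) hl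
  linarith

lemma le_n89 (hS : Sy ρ β h n a B Λ ε m I) {p : ℕ} (hp : p ∈ I) : m p ≤ n :=
  le_trans (Nat.le_self_pow (by norm_num) _) (hS.sm p hp)

lemma one_le89 (hS : Sy ρ β h n a B Λ ε m I) {p : ℕ} (hp : p ∈ I) : 1 ≤ m p := by
  have h1 := (hS.big p hp).2
  have h2 := mono89 hS (Nat.sub_le p a)
  omega

lemma far89 (hS : Sy ρ β h n a B Λ ε m I) (ha : 1 ≤ a) (hΛ : 64 ≤ Λ) {q p i : ℕ}
    (hq : q ∈ I) (hp : p ∈ I) (hqp : q < p) (hi : m (p - a) < 16 ^ i * m q) : p ≤ q + i := by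
  have h1 := hS.sp q hq p hp hqp
  obtain ⟨j, hj⟩ : ∃ j, p - a = q + j + 1 := ⟨p - a - q - 1, by omega⟩
  have h2 := hS.nc q hq j (by
    rw [← hj]
    exact (mono89 hS (Nat.sub_le p a)).trans (le_n89 hS hp))
  rw [← hj] at h2
  have h3 : Λ ^ (j + 1) * m q < 16 ^ i * m q := h2.trans hi
  have h4 : Λ ^ (j + 1) < 16 ^ i := lt_of_mul_lt_mul_right h3 (Nat.zero_le _)
  have h5 : 64 ^ (j + 1) < 16 ^ i := (Nat.pow_le_pow_left hΛ _).trans_lt h4
  have h6 : 2 ^ (6 * (j + 1)) < 2 ^ (4 * i) := by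
    rw [pow_mul, pow_mul]
    norm_num
    exact h5
  have h7 := (Nat.pow_lt_pow_iff_right (by norm_num)).1 h6
  omega

lemma next89 (hS : Sy ρ β h n a B Λ ε m I) (ha : 1 ≤ a) (hΛ : 64 ≤ Λ) {q p : ℕ}
    (hq : q ∈ I) (hp : p ∈ I) (hqp : q < p) : 64 * m q < m (p - a) := by
  have h1 := hS.sp q hq p hp hqp
  have hm := mono89 hS
  have h3 : m (q + 0 + 1) ≤ m (p - a) := hm (by omega)
  have h2 := hS.nc q hq 0 (h3.trans ((hm (Nat.sub_le p a)).trans (le_n89 hS hp)))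
  rw [zero_add, pow_one] at h2
  have h4 : 64 * m q ≤ Λ * m q := Nat.mul_le_mul_right _ hΛ
  omega

lemma size89 [IsProbabilityMeasure ρ] (hd : 0 < d) (hρ : EM ρ) (hS : Sy ρ β h n a B Λ ε m I)
    (ha : 3 ≤ a) (hB : 1 ≤ B) (hε : ε < 1) {q : ℕ} (hq : q ∈ I) : 2 * m (q - a) < m q := by
  by_contra hlt
  push Not at hlt
  obtain ⟨haq, hm2⟩ := hS.big q hq
  have hfM := hS.hi q
  have hF := hS.fs q hq (m q) (Nat.le_mul_of_pos_left _ hB)
  have h2q : (0 : ℝ) < 2 ^ q := by positivity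
  have hE : (2 : ℝ) ^ q ≤ En ρ β h (m q) := by
    unfold fM at hfM
    rcases le_max_iff.1 hfM with h1 | h1
    · exact h1
    · exfalso
      have : ε * 2 ^ q < 1 * 2 ^ q := mul_lt_mul_of_pos_right hε h2q
      linarith
  have hl : ∀ k, k < m (q - a) → En ρ β h k ≤ 2 ^ (q - a) := fun k hk =>
    (le_max_left _ _).trans (hS.lo _ k hk).le
  have hK : ∀ K k : ℕ, k ≤ K * (m (q - a) - 1) → En ρ β h k ≤ K * 2 ^ (q - a) := by
    intro K
    induction K with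
    | zero =>
      intro k hk
      rw [zero_mul] at hk
      have : k = 0 := by omega
      rw [this, En_zero15]
      simp
    | succ K ih =>
      intro k hk
      have h0 : (0 : ℝ) ≤ 2 ^ (q - a) := by positivity
      rcases le_total k (K * (m (q - a) - 1)) with h1 | h1
      · have := ih k h1
        push_cast
        linarith
      · obtain ⟨r, hr⟩ : ∃ r, k = K * (m (q - a) - 1) + r := ⟨k - K * (m (q - a) - 1), by omega⟩
        have hr1 : r < m (q - a) := by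
          rw [add_mul, one_mul] at hk
          omega
        rw [hr]
        have h2 := En_add15 hd hρ β h (K * (m (q - a) - 1)) r
        have h3 := ih _ le_rfl
        have h4 := hl r hr1
        push_cast
        linarith
  have h1 := hK 4 (m q) (by omega)
  have h2 : (2 : ℝ) ^ q = 2 ^ a * 2 ^ (q - a) := by
    rw [← pow_add]
    congr 1
    omega
  have h3 : (8 : ℝ) ≤ 2 ^ a := by
    calc (8 : ℝ) = 2 ^ 3 := by norm_num
      _ ≤ 2 ^ a := pow_le_pow_right₀ (by norm_num) ha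
  have h4 : (0 : ℝ) < 2 ^ (q - a) := by positivity
  have h5 : (8 : ℝ) * 2 ^ (q - a) ≤ 2 ^ a * 2 ^ (q - a) := mul_le_mul_of_nonneg_right h3 h4.le
  push_cast at h1
  linarith

end Levels

lemma sumD89 {m : ℕ → ℕ} {n : ℕ} (hm : Monotone m) {q r : ℕ} (hqr : q ≤ r) (h0 : 1 ≤ m q)
    (hqn : m q ≤ n) (R : Finset ℕ) (hR : ∀ p ∈ R, q ≤ p ∧ p < r ∧ m p ≤ n) :
    ∑ p ∈ R, Dl n m p ≤ Real.log ((min (m r) n : ℕ) / (m q : ℝ)) := by
  set g : ℕ → ℝ := fun p => Real.log ((min (m p) n : ℕ) : ℝ) with hg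
  have hpos : ∀ p, q ≤ p → 1 ≤ min (m p) n := fun p hp =>
    le_min (h0.trans (hm hp)) (h0.trans hqn)
  have hmono : ∀ p, q ≤ p → 0 ≤ g (p + 1) - g p := by
    intro p hp
    have h1 : (0 : ℝ) < (min (m p) n : ℕ) := by exact_mod_cast hpos p hp
    have h2 : ((min (m p) n : ℕ) : ℝ) ≤ (min (m (p + 1)) n : ℕ) := by
      exact_mod_cast min_le_min_right n (hm (Nat.le_succ p))
    have := Real.log_le_log h1 h2
    linarith
  have hD : ∀ p ∈ R, Dl n m p = g (p + 1) - g p := by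
    intro p hp
    obtain ⟨h1, h2, h3⟩ := hR p hp
    unfold Dl
    have h4 : (0 : ℝ) < (min (m (p + 1)) n : ℕ) := by exact_mod_cast hpos (p + 1) (by omega)
    have h5 : (0 : ℝ) < m p := by exact_mod_cast h0.trans (hm h1)
    rw [Real.log_div h4.ne' h5.ne']
    simp only [hg, min_eq_left h3]
  rw [Finset.sum_congr rfl hD]
  have tel : ∀ k, ∑ p ∈ Finset.Ico q (q + k), (g (p + 1) - g p) = g (q + k) - g q := by
    intro k
    induction k with
    | zero => simp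
    | succ k ih =>
      rw [← add_assoc, Finset.sum_Ico_succ_top (by omega), ih]
      ring
  have h1 : ∑ p ∈ R, (g (p + 1) - g p) ≤ ∑ p ∈ Finset.Ico q (q + (r - q)), (g (p + 1) - g p) := by
    refine Finset.sum_le_sum_of_subset_of_nonneg (fun p hp => ?_) fun p hp _ => ?_
    · have := hR p hp
      rw [Finset.mem_Ico]
      omega
    · exact hmono p (Finset.mem_Ico.1 hp).1
  refine h1.trans (le_of_eq ?_)
  rw [tel, show q + (r - q) = r by omega]
  have h4 : (0 : ℝ) < (min (m r) n : ℕ) := by exact_mod_cast hpos r hqr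
  have h5 : (0 : ℝ) < m q := by exact_mod_cast h0
  rw [Real.log_div h4.ne' h5.ne']
  simp only [hg, min_eq_left hqn]

/-- The numbers of a group: the second part. -/
lemma num89 {u S c : ℝ} {i : ℕ} (hu0 : 0 ≤ u) (hu1 : u ≤ (1 / 16) ^ i)
    (hu2 : u * Real.exp S ≤ 1) (hS : 0 ≤ S) (hc : c ≤ 1 / 2) :
    u * Real.exp (c * S) ≤ (1 / 4) ^ i := by
  have h1 : Real.exp (c * S) ≤ Real.exp (S / 2) :=
    Real.exp_le_exp.2 (by nlinarith)
  refine (mul_le_mul_of_nonneg_left h1 hu0).trans ?_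
  refine (pow_le_pow_iff_left₀ (by positivity) (by positivity) two_ne_zero).1 ?_
  have e1 : (u * Real.exp (S / 2)) ^ 2 = u * (u * Real.exp S) := by
    have : Real.exp S = Real.exp (S / 2) * Real.exp (S / 2) := by
      rw [← Real.exp_add]
      congr 1
      ring
    rw [this]
    ring
  have e2 : (((1 : ℝ) / 4) ^ i) ^ 2 = (1 / 16) ^ i := by
    rw [← pow_mul, mul_comm i 2, pow_mul]
    norm_num
  rw [e1, e2]
  calc u * (u * Real.exp S) ≤ u * 1 := mul_le_mul_of_nonneg_left hu2 hu0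
    _ ≤ (1 / 16) ^ i := by rw [mul_one]; exact hu1

/-- The geometric sum of the groups. -/
lemma geo89 {r C₁ : ℝ} (hr0 : 0 ≤ r) (hr1 : r < 1) (hC : 0 ≤ C₁) (k : ℕ) :
    ∑ i ∈ Finset.range k, (C₁ * r ^ i + 4 * (1 / 2) ^ i) ≤ C₁ / (1 - r) + 8 := by
  have h1 : ∀ x : ℝ, 0 ≤ x → x < 1 → ∑ i ∈ Finset.range k, x ^ i ≤ 1 / (1 - x) := by
    intro x hx0 hx1
    rw [le_div_iff₀ (by linarith), mul_comm, mul_neg_geom_sum]
    have := pow_nonneg hx0 k
    linarith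
  rw [Finset.sum_add_distrib, ← Finset.mul_sum, ← Finset.mul_sum]
  have h2 := mul_le_mul_of_nonneg_left (h1 r hr0 hr1) hC
  have h3 := h1 (1 / 2) (by norm_num) (by norm_num)
  have e : C₁ * (1 / (1 - r)) = C₁ / (1 - r) := by ring
  norm_num at h3 ⊢
  linarith

section Ind

variable [IsProbabilityMeasure ρ]

/-- The induction over the levels. -/
theorem ind89 (hd : 0 < d) (hρ : EM ρ) {c₀ κ Cc Cz c₁ C₁ : ℝ} (hc₀ : 0 < c₀) (hCc : 1 ≤ Cc)
    (hCz : 2 * Cc + |Real.log c₀| ≤ Cz) (hc₁ : 0 < c₁) (hC₁ : 1 ≤ C₁)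
    (hcat : ∀ (m T : ℕ) (Φ : ℝ) (L G G' : Set (Env d)), 1 ≤ m → 1 ≤ T → MeasurableSet L →
      MeasurableSet G → MeasurableSet G' → DependsOn (fun η => η ∈ L) {p | 1 ≤ p.1 ∧ p.1 ≤ m} →
      DependsOn (fun η => η ∈ G) {p | 1 ≤ p.1} →
      (∀ k : ℕ, k ≤ T → En ρ β h k ≤ Φ ∧ Fn ρ β h k ≤ Φ) →
      (∀ (s : ℕ) (y : Site d) (η : Env d), s ≤ T → y ∈ boxF d s → c₀ * Z β h η s ≤ PP β h η s y →
        s * lam ρ β h - Cc * (Φ + 1) ≤ X β h η s → sh s y η ∈ G → η ∈ G') →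
      (law d ρ).real (L ∩ G) ≤ Cc * ((law d ρ).real L + m / T) * (law d ρ).real G')
    {n a B Λ : ℕ} {ε : ℝ} {m : ℕ → ℕ} {I : Finset ℕ} (hS : Sy ρ β h n a B Λ ε m I)
    (ha : 3 ≤ a) (hB : 1 ≤ B) (hε : ε < 1) (hΛ : 64 ≤ Λ) (haz : 16 * Cz ≤ κ * 2 ^ a)
    (hcost : ∀ p ∈ I, ∀ i : ℕ, (law d ρ).real
      (Lg ρ β h n (m p - 2 * m (p - a)) (2 * m (p - a)) (2 ^ p) κ (κ / 8 * 2 ^ p) i) ≤
        C₁ * Real.exp (-(c₁ * i)) * ((m p : ℝ) / (min (m (p + i + 1)) n : ℕ)) ^ c₁)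
    {c : ℝ} (hc0 : 0 < c) (hc1 : c ≤ c₁) (hc2 : c ≤ 1 / 2) {K : ℝ}
    (hK : Cc * (C₁ / (1 - Real.exp (-c₁)) + 8) ≤ K) (hK1 : 1 ≤ K) :
    ∀ (N : ℕ) (J : Finset ℕ), J.card = N → J ⊆ I → ∀ q ∈ J, (∀ p ∈ J, q ≤ p) →
      (law d ρ).real (⋂ p ∈ J, Lk ρ β h n (m p - 2 * m (p - a)) (2 * m (q - a)) (2 ^ p) κ
        (Cz * 2 ^ (q - a + 1))) ≤ K ^ N * Real.exp (-(c * ∑ p ∈ J, Dl n m p)) := by
  classical
  have hm := mono89 hS
  have hCz0 : 0 ≤ Cz := by
    have := abs_nonneg (Real.log c₀)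
    linarith
  intro N
  induction N using Nat.strong_induction_on with
  | _ N IH =>
  intro J hJN hJI q hq hqJ
  have hqI := hJI hq
  obtain ⟨Sq, hSq⟩ : ∃ Sq : ℕ, Sq = 2 * m (q - a) := ⟨_, rfl⟩
  obtain ⟨zq, hzq⟩ : ∃ zq : ℝ, zq = Cz * 2 ^ (q - a + 1) := ⟨_, rfl⟩
  rw [← hSq, ← hzq]
  have hsz := size89 hd hρ hS ha hB hε hqI
  have haq := (hS.big q hqI).1
  have hm1 := one_le89 hS hqI
  have hmn := le_n89 hS hqI
  have hm1' : (0 : ℝ) < m q := by exact_mod_cast hm1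
  obtain ⟨J', hJ'⟩ : ∃ J' : Finset ℕ, J' = J.erase q := ⟨_, rfl⟩
  have hN : J'.card + 1 = N := by
    rw [hJ', Finset.card_erase_add_one hq, hJN]
  have hJ'J : J' ⊆ J := by rw [hJ']; exact Finset.erase_subset q J
  have hJ'q : ∀ p ∈ J', q < p := fun p hp => by
    rw [hJ'] at hp
    exact lt_of_le_of_ne (hqJ p (Finset.mem_of_mem_erase hp)) (Finset.ne_of_mem_erase hp).symm
  obtain ⟨LG, hLG⟩ : ∃ LG : ℕ → Set (Env d), LG = fun i =>
      Lg ρ β h n (m q - 2 * m (q - a)) Sq (2 ^ q) κ zq i := ⟨_, rfl⟩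
  have hzle : zq ≤ κ / 8 * 2 ^ q := by
    rw [hzq]
    have e1 : (2 : ℝ) ^ q = 2 ^ a * 2 ^ (q - a) := by
      rw [← pow_add]
      congr 1
      omega
    rw [e1, pow_succ]
    have h1 := mul_le_mul_of_nonneg_right haz (show (0 : ℝ) ≤ 2 ^ (q - a) by positivity)
    linarith
  obtain ⟨SJ, hSJ⟩ : ∃ SJ : ℝ, SJ = ∑ p ∈ J, Dl n m p := ⟨_, rfl⟩
  rw [← hSJ]
  have hstep : ∀ i : ℕ, (law d ρ).real (LG i ∩ ⋂ p ∈ J',
      Lk ρ β h n (m p - 2 * m (p - a)) Sq (2 ^ p) κ zq) ≤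
      Cc * (C₁ * Real.exp (-c₁) ^ i + 4 * (1 / 2) ^ i) * (K ^ (N - 1) * Real.exp (-(c * SJ))) := by
    intro i
    obtain ⟨Li, hLi⟩ : ∃ Li : ℝ, Li = Real.log ((min (m (q + i + 1)) n : ℕ) / (m q : ℝ)) :=
      ⟨_, rfl⟩
    have hmin : (0 : ℝ) < (min (m (q + i + 1)) n : ℕ) := by
      have h1 : 1 ≤ min (m (q + i + 1)) n := le_min (hm1.trans (hm (by omega))) (hm1.trans hmn)
      exact_mod_cast h1
    have hPL : (law d ρ).real (LG i) ≤ C₁ * Real.exp (-c₁) ^ i * Real.exp (-(c₁ * Li)) := by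
      have h1 := (measureReal_mono (μ := law d ρ) (Lg_mono (n := n) (β := β) (h := h) (ρ := ρ)
        (H := m q - 2 * m (q - a)) (x := 2 ^ q) (κ := κ) (le_refl Sq) hzle i))
      rw [hLG]
      refine h1.trans ?_
      rw [hSq]
      refine (hcost q hqI i).trans (le_of_eq ?_)
      have e1 : Real.exp (-(c₁ * i)) = Real.exp (-c₁) ^ i := by
        rw [← Real.exp_nat_mul]
        congr 1
        ring
      have e2 : ((m q : ℝ) / (min (m (q + i + 1)) n : ℕ)) ^ c₁ = Real.exp (-(c₁ * Li)) := by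
        rw [Real.rpow_def_of_pos (by positivity), hLi, Real.log_div hm1'.ne' hmin.ne',
          Real.log_div hmin.ne' hm1'.ne']
        congr 1
        ring
      rw [e1, e2]
    obtain ⟨J₂, hJ₂⟩ : ∃ J₂ : Finset ℕ, J₂ = J'.filter fun p => 16 ^ i * m q ≤ m (p - a) :=
      ⟨_, rfl⟩
    have hJ₂J' : J₂ ⊆ J' := by rw [hJ₂]; exact Finset.filter_subset _ _
    obtain ⟨R, hR⟩ : ∃ R : Finset ℕ, R = J \ J₂ := ⟨_, rfl⟩
    obtain ⟨SR, hSR⟩ : ∃ SR : ℝ, SR = ∑ p ∈ R, Dl n m p := ⟨_, rfl⟩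
    have hsplit : SJ = SR + ∑ p ∈ J₂, Dl n m p := by
      rw [hSJ, hSR, hR, Finset.sum_sdiff (hJ₂J'.trans hJ'J)]
    have hRmem : ∀ p ∈ R, p ∈ I ∧ q ≤ p ∧ (p = q ∨ (q < p ∧ m (p - a) < 16 ^ i * m q)) := by
      intro p hp
      rw [hR, Finset.mem_sdiff] at hp
      refine ⟨hJI hp.1, hqJ p hp.1, ?_⟩
      rcases eq_or_lt_of_le (hqJ p hp.1) with h1 | h1
      · exact Or.inl h1.symm
      · refine Or.inr ⟨h1, ?_⟩
        by_contra hge
        push Not at hge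
        refine hp.2 ?_
        rw [hJ₂, Finset.mem_filter, hJ']
        exact ⟨Finset.mem_erase.2 ⟨h1.ne', hp.1⟩, hge⟩
    have hSR1 : SR ≤ Li := by
      rw [hSR, hLi]
      refine sumD89 hm (by omega) hm1 hmn R fun p hp => ?_
      obtain ⟨h1, h2, h3⟩ := hRmem p hp
      refine ⟨h2, ?_, le_n89 hS h1⟩
      rcases h3 with h3 | ⟨h3, h4⟩
      · omega
      · have := far89 hS (by omega) hΛ hqI h1 h3 h4
        omega
    have hSR0 : 0 ≤ SR := by
      rw [hSR]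
      refine Finset.sum_nonneg fun p hp => ?_
      obtain ⟨h1, h2, -⟩ := hRmem p hp
      have h3 := one_le89 hS h1
      have h3' : (0 : ℝ) < m p := by exact_mod_cast h3
      unfold Dl
      refine Real.log_nonneg ?_
      rw [le_div_iff₀ h3', one_mul]
      have h4 : m p ≤ min (m (p + 1)) n := le_min (hm (Nat.le_succ p)) (le_n89 hS h1)
      exact_mod_cast h4
    have hP1 : (law d ρ).real (LG i) * Real.exp (c * SR) ≤ C₁ * Real.exp (-c₁) ^ i := by
      have h1 : Real.exp (-(c₁ * Li)) * Real.exp (c * SR) ≤ 1 := by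
        rw [← Real.exp_add, Real.exp_le_one_iff]
        have h2 : c * SR ≤ c * Li := mul_le_mul_of_nonneg_left hSR1 hc0.le
        have h3 : c * Li ≤ c₁ * Li := mul_le_mul_of_nonneg_right hc1 (hSR0.trans hSR1)
        linarith
      calc (law d ρ).real (LG i) * Real.exp (c * SR)
          ≤ C₁ * Real.exp (-c₁) ^ i * Real.exp (-(c₁ * Li)) * Real.exp (c * SR) :=
            mul_le_mul_of_nonneg_right hPL (Real.exp_pos _).le
        _ = C₁ * Real.exp (-c₁) ^ i * (Real.exp (-(c₁ * Li)) * Real.exp (c * SR)) := by ring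
        _ ≤ C₁ * Real.exp (-c₁) ^ i * 1 := mul_le_mul_of_nonneg_left h1 (by positivity)
        _ = C₁ * Real.exp (-c₁) ^ i := mul_one _
    have hKp : 1 ≤ K ^ (N - 1) := one_le_pow₀ hK1
    have hK0 : 0 < K ^ (N - 1) := by linarith
    have hexp : Real.exp (-(c * SJ)) * Real.exp (c * SR) =
        Real.exp (-(c * ∑ p ∈ J₂, Dl n m p)) := by
      rw [← Real.exp_add, hsplit]
      congr 1
      ring
    rcases J₂.eq_empty_or_nonempty with hE | hE
    · -- the group alone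
      have h1 : (law d ρ).real (LG i ∩ ⋂ p ∈ J',
          Lk ρ β h n (m p - 2 * m (p - a)) Sq (2 ^ p) κ zq) ≤ (law d ρ).real (LG i) :=
        measureReal_mono Set.inter_subset_left
      have h2 : SJ = SR := by rw [hsplit, hE, Finset.sum_empty, add_zero]
      have h3 : (law d ρ).real (LG i) ≤ C₁ * Real.exp (-c₁) ^ i * Real.exp (-(c * SJ)) := by
        have h4 := mul_le_mul_of_nonneg_right hP1 (Real.exp_pos (-(c * SJ))).le
        rw [mul_assoc, ← Real.exp_add, h2] at h4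
        rw [h2]
        simpa using h4
      refine h1.trans (h3.trans ?_)
      have h5 : 0 ≤ C₁ * Real.exp (-c₁) ^ i := by positivity
      have h6 : (0 : ℝ) ≤ 4 * (1 / 2) ^ i := by positivity
      have h7 : C₁ * Real.exp (-c₁) ^ i ≤
          Cc * (C₁ * Real.exp (-c₁) ^ i + 4 * (1 / 2) ^ i) * K ^ (N - 1) := by
        have h8 : C₁ * Real.exp (-c₁) ^ i ≤ Cc * (C₁ * Real.exp (-c₁) ^ i + 4 * (1 / 2) ^ i) := by
          nlinarith
        have h9 : 0 ≤ Cc * (C₁ * Real.exp (-c₁) ^ i + 4 * (1 / 2) ^ i) := by positivity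
        nlinarith
      calc C₁ * Real.exp (-c₁) ^ i * Real.exp (-(c * SJ))
          ≤ Cc * (C₁ * Real.exp (-c₁) ^ i + 4 * (1 / 2) ^ i) * K ^ (N - 1) *
            Real.exp (-(c * SJ)) := mul_le_mul_of_nonneg_right h7 (Real.exp_pos _).le
        _ = _ := by ring
    · -- the next level
      obtain ⟨q', hq'⟩ : ∃ q' : ℕ, q' = J₂.min' hE := ⟨_, rfl⟩
      have hq'J : q' ∈ J₂ := by rw [hq']; exact J₂.min'_mem hE
      have hq'min : ∀ p ∈ J₂, q' ≤ p := fun p hp => by rw [hq']; exact J₂.min'_le p hp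
      have hJ₂I : J₂ ⊆ I := (hJ₂J'.trans hJ'J).trans hJI
      have hq'I := hJ₂I hq'J
      have hqq' := hJ'q q' (hJ₂J' hq'J)
      have hsp := hS.sp q hqI q' hq'I hqq'
      have hnx := next89 hS (by omega) hΛ hqI hq'I hqq'
      have h16 : 16 ^ i * m q ≤ m (q' - a) := by
        have := hq'J
        rw [hJ₂, Finset.mem_filter] at this
        exact this.2
      have hT1 : 2 ≤ m (q' - a) := (hS.big q' hq'I).2
      have hc' : J₂.card < N := by
        have := Finset.card_le_card hJ₂J'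
        omega
      have hIH := IH J₂.card hc' J₂ rfl hJ₂I q' hq'J hq'min
      -- the transfer
      have hsub : (⋂ p ∈ J', Lk ρ β h n (m p - 2 * m (p - a)) Sq (2 ^ p) κ zq) ⊆
          ⋂ p ∈ J₂, Lk ρ β h n (m p - 2 * m (p - a)) Sq (2 ^ p) κ zq := by
        intro η hη
        exact Set.mem_iInter₂.2 fun p hp => Set.mem_iInter₂.1 hη p (hJ₂J' hp)
      have hcat' := hcat (2 ^ (i + 1) * m q) (m (q' - a) - 1) (2 ^ (q' - a)) (LG i)
        (⋂ p ∈ J₂, Lk ρ β h n (m p - 2 * m (p - a)) Sq (2 ^ p) κ zq)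
        (⋂ p ∈ J₂, Lk ρ β h n (m p - 2 * m (p - a)) (2 * m (q' - a)) (2 ^ p) κ
          (Cz * 2 ^ (q' - a + 1)))
        (by
          have : 1 ≤ 2 ^ (i + 1) := Nat.one_le_two_pow
          exact Nat.one_le_iff_ne_zero.2 (by positivity)) (by omega)
        (by rw [hLG]; exact Lg_meas i) (iI_meas J₂) (iI_meas J₂)
        (by
          rw [hLG]
          refine Lg_dep ?_
          rw [hSq]
          have h1 : 1 ≤ 2 ^ (i + 1) := Nat.one_le_two_pow
          have h2 : m q = (m q - 2 * m (q - a)) + 2 * m (q - a) := by omega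
          have h3 : 2 * m (q - a) ≤ 2 ^ (i + 1) * (2 * m (q - a)) :=
            Nat.le_mul_of_pos_left _ h1
          calc 2 ^ (i + 1) * (m q - 2 * m (q - a)) + 2 * m (q - a)
              ≤ 2 ^ (i + 1) * (m q - 2 * m (q - a)) + 2 ^ (i + 1) * (2 * m (q - a)) := by omega
            _ = 2 ^ (i + 1) * ((m q - 2 * m (q - a)) + 2 * m (q - a)) := by ring
            _ = 2 ^ (i + 1) * m q := by rw [← h2])
        (iI_dep J₂)
        (fun k hk => by
          have h1 := hS.lo (q' - a) k (by omega)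
          exact ⟨(le_max_left _ _).trans h1.le, (le_max_right _ _).trans h1.le⟩)
        (fun s y η hs hy hA hX hη => by
          refine Set.mem_iInter₂.2 fun p hp => ?_
          refine Lk_trans hd hc₀ hy hA hX (S := Sq) (z := zq) ?_ ?_ (Set.mem_iInter₂.1 hη p hp)
          · rw [hSq]
            omega
          · rw [hzq]
            have h1 : (1 : ℝ) ≤ 2 ^ (q' - a) := one_le_pow₀ (by norm_num)
            have h2 : (2 : ℝ) ^ (q - a + 1) ≤ 2 ^ (q' - a) :=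
              pow_le_pow_right₀ (by norm_num) (by omega)
            have h3 : Cz * (2 : ℝ) ^ (q - a + 1) ≤ Cz * 2 ^ (q' - a) :=
              mul_le_mul_of_nonneg_left h2 hCz0
            have h4 : (2 * Cc + |Real.log c₀|) * (2 : ℝ) ^ (q' - a) ≤ Cz * 2 ^ (q' - a) :=
              mul_le_mul_of_nonneg_right hCz (by positivity)
            have h5 : -Real.log c₀ ≤ |Real.log c₀| * 2 ^ (q' - a) := by
              have h6 := neg_le_abs (Real.log c₀)
              have h7 := abs_nonneg (Real.log c₀)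
              nlinarith
            have h8 : Cc * ((2 : ℝ) ^ (q' - a) + 1) ≤ 2 * Cc * 2 ^ (q' - a) := by nlinarith
            rw [pow_succ (2 : ℝ) (q' - a)]
            linarith)
      have hPL0 : 0 ≤ (law d ρ).real (LG i) := measureReal_nonneg
      obtain ⟨u, hu⟩ : ∃ u : ℝ, u = (m q : ℝ) / m (q' - a) := ⟨_, rfl⟩
      have hmq' : (0 : ℝ) < m (q' - a) := by
        have : 0 < m (q' - a) := by omega
        exact_mod_cast this
      have hu0 : 0 ≤ u := by rw [hu]; positivity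
      have hu1 : u ≤ (1 / 16) ^ i := by
        rw [hu, div_le_iff₀ hmq', one_div, inv_pow, ← div_eq_inv_mul, le_div_iff₀ (by positivity)]
        have : ((16 ^ i * m q : ℕ) : ℝ) ≤ m (q' - a) := by exact_mod_cast h16
        push_cast at this
        linarith
      have hu2 : u * Real.exp SR ≤ 1 := by
        have hq'n : m (q' - a) ≤ n := (hm (Nat.sub_le q' a)).trans (le_n89 hS hq'I)
        have h1 : SR ≤ Real.log ((min (m (q' - a)) n : ℕ) / (m q : ℝ)) := by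
          rw [hSR]
          refine sumD89 hm (by omega) hm1 hmn R fun p hp => ?_
          obtain ⟨h1, h2, h3⟩ := hRmem p hp
          refine ⟨h2, ?_, le_n89 hS h1⟩
          rcases h3 with h3 | ⟨h3, h4⟩
          · omega
          · have hpq' : p < q' := by
              by_contra hge
              push Not at hge
              have := hm (Nat.sub_le_sub_right hge a)
              omega
            have := hS.sp p h1 q' hq'I hpq'
            omega
        rw [min_eq_left hq'n] at h1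
        have h2 : Real.exp SR ≤ (m (q' - a) : ℝ) / m q := by
          rw [← Real.le_log_iff_exp_le (by positivity)]
          exact h1
        calc u * Real.exp SR ≤ u * ((m (q' - a) : ℝ) / m q) := mul_le_mul_of_nonneg_left h2 hu0
          _ = 1 := by
            rw [hu]
            field_simp
      have hnum := num89 hu0 hu1 hu2 hSR0 hc2
      have hMT : ((2 ^ (i + 1) * m q : ℕ) : ℝ) / ((m (q' - a) - 1 : ℕ) : ℝ) ≤
          4 * 2 ^ i * u := by
        have h1 : (m (q' - a) : ℝ) ≤ 2 * ((m (q' - a) - 1 : ℕ) : ℝ) := by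
          have : m (q' - a) ≤ 2 * (m (q' - a) - 1) := by omega
          exact_mod_cast this
        have h2 : (0 : ℝ) < ((m (q' - a) - 1 : ℕ) : ℝ) := by linarith
        rw [div_le_iff₀ h2, hu]
        push_cast
        rw [pow_succ]
        have h3 : 4 * 2 ^ i * ((m q : ℝ) / m (q' - a)) * ((m (q' - a) - 1 : ℕ) : ℝ) =
            2 ^ i * 2 * m q * (2 * ((m (q' - a) - 1 : ℕ) : ℝ) / m (q' - a)) := by
          field_simp
          ring
        rw [h3]
        have h4 : 1 ≤ 2 * ((m (q' - a) - 1 : ℕ) : ℝ) / m (q' - a) := by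
          rw [le_div_iff₀ hmq', one_mul]
          exact h1
        have h5 : (0 : ℝ) ≤ 2 ^ i * 2 * m q := by positivity
        nlinarith
      have hMT0 : 0 ≤ ((2 ^ (i + 1) * m q : ℕ) : ℝ) / ((m (q' - a) - 1 : ℕ) : ℝ) := by positivity
      have hsum : ((law d ρ).real (LG i) +
          ((2 ^ (i + 1) * m q : ℕ) : ℝ) / ((m (q' - a) - 1 : ℕ) : ℝ)) * Real.exp (c * SR) ≤
          C₁ * Real.exp (-c₁) ^ i + 4 * (1 / 2) ^ i := by
        rw [add_mul]
        refine add_le_add hP1 ?_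
        refine (mul_le_mul_of_nonneg_right hMT (Real.exp_pos _).le).trans ?_
        calc 4 * 2 ^ i * u * Real.exp (c * SR) = 4 * 2 ^ i * (u * Real.exp (c * SR)) := by ring
          _ ≤ 4 * 2 ^ i * (1 / 4) ^ i := mul_le_mul_of_nonneg_left hnum (by positivity)
          _ = 4 * (1 / 2) ^ i := by
            rw [mul_assoc, ← mul_pow]
            norm_num
      have hpow : K ^ J₂.card ≤ K ^ (N - 1) := pow_le_pow_right₀ hK1 (by omega)
      have hIH' : (law d ρ).real (⋂ p ∈ J₂, Lk ρ β h n (m p - 2 * m (p - a)) (2 * m (q' - a))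
          (2 ^ p) κ (Cz * 2 ^ (q' - a + 1))) ≤
          K ^ (N - 1) * (Real.exp (-(c * SJ)) * Real.exp (c * SR)) := by
        rw [hexp]
        exact hIH.trans (mul_le_mul_of_nonneg_right hpow (Real.exp_pos _).le)
      calc (law d ρ).real (LG i ∩ ⋂ p ∈ J', Lk ρ β h n (m p - 2 * m (p - a)) Sq (2 ^ p) κ zq)
          ≤ (law d ρ).real (LG i ∩ ⋂ p ∈ J₂,
              Lk ρ β h n (m p - 2 * m (p - a)) Sq (2 ^ p) κ zq) :=
            measureReal_mono (Set.inter_subset_inter_right _ hsub)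
        _ ≤ _ := hcat'
        _ ≤ Cc * ((law d ρ).real (LG i) +
            ((2 ^ (i + 1) * m q : ℕ) : ℝ) / ((m (q' - a) - 1 : ℕ) : ℝ)) *
            (K ^ (N - 1) * (Real.exp (-(c * SJ)) * Real.exp (c * SR))) :=
          mul_le_mul_of_nonneg_left hIH' (by positivity)
        _ = Cc * (((law d ρ).real (LG i) +
            ((2 ^ (i + 1) * m q : ℕ) : ℝ) / ((m (q' - a) - 1 : ℕ) : ℝ)) * Real.exp (c * SR)) *
            (K ^ (N - 1) * Real.exp (-(c * SJ))) := by ring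
        _ ≤ Cc * (C₁ * Real.exp (-c₁) ^ i + 4 * (1 / 2) ^ i) *
            (K ^ (N - 1) * Real.exp (-(c * SJ))) :=
          mul_le_mul_of_nonneg_right (mul_le_mul_of_nonneg_left hsum (by positivity))
            (by positivity)
  -- the union of the groups
  have hcov : (⋂ p ∈ J, Lk ρ β h n (m p - 2 * m (p - a)) Sq (2 ^ p) κ zq) ⊆
      ⋃ i ∈ Finset.range (n + 1), (LG i ∩ ⋂ p ∈ J',
        Lk ρ β h n (m p - 2 * m (p - a)) Sq (2 ^ p) κ zq) := by
    intro η hη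
    have h1 := Set.mem_iInter₂.1 hη
    obtain ⟨i, hi, h2⟩ := Lk_sub (by omega) (h1 q hq)
    refine Set.mem_iUnion₂.2 ⟨i, hi, ?_, Set.mem_iInter₂.2 fun p hp => h1 p (hJ'J hp)⟩
    rw [hLG]
    exact h2
  refine (measureReal_mono hcov (measure_ne_top _ _)).trans
    ((measureReal_biUnion_finset_le _ _).trans ?_)
  refine (Finset.sum_le_sum fun i _ => hstep i).trans ?_
  rw [← Finset.sum_mul, ← Finset.mul_sum]
  have hr0 : 0 ≤ Real.exp (-c₁) := (Real.exp_pos _).le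
  have hr1 : Real.exp (-c₁) < 1 := by
    rw [Real.exp_lt_one_iff]
    linarith
  have h1 := geo89 hr0 hr1 (by linarith : (0 : ℝ) ≤ C₁) (n + 1)
  have h2 : Cc * ∑ i ∈ Finset.range (n + 1), (C₁ * Real.exp (-c₁) ^ i + 4 * (1 / 2) ^ i) ≤ K :=
    (mul_le_mul_of_nonneg_left h1 (by linarith)).trans hK
  calc _ ≤ K * (K ^ (N - 1) * Real.exp (-(c * SJ))) :=
        mul_le_mul_of_nonneg_right h2 (by positivity)
    _ = K ^ N * Real.exp (-(c * SJ)) := by
      rw [← mul_assoc, ← pow_succ']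
      congr 2
      omega

end Ind

end Pool.Agent.W_7d29a1_PL.A89

namespace Pool.Agent.W_7d29a1_PL

open MeasureTheory ProbabilityTheory Filter Topology Pool.Agent.W_MP_7d29a1_pr
  Pool.Agent.W_7d29a1_h46 Pool.Agent.W_7d29a1_h46u Pool.Agent.W_7d29a1_D2.B35
  Pool.Agent.W_7d29a1_Q29 Pool.Agent.W_7d29a1_R34 Pool.Agent.W_7d29a1_SP

/-- **Leaf ADD.** -/
theorem add89 {d : ℕ} {ρ : Measure ℝ} {β : ℝ} [IsProbabilityMeasure ρ] (hd : 0 < d) (hρ : EM ρ)
    (hcat : CatP d ρ β) (hcost : CostP d ρ β) : AddP d ρ β := by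
  classical
  intro c₀ κ hc₀ hκ hκ2
  obtain ⟨Cc, hCc, hcat⟩ := hcat c₀ hc₀
  obtain ⟨a₀, B₀, Λ₀, ε₀, c₁, C₁, hε₀, hc₁, hC₁, hcost⟩ := hcost c₀ κ hc₀ hκ hκ2
  obtain ⟨Cz, hCz⟩ : ∃ Cz : ℝ, Cz = 2 * Cc + |Real.log c₀| := ⟨_, rfl⟩
  have hCz0 : 0 ≤ Cz := by
    have := abs_nonneg (Real.log c₀)
    linarith
  obtain ⟨a₁, ha₁⟩ : ∃ a₁ : ℕ, 16 * Cz / κ < 2 ^ a₁ := pow_unbounded_of_one_lt _ (by norm_num)
  obtain ⟨a, ha⟩ : ∃ a : ℕ, a = max (max a₀ a₁) 3 := ⟨_, rfl⟩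
  have haa₀ : a₀ ≤ a := by omega
  have haa₁ : a₁ ≤ a := by omega
  have ha3 : 3 ≤ a := by omega
  have haz : 16 * Cz ≤ κ * 2 ^ a := by
    have h1 : (2 : ℝ) ^ a₁ ≤ 2 ^ a := pow_le_pow_right₀ (by norm_num) haa₁
    have h2 : 16 * Cz / κ ≤ 2 ^ a := ha₁.le.trans h1
    rw [div_le_iff₀ hκ] at h2
    linarith
  obtain ⟨c, hc⟩ : ∃ c : ℝ, c = min c₁ (1 / 2) := ⟨_, rfl⟩
  have hc0 : 0 < c := by rw [hc]; exact lt_min hc₁ (by norm_num)
  have hc1 : c ≤ c₁ := by rw [hc]; exact min_le_left _ _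
  have hc2 : c ≤ 1 / 2 := by rw [hc]; exact min_le_right _ _
  have hr1 : Real.exp (-c₁) < 1 := by
    rw [Real.exp_lt_one_iff]
    linarith
  obtain ⟨K, hK⟩ : ∃ K : ℝ, K = Cc * (C₁ / (1 - Real.exp (-c₁)) + 8) := ⟨_, rfl⟩
  have hK8 : 8 ≤ K := by
    have h1 : 0 ≤ C₁ / (1 - Real.exp (-c₁)) := div_nonneg (by linarith) (by linarith)
    rw [hK]
    nlinarith
  refine ⟨a, max B₀ 1, max Λ₀ 64, min ε₀ (1 / 2), c, max 1 (Real.log K), by omega,
    lt_min hε₀ (by norm_num), hc0, le_max_left _ _, fun h hloc n m I hS hvar => ?_⟩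
  -- the system for the cost
  have hS₀ : Sy ρ β h n a B₀ Λ₀ ε₀ m I := by
    refine ⟨hS.lo, hS.hi, hS.big, hS.sm, fun p hp j hj => ?_, hS.sp, fun p hp k hk => ?_⟩
    · refine lt_of_le_of_lt ?_ (hS.nc p hp j hj)
      exact Nat.mul_le_mul_right _ (Nat.pow_le_pow_left (le_max_left _ _) _)
    · refine (hS.fs p hp k (hk.trans (Nat.mul_le_mul_right _ (le_max_left _ _)))).trans ?_
      exact mul_le_mul_of_nonneg_right (min_le_left _ _) (by positivity)
  have hco := hcost a haa₀ h hloc n m I hS₀ hvar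
  rcases I.eq_empty_or_nonempty with hE | hE
  · rw [hE]
    simp
  · obtain ⟨q, hq⟩ : ∃ q : ℕ, q = I.min' hE := ⟨_, rfl⟩
    have hqI : q ∈ I := by rw [hq]; exact I.min'_mem hE
    have hqmin : ∀ p ∈ I, q ≤ p := fun p hp => by rw [hq]; exact I.min'_le p hp
    have h1 := A89.ind89 hd hρ hc₀ hCc hCz.ge hc₁ hC₁ (hcat h hloc) hS ha3 (le_max_right _ _)
      (lt_of_le_of_lt (min_le_right _ _) (by norm_num)) (le_max_right _ _) haz hco hc0 hc1 hc2
      hK.ge (by linarith) I.card I rfl (Finset.Subset.refl I) q hqI hqmin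
    refine le_trans (measureReal_mono ?_) (h1.trans ?_)
    · intro η hη
      exact Set.mem_iInter₂.2 fun p hp => A89.Lk_mono (Nat.zero_le _) (by positivity)
        (Set.mem_iInter₂.1 hη p hp)
    · have hK0 : 0 < K := by linarith
      have e1 : K ^ I.card = Real.exp (Real.log K * I.card) := by
        rw [mul_comm, Real.exp_nat_mul, Real.exp_log hK0]
      rw [e1, ← Real.exp_add]
      refine Real.exp_le_exp.2 ?_
      have h2 : Real.log K * I.card ≤ max 1 (Real.log K) * I.card :=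
        mul_le_mul_of_nonneg_right (le_max_right _ _) (Nat.cast_nonneg _)
      linarith

end Pool.Agent.W_7d29a1_PL
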