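import Pool.Agent.W_7d29a1_PL.AddB54

/-!
ADD, the number part in the form of `CostP` (uniform price of a single luck).
-/

set_option autoImplicit false

namespace Pool.Agent.W_7d29a1_PL.Ad54

open Finset

/-- The next level of the chain after the horizon `4 ^ i m_p`. -/
lemma nextC54 {x : ℕ → ℝ} (hx : Monotone x) {a₀ : ℕ} {L C₁ : ℝ} (hC₁ : 4 * ((a₀ : ℝ) + 1) ≤ C₁)
    {S : Finset ℕ} (hS1 : ∀ l ∈ S, x l < L) (hS : ∀ l ∈ S, ∀ l' ∈ S, l < l' → l + a₀ + 1 ≤ l')
    (hgood : ∀ l ∈ S, ∀ i : ℕ, 1 ≤ i → x (l + i) < L → C₁ * i ≤ x (l + i) - x l)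
    {p : ℕ} (hp : p ∈ S) (i : ℕ) :
    ∃ g : ℕ, p < g ∧
      ∑ r ∈ (Ico p g).filter (· ∈ S), (x (r + 1) - x r) ≤ x (p + i + 1) - x p ∧
      ((g ∈ S ∧ x p + 2 * i * Real.log 2 ≤ x (g - a₀) ∧
        ∑ r ∈ (Ico p g).filter (· ∈ S), (x (r + 1) - x r) ≤ x (g - a₀) - x p) ∨
        ∀ r ∈ S, r < g) := by
  classical
  set T := S.filter fun q => p < q ∧ x p + 2 * i * Real.log 2 ≤ x (q - a₀) with hT
  have hlog : Real.log 2 < 0.6931471808 := Real.log_two_lt_d9
  have hlog0 : 0 < Real.log 2 := Real.log_pos (by norm_num)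
  -- the last element
  have key : ∀ g : ℕ, p < g → (∀ z ∈ S, p < z → z < g → z ∉ T) →
      ∃ z ∈ S, z < g ∧ z ≤ p + i ∧ (Ico p g).filter (· ∈ S) ⊆ Ico p (z + 1) ∧ p ≤ z := by
    intro g hg hz
    have hne : ((Ico p g).filter (· ∈ S)).Nonempty :=
      ⟨p, mem_filter.2 ⟨mem_Ico.2 ⟨le_rfl, hg⟩, hp⟩⟩
    obtain ⟨z, hzm, hzmax⟩ : ∃ z ∈ (Ico p g).filter (· ∈ S),
        ∀ r ∈ (Ico p g).filter (· ∈ S), r ≤ z :=
      ⟨_, max'_mem _ hne, fun r hr => le_max' _ r hr⟩
    obtain ⟨hz1, hz2⟩ := mem_filter.1 hzm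
    obtain ⟨hz3, hz4⟩ := mem_Ico.1 hz1
    refine ⟨z, hz2, hz4, ?_, ?_, hz3⟩
    · rcases eq_or_lt_of_le hz3 with h | h
      · omega
      · have h1 := hz z hz2 h hz4
        rw [hT, mem_filter, not_and, not_and, not_le] at h1
        have h2 := h1 hz2 h
        have h3 := hS p hp z hz2 h
        have h0 : x (p + (z - a₀ - p)) < L := by
          rw [show p + (z - a₀ - p) = z - a₀ by omega]
          exact (hx (Nat.sub_le z a₀)).trans_lt (hS1 z hz2)
        have h4 := hgood p hp (z - a₀ - p) (by omega) h0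
        rw [show p + (z - a₀ - p) = z - a₀ by omega] at h4
        set w := z - a₀ - p with hw
        have hw1 : 1 ≤ w := by omega
        have hw1' : (1 : ℝ) ≤ w := by exact_mod_cast hw1
        have h5 : z - p = w + a₀ := by omega
        have ha : (0 : ℝ) ≤ a₀ := Nat.cast_nonneg _
        have hi : (0 : ℝ) ≤ i := Nat.cast_nonneg _
        have h6 : 4 * ((a₀ : ℝ) + 1) * w ≤ 2 * i * Real.log 2 := by
          have := mul_le_mul_of_nonneg_right hC₁ (by linarith : (0 : ℝ) ≤ w)
          linarith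
        have h7 : ((w : ℝ) + a₀) ≤ ((a₀ : ℝ) + 1) * w := by nlinarith
        have h8 : ((w : ℝ) + a₀) ≤ i := by nlinarith
        have h9 : w + a₀ ≤ i := by exact_mod_cast h8
        omega
    · intro r hr
      obtain ⟨hr1, hr2⟩ := mem_filter.1 hr
      exact mem_Ico.2 ⟨(mem_Ico.1 hr1).1, Nat.lt_succ_of_le (hzmax r hr)⟩
  rcases T.eq_empty_or_nonempty with hTe | hTn
  · refine ⟨S.sup id + p + 1, by omega, ?_, Or.inr fun r hr => ?_⟩
    · obtain ⟨z, hzS, hzg, hzi, hzs, hzp⟩ := key (S.sup id + p + 1) (by omega)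
        (fun z _ _ _ => by rw [hTe]; exact notMem_empty z)
      refine (sumD54 hx (by omega) hzs).trans ?_
      linarith [hx (by omega : z + 1 ≤ p + i + 1)]
    · have : r ≤ S.sup id := le_sup (f := id) hr
      omega
  · have hgm := T.min'_mem hTn
    obtain ⟨hg1, hg2, hg3⟩ : T.min' hTn ∈ S ∧ p < T.min' hTn ∧
        x p + 2 * i * Real.log 2 ≤ x (T.min' hTn - a₀) := by
      have := mem_filter.1 hgm
      exact ⟨this.1, this.2.1, this.2.2⟩
    set g := T.min' hTn with hg
    obtain ⟨z, hzS, hzg, hzi, hzs, hzp⟩ := key g hg2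
      (fun z _ _ hz hzT => absurd (T.min'_le z hzT) (not_le.2 hz))
    refine ⟨g, hg2, ?_, Or.inl ⟨hg1, hg3, ?_⟩⟩
    · refine (sumD54 hx (by omega) hzs).trans ?_
      linarith [hx (by omega : z + 1 ≤ p + i + 1)]
    · refine (sumD54 hx (by omega) hzs).trans ?_
      have h1 := hS z hzS g hg1 hzg
      linarith [hx (by omega : z + 1 ≤ g - a₀)]

/-- ADD, number part, for the uniform price of a single luck. -/
theorem addC54 (a₀ : ℕ) {c C : ℝ} (hc : 0 < c) (hC : 1 ≤ C) : ∃ C₀ : ℝ, 1 ≤ C₀ ∧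
    ∀ (x : ℕ → ℝ) (L C₁ : ℝ) (N : ℕ) (S : Finset ℕ) (f : ℕ → Finset ℕ → ℝ)
      (G : ℕ → ℕ → Finset ℕ → ℝ) (V : ℕ → ℕ → ℝ),
      Monotone x → 4 * ((a₀ : ℝ) + 1) ≤ C₁ → (∀ l ∈ S, x l < L) →
      (∀ l ∈ S, ∀ l' ∈ S, l < l' → l + a₀ + 1 ≤ l') →
      (∀ l ∈ S, ∀ i : ℕ, 1 ≤ i → x (l + i) < L → C₁ * i ≤ x (l + i) - x l) →
      (∀ q, f q ∅ = 1) →
      -- the union over the horizons
      (∀ (q p : ℕ) (I : Finset ℕ), q ≤ p → I ⊆ S → p ∈ I → (∀ r ∈ I, p ≤ r) →
        f q I ≤ ∑ i ∈ range (N + 1), G p i (I.erase p)) →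
      (∀ p i (J J' : Finset ℕ), J' ⊆ J → G p i J ≤ G p i J') → (∀ p ∈ S, ∀ i, G p i ∅ ≤ V p i) →
      (∀ p i, 0 ≤ V p i) →
      -- CATCH
      (∀ p ∈ S, ∀ i ≤ N, ∀ q ∈ S, p < q → x p + 2 * i * Real.log 2 ≤ x (q - a₀) →
        ∀ J ⊆ S, (∀ r ∈ J, q ≤ r) →
          G p i J ≤ C * (V p i + Real.exp (i * Real.log 2 + x p - x (q - a₀))) * f q J) →
      -- COST
      (∀ p ∈ S, ∀ i ≤ N, V p i ≤ C * Real.exp (-(c * i) - c * (x (p + i + 1) - x p))) →
      ∀ (q : ℕ) (I : Finset ℕ), I ⊆ S → (∀ r ∈ I, q ≤ r) →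
        f q I ≤ C₀ ^ I.card *
          Real.exp (-(min c (1 / 16) * ∑ r ∈ I, (x (r + 1) - x r))) := by
  classical
  have hlog0 : 0 < Real.log 2 := Real.log_pos (by norm_num)
  have hC0 : 0 < C := one_pos.trans_le hC
  set k := min c (1 / 16) with hk
  have hk0 : 0 < k := lt_min hc (by norm_num)
  have hk1 : k ≤ c := min_le_left _ _
  have hk2 : k ≤ 1 / 16 := min_le_right _ _
  set θ := min c (1 / 2 * Real.log 2) with hθ
  have hθ0 : 0 < θ := lt_min hc (by linarith)
  have hθ1 : θ ≤ c := min_le_left _ _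
  have hθ2 : θ ≤ 1 / 2 * Real.log 2 := min_le_right _ _
  refine ⟨max 1 (C * (C + 1) * (1 / (1 - Real.exp (-θ)))), le_max_left _ _, ?_⟩
  intro x L C₁ N S f G V hx hC₁ hS1 hS hgood hf1 hun hGm hG1 hV0 hcatch hV1 q I hI hq
  set C₀ := max 1 (C * (C + 1) * (1 / (1 - Real.exp (-θ)))) with hC₀
  -- the restricted functions
  set D : ℕ → ℝ := fun r => if r ∈ S then x (r + 1) - x r else 0 with hD
  have hD0 : ∀ r, 0 ≤ D r := by
    intro r
    simp only [hD]
    split_ifs
    · exact sub_nonneg.2 (hx (Nat.le_succ r))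
    · exact le_rfl
  have hDsum : ∀ p g : ℕ, ∑ r ∈ Ico p g, D r =
      ∑ r ∈ (Ico p g).filter (· ∈ S), (x (r + 1) - x r) := by
    intro p g
    rw [sum_filter]
  have hDI : ∀ I : Finset ℕ, I ⊆ S → ∑ r ∈ I, D r = ∑ r ∈ I, (x (r + 1) - x r) := by
    intro I hI
    refine sum_congr rfl fun r hr => ?_
    simp only [hD, if_pos (hI hr)]
  set F : ℕ → Finset ℕ → ℝ := fun q I => if I ⊆ S then f q I else 0 with hF
  have hmain := addA54 D hD0 hk0.le (le_max_left 1 (C * (C + 1) * (1 / (1 - Real.exp (-θ))))) F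
    (fun q => by simp only [hF, empty_subset, if_true]; exact (hf1 q).le) ?_ q I hq
  · rw [hDI I hI] at hmain
    simpa only [hF, if_pos hI] using hmain
  · intro q I p hp hpmin hqp
    by_cases hIS : I ⊆ S
    · have hpS := hIS hp
      choose g hg1 hg2 hg3 using fun i : ℕ => nextC54 hx hC₁ hS1 hS hgood hpS i
      -- the weights
      set Y : ℕ → ℝ := fun i => if (g i ∈ S ∧ x p + 2 * i * Real.log 2 ≤ x (g i - a₀) ∧
        ∑ r ∈ (Ico p (g i)).filter (· ∈ S), (x (r + 1) - x r) ≤ x (g i - a₀) - x p) then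
        Real.exp (i * Real.log 2 + x p - x (g i - a₀)) else 0 with hY
      have hY0 : ∀ i, 0 ≤ Y i := by
        intro i
        simp only [hY]
        split_ifs
        · exact (Real.exp_pos _).le
        · exact le_rfl
      refine ⟨range (N + 1), fun i => C * (V p i + Y i), g, fun i _ =>
        mul_nonneg hC0.le (add_nonneg (hV0 p i) (hY0 i)), fun i _ => hg1 i, ?_, ?_⟩
      · simp only [hF, if_pos hIS]
        refine (hun q p I hqp hIS hp hpmin).trans (sum_le_sum fun i hi => ?_)
        have hfil : I.filter (g i ≤ ·) ⊆ S := (filter_subset _ _).trans hIS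
        rw [if_pos hfil]
        have hsub : I.filter (g i ≤ ·) ⊆ I.erase p := by
          intro r hr
          obtain ⟨hr1, hr2⟩ := mem_filter.1 hr
          refine mem_erase.2 ⟨?_, hr1⟩
          have := hg1 i
          omega
        by_cases hcase : (g i ∈ S ∧ x p + 2 * i * Real.log 2 ≤ x (g i - a₀) ∧
          ∑ r ∈ (Ico p (g i)).filter (· ∈ S), (x (r + 1) - x r) ≤ x (g i - a₀) - x p)
        · have hYi : Y i = Real.exp (i * Real.log 2 + x p - x (g i - a₀)) := if_pos hcase
          rw [hYi]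
          refine (hGm p i _ _ hsub).trans ?_
          exact hcatch p hpS i (by have := mem_range.1 hi; omega) (g i) hcase.1 (hg1 i) hcase.2.1 _
            hfil fun r hr => (mem_filter.1 hr).2
        · have hYi : Y i = 0 := if_neg hcase
          rcases hg3 i with h | h
          · exact absurd h hcase
          · have hemp : I.filter (g i ≤ ·) = ∅ := by
              rw [filter_eq_empty_iff]
              intro r hr
              exact not_le.2 (h r (hIS hr))
            rw [hemp, hf1, hYi, add_zero, mul_one]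
            refine (hGm p i _ _ (empty_subset _)).trans ((hG1 p hpS i).trans ?_)
            exact le_mul_of_one_le_left (hV0 p i) hC
      · refine le_trans ?_ (le_max_right _ _)
        have hterm : ∀ i ∈ range (N + 1), C * (V p i + Y i) *
            Real.exp (k * ∑ r ∈ Ico p (g i), D r) ≤ C * (C + 1) * Real.exp (-(θ * i)) := by
          intro i hi
          have hiN : i ≤ N := by have := mem_range.1 hi; omega
          rw [hDsum]
          set s := ∑ r ∈ (Ico p (g i)).filter (· ∈ S), (x (r + 1) - x r) with hs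
          have hs0 : 0 ≤ s := sum_nonneg fun r _ => sub_nonneg.2 (hx (Nat.le_succ r))
          have hs1 : s ≤ x (p + i + 1) - x p := hg2 i
          have hi0 : (0 : ℝ) ≤ i := Nat.cast_nonneg _
          have hθi1 : θ * i ≤ c * i := mul_le_mul_of_nonneg_right hθ1 hi0
          have hθi2 : θ * i ≤ 1 / 2 * (i * Real.log 2) := by
            have := mul_le_mul_of_nonneg_right hθ2 hi0
            linarith
          -- first term
          have t1 : V p i * Real.exp (k * s) ≤ C * Real.exp (-(θ * i)) := by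
            set Λ := x (p + i + 1) - x p with hΛ
            have hΛ0 : 0 ≤ Λ := hs0.trans hs1
            calc V p i * Real.exp (k * s)
                ≤ C * Real.exp (-(c * i) - c * Λ) * Real.exp (k * Λ) := by
                  refine mul_le_mul (hV1 p hpS i hiN) (Real.exp_le_exp.2
                    (mul_le_mul_of_nonneg_left hs1 hk0.le)) (Real.exp_pos _).le
                    (mul_nonneg hC0.le (Real.exp_pos _).le)
              _ = C * Real.exp (-(c * i) - c * Λ + k * Λ) := by
                  rw [mul_assoc, ← Real.exp_add]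
              _ ≤ C * Real.exp (-(θ * i)) := by
                  refine mul_le_mul_of_nonneg_left (Real.exp_le_exp.2 ?_) hC0.le
                  have h1 : k * Λ ≤ c * Λ := mul_le_mul_of_nonneg_right hk1 hΛ0
                  linarith
          have t2 : Y i * Real.exp (k * s) ≤ Real.exp (-(θ * i)) := by
            by_cases hcase : (g i ∈ S ∧ x p + 2 * i * Real.log 2 ≤ x (g i - a₀) ∧
              ∑ r ∈ (Ico p (g i)).filter (· ∈ S), (x (r + 1) - x r) ≤ x (g i - a₀) - x p)
            · have hYi : Y i = Real.exp (i * Real.log 2 + x p - x (g i - a₀)) := if_pos hcase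
              rw [hYi, ← Real.exp_add]
              refine Real.exp_le_exp.2 ?_
              have h1 := hcase.2.1
              have h2 : s ≤ x (g i - a₀) - x p := hcase.2.2
              set t := x (g i - a₀) - x p with ht
              have ht2 : 2 * (i * Real.log 2) ≤ t := by linarith
              have h3 : k * s ≤ 1 / 16 * t := mul_le_mul hk2 h2 hs0 (by norm_num)
              have h4 : 0 ≤ (i : ℝ) * Real.log 2 := mul_nonneg hi0 hlog0.le
              linarith
            · have hYi : Y i = 0 := if_neg hcase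
              rw [hYi, zero_mul]
              exact (Real.exp_pos _).le
          calc C * (V p i + Y i) * Real.exp (k * s)
              = C * (V p i * Real.exp (k * s) + Y i * Real.exp (k * s)) := by ring
            _ ≤ C * (C * Real.exp (-(θ * i)) + Real.exp (-(θ * i))) :=
                mul_le_mul_of_nonneg_left (add_le_add t1 t2) hC0.le
            _ = C * (C + 1) * Real.exp (-(θ * i)) := by ring
        refine (sum_le_sum hterm).trans ?_
        rw [← mul_sum]
        exact mul_le_mul_of_nonneg_left (geo54 hθ0 N) (by positivity)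
    · refine ⟨∅, fun _ => 0, fun _ => 0, by simp, by simp, ?_, ?_⟩
      · simp only [hF, if_neg hIS, sum_empty, le_refl]
      · rw [sum_empty]
        exact le_trans zero_le_one (le_max_left _ _)

end Pool.Agent.W_7d29a1_PL.Ad54
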