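import Pool.Agent.W_7d29a1_PL.Cat47

/-!
ADD, the event half (helper47): families of luck events `Lk T₁ T₂ a` (the free energy at some
horizon `T ∈ [T₁, T₂]` is at least `T lam - a`), CATCH for them and the step of the induction.
-/

set_option autoImplicit false

namespace Pool.Agent.W_7d29a1_PL

open MeasureTheory ProbabilityTheory Filter Topology Pool.Agent.W_MP_7d29a1_pr
  Pool.Agent.W_7d29a1_h46 Pool.Agent.W_7d29a1_h46u Pool.Agent.W_7d29a1_D2.B35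
  Pool.Agent.W_7d29a1_Q29 Pool.Agent.W_7d29a1_R34 Pool.Agent.W_7d29a1_SP

variable {d : ℕ}

/-- The luck event with the horizons in `[T₁, T₂]`. -/
def Lk47 (ρ : Measure ℝ) (β : ℝ) (h : Vec d) (T₁ T₂ : ℕ) (a : ℝ) : Set (Env d) :=
  {η | ∃ T : ℕ, T₁ ≤ T ∧ T ≤ T₂ ∧ T * lam ρ β h - a ≤ X β h η T}

/-- All the levels in `I` are lucky; a level is a finite list of luck events. -/
def U47 (ρ : Measure ℝ) (β : ℝ) (h : Vec d) (F : ℕ → Finset ℕ) (t₁ t₂ : ℕ → ℕ → ℕ)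
    (a : ℕ → ℕ → ℝ) (I : Finset ℕ) (σ : ℕ) (x : ℝ) : Set (Env d) :=
  {η | ∀ r ∈ I, ∃ i ∈ F r, η ∈ Lk47 ρ β h (t₁ r i) (t₂ r i + σ) (a r i + x)}

variable {ρ : Measure ℝ} {β : ℝ} {h : Vec d}

lemma Lk47_meas (T₁ T₂ : ℕ) (a : ℝ) : MeasurableSet (Lk47 ρ β h T₁ T₂ a) := by
  have e : Lk47 ρ β h T₁ T₂ a = ⋃ T ∈ Finset.Icc T₁ T₂,
      {η | T * lam ρ β h - a ≤ X β h η T} := by
    ext η
    simp only [Lk47, Set.mem_ofPred_eq, Set.mem_iUnion, exists_prop, Finset.mem_Icc, and_assoc]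
  rw [e]
  exact Finset.measurableSet_biUnion _ fun T _ =>
    measurableSet_le measurable_const (measurable_X β h T)

lemma Lk47_mono {T₁ T₂ T₁' T₂' : ℕ} {a a' : ℝ} (h1 : T₁' ≤ T₁) (h2 : T₂ ≤ T₂') (h3 : a ≤ a') :
    Lk47 ρ β h T₁ T₂ a ⊆ Lk47 ρ β h T₁' T₂' a' := by
  rintro η ⟨T, hT1, hT2, hT3⟩
  exact ⟨T, h1.trans hT1, hT2.trans h2, by linarith⟩

lemma X_dep1 (n : ℕ) : DependsOn (fun η : Env d => X β h η n) {p | 1 ≤ p.1 ∧ p.1 ≤ n} := by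
  intro η η' hη
  have h1 : Z β h η n = Z β h η' n := dependsOn_Z β h n hη
  show Real.log (Z β h η n) = Real.log (Z β h η' n)
  rw [h1]

lemma Lk47_dep0 (T₁ T₂ : ℕ) (a : ℝ) :
    DependsOn (fun η => η ∈ Lk47 ρ β h T₁ T₂ a) (Pa d 0)ᶜ := by
  intro η η' hη
  have h1 : ∀ T, X β h η T = X β h η' T := fun T => X_dep1 T fun p hp => hη p (by
    have h2 : 1 ≤ p.1 := hp.1
    show ¬ (p.1 ≤ 0)
    omega)
  show (∃ T : ℕ, T₁ ≤ T ∧ T ≤ T₂ ∧ T * lam ρ β h - a ≤ X β h η T) =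
    (∃ T : ℕ, T₁ ≤ T ∧ T ≤ T₂ ∧ T * lam ρ β h - a ≤ X β h η' T)
  simp only [h1]

lemma Lk47_depT (T₁ T₂ : ℕ) (a : ℝ) :
    DependsOn (fun η => η ∈ Lk47 ρ β h T₁ T₂ a) (Pa d T₂) := by
  intro η η' hη
  have h1 : ∀ T, T ≤ T₂ → X β h η T = X β h η' T := fun T hT => X_dep1 T fun p hp => hη p (by
    have h2 : p.1 ≤ T := hp.2
    show p.1 ≤ T₂
    omega)
  show (∃ T : ℕ, T₁ ≤ T ∧ T ≤ T₂ ∧ T * lam ρ β h - a ≤ X β h η T) =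
    (∃ T : ℕ, T₁ ≤ T ∧ T ≤ T₂ ∧ T * lam ρ β h - a ≤ X β h η' T)
  refine propext ⟨?_, ?_⟩
  · rintro ⟨T, h2, h3, h4⟩
    exact ⟨T, h2, h3, by rwa [← h1 T h3]⟩
  · rintro ⟨T, h2, h3, h4⟩
    exact ⟨T, h2, h3, by rwa [h1 T h3]⟩

lemma U47_meas (F : ℕ → Finset ℕ) (t₁ t₂ : ℕ → ℕ → ℕ) (a : ℕ → ℕ → ℝ) (I : Finset ℕ) (σ : ℕ)
    (x : ℝ) : MeasurableSet (U47 ρ β h F t₁ t₂ a I σ x) := by
  have e : U47 ρ β h F t₁ t₂ a I σ x = ⋂ r ∈ I, ⋃ i ∈ F r,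
      Lk47 ρ β h (t₁ r i) (t₂ r i + σ) (a r i + x) := by
    ext η
    simp only [U47, Set.mem_ofPred_eq, Set.mem_iInter, Set.mem_iUnion, exists_prop]
  rw [e]
  exact Finset.measurableSet_biInter _ fun r _ =>
    Finset.measurableSet_biUnion _ fun i _ => Lk47_meas _ _ _

lemma U47_dep0 (F : ℕ → Finset ℕ) (t₁ t₂ : ℕ → ℕ → ℕ) (a : ℕ → ℕ → ℝ) (I : Finset ℕ) (σ : ℕ)
    (x : ℝ) : DependsOn (fun η => η ∈ U47 ρ β h F t₁ t₂ a I σ x) (Pa d 0)ᶜ := by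
  intro η η' hη
  have h1 : ∀ T₁ T₂ a, (η ∈ Lk47 ρ β h T₁ T₂ a) = (η' ∈ Lk47 ρ β h T₁ T₂ a) := fun T₁ T₂ a =>
    Lk47_dep0 T₁ T₂ a hη
  show (∀ r ∈ I, ∃ i ∈ F r, η ∈ Lk47 ρ β h (t₁ r i) (t₂ r i + σ) (a r i + x)) =
    (∀ r ∈ I, ∃ i ∈ F r, η' ∈ Lk47 ρ β h (t₁ r i) (t₂ r i + σ) (a r i + x))
  simp only [h1]

lemma U47_mono {F : ℕ → Finset ℕ} {t₁ t₂ : ℕ → ℕ → ℕ} {a : ℕ → ℕ → ℝ} {I I' : Finset ℕ}
    {σ σ' : ℕ} {x x' : ℝ} (hI : I' ⊆ I) (hσ : σ ≤ σ') (hx : x ≤ x') :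
    U47 ρ β h F t₁ t₂ a I σ x ⊆ U47 ρ β h F t₁ t₂ a I' σ' x' := by
  intro η hη r hr
  obtain ⟨i, hi, hL⟩ := hη r (hI hr)
  exact ⟨i, hi, Lk47_mono le_rfl (by omega) (by linarith) hL⟩

/-- A path from the origin reaches the luck event at an atom. -/
lemma Lk47_shift (hd : 0 < d) {c₀ G : ℝ} (hc : 0 < c₀) {s m : ℕ} (hs : s ≤ m) {y : Site d}
    {η : Env d} (hA : c₀ * Z β h η s ≤ PP β h η s y) (hG : s * lam ρ β h - G ≤ X β h η s)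
    {T₁ T₂ : ℕ} {a : ℝ} (hL : sh s y η ∈ Lk47 ρ β h T₁ T₂ a) :
    η ∈ Lk47 ρ β h T₁ (T₂ + m) (a + G + |Real.log c₀|) := by
  obtain ⟨T, hT1, hT2, hT3⟩ := hL
  refine ⟨T + s, by omega, by omega, ?_⟩
  have hZ := Z_pos hd β h η s
  have hZm := Z_pos hd β h (sh s y η) T
  have hch := PP_chainZ β h η s T y
  have k1 : c₀ * Z β h η s * Z β h (sh s y η) T ≤ Z β h η (s + T) :=
    (mul_le_mul_of_nonneg_right hA hZm.le).trans hch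
  have k2 := Real.log_le_log (mul_pos (mul_pos hc hZ) hZm) k1
  rw [Real.log_mul (mul_pos hc hZ).ne' hZm.ne', Real.log_mul hc.ne' hZ.ne'] at k2
  have k3 : Real.log (Z β h (sh s y η) T) = X β h (sh s y η) T := rfl
  have k4 : Real.log (Z β h η s) = X β h η s := rfl
  have k5 : Real.log (Z β h η (s + T)) = X β h η (s + T) := rfl
  rw [k3, k4, k5] at k2
  have k6 := neg_abs_le (Real.log c₀)
  rw [add_comm T s]
  push_cast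
  linarith

/-- CATCH for the families of luck events. -/
theorem catU47 [IsProbabilityMeasure ρ] (hd : 0 < d) (β : ℝ) : ∀ c₀ : ℝ, 0 < c₀ → ∃ C : ℝ, 1 ≤ C ∧
    ∀ h : Vec d, Loc1 ρ β h c₀ → ∀ (F : ℕ → Finset ℕ) (t₁ t₂ : ℕ → ℕ → ℕ) (a : ℕ → ℕ → ℝ)
      (I : Finset ℕ) (σ : ℕ) (x G : ℝ) (H m : ℕ) (B : Set (Env d)), 1 ≤ H → 1 ≤ m →
      MeasurableSet B → DependsOn (fun η => η ∈ B) (Pa d H) →
      DependsOn (fun η => η ∈ B) (Pa d 0)ᶜ →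
      (∀ s : ℕ, s ≤ m → (law d ρ).real {η | X β h η s < s * lam ρ β h - G} ≤ c₀ / 4) →
      (law d ρ).real (B ∩ U47 ρ β h F t₁ t₂ a I σ x) ≤ C * ((law d ρ).real B + H / m) *
        (law d ρ).real (U47 ρ β h F t₁ t₂ a I (σ + m) (x + G + |Real.log c₀|)) := by
  intro c₀ hc
  obtain ⟨C, hC, h1⟩ := cat47 (d := d) (ρ := ρ) hd β c₀ hc
  refine ⟨C, hC, fun h hloc F t₁ t₂ a I σ x G H m B hH hm hB hBd hB0 hgood => ?_⟩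
  have h2 := h1 h hloc H m G B (U47 ρ β h F t₁ t₂ a I σ x)
    (U47 ρ β h F t₁ t₂ a I (σ + m) (x + G + |Real.log c₀|)) hH hm hB
    (U47_meas F t₁ t₂ a I σ x) hBd hB0 (U47_dep0 F t₁ t₂ a I σ x) hgood
    (fun s hs y _ η hA hG hL r hr => by
      obtain ⟨i, hi, hLi⟩ := hL r hr
      refine ⟨i, hi, ?_⟩
      have h3 := Lk47_shift hd hc hs hA hG hLi
      refine Lk47_mono le_rfl (by omega) (by linarith) h3)
  refine h2.trans (le_of_eq (by ring))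

/-- The step of the induction: the lowest level is lucky at one of its horizons. -/
theorem stepU47 [IsProbabilityMeasure ρ] (hd : 0 < d) (β : ℝ) : ∀ c₀ : ℝ, 0 < c₀ →
    ∃ C : ℝ, 1 ≤ C ∧ ∀ h : Vec d, Loc1 ρ β h c₀ → ∀ (F : ℕ → Finset ℕ) (t₁ t₂ : ℕ → ℕ → ℕ)
      (a : ℕ → ℕ → ℝ) (I : Finset ℕ) (p σ : ℕ) (x : ℝ) (g : ℕ → ℕ) (M σ' : ℕ → ℕ)
      (G x' : ℕ → ℝ), p ∈ I → (∀ i ∈ F p, 1 ≤ t₂ p i + σ) → (∀ i ∈ F p, 1 ≤ M (g i)) →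
      (∀ i ∈ F p, ∀ s : ℕ, s ≤ M (g i) →
        (law d ρ).real {η | X β h η s < s * lam ρ β h - G (g i)} ≤ c₀ / 4) →
      (∀ i ∈ F p, σ + M (g i) ≤ σ' (g i)) →
      (∀ i ∈ F p, x + G (g i) + |Real.log c₀| ≤ x' (g i)) →
      (law d ρ).real (U47 ρ β h F t₁ t₂ a I σ x) ≤ ∑ i ∈ F p,
        C * ((law d ρ).real (Lk47 ρ β h (t₁ p i) (t₂ p i + σ) (a p i + x)) +
          ((t₂ p i + σ : ℕ) : ℝ) / M (g i)) *
        (law d ρ).real (U47 ρ β h F t₁ t₂ a (I.filter (g i ≤ ·)) (σ' (g i)) (x' (g i))) := by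
  intro c₀ hc
  obtain ⟨C, hC, h1⟩ := catU47 (d := d) (ρ := ρ) hd β c₀ hc
  refine ⟨C, hC, fun h hloc F t₁ t₂ a I p σ x g M σ' G x' hp ht hM hgood hσ hx => ?_⟩
  have hcov : U47 ρ β h F t₁ t₂ a I σ x ⊆ ⋃ i ∈ F p,
      (Lk47 ρ β h (t₁ p i) (t₂ p i + σ) (a p i + x) ∩
        U47 ρ β h F t₁ t₂ a (I.filter (g i ≤ ·)) σ x) := by
    intro η hη
    obtain ⟨i, hi, hL⟩ := hη p hp
    simp only [Set.mem_iUnion]
    exact ⟨i, hi, hL, U47_mono (Finset.filter_subset _ _) le_rfl le_rfl hη⟩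
  refine (measureReal_mono hcov (measure_ne_top _ _)).trans ((measureReal_biUnion_finset_le _ _).trans ?_)
  refine Finset.sum_le_sum fun i hi => ?_
  have h2 := h1 h hloc F t₁ t₂ a (I.filter (g i ≤ ·)) σ x (G (g i)) (t₂ p i + σ) (M (g i))
    (Lk47 ρ β h (t₁ p i) (t₂ p i + σ) (a p i + x)) (ht i hi) (hM i hi) (Lk47_meas _ _ _)
    (Lk47_depT _ _ _) (Lk47_dep0 _ _ _) (hgood i hi)
  refine h2.trans (mul_le_mul_of_nonneg_left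
    (measureReal_mono (U47_mono (Finset.Subset.refl _) (hσ i hi) (hx i hi))) ?_)
  have h3 : 0 ≤ (law d ρ).real (Lk47 ρ β h (t₁ p i) (t₂ p i + σ) (a p i + x)) +
      ((t₂ p i + σ : ℕ) : ℝ) / M (g i) := by positivity
  exact mul_nonneg (by linarith) h3

end Pool.Agent.W_7d29a1_PL
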