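import Pool.Agent.W_7d29a1_SP.Cnt79
import Pool.Agent.W_7d29a1_PL.DefsPL

/-!
ADD, the events of luck (helper76).
-/

set_option autoImplicit false

namespace Pool.Agent.W_7d29a1_PL.AD76

open MeasureTheory ProbabilityTheory Filter Topology Pool.Agent.W_MP_7d29a1_pr
  Pool.Agent.W_7d29a1_h46 Pool.Agent.W_7d29a1_h46u Pool.Agent.W_7d29a1_D2.B35
  Pool.Agent.W_7d29a1_Q29 Pool.Agent.W_7d29a1_R34 Pool.Agent.W_7d29a1_SP
  Pool.Agent.W_7d29a1_SP.C79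

variable {d : ℕ} {ρ : Measure ℝ}

/-- The threshold of the luck at the horizon `N H`. -/
noncomputable def th (κ x : ℝ) (N : ℕ) : ℝ := if N = 1 then -((1 - κ) * x) else κ * N * x

/-- Luck at one of the horizons `N H + s`, `N` in a given set. -/
def Un (ρ : Measure ℝ) (β : ℝ) (h : Vec d) (P : Set ℕ) (H S : ℕ) (x κ z : ℝ) : Set (Env d) :=
  {η | ∃ N ∈ P, ∃ s : ℕ, s ≤ S ∧
    ((N * H + s : ℕ) : ℝ) * lam ρ β h + th κ x N - z ≤ X β h η (N * H + s)}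

lemma Un_meas (β : ℝ) (h : Vec d) (P : Set ℕ) (H S : ℕ) (x κ z : ℝ) :
    MeasurableSet (Un ρ β h P H S x κ z) := by
  have h1 : Un ρ β h P H S x κ z = ⋃ N ∈ P, ⋃ s : ℕ, ⋃ (_ : s ≤ S),
      {η : Env d | ((N * H + s : ℕ) : ℝ) * lam ρ β h + th κ x N - z ≤ X β h η (N * H + s)} := by
    ext η
    simp only [Un, Set.mem_ofPred_eq, Set.mem_iUnion, exists_prop]
  rw [h1]
  refine MeasurableSet.biUnion (Set.to_countable _) fun N _ => MeasurableSet.iUnion fun s =>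
    MeasurableSet.iUnion fun _ => ?_
  exact measurableSet_le measurable_const (measurable_X β h _)

lemma X_eq {β : ℝ} {h : Vec d} {T : ℕ} {η η' : Env d}
    (hη : ∀ p : ℕ × Site d, 1 ≤ p.1 → p.1 ≤ T → η p = η' p) : X β h η T = X β h η' T := by
  have h1 : Z β h η T = Z β h η' T := dependsOn_Z β h T fun p hp => hη p hp.1 hp.2
  unfold X
  rw [h1]

lemma Un_dep1 (β : ℝ) (h : Vec d) (P : Set ℕ) (H S : ℕ) (x κ z : ℝ) :
    DependsOn (fun η => η ∈ Un ρ β h P H S x κ z) {p : ℕ × Site d | 1 ≤ p.1} := by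
  intro η η' hη
  have h1 : ∀ T : ℕ, X β h η T = X β h η' T := fun T => X_eq fun p hp _ => hη p hp
  show (∃ N ∈ P, ∃ s : ℕ, s ≤ S ∧ _ ≤ X β h η (N * H + s)) =
    (∃ N ∈ P, ∃ s : ℕ, s ≤ S ∧ _ ≤ X β h η' (N * H + s))
  simp only [h1]

lemma Un_dep2 (β : ℝ) (h : Vec d) {P : Set ℕ} {H S R : ℕ} (x κ z : ℝ)
    (hR : ∀ N ∈ P, N * H + S ≤ R) :
    DependsOn (fun η => η ∈ Un ρ β h P H S x κ z) {p : ℕ × Site d | 1 ≤ p.1 ∧ p.1 ≤ R} := by
  intro η η' hη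
  have h1 : ∀ N ∈ P, ∀ s : ℕ, s ≤ S → X β h η (N * H + s) = X β h η' (N * H + s) :=
    fun N hN s hs => X_eq fun p hp hp2 => hη p ⟨hp, by
      have := hR N hN
      omega⟩
  refine propext ⟨?_, ?_⟩
  · rintro ⟨N, hN, s, hs, h2⟩
    refine ⟨N, hN, s, hs, ?_⟩
    rw [← h1 N hN s hs]
    exact h2
  · rintro ⟨N, hN, s, hs, h2⟩
    refine ⟨N, hN, s, hs, ?_⟩
    rw [h1 N hN s hs]
    exact h2

lemma Un_mono (β : ℝ) (h : Vec d) {P P' : Set ℕ} {H S S' : ℕ} {x κ z z' : ℝ} (hP : P ⊆ P')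
    (hS : S ≤ S') (hz : z ≤ z') : Un ρ β h P H S x κ z ⊆ Un ρ β h P' H S' x κ z' := by
  rintro η ⟨N, hN, s, hs, h2⟩
  exact ⟨N, hP hN, s, hs.trans hS, by linarith⟩

/-- A lucky environment at an atom of the time `s`. -/
lemma Un_tr (hd : 0 < d) {β : ℝ} {h : Vec d} {P : Set ℕ} {H S S' : ℕ} {x κ z z' b c₀ : ℝ}
    (hc : 0 < c₀) {s : ℕ} {y : Site d} {η : Env d} (hy : y ∈ boxF d s)
    (hat : c₀ * Z β h η s ≤ PP β h η s y) (hX : s * lam ρ β h - b ≤ X β h η s)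
    (hU : sh s y η ∈ Un ρ β h P H S x κ z) (hS : s + S ≤ S') (hz : z + b - Real.log c₀ ≤ z') :
    η ∈ Un ρ β h P H S' x κ z' := by
  obtain ⟨N, hN, s', hs', h2⟩ := hU
  refine ⟨N, hN, s + s', by omega, ?_⟩
  have hZ := Z_pos hd β h η s
  have hZ' := Z_pos hd β h (sh s y η) (N * H + s')
  have h3 : PP β h η s y * Z β h (sh s y η) (N * H + s') ≤ Z β h η (s + (N * H + s')) := by
    rw [S98.Z_split β h η s (N * H + s')]
    exact Finset.single_le_sum (f := fun y => PP β h η s y * Z β h (sh s y η) (N * H + s'))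
      (fun y _ => mul_nonneg (PP_nonneg β h η s y) (Z_pos hd β h _ _).le) hy
  have h4 : c₀ * Z β h η s * Z β h (sh s y η) (N * H + s') ≤ Z β h η (s + (N * H + s')) :=
    (mul_le_mul_of_nonneg_right hat hZ'.le).trans h3
  have h5 := Real.log_le_log (mul_pos (mul_pos hc hZ) hZ') h4
  rw [Real.log_mul (mul_pos hc hZ).ne' hZ'.ne', Real.log_mul hc.ne' hZ.ne'] at h5
  have h6 : N * H + (s + s') = s + (N * H + s') := by ring
  rw [h6]
  change _ ≤ Real.log (Z β h η (s + (N * H + s')))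
  change s * lam ρ β h - b ≤ Real.log (Z β h η s) at hX
  change _ ≤ Real.log (Z β h (sh s y η) (N * H + s')) at h2
  have h7 : ((s + (N * H + s') : ℕ) : ℝ) * lam ρ β h =
      s * lam ρ β h + ((N * H + s' : ℕ) : ℝ) * lam ρ β h := by
    push_cast
    ring
  rw [h7]
  linarith

/-- The horizons of the group `i`. -/
def Gr (n H : ℕ) : ℕ → Set ℕ
  | 0 => {1}
  | i + 1 => {N | 2 ^ (i + 1) ≤ N ∧ N < 2 ^ (i + 2) ∧ N * H ≤ n}

lemma Lg0_eq (β : ℝ) (h : Vec d) (H S : ℕ) (x κ z : ℝ) :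
    Lg0 ρ β h H S x κ z = Un ρ β h {1} H S x κ z := by
  ext η
  constructor
  · rintro ⟨s, hs, h2⟩
    refine ⟨1, rfl, s, hs, ?_⟩
    rw [one_mul, th, if_pos rfl]
    linarith
  · rintro ⟨N, hN, s, hs, h2⟩
    have h3 : N = 1 := hN
    rw [h3, one_mul, th, if_pos rfl] at h2
    exact ⟨s, hs, by linarith⟩

lemma LgN_iff (β : ℝ) (h : Vec d) (H S : ℕ) (x κ z : ℝ) {N : ℕ} (hN : 2 ≤ N) (η : Env d) :
    η ∈ LgN ρ β h H S x κ z N ↔ ∃ s : ℕ, s ≤ S ∧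
      ((N * H + s : ℕ) : ℝ) * lam ρ β h + th κ x N - z ≤ X β h η (N * H + s) := by
  have h1 : th κ x N = κ * N * x := by
    rw [th, if_neg (by omega)]
  rw [h1]
  rfl

lemma Lg_eq (β : ℝ) (h : Vec d) (n H S : ℕ) (x κ z : ℝ) (i : ℕ) :
    Lg ρ β h n H S x κ z i = Un ρ β h (Gr n H i) H S x κ z := by
  cases i with
  | zero => exact Lg0_eq β h H S x κ z
  | succ i =>
    have h2 : 2 ≤ 2 ^ (i + 1) := by
      calc 2 = 2 ^ 1 := rfl
        _ ≤ 2 ^ (i + 1) := Nat.pow_le_pow_right (by norm_num) (by omega)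
    ext η
    constructor
    · rintro ⟨N, h3, h4, h5, h6⟩
      obtain ⟨s, hs, h7⟩ := (LgN_iff β h H S x κ z (h2.trans h3) η).1 h6
      exact ⟨N, ⟨h3, h4, h5⟩, s, hs, h7⟩
    · rintro ⟨N, ⟨h3, h4, h5⟩, s, hs, h7⟩
      exact ⟨N, h3, h4, h5, (LgN_iff β h H S x κ z (h2.trans h3) η).2 ⟨s, hs, h7⟩⟩

lemma Lk_eq (β : ℝ) (h : Vec d) (n H S : ℕ) (x κ z : ℝ) :
    Lk ρ β h n H S x κ z = Un ρ β h {N | N = 1 ∨ (2 ≤ N ∧ N * H ≤ n)} H S x κ z := by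
  ext η
  constructor
  · rintro (h1 | ⟨N, h3, h5, h6⟩)
    · rw [Lg0_eq] at h1
      obtain ⟨N, hN, h2⟩ := h1
      exact ⟨N, Or.inl hN, h2⟩
    · obtain ⟨s, hs, h7⟩ := (LgN_iff β h H S x κ z h3 η).1 h6
      exact ⟨N, Or.inr ⟨h3, h5⟩, s, hs, h7⟩
  · rintro ⟨N, h1 | ⟨h3, h5⟩, s, hs, h7⟩
    · refine Or.inl ?_
      rw [Lg0_eq]
      exact ⟨N, h1, s, hs, h7⟩
    · exact Or.inr ⟨N, h3, h5, (LgN_iff β h H S x κ z h3 η).2 ⟨s, hs, h7⟩⟩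

/-- The groups cover. -/
lemma Lk_sub (β : ℝ) (h : Vec d) {n H K : ℕ} (S : ℕ) (x κ z : ℝ) (hH : 1 ≤ H) (hK : n < 2 ^ K) :
    Lk ρ β h n H S x κ z ⊆ ⋃ i ∈ Finset.range (K + 1), Lg ρ β h n H S x κ z i := by
  intro η hη
  rw [Lk_eq] at hη
  obtain ⟨N, h1, s, hs, h7⟩ := hη
  have hex : ∃ i < K + 1, N ∈ Gr n H i := by
    rcases h1 with h1 | ⟨h1, h2⟩
    · exact ⟨0, by omega, h1⟩
    · have hN : N ≤ n := le_trans (Nat.le_mul_of_pos_right _ (by omega)) h2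
      have h3 : 1 ≤ Nat.log 2 N := Nat.log_pos (by norm_num) h1
      obtain ⟨i, hi⟩ : ∃ i, Nat.log 2 N = i + 1 := ⟨Nat.log 2 N - 1, by omega⟩
      have h4 : 2 ^ (i + 1) ≤ N := by
        rw [← hi]
        exact Nat.pow_log_le_self 2 (by omega)
      have h5 : N < 2 ^ (i + 2) := by
        have := Nat.lt_pow_succ_log_self (b := 2) (by norm_num) N
        rw [hi] at this
        exact this
      refine ⟨i + 1, ?_, h4, h5, h2⟩
      have h6 : 2 ^ (i + 1) < 2 ^ K := lt_of_le_of_lt (h4.trans hN) hK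
      have := (Nat.pow_lt_pow_iff_right (by norm_num : 1 < 2)).1 h6
      omega
  obtain ⟨i, hi, hN⟩ := hex
  simp only [Set.mem_iUnion, exists_prop]
  refine ⟨i, Finset.mem_range.2 hi, ?_⟩
  rw [Lg_eq]
  exact ⟨N, hN, s, hs, h7⟩

end Pool.Agent.W_7d29a1_PL.AD76
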