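import Mathlib

/-!
THEOREM PL, selection of the levels (pure arithmetic of a monotone sequence; helper34): walk,
residue class, small levels dropped, pruning.
-/

namespace Pool.Agent.W_7d29a1_PL

open Finset

/-- Levels in `[u, v)` have total length at most `x v - x u`. -/
lemma sum_le34 {x : ℕ → ℝ} (hx : Monotone x) {u v : ℕ} (huv : u ≤ v) {R : Finset ℕ}
    (hR : R ⊆ Finset.Ico u v) : ∑ l ∈ R, (x (l + 1) - x l) ≤ x v - x u := by
  calc ∑ l ∈ R, (x (l + 1) - x l) ≤ ∑ l ∈ Finset.Ico u v, (x (l + 1) - x l) :=
        Finset.sum_le_sum_of_subset_of_nonneg hR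
          fun l _ _ => sub_nonneg.mpr (hx (Nat.le_succ l))
    _ = x v - x u := Finset.sum_Ico_sub x huv

open Classical in
/-- The walk: cheap jumps and good steps. -/
lemma walk34 {x : ℕ → ℝ} {Good : ℕ → Prop} {C : ℝ} {k : ℕ}
    (h : ∀ l < k, Good l ∨ ∃ j : ℕ, 1 ≤ j ∧ l + j ≤ k ∧ x (l + j) - x l ≤ C * j)
    (hx : Monotone x) (hC : 0 ≤ C) :
    ∀ n l : ℕ, l + n = k →
      x k - x l ≤ C * n + ∑ i ∈ (Finset.Ico l k).filter Good, (x (i + 1) - x i) := by
  intro n
  induction n using Nat.strong_induction_on with
  | _ n ih =>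
    intro l hl
    rcases Nat.eq_zero_or_pos n with h0 | h0
    · subst h0
      have : l = k := by omega
      subst this
      simp
    · have hlk : l < k := by omega
      rcases h l hlk with hg | ⟨j, hj, hjk, hjx⟩
      · have h1 := ih (n - 1) (by omega) (l + 1) (by omega)
        have h2 : (Finset.Ico l k).filter Good =
            insert l ((Finset.Ico (l + 1) k).filter Good) := by
          ext i
          simp only [Finset.mem_filter, Finset.mem_Ico, Finset.mem_insert]
          constructor
          · rintro ⟨⟨h3, h4⟩, h5⟩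
            rcases Nat.eq_or_lt_of_le h3 with h6 | h6
            · exact Or.inl h6.symm
            · exact Or.inr ⟨⟨h6, h4⟩, h5⟩
          · rintro (h3 | ⟨⟨h3, h4⟩, h5⟩)
            · subst h3
              exact ⟨⟨le_rfl, hlk⟩, hg⟩
            · exact ⟨⟨by omega, h4⟩, h5⟩
        rw [h2, Finset.sum_insert (by simp)]
        have h3 : ((n - 1 : ℕ) : ℝ) ≤ n := by exact_mod_cast Nat.sub_le n 1
        nlinarith
      · have h1 := ih (n - j) (by omega) (l + j) (by omega)
        have h2 : ∑ i ∈ (Finset.Ico (l + j) k).filter Good, (x (i + 1) - x i) ≤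
            ∑ i ∈ (Finset.Ico l k).filter Good, (x (i + 1) - x i) := by
          apply Finset.sum_le_sum_of_subset_of_nonneg
          · intro i hi
            simp only [Finset.mem_filter, Finset.mem_Ico] at hi ⊢
            exact ⟨⟨by omega, hi.1.2⟩, hi.2⟩
          · intro i _ _
            exact sub_nonneg.mpr (hx (Nat.le_succ i))
        have h3 : ((n - j : ℕ) : ℝ) = n - j := by
          rw [Nat.cast_sub (by omega)]
        rw [h3] at h1
        nlinarith

/-- The pruning. -/
lemma prune34 {x : ℕ → ℝ} (hx : Monotone x) {a₀ : ℕ} (T : Finset ℕ)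
    (hT : ∀ l ∈ T, ∀ l' ∈ T, l < l' → l + a₀ < l') :
    ∃ S ⊆ T, (∀ l ∈ S, ∀ l' ∈ S, l < l' → x (l' + 1) - x l' ≤ 2 * (x (l' - a₀) - x l)) ∧
      ∑ l ∈ T, (x (l + 1) - x l) ≤ 2 * ∑ l ∈ S, (x (l + 1) - x l) := by
  classical
  induction T using Finset.strongInduction with
  | H T ih =>
    rcases T.eq_empty_or_nonempty with h0 | h0
    · subst h0
      exact ⟨∅, subset_rfl, by simp, by simp⟩
    · obtain ⟨q, hqT, hq⟩ := T.exists_max_image (fun l => x (l + 1) - x l) h0
      have hD0 : ∀ l, 0 ≤ x (l + 1) - x l := fun l => sub_nonneg.mpr (hx (Nat.le_succ l))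
      set P : ℕ → Prop := fun l => x (q - a₀) - x l < (x (q + 1) - x q) / 2 with hP
      set R : Finset ℕ := T.filter fun l => l < q ∧ P l with hR
      set T₁ : Finset ℕ := T.filter fun l => l < q ∧ ¬ P l with hT₁
      set T₂ : Finset ℕ := T.filter fun l => q < l with hT₂
      have hs1 : T₁ ⊂ T := by
        refine (Finset.ssubset_iff_of_subset (Finset.filter_subset _ _)).mpr ⟨q, hqT, ?_⟩
        simp
      have hs2 : T₂ ⊂ T := by
        refine (Finset.ssubset_iff_of_subset (Finset.filter_subset _ _)).mpr ⟨q, hqT, ?_⟩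
        simp
      obtain ⟨S₁, hS₁, hp₁, hsum₁⟩ := ih T₁ hs1 fun l hl l' hl' =>
        hT l (hs1.1 hl) l' (hs1.1 hl')
      obtain ⟨S₂, hS₂, hp₂, hsum₂⟩ := ih T₂ hs2 fun l hl l' hl' =>
        hT l (hs2.1 hl) l' (hs2.1 hl')
      have hm1 : ∀ l ∈ S₁, l ∈ T ∧ l < q ∧ ¬ P l := fun l hl => by
        have := hS₁ hl
        rw [hT₁, Finset.mem_filter] at this
        exact this
      have hm2 : ∀ l ∈ S₂, l ∈ T ∧ q < l := fun l hl => by
        have := hS₂ hl
        rw [hT₂, Finset.mem_filter] at this
        exact this
      -- an element above `q` sees everything below through `q`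
      have habove : ∀ l l', l ≤ q → l' ∈ T → q < l' →
          x (l' + 1) - x l' ≤ 2 * (x (l' - a₀) - x l) := by
        intro l l' hl hl' hql'
        have h1 := hT q hqT l' hl' hql'
        have h2 : x (q + 1) ≤ x (l' - a₀) := hx (by omega)
        have h3 : x l ≤ x q := hx hl
        have h4 := hq l' hl'
        have h5 := hD0 q
        linarith
      have hqS₁ : q ∉ S₁ := fun h => absurd (hm1 q h).2.1 (lt_irrefl q)
      have hqS₂ : q ∉ S₂ := fun h => absurd (hm2 q h).2 (lt_irrefl q)
      have hdis : Disjoint S₁ S₂ := by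
        rw [Finset.disjoint_left]
        intro l h1 h2
        exact absurd (hm1 l h1).2.1 (not_lt.mpr (hm2 l h2).2.le)
      refine ⟨insert q (S₁ ∪ S₂), ?_, ?_, ?_⟩
      · intro l hl
        rcases Finset.mem_insert.mp hl with h | h
        · rw [h]; exact hqT
        · rcases Finset.mem_union.mp h with h | h
          · exact (hm1 l h).1
          · exact (hm2 l h).1
      · intro l hl l' hl' hll'
        rcases Finset.mem_insert.mp hl' with h' | h'
        · -- `l' = q`
          rcases Finset.mem_insert.mp hl with h | h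
          · omega
          · rcases Finset.mem_union.mp h with h | h
            · have := (hm1 l h).2.2
              rw [hP] at this
              simp only [not_lt] at this
              rw [h']
              linarith
            · have := (hm2 l h).2
              omega
        · rcases Finset.mem_union.mp h' with h' | h'
          · -- `l' ∈ S₁`
            rcases Finset.mem_insert.mp hl with h | h
            · have := (hm1 l' h').2.1
              omega
            · rcases Finset.mem_union.mp h with h | h
              · exact hp₁ l h l' h' hll'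
              · have h6 := (hm2 l h).2
                have h7 := (hm1 l' h').2.1
                omega
          · -- `l' ∈ S₂`
            rcases Finset.mem_insert.mp hl with h | h
            · exact habove l l' h.le (hm2 l' h').1 (hm2 l' h').2
            · rcases Finset.mem_union.mp h with h | h
              · exact habove l l' (hm1 l h).2.1.le (hm2 l' h').1 (hm2 l' h').2
              · exact hp₂ l h l' h' hll'
      · -- the sums
        have hR1 : ∑ l ∈ R, (x (l + 1) - x l) ≤ (x (q + 1) - x q) / 2 := by
          rcases R.eq_empty_or_nonempty with hR0 | hR0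
          · rw [hR0, Finset.sum_empty]
            have := hD0 q
            linarith
          · obtain ⟨u, huR, hu⟩ := R.exists_min_image (fun l => l) hR0
            have hu' := huR
            rw [hR, Finset.mem_filter] at hu'
            have h1 : R ⊆ Finset.Ico u (q - a₀) := by
              intro l hl
              have h2 := hu l hl
              have hl' := hl
              rw [hR, Finset.mem_filter] at hl'
              have h3 := hT l hl'.1 q hqT hl'.2.1
              rw [Finset.mem_Ico]
              exact ⟨h2, by omega⟩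
            have h3 := hT u hu'.1 q hqT hu'.2.1
            have h4 := sum_le34 hx (by omega : u ≤ q - a₀) h1
            have h5 := hu'.2.2
            rw [hP] at h5
            linarith
        have hsplit : ∑ l ∈ T, (x (l + 1) - x l) = ∑ l ∈ R, (x (l + 1) - x l) +
            ∑ l ∈ T₁, (x (l + 1) - x l) + ((x (q + 1) - x q) + ∑ l ∈ T₂, (x (l + 1) - x l)) := by
          have h1 : T = R ∪ T₁ ∪ (insert q T₂) := by
            ext l
            simp only [hR, hT₁, hT₂, Finset.mem_union, Finset.mem_filter, Finset.mem_insert]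
            constructor
            · intro hl
              rcases lt_trichotomy l q with h | h | h
              · by_cases h' : P l
                · exact Or.inl (Or.inl ⟨hl, h, h'⟩)
                · exact Or.inl (Or.inr ⟨hl, h, h'⟩)
              · exact Or.inr (Or.inl h)
              · exact Or.inr (Or.inr ⟨hl, h⟩)
            · rintro ((h | h) | (h | h))
              · exact h.1
              · exact h.1
              · rw [h]; exact hqT
              · exact h.1
          have h2 : Disjoint R T₁ := by
            rw [Finset.disjoint_left]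
            intro l h3 h4
            rw [hR, Finset.mem_filter] at h3
            rw [hT₁, Finset.mem_filter] at h4
            exact h4.2.2 h3.2.2
          have h3 : Disjoint (R ∪ T₁) (insert q T₂) := by
            rw [Finset.disjoint_left]
            intro l h4 h5
            have h6 : l < q := by
              rcases Finset.mem_union.mp h4 with h | h
              · rw [hR, Finset.mem_filter] at h
                exact h.2.1
              · rw [hT₁, Finset.mem_filter] at h
                exact h.2.1
            rcases Finset.mem_insert.mp h5 with h | h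
            · omega
            · rw [hT₂, Finset.mem_filter] at h
              omega
          have h4 : q ∉ T₂ := by simp [hT₂]
          conv_lhs => rw [h1]
          rw [Finset.sum_union h3, Finset.sum_union h2, Finset.sum_insert h4]
        have hunion : ∑ l ∈ insert q (S₁ ∪ S₂), (x (l + 1) - x l) = (x (q + 1) - x q) +
            (∑ l ∈ S₁, (x (l + 1) - x l) + ∑ l ∈ S₂, (x (l + 1) - x l)) := by
          rw [Finset.sum_insert (by
            rw [Finset.mem_union]
            rintro (h | h)
            · exact hqS₁ h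
            · exact hqS₂ h), Finset.sum_union hdis]
        rw [hunion, hsplit]
        have := hD0 q
        linarith

open Classical in
/-- LevelSel: the selection of the levels. -/
theorem levelSel34 (a a₀ k : ℕ) (C C₀ : ℝ) (x : ℕ → ℝ) (Good : ℕ → Prop) (ha : a₀ < a)
    (hC : 0 ≤ C) (hC₀ : 0 ≤ C₀) (hx : Monotone x)
    (h : ∀ l < k, Good l ∨ ∃ j : ℕ, 1 ≤ j ∧ l + j ≤ k ∧ x (l + j) - x l ≤ C * j) :
    ∃ S : Finset ℕ, (∀ l ∈ S, l < k ∧ Good l ∧ C₀ < x (l + 1) - x l) ∧
      (∀ l ∈ S, ∀ l' ∈ S, l < l' → l + a ≤ l' ∧
        x (l' + 1) - x l' ≤ 2 * (x (l' - a₀) - x l)) ∧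
      x k - x 0 ≤ (C + a * C₀) * k + 2 * a * ∑ l ∈ S, (x (l + 1) - x l) := by
  have ha0 : 0 < a := by omega
  set D : ℕ → ℝ := fun l => x (l + 1) - x l with hD
  have hD0 : ∀ l, 0 ≤ D l := fun l => sub_nonneg.mpr (hx (Nat.le_succ l))
  set G : Finset ℕ := (Finset.range k).filter Good with hG
  -- the walk
  have h1 : x k - x 0 ≤ C * k + ∑ l ∈ G, D l := by
    have := walk34 h hx hC k 0 (by omega)
    rw [hG, Finset.range_eq_Ico]
    exact this
  -- the residue class
  have h2 : ∑ l ∈ G, D l = ∑ r ∈ Finset.range a, ∑ l ∈ G.filter (fun l => l % a = r), D l := by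
    rw [← Finset.sum_fiberwise_of_maps_to (g := fun l => l % a) (t := Finset.range a)]
    intro l _
    exact Finset.mem_range.mpr (Nat.mod_lt _ ha0)
  obtain ⟨r, hr, hrmax⟩ := (Finset.range a).exists_max_image
    (fun r => ∑ l ∈ G.filter (fun l => l % a = r), D l) ⟨0, Finset.mem_range.mpr ha0⟩
  have h3 : ∑ l ∈ G, D l ≤ a * ∑ l ∈ G.filter (fun l => l % a = r), D l := by
    rw [h2]
    calc _ ≤ ∑ _r' ∈ Finset.range a, ∑ l ∈ G.filter (fun l => l % a = r), D l :=
          Finset.sum_le_sum fun r' hr' => hrmax r' hr'
      _ = _ := by rw [Finset.sum_const, Finset.card_range, nsmul_eq_mul]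
  -- small levels dropped
  set T : Finset ℕ := (G.filter fun l => l % a = r).filter fun l => C₀ < D l with hT
  have h4 : ∑ l ∈ G.filter (fun l => l % a = r), D l ≤ C₀ * k + ∑ l ∈ T, D l := by
    rw [← Finset.sum_filter_add_sum_filter_not (G.filter fun l => l % a = r)
      (fun l => C₀ < D l), add_comm]
    have h5 : ∑ l ∈ (G.filter fun l => l % a = r).filter (fun l => ¬ C₀ < D l), D l ≤
        C₀ * k := by
      calc _ ≤ ∑ _l ∈ (G.filter fun l => l % a = r).filter (fun l => ¬ C₀ < D l), C₀ :=
            Finset.sum_le_sum fun l hl => not_lt.mp (Finset.mem_filter.mp hl).2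
        _ = C₀ * (((G.filter fun l => l % a = r).filter
            (fun l => ¬ C₀ < D l)).card : ℝ) := by
            rw [Finset.sum_const, nsmul_eq_mul, mul_comm]
        _ ≤ C₀ * k := by
            apply mul_le_mul_of_nonneg_left _ hC₀
            have h6 : ((G.filter fun l => l % a = r).filter (fun l => ¬ C₀ < D l)).card ≤
                (Finset.range k).card := Finset.card_le_card
              (((Finset.filter_subset _ _).trans (Finset.filter_subset _ _)).trans
                (Finset.filter_subset _ _))
            rw [Finset.card_range] at h6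
            exact_mod_cast h6
    linarith
  have hTm : ∀ l ∈ T, l < k ∧ Good l ∧ l % a = r ∧ C₀ < D l := by
    intro l hl
    rw [hT, Finset.mem_filter, Finset.mem_filter, hG, Finset.mem_filter, Finset.mem_range] at hl
    exact ⟨hl.1.1.1, hl.1.1.2, hl.1.2, hl.2⟩
  have hsp : ∀ l ∈ T, ∀ l' ∈ T, l < l' → l + a ≤ l' := by
    intro l hl l' hl' hll'
    have h5 := (hTm l hl).2.2.1
    have h6 := (hTm l' hl').2.2.1
    have h7 : l ≡ l' [MOD a] := by
      rw [Nat.ModEq, h5, h6]
    have h8 : a ∣ l' - l := (Nat.modEq_iff_dvd' hll'.le).mp h7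
    have h9 := Nat.le_of_dvd (by omega) h8
    omega
  -- the pruning
  obtain ⟨S, hST, hp, hsum⟩ := prune34 hx (a₀ := a₀) T fun l hl l' hl' hll' => by
    have := hsp l hl l' hl' hll'
    omega
  refine ⟨S, fun l hl => ?_, fun l hl l' hl' hll' => ⟨hsp l (hST hl) l' (hST hl') hll',
    hp l hl l' hl' hll'⟩, ?_⟩
  · have := hTm l (hST hl)
    exact ⟨this.1, this.2.1, this.2.2.2⟩
  · have ha' : (0 : ℝ) ≤ a := Nat.cast_nonneg a
    have h5 : (a : ℝ) * ∑ l ∈ G.filter (fun l => l % a = r), D l ≤
        a * (C₀ * k + 2 * ∑ l ∈ S, D l) := by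
      apply mul_le_mul_of_nonneg_left _ ha'
      exact h4.trans (by linarith)
    nlinarith

open Classical in
/-- Selection without pruning: the walk and one residue class. -/
theorem levelRes34 (a k : ℕ) (C : ℝ) (x : ℕ → ℝ) (Good : ℕ → Prop) (ha : 0 < a)
    (hC : 0 ≤ C) (hx : Monotone x)
    (h : ∀ l < k, Good l ∨ ∃ j : ℕ, 1 ≤ j ∧ l + j ≤ k ∧ x (l + j) - x l ≤ C * j) :
    ∃ S : Finset ℕ, (∀ l ∈ S, l < k ∧ Good l) ∧
      (∀ l ∈ S, ∀ l' ∈ S, l < l' → l + a ≤ l') ∧
      x k - x 0 ≤ C * k + a * ∑ l ∈ S, (x (l + 1) - x l) := by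
  set D : ℕ → ℝ := fun l => x (l + 1) - x l with hD
  set G : Finset ℕ := (Finset.range k).filter Good with hG
  have h1 : x k - x 0 ≤ C * k + ∑ l ∈ G, D l := by
    have := walk34 h hx hC k 0 (by omega)
    rw [hG, Finset.range_eq_Ico]
    exact this
  have h2 : ∑ l ∈ G, D l = ∑ r ∈ Finset.range a, ∑ l ∈ G.filter (fun l => l % a = r), D l := by
    rw [← Finset.sum_fiberwise_of_maps_to (g := fun l => l % a) (t := Finset.range a)]
    intro l _
    exact Finset.mem_range.mpr (Nat.mod_lt _ ha)
  obtain ⟨r, hr, hrmax⟩ := (Finset.range a).exists_max_image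
    (fun r => ∑ l ∈ G.filter (fun l => l % a = r), D l) ⟨0, Finset.mem_range.mpr ha⟩
  have h3 : ∑ l ∈ G, D l ≤ a * ∑ l ∈ G.filter (fun l => l % a = r), D l := by
    rw [h2]
    calc _ ≤ ∑ _r' ∈ Finset.range a, ∑ l ∈ G.filter (fun l => l % a = r), D l :=
          Finset.sum_le_sum fun r' hr' => hrmax r' hr'
      _ = _ := by rw [Finset.sum_const, Finset.card_range, nsmul_eq_mul]
  refine ⟨G.filter (fun l => l % a = r), fun l hl => ?_, fun l hl l' hl' hll' => ?_,
    h1.trans (by linarith)⟩
  · rw [Finset.mem_filter, hG, Finset.mem_filter, Finset.mem_range] at hl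
    exact hl.1
  · have h5 := (Finset.mem_filter.mp hl).2
    have h6 := (Finset.mem_filter.mp hl').2
    have h7 : l ≡ l' [MOD a] := by
      rw [Nat.ModEq, h5, h6]
    have h8 : a ∣ l' - l := (Nat.modEq_iff_dvd' hll'.le).mp h7
    have h9 := Nat.le_of_dvd (by omega) h8
    omega

end Pool.Agent.W_7d29a1_PL
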