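import Pool.Agent.W_7d29a1_PL.DefsPL
import Pool.Agent.W_7d29a1_PL.LevelSel34
import Pool.Agent.W_7d29a1_SP.Step15

/-!
THEOREM PL, leaf ADD, the events of the levels: measurability, rows, shift to an atom, groups
(helper34).
-/

namespace Pool.Agent.W_7d29a1_PL.A34

open MeasureTheory ProbabilityTheory Filter Topology Pool.Agent.W_MP_7d29a1_pr
  Pool.Agent.W_7d29a1_h46 Pool.Agent.W_7d29a1_h46u Pool.Agent.W_7d29a1_D2.B35
  Pool.Agent.W_7d29a1_Q29 Pool.Agent.W_7d29a1_R34 Pool.Agent.W_7d29a1_SP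

variable {d : ℕ} {ρ : Measure ℝ} {β : ℝ} {h : Vec d}

/-- Luck at a horizon in `[T₁, T₁ + S]`. -/
def Wd (ρ : Measure ℝ) (β : ℝ) (h : Vec d) (T₁ S : ℕ) (a : ℝ) : Set (Env d) :=
  {η | ∃ s : ℕ, s ≤ S ∧ ((T₁ + s : ℕ) : ℝ) * lam ρ β h - a ≤ X β h η (T₁ + s)}

lemma Wd_meas (T₁ S : ℕ) (a : ℝ) : MeasurableSet (Wd ρ β h T₁ S a) := by
  have e : Wd ρ β h T₁ S a = ⋃ s ∈ Finset.range (S + 1),
      {η | ((T₁ + s : ℕ) : ℝ) * lam ρ β h - a ≤ X β h η (T₁ + s)} := by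
    ext η
    simp only [Wd, Set.mem_ofPred_eq, Set.mem_iUnion, exists_prop, Finset.mem_range,
      Nat.lt_succ_iff]
  rw [e]
  exact Finset.measurableSet_biUnion _ fun s _ =>
    measurableSet_le measurable_const (measurable_X β h _)

lemma Wd_mono {T₁ S S' : ℕ} {a a' : ℝ} (h2 : S ≤ S') (h3 : a ≤ a') :
    Wd ρ β h T₁ S a ⊆ Wd ρ β h T₁ S' a' := by
  rintro η ⟨s, hs, hX⟩
  exact ⟨s, hs.trans h2, by linarith⟩

lemma X_dep (n : ℕ) : DependsOn (fun η : Env d => X β h η n) {p | 1 ≤ p.1 ∧ p.1 ≤ n} := by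
  intro η η' hη
  have h1 : Z β h η n = Z β h η' n := dependsOn_Z β h n hη
  show Real.log (Z β h η n) = Real.log (Z β h η' n)
  rw [h1]

lemma Wd_dep (T₁ S : ℕ) (a : ℝ) :
    DependsOn (fun η => η ∈ Wd ρ β h T₁ S a) {p | 1 ≤ p.1 ∧ p.1 ≤ T₁ + S} := by
  intro η η' hη
  have h1 : ∀ s, s ≤ S → X β h η (T₁ + s) = X β h η' (T₁ + s) := fun s hs =>
    X_dep (T₁ + s) fun p hp => hη p ⟨hp.1, hp.2.trans (by omega)⟩
  show (∃ s : ℕ, s ≤ S ∧ ((T₁ + s : ℕ) : ℝ) * lam ρ β h - a ≤ X β h η (T₁ + s)) =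
    (∃ s : ℕ, s ≤ S ∧ ((T₁ + s : ℕ) : ℝ) * lam ρ β h - a ≤ X β h η' (T₁ + s))
  refine propext ⟨?_, ?_⟩
  · rintro ⟨s, h2, h3⟩
    exact ⟨s, h2, by rwa [← h1 s h2]⟩
  · rintro ⟨s, h2, h3⟩
    exact ⟨s, h2, by rwa [h1 s h2]⟩

/-- A path from the origin reaches the luck event at an atom. -/
lemma Wd_shift (hd : 0 < d) {c₀ G : ℝ} (hc : 0 < c₀) {s T : ℕ} (hs : s ≤ T) {y : Site d}
    {η : Env d} (hA : c₀ * Z β h η s ≤ PP β h η s y) (hG : s * lam ρ β h - G ≤ X β h η s)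
    {T₁ S : ℕ} {a : ℝ} (hL : sh s y η ∈ Wd ρ β h T₁ S a) :
    η ∈ Wd ρ β h T₁ (S + T) (a + G + |Real.log c₀|) := by
  obtain ⟨s', hs', hX⟩ := hL
  refine ⟨s' + s, by omega, ?_⟩
  have hZ := Z_pos hd β h η s
  have hZm := Z_pos hd β h (sh s y η) (T₁ + s')
  have hch := PP_chainZ β h η s (T₁ + s') y
  have k1 : c₀ * Z β h η s * Z β h (sh s y η) (T₁ + s') ≤ Z β h η (s + (T₁ + s')) :=
    (mul_le_mul_of_nonneg_right hA hZm.le).trans hch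
  have k2 := Real.log_le_log (mul_pos (mul_pos hc hZ) hZm) k1
  rw [Real.log_mul (mul_pos hc hZ).ne' hZm.ne', Real.log_mul hc.ne' hZ.ne'] at k2
  have k3 : Real.log (Z β h (sh s y η) (T₁ + s')) = X β h (sh s y η) (T₁ + s') := rfl
  have k4 : Real.log (Z β h η s) = X β h η s := rfl
  have k5 : Real.log (Z β h η (s + (T₁ + s'))) = X β h η (s + (T₁ + s')) := rfl
  rw [k3, k4, k5] at k2
  have k6 := neg_abs_le (Real.log c₀)
  have k7 : T₁ + (s' + s) = s + (T₁ + s') := by omega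
  rw [k7]
  push_cast at hX ⊢
  nlinarith

lemma Lg0_eq (H S : ℕ) (x κ z : ℝ) :
    Lg0 ρ β h H S x κ z = Wd ρ β h H S ((1 - κ) * x + z) := by
  ext η
  simp only [Lg0, Wd, Set.mem_ofPred_eq]
  refine exists_congr fun s => and_congr_right fun _ => ?_
  constructor <;> intro h1 <;> linarith

lemma LgN_eq (H S : ℕ) (x κ z : ℝ) (N : ℕ) :
    LgN ρ β h H S x κ z N = Wd ρ β h (N * H) S (z - κ * N * x) := by
  ext η
  simp only [LgN, Wd, Set.mem_ofPred_eq]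
  refine exists_congr fun s => and_congr_right fun _ => ?_
  constructor <;> intro h1 <;> linarith

lemma Lk_meas (n H S : ℕ) (x κ z : ℝ) : MeasurableSet (Lk ρ β h n H S x κ z) := by
  have e : Lk ρ β h n H S x κ z = Wd ρ β h H S ((1 - κ) * x + z) ∪
      ⋃ N ∈ {N : ℕ | 2 ≤ N ∧ N * H ≤ n}, Wd ρ β h (N * H) S (z - κ * N * x) := by
    unfold Lk
    rw [Lg0_eq]
    congr 1
    ext η
    simp only [Set.mem_ofPred_eq, Set.mem_iUnion, exists_prop, LgN_eq, and_assoc]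
  rw [e]
  exact (Wd_meas _ _ _).union (MeasurableSet.biUnion (Set.to_countable _) fun N _ =>
    Wd_meas _ _ _)

lemma Lk_dep (n H S : ℕ) (x κ z : ℝ) :
    DependsOn (fun η => η ∈ Lk ρ β h n H S x κ z) {p | 1 ≤ p.1} := by
  intro η η' hη
  have h1 : ∀ T₁ S a, (η ∈ Wd ρ β h T₁ S a) = (η' ∈ Wd ρ β h T₁ S a) := fun T₁ S a =>
    Wd_dep T₁ S a fun p hp => hη p hp.1
  show (η ∈ Lg0 ρ β h H S x κ z ∨ ∃ N : ℕ, 2 ≤ N ∧ N * H ≤ n ∧ η ∈ LgN ρ β h H S x κ z N) =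
    (η' ∈ Lg0 ρ β h H S x κ z ∨ ∃ N : ℕ, 2 ≤ N ∧ N * H ≤ n ∧ η' ∈ LgN ρ β h H S x κ z N)
  simp only [Lg0_eq, LgN_eq, h1]

lemma Lk_mono {n H S S' : ℕ} {x κ z z' : ℝ} (hS : S ≤ S') (hz : z ≤ z') :
    Lk ρ β h n H S x κ z ⊆ Lk ρ β h n H S' x κ z' := by
  rintro η (h1 | ⟨N, h1, h2, h3⟩)
  · rw [Lg0_eq] at h1
    refine Or.inl ?_
    rw [Lg0_eq]
    exact Wd_mono hS (by linarith) h1
  · rw [LgN_eq] at h3
    refine Or.inr ⟨N, h1, h2, ?_⟩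
    rw [LgN_eq]
    exact Wd_mono hS (by linarith) h3

lemma Lk_shift (hd : 0 < d) {c₀ G : ℝ} (hc : 0 < c₀) {s T : ℕ} (hs : s ≤ T) {y : Site d}
    {η : Env d} (hA : c₀ * Z β h η s ≤ PP β h η s y) (hG : s * lam ρ β h - G ≤ X β h η s)
    {n H S : ℕ} {x κ z : ℝ} (hL : sh s y η ∈ Lk ρ β h n H S x κ z) :
    η ∈ Lk ρ β h n H (S + T) x κ (z + G + |Real.log c₀|) := by
  rcases hL with h1 | ⟨N, h1, h2, h3⟩
  · rw [Lg0_eq] at h1
    refine Or.inl ?_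
    rw [Lg0_eq]
    exact Wd_mono le_rfl (by linarith) (Wd_shift hd hc hs hA hG h1)
  · rw [LgN_eq] at h3
    refine Or.inr ⟨N, h1, h2, ?_⟩
    rw [LgN_eq]
    exact Wd_mono le_rfl (by linarith) (Wd_shift hd hc hs hA hG h3)

lemma Lg_meas (n H S : ℕ) (x κ z : ℝ) (i : ℕ) :
    MeasurableSet (Lg ρ β h n H S x κ z i) := by
  rcases i with _ | i
  · show MeasurableSet (Lg0 ρ β h H S x κ z)
    rw [Lg0_eq]
    exact Wd_meas _ _ _
  · have e : Lg ρ β h n H S x κ z (i + 1) =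
        ⋃ N ∈ {N : ℕ | 2 ^ (i + 1) ≤ N ∧ N < 2 ^ (i + 2) ∧ N * H ≤ n},
          Wd ρ β h (N * H) S (z - κ * N * x) := by
      ext η
      simp only [Lg, Set.mem_ofPred_eq, Set.mem_iUnion, exists_prop, LgN_eq, and_assoc]
    rw [e]
    exact MeasurableSet.biUnion (Set.to_countable _) fun N _ => Wd_meas _ _ _

lemma Lg_dep (n H S : ℕ) (x κ z : ℝ) (i : ℕ) :
    DependsOn (fun η => η ∈ Lg ρ β h n H S x κ z i)
      {p | 1 ≤ p.1 ∧ p.1 ≤ 2 ^ (i + 1) * (H + S)} := by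
  intro η η' hη
  rcases i with _ | i
  · show (η ∈ Lg0 ρ β h H S x κ z) = (η' ∈ Lg0 ρ β h H S x κ z)
    rw [Lg0_eq]
    exact Wd_dep _ _ _ fun p hp => hη p ⟨hp.1, hp.2.trans (by omega)⟩
  · have h1 : ∀ N : ℕ, N < 2 ^ (i + 2) → 1 ≤ N → ∀ a,
        (η ∈ Wd ρ β h (N * H) S a) = (η' ∈ Wd ρ β h (N * H) S a) := fun N hN hN1 a =>
      Wd_dep _ _ _ fun p hp => hη p ⟨hp.1, hp.2.trans (by
        calc N * H + S ≤ N * H + N * S := by nlinarith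
          _ = N * (H + S) := by ring
          _ ≤ 2 ^ (i + 1 + 1) * (H + S) := Nat.mul_le_mul_right _ hN.le)⟩
    show (∃ N : ℕ, 2 ^ (i + 1) ≤ N ∧ N < 2 ^ (i + 2) ∧ N * H ≤ n ∧
        η ∈ LgN ρ β h H S x κ z N) =
      (∃ N : ℕ, 2 ^ (i + 1) ≤ N ∧ N < 2 ^ (i + 2) ∧ N * H ≤ n ∧
        η' ∈ LgN ρ β h H S x κ z N)
    have h2 : ∀ N : ℕ, 2 ^ (i + 1) ≤ N → 1 ≤ N := fun N hN => (Nat.one_le_two_pow).trans hN
    refine propext ⟨?_, ?_⟩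
    · rintro ⟨N, h3, h4, h5, h6⟩
      rw [LgN_eq] at h6
      refine ⟨N, h3, h4, h5, ?_⟩
      rw [LgN_eq, ← h1 N h4 (h2 N h3)]
      exact h6
    · rintro ⟨N, h3, h4, h5, h6⟩
      rw [LgN_eq] at h6
      refine ⟨N, h3, h4, h5, ?_⟩
      rw [LgN_eq, h1 N h4 (h2 N h3)]
      exact h6

/-- The luck is the union of its groups. -/
lemma Lk_sub {n H S : ℕ} {x κ z : ℝ} (hH : 1 ≤ H) :
    Lk ρ β h n H S x κ z ⊆ ⋃ i ∈ Finset.range (n + 1), Lg ρ β h n H S x κ z i := by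
  rintro η (h1 | ⟨N, h1, h2, h3⟩)
  · simp only [Set.mem_iUnion, exists_prop, Finset.mem_range]
    exact ⟨0, by omega, h1⟩
  · simp only [Set.mem_iUnion, exists_prop, Finset.mem_range]
    have hN0 : N ≠ 0 := by omega
    have h4 : 2 ^ Nat.log 2 N ≤ N := Nat.pow_log_le_self 2 hN0
    have h5 : N < 2 ^ (Nat.log 2 N + 1) := Nat.lt_pow_succ_log_self (by norm_num) N
    have h6 : 1 ≤ Nat.log 2 N := by
      rw [Nat.one_le_iff_ne_zero]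
      intro h0
      rw [h0] at h5
      simp at h5
      omega
    obtain ⟨i, hi⟩ : ∃ i, Nat.log 2 N = i + 1 := ⟨Nat.log 2 N - 1, by omega⟩
    rw [hi] at h4 h5
    have h7 : N ≤ n := by
      calc N = N * 1 := (Nat.mul_one N).symm
        _ ≤ N * H := Nat.mul_le_mul_left N hH
        _ ≤ n := h2
    have h8 : i + 1 < 2 ^ (i + 1) := Nat.lt_two_pow_self
    exact ⟨i + 1, by omega, N, h4, h5, h2, h3⟩

end Pool.Agent.W_7d29a1_PL.A34
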