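import Pool.Agent.W_7d29a1_PL.AddEv34

/-!
THEOREM PL, leaf ADD: the prices of the levels add up (helper34; from `CatP` and `CostP`).
-/

namespace Pool.Agent.W_7d29a1_PL

open MeasureTheory ProbabilityTheory Filter Topology Pool.Agent.W_MP_7d29a1_pr
  Pool.Agent.W_7d29a1_h46 Pool.Agent.W_7d29a1_h46u Pool.Agent.W_7d29a1_D2.B35
  Pool.Agent.W_7d29a1_Q29 Pool.Agent.W_7d29a1_R34 Pool.Agent.W_7d29a1_SP

namespace A34

variable {d : ℕ} {ρ : Measure ℝ} {β : ℝ} {h : Vec d}

lemma Lg_mono {n H S : ℕ} {x κ z z' : ℝ} (hz : z ≤ z') (i : ℕ) :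
    Lg ρ β h n H S x κ z i ⊆ Lg ρ β h n H S x κ z' i := by
  rcases i with _ | i
  · intro η h1
    have h2 : η ∈ Lg0 ρ β h H S x κ z := h1
    show η ∈ Lg0 ρ β h H S x κ z'
    rw [Lg0_eq] at h2 ⊢
    exact Wd_mono le_rfl (by linarith) h2
  · rintro η ⟨N, h1, h2, h3, h4⟩
    refine ⟨N, h1, h2, h3, ?_⟩
    rw [LgN_eq] at h4 ⊢
    exact Wd_mono le_rfl (by linarith) h4

lemma m_mono {m : ℕ → ℕ} (hlo : ∀ l k : ℕ, k < m l → fM ρ β h k < 2 ^ l)
    (hhi : ∀ l : ℕ, 2 ^ l ≤ fM ρ β h (m l)) : Monotone m := by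
  apply monotone_nat_of_le_succ
  intro l
  by_contra hlt
  push Not at hlt
  have h1 := hlo l (m (l + 1)) hlt
  have h2 := hhi (l + 1)
  have h3 : (2 : ℝ) ^ (l + 1) = 2 * 2 ^ l := pow_succ' 2 l
  have h4 : (0 : ℝ) < 2 ^ l := by positivity
  linarith

/-- The first time of a level is more than twice the first time of the level `p - a`. -/
lemma rec34 [IsProbabilityMeasure ρ] (hd : 0 < d) (hρ : EM ρ) {n a B Λ : ℕ} {ε : ℝ}
    {m : ℕ → ℕ} {I : Finset ℕ} (hS : Sy ρ β h n a B Λ ε m I) (ha : 2 ≤ a) (hε : ε < 1)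
    (hB : 1 ≤ B) {p : ℕ} (hp : p ∈ I) : 2 * m (p - a) < m p := by
  by_contra hlt
  push Not at hlt
  obtain ⟨hap, hM⟩ := hS.big p hp
  have hE : (2 : ℝ) ^ p ≤ En ρ β h (m p) := by
    have h1 := hS.hi p
    have h2 := hS.fs p hp (m p) (by nlinarith)
    have h3 : (0 : ℝ) < 2 ^ p := by positivity
    unfold fM at h1
    rcases le_max_iff.mp h1 with h4 | h4
    · exact h4
    · nlinarith
  have hk : ∀ k : ℕ, k < m (p - a) → En ρ β h k < 2 ^ (p - a) := fun k hk =>
    (le_max_left _ _).trans_lt (hS.lo _ _ hk)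
  obtain ⟨k₁, k₂, k₃, k₄, h1, h2, h3, h4, h5⟩ : ∃ k₁ k₂ k₃ k₄ : ℕ, k₁ < m (p - a) ∧
      k₂ < m (p - a) ∧ k₃ < m (p - a) ∧ k₄ < m (p - a) ∧ m p = k₁ + k₂ + (k₃ + k₄) := by
    refine ⟨min (m p) (m (p - a) - 1), min (m p - min (m p) (m (p - a) - 1)) (m (p - a) - 1),
      min (m p - 2 * (m (p - a) - 1)) (m (p - a) - 1), m p - 3 * (m (p - a) - 1), ?_, ?_, ?_, ?_,
      ?_⟩ <;> omega
  have h6 := En_add15 (ρ := ρ) hd hρ β h (k₁ + k₂) (k₃ + k₄)
  have h7 := En_add15 (ρ := ρ) hd hρ β h k₁ k₂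
  have h8 := En_add15 (ρ := ρ) hd hρ β h k₃ k₄
  have g1 := hk k₁ h1
  have g2 := hk k₂ h2
  have g3 := hk k₃ h3
  have g4 := hk k₄ h4
  rw [← h5] at h6
  have h9 : (2 : ℝ) ^ p = 2 ^ (p - a) * 2 ^ a := by
    rw [← pow_add]
    congr 1
    omega
  have h10 : (4 : ℝ) ≤ 2 ^ a := by
    calc (4 : ℝ) = 2 ^ 2 := by norm_num
      _ ≤ 2 ^ a := pow_le_pow_right₀ (by norm_num) ha
  have h11 : (0 : ℝ) < 2 ^ (p - a) := by positivity
  nlinarith

/-- The events of the levels from `p` on, at the stage `p`. -/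
def Ev (ρ : Measure ℝ) (β : ℝ) (h : Vec d) (n a : ℕ) (m : ℕ → ℕ) (I : Finset ℕ) (κ : ℝ)
    (S : ℕ) (z : ℝ) : Set (Env d) :=
  ⋂ r ∈ I, Lk ρ β h n (m r - 2 * m (r - a)) S (2 ^ r) κ z

lemma Ev_meas (n a : ℕ) (m : ℕ → ℕ) (I : Finset ℕ) (κ : ℝ) (S : ℕ) (z : ℝ) :
    MeasurableSet (Ev ρ β h n a m I κ S z) :=
  Finset.measurableSet_biInter _ fun _ _ => Lk_meas _ _ _ _ _ _

lemma Ev_dep (n a : ℕ) (m : ℕ → ℕ) (I : Finset ℕ) (κ : ℝ) (S : ℕ) (z : ℝ) :
    DependsOn (fun η => η ∈ Ev ρ β h n a m I κ S z) {p | 1 ≤ p.1} := by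
  intro η η' hη
  have h1 : ∀ r, (η ∈ Lk ρ β h n (m r - 2 * m (r - a)) S (2 ^ r) κ z) =
      (η' ∈ Lk ρ β h n (m r - 2 * m (r - a)) S (2 ^ r) κ z) := fun r => Lk_dep _ _ _ _ _ _ hη
  have h2 : ∀ ξ : Env d, (ξ ∈ Ev ρ β h n a m I κ S z) =
      ∀ r ∈ I, ξ ∈ Lk ρ β h n (m r - 2 * m (r - a)) S (2 ^ r) κ z := by
    intro ξ
    simp only [Ev, Set.mem_iInter]
  show (η ∈ Ev ρ β h n a m I κ S z) = (η' ∈ Ev ρ β h n a m I κ S z)
  rw [h2, h2]
  simp only [h1]

lemma sum34 {c₁ C₁ : ℝ} (hc₁ : 0 < c₁) (hC₁ : 0 ≤ C₁) (N : ℕ) :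
    ∑ i ∈ Finset.range N, (C₁ * Real.exp (-(c₁ * i)) + (1 / 2) ^ i) ≤
      C₁ * (1 - Real.exp (-c₁))⁻¹ + 2 := by
  have h1 : Real.exp (-c₁) < 1 := by
    rw [Real.exp_lt_one_iff]
    linarith
  have h0 : 0 ≤ Real.exp (-c₁) := (Real.exp_pos _).le
  have h2 : ∀ i : ℕ, Real.exp (-(c₁ * i)) = Real.exp (-c₁) ^ i := by
    intro i
    rw [← Real.exp_nat_mul]
    congr 1
    ring
  rw [Finset.sum_add_distrib, ← Finset.mul_sum]
  have h3 : ∑ i ∈ Finset.range N, Real.exp (-(c₁ * i)) ≤ (1 - Real.exp (-c₁))⁻¹ := by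
    simp only [h2]
    rw [← tsum_geometric_of_lt_one h0 h1]
    exact (summable_geometric_of_lt_one h0 h1).sum_le_tsum _ fun i _ => pow_nonneg h0 i
  have h4 : ∑ i ∈ Finset.range N, (1 / 2 : ℝ) ^ i ≤ 2 := by
    have h5 := summable_geometric_two.sum_le_tsum (Finset.range N) fun i _ => by positivity
    rwa [tsum_geometric_two] at h5
  exact add_le_add (mul_le_mul_of_nonneg_left h3 hC₁) h4

end A34

open A34 in
/-- ADD. -/
theorem addP34 {d : ℕ} {ρ : Measure ℝ} [IsProbabilityMeasure ρ] (hd : 0 < d) (hρ : EM ρ)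
    {β : ℝ} (hCat : CatP d ρ β) (hCost : CostP d ρ β) : AddP d ρ β := by
  intro c₀ κ hc₀ hκ hκ2
  obtain ⟨Cc, hCc, hcat⟩ := hCat c₀ hc₀
  obtain ⟨a₀, B₀, Λ₀, ε₀, c₁, C₁, hε₀, hc₁, hC₁, hcost⟩ := hCost c₀ κ hc₀ hκ hκ2
  obtain ⟨Cz, hCz⟩ : ∃ Cz : ℝ, Cz = 4 * Cc + 2 * |Real.log c₀| := ⟨_, rfl⟩
  have hlog0 := abs_nonneg (Real.log c₀)
  have hCz0 : 0 < Cz := by linarith
  obtain ⟨a₁, ha₁⟩ : ∃ a₁ : ℕ, 8 * Cz / κ < 2 ^ a₁ :=
    pow_unbounded_of_one_lt _ one_lt_two
  obtain ⟨a, ha⟩ : ∃ a, a = max (max a₀ a₁) 3 := ⟨_, rfl⟩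
  obtain ⟨B, hB⟩ : ∃ B, B = max B₀ 1 := ⟨_, rfl⟩
  obtain ⟨Λ, hΛ⟩ : ∃ Λ, Λ = max Λ₀ 64 := ⟨_, rfl⟩
  obtain ⟨ε, hε⟩ : ∃ ε, ε = min ε₀ (1 / 2) := ⟨_, rfl⟩
  obtain ⟨c, hc⟩ : ∃ c, c = min c₁ (1 / 2) := ⟨_, rfl⟩
  obtain ⟨G₀, hG₀⟩ : ∃ G₀, G₀ = C₁ * (1 - Real.exp (-c₁))⁻¹ + 2 := ⟨_, rfl⟩
  obtain ⟨C4, hC4⟩ : ∃ C4, C4 = Cc * G₀ := ⟨_, rfl⟩
  have ha3 : 3 ≤ a := by rw [ha]; exact le_max_right _ _
  have ha2 : 2 ≤ a := by omega
  have haa₀ : a₀ ≤ a := by rw [ha]; exact (le_max_left _ _).trans (le_max_left _ _)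
  have haa₁ : a₁ ≤ a := by rw [ha]; exact (le_max_right _ _).trans (le_max_left _ _)
  have hB1 : 1 ≤ B := by rw [hB]; exact le_max_right _ _
  have hBB : B₀ ≤ B := by rw [hB]; exact le_max_left _ _
  have hΛ64 : 64 ≤ Λ := by rw [hΛ]; exact le_max_right _ _
  have hΛΛ : Λ₀ ≤ Λ := by rw [hΛ]; exact le_max_left _ _
  have hε0 : 0 < ε := by rw [hε]; exact lt_min hε₀ (by norm_num)
  have hεε : ε ≤ ε₀ := by rw [hε]; exact min_le_left _ _
  have hε1 : ε < 1 := by
    rw [hε]
    exact (min_le_right _ _).trans_lt (by norm_num)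
  have hc0 : 0 < c := by rw [hc]; exact lt_min hc₁ (by norm_num)
  have hcc : c ≤ c₁ := by rw [hc]; exact min_le_left _ _
  have hc2 : c ≤ 1 / 2 := by rw [hc]; exact min_le_right _ _
  have hinv : 0 < (1 - Real.exp (-c₁))⁻¹ := by
    apply inv_pos.mpr
    have : Real.exp (-c₁) < 1 := by
      rw [Real.exp_lt_one_iff]
      linarith
    linarith
  have hG2 : 2 ≤ G₀ := by
    rw [hG₀]
    have : 0 ≤ C₁ * (1 - Real.exp (-c₁))⁻¹ := by positivity
    linarith
  have hC41 : 1 ≤ C4 := by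
    rw [hC4]
    nlinarith
  have hCz8 : Cz ≤ κ / 8 * 2 ^ a := by
    have h1 : (2 : ℝ) ^ a₁ ≤ 2 ^ a := pow_le_pow_right₀ (by norm_num) haa₁
    rw [div_lt_iff₀ hκ] at ha₁
    nlinarith
  refine ⟨a, B, Λ, ε, c, C4, by omega, hε0, hc0, hC41, fun h hL n m I hS hVE => ?_⟩
  have hm : Monotone m := m_mono hS.lo hS.hi
  -- the system for the cost
  have hS₀ : Sy ρ β h n a B₀ Λ₀ ε₀ m I := by
    refine ⟨hS.lo, hS.hi, hS.big, hS.sm, fun p hp j hj => ?_, hS.sp, fun p hp k hk => ?_⟩
    · exact (Nat.mul_le_mul_right _ (Nat.pow_le_pow_left hΛΛ _)).trans_lt (hS.nc p hp j hj)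
    · refine (hS.fs p hp k (hk.trans (Nat.mul_le_mul_right _ hBB))).trans ?_
      exact mul_le_mul_of_nonneg_right hεε (by positivity)
  have hcs := hcost a haa₀ h hL n m I hS₀ hVE
  -- sizes
  have hm2 : ∀ p ∈ I, 2 ≤ m p := fun p hp => (hS.big p hp).2.trans (hm (Nat.sub_le _ _))
  have hmn : ∀ p ∈ I, m p ≤ n := by
    intro p hp
    have h1 := hm2 p hp
    have h2 := hS.sm p hp
    calc m p = m p ^ 1 := (pow_one _).symm
      _ ≤ m p ^ 4 := Nat.pow_le_pow_right (by omega) (by norm_num)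
      _ ≤ n := h2
  obtain ⟨x, hxdef⟩ : ∃ x : ℕ → ℝ, x = fun r => Real.log ((min (m r) n : ℕ) : ℝ) := ⟨_, rfl⟩
  have hx : Monotone x := by
    intro r s hrs
    rw [hxdef]
    exact log_mono15 (min_le_min_right n (hm hrs))
  have hDl : ∀ p ∈ I, Dl n m p = x (p + 1) - x p := by
    intro p hp
    have h1 := hm2 p hp
    have h2 := hmn p hp
    have h3 : 0 < min (m (p + 1)) n := lt_min (by
      have h5 : m p ≤ m (p + 1) := hm (Nat.le_succ p)
      omega) (by omega)
    have h4 : min (m p) n = m p := min_eq_left h2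
    rw [hxdef]
    simp only [Dl]
    rw [h4, Real.log_div (by exact_mod_cast h3.ne') (by
      have : 0 < m p := by omega
      exact_mod_cast this.ne')]
  have hsumle : ∀ (p v : ℕ) (R : Finset ℕ), p ≤ v → R ⊆ I → (∀ r ∈ R, p ≤ r ∧ r < v) →
      ∑ r ∈ R, Dl n m r ≤ x v - x p := by
    intro p v R hpv hRI hR
    rw [Finset.sum_congr rfl fun r hr => hDl r (hRI hr)]
    exact sum_le34 hx hpv fun r hr => Finset.mem_Ico.mpr (hR r hr)
  have hDl0 : ∀ p ∈ I, 0 ≤ Dl n m p := fun p hp => by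
    rw [hDl p hp]
    exact sub_nonneg.mpr (hx (Nat.le_succ p))
  -- the claim
  have key : ∀ k : ℕ, ∀ p ∈ I, (I.filter (p ≤ ·)).card = k →
      (law d ρ).real (Ev ρ β h n a m (I.filter (p ≤ ·)) κ (2 * m (p - a)) (Cz * 2 ^ (p - a))) ≤
        C4 ^ k * Real.exp (-(c * ∑ r ∈ I.filter (p ≤ ·), Dl n m r)) := by
    intro k
    induction k using Nat.strong_induction_on with
    | _ k ih =>
    intro p hp hk
    obtain ⟨J, hJ⟩ : ∃ J, J = I.filter (p ≤ ·) := ⟨_, rfl⟩
    rw [← hJ] at hk ⊢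
    have hJI : J ⊆ I := by rw [hJ]; exact Finset.filter_subset _ _
    have hJp : ∀ r ∈ J, p ≤ r := fun r hr => by
      rw [hJ] at hr
      exact (Finset.mem_filter.mp hr).2
    have hpJ : p ∈ J := by
      rw [hJ]
      exact Finset.mem_filter.mpr ⟨hp, le_rfl⟩
    have hk1 : 1 ≤ k := by
      rw [← hk]
      exact Finset.card_pos.mpr ⟨p, hpJ⟩
    obtain ⟨hap, hM2⟩ := hS.big p hp
    have hmp2 := hm2 p hp
    have hrec := rec34 hd hρ hS ha2 hε1 hB1 hp
    obtain ⟨S, hSdef⟩ : ∃ S, S = 2 * m (p - a) := ⟨_, rfl⟩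
    obtain ⟨z, hz⟩ : ∃ z : ℝ, z = Cz * 2 ^ (p - a) := ⟨_, rfl⟩
    rw [← hSdef, ← hz]
    have hHS : m p - 2 * m (p - a) + S = m p := by omega
    obtain ⟨L, hLdef⟩ : ∃ L : ℕ → Set (Env d),
        L = fun i => Lg ρ β h n (m p - 2 * m (p - a)) S (2 ^ p) κ z i := ⟨_, rfl⟩
    have hLmeas : ∀ i, MeasurableSet (L i) := fun i => by
      rw [hLdef]
      exact Lg_meas _ _ _ _ _ _ _
    -- the cost of a group
    have hzκ : z ≤ κ / 8 * 2 ^ p := by
      have h1 : (2 : ℝ) ^ p = 2 ^ a * 2 ^ (p - a) := by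
        rw [← pow_add]
        congr 1
        omega
      rw [hz, h1, ← mul_assoc]
      exact mul_le_mul_of_nonneg_right hCz8 (by positivity)
    have hPL : ∀ i : ℕ, (law d ρ).real (L i) ≤
        C₁ * Real.exp (-(c₁ * i)) * Real.exp (-(c₁ * (x (p + i + 1) - x p))) := by
      intro i
      have h1 : (law d ρ).real (L i) ≤ (law d ρ).real
          (Lg ρ β h n (m p - 2 * m (p - a)) (2 * m (p - a)) (2 ^ p) κ (κ / 8 * 2 ^ p) i) := by
        rw [hLdef, hSdef]
        exact measureReal_mono (Lg_mono hzκ i) (measure_ne_top _ _)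
      refine h1.trans ((hcs p hp i).trans (le_of_eq ?_))
      congr 1
      have h2 : 0 < min (m (p + i + 1)) n := lt_min (by
        have := hm (show p ≤ p + i + 1 by omega)
        omega) (by have := hmn p hp; omega)
      have h3 : (0 : ℝ) < ((min (m (p + i + 1)) n : ℕ) : ℝ) := by exact_mod_cast h2
      have h4 : (0 : ℝ) < (m p : ℝ) := by
        have : 0 < m p := by omega
        exact_mod_cast this
      rw [Real.rpow_def_of_pos (div_pos h4 h3), Real.log_div h4.ne' h3.ne', hxdef]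
      simp only
      rw [min_eq_left (hmn p hp)]
      congr 1
      ring
    -- the union over the groups
    obtain ⟨G₁, hG₁⟩ : ∃ G₁, G₁ = Ev ρ β h n a m (J.erase p) κ S z := ⟨_, rfl⟩
    have hsub : Ev ρ β h n a m J κ S z ⊆ ⋃ i ∈ Finset.range (n + 1), (L i ∩ G₁) := by
      intro η hη
      have h1 : ∀ r ∈ J, η ∈ Lk ρ β h n (m r - 2 * m (r - a)) S (2 ^ r) κ z := by
        intro r hr
        have := hη
        simp only [Ev, Set.mem_iInter] at this
        exact this r hr
      have h2 := Lk_sub (by omega) (h1 p hpJ)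
      simp only [Set.mem_iUnion, exists_prop] at h2 ⊢
      obtain ⟨i, hi, h3⟩ := h2
      refine ⟨i, hi, by rw [hLdef]; exact h3, ?_⟩
      rw [hG₁]
      simp only [Ev, Set.mem_iInter]
      intro r hr
      exact h1 r (Finset.mem_of_mem_erase hr)
    obtain ⟨E, hE⟩ : ∃ E, E = ∑ r ∈ J, Dl n m r := ⟨_, rfl⟩
    rw [← hE]
    have hpow1 : 1 ≤ C4 ^ (k - 1) := one_le_pow₀ hC41
    have hterm : ∀ i : ℕ, (law d ρ).real (L i ∩ G₁) ≤
        (C₁ * Real.exp (-(c₁ * i)) + (1 / 2) ^ i) *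
          (Cc * C4 ^ (k - 1) * Real.exp (-(c * E))) := by
      intro i
      have hexp0 : 0 < C₁ * Real.exp (-(c₁ * i)) := by positivity
      have hhalf0 : (0 : ℝ) < (1 / 2) ^ i := by positivity
      rcases (J.filter (p + i + 1 ≤ ·)).eq_empty_or_nonempty with hK | hK
      · -- no level beyond the group
        have h1 : E ≤ x (p + i + 1) - x p := by
          rw [hE]
          refine hsumle p (p + i + 1) J (by omega) hJI fun r hr => ⟨hJp r hr, ?_⟩
          by_contra h2
          have h3 : r ∈ J.filter (p + i + 1 ≤ ·) := Finset.mem_filter.mpr ⟨hr, not_lt.mp h2⟩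
          rw [hK] at h3
          exact absurd h3 (Finset.notMem_empty r)
        have hE0 : 0 ≤ E := by
          rw [hE]
          exact Finset.sum_nonneg fun r hr => hDl0 r (hJI hr)
        have h2 : Real.exp (-(c₁ * (x (p + i + 1) - x p))) ≤ Real.exp (-(c * E)) := by
          rw [Real.exp_le_exp]
          have : c * E ≤ c₁ * (x (p + i + 1) - x p) := mul_le_mul hcc h1 hE0 hc₁.le
          linarith
        have h3 : (law d ρ).real (L i ∩ G₁) ≤ (law d ρ).real (L i) :=
          measureReal_mono Set.inter_subset_left (measure_ne_top _ _)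
        have h4 : 0 < Real.exp (-(c * E)) := Real.exp_pos _
        calc (law d ρ).real (L i ∩ G₁)
            ≤ C₁ * Real.exp (-(c₁ * i)) * Real.exp (-(c₁ * (x (p + i + 1) - x p))) :=
              h3.trans (hPL i)
          _ ≤ C₁ * Real.exp (-(c₁ * i)) * Real.exp (-(c * E)) := by gcongr
          _ ≤ (C₁ * Real.exp (-(c₁ * i)) + (1 / 2) ^ i) *
              (Cc * C4 ^ (k - 1) * Real.exp (-(c * E))) := by
              have h5 : 1 ≤ Cc * C4 ^ (k - 1) := by nlinarith
              have h6 : Real.exp (-(c * E)) ≤ Cc * C4 ^ (k - 1) * Real.exp (-(c * E)) := by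
                nlinarith
              exact mul_le_mul (by linarith) h6 h4.le (by linarith)
      · -- the first level beyond the group
        obtain ⟨q, hq⟩ : ∃ q, q = (J.filter (p + i + 1 ≤ ·)).min' hK := ⟨_, rfl⟩
        have hqK : q ∈ J.filter (p + i + 1 ≤ ·) := by
          rw [hq]
          exact Finset.min'_mem _ _
        obtain ⟨hqJ, hqi⟩ := Finset.mem_filter.mp hqK
        have hqmin : ∀ r ∈ J, p + i + 1 ≤ r → q ≤ r := fun r hr hri => by
          rw [hq]
          exact Finset.min'_le _ _ (Finset.mem_filter.mpr ⟨hr, hri⟩)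
        have hqI : q ∈ I := hJI hqJ
        have hpq : p < q := by omega
        have hsp := hS.sp p hp q hqI hpq
        obtain ⟨haq, hMq⟩ := hS.big q hqI
        obtain ⟨Jq, hJq⟩ : ∃ Jq, Jq = I.filter (q ≤ ·) := ⟨_, rfl⟩
        have hJqJ : Jq ⊆ J := by
          intro r hr
          rw [hJq, Finset.mem_filter] at hr
          rw [hJ, Finset.mem_filter]
          exact ⟨hr.1, by omega⟩
        have hJqe : Jq ⊆ J.erase p := by
          intro r hr
          refine Finset.mem_erase.mpr ⟨?_, hJqJ hr⟩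
          rw [hJq, Finset.mem_filter] at hr
          omega
        have hcard : Jq.card ≤ k - 1 := by
          have h1 := Finset.card_le_card hJqe
          rw [Finset.card_erase_of_mem hpJ, hk] at h1
          exact h1
        have hIH := ih Jq.card (by omega) q hqI (by rw [← hJq])
        rw [← hJq] at hIH
        -- the levels between
        obtain ⟨R, hR⟩ : ∃ R, R = J.filter (· < q) := ⟨_, rfl⟩
        obtain ⟨W, hW⟩ : ∃ W, W = ∑ r ∈ R, Dl n m r := ⟨_, rfl⟩
        have hRJ : R ⊆ J := by rw [hR]; exact Finset.filter_subset _ _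
        have hRq : ∀ r ∈ R, r < q := fun r hr => by
          rw [hR] at hr
          exact (Finset.mem_filter.mp hr).2
        have hsplit : E = W + ∑ r ∈ Jq, Dl n m r := by
          rw [hE, hW, ← Finset.sum_filter_add_sum_filter_not J (· < q), ← hR]
          congr 1
          apply Finset.sum_congr _ fun _ _ => rfl
          ext r
          rw [hJq, Finset.mem_filter, Finset.mem_filter, hJ, Finset.mem_filter]
          constructor
          · rintro ⟨⟨h1, h2⟩, h3⟩
            exact ⟨h1, not_lt.mp h3⟩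
          · rintro ⟨h1, h2⟩
            exact ⟨⟨h1, by omega⟩, not_lt.mpr h2⟩
        have hW0 : 0 ≤ W := by
          rw [hW]
          exact Finset.sum_nonneg fun r hr => hDl0 r (hJI (hRJ hr))
        have hW1 : W ≤ x (p + i + 1) - x p := by
          rw [hW]
          refine hsumle p (p + i + 1) R (by omega) (hRJ.trans hJI) fun r hr =>
            ⟨hJp r (hRJ hr), ?_⟩
          by_contra h2
          have h3 := hqmin r (hRJ hr) (not_lt.mp h2)
          have h4 := hRq r hr
          omega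
        have hW2 : W ≤ x (q - a) - x p := by
          rw [hW]
          refine hsumle p (q - a) R (by omega) (hRJ.trans hJI) fun r hr =>
            ⟨hJp r (hRJ hr), ?_⟩
          have h3 := hRq r hr
          have h4 := hS.sp r (hJI (hRJ hr)) q hqI h3
          omega
        -- the time of the later level
        have hmqn : m (q - a) ≤ n := (hm (Nat.sub_le _ _)).trans (hmn q hqI)
        obtain ⟨t, ht⟩ : ∃ t, q - a = p + t + 1 := ⟨q - a - p - 1, by omega⟩
        have hnc : 64 ^ (t + 1) * m p < m (q - a) := by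
          have h1 := hS.nc p hp t (by rw [← ht]; exact hmqn)
          rw [← ht] at h1
          exact (Nat.mul_le_mul_right _ (Nat.pow_le_pow_left hΛ64 _)).trans_lt h1
        have h64 : 64 * m p ≤ m (q - a) := by
          have h1 : 64 ^ 1 ≤ 64 ^ (t + 1) := Nat.pow_le_pow_right (by norm_num) (by omega)
          have h2 : 64 ^ 1 * m p ≤ 64 ^ (t + 1) * m p := Nat.mul_le_mul_right _ h1
          omega
        have hmpr : (0 : ℝ) < (m p : ℝ) := by
          have : 0 < m p := by omega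
          exact_mod_cast this
        have hmqr : (0 : ℝ) < (m (q - a) : ℝ) := by
          have : 0 < m (q - a) := by omega
          exact_mod_cast this
        have hxq : x (q - a) = Real.log (m (q - a)) := by
          rw [hxdef]
          simp only
          rw [min_eq_left hmqn]
        have hxp : x p = Real.log (m p) := by
          rw [hxdef]
          simp only
          rw [min_eq_left (hmn p hp)]
        have hlog2 : 0 < Real.log 2 := Real.log_pos (by norm_num)
        have hw : (6 * (t + 1) : ℝ) * Real.log 2 ≤ x (q - a) - x p := by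
          have h1 : ((64 : ℝ) ^ (t + 1)) * m p ≤ m (q - a) := by exact_mod_cast hnc.le
          have h2 := Real.log_le_log (by positivity) h1
          rw [Real.log_mul (by positivity) hmpr.ne', Real.log_pow] at h2
          have h3 : Real.log 64 = 6 * Real.log 2 := by
            rw [show (64 : ℝ) = 2 ^ 6 by norm_num, Real.log_pow]
            norm_num
          rw [h3] at h2
          push_cast at h2
          rw [hxq, hxp]
          linarith
        have ht3 : 2 * (i + 1) ≤ 3 * (t + 1) := by omega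
        have hw4 : (4 * (i + 1) : ℝ) * Real.log 2 ≤ x (q - a) - x p := by
          refine le_trans ?_ hw
          apply mul_le_mul_of_nonneg_right _ hlog2.le
          have : (2 * (i + 1) : ℝ) ≤ 3 * (t + 1) := by exact_mod_cast ht3
          linarith
        -- catch
        obtain ⟨T, hT⟩ : ∃ T, T = m (q - a) - 1 := ⟨_, rfl⟩
        obtain ⟨G, hG⟩ : ∃ G, G = Ev ρ β h n a m Jq κ S z := ⟨_, rfl⟩
        have hzq : z + Cc * (2 ^ (q - a) + 1) + |Real.log c₀| ≤ Cz * 2 ^ (q - a) := by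
          have h1 : (2 : ℝ) * 2 ^ (p - a) ≤ 2 ^ (q - a) := by
            rw [← pow_succ']
            exact pow_le_pow_right₀ (by norm_num) (by omega)
          have h2 : (1 : ℝ) ≤ 2 ^ (q - a) := one_le_pow₀ (by norm_num)
          have h3 : Cz * (2 * 2 ^ (p - a)) ≤ Cz * 2 ^ (q - a) :=
            mul_le_mul_of_nonneg_left h1 hCz0.le
          have h4 : (Cc * 2 ^ (q - a) + Cc + |Real.log c₀| : ℝ) ≤ Cz / 2 * 2 ^ (q - a) := by
            rw [hCz]
            nlinarith
          rw [hz]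
          linarith
        have hcatch := hcat h hL (2 ^ (i + 1) * m p) T (2 ^ (q - a)) (L i) G
          (Ev ρ β h n a m Jq κ (2 * m (q - a)) (Cz * 2 ^ (q - a)))
          (Nat.one_le_iff_ne_zero.mpr (by positivity)) (by omega) (hLmeas i)
          (by rw [hG]; exact Ev_meas _ _ _ _ _ _ _) (Ev_meas _ _ _ _ _ _ _)
          (by
            have h1 := Lg_dep (ρ := ρ) (β := β) (h := h) n (m p - 2 * m (p - a)) S (2 ^ p) κ z i
            rw [hHS] at h1
            rw [hLdef]
            exact h1)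
          (by rw [hG]; exact Ev_dep _ _ _ _ _ _ _)
          (fun k' hk' => by
            have h1 := hS.lo (q - a) k' (by omega)
            unfold fM at h1
            exact ⟨(le_max_left _ _).trans h1.le, (le_max_right _ _).trans h1.le⟩)
          (fun s y η hs hy hA hX hη => by
            rw [hG] at hη
            simp only [Ev, Set.mem_iInter] at hη ⊢
            intro r hr
            have h1 := Lk_shift hd hc₀ hs hA hX (hη r hr)
            refine Lk_mono (by omega) hzq h1)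
        -- the numbers
        have hGG : (law d ρ).real (L i ∩ G₁) ≤ (law d ρ).real (L i ∩ G) := by
          refine measureReal_mono ?_ (measure_ne_top _ _)
          rintro η ⟨h1, h2⟩
          refine ⟨h1, ?_⟩
          rw [hG₁] at h2
          rw [hG]
          simp only [Ev, Set.mem_iInter] at h2 ⊢
          exact fun r hr => h2 r (hJqe hr)
        have hmT : ((2 ^ (i + 1) * m p : ℕ) : ℝ) / T ≤ (1 / 2) ^ i * Real.exp (-(c * W)) := by
          have h1 : (m (q - a) : ℝ) / 2 ≤ T := by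
            rw [hT]
            have h2 : 1 ≤ m (q - a) := by omega
            rw [Nat.cast_sub h2]
            have h3 : (2 : ℝ) ≤ m (q - a) := by exact_mod_cast hMq
            push_cast
            linarith
          have hT0 : (0 : ℝ) < T := lt_of_lt_of_le (by linarith) h1
          have h2 : ((2 ^ (i + 1) * m p : ℕ) : ℝ) / T ≤ 2 ^ (i + 2) * (m p / m (q - a)) := by
            rw [div_le_iff₀ hT0]
            push_cast
            calc (2 : ℝ) ^ (i + 1) * m p = 2 ^ (i + 2) * (m p / m (q - a)) * (m (q - a) / 2) := by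
                  rw [pow_succ (2 : ℝ) (i + 1)]
                  field_simp
              _ ≤ 2 ^ (i + 2) * (m p / m (q - a)) * T := by gcongr
          refine h2.trans ?_
          have h3 : (m p : ℝ) / m (q - a) = Real.exp (-(x (q - a) - x p)) := by
            rw [hxq, hxp, neg_sub, Real.exp_sub, Real.exp_log hmpr, Real.exp_log hmqr]
          have h4 : (2 : ℝ) ^ (i + 2) = Real.exp ((i + 2) * Real.log 2) := by
            rw [mul_comm, Real.exp_mul, Real.exp_log (by norm_num)]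
            norm_cast
          have h5 : (1 / 2 : ℝ) ^ i = Real.exp (-(i * Real.log 2)) := by
            rw [Real.exp_neg, mul_comm, Real.exp_mul, Real.exp_log (by norm_num),
              Real.rpow_natCast, one_div, inv_pow]
          rw [h3, h4, h5, ← Real.exp_add, ← Real.exp_add, Real.exp_le_exp]
          have h6 : c * W ≤ (x (q - a) - x p) / 2 := by nlinarith
          nlinarith
        have hPLi : (law d ρ).real (L i) ≤ C₁ * Real.exp (-(c₁ * i)) * Real.exp (-(c * W)) := by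
          refine (hPL i).trans ?_
          apply mul_le_mul_of_nonneg_left _ hexp0.le
          rw [Real.exp_le_exp]
          have : c * W ≤ c₁ * (x (p + i + 1) - x p) := mul_le_mul hcc hW1 hW0 hc₁.le
          linarith
        have hEvq : (law d ρ).real (Ev ρ β h n a m Jq κ (2 * m (q - a)) (Cz * 2 ^ (q - a))) ≤
            C4 ^ (k - 1) * Real.exp (-(c * ∑ r ∈ Jq, Dl n m r)) := by
          refine hIH.trans ?_
          apply mul_le_mul_of_nonneg_right _ (Real.exp_pos _).le
          exact pow_le_pow_right₀ hC41 hcard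
        calc (law d ρ).real (L i ∩ G₁) ≤ (law d ρ).real (L i ∩ G) := hGG
          _ ≤ Cc * ((law d ρ).real (L i) + ((2 ^ (i + 1) * m p : ℕ) : ℝ) / T) *
              (law d ρ).real (Ev ρ β h n a m Jq κ (2 * m (q - a)) (Cz * 2 ^ (q - a))) := hcatch
          _ ≤ Cc * (C₁ * Real.exp (-(c₁ * i)) * Real.exp (-(c * W)) +
              (1 / 2) ^ i * Real.exp (-(c * W))) *
              (C4 ^ (k - 1) * Real.exp (-(c * ∑ r ∈ Jq, Dl n m r))) := by
              apply mul_le_mul _ hEvq measureReal_nonneg (by positivity)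
              apply mul_le_mul_of_nonneg_left _ (by linarith)
              exact add_le_add hPLi hmT
          _ = (C₁ * Real.exp (-(c₁ * i)) + (1 / 2) ^ i) *
              (Cc * C4 ^ (k - 1) * Real.exp (-(c * E))) := by
              have e1 : Real.exp (-(c * E)) = Real.exp (-(c * W)) *
                  Real.exp (-(c * ∑ r ∈ Jq, Dl n m r)) := by
                rw [hsplit, ← Real.exp_add]
                congr 1
                ring
              rw [e1]
              ring
    calc (law d ρ).real (Ev ρ β h n a m J κ S z)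
        ≤ (law d ρ).real (⋃ i ∈ Finset.range (n + 1), (L i ∩ G₁)) :=
          measureReal_mono hsub (measure_ne_top _ _)
      _ ≤ ∑ i ∈ Finset.range (n + 1), (law d ρ).real (L i ∩ G₁) :=
          measureReal_biUnion_finset_le _ _
      _ ≤ ∑ i ∈ Finset.range (n + 1), (C₁ * Real.exp (-(c₁ * i)) + (1 / 2) ^ i) *
          (Cc * C4 ^ (k - 1) * Real.exp (-(c * E))) := Finset.sum_le_sum fun i _ => hterm i
      _ = (∑ i ∈ Finset.range (n + 1), (C₁ * Real.exp (-(c₁ * i)) + (1 / 2) ^ i)) *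
          (Cc * C4 ^ (k - 1) * Real.exp (-(c * E))) := by rw [Finset.sum_mul]
      _ ≤ G₀ * (Cc * C4 ^ (k - 1) * Real.exp (-(c * E))) := by
          apply mul_le_mul_of_nonneg_right _ (by positivity)
          rw [hG₀]
          exact sum34 hc₁ (by linarith) _
      _ = C4 ^ k * Real.exp (-(c * E)) := by
          have h1 : C4 ^ k = C4 * C4 ^ (k - 1) := by
            rw [← pow_succ']
            congr 1
            omega
          rw [h1, hC4]
          ring
  -- the end
  rcases I.eq_empty_or_nonempty with hI | hI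
  · subst hI
    simp
  · obtain ⟨p, hp⟩ : ∃ p, p = I.min' hI := ⟨_, rfl⟩
    have hpI : p ∈ I := by
      rw [hp]
      exact Finset.min'_mem _ _
    have hIp : I.filter (p ≤ ·) = I := by
      apply Finset.filter_true_of_mem
      intro r hr
      rw [hp]
      exact Finset.min'_le _ _ hr
    have h1 := key I.card p hpI (by rw [hIp])
    rw [hIp] at h1
    have h2 : (law d ρ).real (⋂ p ∈ I, Lk ρ β h n (m p - 2 * m (p - a)) 0 (2 ^ p) κ 0) ≤
        (law d ρ).real (Ev ρ β h n a m I κ (2 * m (p - a)) (Cz * 2 ^ (p - a))) := by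
      refine measureReal_mono ?_ (measure_ne_top _ _)
      intro η hη
      simp only [Ev, Set.mem_iInter] at hη ⊢
      exact fun r hr => Lk_mono (Nat.zero_le _) (by positivity) (hη r hr)
    refine h2.trans (h1.trans ?_)
    have h3 : C4 ^ I.card ≤ Real.exp (C4 * I.card) := by
      rw [mul_comm, Real.exp_nat_mul]
      apply pow_le_pow_left₀ (by linarith)
      have := Real.add_one_le_exp C4
      linarith
    calc C4 ^ I.card * Real.exp (-(c * ∑ r ∈ I, Dl n m r))
        ≤ Real.exp (C4 * I.card) * Real.exp (-(c * ∑ r ∈ I, Dl n m r)) := by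
          apply mul_le_mul_of_nonneg_right h3 (Real.exp_pos _).le
      _ = Real.exp (C4 * I.card - c * ∑ p ∈ I, Dl n m p) := by
          rw [← Real.exp_add]
          congr 1

end Pool.Agent.W_7d29a1_PL
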