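import Pool.Agent.W_7d29a1_PL.DefsPL
import Pool.Agent.W_7d29a1_PL.AddC54

/-!
Leaf ADD: the prices of the levels add up (from CAT and COST).
-/

set_option autoImplicit false

namespace Pool.Agent.W_7d29a1_PL.Ad54

open MeasureTheory ProbabilityTheory Filter Topology Pool.Agent.W_MP_7d29a1_pr
  Pool.Agent.W_7d29a1_h46 Pool.Agent.W_7d29a1_h46u Pool.Agent.W_7d29a1_D2.B35
  Pool.Agent.W_7d29a1_Q29 Pool.Agent.W_7d29a1_R34 Pool.Agent.W_7d29a1_SP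

variable {d : ℕ} {ρ : Measure ℝ} {β : ℝ} {h : Vec d}

lemma X_dep54 (n : ℕ) : DependsOn (fun η : Env d => X β h η n) {p | 1 ≤ p.1 ∧ p.1 ≤ n} := by
  intro η η' hη
  have h1 : Z β h η n = Z β h η' n := dependsOn_Z β h n hη
  show Real.log (Z β h η n) = Real.log (Z β h η' n)
  rw [h1]

lemma chain54 (hd : 0 < d) {c₀ : ℝ} (hc : 0 < c₀) {s T : ℕ} {y : Site d} {η : Env d}
    (hA : c₀ * Z β h η s ≤ PP β h η s y) :
    X β h η s + X β h (sh s y η) T - |Real.log c₀| ≤ X β h η (s + T) := by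
  have hZ := Z_pos hd β h η s
  have hZm := Z_pos hd β h (sh s y η) T
  have hch := PP_chainZ β h η s T y
  have k1 : c₀ * Z β h η s * Z β h (sh s y η) T ≤ Z β h η (s + T) :=
    (mul_le_mul_of_nonneg_right hA hZm.le).trans hch
  have k2 := Real.log_le_log (mul_pos (mul_pos hc hZ) hZm) k1
  rw [Real.log_mul (mul_pos hc hZ).ne' hZm.ne', Real.log_mul hc.ne' hZ.ne'] at k2
  have k3 : Real.log (Z β h (sh s y η) T) = X β h (sh s y η) T := rfl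
  have k4 : Real.log (Z β h η s) = X β h η s := rfl
  have k5 : Real.log (Z β h η (s + T)) = X β h η (s + T) := rfl
  rw [k3, k4, k5] at k2
  have k6 := neg_abs_le (Real.log c₀)
  linarith

/-- Luck at the horizon `w H + s`. -/
def E54 (ρ : Measure ℝ) (β : ℝ) (h : Vec d) (H S : ℕ) (θ z : ℝ) (w : ℕ) : Set (Env d) :=
  {η | ∃ s : ℕ, s ≤ S ∧ ((w * H + s : ℕ) : ℝ) * lam ρ β h + θ - z ≤ X β h η (w * H + s)}

lemma E54_meas (H S : ℕ) (θ z : ℝ) (w : ℕ) : MeasurableSet (E54 ρ β h H S θ z w) := by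
  have e : E54 ρ β h H S θ z w = ⋃ s ∈ Finset.range (S + 1),
      {η | ((w * H + s : ℕ) : ℝ) * lam ρ β h + θ - z ≤ X β h η (w * H + s)} := by
    ext η
    simp only [E54, Set.mem_ofPred_eq, Set.mem_iUnion, exists_prop, Finset.mem_range,
      Nat.lt_succ_iff]
  rw [e]
  exact Finset.measurableSet_biUnion _ fun s _ =>
    measurableSet_le measurable_const (measurable_X β h _)

lemma E54_dep (H S : ℕ) (θ z : ℝ) (w : ℕ) {M : ℕ} (hM : w * H + S ≤ M) :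
    DependsOn (fun η => η ∈ E54 ρ β h H S θ z w) {p | 1 ≤ p.1 ∧ p.1 ≤ M} := by
  intro η η' hη
  have h1 : ∀ s, s ≤ S → X β h η (w * H + s) = X β h η' (w * H + s) := fun s hs =>
    X_dep54 _ fun p hp => hη p (by
      have h2 : 1 ≤ p.1 ∧ p.1 ≤ w * H + s := hp
      show 1 ≤ p.1 ∧ p.1 ≤ M
      omega)
  show (∃ s : ℕ, s ≤ S ∧ ((w * H + s : ℕ) : ℝ) * lam ρ β h + θ - z ≤ X β h η (w * H + s)) =
    (∃ s : ℕ, s ≤ S ∧ ((w * H + s : ℕ) : ℝ) * lam ρ β h + θ - z ≤ X β h η' (w * H + s))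
  refine propext ⟨?_, ?_⟩
  · rintro ⟨s, h2, h3⟩
    exact ⟨s, h2, by rwa [← h1 s h2]⟩
  · rintro ⟨s, h2, h3⟩
    exact ⟨s, h2, by rwa [h1 s h2]⟩

lemma E54_mono {H S S' : ℕ} {θ z z' : ℝ} {w : ℕ} (hS : S ≤ S') (hz : z ≤ z') :
    E54 ρ β h H S θ z w ⊆ E54 ρ β h H S' θ z' w := by
  rintro η ⟨s, h1, h2⟩
  exact ⟨s, h1.trans hS, by linarith⟩

lemma E54_shift (hd : 0 < d) {c₀ G : ℝ} (hc : 0 < c₀) {s : ℕ} {y : Site d} {η : Env d}
    (hA : c₀ * Z β h η s ≤ PP β h η s y) (hG : s * lam ρ β h - G ≤ X β h η s)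
    {H S S' : ℕ} {θ z z' : ℝ} {w : ℕ} (hS : S + s ≤ S') (hz : z + G + |Real.log c₀| ≤ z')
    (hL : sh s y η ∈ E54 ρ β h H S θ z w) : η ∈ E54 ρ β h H S' θ z' w := by
  obtain ⟨t, ht, hT⟩ := hL
  refine ⟨s + t, by omega, ?_⟩
  have h1 := chain54 (β := β) (h := h) hd hc (T := w * H + t) hA
  rw [show w * H + (s + t) = s + (w * H + t) by ring]
  push_cast at hT ⊢
  linarith

lemma Lg_zero54 (n H S : ℕ) (x κ z : ℝ) :
    Lg ρ β h n H S x κ z 0 = E54 ρ β h H S (-((1 - κ) * x)) z 1 := by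
  ext η
  simp only [Lg, Lg0, E54, Set.mem_ofPred_eq, one_mul, sub_eq_add_neg]

lemma Lg_succ54 (n H S : ℕ) (x κ z : ℝ) (i : ℕ) :
    Lg ρ β h n H S x κ z (i + 1) = ⋃ N ∈ (Finset.Ico (2 ^ (i + 1)) (2 ^ (i + 2))).filter
      (fun N => N * H ≤ n), E54 ρ β h H S (κ * N * x) z N := by
  ext η
  simp only [Lg, LgN, E54, Set.mem_ofPred_eq, Set.mem_iUnion, exists_prop, Finset.mem_filter,
    Finset.mem_Ico, and_assoc]

lemma Lg_meas54 (n H S : ℕ) (x κ z : ℝ) (i : ℕ) : MeasurableSet (Lg ρ β h n H S x κ z i) := by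
  cases i with
  | zero =>
    rw [Lg_zero54]
    exact E54_meas _ _ _ _ _
  | succ i =>
    rw [Lg_succ54]
    exact Finset.measurableSet_biUnion _ fun N _ => E54_meas _ _ _ _ _

lemma Lg_dep54 (n H S : ℕ) (x κ z : ℝ) (i : ℕ) {M : ℕ} (hM : 2 ^ (i + 2) * H + S ≤ M) :
    DependsOn (fun η => η ∈ Lg ρ β h n H S x κ z i) {p | 1 ≤ p.1 ∧ p.1 ≤ M} := by
  cases i with
  | zero =>
    rw [Lg_zero54]
    refine E54_dep _ _ _ _ _ (le_trans ?_ hM)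
    norm_num
    omega
  | succ i =>
    rw [Lg_succ54]
    intro η η' hη
    have h1 : ∀ N ∈ (Finset.Ico (2 ^ (i + 1)) (2 ^ (i + 2))).filter (fun N => N * H ≤ n),
        (η ∈ E54 ρ β h H S (κ * N * x) z N) = (η' ∈ E54 ρ β h H S (κ * N * x) z N) := by
      intro N hN
      refine E54_dep _ _ _ _ _ (le_trans ?_ hM) hη
      have h2 := (Finset.mem_Ico.1 (Finset.mem_filter.1 hN).1).2
      have h3 : N ≤ 2 ^ (i + 1 + 2) := h2.le.trans (Nat.pow_le_pow_right (by norm_num) (by omega))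
      exact Nat.add_le_add_right (Nat.mul_le_mul_right H h3) S
    simp only [Set.mem_iUnion, exists_prop]
    refine propext ⟨?_, ?_⟩
    · rintro ⟨N, hN, h2⟩
      exact ⟨N, hN, (h1 N hN) ▸ h2⟩
    · rintro ⟨N, hN, h2⟩
      exact ⟨N, hN, (h1 N hN) ▸ h2⟩

lemma Lg_mono54 {n H S S' : ℕ} {x κ z z' : ℝ} {i : ℕ} (hS : S ≤ S') (hz : z ≤ z') :
    Lg ρ β h n H S x κ z i ⊆ Lg ρ β h n H S' x κ z' i := by
  cases i with
  | zero =>
    rw [Lg_zero54, Lg_zero54]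
    exact E54_mono hS hz
  | succ i =>
    rw [Lg_succ54, Lg_succ54]
    exact Set.iUnion₂_mono fun N _ => E54_mono hS hz

lemma Lg_shift54 (hd : 0 < d) {c₀ G : ℝ} (hc : 0 < c₀) {s : ℕ} {y : Site d} {η : Env d}
    (hA : c₀ * Z β h η s ≤ PP β h η s y) (hG : s * lam ρ β h - G ≤ X β h η s)
    {n H S S' : ℕ} {x κ z z' : ℝ} {i : ℕ} (hS : S + s ≤ S') (hz : z + G + |Real.log c₀| ≤ z')
    (hL : sh s y η ∈ Lg ρ β h n H S x κ z i) : η ∈ Lg ρ β h n H S' x κ z' i := by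
  cases i with
  | zero =>
    rw [Lg_zero54] at hL ⊢
    exact E54_shift hd hc hA hG hS hz hL
  | succ i =>
    rw [Lg_succ54] at hL ⊢
    simp only [Set.mem_iUnion, exists_prop] at hL ⊢
    obtain ⟨N, hN, h1⟩ := hL
    exact ⟨N, hN, E54_shift hd hc hA hG hS hz h1⟩

/-- All the levels in `I` are lucky. -/
def U54 (ρ : Measure ℝ) (β : ℝ) (h : Vec d) (n : ℕ) (H : ℕ → ℕ) (κ : ℝ) (N : ℕ) (I : Finset ℕ)
    (S : ℕ) (z : ℝ) : Set (Env d) :=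
  {η | ∀ r ∈ I, ∃ i ∈ Finset.range (N + 1), η ∈ Lg ρ β h n (H r) S (2 ^ r) κ z i}

lemma U54_meas (n : ℕ) (H : ℕ → ℕ) (κ : ℝ) (N : ℕ) (I : Finset ℕ) (S : ℕ) (z : ℝ) :
    MeasurableSet (U54 ρ β h n H κ N I S z) := by
  have e : U54 ρ β h n H κ N I S z = ⋂ r ∈ I, ⋃ i ∈ Finset.range (N + 1),
      Lg ρ β h n (H r) S (2 ^ r) κ z i := by
    ext η
    simp only [U54, Set.mem_ofPred_eq, Set.mem_iInter, Set.mem_iUnion, exists_prop]
  rw [e]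
  exact Finset.measurableSet_biInter _ fun r _ =>
    Finset.measurableSet_biUnion _ fun i _ => Lg_meas54 _ _ _ _ _ _ _

lemma U54_dep (n : ℕ) (H : ℕ → ℕ) (κ : ℝ) (N : ℕ) (I : Finset ℕ) (S : ℕ) (z : ℝ) :
    DependsOn (fun η => η ∈ U54 ρ β h n H κ N I S z) {p | 1 ≤ p.1} := by
  intro η η' hη
  have h1 : ∀ r i, (η ∈ Lg ρ β h n (H r) S (2 ^ r) κ z i) =
      (η' ∈ Lg ρ β h n (H r) S (2 ^ r) κ z i) := fun r i =>
    Lg_dep54 n (H r) S (2 ^ r) κ z i le_rfl fun p hp => hη p hp.1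
  show (∀ r ∈ I, ∃ i ∈ Finset.range (N + 1), η ∈ Lg ρ β h n (H r) S (2 ^ r) κ z i) =
    (∀ r ∈ I, ∃ i ∈ Finset.range (N + 1), η' ∈ Lg ρ β h n (H r) S (2 ^ r) κ z i)
  simp only [h1]

lemma U54_mono {n : ℕ} {H : ℕ → ℕ} {κ : ℝ} {N N' : ℕ} {I I' : Finset ℕ} {S S' : ℕ} {z z' : ℝ}
    (hN : N ≤ N') (hI : I' ⊆ I) (hS : S ≤ S') (hz : z ≤ z') :
    U54 ρ β h n H κ N I S z ⊆ U54 ρ β h n H κ N' I' S' z' := by
  intro η hη r hr
  obtain ⟨i, hi, hL⟩ := hη r (hI hr)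
  exact ⟨i, Finset.mem_range.2 (by have := Finset.mem_range.1 hi; omega), Lg_mono54 hS hz hL⟩

/-- Luck belongs to one of the groups. -/
lemma Lk_sub54 {n H : ℕ} {x κ : ℝ} {η : Env d} (hη : η ∈ Lk ρ β h n H 0 x κ 0) :
    ∃ i : ℕ, η ∈ Lg ρ β h n H 0 x κ 0 i := by
  rcases hη with h1 | ⟨N, hN, hNn, h1⟩
  · exact ⟨0, h1⟩
  · have h2 : 1 ≤ Nat.log 2 N := Nat.log_pos (by norm_num) hN
    refine ⟨Nat.log 2 N - 1 + 1, N, ?_, ?_, hNn, h1⟩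
    · rw [Nat.sub_add_cancel h2]
      exact Nat.pow_log_le_self 2 (by omega)
    · rw [show Nat.log 2 N - 1 + 2 = Nat.log 2 N + 1 by omega]
      exact Nat.lt_pow_succ_log_self (by norm_num) N

end Pool.Agent.W_7d29a1_PL.Ad54
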