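import Pool.Agent.W_7d29a1_SP.Bas15
import Pool.Agent.W_7d29a1_R34.Sets93
import Pool.Agent.W_7d29a1_Q29.R6a65

/-!
Variance in two transversal dimensions: from the points to almost every tilt, for a general bound of
the variance (helper81).
-/

namespace Pool.Agent.W_7d29a1_PL

open MeasureTheory ProbabilityTheory Filter Topology Pool.Agent.W_MP_7d29a1_pr
  Pool.Agent.W_7d29a1_h46 Pool.Agent.W_7d29a1_h46u Pool.Agent.W_7d29a1_D2.B35
  Pool.Agent.W_7d29a1_Q29 Pool.Agent.W_7d29a1_R34 Pool.Agent.W_7d29a1_SP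

theorem norm_ejG81 {d : ℕ} (j : Fin d) : ‖(ej j : Vec d)‖ = 1 := by
  unfold ej
  simp

lemma Va_zero81 {d : ℕ} {ρ : Measure ℝ} [IsProbabilityMeasure ρ] (β : ℝ) (h : Vec d) : Va ρ β h 0 = 0 := by
  unfold Va
  have h1 : ∀ η : Env d, X β h η 0 = 0 := fun η => by
    unfold X
    rw [Z_zero, Real.log_one]
  have h2 : A ρ β h 0 = 0 := A_zero15 β h
  simp only [h1, h2, sub_zero]
  simp

/-- From the points to almost every tilt. -/
theorem aeG81 {ρ : Measure ℝ} [IsProbabilityMeasure ρ] (hρ : EM ρ) (β : ℝ) (φ : ℝ → ℕ → ℝ)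
    (hφ : ∀ c : ℝ, 0 < c → ∀ n : ℕ, 1 ≤ n → 1 ≤ φ c n) (hφ0 : ∀ c : ℝ, 0 < c → 0 ≤ φ c 0)
    (hR : RateP ρ β) (hC : CurvP ρ β) (W : Vec 2 → Prop)
    (hW : ∀ᵐ h : Vec 2, VSD ρ β h → W h)
    (hP : ∀ g M : ℝ, 0 < g → 0 < M → ∃ c : ℝ, 0 < c ∧ ∀ (h : Vec 2) (δ Q R : ℝ), 0 < δ → 1 ≤ Q →
      W h → lam ρ β h + g ≤ Real.log (Phi h) + Real.log (∫ t, Real.exp (β * t) ∂ρ) →
      (∀ r : ℝ, 0 < r → r ≤ δ → ∀ j : Fin 2,
        lam ρ β (h + r • ej j) + lam ρ β (h - r • ej j) - 2 * lam ρ β h ≤ M * r ^ 2) →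
      (∀ t : ℕ, Va ρ β h t ≤ Q * φ c t) →
      (∀ (t : ℕ) (r : ℝ), 0 < r → r ≤ δ → ∀ (j : Fin 2) (s : ℝ), (s = 1 ∨ s = -1) →
        ∃ g : Vec 2, ‖g - h - (s * r) • ej j‖ ≤ r / 9 ∧ Va ρ β g t ≤ Q * φ c t) →
      (∀ n : ℕ, En ρ β h n ≤ R * (n : ℝ) ^ (49 / 100 : ℝ)) → False) :
    ∀ᵐ h : Vec 2, VSD ρ β h → ∃ c : ℝ, 0 < c ∧ ∃ᶠ n : ℕ in atTop, φ c n ≤ Va ρ β h n := by
  have hcont : ∀ n : ℕ, Continuous fun h : Vec 2 => Va ρ β h n := cont65 (by norm_num) hρ β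
  have hPj : ∀ j : ℕ, ∃ c : ℝ, 0 < c ∧ ∀ (h : Vec 2) (δ Q R : ℝ), 0 < δ → 1 ≤ Q → W h →
      lam ρ β h + 1 / ((j : ℝ) + 1) ≤ Real.log (Phi h) +
        Real.log (∫ t, Real.exp (β * t) ∂ρ) →
      (∀ r : ℝ, 0 < r → r ≤ δ → ∀ k : Fin 2,
        lam ρ β (h + r • ej k) + lam ρ β (h - r • ej k) - 2 * lam ρ β h ≤
          ((j : ℝ) + 1) * r ^ 2) →
      (∀ t : ℕ, Va ρ β h t ≤ Q * φ c t) →
      (∀ (t : ℕ) (r : ℝ), 0 < r → r ≤ δ → ∀ (k : Fin 2) (s : ℝ), (s = 1 ∨ s = -1) →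
        ∃ g : Vec 2, ‖g - h - (s * r) • ej k‖ ≤ r / 9 ∧ Va ρ β g t ≤ Q * φ c t) →
      (∀ n : ℕ, En ρ β h n ≤ R * (n : ℝ) ^ (49 / 100 : ℝ)) → False :=
    fun j => hP _ _ (by positivity) (by positivity)
  choose c hc0 hc using hPj
  -- the closed sets
  obtain ⟨T, hT⟩ : ∃ T : ℕ → ℕ → Set (Vec 2), T = fun (j i : ℕ) => {h : Vec 2 | ‖h‖ ≤ (j : ℝ) ∧
    ∀ n : ℕ, i ≤ n → Va ρ β h n ≤ φ (c j) n} := ⟨_, rfl⟩
  have hTc : ∀ j i : ℕ, IsClosed (T j i) := by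
    intro j i
    have e1 : T j i = {h : Vec 2 | ‖h‖ ≤ j} ∩ ⋂ n : ℕ, ⋂ _ : i ≤ n,
        {h : Vec 2 | Va ρ β h n ≤ φ (c j) n} := by
      rw [hT]
      ext h
      simp
    rw [e1]
    exact (isClosed_le continuous_norm continuous_const).inter
      (isClosed_iInter fun n => isClosed_iInter fun _ =>
        isClosed_le (hcont n) continuous_const)
  have hTk : ∀ j i : ℕ, IsCompact (T j i) := by
    intro j i
    refine Metric.isCompact_of_isClosed_isBounded (hTc j i) ?_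
    refine (Metric.isBounded_closedBall (x := (0 : Vec 2)) (r := (j : ℝ))).subset fun h hh => ?_
    rw [hT] at hh
    rw [Metric.mem_closedBall, dist_zero_right]
    exact hh.1
  -- a common bound on each of the sets
  have hQ : ∀ j i : ℕ, ∃ Q : ℝ, 1 ≤ Q ∧ ∀ h ∈ T j i, ∀ t : ℕ,
      Va ρ β h t ≤ Q * φ (c j) t := by
    intro j i
    have hbd : ∀ m : ℕ, ∃ C : ℝ, ∀ h ∈ T j i, Va ρ β h m ≤ C := by
      intro m
      obtain ⟨C, hC⟩ := (hTk j i).exists_bound_of_continuousOn (hcont m).continuousOn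
      exact ⟨C, fun h hh => (le_abs_self _).trans (hC h hh)⟩
    choose C hC using hbd
    have h0 : 0 ≤ ∑ m ∈ Finset.range i, |C m| := Finset.sum_nonneg fun _ _ => abs_nonneg _
    refine ⟨1 + ∑ m ∈ Finset.range i, |C m|, by linarith, fun h hh t => ?_⟩
    rcases Nat.eq_zero_or_pos t with ht0 | ht1
    · rw [ht0, Va_zero81]
      exact mul_nonneg (by linarith) (hφ0 (c j) (hc0 j))
    have h1 : 1 ≤ φ (c j) t := hφ (c j) (hc0 j) t ht1
    rcases Nat.lt_or_ge t i with h3 | h3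
    · have h4 := hC t h hh
      have h5 := Finset.single_le_sum (f := fun m : ℕ => |C m|)
        (fun _ _ => abs_nonneg _) (Finset.mem_range.2 h3)
      have h6 := (le_abs_self (C t)).trans h5
      calc Va ρ β h t ≤ (1 + ∑ m ∈ Finset.range i, |C m|) * 1 := by linarith
        _ ≤ _ := mul_le_mul_of_nonneg_left h1 (by linarith)
    · have h7 : Va ρ β h t ≤ φ (c j) t := by
        have h8 := hh
        rw [hT] at h8
        exact h8.2 t h3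
      calc Va ρ β h t ≤ 1 * φ (c j) t := by linarith
        _ ≤ _ := mul_le_mul_of_nonneg_right (by linarith) (by linarith)
  -- the density points
  have hD : ∀ᵐ h : Vec 2, ∀ j i : ℕ, h ∈ T j i → ∃ n : ℕ, ∀ v : Vec 2, v ≠ 0 →
      ‖v‖ ≤ 1 / ((n : ℝ) + 1) → ∃ y ∈ T j i, ‖y - h - v‖ ≤ 1 / 9 * ‖v‖ := by
    rw [ae_all_iff]
    intro j
    rw [ae_all_iff]
    intro i
    exact aeDens93 volume (T j i) (hTc j i).measurableSet (by norm_num)
  unfold RateP at hR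
  unfold CurvP at hC
  filter_upwards [hD, hR, hC, hW] with h hDh hRh hCh hWh hV
  by_contra hcon
  push Not at hcon
  obtain ⟨R, hRh⟩ := hRh hV
  obtain ⟨M, δ, hδ, hCh⟩ := hCh
  obtain ⟨g, hg⟩ : ∃ g : ℝ, g = Real.log (Phi h) + Real.log (∫ t, Real.exp (β * t) ∂ρ) -
    lam ρ β h := ⟨_, rfl⟩
  have hg0 : 0 < g := by
    unfold VSD at hV
    linarith
  obtain ⟨j1, hj1⟩ := exists_nat_one_div_lt hg0
  obtain ⟨j2, hj2⟩ := exists_nat_ge ‖h‖
  obtain ⟨j3, hj3⟩ := exists_nat_ge M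
  obtain ⟨j, hj⟩ : ∃ j, j = max (max j1 j2) j3 := ⟨_, rfl⟩
  have e1 : j1 ≤ j := by
    rw [hj]
    exact (le_max_left _ _).trans (le_max_left _ _)
  have e2 : j2 ≤ j := by
    rw [hj]
    exact (le_max_right _ _).trans (le_max_left _ _)
  have e3 : j3 ≤ j := by
    rw [hj]
    exact le_max_right _ _
  have e1' : (j1 : ℝ) ≤ j := by exact_mod_cast e1
  have e2' : (j2 : ℝ) ≤ j := by exact_mod_cast e2
  have e3' : (j3 : ℝ) ≤ j := by exact_mod_cast e3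
  have hgj : 1 / ((j : ℝ) + 1) ≤ g :=
    (one_div_le_one_div_of_le (by positivity) (by linarith)).trans hj1.le
  have hfr := hcon (c j) (hc0 j)
  obtain ⟨i, hi⟩ := eventually_atTop.1 hfr
  have hhT : h ∈ T j i := by
    rw [hT]
    refine ⟨by linarith, fun n hn => ?_⟩
    exact (hi n hn).le
  obtain ⟨Q, hQ1, hQ⟩ := hQ j i
  obtain ⟨n, hn⟩ := hDh j i hhT
  have hn0 : (0 : ℝ) < 1 / ((n : ℝ) + 1) := by positivity
  refine hc j h (min δ (1 / ((n : ℝ) + 1))) Q R (lt_min hδ hn0) hQ1 (hWh hV) ?_ ?_ (hQ h hhT)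
    ?_ hRh
  · linarith
  · intro r hr0 hr k
    refine (hCh r hr0 (hr.trans (min_le_left _ _)) k).trans ?_
    exact mul_le_mul_of_nonneg_right (by linarith) (sq_nonneg r)
  · intro t r hr0 hr k s hs
    have hs1 : |s| = 1 := by
      rcases hs with h1 | h1 <;> rw [h1] <;> norm_num
    have hv : ‖(s * r) • (ej k : Vec 2)‖ = r := by
      rw [norm_smul, norm_ejG81, mul_one, Real.norm_eq_abs, abs_mul, hs1, one_mul,
        abs_of_pos hr0]
    obtain ⟨y, hy, hy2⟩ := hn ((s * r) • (ej k : Vec 2))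
      (fun h0 => by
        rw [h0, norm_zero] at hv
        linarith)
      (by
        rw [hv]
        exact hr.trans (min_le_right _ _))
    refine ⟨y, ?_, hQ y hy t⟩
    rw [hv] at hy2
    linarith

end Pool.Agent.W_7d29a1_PL
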