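import Pool.Agent.W_7d29a1_PL.DefsPL
import Pool.Agent.W_7d29a1_PL.AeG81

/-!
A power law for the variance in two transversal dimensions: from the points to almost every
tilt (helper27, over the general gauge of helper81).
-/

namespace Pool.Agent.W_7d29a1_PL

open MeasureTheory ProbabilityTheory Filter Topology Pool.Agent.W_MP_7d29a1_pr
  Pool.Agent.W_7d29a1_h46 Pool.Agent.W_7d29a1_h46u Pool.Agent.W_7d29a1_D2.B35
  Pool.Agent.W_7d29a1_Q29 Pool.Agent.W_7d29a1_R34 Pool.Agent.W_7d29a1_SP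

/-- AEQ. -/
theorem aeq27 {ρ : Measure ℝ} [IsProbabilityMeasure ρ] {β : ℝ} (hρ : EM ρ) : AeqP ρ β := by
  intro hP hR hC
  refine aeG81 hρ β (fun c n => (n : ℝ) ^ c)
    (fun c hc n hn => Real.one_le_rpow (by exact_mod_cast hn) hc.le)
    (fun c _ => Real.rpow_nonneg (by positivity) c) hR hC (fun _ => True)
    (Eventually.of_forall fun _ _ => trivial) ?_
  intro g M hg hM
  obtain ⟨c, hc, hc2⟩ := hP g M hg hM
  exact ⟨c, hc, fun h δ Q R hδ _ _ h1 h2 h3 h4 h5 => hc2 h δ Q R hδ ⟨h1, h2, h3, h4, h5⟩⟩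

end Pool.Agent.W_7d29a1_PL
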