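import Pool.Agent.W_7d29a1_PL.DefsPL
import Pool.Agent.W_7d29a1_PL.AeG81

/-!
A power law for the variance in two transversal dimensions: from the points to almost every tilt
(leaf AEQ, helper81).
-/

namespace Pool.Agent.W_7d29a1_PL

open MeasureTheory ProbabilityTheory Filter Topology Pool.Agent.W_MP_7d29a1_pr
  Pool.Agent.W_7d29a1_h46 Pool.Agent.W_7d29a1_h46u Pool.Agent.W_7d29a1_D2.B35
  Pool.Agent.W_7d29a1_Q29 Pool.Agent.W_7d29a1_R34 Pool.Agent.W_7d29a1_SP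

/-- **Leaf AEQ.** -/
theorem aeq81 {ρ : Measure ℝ} [IsProbabilityMeasure ρ] (hρ : EM ρ) (β : ℝ) : AeqP ρ β := by
  intro hP hR hC
  refine aeG81 hρ β (fun (c : ℝ) (n : ℕ) => (n : ℝ) ^ c) (fun c hc n hn => ?_) (fun c hc => ?_)
    hR hC (fun _ => True) (Eventually.of_forall fun _ _ => trivial) fun g M hg hM => ?_
  · exact Real.one_le_rpow (by exact_mod_cast hn) hc.le
  · positivity
  · obtain ⟨c, hc, hc2⟩ := hP g M hg hM
    refine ⟨c, hc, fun h δ Q R hδ _ _ h1 h2 h3 h4 h5 => hc2 h δ Q R hδ ⟨h1, h2, ?_, ?_, h5⟩⟩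
    · intro t
      unfold kp
      exact h3 t
    · intro t r hr hr1 j s hs
      obtain ⟨y, hy1, hy2⟩ := h4 t r hr hr1 j s hs
      refine ⟨y, hy1, ?_⟩
      unfold kp
      exact hy2

end Pool.Agent.W_7d29a1_PL
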