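import Pool.Agent.W_7d29a1_PL.DefsPL
import Pool.Agent.W_7d29a1_SP.Bas15

/-!
Power law, leaf CHP: a large random fluctuation is cheap (helper35).
-/

set_option autoImplicit false

namespace Pool.Agent.W_7d29a1_PL

open MeasureTheory ProbabilityTheory Filter Topology Pool.Agent.W_MP_7d29a1_pr
  Pool.Agent.W_7d29a1_h46 Pool.Agent.W_7d29a1_h46u Pool.Agent.W_7d29a1_D2.B35
  Pool.Agent.W_7d29a1_Q29 Pool.Agent.W_7d29a1_R34 Pool.Agent.W_7d29a1_SP

namespace Chp35

/-- The level `j` of the dyadic decomposition. -/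
noncomputable def lv (F : ℝ) (j : ℕ) : ℝ := 2 ^ j / 4 * F

lemma lv_pos {F : ℝ} (hF : 0 < F) (j : ℕ) : 0 < lv F j := by unfold lv; positivity

lemma lv_succ (F : ℝ) (j : ℕ) : lv F (j + 1) = 2 * lv F j := by unfold lv; ring

lemma lv_mono {F : ℝ} (hF : 0 < F) {i j : ℕ} (h : i ≤ j) : lv F i ≤ lv F j := by
  unfold lv
  have := pow_le_pow_right₀ (one_le_two : (1 : ℝ) ≤ 2) h
  nlinarith

lemma lv_sum (F : ℝ) (N : ℕ) : F / 4 + ∑ j ∈ Finset.range N, lv F j = lv F N := by
  induction N with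
  | zero => simp [lv]; ring
  | succ N ih =>
    rw [Finset.sum_range_succ, ← add_assoc, ih, lv_succ]
    ring

open Classical in
lemma point_le {F : ℝ} (hF : 0 < F) (N : ℕ) {y : ℝ} (hy : y ≤ lv F N) :
    max y 0 ≤ F / 4 + ∑ j ∈ Finset.range N, lv F j * (if lv F j < y then 1 else 0) := by
  induction N with
  | zero =>
    simp only [lv, pow_zero, Finset.range_zero, Finset.sum_empty, add_zero] at hy ⊢
    exact max_le (by linarith) (by linarith)
  | succ N ih =>
    rw [Finset.sum_range_succ]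
    by_cases h : y ≤ lv F N
    · have h1 := ih h
      have h2 : 0 ≤ lv F N * (if lv F N < y then (1 : ℝ) else 0) := by
        have := lv_pos hF N
        split_ifs <;> simp [this.le]
      linarith
    · push Not at h
      rw [if_pos h, mul_one]
      have h1 : ∑ j ∈ Finset.range N, lv F j * (if lv F j < y then (1 : ℝ) else 0) =
          ∑ j ∈ Finset.range N, lv F j := by
        refine Finset.sum_congr rfl fun j hj => ?_
        rw [if_pos ((lv_mono hF (Finset.mem_range.1 hj).le).trans_lt h), mul_one]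
      rw [h1]
      have h2 := lv_sum F N
      have h3 := lv_succ F N
      have h4 := lv_pos hF N
      exact max_le (by linarith) (by linarith)

open Classical in
lemma point {F : ℝ} (hF : 0 < F) (N : ℕ) (y : ℝ) :
    max y 0 ≤ F / 4 + ∑ j ∈ Finset.range N, lv F j * (if lv F j < y then 1 else 0) +
      y ^ 2 / lv F N := by
  have h0 : 0 ≤ y ^ 2 / lv F N := div_nonneg (sq_nonneg _) (lv_pos hF N).le
  by_cases h : y ≤ lv F N
  · linarith [point_le hF N h]
  · push Not at h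
    have h1 : y ≤ y ^ 2 / lv F N := by
      rw [le_div_iff₀ (lv_pos hF N)]
      nlinarith [lv_pos hF N]
    have h2 : 0 ≤ ∑ j ∈ Finset.range N, lv F j * (if lv F j < y then (1 : ℝ) else 0) :=
      Finset.sum_nonneg fun j _ => by
        have := lv_pos hF j
        split_ifs <;> simp [this.le]
    have h3 := lv_pos hF N
    exact max_le (by linarith) (by linarith)

lemma sum_sq (N : ℕ) : ∑ j ∈ Finset.range (N + 1), 1 / ((j : ℝ) + 1) ^ 2 ≤ 2 - 1 / ((N : ℝ) + 1) := by
  induction N with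
  | zero => norm_num
  | succ N ih =>
    rw [Finset.sum_range_succ]
    have h1 : (1 : ℝ) / (((N + 1 : ℕ) : ℝ) + 1) ^ 2 ≤ 1 / (N + 1) - 1 / (((N + 1 : ℕ) : ℝ) + 1) := by
      push_cast
      have h2 : (0 : ℝ) < N + 1 := by positivity
      rw [div_sub_div _ _ (by positivity) (by positivity), div_le_div_iff₀ (by positivity)
        (by positivity)]
      nlinarith
    push_cast at h1 ⊢
    linarith

lemma sum_sq' (N : ℕ) : ∑ j ∈ Finset.range N, 1 / ((j : ℝ) + 1) ^ 2 ≤ 2 := by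
  rcases N with _ | N
  · simp
  · have h1 := sum_sq N
    have h2 : (0 : ℝ) ≤ 1 / ((N : ℝ) + 1) := by positivity
    linarith

/-- The probability of the level `j`. -/
noncomputable def qj (j : ℕ) : ℝ := 1 / (2 ^ j * (4 * ((j : ℝ) + 1) ^ 2))

lemma qj_pos (j : ℕ) : 0 < qj j := by unfold qj; positivity

lemma qj_le (j : ℕ) : qj j ≤ 1 / 4 := by
  unfold qj
  have h1 : (1 : ℝ) ≤ 2 ^ j := one_le_pow₀ one_le_two
  have h2 : (1 : ℝ) ≤ ((j : ℝ) + 1) ^ 2 := by
    have : (0 : ℝ) ≤ j := by positivity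
    nlinarith
  have h3 : (4 : ℝ) ≤ 2 ^ j * (4 * ((j : ℝ) + 1) ^ 2) := by nlinarith
  exact one_div_le_one_div_of_le (by norm_num) h3

/-- Some dyadic level has a large probability. -/
lemma dyad {Ω : Type*} [MeasurableSpace Ω] {μ : Measure Ω} [IsProbabilityMeasure μ] {Y : Ω → ℝ}
    (hY : Measurable Y) (h1 : Integrable Y μ) (h2 : Integrable (fun w => Y w ^ 2) μ) {F : ℝ}
    (hF : 0 < F) (hF1 : ∫ w, max (Y w) 0 ∂μ = F / 2) :
    ∃ j : ℕ, qj j ≤ μ.real {w | lv F j < Y w} := by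
  by_contra hcon
  push Not at hcon
  obtain ⟨V, hV⟩ : ∃ V, V = ∫ w, Y w ^ 2 ∂μ := ⟨_, rfl⟩
  obtain ⟨N, hN⟩ : ∃ N : ℕ, 32 * V / F ^ 2 < 2 ^ N := pow_unbounded_of_one_lt _ one_lt_two
  have hms : ∀ j, MeasurableSet {w | lv F j < Y w} := fun j =>
    measurableSet_lt measurable_const hY
  classical
  have hi : ∀ j, Integrable (fun w => lv F j * (if lv F j < Y w then (1 : ℝ) else 0)) μ := by
    intro j
    have : (fun w => (if lv F j < Y w then (1 : ℝ) else 0)) =
        Set.indicator {w | lv F j < Y w} (fun _ => (1 : ℝ)) := by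
      funext w
      simp only [Set.indicator, Set.mem_ofPred_eq]
    refine Integrable.const_mul ?_ _
    rw [this]
    exact (integrable_const (1 : ℝ)).indicator (hms j)
  have hI : ∀ j, ∫ w, lv F j * (if lv F j < Y w then (1 : ℝ) else 0) ∂μ =
      lv F j * μ.real {w | lv F j < Y w} := by
    intro j
    rw [integral_const_mul]
    congr 1
    have : (fun w => (if lv F j < Y w then (1 : ℝ) else 0)) =
        Set.indicator {w | lv F j < Y w} (fun _ => (1 : ℝ)) := by
      funext w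
      simp only [Set.indicator, Set.mem_ofPred_eq]
    rw [this, integral_indicator (hms j)]
    simp
  have hs : Integrable (fun w => F / 4 + ∑ j ∈ Finset.range N,
      lv F j * (if lv F j < Y w then (1 : ℝ) else 0)) μ :=
    (integrable_const _).add (integrable_finsetSum _ fun j _ => hi j)
  have e1 : ∫ w, max (Y w) 0 ∂μ ≤ ∫ w, (F / 4 + ∑ j ∈ Finset.range N,
      lv F j * (if lv F j < Y w then (1 : ℝ) else 0) + Y w ^ 2 / lv F N) ∂μ :=
    integral_mono h1.pos_part (hs.add (h2.div_const _)) fun w => point hF N (Y w)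
  rw [integral_add hs (h2.div_const _), integral_add (integrable_const _)
    (integrable_finsetSum _ fun j _ => hi j), integral_finsetSum _ fun j _ => hi j,
    hF1] at e1
  have e0 : ∫ w, Y w ^ 2 / lv F N ∂μ = V / lv F N := by rw [integral_div, ← hV]
  rw [e0] at e1
  simp only [hI, integral_const, probReal_univ, one_smul] at e1
  have e2 : ∑ j ∈ Finset.range N, lv F j * μ.real {w | lv F j < Y w} ≤
      ∑ j ∈ Finset.range N, F / 16 * (1 / ((j : ℝ) + 1) ^ 2) := by
    refine Finset.sum_le_sum fun j _ => ?_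
    have k1 := (hcon j).le
    have k2 := mul_le_mul_of_nonneg_left k1 (lv_pos hF j).le
    refine k2.trans (le_of_eq ?_)
    unfold lv qj
    field_simp
    ring
  rw [← Finset.mul_sum] at e2
  have e3 := mul_le_mul_of_nonneg_left (sum_sq' N) (by positivity : 0 ≤ F / 16)
  have e4 : V / lv F N < F / 8 := by
    rw [div_lt_iff₀ (lv_pos hF N)]
    rw [div_lt_iff₀ (by positivity)] at hN
    unfold lv
    nlinarith
  linarith

lemma four (j : ℕ) : ((j : ℝ) + 1) ^ 4 ≤ 41 * 2 ^ j := by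
  rcases lt_or_ge j 6 with h | h
  · interval_cases j <;> norm_num
  · induction j, h using Nat.le_induction with
    | base => norm_num
    | succ k hk ih =>
      have hk' : (6 : ℝ) ≤ k := by exact_mod_cast hk
      have h1 : ((k : ℝ) + 1 + 1) ^ 4 ≤ 2 * ((k : ℝ) + 1) ^ 4 := by
        obtain ⟨t, ht⟩ : ∃ t : ℝ, t = (k : ℝ) + 1 := ⟨_, rfl⟩
        rw [← ht]
        have ht7 : 7 ≤ t := by rw [ht]; linarith
        have h2 : (t + 1) ^ 2 ≤ 7 / 5 * t ^ 2 := by nlinarith
        have h3 : ((t + 1) ^ 2) ^ 2 ≤ (7 / 5 * t ^ 2) ^ 2 :=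
          pow_le_pow_left₀ (sq_nonneg _) h2 2
        nlinarith [sq_nonneg (t ^ 2)]
      push_cast
      rw [pow_succ (2 : ℝ) k]
      linarith

/-- The bound of `j` from the second moment. -/
lemma jbd {j : ℕ} {F V δ : ℝ} (hδ : 0 < δ) (hF : δ ≤ F)
    (h : qj j * lv F j ^ 2 ≤ V) : (2 : ℝ) ^ j ≤ 167936 / δ ^ 4 * V ^ 2 := by
  have hF0 : 0 < F := hδ.trans_le hF
  have h1 : (2 : ℝ) ^ j * F ^ 2 ≤ 64 * ((j : ℝ) + 1) ^ 2 * V := by
    have e1 : qj j * lv F j ^ 2 = 2 ^ j * F ^ 2 / (64 * ((j : ℝ) + 1) ^ 2) := by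
      unfold qj lv
      field_simp
      ring
    rw [e1, div_le_iff₀ (by positivity)] at h
    linarith
  have h2 : ((2 : ℝ) ^ j * F ^ 2) ^ 2 ≤ (64 * ((j : ℝ) + 1) ^ 2 * V) ^ 2 :=
    pow_le_pow_left₀ (by positivity) h1 2
  have h3 : (64 * ((j : ℝ) + 1) ^ 2 * V) ^ 2 ≤ 167936 * 2 ^ j * V ^ 2 := by
    have e1 : (64 * ((j : ℝ) + 1) ^ 2 * V) ^ 2 = 4096 * V ^ 2 * ((j : ℝ) + 1) ^ 4 := by ring
    rw [e1]
    have := mul_le_mul_of_nonneg_left (four j) (by positivity : 0 ≤ 4096 * V ^ 2)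
    linarith
  have h4 : (2 : ℝ) ^ j * (2 ^ j * F ^ 4) ≤ 2 ^ j * (167936 * V ^ 2) := by
    have e1 : (2 : ℝ) ^ j * (2 ^ j * F ^ 4) = ((2 : ℝ) ^ j * F ^ 2) ^ 2 := by ring
    rw [e1]
    linarith
  have h5 := le_of_mul_le_mul_left h4 (by positivity : (0 : ℝ) < 2 ^ j)
  have h6 : (2 : ℝ) ^ j * δ ^ 4 ≤ 2 ^ j * F ^ 4 :=
    mul_le_mul_of_nonneg_left (pow_le_pow_left₀ hδ.le hF 4) (by positivity)
  rw [div_mul_eq_mul_div, le_div_iff₀ (by positivity)]
  linarith

/-- The price of the level `j`. -/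
lemma price (j : ℕ) {C : ℝ} (hC : 0 ≤ C) :
    (1 / qj j) ^ C ≤ (4 : ℝ) ^ C * Real.exp (3 * C * j) := by
  have h1 : 1 / qj j ≤ 4 * Real.exp (3 * j) := by
    unfold qj
    rw [one_div_one_div]
    have e1 : (2 : ℝ) ^ j ≤ Real.exp j := by
      have := pow_le_pow_left₀ (by norm_num) (by
        have := Real.add_one_le_exp (1 : ℝ)
        linarith : (2 : ℝ) ≤ Real.exp 1) j
      rw [← Real.exp_nat_mul, mul_one] at this
      exact this
    have e2 : ((j : ℝ) + 1) ^ 2 ≤ Real.exp (2 * j) := by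
      have := pow_le_pow_left₀ (by positivity) (Real.add_one_le_exp (j : ℝ)) 2
      rw [← Real.exp_nat_mul] at this
      exact_mod_cast this
    have e3 : Real.exp (3 * j) = Real.exp j * Real.exp (2 * j) := by
      rw [← Real.exp_add]
      congr 1
      ring
    rw [e3]
    have e4 := mul_le_mul e1 e2 (by positivity) (Real.exp_pos _).le
    linarith
  have h2 : 0 ≤ 1 / qj j := (one_div_pos.2 (qj_pos j)).le
  refine (Real.rpow_le_rpow h2 h1 hC).trans (le_of_eq ?_)
  rw [Real.mul_rpow (by norm_num) (Real.exp_pos _).le, ← Real.exp_mul]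
  congr 2
  ring

end Chp35

open Chp35 in
/-- CHP. -/
theorem chp35 {d : ℕ} (hd : 0 < d) {ρ : Measure ℝ} [IsProbabilityMeasure ρ] (hρ : EM ρ) {β : ℝ}
    (hG : GrowP d ρ β) : ChpP d ρ β := by
  intro c₀ δ hc₀ hδ
  obtain ⟨Cg, hCg, hgrow⟩ := hG c₀ (12 / δ + 1) hc₀ (by
    have : 0 < 12 / δ := by positivity
    linarith)
  have hC0 : 0 ≤ Cg := by linarith
  have h4C : (0 : ℝ) < 4 ^ Cg := by positivity
  refine ⟨1 + 167936 / δ ^ 4 + Cg * 4 ^ Cg + 3 * Cg, by
    have : 0 < 167936 / δ ^ 4 := by positivity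
    have := mul_nonneg hC0 h4C.le
    linarith, fun h hL m x hm hx hF => ?_⟩
  obtain ⟨C, hC⟩ : ∃ C, C = 1 + 167936 / δ ^ 4 + Cg * 4 ^ Cg + 3 * Cg := ⟨_, rfl⟩
  rw [← hC]
  have p1 : 0 < 167936 / δ ^ 4 := by positivity
  have p2 : 0 ≤ Cg * 4 ^ Cg := mul_nonneg hC0 h4C.le
  obtain ⟨F, hFd⟩ : ∃ F, F = Fn ρ β h m := ⟨_, rfl⟩
  rw [← hFd] at hF
  have hFδ : δ ≤ F := by nlinarith
  have hF0 : 0 < F := hδ.trans_le hFδ
  have hm' : Measurable fun η => X β h η m - A ρ β h m := (measurable_X β h m).sub_const _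
  have i1 := intX15 (ρ := ρ) hd hρ β h m
  have i2 := N85.Va_int (ρ := ρ) hd hρ β h m
  have i0 := mean15 (ρ := ρ) hd hρ β h m
  have hVa : ∫ η, (X β h η m - A ρ β h m) ^ 2 ∂(law d ρ) = Va ρ β h m := rfl
  have hV0 : 0 ≤ Va ρ β h m := integral_nonneg fun _ => sq_nonneg _
  -- the two sides
  have hside : ∀ σ : ℝ, σ = 1 ∨ σ = -1 →
      ∃ j : ℕ, qj j ≤ (law d ρ).real {η | lv F j < σ * (X β h η m - A ρ β h m)} := by
    intro σ hσ
    have hσ2 : σ ^ 2 = 1 := by rcases hσ with h1 | h1 <;> rw [h1] <;> norm_num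
    have hσa : |σ| = 1 := by rcases hσ with h1 | h1 <;> rw [h1] <;> norm_num
    refine dyad (hm'.const_mul σ) (i1.const_mul σ) ?_ hF0 ?_
    · simp only [mul_pow, hσ2, one_mul]
      exact i2
    · have e2 : ∀ η : Env d, max (σ * (X β h η m - A ρ β h m)) 0 =
          1 / 2 * |X β h η m - A ρ β h m| + σ / 2 * (X β h η m - A ρ β h m) := by
        intro η
        have e3 : |σ * (X β h η m - A ρ β h m)| = |X β h η m - A ρ β h m| := by
          rw [abs_mul, hσa, one_mul]
        rw [← e3]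
        rcases le_total 0 (σ * (X β h η m - A ρ β h m)) with h3 | h3
        · rw [max_eq_left h3, abs_of_nonneg h3]
          ring
        · rw [max_eq_right h3, abs_of_nonpos h3]
          ring
      simp only [e2]
      rw [integral_add (i1.abs.const_mul _) (i1.const_mul _), integral_const_mul,
        integral_const_mul, i0, hFd]
      unfold Fn
      ring
  -- the conclusion from the two probabilities
  have hfin : ∀ (j : ℕ) (s₀ s₁ : ℝ), s₁ - s₀ = lv F j → A ρ β h m ≤ s₁ →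
      qj j ≤ (law d ρ).real {η | X β h η m ≤ s₀} →
      qj j ≤ (law d ρ).real {η | s₁ < X β h η m} →
      ∀ (T : ℕ) (Φ : ℝ), C * m * Real.exp (C * j) ≤ T →
        (∀ k : ℕ, k ≤ T → En ρ β h k ≤ Φ ∧ Fn ρ β h k ≤ Φ) → 2 ^ (j + 1) * x ≤ Φ := by
    intro j s₀ s₁ hs hA h0 h1 T Φ hT hΦ
    have hT' : Cg * m * (1 / qj j) ^ Cg ≤ T := by
      refine le_trans ?_ hT
      have e1 := price j hC0
      have e2 : Cg * m * (1 / qj j) ^ Cg ≤ Cg * m * (4 ^ Cg * Real.exp (3 * Cg * j)) :=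
        mul_le_mul_of_nonneg_left e1 (by positivity)
      refine e2.trans ?_
      have e3 : Real.exp (3 * Cg * j) ≤ Real.exp (C * j) :=
        Real.exp_le_exp.2 (mul_le_mul_of_nonneg_right (by rw [hC]; linarith) (by positivity))
      have e4 : Cg * m * (4 ^ Cg * Real.exp (3 * Cg * j)) =
          Cg * 4 ^ Cg * m * Real.exp (3 * Cg * j) := by ring
      rw [e4]
      have hm0 : (0 : ℝ) ≤ m := by positivity
      exact mul_le_mul (mul_le_mul_of_nonneg_right (by rw [hC]; linarith) hm0) e3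
        (Real.exp_pos _).le (mul_nonneg (by rw [hC]; linarith) hm0)
    have e5 := hgrow h hL m T s₀ s₁ (qj j) Φ hm (qj_pos j) (by linarith [qj_le j]) (by
      have := lv_pos hF0 j
      linarith) hA h0 h1 hT' hΦ
    rw [hs] at e5
    have e6 : 3 * (2 ^ j * x) ≤ (12 / δ + 1) * lv F j := by
      have k1 : (12 / δ) * (2 ^ j / 4 * (δ * x)) ≤ (12 / δ) * lv F j := by
        unfold lv
        exact mul_le_mul_of_nonneg_left (mul_le_mul_of_nonneg_left hF (by positivity))
          (by positivity)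
      have k2 : (12 / δ) * (2 ^ j / 4 * (δ * x)) = 3 * (2 ^ j * x) := by
        field_simp
        ring
      have k3 := (lv_pos hF0 j).le
      nlinarith
    have e7 : (1 : ℝ) ≤ 2 ^ j * x := by
      have k1 : (1 : ℝ) ≤ 2 ^ j := one_le_pow₀ one_le_two
      nlinarith
    rw [pow_succ]
    linarith
  have hjb : ∀ (j : ℕ) (σ : ℝ), σ = 1 ∨ σ = -1 →
      qj j ≤ (law d ρ).real {η | lv F j < σ * (X β h η m - A ρ β h m)} →
      (2 : ℝ) ^ j ≤ C * (1 + Va ρ β h m) ^ 2 := by
    intro j σ hσ hq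
    have hσ2 : σ ^ 2 = 1 := by rcases hσ with h1 | h1 <;> rw [h1] <;> norm_num
    have hl := lv_pos hF0 j
    have e1 : qj j * lv F j ^ 2 ≤ Va ρ β h m := by
      have k1 := mul_meas_ge_le_integral_of_nonneg (μ := law d ρ)
        (f := fun η => (X β h η m - A ρ β h m) ^ 2) (Eventually.of_forall fun η => sq_nonneg _)
        i2 (lv F j ^ 2)
      rw [hVa] at k1
      have k2 : (law d ρ).real {η | lv F j < σ * (X β h η m - A ρ β h m)} ≤
          (law d ρ).real {η | lv F j ^ 2 ≤ (X β h η m - A ρ β h m) ^ 2} := by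
        refine measureReal_mono fun η hη => ?_
        simp only [Set.mem_ofPred_eq] at hη ⊢
        have k3 : (σ * (X β h η m - A ρ β h m)) ^ 2 = (X β h η m - A ρ β h m) ^ 2 := by
          rw [mul_pow, hσ2, one_mul]
        rw [← k3]
        exact pow_le_pow_left₀ hl.le hη.le 2
      have k4 := mul_le_mul_of_nonneg_left (hq.trans k2) (sq_nonneg (lv F j))
      linarith
    refine (jbd hδ hFδ e1).trans ?_
    have e2 : Va ρ β h m ^ 2 ≤ (1 + Va ρ β h m) ^ 2 :=
      pow_le_pow_left₀ hV0 (by linarith) 2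
    exact mul_le_mul (by rw [hC]; linarith) e2 (sq_nonneg _) (by rw [hC]; linarith)
  -- the two cases
  have hms : MeasurableSet {η : Env d | X β h η m ≤ A ρ β h m} :=
    measurableSet_le (measurable_X β h m) measurable_const
  have hcompl : (law d ρ).real {η | X β h η m ≤ A ρ β h m} +
      (law d ρ).real {η | A ρ β h m < X β h η m} = 1 := by
    have : {η : Env d | A ρ β h m < X β h η m} = {η : Env d | X β h η m ≤ A ρ β h m}ᶜ := by
      ext η
      simp
    rw [this, probReal_compl_eq_one_sub hms]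
    ring
  rcases le_total (1 / 2) ((law d ρ).real {η | X β h η m ≤ A ρ β h m}) with hc | hc
  · obtain ⟨j, hj⟩ := hside 1 (Or.inl rfl)
    refine ⟨j, hjb j 1 (Or.inl rfl) hj, hfin j (A ρ β h m) (A ρ β h m + lv F j) (by ring)
      (by linarith [lv_pos hF0 j]) (by linarith [qj_le j]) ?_⟩
    refine hj.trans (measureReal_mono fun η hη => ?_)
    simp only [Set.mem_ofPred_eq, one_mul] at hη ⊢
    linarith
  · obtain ⟨j, hj⟩ := hside (-1) (Or.inr rfl)
    refine ⟨j, hjb j (-1) (Or.inr rfl) hj, hfin j (A ρ β h m - lv F j) (A ρ β h m) (by ring)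
      le_rfl ?_ (by linarith [qj_le j])⟩
    refine hj.trans (measureReal_mono fun η hη => ?_)
    simp only [Set.mem_ofPred_eq] at hη ⊢
    linarith

end Pool.Agent.W_7d29a1_PL
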