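import Pool.Agent.W_7d29a1_PL.DefsPX
import Pool.Agent.W_7d29a1_PL.Chp35
import Pool.Agent.W_7d29a1_AM.DeepU5

/-!
Balance for every law: the free energy is not above its mean with too large a probability
(helper73).
-/

set_option autoImplicit false

namespace Pool.Agent.W_7d29a1_PL

open MeasureTheory ProbabilityTheory Filter Topology Pool.Agent.W_MP_7d29a1_pr
  Pool.Agent.W_7d29a1_h46 Pool.Agent.W_7d29a1_h46u Pool.Agent.W_7d29a1_D2.B35
  Pool.Agent.W_7d29a1_Q29 Pool.Agent.W_7d29a1_R34 Pool.Agent.W_7d29a1_SP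

namespace B73

open Chp35

/-- The mean of the positive part from the dyadic tails. -/
lemma mean_le {Ω : Type*} [MeasurableSpace Ω] {μ : Measure Ω} [IsProbabilityMeasure μ] {Y : Ω → ℝ}
    (hY : Measurable Y) (h1 : Integrable Y μ) (h2 : Integrable (fun w => Y w ^ 2) μ) {F : ℝ}
    (hF : 0 < F) (N : ℕ) :
    ∫ w, max (Y w) 0 ∂μ ≤ F / 4 + ∑ j ∈ Finset.range N, lv F j * μ.real {w | lv F j < Y w} +
      (∫ w, Y w ^ 2 ∂μ) / lv F N := by
  have hms : ∀ j, MeasurableSet {w | lv F j < Y w} := fun j =>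
    measurableSet_lt measurable_const hY
  classical
  have hi : ∀ j, Integrable (fun w => lv F j * (if lv F j < Y w then (1 : ℝ) else 0)) μ := by
    intro j
    have : (fun w => (if lv F j < Y w then (1 : ℝ) else 0)) =
        Set.indicator {w | lv F j < Y w} (fun _ => (1 : ℝ)) := by
      funext w
      simp only [Set.indicator, Set.mem_ofPred_eq]
    refine Integrable.const_mul ?_ _
    rw [this]
    exact (integrable_const (1 : ℝ)).indicator (hms j)
  have hI : ∀ j, ∫ w, lv F j * (if lv F j < Y w then (1 : ℝ) else 0) ∂μ =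
      lv F j * μ.real {w | lv F j < Y w} := by
    intro j
    rw [integral_const_mul]
    congr 1
    have : (fun w => (if lv F j < Y w then (1 : ℝ) else 0)) =
        Set.indicator {w | lv F j < Y w} (fun _ => (1 : ℝ)) := by
      funext w
      simp only [Set.indicator, Set.mem_ofPred_eq]
    rw [this, integral_indicator (hms j)]
    simp
  have hs : Integrable (fun w => F / 4 + ∑ j ∈ Finset.range N,
      lv F j * (if lv F j < Y w then (1 : ℝ) else 0)) μ :=
    (integrable_const _).add (integrable_finsetSum _ fun j _ => hi j)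
  have e1 : ∫ w, max (Y w) 0 ∂μ ≤ ∫ w, (F / 4 + ∑ j ∈ Finset.range N,
      lv F j * (if lv F j < Y w then (1 : ℝ) else 0) + Y w ^ 2 / lv F N) ∂μ :=
    integral_mono h1.pos_part (hs.add (h2.div_const _)) fun w => point hF N (Y w)
  rw [integral_add hs (h2.div_const _), integral_add (integrable_const _)
    (integrable_finsetSum _ fun j _ => hi j), integral_finsetSum _ fun j _ => hi j] at e1
  have e0 : ∫ w, Y w ^ 2 / lv F N ∂μ = (∫ w, Y w ^ 2 ∂μ) / lv F N := by rw [integral_div]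
  rw [e0] at e1
  simp only [hI, integral_const, probReal_univ, one_smul] at e1
  exact e1

/-- The numbers of one level. -/
lemma lvl {F K q p : ℝ} (hF : 0 < F) (hK : 1 ≤ K) (hq : 0 ≤ q) (j : ℕ) (hp : p ≤ q)
    (hp0 : 0 ≤ p) (h : p ≤ Real.exp (1 - lv F j / (K * F))) :
    lv F j * p ≤ 1000 * K ^ 2 * Real.sqrt q * F * (1 / 2) ^ j := by
  obtain ⟨x, hx⟩ : ∃ x : ℝ, x = lv F j / (K * F) := ⟨_, rfl⟩
  rw [← hx] at h
  have hKF : 0 < K * F := by positivity
  have hx0 : 0 < x := by
    rw [hx]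
    exact div_pos (lv_pos hF j) hKF
  have e1 : lv F j = K * F * x := by
    rw [hx]
    field_simp
  have e2 : 2 ^ j = 4 * K * x := by
    rw [hx]
    unfold lv
    field_simp
  -- `p ≤ 66 / x ^ 4`
  have h1 : Real.exp (1 - x) * x ^ 4 ≤ 66 := by
    have h2 : x ^ 4 / 24 ≤ Real.exp x := by
      have := Real.pow_div_factorial_le_exp x hx0.le 4
      simpa [Nat.factorial] using this
    have h3 : Real.exp (1 - x) = Real.exp 1 / Real.exp x := Real.exp_sub 1 x
    rw [h3, div_mul_eq_mul_div, div_le_iff₀ (Real.exp_pos x)]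
    have h4 := Real.exp_one_lt_d9
    have h5 : 0 < x ^ 4 := by positivity
    nlinarith [Real.exp_pos 1]
  have h2 : p * x ^ 4 ≤ 66 :=
    (mul_le_mul_of_nonneg_right h (by positivity)).trans h1
  -- `p ^ 2 ≤ q p`
  have h3 : (p * x ^ 2) ^ 2 ≤ q * 66 := by
    calc (p * x ^ 2) ^ 2 = p * (p * x ^ 4) := by ring
      _ ≤ q * 66 := mul_le_mul hp h2 (by positivity) hq
  have h4 : p * x ^ 2 ≤ 9 * Real.sqrt q := by
    have h5 : (p * x ^ 2) ^ 2 ≤ (9 * Real.sqrt q) ^ 2 := by
      have h5 : (9 * Real.sqrt q) ^ 2 = 81 * q := by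
        rw [mul_pow, Real.sq_sqrt hq]
        norm_num
      rw [h5]
      linarith
    exact abs_le_of_sq_le_sq' h5 (by positivity) |>.2
  have h6 : ((1 : ℝ) / 2) ^ j = 1 / (4 * K * x) := by
    rw [← e2, one_div, inv_pow, one_div]
  rw [e1, h6]
  have hx4 : 0 < 4 * K * x := by positivity
  rw [mul_one_div, le_div_iff₀ hx4]
  have h7 : K * F * x * p * (4 * K * x) = 4 * K ^ 2 * F * (p * x ^ 2) := by ring
  rw [h7]
  have h8 : 4 * K ^ 2 * F * (p * x ^ 2) ≤ 4 * K ^ 2 * F * (9 * Real.sqrt q) :=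
    mul_le_mul_of_nonneg_left h4 (by positivity)
  have h9 : 0 ≤ K ^ 2 * F * Real.sqrt q := by positivity
  nlinarith

end B73

open B73 Chp35 in
/-- BALX. -/
theorem balX73 {d : ℕ} (hd : 0 < d) {ρ : Measure ℝ} [IsProbabilityMeasure ρ] (hρ : EM ρ)
    (hnc : ∀ c : ℝ, ρ {c} ≠ 1) {β : ℝ} (hβ : 0 < β) : BalX d ρ β := by
  obtain ⟨C, c, hC1, hc0, hC⟩ := Pool.Agent.W_7d29a1_AM.deepU5 hd hβ.le
    (Pool.Agent.W_7d29a1_AM.deepCAll5 hρ hnc hβ)
  obtain ⟨K, hK⟩ : ∃ K : ℝ, K = 2 * C * (1 / c + 1) := ⟨_, rfl⟩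
  have hK1 : 1 ≤ K := by
    rw [hK]
    have : 0 < 1 / c := by positivity
    nlinarith
  obtain ⟨q₁, hq₁⟩ : ∃ q : ℝ, q = min (1 / 4) ((1 / (8000 * K ^ 2)) ^ 2) := ⟨_, rfl⟩
  have hq0 : 0 < q₁ := by
    rw [hq₁]
    positivity
  have hq4 : q₁ ≤ 1 / 4 := by
    rw [hq₁]
    exact min_le_left _ _
  have hqs : Real.sqrt q₁ ≤ 1 / (8000 * K ^ 2) := by
    have h1 : q₁ ≤ (1 / (8000 * K ^ 2)) ^ 2 := by
      rw [hq₁]
      exact min_le_right _ _
    calc Real.sqrt q₁ ≤ Real.sqrt ((1 / (8000 * K ^ 2)) ^ 2) := Real.sqrt_le_sqrt h1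
      _ = 1 / (8000 * K ^ 2) := Real.sqrt_sq (by positivity)
  refine ⟨C * (1 + c), q₁, by nlinarith, hq0, fun h m hF => ?_⟩
  by_contra hcon
  rw [not_le] at hcon
  obtain ⟨F, hFd⟩ : ∃ F : ℝ, F = Fn ρ β h m := ⟨_, rfl⟩
  rw [← hFd] at hF hcon
  have hF1 : 1 ≤ F := by nlinarith
  have hF0 : 0 < F := by linarith
  have hmX := measurable_X (d := d) β h m
  obtain ⟨Y, hYd⟩ : ∃ Y : Env d → ℝ, Y = fun η => X β h η m - A ρ β h m := ⟨_, rfl⟩
  have hYm : Measurable Y := by
    rw [hYd]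
    exact hmX.sub_const _
  have hYi : Integrable Y (law d ρ) := by
    rw [hYd]
    exact intX15 hd hρ β h m
  have hY2 : Integrable (fun η => Y η ^ 2) (law d ρ) := by
    rw [hYd]
    exact N85.Va_int (ρ := ρ) hd hρ β h m
  have hY0 : ∫ η, Y η ∂(law d ρ) = 0 := by
    rw [hYd]
    exact mean15 hd hρ β h m
  have hYF : ∫ η, |Y η| ∂(law d ρ) = F := by
    rw [hFd, hYd]
    rfl
  have hpos : ∫ η, max (Y η) 0 ∂(law d ρ) = F / 2 := by
    have h1 : ∀ η, max (Y η) 0 = (|Y η| + Y η) / 2 := by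
      intro η
      rcases le_total 0 (Y η) with h | h
      · rw [max_eq_left h, abs_of_nonneg h]; ring
      · rw [max_eq_right h, abs_of_nonpos h]; ring
    simp only [h1]
    rw [integral_div, integral_add hYi.abs hYi, hY0, hYF, add_zero]
  have hneg : ∫ η, max (-Y η) 0 ∂(law d ρ) = F / 2 := by
    have h1 : ∀ η, max (-Y η) 0 = (|Y η| - Y η) / 2 := by
      intro η
      rcases le_total 0 (Y η) with h | h
      · rw [max_eq_right (by linarith), abs_of_nonneg h]; ring
      · rw [max_eq_left (by linarith), abs_of_nonpos h]; ring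
    simp only [h1]
    rw [integral_div, integral_sub hYi.abs hYi, hY0, hYF, sub_zero]
  -- the upper part
  have hup : 1 / 4 ≤ (law d ρ).real {η | A ρ β h m + F / 16 < X β h η m} := by
    have hms : MeasurableSet {η | X β h η m ≤ A ρ β h m + F / 16} :=
      measurableSet_le hmX measurable_const
    have h1 := probReal_compl_eq_one_sub (μ := law d ρ) hms
    have h2 : {η | X β h η m ≤ A ρ β h m + F / 16}ᶜ =
        {η | A ρ β h m + F / 16 < X β h η m} := by
      ext η
      simp [not_le]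
    rw [h2] at h1
    rw [h1]
    linarith
  -- the second alternative is excluded
  have hmark : (law d ρ).real {η | A ρ β h m + F / 16 + F / c < X β h η m} < c := by
    have h1 := mul_meas_ge_le_integral_of_nonneg (μ := law d ρ) (f := fun η => max (Y η) 0)
      (Eventually.of_forall fun η => le_max_right _ _) hYi.pos_part (F / c)
    rw [hpos] at h1
    have h2 : (law d ρ).real {η | A ρ β h m + F / 16 + F / c < X β h η m} ≤
        (law d ρ).real {η | F / c ≤ max (Y η) 0} := by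
      refine measureReal_mono fun η (hη : A ρ β h m + F / 16 + F / c < X β h η m) => ?_
      show F / c ≤ max (Y η) 0
      refine le_trans ?_ (le_max_left _ _)
      rw [hYd]
      show F / c ≤ X β h η m - A ρ β h m
      linarith
    have h3 : F / c * (law d ρ).real {η | F / c ≤ max (Y η) 0} ≤ F / 2 := h1
    have h4 : (law d ρ).real {η | F / c ≤ max (Y η) 0} ≤ c / 2 := by
      have h5 : 0 < F / c := by positivity
      rw [← mul_le_mul_iff_right₀ h5]
      refine h3.trans (le_of_eq ?_)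
      field_simp
    linarith
  -- the lower tail
  have htail : ∀ y : ℝ, 0 ≤ y → (law d ρ).real {η | y < -Y η} ≤
      Real.exp (1 - y / (K * (F / 2))) := by
    intro y hy
    obtain ⟨q, hq⟩ : ∃ q : ℝ, q = (law d ρ).real {η | X β h η m ≤ A ρ β h m - y} := ⟨_, rfl⟩
    have h0 : (law d ρ).real {η | y < -Y η} ≤ q := by
      rw [hq]
      refine measureReal_mono fun η (hη : y < -Y η) => ?_
      rw [hYd] at hη
      have h1 : y < -(X β h η m - A ρ β h m) := hη
      show X β h η m ≤ A ρ β h m - y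
      linarith
    refine h0.trans ?_
    by_cases hqp : q ≤ 0
    · exact hqp.trans (Real.exp_pos _).le
    rw [not_le] at hqp
    have hq1 : q ≤ 1 := by
      rw [hq]
      exact measureReal_le_one
    have h1 := hC h m (A ρ β h m - y) (A ρ β h m + F / 16) (F / c) q hqp hq1 (by
      rw [le_div_iff₀ hc0]
      nlinarith) (le_of_eq hq) hup
    rcases h1 with h1 | h1
    · obtain ⟨L, hL⟩ : ∃ L : ℝ, L = 1 + Real.log (1 / q) := ⟨_, rfl⟩
      have hlq : 0 ≤ Real.log (1 / q) := Real.log_nonneg (by rw [le_div_iff₀ hqp]; linarith)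
      rw [← hL] at h1
      have hL1 : 1 ≤ L := by linarith
      have hsL : Real.sqrt L ≤ L := by
        rw [Real.sqrt_le_left (by linarith)]
        nlinarith
      have h2 : C * (F / c * Real.sqrt L + L) ≤ K * (F / 2) * L := by
        have h3 : F / c * Real.sqrt L ≤ F / c * L := mul_le_mul_of_nonneg_left hsL (by positivity)
        have h4 : L ≤ F * L := by nlinarith
        calc C * (F / c * Real.sqrt L + L) ≤ C * (F / c * L + F * L) :=
              mul_le_mul_of_nonneg_left (by linarith) (by linarith)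
          _ = K * (F / 2) * L := by
              rw [hK]
              field_simp
      have h5 : y ≤ K * (F / 2) * L := by linarith
      have h6 : y / (K * (F / 2)) ≤ L := by
        rw [div_le_iff₀ (by positivity)]
        linarith
      have h7 : q = Real.exp (1 - L) := by
        rw [hL, one_div, Real.log_inv]
        rw [show 1 - (1 + -Real.log q) = Real.log q by ring, Real.exp_log hqp]
      rw [h7]
      exact Real.exp_le_exp.2 (by linarith)
    · exact absurd h1 (not_le.2 hmark)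
  have hsmall : ∀ y : ℝ, 0 ≤ y → (law d ρ).real {η | y < -Y η} ≤ q₁ := by
    intro y hy
    refine le_trans ?_ hcon.le
    refine measureReal_mono fun η (hη : y < -Y η) => ?_
    rw [hYd] at hη
    have h1 : y < -(X β h η m - A ρ β h m) := hη
    show X β h η m ≤ A ρ β h m + F / 16
    linarith
  obtain ⟨V, hV⟩ : ∃ V : ℝ, V = ∫ η, Y η ^ 2 ∂(law d ρ) := ⟨_, rfl⟩
  have hF2 : 0 < F / 2 := by positivity
  obtain ⟨N, hN⟩ : ∃ N : ℕ, 128 * V / F ^ 2 < 2 ^ N := pow_unbounded_of_one_lt _ one_lt_two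
  have h1 := mean_le (μ := law d ρ) (Y := fun η => -Y η) hYm.neg hYi.neg
    (by simpa using hY2) hF2 N
  have h2 : ∫ η, (-Y η) ^ 2 ∂(law d ρ) = V := by
    rw [hV]
    simp
  rw [hneg, h2] at h1
  have h3 : ∑ j ∈ Finset.range N, lv (F / 2) j * (law d ρ).real {η | lv (F / 2) j < -Y η} ≤
      ∑ j ∈ Finset.range N, 1000 * K ^ 2 * Real.sqrt q₁ * (F / 2) * (1 / 2) ^ j := by
    refine Finset.sum_le_sum fun j _ => ?_
    have h4 := (lv_pos hF2 j).le
    exact lvl hF2 hK1 hq0.le j (hsmall _ h4) measureReal_nonneg (htail _ h4)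
  have h5 : ∑ j ∈ Finset.range N, ((1 : ℝ) / 2) ^ j ≤ 2 := by
    have := geom_sum_eq (show (1 / 2 : ℝ) ≠ 1 by norm_num) N
    rw [this]
    have h6 : (0 : ℝ) ≤ (1 / 2) ^ N := by positivity
    rw [div_le_iff_of_neg (by norm_num)]
    linarith
  rw [← Finset.mul_sum] at h3
  have h6 : 1000 * K ^ 2 * Real.sqrt q₁ ≤ 1 / 8 := by
    calc 1000 * K ^ 2 * Real.sqrt q₁ ≤ 1000 * K ^ 2 * (1 / (8000 * K ^ 2)) :=
          mul_le_mul_of_nonneg_left hqs (by positivity)
      _ = 1 / 8 := by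
          have : K ^ 2 ≠ 0 := by positivity
          field_simp
          norm_num
  have h7 : 1000 * K ^ 2 * Real.sqrt q₁ * (F / 2) * ∑ j ∈ Finset.range N, ((1 : ℝ) / 2) ^ j ≤
      F / 8 := by
    have h8 : 1000 * K ^ 2 * Real.sqrt q₁ * (F / 2) ≤ 1 / 8 * (F / 2) :=
      mul_le_mul_of_nonneg_right h6 hF2.le
    have h9 : 0 ≤ ∑ j ∈ Finset.range N, ((1 : ℝ) / 2) ^ j :=
      Finset.sum_nonneg fun j _ => by positivity
    calc 1000 * K ^ 2 * Real.sqrt q₁ * (F / 2) * ∑ j ∈ Finset.range N, ((1 : ℝ) / 2) ^ j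
        ≤ 1 / 8 * (F / 2) * 2 := mul_le_mul h8 h5 h9 (by positivity)
      _ = F / 8 := by ring
  have h10 : V / lv (F / 2) N < F / 16 := by
    rw [div_lt_iff₀ (lv_pos hF2 N)]
    rw [div_lt_iff₀ (by positivity)] at hN
    unfold lv
    nlinarith
  linarith

end Pool.Agent.W_7d29a1_PL
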