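import Pool.Agent.W_7d29a1_PL.DefsPL
import Pool.Agent.W_7d29a1_SP.Beta48

/-!
BETQ (second text): the nonrandom fluctuation at a good point, power bound.
-/

set_option autoImplicit false

namespace Pool.Agent.W_7d29a1_PL

open MeasureTheory ProbabilityTheory Filter Topology Pool.Agent.W_MP_7d29a1_pr
  Pool.Agent.W_7d29a1_h46 Pool.Agent.W_7d29a1_h46u Pool.Agent.W_7d29a1_D2.B35
  Pool.Agent.W_7d29a1_Q29 Pool.Agent.W_7d29a1_R34 Pool.Agent.W_7d29a1_SP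
  Pool.Agent.W_7d29a1_SP.B48

/-- LK (`d = 2`) with a power bound. -/
def LkQ26 (ρ : Measure ℝ) (β : ℝ) : Prop := ∀ g M : ℝ, 0 < g → 0 < M → ∃ c₂ c₁ : ℝ, 0 < c₂ ∧
  c₂ ≤ 1 / 2 ∧ 0 < c₁ ∧
  ∀ (h : Vec 2) (δ Q c R : ℝ), 0 < δ → 1 ≤ Q → 0 < c → c ≤ c₁ → Pq ρ β h g M δ Q c R →
    ∃ N₀ : ℕ, 1000 ≤ N₀ ∧ ∀ (N L : ℕ) (e : ℝ) (S : Finset ℕ), N₀ ≤ N → 240 ≤ e →
      (∀ t : ℕ, t ≤ N → En ρ β h t ≤ 2 * e) → (∃ t : ℕ, t ≤ N ∧ e ≤ En ρ β h t) →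
      (∀ k : ℕ, k ≤ 2 * N → Fn ρ β h k ≤ e / 1280) → (N : ℝ) / 200 ≤ S.card →
      (∀ t ∈ S, t ≤ L ∧ (N : ℝ) / 1000 ≤ t ∧ t ≤ N ∧ (N : ℝ) / 1000 ≤ (L - t : ℕ) ∧ L - t ≤ N ∧
        e / 20 ≤ En ρ β h t + En ρ β h (L - t) - En ρ β h L) →
      ∃ m : ℕ, 1 ≤ m ∧ m ≤ N ∧ c₂ / (kp Q c (2 * N) * (kp Q c (2 * N) ^ 2 + e)) ≤
        (law 2 ρ).real {η | A ρ β h m + e / 80 < X β h η m}

lemma kp_pow26 {Q c e : ℝ} {n N : ℕ} (hQ : 1 ≤ Q) (hc : 0 < c) (hc1 : c ≤ 1 / 32) (hn : 1 ≤ n)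
    (he : (4 * Q ^ 4) ^ 4 ≤ e) (h1 : (n : ℝ) ^ (8 * c) ≤ 2 * e)
    (h2 : (N : ℝ) ≤ n * (2 * e) ^ 2) : kp Q c (2 * N) ^ 4 ≤ e := by
  have hQ0 : 0 < Q := by linarith
  have hn0 : (0 : ℝ) < n := by exact_mod_cast hn
  have h44 : (1 : ℝ) ≤ (4 * Q ^ 4) ^ 4 := by
    have : 1 ≤ Q ^ 4 := one_le_pow₀ hQ
    refine one_le_pow₀ (by linarith)
  have he1 : 1 ≤ e := h44.trans he
  have he0 : 0 < e := by linarith
  have e1 : kp Q c (2 * N) ^ 4 = Q ^ 4 * ((2 * N : ℕ) : ℝ) ^ (4 * c) := by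
    unfold kp
    rw [mul_pow, ← Real.rpow_natCast (((2 * N : ℕ) : ℝ) ^ c) 4, ← Real.rpow_mul (by positivity)]
    congr 2
    push_cast
    ring
  have h3 : ((2 * N : ℕ) : ℝ) ≤ n * (8 * e ^ 2) := by
    push_cast
    nlinarith
  have h4 : ((2 * N : ℕ) : ℝ) ^ (4 * c) ≤ (n : ℝ) ^ (4 * c) * (8 * e ^ 2) ^ (4 * c) := by
    rw [← Real.mul_rpow hn0.le (by positivity)]
    exact Real.rpow_le_rpow (by positivity) h3 (by positivity)
  have h5 : (n : ℝ) ^ (4 * c) ≤ (2 * e) ^ (1 / 2 : ℝ) := by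
    have e2 : (n : ℝ) ^ (4 * c) = ((n : ℝ) ^ (8 * c)) ^ (1 / 2 : ℝ) := by
      rw [← Real.rpow_mul hn0.le]
      congr 1
      ring
    rw [e2]
    exact Real.rpow_le_rpow (by positivity) h1 (by norm_num)
  have h6 : (8 * e ^ 2) ^ (4 * c) ≤ (8 * e ^ 2) ^ (1 / 8 : ℝ) := by
    refine Real.rpow_le_rpow_of_exponent_le ?_ (by linarith)
    nlinarith
  have h7 : (8 * e ^ 2) ^ (1 / 8 : ℝ) = (8 : ℝ) ^ (1 / 8 : ℝ) * e ^ (1 / 4 : ℝ) := by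
    rw [Real.mul_rpow (by norm_num) (by positivity), ← Real.rpow_natCast e 2,
      ← Real.rpow_mul he0.le]
    norm_num
  have h8 : (2 * e) ^ (1 / 2 : ℝ) = (2 : ℝ) ^ (1 / 2 : ℝ) * e ^ (1 / 2 : ℝ) :=
    Real.mul_rpow (by norm_num) he0.le
  have h9 : (8 : ℝ) ^ (1 / 8 : ℝ) ≤ 2 := by
    have e3 : (2 : ℝ) = (2 ^ 8 : ℝ) ^ (1 / 8 : ℝ) := by
      rw [← Real.rpow_natCast 2 8, ← Real.rpow_mul (by norm_num)]
      norm_num
    rw [e3]
    exact Real.rpow_le_rpow (by norm_num) (by norm_num) (by norm_num)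
  have h10 : (2 : ℝ) ^ (1 / 2 : ℝ) ≤ 2 := by
    calc (2 : ℝ) ^ (1 / 2 : ℝ) ≤ 2 ^ (1 : ℝ) :=
          Real.rpow_le_rpow_of_exponent_le (by norm_num) (by norm_num)
      _ = 2 := Real.rpow_one _
  have h11 : ((2 * N : ℕ) : ℝ) ^ (4 * c) ≤ 4 * e ^ (3 / 4 : ℝ) := by
    have e4 : e ^ (3 / 4 : ℝ) = e ^ (1 / 2 : ℝ) * e ^ (1 / 4 : ℝ) := by
      rw [← Real.rpow_add he0]
      norm_num
    have p1 : 0 ≤ e ^ (1 / 2 : ℝ) := by positivity
    have p2 : 0 ≤ e ^ (1 / 4 : ℝ) := by positivity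
    calc ((2 * N : ℕ) : ℝ) ^ (4 * c) ≤ (n : ℝ) ^ (4 * c) * (8 * e ^ 2) ^ (4 * c) := h4
      _ ≤ ((2 : ℝ) ^ (1 / 2 : ℝ) * e ^ (1 / 2 : ℝ)) * ((8 : ℝ) ^ (1 / 8 : ℝ) * e ^ (1 / 4 : ℝ)) :=
          mul_le_mul (h5.trans_eq h8) (h6.trans_eq h7) (by positivity) (by positivity)
      _ ≤ (2 * e ^ (1 / 2 : ℝ)) * (2 * e ^ (1 / 4 : ℝ)) := by gcongr
      _ = 4 * e ^ (3 / 4 : ℝ) := by
          rw [e4]
          ring
  have h12 : 4 * Q ^ 4 ≤ e ^ (1 / 4 : ℝ) := by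
    have e5 : 4 * Q ^ 4 = ((4 * Q ^ 4) ^ 4) ^ (1 / 4 : ℝ) := by
      rw [← Real.rpow_natCast (4 * Q ^ 4) 4, ← Real.rpow_mul (by positivity)]
      norm_num
    rw [e5]
    exact Real.rpow_le_rpow (by positivity) he (by norm_num)
  rw [e1]
  calc Q ^ 4 * ((2 * N : ℕ) : ℝ) ^ (4 * c) ≤ Q ^ 4 * (4 * e ^ (3 / 4 : ℝ)) :=
        mul_le_mul_of_nonneg_left h11 (by positivity)
    _ = (4 * Q ^ 4) * e ^ (3 / 4 : ℝ) := by ring
    _ ≤ e ^ (1 / 4 : ℝ) * e ^ (3 / 4 : ℝ) := mul_le_mul_of_nonneg_right h12 (by positivity)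
    _ = e := by
        rw [← Real.rpow_add he0]
        norm_num

lemma kp_one26 {Q c : ℝ} (hQ : 1 ≤ Q) (hc : 0 < c) {t : ℕ} (ht : 1 ≤ t) : 1 ≤ kp Q c t := by
  unfold kp
  have h1 : (1 : ℝ) ≤ (t : ℝ) ^ c := Real.one_le_rpow (by exact_mod_cast ht) hc.le
  nlinarith

lemma kp_mono26 {Q c : ℝ} (hQ : 1 ≤ Q) (hc : 0 < c) {s t : ℕ} (h : s ≤ t) :
    kp Q c s ≤ kp Q c t := by
  unfold kp
  exact mul_le_mul_of_nonneg_left
    (Real.rpow_le_rpow (Nat.cast_nonneg _) (by exact_mod_cast h) hc.le) (by linarith)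

/-- **BETQ** (second text). -/
theorem betQ26 {ρ : Measure ℝ} [IsProbabilityMeasure ρ] (hρ : EM ρ) (β : ℝ) (hS : SeqP)
    (hL : LkQ26 ρ β) : BetQ ρ β := by
  intro g M hg hM
  obtain ⟨c₂, c₁', hc2, hc2', hc₁', hL2⟩ := hL g M hg hM
  refine ⟨min c₁' (1 / 32), lt_min hc₁' (by norm_num), fun h δ Q c R hδ hQ hc hc1 hP => ?_⟩
  have hcc1 : c ≤ c₁' := hc1.trans (min_le_left _ _)
  have hcc2 : c ≤ 1 / 32 := hc1.trans (min_le_right _ _)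
  obtain ⟨N₀, hN0, hL3⟩ := hL2 h δ Q c R hδ hQ hc hcc1 hP
  have hd : 0 < 2 := by norm_num
  -- the sequence
  have hE0 : En ρ β h 0 = 0 := by
    have h1 : ∀ η : Env 2, X β h η 0 = 0 := by
      intro η
      unfold X
      rw [Z_zero, Real.log_one]
    unfold En A
    simp [h1]
  have hEn : ∀ n, 0 ≤ En ρ β h n := fun n => by
    unfold En
    linarith [A_le_lam hd hρ β h n]
  have hEs : ∀ a b, En ρ β h (a + b) ≤ En ρ β h a + En ρ β h b := fun a b => by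
    unfold En
    have := A_add_le hd hρ β h a b
    push_cast
    linarith
  -- the thresholds
  set B : ℝ := ∑ t ∈ Finset.range N₀, En ρ β h t with hB
  have hBt : ∀ t, t < N₀ → En ρ β h t ≤ B := fun t ht =>
    Finset.single_le_sum (f := fun t => En ρ β h t) (fun t _ => hEn t) (Finset.mem_range.2 ht)
  have hB0 : 0 ≤ B := Finset.sum_nonneg fun t _ => hEn t
  set e₁ : ℝ := (4 * Q ^ 4) ^ 4 + B + 1 + 1280 ^ 2 + (12800 / c₂) ^ 2 with he1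
  have ht : Tendsto (fun n : ℕ => (n : ℝ) ^ (8 * c)) atTop atTop :=
    (tendsto_rpow_atTop (by positivity)).comp tendsto_natCast_atTop_atTop
  obtain ⟨n₀, hn0⟩ := eventually_atTop.1 (ht.eventually_ge_atTop (2 * e₁))
  refine ⟨max n₀ 1, fun n k hn hk => ?_⟩
  by_contra hcon
  push Not at hcon
  have hY := hn0 n ((le_max_left _ _).trans hn)
  have hn1 : 1 ≤ n := (le_max_right _ _).trans hn
  set Y : ℝ := (n : ℝ) ^ (8 * c) with hYd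
  have hY1 : 1 ≤ Y := Real.one_le_rpow (by exact_mod_cast hn1) (by positivity)
  have hk0 : 0 < En ρ β h k := by linarith
  obtain ⟨N, e, hN1, he0, hNe, hNt, hke, hNn, hbig⟩ :=
    hS (fun n => En ρ β h n) R hE0 hEn hEs hP.rate n k hk hk0
  have hx1 : 0 < (4 * Q ^ 4) ^ 4 := by positivity
  have hx2 : 0 ≤ (12800 / c₂) ^ 2 := sq_nonneg _
  have hee : e₁ < e := by linarith
  have hNN : N₀ ≤ N := by
    by_contra hlt
    push Not at hlt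
    obtain ⟨t, htN, hte⟩ := hNt
    have := hBt t (by omega)
    linarith
  have h2e : (N : ℝ) ≤ n * (2 * e) ^ 2 := by
    refine le_trans ?_ hNn
    have h1 : 1 ≤ En ρ β h k ^ 2 := by nlinarith
    have h2 : (0 : ℝ) ≤ N := Nat.cast_nonneg _
    nlinarith
  have hK4 : kp Q c (2 * N) ^ 4 ≤ e :=
    kp_pow26 hQ hc hcc2 hn1 (by linarith) (by linarith) h2e
  set K : ℝ := kp Q c (2 * N) with hKd
  have hK1 : 1 ≤ K := kp_one26 hQ hc (by omega)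
  set q : ℝ := K ^ 2 with hq
  have hq1 : K ≤ q := by nlinarith
  have hq2 : q ^ 2 ≤ e := by
    rw [hq, ← pow_mul]
    exact hK4
  have hq3 : 1280 * q ≤ e := by
    have h1 : (1280 : ℝ) ^ 2 ≤ e := by linarith
    nlinarith [sq_nonneg (e - 1280 * q)]
  have hVa : ∀ t, t ≤ 2 * N → Va ρ β h t ≤ K := fun t ht => (hP.var t).trans (kp_mono26 hQ hc ht)
  obtain ⟨L, S, hcard, hSt⟩ := hbig (hN0.trans hNN)
  obtain ⟨m, hm1, hmN, hlk⟩ := hL3 N L e S hNN (by linarith) hNe hNt (fun j hj => by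
    have := Fn_le_sqrt hd hρ β h j hK1 (hVa j hj)
    rw [le_div_iff₀ (by norm_num)]
    linarith) hcard hSt
  have hch : (law 2 ρ).real {η | A ρ β h m + e / 80 < X β h η m} ≤ 6400 * K / e ^ 2 := by
    have h1 := cheb13 hd hρ β h m (s := e / 80) (by positivity)
    have h2 : (law 2 ρ).real {η | A ρ β h m + e / 80 < X β h η m} ≤
        (law 2 ρ).real {η | e / 80 ≤ |X β h η m - A ρ β h m|} := by
      refine measureReal_mono (fun η hη => ?_)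
      have hη' : A ρ β h m + e / 80 < X β h η m := hη
      show e / 80 ≤ |X β h η m - A ρ β h m|
      exact le_trans (by linarith) (le_abs_self _)
    have h3 : Va ρ β h m / (e / 80) ^ 2 ≤ 6400 * K / e ^ 2 := by
      rw [div_le_div_iff₀ (by positivity) (by positivity)]
      have h4 := hVa m (by omega)
      have h5 : 0 < e ^ 2 := by positivity
      nlinarith
    exact (h2.trans h1).trans h3
  have hfin := hlk.trans hch
  rw [div_le_div_iff₀ (by positivity) (by positivity)] at hfin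
  have h1 : c₂ * e ^ 2 ≤ 6400 * (q * (q + e)) := by
    calc c₂ * e ^ 2 ≤ 6400 * K * (K * (K ^ 2 + e)) := hfin
      _ = 6400 * (q * (q + e)) := by rw [hq]; ring
  have h2 : c₂ * e ^ 2 ≤ 12800 * q * e := by
    have h3 : q * (q + e) ≤ 2 * q * e := by
      have h4 : q ≤ e := by linarith
      have h5 : 0 ≤ q := by linarith
      nlinarith
    linarith
  have h3 : c₂ * e ≤ 12800 * q := by
    have : c₂ * e * e ≤ 12800 * q * e := by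
      calc c₂ * e * e = c₂ * e ^ 2 := by ring
        _ ≤ _ := h2
    exact le_of_mul_le_mul_right this he0
  have h4 : (c₂ * e) ^ 2 ≤ 12800 ^ 2 * e := by
    calc (c₂ * e) ^ 2 ≤ (12800 * q) ^ 2 := by
          exact pow_le_pow_left₀ (by positivity) h3 2
      _ = 12800 ^ 2 * q ^ 2 := by ring
      _ ≤ _ := by nlinarith
  have h5 : c₂ ^ 2 * e ≤ 12800 ^ 2 := by
    have : c₂ ^ 2 * e * e ≤ 12800 ^ 2 * e := by
      calc c₂ ^ 2 * e * e = (c₂ * e) ^ 2 := by ring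
        _ ≤ _ := h4
    exact le_of_mul_le_mul_right this he0
  have h6 : (12800 / c₂) ^ 2 < e := by linarith
  rw [div_pow, div_lt_iff₀ (by positivity)] at h6
  linarith

end Pool.Agent.W_7d29a1_PL
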