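import Pool.Agent.W_7d29a1_PL.StepK15
import Pool.Agent.W_7d29a1_SP.Beta48

/-!
The nonrandom fluctuation at one tilt, general bound of the variance (helper15, from helper48).
-/

namespace Pool.Agent.W_7d29a1_PL

open MeasureTheory ProbabilityTheory Filter Topology Pool.Agent.W_MP_7d29a1_pr
  Pool.Agent.W_7d29a1_h46 Pool.Agent.W_7d29a1_h46u Pool.Agent.W_7d29a1_D2.B35
  Pool.Agent.W_7d29a1_Q29 Pool.Agent.W_7d29a1_R34 Pool.Agent.W_7d29a1_SP
open Pool.Agent.W_7d29a1_SP.B48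

/-- BETA at one tilt, general bound of the variance. -/
theorem betaK15 {ρ : Measure ℝ} [IsProbabilityMeasure ρ] (hρ : EM ρ) {β : ℝ} (hS : SeqP)
    {h : Vec 2} {c₂ R : ℝ} {N₀ : ℕ} (hc2 : 0 < c₂) {Kf : ℕ → ℝ} (hKm : Monotone Kf)
    (hKf : ∀ t : ℕ, 1 ≤ Kf t) (hN0 : 1000 ≤ N₀) (hL3 : LkK ρ β h c₂ Kf N₀)
    (hvar : ∀ t : ℕ, Va ρ β h t ≤ Kf t)
    (hrate : ∀ n : ℕ, En ρ β h n ≤ R * (n : ℝ) ^ (49 / 100 : ℝ)) {Yf : ℕ → ℝ}
    (hY : Tendsto Yf atTop atTop)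
    (hnum : ∃ e₀ : ℝ, ∀ (n N : ℕ) (e : ℝ), 1 ≤ n → 1 ≤ N → e₀ ≤ e → Yf n ≤ 2 * e →
      (N : ℝ) ≤ n * (2 * e) ^ 2 → Kf (2 * N) ^ 4 ≤ e) :
    ∃ n₀ : ℕ, ∀ n k : ℕ, n₀ ≤ n → k ≤ n → En ρ β h k ≤ Yf n := by
  obtain ⟨e₀, hnum⟩ := hnum
  have hd : 0 < 2 := by norm_num
  -- the sequence
  have hE0 : En ρ β h 0 = 0 := by
    have h1 : ∀ η : Env 2, X β h η 0 = 0 := by
      intro η
      unfold X
      rw [Z_zero, Real.log_one]
    unfold En A
    simp [h1]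
  have hEn : ∀ n, 0 ≤ En ρ β h n := fun n => by
    unfold En
    linarith [A_le_lam hd hρ β h n]
  have hEs : ∀ a b, En ρ β h (a + b) ≤ En ρ β h a + En ρ β h b := fun a b => by
    unfold En
    have := A_add_le hd hρ β h a b
    push_cast
    linarith
  -- the thresholds
  set B : ℝ := ∑ t ∈ Finset.range N₀, En ρ β h t with hB
  have hBt : ∀ t, t < N₀ → En ρ β h t ≤ B := fun t ht =>
    Finset.single_le_sum (f := fun t => En ρ β h t) (fun t _ => hEn t) (Finset.mem_range.2 ht)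
  have hB0 : 0 ≤ B := Finset.sum_nonneg fun t _ => hEn t
  set e₁ : ℝ := |e₀| + B + 1 + 1280 ^ 2 + (12800 / c₂) ^ 2 with he1
  obtain ⟨n₀, hn0⟩ := eventually_atTop.1 (hY.eventually_ge_atTop (2 * e₁))
  refine ⟨max n₀ 1, fun n k hn hk => ?_⟩
  by_contra hcon
  push Not at hcon
  have hY := hn0 n ((le_max_left _ _).trans hn)
  have hn1 : 1 ≤ n := (le_max_right _ _).trans hn
  obtain ⟨Y, hYd⟩ : ∃ Y, Y = Yf n := ⟨_, rfl⟩
  rw [← hYd] at hY hcon
  have hx2' : 0 ≤ (12800 / c₂) ^ 2 := sq_nonneg _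
  have hx1' : 0 ≤ |e₀| := abs_nonneg _
  have hY1 : 1 ≤ Y := by linarith
  have hk0 : 0 < En ρ β h k := by linarith
  obtain ⟨N, e, hN1, he0, hNe, hNt, hke, hNn, hbig⟩ :=
    hS (fun n => En ρ β h n) R hE0 hEn hEs hrate n k hk hk0
  have hx1 : 0 ≤ |e₀| := abs_nonneg _
  have hx2 : 0 ≤ (12800 / c₂) ^ 2 := sq_nonneg _
  have hee : e₁ < e := by linarith
  have hNN : N₀ ≤ N := by
    by_contra hlt
    push Not at hlt
    obtain ⟨t, htN, hte⟩ := hNt
    have := hBt t (by omega)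
    linarith
  have h2e : (N : ℝ) ≤ n * (2 * e) ^ 2 := by
    refine le_trans ?_ hNn
    have h1 : 1 ≤ En ρ β h k ^ 2 := by nlinarith
    have h2 : (0 : ℝ) ≤ N := Nat.cast_nonneg _
    nlinarith
  have hK4 : Kf (2 * N) ^ 4 ≤ e :=
    hnum n N e hn1 hN1 (by
      have := le_abs_self e₀
      linarith) (by linarith) h2e
  set K : ℝ := Kf (2 * N) with hKd
  have hK1 : 1 ≤ K := hKf _
  set q : ℝ := K ^ 2 with hq
  have hq1 : K ≤ q := by nlinarith
  have hq2 : q ^ 2 ≤ e := by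
    rw [hq, ← pow_mul]
    exact hK4
  have hq3 : 1280 * q ≤ e := by
    have h1 : (1280 : ℝ) ^ 2 ≤ e := by linarith
    nlinarith [sq_nonneg (e - 1280 * q)]
  have hVa : ∀ t, t ≤ 2 * N → Va ρ β h t ≤ K := fun t ht => (hvar t).trans (hKm ht)
  obtain ⟨L, S, hcard, hSt⟩ := hbig (hN0.trans hNN)
  obtain ⟨m, hm1, hmN, hlk⟩ := hL3 N L e S hNN (by linarith) hNe hNt (fun j hj => by
    have := Fn_le_sqrt hd hρ β h j hK1 (hVa j hj)
    rw [le_div_iff₀ (by norm_num)]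
    linarith) hcard hSt
  have hch : (law 2 ρ).real {η | A ρ β h m + e / 80 < X β h η m} ≤ 6400 * K / e ^ 2 := by
    have h1 := cheb13 hd hρ β h m (s := e / 80) (by positivity)
    have h2 : (law 2 ρ).real {η | A ρ β h m + e / 80 < X β h η m} ≤
        (law 2 ρ).real {η | e / 80 ≤ |X β h η m - A ρ β h m|} := by
      refine measureReal_mono (fun η hη => ?_)
      have hη' : A ρ β h m + e / 80 < X β h η m := hη
      show e / 80 ≤ |X β h η m - A ρ β h m|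
      exact le_trans (by linarith) (le_abs_self _)
    have h3 : Va ρ β h m / (e / 80) ^ 2 ≤ 6400 * K / e ^ 2 := by
      rw [div_le_div_iff₀ (by positivity) (by positivity)]
      have h4 := hVa m (by omega)
      have h5 : 0 < e ^ 2 := by positivity
      nlinarith
    exact (h2.trans h1).trans h3
  have hfin := hlk.trans hch
  rw [div_le_div_iff₀ (by positivity) (by positivity)] at hfin
  have h1 : c₂ * e ^ 2 ≤ 6400 * (q * (q + e)) := by
    calc c₂ * e ^ 2 ≤ 6400 * K * (K * (K ^ 2 + e)) := hfin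
      _ = 6400 * (q * (q + e)) := by rw [hq]; ring
  have h2 : c₂ * e ^ 2 ≤ 12800 * q * e := by
    have h3 : q * (q + e) ≤ 2 * q * e := by
      have h4 : q ≤ e := by linarith
      have h5 : 0 ≤ q := by linarith
      nlinarith
    linarith
  have h3 : c₂ * e ≤ 12800 * q := by
    have : c₂ * e * e ≤ 12800 * q * e := by
      calc c₂ * e * e = c₂ * e ^ 2 := by ring
        _ ≤ _ := h2
    exact le_of_mul_le_mul_right this he0
  have h4 : (c₂ * e) ^ 2 ≤ 12800 ^ 2 * e := by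
    calc (c₂ * e) ^ 2 ≤ (12800 * q) ^ 2 := by
          exact pow_le_pow_left₀ (by positivity) h3 2
      _ = 12800 ^ 2 * q ^ 2 := by ring
      _ ≤ _ := by nlinarith
  have h5 : c₂ ^ 2 * e ≤ 12800 ^ 2 := by
    have : c₂ ^ 2 * e * e ≤ 12800 ^ 2 * e := by
      calc c₂ ^ 2 * e * e = (c₂ * e) ^ 2 := by ring
        _ ≤ _ := h4
    exact le_of_mul_le_mul_right this he0
  have h6 : (12800 / c₂) ^ 2 < e := by linarith
  rw [div_pow, div_lt_iff₀ (by positivity)] at h6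
  linarith

end Pool.Agent.W_7d29a1_PL
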