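import Pool.Agent.W_7d29a1_SP.Bas15
import Pool.Agent.W_7d29a1_R34.LowG93
import Pool.Agent.W_7d29a1_Q29.Box98

/-!
BUDGET (helper91): the weights of the lucky futures of many scales, seen from the position of the
polymer at the time `t`.
-/

set_option autoImplicit false

namespace Pool.Agent.W_7d29a1_PL.B91

open MeasureTheory ProbabilityTheory Filter Topology Pool.Agent.W_MP_7d29a1_pr
  Pool.Agent.W_7d29a1_h46 Pool.Agent.W_7d29a1_h46u Pool.Agent.W_7d29a1_D2.B35
  Pool.Agent.W_7d29a1_Q29 Pool.Agent.W_7d29a1_R34 Pool.Agent.W_7d29a1_SP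

variable {d : ℕ} {ρ : Measure ℝ} [IsProbabilityMeasure ρ]

open S98 in
/-- The mean of a function of the future seen from the position at the time `t`. -/
theorem mass91 (hd : 0 < d) {β : ℝ} {h : Vec d} {n t : ℕ} (ht : t ≤ n)
    (R : Finset (Site d)) {N : ℝ} (hN : (R.card : ℝ) ≤ N) {f : Env d → ℝ} (hf : Measurable f)
    (hf0 : ∀ η, 0 ≤ f η) {b : ℝ} (hfb : ∀ η, f η ≤ b) (hfd : DependsOn f (Pa d 0)ᶜ) :
    ∫ η, ∑ y ∈ R, Qt β h n t y η * f (sh t y η) ∂(law d ρ) ≤
      Real.sqrt ((∫ η, f η ^ 2 ∂(law d ρ)) * N * St ρ β h n t) := by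
  set P : Measure (Env d) := law d ρ with hP
  have hb0 : 0 ≤ b := (hf0 0).trans (hfb 0)
  set g : Site d → Env d → ℝ := fun y => cE ρ (Pa d t)ᶜ (Qt β h n t y) with hg
  set V : Site d → Env d → ℝ := fun y η => f (sh t y η) with hV
  have hgm : ∀ y, Measurable (g y) := fun y => S98.measurable_cE (measurable_Qt β h n t y) _
  have hg0 : ∀ y η, 0 ≤ g y η := fun y η => S98.cE_nonneg (fun η => Qt_nonneg hd β h n t y η) _ η
  have hg1 : ∀ y η, g y η ≤ 1 := fun y η => cE_le_one (measurable_Qt β h n t y)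
    (fun η => Qt_nonneg hd β h n t y η) (fun η => Qt_le_one hd β h ht y η) _ η
  have hVm : ∀ y, Measurable (V y) := fun y => hf.comp (measurable_sh t y)
  have hV0 : ∀ y η, 0 ≤ V y η := fun y η => hf0 _
  have hV1 : ∀ y η, V y η ≤ b := fun y η => hfb _
  have bdd : ∀ {F : Env d → ℝ} {B : ℝ}, Measurable F → (∀ η, 0 ≤ F η) → (∀ η, F η ≤ B) →
      Integrable F P := by
    intro F B hF h0 h1
    refine Integrable.mono' (integrable_const B) hF.aestronglyMeasurable
      (Eventually.of_forall fun η => ?_)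
    rw [Real.norm_eq_abs, abs_of_nonneg (h0 η)]
    exact h1 η
  have hVd : ∀ y, DependsOn (V y) (Pa d t)ᶜ := by
    intro y η η' hη
    simp only [hV]
    refine hfd fun p hp => ?_
    have h1 : 0 < p.1 := by
      by_contra h2
      exact hp (by simp only [Pa, Set.mem_setOf_eq]; omega)
    refine hη _ ?_
    intro h2
    simp only [Pa, Set.mem_setOf_eq] at h2
    omega
  have hQVi : ∀ y, Integrable (fun η => V y η * Qt β h n t y η) P := fun y =>
    bdd (B := b) ((hVm y).mul (measurable_Qt β h n t y))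
      (fun η => mul_nonneg (hV0 y η) (Qt_nonneg hd β h n t y η))
      (fun η => by
        have h1 := Qt_nonneg hd β h n t y η
        have h2 := Qt_le_one hd β h ht y η
        have h3 := hV0 y η
        have h4 := hV1 y η
        nlinarith)
  have hgVi : ∀ y, Integrable (fun η => V y η * g y η) P := fun y =>
    bdd (B := b) ((hVm y).mul (hgm y)) (fun η => mul_nonneg (hV0 y η) (hg0 y η))
      (fun η => by
        have h1 := hg0 y η
        have h2 := hg1 y η
        have h3 := hV0 y η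
        have h4 := hV1 y η
        nlinarith)
  have hg2i : ∀ y, Integrable (fun η => g y η ^ 2) P := fun y =>
    bdd (B := 1) ((hgm y).pow_const 2) (fun η => sq_nonneg _)
      (fun η => pow_le_one₀ (hg0 y η) (hg1 y η))
  have hV2i : ∀ y, Integrable (fun η => V y η ^ 2) P := fun y =>
    bdd (B := b ^ 2) ((hVm y).pow_const 2) (fun η => sq_nonneg _)
      (fun η => pow_le_pow_left₀ (hV0 y η) (hV1 y η) 2)
  have hN0 : 0 ≤ N := (Nat.cast_nonneg _).trans hN
  have hoff : ∀ y, y ∉ boxF d n → ∀ η, g y η = 0 := by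
    intro y hy η
    have hy' : y ∉ boxF d t := fun h1 => hy (boxF_mono ht h1)
    simp only [hg]
    unfold cE
    simp only [Qt_off hy']
    simp
  have hsum : ∑ y ∈ R, ∫ η, g y η ^ 2 ∂P ≤ St ρ β h n t := by
    unfold St
    rw [integral_finsetSum _ fun y _ => hg2i y]
    classical
    have h1 : ∑ y ∈ R, ∫ η, g y η ^ 2 ∂P = ∑ y ∈ R ∩ boxF d n, ∫ η, g y η ^ 2 ∂P := by
      symm
      refine Finset.sum_subset Finset.inter_subset_left fun y hy hy' => ?_
      have h2 : y ∉ boxF d n := fun h3 => hy' (Finset.mem_inter.2 ⟨hy, h3⟩)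
      simp only [hoff y h2]
      simp
    rw [h1]
    exact Finset.sum_le_sum_of_subset_of_nonneg Finset.inter_subset_right
      fun _ _ _ => integral_nonneg fun _ => sq_nonneg _
  have hS0 : 0 ≤ St ρ β h n t := le_trans (Finset.sum_nonneg fun y _ =>
    integral_nonneg fun _ => sq_nonneg _) hsum
  have e0 : ∫ η, ∑ y ∈ R, Qt β h n t y η * f (sh t y η) ∂P =
      ∑ y ∈ R, ∫ η, V y η * g y η ∂P := by
    have e1 : ∀ η, ∑ y ∈ R, Qt β h n t y η * f (sh t y η) =
        ∑ y ∈ R, V y η * Qt β h n t y η := fun η =>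
      Finset.sum_congr rfl fun y _ => mul_comm _ _
    simp only [e1]
    rw [integral_finsetSum _ fun y _ => hQVi y]
    exact Finset.sum_congr rfl fun y _ => S98.int_mul_cE _ (hQVi y) (hVd y)
  have hp : ∀ y, ∫ η, V y η ^ 2 ∂P = ∫ η, f η ^ 2 ∂P := fun y =>
    integral_sh t y (F := fun η => f η ^ 2) (hf.pow_const 2)
  have hp0 : 0 ≤ ∫ η, f η ^ 2 ∂P := integral_nonneg fun _ => sq_nonneg _
  rw [e0]
  refine S98.sqrt_of_all hS0 (mul_nonneg hp0 hN0) fun s hs => ?_
  have h1 : ∀ y ∈ R, 2 * ∫ η, V y η * g y η ∂P ≤ s * ∫ η, g y η ^ 2 ∂P +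
      (∫ η, f η ^ 2 ∂P) / s := by
    intro y _
    have h2 : ∫ η, 2 * (V y η * g y η) ∂P ≤ ∫ η, (s * g y η ^ 2 + 1 / s * V y η ^ 2) ∂P := by
      refine integral_mono ((hgVi y).const_mul 2) (((hg2i y).const_mul s).add
        ((hV2i y).const_mul (1 / s))) fun η => ?_
      simp only
      set x := V y η
      set z := g y η
      have h5 : 0 ≤ (s * z - x) ^ 2 / s := div_nonneg (sq_nonneg _) hs.le
      have h6 : (s * z - x) ^ 2 / s = s * z ^ 2 + 1 / s * x ^ 2 - 2 * (x * z) := by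
        field_simp
        ring
      linarith
    rw [integral_const_mul, integral_add ((hg2i y).const_mul s) ((hV2i y).const_mul (1 / s)),
      integral_const_mul, integral_const_mul, hp y] at h2
    rw [one_div, inv_mul_eq_div] at h2
    exact h2
  rw [Finset.mul_sum]
  refine (Finset.sum_le_sum h1).trans ?_
  rw [Finset.sum_add_distrib, ← Finset.mul_sum, Finset.sum_const, nsmul_eq_mul]
  have h9 : (R.card : ℝ) * ((∫ η, f η ^ 2 ∂P) / s) ≤ (∫ η, f η ^ 2 ∂P) * N / s := by
    rw [mul_div_assoc']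
    refine div_le_div_of_nonneg_right ?_ hs.le
    nlinarith
  have h11 := mul_le_mul_of_nonneg_left hsum hs.le
  linarith

section Abs

variable {Ω : Type*} [MeasurableSpace Ω] {ι : Type*}

open Classical in
/-- The exponential moment of a weighted number of events which are almost independent. -/
theorem exp91 (μ : Measure Ω) [IsProbabilityMeasure μ] (s : Finset ι) (L : ι → Set Ω)
    (hL : ∀ p ∈ s, MeasurableSet (L p)) (D : ι → ℝ) (c C : ℝ) (hD : ∀ p ∈ s, 0 ≤ c * D p)
    (H : ∀ I : Finset ι, I ⊆ s →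
      μ.real (⋂ p ∈ I, L p) ≤ C ^ I.card * Real.exp (-(c * ∑ p ∈ I, D p))) :
    ∫ ω, Real.exp (c * ∑ p ∈ s, D p * (L p).indicator 1 ω) ∂μ ≤ (1 + C) ^ s.card := by
  have e1 : ∀ ω, Real.exp (c * ∑ p ∈ s, D p * (L p).indicator (1 : Ω → ℝ) ω) =
      ∑ I ∈ s.powerset, (∏ p ∈ I, (Real.exp (c * D p) - 1)) *
        (⋂ p ∈ I, L p).indicator (1 : Ω → ℝ) ω := by
    intro ω
    rw [Finset.mul_sum, Real.exp_sum]
    have h1 : ∀ p ∈ s, Real.exp (c * (D p * (L p).indicator (1 : Ω → ℝ) ω)) =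
        1 + (Real.exp (c * D p) - 1) * (L p).indicator (1 : Ω → ℝ) ω := by
      intro p _
      by_cases hp : ω ∈ L p
      · simp [hp]
      · simp [hp]
    rw [Finset.prod_congr rfl h1, Finset.prod_one_add]
    refine Finset.sum_congr rfl fun I _ => ?_
    rw [Finset.prod_mul_distrib]
    congr 1
    by_cases hI : ∀ p ∈ I, ω ∈ L p
    · rw [Set.indicator_of_mem (by simpa using hI), Pi.one_apply]
      exact Finset.prod_eq_one fun p hp => by simp [hI p hp]
    · rw [Set.indicator_of_notMem (by simpa using hI)]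
      push Not at hI
      obtain ⟨p, hp, hp'⟩ := hI
      exact Finset.prod_eq_zero hp (by simp [hp'])
  have hm : ∀ I ∈ s.powerset, MeasurableSet (⋂ p ∈ I, L p) := fun I hI =>
    Finset.measurableSet_biInter _ fun p hp => hL p (Finset.mem_powerset.1 hI hp)
  have h1i : Integrable (1 : Ω → ℝ) μ := integrable_const 1
  have hmi : ∀ I ∈ s.powerset, Integrable (fun ω => (∏ p ∈ I, (Real.exp (c * D p) - 1)) *
      (⋂ p ∈ I, L p).indicator (1 : Ω → ℝ) ω) μ := fun I hI =>
    (h1i.indicator (hm I hI)).const_mul _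
  simp only [e1]
  rw [integral_finsetSum _ hmi]
  have h2 : ∀ I ∈ s.powerset, ∫ ω, (∏ p ∈ I, (Real.exp (c * D p) - 1)) *
      (⋂ p ∈ I, L p).indicator (1 : Ω → ℝ) ω ∂μ ≤ C ^ I.card := by
    intro I hI
    have hIs := Finset.mem_powerset.1 hI
    rw [integral_const_mul, integral_indicator_one (hm I hI)]
    have h3 : ∏ p ∈ I, (Real.exp (c * D p) - 1) ≤ Real.exp (c * ∑ p ∈ I, D p) := by
      rw [Finset.mul_sum, Real.exp_sum]
      refine Finset.prod_le_prod (fun p hp => ?_) fun p _ => by linarith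
      have := Real.add_one_le_exp (c * D p)
      have := hD p (hIs hp)
      linarith
    have h4 : 0 ≤ ∏ p ∈ I, (Real.exp (c * D p) - 1) := by
      refine Finset.prod_nonneg fun p hp => ?_
      have := Real.add_one_le_exp (c * D p)
      have := hD p (hIs hp)
      linarith
    have h5 := H I hIs
    calc _ ≤ Real.exp (c * ∑ p ∈ I, D p) *
          (C ^ I.card * Real.exp (-(c * ∑ p ∈ I, D p))) :=
          mul_le_mul h3 h5 measureReal_nonneg (Real.exp_pos _).le
      _ = C ^ I.card * (Real.exp (c * ∑ p ∈ I, D p) * Real.exp (-(c * ∑ p ∈ I, D p))) := by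
          ring
      _ = C ^ I.card := by
          rw [← Real.exp_add, add_neg_cancel, Real.exp_zero, mul_one]
  refine (Finset.sum_le_sum h2).trans ?_
  have h6 := Finset.prod_one_add (s := s) (f := fun _ => C)
  simp only [Finset.prod_const] at h6
  rw [h6]

/-- Jensen for a random measure of mass at most `1`. -/
theorem jens91 (μ : Measure Ω) [IsProbabilityMeasure μ] (R : Finset ι) (w g : ι → Ω → ℝ)
    (hw : ∀ y ∈ R, ∀ ω, 0 ≤ w y ω) (hw1 : ∀ ω, ∑ y ∈ R, w y ω ≤ 1)
    (hi : ∀ y ∈ R, Integrable (fun ω => w y ω * g y ω) μ)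
    (hie : ∀ y ∈ R, Integrable (fun ω => w y ω * Real.exp (g y ω)) μ) :
    ∫ ω, ∑ y ∈ R, w y ω * g y ω ∂μ ≤
      Real.log (1 + ∫ ω, ∑ y ∈ R, w y ω * Real.exp (g y ω) ∂μ) := by
  set M := 1 + ∫ ω, ∑ y ∈ R, w y ω * Real.exp (g y ω) ∂μ with hM
  have h0 : 0 ≤ ∫ ω, ∑ y ∈ R, w y ω * Real.exp (g y ω) ∂μ := integral_nonneg fun ω =>
    Finset.sum_nonneg fun y hy => mul_nonneg (hw y hy ω) (Real.exp_pos _).le
  have hM1 : 1 ≤ M := by linarith
  have hM0 : 0 < M := by linarith
  have key : ∀ x : ℝ, x ≤ Real.log M - 1 + Real.exp x / M := by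
    intro x
    have h1 := Real.add_one_le_exp (x - Real.log M)
    rw [Real.exp_sub, Real.exp_log hM0] at h1
    linarith
  have h2 : ∀ ω, ∑ y ∈ R, w y ω * g y ω ≤
      Real.log M - 1 + (1 + ∑ y ∈ R, w y ω * Real.exp (g y ω)) / M := by
    intro ω
    have h3 : ∑ y ∈ R, w y ω * g y ω ≤ ∑ y ∈ R, w y ω * (Real.log M - 1 +
        Real.exp (g y ω) / M) := Finset.sum_le_sum fun y hy =>
      mul_le_mul_of_nonneg_left (key _) (hw y hy ω)
    have h4 : ∑ y ∈ R, w y ω * (Real.log M - 1 + Real.exp (g y ω) / M) =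
        (∑ y ∈ R, w y ω) * (Real.log M - 1) +
          (∑ y ∈ R, w y ω * Real.exp (g y ω)) / M := by
      rw [Finset.sum_mul, Finset.sum_div, ← Finset.sum_add_distrib]
      exact Finset.sum_congr rfl fun y _ => by ring
    have h5 := key 0
    rw [Real.exp_zero] at h5
    have h6 := hw1 ω
    have h7 : 0 ≤ ∑ y ∈ R, w y ω := Finset.sum_nonneg fun y hy => hw y hy ω
    have h8 : (∑ y ∈ R, w y ω) * (Real.log M - 1) ≤ (Real.log M - 1) +
        (1 - ∑ y ∈ R, w y ω) * (1 / M) := by nlinarith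
    have h9 : (1 - ∑ y ∈ R, w y ω) * (1 / M) ≤ 1 / M := by
      have : 0 ≤ 1 / M := by positivity
      nlinarith
    rw [h4] at h3
    rw [add_div]
    linarith
  have hi1 : Integrable (fun ω => ∑ y ∈ R, w y ω * g y ω) μ := integrable_finsetSum _ hi
  have hi2 : Integrable (fun ω => ∑ y ∈ R, w y ω * Real.exp (g y ω)) μ :=
    integrable_finsetSum _ hie
  have hi3 : Integrable (fun ω => 1 + ∑ y ∈ R, w y ω * Real.exp (g y ω)) μ :=
    (integrable_const (1 : ℝ)).add hi2
  have hi4 : Integrable (fun ω => (1 + ∑ y ∈ R, w y ω * Real.exp (g y ω)) / M) μ :=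
    hi3.div_const M
  have h3 : ∫ ω, ∑ y ∈ R, w y ω * g y ω ∂μ ≤
      ∫ ω, (Real.log M - 1 + (1 + ∑ y ∈ R, w y ω * Real.exp (g y ω)) / M) ∂μ :=
    integral_mono hi1 ((integrable_const (Real.log M - 1)).add hi4) h2
  rw [integral_add (integrable_const _) hi4, integral_div,
    integral_add (integrable_const _) hi2] at h3
  simp only [integral_const, probReal_univ, smul_eq_mul, one_mul] at h3
  rw [← hM, div_self hM0.ne'] at h3
  linarith

end Abs

open Classical in
open S98 in
/-- BUDGET, from a bound of the exponential moment: the weights `D p` of the events `L p` of the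
future, seen from the position of the polymer of length `n` at the time `t` in the set `R`. -/
theorem bud91e (hd : 0 < d) {β : ℝ} {h : Vec d} {n t : ℕ} (ht : t ≤ n)
    (R : Finset (Site d)) {N : ℝ} (hN : (R.card : ℝ) ≤ N) {ι : Type*} (s : Finset ι)
    (L : ι → Set (Env d)) (hL : ∀ p ∈ s, MeasurableSet (L p))
    (hLd : ∀ p ∈ s, DependsOn (fun η => (L p).indicator (1 : Env d → ℝ) η) (Pa d 0)ᶜ)
    (D : ι → ℝ) (c K : ℝ) (hc : 0 ≤ c) (hD : ∀ p ∈ s, 0 ≤ D p)
    (H : ∫ η, Real.exp (c * ∑ p ∈ s, D p * (L p).indicator 1 η) ∂(law d ρ) ≤ K) :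
    c / 2 * ∑ p ∈ s, D p * ∫ η, ∑ y ∈ R, Qt β h n t y η *
        (L p).indicator 1 (sh t y η) ∂(law d ρ) ≤
      Real.log (1 + Real.sqrt (K * N * St ρ β h n t)) := by
  set P : Measure (Env d) := law d ρ with hP
  set G : Env d → ℝ := fun η => c / 2 * ∑ p ∈ s, D p * (L p).indicator 1 η with hG
  have hGm : Measurable G := by
    refine Measurable.const_mul (Finset.measurable_sum _ fun p hp => ?_) _
    exact (measurable_one.indicator (hL p hp)).const_mul _
  have hI0 : ∀ (p : ι) (η : Env d), 0 ≤ (L p).indicator (1 : Env d → ℝ) η := fun p η =>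
    Set.indicator_nonneg (fun _ _ => zero_le_one) _
  have hI1 : ∀ (p : ι) (η : Env d), (L p).indicator (1 : Env d → ℝ) η ≤ 1 := fun p η =>
    Set.indicator_le_self' (fun _ _ => zero_le_one) _
  have hG0 : ∀ η, 0 ≤ G η := fun η => mul_nonneg (by positivity)
    (Finset.sum_nonneg fun p hp => mul_nonneg (hD p hp) (hI0 p η))
  set B : ℝ := c / 2 * ∑ p ∈ s, D p with hB
  have hG1 : ∀ η, G η ≤ B := fun η => mul_le_mul_of_nonneg_left
    (Finset.sum_le_sum fun p hp => by
      have := hI1 p η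
      have := hI0 p η
      have := hD p hp
      nlinarith) (by positivity)
  have hGd : DependsOn G (Pa d 0)ᶜ := by
    intro η η' hη
    simp only [hG]
    congr 1
    refine Finset.sum_congr rfl fun p hp => ?_
    have := hLd p hp hη
    simp only at this
    rw [this]
  have hQ0 : ∀ (y : Site d) (η : Env d), 0 ≤ Qt β h n t y η := fun y η =>
    Qt_nonneg hd β h n t y η
  have hQ1 : ∀ (y : Site d) (η : Env d), Qt β h n t y η ≤ 1 := fun y η =>
    Qt_le_one hd β h ht y η
  have bdd : ∀ {F : Env d → ℝ} {B : ℝ}, Measurable F → (∀ η, 0 ≤ F η) → (∀ η, F η ≤ B) →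
      Integrable F P := by
    intro F B hF h0 h1
    refine Integrable.mono' (integrable_const B) hF.aestronglyMeasurable
      (Eventually.of_forall fun η => ?_)
    rw [Real.norm_eq_abs, abs_of_nonneg (h0 η)]
    exact h1 η
  have hint : ∀ {F : Env d → ℝ} {B : ℝ}, Measurable F → (∀ η, 0 ≤ F η) → (∀ η, F η ≤ B) →
      ∀ y : Site d, Integrable (fun η => Qt β h n t y η * F (sh t y η)) P := by
    intro F B hF h0 h1 y
    refine bdd (B := B) ((measurable_Qt β h n t y).mul (hF.comp (measurable_sh t y)))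
      (fun η => mul_nonneg (hQ0 y η) (h0 _)) fun η => ?_
    have := hQ0 y η
    have := hQ1 y η
    have := h0 (sh t y η)
    have := h1 (sh t y η)
    nlinarith
  have hw1 : ∀ η, ∑ y ∈ R, Qt β h n t y η ≤ 1 := by
    intro η
    rw [← Qt_sum hd β h ht η]
    have h1 : ∑ y ∈ R, Qt β h n t y η = ∑ y ∈ R ∩ boxF d t, Qt β h n t y η := by
      symm
      refine Finset.sum_subset Finset.inter_subset_left fun y hy hy' => ?_
      exact Qt_off (fun h3 => hy' (Finset.mem_inter.2 ⟨hy, h3⟩)) η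
    rw [h1]
    exact Finset.sum_le_sum_of_subset_of_nonneg Finset.inter_subset_right
      fun y _ _ => hQ0 y η
  have hem : Measurable fun η => Real.exp (G η) := hGm.exp
  have he0 : ∀ η, 0 ≤ Real.exp (G η) := fun η => (Real.exp_pos _).le
  have he1 : ∀ η, Real.exp (G η) ≤ Real.exp B := fun η => Real.exp_le_exp.2 (hG1 η)
  have h1 := jens91 P R (fun y η => Qt β h n t y η) (fun y η => G (sh t y η))
    (fun y _ η => hQ0 y η) hw1 (fun y _ => hint hGm hG0 hG1 y)
    (fun y _ => hint hem he0 he1 y)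
  have h2 := mass91 (ρ := ρ) hd (β := β) (h := h) ht R hN hem he0 he1 (by
    intro η η' hη
    have := hGd hη
    simp only
    rw [this])
  have h3 : ∫ η, Real.exp (G η) ^ 2 ∂P ≤ K := by
    have h5 : ∀ η, Real.exp (G η) ^ 2 =
        Real.exp (c * ∑ p ∈ s, D p * (L p).indicator (1 : Env d → ℝ) η) := by
      intro η
      rw [← Real.exp_nat_mul]
      congr 1
      simp only [hG]
      push_cast
      ring
    simp only [h5]
    exact H
  have hN0 : 0 ≤ N := (Nat.cast_nonneg _).trans hN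
  have hS0 : 0 ≤ St ρ β h n t := by
    unfold St
    exact integral_nonneg fun η => Finset.sum_nonneg fun y _ => sq_nonneg _
  have h6 : Real.sqrt ((∫ η, Real.exp (G η) ^ 2 ∂P) * N * St ρ β h n t) ≤
      Real.sqrt (K * N * St ρ β h n t) := by
    refine Real.sqrt_le_sqrt ?_
    exact mul_le_mul_of_nonneg_right (mul_le_mul_of_nonneg_right h3 hN0) hS0
  have h7 : 0 ≤ ∫ η, ∑ y ∈ R, Qt β h n t y η * Real.exp (G (sh t y η)) ∂P :=
    integral_nonneg fun η => Finset.sum_nonneg fun y _ => mul_nonneg (hQ0 y η) (he0 _)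
  have h8 : c / 2 * ∑ p ∈ s, D p * ∫ η, ∑ y ∈ R, Qt β h n t y η *
      (L p).indicator 1 (sh t y η) ∂P = ∫ η, ∑ y ∈ R, Qt β h n t y η * G (sh t y η) ∂P := by
    have e1 : ∀ η, ∑ y ∈ R, Qt β h n t y η * G (sh t y η) =
        c / 2 * ∑ p ∈ s, D p * ∑ y ∈ R, Qt β h n t y η *
          (L p).indicator (1 : Env d → ℝ) (sh t y η) := by
      intro η
      simp only [hG, Finset.mul_sum]
      rw [Finset.sum_comm]
      refine Finset.sum_congr rfl fun p _ => Finset.sum_congr rfl fun y _ => ?_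
      ring
    have hpi : ∀ p ∈ s, Integrable (fun η => ∑ y ∈ R, Qt β h n t y η *
        (L p).indicator (1 : Env d → ℝ) (sh t y η)) P := fun p hp =>
      integrable_finsetSum _ fun y _ =>
        hint (measurable_one.indicator (hL p hp)) (hI0 p) (hI1 p) y
    simp only [e1]
    rw [integral_const_mul, integral_finsetSum _ fun p hp => (hpi p hp).const_mul _]
    congr 1
    exact Finset.sum_congr rfl fun p _ => by rw [integral_const_mul]
  rw [h8]
  refine h1.trans (Real.log_le_log (by linarith) ?_)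
  have h9 := h2.trans h6
  linarith

open Classical in
/-- BUDGET, from the probabilities of the intersections. -/
theorem bud91 (hd : 0 < d) {β : ℝ} {h : Vec d} {n t : ℕ} (ht : t ≤ n)
    (R : Finset (Site d)) {N : ℝ} (hN : (R.card : ℝ) ≤ N) {ι : Type*} (s : Finset ι)
    (L : ι → Set (Env d)) (hL : ∀ p ∈ s, MeasurableSet (L p))
    (hLd : ∀ p ∈ s, DependsOn (fun η => (L p).indicator (1 : Env d → ℝ) η) (Pa d 0)ᶜ)
    (D : ι → ℝ) (c C : ℝ) (hc : 0 ≤ c) (hD : ∀ p ∈ s, 0 ≤ D p)
    (H : ∀ I : Finset ι, I ⊆ s →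
      (law d ρ).real (⋂ p ∈ I, L p) ≤ C ^ I.card * Real.exp (-(c * ∑ p ∈ I, D p))) :
    c / 2 * ∑ p ∈ s, D p * ∫ η, ∑ y ∈ R, Qt β h n t y η *
        (L p).indicator 1 (sh t y η) ∂(law d ρ) ≤
      Real.log (1 + Real.sqrt ((1 + C) ^ s.card * N * St ρ β h n t)) :=
  bud91e hd ht R hN s L hL hLd D c _ hc hD
    (exp91 (law d ρ) s L hL D c C (fun p hp => mul_nonneg hc (hD p hp)) H)

end Pool.Agent.W_7d29a1_PL.B91
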