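import Pool.Agent.W_7d29a1_PL.Bud91

/-!
PICK (helper91): from the usage of the events averaged over the times to the budget at one good
time.
-/

set_option autoImplicit false

namespace Pool.Agent.W_7d29a1_PL.B91

open MeasureTheory ProbabilityTheory Filter Topology Pool.Agent.W_MP_7d29a1_pr
  Pool.Agent.W_7d29a1_h46 Pool.Agent.W_7d29a1_h46u Pool.Agent.W_7d29a1_D2.B35
  Pool.Agent.W_7d29a1_Q29 Pool.Agent.W_7d29a1_R34 Pool.Agent.W_7d29a1_SP

/-- A good time. -/
lemma time91 {n : ℕ} (hn : 1 ≤ n) (T : Finset ℕ) (hT : T ⊆ Finset.Icc 1 n)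
    (hTc : (19 / 20 : ℝ) * n ≤ T.card) (S a : ℕ → ℝ) {M W₀ : ℝ} (hS0 : ∀ t, 0 ≤ S t)
    (hS : ∑ t ∈ Finset.Icc 1 n, S t ≤ M) (hWd : 0 ≤ W₀)
    (ha1 : ∀ t ∈ Finset.Icc 1 n, a t ≤ W₀)
    (hU : (2 / 5 : ℝ) * n * W₀ ≤ ∑ t ∈ Finset.Icc 1 n, a t) :
    ∃ t ∈ T, S t ≤ 20 * M / n ∧ (3 / 10 : ℝ) * W₀ ≤ a t := by
  classical
  have hn0 : (0 : ℝ) < n := by exact_mod_cast hn
  have hM : 0 ≤ M := (Finset.sum_nonneg fun t _ => hS0 t).trans hS
  by_contra hcon
  push Not at hcon
  set G := T.filter fun t => S t ≤ 20 * M / n with hG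
  have hcI : ((Finset.Icc 1 n).card : ℝ) = n := by
    rw [Nat.card_Icc]
    simp
  have hGT : G ⊆ Finset.Icc 1 n := (Finset.filter_subset _ _).trans hT
  have hbad : (((Finset.Icc 1 n) \ G).card : ℝ) ≤ n / 10 := by
    have h1 : (Finset.Icc 1 n) \ G ⊆
        ((Finset.Icc 1 n) \ T) ∪ (Finset.Icc 1 n).filter fun t => 20 * M / n < S t := by
      intro t ht
      rw [Finset.mem_sdiff] at ht
      rw [Finset.mem_union, Finset.mem_sdiff, Finset.mem_filter]
      by_cases h2 : t ∈ T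
      · right
        refine ⟨ht.1, ?_⟩
        by_contra h3
        exact ht.2 (Finset.mem_filter.2 ⟨h2, not_lt.1 h3⟩)
      · exact Or.inl ⟨ht.1, h2⟩
    have h2 : (((Finset.Icc 1 n) \ T).card : ℝ) ≤ n / 20 := by
      have h3 := Finset.card_sdiff_add_card_eq_card hT
      have h4 : (((Finset.Icc 1 n) \ T).card : ℝ) + T.card = n := by
        rw [← hcI]
        exact_mod_cast h3
      linarith
    have h3 : (((Finset.Icc 1 n).filter fun t => 20 * M / n < S t).card : ℝ) ≤ n / 20 := by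
      set F := (Finset.Icc 1 n).filter fun t => 20 * M / n < S t with hF
      have h4 : (F.card : ℝ) * (20 * M / n) ≤ ∑ t ∈ F, S t := by
        rw [← nsmul_eq_mul, ← Finset.sum_const]
        exact Finset.sum_le_sum fun t ht => (Finset.mem_filter.1 ht).2.le
      have h5 : ∑ t ∈ F, S t ≤ M := (Finset.sum_le_sum_of_subset_of_nonneg
        (Finset.filter_subset _ _) fun t _ _ => hS0 t).trans hS
      rcases hM.eq_or_lt with h6 | h6
      · have h7 : F = ∅ := by
          rw [Finset.filter_eq_empty_iff]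
          intro t ht h8
          rw [← h6] at h8 hS
          have h9 := Finset.single_le_sum (fun t _ => hS0 t) ht
          simp only [mul_zero, zero_div] at h8
          linarith
        rw [h7]
        simp only [Finset.card_empty, Nat.cast_zero]
        positivity
      · have h7 : (F.card : ℝ) * (20 * M / n) ≤ M := h4.trans h5
        have h8 : (F.card : ℝ) * 20 ≤ n := by
          have h9 : (F.card : ℝ) * (20 * M / n) = F.card * 20 / n * M := by ring
          rw [h9] at h7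
          have h10 : (F.card : ℝ) * 20 / n ≤ 1 := by
            by_contra h11
            push Not at h11
            nlinarith
          rwa [div_le_one hn0] at h10
        linarith
    have h4 := (Finset.card_le_card h1).trans (Finset.card_union_le _ _)
    have h5 : (((Finset.Icc 1 n) \ G).card : ℝ) ≤ (((Finset.Icc 1 n) \ T).card : ℝ) +
        (((Finset.Icc 1 n).filter fun t => 20 * M / n < S t).card : ℝ) := by exact_mod_cast h4
    linarith
  have h1 : ∑ t ∈ Finset.Icc 1 n, a t = ∑ t ∈ (Finset.Icc 1 n) \ G, a t + ∑ t ∈ G, a t :=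
    (Finset.sum_sdiff hGT).symm
  have h2 : ∑ t ∈ (Finset.Icc 1 n) \ G, a t ≤ n / 10 * W₀ := by
    calc _ ≤ ∑ _t ∈ (Finset.Icc 1 n) \ G, W₀ := Finset.sum_le_sum fun t ht =>
          ha1 t (Finset.sdiff_subset ht)
      _ = (((Finset.Icc 1 n) \ G).card : ℝ) * W₀ := by rw [Finset.sum_const, nsmul_eq_mul]
      _ ≤ _ := mul_le_mul_of_nonneg_right hbad hWd
  have hGc : (G.card : ℝ) ≤ n := by
    rw [← hcI]
    exact_mod_cast Finset.card_le_card hGT
  have hG1 : 0 < (G.card : ℝ) := by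
    have h3 := Finset.card_sdiff_add_card_eq_card hGT
    have h4 : (((Finset.Icc 1 n) \ G).card : ℝ) + G.card = n := by
      rw [← hcI]
      exact_mod_cast h3
    linarith
  have hGne : G.Nonempty := Finset.card_pos.1 (by exact_mod_cast hG1)
  have h3 : ∑ t ∈ G, a t < ∑ _t ∈ G, (3 / 10 : ℝ) * W₀ := by
    refine Finset.sum_lt_sum_of_nonempty hGne fun t ht => ?_
    have h4 := Finset.mem_filter.1 ht
    exact hcon t h4.1 h4.2
  rw [Finset.sum_const, nsmul_eq_mul] at h3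
  have h5 : (G.card : ℝ) * (3 / 10 * W₀) ≤ n * (3 / 10 * W₀) :=
    mul_le_mul_of_nonneg_right hGc (by positivity)
  nlinarith

variable {d : ℕ} {ρ : Measure ℝ} [IsProbabilityMeasure ρ]

open Classical in
open S98 in
/-- The mass of the positions outside of `R`. -/
lemma leak91 (hd : 0 < d) {β : ℝ} {h : Vec d} {n t : ℕ} (ht : t ≤ n) (R : Finset (Site d))
    (F : Env d → ℝ) (hF1 : ∀ η, F η ≤ 1) (η : Env d) :
    ∑ y ∈ boxF d n, Qt β h n t y η * F (sh t y η) ≤
      ∑ y ∈ R, Qt β h n t y η * F (sh t y η) + (1 - ∑ y ∈ R, Qt β h n t y η) := by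
  have hQ0 : ∀ y : Site d, 0 ≤ Qt β h n t y η := fun y => Qt_nonneg hd β h n t y η
  have e1 : ∀ f : Site d → ℝ, ∑ y ∈ R, Qt β h n t y η * f y =
      ∑ y ∈ R ∩ boxF d n, Qt β h n t y η * f y := by
    intro f
    symm
    refine Finset.sum_subset Finset.inter_subset_left fun y hy hy' => ?_
    rw [Qt_off (fun h3 => hy' (Finset.mem_inter.2 ⟨hy, boxF_mono ht h3⟩)) η, zero_mul]
  have e2 := e1 fun _ => 1
  simp only [mul_one] at e2
  rw [e1 fun y => F (sh t y η), e2, ← Qt_sum' hd β h ht η]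
  have h1 : ∀ f : Site d → ℝ, ∑ y ∈ boxF d n, Qt β h n t y η * f y =
      ∑ y ∈ boxF d n \ (R ∩ boxF d n), Qt β h n t y η * f y +
        ∑ y ∈ R ∩ boxF d n, Qt β h n t y η * f y := fun f =>
    (Finset.sum_sdiff Finset.inter_subset_right).symm
  have h2 := h1 fun y => F (sh t y η)
  have h3 := h1 fun _ => 1
  simp only [mul_one] at h3
  rw [h2, h3]
  have h4 : ∑ y ∈ boxF d n \ (R ∩ boxF d n), Qt β h n t y η * F (sh t y η) ≤
      ∑ y ∈ boxF d n \ (R ∩ boxF d n), Qt β h n t y η :=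
    Finset.sum_le_sum fun y _ => mul_le_of_le_one_right (hQ0 y) (hF1 _)
  linarith

open Classical in
open S98 in
/-- PICK: the usage `2/5` of every event, averaged over the times `1, ..., n`, windows `R t` with
leak `1/8` at `95` per cent of the times and the Newman-Piza sum give the budget. -/
theorem pick91 (hd : 0 < d) {β : ℝ} {h : Vec d} {n : ℕ} (hn : 1 ≤ n) {M N K : ℝ}
    (hS : ∑ t ∈ Finset.Icc 1 n, St ρ β h n t ≤ M) (T : Finset ℕ) (hT : T ⊆ Finset.Icc 1 n)
    (hTc : (19 / 20 : ℝ) * n ≤ T.card) (R : ℕ → Finset (Site d))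
    (hR : ∀ t ∈ T, ((R t).card : ℝ) ≤ N)
    (hleak : ∀ t ∈ T, ∫ η, (1 - ∑ y ∈ R t, Qt β h n t y η) ∂(law d ρ) ≤ 1 / 8)
    {ι : Type*} (s : Finset ι) (L : ι → Set (Env d)) (hL : ∀ p ∈ s, MeasurableSet (L p))
    (hLd : ∀ p ∈ s, DependsOn (fun η => (L p).indicator (1 : Env d → ℝ) η) (Pa d 0)ᶜ)
    (D : ι → ℝ) {c : ℝ} (hc : 0 ≤ c) (hD : ∀ p ∈ s, 0 ≤ D p)
    (H : ∫ η, Real.exp (c * ∑ p ∈ s, D p * (L p).indicator 1 η) ∂(law d ρ) ≤ K)
    (hU : ∀ p ∈ s, (2 / 5 : ℝ) * n ≤ ∑ t ∈ Finset.Icc 1 n, ∫ η, ∑ y ∈ boxF d n,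
      Qt β h n t y η * (L p).indicator 1 (sh t y η) ∂(law d ρ)) :
    c / 16 * ∑ p ∈ s, D p ≤ Real.log (1 + Real.sqrt (K * N * (20 * M / n))) := by
  set P : Measure (Env d) := law d ρ with hP
  have hI0 : ∀ (p : ι) (η : Env d), 0 ≤ (L p).indicator (1 : Env d → ℝ) η := fun p η =>
    Set.indicator_nonneg (fun _ _ => zero_le_one) _
  have hI1 : ∀ (p : ι) (η : Env d), (L p).indicator (1 : Env d → ℝ) η ≤ 1 := fun p η =>
    Set.indicator_le_self' (fun _ _ => zero_le_one) _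
  have hQ0 : ∀ (t : ℕ) (y : Site d) (η : Env d), 0 ≤ Qt β h n t y η := fun t y η =>
    Qt_nonneg hd β h n t y η
  have hS0 : ∀ t, 0 ≤ St ρ β h n t := by
    intro t
    unfold St
    exact integral_nonneg fun η => Finset.sum_nonneg fun y _ => sq_nonneg _
  have bdd : ∀ {F : Env d → ℝ} {B : ℝ}, Measurable F → (∀ η, 0 ≤ F η) → (∀ η, F η ≤ B) →
      Integrable F P := by
    intro F B hF h0 h1
    refine Integrable.mono' (integrable_const B) hF.aestronglyMeasurable
      (Eventually.of_forall fun η => ?_)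
    rw [Real.norm_eq_abs, abs_of_nonneg (h0 η)]
    exact h1 η
  have hint : ∀ p ∈ s, ∀ t, t ≤ n → ∀ y : Site d, Integrable (fun η => Qt β h n t y η *
      (L p).indicator (1 : Env d → ℝ) (sh t y η)) P := by
    intro p hp t ht y
    refine bdd (B := 1) ((measurable_Qt β h n t y).mul
      ((measurable_one.indicator (hL p hp)).comp (measurable_sh t y)))
      (fun η => mul_nonneg (hQ0 t y η) (hI0 p _)) fun η => ?_
    have := hQ0 t y η
    have := Qt_le_one hd β h ht y η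
    have := hI0 p (sh t y η)
    have := hI1 p (sh t y η)
    nlinarith
  set U : ι → ℕ → ℝ := fun p t => ∫ η, ∑ y ∈ boxF d n,
      Qt β h n t y η * (L p).indicator 1 (sh t y η) ∂P with hUd
  have hU0 : ∀ p t, 0 ≤ U p t := fun p t => integral_nonneg fun η =>
    Finset.sum_nonneg fun y _ => mul_nonneg (hQ0 t y η) (hI0 p _)
  have hU1 : ∀ p ∈ s, ∀ t, t ≤ n → U p t ≤ 1 := by
    intro p hp t ht
    have h1 : U p t ≤ ∫ _η, (1 : ℝ) ∂P := by
      refine integral_mono (integrable_finsetSum _ fun y _ => hint p hp t ht y)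
        (integrable_const 1) fun η => ?_
      simp only
      rw [← Qt_sum' hd β h ht η]
      exact Finset.sum_le_sum fun y _ => mul_le_of_le_one_right (hQ0 t y η) (hI1 p _)
    simpa using h1
  set W₀ : ℝ := ∑ p ∈ s, D p with hWd
  have hW0 : 0 ≤ W₀ := Finset.sum_nonneg hD
  set a : ℕ → ℝ := fun t => ∑ p ∈ s, D p * U p t with ha
  have ha0 : ∀ t, 0 ≤ a t := fun t => Finset.sum_nonneg fun p hp =>
    mul_nonneg (hD p hp) (hU0 p t)
  have ha1 : ∀ t ∈ Finset.Icc 1 n, a t ≤ W₀ := fun t ht => Finset.sum_le_sum fun p hp =>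
    mul_le_of_le_one_right (hD p hp) (hU1 p hp t (Finset.mem_Icc.1 ht).2)
  have hUs : (2 / 5 : ℝ) * n * W₀ ≤ ∑ t ∈ Finset.Icc 1 n, a t := by
    simp only [ha]
    rw [Finset.sum_comm, hWd, Finset.mul_sum]
    refine Finset.sum_le_sum fun p hp => ?_
    rw [← Finset.mul_sum, mul_comm]
    exact mul_le_mul_of_nonneg_left (hU p hp) (hD p hp)
  obtain ⟨t, htT, hSt, hat⟩ := time91 hn T hT hTc (fun t => St ρ β h n t) a hS0 hS hW0 ha1 hUs
  have htn : t ≤ n := (Finset.mem_Icc.1 (hT htT)).2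
  have h1 := bud91e (ρ := ρ) hd (β := β) (h := h) htn (R t) (hR t htT) s L hL hLd D c K hc hD H
  have hlk : Integrable (fun η => 1 - ∑ y ∈ R t, Qt β h n t y η) P := by
    refine (integrable_const (1 : ℝ)).sub (integrable_finsetSum _ fun y _ => ?_)
    exact bdd (B := 1) (measurable_Qt β h n t y) (hQ0 t y) fun η => Qt_le_one hd β h htn y η
  have h2 : ∀ p ∈ s, U p t - 1 / 8 ≤ ∫ η, ∑ y ∈ R t, Qt β h n t y η *
      (L p).indicator 1 (sh t y η) ∂P := by
    intro p hp
    have hi1 : Integrable (fun η => ∑ y ∈ R t, Qt β h n t y η *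
        (L p).indicator (1 : Env d → ℝ) (sh t y η)) P :=
      integrable_finsetSum _ fun y _ => hint p hp t htn y
    have h3 : U p t ≤ ∫ η, (∑ y ∈ R t, Qt β h n t y η *
        (L p).indicator (1 : Env d → ℝ) (sh t y η) + (1 - ∑ y ∈ R t, Qt β h n t y η)) ∂P :=
      integral_mono (integrable_finsetSum _ fun y _ => hint p hp t htn y) (hi1.add hlk)
        fun η => leak91 hd htn (R t) (fun η => (L p).indicator (1 : Env d → ℝ) η)
          (hI1 p) η
    rw [integral_add hi1 hlk] at h3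
    have h4 := hleak t htT
    linarith
  have h3 : a t - 1 / 8 * W₀ ≤ ∑ p ∈ s, D p * ∫ η, ∑ y ∈ R t, Qt β h n t y η *
      (L p).indicator 1 (sh t y η) ∂P := by
    have h4 : a t - 1 / 8 * W₀ = ∑ p ∈ s, D p * (U p t - 1 / 8) := by
      simp only [ha, hWd]
      rw [Finset.mul_sum, ← Finset.sum_sub_distrib]
      exact Finset.sum_congr rfl fun p _ => by ring
    rw [h4]
    exact Finset.sum_le_sum fun p hp => mul_le_mul_of_nonneg_left (h2 p hp) (hD p hp)
  have hK : 0 ≤ K := le_trans (integral_nonneg fun η => (Real.exp_pos _).le) H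
  have hN0 : 0 ≤ N := (Nat.cast_nonneg _).trans (hR t htT)
  have h5 : Real.log (1 + Real.sqrt (K * N * St ρ β h n t)) ≤
      Real.log (1 + Real.sqrt (K * N * (20 * M / n))) := by
    refine Real.log_le_log (by positivity) ?_
    have h6 := Real.sqrt_le_sqrt (mul_le_mul_of_nonneg_left hSt (mul_nonneg hK hN0))
    linarith
  refine le_trans ?_ (h1.trans h5)
  have h6 : (1 / 8 : ℝ) * W₀ ≤ ∑ p ∈ s, D p * ∫ η, ∑ y ∈ R t, Qt β h n t y η *
      (L p).indicator 1 (sh t y η) ∂P := by linarith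
  have h7 := mul_le_mul_of_nonneg_left h6 (show (0 : ℝ) ≤ c / 2 by positivity)
  linarith

end Pool.Agent.W_7d29a1_PL.B91
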