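import Pool.Agent.W_7d29a1_PL.DefsPL
import Pool.Agent.W_7d29a1_PL.Pick91
import Pool.Agent.W_7d29a1_SP.Lk96

/-!
BUD (helper91): the leaf `BudP`.
-/

set_option autoImplicit false

namespace Pool.Agent.W_7d29a1_PL.B91

open MeasureTheory ProbabilityTheory Filter Topology Pool.Agent.W_MP_7d29a1_pr
  Pool.Agent.W_7d29a1_h46 Pool.Agent.W_7d29a1_h46u Pool.Agent.W_7d29a1_D2.B35
  Pool.Agent.W_7d29a1_Q29 Pool.Agent.W_7d29a1_R34 Pool.Agent.W_7d29a1_SP

/-- The logarithm of the budget. -/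
lemma logB91 {D N x Y : ℝ} (hD : 0 ≤ D) (k : ℕ) (hY : 1 ≤ Y) (hNx : N * x ≤ Y) :
    2 * Real.log (1 + Real.sqrt ((1 + Real.exp D) ^ k * N * x)) ≤
      2 * Real.log 2 + Real.log Y + (D + 1) * k := by
  have he : 0 < Real.exp D := Real.exp_pos _
  have he1 : 1 ≤ Real.exp D := Real.one_le_exp hD
  obtain ⟨Z, hZ⟩ : ∃ Z, Z = (1 + Real.exp D) ^ k * Y := ⟨_, rfl⟩
  have hk1 : 1 ≤ (1 + Real.exp D) ^ k := one_le_pow₀ (by linarith)
  have hZ1 : 1 ≤ Z := by
    rw [hZ]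
    nlinarith
  have hZ0 : 0 < Z := by linarith
  have h1 : (1 + Real.exp D) ^ k * N * x ≤ Z := by
    rw [hZ, mul_assoc]
    exact mul_le_mul_of_nonneg_left hNx (by linarith)
  have h2 : Real.sqrt ((1 + Real.exp D) ^ k * N * x) ≤ Real.sqrt Z := Real.sqrt_le_sqrt h1
  have h3 : 1 ≤ Real.sqrt Z := by
    rw [Real.one_le_sqrt]
    exact hZ1
  have h4 : Real.log (1 + Real.sqrt ((1 + Real.exp D) ^ k * N * x)) ≤
      Real.log (2 * Real.sqrt Z) := by
    refine Real.log_le_log ?_ (by linarith)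
    have := Real.sqrt_nonneg ((1 + Real.exp D) ^ k * N * x)
    linarith
  have h5 : Real.log (2 * Real.sqrt Z) = Real.log 2 + Real.log Z / 2 := by
    rw [Real.log_mul (by norm_num) (by linarith), Real.log_sqrt hZ0.le]
  have h6 : Real.log Z = k * Real.log (1 + Real.exp D) + Real.log Y := by
    rw [hZ, Real.log_mul (by positivity) (by linarith), Real.log_pow]
  have h7 : Real.log (1 + Real.exp D) ≤ D + 1 := by
    have h8 : Real.log (1 + Real.exp D) ≤ Real.log (2 * Real.exp D) :=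
      Real.log_le_log (by linarith) (by linarith)
    have h9 : Real.log (2 * Real.exp D) = Real.log 2 + D := by
      rw [Real.log_mul (by norm_num) he.ne', Real.log_exp]
    have h10 : Real.log 2 ≤ 1 := by
      have := Real.log_two_lt_d9
      linarith
    linarith
  have h8 : (k : ℝ) * Real.log (1 + Real.exp D) ≤ k * (D + 1) :=
    mul_le_mul_of_nonneg_left h7 (Nat.cast_nonneg k)
  nlinarith

section Gen

variable {d : ℕ} {ρ : Measure ℝ} [IsProbabilityMeasure ρ]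

open Classical in
open S98 in
/-- The budget, from windows with leak `1/8` at most of the times. -/
theorem budT91 (hd : 0 < d) {β : ℝ} {h : Vec d} {n : ℕ} (hn : 1 ≤ n) {N x : ℝ}
    (T : Finset ℕ) (hT : T ⊆ Finset.range n)
    (hTc : (((Finset.range n) \ T).card : ℝ) ≤ 7 / 40 * n) (R : ℕ → Finset (Site d))
    (hR : ∀ t ∈ T, ((R t).card : ℝ) ≤ N) (hSt : ∀ t ∈ T, St ρ β h n t ≤ x)
    (hleak : ∀ t ∈ T, ∫ η, (1 - ∑ y ∈ R t, Qt β h n t y η) ∂(law d ρ) ≤ 1 / 8)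
    (hN0 : 0 ≤ N)
    (I : Finset ℕ) (B : ℕ → Set (Env d)) (θ : ℕ → ℝ) (D : ℝ)
    (hB : ∀ p ∈ I, MeasurableSet (B p) ∧ DependsOn (fun η => η ∈ B p) {q | 1 ≤ q.1} ∧ 0 ≤ θ p)
    (H : ∀ J : Finset ℕ, J ⊆ I → (law d ρ).real (⋂ p ∈ J, B p) ≤
      Real.exp (D * J.card - ∑ p ∈ J, θ p)) :
    ∑ p ∈ I, θ p * ((∑ t ∈ Finset.range n, us ρ β h n t (B p)) / n - 3 / 10) ≤
      2 * Real.log (1 + Real.sqrt ((1 + Real.exp D) ^ I.card * N * x)) := by
  set P : Measure (Env d) := law d ρ with hP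
  have hn0 : (0 : ℝ) < n := by exact_mod_cast hn
  have hI0 : ∀ (p : ℕ) (η : Env d), 0 ≤ (B p).indicator (fun _ => (1 : ℝ)) η := fun p η =>
    Set.indicator_nonneg (fun _ _ => zero_le_one) _
  have hI1 : ∀ (p : ℕ) (η : Env d), (B p).indicator (fun _ => (1 : ℝ)) η ≤ 1 := fun p η =>
    Set.indicator_le_self' (fun _ _ => zero_le_one) _
  have hQ0 : ∀ (t : ℕ) (y : Site d) (η : Env d), 0 ≤ Qt β h n t y η := fun t y η =>
    Qt_nonneg hd β h n t y η
  have bdd : ∀ {F : Env d → ℝ} {B : ℝ}, Measurable F → (∀ η, 0 ≤ F η) → (∀ η, F η ≤ B) →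
      Integrable F P := by
    intro F B hF h0 h1
    refine Integrable.mono' (integrable_const B) hF.aestronglyMeasurable
      (Eventually.of_forall fun η => ?_)
    rw [Real.norm_eq_abs, abs_of_nonneg (h0 η)]
    exact h1 η
  have hint : ∀ p ∈ I, ∀ t, t ≤ n → ∀ y : Site d, Integrable (fun η => Qt β h n t y η *
      (B p).indicator (fun _ => (1 : ℝ)) (sh t y η)) P := by
    intro p hp t ht y
    refine bdd (B := 1) ((measurable_Qt β h n t y).mul
      ((measurable_const.indicator (hB p hp).1).comp (measurable_sh t y)))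
      (fun η => mul_nonneg (hQ0 t y η) (hI0 p _)) fun η => ?_
    have := hQ0 t y η
    have := Qt_le_one hd β h ht y η
    have := hI0 p (sh t y η)
    have := hI1 p (sh t y η)
    nlinarith
  set U : ℕ → ℕ → ℝ := fun p t => us ρ β h n t (B p) with hUd
  have hU1 : ∀ p ∈ I, ∀ t, t ≤ n → U p t ≤ 1 := by
    intro p hp t ht
    have h1 : U p t ≤ ∫ _η, (1 : ℝ) ∂P := by
      refine integral_mono (integrable_finsetSum _ fun y _ => hint p hp t ht y)
        (integrable_const 1) fun η => ?_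
      refine le_trans ?_ (Qt_sum hd β h ht η).le
      exact Finset.sum_le_sum fun y _ => mul_le_of_le_one_right (hQ0 t y η) (hI1 p _)
    simpa using h1
  obtain ⟨Θ, hΘ⟩ : ∃ Θ, Θ = ∑ p ∈ I, θ p := ⟨_, rfl⟩
  have hΘ0 : 0 ≤ Θ := by
    rw [hΘ]
    exact Finset.sum_nonneg fun p hp => (hB p hp).2.2
  obtain ⟨L, hL⟩ : ∃ L, L = 2 * Real.log (1 + Real.sqrt ((1 + Real.exp D) ^ I.card * N * x)) :=
    ⟨_, rfl⟩
  have hL0 : 0 ≤ L := by
    rw [hL]
    refine mul_nonneg (by norm_num) (Real.log_nonneg ?_)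
    have := Real.sqrt_nonneg ((1 + Real.exp D) ^ I.card * N * x)
    linarith
  -- one good time
  have hgood : ∀ t ∈ T, ∑ p ∈ I, θ p * U p t ≤ Θ / 8 + L := by
    intro t ht
    have htn : t ≤ n := (Finset.mem_range.1 (hT ht)).le
    have hlk : Integrable (fun η => 1 - ∑ y ∈ R t, Qt β h n t y η) P := by
      refine (integrable_const (1 : ℝ)).sub (integrable_finsetSum _ fun y _ => ?_)
      exact bdd (B := 1) (measurable_Qt β h n t y) (hQ0 t y) fun η => Qt_le_one hd β h htn y η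
    have h2 : ∀ p ∈ I, U p t ≤ 1 / 8 + ∫ η, ∑ y ∈ R t, Qt β h n t y η *
        (B p).indicator 1 (sh t y η) ∂P := by
      intro p hp
      have hi1 : Integrable (fun η => ∑ y ∈ R t, Qt β h n t y η *
          (B p).indicator (fun _ => (1 : ℝ)) (sh t y η)) P :=
        integrable_finsetSum _ fun y _ => hint p hp t htn y
      have h3 : U p t ≤ ∫ η, (∑ y ∈ R t, Qt β h n t y η *
          (B p).indicator (fun _ => (1 : ℝ)) (sh t y η) + (1 - ∑ y ∈ R t, Qt β h n t y η)) ∂P := by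
        refine integral_mono (integrable_finsetSum _ fun y _ => hint p hp t htn y) (hi1.add hlk)
          fun η => ?_
        have h5 := leak91 hd (β := β) (h := h) htn (R t)
          (fun η => (B p).indicator (fun _ => (1 : ℝ)) η) (hI1 p) η
        refine le_trans ?_ h5
        exact Finset.sum_le_sum_of_subset_of_nonneg (boxF_mono htn)
          fun y _ _ => mul_nonneg (hQ0 t y η) (hI0 p _)
      rw [integral_add hi1 hlk] at h3
      have h4 := hleak t ht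
      have h5 : ∀ η, ∑ y ∈ R t, Qt β h n t y η * (B p).indicator (fun _ => (1 : ℝ)) (sh t y η) =
        ∑ y ∈ R t, Qt β h n t y η * (B p).indicator 1 (sh t y η) := fun η => rfl
      simp only [h5] at h3
      linarith
    have h3 := bud91 (ρ := ρ) hd (β := β) (h := h) htn (R t) (hR t ht) I B
      (fun p hp => (hB p hp).1) (fun p hp => by
        intro η η' hη
        have h4 : (η ∈ B p) = (η' ∈ B p) := (hB p hp).2.1 fun q hq => hη q (by
          intro h5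
          change q.1 ≤ 0 at h5
          change 1 ≤ q.1 at hq
          omega)
        change (B p).indicator (1 : Env d → ℝ) η = (B p).indicator (1 : Env d → ℝ) η'
        by_cases h5 : η ∈ B p
        · rw [Set.indicator_of_mem h5, Set.indicator_of_mem (h4 ▸ h5)]
          rfl
        · rw [Set.indicator_of_notMem h5, Set.indicator_of_notMem (h4 ▸ h5)])
      θ 1 (Real.exp D) zero_le_one (fun p hp => (hB p hp).2.2) (fun J hJ => by
        refine (H J hJ).trans (le_of_eq ?_)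
        rw [← Real.exp_nat_mul, ← Real.exp_add]
        congr 1
        ring)
    have h4 : Real.log (1 + Real.sqrt ((1 + Real.exp D) ^ I.card * N * St ρ β h n t)) ≤ L / 2 := by
      rw [hL]
      have h5 : Real.log (1 + Real.sqrt ((1 + Real.exp D) ^ I.card * N * St ρ β h n t)) ≤
          Real.log (1 + Real.sqrt ((1 + Real.exp D) ^ I.card * N * x)) := by
        refine Real.log_le_log ?_ ?_
        · have := Real.sqrt_nonneg ((1 + Real.exp D) ^ I.card * N * St ρ β h n t)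
          linarith
        · have h6 : (1 + Real.exp D) ^ I.card * N * St ρ β h n t ≤
              (1 + Real.exp D) ^ I.card * N * x :=
            mul_le_mul_of_nonneg_left (hSt t ht) (by positivity)
          have := Real.sqrt_le_sqrt h6
          linarith
      linarith
    have h5 : ∑ p ∈ I, θ p * U p t ≤ ∑ p ∈ I, (θ p * (1 / 8) + θ p *
        ∫ η, ∑ y ∈ R t, Qt β h n t y η * (B p).indicator 1 (sh t y η) ∂P) := by
      refine Finset.sum_le_sum fun p hp => ?_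
      rw [← mul_add]
      exact mul_le_mul_of_nonneg_left (h2 p hp) (hB p hp).2.2
    rw [Finset.sum_add_distrib, ← Finset.sum_mul, ← hΘ] at h5
    linarith
  have hbad : ∀ t ∈ (Finset.range n) \ T, ∑ p ∈ I, θ p * U p t ≤ Θ := by
    intro t ht
    have htn : t ≤ n := (Finset.mem_range.1 (Finset.mem_sdiff.1 ht).1).le
    rw [hΘ]
    exact Finset.sum_le_sum fun p hp => mul_le_of_le_one_right (hB p hp).2.2 (hU1 p hp t htn)
  have hsum : ∑ t ∈ Finset.range n, ∑ p ∈ I, θ p * U p t ≤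
      7 / 40 * n * Θ + n * (Θ / 8 + L) := by
    rw [← Finset.sum_sdiff hT]
    refine add_le_add ?_ ?_
    · refine (Finset.sum_le_sum hbad).trans ?_
      rw [Finset.sum_const, nsmul_eq_mul]
      exact mul_le_mul_of_nonneg_right hTc hΘ0
    · refine (Finset.sum_le_sum hgood).trans ?_
      rw [Finset.sum_const, nsmul_eq_mul]
      refine mul_le_mul_of_nonneg_right ?_ (by linarith)
      have h1 := Finset.card_le_card hT
      rw [Finset.card_range] at h1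
      exact_mod_cast h1
  have h1 : ∑ p ∈ I, θ p * ((∑ t ∈ Finset.range n, us ρ β h n t (B p)) / n - 3 / 10) =
      (∑ t ∈ Finset.range n, ∑ p ∈ I, θ p * U p t) / n - 3 / 10 * Θ := by
    rw [Finset.sum_comm, hΘ, Finset.mul_sum, Finset.sum_div, ← Finset.sum_sub_distrib]
    refine Finset.sum_congr rfl fun p _ => ?_
    rw [← Finset.mul_sum]
    ring
  rw [h1, ← hL]
  have h2 : (∑ t ∈ Finset.range n, ∑ p ∈ I, θ p * U p t) / n ≤ 7 / 40 * Θ + (Θ / 8 + L) := by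
    rw [div_le_iff₀ hn0]
    nlinarith
  linarith

end Gen

/-- The times with a small Newman-Piza term. -/
lemma timeT91 {n : ℕ} (hn : 10 ≤ n) (S : ℕ → ℝ) (hS0 : ∀ t, 0 ≤ S t) {V : ℝ} (hV : 0 < V)
    (hS : ∑ t ∈ Finset.Icc 1 n, S t ≤ V) :
    (((Finset.range n) \ (Finset.range n).filter
      (fun t => (n : ℝ) / 1000 ≤ t ∧ (n : ℝ) / 20 ≤ t ∧ S t ≤ 200 * V / n)).card : ℝ) ≤
        7 / 40 * n := by
  have hn10 : (10 : ℝ) ≤ n := by exact_mod_cast hn
  have hn0 : (0 : ℝ) < n := by linarith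
  obtain ⟨F, hF⟩ : ∃ F, F = (Finset.Icc 1 n).filter fun t => 200 * V / n < S t := ⟨_, rfl⟩
  have hsub : (Finset.range n) \ (Finset.range n).filter
      (fun t => (n : ℝ) / 1000 ≤ t ∧ (n : ℝ) / 20 ≤ t ∧ S t ≤ 200 * V / n) ⊆
        Finset.range (n / 20 + 1) ∪ F := by
    intro t ht
    rw [Finset.mem_sdiff, Finset.mem_filter] at ht
    rw [Finset.mem_union, Finset.mem_range, hF, Finset.mem_filter, Finset.mem_Icc]
    by_cases h1 : t < n / 20 + 1
    · exact Or.inl h1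
    · right
      have h2 : n / 20 + 1 ≤ t := not_lt.1 h1
      have h3 : n ≤ 20 * t := by omega
      have h4 : (n : ℝ) ≤ 20 * t := by exact_mod_cast h3
      have h5 := Finset.mem_range.1 ht.1
      refine ⟨⟨by omega, h5.le⟩, ?_⟩
      by_contra h6
      exact ht.2 ⟨ht.1, by linarith, by linarith, not_lt.1 h6⟩
  have h1 := (Finset.card_le_card hsub).trans (Finset.card_union_le _ _)
  rw [Finset.card_range] at h1
  have h2 : ((n / 20 + 1 : ℕ) : ℝ) ≤ n / 20 + 1 := by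
    have h3 : ((n / 20 : ℕ) : ℝ) ≤ (n : ℝ) / 20 := by
      have := Nat.cast_div_le (α := ℝ) (m := n) (n := 20)
      simpa using this
    push_cast at h3 ⊢
    linarith
  have h3 : (F.card : ℝ) ≤ n / 200 := by
    have h4 : (F.card : ℝ) * (200 * V / n) ≤ ∑ t ∈ F, S t := by
      rw [← nsmul_eq_mul, ← Finset.sum_const]
      exact Finset.sum_le_sum fun t ht => by
        rw [hF] at ht
        exact (Finset.mem_filter.1 ht).2.le
    have h5 : ∑ t ∈ F, S t ≤ V := by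
      refine (Finset.sum_le_sum_of_subset_of_nonneg ?_ fun t _ _ => hS0 t).trans hS
      rw [hF]
      exact Finset.filter_subset _ _
    have h7 : (F.card : ℝ) * (200 * V / n) ≤ V := h4.trans h5
    have h8 : (F.card : ℝ) * (200 * V / n) = F.card * 200 / n * V := by ring
    rw [h8] at h7
    have h10 : (F.card : ℝ) * 200 / n ≤ 1 := by
      by_contra h11
      push Not at h11
      nlinarith
    rw [div_le_one hn0] at h10
    linarith
  have h4 : (((Finset.range n) \ (Finset.range n).filter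
      (fun t => (n : ℝ) / 1000 ≤ t ∧ (n : ℝ) / 20 ≤ t ∧ S t ≤ 200 * V / n)).card : ℝ) ≤
        ((n / 20 + 1 : ℕ) : ℝ) + F.card := by exact_mod_cast h1
  linarith

/-- The numbers, for large `n`. -/
lemma numB91 {Q c C₁ δ Y₀ : ℝ} (hQ : 1 ≤ Q) (hc : 0 < c) (hc1 : c ≤ 1 / 20)
    (hδ : 0 < δ) : ∃ n₀ : ℕ, ∀ n : ℕ, n₀ ≤ n →
      C₁ * (kp Q c n + Real.sqrt ((n : ℝ) ^ (8 * c))) ≤ δ * Real.sqrt ((n : ℝ) / 20) ∧
      Y₀ ≤ c * Real.log n := by
  have h1 : ∀ᶠ x : ℝ in atTop, 10 * (|C₁| * (Q + 1)) / δ ≤ x ^ (3 / 10 : ℝ) :=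
    (tendsto_rpow_atTop (by norm_num)).eventually_ge_atTop _
  have h2 : ∀ᶠ x : ℝ in atTop, Y₀ / c ≤ Real.log x :=
    Real.tendsto_log_atTop.eventually_ge_atTop _
  have h3 := tendsto_natCast_atTop_atTop (R := ℝ)
  obtain ⟨n₀, hn₀⟩ := Filter.eventually_atTop.1 ((h3.eventually h1).and (h3.eventually h2))
  refine ⟨max n₀ 1, fun n hn => ?_⟩
  obtain ⟨h4, h5⟩ := hn₀ n (le_trans (le_max_left _ _) hn)
  have hn1 : (1 : ℝ) ≤ n := by exact_mod_cast (le_max_right _ _).trans hn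
  have hn0 : (0 : ℝ) < n := by linarith
  refine ⟨?_, ?_⟩
  · have h6 : Real.sqrt ((n : ℝ) ^ (8 * c)) = (n : ℝ) ^ (4 * c) := by
      rw [Real.sqrt_eq_rpow, ← Real.rpow_mul hn0.le]
      congr 1
      ring
    have h7 : (n : ℝ) ^ (4 * c) ≤ (n : ℝ) ^ (1 / 5 : ℝ) :=
      Real.rpow_le_rpow_of_exponent_le hn1 (by linarith)
    have h8 : (n : ℝ) ^ c ≤ (n : ℝ) ^ (1 / 5 : ℝ) :=
      Real.rpow_le_rpow_of_exponent_le hn1 (by linarith)
    have h9 : kp Q c n ≤ Q * (n : ℝ) ^ (1 / 5 : ℝ) := by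
      unfold kp
      exact mul_le_mul_of_nonneg_left h8 (by linarith)
    have h10 : Real.sqrt ((n : ℝ) / 20) = (n : ℝ) ^ (1 / 5 : ℝ) * (n : ℝ) ^ (3 / 10 : ℝ) /
        Real.sqrt 20 := by
      rw [Real.sqrt_div hn0.le, Real.sqrt_eq_rpow, ← Real.rpow_add hn0]
      norm_num
    have h11 : Real.sqrt 20 ≤ 10 := by
      rw [Real.sqrt_le_left (by norm_num)]
      norm_num
    have h12 : 0 < Real.sqrt 20 := Real.sqrt_pos.2 (by norm_num)
    obtain ⟨a, ha⟩ : ∃ a, a = (n : ℝ) ^ (1 / 5 : ℝ) := ⟨_, rfl⟩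
    obtain ⟨b, hb⟩ : ∃ b, b = (n : ℝ) ^ (3 / 10 : ℝ) := ⟨_, rfl⟩
    have ha0 : 0 < a := by
      rw [ha]
      positivity
    have hb0 : 0 < b := by
      rw [hb]
      positivity
    rw [h10, h6, ← ha, ← hb]
    rw [← hb] at h4
    rw [← ha] at h7 h9
    have hkp0 : 0 ≤ kp Q c n := by
      unfold kp
      positivity
    have h13 : C₁ * (kp Q c n + (n : ℝ) ^ (4 * c)) ≤ |C₁| * ((Q + 1) * a) := by
      have h14 : 0 ≤ (n : ℝ) ^ (4 * c) := by positivity
      calc C₁ * (kp Q c n + (n : ℝ) ^ (4 * c)) ≤ |C₁| * (kp Q c n + (n : ℝ) ^ (4 * c)) :=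
            mul_le_mul_of_nonneg_right (le_abs_self _) (by linarith)
        _ ≤ |C₁| * ((Q + 1) * a) := mul_le_mul_of_nonneg_left (by linarith) (abs_nonneg _)
    refine h13.trans ?_
    rw [div_le_iff₀ hδ] at h4
    have h15 : |C₁| * ((Q + 1) * a) * 10 ≤ δ * (a * b) := by nlinarith
    have h16 : δ * (a * b) / 10 ≤ δ * (a * b / Real.sqrt 20) := by
      rw [mul_div_assoc]
      refine mul_le_mul_of_nonneg_left ?_ hδ.le
      exact div_le_div_of_nonneg_left (by positivity) h12 h11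
    linarith
  · rw [div_le_iff₀ hc] at h5
    linarith

set_option maxHeartbeats 1000000 in
/-- **BUD** (`d = 2`): the budget at a good point. -/
theorem budP91 {ρ : Measure ℝ} [IsProbabilityMeasure ρ] (hρ : EM ρ) {β : ℝ} (hL : LeakR ρ β)
    (hNP : NPB 2 ρ β) (hBQ : BetQ ρ β) : BudP ρ β := by
  classical
  intro g₀ M hg₀ hM
  obtain ⟨c₂, hc₂, hBQ⟩ := hBQ g₀ M hg₀ hM
  obtain ⟨C₀, hC₀, hNP⟩ := hNP
  obtain ⟨C, hCdef⟩ : ∃ C, C = C₀ + 1 := ⟨_, rfl⟩
  have hC : 1 ≤ C := by linarith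
  obtain ⟨M', hM'⟩ : ∃ M', M' = 8 * M + 8 := ⟨_, rfl⟩
  have hM1 : 1 ≤ M' := by linarith
  obtain ⟨C₁, hC₁⟩ : ∃ C₁, C₁ = 8 * M' + 240000 * M' * Real.sqrt (200 * C) + 50 * M' := ⟨_, rfl⟩
  have hr0 : 0 ≤ M' * Real.sqrt (200 * C) := by positivity
  have hC11 : 1 ≤ C₁ := by
    rw [hC₁]
    nlinarith
  have hC18 : 8 * M' ≤ C₁ := by
    rw [hC₁]
    nlinarith
  refine ⟨min c₂ (1 / 20), 10, lt_min hc₂ (by norm_num), by norm_num, ?_⟩
  intro h δ Q c R hδ hQ hc hc1 P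
  have hc20 : c ≤ 1 / 20 := hc1.trans (min_le_right _ _)
  obtain ⟨n₂, hE⟩ := hBQ h δ Q c R hδ hQ hc (hc1.trans (min_le_left _ _)) P
  obtain ⟨δ', hδ'⟩ : ∃ δ', δ' = min δ 1 / 2 := ⟨_, rfl⟩
  have hδ'0 : 0 < δ' := by
    rw [hδ']
    exact half_pos (lt_min hδ one_pos)
  have hδ'1 : δ' ≤ 1 := by
    rw [hδ']
    have := min_le_right δ 1
    linarith
  have hδ'2 : 2 * δ' ≤ δ := by
    rw [hδ']
    have := min_le_left δ 1
    linarith
  obtain ⟨Y₁, hY₁⟩ : ∃ Y₁, Y₁ = 3600 * C * (C₁ * (Q + 1)) ^ 2 * Q := ⟨_, rfl⟩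
  have hY₁0 : 0 < Y₁ := by
    rw [hY₁]
    positivity
  obtain ⟨n₁, hnum⟩ := numB91 (Q := Q) (c := c) (C₁ := C₁) (δ := δ' ^ 4)
    (Y₀ := 2 * Real.log 2 + Real.log Y₁) hQ hc hc20 (by positivity)
  refine ⟨max (max n₁ n₂) 10, fun n hn => ?_⟩
  have hn1 : n₁ ≤ n := (le_max_left _ _).trans ((le_max_left _ _).trans hn)
  have hn2 : n₂ ≤ n := (le_max_right _ _).trans ((le_max_left _ _).trans hn)
  have hn10 : 10 ≤ n := (le_max_right _ _).trans hn
  obtain ⟨hwin, hlog⟩ := hnum n hn1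
  have hnR : (10 : ℝ) ≤ n := by exact_mod_cast hn10
  have hnR1 : (1 : ℝ) ≤ n := by linarith
  have hn0 : (0 : ℝ) < n := by linarith
  obtain ⟨K, hK⟩ : ∃ K, K = kp Q c n := ⟨_, rfl⟩
  have hkm : ∀ t : ℕ, t ≤ n → kp Q c t ≤ K := by
    intro t ht
    rw [hK]
    unfold kp
    refine mul_le_mul_of_nonneg_left ?_ (by linarith)
    exact Real.rpow_le_rpow (Nat.cast_nonneg t) (Nat.cast_le.2 ht) hc.le
  have hnc1 : 1 ≤ (n : ℝ) ^ c := Real.one_le_rpow hnR1 hc.le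
  have hK1 : 1 ≤ K := by
    rw [hK]
    unfold kp
    nlinarith
  have hVa : ∀ t : ℕ, t ≤ n → Va ρ β h t ≤ K := fun t ht => (P.var t).trans (hkm t ht)
  obtain ⟨e, he⟩ : ∃ e, e = (n : ℝ) ^ (8 * c) := ⟨_, rfl⟩
  have he0 : 0 ≤ e := by
    rw [he]
    positivity
  have hse := Real.sqrt_nonneg e
  obtain ⟨W, hW⟩ : ∃ W, W = C₁ * (K + Real.sqrt e) := ⟨_, rfl⟩
  have hWK : C₁ * K ≤ W := by
    rw [hW]
    nlinarith
  have hWe : 8 * M' * Real.sqrt e ≤ W := by
    rw [hW]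
    nlinarith
  have hW1 : 1 ≤ W := by nlinarith
  have hW0 : 0 < W := by linarith
  rw [← hK, ← he, ← hW] at hwin
  have hSt0 : ∀ t : ℕ, 0 ≤ St ρ β h n t := fun t => by
    unfold St
    exact integral_nonneg fun η => Finset.sum_nonneg fun y _ => sq_nonneg _
  have hStS : ∑ t ∈ Finset.Icc 1 n, St ρ β h n t ≤ C * K := by
    have h2 : ∑ t ∈ Finset.Icc 1 n, St ρ β h n t ≤ C₀ * Va ρ β h n := hNP h n
    have h3 : C₀ * Va ρ β h n ≤ C₀ * K := mul_le_mul_of_nonneg_left (hVa n le_rfl) hC₀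
    have h4 : C₀ * K ≤ C * K := mul_le_mul_of_nonneg_right (by linarith) (by linarith)
    linarith
  obtain ⟨T, hT⟩ : ∃ T : Finset ℕ, T = (Finset.range n).filter
      (fun t : ℕ => (n : ℝ) / 1000 ≤ t ∧ (n : ℝ) / 20 ≤ t ∧ St ρ β h n t ≤ 200 * (C * K) / n) :=
    ⟨_, rfl⟩
  have hTc := timeT91 hn10 (fun t => St ρ β h n t) hSt0 (V := C * K) (by positivity) hStS
  rw [← hT] at hTc
  have hTm : ∀ t ∈ T, t < n ∧ (n : ℝ) / 20 ≤ t ∧ St ρ β h n t ≤ 200 * C * K / n := by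
    intro t ht
    rw [hT, Finset.mem_filter, Finset.mem_range] at ht
    refine ⟨ht.1, ht.2.2.1, ht.2.2.2.trans (le_of_eq ?_)⟩
    ring
  have hTs : T ⊆ Finset.range n := by
    rw [hT]
    exact Finset.filter_subset _ _
  -- the windows
  have hv : ∀ t : ℕ, ∃ v : Vec 2, ∀ g : Vec 2, A ρ β h t + inner ℝ v (g - h) ≤ A ρ β g t := by
    intro t
    obtain ⟨v, -, hv⟩ := sub94 (d := 2) (by norm_num) hρ β h t
    refine ⟨v, fun g => ?_⟩
    have := hv (g - h)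
    rwa [add_sub_cancel] at this
  choose v hv using hv
  obtain ⟨Rw, hRw⟩ : ∃ Rw : ℕ → Finset (Site 2), Rw = fun t => (boxF 2 t).filter
      (fun y => ∀ j, |(emb y - v t) j| < W * Real.sqrt t) := ⟨_, rfl⟩
  have hcard : ∀ t ∈ T, ((Rw t).card : ℝ) ≤ 18 * W ^ 2 * n := by
    intro t ht
    obtain ⟨htn, -, -⟩ := hTm t ht
    have htn' : (t : ℝ) ≤ n := by exact_mod_cast htn.le
    have hst2 : Real.sqrt t ^ 2 = t := Real.sq_sqrt (Nat.cast_nonneg t)
    have hst0 : 0 ≤ Real.sqrt t := Real.sqrt_nonneg _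
    have hw0 : 0 ≤ W * Real.sqrt t := mul_nonneg hW0.le hst0
    have h2 : ((Rw t).card : ℝ) ≤ ((ballW (v t) (W * Real.sqrt t)).card : ℝ) := by
      rw [hRw]
      exact_mod_cast Finset.card_le_card (win_sub93 (v t) t _)
    have h3 := card_ballW (d := 2) (v t) (w := W * Real.sqrt t) hw0
    have h4 : (2 * (W * Real.sqrt t) + 1) ^ 2 ≤ 9 * (W ^ 2 * t + 1) := by
      have h5 : (W * Real.sqrt t) ^ 2 = W ^ 2 * t := by rw [mul_pow, hst2]
      rw [← h5]
      nlinarith [sq_nonneg (W * Real.sqrt t - 1)]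
    have h5 : 1 ≤ W ^ 2 := one_le_pow₀ hW1
    have h6 : W ^ 2 * t ≤ W ^ 2 * n := mul_le_mul_of_nonneg_left htn' (by positivity)
    have h7 : 1 ≤ W ^ 2 * n := by nlinarith
    linarith
  have hleak : ∀ t ∈ T, ∫ η, (1 - ∑ y ∈ Rw t, Qt β h n t y η) ∂(law 2 ρ) ≤ 1 / 8 := by
    intro t ht
    obtain ⟨htn, htn2, hSt⟩ := hTm t ht
    have ht1 : 1 ≤ t := by
      have h1 : (0 : ℝ) < t := by linarith
      exact_mod_cast h1
    have ht0 : (0 : ℝ) < t := by exact_mod_cast ht1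
    have hWt : W ≤ δ' ^ 4 * Real.sqrt t :=
      hwin.trans (mul_le_mul_of_nonneg_left (Real.sqrt_le_sqrt htn2) (by positivity))
    have hdens : ∀ r : ℝ, 0 < r → r ≤ δ' → ∀ (j : Fin 2) (s : ℝ), (s = 1 ∨ s = -1) →
        ∃ g : Vec 2, ‖g - h - (s * r) • ej j‖ ≤ r / 9 ∧ Va ρ β g t ≤ K := by
      intro r hr hrδ j s hs
      obtain ⟨g, hg1, hg2⟩ := P.dens t r hr (by linarith) j s hs
      exact ⟨g, hg1, hg2.trans (hkm t htn.le)⟩
    have hEt : En ρ β h t ≤ 2 * e := by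
      have h1 := hE n t hn2 htn.le
      rw [← he] at h1
      linarith
    have hsd := sd96 (ρ := ρ) hρ (β := β) (h := h) (M := M) hM.le hM' hδ'2 ht1 he0 hW0 hWe
      P.curv hEt
    have hlk := leakN96 (M := M') (K := K) (W := W) (t := t) (x := St ρ β h n t) (C := C)
      (C₁ := C₁) (N := n) hM1 hK1 hC ht0 (Nat.cast_le.2 htn.le) (hSt0 t) hSt
      (by rw [hC₁]; linarith) hWK
    have h1 := hL M' K δ' W h (v t) n t hM1 hK1 hδ'0 hδ'1 ht1 htn.le hW0 hWt (hVa n le_rfl)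
      (hVa (n - t) (Nat.sub_le _ _)) (hv t) hdens hsd
    rw [hRw]
    exact h1.trans hlk
  intro I B θ D hB hD H
  have h1 := budT91 (ρ := ρ) (d := 2) (by norm_num) (β := β) (h := h) (n := n) (by omega) T hTs
    hTc Rw hcard (fun t ht => (hTm t ht).2.2) hleak (by positivity) I B θ D hB H
  refine h1.trans ?_
  -- the numbers
  have hnc : K ≤ Q * (n : ℝ) ^ c := by
    rw [hK]
    unfold kp
    exact le_rfl
  have hn4 : (1 : ℝ) ≤ (n : ℝ) ^ (4 * c) := Real.one_le_rpow hnR1 (by positivity)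
  have hse4 : Real.sqrt e = (n : ℝ) ^ (4 * c) := by
    rw [he, Real.sqrt_eq_rpow, ← Real.rpow_mul hn0.le]
    congr 1
    ring
  have hn14 : (n : ℝ) ^ c ≤ (n : ℝ) ^ (4 * c) :=
    Real.rpow_le_rpow_of_exponent_le hnR1 (by linarith)
  have hWle : W ≤ C₁ * (Q + 1) * (n : ℝ) ^ (4 * c) := by
    rw [hW, hse4]
    have h2 : K + (n : ℝ) ^ (4 * c) ≤ (Q + 1) * (n : ℝ) ^ (4 * c) := by nlinarith
    calc C₁ * (K + (n : ℝ) ^ (4 * c)) ≤ C₁ * ((Q + 1) * (n : ℝ) ^ (4 * c)) :=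
          mul_le_mul_of_nonneg_left h2 (by linarith)
      _ = _ := by ring
  have hY : 18 * W ^ 2 * n * (200 * C * K / n) ≤ Y₁ * (n : ℝ) ^ (9 * c) := by
    have h2 : 18 * W ^ 2 * n * (200 * C * K / n) = 3600 * C * W ^ 2 * K := by
      field_simp
      ring
    have h3 : W ^ 2 ≤ (C₁ * (Q + 1) * (n : ℝ) ^ (4 * c)) ^ 2 :=
      pow_le_pow_left₀ hW0.le hWle 2
    have h4 : W ^ 2 * K ≤ (C₁ * (Q + 1) * (n : ℝ) ^ (4 * c)) ^ 2 * (Q * (n : ℝ) ^ c) :=
      mul_le_mul h3 hnc (by linarith) (by positivity)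
    have h5 : (n : ℝ) ^ (9 * c) = ((n : ℝ) ^ (4 * c)) ^ 2 * (n : ℝ) ^ c := by
      rw [← Real.rpow_natCast ((n : ℝ) ^ (4 * c)) 2, ← Real.rpow_mul hn0.le,
        ← Real.rpow_add hn0]
      congr 1
      push_cast
      ring
    rw [h2, hY₁, h5]
    calc 3600 * C * W ^ 2 * K = 3600 * C * (W ^ 2 * K) := by ring
      _ ≤ 3600 * C * ((C₁ * (Q + 1) * (n : ℝ) ^ (4 * c)) ^ 2 * (Q * (n : ℝ) ^ c)) :=
          mul_le_mul_of_nonneg_left h4 (by positivity)
      _ = _ := by ring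
  have hY1 : 1 ≤ Y₁ * (n : ℝ) ^ (9 * c) := by
    refine le_trans ?_ hY
    have h2 : 18 * W ^ 2 * n * (200 * C * K / n) = 3600 * (C * K * W ^ 2) := by
      field_simp
      ring
    rw [h2]
    have h3 : 1 ≤ W ^ 2 := one_le_pow₀ hW1
    have h4 : 1 ≤ C * K := by nlinarith
    nlinarith
  have h2 := logB91 (D := D) (N := 18 * W ^ 2 * n) (x := 200 * C * K / n) hD I.card hY1 hY
  refine h2.trans ?_
  have h3 : Real.log (Y₁ * (n : ℝ) ^ (9 * c)) = Real.log Y₁ + 9 * c * Real.log n := by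
    rw [Real.log_mul hY₁0.ne' (by positivity), Real.log_rpow hn0]
  rw [h3]
  have h4 : (0 : ℝ) ≤ (D + 1) * I.card := by positivity
  linarith

end Pool.Agent.W_7d29a1_PL.B91
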