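import Pool.Agent.W_7d29a1_PL.Bud62

/-!
Budget, average over the times.
-/

namespace Pool.Agent.W_7d29a1_PL

open MeasureTheory ProbabilityTheory Filter Topology Pool.Agent.W_MP_7d29a1_pr
  Pool.Agent.W_7d29a1_h46 Pool.Agent.W_7d29a1_h46u Pool.Agent.W_7d29a1_D2.B35
  Pool.Agent.W_7d29a1_Q29 Pool.Agent.W_7d29a1_R34 Pool.Agent.W_7d29a1_SP

/-- Concavity of `x ↦ log (1 + √x)` over a finite set. -/
lemma logsqrt62 (S : Finset ℕ) (hS : S.Nonempty) (f : ℕ → ℝ) (hf : ∀ t ∈ S, 0 ≤ f t) {V : ℝ}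
    (hV : ∑ t ∈ S, f t ≤ V) :
    ∑ t ∈ S, 2 * Real.log (1 + Real.sqrt (f t)) ≤
      2 * S.card * Real.log (1 + Real.sqrt (V / S.card)) := by
  have hc : (0 : ℝ) < S.card := by exact_mod_cast hS.card_pos
  have hV0 : 0 ≤ V := (Finset.sum_nonneg hf).trans hV
  set A := Real.sqrt (V / S.card) with hA
  have hA0 : 0 ≤ A := Real.sqrt_nonneg _
  have hA2 : A ^ 2 = V / S.card := Real.sq_sqrt (by positivity)
  have hx : 0 < 1 + A := by linarith
  -- the mean of the square roots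
  have hmean : ∑ t ∈ S, Real.sqrt (f t) ≤ S.card * A := by
    rcases hA0.eq_or_lt with h0 | h0
    · have hV1 : V = 0 := by
        rw [← h0] at hA2
        have h1 : V / S.card = 0 := by
          rw [← hA2]
          ring
        rcases div_eq_zero_iff.1 h1 with h2 | h2
        · exact h2
        · exact absurd h2 hc.ne'
      have h2 : ∀ t ∈ S, f t = 0 := by
        have h3 : ∑ t ∈ S, f t = 0 := le_antisymm (hV.trans hV1.le) (Finset.sum_nonneg hf)
        exact (Finset.sum_eq_zero_iff_of_nonneg hf).1 h3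
      rw [← h0, mul_zero]
      refine (Finset.sum_eq_zero fun t ht => ?_).le
      rw [h2 t ht, Real.sqrt_zero]
    · have h1 : ∀ t ∈ S, Real.sqrt (f t) ≤ (f t / A + A) / 2 := by
        intro t ht
        have h2 : 0 ≤ (Real.sqrt (f t) - A) ^ 2 / A := by positivity
        have h3 : (Real.sqrt (f t) - A) ^ 2 / A = f t / A - 2 * Real.sqrt (f t) + A := by
          have h4 := Real.sq_sqrt (hf t ht)
          field_simp
          nlinarith
        linarith
      refine (Finset.sum_le_sum h1).trans ?_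
      rw [← Finset.sum_div, Finset.sum_add_distrib, ← Finset.sum_div, Finset.sum_const,
        nsmul_eq_mul]
      have h5 : (∑ t ∈ S, f t) / A ≤ V / A := by gcongr
      have h6 : V / A = S.card * A := by
        have h7 : S.card * A ^ 2 = V := by
          rw [hA2, mul_div_cancel₀ _ hc.ne']
        rw [div_eq_iff h0.ne', ← h7]
        ring
      linarith
  have h1 : ∀ t ∈ S, 2 * Real.log (1 + Real.sqrt (f t)) ≤
      2 * (Real.log (1 + A) + (Real.sqrt (f t) - A) / (1 + A)) := by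
    intro t _
    have h2 : 0 < 1 + Real.sqrt (f t) := by
      have := Real.sqrt_nonneg (f t)
      linarith
    have h3 := Real.log_le_sub_one_of_pos (show 0 < (1 + Real.sqrt (f t)) / (1 + A) by positivity)
    rw [Real.log_div h2.ne' hx.ne'] at h3
    have h4 : (1 + Real.sqrt (f t)) / (1 + A) - 1 = (Real.sqrt (f t) - A) / (1 + A) := by
      field_simp
      ring
    rw [h4] at h3
    linarith
  refine (Finset.sum_le_sum h1).trans ?_
  rw [← Finset.mul_sum, Finset.sum_add_distrib, Finset.sum_const, nsmul_eq_mul, ← Finset.sum_div,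
    Finset.sum_sub_distrib, Finset.sum_const, nsmul_eq_mul]
  have h5 : (∑ t ∈ S, Real.sqrt (f t) - S.card * A) / (1 + A) ≤ 0 :=
    div_nonpos_of_nonpos_of_nonneg (by linarith) hx.le
  nlinarith

/-- The budget of the events, summed over the times of `S`. -/
theorem budS62 {d : ℕ} {ρ : Measure ℝ} [IsProbabilityMeasure ρ] {ι : Type*} [DecidableEq ι]
    (hd : 0 < d) {β : ℝ} {h : Vec d} {n : ℕ} {S : Finset ℕ} (hS : S.Nonempty)
    (hSn : ∀ t ∈ S, 1 ≤ t ∧ t ≤ n) (R : ℕ → Finset (Site d)) {N : ℝ}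
    (hN : ∀ t ∈ S, ((R t).card : ℝ) ≤ N) (s : Finset ι) {L : ι → Set (Env d)}
    (hL : ∀ p ∈ s, MeasurableSet (L p)) {a : ι → ℝ} (ha : ∀ p ∈ s, 0 ≤ a p) {C : ℝ} (hC : 0 ≤ C)
    (hI : ∀ I, I ⊆ s → (law d ρ).real (⋂ p ∈ I, L p) ≤ ∏ p ∈ I, (C * Real.exp (-a p)))
    (hdep : ∀ t ∈ S, ∀ p ∈ s, ∀ y, DependsOn (fun η : Env d => sh t y η ∈ L p) (Pa d t)ᶜ) {V : ℝ}
    (hV : ∑ t ∈ Finset.Icc 1 n, St ρ β h n t ≤ V) :
    ∑ t ∈ S, ∫ η, ∑ y ∈ R t, Qt β h n t y η *
        ∑ p ∈ s, a p * (L p).indicator (fun _ => (1 : ℝ)) (sh t y η) ∂(law d ρ) ≤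
      2 * S.card * Real.log (1 + Real.sqrt ((1 + C) ^ s.card * N * V / S.card)) := by
  have hN0 : 0 ≤ N := by
    obtain ⟨t, ht⟩ := hS
    exact (Nat.cast_nonneg _).trans (hN t ht)
  have hSt0 : ∀ t, 0 ≤ St ρ β h n t := fun t =>
    integral_nonneg fun η => Finset.sum_nonneg fun y _ => sq_nonneg _
  have h1 : ∀ t ∈ S, ∫ η, ∑ y ∈ R t, Qt β h n t y η *
        ∑ p ∈ s, a p * (L p).indicator (fun _ => (1 : ℝ)) (sh t y η) ∂(law d ρ) ≤
      2 * Real.log (1 + Real.sqrt ((1 + C) ^ s.card * N * St ρ β h n t)) := fun t ht =>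
    bud62 hd (hSn t ht).2 (R t) (hN t ht) s hL ha hC hI (hdep t ht)
  refine (Finset.sum_le_sum h1).trans ?_
  refine logsqrt62 S hS (fun t => (1 + C) ^ s.card * N * St ρ β h n t) (fun t _ => ?_) ?_
  · have := hSt0 t
    positivity
  · rw [← Finset.mul_sum]
    refine mul_le_mul_of_nonneg_left ?_ (by positivity)
    refine le_trans (Finset.sum_le_sum_of_subset_of_nonneg (fun t ht => ?_)
      fun t _ _ => hSt0 t) hV
    exact Finset.mem_Icc.2 (hSn t ht)

end Pool.Agent.W_7d29a1_PL
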