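import Pool.Agent.W_7d29a1_SP.Cnt79
import Pool.Agent.W_7d29a1_Q29.Ce39

/-!
Theorem PL, leaf CATCH: a rare event of the near rows which helps a later event would be found by
the polymer (helper30).
-/

set_option autoImplicit false

namespace Pool.Agent.W_7d29a1_PL.C30

open MeasureTheory ProbabilityTheory Filter Topology Pool.Agent.W_MP_7d29a1_pr
  Pool.Agent.W_7d29a1_h46 Pool.Agent.W_7d29a1_h46u Pool.Agent.W_7d29a1_D2.B35
  Pool.Agent.W_7d29a1_Q29 Pool.Agent.W_7d29a1_R34 Pool.Agent.W_7d29a1_SP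
  Pool.Agent.W_7d29a1_SP.C79

variable {d : ℕ} {ρ : Measure ℝ}

/-- A good atom: `y` carries a positive mass at the time `s` and the free energy is at least `a`. -/
def GA (β : ℝ) (h : Vec d) (c₀ a : ℝ) (s : ℕ) (y : Site d) : Set (Env d) :=
  At β h c₀ s y ∩ {η | a ≤ X β h η s}

/-- There is a good atom from which the event `V` holds. -/
def LV (β : ℝ) (h : Vec d) (c₀ a : ℝ) (V : Set (Env d)) (s : ℕ) : Set (Env d) :=
  {η | ∃ y ∈ boxF d s, η ∈ GA β h c₀ a s y ∧ sh s y η ∈ V}

lemma X_dep30 (β : ℝ) (h : Vec d) (s : ℕ) : DependsOn (fun η : Env d => X β h η s) (Pa d s) := by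
  intro η η' hη
  show Real.log (Z β h η s) = Real.log (Z β h η' s)
  rw [show Z β h η s = Z β h η' s from S98.Z_dep β h s hη]

lemma GA_meas (β : ℝ) (h : Vec d) (c₀ a : ℝ) (s : ℕ) (y : Site d) :
    MeasurableSet (GA β h c₀ a s y) :=
  (At_meas β h c₀ s y).inter (measurableSet_le measurable_const (measurable_X β h s))

lemma GA_dep (β : ℝ) (h : Vec d) (c₀ a : ℝ) (s : ℕ) (y : Site d) :
    DependsOn (fun η => η ∈ GA β h c₀ a s y) (Pa d s) := by
  intro η η' hη
  have h1 : (η ∈ At β h c₀ s y) = (η' ∈ At β h c₀ s y) := At_dep β h c₀ s y hη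
  have h2 : X β h η s = X β h η' s := X_dep30 β h s hη
  show (η ∈ At β h c₀ s y ∧ a ≤ X β h η s) = (η' ∈ At β h c₀ s y ∧ a ≤ X β h η' s)
  rw [h1, h2]

lemma sh_meas30 {V : Set (Env d)} (hV : MeasurableSet V) (s : ℕ) (y : Site d) :
    MeasurableSet {η : Env d | sh s y η ∈ V} := measurable_sh s y hV

/-- An event of the rows `≥ 1` seen from the row `s` depends on the rows `> s`. -/
lemma sh_dep30 {V : Set (Env d)} (hV : DependsOn (fun η => η ∈ V) {p : ℕ × Site d | 1 ≤ p.1})
    (s : ℕ) (y : Site d) :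
    DependsOn (fun η : Env d => η ∈ {η : Env d | sh s y η ∈ V}) (Pa d s)ᶜ := by
  intro η η' hη
  show (sh s y η ∈ V) = (sh s y η' ∈ V)
  refine hV fun p hp => hη (p.1 + s, p.2 + y) ?_
  change ¬ (p.1 + s ≤ s)
  have h1 : 1 ≤ p.1 := hp
  omega

lemma sh_dep30' {V : Set (Env d)} {H : ℕ} (hV : DependsOn (fun η => η ∈ V) (Pa d H))
    (s : ℕ) (y : Site d) :
    DependsOn (fun η : Env d => η ∈ {η : Env d | sh s y η ∈ V}) (Pa d (s + H)) := by
  intro η η' hη
  show (sh s y η ∈ V) = (sh s y η' ∈ V)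
  refine hV fun p hp => hη (p.1 + s, p.2 + y) ?_
  change p.1 + s ≤ s + H
  have h1 : p.1 ≤ H := hp
  omega

lemma sh_I30 [IsProbabilityMeasure ρ] {V : Set (Env d)} (hV : MeasurableSet V) (s : ℕ)
    (y : Site d) : ∫ η, one {η : Env d | sh s y η ∈ V} η ∂(law d ρ) = (law d ρ).real V := by
  rw [one_I (sh_meas30 hV s y)]
  have h1 := (mp_sh (ρ := ρ) s y).measure_preimage hV.nullMeasurableSet
  unfold Measure.real
  rw [← h1]
  rfl

lemma LV_eq (β : ℝ) (h : Vec d) (c₀ a : ℝ) (V : Set (Env d)) (s : ℕ) :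
    LV β h c₀ a V s = ⋃ y ∈ boxF d s, (GA β h c₀ a s y ∩ {η : Env d | sh s y η ∈ V}) := by
  ext η
  simp only [LV, Set.mem_ofPred_eq, Set.mem_iUnion, exists_prop, Set.mem_inter_iff]

lemma LV_meas (β : ℝ) (h : Vec d) (c₀ a : ℝ) {V : Set (Env d)} (hV : MeasurableSet V) (s : ℕ) :
    MeasurableSet (LV β h c₀ a V s) := by
  rw [LV_eq]
  exact Finset.measurableSet_biUnion _ fun y _ =>
    (GA_meas β h c₀ a s y).inter (sh_meas30 hV s y)

lemma LV_dep (β : ℝ) (h : Vec d) (c₀ a : ℝ) {V : Set (Env d)} {H : ℕ}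
    (hV : DependsOn (fun η => η ∈ V) (Pa d H)) (s : ℕ) :
    DependsOn (fun η => η ∈ LV β h c₀ a V s) (Pa d (s + H)) := by
  intro η η' hη
  have h1 : ∀ y, (η ∈ GA β h c₀ a s y) = (η' ∈ GA β h c₀ a s y) := fun y =>
    GA_dep β h c₀ a s y fun p hp => hη p (by
      change p.1 ≤ s + H
      have : p.1 ≤ s := hp
      omega)
  have h2 : ∀ y, (sh s y η ∈ V) = (sh s y η' ∈ V) := fun y => sh_dep30' hV s y hη
  show (∃ y ∈ boxF d s, η ∈ GA β h c₀ a s y ∧ sh s y η ∈ V) =
    (∃ y ∈ boxF d s, η' ∈ GA β h c₀ a s y ∧ sh s y η' ∈ V)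
  simp only [h1, h2]

/-- The upper bound for the event seen from a good atom. -/
lemma up30 [IsProbabilityMeasure ρ] (hd : 0 < d) (β : ℝ) (h : Vec d) (s : ℕ) (a : ℝ) {c₀ : ℝ}
    (hc : 0 < c₀) {V : Set (Env d)} (hVm : MeasurableSet V)
    (hV : DependsOn (fun η => η ∈ V) {p : ℕ × Site d | 1 ≤ p.1}) :
    (law d ρ).real (LV β h c₀ a V s) ≤ (law d ρ).real V / c₀ := by
  have hp0 : 0 ≤ (law d ρ).real V := measureReal_nonneg
  have i1 : ∀ y, Integrable (fun η => one (GA β h c₀ a s y) η *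
      one {η : Env d | sh s y η ∈ V} η) (law d ρ) := fun y =>
    mul_int (GA_meas β h c₀ a s y) (one_int (sh_meas30 hVm s y))
  have e1 : ∀ y, ∫ η, one (GA β h c₀ a s y) η * one {η : Env d | sh s y η ∈ V} η ∂(law d ρ) =
      (∫ η, one (GA β h c₀ a s y) η ∂(law d ρ)) * (law d ρ).real V := by
    intro y
    have h1 := integral_indep (ρ := ρ) (Pa d s) (F := one (GA β h c₀ a s y))
      (G := one {η : Env d | sh s y η ∈ V}) (one_meas (GA_meas β h c₀ a s y))
      (one_meas (sh_meas30 hVm s y)) (one_dep (GA_dep β h c₀ a s y))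
      (one_dep (sh_dep30 hV s y))
    rw [h1, sh_I30 hVm]
  have h1 : ∀ η, one (LV β h c₀ a V s) η ≤
      ∑ y ∈ boxF d s, one (GA β h c₀ a s y) η * one {η : Env d | sh s y η ∈ V} η := by
    intro η
    have hnn : ∀ y ∈ boxF d s, 0 ≤ one (GA β h c₀ a s y) η *
        one {η : Env d | sh s y η ∈ V} η := fun y _ => mul_nonneg (one_nn _ _) (one_nn _ _)
    by_cases hη : η ∈ LV β h c₀ a V s
    · obtain ⟨y, hy, hA, hL⟩ := id hη
      have h2 := Finset.single_le_sum hnn hy
      rw [one_of hA, one_of (B := {η : Env d | sh s y η ∈ V}) hL, one_mul] at h2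
      rw [one_of hη]
      exact h2
    · rw [one_not hη]
      exact Finset.sum_nonneg hnn
  have h2 := integral_mono (one_int (LV_meas β h c₀ a hVm s))
    (integrable_finsetSum (boxF d s) fun y _ => i1 y) h1
  rw [integral_finsetSum _ fun y _ => i1 y, Finset.sum_congr rfl fun y _ => e1 y,
    ← Finset.sum_mul, ← integral_finsetSum _ fun y _ => one_int (GA_meas β h c₀ a s y),
    one_I (LV_meas β h c₀ a hVm s)] at h2
  refine h2.trans ?_
  have h3 : ∫ η, ∑ y ∈ boxF d s, one (GA β h c₀ a s y) η ∂(law d ρ) ≤ 1 / c₀ := by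
    have h4 : ∀ η, ∑ y ∈ boxF d s, one (GA β h c₀ a s y) η ≤ 1 / c₀ := by
      intro η
      refine le_trans (Finset.sum_le_sum fun y _ => ?_) (atoms hd β h hc s η)
      by_cases hη : η ∈ GA β h c₀ a s y
      · rw [one_of hη, one_of hη.1]
      · rw [one_not hη]
        exact one_nn _ _
    have h5 := integral_mono (integrable_finsetSum (boxF d s) fun y _ =>
      one_int (ρ := ρ) (GA_meas β h c₀ a s y)) (integrable_const (1 / c₀)) h4
    rwa [integral_const, probReal_univ, one_smul] at h5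
  calc (∫ η, ∑ y ∈ boxF d s, one (GA β h c₀ a s y) η ∂(law d ρ)) * (law d ρ).real V
      ≤ 1 / c₀ * (law d ρ).real V := mul_le_mul_of_nonneg_right h3 hp0
    _ = (law d ρ).real V / c₀ := by ring

/-- There is a good atom. -/
def GS (β : ℝ) (h : Vec d) (c₀ a : ℝ) (s : ℕ) : Set (Env d) :=
  {η | ∃ y ∈ boxF d s, η ∈ GA β h c₀ a s y}

lemma GS_meas (β : ℝ) (h : Vec d) (c₀ a : ℝ) (s : ℕ) : MeasurableSet (GS β h c₀ a s) := by
  have : GS β h c₀ a s = ⋃ y ∈ boxF d s, GA β h c₀ a s y := by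
    ext η
    simp only [GS, Set.mem_ofPred_eq, Set.mem_iUnion, exists_prop]
  rw [this]
  exact Finset.measurableSet_biUnion _ fun y _ => GA_meas β h c₀ a s y

/-- The lower bound for the event seen from a good atom. -/
lemma low30 [IsProbabilityMeasure ρ] (β : ℝ) (h : Vec d) (s : ℕ) (a c₀ : ℝ)
    {V : Set (Env d)} (hVm : MeasurableSet V)
    (hV : DependsOn (fun η => η ∈ V) {p : ℕ × Site d | 1 ≤ p.1})
    {B : Set (Env d)} (hB : MeasurableSet B) (hdep : DependsOn (fun η => η ∈ B) (Pa d s)) :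
    (law d ρ).real V * (law d ρ).real (GS β h c₀ a s ∩ B) ≤
      (law d ρ).real (LV β h c₀ a V s ∩ B) := by
  set p := (law d ρ).real V with hp
  set S : Env d → ℝ := fun η => ∑ y ∈ boxF d s, one (GA β h c₀ a s y) η with hS
  have hSm : Measurable S := Finset.measurable_fun_sum _ fun y _ =>
    one_meas (GA_meas β h c₀ a s y)
  set w : Site d → Env d → ℝ := fun y η => one B η * (one (GA β h c₀ a s y) η / S η) with hw
  have hwm : ∀ y, Measurable (w y) := fun y =>
    (one_meas hB).mul ((one_meas (GA_meas β h c₀ a s y)).div hSm)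
  have hS0 : ∀ η, 0 ≤ S η := fun η => Finset.sum_nonneg fun y _ => one_nn _ _
  have hw0 : ∀ y η, 0 ≤ w y η := fun y η => mul_nonneg (one_nn _ _) (div_nonneg (one_nn _ _) (hS0 η))
  have hsum : ∀ η, ∑ y ∈ boxF d s, w y η = one (GS β h c₀ a s ∩ B) η := by
    intro η
    show ∑ y ∈ boxF d s, one B η * (one (GA β h c₀ a s y) η / S η) = _
    rw [← Finset.mul_sum, ← Finset.sum_div, one_inter]
    by_cases hη : η ∈ GS β h c₀ a s
    · have hpos : 0 < S η := by
        obtain ⟨y, hy, hA⟩ := hη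
        have h1 := Finset.single_le_sum (s := boxF d s) (f := fun y => one (GA β h c₀ a s y) η)
          (fun y _ => one_nn _ _) hy
        have h2 : one (GA β h c₀ a s y) η = 1 := one_of hA
        simp only [h2] at h1
        exact lt_of_lt_of_le one_pos h1
      rw [one_of hη, show (∑ y ∈ boxF d s, one (GA β h c₀ a s y) η) = S η from rfl,
        div_self hpos.ne', mul_one, one_mul]
    · have hz : S η = 0 := by
        refine Finset.sum_eq_zero fun y hy => one_not fun hA => hη ⟨y, hy, hA⟩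
      rw [one_not hη, show (∑ y ∈ boxF d s, one (GA β h c₀ a s y) η) = S η from rfl, hz, zero_div,
        mul_zero, zero_mul]
  have hw1 : ∀ y ∈ boxF d s, ∀ η, w y η ≤ 1 := by
    intro y hy η
    refine (Finset.single_le_sum (f := fun y => w y η) (fun y _ => hw0 y η) hy).trans ?_
    rw [hsum]
    exact one_le _ _
  have hwn : ∀ y ∈ boxF d s, ∀ η, ‖w y η‖ ≤ 1 := fun y hy η => by
    rw [Real.norm_eq_abs, abs_of_nonneg (hw0 y η)]
    exact hw1 y hy η
  have i1 : ∀ y ∈ boxF d s, Integrable (w y) (law d ρ) := fun y hy =>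
    (integrable_const (1 : ℝ)).mono' (hwm y).aestronglyMeasurable
      (Eventually.of_forall fun η => hwn y hy η)
  have i2 : ∀ y ∈ boxF d s, Integrable (fun η => w y η * one {η : Env d | sh s y η ∈ V} η)
      (law d ρ) :=
    fun y hy => (one_int (sh_meas30 hVm s y)).bdd_mul (c := 1) (hwm y).aestronglyMeasurable
      (Eventually.of_forall fun η => hwn y hy η)
  have e1 : ∀ y, ∫ η, w y η * one {η : Env d | sh s y η ∈ V} η ∂(law d ρ) =
      (∫ η, w y η ∂(law d ρ)) * p := by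
    intro y
    have h1 := integral_indep (ρ := ρ) (Pa d s) (F := w y)
      (G := one {η : Env d | sh s y η ∈ V}) (hwm y)
      (one_meas (sh_meas30 hVm s y)) (fun η η' hη => by
        have h2 := one_dep hdep hη
        have h3 : ∀ y, one (GA β h c₀ a s y) η = one (GA β h c₀ a s y) η' := fun y =>
          one_dep (GA_dep β h c₀ a s y) hη
        show one B η * (one (GA β h c₀ a s y) η / ∑ y ∈ boxF d s, one (GA β h c₀ a s y) η) =
          one B η' * (one (GA β h c₀ a s y) η' / ∑ y ∈ boxF d s, one (GA β h c₀ a s y) η')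
        simp only [h2, h3]) (one_dep (sh_dep30 hV s y))
    rw [h1, sh_I30 hVm]
  have h1 : ∀ η, ∑ y ∈ boxF d s, w y η * one {η : Env d | sh s y η ∈ V} η ≤
      one (LV β h c₀ a V s ∩ B) η := by
    intro η
    by_cases hη : η ∈ LV β h c₀ a V s ∩ B
    · rw [one_of hη]
      refine (Finset.sum_le_sum fun y _ => mul_le_mul_of_nonneg_left
        (one_le {η : Env d | sh s y η ∈ V} η) (hw0 y η)).trans ?_
      simp only [mul_one]
      rw [hsum]
      exact one_le _ _
    · rw [one_not hη]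
      refine Finset.sum_nonpos fun y hy => ?_
      by_cases hB' : η ∈ B
      · by_cases hA : η ∈ GA β h c₀ a s y
        · have hL : η ∉ {η : Env d | sh s y η ∈ V} := fun hL => hη ⟨⟨y, hy, hA, hL⟩, hB'⟩
          rw [one_not hL, mul_zero]
        · show one B η * (one (GA β h c₀ a s y) η / S η) * _ ≤ 0
          rw [one_not hA, zero_div, mul_zero, zero_mul]
      · show one B η * (one (GA β h c₀ a s y) η / S η) * _ ≤ 0
        rw [one_not hB', zero_mul, zero_mul]
  have h2 := integral_mono (integrable_finsetSum (boxF d s) fun y hy => i2 y hy)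
    (one_int ((LV_meas β h c₀ a hVm s).inter hB)) h1
  rw [integral_finsetSum _ fun y hy => i2 y hy, Finset.sum_congr rfl fun y _ => e1 y,
    ← Finset.sum_mul, ← integral_finsetSum _ fun y hy => i1 y hy,
    one_I ((LV_meas β h c₀ a hVm s).inter hB)] at h2
  simp only [hsum] at h2
  rw [one_I ((GS_meas β h c₀ a s).inter hB)] at h2
  linarith

/-- The first localised time from which `V` holds: a lower bound for the later event. -/
lemma main30 [IsProbabilityMeasure ρ] (hd : 0 < d) (β : ℝ) (h : Vec d) {c₀ g : ℝ}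
    (hc : 0 < c₀) (a : ℕ → ℝ) {H : ℕ} (S : Finset ℕ)
    (hS : ∀ s ∈ S, ∀ s' ∈ S, s' < s → s' + H ≤ s)
    (hloc : ∀ s ∈ S, g ≤ (law d ρ).real (GS β h c₀ (a s) s))
    {V F F' : Set (Env d)} (hVm : MeasurableSet V) (hFm : MeasurableSet F)
    (hFm' : MeasurableSet F') (hV : DependsOn (fun η => η ∈ V) (Pa d H))
    (hV1 : DependsOn (fun η => η ∈ V) {p : ℕ × Site d | 1 ≤ p.1})
    (hF1 : DependsOn (fun η => η ∈ F) {p : ℕ × Site d | 1 ≤ p.1})
    (hFF : ∀ s ∈ S, LV β h c₀ (a s) F s ⊆ F') :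
    S.card * (g - ((S.card : ℝ) - 1) * ((law d ρ).real V / c₀)) * (law d ρ).real (V ∩ F) ≤
      (law d ρ).real F' := by
  classical
  set p := (law d ρ).real V with hp
  have hp0 : 0 ≤ p := measureReal_nonneg
  set B : ℕ → Set (Env d) := fun s => {η | ∀ s' ∈ S, s' < s → η ∉ LV β h c₀ (a s') V s'} with hB
  have hBm : ∀ s, MeasurableSet (B s) := by
    intro s
    have e1 : B s = ⋂ s' ∈ S.filter (fun s' => s' < s), (LV β h c₀ (a s') V s')ᶜ := by
      ext η
      simp only [B, Set.mem_ofPred_eq, Set.mem_iInter, Finset.mem_filter, Set.mem_compl_iff,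
        and_imp]
    rw [e1]
    exact Finset.measurableSet_biInter _ fun s' _ => (LV_meas β h c₀ (a s') hVm s').compl
  have hBd : ∀ s ∈ S, DependsOn (fun η => η ∈ B s) (Pa d s) := by
    intro s hs η η' hη
    have h1 : ∀ s' ∈ S, s' < s → ((η ∈ LV β h c₀ (a s') V s') =
        (η' ∈ LV β h c₀ (a s') V s')) := by
      intro s' hs' hlt
      refine LV_dep β h c₀ (a s') hV s' fun q hq => hη q ?_
      have h2 := hS s hs s' hs' hlt
      have h3 : q.1 ≤ s' + H := hq
      show q.1 ≤ s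
      omega
    show (∀ s' ∈ S, s' < s → η ∉ LV β h c₀ (a s') V s') =
      (∀ s' ∈ S, s' < s → η' ∉ LV β h c₀ (a s') V s')
    refine propext ⟨fun h2 s' hs' hlt => ?_, fun h2 s' hs' hlt => ?_⟩
    · rw [← h1 s' hs' hlt]
      exact h2 s' hs' hlt
    · rw [h1 s' hs' hlt]
      exact h2 s' hs' hlt
  have hVF : MeasurableSet (V ∩ F) := hVm.inter hFm
  have hVF1 : DependsOn (fun η => η ∈ V ∩ F) {p : ℕ × Site d | 1 ≤ p.1} := by
    intro η η' hη
    have h1 : (η ∈ V) = (η' ∈ V) := hV1 hη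
    have h2 : (η ∈ F) = (η' ∈ F) := hF1 hη
    show (η ∈ V ∧ η ∈ F) = (η' ∈ V ∧ η' ∈ F)
    rw [h1, h2]
  -- one time
  have hone : ∀ s ∈ S, (g - ((S.card : ℝ) - 1) * (p / c₀)) * (law d ρ).real (V ∩ F) ≤
      (law d ρ).real (LV β h c₀ (a s) (V ∩ F) s ∩ B s) := by
    intro s hs
    have h1 := low30 (ρ := ρ) β h s (a s) c₀ hVF hVF1 (hBm s) (hBd s hs)
    have h2 : g - ((S.card : ℝ) - 1) * (p / c₀) ≤
        (law d ρ).real (GS β h c₀ (a s) s ∩ B s) := by
      have h3 : GS β h c₀ (a s) s ⊆ (GS β h c₀ (a s) s ∩ B s) ∪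
          ⋃ s' ∈ S.filter (fun s' => s' < s), LV β h c₀ (a s') V s' := by
        intro η hη
        by_cases hb : η ∈ B s
        · exact Or.inl ⟨hη, hb⟩
        · right
          simp only [B, Set.mem_ofPred_eq, not_forall, not_not] at hb
          obtain ⟨s', hs', hlt, hL⟩ := hb
          simp only [Set.mem_iUnion, Finset.mem_filter, exists_prop]
          exact ⟨s', ⟨hs', hlt⟩, hL⟩
      have h4 : (law d ρ).real (⋃ s' ∈ S.filter (fun s' => s' < s), LV β h c₀ (a s') V s') ≤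
          ((S.card : ℝ) - 1) * (p / c₀) := by
        refine (measureReal_biUnion_finset_le _ _).trans ?_
        have h5 : ∑ s' ∈ S.filter (fun s' => s' < s), (law d ρ).real (LV β h c₀ (a s') V s') ≤
            ∑ _s' ∈ S.filter (fun s' => s' < s), p / c₀ :=
          Finset.sum_le_sum fun s' _ => up30 hd β h s' (a s') hc hVm hV1
        refine h5.trans ?_
        rw [Finset.sum_const, nsmul_eq_mul]
        refine mul_le_mul_of_nonneg_right ?_ (by positivity)
        have h6 : S.filter (fun s' => s' < s) ⊆ S.erase s := by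
          intro s' hs'
          obtain ⟨h7, h8⟩ := Finset.mem_filter.1 hs'
          exact Finset.mem_erase.2 ⟨h8.ne, h7⟩
        have h7 := Finset.card_le_card h6
        rw [Finset.card_erase_of_mem hs] at h7
        have h8 : 1 ≤ S.card := Finset.card_pos.2 ⟨s, hs⟩
        have h9 : ((S.card - 1 : ℕ) : ℝ) = (S.card : ℝ) - 1 := by
          rw [Nat.cast_sub h8, Nat.cast_one]
        rw [← h9]
        exact_mod_cast h7
      have h5 := (hloc s hs).trans (measureReal_mono h3)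
      have h6 := measureReal_union_le (μ := law d ρ) (GS β h c₀ (a s) s ∩ B s)
        (⋃ s' ∈ S.filter (fun s' => s' < s), LV β h c₀ (a s') V s')
      linarith
    have h3 := mul_le_mul_of_nonneg_right h2
      (measureReal_nonneg : 0 ≤ (law d ρ).real (V ∩ F))
    linarith
  -- the sum
  have hpt : ∀ η, ∑ s ∈ S, one (LV β h c₀ (a s) (V ∩ F) s ∩ B s) η ≤ one F' η := by
    intro η
    have h1 := first79 S (fun s => LV β h c₀ (a s) V s) η
    have h2 : ∑ s ∈ S, one (LV β h c₀ (a s) (V ∩ F) s ∩ B s) η ≤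
        ∑ s ∈ S, one (LV β h c₀ (a s) V s ∩ {η | ∀ s' ∈ S, s' < s →
          η ∉ LV β h c₀ (a s') V s'}) η := by
      refine Finset.sum_le_sum fun s _ => ?_
      by_cases hη : η ∈ LV β h c₀ (a s) (V ∩ F) s ∩ B s
      · have h3 : η ∈ LV β h c₀ (a s) V s ∩ {η | ∀ s' ∈ S, s' < s →
            η ∉ LV β h c₀ (a s') V s'} := by
          obtain ⟨⟨y, hy, hA, hL⟩, hb⟩ := hη
          exact ⟨⟨y, hy, hA, hL.1⟩, hb⟩
        rw [one_of hη, one_of h3]
      · rw [one_not hη]
        exact one_nn _ _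
    by_cases hη : η ∈ F'
    · rw [one_of hη]
      have h3 := one_nn {η | ∀ s ∈ S, η ∉ LV β h c₀ (a s) V s} η
      linarith
    · rw [one_not hη]
      refine (Finset.sum_eq_zero fun s hs => one_not fun hη' => hη ?_).le
      obtain ⟨⟨y, hy, hA, hL⟩, -⟩ := hη'
      exact hFF s hs ⟨y, hy, hA, hL.2⟩
  have hi : ∀ s ∈ S, Integrable (one (LV β h c₀ (a s) (V ∩ F) s ∩ B s)) (law d ρ) :=
    fun s _ => one_int ((LV_meas β h c₀ (a s) hVF s).inter (hBm s))
  have h1 := integral_mono (integrable_finsetSum S hi) (one_int hFm') hpt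
  rw [integral_finsetSum _ hi, one_I hFm', Finset.sum_congr rfl fun s _ =>
    one_I ((LV_meas β h c₀ (a s) hVF s).inter (hBm s))] at h1
  have h2 := Finset.sum_le_sum hone
  rw [Finset.sum_const, nsmul_eq_mul] at h2
  linarith

end Pool.Agent.W_7d29a1_PL.C30
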