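import Pool.Agent.W_7d29a1_SP.Cnt79

/-!
Leaf CATCH: a rare event of the near rows cannot help a later event (helper47). If the event `L` at
an atom of the polymer at a time `s ≤ T` implies the event `L'` at the origin, then
`P(B ∩ L) ≤ C P(L') (P(B) + H / T)` for every event `B` of the rows `≤ H`.
-/

set_option autoImplicit false

namespace Pool.Agent.W_7d29a1_PL.K47

open MeasureTheory ProbabilityTheory Filter Topology Pool.Agent.W_MP_7d29a1_pr
  Pool.Agent.W_7d29a1_h46 Pool.Agent.W_7d29a1_h46u Pool.Agent.W_7d29a1_D2.B35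
  Pool.Agent.W_7d29a1_Q29 Pool.Agent.W_7d29a1_R34 Pool.Agent.W_7d29a1_SP
  Pool.Agent.W_7d29a1_SP.C79

variable {d : ℕ} {ρ : Measure ℝ}

/-- The event `D` seen from `(s, y)`. -/
def Sh (D : Set (Env d)) (s : ℕ) (y : Site d) : Set (Env d) := {η | sh s y η ∈ D}

/-- There is an atom at the time `s` which sees `D`. -/
def LD (β : ℝ) (h : Vec d) (c₀ : ℝ) (D : Set (Env d)) (s : ℕ) : Set (Env d) :=
  {η | ∃ y ∈ boxF d s, η ∈ At β h c₀ s y ∧ η ∈ Sh D s y}

lemma Sh_meas {D : Set (Env d)} (hD : MeasurableSet D) (s : ℕ) (y : Site d) :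
    MeasurableSet (Sh D s y) := measurable_sh s y hD

lemma LD_meas (β : ℝ) (h : Vec d) (c₀ : ℝ) {D : Set (Env d)} (hD : MeasurableSet D) (s : ℕ) :
    MeasurableSet (LD β h c₀ D s) := by
  have e : LD β h c₀ D s = ⋃ y ∈ boxF d s, (At β h c₀ s y ∩ Sh D s y) := by
    ext η
    simp only [LD, Set.mem_ofPred_eq, Set.mem_iUnion, exists_prop, Set.mem_inter_iff]
  rw [e]
  exact Finset.measurableSet_biUnion _ fun y _ => (At_meas β h c₀ s y).inter (Sh_meas hD s y)

/-- The shifted environment does not see the rows `≤ s`. -/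
lemma Sh_dep {D : Set (Env d)} (hD : DependsOn (fun η => η ∈ D) (Pa d 0)ᶜ) (s : ℕ) (y : Site d) :
    DependsOn (fun η => η ∈ Sh D s y) (Pa d s)ᶜ := by
  intro η η' hη
  show (sh s y η ∈ D) = (sh s y η' ∈ D)
  refine hD fun p hp => ?_
  refine hη (p.1 + s, p.2 + y) ?_
  have h1 : ¬ (p.1 ≤ 0) := hp
  show ¬ (p.1 + s ≤ s)
  omega

/-- The shifted event of the rows `≤ H`. -/
lemma Sh_dep2 {D : Set (Env d)} {H : ℕ} (hD : DependsOn (fun η => η ∈ D) (Pa d H)) (s : ℕ)
    (y : Site d) : DependsOn (fun η => η ∈ Sh D s y) (Pa d (s + H)) := by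
  intro η η' hη
  show (sh s y η ∈ D) = (sh s y η' ∈ D)
  refine hD fun p hp => ?_
  refine hη (p.1 + s, p.2 + y) ?_
  have h1 : p.1 ≤ H := hp
  show p.1 + s ≤ s + H
  omega

lemma LD_dep (β : ℝ) (h : Vec d) (c₀ : ℝ) {D : Set (Env d)} {H : ℕ}
    (hD : DependsOn (fun η => η ∈ D) (Pa d H)) (s : ℕ) :
    DependsOn (fun η => η ∈ LD β h c₀ D s) (Pa d (s + H)) := by
  intro η η' hη
  have h1 : ∀ y, (η ∈ At β h c₀ s y) = (η' ∈ At β h c₀ s y) := fun y =>
    At_dep β h c₀ s y fun p hp => hη p (by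
      change p.1 ≤ s + H
      have : p.1 ≤ s := hp
      omega)
  have h2 : ∀ y, (η ∈ Sh D s y) = (η' ∈ Sh D s y) := fun y => Sh_dep2 hD s y hη
  show (∃ y ∈ boxF d s, η ∈ At β h c₀ s y ∧ η ∈ Sh D s y) =
    (∃ y ∈ boxF d s, η' ∈ At β h c₀ s y ∧ η' ∈ Sh D s y)
  simp only [h1, h2]

lemma Sh_I [IsProbabilityMeasure ρ] {D : Set (Env d)} (hD : MeasurableSet D) (s : ℕ)
    (y : Site d) : ∫ η, one (Sh D s y) η ∂(law d ρ) = (law d ρ).real D := by
  rw [one_I (Sh_meas hD s y)]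
  have h1 := (mp_sh (ρ := ρ) s y).measure_preimage hD.nullMeasurableSet
  unfold Measure.real
  rw [← h1]
  rfl

/-- The upper bound: an atom which sees `D`. -/
lemma up47 [IsProbabilityMeasure ρ] (hd : 0 < d) (β : ℝ) (h : Vec d) (s : ℕ) {c₀ : ℝ}
    (hc : 0 < c₀) {D : Set (Env d)} (hD : MeasurableSet D)
    (hdep : DependsOn (fun η => η ∈ D) (Pa d 0)ᶜ) :
    (law d ρ).real (LD β h c₀ D s) ≤ (law d ρ).real D / c₀ := by
  set p := (law d ρ).real D with hp
  have hp0 : 0 ≤ p := measureReal_nonneg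
  have i2 : ∀ y, Integrable (fun η => one (At β h c₀ s y) η * one (Sh D s y) η)
      (law d ρ) := fun y => mul_int (At_meas β h c₀ s y) (one_int (Sh_meas hD s y))
  have e1 : ∀ y, ∫ η, one (At β h c₀ s y) η * one (Sh D s y) η ∂(law d ρ) =
      (∫ η, one (At β h c₀ s y) η ∂(law d ρ)) * p := by
    intro y
    have h1 := integral_indep (ρ := ρ) (Pa d s) (F := one (At β h c₀ s y))
      (G := one (Sh D s y)) (one_meas (At_meas β h c₀ s y))
      (one_meas (Sh_meas hD s y)) (one_dep (At_dep β h c₀ s y)) (one_dep (Sh_dep hdep s y))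
    rw [h1, Sh_I hD]
  have h1 : ∀ η, one (LD β h c₀ D s) η ≤
      ∑ y ∈ boxF d s, one (At β h c₀ s y) η * one (Sh D s y) η := by
    intro η
    have hnn : ∀ y ∈ boxF d s, 0 ≤ one (At β h c₀ s y) η * one (Sh D s y) η :=
      fun y _ => mul_nonneg (one_nn _ _) (one_nn _ _)
    by_cases hη : η ∈ LD β h c₀ D s
    · obtain ⟨y, hy, hA, hL⟩ := hη
      have h2 := Finset.single_le_sum hnn hy
      rw [one_of hA, one_of hL, one_mul] at h2
      rw [one_of (B := LD β h c₀ D s) ⟨y, hy, hA, hL⟩]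
      exact h2
    · rw [one_not hη]
      exact Finset.sum_nonneg hnn
  have h2 := integral_mono (one_int (LD_meas β h c₀ hD s))
    (integrable_finsetSum (boxF d s) fun y _ => i2 y) h1
  rw [integral_finsetSum _ fun y _ => i2 y, Finset.sum_congr rfl fun y _ => e1 y,
    ← Finset.sum_mul, ← integral_finsetSum _ fun y _ => one_int (At_meas β h c₀ s y),
    one_I (LD_meas β h c₀ hD s)] at h2
  refine h2.trans ?_
  have h3 : ∫ η, ∑ y ∈ boxF d s, one (At β h c₀ s y) η ∂(law d ρ) ≤ 1 / c₀ := by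
    have h4 : ∫ _ : Env d, (1 / c₀ : ℝ) ∂(law d ρ) = 1 / c₀ := by
      rw [integral_const]
      simp
    rw [← h4]
    exact integral_mono (integrable_finsetSum (boxF d s) fun y _ =>
      one_int (At_meas β h c₀ s y)) (integrable_const _) fun η => atoms hd β h hc s η
  calc (∫ η, ∑ y ∈ boxF d s, one (At β h c₀ s y) η ∂(law d ρ)) * p
      ≤ (1 / c₀) * p := mul_le_mul_of_nonneg_right h3 hp0
    _ = p / c₀ := by ring

/-- The lower bound: an atom which sees `D`. -/
lemma low47 [IsProbabilityMeasure ρ] (β : ℝ) (h : Vec d) (s : ℕ) (c₀ : ℝ)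
    {D : Set (Env d)} (hD : MeasurableSet D) (hDd : DependsOn (fun η => η ∈ D) (Pa d 0)ᶜ)
    {B : Set (Env d)} (hB : MeasurableSet B) (hdep : DependsOn (fun η => η ∈ B) (Pa d s)) :
    (law d ρ).real D * (law d ρ).real (AS β h c₀ s ∩ B) ≤
      (law d ρ).real (LD β h c₀ D s ∩ B) := by
  set p := (law d ρ).real D with hp
  set S : Env d → ℝ := fun η => ∑ y ∈ boxF d s, one (At β h c₀ s y) η with hS
  have hSm : Measurable S := Finset.measurable_fun_sum _ fun y _ => one_meas (At_meas β h c₀ s y)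
  set w : Site d → Env d → ℝ := fun y η => one B η * (one (At β h c₀ s y) η / S η) with hw
  have hwm : ∀ y, Measurable (w y) := fun y =>
    (one_meas hB).mul ((one_meas (At_meas β h c₀ s y)).div hSm)
  have hS0 : ∀ η, 0 ≤ S η := fun η => Finset.sum_nonneg fun y _ => one_nn _ _
  have hw0 : ∀ y η, 0 ≤ w y η := fun y η => mul_nonneg (one_nn _ _) (div_nonneg (one_nn _ _) (hS0 η))
  have hsum : ∀ η, ∑ y ∈ boxF d s, w y η = one (AS β h c₀ s ∩ B) η := by
    intro η
    show ∑ y ∈ boxF d s, one B η * (one (At β h c₀ s y) η / S η) = _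
    rw [← Finset.mul_sum, ← Finset.sum_div, one_inter]
    by_cases hη : η ∈ AS β h c₀ s
    · have hpos : 0 < S η := by
        obtain ⟨y, hy, hA⟩ := hη
        have h1 := Finset.single_le_sum (s := boxF d s) (f := fun y => one (At β h c₀ s y) η)
          (fun y _ => one_nn _ _) hy
        have h2 : one (At β h c₀ s y) η = 1 := one_of hA
        simp only [h2] at h1
        exact lt_of_lt_of_le one_pos h1
      rw [one_of hη, show (∑ y ∈ boxF d s, one (At β h c₀ s y) η) = S η from rfl,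
        div_self hpos.ne', mul_one, one_mul]
    · have hz : S η = 0 := by
        refine Finset.sum_eq_zero fun y hy => one_not fun hA => hη ⟨y, hy, hA⟩
      rw [one_not hη, show (∑ y ∈ boxF d s, one (At β h c₀ s y) η) = S η from rfl, hz, zero_div,
        mul_zero, zero_mul]
  have hw1 : ∀ y ∈ boxF d s, ∀ η, w y η ≤ 1 := by
    intro y hy η
    refine (Finset.single_le_sum (f := fun y => w y η) (fun y _ => hw0 y η) hy).trans ?_
    rw [hsum]
    exact one_le _ _
  have hwn : ∀ y ∈ boxF d s, ∀ η, ‖w y η‖ ≤ 1 := fun y hy η => by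
    rw [Real.norm_eq_abs, abs_of_nonneg (hw0 y η)]
    exact hw1 y hy η
  have i1 : ∀ y ∈ boxF d s, Integrable (w y) (law d ρ) := fun y hy =>
    (integrable_const (1 : ℝ)).mono' (hwm y).aestronglyMeasurable
      (Eventually.of_forall fun η => hwn y hy η)
  have i2 : ∀ y ∈ boxF d s, Integrable (fun η => w y η * one (Sh D s y) η) (law d ρ) :=
    fun y hy => (one_int (Sh_meas hD s y)).bdd_mul (c := 1) (hwm y).aestronglyMeasurable
      (Eventually.of_forall fun η => hwn y hy η)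
  have e1 : ∀ y, ∫ η, w y η * one (Sh D s y) η ∂(law d ρ) =
      (∫ η, w y η ∂(law d ρ)) * p := by
    intro y
    have h1 := integral_indep (ρ := ρ) (Pa d s) (F := w y)
      (G := one (Sh D s y)) (hwm y)
      (one_meas (Sh_meas hD s y)) (fun η η' hη => by
        have h2 := one_dep hdep hη
        have h3 : ∀ y, one (At β h c₀ s y) η = one (At β h c₀ s y) η' := fun y =>
          one_dep (At_dep β h c₀ s y) hη
        show one B η * (one (At β h c₀ s y) η / ∑ y ∈ boxF d s, one (At β h c₀ s y) η) =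
          one B η' * (one (At β h c₀ s y) η' / ∑ y ∈ boxF d s, one (At β h c₀ s y) η')
        simp only [h2, h3]) (one_dep (Sh_dep hDd s y))
    rw [h1, Sh_I hD]
  have h1 : ∀ η, ∑ y ∈ boxF d s, w y η * one (Sh D s y) η ≤
      one (LD β h c₀ D s ∩ B) η := by
    intro η
    by_cases hη : η ∈ LD β h c₀ D s ∩ B
    · rw [one_of hη]
      refine (Finset.sum_le_sum fun y _ => mul_le_mul_of_nonneg_left
        (one_le (Sh D s y) η) (hw0 y η)).trans ?_
      simp only [mul_one]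
      rw [hsum]
      exact one_le _ _
    · rw [one_not hη]
      refine Finset.sum_nonpos fun y hy => ?_
      by_cases hB' : η ∈ B
      · by_cases hA : η ∈ At β h c₀ s y
        · have hL : η ∉ Sh D s y := fun hL => hη ⟨⟨y, hy, hA, hL⟩, hB'⟩
          rw [one_not hL, mul_zero]
        · show one B η * (one (At β h c₀ s y) η / S η) * _ ≤ 0
          rw [one_not hA, zero_div, mul_zero, zero_mul]
      · show one B η * (one (At β h c₀ s y) η / S η) * _ ≤ 0
        rw [one_not hB', zero_mul, zero_mul]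
  have h2 := integral_mono (integrable_finsetSum (boxF d s) fun y hy => i2 y hy)
    (one_int ((LD_meas β h c₀ hD s).inter hB)) h1
  rw [integral_finsetSum _ fun y hy => i2 y hy, Finset.sum_congr rfl fun y _ => e1 y,
    ← Finset.sum_mul, ← integral_finsetSum _ fun y hy => i1 y hy,
    one_I ((LD_meas β h c₀ hD s).inter hB)] at h2
  simp only [hsum] at h2
  rw [one_I ((AS_meas β h c₀ s).inter hB)] at h2
  linarith

/-- The main computation: `S` = localised times at distances at least `H`. -/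
theorem main47 [IsProbabilityMeasure ρ] (hd : 0 < d) (β : ℝ) (h : Vec d) {c₀ G : ℝ}
    (hc : 0 < c₀) {H : ℕ} (S : Finset ℕ) (hS : ∀ s ∈ S, ∀ s' ∈ S, s' < s → s' + H ≤ s)
    {B L L' : Set (Env d)} (hB : MeasurableSet B) (hL : MeasurableSet L)
    (hBd : DependsOn (fun η => η ∈ B) (Pa d H)) (hB0 : DependsOn (fun η => η ∈ B) (Pa d 0)ᶜ)
    (hL0 : DependsOn (fun η => η ∈ L) (Pa d 0)ᶜ)
    (hloc : ∀ s ∈ S, c₀ ≤ (law d ρ).real (AS β h c₀ s))
    (hgood : ∀ s ∈ S, (law d ρ).real {η | X β h η s < s * lam ρ β h - G} ≤ c₀ / 4)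
    (himp : ∀ s ∈ S, ∀ y ∈ boxF d s, ∀ η, c₀ * Z β h η s ≤ PP β h η s y →
      s * lam ρ β h - G ≤ X β h η s → sh s y η ∈ L → η ∈ L')
    (hsmall : (S.card - 1 : ℝ) * ((law d ρ).real B / c₀) ≤ c₀ / 4) :
    S.card * ((law d ρ).real (B ∩ L) * (c₀ / 2)) ≤ (law d ρ).real L' := by
  classical
  set F : ℕ → Set (Env d) := fun s => LD β h c₀ B s with hF
  have hFm : ∀ s, MeasurableSet (F s) := fun s => LD_meas β h c₀ hB s
  set K : ℕ → Set (Env d) := fun s => {η | ∀ s' ∈ S, s' < s → η ∉ F s'} with hK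
  have hKm : ∀ s, MeasurableSet (K s) := by
    intro s
    have e : K s = ⋂ s' ∈ S, {η | s' < s → η ∉ F s'} := by
      ext η
      simp only [hK, Set.mem_ofPred_eq, Set.mem_iInter]
    rw [e]
    refine Finset.measurableSet_biInter _ fun s' _ => ?_
    by_cases hlt : s' < s
    · have e2 : {η | s' < s → η ∉ F s'} = (F s')ᶜ := by
        ext η
        simp [hlt]
      rw [e2]
      exact (hFm s').compl
    · have e2 : {η : Env d | s' < s → η ∉ F s'} = Set.univ := by
        ext η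
        simp [hlt]
      rw [e2]
      exact MeasurableSet.univ
  have hKd : ∀ s ∈ S, DependsOn (fun η => η ∈ K s) (Pa d s) := by
    intro s hs η η' hη
    have h1 : ∀ s' ∈ S, s' < s → (η ∈ F s') = (η' ∈ F s') := fun s' hs' hlt =>
      LD_dep β h c₀ hBd s' fun q hq => hη q (by
        change q.1 ≤ s
        have h2 : q.1 ≤ s' + H := hq
        exact h2.trans (hS s hs s' hs' hlt))
    show (∀ s' ∈ S, s' < s → η ∉ F s') = (∀ s' ∈ S, s' < s → η' ∉ F s')
    refine propext ⟨fun H s' hs' hlt => ?_, fun H s' hs' hlt => ?_⟩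
    · rw [← h1 s' hs' hlt]
      exact H s' hs' hlt
    · rw [h1 s' hs' hlt]
      exact H s' hs' hlt
  set Gd : ℕ → Set (Env d) := fun s => {η | s * lam ρ β h - G ≤ X β h η s} with hGd
  have hGm : ∀ s, MeasurableSet (Gd s) := fun s =>
    measurableSet_le measurable_const (measurable_X β h s)
  have hGdep : ∀ s, DependsOn (fun η => η ∈ Gd s) (Pa d s) := by
    intro s η η' hη
    have h6 : Z β h η s = Z β h η' s := S98.Z_dep β h s hη
    show (s * lam ρ β h - G ≤ X β h η s) = (s * lam ρ β h - G ≤ X β h η' s)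
    unfold X
    rw [h6]
  set E : ℕ → Set (Env d) := fun s => K s ∩ Gd s with hE
  have hEm : ∀ s, MeasurableSet (E s) := fun s => (hKm s).inter (hGm s)
  have hEd : ∀ s ∈ S, DependsOn (fun η => η ∈ E s) (Pa d s) := by
    intro s hs η η' hη
    have h1 : (η ∈ K s) = (η' ∈ K s) := hKd s hs hη
    have h2 : (η ∈ Gd s) = (η' ∈ Gd s) := hGdep s hη
    show (η ∈ K s ∧ η ∈ Gd s) = (η' ∈ K s ∧ η' ∈ Gd s)
    rw [h1, h2]
  have hBL : MeasurableSet (B ∩ L) := hB.inter hL
  have hBL0 : DependsOn (fun η => η ∈ B ∩ L) (Pa d 0)ᶜ := by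
    intro η η' hη
    have h1 : (η ∈ B) = (η' ∈ B) := hB0 hη
    have h2 : (η ∈ L) = (η' ∈ L) := hL0 hη
    show (η ∈ B ∧ η ∈ L) = (η' ∈ B ∧ η' ∈ L)
    rw [h1, h2]
  set Q : ℕ → Set (Env d) := fun s => LD β h c₀ (B ∩ L) s ∩ E s with hQ
  have hQm : ∀ s, MeasurableSet (Q s) := fun s => (LD_meas β h c₀ hBL s).inter (hEm s)
  -- the events are disjoint and contained in `L'`
  have hQL : ∀ s ∈ S, Q s ⊆ L' := by
    rintro s hs η ⟨⟨y, hy, hA, hD⟩, hKG⟩
    exact himp s hs y hy η hA hKG.2 hD.2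
  have hQF : ∀ s, Q s ⊆ F s := by
    rintro s η ⟨⟨y, hy, hA, hD⟩, _⟩
    exact ⟨y, hy, hA, hD.1⟩
  have hdisj : (S : Set ℕ).PairwiseDisjoint Q := by
    intro s hs s' hs' hne
    have key : ∀ a ∈ S, ∀ b ∈ S, a < b → Disjoint (Q a) (Q b) := by
      intro a ha b _ hab
      rw [Set.disjoint_left]
      intro η h1 h2
      exact h2.2.1 a ha hab (hQF a h1)
    rcases lt_or_gt_of_ne hne with h1 | h1
    · exact key s hs s' hs' h1
    · exact (key s' hs' s hs h1).symm
  have hsumle : ∑ s ∈ S, (law d ρ).real (Q s) ≤ (law d ρ).real L' := by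
    rw [← measureReal_biUnion_finset hdisj fun s _ => hQm s]
    exact measureReal_mono (Set.iUnion₂_subset hQL)
  -- the lower bound of each of them
  have hlow : ∀ s ∈ S, (law d ρ).real (B ∩ L) * (c₀ / 2) ≤ (law d ρ).real (Q s) := by
    intro s hs
    refine le_trans (mul_le_mul_of_nonneg_left ?_ measureReal_nonneg)
      (low47 (ρ := ρ) β h s c₀ hBL hBL0 (hEm s) (hEd s hs))
    have h4 : AS β h c₀ s ⊆ (AS β h c₀ s ∩ E s) ∪
        ({η | X β h η s < s * lam ρ β h - G} ∪ ⋃ s' ∈ S.filter (· < s), F s') := by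
      intro η hη
      by_cases hg : η ∈ Gd s
      · by_cases hk : η ∈ K s
        · exact Or.inl ⟨hη, hk, hg⟩
        · refine Or.inr (Or.inr ?_)
          have h5 : ∃ s' ∈ S, s' < s ∧ η ∈ F s' := by
            by_contra hcon
            push Not at hcon
            exact hk fun s' hs' hlt => hcon s' hs' hlt
          obtain ⟨s', hs', hlt, hF'⟩ := h5
          simp only [Set.mem_iUnion]
          exact ⟨s', Finset.mem_filter.2 ⟨hs', hlt⟩, hF'⟩
      · refine Or.inr (Or.inl ?_)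
        have : ¬ (s * lam ρ β h - G ≤ X β h η s) := hg
        exact lt_of_not_ge this
    have h5 := (measureReal_mono (μ := law d ρ) h4).trans (measureReal_union_le _ _)
    have h6 := measureReal_union_le (μ := law d ρ) {η | X β h η s < s * lam ρ β h - G}
      (⋃ s' ∈ S.filter (· < s), F s')
    have h7 := measureReal_biUnion_finset_le (μ := law d ρ) (S.filter (· < s)) F
    have h8 : ∑ s' ∈ S.filter (· < s), (law d ρ).real (F s') ≤
        (S.card - 1 : ℝ) * ((law d ρ).real B / c₀) := by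
      refine (Finset.sum_le_sum fun s' _ => up47 (ρ := ρ) hd β h s' hc hB hB0).trans ?_
      rw [Finset.sum_const, nsmul_eq_mul]
      refine mul_le_mul_of_nonneg_right ?_ (div_nonneg measureReal_nonneg hc.le)
      have h9 : S.filter (· < s) ⊆ S.erase s := by
        intro a ha
        have := Finset.mem_filter.1 ha
        exact Finset.mem_erase.2 ⟨this.2.ne, this.1⟩
      have h10 := Finset.card_le_card h9
      rw [Finset.card_erase_of_mem hs] at h10
      have h11 : 1 ≤ S.card := Finset.card_pos.2 ⟨s, hs⟩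
      have h12 : ((S.filter (· < s)).card : ℝ) ≤ ((S.card - 1 : ℕ) : ℝ) := by exact_mod_cast h10
      rw [Nat.cast_sub h11, Nat.cast_one] at h12
      exact h12
    have h9 := hloc s hs
    have h10 := hgood s hs
    linarith
  have h1 := Finset.sum_le_sum hlow
  rw [Finset.sum_const, nsmul_eq_mul] at h1
  exact h1.trans hsumle

end Pool.Agent.W_7d29a1_PL.K47

namespace Pool.Agent.W_7d29a1_PL

open MeasureTheory ProbabilityTheory Filter Topology Pool.Agent.W_MP_7d29a1_pr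
  Pool.Agent.W_7d29a1_h46 Pool.Agent.W_7d29a1_h46u Pool.Agent.W_7d29a1_D2.B35
  Pool.Agent.W_7d29a1_Q29 Pool.Agent.W_7d29a1_R34 Pool.Agent.W_7d29a1_SP

/-- CATCH. -/
def CatQ47 (d : ℕ) (ρ : Measure ℝ) (β : ℝ) : Prop := ∀ c₀ : ℝ, 0 < c₀ → ∃ C : ℝ, 1 ≤ C ∧
  ∀ h : Vec d, Loc1 ρ β h c₀ → ∀ (H T : ℕ) (G : ℝ) (B L L' : Set (Env d)), 1 ≤ H → 1 ≤ T →
    MeasurableSet B → MeasurableSet L →
    DependsOn (fun η => η ∈ B) (Pa d H) → DependsOn (fun η => η ∈ B) (Pa d 0)ᶜ →
    DependsOn (fun η => η ∈ L) (Pa d 0)ᶜ →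
    (∀ s : ℕ, s ≤ T → (law d ρ).real {η | X β h η s < s * lam ρ β h - G} ≤ c₀ / 4) →
    (∀ s : ℕ, s ≤ T → ∀ y ∈ boxF d s, ∀ η, c₀ * Z β h η s ≤ PP β h η s y →
      s * lam ρ β h - G ≤ X β h η s → sh s y η ∈ L → η ∈ L') →
    (law d ρ).real (B ∩ L) ≤ C * (law d ρ).real L' * ((law d ρ).real B + H / T)

/-- Leaf CATCH. -/
theorem cat47 {d : ℕ} {ρ : Measure ℝ} [IsProbabilityMeasure ρ] (hd : 0 < d) (β : ℝ) :
    CatQ47 d ρ β := by
  classical
  intro c₀ hc
  refine ⟨8 / c₀ ^ 3 + 4 / c₀ ^ 2 + 1, by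
    have : 0 ≤ 8 / c₀ ^ 3 + 4 / c₀ ^ 2 := by positivity
    linarith, fun h hloc H T G B L L' hH hT hB hL hBd hB0 hL0 hgood himp => ?_⟩
  set p : ℝ := (law d ρ).real B with hp
  set P' : ℝ := (law d ρ).real L' with hP'
  set M : ℝ := (law d ρ).real (B ∩ L) with hM
  have hp0 : 0 ≤ p := measureReal_nonneg
  have hP0 : 0 ≤ P' := measureReal_nonneg
  have hM0 : 0 ≤ M := measureReal_nonneg
  have hH1 : (1 : ℝ) ≤ H := by exact_mod_cast hH
  have hT1 : (1 : ℝ) ≤ T := by exact_mod_cast hT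
  have hMp : M ≤ p := measureReal_mono Set.inter_subset_left
  rcases hp0.eq_or_lt with hpz | hppos
  · have h1 : M ≤ 0 := by rw [hpz]; exact hMp
    refine h1.trans ?_
    positivity
  -- the localised times
  set F : Finset ℕ := (Finset.range T).filter fun t =>
    c₀ ≤ (law d ρ).real {η | ∃ y ∈ boxF d t, c₀ * Z β h η t ≤ PP β h η t y} with hF
  have hFc : c₀ * T ≤ F.card := hloc T
  have hFpos : 1 ≤ F.card := by
    have h1 : (0 : ℝ) < F.card := lt_of_lt_of_le (by positivity) hFc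
    exact_mod_cast h1
  -- the number of times
  set N₁ : ℕ := max 1 ⌊c₀ * T / H⌋₊ with hN₁
  set N₂ : ℕ := ⌊c₀ ^ 2 / (4 * p)⌋₊ + 1 with hN₂
  set N : ℕ := min N₁ N₂ with hN
  have hN1 : 1 ≤ N := le_min (le_max_left _ _) (by omega)
  have hex : ∃ S : Finset ℕ, S ⊆ F ∧ S.card = N ∧ ∀ s ∈ S, ∀ s' ∈ S, s' < s → s' + H ≤ s := by
    by_cases h1 : N ≤ 1
    · obtain ⟨s, hs⟩ := Finset.card_pos.1 (lt_of_lt_of_le Nat.zero_lt_one hFpos)
      refine ⟨{s}, Finset.singleton_subset_iff.2 hs, by rw [Finset.card_singleton]; omega, ?_⟩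
      intro a ha b hb hlt
      rw [Finset.mem_singleton] at ha hb
      omega
    · refine C79.class79 hH F ?_
      have h2 : N ≤ ⌊c₀ * T / H⌋₊ := by
        have h3 : N ≤ N₁ := min_le_left _ _
        rcases le_total 1 ⌊c₀ * T / H⌋₊ with h4 | h4
        · rwa [hN₁, max_eq_right h4] at h3
        · rw [hN₁, max_eq_left h4] at h3
          omega
      have h3 : (N : ℝ) ≤ c₀ * T / H := by
        refine le_trans (by exact_mod_cast h2) (Nat.floor_le (by positivity))
      rw [le_div_iff₀ (by linarith)] at h3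
      exact_mod_cast h3.trans hFc
  obtain ⟨S, hS1, hS2, hS3⟩ := hex
  have hsT : ∀ s ∈ S, s ≤ T := fun s hs =>
    (Finset.mem_range.1 (Finset.mem_filter.1 (hS1 hs)).1).le
  have hsmall : (S.card - 1 : ℝ) * (p / c₀) ≤ c₀ / 4 := by
    rw [hS2]
    have h1 : (N : ℝ) ≤ N₂ := by exact_mod_cast min_le_right _ _
    have h2 : (N₂ : ℝ) ≤ c₀ ^ 2 / (4 * p) + 1 := by
      rw [hN₂]
      push_cast
      have := Nat.floor_le (show 0 ≤ c₀ ^ 2 / (4 * p) by positivity)
      linarith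
    have h3 : (N - 1 : ℝ) ≤ c₀ ^ 2 / (4 * p) := by linarith
    refine (mul_le_mul_of_nonneg_right h3 (by positivity)).trans (le_of_eq ?_)
    field_simp
  have hmain := K47.main47 (ρ := ρ) hd β h (G := G) hc S hS3 hB hL hBd hB0 hL0
    (fun s hs => (Finset.mem_filter.1 (hS1 hs)).2) (fun s hs => hgood s (hsT s hs))
    (fun s hs => himp s (hsT s hs)) hsmall
  rw [hS2] at hmain
  -- the two cases
  have hN' : (N₁ : ℝ) ≤ N ∨ (N₂ : ℝ) ≤ N := by
    rcases le_total N₁ N₂ with h1 | h1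
    · exact Or.inl (by rw [hN, min_eq_left h1])
    · exact Or.inr (by rw [hN, min_eq_right h1])
  have hMc : 0 ≤ M * (c₀ / 2) := by positivity
  have e0 : (8 / c₀ ^ 3 + 4 / c₀ ^ 2 + 1) * P' * (p + H / T) =
      8 / c₀ ^ 3 * P' * p + 4 / c₀ ^ 2 * P' * (H / T) + (8 / c₀ ^ 3 * P' * (H / T) +
        4 / c₀ ^ 2 * P' * p + P' * (p + H / T)) := by ring
  have e1 : 0 ≤ 8 / c₀ ^ 3 * P' * (H / T : ℝ) + 4 / c₀ ^ 2 * P' * p + P' * (p + H / T) := by
    positivity
  have e2 : 0 ≤ 8 / c₀ ^ 3 * P' * p := by positivity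
  have e3 : 0 ≤ 4 / c₀ ^ 2 * P' * (H / T : ℝ) := by positivity
  rw [e0]
  rcases hN' with h1 | h1
  · -- `N₁ ≥ c₀ T / (2 H)`
    have h2 : c₀ * T / (2 * H) ≤ N₁ := by
      have h3 : c₀ * T / H < ⌊c₀ * T / H⌋₊ + 1 := Nat.lt_floor_add_one _
      have h4 : (⌊c₀ * T / H⌋₊ : ℝ) ≤ N₁ := by exact_mod_cast le_max_right _ _
      have h5 : (1 : ℝ) ≤ N₁ := by exact_mod_cast le_max_left _ _
      have h6 : c₀ * T / (2 * H) = c₀ * T / H / 2 := by
        field_simp
      rw [h6]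
      linarith
    have h3 := (mul_le_mul_of_nonneg_right (h2.trans h1) hMc).trans hmain
    have h4 : M ≤ 4 / c₀ ^ 2 * P' * (H / T) := by
      have h5 : M = (c₀ * T / (2 * H) * (M * (c₀ / 2))) * (4 / c₀ ^ 2 * (H / T)) := by
        field_simp
        ring
      rw [h5]
      refine (mul_le_mul_of_nonneg_right h3 (by positivity)).trans (le_of_eq (by ring))
    linarith
  · -- `N₂ ≥ c₀ ^ 2 / (4 p)`
    have h2 : c₀ ^ 2 / (4 * p) ≤ N₂ := by
      rw [hN₂]
      push_cast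
      exact (Nat.lt_floor_add_one _).le
    have h3 := (mul_le_mul_of_nonneg_right (h2.trans h1) hMc).trans hmain
    have h4 : M ≤ 8 / c₀ ^ 3 * P' * p := by
      have h5 : M = (c₀ ^ 2 / (4 * p) * (M * (c₀ / 2))) * (8 / c₀ ^ 3 * p) := by
        field_simp
        ring
      rw [h5]
      refine (mul_le_mul_of_nonneg_right h3 (by positivity)).trans (le_of_eq (by ring))
    linarith

end Pool.Agent.W_7d29a1_PL
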