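import Pool.Agent.W_7d29a1_PL.Cat30

/-!
Theorem PL, leaf CATCH (helper30).
-/

set_option autoImplicit false

namespace Pool.Agent.W_7d29a1_PL.C30

open MeasureTheory ProbabilityTheory Filter Topology Pool.Agent.W_MP_7d29a1_pr
  Pool.Agent.W_7d29a1_h46 Pool.Agent.W_7d29a1_h46u Pool.Agent.W_7d29a1_D2.B35
  Pool.Agent.W_7d29a1_Q29 Pool.Agent.W_7d29a1_R34 Pool.Agent.W_7d29a1_SP
  Pool.Agent.W_7d29a1_SP.C79

/-- CATCH: an event `L` of the near rows together with a later event `F` is at most as likely as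
if the near rows did not help, the horizons and the thresholds of `F` being lowered (`F'`). -/
def CatP30 (d : ℕ) (ρ : Measure ℝ) (β : ℝ) : Prop := ∀ c₀ : ℝ, 0 < c₀ → ∃ C : ℝ, 1 ≤ C ∧
  ∀ h : Vec d, Loc1 ρ β h c₀ → ∀ (H N m : ℕ) (b : ℝ) (L F F' : Set (Env d)), 1 ≤ H → 1 ≤ N →
    C * H * N ≤ m → 0 ≤ b → (∀ k : ℕ, k ≤ m → En ρ β h k ≤ b ∧ Fn ρ β h k ≤ b) →
    MeasurableSet L → MeasurableSet F → MeasurableSet F' →
    DependsOn (fun η => η ∈ L) (Pa d H) →
    DependsOn (fun η => η ∈ F) {p : ℕ × Site d | 1 ≤ p.1} →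
    (∀ s : ℕ, s ≤ m → ∀ y ∈ boxF d s, ∀ η : Env d, c₀ * Z β h η s ≤ PP β h η s y →
      s * lam ρ β h - C * (b + 1) ≤ X β h η s → sh s y η ∈ F → η ∈ F') →
    (law d ρ).real (L ∩ F) ≤ C * ((law d ρ).real L + 1 / N) * (law d ρ).real F'

variable {d : ℕ} {ρ : Measure ℝ}

/-- `cE` of an event of the rows `≥ 1` does not depend on the row `0`. -/
lemma cE_dep1 [IsProbabilityMeasure ρ] (H : ℕ) {F : Set (Env d)}
    (hF : DependsOn (fun η => η ∈ F) {p : ℕ × Site d | 1 ≤ p.1}) :
    DependsOn (cE ρ (Pa d H) (one F)) {p : ℕ × Site d | 1 ≤ p.1} := by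
  intro η η' hη
  unfold cE
  refine integral_congr_ae (Eventually.of_forall fun ξ => ?_)
  show one F (spl (Pa d H) η ξ) = one F (spl (Pa d H) η' ξ)
  refine one_dep hF fun p hp => ?_
  unfold spl
  by_cases h1 : p ∈ Pa d H
  · simp only [h1, if_true]
    exact hη p hp
  · simp only [h1, if_false]

/-- There is a good atom with positive probability. -/
lemma good30 [IsProbabilityMeasure ρ] (hd : 0 < d) (hρ : EM ρ) (β : ℝ) (h : Vec d) {c₀ C b : ℝ}
    (hc : 0 < c₀) (hC : 2 / c₀ + 1 ≤ C) {s : ℕ} (hb : 0 ≤ b) (hE : En ρ β h s ≤ b)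
    (hF : Fn ρ β h s ≤ b)
    (hloc : c₀ ≤ (law d ρ).real {η | ∃ y ∈ boxF d s, c₀ * Z β h η s ≤ PP β h η s y}) :
    c₀ / 2 ≤ (law d ρ).real (GS β h c₀ (s * lam ρ β h - C * (b + 1)) s) := by
  set a := s * lam ρ β h - C * (b + 1) with ha
  have hC1 : 0 < C - 1 := by
    have : 0 < 2 / c₀ := by positivity
    linarith
  have h1 : AS β h c₀ s ⊆ GS β h c₀ a s ∪ {η | (C - 1) * (b + 1) ≤ |X β h η s - A ρ β h s|} := by
    intro η hη
    by_cases h2 : a ≤ X β h η s
    · obtain ⟨y, hy, hA⟩ := hη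
      exact Or.inl ⟨y, hy, hA, h2⟩
    · right
      show (C - 1) * (b + 1) ≤ |X β h η s - A ρ β h s|
      have h3 : X β h η s - A ρ β h s ≤ -((C - 1) * (b + 1)) := by
        unfold En at hE
        have h4 := not_le.1 h2
        linarith
      have h4 : 0 ≤ (C - 1) * (b + 1) := by positivity
      rw [abs_of_nonpos (by linarith)]
      linarith
  have h2 : (law d ρ).real {η | (C - 1) * (b + 1) ≤ |X β h η s - A ρ β h s|} ≤ c₀ / 2 := by
    have hi : Integrable (fun η => |X β h η s - A ρ β h s|) (law d ρ) :=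
      ((concU hd hρ β h s).1.sub (integrable_const _)).abs
    have h3 := mul_meas_ge_le_integral_of_nonneg (μ := law d ρ)
      (f := fun η => |X β h η s - A ρ β h s|) (Eventually.of_forall fun η => abs_nonneg _) hi
      ((C - 1) * (b + 1))
    have h4 : (∫ η, |X β h η s - A ρ β h s| ∂(law d ρ)) ≤ b := hF
    have h5 : (C - 1) * (b + 1) * (law d ρ).real
        {η | (C - 1) * (b + 1) ≤ |X β h η s - A ρ β h s|} ≤ b := h3.trans h4
    have h6 : 2 / c₀ ≤ C - 1 := by linarith
    have h7 : 2 / c₀ * (b + 1) ≤ (C - 1) * (b + 1) :=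
      mul_le_mul_of_nonneg_right h6 (by linarith)
    have h8 : 0 ≤ (law d ρ).real {η | (C - 1) * (b + 1) ≤ |X β h η s - A ρ β h s|} :=
      measureReal_nonneg
    have h9 := (mul_le_mul_of_nonneg_right h7 h8).trans h5
    have h10 : 2 / c₀ * (b + 1) * (law d ρ).real
        {η | (C - 1) * (b + 1) ≤ |X β h η s - A ρ β h s|} * (c₀ / 2) =
        (b + 1) * (law d ρ).real {η | (C - 1) * (b + 1) ≤ |X β h η s - A ρ β h s|} := by
      field_simp
    have h11 := mul_le_mul_of_nonneg_right h9 (by positivity : 0 ≤ c₀ / 2)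
    rw [h10] at h11
    have h12 : b * (c₀ / 2) ≤ (b + 1) * (c₀ / 2) :=
      mul_le_mul_of_nonneg_right (by linarith) (by positivity)
    have h13 := h11.trans h12
    exact le_of_mul_le_mul_left h13 (by linarith)
  have h3 := (hloc.trans (measureReal_mono h1)).trans (measureReal_union_le _ _)
  linarith

end Pool.Agent.W_7d29a1_PL.C30

namespace Pool.Agent.W_7d29a1_PL

open MeasureTheory ProbabilityTheory Filter Topology Pool.Agent.W_MP_7d29a1_pr
  Pool.Agent.W_7d29a1_h46 Pool.Agent.W_7d29a1_h46u Pool.Agent.W_7d29a1_D2.B35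
  Pool.Agent.W_7d29a1_Q29 Pool.Agent.W_7d29a1_R34 Pool.Agent.W_7d29a1_SP
  Pool.Agent.W_7d29a1_SP.C79 C30

/-- Leaf CATCH. -/
theorem catP30 {d : ℕ} {ρ : Measure ℝ} [IsProbabilityMeasure ρ] (hd : 0 < d) (hρ : EM ρ)
    (β : ℝ) : CatP30 d ρ β := by
  classical
  intro c₀ hc
  obtain ⟨C, hCe⟩ : ∃ C : ℝ, C = 2 / c₀ + 1 + 1 / c₀ + 32 / c₀ ^ 3 + 4 / c₀ := ⟨_, rfl⟩
  have q1 : 0 < 2 / c₀ := by positivity
  have q2 : 0 < 1 / c₀ := by positivity
  have q3 : 0 < 32 / c₀ ^ 3 := by positivity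
  have q4 : 0 < 4 / c₀ := by positivity
  refine ⟨C, by linarith, ?_⟩
  intro h hloc H N m b L F F' hH hN hm hb hEF hLm hFm hFm' hL hF hFF
  have hN0 : (0 : ℝ) < N := by exact_mod_cast hN
  have hH0 : (0 : ℝ) < H := by exact_mod_cast hH
  have hPF' : 0 ≤ (law d ρ).real F' := measureReal_nonneg
  have hPL : 0 ≤ (law d ρ).real L := measureReal_nonneg
  -- the localised times
  obtain ⟨S, hS1, hS2, hS3⟩ := class79 (m := H) (N := N) hH ((Finset.range m).filter fun t =>
    c₀ ≤ (law d ρ).real {η | ∃ y ∈ boxF d t, c₀ * Z β h η t ≤ PP β h η t y}) (by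
      have h1 := hloc m
      have h2 : ((N * H : ℕ) : ℝ) ≤ c₀ * m := by
        have h3 : 1 / c₀ * H * N ≤ C * H * N := by
          have : 1 / c₀ ≤ C := by linarith
          have h4 := mul_le_mul_of_nonneg_right this hH0.le
          exact mul_le_mul_of_nonneg_right h4 hN0.le
        have h4 := mul_le_mul_of_nonneg_left (h3.trans hm) hc.le
        have h5 : c₀ * (1 / c₀ * H * N) = ((N * H : ℕ) : ℝ) := by
          push_cast
          field_simp
        linarith
      exact_mod_cast h2.trans h1)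
  have hSm : ∀ s ∈ S, s ≤ m := fun s hs =>
    (Finset.mem_range.1 (Finset.mem_filter.1 (hS1 hs)).1).le
  have hSg : ∀ s ∈ S, c₀ / 2 ≤ (law d ρ).real
      (GS β h c₀ (s * lam ρ β h - C * (b + 1)) s) := fun s hs =>
    good30 hd hρ β h hc (by linarith) hb (hEF s (hSm s hs)).1 (hEF s (hSm s hs)).2
      (Finset.mem_filter.1 (hS1 hs)).2
  have hSF : ∀ s ∈ S, LV β h c₀ (s * lam ρ β h - C * (b + 1)) F s ⊆ F' := by
    rintro s hs η ⟨y, hy, hA, hV⟩
    exact hFF s (hSm s hs) y hy η hA.1 hA.2 hV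
  -- the conditional probability
  obtain ⟨R, hR⟩ : ∃ R : Env d → ℝ, R = cE ρ (Pa d H) (one F) := ⟨_, rfl⟩
  have hRm : Measurable R := by rw [hR]; exact measurable_cE (one_meas hFm) _
  have hR0 : ∀ η, 0 ≤ R η := by rw [hR]; exact fun η => cE_nonneg (one_nn F) _ η
  have hRd : DependsOn R (Pa d H) := by rw [hR]; exact cE_dep _ _
  have hRd1 : DependsOn R {p : ℕ × Site d | 1 ≤ p.1} := by rw [hR]; exact cE_dep1 H hF
  -- the mass of `F` on an event of the near rows
  have htow : ∀ B : Set (Env d), MeasurableSet B → DependsOn (fun η => η ∈ B) (Pa d H) →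
      (law d ρ).real (B ∩ F) = ∫ η, R η * one B η ∂(law d ρ) := by
    intro B hBm hBd
    have h1 := int_mul_cE (ρ := ρ) (Pa d H) (F := one F) (H := one B)
      (mul_int hFm (one_int hBm)) (one_dep hBd)
    rw [← one_I (hBm.inter hFm), hR, ← h1]
    refine integral_congr_ae (Eventually.of_forall fun η => ?_)
    show one (B ∩ F) η = one F η * one B η
    rw [one_inter, mul_comm]
  have hRi : ∀ B : Set (Env d), MeasurableSet B → Integrable (fun η => R η * one B η)
      (law d ρ) := by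
    intro B hBm
    refine Integrable.of_bound (hRm.mul (one_meas hBm)).aestronglyMeasurable 1
      (Eventually.of_forall fun η => ?_)
    rw [Real.norm_eq_abs, abs_of_nonneg (mul_nonneg (hR0 η) (one_nn _ _))]
    have h1 : R η ≤ 1 := by
      rw [hR]
      exact cE_le (one_meas hFm) (one_nn F) (one_le F) _ η
    exact mul_le_one₀ h1 (one_nn _ _) (one_le _ _)
  -- the main inequality for a part of the times
  have key : ∀ (V : Set (Env d)) (N' : ℕ), MeasurableSet V →
      DependsOn (fun η => η ∈ V) (Pa d H) →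
      DependsOn (fun η => η ∈ V) {p : ℕ × Site d | 1 ≤ p.1} → 1 ≤ N' → N' ≤ N →
      ((N' : ℝ) - 1) * (law d ρ).real V ≤ c₀ ^ 2 / 4 →
      N' * (c₀ / 4) * (law d ρ).real (V ∩ F) ≤ (law d ρ).real F' := by
    intro V N' hVm hVd hVd1 hN'1 hN' hp
    obtain ⟨S', hS'1, hS'2⟩ := Finset.exists_subset_card_eq (hS2 ▸ hN' : N' ≤ S.card)
    have h1 := main30 hd β h hc (fun s => s * lam ρ β h - C * (b + 1)) S'
      (fun s hs s' hs' hlt => hS3 s (hS'1 hs) s' (hS'1 hs') hlt)
      (fun s hs => hSg s (hS'1 hs)) hVm hFm hFm' hVd hVd1 hF (fun s hs => hSF s (hS'1 hs))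
    rw [hS'2] at h1
    have h2 : c₀ / 4 ≤ c₀ / 2 - ((N' : ℝ) - 1) * ((law d ρ).real V / c₀) := by
      have h3 : ((N' : ℝ) - 1) * ((law d ρ).real V / c₀) =
          ((N' : ℝ) - 1) * (law d ρ).real V / c₀ := by ring
      have h4 : ((N' : ℝ) - 1) * (law d ρ).real V / c₀ ≤ c₀ ^ 2 / 4 / c₀ :=
        div_le_div_of_nonneg_right hp hc.le
      have h5 : c₀ ^ 2 / 4 / c₀ = c₀ / 4 := by field_simp
      rw [h3]
      linarith
    have hN'0 : (0 : ℝ) < N' := by exact_mod_cast hN'1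
    have h3 := mul_le_mul_of_nonneg_right (mul_le_mul_of_nonneg_left h2 hN'0.le)
      (measureReal_nonneg : 0 ≤ (law d ρ).real (V ∩ F))
    exact h3.trans h1
  rcases hPF'.eq_or_lt with h0 | h0
  · -- the later event is impossible
    have h1 := key Set.univ 1 MeasurableSet.univ (fun _ _ _ => rfl) (fun _ _ _ => rfl) le_rfl hN
      (by rw [Nat.cast_one, sub_self, zero_mul]; positivity)
    rw [Set.univ_inter, Nat.cast_one, one_mul, ← h0] at h1
    have h2 : (law d ρ).real F ≤ 0 := by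
      by_contra hcon
      have : 0 < c₀ / 4 * (law d ρ).real F := mul_pos (by positivity) (not_le.1 hcon)
      linarith
    have h3 : (law d ρ).real (L ∩ F) ≤ (law d ρ).real F := measureReal_mono Set.inter_subset_right
    rw [← h0, mul_zero]
    linarith
  obtain ⟨r, hr⟩ : ∃ r : ℝ, r = 32 / c₀ ^ 3 * (law d ρ).real F' := ⟨_, rfl⟩
  have hr0 : 0 < r := by rw [hr]; positivity
  obtain ⟨V, hV⟩ : ∃ V : Set (Env d), V = {η | r ≤ R η} := ⟨_, rfl⟩
  have hVm : MeasurableSet V := by rw [hV]; exact measurableSet_le measurable_const hRm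
  have hVd : DependsOn (fun η => η ∈ V) (Pa d H) := by
    intro η η' hη
    rw [hV]
    show (r ≤ R η) = (r ≤ R η')
    rw [hRd hη]
  have hVd1 : DependsOn (fun η => η ∈ V) {p : ℕ × Site d | 1 ≤ p.1} := by
    intro η η' hη
    rw [hV]
    show (r ≤ R η) = (r ≤ R η')
    rw [hRd1 hη]
  have hVF : r * (law d ρ).real V ≤ (law d ρ).real (V ∩ F) := by
    rw [htow V hVm hVd, ← one_I hVm, ← integral_const_mul]
    refine integral_mono ((one_int hVm).const_mul r) (hRi V hVm) fun η => ?_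
    by_cases hη : η ∈ V
    · rw [one_of hη, mul_one, mul_one]
      rw [hV] at hη
      exact hη
    · rw [one_not hη, mul_zero, mul_zero]
  have hpV : ((N : ℝ) - 1) * (law d ρ).real V ≤ c₀ ^ 2 / 4 := by
    by_contra hcon
    have hcon' := not_le.1 hcon
    have hp0 : 0 < (law d ρ).real V := by
      by_contra h1
      have h2 : (law d ρ).real V = 0 := le_antisymm (not_lt.1 h1) measureReal_nonneg
      rw [h2, mul_zero] at hcon'
      have : 0 < c₀ ^ 2 / 4 := by positivity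
      linarith
    obtain ⟨k, hk⟩ : ∃ k : ℕ, k = ⌊c₀ ^ 2 / 4 / (law d ρ).real V⌋₊ := ⟨_, rfl⟩
    have hk1 : (k : ℝ) ≤ c₀ ^ 2 / 4 / (law d ρ).real V := by
      rw [hk]
      exact Nat.floor_le (by positivity)
    have hk2 : c₀ ^ 2 / 4 / (law d ρ).real V < k + 1 := by
      rw [hk]
      exact Nat.lt_floor_add_one _
    have hk3 : k + 1 ≤ N := by
      have h1 : (k : ℝ) < (N : ℝ) - 1 := by
        refine lt_of_le_of_lt hk1 ?_
        rwa [div_lt_iff₀ hp0]
      have h2 : (k : ℝ) + 1 < N := by linarith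
      exact_mod_cast h2.le
    have h1 := key V (k + 1) hVm hVd hVd1 (by omega) hk3 (by
      push_cast
      rw [add_sub_cancel_right]
      rwa [le_div_iff₀ hp0] at hk1)
    have h2 : c₀ ^ 2 / 4 ≤ ((k + 1 : ℕ) : ℝ) * (law d ρ).real V := by
      push_cast
      rw [div_lt_iff₀ hp0] at hk2
      exact hk2.le
    have h3 : c₀ / 4 * r * (c₀ ^ 2 / 4) ≤
        ((k + 1 : ℕ) : ℝ) * (c₀ / 4) * (law d ρ).real (V ∩ F) := by
      calc c₀ / 4 * r * (c₀ ^ 2 / 4) ≤ c₀ / 4 * r * (((k + 1 : ℕ) : ℝ) * (law d ρ).real V) :=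
            mul_le_mul_of_nonneg_left h2 (by positivity)
        _ = ((k + 1 : ℕ) : ℝ) * (c₀ / 4) * (r * (law d ρ).real V) := by ring
        _ ≤ _ := mul_le_mul_of_nonneg_left hVF (by positivity)
    have h4 : c₀ / 4 * r * (c₀ ^ 2 / 4) = 2 * (law d ρ).real F' := by
      rw [hr]
      field_simp
      ring
    linarith
  have h1 := key V N hVm hVd hVd1 hN le_rfl hpV
  -- the two parts
  have h2 : (law d ρ).real (L ∩ F) ≤ r * (law d ρ).real L + (law d ρ).real (V ∩ F) := by
    rw [htow L hLm hL, htow V hVm hVd, ← one_I hLm, ← integral_const_mul,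
      ← integral_add ((one_int hLm).const_mul r) (hRi V hVm)]
    refine integral_mono (hRi L hLm) (((one_int hLm).const_mul r).add (hRi V hVm)) fun η => ?_
    show R η * one L η ≤ r * one L η + R η * one V η
    by_cases hη : η ∈ V
    · rw [one_of hη, mul_one]
      have h3 := mul_le_mul_of_nonneg_left (one_le L η) (hR0 η)
      have h4 := mul_nonneg hr0.le (one_nn L η)
      linarith
    · have h3 : R η ≤ r := by
        rw [hV] at hη
        exact (not_le.1 hη).le
      rw [one_not hη, mul_zero, add_zero]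
      exact mul_le_mul_of_nonneg_right h3 (one_nn L η)
  have h3 : (law d ρ).real (V ∩ F) ≤ 4 / c₀ * (1 / N) * (law d ρ).real F' := by
    have h4 : (law d ρ).real (V ∩ F) =
        4 / c₀ * (1 / N) * (N * (c₀ / 4) * (law d ρ).real (V ∩ F)) := by
      field_simp
    rw [h4]
    exact mul_le_mul_of_nonneg_left h1 (by positivity)
  have h4 : 4 / c₀ * (1 / N) * (law d ρ).real F' ≤ C * (1 / N) * (law d ρ).real F' :=
    mul_le_mul_of_nonneg_right (mul_le_mul_of_nonneg_right (by linarith) (by positivity)) hPF'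
  have h5 : r * (law d ρ).real L ≤ C * (law d ρ).real L * (law d ρ).real F' := by
    rw [hr]
    have h6 : 32 / c₀ ^ 3 * ((law d ρ).real F' * (law d ρ).real L) ≤
        C * ((law d ρ).real F' * (law d ρ).real L) :=
      mul_le_mul_of_nonneg_right (by linarith) (mul_nonneg hPF' hPL)
    linarith
  have h6 : C * ((law d ρ).real L + 1 / N) * (law d ρ).real F' =
      C * (law d ρ).real L * (law d ρ).real F' + C * (1 / N) * (law d ρ).real F' := by ring
  linarith

end Pool.Agent.W_7d29a1_PL
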