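import Pool.Agent.W_7d29a1_PL.DefsPL
import Pool.Agent.W_7d29a1_PL.Cat47

/-!
Leaf CAT of PL from `cat47` (helper47).
-/

set_option autoImplicit false

namespace Pool.Agent.W_7d29a1_PL

open MeasureTheory ProbabilityTheory Filter Topology Pool.Agent.W_MP_7d29a1_pr
  Pool.Agent.W_7d29a1_h46 Pool.Agent.W_7d29a1_h46u Pool.Agent.W_7d29a1_D2.B35
  Pool.Agent.W_7d29a1_Q29 Pool.Agent.W_7d29a1_R34 Pool.Agent.W_7d29a1_SP

/-- CAT. -/
theorem catP47 {d : ℕ} {ρ : Measure ℝ} [IsProbabilityMeasure ρ] (hd : 0 < d) (hρ : EM ρ)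
    (β : ℝ) : CatP d ρ β := by
  intro c₀ hc
  obtain ⟨C, hC, h1⟩ := cat47 (d := d) (ρ := ρ) hd β c₀ hc
  have hCb : 0 < 4 / c₀ := by positivity
  set C' : ℝ := max C (1 + 4 / c₀) with hC'
  have hC'1 : C ≤ C' := le_max_left _ _
  have hC'2 : 1 + 4 / c₀ ≤ C' := le_max_right _ _
  refine ⟨C', by linarith, fun h hloc m T Φ L G G' hm hT hL hG _ hLd hGd hΦ himp => ?_⟩
  have hΦ0 : 0 ≤ Φ := by
    refine le_trans ?_ (hΦ 0 (Nat.zero_le _)).2
    exact integral_nonneg fun η => abs_nonneg _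
  have hL1 : DependsOn (fun η => η ∈ L) (Pa d m) := by
    intro η η' hη
    exact hLd fun p hp => hη p hp.2
  have hL0 : DependsOn (fun η => η ∈ L) (Pa d 0)ᶜ := by
    intro η η' hη
    refine hLd fun p hp => hη p ?_
    have h2 : 1 ≤ p.1 := hp.1
    show ¬ (p.1 ≤ 0)
    omega
  have hG0 : DependsOn (fun η => η ∈ G) (Pa d 0)ᶜ := by
    intro η η' hη
    refine hGd fun p hp => hη p ?_
    have h2 : 1 ≤ p.1 := hp
    show ¬ (p.1 ≤ 0)
    omega
  have h2 := h1 h hloc m T (C' * (Φ + 1)) L G G' hm hT hL hG hL1 hL0 hG0 (fun s hs => ?_)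
    (fun s hs y hy η hA hX hGs => himp s y η hs hy hA hX hGs)
  · refine h2.trans ?_
    have h3 : 0 ≤ (law d ρ).real L + (m : ℝ) / T := by positivity
    have h4 : 0 ≤ (law d ρ).real G' := measureReal_nonneg
    have h5 : C * (law d ρ).real G' * ((law d ρ).real L + (m : ℝ) / T) =
        C * (((law d ρ).real L + (m : ℝ) / T) * (law d ρ).real G') := by ring
    have h6 : C' * ((law d ρ).real L + (m : ℝ) / T) * (law d ρ).real G' =
        C' * (((law d ρ).real L + (m : ℝ) / T) * (law d ρ).real G') := by ring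
    rw [h5, h6]
    exact mul_le_mul_of_nonneg_right hC'1 (mul_nonneg h3 h4)
  · -- Markov
    have hX : Integrable (fun η => X β h η s) (law d ρ) := (concU hd hρ β h s).1
    have hY : Integrable (fun η => |X β h η s - A ρ β h s|) (law d ρ) :=
      (hX.sub (integrable_const _)).abs
    have hE := (hΦ s hs).1
    have hF := (hΦ s hs).2
    set r : ℝ := 4 / c₀ * (Φ + 1) with hr
    have hr0 : 0 < r := by positivity
    have hsub : {η : Env d | X β h η s < s * lam ρ β h - C' * (Φ + 1)} ⊆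
        {η | r ≤ |X β h η s - A ρ β h s|} := by
      intro η hη
      have h3 : X β h η s < s * lam ρ β h - C' * (Φ + 1) := hη
      have h4 : (1 + 4 / c₀) * (Φ + 1) ≤ C' * (Φ + 1) :=
        mul_le_mul_of_nonneg_right hC'2 (by linarith)
      have h5 := neg_abs_le (X β h η s - A ρ β h s)
      unfold En at hE
      show r ≤ |X β h η s - A ρ β h s|
      rw [hr]
      linarith
    have h3 := mul_meas_ge_le_integral_of_nonneg
      (Eventually.of_forall fun η => abs_nonneg (X β h η s - A ρ β h s)) hY r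
    have h4 : r * (law d ρ).real {η | r ≤ |X β h η s - A ρ β h s|} ≤ Fn ρ β h s := h3
    have h5 := mul_le_mul_of_nonneg_left (measureReal_mono (μ := law d ρ) hsub
      (measure_ne_top _ _)) hr0.le
    have h6 : r * (law d ρ).real {η : Env d | X β h η s < s * lam ρ β h - C' * (Φ + 1)} ≤
        Φ + 1 := by linarith
    have h7 : r * (c₀ / 4) = Φ + 1 := by
      rw [hr]
      field_simp
    exact le_of_mul_le_mul_left (h6.trans h7.ge) hr0

end Pool.Agent.W_7d29a1_PL
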