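import Pool.Agent.W_7d29a1_SP.Cnt79
import Pool.Agent.W_7d29a1_Q29.Ce39

/-!
Theorem PL, leaf CATCH: the polymer catches the good near rows (helper13).
-/

namespace Pool.Agent.W_7d29a1_PL.K13

open MeasureTheory ProbabilityTheory Filter Topology Pool.Agent.W_MP_7d29a1_pr
  Pool.Agent.W_7d29a1_h46 Pool.Agent.W_7d29a1_h46u Pool.Agent.W_7d29a1_D2.B35
  Pool.Agent.W_7d29a1_Q29 Pool.Agent.W_7d29a1_R34 Pool.Agent.W_7d29a1_SP
  Pool.Agent.W_7d29a1_SP.C79

variable {d : ℕ} {ρ : Measure ℝ}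

/-- The environment seen from `(s, y)` is in `D`. -/
def Sv (D : Set (Env d)) (s : ℕ) (y : Site d) : Set (Env d) := {η | sh s y η ∈ D}

/-- There is an atom at the time `s` which sees `D`. -/
def LG (β : ℝ) (h : Vec d) (c₀ : ℝ) (D : Set (Env d)) (s : ℕ) : Set (Env d) :=
  {η | ∃ y ∈ boxF d s, η ∈ At β h c₀ s y ∧ η ∈ Sv D s y}

lemma Sv_meas {D : Set (Env d)} (hD : MeasurableSet D) (s : ℕ) (y : Site d) :
    MeasurableSet (Sv D s y) := measurable_sh s y hD

lemma Sv_dep {D : Set (Env d)} (hD : DependsOn (fun η => η ∈ D) (Pa d 0)ᶜ) (s : ℕ) (y : Site d) :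
    DependsOn (fun η => η ∈ Sv D s y) (Pa d s)ᶜ := by
  intro η η' hη
  have h1 : (sh s y η ∈ D) = (sh s y η' ∈ D) := hD (x := sh s y η) (y := sh s y η') (by
    intro p hp
    refine hη (p.1 + s, p.2 + y) ?_
    have h2 : ¬ p.1 ≤ 0 := hp
    show ¬ p.1 + s ≤ s
    omega)
  exact h1

lemma Sv_dep2 {D : Set (Env d)} {H : ℕ} (hD : DependsOn (fun η => η ∈ D) (Pa d H)) (s : ℕ)
    (y : Site d) : DependsOn (fun η => η ∈ Sv D s y) (Pa d (s + H)) := by
  intro η η' hη
  have h1 : (sh s y η ∈ D) = (sh s y η' ∈ D) := hD (x := sh s y η) (y := sh s y η') (by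
    intro p hp
    refine hη (p.1 + s, p.2 + y) ?_
    have h2 : p.1 ≤ H := hp
    show p.1 + s ≤ s + H
    omega)
  exact h1

lemma Sv_I [IsProbabilityMeasure ρ] {D : Set (Env d)} (hD : MeasurableSet D) (s : ℕ)
    (y : Site d) : ∫ η, one (Sv D s y) η ∂(law d ρ) = (law d ρ).real D := by
  rw [one_I (Sv_meas hD s y)]
  have h1 := (mp_sh (ρ := ρ) s y).measure_preimage hD.nullMeasurableSet
  unfold Measure.real
  rw [← h1]
  rfl

lemma LG_eq (β : ℝ) (h : Vec d) (c₀ : ℝ) (D : Set (Env d)) (s : ℕ) :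
    LG β h c₀ D s = ⋃ y ∈ boxF d s, (At β h c₀ s y ∩ Sv D s y) := by
  ext η
  simp only [LG, Set.mem_ofPred_eq, Set.mem_iUnion, exists_prop, Set.mem_inter_iff]

lemma LG_meas (β : ℝ) (h : Vec d) (c₀ : ℝ) {D : Set (Env d)} (hD : MeasurableSet D) (s : ℕ) :
    MeasurableSet (LG β h c₀ D s) := by
  rw [LG_eq]
  exact Finset.measurableSet_biUnion _ fun y _ => (At_meas β h c₀ s y).inter (Sv_meas hD s y)

lemma LG_dep (β : ℝ) (h : Vec d) (c₀ : ℝ) {D : Set (Env d)} {H : ℕ}
    (hD : DependsOn (fun η => η ∈ D) (Pa d H)) (s : ℕ) :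
    DependsOn (fun η => η ∈ LG β h c₀ D s) (Pa d (s + H)) := by
  intro η η' hη
  have h1 : ∀ y, (η ∈ At β h c₀ s y) = (η' ∈ At β h c₀ s y) := fun y =>
    At_dep β h c₀ s y fun p hp => hη p (by
      change p.1 ≤ s + H
      have : p.1 ≤ s := hp
      omega)
  have h2 : ∀ y, (η ∈ Sv D s y) = (η' ∈ Sv D s y) := fun y => Sv_dep2 hD s y hη
  show (∃ y ∈ boxF d s, η ∈ At β h c₀ s y ∧ η ∈ Sv D s y) =
    (∃ y ∈ boxF d s, η' ∈ At β h c₀ s y ∧ η' ∈ Sv D s y)
  simp only [h1, h2]

/-- The upper bound for an atom which sees `D`. -/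
lemma up13 [IsProbabilityMeasure ρ] (hd : 0 < d) (β : ℝ) (h : Vec d) (s : ℕ) {c₀ : ℝ}
    (hc : 0 < c₀) {D : Set (Env d)} (hD : MeasurableSet D)
    (hD0 : DependsOn (fun η => η ∈ D) (Pa d 0)ᶜ) :
    (law d ρ).real (LG β h c₀ D s) ≤ (law d ρ).real D / c₀ := by
  have i1 : ∀ y, Integrable (fun η => one (At β h c₀ s y) η) (law d ρ) := fun y =>
    one_int (At_meas β h c₀ s y)
  have i2 : ∀ y, Integrable (fun η => one (At β h c₀ s y) η * one (Sv D s y) η) (law d ρ) :=
    fun y => mul_int (At_meas β h c₀ s y) (one_int (Sv_meas hD s y))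
  have e1 : ∀ y, ∫ η, one (At β h c₀ s y) η * one (Sv D s y) η ∂(law d ρ) =
      (∫ η, one (At β h c₀ s y) η ∂(law d ρ)) * (law d ρ).real D := by
    intro y
    have h1 := integral_indep (ρ := ρ) (Pa d s) (F := one (At β h c₀ s y))
      (G := one (Sv D s y)) (one_meas (At_meas β h c₀ s y))
      (one_meas (Sv_meas hD s y)) (one_dep (At_dep β h c₀ s y)) (one_dep (Sv_dep hD0 s y))
    rw [h1, Sv_I hD]
  have h1 : ∀ η, one (LG β h c₀ D s) η ≤
      ∑ y ∈ boxF d s, one (At β h c₀ s y) η * one (Sv D s y) η := by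
    intro η
    have hnn : ∀ y ∈ boxF d s, 0 ≤ one (At β h c₀ s y) η * one (Sv D s y) η :=
      fun y _ => mul_nonneg (one_nn _ _) (one_nn _ _)
    by_cases hη : η ∈ LG β h c₀ D s
    · obtain ⟨y, hy, hA, hL⟩ := hη
      have h2 := Finset.single_le_sum hnn hy
      rw [one_of hA, one_of hL, one_mul] at h2
      rw [one_of (B := LG β h c₀ D s) ⟨y, hy, hA, hL⟩]
      exact h2
    · rw [one_not hη]
      exact Finset.sum_nonneg hnn
  have h2 := integral_mono (one_int (LG_meas β h c₀ hD s))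
    (integrable_finsetSum (boxF d s) fun y _ => i2 y) h1
  rw [one_I (LG_meas β h c₀ hD s), integral_finsetSum _ fun y _ => i2 y,
    Finset.sum_congr rfl fun y _ => e1 y, ← Finset.sum_mul,
    ← integral_finsetSum _ fun y _ => i1 y] at h2
  refine h2.trans ?_
  have h3 : ∫ η, ∑ y ∈ boxF d s, one (At β h c₀ s y) η ∂(law d ρ) ≤ 1 / c₀ := by
    have h4 := integral_mono (μ := law d ρ) (integrable_finsetSum (boxF d s) fun y _ => i1 y)
      (integrable_const (1 / c₀)) (fun η => atoms hd β h hc s η)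
    simpa using h4
  have h4 := mul_le_mul_of_nonneg_right h3 (measureReal_nonneg (μ := law d ρ) (s := D))
  refine h4.trans (le_of_eq ?_)
  ring

/-- The lower bound for an atom which sees `D`. -/
lemma low13 [IsProbabilityMeasure ρ] (β : ℝ) (h : Vec d) (s : ℕ) (c₀ : ℝ) {D : Set (Env d)}
    (hD : MeasurableSet D) (hD0 : DependsOn (fun η => η ∈ D) (Pa d 0)ᶜ)
    {B : Set (Env d)} (hB : MeasurableSet B) (hdep : DependsOn (fun η => η ∈ B) (Pa d s)) :
    (law d ρ).real D * (law d ρ).real (AS β h c₀ s ∩ B) ≤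
      (law d ρ).real (LG β h c₀ D s ∩ B) := by
  set p := (law d ρ).real D with hp
  set S : Env d → ℝ := fun η => ∑ y ∈ boxF d s, one (At β h c₀ s y) η with hS
  have hSm : Measurable S := Finset.measurable_fun_sum _ fun y _ => one_meas (At_meas β h c₀ s y)
  set w : Site d → Env d → ℝ := fun y η => one B η * (one (At β h c₀ s y) η / S η) with hw
  have hwm : ∀ y, Measurable (w y) := fun y =>
    (one_meas hB).mul ((one_meas (At_meas β h c₀ s y)).div hSm)
  have hS0 : ∀ η, 0 ≤ S η := fun η => Finset.sum_nonneg fun y _ => one_nn _ _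
  have hw0 : ∀ y η, 0 ≤ w y η := fun y η => mul_nonneg (one_nn _ _) (div_nonneg (one_nn _ _) (hS0 η))
  have hsum : ∀ η, ∑ y ∈ boxF d s, w y η = one (AS β h c₀ s ∩ B) η := by
    intro η
    show ∑ y ∈ boxF d s, one B η * (one (At β h c₀ s y) η / S η) = _
    rw [← Finset.mul_sum, ← Finset.sum_div, one_inter]
    by_cases hη : η ∈ AS β h c₀ s
    · have hpos : 0 < S η := by
        obtain ⟨y, hy, hA⟩ := hη
        have h1 := Finset.single_le_sum (s := boxF d s) (f := fun y => one (At β h c₀ s y) η)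
          (fun y _ => one_nn _ _) hy
        have h2 : one (At β h c₀ s y) η = 1 := one_of hA
        simp only [h2] at h1
        exact lt_of_lt_of_le one_pos h1
      rw [one_of hη, show (∑ y ∈ boxF d s, one (At β h c₀ s y) η) = S η from rfl,
        div_self hpos.ne', mul_one, one_mul]
    · have hz : S η = 0 := by
        refine Finset.sum_eq_zero fun y hy => one_not fun hA => hη ⟨y, hy, hA⟩
      rw [one_not hη, show (∑ y ∈ boxF d s, one (At β h c₀ s y) η) = S η from rfl, hz, zero_div,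
        mul_zero, zero_mul]
  have hw1 : ∀ y ∈ boxF d s, ∀ η, w y η ≤ 1 := by
    intro y hy η
    refine (Finset.single_le_sum (f := fun y => w y η) (fun y _ => hw0 y η) hy).trans ?_
    rw [hsum]
    exact one_le _ _
  have hwn : ∀ y ∈ boxF d s, ∀ η, ‖w y η‖ ≤ 1 := fun y hy η => by
    rw [Real.norm_eq_abs, abs_of_nonneg (hw0 y η)]
    exact hw1 y hy η
  have i1 : ∀ y ∈ boxF d s, Integrable (w y) (law d ρ) := fun y hy =>
    (integrable_const (1 : ℝ)).mono' (hwm y).aestronglyMeasurable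
      (Eventually.of_forall fun η => hwn y hy η)
  have i2 : ∀ y ∈ boxF d s, Integrable (fun η => w y η * one (Sv D s y) η) (law d ρ) :=
    fun y hy => (one_int (Sv_meas hD s y)).bdd_mul (c := 1) (hwm y).aestronglyMeasurable
      (Eventually.of_forall fun η => hwn y hy η)
  have e1 : ∀ y, ∫ η, w y η * one (Sv D s y) η ∂(law d ρ) =
      (∫ η, w y η ∂(law d ρ)) * p := by
    intro y
    have h1 := integral_indep (ρ := ρ) (Pa d s) (F := w y)
      (G := one (Sv D s y)) (hwm y)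
      (one_meas (Sv_meas hD s y)) (fun η η' hη => by
        have h2 := one_dep hdep hη
        have h3 : ∀ y, one (At β h c₀ s y) η = one (At β h c₀ s y) η' := fun y =>
          one_dep (At_dep β h c₀ s y) hη
        show one B η * (one (At β h c₀ s y) η / ∑ y ∈ boxF d s, one (At β h c₀ s y) η) =
          one B η' * (one (At β h c₀ s y) η' / ∑ y ∈ boxF d s, one (At β h c₀ s y) η')
        simp only [h2, h3]) (one_dep (Sv_dep hD0 s y))
    rw [h1, Sv_I hD]
  have h1 : ∀ η, ∑ y ∈ boxF d s, w y η * one (Sv D s y) η ≤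
      one (LG β h c₀ D s ∩ B) η := by
    intro η
    by_cases hη : η ∈ LG β h c₀ D s ∩ B
    · rw [one_of hη]
      refine (Finset.sum_le_sum fun y _ => mul_le_mul_of_nonneg_left
        (one_le (Sv D s y) η) (hw0 y η)).trans ?_
      simp only [mul_one]
      rw [hsum]
      exact one_le _ _
    · rw [one_not hη]
      refine Finset.sum_nonpos fun y hy => ?_
      by_cases hB' : η ∈ B
      · by_cases hA : η ∈ At β h c₀ s y
        · have hL : η ∉ Sv D s y := fun hL => hη ⟨⟨y, hy, hA, hL⟩, hB'⟩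
          rw [one_not hL, mul_zero]
        · show one B η * (one (At β h c₀ s y) η / S η) * _ ≤ 0
          rw [one_not hA, zero_div, mul_zero, zero_mul]
      · show one B η * (one (At β h c₀ s y) η / S η) * _ ≤ 0
        rw [one_not hB', zero_mul, zero_mul]
  have h2 := integral_mono (integrable_finsetSum (boxF d s) fun y hy => i2 y hy)
    (one_int ((LG_meas β h c₀ hD s).inter hB)) h1
  rw [integral_finsetSum _ fun y hy => i2 y hy, Finset.sum_congr rfl fun y _ => e1 y,
    ← Finset.sum_mul, ← integral_finsetSum _ fun y hy => i1 y hy,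
    one_I ((LG_meas β h c₀ hD s).inter hB)] at h2
  simp only [hsum] at h2
  rw [one_I ((AS_meas β h c₀ s).inter hB)] at h2
  linarith

/-- The first success. -/
theorem main13 [IsProbabilityMeasure ρ] (hd : 0 < d) (β : ℝ) (h : Vec d) {c₀ δ : ℝ}
    (hc : 0 < c₀) {H : ℕ} (S : Finset ℕ) (hS : ∀ s ∈ S, ∀ s' ∈ S, s' < s → s' + H ≤ s)
    (hloc : ∀ s ∈ S, c₀ ≤ (law d ρ).real (AS β h c₀ s)) {A D F' : Set (Env d)}
    (hA : MeasurableSet A) (hAH : DependsOn (fun η => η ∈ A) (Pa d H))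
    (hA0 : DependsOn (fun η => η ∈ A) (Pa d 0)ᶜ) (hD : MeasurableSet D)
    (hD0 : DependsOn (fun η => η ∈ D) (Pa d 0)ᶜ) (hDA : D ⊆ A) (hF' : MeasurableSet F')
    {G : ℕ → Set (Env d)} (hG : ∀ s, MeasurableSet (G s))
    (hGd : ∀ s, DependsOn (fun η => η ∈ G s) (Pa d s))
    (hGδ : ∀ s ∈ S, (law d ρ).real (G s)ᶜ ≤ δ)
    (hsub : ∀ s ∈ S, LG β h c₀ D s ∩ G s ⊆ F') :
    S.card * ((c₀ - ((S.card : ℝ) - 1) * ((law d ρ).real A / c₀) - δ) * (law d ρ).real D) ≤
      (law d ρ).real F' := by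
  classical
  set p : ℝ := (law d ρ).real A with hp
  have hp0 : 0 ≤ p := measureReal_nonneg
  set B : ℕ → Set (Env d) := fun s => {η | ∀ s' ∈ S, s' < s → η ∉ LG β h c₀ A s'} with hB
  have hLm : ∀ s, MeasurableSet (LG β h c₀ A s) := fun s => LG_meas β h c₀ hA s
  have hBc : ∀ s, (B s)ᶜ = ⋃ s' ∈ S.filter (fun s' => s' < s), LG β h c₀ A s' := by
    intro s
    ext η
    simp only [hB, Set.mem_compl_iff, Set.mem_ofPred_eq, Set.mem_iUnion, Finset.mem_filter,
      exists_prop]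
    push Not
    constructor
    · rintro ⟨s', h1, h2, h3⟩
      exact ⟨s', ⟨h1, h2⟩, h3⟩
    · rintro ⟨s', ⟨h1, h2⟩, h3⟩
      exact ⟨s', h1, h2, h3⟩
  have hBm : ∀ s, MeasurableSet (B s) := by
    intro s
    rw [← compl_compl (B s), hBc]
    exact (Finset.measurableSet_biUnion _ fun s' _ => hLm s').compl
  have hBd : ∀ s ∈ S, DependsOn (fun η => η ∈ B s) (Pa d s) := by
    intro s hs η η' hη
    have h1 : ∀ s' ∈ S, s' < s → (η ∈ LG β h c₀ A s') = (η' ∈ LG β h c₀ A s') :=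
      fun s' hs' hlt => LG_dep β h c₀ hAH s' fun q hq => hη q (by
        change q.1 ≤ s
        have h2 : q.1 ≤ s' + H := hq
        exact h2.trans (hS s hs s' hs' hlt))
    show (∀ s' ∈ S, s' < s → η ∉ LG β h c₀ A s') = (∀ s' ∈ S, s' < s → η' ∉ LG β h c₀ A s')
    refine propext ⟨fun H s' hs' hlt => ?_, fun H s' hs' hlt => ?_⟩
    · rw [← h1 s' hs' hlt]
      exact H s' hs' hlt
    · rw [h1 s' hs' hlt]
      exact H s' hs' hlt
  have hBp : ∀ s ∈ S, (law d ρ).real (B s)ᶜ ≤ ((S.card : ℝ) - 1) * (p / c₀) := by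
    intro s hs
    rw [hBc]
    have h1 := measureReal_biUnion_finset_le (μ := law d ρ) (S.filter fun s' => s' < s)
      (fun s' => LG β h c₀ A s')
    refine h1.trans ?_
    have h2 : ∑ s' ∈ S.filter (fun s' => s' < s), (law d ρ).real (LG β h c₀ A s') ≤
        ∑ s' ∈ S.filter (fun s' => s' < s), p / c₀ :=
      Finset.sum_le_sum fun s' _ => up13 hd β h s' hc hA hA0
    refine h2.trans ?_
    rw [Finset.sum_const, nsmul_eq_mul]
    refine mul_le_mul_of_nonneg_right ?_ (by positivity)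
    have h3 : S.filter (fun s' => s' < s) ⊆ S.erase s := by
      intro s' hs'
      obtain ⟨h4, h5⟩ := Finset.mem_filter.1 hs'
      exact Finset.mem_erase.2 ⟨by omega, h4⟩
    have h4 := Finset.card_le_card h3
    rw [Finset.card_erase_of_mem hs] at h4
    have h5 : 1 ≤ S.card := Finset.card_pos.2 ⟨s, hs⟩
    have h6 : ((S.filter fun s' => s' < s).card : ℝ) ≤ ((S.card - 1 : ℕ) : ℝ) := by
      exact_mod_cast h4
    rw [Nat.cast_sub h5] at h6
    simpa using h6
  set V : ℕ → Set (Env d) := fun s => LG β h c₀ D s ∩ (B s ∩ G s) with hV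
  have hVm : ∀ s, MeasurableSet (V s) := fun s =>
    (LG_meas β h c₀ hD s).inter ((hBm s).inter (hG s))
  have hDAL : ∀ s, LG β h c₀ D s ⊆ LG β h c₀ A s := fun s η hη => by
    obtain ⟨y, h1, h2, h3⟩ := hη
    exact ⟨y, h1, h2, hDA h3⟩
  have hpt : ∀ η, ∑ s ∈ S, one (V s) η ≤ one F' η := by
    intro η
    by_cases hη : η ∈ F'
    · rw [one_of hη]
      have h1 := first79 S (fun s => LG β h c₀ A s) η
      have h2 := one_nn {η : Env d | ∀ s ∈ S, η ∉ LG β h c₀ A s} η
      have h3 : ∑ s ∈ S, one (V s) η ≤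
          ∑ s ∈ S, one (LG β h c₀ A s ∩ {η | ∀ s' ∈ S, s' < s → η ∉ LG β h c₀ A s'}) η := by
        refine Finset.sum_le_sum fun s _ => ?_
        by_cases hs : η ∈ V s
        · rw [one_of hs, one_of]
          exact ⟨hDAL s hs.1, hs.2.1⟩
        · rw [one_not hs]
          exact one_nn _ _
      linarith
    · rw [one_not hη]
      refine Finset.sum_nonpos fun s hs => ?_
      rw [one_not]
      intro h1
      exact hη (hsub s hs ⟨h1.1, h1.2.2⟩)
  have h1 := integral_mono (μ := law d ρ) (integrable_finsetSum S fun s _ => one_int (hVm s))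
    (one_int hF') hpt
  rw [integral_finsetSum _ fun s _ => one_int (hVm s), one_I hF',
    Finset.sum_congr rfl fun s _ => one_I (hVm s)] at h1
  refine le_trans ?_ h1
  have h2 : ∀ s ∈ S, (c₀ - ((S.card : ℝ) - 1) * (p / c₀) - δ) * (law d ρ).real D ≤
      (law d ρ).real (V s) := by
    intro s hs
    have h3 := low13 (ρ := ρ) β h s c₀ hD hD0 ((hBm s).inter (hG s)) (fun η η' hη => by
      have h4 : (η ∈ B s) = (η' ∈ B s) := hBd s hs hη
      have h5 : (η ∈ G s) = (η' ∈ G s) := hGd s hη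
      show (η ∈ B s ∧ η ∈ G s) = (η' ∈ B s ∧ η' ∈ G s)
      rw [h4, h5])
    refine le_trans ?_ h3
    rw [mul_comm]
    refine mul_le_mul_of_nonneg_left ?_ measureReal_nonneg
    have h4 : AS β h c₀ s ⊆ (AS β h c₀ s ∩ (B s ∩ G s)) ∪ ((B s)ᶜ ∪ (G s)ᶜ) := by
      intro η hη
      by_cases hb : η ∈ B s
      · by_cases hg : η ∈ G s
        · exact Or.inl ⟨hη, hb, hg⟩
        · exact Or.inr (Or.inr hg)
      · exact Or.inr (Or.inl hb)
    have h5 := (measureReal_mono (μ := law d ρ) h4).trans (measureReal_union_le _ _)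
    have h6 := measureReal_union_le (μ := law d ρ) (B s)ᶜ (G s)ᶜ
    have h7 := hloc s hs
    have h8 := hBp s hs
    have h9 := hGδ s hs
    linarith
  have h3 := Finset.sum_le_sum h2
  rw [Finset.sum_const, nsmul_eq_mul] at h3
  exact h3

/-- The point is seen from itself. -/
lemma sh_zero13 (η : Env d) : sh 0 0 η = η := by
  funext p
  unfold sh
  simp

/-- CATCH, with the number of localised times. -/
theorem catchN13 [IsProbabilityMeasure ρ] (hd : 0 < d) (β : ℝ) (h : Vec d) {c₀ δ : ℝ}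
    (hc : 0 < c₀) {H N : ℕ} (hN : 1 ≤ N) (S : Finset ℕ) (hSN : S.card = N)
    (hS : ∀ s ∈ S, ∀ s' ∈ S, s' < s → s' + H ≤ s)
    (hloc : ∀ s ∈ S, c₀ ≤ (law d ρ).real (AS β h c₀ s)) {L F F' : Set (Env d)}
    (hL : MeasurableSet L) (hLH : DependsOn (fun η => η ∈ L) (Pa d H))
    (hF : MeasurableSet F) (hF0 : DependsOn (fun η => η ∈ F) (Pa d 0)ᶜ) (hF' : MeasurableSet F')
    {G : ℕ → Set (Env d)} (hG : ∀ s, MeasurableSet (G s))
    (hGd : ∀ s, DependsOn (fun η => η ∈ G s) (Pa d s)) (hδ : δ ≤ c₀ / 4)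
    (hGδ : ∀ s ∈ S, (law d ρ).real (G s)ᶜ ≤ δ)
    (hsub : ∀ s ∈ S, LG β h c₀ F s ∩ G s ⊆ F') :
    (law d ρ).real (L ∩ F) ≤ 16 / c₀ ^ 3 * (law d ρ).real F' * (law d ρ).real L +
      2 / (c₀ * N) * (law d ρ).real F' := by
  classical
  set P' : ℝ := (law d ρ).real F' with hP'
  have hP0 : 0 ≤ P' := measureReal_nonneg
  set u : ℝ := 16 / c₀ ^ 3 * P' with hu
  have hu0 : 0 ≤ u := by positivity
  set R : Env d → ℝ := cE ρ (Pa d H) (one F) with hR
  have hRm : Measurable R := measurable_cE (one_meas hF) _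
  have hRd : DependsOn R (Pa d H) := cE_dep _ _
  have hR0 : DependsOn R (Pa d 0)ᶜ := by
    intro η η' hη
    show ∫ ξ, one F (spl (Pa d H) η ξ) ∂(law d ρ) = ∫ ξ, one F (spl (Pa d H) η' ξ) ∂(law d ρ)
    refine integral_congr_ae (Eventually.of_forall fun ξ => ?_)
    refine one_dep hF0 fun p hp => ?_
    by_cases hpH : p ∈ Pa d H
    · rw [spl_mem _ _ hpH, spl_mem _ _ hpH]
      exact hη p hp
    · rw [spl_not_mem _ _ hpH, spl_not_mem _ _ hpH]
  set A : Set (Env d) := {η | u < R η} with hA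
  have hAm : MeasurableSet A := measurableSet_lt measurable_const hRm
  have hAH : DependsOn (fun η => η ∈ A) (Pa d H) := by
    intro η η' hη
    show (u < R η) = (u < R η')
    rw [hRd hη]
  have hA0 : DependsOn (fun η => η ∈ A) (Pa d 0)ᶜ := by
    intro η η' hη
    show (u < R η) = (u < R η')
    rw [hR0 hη]
  have hDm : MeasurableSet (A ∩ F) := hAm.inter hF
  have hD0 : DependsOn (fun η => η ∈ A ∩ F) (Pa d 0)ᶜ := by
    intro η η' hη
    have h4 : (η ∈ A) = (η' ∈ A) := hA0 hη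
    have h5 : (η ∈ F) = (η' ∈ F) := hF0 hη
    show (η ∈ A ∧ η ∈ F) = (η' ∈ A ∧ η' ∈ F)
    rw [h4, h5]
  set p : ℝ := (law d ρ).real A with hp
  have hp0 : 0 ≤ p := measureReal_nonneg
  -- conditional probabilities
  have hcond : ∀ B : Set (Env d), MeasurableSet B → DependsOn (fun η => η ∈ B) (Pa d H) →
      (law d ρ).real (B ∩ F) = ∫ η, R η * one B η ∂(law d ρ) := by
    intro B hB hBd
    rw [← one_I (hB.inter hF)]
    have h1 : (fun η => one (B ∩ F) η) = fun η => one F η * one B η := by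
      funext η
      rw [one_inter, mul_comm]
    have h2 : Integrable (fun η => one F η * one B η) (law d ρ) := mul_int hF (one_int hB)
    have h3 := int_mul_cE (ρ := ρ) (Pa d H) (F := one F) (H := one B) h2 (one_dep hBd)
    rw [← h3]
    exact congrArg (fun f => ∫ η, f η ∂(law d ρ)) h1
  have hRone : ∀ η, 0 ≤ R η ∧ R η ≤ 1 := fun η =>
    ⟨cE_nonneg (fun η => one_nn _ _) _ η,
      cE_le (one_meas hF) (a := 0) (b := 1) (fun η => one_nn _ _) (fun η => one_le _ _) _ η⟩
  have hRint : ∀ B : Set (Env d), MeasurableSet B → Integrable (fun η => R η * one B η)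
      (law d ρ) := fun B hB => (one_int hB).bdd_mul (c := 1) hRm.aestronglyMeasurable
      (Eventually.of_forall fun η => by
        rw [Real.norm_eq_abs, abs_of_nonneg (hRone η).1]
        exact (hRone η).2)
  have hAF : u * p ≤ (law d ρ).real (A ∩ F) := by
    rw [hcond A hAm hAH, hp, ← one_I hAm, ← integral_const_mul]
    refine integral_mono ((one_int hAm).const_mul u) (hRint A hAm) fun η => ?_
    show u * one A η ≤ R η * one A η
    by_cases hη : η ∈ A
    · rw [one_of hη]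
      have h1 : u < R η := hη
      linarith
    · rw [one_not hη, mul_zero, mul_zero]
  have hLA : (law d ρ).real ((L ∩ Aᶜ) ∩ F) ≤ u * (law d ρ).real L := by
    have hLAm : MeasurableSet (L ∩ Aᶜ) := hL.inter hAm.compl
    rw [hcond _ hLAm (by
      intro η η' hη
      have h4 : (η ∈ L) = (η' ∈ L) := hLH hη
      have h5 : (η ∈ A) = (η' ∈ A) := hAH hη
      show (η ∈ L ∧ ¬ η ∈ A) = (η' ∈ L ∧ ¬ η' ∈ A)
      rw [h4, h5]), ← one_I hL, ← integral_const_mul]
    refine integral_mono (hRint _ hLAm) ((one_int hL).const_mul u) fun η => ?_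
    show R η * one (L ∩ Aᶜ) η ≤ u * one L η
    by_cases hη : η ∈ L ∩ Aᶜ
    · rw [one_of hη, one_of hη.1, mul_one, mul_one]
      exact not_lt.1 hη.2
    · rw [one_not hη, mul_zero]
      exact mul_nonneg hu0 (one_nn _ _)
  have hsplit : (law d ρ).real (L ∩ F) ≤ (law d ρ).real ((L ∩ Aᶜ) ∩ F) +
      (law d ρ).real (A ∩ F) := by
    have h1 : L ∩ F ⊆ ((L ∩ Aᶜ) ∩ F) ∪ (A ∩ F) := by
      intro η hη
      by_cases hA' : η ∈ A
      · exact Or.inr ⟨hA', hη.2⟩
      · exact Or.inl ⟨⟨hη.1, hA'⟩, hη.2⟩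
    exact (measureReal_mono h1).trans (measureReal_union_le _ _)
  -- the event of the near rows
  set D : ℝ := (law d ρ).real (A ∩ F) with hDd
  have hD00 : 0 ≤ D := measureReal_nonneg
  have hmain : ∀ k : ℕ, 1 ≤ k → k ≤ N → ((k : ℝ) - 1) * p ≤ c₀ ^ 2 / 4 →
      k * (c₀ / 2 * D) ≤ P' := by
    intro k hk1 hkN hkp
    obtain ⟨S', hS', hS'k⟩ := Finset.exists_subset_card_eq (s := S) (n := k) (by omega)
    have h1 := main13 (ρ := ρ) hd β h hc S' (fun s hs s' hs' => hS s (hS' hs) s' (hS' hs'))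
      (fun s hs => hloc s (hS' hs)) hAm hAH hA0 hDm hD0 Set.inter_subset_left hF' hG hGd
      (fun s hs => hGδ s (hS' hs)) (fun s hs η hη => hsub s (hS' hs) (by
        obtain ⟨⟨y, h2, h3, h4⟩, h5⟩ := hη
        exact ⟨⟨y, h2, h3, h4.2⟩, h5⟩))
    rw [hS'k] at h1
    refine le_trans (mul_le_mul_of_nonneg_left (mul_le_mul_of_nonneg_right ?_ hD00)
      (Nat.cast_nonneg k)) h1
    have h2 : ((k : ℝ) - 1) * (p / c₀) ≤ c₀ / 4 := by
      rw [← mul_div_assoc, div_le_iff₀ hc]
      linarith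
    linarith
  have hD : D ≤ 2 / (c₀ * N) * P' := by
    have hN' : (1 : ℝ) ≤ N := by exact_mod_cast hN
    have hfin : N * (c₀ / 2 * D) ≤ P' → D ≤ 2 / (c₀ * N) * P' := by
      intro h1
      rw [div_mul_eq_mul_div, le_div_iff₀ (by positivity)]
      linarith
    have hzero : D ≤ 0 → D ≤ 2 / (c₀ * N) * P' := fun h1 => h1.trans (by positivity)
    rcases eq_or_lt_of_le hp0 with h0 | h0
    · refine hzero ?_
      have h1 := measureReal_mono (μ := law d ρ) (Set.inter_subset_left : A ∩ F ⊆ A)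
      rw [← hp, ← h0] at h1
      exact h1
    · obtain ⟨j, hj⟩ : ∃ j, j = ⌊c₀ ^ 2 / (4 * p)⌋₊ := ⟨_, rfl⟩
      have hj1 : (j : ℝ) ≤ c₀ ^ 2 / (4 * p) := by
        rw [hj]
        exact Nat.floor_le (by positivity)
      have hj2 : c₀ ^ 2 / (4 * p) < j + 1 := by
        rw [hj]
        exact Nat.lt_floor_add_one _
      have hjp : (j : ℝ) * p ≤ c₀ ^ 2 / 4 := by
        have h1 := mul_le_mul_of_nonneg_right hj1 hp0
        refine h1.trans (le_of_eq ?_)
        field_simp
      rcases le_or_gt N (j + 1) with hNj | hNj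
      · refine hfin (hmain N hN le_rfl (le_trans (mul_le_mul_of_nonneg_right ?_ hp0) hjp))
        have h1 : (N : ℝ) ≤ j + 1 := by exact_mod_cast hNj
        linarith
      · have h1 := hmain (j + 1) (by omega) (by omega) (by
          push_cast
          rw [add_sub_cancel_right]
          exact hjp)
        push_cast at h1
        refine hzero ?_
        have h2 : c₀ ^ 2 / (4 * p) * (c₀ / 2 * D) ≤ P' :=
          (mul_le_mul_of_nonneg_right hj2.le (by positivity)).trans h1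
        have h3 : c₀ ^ 2 / (4 * p) * (c₀ / 2 * (u * p)) ≤ P' :=
          (mul_le_mul_of_nonneg_left (mul_le_mul_of_nonneg_left hAF (by positivity))
            (by positivity)).trans h2
        have h4 : c₀ ^ 2 / (4 * p) * (c₀ / 2 * (u * p)) = 2 * P' := by
          rw [hu]
          field_simp
          ring
        have h5 : P' ≤ 0 := by linarith
        have h6 : 0 < c₀ ^ 2 / (4 * p) * (c₀ / 2) := by positivity
        have h7 : c₀ ^ 2 / (4 * p) * (c₀ / 2) * D ≤ c₀ ^ 2 / (4 * p) * (c₀ / 2) * 0 := by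
          rw [mul_zero]
          linarith
        exact le_of_mul_le_mul_left h7 h6
  linarith

end Pool.Agent.W_7d29a1_PL.K13
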