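import Pool.Agent.W_7d29a1_SP.Cnt79

/-!
Leaf CATCH: an event `L` of the near rows helps a later event `Ev` by no more than its own rarity.
-/

set_option autoImplicit false

namespace Pool.Agent.W_7d29a1_PL.K76

open MeasureTheory ProbabilityTheory Filter Topology Pool.Agent.W_MP_7d29a1_pr
  Pool.Agent.W_7d29a1_h46 Pool.Agent.W_7d29a1_h46u Pool.Agent.W_7d29a1_D2.B35
  Pool.Agent.W_7d29a1_Q29 Pool.Agent.W_7d29a1_R34 Pool.Agent.W_7d29a1_SP
  Pool.Agent.W_7d29a1_SP.C79

variable {d : ℕ} {ρ : Measure ℝ}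

/-- The environment seen from `(s, y)` is in `V`. -/
def Lv (V : Set (Env d)) (s : ℕ) (y : Site d) : Set (Env d) := {η | sh s y η ∈ V}

/-- There is an atom at the time `s` from which the environment is in `V`. -/
def LV (β : ℝ) (h : Vec d) (c₀ : ℝ) (V : Set (Env d)) (s : ℕ) : Set (Env d) :=
  {η | ∃ y ∈ boxF d s, η ∈ At β h c₀ s y ∧ η ∈ Lv V s y}

lemma Lv_meas {V : Set (Env d)} (hV : MeasurableSet V) (s : ℕ) (y : Site d) :
    MeasurableSet (Lv V s y) := measurable_sh s y hV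

lemma LV_meas (β : ℝ) (h : Vec d) (c₀ : ℝ) {V : Set (Env d)} (hV : MeasurableSet V) (s : ℕ) :
    MeasurableSet (LV β h c₀ V s) := by
  have h1 : LV β h c₀ V s = ⋃ y ∈ boxF d s, (At β h c₀ s y ∩ Lv V s y) := by
    ext η
    simp only [LV, Set.mem_ofPred_eq, Set.mem_iUnion, exists_prop, Set.mem_inter_iff]
  rw [h1]
  exact Finset.measurableSet_biUnion _ fun y _ => (At_meas β h c₀ s y).inter (Lv_meas hV s y)

lemma Lv_dep {V : Set (Env d)} (hV : DependsOn (fun η => η ∈ V) {p : ℕ × Site d | 1 ≤ p.1})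
    (s : ℕ) (y : Site d) : DependsOn (fun η => η ∈ Lv V s y) (Pa d s)ᶜ := by
  intro η η' hη
  refine hV fun p hp => ?_
  refine hη (p.1 + s, p.2 + y) fun hm => ?_
  have h1 : p.1 + s ≤ s := hm
  have h2 : 1 ≤ p.1 := hp
  omega

lemma Lv_dep2 {V : Set (Env d)} {H : ℕ}
    (hV : DependsOn (fun η => η ∈ V) {p : ℕ × Site d | 1 ≤ p.1 ∧ p.1 ≤ H})
    (s : ℕ) (y : Site d) : DependsOn (fun η => η ∈ Lv V s y) (Pa d (s + H)) := by
  intro η η' hη
  refine hV fun p hp => ?_
  refine hη (p.1 + s, p.2 + y) ?_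
  have h2 : p.1 ≤ H := hp.2
  change p.1 + s ≤ s + H
  omega

lemma LV_dep2 (β : ℝ) (h : Vec d) (c₀ : ℝ) {V : Set (Env d)} {H : ℕ}
    (hV : DependsOn (fun η => η ∈ V) {p : ℕ × Site d | 1 ≤ p.1 ∧ p.1 ≤ H}) (s : ℕ) :
    DependsOn (fun η => η ∈ LV β h c₀ V s) (Pa d (s + H)) := by
  intro η η' hη
  have h1 : ∀ y, (η ∈ At β h c₀ s y) = (η' ∈ At β h c₀ s y) := fun y =>
    At_dep β h c₀ s y fun p hp => hη p (by
      change p.1 ≤ s + H
      have : p.1 ≤ s := hp
      omega)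
  have h2 : ∀ y, (η ∈ Lv V s y) = (η' ∈ Lv V s y) := fun y => Lv_dep2 hV s y hη
  show (∃ y ∈ boxF d s, η ∈ At β h c₀ s y ∧ η ∈ Lv V s y) =
    (∃ y ∈ boxF d s, η' ∈ At β h c₀ s y ∧ η' ∈ Lv V s y)
  simp only [h1, h2]

lemma Lv_I [IsProbabilityMeasure ρ] {V : Set (Env d)} (hV : MeasurableSet V) (s : ℕ)
    (y : Site d) : ∫ η, one (Lv V s y) η ∂(law d ρ) = (law d ρ).real V := by
  rw [one_I (Lv_meas hV s y)]
  have h1 := (mp_sh (ρ := ρ) s y).measure_preimage hV.nullMeasurableSet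
  unfold Measure.real
  rw [← h1]
  rfl

/-- The upper bound: an atom with `V` ahead is rare. -/
lemma upV [IsProbabilityMeasure ρ] (hd : 0 < d) (β : ℝ) (h : Vec d) (s : ℕ) {c₀ : ℝ}
    (hc : 0 < c₀) {V : Set (Env d)} (hV : MeasurableSet V)
    (hdep : DependsOn (fun η => η ∈ V) {p : ℕ × Site d | 1 ≤ p.1}) :
    (law d ρ).real (LV β h c₀ V s) ≤ (law d ρ).real V / c₀ := by
  have i1 : ∀ y, Integrable (one (At β h c₀ s y)) (law d ρ) := fun y =>
    one_int (At_meas β h c₀ s y)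
  have i2 : ∀ y, Integrable (fun η => one (At β h c₀ s y) η * one (Lv V s y) η)
      (law d ρ) := fun y => mul_int (At_meas β h c₀ s y) (one_int (Lv_meas hV s y))
  have e1 : ∀ y, ∫ η, one (At β h c₀ s y) η * one (Lv V s y) η ∂(law d ρ) =
      (∫ η, one (At β h c₀ s y) η ∂(law d ρ)) * (law d ρ).real V := by
    intro y
    have h1 := integral_indep (ρ := ρ) (Pa d s) (F := one (At β h c₀ s y))
      (G := one (Lv V s y)) (one_meas (At_meas β h c₀ s y))
      (one_meas (Lv_meas hV s y)) (one_dep (At_dep β h c₀ s y)) (one_dep (Lv_dep hdep s y))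
    rw [h1, Lv_I hV]
  have h1 : ∀ η, one (LV β h c₀ V s) η ≤
      ∑ y ∈ boxF d s, one (At β h c₀ s y) η * one (Lv V s y) η := by
    intro η
    have hnn : ∀ y ∈ boxF d s, 0 ≤ one (At β h c₀ s y) η * one (Lv V s y) η :=
      fun y _ => mul_nonneg (one_nn _ _) (one_nn _ _)
    by_cases hη : η ∈ LV β h c₀ V s
    · obtain ⟨y, hy, hA, hL⟩ := hη
      have h2 := Finset.single_le_sum hnn hy
      rw [one_of hA, one_of hL, one_mul] at h2
      rw [one_of (B := LV β h c₀ V s) ⟨y, hy, hA, hL⟩]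
      exact h2
    · rw [one_not hη]
      exact Finset.sum_nonneg hnn
  have h2 := integral_mono (one_int (LV_meas β h c₀ hV s))
    (integrable_finsetSum (boxF d s) fun y _ => i2 y) h1
  rw [one_I (LV_meas β h c₀ hV s), integral_finsetSum _ fun y _ => i2 y,
    Finset.sum_congr rfl fun y _ => e1 y,
    ← Finset.sum_mul, ← integral_finsetSum _ fun y _ => i1 y] at h2
  refine h2.trans ?_
  have h3 : ∫ η, ∑ y ∈ boxF d s, one (At β h c₀ s y) η ∂(law d ρ) ≤ 1 / c₀ := by
    have h4 := integral_mono (integrable_finsetSum (boxF d s) fun y _ => i1 y)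
      (integrable_const (1 / c₀)) (μ := law d ρ) fun η => atoms hd β h hc s η
    simpa using h4
  calc (∫ η, ∑ y ∈ boxF d s, one (At β h c₀ s y) η ∂(law d ρ)) * (law d ρ).real V
      ≤ 1 / c₀ * (law d ρ).real V := mul_le_mul_of_nonneg_right h3 measureReal_nonneg
    _ = (law d ρ).real V / c₀ := by ring

/-- The lower bound: at an atom chosen by the past, `V` is ahead with its own probability. -/
lemma lowV [IsProbabilityMeasure ρ] (β : ℝ) (h : Vec d) (s : ℕ) (c₀ : ℝ)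
    {V : Set (Env d)} (hV : MeasurableSet V)
    (hdV : DependsOn (fun η => η ∈ V) {p : ℕ × Site d | 1 ≤ p.1})
    {B : Set (Env d)} (hB : MeasurableSet B) (hdep : DependsOn (fun η => η ∈ B) (Pa d s)) :
    (law d ρ).real V * (law d ρ).real (AS β h c₀ s ∩ B) ≤
      (law d ρ).real (LV β h c₀ V s ∩ B) := by
  set p := (law d ρ).real V with hp
  set S : Env d → ℝ := fun η => ∑ y ∈ boxF d s, one (At β h c₀ s y) η with hS
  have hSm : Measurable S := Finset.measurable_fun_sum _ fun y _ => one_meas (At_meas β h c₀ s y)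
  set w : Site d → Env d → ℝ := fun y η => one B η * (one (At β h c₀ s y) η / S η) with hw
  have hwm : ∀ y, Measurable (w y) := fun y =>
    (one_meas hB).mul ((one_meas (At_meas β h c₀ s y)).div hSm)
  have hS0 : ∀ η, 0 ≤ S η := fun η => Finset.sum_nonneg fun y _ => one_nn _ _
  have hw0 : ∀ y η, 0 ≤ w y η := fun y η => mul_nonneg (one_nn _ _) (div_nonneg (one_nn _ _) (hS0 η))
  have hsum : ∀ η, ∑ y ∈ boxF d s, w y η = one (AS β h c₀ s ∩ B) η := by
    intro η
    show ∑ y ∈ boxF d s, one B η * (one (At β h c₀ s y) η / S η) = _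
    rw [← Finset.mul_sum, ← Finset.sum_div, one_inter]
    by_cases hη : η ∈ AS β h c₀ s
    · have hpos : 0 < S η := by
        obtain ⟨y, hy, hA⟩ := hη
        have h1 := Finset.single_le_sum (s := boxF d s) (f := fun y => one (At β h c₀ s y) η)
          (fun y _ => one_nn _ _) hy
        have h2 : one (At β h c₀ s y) η = 1 := one_of hA
        simp only [h2] at h1
        exact lt_of_lt_of_le one_pos h1
      rw [one_of hη, show (∑ y ∈ boxF d s, one (At β h c₀ s y) η) = S η from rfl,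
        div_self hpos.ne', mul_one, one_mul]
    · have hz : S η = 0 := by
        refine Finset.sum_eq_zero fun y hy => one_not fun hA => hη ⟨y, hy, hA⟩
      rw [one_not hη, show (∑ y ∈ boxF d s, one (At β h c₀ s y) η) = S η from rfl, hz, zero_div,
        mul_zero, zero_mul]
  have hw1 : ∀ y ∈ boxF d s, ∀ η, w y η ≤ 1 := by
    intro y hy η
    refine (Finset.single_le_sum (f := fun y => w y η) (fun y _ => hw0 y η) hy).trans ?_
    rw [hsum]
    exact one_le _ _
  have hwn : ∀ y ∈ boxF d s, ∀ η, ‖w y η‖ ≤ 1 := fun y hy η => by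
    rw [Real.norm_eq_abs, abs_of_nonneg (hw0 y η)]
    exact hw1 y hy η
  have i1 : ∀ y ∈ boxF d s, Integrable (w y) (law d ρ) := fun y hy =>
    (integrable_const (1 : ℝ)).mono' (hwm y).aestronglyMeasurable
      (Eventually.of_forall fun η => hwn y hy η)
  have i2 : ∀ y ∈ boxF d s, Integrable (fun η => w y η * one (Lv V s y) η) (law d ρ) :=
    fun y hy => (one_int (Lv_meas hV s y)).bdd_mul (c := 1) (hwm y).aestronglyMeasurable
      (Eventually.of_forall fun η => hwn y hy η)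
  have e1 : ∀ y, ∫ η, w y η * one (Lv V s y) η ∂(law d ρ) =
      (∫ η, w y η ∂(law d ρ)) * p := by
    intro y
    have h1 := integral_indep (ρ := ρ) (Pa d s) (F := w y)
      (G := one (Lv V s y)) (hwm y)
      (one_meas (Lv_meas hV s y)) (fun η η' hη => by
        have h2 := one_dep hdep hη
        have h3 : ∀ y, one (At β h c₀ s y) η = one (At β h c₀ s y) η' := fun y =>
          one_dep (At_dep β h c₀ s y) hη
        show one B η * (one (At β h c₀ s y) η / ∑ y ∈ boxF d s, one (At β h c₀ s y) η) =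
          one B η' * (one (At β h c₀ s y) η' / ∑ y ∈ boxF d s, one (At β h c₀ s y) η')
        simp only [h2, h3]) (one_dep (Lv_dep hdV s y))
    rw [h1, Lv_I hV]
  have h1 : ∀ η, ∑ y ∈ boxF d s, w y η * one (Lv V s y) η ≤
      one (LV β h c₀ V s ∩ B) η := by
    intro η
    by_cases hη : η ∈ LV β h c₀ V s ∩ B
    · rw [one_of hη]
      refine (Finset.sum_le_sum fun y _ => mul_le_mul_of_nonneg_left
        (one_le (Lv V s y) η) (hw0 y η)).trans ?_
      simp only [mul_one]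
      rw [hsum]
      exact one_le _ _
    · rw [one_not hη]
      refine Finset.sum_nonpos fun y hy => ?_
      by_cases hB' : η ∈ B
      · by_cases hA : η ∈ At β h c₀ s y
        · have hL : η ∉ Lv V s y := fun hL => hη ⟨⟨y, hy, hA, hL⟩, hB'⟩
          rw [one_not hL, mul_zero]
        · show one B η * (one (At β h c₀ s y) η / S η) * _ ≤ 0
          rw [one_not hA, zero_div, mul_zero, zero_mul]
      · show one B η * (one (At β h c₀ s y) η / S η) * _ ≤ 0
        rw [one_not hB', zero_mul, zero_mul]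
  have h2 := integral_mono (integrable_finsetSum (boxF d s) fun y hy => i2 y hy)
    (one_int ((LV_meas β h c₀ hV s).inter hB)) h1
  rw [integral_finsetSum _ fun y hy => i2 y hy, Finset.sum_congr rfl fun y _ => e1 y,
    ← Finset.sum_mul, ← integral_finsetSum _ fun y hy => i1 y hy,
    one_I ((LV_meas β h c₀ hV s).inter hB)] at h2
  simp only [hsum] at h2
  rw [one_I ((AS_meas β h c₀ s).inter hB)] at h2
  linarith

/-- Markov for the free energy at one time. -/
lemma mkv [IsProbabilityMeasure ρ] (hd : 0 < d) (hρ : EM ρ) (β : ℝ) (h : Vec d) (s : ℕ)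
    {c₀ Φ : ℝ} (hc : 0 < c₀) (hF : Fn ρ β h s ≤ Φ) :
    (law d ρ).real {η | ¬ A ρ β h s - 4 / c₀ * Φ ≤ X β h η s} ≤ c₀ / 4 := by
  have hX : Integrable (fun η => X β h η s) (law d ρ) := (concU hd hρ β h s).1
  have hi : Integrable (fun η => |X β h η s - A ρ β h s|) (law d ρ) :=
    (hX.sub (integrable_const _)).abs
  have hF0 : 0 ≤ Fn ρ β h s := integral_nonneg fun η => abs_nonneg _
  rcases (hF0.trans hF).eq_or_lt with h0 | h0
  · have h1 : ∫ η, |X β h η s - A ρ β h s| ∂(law d ρ) = 0 := le_antisymm (h0 ▸ hF) hF0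
    rw [integral_eq_zero_iff_of_nonneg (fun η => abs_nonneg _) hi] at h1
    have h2 : (law d ρ) {η | ¬ A ρ β h s - 4 / c₀ * Φ ≤ X β h η s} = 0 := by
      refine measure_mono_null (fun η hη => ?_) h1
      intro h3
      have h4 : |X β h η s - A ρ β h s| = 0 := h3
      rw [abs_eq_zero] at h4
      refine hη ?_
      rw [← h0]
      linarith
    unfold Measure.real
    rw [h2]
    simp only [ENNReal.toReal_zero]
    positivity
  · have hΛ : 0 < 4 / c₀ * Φ := by positivity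
    have h1 := mul_meas_ge_le_integral_of_nonneg (μ := law d ρ)
      (Eventually.of_forall fun η => abs_nonneg (X β h η s - A ρ β h s)) hi (4 / c₀ * Φ)
    have h2 : (law d ρ).real {η | ¬ A ρ β h s - 4 / c₀ * Φ ≤ X β h η s} ≤
        (law d ρ).real {η | 4 / c₀ * Φ ≤ |X β h η s - A ρ β h s|} := by
      refine measureReal_mono (fun η hη => ?_) (measure_ne_top _ _)
      have h3 : ¬ A ρ β h s - 4 / c₀ * Φ ≤ X β h η s := hη
      show 4 / c₀ * Φ ≤ |X β h η s - A ρ β h s|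
      rw [not_le] at h3
      have h4 := neg_abs_le (X β h η s - A ρ β h s)
      linarith
    have h3 : 4 / c₀ * Φ * (law d ρ).real {η | 4 / c₀ * Φ ≤ |X β h η s - A ρ β h s|} ≤ Fn ρ β h s :=
      h1
    have h4 : 4 / c₀ * Φ * (law d ρ).real {η | ¬ A ρ β h s - 4 / c₀ * Φ ≤ X β h η s} ≤
        4 / c₀ * Φ * (c₀ / 4) := by
      have h5 := mul_le_mul_of_nonneg_left h2 hΛ.le
      have h6 : 4 / c₀ * Φ * (c₀ / 4) = Φ := by field_simp
      linarith
    exact le_of_mul_le_mul_left h4 hΛ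

/-- One round over a set of separated localised times. -/
lemma round76 [IsProbabilityMeasure ρ] (hd : 0 < d) (hρ : EM ρ) (β : ℝ) (h : Vec d) {c₀ : ℝ}
    (hc : 0 < c₀) {H m : ℕ} (S : Finset ℕ) (hS : ∀ s ∈ S, ∀ s' ∈ S, s' < s → s' + H ≤ s)
    (hSm : ∀ s ∈ S, s ≤ m) (hloc : ∀ s ∈ S, c₀ ≤ (law d ρ).real (AS β h c₀ s))
    {L Ev Ev' : Set (Env d)} (hL : MeasurableSet L) (hEv : MeasurableSet Ev)
    (hdL : DependsOn (fun η => η ∈ L) {p : ℕ × Site d | 1 ≤ p.1 ∧ p.1 ≤ H})
    (hdE : DependsOn (fun η => η ∈ Ev) {p : ℕ × Site d | 1 ≤ p.1}) {Φ : ℝ}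
    (hΦ : ∀ k : ℕ, k ≤ m → Fn ρ β h k ≤ Φ)
    (hin : ∀ s : ℕ, s ≤ m → ∀ (y : Site d) (η : Env d), c₀ * Z β h η s ≤ PP β h η s y →
      A ρ β h s - 4 / c₀ * Φ ≤ X β h η s → sh s y η ∈ Ev → η ∈ Ev')
    (hN : (S.card : ℝ) * (law d ρ).real L ≤ c₀ ^ 2 / 4) :
    S.card * (c₀ / 2 * (law d ρ).real (L ∩ Ev)) ≤ (law d ρ).real Ev' := by
  classical
  have hdL1 : DependsOn (fun η => η ∈ L) {p : ℕ × Site d | 1 ≤ p.1} := by
    intro η η' hη
    exact hdL fun p hp => hη p hp.1
  have hLE : MeasurableSet (L ∩ Ev) := hL.inter hEv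
  have hdLE : DependsOn (fun η => η ∈ L ∩ Ev) {p : ℕ × Site d | 1 ≤ p.1} := by
    intro η η' hη
    have h1 : (η ∈ L) = (η' ∈ L) := hdL1 hη
    have h2 : (η ∈ Ev) = (η' ∈ Ev) := hdE hη
    show (η ∈ L ∧ η ∈ Ev) = (η' ∈ L ∧ η' ∈ Ev)
    rw [h1, h2]
  set G : ℕ → Set (Env d) := fun s => {η | A ρ β h s - 4 / c₀ * Φ ≤ X β h η s} with hG
  set T : ℕ → Set (Env d) := fun s => {η | ∀ s' ∈ S, s' < s → η ∉ LV β h c₀ L s'} with hT
  set E : ℕ → Set (Env d) := fun s => LV β h c₀ (L ∩ Ev) s ∩ (T s ∩ G s) with hE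
  have hGm : ∀ s, MeasurableSet (G s) := fun s =>
    measurableSet_le measurable_const (measurable_X β h s)
  have hTm : ∀ s, MeasurableSet (T s) := fun s => by
    have h1 : T s = ⋂ s' ∈ S.filter fun s' => s' < s, (LV β h c₀ L s')ᶜ := by
      ext η
      simp only [hT, Set.mem_ofPred_eq, Set.mem_iInter, Finset.mem_filter, Set.mem_compl_iff]
      exact ⟨fun h1 s' h2 => h1 s' h2.1 h2.2, fun h1 s' h2 h3 => h1 s' ⟨h2, h3⟩⟩
    rw [h1]
    exact Finset.measurableSet_biInter _ fun s' _ => (LV_meas β h c₀ hL s').compl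
  have hEm : ∀ s, MeasurableSet (E s) := fun s =>
    (LV_meas β h c₀ hLE s).inter ((hTm s).inter (hGm s))
  have hTd : ∀ s ∈ S, DependsOn (fun η => η ∈ T s ∩ G s) (Pa d s) := by
    intro s hs η η' hη
    have h1 : ∀ s' ∈ S, s' < s → (η ∈ LV β h c₀ L s') = (η' ∈ LV β h c₀ L s') := by
      intro s' hs' hlt
      refine LV_dep2 β h c₀ hdL s' fun p hp => hη p ?_
      have h2 := hS s hs s' hs' hlt
      have h3 : p.1 ≤ s' + H := hp
      show p.1 ≤ s
      omega
    have h20 : Z β h η s = Z β h η' s := S98.Z_dep β h s hη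
    have h2 : X β h η s = X β h η' s := by
      unfold X
      rw [h20]
    have h3 : (η ∈ T s) = (η' ∈ T s) := by
      refine propext ⟨fun h4 s' hs' hlt h5 => h4 s' hs' hlt ?_,
        fun h4 s' hs' hlt h5 => h4 s' hs' hlt ?_⟩
      · rw [h1 s' hs' hlt]
        exact h5
      · rw [← h1 s' hs' hlt]
        exact h5
    have h4 : (η ∈ G s) = (η' ∈ G s) := by
      show (A ρ β h s - 4 / c₀ * Φ ≤ X β h η s) = (A ρ β h s - 4 / c₀ * Φ ≤ X β h η' s)
      rw [h2]
    show (η ∈ T s ∧ η ∈ G s) = (η' ∈ T s ∧ η' ∈ G s)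
    rw [h3, h4]
  have hdis : Set.PairwiseDisjoint (↑S : Set ℕ) E := by
    intro s hs s' hs' hne
    refine Set.disjoint_left.2 fun η h1 h2 => ?_
    have key : ∀ a ∈ S, ∀ b ∈ S, a < b → η ∈ E a → η ∈ E b → False := by
      intro a ha b _ hab h3 h4
      obtain ⟨y, hy, hA, hLy⟩ := h3.1
      exact h4.2.1 a ha hab ⟨y, hy, hA, hLy.1⟩
    rcases lt_or_gt_of_ne hne with h3 | h3
    · exact key s hs s' hs' h3 h1 h2
    · exact key s' hs' s hs h3 h2 h1
  have hsub : (⋃ s ∈ S, E s) ⊆ Ev' := by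
    intro η hη
    simp only [Set.mem_iUnion, exists_prop] at hη
    obtain ⟨s, hs, h1⟩ := hη
    obtain ⟨y, hy, hA, hLy⟩ := h1.1
    exact hin s (hSm s hs) y η hA h1.2.2 hLy.2
  have hp0 : 0 ≤ (law d ρ).real (L ∩ Ev) := measureReal_nonneg
  have hlow : ∀ s ∈ S, c₀ / 2 * (law d ρ).real (L ∩ Ev) ≤ (law d ρ).real (E s) := by
    intro s hs
    have h1 := lowV (ρ := ρ) β h s c₀ hLE hdLE ((hTm s).inter (hGm s)) (hTd s hs)
    have h2 : c₀ / 2 ≤ (law d ρ).real (AS β h c₀ s ∩ (T s ∩ G s)) := by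
      have h3 : AS β h c₀ s ⊆ (AS β h c₀ s ∩ (T s ∩ G s)) ∪
          ((⋃ s' ∈ S, LV β h c₀ L s') ∪ (G s)ᶜ) := by
        intro η hη
        by_cases h4 : η ∈ T s
        · by_cases h5 : η ∈ G s
          · exact Or.inl ⟨hη, h4, h5⟩
          · exact Or.inr (Or.inr h5)
        · refine Or.inr (Or.inl ?_)
          simp only [hT, Set.mem_ofPred_eq, not_forall, not_not] at h4
          obtain ⟨s', hs', _, h5⟩ := h4
          simp only [Set.mem_iUnion, exists_prop]
          exact ⟨s', hs', h5⟩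
      have h4 := measureReal_mono (μ := law d ρ) h3 (measure_ne_top _ _)
      have h5 := measureReal_union_le (μ := law d ρ) (AS β h c₀ s ∩ (T s ∩ G s))
        ((⋃ s' ∈ S, LV β h c₀ L s') ∪ (G s)ᶜ)
      have h6 := measureReal_union_le (μ := law d ρ) (⋃ s' ∈ S, LV β h c₀ L s') (G s)ᶜ
      have h7 : (law d ρ).real (⋃ s' ∈ S, LV β h c₀ L s') ≤
          S.card * ((law d ρ).real L / c₀) := by
        refine (measureReal_biUnion_finset_le _ _).trans ?_
        refine (Finset.sum_le_sum fun s' _ => upV hd β h s' hc hL hdL1).trans ?_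
        rw [Finset.sum_const, nsmul_eq_mul]
      have h8 : (law d ρ).real (G s)ᶜ ≤ c₀ / 4 := mkv hd hρ β h s hc (hΦ s (hSm s hs))
      have h9 := hloc s hs
      have h10 : S.card * ((law d ρ).real L / c₀) ≤ c₀ / 4 := by
        have h11 : S.card * ((law d ρ).real L / c₀) = (S.card * (law d ρ).real L) / c₀ := by ring
        rw [h11, div_le_iff₀ hc]
        calc (S.card : ℝ) * (law d ρ).real L ≤ c₀ ^ 2 / 4 := hN
          _ = c₀ / 4 * c₀ := by ring
      linarith
    calc c₀ / 2 * (law d ρ).real (L ∩ Ev)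
        = (law d ρ).real (L ∩ Ev) * (c₀ / 2) := mul_comm _ _
      _ ≤ (law d ρ).real (L ∩ Ev) * (law d ρ).real (AS β h c₀ s ∩ (T s ∩ G s)) :=
          mul_le_mul_of_nonneg_left h2 hp0
      _ ≤ (law d ρ).real (E s) := h1
  have h1 : ∑ s ∈ S, (law d ρ).real (E s) = (law d ρ).real (⋃ s ∈ S, E s) :=
    (measureReal_biUnion_finset hdis fun s _ => hEm s).symm
  have h2 := measureReal_mono (μ := law d ρ) hsub (measure_ne_top _ _)
  have h3 := Finset.sum_le_sum hlow
  rw [Finset.sum_const, nsmul_eq_mul] at h3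
  linarith

end Pool.Agent.W_7d29a1_PL.K76

namespace Pool.Agent.W_7d29a1_PL

open MeasureTheory ProbabilityTheory Filter Topology Pool.Agent.W_MP_7d29a1_pr
  Pool.Agent.W_7d29a1_h46 Pool.Agent.W_7d29a1_h46u Pool.Agent.W_7d29a1_D2.B35
  Pool.Agent.W_7d29a1_Q29 Pool.Agent.W_7d29a1_R34 Pool.Agent.W_7d29a1_SP
  Pool.Agent.W_7d29a1_SP.C79

/-- Leaf CATCH. -/
theorem catch76 {d : ℕ} {ρ : Measure ℝ} [IsProbabilityMeasure ρ] (hd : 0 < d) (hρ : EM ρ)
    (β : ℝ) : ∀ c₀ : ℝ, 0 < c₀ → ∃ C : ℝ, 1 ≤ C ∧ ∀ h : Vec d, Loc1 ρ β h c₀ →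
    ∀ (H m : ℕ) (Φ : ℝ) (L Ev Ev' : Set (Env d)), 1 ≤ H → 1 ≤ m →
    MeasurableSet L → MeasurableSet Ev →
    DependsOn (fun η => η ∈ L) {p : ℕ × Site d | 1 ≤ p.1 ∧ p.1 ≤ H} →
    DependsOn (fun η => η ∈ Ev) {p : ℕ × Site d | 1 ≤ p.1} →
    (∀ k : ℕ, k ≤ m → Fn ρ β h k ≤ Φ) →
    (∀ s : ℕ, s ≤ m → ∀ (y : Site d) (η : Env d), c₀ * Z β h η s ≤ PP β h η s y →
      A ρ β h s - C * Φ ≤ X β h η s → sh s y η ∈ Ev → η ∈ Ev') →
    (law d ρ).real (L ∩ Ev) ≤ C * ((law d ρ).real L + (H : ℝ) / m) * (law d ρ).real Ev' := by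
  classical
  intro c₀ hc
  refine ⟨1 + 4 / c₀ + 4 / c₀ ^ 2 + 16 / c₀ ^ 3, ?_, ?_⟩
  · have h1 : 0 < 4 / c₀ := by positivity
    have h2 : 0 < 4 / c₀ ^ 2 := by positivity
    have h3 : 0 < 16 / c₀ ^ 3 := by positivity
    linarith
  intro h hloc H m Φ L Ev Ev' hH hm hL hEv hdL hdE hΦ hin
  set C : ℝ := 1 + 4 / c₀ + 4 / c₀ ^ 2 + 16 / c₀ ^ 3 with hC
  have q1 : 0 < 4 / c₀ := by positivity
  have q2 : 0 < 4 / c₀ ^ 2 := by positivity
  have q3 : 0 < 16 / c₀ ^ 3 := by positivity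
  have hΦ0 : 0 ≤ Φ := le_trans (integral_nonneg fun η => abs_nonneg _) (hΦ 0 (Nat.zero_le _))
  have hin' : ∀ s : ℕ, s ≤ m → ∀ (y : Site d) (η : Env d), c₀ * Z β h η s ≤ PP β h η s y →
      A ρ β h s - 4 / c₀ * Φ ≤ X β h η s → sh s y η ∈ Ev → η ∈ Ev' := by
    intro s hs y η h1 h2 h3
    refine hin s hs y η h1 ?_ h3
    have h4 : 4 / c₀ * Φ ≤ C * Φ := mul_le_mul_of_nonneg_right (by linarith) hΦ0
    linarith
  have hc1 : c₀ ≤ 1 := by
    have h1 := hloc 1
    have h2 : ((((Finset.range 1).filter fun t =>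
        c₀ ≤ (law d ρ).real {η | ∃ y ∈ boxF d t, c₀ * Z β h η t ≤ PP β h η t y}).card : ℕ) : ℝ)
        ≤ 1 := by
      have h3 := Finset.card_filter_le (Finset.range 1) fun t =>
        c₀ ≤ (law d ρ).real {η | ∃ y ∈ boxF d t, c₀ * Z β h η t ≤ PP β h η t y}
      rw [Finset.card_range] at h3
      exact_mod_cast h3
    push_cast at h1
    linarith
  set p : ℝ := (law d ρ).real L with hp
  set q : ℝ := (law d ρ).real (L ∩ Ev) with hq
  set r : ℝ := (law d ρ).real Ev' with hr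
  have hp0 : 0 ≤ p := measureReal_nonneg
  have hq0 : 0 ≤ q := measureReal_nonneg
  have hr0 : 0 ≤ r := measureReal_nonneg
  have hH1 : (1 : ℝ) ≤ H := by exact_mod_cast hH
  have hm1 : (1 : ℝ) ≤ m := by exact_mod_cast hm
  have hHm : 0 < (H : ℝ) / m := by positivity
  -- the trivial bound
  have triv : q ≤ r := by
    refine measureReal_mono (fun η hη => ?_) (measure_ne_top _ _)
    have hZ : Z β h η 0 = 1 := Z_zero β h η
    have hP : PP β h η 0 0 = 1 := by
      have h1 := Z_eq_sum β h η 0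
      rw [hZ] at h1
      have h2 : boxF d 0 = {(0 : Site d)} := by
        ext z
        rw [mem_boxF, Finset.mem_singleton]
        constructor
        · intro h3
          funext i
          have h4 := h3 i
          simp only [Nat.cast_zero] at h4
          exact abs_eq_zero.1 (le_antisymm h4 (abs_nonneg _))
        · intro h3 i
          rw [h3]
          simp
      rw [h2, Finset.sum_singleton] at h1
      exact h1.symm
    refine hin' 0 (Nat.zero_le _) 0 η ?_ ?_ ?_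
    · rw [hZ, hP, mul_one]
      exact hc1
    · have h1 : X β h η 0 = 0 := by
        unfold X
        rw [hZ, Real.log_one]
      have h2 : A ρ β h 0 = 0 := by
        unfold A
        have h3 : ∀ η : Env d, X β h η 0 = 0 := by
          intro η
          unfold X
          rw [Z_zero, Real.log_one]
        simp [h3]
      rw [h1, h2]
      have := mul_nonneg q1.le hΦ0
      linarith
    · have h1 : sh 0 0 η = η := by
        funext p
        show η (p.1 + 0, p.2 + 0) = η p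
        rw [add_zero, add_zero]
      rw [h1]
      exact hη.2
  -- the rounds
  have rounds : ∀ N : ℕ, 1 ≤ N → (N : ℝ) * H ≤ c₀ * m → (N : ℝ) * p ≤ c₀ ^ 2 / 4 →
      N * (c₀ / 2 * q) ≤ r := by
    intro N hN1 hN2 hN3
    set F : Finset ℕ := (Finset.range m).filter fun t =>
      c₀ ≤ (law d ρ).real {η | ∃ y ∈ boxF d t, c₀ * Z β h η t ≤ PP β h η t y} with hF
    have hcard : N * H ≤ F.card := by
      have h1 := hloc m
      exact_mod_cast hN2.trans h1
    obtain ⟨S, hS1, hS2, hS3⟩ := C79.class79 hH F hcard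
    have h1 := K76.round76 (ρ := ρ) hd hρ β h hc (H := H) (m := m) S hS3 (fun s hs => by
      have h1 := Finset.mem_range.1 (Finset.mem_filter.1 (hS1 hs)).1
      omega) (fun s hs => (Finset.mem_filter.1 (hS1 hs)).2) hL hEv hdL hdE hΦ hin'
      (by rw [hS2]; exact hN3)
    rw [hS2] at h1
    exact h1
  have hCr : ∀ a : ℝ, a * q ≤ r → 0 < a → 1 / a ≤ C * (p + (H : ℝ) / m) →
      q ≤ C * (p + (H : ℝ) / m) * r := by
    intro a h1 h2 h3
    have h4 : q ≤ 1 / a * r := by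
      rw [one_div, inv_mul_eq_div, le_div_iff₀ h2]
      linarith
    exact h4.trans (mul_le_mul_of_nonneg_right h3 hr0)
  by_cases h1 : c₀ * m < H
  · refine hCr 1 (by linarith) one_pos ?_
    have h2 : c₀ < (H : ℝ) / m := by
      rw [lt_div_iff₀ (by linarith)]
      exact h1
    have h3 : 1 ≤ 4 / c₀ * c₀ := by
      rw [div_mul_cancel₀ _ hc.ne']
      norm_num
    have h4 : 4 / c₀ * c₀ ≤ C * (p + (H : ℝ) / m) := by
      refine mul_le_mul (by linarith) (by linarith) hc.le (by linarith)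
    rw [div_one]
    linarith
  rw [not_lt] at h1
  by_cases h2 : c₀ ^ 2 / 4 < p
  · refine hCr 1 (by linarith) one_pos ?_
    have h3 : 1 = 4 / c₀ ^ 2 * (c₀ ^ 2 / 4) := by field_simp
    have h4 : 4 / c₀ ^ 2 * (c₀ ^ 2 / 4) ≤ C * (p + (H : ℝ) / m) := by
      refine mul_le_mul (by linarith) (by linarith) (by positivity) (by linarith)
    rw [div_one]
    linarith
  rw [not_lt] at h2
  set M : ℕ := ⌊c₀ * m / H⌋₊ with hM
  have hM1 : 1 ≤ M := by
    rw [hM, Nat.one_le_floor_iff, le_div_iff₀ (by linarith)]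
    linarith
  have hM2 : (M : ℝ) * H ≤ c₀ * m := by
    have h3 : (M : ℝ) ≤ c₀ * m / H := Nat.floor_le (by positivity)
    rwa [le_div_iff₀ (by linarith)] at h3
  have hM3 : c₀ * m / H ≤ 2 * M := by
    have h3 : c₀ * m / H < M + 1 := Nat.lt_floor_add_one _
    have h4 : (1 : ℝ) ≤ M := by exact_mod_cast hM1
    linarith
  by_cases h3 : (M : ℝ) * p ≤ c₀ ^ 2 / 4
  · have h4 := rounds M hM1 hM2 h3
    have hM0 : (0 : ℝ) < M := by
      have h5 : (1 : ℝ) ≤ M := by exact_mod_cast hM1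
      linarith
    refine hCr (M * (c₀ / 2)) (by linarith) (by positivity) ?_
    have h5 : 1 / (M * (c₀ / 2)) ≤ 4 / c₀ ^ 2 * ((H : ℝ) / m) := by
      rw [div_le_iff₀ (by positivity)]
      have h6 : 4 / c₀ ^ 2 * ((H : ℝ) / m) * (M * (c₀ / 2)) = (2 * M) * (H / (c₀ * m)) := by
        field_simp
        ring
      rw [h6]
      have h7 : c₀ * m / H * (H / (c₀ * m)) = 1 := by
        have : (m : ℝ) ≠ 0 := by linarith
        have : (H : ℝ) ≠ 0 := by linarith
        field_simp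
      rw [← h7]
      exact mul_le_mul_of_nonneg_right hM3 (by positivity)
    refine h5.trans ?_
    refine mul_le_mul (by linarith) (by linarith) hHm.le (by linarith)
  · rw [not_le] at h3
    have hpp : 0 < p := by
      rcases hp0.eq_or_lt with h4 | h4
      · rw [← h4, mul_zero] at h3
        have h5 : 0 < c₀ ^ 2 / 4 := by positivity
        linarith
      · exact h4
    set N : ℕ := ⌊c₀ ^ 2 / 4 / p⌋₊ with hN
    have hN1 : 1 ≤ N := by
      rw [hN, Nat.one_le_floor_iff, le_div_iff₀ hpp]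
      linarith
    have hN2 : (N : ℝ) * p ≤ c₀ ^ 2 / 4 := by
      have h4 : (N : ℝ) ≤ c₀ ^ 2 / 4 / p := Nat.floor_le (by positivity)
      rwa [le_div_iff₀ hpp] at h4
    have hN3 : c₀ ^ 2 / 4 / p ≤ 2 * N := by
      have h4 : c₀ ^ 2 / 4 / p < N + 1 := Nat.lt_floor_add_one _
      have h5 : (1 : ℝ) ≤ N := by exact_mod_cast hN1
      linarith
    have hNM : (N : ℝ) ≤ M := by
      have h4 : (N : ℝ) * p < M * p := lt_of_le_of_lt hN2 h3
      exact (lt_of_mul_lt_mul_right h4 hp0).le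
    have h4 := rounds N hN1 ((mul_le_mul_of_nonneg_right hNM (by linarith)).trans hM2) hN2
    have hN0 : (0 : ℝ) < N := by
      have h5 : (1 : ℝ) ≤ N := by exact_mod_cast hN1
      linarith
    refine hCr (N * (c₀ / 2)) (by linarith) (by positivity) ?_
    have h5 : 1 / (N * (c₀ / 2)) ≤ 16 / c₀ ^ 3 * p := by
      rw [div_le_iff₀ (by positivity)]
      have h6 : 16 / c₀ ^ 3 * p * (N * (c₀ / 2)) = (2 * N) * (4 * p / c₀ ^ 2) := by
        field_simp
        ring
      rw [h6]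
      have h7 : c₀ ^ 2 / 4 / p * (4 * p / c₀ ^ 2) = 1 := by
        field_simp
      rw [← h7]
      exact mul_le_mul_of_nonneg_right hN3 (by positivity)
    refine h5.trans ?_
    refine mul_le_mul (by linarith) (by linarith) hp0 (by linarith)

end Pool.Agent.W_7d29a1_PL
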