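import Mathlib

/-!
Assembly of the core: the numbers (helper28).
-/

namespace Pool.Agent.W_7d29a1_PL

open Filter Topology

namespace Co28

/-- The usage in numbers. -/
lemma numUse28 (C₀ C : ℝ) (hC₀ : 0 ≤ C₀) (hC : 0 ≤ C) : ∀ᶠ n : ℕ in atTop,
    ∀ (H : ℕ) (x E U K : ℝ), 1 ≤ H → H ^ 4 ≤ n → 50 * (C₀ + 1) * Real.log n ≤ x →
      E ≤ (n : ℝ) ^ (1 / 16 : ℝ) → K ≤ (n : ℝ) ^ (1 / 16 : ℝ) →
      19 / 20 * x * (n - H) ≤ 2 * x * U + H * (E + C * (H + 1) + C * Real.sqrt ((n + 1) * K)) +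
        C₀ * n * Real.log (2 * H + 1) → 2 / 5 ≤ U / n := by
  have h1 : ∀ᶠ n : ℕ in atTop, 100 * (1 + 4 * C) + 100 ≤ (n : ℝ) ^ (1 / 8 : ℝ) :=
    ((tendsto_rpow_atTop (by norm_num : (0 : ℝ) < 1 / 8)).comp
      tendsto_natCast_atTop_atTop).eventually_ge_atTop _
  have h2 : ∀ᶠ n : ℕ in atTop, (2 : ℝ) ≤ Real.log n :=
    (Real.tendsto_log_atTop.comp tendsto_natCast_atTop_atTop).eventually_ge_atTop _
  filter_upwards [h1, h2, eventually_ge_atTop 1] with n hs hL hn H x E U K hH hHn hx hE hK hU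
  set s : ℝ := (n : ℝ) ^ (1 / 8 : ℝ) with hsdef
  have hn0 : (0 : ℝ) ≤ n := n.cast_nonneg
  have hn1 : (1 : ℝ) ≤ n := by exact_mod_cast hn
  have hs1 : 100 ≤ s := by linarith
  have hs8 : s ^ 8 = n := by
    rw [hsdef, ← Real.rpow_natCast, ← Real.rpow_mul hn0]
    norm_num
  have hs0 : (0 : ℝ) < s := by linarith
  have hHr : (H : ℝ) ≤ s ^ 2 := by
    have h3 : ((H : ℝ)) ^ 4 ≤ (s ^ 2) ^ 4 := by
      rw [← pow_mul]
      norm_num
      rw [hs8]
      exact_mod_cast hHn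
    exact le_of_pow_le_pow_left₀ (by norm_num) (by positivity) h3
  have h16 : (n : ℝ) ^ (1 / 16 : ℝ) ≤ s := by
    rw [hsdef]
    exact Real.rpow_le_rpow_of_exponent_le hn1 (by norm_num)
  have hsq : Real.sqrt ((n + 1) * K) ≤ 2 * s ^ 5 := by
    refine Real.sqrt_le_iff.2 ⟨by positivity, ?_⟩
    have h4 : K ≤ s := hK.trans h16
    calc (n + 1) * K ≤ (n + 1) * s := by gcongr
      _ ≤ (2 * s ^ 8) * s := by
          gcongr
          rw [hs8]
          linarith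
      _ ≤ (2 * s ^ 5) ^ 2 := by
          have h5 : (2 * s ^ 5) ^ 2 - 2 * s ^ 8 * s = 2 * s ^ 9 * (2 * s - 1) := by ring
          have h6 : 0 ≤ 2 * s ^ 9 * (2 * s - 1) := mul_nonneg (by positivity) (by linarith)
          linarith
  have hH1 : (1 : ℝ) ≤ H := by exact_mod_cast hH
  have hmid : H * (E + C * (H + 1) + C * Real.sqrt ((n + 1) * K)) ≤ 1 / 100 * n := by
    have h7 : E + C * (H + 1) + C * Real.sqrt ((n + 1) * K) ≤ (1 + 4 * C) * s ^ 5 := by
      have e1 : E ≤ s ^ 5 := by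
        have : s ≤ s ^ 5 := by
          calc s = s ^ 1 := (pow_one s).symm
            _ ≤ s ^ 5 := pow_le_pow_right₀ (by linarith) (by norm_num)
        linarith [hE.trans h16]
      have e2 : C * (H + 1) ≤ C * (2 * s ^ 5) := by
        refine mul_le_mul_of_nonneg_left ?_ hC
        have : s ^ 2 ≤ s ^ 5 := pow_le_pow_right₀ (by linarith) (by norm_num)
        linarith
      have e3 : C * Real.sqrt ((n + 1) * K) ≤ C * (2 * s ^ 5) :=
        mul_le_mul_of_nonneg_left hsq hC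
      linarith
    calc H * (E + C * (H + 1) + C * Real.sqrt ((n + 1) * K))
        ≤ H * ((1 + 4 * C) * s ^ 5) := by gcongr
      _ ≤ s ^ 2 * ((1 + 4 * C) * s ^ 5) := by gcongr
      _ = (1 + 4 * C) * s ^ 7 := by ring
      _ ≤ (s / 100) * s ^ 7 := by
          gcongr
          linarith
      _ = 1 / 100 * s ^ 8 := by ring
      _ = 1 / 100 * n := by rw [hs8]
  have hHn' : (H : ℝ) ≤ 1 / 100 * n := by
    have e1 : s ^ 2 ≤ 1 / 100 * s ^ 8 := by
      have e2 : s ^ 2 * 100 ≤ s ^ 2 * s := mul_le_mul_of_nonneg_left hs1 (by positivity)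
      have e3 : s ^ 3 ≤ s ^ 8 := pow_le_pow_right₀ (by linarith) (by norm_num)
      nlinarith
    rw [hs8] at e1
    linarith
  have hx1 : (1 : ℝ) ≤ x := by nlinarith
  have hlog : Real.log (2 * H + 1) ≤ 2 * Real.log n := by
    have e1 : (2 * H + 1 : ℝ) ≤ n ^ 2 := by nlinarith
    calc Real.log (2 * H + 1) ≤ Real.log ((n : ℝ) ^ 2) := Real.log_le_log (by positivity) e1
      _ = 2 * Real.log n := by
          rw [Real.log_pow]
          norm_num
  have hent : C₀ * n * Real.log (2 * H + 1) ≤ 1 / 25 * (x * n) := by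
    have e1 : C₀ * n * Real.log (2 * H + 1) ≤ C₀ * n * (2 * Real.log n) :=
      mul_le_mul_of_nonneg_left hlog (by positivity)
    have e2 : C₀ * Real.log n * 50 ≤ x := by nlinarith
    nlinarith
  have hfin : 19 / 20 * x * (99 / 100 * n) ≤ 2 * x * U + 1 / 100 * n + 1 / 25 * (x * n) := by
    have e1 : 19 / 20 * x * (99 / 100 * n) ≤ 19 / 20 * x * (n - H) :=
      mul_le_mul_of_nonneg_left (by linarith) (by positivity)
    linarith
  have hx0 : 0 < x := by linarith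
  have hn0' : (0 : ℝ) < n := by linarith
  rw [le_div_iff₀ hn0']
  have e3 : 1 / 100 * (n : ℝ) ≤ 1 / 100 * (x * n) := by nlinarith
  have e4 : x * (2 / 5 * n) ≤ x * U := by nlinarith
  exact le_of_mul_le_mul_left e4 hx0

/-- The final numbers. -/
lemma numFin28 (a cA CA Cb lΛ c₁ : ℝ) (ha : 1 ≤ a) (hcA : 0 < cA) (hCA : 0 ≤ CA) (hCb : 0 ≤ Cb)
    (hΛ : 0 ≤ lΛ) (hc₁ : 0 < c₁) : ∃ c : ℝ, 0 < c ∧ c ≤ c₁ ∧ ∀ᶠ n : ℕ in atTop, ∀ (l : ℕ) (S k : ℝ),
      (2 : ℝ) ^ l ≤ (n : ℝ) ^ c → k ≤ l + 1 → Real.log n / 8 ≤ 3 * a * S + (l + 2) * lΛ →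
      cA * S / 10 ≤ c * Real.log n + Cb * (CA + 1) * k → False := by
  set G : ℝ := 30 * a / cA * (1 + 2 * (Cb * (CA + 1))) + 2 * lΛ + 1 with hG
  have hG1 : 1 ≤ G := by
    have h1 : 0 ≤ 30 * a / cA * (1 + 2 * (Cb * (CA + 1))) := by positivity
    linarith
  refine ⟨min c₁ (1 / (16 * G)), by positivity, min_le_left _ _, ?_⟩
  set c : ℝ := min c₁ (1 / (16 * G)) with hc
  have hc0 : 0 < c := by positivity
  have hcG : c * G ≤ 1 / 16 := by
    have h1 : c ≤ 1 / (16 * G) := min_le_right _ _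
    calc c * G ≤ 1 / (16 * G) * G := by gcongr
      _ = 1 / 16 := by field_simp
  have h2 : ∀ᶠ n : ℕ in atTop,
      16 * (30 * a / cA * (Cb * (CA + 1)) + 2 * lΛ) + 1 ≤ Real.log n :=
    (Real.tendsto_log_atTop.comp tendsto_natCast_atTop_atTop).eventually_ge_atTop _
  filter_upwards [h2, eventually_ge_atTop 1] with n hL hn l S k hl hk h3 h4
  have hn1 : (1 : ℝ) ≤ n := by exact_mod_cast hn
  have hl2 : (l : ℝ) ≤ 2 * c * Real.log n := by
    have e1 : (l : ℝ) * Real.log 2 ≤ c * Real.log n := by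
      have := Real.log_le_log (by positivity) hl
      rwa [Real.log_pow, Real.log_rpow (by linarith)] at this
    have e2 : (1 / 2 : ℝ) ≤ Real.log 2 := by linarith [Real.log_two_gt_d9]
    nlinarith [l.cast_nonneg (α := ℝ)]
  have hS : S ≤ 10 / cA * (c * Real.log n + Cb * (CA + 1) * (2 * c * Real.log n + 1)) := by
    have e1 : Cb * (CA + 1) * k ≤ Cb * (CA + 1) * (2 * c * Real.log n + 1) :=
      mul_le_mul_of_nonneg_left (by linarith) (by positivity)
    have e2 : cA * S ≤ 10 * (c * Real.log n + Cb * (CA + 1) * (2 * c * Real.log n + 1)) := by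
      linarith
    rw [div_mul_eq_mul_div, le_div_iff₀ hcA]
    linarith
  have h5 : 3 * a * S ≤
      3 * a * (10 / cA * (c * Real.log n + Cb * (CA + 1) * (2 * c * Real.log n + 1))) :=
    mul_le_mul_of_nonneg_left hS (by positivity)
  have h6 : (l + 2) * lΛ ≤ (2 * c * Real.log n + 2) * lΛ :=
    mul_le_mul_of_nonneg_right (by linarith) hΛ
  have h7 : 3 * a * (10 / cA * (c * Real.log n + Cb * (CA + 1) * (2 * c * Real.log n + 1))) +
      (2 * c * Real.log n + 2) * lΛ = (c * (G - 1)) * Real.log n +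
        (30 * a / cA * (Cb * (CA + 1)) + 2 * lΛ) := by
    rw [hG]
    ring
  have h8 : c * (G - 1) * Real.log n ≤ 1 / 16 * Real.log n := by
    refine mul_le_mul_of_nonneg_right ?_ ?_
    · linarith
    · have : 0 ≤ 30 * a / cA * (Cb * (CA + 1)) + 2 * lΛ := by positivity
      linarith
  linarith

/-- The time of a cheap level is at most `n`. -/
lemma numChp28 (B : ℕ) (C c : ℝ) (hC : 1 ≤ C) (hc0 : 0 < c) (hc : c ≤ 1 / (32 * C)) :
    ∀ᶠ n : ℕ in atTop, ∀ (m k j : ℕ) (V : ℝ), m ^ 4 ≤ n → k ≤ B * m → 0 ≤ V → V ≤ (n : ℝ) ^ c →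
      (2 : ℝ) ^ j ≤ C * (1 + V) ^ 2 → C * k * Real.exp (C * j) + 1 ≤ n := by
  have h1 : ∀ᶠ n : ℕ in atTop, C * B * (4 * C) ^ (2 * C) + 1 ≤ (n : ℝ) ^ (1 / 4 : ℝ) :=
    ((tendsto_rpow_atTop (by norm_num : (0 : ℝ) < 1 / 4)).comp
      tendsto_natCast_atTop_atTop).eventually_ge_atTop _
  filter_upwards [h1, eventually_ge_atTop 1] with n hs hn m k j V hm hk hV0 hV hj
  have hn1 : (1 : ℝ) ≤ n := by exact_mod_cast hn
  have hn0 : (0 : ℝ) ≤ n := by linarith
  set s : ℝ := (n : ℝ) ^ (1 / 4 : ℝ) with hsdef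
  have hs4 : s ^ 4 = n := by
    rw [hsdef, ← Real.rpow_natCast, ← Real.rpow_mul hn0]
    norm_num
  have hs1 : 1 ≤ s := Real.one_le_rpow hn1 (by norm_num)
  have hms : (m : ℝ) ≤ s := by
    have h3 : ((m : ℝ)) ^ 4 ≤ s ^ 4 := by
      rw [hs4]
      exact_mod_cast hm
    exact le_of_pow_le_pow_left₀ (by norm_num) (by positivity) h3
  have hkB : (k : ℝ) ≤ B * s := by
    have : (k : ℝ) ≤ B * m := by exact_mod_cast hk
    calc (k : ℝ) ≤ B * m := this
      _ ≤ B * s := by gcongr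
  have hexp : Real.exp (C * j) ≤ (4 * C) ^ (2 * C) * s := by
    have e1 : Real.exp (C * j) ≤ ((2 : ℝ) ^ j) ^ (2 * C) := by
      rw [← Real.rpow_natCast 2 j, ← Real.rpow_mul (by norm_num), Real.rpow_def_of_pos (by norm_num)]
      refine Real.exp_le_exp.2 ?_
      have e2 : (1 / 2 : ℝ) ≤ Real.log 2 := by linarith [Real.log_two_gt_d9]
      have e3 : 0 ≤ C * (j : ℝ) := by positivity
      nlinarith
    have e4 : C * (1 + V) ^ 2 ≤ 4 * C * (n : ℝ) ^ (2 * c) := by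
      have e5 : (1 : ℝ) ≤ (n : ℝ) ^ c := Real.one_le_rpow hn1 hc0.le
      have e6 : (n : ℝ) ^ (2 * c) = ((n : ℝ) ^ c) ^ 2 := by
        rw [← Real.rpow_natCast, ← Real.rpow_mul hn0]
        congr 1
        push_cast
        ring
      rw [e6]
      have e7 : 1 + V ≤ 2 * (n : ℝ) ^ c := by linarith
      have e8 : (1 + V) ^ 2 ≤ (2 * (n : ℝ) ^ c) ^ 2 := pow_le_pow_left₀ (by linarith) e7 2
      nlinarith
    calc Real.exp (C * j) ≤ ((2 : ℝ) ^ j) ^ (2 * C) := e1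
      _ ≤ (4 * C * (n : ℝ) ^ (2 * c)) ^ (2 * C) :=
          Real.rpow_le_rpow (by positivity) (hj.trans e4) (by positivity)
      _ = (4 * C) ^ (2 * C) * (n : ℝ) ^ (2 * c * (2 * C)) := by
          rw [Real.mul_rpow (by positivity) (by positivity), ← Real.rpow_mul hn0]
      _ ≤ (4 * C) ^ (2 * C) * s := by
          refine mul_le_mul_of_nonneg_left ?_ (by positivity)
          rw [hsdef]
          refine Real.rpow_le_rpow_of_exponent_le hn1 ?_
          have e9 : c * (32 * C) ≤ 1 := by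
            have := mul_le_mul_of_nonneg_right hc (by positivity : (0 : ℝ) ≤ 32 * C)
            rwa [one_div, inv_mul_cancel₀ (by positivity)] at this
          linarith
  calc C * k * Real.exp (C * j) + 1 ≤ C * (B * s) * ((4 * C) ^ (2 * C) * s) + 1 := by gcongr
    _ = (C * B * (4 * C) ^ (2 * C)) * s ^ 2 + 1 := by ring
    _ ≤ (C * B * (4 * C) ^ (2 * C)) * s ^ 2 + s ^ 2 := by
        have : 1 ≤ s ^ 2 := one_le_pow₀ hs1
        linarith
    _ = (C * B * (4 * C) ^ (2 * C) + 1) * s ^ 2 := by ring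
    _ ≤ s * s ^ 2 := by gcongr
    _ ≤ s ^ 4 := by
        have : s ^ 3 ≤ s ^ 4 := pow_le_pow_right₀ hs1 (by norm_num)
        nlinarith
    _ = n := hs4

/-- The ratio which makes every heavy level cheap. -/
lemma numLam28 (B : ℕ) (C : ℝ) (hB : 1 ≤ B) (hC : 1 ≤ C) : ∃ Λ : ℕ, 2 ≤ Λ ∧
    ∀ (m k j : ℕ) (x : ℝ), 1 ≤ m → k ≤ B * m → x ≤ C * k * Real.exp (C * j) + 1 →
      x ≤ (Λ : ℝ) ^ (j + 1) * m := by
  set u : ℝ := C * B * Real.exp C with hu
  have hB1 : (1 : ℝ) ≤ B := by exact_mod_cast hB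
  have hCB : 1 ≤ C * B := by nlinarith
  have hu0 : 0 < u := by positivity
  refine ⟨⌈u⌉₊ + 1, ?_, fun m k j x hm hk hx => ?_⟩
  · have : 0 < ⌈u⌉₊ := Nat.ceil_pos.2 hu0
    omega
  have hm1 : (1 : ℝ) ≤ m := by exact_mod_cast hm
  have hk1 : (k : ℝ) ≤ B * m := by exact_mod_cast hk
  have h1 : u + 1 ≤ ((⌈u⌉₊ + 1 : ℕ) : ℝ) := by
    push_cast
    linarith [Nat.le_ceil u]
  have h2 : C * B * Real.exp (C * j) + 1 ≤ (u + 1) ^ (j + 1) := by
    have e1 : u ^ (j + 1) + 1 ≤ (u + 1) ^ (j + 1) := by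
      have := pow_add_pow_le (x := u) (y := 1) hu0.le zero_le_one (Nat.succ_ne_zero j)
      rwa [one_pow] at this
    have e2 : C * B * Real.exp (C * j) ≤ u ^ (j + 1) := by
      rw [hu, mul_pow, ← Real.exp_nat_mul]
      refine mul_le_mul ?_ (Real.exp_le_exp.2 ?_) (Real.exp_pos _).le (by positivity)
      · calc C * (B : ℝ) = (C * B) ^ 1 := (pow_one _).symm
          _ ≤ (C * B) ^ (j + 1) := pow_le_pow_right₀ hCB (by omega)
      · push_cast
        nlinarith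
    linarith
  calc x ≤ C * k * Real.exp (C * j) + 1 := hx
    _ ≤ C * (B * m) * Real.exp (C * j) + m := by gcongr
    _ = (C * B * Real.exp (C * j) + 1) * m := by ring
    _ ≤ (u + 1) ^ (j + 1) * m := by gcongr
    _ ≤ (((⌈u⌉₊ + 1 : ℕ) : ℝ)) ^ (j + 1) * m := by gcongr

end Co28

end Pool.Agent.W_7d29a1_PL
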