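import Pool.Agent.W_7d29a1_PL.CorA28
import Pool.Agent.W_7d29a1_PL.CorB28

/-!
Assembly of the core at one tilt (helper28).
-/

namespace Pool.Agent.W_7d29a1_PL

open MeasureTheory ProbabilityTheory Filter Topology Pool.Agent.W_MP_7d29a1_pr
  Pool.Agent.W_7d29a1_h46 Pool.Agent.W_7d29a1_h46u Pool.Agent.W_7d29a1_D2.B35
  Pool.Agent.W_7d29a1_Q29 Pool.Agent.W_7d29a1_R34 Pool.Agent.W_7d29a1_SP

namespace Co28

variable {d : ℕ} {ρ : Measure ℝ} {β : ℝ}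

/-- With `H = 0` the luck is sure. -/
lemma Lk_zero28 {h : Vec d} (n : ℕ) {x κ : ℝ} (hx : 0 ≤ x) (hκ : κ ≤ 1) :
    Lk ρ β h n 0 0 x κ 0 = Set.univ := by
  refine Set.eq_univ_of_forall fun η => Or.inl ⟨0, le_rfl, ?_⟩
  have h1 : X β h η 0 = 0 := by
    unfold X
    have := Z_zero β h η
    simp [this]
  simp only [add_zero, Nat.cast_zero, zero_mul, zero_sub, sub_zero]
  rw [h1]
  have : 0 ≤ (1 - κ) * x := mul_nonneg (by linarith) hx
  linarith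

/-- At one scale. -/
lemma one28 [IsProbabilityMeasure ρ] {h : Vec d} {c A C₁ Cu CA cA Cb ε εA CC : ℝ} {a B BA Λ ΛA n : ℕ}
    (ha : 1 ≤ a) (hBA : BA ≤ B) (hΛA : ΛA ≤ Λ) (hε : ε ≤ εA) (hcA : 0 < cA)
    (hCA : 1 ≤ CA) (hCb : 0 ≤ Cb) (hΛ2 : 2 ≤ Λ) (hn : 2 ≤ n) (hc0 : 0 < c)
    (hc16 : c ≤ 1 / 16)
    (hA : ∀ (n : ℕ) (m : ℕ → ℕ) (I : Finset ℕ), Sy ρ β h n a BA ΛA εA m I →
      (∀ k : ℕ, k ≤ 4 * n → Va ρ β h k ≤ (n : ℝ) ^ (1 / 16 : ℝ) ∧
        En ρ β h k ≤ (n : ℝ) ^ (1 / 16 : ℝ)) →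
      (law d ρ).real (⋂ p ∈ I, Lk ρ β h n (m p - 2 * m (p - a)) 0 (2 ^ p) (1 / 20) 0) ≤
        Real.exp (CA * I.card - cA * ∑ p ∈ I, Dl n m p))
    (hU : ∀ (n H : ℕ) (x κ K : ℝ), 1 ≤ H → H ≤ n → 0 < x → 0 < κ → κ ≤ 1 / 2 →
      (∀ k : ℕ, k ≤ n → Va ρ β h k ≤ K) →
      (1 - κ) * x * (n - H) ≤ 2 * x * (∑ t ∈ Finset.range n, us ρ β h n t (Lk ρ β h n H 0 x κ 0)) +
        H * (En ρ β h n + Cu * (H + 1) + Cu * Real.sqrt ((n + 1) * K)) +
        C₁ * n * Real.log (2 * H + 1))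
    (hCh : ∀ m : ℕ → ℕ, (∀ l k : ℕ, k < m l → fM ρ β h k < 2 ^ l) →
      ∀ p k : ℕ, 1 ≤ k → ε * 2 ^ p ≤ Fn ρ β h k →
      ∃ j : ℕ, (2 : ℝ) ^ j ≤ CC * (1 + Va ρ β h k) ^ 2 ∧
        (m (p + j + 1) : ℝ) ≤ CC * k * Real.exp (CC * j) + 1)
    (hS : SelP)
    (hN1 : ∀ (H : ℕ) (x E U K : ℝ), 1 ≤ H → H ^ 4 ≤ n → 50 * (C₁ + 1) * Real.log n ≤ x →
      E ≤ (n : ℝ) ^ (1 / 16 : ℝ) → K ≤ (n : ℝ) ^ (1 / 16 : ℝ) →
      19 / 20 * x * (n - H) ≤ 2 * x * U + H * (E + Cu * (H + 1) + Cu * Real.sqrt ((n + 1) * K)) +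
        C₁ * n * Real.log (2 * H + 1) → 2 / 5 ≤ U / n)
    (hN2 : ∀ (l : ℕ) (S k : ℝ), (2 : ℝ) ^ l ≤ (n : ℝ) ^ c → k ≤ l + 1 →
      Real.log n / 8 ≤ 3 * a * S + (l + 2) * Real.log Λ →
      cA * S / 10 ≤ c * Real.log n + (Cb + 1) * (CA + 1) * k → False)
    (hN3 : ∀ (m k j : ℕ) (V : ℝ), m ^ 4 ≤ n → k ≤ B * m → 0 ≤ V → V ≤ (n : ℝ) ^ c →
      (2 : ℝ) ^ j ≤ CC * (1 + V) ^ 2 → CC * k * Real.exp (CC * j) + 1 ≤ n)
    (hN4 : ∀ (m k j : ℕ) (x : ℝ), 1 ≤ m → k ≤ B * m → x ≤ CC * k * Real.exp (CC * j) + 1 →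
      x ≤ (Λ : ℝ) ^ (j + 1) * m)
    (hε0 : 0 < ε) (hF0 : Fn ρ β h 0 = 0) (hE0 : En ρ β h 0 = 0)
    (hFn : ∀ k, 0 ≤ Fn ρ β h k) (hFV : ∀ k, Fn ρ β h k ^ 2 ≤ Va ρ β h k)
    (hBn : (B : ℝ) * (n : ℝ) ^ (1 / 4 : ℝ) ≤ n) (hAd : A = 100 * (C₁ + 1))
    (hAn : 1 ≤ A * Real.log n) (hAn' : 2 ^ (a + 1) * (fM ρ β h 1 + 1) ≤ A * Real.log n)
    (hfM : ∀ l : ℕ, ∃ k : ℕ, (2 : ℝ) ^ l ≤ fM ρ β h k)
    (hV : ∀ k : ℕ, k ≤ 4 * n → Va ρ β h k ≤ (n : ℝ) ^ c ∧ En ρ β h k ≤ (n : ℝ) ^ c)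
    (hk : ∃ k : ℕ, k ^ 8 ≤ n ∧ A * Real.log n ≤ fM ρ β h k)
    (hB : Bd ρ β h n (c * Real.log n) Cb) : False := by
  classical
  have hn1 : (1 : ℝ) ≤ n := by exact_mod_cast (by omega : 1 ≤ n)
  have hn0 : (0 : ℝ) < n := by linarith
  have hnc1 : (1 : ℝ) ≤ (n : ℝ) ^ c := Real.one_le_rpow hn1 hc0.le
  have hc16' : (n : ℝ) ^ c ≤ (n : ℝ) ^ (1 / 16 : ℝ) := Real.rpow_le_rpow_of_exponent_le hn1 hc16
  obtain ⟨m, hmono, hlo, hhi, hmin⟩ := lev28 (fM ρ β h) hfM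
  have hfM0 : fM ρ β h 0 = 0 := by
    unfold fM
    rw [hE0, hF0]
    simp
  have hfM1 : 0 ≤ fM ρ β h 1 := (hFn 1).trans (le_max_right _ _)
  -- the first level
  obtain ⟨l₀, hl₀, hl₀'⟩ := exists_nat_pow_near hAn (by norm_num : (1 : ℝ) < 2)
  have hl₀2 : A * Real.log n / 2 < 2 ^ l₀ := by
    rw [pow_succ] at hl₀'
    linarith
  have hm1 : ∀ l, 1 ≤ m l := by
    intro l
    by_contra h1
    have h2 : m l = 0 := by omega
    have h3 := hhi l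
    rw [h2, hfM0] at h3
    have : (0 : ℝ) < 2 ^ l := by positivity
    linarith
  have hm8 : m l₀ ^ 8 ≤ n := by
    obtain ⟨k, hk8, hkA⟩ := hk
    exact (Nat.pow_le_pow_left (hmin l₀ k (hl₀.trans hkA)) 8).trans hk8
  -- the last level
  obtain ⟨l₂, hl₂, hl₂'⟩ := exists_nat_pow_near hnc1 (by norm_num : (1 : ℝ) < 2)
  have hfMn : ∀ k, k ≤ 4 * n → fM ρ β h k ≤ (n : ℝ) ^ c := by
    intro k hk
    obtain ⟨h1, h2⟩ := hV k hk
    refine max_le h2 ?_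
    by_contra h3
    push Not at h3
    have h4 := hFV k
    have h5 := hFn k
    nlinarith
  have hl₂n : ∀ l, m l ≤ n → l ≤ l₂ := by
    intro l hl
    by_contra h1
    push Not at h1
    have h2 := hfMn (m l) (by omega)
    have h3 : (2 : ℝ) ^ (l₂ + 1) ≤ 2 ^ l := pow_le_pow_right₀ (by norm_num) h1
    linarith [hhi l]
  have hex : ∃ l, n ≤ m l ^ 4 := by
    refine ⟨l₂ + 1, ?_⟩
    have h1 : n < m (l₂ + 1) := by
      by_contra h2
      exact absurd (hl₂n (l₂ + 1) (not_lt.1 h2)) (by omega)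
    calc n ≤ m (l₂ + 1) := h1.le
      _ = m (l₂ + 1) ^ 1 := (pow_one _).symm
      _ ≤ m (l₂ + 1) ^ 4 := Nat.pow_le_pow_right (hm1 _) (by norm_num)
  obtain ⟨l₁, hl₁, hl₁lt⟩ : ∃ l₁, n ≤ m l₁ ^ 4 ∧ ∀ l, l < l₁ → m l ^ 4 < n :=
    ⟨Nat.find hex, Nat.find_spec hex, fun l hl => not_le.1 (Nat.find_min hex hl)⟩
  have hl₁2 : l₁ ≤ l₂ + 1 := by
    by_contra h1
    push Not at h1
    have h2 := hl₁lt (l₂ + 1) h1
    have h3 : m (l₂ + 1) ≤ n := by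
      calc m (l₂ + 1) = m (l₂ + 1) ^ 1 := (pow_one _).symm
        _ ≤ m (l₂ + 1) ^ 4 := Nat.pow_le_pow_right (hm1 _) (by norm_num)
        _ ≤ n := h2.le
    have := hl₂n _ h3
    omega
  have hl₀1 : l₀ ≤ l₁ := by
    by_contra h1
    push Not at h1
    have h2 : m l₁ ^ 4 ≤ m l₀ ^ 4 := Nat.pow_le_pow_left (hmono h1.le) 4
    have h3 : n ≤ m l₀ ^ 4 := hl₁.trans h2
    have h4 : n ^ 2 ≤ n := by
      calc n ^ 2 ≤ (m l₀ ^ 4) ^ 2 := Nat.pow_le_pow_left h3 2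
        _ = m l₀ ^ 8 := by rw [← pow_mul]
        _ ≤ n := hm8
    nlinarith
  -- times of the levels below `l₁`
  have hml : ∀ l, l < l₁ → m l ≤ n := by
    intro l hl
    calc m l = m l ^ 1 := (pow_one _).symm
      _ ≤ m l ^ 4 := Nat.pow_le_pow_right (hm1 _) (by norm_num)
      _ ≤ n := (hl₁lt l hl).le
  -- selection
  set N : Finset ℕ := (Finset.range (l₂ + 2)).filter
    (fun l => ∀ j : ℕ, m (l + j + 1) ≤ n → Λ ^ (j + 1) * m l < m (l + j + 1)) with hNdef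
  have hmono' : Monotone fun l => min (m l) n := fun x y hxy => min_le_min (hmono hxy) le_rfl
  obtain ⟨I, hI1, hI2, hI3⟩ := hS (fun l => min (m l) n) l₀ l₁ (l₂ + 1) (3 * a) Λ N hmono'
    (le_min (hm1 _) (by omega)) hl₀1 hl₁2 (by omega) hΛ2 (by
      intro l h1 h2 h3
      rw [hNdef, Finset.mem_filter, not_and] at h3
      have h4 := h3 (Finset.mem_range.2 (by omega))
      push Not at h4
      obtain ⟨j, hj1, hj2⟩ := h4
      refine ⟨j, (hl₂n _ hj1).trans (Nat.le_succ _), ?_⟩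
      show min (m (l + j + 1)) n ≤ Λ ^ (j + 1) * min (m l) n
      rw [min_eq_left hj1, min_eq_left (hml l h2)]
      exact hj2)
  have hIlt : ∀ p ∈ I, p < l₁ := fun p hp => (hI1 p hp).2.2
  have hIge : ∀ p ∈ I, l₀ ≤ p := fun p hp => (hI1 p hp).2.1
  have hInc : ∀ p ∈ I, ∀ j : ℕ, m (p + j + 1) ≤ n → Λ ^ (j + 1) * m p < m (p + j + 1) :=
    fun p hp => (Finset.mem_filter.1 (hI1 p hp).1).2
  have hl₀a : (2 : ℝ) ^ a * (fM ρ β h 1 + 1) < 2 ^ l₀ := by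
    refine lt_of_le_of_lt ?_ hl₀2
    rw [pow_succ] at hAn'
    linarith
  have hal₀ : a < l₀ := by
    have h1 : (2 : ℝ) ^ a < 2 ^ l₀ := by
      refine lt_of_le_of_lt ?_ hl₀a
      have : (0 : ℝ) < 2 ^ a := by positivity
      nlinarith
    exact (pow_lt_pow_iff_right₀ (by norm_num : (1 : ℝ) < 2)).1 h1
  have hpow : ∀ p ∈ I, (2 : ℝ) ^ l₀ ≤ 2 ^ p := fun p hp =>
    pow_le_pow_right₀ (by norm_num) (hIge p hp)
  have hSy : Sy ρ β h n a BA ΛA εA m I := by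
    refine ⟨hlo, hhi, fun p hp => ⟨by have := hIge p hp; omega, ?_⟩,
      fun p hp => (hl₁lt p (hIlt p hp)).le, fun p hp j hj => ?_, hI2, fun p hp k hk => ?_⟩
    · by_contra h1
      have h2 := hm1 (p - a)
      have h3 : m (p - a) = 1 := by omega
      have h4 := hhi (p - a)
      rw [h3] at h4
      have h5 : (2 : ℝ) ^ p = 2 ^ (p - a) * 2 ^ a := by
        rw [← pow_add]
        congr 1
        have := hIge p hp
        omega
      have h6 := hpow p hp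
      have h7 : (0 : ℝ) < 2 ^ a := by positivity
      nlinarith
    · exact lt_of_le_of_lt (Nat.mul_le_mul_right _ (Nat.pow_le_pow_left hΛA _)) (hInc p hp j hj)
    · rcases Nat.eq_zero_or_pos k with h1 | h1
      · rw [h1, hF0]
        have : 0 < εA := hε0.trans_le hε
        positivity
      · by_contra h2
        push Not at h2
        have h3 : ε * 2 ^ p ≤ Fn ρ β h k := by
          have : ε * 2 ^ p ≤ εA * 2 ^ p := mul_le_mul_of_nonneg_right hε (by positivity)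
          linarith
        obtain ⟨j, hj1, hj2⟩ := hCh m hlo p k h1 h3
        have hkB : k ≤ B * m p := hk.trans (Nat.mul_le_mul_right _ hBA)
        have hkn : k ≤ 4 * n := by
          have h4 : (m p : ℝ) ≤ (n : ℝ) ^ (1 / 4 : ℝ) := by
            have h5 : (m p : ℝ) ^ 4 ≤ n := by exact_mod_cast (hl₁lt p (hIlt p hp)).le
            calc (m p : ℝ) = ((m p : ℝ) ^ 4) ^ (1 / 4 : ℝ) := by
                  rw [← Real.rpow_natCast, ← Real.rpow_mul (Nat.cast_nonneg _)]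
                  norm_num
              _ ≤ (n : ℝ) ^ (1 / 4 : ℝ) := Real.rpow_le_rpow (by positivity) h5 (by norm_num)
          have h6 : (k : ℝ) ≤ n := by
            calc (k : ℝ) ≤ B * m p := by exact_mod_cast hkB
              _ ≤ B * (n : ℝ) ^ (1 / 4 : ℝ) := by gcongr
              _ ≤ n := hBn
          have h7 : k ≤ n := by exact_mod_cast h6
          omega
        have h4 := hN3 (m p) k j (Va ρ β h k) (hl₁lt p (hIlt p hp)).le hkB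
          ((sq_nonneg _).trans (hFV k)) (hV k hkn).1 hj1
        have h5 : m (p + j + 1) ≤ n := by exact_mod_cast hj2.trans h4
        have h6 := hN4 (m p) k j (m (p + j + 1)) (hm1 p) hkB hj2
        have h7 : m (p + j + 1) ≤ Λ ^ (j + 1) * m p := by exact_mod_cast h6
        exact absurd (hInc p hp j h5) (not_lt.2 h7)
  have hV16 : ∀ k : ℕ, k ≤ 4 * n → Va ρ β h k ≤ (n : ℝ) ^ (1 / 16 : ℝ) ∧
      En ρ β h k ≤ (n : ℝ) ^ (1 / 16 : ℝ) := fun k hk =>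
    ⟨(hV k hk).1.trans hc16', (hV k hk).2.trans hc16'⟩
  have hsub : ∀ J : Finset ℕ, J ⊆ I → Sy ρ β h n a BA ΛA εA m J := fun J hJ =>
    ⟨hSy.lo, hSy.hi, fun p hp => hSy.big p (hJ hp), fun p hp => hSy.sm p (hJ hp),
      fun p hp => hSy.nc p (hJ hp), fun p hp q hq => hSy.sp p (hJ hp) q (hJ hq),
      fun p hp => hSy.fs p (hJ hp)⟩
  have hprob : ∀ J : Finset ℕ, J ⊆ I →
      (law d ρ).real (⋂ p ∈ J, Lk ρ β h n (m p - 2 * m (p - a)) 0 (2 ^ p) (1 / 20) 0) ≤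
        Real.exp (CA * J.card - ∑ p ∈ J, cA * Dl n m p) := fun J hJ => by
    rw [← Finset.mul_sum]
    exact hA n m J (hsub J hJ) hV16
  have hDl : ∀ p ∈ I, 0 ≤ Dl n m p := by
    intro p hp
    refine Real.log_nonneg ?_
    have h1 : (0 : ℝ) < m p := by exact_mod_cast hm1 p
    rw [le_div_iff₀ h1, one_mul]
    exact_mod_cast le_min (hmono (Nat.le_succ p)) (hml p (hIlt p hp))
  -- the budget
  set I' : Finset ℕ := I.filter (fun p => 1 ≤ m p - 2 * m (p - a)) with hI'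
  have hI'I : I' ⊆ I := Finset.filter_subset _ _
  have hbud := hB I' (fun p => Lk ρ β h n (m p - 2 * m (p - a)) 0 (2 ^ p) (1 / 20) 0)
    (fun p => cA * Dl n m p) CA
    (fun p hp => ⟨Lk_meas28 _ _ _ _ _ _, Lk_dep28 _ _ _ _ _ _,
      mul_nonneg hcA.le (hDl p (hI'I hp))⟩) (by linarith)
    (fun J hJ => hprob J (hJ.trans hI'I))
  have huse : ∀ p ∈ I', 2 / 5 ≤ (∑ t ∈ Finset.range n,
      us ρ β h n t (Lk ρ β h n (m p - 2 * m (p - a)) 0 (2 ^ p) (1 / 20) 0)) / n := by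
    intro p hp
    obtain ⟨hpI, hpH⟩ := Finset.mem_filter.1 hp
    have h4 : (m p - 2 * m (p - a)) ^ 4 ≤ n :=
      (Nat.pow_le_pow_left (Nat.sub_le _ _) 4).trans (hl₁lt p (hIlt p hpI)).le
    have h5 : m p - 2 * m (p - a) ≤ n := (Nat.sub_le _ _).trans (hml p (hIlt p hpI))
    have h6 := hU n (m p - 2 * m (p - a)) (2 ^ p) (1 / 20) ((n : ℝ) ^ c) hpH h5 (by positivity)
      (by norm_num) (by norm_num) (fun k hk => (hV k (by omega)).1)
    refine hN1 (m p - 2 * m (p - a)) (2 ^ p) (En ρ β h n) _ ((n : ℝ) ^ c) hpH h4 ?_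
      (hV16 n (by omega)).2 hc16' ?_
    · have h7 := hpow p hpI
      rw [hAd] at hl₀2
      linarith
    · have h7 : (1 - 1 / 20 : ℝ) = 19 / 20 := by norm_num
      rw [h7] at h6
      exact h6
  have hcard : (I.card : ℝ) ≤ l₂ + 1 := by
    have h1 : I ⊆ Finset.range l₁ := fun p hp => Finset.mem_range.2 (hIlt p hp)
    have h2 := Finset.card_le_card h1
    rw [Finset.card_range] at h2
    exact_mod_cast h2.trans hl₁2
  have hcard' : (I'.card : ℝ) ≤ I.card := by exact_mod_cast Finset.card_le_card hI'I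
  have hlow : (∑ p ∈ I', cA * Dl n m p) / 10 ≤ c * Real.log n + Cb * (CA + 1) * I'.card := by
    refine le_trans ?_ hbud
    rw [Finset.sum_div]
    refine Finset.sum_le_sum fun p hp => ?_
    have h1 := huse p hp
    have h2 : 0 ≤ cA * Dl n m p := mul_nonneg hcA.le (hDl p (hI'I hp))
    nlinarith
  have hrest : ∀ p ∈ I, p ∉ I' → cA * Dl n m p ≤ CA := by
    intro p hp hp'
    have h0 : m p - 2 * m (p - a) = 0 := by
      by_contra h1
      exact hp' (Finset.mem_filter.2 ⟨hp, by omega⟩)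
    have h1 := hprob {p} (Finset.singleton_subset_iff.2 hp)
    rw [Finset.set_biInter_singleton, h0, Lk_zero28 n (by positivity) (by norm_num)] at h1
    simp only [Finset.card_singleton, Nat.cast_one, mul_one, Finset.sum_singleton] at h1
    by_contra h2
    push Not at h2
    have h3 : Real.exp (CA - cA * Dl n m p) < 1 := Real.exp_lt_one_iff.2 (by linarith)
    rw [probReal_univ] at h1
    linarith
  have hall : cA * (∑ p ∈ I, Dl n m p) / 10 ≤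
      c * Real.log n + (Cb + 1) * (CA + 1) * I.card := by
    have h1 : ∑ p ∈ I, cA * Dl n m p ≤ (∑ p ∈ I', cA * Dl n m p) + I.card * CA := by
      rw [← Finset.sum_filter_add_sum_filter_not I (fun p => 1 ≤ m p - 2 * m (p - a))]
      have h2 : ∑ p ∈ I.filter (fun p => ¬ 1 ≤ m p - 2 * m (p - a)), cA * Dl n m p ≤
          ∑ p ∈ I.filter (fun p => ¬ 1 ≤ m p - 2 * m (p - a)), CA := by
        refine Finset.sum_le_sum fun p hp => ?_
        obtain ⟨h3, h4⟩ := Finset.mem_filter.1 hp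
        exact hrest p h3 fun h5 => h4 (Finset.mem_filter.1 h5).2
      rw [Finset.sum_const, nsmul_eq_mul] at h2
      have h3 : ((I.filter (fun p => ¬ 1 ≤ m p - 2 * m (p - a))).card : ℝ) ≤ I.card := by
        exact_mod_cast Finset.card_filter_le _ _
      have h4 : ((I.filter (fun p => ¬ 1 ≤ m p - 2 * m (p - a))).card : ℝ) * CA ≤ I.card * CA :=
        mul_le_mul_of_nonneg_right h3 (by linarith)
      linarith
    rw [← Finset.mul_sum] at h1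
    have h5 : Cb * (CA + 1) * I'.card ≤ Cb * (CA + 1) * I.card :=
      mul_le_mul_of_nonneg_left hcard' (by positivity)
    have h6 : (0 : ℝ) ≤ I.card := Nat.cast_nonneg _
    nlinarith
  refine hN2 l₂ (∑ p ∈ I, Dl n m p) I.card hl₂ hcard ?_ hall
  have hsum : ∑ p ∈ I, Real.log ((min (m (p + 1)) n : ℕ) / ((min (m p) n : ℕ) : ℝ)) =
      ∑ p ∈ I, Dl n m p := by
    refine Finset.sum_congr rfl fun p hp => ?_
    rw [min_eq_left (hml p (hIlt p hp))]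
    rfl
  have h1 : Real.log ((min (m l₁) n : ℕ) / ((min (m l₀) n : ℕ) : ℝ)) ≤
      ((3 * a : ℕ) : ℝ) * (∑ p ∈ I, Dl n m p) + (((l₂ + 1 : ℕ) : ℝ) + 1) * Real.log Λ := by
    rw [← hsum]
    exact hI3
  have hp0 : 0 < min (m l₀) n := lt_min (by have := hm1 l₀; omega) (by omega)
  have hp1 : 0 < min (m l₁) n := lt_min (by have := hm1 l₁; omega) (by omega)
  rw [Real.log_div (by positivity) (by positivity)] at h1
  have h2 : Real.log n ≤ 4 * Real.log (min (m l₁) n : ℕ) := by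
    have h3 : n ≤ (min (m l₁) n) ^ 4 := by
      rcases le_total (m l₁) n with h4 | h4
      · rw [min_eq_left h4]
        exact hl₁
      · rw [min_eq_right h4]
        calc n = n ^ 1 := (pow_one n).symm
          _ ≤ n ^ 4 := Nat.pow_le_pow_right (by omega) (by norm_num)
    have h4 : Real.log n ≤ Real.log (((min (m l₁) n : ℕ) : ℝ) ^ 4) :=
      Real.log_le_log hn0 (by exact_mod_cast h3)
    rw [Real.log_pow] at h4
    exact_mod_cast h4
  have h3 : 8 * Real.log (min (m l₀) n : ℕ) ≤ Real.log n := by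
    have h4 : (min (m l₀) n) ^ 8 ≤ n := (Nat.pow_le_pow_left (min_le_left _ _) 8).trans hm8
    have h5 : Real.log (((min (m l₀) n : ℕ) : ℝ) ^ 8) ≤ Real.log n :=
      Real.log_le_log (by positivity) (by exact_mod_cast h4)
    rw [Real.log_pow] at h5
    exact_mod_cast h5
  push_cast at h1 h2 h3 ⊢
  linarith

end Co28

open Co28 in
/-- COR: the core at one tilt from USE, ADD, CHP and SEL. -/
theorem cor28 {d : ℕ} {ρ : Measure ℝ} [IsProbabilityMeasure ρ] {β : ℝ} (hd : 0 < d) (hρ : EM ρ)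
    (hU : UseP d ρ β) (hA : AddP d ρ β) (hCh : ChpP d ρ β) (hS : SelP) (hLoc : LocE d ρ β) :
    CorP d ρ β := by
  intro g Cb hg hCb
  obtain ⟨c₀, hc₀, hc₀h⟩ := hLoc g hg
  obtain ⟨C₁, hC₁, hUh⟩ := hU
  obtain ⟨a, BA, ΛA, εA, cA, CA, ha, hεA, hcA, hCA, hAh⟩ := hA c₀ (1 / 20) hc₀ (by norm_num)
    (by norm_num)
  obtain ⟨CC, hCC, hChh⟩ := chp28 hCh hc₀ hεA
  set B : ℕ := max BA 1 with hBdef
  obtain ⟨Λ₁, hΛ₁2, hΛ₁⟩ := numLam28 B CC (le_max_right _ _) hCC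
  set Λ : ℕ := max ΛA Λ₁ with hΛdef
  have hΛ2 : 2 ≤ Λ := hΛ₁2.trans (le_max_right _ _)
  obtain ⟨c, hc0, hc1, hfin⟩ := numFin28 a cA CA (Cb + 1) (Real.log Λ) (min (1 / 16) (1 / (32 * CC)))
    (by exact_mod_cast ha) hcA (by linarith) (by linarith) (Real.log_natCast_nonneg Λ)
    (by positivity)
  refine ⟨c, 100 * (C₁ + 1), hc0, fun h hgap => ?_⟩
  have hL : Loc1 ρ β h c₀ := hc₀h h hgap
  obtain ⟨Cu, hCu, hUu⟩ := hUh h
  have hlogT : Tendsto (fun n : ℕ => 100 * (C₁ + 1) * Real.log n) atTop atTop :=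
    (Real.tendsto_log_atTop.comp tendsto_natCast_atTop_atTop).const_mul_atTop (by positivity)
  by_cases hfM : ∀ l : ℕ, ∃ k : ℕ, (2 : ℝ) ^ l ≤ fM ρ β h k
  · have h1 := numUse28 C₁ Cu hC₁ hCu
    have h2 := numChp28 B CC c hCC hc0 (hc1.trans (min_le_right _ _))
    have h3 : ∀ᶠ n : ℕ in atTop, (B : ℝ) * (n : ℝ) ^ (1 / 4 : ℝ) ≤ n := by
      have h4 : ∀ᶠ n : ℕ in atTop, (B : ℝ) ≤ (n : ℝ) ^ (3 / 4 : ℝ) :=
        ((tendsto_rpow_atTop (by norm_num : (0 : ℝ) < 3 / 4)).comp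
          tendsto_natCast_atTop_atTop).eventually_ge_atTop _
      filter_upwards [h4, eventually_ge_atTop 1] with n h5 hn
      have hn0 : (0 : ℝ) < n := by exact_mod_cast hn
      calc (B : ℝ) * (n : ℝ) ^ (1 / 4 : ℝ) ≤ (n : ℝ) ^ (3 / 4 : ℝ) * (n : ℝ) ^ (1 / 4 : ℝ) := by
            gcongr
        _ = n := by
            rw [← Real.rpow_add hn0]
            norm_num
    have hev : ∀ᶠ n : ℕ in atTop, (∀ k : ℕ, k ≤ 4 * n → Va ρ β h k ≤ (n : ℝ) ^ c ∧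
        En ρ β h k ≤ (n : ℝ) ^ c) → (∃ k : ℕ, k ^ 8 ≤ n ∧
          100 * (C₁ + 1) * Real.log n ≤ fM ρ β h k) → ¬ Bd ρ β h n (c * Real.log n) Cb := by
      filter_upwards [h1, h2, h3, hfin, hlogT.eventually_ge_atTop 1,
        hlogT.eventually_ge_atTop (2 ^ (a + 1) * (fM ρ β h 1 + 1)), eventually_ge_atTop 2]
        with n e1 e2 e3 e4 e5 e6 e7 hV hk hB
      refine one28 (A := 100 * (C₁ + 1)) (C₁ := C₁) (Cu := Cu) (CA := CA) (cA := cA)
        (ε := εA) (εA := εA) (CC := CC) (a := a) (B := B) (BA := BA) (Λ := Λ) (ΛA := ΛA) ha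
        (le_max_left _ _) (le_max_left _ _) le_rfl hcA hCA hCb hΛ2 e7 hc0
        (hc1.trans (min_le_left _ _)) (fun n m I => hAh h hL n m I) hUu (hChh h hL) hS e1 e4 e2
        ?_ hεA (Fn_zero15 β h) (En_zero15 β h) (fun k => Fn_nonneg15 β h k)
        (fun k => Fn_sq15 hd hρ β h k) e3 rfl e5 e6 hfM hV hk hB
      intro m k j x hm hk hx
      refine (hΛ₁ m k j x hm hk hx).trans ?_
      have : (Λ₁ : ℝ) ≤ Λ := by exact_mod_cast le_max_right _ _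
      gcongr
    exact eventually_atTop.1 hev
  · push Not at hfM
    obtain ⟨l, hl⟩ := hfM
    have hev : ∀ᶠ n : ℕ in atTop, (∀ k : ℕ, k ≤ 4 * n → Va ρ β h k ≤ (n : ℝ) ^ c ∧
        En ρ β h k ≤ (n : ℝ) ^ c) → (∃ k : ℕ, k ^ 8 ≤ n ∧
          100 * (C₁ + 1) * Real.log n ≤ fM ρ β h k) → ¬ Bd ρ β h n (c * Real.log n) Cb := by
      filter_upwards [hlogT.eventually_ge_atTop (2 ^ l)] with n e1 _ hk _
      obtain ⟨k, _, hk2⟩ := hk
      linarith [hl k]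
    exact eventually_atTop.1 hev

end Pool.Agent.W_7d29a1_PL
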