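import Pool.Agent.W_7d29a1_PL.DefsPL
import Pool.Agent.W_7d29a1_SP.Bas15
import Pool.Agent.W_7d29a1_Q29.Qt98

/-!
COR: the core at one tilt, from the leaves USE, ADD, CHP and SEL (helper38).
-/

set_option autoImplicit false

namespace Pool.Agent.W_7d29a1_PL.K38

open MeasureTheory ProbabilityTheory Filter Topology Pool.Agent.W_MP_7d29a1_pr
  Pool.Agent.W_7d29a1_h46 Pool.Agent.W_7d29a1_h46u Pool.Agent.W_7d29a1_D2.B35
  Pool.Agent.W_7d29a1_Q29 Pool.Agent.W_7d29a1_R34 Pool.Agent.W_7d29a1_SP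

variable {d : ℕ} {ρ : Measure ℝ}

lemma X_dep38 (β : ℝ) (h : Vec d) (k : ℕ) :
    DependsOn (fun η : Env d => X β h η k) {q : ℕ × Site d | 1 ≤ q.1} := by
  intro η η' hη
  have h1 : Z β h η k = Z β h η' k := dependsOn_Z β h k fun p hp => hη p hp.1
  show X β h η k = X β h η' k
  unfold X
  rw [h1]

lemma Lg0_meas38 (β : ℝ) (h : Vec d) (H S : ℕ) (x κ z : ℝ) :
    MeasurableSet (Lg0 ρ β h H S x κ z) := by
  have : Lg0 ρ β h H S x κ z = ⋃ s ∈ Finset.range (S + 1),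
      {η | ((H + s : ℕ) : ℝ) * lam ρ β h - (1 - κ) * x - z ≤ X β h η (H + s)} := by
    ext η
    simp only [Lg0, Set.mem_ofPred_eq, Set.mem_iUnion, Finset.mem_range, Nat.lt_succ_iff,
      exists_prop]
  rw [this]
  exact Finset.measurableSet_biUnion _ fun s _ =>
    measurableSet_le measurable_const (measurable_X β h _)

lemma LgN_meas38 (β : ℝ) (h : Vec d) (H S : ℕ) (x κ z : ℝ) (N : ℕ) :
    MeasurableSet (LgN ρ β h H S x κ z N) := by
  have : LgN ρ β h H S x κ z N = ⋃ s ∈ Finset.range (S + 1),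
      {η | ((N * H + s : ℕ) : ℝ) * lam ρ β h + κ * N * x - z ≤ X β h η (N * H + s)} := by
    ext η
    simp only [LgN, Set.mem_ofPred_eq, Set.mem_iUnion, Finset.mem_range, Nat.lt_succ_iff,
      exists_prop]
  rw [this]
  exact Finset.measurableSet_biUnion _ fun s _ =>
    measurableSet_le measurable_const (measurable_X β h _)

lemma Lk_meas38 (β : ℝ) (h : Vec d) (n H S : ℕ) (x κ z : ℝ) :
    MeasurableSet (Lk ρ β h n H S x κ z) := by
  refine (Lg0_meas38 β h H S x κ z).union ?_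
  have : {η : Env d | ∃ N : ℕ, 2 ≤ N ∧ N * H ≤ n ∧ η ∈ LgN ρ β h H S x κ z N} =
      ⋃ N : ℕ, {η | (2 ≤ N ∧ N * H ≤ n) ∧ η ∈ LgN ρ β h H S x κ z N} := by
    ext η
    simp only [Set.mem_ofPred_eq, Set.mem_iUnion, and_assoc]
  rw [this]
  refine MeasurableSet.iUnion fun N => ?_
  by_cases hN : 2 ≤ N ∧ N * H ≤ n
  · simp only [hN, true_and]
    exact LgN_meas38 β h H S x κ z N
  · simp only [hN, false_and]
    exact MeasurableSet.empty

lemma Lk_dep38 (β : ℝ) (h : Vec d) (n H S : ℕ) (x κ z : ℝ) :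
    DependsOn (fun η => η ∈ Lk ρ β h n H S x κ z) {q : ℕ × Site d | 1 ≤ q.1} := by
  intro η η' hη
  have hX : ∀ k, X β h η k = X β h η' k := fun k => X_dep38 β h k hη
  simp only [Lk, Lg0, LgN, Set.mem_union, Set.mem_ofPred_eq, hX]

lemma fM_zero38 [IsProbabilityMeasure ρ] (β : ℝ) (h : Vec d) : fM ρ β h 0 = 0 := by
  unfold fM
  rw [En_zero15, Fn_zero15]
  simp

/-- The fluctuations are at most a power. -/
lemma fM_le38 [IsProbabilityMeasure ρ] (hd : 0 < d) (hρ : EM ρ) (β : ℝ) (h : Vec d) (k : ℕ)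
    {b : ℝ} (hb : 1 ≤ b) (h1 : Va ρ β h k ≤ b) (h2 : En ρ β h k ≤ b) : fM ρ β h k ≤ b := by
  refine max_le h2 ?_
  have h3 := Fn_sq15 (ρ := ρ) hd hρ β h k
  have h4 := Fn_nonneg15 (ρ := ρ) β h k
  nlinarith

/-- A finite maximum. -/
lemma max38 (f : ℕ → ℝ) (T : ℕ) {b : ℝ} (h : ∀ i, i ≤ T → f i < b) :
    ∃ Φ : ℝ, Φ < b ∧ ∀ i, i ≤ T → f i ≤ Φ := by
  obtain ⟨i, hi, him⟩ := Finset.exists_max_image (Finset.range (T + 1)) f ⟨0, by simp⟩
  refine ⟨f i, h i (by simpa [Nat.lt_succ_iff] using hi), fun j hj => him j ?_⟩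
  simpa [Nat.lt_succ_iff] using hj

/-- Numbers of the usage. -/
lemma use_num38 {n H : ℕ} {x S E C C₁ y : ℝ} (hy : y ^ 16 = n) (hy1 : 100 * (1 + 4 * C) ≤ y)
    (hC : 0 ≤ C) (hx : 1 ≤ x) (hH : (H : ℝ) ≤ y ^ 4) (hE : E ≤ y)
    (hl : C₁ * Real.log (2 * H + 1) ≤ x / 50)
    (h : (1 - 1 / 20) * x * (n - H) ≤ 2 * x * S +
      H * (E + C * (H + 1) + C * Real.sqrt ((n + 1) * y)) + C₁ * n * Real.log (2 * H + 1)) :
    45 / 100 * (n : ℝ) ≤ S := by
  have y100 : 100 ≤ y := by nlinarith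
  have y1 : (1 : ℝ) ≤ y := by linarith
  have y0 : (0 : ℝ) ≤ y := by linarith
  have hn : (0 : ℝ) ≤ n := Nat.cast_nonneg _
  have hH0 : (0 : ℝ) ≤ H := Nat.cast_nonneg _
  have p4 : 1 ≤ y ^ 4 := one_le_pow₀ y1
  have hsq : Real.sqrt ((n + 1) * y) ≤ 2 * y ^ 9 := by
    rw [Real.sqrt_le_left (by positivity)]
    have h1 : (1 : ℝ) ≤ y ^ 16 := one_le_pow₀ y1
    have h2 : y ^ 17 ≤ y ^ 18 := pow_le_pow_right₀ y1 (by norm_num)
    rw [← hy]
    nlinarith [pow_nonneg y0 17, pow_nonneg y0 18]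
  have q9 : y ^ 4 ≤ y ^ 9 := pow_le_pow_right₀ y1 (by norm_num)
  have q9' : y ≤ y ^ 9 := by
    calc y = y ^ 1 := (pow_one y).symm
      _ ≤ y ^ 9 := pow_le_pow_right₀ y1 (by norm_num)
  have hb : E + C * (H + 1) + C * Real.sqrt ((n + 1) * y) ≤ (1 + 4 * C) * y ^ 9 := by
    have h1 : C * (H + 1) ≤ C * (2 * y ^ 9) := mul_le_mul_of_nonneg_left (by linarith) hC
    have h2 : C * Real.sqrt ((n + 1) * y) ≤ C * (2 * y ^ 9) := mul_le_mul_of_nonneg_left hsq hC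
    linarith
  have hb2 : H * (E + C * (H + 1) + C * Real.sqrt ((n + 1) * y)) ≤ x * n / 100 := by
    have h1 : H * (E + C * (H + 1) + C * Real.sqrt ((n + 1) * y)) ≤
        H * ((1 + 4 * C) * y ^ 9) := mul_le_mul_of_nonneg_left hb hH0
    have h2 : H * ((1 + 4 * C) * y ^ 9) ≤ y ^ 4 * ((1 + 4 * C) * y ^ 9) :=
      mul_le_mul_of_nonneg_right hH (by positivity)
    have h3 : y ^ 4 * ((1 + 4 * C) * y ^ 9) = (1 + 4 * C) * y ^ 13 := by ring
    have h4 : (1 + 4 * C) * y ^ 13 ≤ y / 100 * y ^ 13 :=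
      mul_le_mul_of_nonneg_right (by linarith) (by positivity)
    have h5 : y / 100 * y ^ 13 = y ^ 14 / 100 := by ring
    have h6 : y ^ 14 ≤ y ^ 16 := pow_le_pow_right₀ y1 (by norm_num)
    have h7 : y ^ 16 ≤ x * n := by
      rw [hy]
      nlinarith
    linarith
  have hHn : (H : ℝ) ≤ n / 100 := by
    have h1 : y ^ 4 * y ≤ y ^ 16 := by
      calc y ^ 4 * y = y ^ 5 := by ring
        _ ≤ y ^ 16 := pow_le_pow_right₀ y1 (by norm_num)
    have h2 : y ^ 4 * 100 ≤ y ^ 4 * y := mul_le_mul_of_nonneg_left y100 (by positivity)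
    rw [hy] at h1
    linarith
  have h3 : C₁ * n * Real.log (2 * H + 1) ≤ x * n / 50 := by
    have := mul_le_mul_of_nonneg_right hl hn
    linarith [this, mul_comm C₁ (n : ℝ)]
  have h4 : x * H ≤ x * (n / 100) := mul_le_mul_of_nonneg_left hHn (by linarith)
  have h5 : x * (45 / 100 * n) ≤ x * S := by nlinarith
  exact le_of_mul_le_mul_left h5 (by linarith)

/-- A power of `2` and an exponential. -/
lemma exp38 {j : ℕ} {C V : ℝ} (hC : 0 ≤ C) (hV : (2 : ℝ) ^ j ≤ V) :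
    Real.exp (C * j) ≤ V ^ (2 * C) := by
  have hV0 : 0 < V := lt_of_lt_of_le (by positivity) hV
  have h1 : j * Real.log 2 ≤ Real.log V := by
    rw [← Real.log_pow]
    exact Real.log_le_log (by positivity) hV
  have h2 : (1 : ℝ) / 2 ≤ Real.log 2 := by
    have := Real.log_two_gt_d9
    linarith
  have h3 : (j : ℝ) ≤ 2 * Real.log V := by
    have : (0 : ℝ) ≤ j := Nat.cast_nonneg _
    nlinarith
  rw [Real.rpow_def_of_pos hV0]
  refine Real.exp_le_exp.2 ?_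
  have := mul_le_mul_of_nonneg_left h3 hC
  linarith

/-- Numbers of the cheap levels: the end of the window. -/
lemma time38 {j k : ℕ} {y c Cc Va : ℝ} {n B M : ℕ} (hy : y ^ 16 = n) (hy1 : 1 ≤ y)
    (hCc : 1 ≤ Cc) (hc : 16 * (c * Cc) ≤ 1) (hc0 : 0 ≤ c)
    (hVa : Va ≤ (n : ℝ) ^ c) (hVa0 : 0 ≤ Va)
    (hj : (2 : ℝ) ^ j ≤ Cc * (1 + Va) ^ 2) (hM : (M : ℝ) ≤ y ^ 4) (hk : k ≤ B * M)
    (hy2 : 2 * Cc * (B + 1) * (4 * Cc) ^ (2 * Cc) ≤ y) :
    2 * (Cc * k * Real.exp (Cc * j)) ≤ n := by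
  have y0 : 0 ≤ y := by linarith
  have n1 : (1 : ℝ) ≤ n := by
    rw [← hy]
    exact one_le_pow₀ hy1
  have n0 : (0 : ℝ) ≤ n := by linarith
  have hnc : (1 : ℝ) ≤ (n : ℝ) ^ c := Real.one_le_rpow n1 hc0
  have h1 : (2 : ℝ) ^ j ≤ 4 * Cc * (n : ℝ) ^ (2 * c) := by
    have h2 : (n : ℝ) ^ (2 * c) = ((n : ℝ) ^ c) ^ 2 := by
      rw [← Real.rpow_natCast, ← Real.rpow_mul n0]
      congr 1
      push_cast
      ring
    rw [h2]
    refine hj.trans ?_
    have h3 : (1 + Va) ^ 2 ≤ (2 * (n : ℝ) ^ c) ^ 2 := pow_le_pow_left₀ (by linarith) (by linarith) 2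
    have h4 := mul_le_mul_of_nonneg_left h3 (by linarith : 0 ≤ Cc)
    calc Cc * (1 + Va) ^ 2 ≤ Cc * (2 * (n : ℝ) ^ c) ^ 2 := h4
      _ = 4 * Cc * ((n : ℝ) ^ c) ^ 2 := by ring
  have h2 := exp38 (C := Cc) (by linarith) h1
  have h3 : (4 * Cc * (n : ℝ) ^ (2 * c)) ^ (2 * Cc) ≤ (4 * Cc) ^ (2 * Cc) * y ^ 4 := by
    rw [Real.mul_rpow (by positivity) (by positivity), ← Real.rpow_mul n0]
    refine mul_le_mul_of_nonneg_left ?_ (by positivity)
    have h4 : y ^ 4 = (n : ℝ) ^ (1 / 4 : ℝ) := by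
      rw [← hy, ← Real.rpow_natCast y 16, ← Real.rpow_mul y0, ← Real.rpow_natCast y 4]
      norm_num
    rw [h4]
    refine Real.rpow_le_rpow_of_exponent_le n1 ?_
    nlinarith
  have h4 : Real.exp (Cc * j) ≤ (4 * Cc) ^ (2 * Cc) * y ^ 4 := h2.trans h3
  have hk' : (k : ℝ) ≤ (B + 1) * y ^ 4 := by
    have h5 : (k : ℝ) ≤ B * M := by exact_mod_cast hk
    have h6 : (B : ℝ) * M ≤ B * y ^ 4 := mul_le_mul_of_nonneg_left hM (Nat.cast_nonneg _)
    have h7 : (0 : ℝ) ≤ y ^ 4 := by positivity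
    linarith
  have h5 : 2 * (Cc * k * Real.exp (Cc * j)) ≤
      2 * (Cc * ((B + 1) * y ^ 4) * ((4 * Cc) ^ (2 * Cc) * y ^ 4)) := by
    refine mul_le_mul_of_nonneg_left ?_ (by norm_num)
    refine mul_le_mul (mul_le_mul_of_nonneg_left hk' (by linarith)) h4 (Real.exp_pos _).le ?_
    positivity
  have h6 : 2 * (Cc * ((B + 1) * y ^ 4) * ((4 * Cc) ^ (2 * Cc) * y ^ 4)) =
      (2 * Cc * (B + 1) * (4 * Cc) ^ (2 * Cc)) * y ^ 8 := by ring
  have h7 : (2 * Cc * (B + 1) * (4 * Cc) ^ (2 * Cc)) * y ^ 8 ≤ y * y ^ 8 :=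
    mul_le_mul_of_nonneg_right hy2 (by positivity)
  have h8 : y * y ^ 8 ≤ y ^ 16 := by
    calc y * y ^ 8 = y ^ 9 := by ring
      _ ≤ y ^ 16 := pow_le_pow_right₀ hy1 (by norm_num)
  rw [← hy]
  linarith

/-- A window of a cheap level is a power. -/
lemma pow38 {j k B : ℕ} {Cc : ℝ} {Λ M : ℕ} (hCc : 1 ≤ Cc) (hk : k ≤ B * M)
    (hΛ : 2 * Cc * (B + 1) * Real.exp Cc ≤ Λ) :
    2 * (Cc * k * Real.exp (Cc * j)) ≤ (Λ : ℝ) ^ (j + 1) * M := by
  have hB : (0 : ℝ) ≤ B := Nat.cast_nonneg _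
  have hM : (0 : ℝ) ≤ M := Nat.cast_nonneg _
  have h1 : (1 : ℝ) ≤ 2 * Cc * (B + 1) := by nlinarith
  have h2 : (2 * Cc * (B + 1) * Real.exp Cc) ^ (j + 1) ≤ (Λ : ℝ) ^ (j + 1) :=
    pow_le_pow_left₀ (by positivity) hΛ _
  have h3 : 2 * Cc * (B + 1) * Real.exp (Cc * j) ≤
      (2 * Cc * (B + 1) * Real.exp Cc) ^ (j + 1) := by
    rw [mul_pow]
    have h4 : 2 * Cc * (B + 1) ≤ (2 * Cc * (B + 1)) ^ (j + 1) := by
      calc 2 * Cc * (B + 1) = (2 * Cc * (B + 1)) ^ 1 := (pow_one _).symm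
        _ ≤ (2 * Cc * (B + 1)) ^ (j + 1) := pow_le_pow_right₀ h1 (by omega)
    have h5 : Real.exp (Cc * j) ≤ Real.exp Cc ^ (j + 1) := by
      rw [← Real.exp_nat_mul]
      refine Real.exp_le_exp.2 ?_
      push_cast
      nlinarith
    exact mul_le_mul h4 h5 (Real.exp_pos _).le (by positivity)
  have hk' : (k : ℝ) ≤ (B + 1) * M := by
    have h5 : (k : ℝ) ≤ B * M := by exact_mod_cast hk
    linarith
  have h6 : 2 * (Cc * k * Real.exp (Cc * j)) ≤ 2 * Cc * (B + 1) * Real.exp (Cc * j) * M := by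
    have h7 : Cc * k ≤ Cc * ((B + 1) * M) := mul_le_mul_of_nonneg_left hk' (by linarith)
    have h8 := mul_le_mul_of_nonneg_right h7 (Real.exp_pos (Cc * j)).le
    nlinarith
  have h9 := mul_le_mul_of_nonneg_right (h3.trans h2) hM
  linarith

/-- The final numbers. -/
lemma fin38 {cA CA C₀ c a y Ln lam' D D' N l₂ LM w : ℝ} (hw : w = cA / (20 * a)) (ha : 0 < a)
    (hcA : 0 < cA) (hCA : 1 ≤ CA) (hC₀ : 0 ≤ C₀) (hLn : Ln = 16 * Real.log y)
    (hLn0 : 0 ≤ Ln) (hlam : 0 ≤ lam')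
    (h1 : LM ≤ 3 * a * D' + (l₂ + 1) * lam') (hD : D' ≤ D) (h2 : 2 * Real.log y - 1 ≤ LM)
    (h3 : l₂ ≤ 1 + 2 * c * Ln) (hN : N ≤ l₂)
    (h4 : 15 / 100 * (cA * D) ≤ c * Ln + C₀ * (CA + 1) * N) (h5 : 32 * (c * lam') ≤ 1)
    (h6 : 32 * (c * (1 + 2 * (C₀ * (CA + 1)))) ≤ w)
    (h7 : 32 * (w * (1 + 2 * lam') + C₀ * (CA + 1)) < w * Ln) : False := by
  have hw0 : 0 < w := by rw [hw]; positivity
  have hA : w * (3 * a * D') ≤ 15 / 100 * (cA * D) := by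
    have e1 : w * (3 * a * D') = 15 / 100 * (cA * D') := by
      rw [hw]
      field_simp
      ring
    rw [e1]
    have := mul_le_mul_of_nonneg_left hD hcA.le
    linarith
  have hB : w * (Ln / 8 - 1 - (2 + 2 * c * Ln) * lam') ≤ w * (3 * a * D') := by
    refine mul_le_mul_of_nonneg_left ?_ hw0.le
    have h8 : (l₂ + 1) * lam' ≤ (2 + 2 * c * Ln) * lam' :=
      mul_le_mul_of_nonneg_right (by linarith) hlam
    have h9 : Ln / 8 = 2 * Real.log y := by rw [hLn]; ring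
    linarith
  have hK : 0 ≤ C₀ * (CA + 1) := mul_nonneg hC₀ (by linarith)
  have hN' : C₀ * (CA + 1) * N ≤ C₀ * (CA + 1) * (1 + 2 * c * Ln) :=
    mul_le_mul_of_nonneg_left (hN.trans h3) hK
  have h10 : w * (2 * c * Ln * lam') ≤ w * (Ln / 16) := by
    refine mul_le_mul_of_nonneg_left ?_ hw0.le
    have := mul_le_mul_of_nonneg_right h5 hLn0
    nlinarith
  have h11 : c * Ln + C₀ * (CA + 1) * (2 * c * Ln) ≤ w / 32 * Ln := by
    have := mul_le_mul_of_nonneg_right h6 hLn0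
    nlinarith
  nlinarith

/-- The bounded case and the unbounded case: the levels of an unbounded function. -/
lemma lev38 (f : ℕ → ℝ) (hf : ∀ b : ℝ, ∃ k, b ≤ f k) : ∃ m : ℕ → ℕ,
    (∀ l k : ℕ, k < m l → f k < 2 ^ l) ∧ (∀ l : ℕ, 2 ^ l ≤ f (m l)) ∧ Monotone m ∧
      ∀ l k : ℕ, 2 ^ l ≤ f k → m l ≤ k := by
  classical
  have h : ∀ l : ℕ, ∃ k, (2 : ℝ) ^ l ≤ f k := fun l => hf _
  refine ⟨fun l => Nat.find (h l), fun l k hk => not_le.1 (Nat.find_min (h l) hk),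
    fun l => Nat.find_spec (h l), fun l l' hl => ?_, fun l k hk => Nat.find_le hk⟩
  refine Nat.find_le ?_
  exact (pow_le_pow_right₀ (by norm_num) hl).trans (Nat.find_spec (h l'))

/-- The core at one tilt and one (large) length. -/
lemma main38 [IsProbabilityMeasure ρ] (hd : 0 < d) (hρ : EM ρ) {β : ℝ} {h : Vec d}
    {c₀ C₀ ε cA CA Cc C₁ C c A : ℝ} {a B Λ Λ' : ℕ} (ha : 1 ≤ a) (hC₀ : 0 ≤ C₀) (hε : 0 < ε)
    (hcA : 0 < cA) (hCA : 1 ≤ CA) (hCc : 1 ≤ Cc) (hC : 0 ≤ C) (hC₁ : 0 ≤ C₁) (hc : 0 < c)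
    (hA1 : A = 100 * C₁ + 1) (hΛ2 : 2 ≤ Λ') (hΛΛ : Λ ≤ Λ')
    (hΛ' : 2 * Cc * (B + 1) * Real.exp Cc ≤ Λ')
    (hA : ∀ (n : ℕ) (m : ℕ → ℕ) (I : Finset ℕ), Sy ρ β h n a B Λ ε m I →
      (∀ k : ℕ, k ≤ 4 * n → Va ρ β h k ≤ (n : ℝ) ^ (1 / 16 : ℝ) ∧
        En ρ β h k ≤ (n : ℝ) ^ (1 / 16 : ℝ)) →
      (law d ρ).real (⋂ p ∈ I, Lk ρ β h n (m p - 2 * m (p - a)) 0 (2 ^ p) (1 / 20) 0) ≤
        Real.exp (CA * I.card - cA * ∑ p ∈ I, Dl n m p))
    (hCh : ∀ (m : ℕ) (x : ℝ), 1 ≤ m → 1 ≤ x → ε * x ≤ Fn ρ β h m →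
      ∃ j : ℕ, (2 : ℝ) ^ j ≤ Cc * (1 + Va ρ β h m) ^ 2 ∧ ∀ (T : ℕ) (Φ : ℝ),
        Cc * m * Real.exp (Cc * j) ≤ T → (∀ k : ℕ, k ≤ T → En ρ β h k ≤ Φ ∧ Fn ρ β h k ≤ Φ) →
          2 ^ (j + 1) * x ≤ Φ)
    (hU : ∀ (n H : ℕ) (x κ K : ℝ), 1 ≤ H → H ≤ n → 0 < x → 0 < κ → κ ≤ 1 / 2 →
      (∀ k : ℕ, k ≤ n → Va ρ β h k ≤ K) →
      (1 - κ) * x * (n - H) ≤
        2 * x * (∑ t ∈ Finset.range n, us ρ β h n t (Lk ρ β h n H 0 x κ 0)) +
        H * (En ρ β h n + C * (H + 1) + C * Real.sqrt ((n + 1) * K)) +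
        C₁ * n * Real.log (2 * H + 1))
    (hS : SelP) {m : ℕ → ℕ} (lo : ∀ l k : ℕ, k < m l → fM ρ β h k < 2 ^ l)
    (hi : ∀ l : ℕ, 2 ^ l ≤ fM ρ β h (m l)) (hmono : Monotone m)
    (hfind : ∀ l k : ℕ, 2 ^ l ≤ fM ρ β h k → m l ≤ k) {ls : ℕ} (hls : 2 ≤ m ls)
    {n : ℕ} {y : ℝ} (hy0 : 0 ≤ y) (hy : y ^ 16 = n) (hy1 : 100 * (1 + 4 * C) ≤ y)
    (hy2 : 2 * Cc * (B + 1) * (4 * Cc) ^ (2 * Cc) ≤ y) (hyB : (B : ℝ) ≤ y)
    (hc1 : 16 * (c * Cc) ≤ 1) (hc2 : 16 * c ≤ 1)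
    (hc3 : 32 * (c * Real.log Λ') ≤ 1)
    (hc4 : 32 * (c * (1 + 2 * (C₀ * (CA + 1)))) ≤ cA / (20 * a))
    (hL : 32 * (cA / (20 * a) * (1 + 2 * Real.log Λ') + C₀ * (CA + 1)) <
      cA / (20 * a) * Real.log n)
    (hls2 : (2 : ℝ) ^ (ls + a + 1) ≤ Real.log n)
    (hv : ∀ k : ℕ, k ≤ 4 * n → Va ρ β h k ≤ (n : ℝ) ^ c ∧ En ρ β h k ≤ (n : ℝ) ^ c)
    {k₀ : ℕ} (hk₀ : k₀ ^ 8 ≤ n) (hk₀' : A * Real.log n ≤ fM ρ β h k₀) :
    ¬ Bd ρ β h n (c * Real.log n) C₀ := by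
  intro hBd
  classical
  have y100 : 100 ≤ y := by nlinarith
  have y1 : (1 : ℝ) ≤ y := by linarith
  have n1 : (1 : ℝ) ≤ n := by
    rw [← hy]
    exact one_le_pow₀ y1
  have n0 : (0 : ℝ) ≤ n := by linarith
  have hn1 : 1 ≤ n := by exact_mod_cast n1
  have hlog : Real.log n = 16 * Real.log y := by
    rw [← hy, Real.log_pow]
    push_cast
    ring
  have hlogy : 0 ≤ Real.log y := Real.log_nonneg y1
  have hlog0 : 0 ≤ Real.log n := Real.log_nonneg n1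
  have hyn : (n : ℝ) ^ (1 / 16 : ℝ) = y := by
    rw [← hy, ← Real.rpow_natCast y 16, ← Real.rpow_mul hy0]
    norm_num
  have hnc1 : (1 : ℝ) ≤ (n : ℝ) ^ c := Real.one_le_rpow n1 hc.le
  have hncy : (n : ℝ) ^ c ≤ y := by
    rw [← hyn]
    exact Real.rpow_le_rpow_of_exponent_le n1 (by linarith)
  -- the largest level below the logarithm
  obtain ⟨l₀, hl₀, hl₀'⟩ : ∃ l₀ : ℕ, (2 : ℝ) ^ l₀ ≤ A * Real.log n ∧
      A * Real.log n < 2 ^ (l₀ + 1) := by
    have h1 : 1 ≤ A * Real.log n := by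
      have h2 : (1 : ℝ) ≤ 2 ^ (ls + a + 1) := one_le_pow₀ (by norm_num)
      have h3 : 1 ≤ A := by linarith
      nlinarith
    exact exists_nat_pow_near h1 (by norm_num)
  have hA1' : 1 ≤ A := by linarith
  have hl₀ls : ls + a ≤ l₀ := by
    by_contra hcon
    have h1 : l₀ + 1 ≤ ls + a + 1 := by omega
    have h2 : (2 : ℝ) ^ (l₀ + 1) ≤ 2 ^ (ls + a + 1) := pow_le_pow_right₀ (by norm_num) h1
    nlinarith
  have hml₀ : m l₀ ≤ k₀ := hfind l₀ k₀ (hl₀.trans hk₀')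
  have hml₀2 : 2 ≤ m l₀ := hls.trans (hmono (by omega))
  have hml₀8 : m l₀ ^ 8 ≤ n := (Nat.pow_le_pow_left hml₀ 8).trans hk₀
  -- the largest time
  obtain ⟨M, hM, hM'⟩ : ∃ M : ℕ, M ^ 4 ≤ n ∧ n < (M + 1) ^ 4 := by
    have hex : ∃ M : ℕ, n < (M + 1) ^ 4 := ⟨n, by
      calc n < n + 1 := Nat.lt_succ_self n
        _ = (n + 1) ^ 1 := (pow_one _).symm
        _ ≤ (n + 1) ^ 4 := Nat.pow_le_pow_right (by omega) (by norm_num)⟩
    refine ⟨Nat.find hex, ?_, Nat.find_spec hex⟩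
    rcases Nat.eq_zero_or_pos (Nat.find hex) with h0 | h0
    · rw [h0]
      simp
    · have h1 := Nat.find_min hex (m := Nat.find hex - 1) (by omega)
      rw [not_lt, Nat.sub_add_cancel h0] at h1
      exact h1
  have hMy : (M : ℝ) ≤ y ^ 4 := by
    have h1 : ((M : ℝ)) ^ 4 ≤ (y ^ 4) ^ 4 := by
      rw [← pow_mul]
      norm_num
      rw [hy]
      exact_mod_cast hM
    exact le_of_pow_le_pow_left₀ (by norm_num) (by positivity) h1
  have hMy' : y ^ 4 < M + 1 := by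
    have h1 : (y ^ 4) ^ 4 < ((M : ℝ) + 1) ^ 4 := by
      rw [← pow_mul]
      norm_num
      rw [hy]
      exact_mod_cast hM'
    exact lt_of_pow_lt_pow_left₀ 4 (by positivity) h1
  have hm2 : (m l₀ : ℝ) ≤ y ^ 2 := by
    have h1 : ((m l₀ : ℝ)) ^ 8 ≤ (y ^ 2) ^ 8 := by
      rw [← pow_mul]
      norm_num
      rw [hy]
      exact_mod_cast hml₀8
    exact le_of_pow_le_pow_left₀ (by norm_num) (by positivity) h1
  have hy24 : y ^ 2 * 100 ≤ y ^ 4 := by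
    have : y ^ 2 * 100 ≤ y ^ 2 * y ^ 2 :=
      mul_le_mul_of_nonneg_left (by nlinarith) (by positivity)
    calc y ^ 2 * 100 ≤ y ^ 2 * y ^ 2 := this
      _ = y ^ 4 := by ring
  have hy2' : (1 : ℝ) ≤ y ^ 2 := one_le_pow₀ y1
  have hm0M : m l₀ < M := by
    have : (m l₀ : ℝ) < M := by linarith
    exact_mod_cast this
  have hMn : M ≤ n := by
    calc M = M ^ 1 := (pow_one _).symm
      _ ≤ M ^ 4 := Nat.pow_le_pow_right (by omega) (by norm_num)
      _ ≤ n := hM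
  -- the first level above it
  have hfM : ∀ k, k ≤ 4 * n → fM ρ β h k ≤ (n : ℝ) ^ c := fun k hk =>
    fM_le38 hd hρ β h k hnc1 (hv k hk).1 (hv k hk).2
  have hlev : ∀ l, m l ≤ 4 * n → (l : ℝ) ≤ 2 * c * Real.log n := by
    intro l hl
    have h1 : (2 : ℝ) ^ l ≤ (n : ℝ) ^ c := (hi l).trans (hfM _ hl)
    have h2 : l * Real.log 2 ≤ c * Real.log n := by
      rw [← Real.log_pow, ← Real.log_rpow (by linarith)]
      exact Real.log_le_log (by positivity) h1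
    have h3 : (1 : ℝ) / 2 ≤ Real.log 2 := by
      have := Real.log_two_gt_d9
      linarith
    have : (0 : ℝ) ≤ l := Nat.cast_nonneg _
    nlinarith
  have hex : ∃ l, M ≤ m l := by
    by_contra hcon
    push Not at hcon
    obtain ⟨l, hl⟩ := exists_nat_gt (2 * c * Real.log n)
    have := hlev l (by have := hcon l; omega)
    linarith
  obtain ⟨l₁, hl₁, hl₁'⟩ : ∃ l₁, M ≤ m l₁ ∧ ∀ l, l < l₁ → m l < M :=
    ⟨Nat.find hex, Nat.find_spec hex, fun l hl => not_le.1 (Nat.find_min hex hl)⟩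
  have hl₀₁ : l₀ < l₁ := by
    by_contra hcon
    have := hmono (not_lt.1 hcon)
    omega
  set l₂ : ℕ := ⌊2 * c * Real.log n⌋₊ + 1 with hl₂
  have hl₂' : (l₂ : ℝ) ≤ 1 + 2 * c * Real.log n := by
    rw [hl₂]
    push_cast
    have := Nat.floor_le (show 0 ≤ 2 * c * Real.log n by positivity)
    linarith
  have hle2 : ∀ l, m l ≤ 4 * n → l + 1 ≤ l₂ := by
    intro l hl
    have h1 := hlev l hl
    have h2 : l ≤ ⌊2 * c * Real.log n⌋₊ := Nat.le_floor h1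
    omega
  have hl₁₂ : l₁ ≤ l₂ := by
    have h1 := hl₁' (l₁ - 1) (by omega)
    have h2 := hle2 (l₁ - 1) (by omega)
    omega
  -- the levels which are not cheap
  set N : Finset ℕ := (Finset.range l₁).filter fun l =>
    ∀ j : ℕ, m (l + j + 1) ≤ n → Λ' ^ (j + 1) * m l < m (l + j + 1) with hN
  obtain ⟨I, hI1, hI2, hI3⟩ := hS (fun l => min (m l) M) l₀ l₁ l₂ (3 * a) Λ' N
    (fun l l' hl => min_le_min_right _ (hmono hl)) (by
      have : 1 ≤ M := by omega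
      show 1 ≤ min (m l₀) M
      omega) hl₀₁.le hl₁₂ (by omega) hΛ2 (by
      intro l hl hl' hlN
      have h1 : ∃ j : ℕ, m (l + j + 1) ≤ n ∧ m (l + j + 1) ≤ Λ' ^ (j + 1) * m l := by
        by_contra hcon
        push Not at hcon
        exact hlN (by
          rw [hN, Finset.mem_filter, Finset.mem_range]
          exact ⟨hl', hcon⟩)
      obtain ⟨j, hj1, hj2⟩ := h1
      refine ⟨j, ?_, ?_⟩
      · have := hle2 (l + j + 1) (by omega)
        omega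
      · have h2 : min (m l) M = m l := min_eq_left (hl₁' l hl').le
        show min (m (l + j + 1)) M ≤ Λ' ^ (j + 1) * min (m l) M
        rw [h2]
        exact (min_le_left _ _).trans hj2)
  have hIlt : ∀ p ∈ I, l₀ ≤ p ∧ p < l₁ ∧ m p < M := fun p hp =>
    ⟨(hI1 p hp).2.1, (hI1 p hp).2.2, hl₁' p (hI1 p hp).2.2⟩
  have hInc : ∀ p ∈ I, ∀ j : ℕ, m (p + j + 1) ≤ n → Λ' ^ (j + 1) * m p < m (p + j + 1) := by
    intro p hp
    have := (hI1 p hp).1
    rw [hN, Finset.mem_filter] at this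
    exact this.2
  have hmp2 : ∀ p ∈ I, 2 ≤ m (p - a) := fun p hp =>
    hls.trans (hmono (by have := (hIlt p hp).1; omega))
  have hmp1 : ∀ p ∈ I, 2 ≤ m p := fun p hp => (hmp2 p hp).trans (hmono (by omega))
  -- the random fluctuation is small there
  have hfs : ∀ p ∈ I, ∀ k : ℕ, k ≤ B * m p → Fn ρ β h k ≤ ε * 2 ^ p := by
    intro p hp k hk
    by_contra hcon
    rw [not_le] at hcon
    have hk1 : 1 ≤ k := by
      rcases Nat.eq_zero_or_pos k with h0 | h0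
      · rw [h0, Fn_zero15] at hcon
        have : (0 : ℝ) < ε * 2 ^ p := by positivity
        linarith only [this, hcon]
      · exact h0
    have hmpy : (m p : ℝ) ≤ y ^ 4 := by
      have h1 : (m p : ℝ) ≤ M := by exact_mod_cast (hIlt p hp).2.2.le
      exact h1.trans hMy
    have hk4 : k ≤ 4 * n := by
      have h1 : (k : ℝ) ≤ B * m p := by exact_mod_cast hk
      have h2 : (B : ℝ) * m p ≤ y * y ^ 4 :=
        mul_le_mul hyB hmpy (Nat.cast_nonneg _) hy0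
      have h3 : y * y ^ 4 ≤ y ^ 16 := by
        calc y * y ^ 4 = y ^ 5 := by ring
          _ ≤ y ^ 16 := pow_le_pow_right₀ y1 (by norm_num)
      rw [hy] at h3
      have h4 : (k : ℝ) ≤ n := by linarith only [h1, h2, h3]
      have h5 : k ≤ n := by exact_mod_cast h4
      omega
    obtain ⟨j, hj1, hj2⟩ := hCh k (2 ^ p) hk1 (one_le_pow₀ (by norm_num)) hcon.le
    have hT1 : Cc * k * Real.exp (Cc * j) ≤ ⌈Cc * k * Real.exp (Cc * j)⌉₊ := Nat.le_ceil _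
    have hE1 : 1 ≤ Cc * k * Real.exp (Cc * j) := by
      have h1 : (1 : ℝ) ≤ k := by exact_mod_cast hk1
      have h2 : 1 ≤ Real.exp (Cc * j) := Real.one_le_exp (by positivity)
      have h3 : 1 ≤ Cc * k := one_le_mul_of_one_le_of_one_le hCc h1
      exact one_le_mul_of_one_le_of_one_le h3 h2
    have hT2 : (⌈Cc * k * Real.exp (Cc * j)⌉₊ : ℝ) ≤ 2 * (Cc * k * Real.exp (Cc * j)) := by
      have := Nat.ceil_lt_add_one (show 0 ≤ Cc * k * Real.exp (Cc * j) by linarith only [hE1])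
      linarith only [this, hE1]
    set T : ℕ := ⌈Cc * k * Real.exp (Cc * j)⌉₊ with hTdef
    have hva0 : 0 ≤ Va ρ β h k := integral_nonneg fun _ => sq_nonneg _
    have hTn : T ≤ n := by
      have := time38 (c := c) hy y1 hCc hc1 hc.le (hv k hk4).1 hva0 hj1 hmpy hk hy2
      exact_mod_cast hT2.trans this
    have hmT : m (p + j + 1) ≤ T := by
      by_contra hcon2
      rw [not_le] at hcon2
      obtain ⟨Φ, hΦ1, hΦ2⟩ := max38 (fM ρ β h) T (b := 2 ^ (p + j + 1)) fun i hi =>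
        lo (p + j + 1) i (lt_of_le_of_lt hi hcon2)
      have h1 := hj2 T Φ hT1 fun i hi =>
        ⟨(le_max_left _ _).trans (hΦ2 i hi), (le_max_right _ _).trans (hΦ2 i hi)⟩
      have h2 : (2 : ℝ) ^ (j + 1) * 2 ^ p = 2 ^ (p + j + 1) := by
        rw [← pow_add]
        congr 1
        omega
      linarith only [h1, h2, hΦ1]
    have h1 := hInc p hp j (hmT.trans hTn)
    have h2 : Λ' ^ (j + 1) * m p < T := lt_of_lt_of_le h1 hmT
    have h3 : ((Λ' : ℝ) ^ (j + 1) * m p) < T := by exact_mod_cast h2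
    have h4 := pow38 (j := j) hCc hk hΛ'
    linarith only [h3, h4, hT2]
  have hSy : Sy ρ β h n a B Λ ε m I := by
    refine ⟨lo, hi, fun p hp => ⟨by have := (hIlt p hp).1; omega, hmp2 p hp⟩, fun p hp => ?_,
      fun p hp j hj => ?_, hI2, hfs⟩
    · exact (Nat.pow_le_pow_left (hIlt p hp).2.2.le 4).trans hM
    · refine lt_of_le_of_lt ?_ (hInc p hp j hj)
      exact Nat.mul_le_mul_right _ (Nat.pow_le_pow_left hΛΛ _)
  have hSyJ : ∀ J ⊆ I, Sy ρ β h n a B Λ ε m J := fun J hJ =>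
    ⟨hSy.lo, hSy.hi, fun p hp => hSy.big p (hJ hp), fun p hp => hSy.sm p (hJ hp),
      fun p hp => hSy.nc p (hJ hp), fun p hp q hq => hSy.sp p (hJ hp) q (hJ hq),
      fun p hp => hSy.fs p (hJ hp)⟩
  have hv16 : ∀ k : ℕ, k ≤ 4 * n → Va ρ β h k ≤ (n : ℝ) ^ (1 / 16 : ℝ) ∧
      En ρ β h k ≤ (n : ℝ) ^ (1 / 16 : ℝ) := fun k hk => by
    rw [hyn]
    exact ⟨(hv k hk).1.trans hncy, (hv k hk).2.trans hncy⟩
  have hDl : ∀ p ∈ I, 0 ≤ Dl n m p := by
    intro p hp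
    unfold Dl
    refine Real.log_nonneg ?_
    have h1 := hmp1 p hp
    have h2 : m p ≤ min (m (p + 1)) n := by
      refine le_min (hmono (Nat.le_succ p)) ?_
      have := (hIlt p hp).2.2
      omega
    rw [le_div_iff₀ (by positivity), one_mul]
    exact_mod_cast h2
  have hB1 := hBd I (fun p => Lk ρ β h n (m p - 2 * m (p - a)) 0 (2 ^ p) (1 / 20) 0)
    (fun p => cA * Dl n m p) CA (fun p hp => ⟨Lk_meas38 β h _ _ _ _ _ _,
      Lk_dep38 β h _ _ _ _ _ _, mul_nonneg hcA.le (hDl p hp)⟩) (by linarith) (by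
      intro J hJ
      have := hA n m J (hSyJ J hJ) hv16
      rwa [Finset.mul_sum] at this)
  -- the usage
  have hus : ∀ p ∈ I, 45 / 100 * (n : ℝ) ≤ ∑ t ∈ Finset.range n,
      us ρ β h n t (Lk ρ β h n (m p - 2 * m (p - a)) 0 (2 ^ p) (1 / 20) 0) := by
    intro p hp
    rcases Nat.eq_zero_or_pos (m p - 2 * m (p - a)) with h0 | h0
    · have hall : Lk ρ β h n (m p - 2 * m (p - a)) 0 (2 ^ p) (1 / 20) 0 = Set.univ := by
        rw [h0, Set.eq_univ_iff_forall]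
        intro η
        refine Or.inl ⟨0, le_rfl, ?_⟩
        have hX0 : X β h η 0 = 0 := by
          unfold X
          simp [Z_zero]
        rw [Nat.add_zero, hX0]
        have h2p : (0 : ℝ) < 2 ^ p := by positivity
        push_cast
        linarith only [h2p]
      have hus1 : ∀ t ∈ Finset.range n, us ρ β h n t (Set.univ : Set (Env d)) = 1 := by
        intro t ht
        have htn : t ≤ n := (Finset.mem_range.1 ht).le
        unfold us
        simp only [Set.indicator_univ, mul_one]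
        have h1 : ∀ η : Env d, ∑ y ∈ boxF d t, Qt β h n t y η = 1 := fun η =>
          S98.Qt_sum hd β h htn η
        simp only [h1]
        simp
      rw [hall, Finset.sum_congr rfl hus1]
      simp only [Finset.sum_const, Finset.card_range, nsmul_eq_mul, mul_one]
      linarith only [n0]
    · have hxp : (1 : ℝ) ≤ 2 ^ p := one_le_pow₀ (by norm_num)
      have hHp : m p - 2 * m (p - a) ≤ m p := Nat.sub_le _ _
      have hHM : m p - 2 * m (p - a) ≤ M := hHp.trans (hIlt p hp).2.2.le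
      have hHy : ((m p - 2 * m (p - a) : ℕ) : ℝ) ≤ y ^ 4 := by
        have : ((m p - 2 * m (p - a) : ℕ) : ℝ) ≤ M := by exact_mod_cast hHM
        exact this.trans hMy
      have h1 := hU n (m p - 2 * m (p - a)) (2 ^ p) (1 / 20) y h0 (hHM.trans hMn)
        (by positivity) (by norm_num) (by norm_num) fun k hk =>
          (hv k (by omega)).1.trans hncy
      refine use_num38 hy hy1 hC hxp hHy ((hv n (by omega)).2.trans hncy) ?_ h1
      have h2 : Real.log (2 * ((m p - 2 * m (p - a) : ℕ) : ℝ) + 1) ≤ Real.log n := by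
        refine Real.log_le_log (by positivity) ?_
        have h3 : (1 : ℝ) ≤ y ^ 4 := one_le_pow₀ y1
        have h4 : 3 * y ^ 4 ≤ y * y ^ 4 :=
          mul_le_mul_of_nonneg_right (by linarith only [y100]) (by positivity)
        have h5 : y * y ^ 4 ≤ y ^ 16 := by
          calc y * y ^ 4 = y ^ 5 := by ring
            _ ≤ y ^ 16 := pow_le_pow_right₀ y1 (by norm_num)
        rw [hy] at h5
        linarith only [h3, h4, h5, hHy]
      have h3 : C₁ * Real.log (2 * ((m p - 2 * m (p - a) : ℕ) : ℝ) + 1) ≤ C₁ * Real.log n :=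
        mul_le_mul_of_nonneg_left h2 hC₁
      have h4 : (2 : ℝ) ^ (l₀ + 1) ≤ 2 * 2 ^ p := by
        rw [pow_succ, mul_comm]
        exact mul_le_mul_of_nonneg_left
          (pow_le_pow_right₀ (by norm_num) (hIlt p hp).1) (by norm_num)
      have h5 : C₁ * Real.log n ≤ A * Real.log n / 100 := by
        rw [hA1]
        linarith only [hlog0]
      linarith only [h3, h4, h5, hl₀']
  have hD' : ∑ p ∈ I, Real.log ((min (m (p + 1)) M : ℕ) / (min (m p) M : ℕ) : ℝ) ≤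
      ∑ p ∈ I, Dl n m p := by
    refine Finset.sum_le_sum fun p hp => ?_
    unfold Dl
    rw [min_eq_left (hIlt p hp).2.2.le]
    have h1 := hmp1 p hp
    have h2 : 0 < min (m (p + 1)) M := by
      have h3 : m p ≤ m (p + 1) := hmono (Nat.le_succ p)
      refine lt_min ?_ ?_
      · omega
      · omega
    have h2' : (0 : ℝ) < (min (m (p + 1)) M : ℕ) := by exact_mod_cast h2
    refine Real.log_le_log (by positivity) ?_
    refine div_le_div_of_nonneg_right ?_ (Nat.cast_nonneg _)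
    exact_mod_cast min_le_min_left _ hMn
  have hLM : 2 * Real.log y - 1 ≤ Real.log ((min (m l₁) M : ℕ) / (min (m l₀) M : ℕ) : ℝ) := by
    rw [min_eq_right hl₁, min_eq_left hm0M.le]
    have h1 : (y ^ 2 / 2) ≤ (M : ℝ) / m l₀ := by
      have h2 : (0 : ℝ) < m l₀ := by
        have : 0 < m l₀ := by omega
        exact_mod_cast this
      rw [le_div_iff₀ h2]
      have h3 : y ^ 2 / 2 * m l₀ ≤ y ^ 2 / 2 * y ^ 2 :=
        mul_le_mul_of_nonneg_left hm2 (by positivity)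
      have h4 : y ^ 2 / 2 * y ^ 2 = y ^ 4 / 2 := by ring
      linarith only [h3, h4, hMy', hy24, hy2']
    have h2 : Real.log (y ^ 2 / 2) ≤ Real.log ((M : ℝ) / m l₀) :=
      Real.log_le_log (by positivity) h1
    rw [Real.log_div (by positivity) (by norm_num), Real.log_pow] at h2
    have h3 : Real.log 2 ≤ 1 := by
      have := Real.log_two_lt_d9
      linarith only [this]
    push_cast at h2
    linarith only [h2, h3]
  have hcard : (I.card : ℝ) ≤ l₂ := by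
    have h1 : I ⊆ Finset.range l₁ := fun p hp => Finset.mem_range.2 (hIlt p hp).2.1
    have h2 := Finset.card_le_card h1
    rw [Finset.card_range] at h2
    exact_mod_cast h2.trans hl₁₂
  have hlam : 0 ≤ Real.log (Λ' : ℝ) := Real.log_nonneg (by
    have : 1 ≤ Λ' := by omega
    exact_mod_cast this)
  have hB2 : 15 / 100 * (cA * ∑ p ∈ I, Dl n m p) ≤
      c * Real.log n + C₀ * (CA + 1) * I.card := by
    refine le_trans ?_ hB1
    rw [Finset.mul_sum, Finset.mul_sum]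
    refine Finset.sum_le_sum fun p hp => ?_
    have h1 : (0 : ℝ) < n := lt_of_lt_of_le one_pos n1
    have h2 : 45 / 100 ≤ (∑ t ∈ Finset.range n,
        us ρ β h n t (Lk ρ β h n (m p - 2 * m (p - a)) 0 (2 ^ p) (1 / 20) 0)) / n := by
      rw [le_div_iff₀ h1]
      exact hus p hp
    have h3 := mul_nonneg hcA.le (hDl p hp)
    rw [mul_comm (15 / 100 : ℝ)]
    exact mul_le_mul_of_nonneg_left (by linarith only [h2]) h3
  have ha0 : (0 : ℝ) < a := by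
    have : 0 < a := by omega
    exact_mod_cast this
  refine fin38 (w := cA / (20 * a)) rfl ha0 hcA hCA hC₀ hlog hlog0 hlam ?_ hD' hLM hl₂' hcard
    hB2 hc3 hc4 hL
  have := hI3
  push_cast at this ⊢
  exact this

/-- COR: the core at one tilt. -/
theorem cor38 [IsProbabilityMeasure ρ] (hd : 0 < d) (hρ : EM ρ) {β : ℝ} (hU : UseP d ρ β)
    (hAdd : AddP d ρ β) (hCh : ChpP d ρ β) (hS : SelP) (hL : LocE d ρ β) : CorP d ρ β := by
  intro g C₀ hg hC₀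
  obtain ⟨c₀, hc₀, hLoc⟩ := hL g hg
  obtain ⟨a, B, Λ, ε, cA, CA, ha, hε, hcA, hCA, hA⟩ :=
    hAdd c₀ (1 / 20) hc₀ (by norm_num) (by norm_num)
  obtain ⟨Cc, hCc, hCh⟩ := hCh c₀ ε hc₀ hε
  obtain ⟨C₁, hC₁, hU⟩ := hU
  set Λ' : ℕ := max Λ ⌈2 * Cc * (B + 1) * Real.exp Cc⌉₊ + 2 with hΛ'
  have hΛ2 : 2 ≤ Λ' := by omega
  have hΛΛ : Λ ≤ Λ' := by
    have := le_max_left Λ ⌈2 * Cc * (B + 1) * Real.exp Cc⌉₊
    omega
  have hΛ3 : 2 * Cc * (B + 1) * Real.exp Cc ≤ Λ' := by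
    have h1 := le_max_right Λ ⌈2 * Cc * (B + 1) * Real.exp Cc⌉₊
    have h2 : ⌈2 * Cc * (B + 1) * Real.exp Cc⌉₊ ≤ Λ' := by omega
    exact (Nat.le_ceil _).trans (by exact_mod_cast h2)
  have hlam : 0 ≤ Real.log (Λ' : ℝ) := Real.log_nonneg (by
    have : 1 ≤ Λ' := by omega
    exact_mod_cast this)
  have ha0 : (0 : ℝ) < a := by
    have : 0 < a := by omega
    exact_mod_cast this
  set w : ℝ := cA / (20 * a) with hw
  have hw0 : 0 < w := by positivity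
  have hK : 0 ≤ C₀ * (CA + 1) := mul_nonneg hC₀ (by linarith)
  obtain ⟨c, hc, hc1, hc2, hc3, hc4⟩ : ∃ c : ℝ, 0 < c ∧ 16 * (c * Cc) ≤ 1 ∧ 16 * c ≤ 1 ∧
      32 * (c * Real.log Λ') ≤ 1 ∧ 32 * (c * (1 + 2 * (C₀ * (CA + 1)))) ≤ w := by
    have e1 : ∀ D b : ℝ, 0 ≤ D → 0 < b → ∃ c : ℝ, 0 < c ∧ ∀ c', 0 < c' → c' ≤ c →
        32 * (c' * D) ≤ b := by
      intro D b hD hb
      refine ⟨b / (32 * (D + 1)), by positivity, fun c' h0 h1 => ?_⟩
      rw [le_div_iff₀ (by positivity)] at h1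
      nlinarith
    obtain ⟨x1, hx1, y1⟩ := e1 Cc 1 (by linarith) one_pos
    obtain ⟨x2, hx2, y2⟩ := e1 1 1 zero_le_one one_pos
    obtain ⟨x3, hx3, y3⟩ := e1 (Real.log Λ') 1 hlam one_pos
    obtain ⟨x4, hx4, y4⟩ := e1 (1 + 2 * (C₀ * (CA + 1))) w (by linarith) hw0
    have hm : 0 < min (min x1 x2) (min x3 x4) := lt_min (lt_min hx1 hx2) (lt_min hx3 hx4)
    refine ⟨min (min x1 x2) (min x3 x4), hm, ?_, ?_, ?_, ?_⟩
    · have := y1 _ hm ((min_le_left _ _).trans (min_le_left _ _))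
      have h2 : 0 < min (min x1 x2) (min x3 x4) * Cc := mul_pos hm (by linarith)
      linarith
    · have := y2 _ hm ((min_le_left _ _).trans (min_le_right _ _))
      linarith
    · exact y3 _ hm ((min_le_right _ _).trans (min_le_left _ _))
    · exact y4 _ hm ((min_le_right _ _).trans (min_le_right _ _))
  refine ⟨c, 100 * C₁ + 1, hc, fun h hgap => ?_⟩
  have hL1 : Loc1 ρ β h c₀ := hLoc h hgap
  obtain ⟨C, hC, hU⟩ := hU h
  have hlogT : Tendsto (fun n : ℕ => Real.log n) atTop atTop :=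
    Real.tendsto_log_atTop.comp tendsto_natCast_atTop_atTop
  by_cases hf : ∀ b : ℝ, ∃ k, b ≤ fM ρ β h k
  · obtain ⟨m, lo, hi, hmono, hfind⟩ := lev38 (fM ρ β h) hf
    obtain ⟨ls, hls⟩ : ∃ ls : ℕ, 2 ≤ m ls := by
      obtain ⟨l, hl⟩ := exists_nat_gt (max (fM ρ β h 0) (fM ρ β h 1))
      refine ⟨l, ?_⟩
      by_contra hcon
      have h1 : m l = 0 ∨ m l = 1 := by omega
      have h2 := hi l
      have h3 : (l : ℝ) < 2 ^ l := by exact_mod_cast Nat.lt_two_pow_self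
      rcases h1 with h1 | h1 <;> rw [h1] at h2
      · have := le_max_left (fM ρ β h 0) (fM ρ β h 1)
        linarith
      · have := le_max_right (fM ρ β h 0) (fM ρ β h 1)
        linarith
    have hyT : Tendsto (fun n : ℕ => (n : ℝ) ^ (1 / 16 : ℝ)) atTop atTop :=
      (tendsto_rpow_atTop (by norm_num)).comp tendsto_natCast_atTop_atTop
    have ev := ((hyT.eventually_ge_atTop (100 * (1 + 4 * C))).and
      ((hyT.eventually_ge_atTop (2 * Cc * (B + 1) * (4 * Cc) ^ (2 * Cc))).and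
        ((hyT.eventually_ge_atTop (B : ℝ)).and
          ((hlogT.eventually_gt_atTop
            (32 * (w * (1 + 2 * Real.log Λ') + C₀ * (CA + 1)) / w)).and
            (hlogT.eventually_ge_atTop ((2 : ℝ) ^ (ls + a + 1)))))))
    obtain ⟨n₀, hn₀⟩ := eventually_atTop.1 ev
    refine ⟨n₀, fun n hn hv hk => ?_⟩
    obtain ⟨g1, g2, g3, g4, g5⟩ := hn₀ n hn
    obtain ⟨k₀, hk₀, hk₀'⟩ := hk
    have hy : ((n : ℝ) ^ (1 / 16 : ℝ)) ^ 16 = n := by
      rw [← Real.rpow_natCast, ← Real.rpow_mul (Nat.cast_nonneg _)]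
      norm_num
    refine main38 (c₀ := c₀) hd hρ ha hC₀ hε hcA hCA hCc hC hC₁ hc rfl hΛ2 hΛΛ hΛ3
      (hA h hL1) (hCh h hL1) hU hS lo hi hmono hfind hls (Real.rpow_nonneg (Nat.cast_nonneg _) _)
      hy g1 g2 g3 hc1 hc2 hc3 hc4 ?_ g5 hv hk₀ hk₀'
    have g6 := (div_lt_iff₀ hw0).1 g4
    rw [mul_comm (Real.log (n : ℝ)) w] at g6
    exact g6
  · push Not at hf
    obtain ⟨b, hb⟩ := hf
    obtain ⟨n₀, hn₀⟩ := eventually_atTop.1 (hlogT.eventually_ge_atTop (max b 0))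
    refine ⟨n₀, fun n hn hv hk => ?_⟩
    obtain ⟨k₀, _, hk₀'⟩ := hk
    have h1 := hn₀ n hn
    have h2 := hb k₀
    have h3 := (le_max_left b 0).trans h1
    have h4 := (le_max_right b 0).trans h1
    nlinarith

end Pool.Agent.W_7d29a1_PL.K38
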