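import Pool.Agent.W_7d29a1_PL.DefsPL
import Pool.Agent.W_7d29a1_SP.Bas15

/-!
Assembly of the core: the levels, measurability, the numbers (helper28).
-/

namespace Pool.Agent.W_7d29a1_PL

open MeasureTheory ProbabilityTheory Filter Topology Pool.Agent.W_MP_7d29a1_pr
  Pool.Agent.W_7d29a1_h46 Pool.Agent.W_7d29a1_h46u Pool.Agent.W_7d29a1_D2.B35
  Pool.Agent.W_7d29a1_Q29 Pool.Agent.W_7d29a1_R34 Pool.Agent.W_7d29a1_SP

namespace Co28

/-- The first times of the levels. -/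
lemma lev28 (f : ℕ → ℝ) (hf : ∀ l : ℕ, ∃ k : ℕ, (2 : ℝ) ^ l ≤ f k) : ∃ m : ℕ → ℕ, Monotone m ∧
    (∀ l k : ℕ, k < m l → f k < 2 ^ l) ∧ (∀ l : ℕ, 2 ^ l ≤ f (m l)) ∧
    (∀ l k : ℕ, 2 ^ l ≤ f k → m l ≤ k) := by
  classical
  have h1 : ∀ l k : ℕ, (2 : ℝ) ^ l ≤ f k → Nat.find (hf l) ≤ k := fun l k h =>
    Nat.find_min' (hf l) h
  have h2 : ∀ l : ℕ, (2 : ℝ) ^ l ≤ f (Nat.find (hf l)) := fun l => Nat.find_spec (hf l)
  refine ⟨fun l => Nat.find (hf l), ?_, ?_, h2, h1⟩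
  · intro a b hab
    refine h1 a _ ((pow_le_pow_right₀ (by norm_num) hab).trans (h2 b))
  · intro l k hk
    by_contra h3
    exact absurd (h1 l k (not_lt.1 h3)) (not_le.2 hk)

variable {d : ℕ} {ρ : Measure ℝ} {β : ℝ} {h : Vec d}

lemma X_dep28 (n : ℕ) {η η' : Env d} (hη : ∀ p ∈ {q : ℕ × Site d | 1 ≤ q.1}, η p = η' p) :
    X β h η n = X β h η' n := by
  have h1 : Z β h η n = Z β h η' n := dependsOn_Z β h n fun p hp => hη p hp.1
  show Real.log (Z β h η n) = Real.log (Z β h η' n)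
  rw [h1]

lemma Lg0_meas28 (H S : ℕ) (x κ z : ℝ) : MeasurableSet (Lg0 ρ β h H S x κ z) := by
  have e : Lg0 ρ β h H S x κ z = ⋃ s ∈ Finset.range (S + 1),
      {η | ((H + s : ℕ) : ℝ) * lam ρ β h - (1 - κ) * x - z ≤ X β h η (H + s)} := by
    ext η
    simp only [Lg0, Set.mem_ofPred_eq, Set.mem_iUnion, exists_prop, Finset.mem_range,
      Nat.lt_succ_iff]
  rw [e]
  exact Finset.measurableSet_biUnion _ fun s _ =>
    measurableSet_le measurable_const (measurable_X β h (H + s))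

lemma LgN_meas28 (H S : ℕ) (x κ z : ℝ) (N : ℕ) : MeasurableSet (LgN ρ β h H S x κ z N) := by
  have e : LgN ρ β h H S x κ z N = ⋃ s ∈ Finset.range (S + 1),
      {η | ((N * H + s : ℕ) : ℝ) * lam ρ β h + κ * N * x - z ≤ X β h η (N * H + s)} := by
    ext η
    simp only [LgN, Set.mem_ofPred_eq, Set.mem_iUnion, exists_prop, Finset.mem_range,
      Nat.lt_succ_iff]
  rw [e]
  exact Finset.measurableSet_biUnion _ fun s _ =>
    measurableSet_le measurable_const (measurable_X β h (N * H + s))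

lemma Lk_meas28 (n H S : ℕ) (x κ z : ℝ) : MeasurableSet (Lk ρ β h n H S x κ z) := by
  refine (Lg0_meas28 H S x κ z).union ?_
  have e : {η | ∃ N : ℕ, 2 ≤ N ∧ N * H ≤ n ∧ η ∈ LgN ρ β h H S x κ z N} =
      ⋃ N : ℕ, ⋃ _ : 2 ≤ N ∧ N * H ≤ n, LgN ρ β h H S x κ z N := by
    ext η
    simp only [Set.mem_ofPred_eq, Set.mem_iUnion, exists_prop, and_assoc]
  rw [e]
  exact MeasurableSet.iUnion fun N => MeasurableSet.iUnion fun _ => LgN_meas28 H S x κ z N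

lemma Lk_dep28 (n H S : ℕ) (x κ z : ℝ) :
    DependsOn (fun η => η ∈ Lk ρ β h n H S x κ z) {q : ℕ × Site d | 1 ≤ q.1} := by
  intro η η' hη
  have h1 : ∀ T, X β h η T = X β h η' T := fun T => X_dep28 T hη
  show (η ∈ Lk ρ β h n H S x κ z) = (η' ∈ Lk ρ β h n H S x κ z)
  simp only [Lk, Lg0, LgN, Set.mem_union, Set.mem_ofPred_eq, h1]

/-- The time of the level `p` is more than twice the time of the level `p - a`. -/
lemma dbl28' [IsProbabilityMeasure ρ] (hd : 0 < d) (hρ : EM ρ) {m : ℕ → ℕ} {p a : ℕ} (ha : 2 ≤ a)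
    (hap : a ≤ p) (hlo : ∀ k : ℕ, k < m (p - a) → fM ρ β h k < 2 ^ (p - a))
    (hE : 2 ^ p ≤ En ρ β h (m p)) (h1 : 4 * En ρ β h 1 < 2 ^ p) : 2 * m (p - a) < m p := by
  by_contra h2
  push Not at h2
  set q := p - a with hq
  have h0 : ∀ k : ℕ, k < m q → En ρ β h k < 2 ^ q := fun k hk => (le_max_left _ _).trans_lt (hlo k hk)
  have hE1 : 0 ≤ En ρ β h 1 := En_nonneg15 hd hρ β h 1
  have hpos : (0 : ℝ) < 2 ^ q := by positivity
  have h3 : ∀ k : ℕ, k ≤ m q → En ρ β h k ≤ 2 ^ q + En ρ β h 1 := by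
    intro k hk
    rcases Nat.eq_zero_or_pos k with h4 | h4
    · rw [h4, En_zero15]
      positivity
    · have h5 := En_add15 (ρ := ρ) hd hρ β h (k - 1) 1
      rw [Nat.sub_add_cancel h4] at h5
      have h6 := h0 (k - 1) (by omega)
      linarith
  obtain ⟨u, v, hu, hv, huv⟩ : ∃ u v : ℕ, u ≤ m q ∧ v ≤ m q ∧ m p = u + v :=
    ⟨m p / 2, m p - m p / 2, by omega, by omega, by omega⟩
  have h4 := En_add15 (ρ := ρ) hd hρ β h u v
  rw [← huv] at h4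
  have h5 := h3 u hu
  have h6 := h3 v hv
  have h7 : (2 : ℝ) ^ p = 2 ^ q * 2 ^ a := by
    rw [← pow_add]
    congr 1
    omega
  have h8 : (4 : ℝ) ≤ 2 ^ a := by
    calc (4 : ℝ) = 2 ^ 2 := by norm_num
      _ ≤ 2 ^ a := pow_le_pow_right₀ (by norm_num) ha
  nlinarith

/-- A large random fluctuation at a time comparable to the time of a level makes it cheap. -/
lemma chp28 (hCh : ChpP d ρ β) {c₀ δ : ℝ} (hc₀ : 0 < c₀) (hδ : 0 < δ) : ∃ C : ℝ, 1 ≤ C ∧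
    ∀ h : Vec d, Loc1 ρ β h c₀ → ∀ m : ℕ → ℕ, (∀ l k : ℕ, k < m l → fM ρ β h k < 2 ^ l) →
    ∀ p k : ℕ, 1 ≤ k → δ * 2 ^ p ≤ Fn ρ β h k →
      ∃ j : ℕ, (2 : ℝ) ^ j ≤ C * (1 + Va ρ β h k) ^ 2 ∧
        (m (p + j + 1) : ℝ) ≤ C * k * Real.exp (C * j) + 1 := by
  obtain ⟨C, hC1, hC⟩ := hCh c₀ δ hc₀ hδ
  refine ⟨C, hC1, fun h hL m hm p k hk hF => ?_⟩
  obtain ⟨j, hj1, hj2⟩ := hC h hL k (2 ^ p) hk (one_le_pow₀ (by norm_num)) hF
  refine ⟨j, hj1, ?_⟩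
  by_contra h1
  push Not at h1
  set T := ⌈C * k * Real.exp (C * j)⌉₊ with hT
  have h2 : C * k * Real.exp (C * j) ≤ T := Nat.le_ceil _
  have h3 : (T : ℝ) < C * k * Real.exp (C * j) + 1 := Nat.ceil_lt_add_one (by positivity)
  have h4 : T < m (p + j + 1) := by
    have : (T : ℝ) < m (p + j + 1) := h3.trans h1
    exact_mod_cast this
  obtain ⟨i, hi, him⟩ := Finset.exists_max_image (Finset.range (T + 1)) (fM ρ β h)
    ⟨0, Finset.mem_range.2 (Nat.succ_pos _)⟩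
  have h5 := hj2 T (fM ρ β h i) h2 fun k hk => by
    have h6 := him k (Finset.mem_range.2 (Nat.lt_succ_of_le hk))
    exact ⟨(le_max_left _ _).trans h6, (le_max_right _ _).trans h6⟩
  have h6 := hm (p + j + 1) i (lt_of_le_of_lt (Nat.lt_succ_iff.1 (Finset.mem_range.1 hi)) h4)
  have h7 : (2 : ℝ) ^ (p + j + 1) = 2 ^ (j + 1) * 2 ^ p := by
    rw [← pow_add]
    congr 1
    omega
  rw [h7] at h6
  linarith

end Co28

end Pool.Agent.W_7d29a1_PL
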