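import Pool.Agent.W_7d29a1_PL.DefsPL
import Pool.Agent.W_7d29a1_SP.Bas15

/-!
Theorem PL, the core: elementary facts.
-/

set_option autoImplicit false

namespace Pool.Agent.W_7d29a1_PL.C8

open MeasureTheory ProbabilityTheory Filter Topology Pool.Agent.W_MP_7d29a1_pr
  Pool.Agent.W_7d29a1_h46 Pool.Agent.W_7d29a1_h46u Pool.Agent.W_7d29a1_D2.B35
  Pool.Agent.W_7d29a1_Q29 Pool.Agent.W_7d29a1_R34 Pool.Agent.W_7d29a1_SP
  Pool.Agent.W_7d29a1_PL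

variable {d : ℕ} {ρ : Measure ℝ} {β : ℝ}

/-- The first times at which a sequence reaches the powers of two. -/
lemma first8 (f : ℕ → ℝ) (hf : ∀ K : ℝ, ∃ n : ℕ, K ≤ f n) : ∃ m : ℕ → ℕ,
    (∀ l k : ℕ, k < m l → f k < 2 ^ l) ∧ (∀ l : ℕ, 2 ^ l ≤ f (m l)) ∧ Monotone m := by
  classical
  have h1 : ∀ l : ℕ, ∃ n : ℕ, (2 : ℝ) ^ l ≤ f n := fun l => hf _
  refine ⟨fun l => Nat.find (h1 l), fun l k hk => ?_, fun l => Nat.find_spec (h1 l),
    fun l l' hl => ?_⟩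
  · have := Nat.find_min (h1 l) hk
    exact not_le.1 this
  · refine Nat.find_min' (h1 l) ?_
    exact (pow_le_pow_right₀ one_le_two hl).trans (Nat.find_spec (h1 l'))

/-- The logarithm of a real number is caught by the powers of two. -/
lemma exists_two8 {y : ℝ} (hy : 1 ≤ y) : ∃ l : ℕ, (2 : ℝ) ^ l ≤ y ∧ y < 2 ^ (l + 1) :=
  exists_nat_pow_near hy one_lt_two

lemma X_dep8 (β : ℝ) (h : Vec d) (n : ℕ) {η η' : Env d}
    (hη : ∀ q : ℕ × Site d, 1 ≤ q.1 → η q = η' q) : X β h η n = X β h η' n := by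
  unfold X
  congr 1
  exact dependsOn_Z β h n fun p hp => hη p hp.1

lemma meas_ex8 (S : ℕ) (f : ℕ → ℝ) (g : ℕ → ℕ) (β : ℝ) (h : Vec d) :
    MeasurableSet {η : Env d | ∃ s : ℕ, s ≤ S ∧ f s ≤ X β h η (g s)} := by
  have e : {η : Env d | ∃ s : ℕ, s ≤ S ∧ f s ≤ X β h η (g s)} =
      ⋃ s : ℕ, ⋃ _ : s ≤ S, {η : Env d | f s ≤ X β h η (g s)} := by
    ext η
    simp
  rw [e]
  exact MeasurableSet.iUnion fun s => MeasurableSet.iUnion fun _ =>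
    measurableSet_le measurable_const (measurable_X β h _)

lemma meas_Lk8 (ρ : Measure ℝ) (β : ℝ) (h : Vec d) (n H S : ℕ) (x κ z : ℝ) :
    MeasurableSet (Lk ρ β h n H S x κ z) := by
  unfold Lk
  refine (meas_ex8 S _ _ β h).union ?_
  have e : {η : Env d | ∃ N : ℕ, 2 ≤ N ∧ N * H ≤ n ∧ η ∈ LgN ρ β h H S x κ z N} =
      ⋃ N : ℕ, ⋃ _ : 2 ≤ N, ⋃ _ : N * H ≤ n, LgN ρ β h H S x κ z N := by
    ext η
    simp only [Set.mem_ofPred_eq, Set.mem_iUnion, exists_prop]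
  rw [e]
  exact MeasurableSet.iUnion fun N => MeasurableSet.iUnion fun _ =>
    MeasurableSet.iUnion fun _ => meas_ex8 S _ _ β h

lemma dep_Lk8 (ρ : Measure ℝ) (β : ℝ) (h : Vec d) (n H S : ℕ) (x κ z : ℝ) :
    DependsOn (fun η => η ∈ Lk ρ β h n H S x κ z) {q : ℕ × Site d | 1 ≤ q.1} := by
  intro η η' hη
  have h1 : ∀ N : ℕ, X β h η N = X β h η' N := fun N =>
    X_dep8 β h N fun q hq => hη q hq
  simp only [Lk, Lg0, LgN, Set.mem_union, Set.mem_ofPred_eq, h1]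

/-- If the scale is zero the luck is certain. -/
lemma Lk_zero8 (ρ : Measure ℝ) (β : ℝ) (h : Vec d) (n : ℕ) {x κ : ℝ} (hx : 0 ≤ x) (hκ : κ ≤ 1) :
    Lk ρ β h n 0 0 x κ 0 = Set.univ := by
  refine Set.eq_univ_of_forall fun η => Or.inl ⟨0, le_rfl, ?_⟩
  have e : X β h η 0 = 0 := by
    unfold X
    rw [Z_zero, Real.log_one]
  rw [add_zero, e]
  have : 0 ≤ (1 - κ) * x := mul_nonneg (by linarith) hx
  simp only [Nat.cast_zero, zero_mul]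
  linarith

lemma Fn_le8 [IsProbabilityMeasure ρ] (hd : 0 < d) (hρ : EM ρ) (β : ℝ) (h : Vec d) (k : ℕ)
    {K : ℝ} (hK : 1 ≤ K) (hV : Va ρ β h k ≤ K) : Fn ρ β h k ≤ K := by
  have h1 := Fn_sq15 hd hρ β h k
  have h2 := Fn_nonneg15 (ρ := ρ) β h k
  by_contra hc
  push Not at hc
  nlinarith

end Pool.Agent.W_7d29a1_PL.C8
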