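import Pool.Agent.W_7d29a1_PL.CorA8

/-!
Theorem PL, the core: the cheap levels and the usage of a level.
-/

set_option autoImplicit false

namespace Pool.Agent.W_7d29a1_PL.C8

open MeasureTheory ProbabilityTheory Filter Topology Pool.Agent.W_MP_7d29a1_pr
  Pool.Agent.W_7d29a1_h46 Pool.Agent.W_7d29a1_h46u Pool.Agent.W_7d29a1_D2.B35
  Pool.Agent.W_7d29a1_Q29 Pool.Agent.W_7d29a1_R34 Pool.Agent.W_7d29a1_SP
  Pool.Agent.W_7d29a1_PL

variable {d : ℕ} {ρ : Measure ℝ} {β : ℝ}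

/-- A bound of `j` from a bound of `2 ^ j`. -/
lemma j_le8 {j : ℕ} {y : ℝ} (h : (2 : ℝ) ^ j ≤ y) : j * Real.log 2 ≤ Real.log y := by
  have h1 := Real.log_le_log (by positivity) h
  rwa [Real.log_pow] at h1

/-- A level at which the random fluctuation is large is cheap. -/
lemma cheap8 {h : Vec d} {m : ℕ → ℕ} {l k B Λ j : ℕ} {C : ℝ} (hC : 1 ≤ C)
    (hlo : ∀ l k : ℕ, k < m l → fM ρ β h k < 2 ^ l) (hml : 1 ≤ m l) (hk : k ≤ B * m l)
    (hΛ : (C * B + 1) * Real.exp C ≤ Λ)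
    (hj : ∀ (T : ℕ) (Φ : ℝ), C * k * Real.exp (C * j) ≤ T →
      (∀ i : ℕ, i ≤ T → En ρ β h i ≤ Φ ∧ Fn ρ β h i ≤ Φ) → 2 ^ (j + 1) * 2 ^ l ≤ Φ) :
    (m (l + j + 1) : ℝ) ≤ C * k * Real.exp (C * j) + 1 ∧
      m (l + j + 1) ≤ Λ ^ (j + 1) * m l := by
  have hml' : (1 : ℝ) ≤ m l := by exact_mod_cast hml
  have hC0 : 0 ≤ C := by linarith
  have hk0 : (0 : ℝ) ≤ k := Nat.cast_nonneg _
  have hB0 : (0 : ℝ) ≤ B := Nat.cast_nonneg _
  have hpos : 0 ≤ C * k * Real.exp (C * j) := by positivity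
  obtain ⟨T, hT⟩ : ∃ T : ℕ, T = ⌈C * k * Real.exp (C * j)⌉₊ := ⟨_, rfl⟩
  have hT1 : C * k * Real.exp (C * j) ≤ T := by rw [hT]; exact Nat.le_ceil _
  have hT2 : (T : ℝ) < C * k * Real.exp (C * j) + 1 := by
    rw [hT]
    exact Nat.ceil_lt_add_one hpos
  have h1 : m (l + j + 1) ≤ T := by
    by_contra hcon
    rw [not_le] at hcon
    obtain ⟨i₀, hi₀, hmax⟩ := Finset.exists_max_image (Finset.range (T + 1))
      (fun i => fM ρ β h i) ⟨0, Finset.mem_range.2 (by omega)⟩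
    have h2 := hj T (fM ρ β h i₀) hT1 fun i hi => by
      have h3 := hmax i (Finset.mem_range.2 (by omega))
      unfold fM at h3
      exact ⟨(le_max_left _ _).trans h3, (le_max_right _ _).trans h3⟩
    have h4 := hlo (l + j + 1) i₀ (by
      have := Finset.mem_range.1 hi₀
      omega)
    have h5 : (2 : ℝ) ^ (l + j + 1) = 2 ^ (j + 1) * 2 ^ l := by
      rw [← pow_add]
      congr 1
      omega
    rw [h5] at h4
    linarith
  have h1' : (m (l + j + 1) : ℝ) ≤ T := by exact_mod_cast h1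
  refine ⟨h1'.trans hT2.le, ?_⟩
  have h6 : (k : ℝ) ≤ B * m l := by exact_mod_cast hk
  have h7 : C * k * Real.exp (C * j) + 1 ≤ (C * B + 1) * Real.exp (C * j) * m l := by
    have e1 : C * k * Real.exp (C * j) ≤ C * (B * m l) * Real.exp (C * j) :=
      mul_le_mul_of_nonneg_right (mul_le_mul_of_nonneg_left h6 hC0) (Real.exp_pos _).le
    have e2 : (1 : ℝ) ≤ Real.exp (C * j) * m l := by
      have e3 : (1 : ℝ) ≤ Real.exp (C * j) := Real.one_le_exp (by positivity)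
      nlinarith
    nlinarith
  have h8 : (C * B + 1) * Real.exp (C * j) ≤ (Λ : ℝ) ^ (j + 1) := by
    have e0 : (1 : ℝ) ≤ C * B + 1 := by
      have : 0 ≤ C * B := by positivity
      linarith
    have e1 : ((C * B + 1) * Real.exp C) ^ (j + 1) ≤ (Λ : ℝ) ^ (j + 1) :=
      pow_le_pow_left₀ (by positivity) hΛ _
    refine le_trans ?_ e1
    rw [mul_pow, ← Real.exp_nat_mul]
    refine mul_le_mul (le_self_pow₀ e0 (by omega)) (Real.exp_le_exp.2 ?_) (Real.exp_pos _).le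
      (by positivity)
    push_cast
    nlinarith
  have h9 : (m (l + j + 1) : ℝ) ≤ (Λ : ℝ) ^ (j + 1) * m l :=
    (h1'.trans hT2.le).trans (h7.trans (mul_le_mul_of_nonneg_right h8 (by linarith)))
  exact_mod_cast h9

/-- The usage of a level. -/
lemma use8 {h : Vec d} {n H : ℕ} {x C₁ C A : ℝ}
    (hU : (1 - 1 / 10) * x * (n - H) ≤
      2 * x * (∑ t ∈ Finset.range n, us ρ β h n t (Lk ρ β h n H 0 x (1 / 10) 0)) +
      H * (En ρ β h n + C * (H + 1) + C * Real.sqrt ((n + 1) * (n : ℝ) ^ (1 / 16 : ℝ))) +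
      C₁ * n * Real.log (2 * H + 1)) (hC : 0 ≤ C) (hC₁ : 0 ≤ C₁) (hn : 1 ≤ n)
    (hA : A = 200 * (C₁ + 1)) (hx : A * Real.log n < 2 * x) (hx1 : 1 ≤ x)
    (hE : En ρ β h n ≤ (n : ℝ) ^ (1 / 16 : ℝ))
    (hH : (H : ℝ) ≤ (n : ℝ) ^ (1 / 4 : ℝ)) (hH1 : 2 * (n : ℝ) ^ (1 / 4 : ℝ) + 1 ≤ n)
    (hH2 : 200 * (n : ℝ) ^ (1 / 4 : ℝ) ≤ n)
    (hbig : 200 * (1 + 4 * C) ≤ (n : ℝ) ^ (1 / 8 : ℝ)) :
    4 / 10 ≤ (∑ t ∈ Finset.range n, us ρ β h n t (Lk ρ β h n H 0 x (1 / 10) 0)) / n := by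
  obtain ⟨u, hu⟩ : ∃ u : ℝ, u = ∑ t ∈ Finset.range n, us ρ β h n t
    (Lk ρ β h n H 0 x (1 / 10) 0) := ⟨_, rfl⟩
  rw [← hu] at hU ⊢
  have hn' : (1 : ℝ) ≤ n := by exact_mod_cast hn
  have hn0 : (0 : ℝ) < n := by linarith
  have hH0 : (0 : ℝ) ≤ H := Nat.cast_nonneg _
  have hl : 0 ≤ Real.log n := Real.log_nonneg hn'
  have p0 : ∀ a : ℝ, 0 < (n : ℝ) ^ a := fun a => Real.rpow_pos_of_pos hn0 a
  have pm : ∀ a b : ℝ, a ≤ b → (n : ℝ) ^ a ≤ (n : ℝ) ^ b := fun a b hab =>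
    Real.rpow_le_rpow_of_exponent_le hn' hab
  have p1 : ∀ a : ℝ, 0 ≤ a → 1 ≤ (n : ℝ) ^ a := fun a ha => Real.one_le_rpow hn' ha
  -- the second term
  have t1 : Real.sqrt ((n + 1) * (n : ℝ) ^ (1 / 16 : ℝ)) ≤ 2 * (n : ℝ) ^ (5 / 8 : ℝ) := by
    rw [Real.sqrt_le_left (by positivity)]
    have e1 : (2 * (n : ℝ) ^ (5 / 8 : ℝ)) ^ 2 = 4 * (n : ℝ) ^ (5 / 4 : ℝ) := by
      have e0 : ((n : ℝ) ^ (5 / 8 : ℝ)) ^ 2 = (n : ℝ) ^ (5 / 4 : ℝ) := by
        rw [← Real.rpow_natCast, ← Real.rpow_mul hn0.le]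
        norm_num
      rw [mul_pow, e0]
      norm_num
    have e2 : (n : ℝ) * (n : ℝ) ^ (1 / 16 : ℝ) = (n : ℝ) ^ (17 / 16 : ℝ) := by
      rw [← Real.rpow_one_add' hn0.le (by norm_num)]
      norm_num
    have e3 := pm (17 / 16) (5 / 4) (by norm_num)
    have e4 := pm (1 / 16) (5 / 4) (by norm_num)
    rw [e1]
    have e5 : ((n : ℝ) + 1) * (n : ℝ) ^ (1 / 16 : ℝ) =
        (n : ℝ) ^ (17 / 16 : ℝ) + (n : ℝ) ^ (1 / 16 : ℝ) := by
      rw [add_mul, e2, one_mul]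
    rw [e5]
    have := p0 (5 / 4)
    linarith
  have t2 : En ρ β h n + C * (H + 1) + C * Real.sqrt ((n + 1) * (n : ℝ) ^ (1 / 16 : ℝ)) ≤
      (1 + 4 * C) * (n : ℝ) ^ (5 / 8 : ℝ) := by
    have e1 : En ρ β h n ≤ (n : ℝ) ^ (5 / 8 : ℝ) := hE.trans (pm _ _ (by norm_num))
    have e2 : (H : ℝ) + 1 ≤ 2 * (n : ℝ) ^ (5 / 8 : ℝ) := by
      have e3 := pm (1 / 4) (5 / 8) (by norm_num)
      have e4 := p1 (5 / 8) (by norm_num)
      linarith
    have e3 := mul_le_mul_of_nonneg_left e2 hC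
    have e4 := mul_le_mul_of_nonneg_left t1 hC
    nlinarith
  have t3 : (H : ℝ) * (En ρ β h n + C * (H + 1) +
      C * Real.sqrt ((n + 1) * (n : ℝ) ^ (1 / 16 : ℝ))) ≤ n / 200 := by
    have e0 : 0 ≤ (1 + 4 * C) * (n : ℝ) ^ (5 / 8 : ℝ) := by
      have := p0 (5 / 8)
      positivity
    have e1 := mul_le_mul_of_nonneg_left t2 hH0
    have e2 := mul_le_mul_of_nonneg_right hH e0
    have e3 : (n : ℝ) ^ (1 / 4 : ℝ) * ((1 + 4 * C) * (n : ℝ) ^ (5 / 8 : ℝ)) =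
        (1 + 4 * C) * (n : ℝ) ^ (7 / 8 : ℝ) := by
      have : (n : ℝ) ^ (1 / 4 : ℝ) * (n : ℝ) ^ (5 / 8 : ℝ) = (n : ℝ) ^ (7 / 8 : ℝ) := by
        rw [← Real.rpow_add hn0]
        norm_num
      rw [← this]
      ring
    have e4 : (n : ℝ) ^ (1 / 8 : ℝ) * (n : ℝ) ^ (7 / 8 : ℝ) = n := by
      rw [← Real.rpow_add hn0]
      norm_num
    have e5 := mul_le_mul_of_nonneg_right hbig (p0 (7 / 8)).le
    rw [e4] at e5
    have e6 : 200 * ((1 + 4 * C) * (n : ℝ) ^ (7 / 8 : ℝ)) =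
        200 * (1 + 4 * C) * (n : ℝ) ^ (7 / 8 : ℝ) := by ring
    rw [e3] at e2
    linarith
  -- the third term
  have t4 : C₁ * n * Real.log (2 * H + 1) ≤ n * x / 100 := by
    have e1 : Real.log (2 * H + 1) ≤ Real.log n :=
      Real.log_le_log (by positivity) (by linarith)
    have e2 : C₁ * n * Real.log (2 * H + 1) ≤ C₁ * n * Real.log n :=
      mul_le_mul_of_nonneg_left e1 (by positivity)
    have e3 : C₁ * Real.log n ≤ x / 100 := by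
      rw [hA] at hx
      nlinarith
    nlinarith
  have t5 : (H : ℝ) ≤ n / 200 := by linarith
  rw [le_div_iff₀ hn0]
  have t6 : (1 - 1 / 10) * x * (n - H) ≥ (9 / 10) * x * (n * (199 / 200)) := by
    have : (n : ℝ) * (199 / 200) ≤ n - H := by linarith
    have e := mul_le_mul_of_nonneg_left this (by linarith : (0 : ℝ) ≤ (9 / 10) * x)
    linarith
  have t7 : (n : ℝ) / 200 ≤ n * x / 200 := by
    have := mul_le_mul_of_nonneg_left hx1 hn0.le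
    linarith
  have t8 : (9 / 10) * x * (n * (199 / 200)) ≤ 2 * x * u + n * x / 200 + n * x / 100 := by
    linarith
  have t9 : x * (n * (8 / 10)) ≤ x * (2 * u) := by nlinarith
  have t10 := le_of_mul_le_mul_left t9 (by linarith)
  linarith

end Pool.Agent.W_7d29a1_PL.C8
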