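import Pool.Agent.W_7d29a1_PL.DefsPL
import Pool.Agent.W_7d29a1_SP.Bas15

/-!
Theorem PL, the core at one tilt: from a system of levels, the usage of the luck, the additivity of
the prices and the budget.
-/

namespace Pool.Agent.W_7d29a1_PL

open MeasureTheory ProbabilityTheory Filter Topology Pool.Agent.W_MP_7d29a1_pr
  Pool.Agent.W_7d29a1_h46 Pool.Agent.W_7d29a1_h46u Pool.Agent.W_7d29a1_D2.B35
  Pool.Agent.W_7d29a1_Q29 Pool.Agent.W_7d29a1_R34 Pool.Agent.W_7d29a1_SP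

/-- LEV: a system of levels which fills the logarithmic scale (the literal of helper16). -/
def LevP18 (d : ℕ) (ρ : Measure ℝ) (β : ℝ) : Prop := ∀ (c₀ ε : ℝ) (a B Λ : ℕ), 0 < c₀ → 0 < ε →
  1 ≤ a → ∃ c₁ : ℝ, 0 < c₁ ∧ ∀ (c A : ℝ), 0 < c → c ≤ c₁ → 0 < A → ∀ h : Vec d,
    Loc1 ρ β h c₀ → ∃ n₀ : ℕ, ∀ n : ℕ, n₀ ≤ n →
      (∀ k : ℕ, k ≤ 4 * n → Va ρ β h k ≤ (n : ℝ) ^ c ∧ En ρ β h k ≤ (n : ℝ) ^ c) →
      (∃ k : ℕ, k ^ 8 ≤ n ∧ A * Real.log n ≤ fM ρ β h k) →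
      ∃ (m : ℕ → ℕ) (I : Finset ℕ), Sy ρ β h n a B Λ ε m I ∧
        (∀ p ∈ I, A / 2 * Real.log n ≤ 2 ^ p) ∧ (I.card : ℝ) ≤ 4 * c * Real.log n ∧
        Real.log n ≤ 30 * a * ∑ p ∈ I, Dl n m p

namespace C18

variable {d : ℕ} {ρ : Measure ℝ} {β : ℝ} {h : Vec d}

lemma X_dep18 (n : ℕ) : DependsOn (fun η : Env d => X β h η n) {p | 1 ≤ p.1 ∧ p.1 ≤ n} := by
  intro η η' hη
  have h1 : Z β h η n = Z β h η' n := dependsOn_Z β h n hη
  show Real.log (Z β h η n) = Real.log (Z β h η' n)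
  rw [h1]

lemma X_eq18 {η η' : Env d} (hη : ∀ p : ℕ × Site d, 1 ≤ p.1 → η p = η' p) (n : ℕ) :
    X β h η n = X β h η' n :=
  X_dep18 n fun p hp => hη p hp.1

lemma LgN_meas18 (H S : ℕ) (x κ z : ℝ) (N : ℕ) : MeasurableSet (LgN ρ β h H S x κ z N) := by
  have e : LgN ρ β h H S x κ z N = ⋃ s ∈ Finset.range (S + 1),
      {η | ((N * H + s : ℕ) : ℝ) * lam ρ β h + κ * N * x - z ≤ X β h η (N * H + s)} := by
    ext η
    simp only [LgN, Set.mem_ofPred_eq, Set.mem_iUnion, exists_prop, Finset.mem_range,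
      Nat.lt_succ_iff]
  rw [e]
  exact Finset.measurableSet_biUnion _ fun s _ =>
    measurableSet_le measurable_const (measurable_X β h _)

lemma Lg0_meas18 (H S : ℕ) (x κ z : ℝ) : MeasurableSet (Lg0 ρ β h H S x κ z) := by
  have e : Lg0 ρ β h H S x κ z = ⋃ s ∈ Finset.range (S + 1),
      {η | ((H + s : ℕ) : ℝ) * lam ρ β h - (1 - κ) * x - z ≤ X β h η (H + s)} := by
    ext η
    simp only [Lg0, Set.mem_ofPred_eq, Set.mem_iUnion, exists_prop, Finset.mem_range,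
      Nat.lt_succ_iff]
  rw [e]
  exact Finset.measurableSet_biUnion _ fun s _ =>
    measurableSet_le measurable_const (measurable_X β h _)

lemma Lk_meas18 (n H S : ℕ) (x κ z : ℝ) : MeasurableSet (Lk ρ β h n H S x κ z) := by
  have e : Lk ρ β h n H S x κ z = Lg0 ρ β h H S x κ z ∪ ⋃ (N : ℕ) (_ : 2 ≤ N ∧ N * H ≤ n),
      LgN ρ β h H S x κ z N := by
    ext η
    simp only [Lk, Set.mem_union, Set.mem_ofPred_eq, Set.mem_iUnion, exists_prop, and_assoc]
  rw [e]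
  exact (Lg0_meas18 H S x κ z).union (MeasurableSet.iUnion fun N => MeasurableSet.iUnion fun _ =>
    LgN_meas18 H S x κ z N)

lemma Lk_dep18 (n H S : ℕ) (x κ z : ℝ) :
    DependsOn (fun η => η ∈ Lk ρ β h n H S x κ z) {q | 1 ≤ q.1} := by
  intro η η' hη
  have h1 : ∀ T, X β h η T = X β h η' T := fun T => X_eq18 (fun p hp => hη p hp) T
  show (η ∈ Lk ρ β h n H S x κ z) = (η' ∈ Lk ρ β h n H S x κ z)
  simp only [Lk, Lg0, LgN, Set.mem_union, Set.mem_ofPred_eq, h1]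

lemma sub18 {n a B Λ : ℕ} {ε : ℝ} {m : ℕ → ℕ} {I J : Finset ℕ} (hS : Sy ρ β h n a B Λ ε m I)
    (hJ : J ⊆ I) : Sy ρ β h n a B Λ ε m J :=
  ⟨hS.lo, hS.hi, fun p hp => hS.big p (hJ hp), fun p hp => hS.sm p (hJ hp),
    fun p hp => hS.nc p (hJ hp), fun p hp q hq => hS.sp p (hJ hp) q (hJ hq),
    fun p hp => hS.fs p (hJ hp)⟩

lemma mono18 {n a B Λ : ℕ} {ε : ℝ} {m : ℕ → ℕ} {I : Finset ℕ} (hS : Sy ρ β h n a B Λ ε m I)
    (p : ℕ) : m p ≤ m (p + 1) := by
  by_contra hc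
  have h1 := hS.lo p (m (p + 1)) (not_le.1 hc)
  have h2 := hS.hi (p + 1)
  have h3 : (2 : ℝ) ^ p ≤ 2 ^ (p + 1) := pow_le_pow_right₀ (by norm_num) (Nat.le_succ p)
  linarith

lemma Dl_nonneg18 {n a B Λ : ℕ} {ε : ℝ} {m : ℕ → ℕ} {I : Finset ℕ}
    (hS : Sy ρ β h n a B Λ ε m I) {p : ℕ} (hp : p ∈ I) : 0 ≤ Dl n m p := by
  unfold Dl
  have h1 := hS.sm p hp
  rcases Nat.eq_zero_or_pos (m p) with h0 | h0
  · rw [h0]
    simp
  · have h2 : m p ≤ n := (Nat.le_self_pow (by norm_num) _).trans h1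
    have h3 : m p ≤ min (m (p + 1)) n := le_min (mono18 hS p) h2
    refine Real.log_nonneg ?_
    rw [le_div_iff₀ (by exact_mod_cast h0), one_mul]
    exact_mod_cast h3

end C18

open C18

theorem corH18 {d : ℕ} {ρ : Measure ℝ} [IsProbabilityMeasure ρ] {β : ℝ} (hLoc : LocE d ρ β)
    (hU : UseP d ρ β) (hA : AddP d ρ β) (hL : LevP18 d ρ β) : CorP d ρ β := by
  intro g C₀ hg hC₀
  obtain ⟨c₀, hc₀, hLoc⟩ := hLoc g hg
  obtain ⟨a, B, Λ, ε, cA, CA, ha, hε, hcA, hCA, hA⟩ := hA c₀ (1 / 20) hc₀ (by norm_num)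
    (by norm_num)
  obtain ⟨C₁, hC₁, hU⟩ := hU
  obtain ⟨c₁, hc₁, hL⟩ := hL c₀ ε a B Λ hc₀ hε ha
  have ha0 : (0 : ℝ) < a := by exact_mod_cast ha
  set K : ℝ := 1 + 4 * C₀ * (CA + 1) + CA with hK
  have hK1 : 1 ≤ K := by
    have : 0 ≤ 4 * C₀ * (CA + 1) := by positivity
    linarith
  set c : ℝ := min c₁ (min (1 / 16) (cA / (600 * a * K))) with hc
  have hc0 : 0 < c := by
    have : 0 < cA / (600 * a * K) := by positivity
    exact lt_min hc₁ (lt_min (by norm_num) this)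
  have hcc1 : c ≤ c₁ := min_le_left _ _
  have hcc2 : c ≤ 1 / 16 := (min_le_right _ _).trans (min_le_left _ _)
  have hcc3 : c ≤ cA / (600 * a * K) := (min_le_right _ _).trans (min_le_right _ _)
  refine ⟨c, 200 * (C₁ + 1), hc0, fun h hgap => ?_⟩
  have hloc : Loc1 ρ β h c₀ := hLoc h hgap
  obtain ⟨n₀, hL⟩ := hL c (200 * (C₁ + 1)) hc0 hcc1 (by positivity) h hloc
  obtain ⟨C, hC, hU⟩ := hU h
  have hbig : ∀ᶠ n : ℕ in atTop, 100 * (1 + 4 * C) ≤ (n : ℝ) ^ (7 / 32 : ℝ) :=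
    ((tendsto_rpow_atTop (by norm_num)).comp tendsto_natCast_atTop_atTop).eventually_ge_atTop _
  obtain ⟨n₁, hn₁⟩ := eventually_atTop.1 hbig
  refine ⟨max n₀ (max n₁ 1000), fun n hn hVE hex hBd => ?_⟩
  have hnn0 : n₀ ≤ n := (le_max_left _ _).trans hn
  have hnn1 : n₁ ≤ n := (le_max_left _ _).trans ((le_max_right _ _).trans hn)
  have hnn2 : 1000 ≤ n := (le_max_right _ _).trans ((le_max_right _ _).trans hn)
  have hN : (1000 : ℝ) ≤ n := by exact_mod_cast hnn2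
  have hN0 : (0 : ℝ) < n := by linarith
  have hN1 : (1 : ℝ) ≤ n := by linarith
  have hlog : 0 < Real.log n := Real.log_pos (by linarith)
  obtain ⟨m, I, hS, hx, hI, hD⟩ := hL n hnn0 hVE hex
  have hpc : (n : ℝ) ^ c ≤ (n : ℝ) ^ (1 / 16 : ℝ) := Real.rpow_le_rpow_of_exponent_le hN1 hcc2
  have hVE' : ∀ k : ℕ, k ≤ 4 * n → Va ρ β h k ≤ (n : ℝ) ^ (1 / 16 : ℝ) ∧
      En ρ β h k ≤ (n : ℝ) ^ (1 / 16 : ℝ) := fun k hk =>
    ⟨(hVE k hk).1.trans hpc, (hVE k hk).2.trans hpc⟩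
  -- the levels with a nontrivial scale
  classical
  set I' : Finset ℕ := I.filter fun p => 1 ≤ m p - 2 * m (p - a) with hI'
  have hII : I' ⊆ I := Finset.filter_subset _ _
  have hdrop : ∀ p ∈ I, p ∉ I' → Dl n m p ≤ CA / cA := by
    intro p hp hp'
    have hH : m p - 2 * m (p - a) = 0 := by
      by_contra h0
      exact hp' (Finset.mem_filter.2 ⟨hp, Nat.one_le_iff_ne_zero.2 h0⟩)
    have h1 := hA h hloc n m {p} (sub18 hS (Finset.singleton_subset_iff.2 hp)) hVE'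
    have h2 : (⋂ q ∈ ({p} : Finset ℕ), Lk ρ β h n (m q - 2 * m (q - a)) 0 (2 ^ q) (1 / 20) 0) =
        Set.univ := by
      refine Set.eq_univ_of_forall fun η => ?_
      simp only [Finset.mem_singleton, Set.iInter_iInter_eq_left]
      left
      refine ⟨0, le_rfl, ?_⟩
      have h3 : X β h η 0 = 0 := by
        unfold X
        rw [Z_zero, Real.log_one]
      rw [hH]
      simp only [add_zero, h3, Nat.cast_zero, zero_mul]
      have : (0 : ℝ) < 2 ^ p := by positivity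
      nlinarith
    rw [h2] at h1
    simp only [probReal_univ, Finset.card_singleton, Nat.cast_one, mul_one,
      Finset.sum_singleton] at h1
    have h4 : 0 ≤ CA - cA * Dl n m p := Real.one_le_exp_iff.1 h1
    rw [le_div_iff₀ hcA]
    linarith
  have hsum : ∑ p ∈ I, Dl n m p ≤ ∑ p ∈ I', Dl n m p + CA / cA * I.card := by
    rw [← Finset.sum_sdiff hII, add_comm]
    refine add_le_add le_rfl ?_
    have h1 : ∑ p ∈ I \ I', Dl n m p ≤ ∑ _p ∈ I \ I', CA / cA :=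
      Finset.sum_le_sum fun p hp => hdrop p (Finset.mem_sdiff.1 hp).1 (Finset.mem_sdiff.1 hp).2
    rw [Finset.sum_const, nsmul_eq_mul] at h1
    have h2 : ((I \ I').card : ℝ) ≤ I.card := by
      exact_mod_cast Finset.card_le_card Finset.sdiff_subset
    have h3 : 0 ≤ CA / cA := by positivity
    nlinarith
  -- the usage
  have huse : ∀ p ∈ I', 4 / 10 ≤ (∑ t ∈ Finset.range n, us ρ β h n t
      (Lk ρ β h n (m p - 2 * m (p - a)) 0 (2 ^ p) (1 / 20) 0)) / n := by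
    intro p hp
    have hpI := hII hp
    have hH1 : 1 ≤ m p - 2 * m (p - a) := (Finset.mem_filter.1 hp).2
    set H := m p - 2 * m (p - a) with hHd
    set x : ℝ := 2 ^ p with hxd
    have hx1 : 1 ≤ x := one_le_pow₀ (by norm_num)
    have hHm : H ≤ m p := Nat.sub_le _ _
    have hH4 : H ^ 4 ≤ n := (Nat.pow_le_pow_left hHm 4).trans (hS.sm p hpI)
    have hHn : H ≤ n := (Nat.le_self_pow (by norm_num) _).trans hH4
    have hHr : (H : ℝ) ≤ (n : ℝ) ^ (1 / 4 : ℝ) := by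
      have h1 : ((H : ℝ) ^ (4 : ℕ)) ≤ n := by exact_mod_cast hH4
      have h2 : ((H : ℝ) ^ (4 : ℕ)) ^ (1 / 4 : ℝ) ≤ (n : ℝ) ^ (1 / 4 : ℝ) :=
        Real.rpow_le_rpow (by positivity) h1 (by norm_num)
      have h3 : ((H : ℝ) ^ (4 : ℕ)) ^ (1 / 4 : ℝ) = H := by
        rw [← Real.rpow_natCast, ← Real.rpow_mul (by positivity)]
        norm_num
      rwa [h3] at h2
    have h1 := hU n H x (1 / 20) ((n : ℝ) ^ c) hH1 hHn (by linarith) (by norm_num) (by norm_num)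
      (fun k hk => (hVE k (by omega)).1)
    set Us := ∑ t ∈ Finset.range n, us ρ β h n t (Lk ρ β h n H 0 x (1 / 20) 0) with hUs
    -- sizes
    have hq0 : (0 : ℝ) ≤ (n : ℝ) ^ (1 / 4 : ℝ) := by positivity
    have hp1 : (n : ℝ) ^ (1 / 16 : ℝ) ≤ (n : ℝ) ^ (17 / 32 : ℝ) :=
      Real.rpow_le_rpow_of_exponent_le hN1 (by norm_num)
    have hp2 : (n : ℝ) ^ (1 / 4 : ℝ) ≤ (n : ℝ) ^ (17 / 32 : ℝ) :=
      Real.rpow_le_rpow_of_exponent_le hN1 (by norm_num)
    have hp3 : (1 : ℝ) ≤ (n : ℝ) ^ (17 / 32 : ℝ) := Real.one_le_rpow hN1 (by norm_num)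
    have hsq : Real.sqrt ((n + 1) * (n : ℝ) ^ c) ≤ 2 * (n : ℝ) ^ (17 / 32 : ℝ) := by
      rw [Real.sqrt_le_left (by positivity)]
      have h2 : (n : ℝ) ^ c ≤ (n : ℝ) ^ (1 / 16 : ℝ) := hpc
      have h3 : (2 * (n : ℝ) ^ (17 / 32 : ℝ)) ^ 2 = 4 * (n * (n : ℝ) ^ (1 / 16 : ℝ)) := by
        rw [mul_pow, ← Real.rpow_natCast, ← Real.rpow_natCast, ← Real.rpow_mul hN0.le]
        have h4 : (n : ℝ) * (n : ℝ) ^ (1 / 16 : ℝ) = (n : ℝ) ^ (17 / 32 * ((2 : ℕ) : ℝ)) := by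
          have h5 : (n : ℝ) * (n : ℝ) ^ (1 / 16 : ℝ) = (n : ℝ) ^ (1 + 1 / 16 : ℝ) := by
            rw [Real.rpow_add hN0, Real.rpow_one]
          rw [h5]
          norm_num
        rw [h4]
        norm_num
      rw [h3]
      have h6 : 0 ≤ (n : ℝ) ^ (1 / 16 : ℝ) := by positivity
      have h7 : 0 ≤ (n : ℝ) ^ c := by positivity
      calc ((n : ℝ) + 1) * (n : ℝ) ^ c ≤ (n + n) * (n : ℝ) ^ (1 / 16 : ℝ) := by
            refine mul_le_mul (by linarith) h2 h7 (by positivity)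
        _ ≤ 4 * (n * (n : ℝ) ^ (1 / 16 : ℝ)) := by nlinarith
    have hE := (hVE' n (by omega)).2
    have hE0 : En ρ β h n ≤ (n : ℝ) ^ (17 / 32 : ℝ) := hE.trans hp1
    have hin : En ρ β h n + C * (H + 1) + C * Real.sqrt ((n + 1) * (n : ℝ) ^ c) ≤
        (1 + 4 * C) * (n : ℝ) ^ (17 / 32 : ℝ) := by
      have h2 : (H : ℝ) + 1 ≤ 2 * (n : ℝ) ^ (17 / 32 : ℝ) := by linarith
      have h3 := mul_le_mul_of_nonneg_left h2 hC
      have h4 := mul_le_mul_of_nonneg_left hsq hC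
      nlinarith
    have hin2 : (H : ℝ) * (En ρ β h n + C * (H + 1) + C * Real.sqrt ((n + 1) * (n : ℝ) ^ c)) ≤
        n / 100 := by
      have h2 : (H : ℝ) * (En ρ β h n + C * (H + 1) +
          C * Real.sqrt ((n + 1) * (n : ℝ) ^ c)) ≤
          (n : ℝ) ^ (1 / 4 : ℝ) * ((1 + 4 * C) * (n : ℝ) ^ (17 / 32 : ℝ)) := by
        have h3 : (H : ℝ) * (En ρ β h n + C * (H + 1) +
            C * Real.sqrt ((n + 1) * (n : ℝ) ^ c)) ≤
            (H : ℝ) * ((1 + 4 * C) * (n : ℝ) ^ (17 / 32 : ℝ)) :=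
          mul_le_mul_of_nonneg_left hin (by positivity)
        exact h3.trans (mul_le_mul_of_nonneg_right hHr (by positivity))
      have h4 : (n : ℝ) ^ (1 / 4 : ℝ) * ((1 + 4 * C) * (n : ℝ) ^ (17 / 32 : ℝ)) =
          (1 + 4 * C) * (n : ℝ) ^ (25 / 32 : ℝ) := by
        have h5 : (n : ℝ) ^ (25 / 32 : ℝ) = (n : ℝ) ^ (1 / 4 : ℝ) * (n : ℝ) ^ (17 / 32 : ℝ) := by
          rw [← Real.rpow_add hN0]
          norm_num
        rw [h5]
        ring
      have h6 : (n : ℝ) = (n : ℝ) ^ (7 / 32 : ℝ) * (n : ℝ) ^ (25 / 32 : ℝ) := by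
        rw [← Real.rpow_add hN0]
        norm_num
      have h7 := hn₁ n hnn1
      have h8 : 0 ≤ (n : ℝ) ^ (25 / 32 : ℝ) := by positivity
      have h9 : 100 * (1 + 4 * C) * (n : ℝ) ^ (25 / 32 : ℝ) ≤ n := by
        calc 100 * (1 + 4 * C) * (n : ℝ) ^ (25 / 32 : ℝ) ≤
              (n : ℝ) ^ (7 / 32 : ℝ) * (n : ℝ) ^ (25 / 32 : ℝ) :=
              mul_le_mul_of_nonneg_right h7 h8
          _ = n := h6.symm
      linarith
    have hH100 : (H : ℝ) ≤ n / 100 := by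
      have h2 : (n : ℝ) ^ (1 / 4 : ℝ) ≤ n / 100 := by
        have h3 : (n : ℝ) = (n : ℝ) ^ (1 / 4 : ℝ) * (n : ℝ) ^ (3 / 4 : ℝ) := by
          rw [← Real.rpow_add hN0]
          norm_num
        have h4 : (100 : ℝ) ≤ (n : ℝ) ^ (3 / 4 : ℝ) := by
          have h5 : (1000 : ℝ) ^ (3 / 4 : ℝ) ≤ (n : ℝ) ^ (3 / 4 : ℝ) :=
            Real.rpow_le_rpow (by norm_num) hN (by norm_num)
          have h6 : (100 : ℝ) ≤ (1000 : ℝ) ^ (3 / 4 : ℝ) := by
            have h7 : (1000 : ℝ) ^ (2 / 3 : ℝ) ≤ (1000 : ℝ) ^ (3 / 4 : ℝ) :=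
              Real.rpow_le_rpow_of_exponent_le (by norm_num) (by norm_num)
            have h8 : (1000 : ℝ) ^ (2 / 3 : ℝ) = 100 := by
              have h9 : (1000 : ℝ) = (10 : ℝ) ^ (3 : ℝ) := by norm_num
              rw [h9, ← Real.rpow_mul (by norm_num)]
              norm_num
            linarith
          linarith
        nlinarith
      linarith
    have hlg : Real.log (2 * (H : ℝ) + 1) ≤ Real.log n := by
      refine Real.log_le_log (by positivity) ?_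
      linarith
    have hxA : 100 * (C₁ + 1) * Real.log n ≤ x := by
      have := hx p hpI
      linarith
    have hent : C₁ * n * Real.log (2 * (H : ℝ) + 1) ≤ n * x / 100 := by
      have h2 : C₁ * Real.log (2 * (H : ℝ) + 1) ≤ (C₁ + 1) * Real.log n := by
        nlinarith
      have h3 : C₁ * Real.log (2 * (H : ℝ) + 1) ≤ x / 100 := by linarith
      have h4 := mul_le_mul_of_nonneg_left h3 hN0.le
      linarith
    have h10 : (1 - 1 / 20) * x * ((n : ℝ) - H) ≤ 2 * x * Us + n / 100 + n * x / 100 := by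
      linarith
    have h11 : (94 / 100) * x * n ≤ (1 - 1 / 20) * x * ((n : ℝ) - H) := by
      nlinarith
    have h12 : (n : ℝ) / 100 ≤ n * x / 100 := by nlinarith
    have h13 : (92 / 100) * n ≤ 2 * Us := by
      have h14 : x * ((92 / 100) * n) ≤ x * (2 * Us) := by linarith
      exact le_of_mul_le_mul_left h14 (by linarith)
    rw [le_div_iff₀ hN0]
    linarith
  -- the budget
  have hbd := hBd I' (fun p => Lk ρ β h n (m p - 2 * m (p - a)) 0 (2 ^ p) (1 / 20) 0)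
    (fun p => cA * Dl n m p) CA
    (fun p hp => ⟨Lk_meas18 _ _ _ _ _ _, Lk_dep18 _ _ _ _ _ _,
      mul_nonneg hcA.le (Dl_nonneg18 hS (hII hp))⟩) (by linarith)
    (fun J hJ => by
      have h1 := hA h hloc n m J (sub18 hS (hJ.trans hII)) hVE'
      rw [← Finset.mul_sum]
      exact h1)
  have h1 : ∑ p ∈ I', cA * Dl n m p * (1 / 10) ≤ ∑ p ∈ I', cA * Dl n m p *
      ((∑ t ∈ Finset.range n, us ρ β h n t
        (Lk ρ β h n (m p - 2 * m (p - a)) 0 (2 ^ p) (1 / 20) 0)) / n - 3 / 10) := by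
    refine Finset.sum_le_sum fun p hp => ?_
    refine mul_le_mul_of_nonneg_left ?_ (mul_nonneg hcA.le (Dl_nonneg18 hS (hII hp)))
    have := huse p hp
    linarith
  have h2 : ∑ p ∈ I', cA * Dl n m p * (1 / 10) = cA / 10 * ∑ p ∈ I', Dl n m p := by
    rw [Finset.mul_sum]
    refine Finset.sum_congr rfl fun p _ => ?_
    ring
  have hcard : ((I'.card : ℕ) : ℝ) ≤ I.card := by exact_mod_cast Finset.card_le_card hII
  set S := ∑ p ∈ I, Dl n m p with hSd
  set S' := ∑ p ∈ I', Dl n m p with hSd'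
  set L := Real.log n with hLd
  have h3 : cA / 10 * S' ≤ c * L + C₀ * (CA + 1) * I.card := by
    have h4 : C₀ * (CA + 1) * (I'.card : ℝ) ≤ C₀ * (CA + 1) * I.card :=
      mul_le_mul_of_nonneg_left hcard (by positivity)
    linarith
  have h5 : cA / 10 * S ≤ c * L + C₀ * (CA + 1) * I.card + CA / 10 * I.card := by
    have h6 : cA / 10 * S ≤ cA / 10 * (S' + CA / cA * I.card) :=
      mul_le_mul_of_nonneg_left hsum (by positivity)
    have h7 : cA / 10 * (S' + CA / cA * I.card) = cA / 10 * S' + CA / 10 * I.card := by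
      field_simp
    linarith
  have h8 : cA / 10 * S ≤ c * K * L := by
    have h9 : C₀ * (CA + 1) * (I.card : ℝ) ≤ C₀ * (CA + 1) * (4 * c * L) :=
      mul_le_mul_of_nonneg_left hI (by positivity)
    have h10 : CA / 10 * (I.card : ℝ) ≤ CA / 10 * (4 * c * L) :=
      mul_le_mul_of_nonneg_left hI (by positivity)
    have h11 : 0 ≤ CA * c * L := by positivity
    rw [hK]
    nlinarith
  have h12 : L / (30 * a) ≤ S := by
    rw [div_le_iff₀ (by positivity)]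
    linarith
  have h13 : cA / 10 * (L / (30 * a)) ≤ c * K * L :=
    (mul_le_mul_of_nonneg_left h12 (by positivity)).trans h8
  have h14 : c * K * L ≤ cA / (600 * a * K) * K * L := by
    refine mul_le_mul_of_nonneg_right (mul_le_mul_of_nonneg_right hcc3 (by linarith)) hlog.le
  have h15 : cA / (600 * a * K) * K * L = cA * L / (600 * a) := by
    have : K ≠ 0 := by positivity
    field_simp
  have h16 : cA / 10 * (L / (30 * a)) = cA * L / (300 * a) := by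
    field_simp
    norm_num
  rw [h16] at h13
  rw [h15] at h14
  have h17 : cA * L / (600 * a) < cA * L / (300 * a) := by
    have h18 : 0 < cA * L := by positivity
    rw [div_lt_div_iff₀ (by positivity) (by positivity)]
    nlinarith
  linarith

end Pool.Agent.W_7d29a1_PL
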