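import Pool.Agent.W_7d29a1_SP.Cnt79
import Pool.Agent.W_7d29a1_SP.Bas15

/-!
Ottaviani's inequality for the free energy: a lucky horizon is pushed to a fixed later horizon;
the random fluctuation is almost subadditive (helper7).
-/

set_option autoImplicit false

namespace Pool.Agent.W_7d29a1_PL

open MeasureTheory ProbabilityTheory Filter Topology Pool.Agent.W_MP_7d29a1_pr
  Pool.Agent.W_7d29a1_h46 Pool.Agent.W_7d29a1_h46u Pool.Agent.W_7d29a1_D2.B35
  Pool.Agent.W_7d29a1_Q29 Pool.Agent.W_7d29a1_R34 Pool.Agent.W_7d29a1_SP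
  Pool.Agent.W_7d29a1_SP.C79

variable {d : ℕ} {ρ : Measure ℝ}

/-- The weighted deviation of the future free energy. -/
noncomputable def dv7 (ρ : Measure ℝ) (β : ℝ) (h : Vec d) (t k : ℕ) (η : Env d) : ℝ :=
  ∑ s : Fin t → Step d, FreeU_p β h t s η * |X β h (sh t (pos s t) η) k - A ρ β h k|

lemma dv7_nn (hd : 0 < d) (β : ℝ) (h : Vec d) (t k : ℕ) (η : Env d) : 0 ≤ dv7 ρ β h t k η :=
  Finset.sum_nonneg fun s _ => mul_nonneg (FreeU_nonneg hd β h t s η) (abs_nonneg _)

/-- The free energy from the first part and the deviation of the second part. -/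
lemma pt7 (hd : 0 < d) (β : ℝ) (h : Vec d) (t k : ℕ) (η : Env d) :
    X β h η t + A ρ β h k - dv7 ρ β h t k η ≤ X β h η (t + k) := by
  have h1 := FreeU_pt hd β h t k η
  have h2 : ∑ s : Fin t → Step d, FreeU_p β h t s η * (A ρ β h k -
      |X β h (sh t (pos s t) η) k - A ρ β h k|) ≤
      ∑ s : Fin t → Step d, FreeU_p β h t s η * X β h (sh t (pos s t) η) k := by
    refine Finset.sum_le_sum fun s _ => mul_le_mul_of_nonneg_left ?_ (FreeU_nonneg hd β h t s η)
    have h3 := neg_abs_le (X β h (sh t (pos s t) η) k - A ρ β h k)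
    linarith
  have h3 : ∑ s : Fin t → Step d, FreeU_p β h t s η * (A ρ β h k -
      |X β h (sh t (pos s t) η) k - A ρ β h k|) = A ρ β h k - dv7 ρ β h t k η := by
    simp only [mul_sub, Finset.sum_sub_distrib]
    rw [← Finset.sum_mul, FreeU_sum hd, one_mul]
    rfl
  linarith

/-- The mean of the weighted deviation on an event of the past. -/
lemma dvI7 [IsProbabilityMeasure ρ] (hd : 0 < d) (hρ : EM ρ) (β : ℝ) (h : Vec d) (t k : ℕ)
    {B : Set (Env d)} (hB : MeasurableSet B) (hdep : DependsOn (fun η => η ∈ B) (Pa d t)) :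
    Integrable (fun η => one B η * dv7 ρ β h t k η) (law d ρ) ∧
    ∫ η, one B η * dv7 ρ β h t k η ∂(law d ρ) = (law d ρ).real B * Fn ρ β h k := by
  have hX : Integrable (fun η => X β h η k) (law d ρ) := (concU hd hρ β h k).1
  have hXa : Integrable (fun η => |X β h η k - A ρ β h k|) (law d ρ) :=
    (hX.sub (integrable_const _)).abs
  have hXs : ∀ y : Site d, Integrable (fun η => |X β h (sh t y η) k - A ρ β h k|) (law d ρ) :=
    fun y => (mp_sh t y).integrable_comp_of_integrable hXa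
  set w : (Fin t → Step d) → Env d → ℝ := fun s η => one B η * FreeU_p β h t s η with hw
  have hwm : ∀ s, Measurable (w s) := fun s => (one_meas hB).mul (FreeU_meas β h t s)
  have hwn : ∀ s η, ‖w s η‖ ≤ 1 := fun s η => by
    have h1 := one_abs B η
    have h2 : ‖FreeU_p β h t s η‖ ≤ 1 := by
      rw [Real.norm_eq_abs, abs_of_nonneg (FreeU_nonneg hd β h t s η)]
      exact FreeU_le_one hd β h t s η
    show ‖one B η * FreeU_p β h t s η‖ ≤ 1
    rw [norm_mul]
    exact mul_le_one₀ h1 (norm_nonneg _) h2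
  have i1 : ∀ s, Integrable (w s) (law d ρ) := fun s =>
    (integrable_const (1 : ℝ)).mono' (hwm s).aestronglyMeasurable
      (Eventually.of_forall fun η => hwn s η)
  have i2 : ∀ s, Integrable (fun η => w s η * |X β h (sh t (pos s t) η) k - A ρ β h k|)
      (law d ρ) := fun s =>
    (hXs (pos s t)).bdd_mul (c := 1) (hwm s).aestronglyMeasurable
      (Eventually.of_forall fun η => hwn s η)
  have e1 : ∀ s, ∫ η, w s η * |X β h (sh t (pos s t) η) k - A ρ β h k| ∂(law d ρ) =
      (∫ η, w s η ∂(law d ρ)) * Fn ρ β h k := by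
    intro s
    have h1 := integral_indep (ρ := ρ) (Pa d t) (F := w s)
      (G := fun η => |X β h (sh t (pos s t) η) k - A ρ β h k|) (hwm s)
      ((((measurable_X β h k).comp (measurable_sh t (pos s t))).sub measurable_const).abs)
      (fun η η' hη => by
        have h2 := one_dep hdep hη
        have h3 := FreeU_dep β h t s hη
        show one B η * FreeU_p β h t s η = one B η' * FreeU_p β h t s η'
        rw [h2, h3]) (fun η η' hη => by
        have h2 := FreeU_dep2 β h t k (pos s t) hη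
        show |X β h (sh t (pos s t) η) k - A ρ β h k| = |X β h (sh t (pos s t) η') k - A ρ β h k|
        rw [show X β h (sh t (pos s t) η) k = X β h (sh t (pos s t) η') k from h2])
    have h2 := integral_sh (ρ := ρ) t (pos s t) (F := fun η => |X β h η k - A ρ β h k|)
      (((measurable_X β h k).sub measurable_const).abs)
    rw [h1]
    congr 1
  have e0 : ∀ η, one B η * dv7 ρ β h t k η =
      ∑ s : Fin t → Step d, w s η * |X β h (sh t (pos s t) η) k - A ρ β h k| := by
    intro η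
    unfold dv7
    rw [Finset.mul_sum]
    refine Finset.sum_congr rfl fun s _ => ?_
    show _ = one B η * FreeU_p β h t s η * _
    ring
  have i4 : Integrable (fun η => ∑ s : Fin t → Step d,
      w s η * |X β h (sh t (pos s t) η) k - A ρ β h k|) (law d ρ) :=
    integrable_finsetSum _ fun s _ => i2 s
  refine ⟨i4.congr (Eventually.of_forall fun η => (e0 η).symm), ?_⟩
  rw [integral_congr_ae (Eventually.of_forall e0), integral_finsetSum _ fun s _ => i2 s,
    Finset.sum_congr rfl fun s _ => e1 s, ← Finset.sum_mul,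
    ← integral_finsetSum _ fun s _ => i1 s]
  congr 1
  rw [← one_I hB]
  refine integral_congr_ae (Eventually.of_forall fun η => ?_)
  show ∑ s : Fin t → Step d, one B η * FreeU_p β h t s η = one B η
  rw [← Finset.mul_sum, FreeU_sum hd, mul_one]

/-- A set of the past loses at most half of its mass. -/
lemma half7 [IsProbabilityMeasure ρ] (hd : 0 < d) (hρ : EM ρ) (β : ℝ) (h : Vec d) (t k : ℕ)
    {Φ : ℝ} (hΦ : 0 < Φ) (hF : Fn ρ β h k ≤ Φ)
    {B : Set (Env d)} (hB : MeasurableSet B) (hdep : DependsOn (fun η => η ∈ B) (Pa d t)) :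
    (law d ρ).real B ≤ 2 * (law d ρ).real
      (B ∩ {η | X β h η t + A ρ β h k - 2 * Φ ≤ X β h η (t + k)}) := by
  obtain ⟨i1, e1⟩ := dvI7 (ρ := ρ) hd hρ β h t k hB hdep
  set M : Set (Env d) := {η | X β h η t + A ρ β h k - 2 * Φ ≤ X β h η (t + k)} with hM
  have hMm : MeasurableSet M :=
    measurableSet_le (((measurable_X β h t).add_const _).sub_const _) (measurable_X β h (t + k))
  have h1 : ∀ η, one (B ∩ Mᶜ) η * (2 * Φ) ≤ one B η * dv7 ρ β h t k η := by
    intro η
    by_cases hη : η ∈ B ∩ Mᶜ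
    · rw [one_of hη, one_of hη.1, one_mul, one_mul]
      have h2 := pt7 (ρ := ρ) hd β h t k η
      have h3 : ¬ (X β h η t + A ρ β h k - 2 * Φ ≤ X β h η (t + k)) := hη.2
      linarith [not_le.1 h3]
    · rw [one_not hη, zero_mul]
      exact mul_nonneg (one_nn _ _) (dv7_nn hd β h t k η)
  have h2 := integral_mono ((one_int (ρ := ρ) (hB.inter hMm.compl)).mul_const (2 * Φ)) i1 h1
  rw [integral_mul_const, one_I (hB.inter hMm.compl), e1] at h2
  have h3 : (law d ρ).real B ≤ (law d ρ).real (B ∩ M) + (law d ρ).real (B ∩ Mᶜ) := by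
    refine le_trans (measureReal_mono (μ := law d ρ) ?_) (measureReal_union_le _ _)
    intro η hη
    by_cases hm : η ∈ M
    · exact Or.inl ⟨hη, hm⟩
    · exact Or.inr ⟨hη, hm⟩
  have h4 : (law d ρ).real B * Fn ρ β h k ≤ (law d ρ).real B * Φ :=
    mul_le_mul_of_nonneg_left hF measureReal_nonneg
  have h5 : (law d ρ).real (B ∩ Mᶜ) ≤ (law d ρ).real B / 2 := by
    have h6 : (law d ρ).real (B ∩ Mᶜ) * (2 * Φ) ≤ (law d ρ).real B / 2 * (2 * Φ) := by
      linarith
    exact le_of_mul_le_mul_right h6 (by positivity)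
  linarith

/-- Ottaviani: a lucky horizon `H + s`, `s ≤ S`, is pushed to the horizon `H + S`. -/
theorem ott7 [IsProbabilityMeasure ρ] (hd : 0 < d) (hρ : EM ρ) (β : ℝ) (h : Vec d) (H S : ℕ)
    (a Φ : ℝ) (hΦ : 0 < Φ) (hE : ∀ k : ℕ, k ≤ S → En ρ β h k ≤ Φ ∧ Fn ρ β h k ≤ Φ) :
    (law d ρ).real {η | ∃ s : ℕ, s ≤ S ∧ ((H + s : ℕ) : ℝ) * lam ρ β h - a ≤ X β h η (H + s)} ≤
      2 * (law d ρ).real {η | ((H + S : ℕ) : ℝ) * lam ρ β h - a - 3 * Φ ≤ X β h η (H + S)} := by
  classical
  set L : ℕ → Set (Env d) := fun s => {η | ((H + s : ℕ) : ℝ) * lam ρ β h - a ≤ X β h η (H + s)}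
    with hL
  have hLm : ∀ s, MeasurableSet (L s) := fun s =>
    measurableSet_le measurable_const (measurable_X β h (H + s))
  have hLd : ∀ s, DependsOn (fun η => η ∈ L s) (Pa d (H + s)) := by
    intro s η η' hη
    have h1 : Z β h η (H + s) = Z β h η' (H + s) := S98.Z_dep β h (H + s) hη
    show (((H + s : ℕ) : ℝ) * lam ρ β h - a ≤ X β h η (H + s)) =
      (((H + s : ℕ) : ℝ) * lam ρ β h - a ≤ X β h η' (H + s))
    unfold X
    rw [h1]
  set R : Finset ℕ := Finset.range (S + 1) with hR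
  set B : ℕ → Set (Env d) := fun s => L s ∩ {η | ∀ s' ∈ R, s' < s → η ∉ L s'} with hB
  have hBm : ∀ s, MeasurableSet (B s) := by
    intro s
    refine (hLm s).inter ?_
    have e : {η : Env d | ∀ s' ∈ R, s' < s → η ∉ L s'} = ⋂ s' ∈ R, {η | s' < s → η ∉ L s'} := by
      ext η
      simp only [Set.mem_ofPred_eq, Set.mem_iInter]
    rw [e]
    refine Finset.measurableSet_biInter _ fun s' _ => ?_
    by_cases hlt : s' < s
    · have e2 : {η : Env d | s' < s → η ∉ L s'} = (L s')ᶜ := by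
        ext η
        simp [hlt]
      rw [e2]
      exact (hLm s').compl
    · have e2 : {η : Env d | s' < s → η ∉ L s'} = Set.univ := by
        ext η
        simp [hlt]
      rw [e2]
      exact MeasurableSet.univ
  have hBd : ∀ s, DependsOn (fun η => η ∈ B s) (Pa d (H + s)) := by
    intro s η η' hη
    have h0 : (η ∈ L s) = (η' ∈ L s) := hLd s hη
    have h1 : ∀ s', s' < s → (η ∈ L s') = (η' ∈ L s') := fun s' hlt =>
      hLd s' fun q hq => hη q (by
        change q.1 ≤ H + s
        have h2 : q.1 ≤ H + s' := hq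
        omega)
    show (η ∈ L s ∧ ∀ s' ∈ R, s' < s → η ∉ L s') = (η' ∈ L s ∧ ∀ s' ∈ R, s' < s → η' ∉ L s')
    rw [h0]
    refine propext ⟨fun ⟨Ha, Hb⟩ => ⟨Ha, fun s' hs' hlt => ?_⟩,
      fun ⟨Ha, Hb⟩ => ⟨Ha, fun s' hs' hlt => ?_⟩⟩
    · rw [← h1 s' hlt]
      exact Hb s' hs' hlt
    · rw [h1 s' hlt]
      exact Hb s' hs' hlt
  set M : Set (Env d) := {η | ((H + S : ℕ) : ℝ) * lam ρ β h - a - 3 * Φ ≤ X β h η (H + S)} with hM
  have hMm : MeasurableSet M := measurableSet_le measurable_const (measurable_X β h (H + S))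
  -- the first success
  have h1 : ∀ s ∈ R, (law d ρ).real (B s) ≤ 2 * (law d ρ).real (B s ∩ M) := by
    intro s hs
    have hsS : s ≤ S := Nat.lt_succ_iff.1 (Finset.mem_range.1 hs)
    have h2 := half7 (ρ := ρ) hd hρ β h (H + s) (S - s) hΦ (hE (S - s) (Nat.sub_le _ _)).2
      (hBm s) (hBd s)
    refine h2.trans (mul_le_mul_of_nonneg_left (measureReal_mono ?_) zero_le_two)
    intro η hη
    refine ⟨hη.1, ?_⟩
    have h3 : X β h η (H + s) + A ρ β h (S - s) - 2 * Φ ≤ X β h η (H + s + (S - s)) := hη.2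
    have h4 : ((H + s : ℕ) : ℝ) * lam ρ β h - a ≤ X β h η (H + s) := hη.1.1
    have h5 := (hE (S - s) (Nat.sub_le _ _)).1
    unfold En at h5
    have e1 : H + s + (S - s) = H + S := by omega
    rw [e1] at h3
    have e2 : ((H + S : ℕ) : ℝ) = ((H + s : ℕ) : ℝ) + ((S - s : ℕ) : ℝ) := by
      rw [← Nat.cast_add]
      congr 1
      omega
    show ((H + S : ℕ) : ℝ) * lam ρ β h - a - 3 * Φ ≤ X β h η (H + S)
    rw [e2]
    nlinarith
  have hone : ∀ η, ∑ s ∈ R, one (B s) η + one {η | ∀ s ∈ R, η ∉ L s} η = 1 := fun η =>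
    first79 R L η
  have hU : {η : Env d | ∃ s : ℕ, s ≤ S ∧ ((H + s : ℕ) : ℝ) * lam ρ β h - a ≤ X β h η (H + s)} =
      ⋃ s ∈ R, L s := by
    ext η
    simp only [Set.mem_iUnion, exists_prop, hR, Finset.mem_range, Nat.lt_succ_iff]
    rfl
  have hUm : MeasurableSet {η : Env d | ∃ s : ℕ, s ≤ S ∧
      ((H + s : ℕ) : ℝ) * lam ρ β h - a ≤ X β h η (H + s)} := by
    rw [hU]
    exact Finset.measurableSet_biUnion _ fun s _ => hLm s
  have h2 : (law d ρ).real {η : Env d | ∃ s : ℕ, s ≤ S ∧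
      ((H + s : ℕ) : ℝ) * lam ρ β h - a ≤ X β h η (H + s)} ≤ ∑ s ∈ R, (law d ρ).real (B s) := by
    have h3 : ∀ η, one {η : Env d | ∃ s : ℕ, s ≤ S ∧
        ((H + s : ℕ) : ℝ) * lam ρ β h - a ≤ X β h η (H + s)} η ≤ ∑ s ∈ R, one (B s) η := by
      intro η
      by_cases hη : η ∈ {η : Env d | ∃ s : ℕ, s ≤ S ∧
          ((H + s : ℕ) : ℝ) * lam ρ β h - a ≤ X β h η (H + s)}
      · rw [one_of hη]
        have h4 := hone η
        have h5 : η ∉ {η | ∀ s ∈ R, η ∉ L s} := by
          intro h6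
          obtain ⟨s, hs, h7⟩ := hη
          exact h6 s (Finset.mem_range.2 (Nat.lt_succ_iff.2 hs)) h7
        rw [one_not h5] at h4
        linarith
      · rw [one_not hη]
        exact Finset.sum_nonneg fun s _ => one_nn _ _
    have h4 := integral_mono (one_int (ρ := ρ) hUm)
      (integrable_finsetSum R fun s _ => one_int (ρ := ρ) (hBm s)) h3
    rw [one_I hUm, integral_finsetSum _ fun s _ => one_int (ρ := ρ) (hBm s),
      Finset.sum_congr rfl fun s _ => one_I (hBm s)] at h4
    exact h4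
  have h3 : ∑ s ∈ R, (law d ρ).real (B s ∩ M) ≤ (law d ρ).real M := by
    have h4 : ∀ η, ∑ s ∈ R, one (B s ∩ M) η ≤ one M η := by
      intro η
      simp only [one_inter]
      rw [← Finset.sum_mul]
      have h5 := hone η
      have h6 := one_nn {η | ∀ s ∈ R, η ∉ L s} η
      have h7 : ∑ s ∈ R, one (B s) η ≤ 1 := by linarith
      calc (∑ s ∈ R, one (B s) η) * one M η ≤ 1 * one M η :=
            mul_le_mul_of_nonneg_right h7 (one_nn _ _)
        _ = one M η := one_mul _
    have h5 := integral_mono (integrable_finsetSum R fun s _ =>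
      one_int (ρ := ρ) ((hBm s).inter hMm)) (one_int (ρ := ρ) hMm) h4
    rw [one_I hMm, integral_finsetSum _ fun s _ => one_int (ρ := ρ) ((hBm s).inter hMm),
      Finset.sum_congr rfl fun s _ => one_I ((hBm s).inter hMm)] at h5
    exact h5
  calc _ ≤ ∑ s ∈ R, (law d ρ).real (B s) := h2
    _ ≤ ∑ s ∈ R, 2 * (law d ρ).real (B s ∩ M) := Finset.sum_le_sum h1
    _ = 2 * ∑ s ∈ R, (law d ρ).real (B s ∩ M) := by rw [Finset.mul_sum]
    _ ≤ _ := mul_le_mul_of_nonneg_left h3 zero_le_two

/-- The random fluctuation is almost subadditive. -/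
theorem fadd7 [IsProbabilityMeasure ρ] (hd : 0 < d) (hρ : EM ρ) (β : ℝ) (h : Vec d) (a b : ℕ) :
    Fn ρ β h (a + b) ≤ Fn ρ β h a + 2 * Fn ρ β h b + 2 * (En ρ β h a + En ρ β h b) := by
  have hX : ∀ k, Integrable (fun η => X β h η k) (law d ρ) := fun k => (concU hd hρ β h k).1
  have hY : ∀ k, Integrable (fun η => X β h η k - A ρ β h k) (law d ρ) := fun k =>
    (hX k).sub (integrable_const _)
  obtain ⟨i1, e1⟩ := dvI7 (ρ := ρ) hd hρ β h a b (B := Set.univ) MeasurableSet.univ
    (fun η η' _ => rfl)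
  simp only [one_of (Set.mem_univ _), one_mul, probReal_univ] at i1 e1
  -- the pointwise lower bound
  set g : ℝ := En ρ β h a + En ρ β h b with hg
  have hE := En_nonneg15 (ρ := ρ) hd hρ β h (a + b)
  have hAA : A ρ β h (a + b) ≤ A ρ β h a + A ρ β h b + g := by
    unfold En at hE
    rw [hg]
    unfold En
    push_cast at hE
    linarith
  have hg0 : 0 ≤ g := add_nonneg (En_nonneg15 hd hρ β h a) (En_nonneg15 hd hρ β h b)
  -- positive and negative parts
  have hm : ∀ k, ∫ η, (X β h η k - A ρ β h k) ∂(law d ρ) = 0 := fun k => by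
    rw [integral_sub (hX k) (integrable_const _)]
    simp [A]
  have hab : ∀ k, ∫ η, (|X β h η k - A ρ β h k| - (X β h η k - A ρ β h k)) ∂(law d ρ) =
      Fn ρ β h k := fun k => by
    rw [integral_sub (hY k).abs (hY k), hm k, sub_zero]
    rfl
  have hp : ∀ η, |X β h η (a + b) - A ρ β h (a + b)| - (X β h η (a + b) - A ρ β h (a + b)) ≤
      (|X β h η a - A ρ β h a| - (X β h η a - A ρ β h a)) + 2 * (dv7 ρ β h a b η + g) -
        (0 : ℝ) := by
    intro η
    have h1 := pt7 (ρ := ρ) hd β h a b η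
    have h2 := dv7_nn (ρ := ρ) hd β h a b η
    have h3 := neg_abs_le (X β h η a - A ρ β h a)
    have h4 := le_abs_self (X β h η a - A ρ β h a)
    rcases le_total 0 (X β h η (a + b) - A ρ β h (a + b)) with h5 | h5
    · rw [abs_of_nonneg h5]
      linarith
    · rw [abs_of_nonpos h5]
      rcases le_total 0 (X β h η a - A ρ β h a) with h6 | h6
      · rw [abs_of_nonneg h6]
        linarith
      · rw [abs_of_nonpos h6]
        linarith
  simp only [sub_zero] at hp
  have i2 : Integrable (fun η => (|X β h η a - A ρ β h a| - (X β h η a - A ρ β h a)) +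
      2 * (dv7 ρ β h a b η + g)) (law d ρ) :=
    ((hY a).abs.sub (hY a)).add ((i1.add (integrable_const g)).const_mul 2)
  have h1 := integral_mono ((hY (a + b)).abs.sub (hY (a + b))) i2 hp
  have i3 : Integrable (fun η => |X β h η a - A ρ β h a| - (X β h η a - A ρ β h a)) (law d ρ) :=
    (hY a).abs.sub (hY a)
  have i4 : Integrable (fun η => dv7 ρ β h a b η + g) (law d ρ) := i1.add (integrable_const g)
  have h2 : ∫ η, ((|X β h η a - A ρ β h a| - (X β h η a - A ρ β h a)) +
      2 * (dv7 ρ β h a b η + g)) ∂(law d ρ) = Fn ρ β h a + 2 * (Fn ρ β h b + g) := by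
    rw [integral_add i3 (i4.const_mul 2), hab a, integral_const_mul,
      integral_add i1 (integrable_const g), e1]
    simp
  rw [h2] at h1
  have h3 := hab (a + b)
  have h4 : ∫ η, ((fun η => |X β h η (a + b) - A ρ β h (a + b)|) - fun η =>
      (X β h η (a + b) - A ρ β h (a + b))) η ∂(law d ρ) = Fn ρ β h (a + b) := h3
  rw [h4] at h1
  linarith

end Pool.Agent.W_7d29a1_PL
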