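import Pool.Agent.W_7d29a1_SP.Cnt79
import Pool.Agent.W_7d29a1_AM.DefsAU

/-!
Leaf SING: the probability of one lucky level (Ottaviani to one horizon, amplification, counting
in time).
-/

set_option autoImplicit false

namespace Pool.Agent.W_7d29a1_PL.S79

open MeasureTheory ProbabilityTheory Filter Topology Pool.Agent.W_MP_7d29a1_pr
  Pool.Agent.W_7d29a1_h46 Pool.Agent.W_7d29a1_h46u Pool.Agent.W_7d29a1_D2.B35
  Pool.Agent.W_7d29a1_Q29 Pool.Agent.W_7d29a1_R34 Pool.Agent.W_7d29a1_SP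
  Pool.Agent.W_7d29a1_SP.C79

variable {d : ℕ} {ρ : Measure ℝ}

/-- The mean defect of the future. -/
noncomputable def Wd (ρ : Measure ℝ) (β : ℝ) (h : Vec d) (t k : ℕ) (η : Env d) : ℝ :=
  ∑ s : Fin t → Step d, FreeU_p β h t s η * |X β h (sh t (pos s t) η) k - A ρ β h k|

lemma Wd_nn (hd : 0 < d) (β : ℝ) (h : Vec d) (t k : ℕ) (η : Env d) : 0 ≤ Wd ρ β h t k η :=
  Finset.sum_nonneg fun s _ => mul_nonneg (FreeU_nonneg hd β h t s η) (abs_nonneg _)

/-- The future costs at most the mean defect. -/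
lemma Wd_pt (hd : 0 < d) (β : ℝ) (h : Vec d) (t k : ℕ) (η : Env d) :
    X β h η t + A ρ β h k - Wd ρ β h t k η ≤ X β h η (t + k) := by
  refine le_trans ?_ (FreeU_pt hd β h t k η)
  have h1 : A ρ β h k = ∑ s : Fin t → Step d, FreeU_p β h t s η * A ρ β h k := by
    rw [← Finset.sum_mul, FreeU_sum hd, one_mul]
  have h2 : A ρ β h k - Wd ρ β h t k η ≤
      ∑ s : Fin t → Step d, FreeU_p β h t s η * X β h (sh t (pos s t) η) k := by
    unfold Wd
    rw [h1, ← Finset.sum_sub_distrib]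
    refine Finset.sum_le_sum fun s _ => ?_
    rw [← h1, ← mul_sub]
    refine mul_le_mul_of_nonneg_left ?_ (FreeU_nonneg hd β h t s η)
    have := neg_abs_le (X β h (sh t (pos s t) η) k - A ρ β h k)
    linarith
  linarith

/-- The mean defect on an event of the past. -/
lemma Wd_int [IsProbabilityMeasure ρ] (hd : 0 < d) (hρ : EM ρ) (β : ℝ) (h : Vec d) (t k : ℕ)
    {B : Set (Env d)} (hB : MeasurableSet B) (hdep : DependsOn (fun η => η ∈ B) (Pa d t)) :
    Integrable (fun η => one B η * Wd ρ β h t k η) (law d ρ) ∧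
      ∫ η, one B η * Wd ρ β h t k η ∂(law d ρ) = (law d ρ).real B * Fn ρ β h k := by
  have hX : Integrable (fun η => |X β h η k - A ρ β h k|) (law d ρ) :=
    ((concU hd hρ β h k).1.sub (integrable_const _)).abs
  have hXm : Measurable (fun η : Env d => |X β h η k - A ρ β h k|) :=
    ((measurable_X β h k).sub measurable_const).abs
  have hXs : ∀ y : Site d, Integrable (fun η => |X β h (sh t y η) k - A ρ β h k|) (law d ρ) :=
    fun y => (mp_sh t y).integrable_comp_of_integrable hX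
  set w : (Fin t → Step d) → Env d → ℝ := fun s η => one B η * FreeU_p β h t s η with hw
  have hwm : ∀ s, Measurable (w s) := fun s => (one_meas hB).mul (FreeU_meas β h t s)
  have hwn : ∀ s η, ‖w s η‖ ≤ 1 := fun s η => by
    have h1 := one_abs B η
    have h2 : ‖FreeU_p β h t s η‖ ≤ 1 := by
      rw [Real.norm_eq_abs, abs_of_nonneg (FreeU_nonneg hd β h t s η)]
      exact FreeU_le_one hd β h t s η
    show ‖one B η * FreeU_p β h t s η‖ ≤ 1
    rw [norm_mul]
    exact mul_le_one₀ h1 (norm_nonneg _) h2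
  have i1 : ∀ s, Integrable (w s) (law d ρ) := fun s =>
    (integrable_const (1 : ℝ)).mono' (hwm s).aestronglyMeasurable
      (Eventually.of_forall fun η => hwn s η)
  have i2 : ∀ s, Integrable (fun η => w s η * |X β h (sh t (pos s t) η) k - A ρ β h k|)
      (law d ρ) := fun s =>
    (hXs (pos s t)).bdd_mul (c := 1) (hwm s).aestronglyMeasurable
      (Eventually.of_forall fun η => hwn s η)
  have e1 : ∀ s, ∫ η, w s η * |X β h (sh t (pos s t) η) k - A ρ β h k| ∂(law d ρ) =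
      (∫ η, w s η ∂(law d ρ)) * Fn ρ β h k := by
    intro s
    have h1 := integral_indep (ρ := ρ) (Pa d t) (F := w s)
      (G := fun η => |X β h (sh t (pos s t) η) k - A ρ β h k|) (hwm s)
      (hXm.comp (measurable_sh t (pos s t))) (fun η η' hη => by
        have h2 := one_dep hdep hη
        have h3 := FreeU_dep β h t s hη
        show one B η * FreeU_p β h t s η = one B η' * FreeU_p β h t s η'
        rw [h2, h3]) (fun η η' hη => by
        have h2 := FreeU_dep2 β h t k (pos s t) hη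
        show |X β h (sh t (pos s t) η) k - A ρ β h k| = |X β h (sh t (pos s t) η') k - A ρ β h k|
        have h3 : X β h (sh t (pos s t) η) k = X β h (sh t (pos s t) η') k := h2
        rw [h3])
    rw [h1, integral_sh t (pos s t) hXm]
    rfl
  have hpt : ∀ η, one B η * Wd ρ β h t k η = ∑ s : Fin t → Step d,
      w s η * |X β h (sh t (pos s t) η) k - A ρ β h k| := by
    intro η
    unfold Wd
    rw [Finset.mul_sum]
    refine Finset.sum_congr rfl fun s _ => ?_
    show _ = one B η * FreeU_p β h t s η * _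
    ring
  have i4 : Integrable (fun η => ∑ s : Fin t → Step d,
      w s η * |X β h (sh t (pos s t) η) k - A ρ β h k|) (law d ρ) :=
    integrable_finsetSum _ fun s _ => i2 s
  have e2 : ∫ η, ∑ s : Fin t → Step d, w s η ∂(law d ρ) = (law d ρ).real B := by
    rw [← one_I hB]
    refine integral_congr_ae (Eventually.of_forall fun η => ?_)
    show ∑ s : Fin t → Step d, one B η * FreeU_p β h t s η = one B η
    rw [← Finset.mul_sum, FreeU_sum hd, mul_one]
  simp only [hpt]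
  refine ⟨i4, ?_⟩
  rw [integral_finsetSum _ fun s _ => i2 s, Finset.sum_congr rfl fun s _ => e1 s,
    ← Finset.sum_mul, ← integral_finsetSum _ fun s _ => i1 s, e2]

/-- One step of the push. -/
lemma push1 [IsProbabilityMeasure ρ] (hd : 0 < d) (hρ : EM ρ) (β : ℝ) (h : Vec d) (t k : ℕ)
    {B : Set (Env d)} (hB : MeasurableSet B) (hdep : DependsOn (fun η => η ∈ B) (Pa d t))
    {θ φ : ℝ} (hφ : 0 ≤ φ) (hE : En ρ β h k ≤ φ) (hF : Fn ρ β h k ≤ φ)
    (hθ : ∀ η ∈ B, lam ρ β h * t + θ ≤ X β h η t) :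
    (law d ρ).real (B ∩ {η | X β h η (t + k) < lam ρ β h * (t + k : ℕ) + θ - (3 * φ + 1)}) ≤
      (law d ρ).real B / 2 := by
  set B' := B ∩ {η | X β h η (t + k) < lam ρ β h * (t + k : ℕ) + θ - (3 * φ + 1)} with hB'
  have hB'm : MeasurableSet B' := hB.inter (measurableSet_lt (measurable_X β h _) measurable_const)
  obtain ⟨hi, hI⟩ := Wd_int hd hρ β h t k hB hdep
  have h1 : ∀ η, (2 * φ + 1) * one B' η ≤ one B η * Wd ρ β h t k η := by
    intro η
    have hW := Wd_nn (ρ := ρ) hd β h t k η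
    by_cases hη : η ∈ B'
    · rw [one_of hη, one_of hη.1, mul_one, one_mul]
      have h2 := Wd_pt (ρ := ρ) hd β h t k η
      have h3 := hθ η hη.1
      have h4 : X β h η (t + k) < lam ρ β h * (t + k : ℕ) + θ - (3 * φ + 1) := hη.2
      have h5 : En ρ β h k = k * lam ρ β h - A ρ β h k := rfl
      push_cast at h4
      rw [h5] at hE
      nlinarith
    · rw [one_not hη, mul_zero]
      exact mul_nonneg (one_nn _ _) hW
  have h2 := integral_mono ((one_int hB'm).const_mul (2 * φ + 1)) hi h1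
  rw [integral_const_mul, one_I hB'm, hI] at h2
  have h3 : (law d ρ).real B * Fn ρ β h k ≤ (law d ρ).real B * φ :=
    mul_le_mul_of_nonneg_left hF measureReal_nonneg
  have h4 : (0 : ℝ) ≤ (law d ρ).real B := measureReal_nonneg
  have h5 : (2 * φ + 1) * (law d ρ).real B' ≤ (2 * φ + 1) * ((law d ρ).real B / 2) := by
    nlinarith
  exact le_of_mul_le_mul_left h5 (by linarith)

/-- Ottaviani: a luck at one of many times is a luck at the last one. -/
theorem push79 [IsProbabilityMeasure ρ] (hd : 0 < d) (hρ : EM ρ) (β : ℝ) (h : Vec d)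
    {T₀ T₁ : ℕ} {θ φ : ℝ} (hφ : 0 ≤ φ)
    (hk : ∀ k : ℕ, k ≤ T₁ - T₀ → En ρ β h k ≤ φ ∧ Fn ρ β h k ≤ φ) :
    (law d ρ).real {η | ∃ s : ℕ, T₀ ≤ s ∧ s ≤ T₁ ∧ lam ρ β h * s + θ ≤ X β h η s} ≤
      2 * (law d ρ).real {η | lam ρ β h * T₁ + θ - (3 * φ + 1) ≤ X β h η T₁} := by
  classical
  set S := Finset.Icc T₀ T₁ with hS
  set L : ℕ → Set (Env d) := fun s => {η | lam ρ β h * s + θ ≤ X β h η s} with hL
  have hLm : ∀ s, MeasurableSet (L s) := fun s =>
    measurableSet_le measurable_const (measurable_X β h s)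
  set E : ℕ → Set (Env d) := fun s => L s ∩ {η | ∀ s' ∈ S, s' < s → η ∉ L s'} with hE
  have hLd : ∀ s s', s ≤ s' → DependsOn (fun η => η ∈ L s) (Pa d s') := by
    intro s s' hs η η' hη
    have h1 : Z β h η s = Z β h η' s := S98.Z_dep β h s fun p hp => hη p (by
      have := hp
      simp only [Pa, Set.mem_ofPred_eq] at this ⊢
      omega)
    show (lam ρ β h * s + θ ≤ X β h η s) = (lam ρ β h * s + θ ≤ X β h η' s)
    unfold X
    rw [h1]
  have hTm : ∀ s, MeasurableSet {η : Env d | ∀ s' ∈ S, s' < s → η ∉ L s'} := by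
    intro s
    have : {η : Env d | ∀ s' ∈ S, s' < s → η ∉ L s'} =
        ⋂ s' ∈ S, {η : Env d | s' < s → η ∉ L s'} := by
      ext η
      simp only [Set.mem_iInter, Set.mem_ofPred_eq]
    rw [this]
    refine Finset.measurableSet_biInter _ fun s' _ => ?_
    by_cases hlt : s' < s
    · simp only [hlt, true_implies]
      exact (hLm s').compl
    · simp only [hlt, false_implies, Set.ofPred_true]
      exact MeasurableSet.univ
  have hEm : ∀ s, MeasurableSet (E s) := fun s => (hLm s).inter (hTm s)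
  have hEd : ∀ s, DependsOn (fun η => η ∈ E s) (Pa d s) := by
    intro s η η' hη
    have h1 : (η ∈ L s) = (η' ∈ L s) := hLd s s le_rfl hη
    have h2 : ∀ s', s' < s → (η ∈ L s') = (η' ∈ L s') := fun s' hs' => hLd s' s hs'.le hη
    show (η ∈ L s ∧ ∀ s' ∈ S, s' < s → η ∉ L s') = (η' ∈ L s ∧ ∀ s' ∈ S, s' < s → η' ∉ L s')
    rw [h1]
    congr 1
    refine propext (forall_congr' fun s' => ?_)
    refine imp_congr_right fun _ => ?_
    constructor
    · intro h3 h4
      rw [← h2 s' h4]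
      exact h3 h4
    · intro h3 h4
      rw [h2 s' h4]
      exact h3 h4
  set U : Set (Env d) := {η | ∃ s : ℕ, T₀ ≤ s ∧ s ≤ T₁ ∧ lam ρ β h * s + θ ≤ X β h η s} with hU
  set G : Set (Env d) := {η | X β h η T₁ < lam ρ β h * T₁ + θ - (3 * φ + 1)} with hG
  have hGm : MeasurableSet G := measurableSet_lt (measurable_X β h _) measurable_const
  have hU2 : U = {η | ∀ s ∈ S, η ∉ L s}ᶜ := by
    ext η
    simp only [hU, hS, hL, Set.mem_ofPred_eq, Set.mem_compl_iff, Finset.mem_Icc]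
    push Not
    constructor
    · rintro ⟨s, h1, h2, h3⟩
      exact ⟨s, ⟨h1, h2⟩, h3⟩
    · rintro ⟨s, ⟨h1, h2⟩, h3⟩
      exact ⟨s, h1, h2, h3⟩
  have hUm : MeasurableSet U := by
    rw [hU2]
    refine MeasurableSet.compl ?_
    have : {η : Env d | ∀ s ∈ S, η ∉ L s} = ⋂ s ∈ S, (L s)ᶜ := by
      ext η
      simp only [Set.mem_iInter, Set.mem_ofPred_eq, Set.mem_compl_iff]
    rw [this]
    exact Finset.measurableSet_biInter _ fun s _ => (hLm s).compl
  have hone : ∀ η, ∑ s ∈ S, one (E s) η = one U η := by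
    intro η
    have h1 := first79 S L η
    have h2 : one {η : Env d | ∀ s ∈ S, η ∉ L s} η = 1 - one U η := by
      by_cases hη : η ∈ U
      · rw [one_of hη, one_not, sub_self]
        rw [hU2] at hη
        exact hη
      · rw [one_not hη, one_of, sub_zero]
        rw [hU2] at hη
        exact not_not.1 hη
    rw [h2] at h1
    show ∑ s ∈ S, one (L s ∩ {η | ∀ s' ∈ S, s' < s → η ∉ L s'}) η = _
    linarith
  have h1 : (law d ρ).real U = ∑ s ∈ S, (law d ρ).real (E s) := by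
    rw [← one_I hUm]
    simp only [← hone]
    rw [integral_finsetSum _ fun s _ => one_int (hEm s)]
    exact Finset.sum_congr rfl fun s _ => one_I (hEm s)
  have h2 : (law d ρ).real (U ∩ G) = ∑ s ∈ S, (law d ρ).real (E s ∩ G) := by
    rw [← one_I (hUm.inter hGm)]
    have : ∀ η, one (U ∩ G) η = ∑ s ∈ S, one (E s ∩ G) η := by
      intro η
      rw [one_inter, ← hone, Finset.sum_mul]
      exact Finset.sum_congr rfl fun s _ => (one_inter _ _ _).symm
    simp only [this]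
    rw [integral_finsetSum _ fun s _ => one_int ((hEm s).inter hGm)]
    exact Finset.sum_congr rfl fun s _ => one_I ((hEm s).inter hGm)
  have h3 : ∀ s ∈ S, (law d ρ).real (E s ∩ G) ≤ (law d ρ).real (E s) / 2 := by
    intro s hs
    have hs' := Finset.mem_Icc.1 hs
    obtain ⟨hk1, hk2⟩ := hk (T₁ - s) (by omega)
    have h4 := push1 hd hρ β h s (T₁ - s) (hEm s) (hEd s) hφ hk1 hk2 (θ := θ)
      (fun η hη => hη.1)
    have h5 : s + (T₁ - s) = T₁ := by omega
    rw [h5] at h4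
    exact h4
  have h4 : (law d ρ).real (U ∩ G) ≤ (law d ρ).real U / 2 := by
    rw [h1, h2, Finset.sum_div]
    exact Finset.sum_le_sum h3
  have h5 : (law d ρ).real (U ∩ G) + (law d ρ).real (U \ G) = (law d ρ).real U :=
    measureReal_inter_add_sdiff hGm (measure_ne_top _ _)
  have h6 : (law d ρ).real (U \ G) ≤
      (law d ρ).real {η | lam ρ β h * T₁ + θ - (3 * φ + 1) ≤ X β h η T₁} :=
    measureReal_mono (fun η hη => by
      have h7 : ¬ (X β h η T₁ < lam ρ β h * T₁ + θ - (3 * φ + 1)) := hη.2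
      exact not_lt.1 h7) (measure_ne_top _ _)
  linarith

/-- Markov below: the free energy is below its mean plus four times its mean deviation. -/
lemma half79 [IsProbabilityMeasure ρ] (hd : 0 < d) (hρ : EM ρ) (β : ℝ) (h : Vec d) (m : ℕ)
    {s₀ : ℝ} (hs : A ρ β h m + 4 * Fn ρ β h m ≤ s₀) :
    1 / 2 ≤ (law d ρ).real {η | X β h η m ≤ s₀} := by
  have hX : Integrable (fun η => |X β h η m - A ρ β h m|) (law d ρ) :=
    ((concU hd hρ β h m).1.sub (integrable_const _)).abs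
  have hm : MeasurableSet {η : Env d | X β h η m ≤ s₀} :=
    measurableSet_le (measurable_X β h m) measurable_const
  have hF0 : 0 ≤ Fn ρ β h m := integral_nonneg fun η => abs_nonneg _
  have hc : (law d ρ).real {η | X β h η m ≤ s₀}ᶜ = 1 - (law d ρ).real {η | X β h η m ≤ s₀} := by
    rw [measureReal_compl hm, probReal_univ]
  have hG : (law d ρ).real {η | X β h η m ≤ s₀}ᶜ ≤ 1 / 2 := by
    rcases hF0.lt_or_eq with hF | hF
    · have h1 : ∀ η, 4 * Fn ρ β h m * one {η : Env d | X β h η m ≤ s₀}ᶜ η ≤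
          |X β h η m - A ρ β h m| := by
        intro η
        by_cases hη : η ∈ {η : Env d | X β h η m ≤ s₀}ᶜ
        · rw [one_of hη, mul_one]
          have h2 : ¬ (X β h η m ≤ s₀) := hη
          have h3 := le_abs_self (X β h η m - A ρ β h m)
          have h4 := not_le.1 h2
          linarith
        · rw [one_not hη, mul_zero]
          exact abs_nonneg _
      have h2 := integral_mono ((one_int hm.compl).const_mul (4 * Fn ρ β h m)) hX h1
      rw [integral_const_mul, one_I hm.compl] at h2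
      have h3 : 4 * Fn ρ β h m * (law d ρ).real {η | X β h η m ≤ s₀}ᶜ ≤ Fn ρ β h m := h2
      have h4 : Fn ρ β h m * (4 * (law d ρ).real {η | X β h η m ≤ s₀}ᶜ) ≤ Fn ρ β h m * 1 := by
        linarith
      have h5 := le_of_mul_le_mul_left h4 hF
      linarith
    · have h1 : ∫ η, |X β h η m - A ρ β h m| ∂(law d ρ) = 0 := hF.symm
      rw [integral_eq_zero_iff_of_nonneg (fun η => abs_nonneg _) hX] at h1
      have h2 : ∀ᵐ η ∂(law d ρ), η ∈ {η : Env d | X β h η m ≤ s₀} := by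
        filter_upwards [h1] with η hη
        have h3 : |X β h η m - A ρ β h m| = 0 := hη
        have h4 := abs_eq_zero.1 h3
        show X β h η m ≤ s₀
        linarith
      have h3 : (law d ρ) {η : Env d | X β h η m ≤ s₀}ᶜ = 0 := h2
      unfold Measure.real
      rw [h3]
      norm_num
  linarith

/-- SING: one lucky level. -/
def SingP (d : ℕ) (ρ : Measure ℝ) (β : ℝ) : Prop := ∀ c₀ D : ℝ, 0 < c₀ → 1 ≤ D →
  ∃ C : ℝ, 1 ≤ C ∧ ∀ h : Vec d, Loc1 ρ β h c₀ → ∀ (T₀ T₁ T : ℕ) (θ s₀ φ Φ : ℝ),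
    1 ≤ T₁ → T₁ ≤ T → 0 ≤ φ →
    (∀ k : ℕ, k ≤ T₁ - T₀ → En ρ β h k ≤ φ ∧ Fn ρ β h k ≤ φ) →
    (∀ k : ℕ, k ≤ T → En ρ β h k ≤ Φ ∧ Fn ρ β h k ≤ Φ) →
    A ρ β h T₁ + 4 * Fn ρ β h T₁ ≤ s₀ →
    Φ + 1 < D * (lam ρ β h * T₁ + θ - (3 * φ + 1) - s₀) →
    (law d ρ).real {η | ∃ s : ℕ, T₀ ≤ s ∧ s ≤ T₁ ∧ lam ρ β h * s + θ ≤ X β h η s} ≤
      C * ((T₁ : ℝ) / T) ^ (1 / C)

theorem sing79 {d : ℕ} {ρ : Measure ℝ} [IsProbabilityMeasure ρ] (hd : 0 < d) (hρ : EM ρ)
    {β : ℝ} (hC : CntP d ρ β) (hA : AmpP d ρ β) : SingP d ρ β := by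
  intro c₀ D hc hD
  obtain ⟨C1, h1, hcnt⟩ := hC c₀ hc
  have hC1 : 0 < C1 := by linarith
  have hDC : 1 ≤ 2 * (D * C1) := by
    have : 1 ≤ D * C1 := one_le_mul_of_one_le_of_one_le hD h1
    linarith
  obtain ⟨C2, c, h2, hc2, hamp⟩ := hA (2 * (D * C1)) hDC
  have hC2 : 0 < C2 := by linarith
  set M : ℝ := max 1 (C1 / c) with hM
  have hM1 : 1 ≤ M := le_max_left _ _
  refine ⟨max (4 * M ^ (1 / C2)) C2, h2.trans (le_max_right _ _), ?_⟩
  intro h hL T₀ T₁ T θ s₀ φ Φ hT1 hTT hφ hk hK hs₀ hΦ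
  obtain ⟨C, hCdef⟩ : ∃ C, C = max (4 * M ^ (1 / C2)) C2 := ⟨_, rfl⟩
  rw [← hCdef]
  have hCa : 4 * M ^ (1 / C2) ≤ C := by
    rw [hCdef]
    exact le_max_left _ _
  have hCb : C2 ≤ C := by
    rw [hCdef]
    exact le_max_right _ _
  have hC0 : 0 < C := by linarith
  have hT1' : (1 : ℝ) ≤ T₁ := by exact_mod_cast hT1
  have hTT' : (T₁ : ℝ) ≤ T := by exact_mod_cast hTT
  have hT0 : (0 : ℝ) < T := by linarith
  have hr0 : 0 < (T₁ : ℝ) / T := by positivity
  have hr1 : (T₁ : ℝ) / T ≤ 1 := by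
    rw [div_le_one hT0]
    exact hTT'
  have hF0 : 0 ≤ Fn ρ β h T₁ := integral_nonneg fun η => abs_nonneg _
  have hΦ0 : 0 ≤ Φ := by
    have h3 := (hK T₁ hTT).2
    linarith
  -- the level
  set s₁ : ℝ := s₀ + (Φ + 1) / D with hs₁
  have hD0 : 0 < D := by linarith
  have hs₁0 : D * (s₁ - s₀) = Φ + 1 := by
    rw [hs₁]
    field_simp
    ring
  have hs₁1 : s₁ < lam ρ β h * T₁ + θ - (3 * φ + 1) := by
    have h3 : D * (s₁ - s₀) < D * (lam ρ β h * T₁ + θ - (3 * φ + 1) - s₀) := by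
      rw [hs₁0]
      exact hΦ
    have h4 := lt_of_mul_lt_mul_left h3 hD0.le
    linarith
  have hs01 : s₀ ≤ s₁ := by
    have : 0 ≤ (Φ + 1) / D := by positivity
    linarith
  set p : ℝ := (law d ρ).real {η | s₁ < X β h η T₁} with hp
  have hp0 : 0 ≤ p := measureReal_nonneg
  have h3 := push79 hd hρ β h hφ hk (θ := θ)
  have h4 : (law d ρ).real {η | lam ρ β h * T₁ + θ - (3 * φ + 1) ≤ X β h η T₁} ≤ p := by
    refine measureReal_mono ?_ (measure_ne_top _ _)
    intro η hη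
    have h5 : lam ρ β h * T₁ + θ - (3 * φ + 1) ≤ X β h η T₁ := hη
    show s₁ < X β h η T₁
    linarith
  refine h3.trans ?_
  refine (mul_le_mul_of_nonneg_left h4 (by norm_num : (0 : ℝ) ≤ 2)).trans ?_
  rcases hp0.lt_or_eq with hp1 | hp1
  swap
  · rw [← hp1, mul_zero]
    positivity
  set q : ℝ := min p (1 / 2) with hq
  have hq0 : 0 < q := lt_min hp1 (by norm_num)
  have hpq : p ≤ 2 * q := by
    have hp2 : p ≤ 1 := measureReal_le_one
    rcases le_total p (1 / 2) with h5 | h5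
    · rw [hq, min_eq_left h5]
      linarith
    · rw [hq, min_eq_right h5]
      linarith
  have h5 := hamp h T₁ s₀ s₁ q hq0 hs01 ((min_le_right _ _).trans (half79 hd hρ β h T₁ hs₀))
    (min_le_left _ _)
  have h6 : c * q ^ C2 ≤ (law d ρ).real {η | A ρ β h T₁ + 2 * (D * C1) * (s₁ - s₀) ≤ X β h η T₁} := by
    refine h5.trans (measureReal_mono ?_ (measure_ne_top _ _))
    intro η hη
    have h7 : s₁ + 2 * (D * C1) * (s₁ - s₀) < X β h η T₁ := hη
    show A ρ β h T₁ + 2 * (D * C1) * (s₁ - s₀) ≤ X β h η T₁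
    linarith
  have hq' : 0 < c * q ^ C2 := mul_pos hc2 (Real.rpow_pos_of_pos hq0 _)
  have h7 : ¬ (C1 * T₁ / (c * q ^ C2) ≤ T) := by
    intro h8
    have h9 := hcnt h hL T₁ T (2 * (D * C1) * (s₁ - s₀)) (c * q ^ C2) Φ hT1 hq' h6 h8 hK
    have h10 : 2 * (D * C1) * (s₁ - s₀) = C1 * (2 * (Φ + 1)) := by
      rw [← hs₁0]
      ring
    rw [h10] at h9
    have h11 := le_of_mul_le_mul_left h9 hC1
    linarith
  have h8 : q ^ C2 ≤ M * ((T₁ : ℝ) / T) := by
    have h9 := not_le.1 h7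
    rw [lt_div_iff₀ hq'] at h9
    have h10 : c * q ^ C2 * T ≤ C1 * T₁ := by linarith
    have h11 : q ^ C2 ≤ C1 / c * ((T₁ : ℝ) / T) := by
      rw [div_mul_div_comm, le_div_iff₀ (mul_pos hc2 hT0)]
      linarith
    exact h11.trans (mul_le_mul_of_nonneg_right (le_max_right _ _) hr0.le)
  have h9 : q ≤ (M * ((T₁ : ℝ) / T)) ^ (1 / C2) := by
    have h10 := Real.rpow_le_rpow (Real.rpow_nonneg hq0.le _) h8 (by positivity : 0 ≤ 1 / C2)
    rw [← Real.rpow_mul hq0.le, mul_one_div_cancel hC2.ne', Real.rpow_one] at h10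
    exact h10
  rw [Real.mul_rpow (by linarith) hr0.le] at h9
  have h10 : ((T₁ : ℝ) / T) ^ (1 / C2) ≤ ((T₁ : ℝ) / T) ^ (1 / C) :=
    Real.rpow_le_rpow_of_exponent_ge hr0 hr1 (one_div_le_one_div_of_le hC2 hCb)
  have hM0 : 0 ≤ M ^ (1 / C2) := Real.rpow_nonneg (by linarith) _
  calc 2 * p ≤ 4 * q := by linarith
    _ ≤ 4 * (M ^ (1 / C2) * ((T₁ : ℝ) / T) ^ (1 / C2)) := by linarith
    _ = 4 * M ^ (1 / C2) * ((T₁ : ℝ) / T) ^ (1 / C2) := by ring
    _ ≤ C * ((T₁ : ℝ) / T) ^ (1 / C) :=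
      mul_le_mul hCa h10 (Real.rpow_nonneg hr0.le _) hC0.le

end Pool.Agent.W_7d29a1_PL.S79
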