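import Pool.Agent.W_7d29a1_PL.DefsPL
import Pool.Agent.W_7d29a1_PL.Sing79
import Pool.Agent.W_7d29a1_PL.Ott7

/-!
Leaf COST: the price of a single luck (second text, over SING).
-/

set_option autoImplicit false

namespace Pool.Agent.W_7d29a1_PL.C7

open MeasureTheory ProbabilityTheory Filter Topology Pool.Agent.W_MP_7d29a1_pr
  Pool.Agent.W_7d29a1_h46 Pool.Agent.W_7d29a1_h46u Pool.Agent.W_7d29a1_D2.B35
  Pool.Agent.W_7d29a1_Q29 Pool.Agent.W_7d29a1_R34 Pool.Agent.W_7d29a1_SP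

variable {d : ℕ} {ρ : Measure ℝ}

/-- Four pieces. -/
lemma four7 {m k : ℕ} (hm : 2 ≤ m) (hk : k ≤ 2 * m) :
    ∃ a b c e : ℕ, k = (a + b) + (c + e) ∧ a < m ∧ b < m ∧ c < m ∧ e < m := by
  refine ⟨min k (m - 1), min (k - (m - 1)) (m - 1), min (k - 2 * (m - 1)) (m - 1),
    min (k - 3 * (m - 1)) (m - 1), ?_, ?_, ?_, ?_, ?_⟩ <;> omega

/-- The fluctuations up to twice the time of a level. -/
lemma phi7 [IsProbabilityMeasure ρ] (hd : 0 < d) (hρ : EM ρ) (β : ℝ) (h : Vec d) {m : ℕ} {y : ℝ}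
    (hm : 2 ≤ m) (hlo : ∀ k : ℕ, k < m → fM ρ β h k < y) :
    ∀ k : ℕ, k ≤ 2 * m → En ρ β h k ≤ 29 * y ∧ Fn ρ β h k ≤ 29 * y := by
  intro k hk
  obtain ⟨a, b, c, e, hab, ha, hb, hc, he⟩ := four7 hm hk
  have hE : ∀ k : ℕ, k < m → En ρ β h k ≤ y ∧ Fn ρ β h k ≤ y := fun k hk =>
    ⟨(le_max_left _ _).trans (hlo k hk).le, (le_max_right _ _).trans (hlo k hk).le⟩
  have hE0 := fun k => En_nonneg15 (ρ := ρ) hd hρ β h k
  have h1 := En_add15 (ρ := ρ) hd hρ β h a b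
  have h2 := En_add15 (ρ := ρ) hd hρ β h c e
  have h3 := En_add15 (ρ := ρ) hd hρ β h (a + b) (c + e)
  have f1 := fadd7 (ρ := ρ) hd hρ β h a b
  have f2 := fadd7 (ρ := ρ) hd hρ β h c e
  have f3 := fadd7 (ρ := ρ) hd hρ β h (a + b) (c + e)
  have g1 := hE a ha
  have g2 := hE b hb
  have g3 := hE c hc
  have g4 := hE e he
  have y0 : 0 ≤ y := (hE0 a).trans g1.1
  rw [hab]
  constructor
  · linarith
  · linarith

/-- The number. -/
lemma num7 (i : ℕ) {r u : ℝ} (hr : 0 < r) (hu : 0 < u) (hu1 : u ≤ 1)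
    (hi : (4 : ℝ) ^ (i + 2) * r ≤ 16 * (1 / 4) ^ i) :
    ((2 : ℝ) ^ (i + 2) * r) ^ u ≤ 4 * Real.exp (-(u / 2 * i)) * r ^ (u / 2) := by
  have h1 : ((2 : ℝ) ^ (i + 2) * r) ^ u = ((4 : ℝ) ^ (i + 2) * r) ^ (u / 2) * r ^ (u / 2) := by
    rw [← Real.mul_rpow (by positivity) hr.le]
    have h2 : (4 : ℝ) ^ (i + 2) * r * r = ((2 : ℝ) ^ (i + 2) * r) ^ 2 := by
      have : (4 : ℝ) = 2 ^ 2 := by norm_num
      rw [this, ← pow_mul, mul_comm 2 (i + 2), pow_mul]
      ring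
    rw [h2, ← Real.rpow_natCast ((2 : ℝ) ^ (i + 2) * r) 2, ← Real.rpow_mul (by positivity)]
    congr 1
    push_cast
    ring
  have h2 : ((4 : ℝ) ^ (i + 2) * r) ^ (u / 2) ≤ 4 * Real.exp (-(u / 2 * i)) := by
    have h3 : ((4 : ℝ) ^ (i + 2) * r) ^ (u / 2) ≤ (16 * (1 / 4) ^ i : ℝ) ^ (u / 2) :=
      Real.rpow_le_rpow (by positivity) hi (by positivity)
    have h4 : (16 * (1 / 4) ^ i : ℝ) ^ (u / 2) = (16 : ℝ) ^ (u / 2) * ((1 / 4 : ℝ) ^ i) ^ (u / 2) :=
      Real.mul_rpow (by norm_num) (by positivity)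
    have h5 : (16 : ℝ) ^ (u / 2) ≤ 4 := by
      have h6 : (16 : ℝ) ^ (u / 2) ≤ (16 : ℝ) ^ (1 / 2 : ℝ) :=
        Real.rpow_le_rpow_of_exponent_le (by norm_num) (by linarith)
      have h7 : (16 : ℝ) ^ (1 / 2 : ℝ) = 4 := by
        rw [show (16 : ℝ) = 4 ^ (2 : ℝ) by norm_num, ← Real.rpow_mul (by norm_num)]
        norm_num
      linarith
    have h6 : ((1 / 4 : ℝ) ^ i) ^ (u / 2) ≤ Real.exp (-(u / 2 * i)) := by
      rw [Real.rpow_def_of_pos (by positivity)]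
      refine Real.exp_le_exp.2 ?_
      rw [Real.log_pow, Real.log_div (by norm_num) (by norm_num), Real.log_one]
      have h7 : 1 ≤ Real.log 4 := by
        have h8 : Real.log 4 = 2 * Real.log 2 := by
          rw [show (4 : ℝ) = 2 ^ 2 by norm_num, Real.log_pow]
          norm_num
        have := Real.log_two_gt_d9
        linarith
      have h8 : 0 ≤ (i : ℝ) * (u / 2) := by positivity
      nlinarith
    rw [h4] at h3
    refine h3.trans (mul_le_mul h5 h6 (by positivity) (by norm_num))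
  rw [h1]
  exact mul_le_mul_of_nonneg_right h2 (by positivity)

/-- The data of one group. -/
structure Gp7 (n m0 M i : ℕ) : Prop where
  pos : 1 ≤ m0
  lt : 2 ^ (i + 1) * m0 < M
  le : M ≤ n
  num : (4 : ℝ) ^ (i + 2) * ((m0 : ℝ) / M) ≤ 16 * (1 / 4) ^ i

lemma pow4_7 (i : ℕ) : (4 : ℝ) ^ (i + 2) = 16 * 4 ^ i := by ring

/-- The groups with small index. -/
lemma gp7 {n m0 M' i : ℕ} (h3 : 3 ≤ m0) (hn : m0 ^ 4 ≤ n)
    (hnc : M' ≤ n → 16 ^ (i + 1) * m0 < M') (hi : (2 ^ i) ^ 8 ≤ n) :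
    Gp7 n m0 (min M' n) i := by
  have hm0 : (0 : ℝ) < m0 := by
    have : 0 < m0 := by omega
    exact_mod_cast this
  rcases le_or_gt M' n with h | h
  · rw [min_eq_left h]
    have h1 := hnc h
    have h2 : 2 ^ (i + 1) * m0 ≤ 16 ^ (i + 1) * m0 :=
      Nat.mul_le_mul_right _ (Nat.pow_le_pow_left (by norm_num) _)
    refine ⟨by omega, lt_of_le_of_lt h2 h1, h, ?_⟩
    have h4 : ((16 : ℝ) ^ (i + 1) * m0) ≤ M' := by exact_mod_cast h1.le
    have hM : (0 : ℝ) < M' := lt_of_lt_of_le (by positivity) h4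
    rw [← mul_div_assoc, div_le_iff₀ hM]
    have h5 : 16 * (1 / 4 : ℝ) ^ i * ((16 : ℝ) ^ (i + 1) * m0) ≤ 16 * (1 / 4) ^ i * M' :=
      mul_le_mul_of_nonneg_left h4 (by positivity)
    refine le_trans ?_ h5
    have h6 : (1 / 4 : ℝ) ^ i * 16 ^ (i + 1) = 16 * 4 ^ i := by
      rw [pow_succ, ← mul_assoc, ← mul_pow]
      norm_num
      ring
    have h7 : 16 * (1 / 4 : ℝ) ^ i * ((16 : ℝ) ^ (i + 1) * m0) = 16 * (16 * 4 ^ i) * m0 := by
      rw [← h6]
      ring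
    rw [h7, pow4_7]
    have : (0 : ℝ) < 4 ^ i * m0 := by positivity
    nlinarith
  · rw [min_eq_right h.le]
    have h4 : (2 ^ i) ^ 4 * m0 ≤ n := by
      by_contra hcon
      push Not at hcon
      have h5 : n ^ 4 < ((2 ^ i) ^ 4 * m0) ^ 4 := Nat.pow_lt_pow_left hcon (by norm_num)
      have h6 : ((2 ^ i) ^ 4 * m0) ^ 4 = ((2 ^ i) ^ 8) ^ 2 * m0 ^ 4 := by ring
      have h7 : ((2 ^ i) ^ 8) ^ 2 * m0 ^ 4 ≤ n ^ 2 * n :=
        Nat.mul_le_mul (Nat.pow_le_pow_left hi 2) hn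
      have hn1 : 1 ≤ n := le_trans (Nat.one_le_pow _ _ (by omega)) hn
      have h8 : n ^ 2 * n ≤ n ^ 4 := by
        have : n ^ 4 = n ^ 2 * n * n := by ring
        rw [this]
        exact Nat.le_mul_of_pos_right _ (by omega)
      omega
    have h5 : 2 ^ (i + 1) * m0 < n := by
      rcases Nat.eq_zero_or_pos i with h0 | h0
      · subst h0
        have : 2 * m0 < m0 ^ 4 := by
          have h6 : m0 ^ 4 = m0 * m0 * (m0 * m0) := by ring
          have h7 : 9 ≤ m0 * m0 := Nat.mul_le_mul h3 h3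
          have h8 : 9 * (m0 * m0) ≤ m0 * m0 * (m0 * m0) := Nat.mul_le_mul_right _ h7
          have h9 : 3 * m0 ≤ m0 * m0 := Nat.mul_le_mul_right _ h3
          omega
        simpa using lt_of_lt_of_le this hn
      · have h6 : 2 ^ (i + 1) < (2 ^ i) ^ 4 := by
          rw [← pow_mul]
          exact Nat.pow_lt_pow_right (by norm_num) (by omega)
        exact lt_of_lt_of_le (Nat.mul_lt_mul_of_pos_right h6 (by omega)) h4
    refine ⟨by omega, h5, le_refl _, ?_⟩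
    have h6 : ((2 : ℝ) ^ i) ^ 4 * m0 ≤ n := by exact_mod_cast h4
    have hn0 : (0 : ℝ) < n := lt_of_lt_of_le (by positivity) h6
    rw [← mul_div_assoc, div_le_iff₀ hn0]
    have h7 : 16 * (1 / 4 : ℝ) ^ i * (((2 : ℝ) ^ i) ^ 4 * m0) ≤ 16 * (1 / 4) ^ i * n :=
      mul_le_mul_of_nonneg_left h6 (by positivity)
    refine le_trans (le_of_eq ?_) h7
    have h8 : (1 / 4 : ℝ) ^ i * ((2 : ℝ) ^ i) ^ 4 = 4 ^ i := by
      rw [← pow_mul, mul_comm i 4, pow_mul, ← mul_pow]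
      norm_num
    rw [pow4_7]
    calc 16 * 4 ^ i * (m0 : ℝ) = 16 * ((1 / 4 : ℝ) ^ i * ((2 : ℝ) ^ i) ^ 4) * m0 := by rw [h8]
      _ = _ := by ring

/-- From SING to the price, one horizon. -/
lemma pr7 {n m0 M i : ℕ} (hG : Gp7 n m0 M i) {C₀ : ℝ} (hC : 1 ≤ C₀) {T₁ : ℕ}
    (hT : T₁ ≤ 2 ^ (i + 1) * m0) :
    C₀ * ((T₁ : ℝ) / (M - 1 : ℕ)) ^ (1 / C₀) ≤
      4 * C₀ * Real.exp (-(1 / C₀ / 2 * i)) * ((m0 : ℝ) / M) ^ (1 / C₀ / 2) := by
  have hm0 : (0 : ℝ) < m0 := by exact_mod_cast hG.pos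
  have h2 : 2 ≤ M := by
    have h3 := hG.lt
    have h4 : 1 * 1 ≤ 2 ^ (i + 1) * m0 := Nat.mul_le_mul (Nat.one_le_two_pow) hG.pos
    omega
  have hM0 : (0 : ℝ) < M := by
    have : 0 < M := by omega
    exact_mod_cast this
  have hM : (M : ℝ) / 2 ≤ (M - 1 : ℕ) := by
    rw [Nat.cast_sub (by omega)]
    have : (2 : ℝ) ≤ M := by exact_mod_cast h2
    push_cast
    linarith
  have hM1 : (0 : ℝ) < (M - 1 : ℕ) := lt_of_lt_of_le (by positivity) hM
  have hC0 : 0 < C₀ := by linarith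
  have h1 : (T₁ : ℝ) / (M - 1 : ℕ) ≤ 2 ^ (i + 2) * ((m0 : ℝ) / M) := by
    rw [div_le_iff₀ hM1]
    have h3 : (T₁ : ℝ) ≤ 2 ^ (i + 1) * m0 := by exact_mod_cast hT
    have h4 : (2 : ℝ) ^ (i + 2) * ((m0 : ℝ) / M) * (M / 2) ≤
        2 ^ (i + 2) * ((m0 : ℝ) / M) * (M - 1 : ℕ) :=
      mul_le_mul_of_nonneg_left hM (by positivity)
    have h5 : (2 : ℝ) ^ (i + 2) * ((m0 : ℝ) / M) * (M / 2) = 2 ^ (i + 1) * m0 := by
      field_simp
      ring
    linarith
  have h3 : ((T₁ : ℝ) / (M - 1 : ℕ)) ^ (1 / C₀) ≤ (2 ^ (i + 2) * ((m0 : ℝ) / M)) ^ (1 / C₀) :=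
    Real.rpow_le_rpow (by positivity) h1 (by positivity)
  have h4 := num7 i (r := (m0 : ℝ) / M) (u := 1 / C₀) (by positivity) (by positivity)
    (by rw [div_le_one hC0]; exact hC) hG.num
  calc C₀ * ((T₁ : ℝ) / (M - 1 : ℕ)) ^ (1 / C₀)
      ≤ C₀ * (4 * Real.exp (-(1 / C₀ / 2 * i)) * ((m0 : ℝ) / M) ^ (1 / C₀ / 2)) :=
        mul_le_mul_of_nonneg_left (h3.trans h4) hC0.le
    _ = _ := by ring

/-- SING at one horizon, in the form of the group `i`. -/
lemma one7 {β : ℝ} {C₀ κ : ℝ} (hκ : 0 < κ) (hC : 1 ≤ C₀) {h : Vec d}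
    (hs : ∀ (T₀ T₁ T : ℕ) (θ s₀ φ Φ : ℝ),
    1 ≤ T₁ → T₁ ≤ T → 0 ≤ φ →
    (∀ k : ℕ, k ≤ T₁ - T₀ → En ρ β h k ≤ φ ∧ Fn ρ β h k ≤ φ) →
    (∀ k : ℕ, k ≤ T → En ρ β h k ≤ Φ ∧ Fn ρ β h k ≤ Φ) →
    A ρ β h T₁ + 4 * Fn ρ β h T₁ ≤ s₀ →
    Φ + 1 < 8 / κ * (lam ρ β h * T₁ + θ - (3 * φ + 1) - s₀) →
    (law d ρ).real {η | ∃ s : ℕ, T₀ ≤ s ∧ s ≤ T₁ ∧ lam ρ β h * s + θ ≤ X β h η s} ≤
      C₀ * ((T₁ : ℝ) / T) ^ (1 / C₀))
    {n m0 M i p : ℕ} (hG : Gp7 n m0 M i)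
    (hM : ∀ k : ℕ, k < M → fM ρ β h k < 2 ^ (p + i + 1)) {T₀ T₁ : ℕ}
    (hT : T₁ ≤ 2 ^ (i + 1) * m0) (hT1 : 1 ≤ T₁) {θ φ : ℝ} (hφ : 0 ≤ φ)
    (hk : ∀ k : ℕ, k ≤ T₁ - T₀ → En ρ β h k ≤ φ ∧ Fn ρ β h k ≤ φ)
    (hθ : 4 * Fn ρ β h T₁ + 3 * φ + 1 + κ / 2 * (2 ^ i * 2 ^ p) ≤ En ρ β h T₁ + θ) :
    (law d ρ).real {η | ∃ s : ℕ, T₀ ≤ s ∧ s ≤ T₁ ∧ lam ρ β h * s + θ ≤ X β h η s} ≤
      4 * C₀ * Real.exp (-(1 / C₀ / 2 * i)) * ((m0 : ℝ) / M) ^ (1 / C₀ / 2) := by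
  refine le_trans (hs T₀ T₁ (M - 1) θ (A ρ β h T₁ + 4 * Fn ρ β h T₁) φ (2 ^ (p + i + 1)) hT1
    ?_ hφ hk ?_ (le_refl _) ?_) (pr7 hG hC hT)
  · have := hG.lt
    omega
  · intro k hk
    have h1 : k < M := by
      have := hG.lt
      omega
    exact ⟨(le_max_left _ _).trans (hM k h1).le, (le_max_right _ _).trans (hM k h1).le⟩
  · have h1 : κ / 2 * (2 ^ i * 2 ^ p) ≤
        lam ρ β h * T₁ + θ - (3 * φ + 1) - (A ρ β h T₁ + 4 * Fn ρ β h T₁) := by
      unfold En at hθ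
      linarith
    have h2 : 8 / κ * (κ / 2 * (2 ^ i * 2 ^ p)) ≤
        8 / κ * (lam ρ β h * T₁ + θ - (3 * φ + 1) - (A ρ β h T₁ + 4 * Fn ρ β h T₁)) :=
      mul_le_mul_of_nonneg_left h1 (by positivity)
    have h3 : 8 / κ * (κ / 2 * ((2 : ℝ) ^ i * 2 ^ p)) = 4 * (2 ^ i * 2 ^ p) := by
      field_simp
      ring
    have h4 : (2 : ℝ) ^ (p + i + 1) = 2 * (2 ^ i * 2 ^ p) := by ring
    have h5 : (1 : ℝ) ≤ 2 ^ i * 2 ^ p := by
      have e1 : (1 : ℝ) ≤ 2 ^ i := one_le_pow₀ (by norm_num)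
      have e2 : (1 : ℝ) ≤ 2 ^ p := one_le_pow₀ (by norm_num)
      nlinarith
    rw [h4]
    linarith

/-- Chebyshev at a long horizon. -/
lemma chb7 [IsProbabilityMeasure ρ] (hd : 0 < d) (hρ : EM ρ) (β : ℝ) (h : Vec d) (T : ℕ) {y K : ℝ}
    (hy : 0 < y) (hV : Va ρ β h T ≤ K) {b : ℝ} (hb : A ρ β h T + y ≤ b) :
    (law d ρ).real {η | b ≤ X β h η T} ≤ K / y ^ 2 := by
  have hi := N85.Va_int (ρ := ρ) hd hρ β h T
  have h1 := mul_meas_ge_le_integral_of_nonneg (μ := law d ρ)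
    (Eventually.of_forall fun η => sq_nonneg (X β h η T - A ρ β h T)) hi (y ^ 2)
  have h2 : ∫ η, (X β h η T - A ρ β h T) ^ 2 ∂(law d ρ) ≤ K := hV
  have h3 : (law d ρ).real {η | b ≤ X β h η T} ≤
      (law d ρ).real {η | y ^ 2 ≤ (X β h η T - A ρ β h T) ^ 2} := by
    refine measureReal_mono fun η hη => ?_
    have h4 : b ≤ X β h η T := hη
    show y ^ 2 ≤ (X β h η T - A ρ β h T) ^ 2
    exact pow_le_pow_left₀ hy.le (by linarith) 2
  rw [le_div_iff₀ (by positivity), mul_comm]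
  exact (mul_le_mul_of_nonneg_left h3 (by positivity)).trans (h1.trans h2)

/-- The dyadic exponent. -/
lemma reg7 {n m0 p i : ℕ} {m : ℕ → ℕ} {f : ℕ → ℝ} (hlo : ∀ l k : ℕ, k < m l → f k < 2 ^ l)
    (hnc : ∀ j : ℕ, m (p + j + 1) ≤ n → 16 ^ (j + 1) * m0 < m (p + j + 1)) {k : ℕ}
    (hk : k ≤ 2 ^ (i + 1) * m0) (hkn : k ≤ n) {κ : ℝ} (hκ : 0 < κ) {k0 : ℕ}
    (hk0 : 64 / κ ≤ 2 ^ k0) (hi : 2 * k0 ≤ i) : f k ≤ κ / 32 * (2 ^ i * 2 ^ p) := by
  set j : ℕ := (i + 1) / 4 with hj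
  have h1 : k < m (p + j + 1) := by
    rcases le_or_gt (m (p + j + 1)) n with h | h
    · refine lt_of_le_of_lt (hk.trans (Nat.mul_le_mul_right _ ?_)) (hnc j h)
      rw [show (16 : ℕ) = 2 ^ 4 by norm_num, ← pow_mul]
      exact Nat.pow_le_pow_right (by norm_num) (by omega)
    · omega
  refine (hlo _ _ h1).le.trans ?_
  have h2 : j ≤ i / 2 := by omega
  have h3 : k0 ≤ i / 2 := by omega
  have h4 : (2 : ℝ) ^ j ≤ 2 ^ (i / 2) := pow_le_pow_right₀ (by norm_num) h2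
  have h5 : (2 : ℝ) ^ k0 ≤ 2 ^ (i / 2) := pow_le_pow_right₀ (by norm_num) h3
  have h6 : (2 : ℝ) ^ (i / 2) * 2 ^ (i / 2) ≤ 2 ^ i := by
    rw [← pow_add]
    exact pow_le_pow_right₀ (by norm_num) (by omega)
  have h7 : 64 / κ ≤ 2 ^ (i / 2) := hk0.trans h5
  have h8 : 2 * (2 : ℝ) ^ (i / 2) ≤ κ / 32 * 2 ^ i := by
    rw [div_le_iff₀ hκ] at h7
    have h9 : (0 : ℝ) < 2 ^ (i / 2) := by positivity
    have h10 : κ / 32 * (2 ^ (i / 2) * 2 ^ (i / 2)) ≤ κ / 32 * 2 ^ i :=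
      mul_le_mul_of_nonneg_left h6 (by positivity)
    nlinarith
  have h9 : (0 : ℝ) < 2 ^ p := by positivity
  calc (2 : ℝ) ^ (p + j + 1) = 2 * 2 ^ j * 2 ^ p := by ring
    _ ≤ 2 * 2 ^ (i / 2) * 2 ^ p := by
        refine mul_le_mul_of_nonneg_right (mul_le_mul_of_nonneg_left h4 (by norm_num)) h9.le
    _ ≤ κ / 32 * 2 ^ i * 2 ^ p := mul_le_mul_of_nonneg_right h8 h9.le
    _ = _ := by ring

/-- COST. -/
theorem cost7 [IsProbabilityMeasure ρ] (hd : 0 < d) (hρ : EM ρ) {β : ℝ}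
    (hS : S79.SingP d ρ β) : CostP d ρ β := by
  intro c₀ κ hc₀ hκ hκ2
  obtain ⟨C₀, hC₀, hsing⟩ := hS c₀ (8 / κ) hc₀ (by rw [le_div_iff₀ hκ]; linarith)
  have hC₀' : 0 < C₀ := by linarith
  obtain ⟨k0, hk0⟩ := pow_unbounded_of_one_lt (64 / κ) (by norm_num : (1 : ℝ) < 2)
  obtain ⟨a0, ha0⟩ := pow_unbounded_of_one_lt (1408 / κ) (by norm_num : (1 : ℝ) < 2)
  have hk01 : 1 ≤ k0 := by
    by_contra hcon
    have e : k0 = 0 := by omega
    rw [e, pow_zero, div_lt_iff₀ hκ] at hk0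
    linarith
  obtain ⟨c, hcd⟩ : ∃ c : ℝ, c = min (1 / C₀ / 2) (1 / 16) := ⟨_, rfl⟩
  have hc1 : c ≤ 1 / C₀ / 2 := by
    rw [hcd]
    exact min_le_left _ _
  have hc2 : c ≤ 1 / 16 := by
    rw [hcd]
    exact min_le_right _ _
  have hc : 0 < c := by
    rw [hcd]
    exact lt_min (by positivity) (by norm_num)
  obtain ⟨C, hCd⟩ : ∃ C : ℝ, C = 2 ^ (2 * k0) * (4 * C₀) + 8 / κ ^ 2 := ⟨_, rfl⟩
  have hCa : 2 ^ (2 * k0) * (4 * C₀) ≤ C := by
    rw [hCd]
    have : 0 ≤ 8 / κ ^ 2 := by positivity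
    linarith
  have hCb : 8 / κ ^ 2 ≤ C := by
    rw [hCd]
    have : 0 ≤ 2 ^ (2 * k0) * (4 * C₀) := by positivity
    linarith
  have hC1 : 1 ≤ C := by
    have h1 : (1 : ℝ) ≤ 2 ^ (2 * k0) := one_le_pow₀ (by norm_num)
    nlinarith
  refine ⟨a0, 2 ^ (2 * k0), 16, κ / 64, c, C, by positivity, hc, hC1, ?_⟩
  intro a ha h hL n m I hSy hV p hp i
  have hm2 : 2 ≤ m (p - a) := (hSy.big p hp).2
  have hap : a ≤ p := (hSy.big p hp).1
  have hmn : m p ^ 4 ≤ n := hSy.sm p hp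
  -- the sizes
  obtain ⟨x, hx⟩ : ∃ x : ℝ, x = 2 ^ p := ⟨_, rfl⟩
  obtain ⟨y, hy⟩ : ∃ y : ℝ, y = 2 ^ (p - a) := ⟨_, rfl⟩
  have hx0 : 0 < x := by
    rw [hx]
    positivity
  have hy1 : 1 ≤ y := by
    rw [hy]
    exact one_le_pow₀ (by norm_num)
  have hxy : 1408 * y ≤ κ * x := by
    have h1 : (2 : ℝ) ^ a0 ≤ 2 ^ a := pow_le_pow_right₀ (by norm_num) ha
    have h2 : x = 2 ^ a * y := by
      rw [hx, hy, ← pow_add]
      congr 1
      omega
    have h3 : 1408 / κ ≤ 2 ^ a := ha0.le.trans h1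
    rw [div_le_iff₀ hκ] at h3
    rw [h2]
    nlinarith
  have hx1 : 1 ≤ x := by nlinarith
  have hφ := phi7 (ρ := ρ) hd hρ β h hm2 (y := y) (fun k hk => by
    rw [hy]
    exact hSy.lo _ k hk)
  have hmp : 2 * m (p - a) < m p := by
    by_contra hcon
    have h1 := hφ (m p) (by omega)
    have h2 := hSy.hi p
    have h3 : fM ρ β h (m p) ≤ 29 * y := max_le h1.1 h1.2
    rw [← hx] at h2
    nlinarith
  have hm3 : 3 ≤ m p := by omega
  have hmn' : m p ≤ n := le_trans (Nat.le_self_pow (by norm_num) _) hmn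
  have hfs : ∀ k : ℕ, k ≤ 2 ^ (2 * k0) * m p → Fn ρ β h k ≤ κ / 64 * x := by
    intro k hk
    rw [hx]
    exact hSy.fs p hp k hk
  have hE : x ≤ En ρ β h (m p) := by
    have h2 := hSy.hi p
    have h3 := hfs (m p) (Nat.le_mul_of_pos_left _ (by positivity))
    rw [← hx] at h2
    rcases le_max_iff.1 h2 with h4 | h4
    · exact h4
    · nlinarith
  have hn1 : (1 : ℝ) ≤ n := by
    have : 1 ≤ n := by omega
    exact_mod_cast this
  have hnx : x ≤ (n : ℝ) ^ (1 / 16 : ℝ) := hE.trans (hV (m p) (by omega)).2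
  have hEn0 := fun k => En_nonneg15 (ρ := ρ) hd hρ β h k
  have hFn0 := fun k => Fn_nonneg15 (ρ := ρ) β h k
  obtain ⟨M, hM⟩ : ∃ M : ℕ, M = min (m (p + i + 1)) n := ⟨_, rfl⟩
  obtain ⟨H, hH⟩ : ∃ H : ℕ, H = m p - 2 * m (p - a) := ⟨_, rfl⟩
  obtain ⟨S, hSd⟩ : ∃ S : ℕ, S = 2 * m (p - a) := ⟨_, rfl⟩
  have hHS : H + S = m p := by omega
  have hH1 : 1 ≤ H := by omega
  rw [← hM, ← hH, ← hSd, ← hx]
  have hMlo : ∀ k : ℕ, k < M → fM ρ β h k < 2 ^ (p + i + 1) := fun k hk =>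
    hSy.lo _ k (lt_of_lt_of_le hk (by rw [hM]; exact min_le_left _ _))
  have hm0 : (0 : ℝ) < m p := by
    have : 0 < m p := by omega
    exact_mod_cast this
  rcases le_or_gt ((2 ^ i) ^ 8) n with hi | hi
  · -- the short horizons
    have hG : Gp7 n (m p) M i := by
      rw [hM]
      exact gp7 hm3 hmn (fun hle => hSy.nc p hp i hle) hi
    have hMpos : (0 : ℝ) < M := by
      have := hG.lt
      have h2 : 0 < M := by omega
      exact_mod_cast h2
    have hr1 : (m p : ℝ) / M ≤ 1 := by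
      rw [div_le_one hMpos]
      have h2 : m p ≤ 2 ^ (i + 1) * m p := Nat.le_mul_of_pos_left _ (by positivity)
      have h3 : m p ≤ M := h2.trans hG.lt.le
      exact_mod_cast h3
    have hr0 : (0 : ℝ) < (m p : ℝ) / M := by positivity
    -- it is enough
    have key : ∀ P : ℝ, P ≤ 2 ^ (2 * k0) * (4 * C₀ * Real.exp (-(1 / C₀ / 2 * i)) *
        ((m p : ℝ) / M) ^ (1 / C₀ / 2)) →
        P ≤ C * Real.exp (-(c * i)) * ((m p : ℝ) / M) ^ c := by
      intro P hP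
      have h1 : Real.exp (-(1 / C₀ / 2 * i)) ≤ Real.exp (-(c * i)) := by
        refine Real.exp_le_exp.2 ?_
        have : c * (i : ℝ) ≤ 1 / C₀ / 2 * i := mul_le_mul_of_nonneg_right hc1 (by positivity)
        linarith
      have h2 : ((m p : ℝ) / M) ^ (1 / C₀ / 2) ≤ ((m p : ℝ) / M) ^ c :=
        Real.rpow_le_rpow_of_exponent_ge hr0 hr1 hc1
      calc P ≤ 2 ^ (2 * k0) * (4 * C₀) * (Real.exp (-(1 / C₀ / 2 * i)) *
            ((m p : ℝ) / M) ^ (1 / C₀ / 2)) := by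
              refine hP.trans (le_of_eq ?_)
              ring
        _ ≤ C * (Real.exp (-(c * i)) * ((m p : ℝ) / M) ^ c) := by
              refine mul_le_mul hCa (mul_le_mul h1 h2 (by positivity) (by positivity))
                (by positivity) (by linarith)
        _ = _ := by ring
    have h1i : (1 : ℝ) ≤ 2 ^ i := one_le_pow₀ (by norm_num)
    have one_le_K : (1 : ℝ) ≤ 2 ^ (2 * k0) := one_le_pow₀ (by norm_num)
    rcases lt_or_ge i (2 * k0) with hi0 | hi0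
    · -- exact horizons
      have hB : 2 ^ (i + 1) * m p ≤ 2 ^ (2 * k0) * m p :=
        Nat.mul_le_mul_right _ (Nat.pow_le_pow_right (by norm_num) hi0)
      rcases Nat.eq_zero_or_pos i with hz | hz
      · subst hz
        refine key _ ?_
        have h1 := one7 (ρ := ρ) (β := β) hκ hC₀ (hsing h hL) hG hMlo (T₀ := H) (T₁ := m p)
          (by omega) (by omega) (θ := -((1 - κ) * x) - κ / 8 * x) (φ := 29 * y) (by linarith)
          (fun k hk => hφ k (by omega)) (by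
            have h2 := hfs (m p) (Nat.le_mul_of_pos_left _ (by positivity))
            rw [← hx]
            simp only [pow_zero, one_mul]
            nlinarith)
        have h3 : (law d ρ).real (Lg ρ β h n H S x κ (κ / 8 * x) 0) ≤ (law d ρ).real
            {η | ∃ s : ℕ, H ≤ s ∧ s ≤ m p ∧
              lam ρ β h * s + (-((1 - κ) * x) - κ / 8 * x) ≤ X β h η s} := by
          refine measureReal_mono ?_
          rintro η ⟨s, hs, h4⟩
          refine ⟨H + s, by omega, by omega, ?_⟩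
          rw [mul_comm]
          linarith
        refine (h3.trans h1).trans ?_
        have h5 : 0 ≤ 4 * C₀ * Real.exp (-(1 / C₀ / 2 * (0 : ℕ))) *
            ((m p : ℝ) / M) ^ (1 / C₀ / 2) := by positivity
        nlinarith
      · obtain ⟨j, rfl⟩ : ∃ j, i = j + 1 := ⟨i - 1, by omega⟩
        refine key _ ?_
        obtain ⟨W, hW⟩ : ∃ W : ℝ, W = 4 * C₀ * Real.exp (-(1 / C₀ / 2 * (j + 1 : ℕ))) *
            ((m p : ℝ) / M) ^ (1 / C₀ / 2) := ⟨_, rfl⟩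
        rw [← hW]
        have hW0 : 0 ≤ W := by
          rw [hW]
          positivity
        have hN : ∀ N ∈ Finset.Ico (2 ^ (j + 1)) (2 ^ (j + 2)),
            (law d ρ).real (LgN ρ β h H S x κ (κ / 8 * x) N) ≤ W := by
          intro N hN
          rw [Finset.mem_Ico] at hN
          have hNp : N * H + S ≤ N * m p := by
            have e1 : N * m p = N * H + N * S := by rw [← hHS, mul_add]
            have e2 : S ≤ N * S := Nat.le_mul_of_pos_left _ (by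
              have : 0 < 2 ^ (j + 1) := by positivity
              omega)
            omega
          have hNT : N * H + S ≤ 2 ^ (j + 1 + 1) * m p :=
            hNp.trans (Nat.mul_le_mul_right _ hN.2.le)
          have hNr : (2 : ℝ) ^ (j + 1) ≤ N := by exact_mod_cast hN.1
          have h2r : (2 : ℝ) ≤ 2 ^ (j + 1) := by
            calc (2 : ℝ) = 2 ^ 1 := by norm_num
              _ ≤ 2 ^ (j + 1) := pow_le_pow_right₀ (by norm_num) (by omega)
          have h1 := one7 (ρ := ρ) (β := β) hκ hC₀ (hsing h hL) hG hMlo (T₀ := N * H)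
            (T₁ := N * H + S) hNT (by omega) (θ := κ * N * x - κ / 8 * x) (φ := 29 * y)
            (by linarith) (fun k hk => hφ k (by omega)) (by
              have h2 := hfs (N * H + S) (hNT.trans hB)
              have h3 := hEn0 (N * H + S)
              rw [← hx]
              have h4 : κ * x * 2 ^ (j + 1) ≤ κ * x * N :=
                mul_le_mul_of_nonneg_left hNr (by positivity)
              have h5 : κ * x * 2 ≤ κ * x * 2 ^ (j + 1) :=
                mul_le_mul_of_nonneg_left h2r (by positivity)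
              nlinarith)
          rw [hW]
          refine le_trans (measureReal_mono ?_) h1
          rintro η ⟨s, hs, h4⟩
          refine ⟨N * H + s, by omega, by omega, ?_⟩
          rw [mul_comm]
          linarith
        have hsub : Lg ρ β h n H S x κ (κ / 8 * x) (j + 1) ⊆
            ⋃ N ∈ Finset.Ico (2 ^ (j + 1)) (2 ^ (j + 2)), LgN ρ β h H S x κ (κ / 8 * x) N := by
          rintro η ⟨N, h1, h2, _, h4⟩
          exact Set.mem_biUnion (Finset.mem_coe.2 (Finset.mem_Ico.2 ⟨h1, h2⟩)) h4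
        refine (measureReal_mono hsub (measure_ne_top _ _)).trans
          ((measureReal_biUnion_finset_le _ _).trans ?_)
        refine (Finset.sum_le_sum hN).trans ?_
        rw [Finset.sum_const, nsmul_eq_mul]
        refine mul_le_mul_of_nonneg_right ?_ hW0
        have e1 : (Finset.Ico (2 ^ (j + 1)) (2 ^ (j + 2))).card ≤ 2 ^ (2 * k0) := by
          rw [Nat.card_Ico]
          refine (Nat.sub_le _ _).trans (Nat.pow_le_pow_right (by norm_num) (by omega))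
        exact_mod_cast e1
    · -- the dyadic push
      obtain ⟨j, rfl⟩ : ∃ j, i = j + 1 := ⟨i - 1, by omega⟩
      have h2r : (2 : ℝ) ≤ 2 ^ (j + 1) := by
        calc (2 : ℝ) = 2 ^ 1 := by norm_num
          _ ≤ 2 ^ (j + 1) := pow_le_pow_right₀ (by norm_num) (by omega)
      have hT : 2 ^ (j + 2) * H + S ≤ 2 ^ (j + 1 + 1) * m p := by
        have e1 : 2 ^ (j + 1 + 1) * m p = 2 ^ (j + 2) * H + 2 ^ (j + 2) * S := by
          rw [← hHS, mul_add]
        have e2 : S ≤ 2 ^ (j + 2) * S := Nat.le_mul_of_pos_left _ (by positivity)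
        omega
      have hreg : ∀ k : ℕ, k ≤ 2 ^ (j + 2) * H + S →
          fM ρ β h k ≤ κ / 32 * (2 ^ (j + 1) * x) := by
        intro k hk
        rw [hx]
        refine reg7 (n := n) (m0 := m p) (p := p) (m := m) (fun l k hk => hSy.lo l k hk)
          (fun j hj => hSy.nc p hp j hj) (hk.trans hT) ?_ hκ hk0.le hi0
        have := hG.lt
        have := hG.le
        omega
      refine key _ ?_
      have h1 := one7 (ρ := ρ) (β := β) hκ hC₀ (hsing h hL) hG hMlo (T₀ := 2 ^ (j + 1) * H)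
        (T₁ := 2 ^ (j + 2) * H + S) hT (by omega) (θ := κ * 2 ^ (j + 1) * x - κ / 8 * x)
        (φ := κ / 32 * (2 ^ (j + 1) * x)) (by positivity) (fun k hk =>
          ⟨(le_max_left _ _).trans (hreg k (by omega)),
            (le_max_right _ _).trans (hreg k (by omega))⟩) (by
          have h2 : Fn ρ β h (2 ^ (j + 2) * H + S) ≤ κ / 32 * (2 ^ (j + 1) * x) :=
            (le_max_right _ _).trans (hreg _ le_rfl)
          have h3 := hEn0 (2 ^ (j + 2) * H + S)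
          rw [← hx]
          have h5 : κ * x * 2 ≤ κ * x * 2 ^ (j + 1) :=
            mul_le_mul_of_nonneg_left h2r (by positivity)
          nlinarith)
      have h3 : (law d ρ).real (Lg ρ β h n H S x κ (κ / 8 * x) (j + 1)) ≤ (law d ρ).real
          {η | ∃ s : ℕ, 2 ^ (j + 1) * H ≤ s ∧ s ≤ 2 ^ (j + 2) * H + S ∧
            lam ρ β h * s + (κ * 2 ^ (j + 1) * x - κ / 8 * x) ≤ X β h η s} := by
        refine measureReal_mono ?_
        rintro η ⟨N, hN1, hN2, _, s, hs, h4⟩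
        have e1 : 2 ^ (j + 1) * H ≤ N * H := Nat.mul_le_mul_right _ hN1
        have e2 : N * H ≤ 2 ^ (j + 2) * H := Nat.mul_le_mul_right _ hN2.le
        refine ⟨N * H + s, by omega, by omega, ?_⟩
        have hNr : (2 : ℝ) ^ (j + 1) ≤ N := by exact_mod_cast hN1
        have h5 : κ * x * 2 ^ (j + 1) ≤ κ * x * N :=
          mul_le_mul_of_nonneg_left hNr (by positivity)
        rw [mul_comm]
        nlinarith
      refine (h3.trans h1).trans ?_
      refine le_mul_of_one_le_left (by positivity) one_le_K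
  · -- the long horizons
    have hi1 : 1 ≤ i := by
      by_contra hcon
      have e : i = 0 := by omega
      rw [e] at hi
      simp at hi
      omega
    obtain ⟨j, rfl⟩ : ∃ j, i = j + 1 := ⟨i - 1, by omega⟩
    have hrhs : 0 ≤ C * Real.exp (-(c * (j + 1 : ℕ))) * ((m p : ℝ) / M) ^ c := by positivity
    rcases le_or_gt (2 ^ (j + 1) * H) n with hle | hgt
    swap
    · have h0 : Lg ρ β h n H S x κ (κ / 8 * x) (j + 1) = ∅ := by
        rw [Set.eq_empty_iff_forall_notMem]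
        rintro η ⟨N, h1, _, h3, _⟩
        have := Nat.mul_le_mul_right H h1
        omega
      rw [h0, measureReal_empty]
      exact hrhs
    have hT4 : 2 ^ (j + 2) * H + S ≤ 4 * n := by
      have e1 : 2 ^ (j + 2) * H = 2 * (2 ^ (j + 1) * H) := by ring
      omega
    obtain ⟨K, hK⟩ : ∃ K : ℝ, K = (n : ℝ) ^ (1 / 16 : ℝ) := ⟨_, rfl⟩
    have hK1 : 1 ≤ K := by
      rw [hK]
      exact Real.one_le_rpow hn1 (by norm_num)
    rw [← hK] at hnx
    have hK8 : K * K < 2 ^ (j + 1) := by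
      have h1 : (n : ℝ) < ((2 : ℝ) ^ (j + 1)) ^ 8 := by exact_mod_cast hi
      have h2 : (K * K) ^ 8 = n := by
        rw [hK, ← Real.rpow_add (by linarith), ← Real.rpow_natCast, ← Real.rpow_mul (by linarith)]
        norm_num
      rw [← h2] at h1
      exact lt_of_pow_lt_pow_left₀ 8 (by positivity) h1
    have hVK : ∀ k : ℕ, k ≤ 4 * n → Va ρ β h k ≤ K ∧ En ρ β h k ≤ K ∧ Fn ρ β h k ≤ K := by
      intro k hk
      obtain ⟨h1, h2⟩ := hV k hk
      rw [← hK] at h1 h2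
      refine ⟨h1, h2, ?_⟩
      have h3 := Fn_sq15 (ρ := ρ) hd hρ β h k
      have h4 := hFn0 k
      by_contra hcon
      push Not at hcon
      nlinarith
    have hpush := S79.push79 (ρ := ρ) hd hρ β h (T₀ := 2 ^ (j + 1) * H)
      (T₁ := 2 ^ (j + 2) * H + S) (θ := κ * 2 ^ (j + 1) * x - κ / 8 * x) (φ := K) (by linarith)
      (fun k hk => ⟨(hVK k (by omega)).2.1, (hVK k (by omega)).2.2⟩)
    have h3 : (law d ρ).real (Lg ρ β h n H S x κ (κ / 8 * x) (j + 1)) ≤ (law d ρ).real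
        {η | ∃ s : ℕ, 2 ^ (j + 1) * H ≤ s ∧ s ≤ 2 ^ (j + 2) * H + S ∧
          lam ρ β h * s + (κ * 2 ^ (j + 1) * x - κ / 8 * x) ≤ X β h η s} := by
      refine measureReal_mono ?_
      rintro η ⟨N, hN1, hN2, _, s, hs, h4⟩
      have e1 : 2 ^ (j + 1) * H ≤ N * H := Nat.mul_le_mul_right _ hN1
      have e2 : N * H ≤ 2 ^ (j + 2) * H := Nat.mul_le_mul_right _ hN2.le
      refine ⟨N * H + s, by omega, by omega, ?_⟩
      have hNr : (2 : ℝ) ^ (j + 1) ≤ N := by exact_mod_cast hN1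
      have h5 : κ * x * 2 ^ (j + 1) ≤ κ * x * N :=
        mul_le_mul_of_nonneg_left hNr (by positivity)
      rw [mul_comm]
      nlinarith
    have hch := chb7 (ρ := ρ) hd hρ β h (2 ^ (j + 2) * H + S) (y := κ / 2 * 2 ^ (j + 1))
      (K := K) (by positivity) (hVK _ hT4).1
      (b := lam ρ β h * (2 ^ (j + 2) * H + S : ℕ) + (κ * 2 ^ (j + 1) * x - κ / 8 * x) -
        (3 * K + 1)) (by
        have h4 := hEn0 (2 ^ (j + 2) * H + S)
        unfold En at h4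
        have h5 : K * K * x ≤ 2 ^ (j + 1) * x := mul_le_mul_of_nonneg_right hK8.le hx0.le
        have h6 : 1408 ≤ κ * x := by nlinarith
        have h7 : 1408 ≤ κ * K := by nlinarith
        have h8 : K * 1408 ≤ κ * 2 ^ (j + 1) := by nlinarith
        have h9 : κ * 2 ^ (j + 1) * 1 ≤ κ * 2 ^ (j + 1) * x :=
          mul_le_mul_of_nonneg_left hx1 (by positivity)
        have h10 : (2 : ℝ) ≤ 2 ^ (j + 1) := by
          calc (2 : ℝ) = 2 ^ 1 := by norm_num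
            _ ≤ 2 ^ (j + 1) := pow_le_pow_right₀ (by norm_num) (by omega)
        have h11 : κ * x * 2 ≤ κ * x * 2 ^ (j + 1) :=
          mul_le_mul_of_nonneg_left h10 (by positivity)
        nlinarith)
    refine (h3.trans (hpush.trans (mul_le_mul_of_nonneg_left hch (by norm_num)))).trans ?_
    -- the numbers
    have hM1 : (1 : ℝ) / n ≤ (m p : ℝ) / M := by
      have h4 : (1 : ℝ) ≤ m p := by
        have : 1 ≤ m p := by omega
        exact_mod_cast this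
      have h5 : M ≤ n := by
        rw [hM]
        exact min_le_right _ _
      have h5' : (M : ℝ) ≤ n := by exact_mod_cast h5
      have h6 : 0 < M := by
        rw [hM]
        refine lt_min ?_ (by omega)
        by_contra hcon
        have e : m (p + (j + 1) + 1) = 0 := by omega
        have h7 := hSy.hi (p + (j + 1) + 1)
        rw [e] at h7
        unfold fM at h7
        rw [En_zero15, Fn_zero15, max_self] at h7
        have h8 : (0 : ℝ) < 2 ^ (p + (j + 1) + 1) := by positivity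
        linarith
      have h6' : (0 : ℝ) < M := by exact_mod_cast h6
      exact div_le_div₀ (by positivity) h4 h6' h5'
    have hr : K⁻¹ ≤ ((m p : ℝ) / M) ^ c := by
      have h4 : (1 / (n : ℝ)) ^ (1 / 16 : ℝ) ≤ (1 / (n : ℝ)) ^ c :=
        Real.rpow_le_rpow_of_exponent_ge (by positivity)
          (by rw [div_le_one (by linarith)]; exact hn1) hc2
      have h5 : (1 / (n : ℝ)) ^ c ≤ ((m p : ℝ) / M) ^ c :=
        Real.rpow_le_rpow (by positivity) hM1 hc.le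
      have h6 : (1 / (n : ℝ)) ^ (1 / 16 : ℝ) = K⁻¹ := by
        rw [hK, one_div, Real.inv_rpow (by linarith)]
      rw [← h6]
      exact h4.trans h5
    have he : ((2 : ℝ) ^ (j + 1))⁻¹ ≤ Real.exp (-(c * (j + 1 : ℕ))) := by
      rw [Real.exp_neg]
      refine inv_anti₀ (Real.exp_pos _) ?_
      have h4 : (2 : ℝ) ^ (j + 1) = Real.exp (Real.log 2 * (j + 1 : ℕ)) := by
        rw [Real.exp_mul, Real.exp_log (by norm_num), Real.rpow_natCast]
      rw [h4]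
      refine Real.exp_le_exp.2 (mul_le_mul_of_nonneg_right ?_ (by positivity))
      have := Real.log_two_gt_d9
      linarith
    have hprod : ((2 : ℝ) ^ (j + 1))⁻¹ * K⁻¹ ≤
        Real.exp (-(c * (j + 1 : ℕ))) * ((m p : ℝ) / M) ^ c :=
      mul_le_mul he hr (by positivity) (by positivity)
    have hz : 2 * (K / (κ / 2 * 2 ^ (j + 1)) ^ 2) ≤ 8 / κ ^ 2 * (((2 : ℝ) ^ (j + 1))⁻¹ * K⁻¹) := by
      have h4 : 2 * (K / (κ / 2 * (2 : ℝ) ^ (j + 1)) ^ 2) =
          8 / κ ^ 2 * (((2 : ℝ) ^ (j + 1))⁻¹ * (K / 2 ^ (j + 1))) := by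
        field_simp
        ring
      rw [h4]
      refine mul_le_mul_of_nonneg_left (mul_le_mul_of_nonneg_left ?_ (by positivity))
        (by positivity)
      rw [div_le_iff₀ (by positivity), ← div_eq_inv_mul, le_div_iff₀ (by linarith)]
      exact hK8.le
    calc 2 * (K / (κ / 2 * 2 ^ (j + 1)) ^ 2)
        ≤ 8 / κ ^ 2 * (((2 : ℝ) ^ (j + 1))⁻¹ * K⁻¹) := hz
      _ ≤ C * (Real.exp (-(c * (j + 1 : ℕ))) * ((m p : ℝ) / M) ^ c) :=
          mul_le_mul hCb hprod (by positivity) (by linarith)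
      _ = _ := by ring

end Pool.Agent.W_7d29a1_PL.C7

namespace Pool.Agent.W_7d29a1_PL

open MeasureTheory ProbabilityTheory Filter Topology Pool.Agent.W_MP_7d29a1_pr
  Pool.Agent.W_7d29a1_h46 Pool.Agent.W_7d29a1_h46u Pool.Agent.W_7d29a1_D2.B35
  Pool.Agent.W_7d29a1_Q29 Pool.Agent.W_7d29a1_R34 Pool.Agent.W_7d29a1_SP

/-- COST, over counting in time and amplification. -/
theorem costP7 {d : ℕ} {ρ : Measure ℝ} [IsProbabilityMeasure ρ] (hd : 0 < d) (hρ : EM ρ) {β : ℝ}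
    (hC : CntP d ρ β) (hA : AmpP d ρ β) : CostP d ρ β :=
  C7.cost7 hd hρ (S79.sing79 hd hρ hC hA)

end Pool.Agent.W_7d29a1_PL
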