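import Pool.Agent.W_7d29a1_PL.Push78

/-!
Theorem PL, leaf COST: the price of a single luck (helper78).
-/

namespace Pool.Agent.W_7d29a1_PL

open MeasureTheory ProbabilityTheory Filter Topology Pool.Agent.W_MP_7d29a1_pr
  Pool.Agent.W_7d29a1_h46 Pool.Agent.W_7d29a1_h46u Pool.Agent.W_7d29a1_D2.B35
  Pool.Agent.W_7d29a1_Q29 Pool.Agent.W_7d29a1_R34 Pool.Agent.W_7d29a1_SP

namespace P78

variable {d : ℕ} {ρ : Measure ℝ} [IsProbabilityMeasure ρ]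

/-- A single large value is rare, with a power. -/
lemma single (hd : 0 < d) (hρ : EM ρ) {β : ℝ} (hG : GrowP d ρ β) {c₀ D : ℝ} (hc : 0 < c₀)
    (hD : 1 ≤ D) : ∃ C : ℝ, 1 ≤ C ∧ ∀ h : Vec d, Loc1 ρ β h c₀ → ∀ (m T : ℕ) (u Φ : ℝ),
    1 ≤ m → 1 ≤ T → 0 < u → 4 * Fn ρ β h m ≤ u →
    (∀ k : ℕ, k ≤ T → En ρ β h k ≤ Φ ∧ Fn ρ β h k ≤ Φ) → Φ + 1 < D * u →
    (law d ρ).real {η | A ρ β h m + 2 * u < X β h η m} ≤ (C * m / T) ^ (1 / C) := by
  obtain ⟨C, hC, hG1⟩ := hG c₀ D hc hD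
  have hC0 : 0 < C := by linarith
  refine ⟨C, hC, fun h hL m T u Φ hm hT hu hF hk hΦ => ?_⟩
  have hm0 : (0 : ℝ) < m := by exact_mod_cast hm
  have hT0 : (0 : ℝ) < T := by exact_mod_cast hT
  by_contra hcon
  rw [not_le] at hcon
  set q := (law d ρ).real {η | A ρ β h m + 2 * u < X β h η m} with hq
  have hb0 : 0 ≤ (C * m / T) ^ (1 / C) := by positivity
  have hq0 : 0 < q := hb0.trans_lt hcon
  have h1 := mk15 (ρ := ρ) hd hρ β h m hu hF
  have h2 : q ≤ 1 / 4 := by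
    have hm' : MeasurableSet {η : Env d | X β h η m ≤ A ρ β h m + u} :=
      measurableSet_le (measurable_X β h m) measurable_const
    have h4 := probReal_compl_eq_one_sub (μ := law d ρ) hm'
    have h5 : q ≤ (law d ρ).real {η : Env d | X β h η m ≤ A ρ β h m + u}ᶜ := by
      refine measureReal_mono (fun w hw => ?_) (measure_ne_top _ _)
      have hw' : A ρ β h m + 2 * u < X β h w m := hw
      show ¬ (X β h w m ≤ A ρ β h m + u)
      linarith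
    linarith
  have h3 : C * m * (1 / q) ^ C ≤ T := by
    have h4 : C * m / T ≤ q ^ C := by
      have h5 := Real.rpow_le_rpow hb0 hcon.le hC0.le
      rwa [← Real.rpow_mul (by positivity), one_div, inv_mul_cancel₀ hC0.ne', Real.rpow_one] at h5
    have h6 : (1 / q) ^ C = 1 / q ^ C := by
      rw [Real.div_rpow (by norm_num) hq0.le, Real.one_rpow]
    have hqC : 0 < q ^ C := Real.rpow_pos_of_pos hq0 _
    rw [h6, mul_one_div, div_le_iff₀ hqC]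
    rw [div_le_iff₀ hT0] at h4
    linarith
  have h4 := hG1 h hL m T (A ρ β h m + u) (A ρ β h m + 2 * u) q Φ hm hq0 (by linarith)
    (by linarith) (by linarith) (by linarith) le_rfl h3 hk
  have h5 : D * (A ρ β h m + 2 * u - (A ρ β h m + u)) = D * u := by ring
  rw [h5] at h4
  linarith

/-- Chebyshev. -/
lemma cheb (hd : 0 < d) (hρ : EM ρ) (β : ℝ) (h : Vec d) (m : ℕ) {u : ℝ} (hu : 0 < u) :
    (law d ρ).real {η | A ρ β h m + 2 * u < X β h η m} ≤ Va ρ β h m / (4 * u ^ 2) := by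
  have hi := N85.Va_int (ρ := ρ) hd hρ β h m
  have h1 := mul_meas_ge_le_integral_of_nonneg (μ := law d ρ)
    (Eventually.of_forall fun η => sq_nonneg (X β h η m - A ρ β h m)) hi (4 * u ^ 2)
  have h2 : ∫ η, (X β h η m - A ρ β h m) ^ 2 ∂(law d ρ) = Va ρ β h m := rfl
  rw [h2] at h1
  have h3 : (law d ρ).real {η | A ρ β h m + 2 * u < X β h η m} ≤
      (law d ρ).real {η | 4 * u ^ 2 ≤ (X β h η m - A ρ β h m) ^ 2} := by
    refine measureReal_mono (fun w hw => ?_) (measure_ne_top _ _)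
    have h4 : A ρ β h m + 2 * u < X β h w m := hw
    show 4 * u ^ 2 ≤ (X β h w m - A ρ β h m) ^ 2
    nlinarith
  rw [le_div_iff₀ (by positivity)]
  have h5 := mul_le_mul_of_nonneg_left h3 (show 0 ≤ 4 * u ^ 2 by positivity)
  linarith

section Seq

variable {β : ℝ} {h : Vec d} {n a B Λ : ℕ} {ε : ℝ} {m : ℕ → ℕ} {I : Finset ℕ}

lemma fM_lt {k : ℕ} {y : ℝ} (hf : fM ρ β h k < y) : En ρ β h k < y ∧ Fn ρ β h k < y :=
  ⟨(le_max_left _ _).trans_lt hf, (le_max_right _ _).trans_lt hf⟩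

lemma mono (hS : Sy ρ β h n a B Λ ε m I) {l l' : ℕ} (hl : l ≤ l') : m l ≤ m l' := by
  by_contra hcon
  have h1 := hS.lo l (m l') (not_le.1 hcon)
  have h2 := hS.hi l'
  have h3 : (2 : ℝ) ^ l ≤ 2 ^ l' := pow_le_pow_right₀ (by norm_num) hl
  linarith

/-- The fluctuations on twice a level. -/
lemma win (hd : 0 < d) (hρ : EM ρ) {M₀ : ℕ} {y : ℝ} (h2 : 2 ≤ M₀)
    (hlo : ∀ k : ℕ, k < M₀ → fM ρ β h k < y) (r : ℕ) (hr : r ≤ 2 * M₀) :
    En ρ β h r ≤ 20 * y ∧ Fn ρ β h r ≤ 20 * y := by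
  have hy : 0 < y := (En_nonneg15 hd hρ β h 0).trans_lt (fM_lt (hlo 0 (by omega))).1
  have h3 : ∀ r : ℕ, r ≤ M₀ → En ρ β h r ≤ 2 * y ∧ Fn ρ β h r ≤ 6 * y := by
    intro r hr
    rcases hr.lt_or_eq with h4 | h4
    · obtain ⟨h5, h6⟩ := fM_lt (hlo r h4)
      exact ⟨by linarith, by linarith⟩
    · obtain ⟨k, rfl⟩ : ∃ k, r = k + 1 := ⟨r - 1, by omega⟩
      obtain ⟨h5, h6⟩ := fM_lt (hlo k (by omega))
      obtain ⟨h7, h8⟩ := fM_lt (hlo 1 (by omega))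
      have h9 := En_add15 (ρ := ρ) hd hρ β h k 1
      have h10 := Fn_add (ρ := ρ) hd hρ β h k 1
      exact ⟨by linarith, by linarith⟩
  obtain ⟨r₁, r₂, e, q1, q2⟩ : ∃ r₁ r₂ : ℕ, r = r₁ + r₂ ∧ r₁ ≤ M₀ ∧ r₂ ≤ M₀ := by
    rcases le_total r M₀ with h4 | h4
    · exact ⟨r, 0, by omega, h4, by omega⟩
    · exact ⟨M₀, r - M₀, by omega, le_rfl, by omega⟩
  subst e
  obtain ⟨a1, a2⟩ := h3 r₁ q1
  obtain ⟨b1, b2⟩ := h3 r₂ q2
  have h9 := En_add15 (ρ := ρ) hd hρ β h r₁ r₂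
  have h10 := Fn_add (ρ := ρ) hd hρ β h r₁ r₂
  exact ⟨by linarith, by linarith⟩

end Seq

/-- Numbers: the exponent. -/
lemma numA {C t y : ℝ} (hC : 1 ≤ C) (ht : 0 < t) (ht1 : t ≤ 1) (hy : 1 ≤ y) :
    (C * y * t) ^ (1 / C) ≤ C * y * t ^ (1 / (16 * C)) := by
  have hC0 : 0 < C := by linarith
  have h1 : 1 ≤ C * y := one_le_mul_of_one_le_of_one_le hC hy
  rw [Real.mul_rpow (by linarith) ht.le]
  refine mul_le_mul ?_ ?_ (by positivity) (by linarith)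
  · have h2 := Real.rpow_le_rpow_of_exponent_le h1 (show 1 / C ≤ 1 by
      rw [div_le_one hC0]
      exact hC)
    rwa [Real.rpow_one] at h2
  · refine Real.rpow_le_rpow_of_exponent_ge ht ht1 ?_
    exact one_div_le_one_div_of_le hC0 (by linarith)

lemma two_exp {C : ℝ} (hC : 1 ≤ C) (i : ℕ) :
    ((1 / 2 : ℝ) ^ i) ^ (1 / C) ≤ Real.exp (-(1 / (16 * C) * i)) := by
  have hC0 : 0 < C := by linarith
  have h1 := Real.log_two_gt_d9
  have h2 : ((1 / 2 : ℝ) ^ i) = Real.exp (-(Real.log 2 * i)) := by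
    rw [neg_mul_eq_neg_mul, ← Real.log_inv, mul_comm, Real.exp_nat_mul,
      Real.exp_log (by norm_num), one_div]
  rw [h2, ← Real.exp_mul]
  refine Real.exp_le_exp.2 ?_
  have h3 : (0 : ℝ) ≤ i := Nat.cast_nonneg i
  have h4 : 1 / (16 * C) * i = (1 / C) * (1 / 16 * i) := by
    field_simp
  have h5 : -(Real.log 2 * i) * (1 / C) = -((1 / C) * (Real.log 2 * i)) := by ring
  rw [h4, h5]
  refine neg_le_neg (mul_le_mul_of_nonneg_left ?_ (by positivity))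
  exact mul_le_mul_of_nonneg_right (by linarith) h3

lemma numB {C t : ℝ} (hC : 1 ≤ C) (ht : 0 < t) (i : ℕ) (hti : 16 ^ i * t ≤ 1) :
    (C * 2 ^ (i + 2) * t) ^ (1 / C) ≤
      4 * C * (Real.exp (-(1 / (16 * C) * i)) * t ^ (1 / (16 * C))) := by
  have hC0 : 0 < C := by linarith
  have ht1 : t ≤ 1 := by
    have h1 : (1 : ℝ) ≤ 16 ^ i := one_le_pow₀ (by norm_num)
    nlinarith
  have hs := Real.mul_self_sqrt ht.le
  have hs0 := Real.sqrt_nonneg t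
  have hs1 : Real.sqrt t ≤ 1 := Real.sqrt_le_one.2 ht1
  have h1 : 4 ^ i * Real.sqrt t ≤ 1 := by
    have h2 : (4 ^ i * Real.sqrt t) * (4 ^ i * Real.sqrt t) ≤ 1 * 1 := by
      have h3 : (4 ^ i * Real.sqrt t) * (4 ^ i * Real.sqrt t) = 16 ^ i * t := by
        have h4 : (4 ^ i * Real.sqrt t) * (4 ^ i * Real.sqrt t) =
            (4 ^ i * 4 ^ i) * (Real.sqrt t * Real.sqrt t) := by ring
        rw [h4, hs, ← mul_pow]
        norm_num
      rw [h3]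
      linarith
    exact abs_le_of_sq_le_sq' (by nlinarith) zero_le_one |>.2
  have h2 : C * 2 ^ (i + 2) * t ≤ 4 * C * ((1 / 2) ^ i * Real.sqrt t) := by
    have h3 : (2 : ℝ) ^ (i + 2) = 4 * ((1 / 2) ^ i * 4 ^ i) := by
      rw [← mul_pow]
      norm_num
      ring
    rw [h3]
    have h4 : C * (4 * ((1 / 2) ^ i * 4 ^ i)) * t =
        4 * C * ((1 / 2) ^ i * Real.sqrt t) * (4 ^ i * Real.sqrt t) := by
      calc C * (4 * ((1 / 2) ^ i * 4 ^ i)) * t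
          = C * (4 * ((1 / 2) ^ i * 4 ^ i)) * (Real.sqrt t * Real.sqrt t) := by rw [hs]
        _ = _ := by ring
    rw [h4]
    exact mul_le_of_le_one_right (by positivity) h1
  refine (Real.rpow_le_rpow (by positivity) h2 (by positivity)).trans ?_
  rw [Real.mul_rpow (by positivity) (by positivity), Real.mul_rpow (by positivity) hs0]
  have h5 : (4 * C) ^ (1 / C) ≤ 4 * C := by
    have h6 := Real.rpow_le_rpow_of_exponent_le (show 1 ≤ 4 * C by linarith) (show 1 / C ≤ 1 by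
      rw [div_le_one hC0]
      exact hC)
    rwa [Real.rpow_one] at h6
  have h6 : Real.sqrt t ^ (1 / C) ≤ t ^ (1 / (16 * C)) := by
    rw [Real.sqrt_eq_rpow, ← Real.rpow_mul ht.le]
    refine Real.rpow_le_rpow_of_exponent_ge ht ht1 ?_
    have h7 : 1 / 2 * (1 / C) = 1 / (2 * C) := by field_simp
    rw [h7]
    exact one_div_le_one_div_of_le (by positivity) (by linarith)
  exact mul_le_mul h5 (mul_le_mul (two_exp hC i) h6 (by positivity) (by positivity))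
    (by positivity) (by positivity)

lemma numC {C t g : ℝ} (hC : 1 ≤ C) {n : ℕ} (hn : 1 ≤ n) (i : ℕ) (ht : 1 / (n : ℝ) ≤ t)
    (hg : g = (n : ℝ) ^ (1 / 16 : ℝ)) (hgi : g ^ 2 ≤ 2 ^ i) :
    g / 4 ^ i ≤ Real.exp (-(1 / (16 * C) * i)) * t ^ (1 / (16 * C)) := by
  have hC0 : 0 < C := by linarith
  have hn1 : (1 : ℝ) ≤ n := by exact_mod_cast hn
  have hn0 : (0 : ℝ) < n := by linarith
  have hg0 : 0 < g := by
    rw [hg]
    positivity
  have h1 : 1 / g ≤ t ^ (1 / (16 * C)) := by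
    have h2 : (1 / (n : ℝ)) ^ (1 / (16 * C)) ≤ t ^ (1 / (16 * C)) :=
      Real.rpow_le_rpow (by positivity) ht (by positivity)
    refine le_trans ?_ h2
    rw [Real.div_rpow (by norm_num) hn0.le, Real.one_rpow]
    refine one_div_le_one_div_of_le (by positivity) ?_
    rw [hg]
    exact Real.rpow_le_rpow_of_exponent_le hn1
      (one_div_le_one_div_of_le (by norm_num) (by linarith))
  have h2 : (1 / 2 : ℝ) ^ i ≤ Real.exp (-(1 / (16 * C) * i)) := by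
    refine le_trans ?_ (two_exp hC i)
    have h3 : (0 : ℝ) < (1 / 2) ^ i := by positivity
    have h4 : ((1 / 2 : ℝ) ^ i) ≤ 1 := pow_le_one₀ (by norm_num) (by norm_num)
    have h5 := Real.rpow_le_rpow_of_exponent_ge h3 h4 (show 1 / C ≤ 1 by
      rw [div_le_one hC0]
      exact hC)
    rwa [Real.rpow_one] at h5
  have h3 : g / 4 ^ i ≤ (1 / 2) ^ i * (1 / g) := by
    have h4 : (4 : ℝ) ^ i = 2 ^ i * 2 ^ i := by
      rw [← mul_pow]
      norm_num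
    rw [h4, one_div, inv_pow, div_le_iff₀ (by positivity)]
    have h5 : ((2 : ℝ) ^ i)⁻¹ * (1 / g) * (2 ^ i * 2 ^ i) = 2 ^ i / g := by
      field_simp
    rw [h5, le_div_iff₀ hg0]
    nlinarith
  exact h3.trans (mul_le_mul h2 h1 (by positivity) (by positivity))

section Main

variable {β : ℝ} {h : Vec d} {n a B Λ : ℕ} {ε : ℝ} {m : ℕ → ℕ} {I : Finset ℕ}

/-- One horizon of the group `i`. -/
lemma hor {C D : ℝ} (hC : 1 ≤ C)
    (hs : ∀ (m T : ℕ) (u Φ : ℝ), 1 ≤ m → 1 ≤ T → 0 < u → 4 * Fn ρ β h m ≤ u →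
      (∀ k : ℕ, k ≤ T → En ρ β h k ≤ Φ ∧ Fn ρ β h k ≤ Φ) → Φ + 1 < D * u →
      (law d ρ).real {η | A ρ β h m + 2 * u < X β h η m} ≤ (C * m / T) ^ (1 / C))
    (hS : Sy ρ β h n a B Λ ε m I) {p : ℕ} (i : ℕ) (hn : 1 ≤ n) (h2 : 2 ≤ m (p + i + 1))
    {m' : ℕ} (hm' : 1 ≤ m') (hm2 : m' ≤ 2 ^ (i + 1) * m p) {u : ℝ} (hu : 0 < u)
    (hF : 4 * Fn ρ β h m' ≤ u) (hD : 2 ^ (p + i + 1) + 1 < D * u) :
    (law d ρ).real {η | A ρ β h m' + 2 * u < X β h η m'} ≤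
      (C * 2 ^ (i + 2) * ((m p : ℝ) / (min (m (p + i + 1)) n : ℕ))) ^ (1 / C) := by
  obtain ⟨T, hT⟩ : ∃ T : ℕ, T = min (m (p + i + 1) - 1) n := ⟨_, rfl⟩
  have hT1 : 1 ≤ T := by
    rw [hT]
    exact le_min (by omega) hn
  have hT2 : min (m (p + i + 1)) n ≤ 2 * T := by
    rw [hT]
    omega
  have hT3 : T < m (p + i + 1) := by
    rw [hT]
    omega
  have h3 := hs m' T u (2 ^ (p + i + 1)) hm' hT1 hu hF (fun k hk => by
    obtain ⟨h4, h5⟩ := fM_lt (hS.lo (p + i + 1) k (by omega))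
    exact ⟨h4.le, h5.le⟩) hD
  refine h3.trans (Real.rpow_le_rpow (by positivity) ?_ (by positivity))
  obtain ⟨M, hM⟩ : ∃ M : ℕ, M = min (m (p + i + 1)) n := ⟨_, rfl⟩
  rw [← hM] at hT2 ⊢
  have hM0 : (0 : ℝ) < M := by
    have : 0 < M := by
      rw [hM]
      exact lt_min (by omega) (by omega)
    exact_mod_cast this
  have hT0 : (0 : ℝ) < T := by exact_mod_cast hT1
  have h6 : (m' : ℝ) ≤ 2 ^ (i + 1) * m p := by exact_mod_cast hm2
  have h7 : (M : ℝ) ≤ 2 * T := by exact_mod_cast hT2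
  rw [div_le_iff₀ hT0]
  have h8 : (1 : ℝ) ≤ 2 * T / M := by
    rw [le_div_iff₀ hM0, one_mul]
    exact h7
  have h9 : C * 2 ^ (i + 2) * ((m p : ℝ) / M) * T = C * (2 ^ (i + 1) * m p) * (2 * T / M) := by
    rw [pow_succ 2 (i + 1)]
    ring
  rw [h9]
  have h10 : 0 ≤ C * (2 ^ (i + 1) * (m p : ℝ)) := by positivity
  nlinarith [mul_le_mul_of_nonneg_left h6 (show 0 ≤ C by linarith)]

/-- The numbers of a level. -/
lemma nums (hd : 0 < d) (hρ : EM ρ) {κ : ℝ} (hκ : 0 < κ) (hκ2 : κ ≤ 1 / 2)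
    (hS : Sy ρ β h n a B Λ (κ / 64) m I) (hB : 1 ≤ B) (ha : 320 / κ < 2 ^ a) {p : ℕ}
    (hp : p ∈ I) : 2 ≤ m p ∧ m p ≤ n ∧ 2 * m (p - a) < m p ∧
      40 * (2 : ℝ) ^ (p - a) ≤ κ / 8 * 2 ^ p ∧ (2 : ℝ) ^ p ≤ En ρ β h (m p) := by
  obtain ⟨h1, h2⟩ := hS.big p hp
  have h3 : m (p - a) ≤ m p := mono hS (by omega)
  have h4 : 2 ≤ m p := h2.trans h3
  have h5 := hS.sm p hp
  have h6 : m p ≤ n := by
    refine le_trans ?_ h5
    calc m p = m p * 1 := (mul_one _).symm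
      _ ≤ m p * m p ^ 3 := Nat.mul_le_mul_left _ (Nat.one_le_pow _ _ (by omega))
      _ = m p ^ 4 := by ring
  have h7 : (2 : ℝ) ^ p = 2 ^ a * 2 ^ (p - a) := by
    rw [← pow_add]
    congr 1
    omega
  have hy : (0 : ℝ) < 2 ^ (p - a) := by positivity
  have h8 : 320 ≤ κ * 2 ^ a := by
    rw [div_lt_iff₀ hκ] at ha
    linarith
  have h9 : 40 * (2 : ℝ) ^ (p - a) ≤ κ / 8 * 2 ^ p := by
    rw [h7]
    nlinarith
  have hx : (0 : ℝ) < 2 ^ p := by positivity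
  have hFp : Fn ρ β h (m p) ≤ κ / 64 * 2 ^ p := hS.fs p hp (m p) (by nlinarith)
  refine ⟨h4, h6, ?_, h9, ?_⟩
  · by_contra hcon
    obtain ⟨h10, h11⟩ := win (ρ := ρ) (β := β) (h := h) hd hρ h2 (hS.lo (p - a)) (m p) (by omega)
    have h12 := hS.hi p
    have h13 : fM ρ β h (m p) ≤ 20 * 2 ^ (p - a) := max_le h10 h11
    nlinarith
  · have h12 := hS.hi p
    rcases le_max_iff.1 h12 with h13 | h13
    · exact h13
    · nlinarith

/-- The group `0`. -/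
lemma grp0 (hd : 0 < d) (hρ : EM ρ) {κ C : ℝ} (hκ : 0 < κ) (hκ2 : κ ≤ 1 / 2) (hC : 1 ≤ C)
    (hs : ∀ (m T : ℕ) (u Φ : ℝ), 1 ≤ m → 1 ≤ T → 0 < u → 4 * Fn ρ β h m ≤ u →
      (∀ k : ℕ, k ≤ T → En ρ β h k ≤ Φ ∧ Fn ρ β h k ≤ Φ) → Φ + 1 < 64 / κ * u →
      (law d ρ).real {η | A ρ β h m + 2 * u < X β h η m} ≤ (C * m / T) ^ (1 / C))
    (hS : Sy ρ β h n a B Λ (κ / 64) m I) (hB : 1 ≤ B) (ha : 320 / κ < 2 ^ a) {p : ℕ}
    (hp : p ∈ I) :
    (law d ρ).real (Lg0 ρ β h (m p - 2 * m (p - a)) (2 * m (p - a)) (2 ^ p) κ (κ / 8 * 2 ^ p)) ≤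
      2 * (C * 2 ^ (0 + 2) * ((m p : ℝ) / (min (m (p + 0 + 1)) n : ℕ))) ^ (1 / C) := by
  obtain ⟨q1, q2, q3, q4, q5⟩ := nums hd hρ hκ hκ2 hS hB ha hp
  have hx : (1 : ℝ) ≤ 2 ^ p := one_le_pow₀ (by norm_num)
  have hy : (0 : ℝ) < 2 ^ (p - a) := by positivity
  have hκx : 0 < κ * 2 ^ p := by positivity
  have h1 := ott (ρ := ρ) hd hρ β h (m p - 2 * m (p - a)) (2 * m (p - a))
    (-((1 - κ) * 2 ^ p) - κ / 8 * 2 ^ p) (Ψ := 20 * 2 ^ (p - a)) (by positivity)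
    (win hd hρ (hS.big p hp).2 (hS.lo (p - a)))
  have h2 : m p - 2 * m (p - a) + 2 * m (p - a) = m p := by omega
  rw [h2] at h1
  have h3 := hor (ρ := ρ) (β := β) (h := h) hC hs hS (p := p) 0 (by omega)
    (q1.trans (mono hS (by omega))) (m' := m p) (by omega) (by omega)
    (u := κ * 2 ^ p / 4) (by positivity)
    (by
      have := hS.fs p hp (m p) (by nlinarith)
      nlinarith)
    (by
      have h4 : 64 / κ * (κ * 2 ^ p / 4) = 16 * 2 ^ p := by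
        field_simp
        norm_num
      rw [h4, Nat.add_zero, pow_succ]
      linarith)
  have h4 : (law d ρ).real (Lg0 ρ β h (m p - 2 * m (p - a)) (2 * m (p - a)) (2 ^ p) κ
      (κ / 8 * 2 ^ p)) ≤ (law d ρ).real {η | ∃ s : ℕ, s ≤ 2 * m (p - a) ∧
      ((m p - 2 * m (p - a) + s : ℕ) : ℝ) * lam ρ β h + (-((1 - κ) * 2 ^ p) - κ / 8 * 2 ^ p) ≤
        X β h η (m p - 2 * m (p - a) + s)} := by
    refine measureReal_mono ?_ (measure_ne_top _ _)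
    rintro η ⟨s, h5, h6⟩
    exact ⟨s, h5, by linarith⟩
  have h5 : (law d ρ).real {η | ((m p : ℕ) : ℝ) * lam ρ β h +
      (-((1 - κ) * 2 ^ p) - κ / 8 * 2 ^ p) - 2 * (20 * 2 ^ (p - a)) ≤ X β h η (m p)} ≤
      (law d ρ).real {η | A ρ β h (m p) + 2 * (κ * 2 ^ p / 4) < X β h η (m p)} := by
    refine measureReal_mono ?_ (measure_ne_top _ _)
    intro η hη
    have h6 : ((m p : ℕ) : ℝ) * lam ρ β h +
      (-((1 - κ) * 2 ^ p) - κ / 8 * 2 ^ p) - 2 * (20 * 2 ^ (p - a)) ≤ X β h η (m p) := hη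
    show A ρ β h (m p) + 2 * (κ * 2 ^ p / 4) < X β h η (m p)
    unfold En at q5
    linarith
  linarith

/-- One horizon `N H` of the group `j`. -/
lemma grpN (hd : 0 < d) (hρ : EM ρ) {κ C : ℝ} (hκ : 0 < κ) (hκ2 : κ ≤ 1 / 2) (hC : 1 ≤ C)
    (hs : ∀ (m T : ℕ) (u Φ : ℝ), 1 ≤ m → 1 ≤ T → 0 < u → 4 * Fn ρ β h m ≤ u →
      (∀ k : ℕ, k ≤ T → En ρ β h k ≤ Φ ∧ Fn ρ β h k ≤ Φ) → Φ + 1 < 64 / κ * u →
      (law d ρ).real {η | A ρ β h m + 2 * u < X β h η m} ≤ (C * m / T) ^ (1 / C))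
    (hS : Sy ρ β h n a B Λ (κ / 64) m I) (ha : 320 / κ < 2 ^ a) {p : ℕ}
    (hp : p ∈ I) {N j : ℕ} (hN1 : 2 ^ j ≤ N) (hN2 : N < 2 ^ (j + 1)) (hNB : N ≤ B) :
    (law d ρ).real (LgN ρ β h (m p - 2 * m (p - a)) (2 * m (p - a)) (2 ^ p) κ
      (κ / 8 * 2 ^ p) N) ≤
      2 * (C * 2 ^ (j + 2) * ((m p : ℝ) / (min (m (p + j + 1)) n : ℕ))) ^ (1 / C) := by
  have hN0 : 1 ≤ N := le_trans (Nat.one_le_pow _ _ (by norm_num)) hN1
  obtain ⟨q1, q2, q3, q4, q5⟩ := nums hd hρ hκ hκ2 hS (hN0.trans hNB) ha hp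
  have hx : (1 : ℝ) ≤ 2 ^ p := one_le_pow₀ (by norm_num)
  have hy : (0 : ℝ) < 2 ^ (p - a) := by positivity
  have hj : (1 : ℝ) ≤ 2 ^ j := one_le_pow₀ (by norm_num)
  have hκx : 0 < κ * 2 ^ p := by positivity
  have hNr : (2 : ℝ) ^ j ≤ N := by exact_mod_cast hN1
  have h1 := ott (ρ := ρ) hd hρ β h (N * (m p - 2 * m (p - a))) (2 * m (p - a))
    (κ * N * 2 ^ p - κ / 8 * 2 ^ p) (Ψ := 20 * 2 ^ (p - a)) (by positivity)
    (win hd hρ (hS.big p hp).2 (hS.lo (p - a)))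
  obtain ⟨m', hm'⟩ : ∃ m' : ℕ, m' = N * (m p - 2 * m (p - a)) + 2 * m (p - a) := ⟨_, rfl⟩
  rw [← hm'] at h1
  have hm1 : m' ≤ N * m p := by
    have h2 : N * m p = N * (m p - 2 * m (p - a)) + N * (2 * m (p - a)) := by
      rw [← Nat.mul_add]
      congr 1
      omega
    rw [h2, hm']
    exact Nat.add_le_add_left (Nat.le_mul_of_pos_left _ (by omega)) _
  have hm2 : 1 ≤ m' := by
    have := (hS.big p hp).2
    omega
  have hjx : κ * 2 ^ p * 1 ≤ κ * 2 ^ p * 2 ^ j := mul_le_mul_of_nonneg_left hj hκx.le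
  have h3 := hor (ρ := ρ) (β := β) (h := h) hC hs hS (p := p) j (by omega)
    (q1.trans (mono hS (by omega))) (m' := m') hm2
    (hm1.trans (Nat.mul_le_mul_right _ hN2.le))
    (u := κ * 2 ^ p * 2 ^ j / 4) (by positivity)
    (by
      have := hS.fs p hp m' (hm1.trans (Nat.mul_le_mul_right _ hNB))
      nlinarith)
    (by
      have h4 : 64 / κ * (κ * 2 ^ p * 2 ^ j / 4) = 16 * (2 ^ p * 2 ^ j) := by
        field_simp
        norm_num
      rw [h4, pow_succ, pow_add]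
      have h5 : (1 : ℝ) ≤ 2 ^ p * 2 ^ j := one_le_mul_of_one_le_of_one_le hx hj
      linarith)
  have h4 : (law d ρ).real (LgN ρ β h (m p - 2 * m (p - a)) (2 * m (p - a)) (2 ^ p) κ
      (κ / 8 * 2 ^ p) N) ≤ (law d ρ).real {η | ∃ s : ℕ, s ≤ 2 * m (p - a) ∧
      ((N * (m p - 2 * m (p - a)) + s : ℕ) : ℝ) * lam ρ β h +
        (κ * N * 2 ^ p - κ / 8 * 2 ^ p) ≤ X β h η (N * (m p - 2 * m (p - a)) + s)} := by
    refine measureReal_mono ?_ (measure_ne_top _ _)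
    rintro η ⟨s, h5, h6⟩
    exact ⟨s, h5, by linarith⟩
  have h5 : (law d ρ).real {η | ((m' : ℕ) : ℝ) * lam ρ β h +
      (κ * N * 2 ^ p - κ / 8 * 2 ^ p) - 2 * (20 * 2 ^ (p - a)) ≤ X β h η m'} ≤
      (law d ρ).real {η | A ρ β h m' + 2 * (κ * 2 ^ p * 2 ^ j / 4) < X β h η m'} := by
    refine measureReal_mono ?_ (measure_ne_top _ _)
    intro η hη
    have h6 : ((m' : ℕ) : ℝ) * lam ρ β h +
      (κ * N * 2 ^ p - κ / 8 * 2 ^ p) - 2 * (20 * 2 ^ (p - a)) ≤ X β h η m' := hη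
    show A ρ β h m' + 2 * (κ * 2 ^ p * 2 ^ j / 4) < X β h η m'
    have h7 := En_nonneg15 (ρ := ρ) hd hρ β h m'
    unfold En at h7
    have h8 : κ * 2 ^ p * 2 ^ j ≤ κ * 2 ^ p * N := mul_le_mul_of_nonneg_left hNr hκx.le
    have h9 : κ * N * 2 ^ p = κ * 2 ^ p * N := by ring
    rw [h9] at h6
    linarith
  linarith

lemma num16 {n M j : ℕ} (h1 : 256 ^ j ≤ n) (h2 : M ^ 4 ≤ n) : 16 ^ j * M ≤ n := by
  have h0 : 1 ≤ n := le_trans (Nat.one_le_pow _ _ (by norm_num)) h1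
  refine (Nat.pow_le_pow_iff_left (n := 4) (by norm_num)).1 ?_
  have h3 : (16 ^ j * M) ^ 4 = (256 ^ j) ^ 2 * M ^ 4 := by
    rw [mul_pow, ← pow_mul, ← pow_mul, show (256 : ℕ) = 16 ^ 2 by norm_num, ← pow_mul]
    congr 2
    ring
  rw [h3]
  calc (256 ^ j) ^ 2 * M ^ 4 ≤ n ^ 2 * n := Nat.mul_le_mul (Nat.pow_le_pow_left h1 2) h2
    _ = n ^ 2 * n * 1 := (mul_one _).symm
    _ ≤ n ^ 2 * n * n := Nat.mul_le_mul_left _ h0
    _ = n ^ 4 := by ring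

/-- A large group. -/
lemma grpL (hd : 0 < d) (hρ : EM ρ) {κ C : ℝ} (hκ : 0 < κ) (hκ2 : κ ≤ 1 / 2) (hC : 1 ≤ C)
    (hs : ∀ (m T : ℕ) (u Φ : ℝ), 1 ≤ m → 1 ≤ T → 0 < u → 4 * Fn ρ β h m ≤ u →
      (∀ k : ℕ, k ≤ T → En ρ β h k ≤ Φ ∧ Fn ρ β h k ≤ Φ) → Φ + 1 < 64 / κ * u →
      (law d ρ).real {η | A ρ β h m + 2 * u < X β h η m} ≤ (C * m / T) ^ (1 / C))
    (hS : Sy ρ β h n a B 256 (κ / 64) m I) (hB : 1 ≤ B) (ha : 320 / κ < 2 ^ a)
    (hVE : ∀ k : ℕ, k ≤ 4 * n → Va ρ β h k ≤ (n : ℝ) ^ (1 / 16 : ℝ) ∧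
      En ρ β h k ≤ (n : ℝ) ^ (1 / 16 : ℝ)) {p : ℕ} (hp : p ∈ I) {k₀ i : ℕ}
    (hk₀ : 16 / κ < 2 ^ k₀) (hi : 2 * k₀ ≤ i + 1) :
    (law d ρ).real (Lg ρ β h n (m p - 2 * m (p - a)) (2 * m (p - a)) (2 ^ p) κ
      (κ / 8 * 2 ^ p) (i + 1)) ≤
      (8 * C + 8 / κ ^ 2) * (Real.exp (-(1 / (16 * C) * (i + 1 : ℕ))) *
        ((m p : ℝ) / (min (m (p + (i + 1) + 1)) n : ℕ)) ^ (1 / (16 * C))) := by
  obtain ⟨q1, q2, q3, q4, q5⟩ := nums hd hρ hκ hκ2 hS hB ha hp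
  obtain ⟨H, hH⟩ : ∃ H : ℕ, H = m p - 2 * m (p - a) := ⟨_, rfl⟩
  obtain ⟨S, hSd⟩ : ∃ S : ℕ, S = 2 * m (p - a) := ⟨_, rfl⟩
  have hHS : H + S = m p := by omega
  rw [← hH, ← hSd]
  obtain ⟨j, hj⟩ : ∃ j : ℕ, j = i + 1 := ⟨_, rfl⟩
  have hj1 : 1 ≤ j := by omega
  have hx : (1 : ℝ) ≤ 2 ^ p := one_le_pow₀ (by norm_num)
  have hjr : (1 : ℝ) ≤ 2 ^ j := one_le_pow₀ (by norm_num)
  have hκx : 0 < κ * 2 ^ p := by positivity
  have hC0 : 0 < C := by linarith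
  obtain ⟨M, hM⟩ : ∃ M : ℕ, M = min (m (p + j + 1)) n := ⟨_, rfl⟩
  have hmono : m p ≤ m (p + j + 1) := mono hS (by omega)
  have hM1 : m p ≤ M := by
    rw [hM]
    exact le_min hmono q2
  have hM0 : (0 : ℝ) < M := by
    have : 0 < M := by omega
    exact_mod_cast this
  have hmp0 : (0 : ℝ) < m p := by
    have : 0 < m p := by omega
    exact_mod_cast this
  obtain ⟨t, ht⟩ : ∃ t : ℝ, t = (m p : ℝ) / M := ⟨_, rfl⟩
  have ht0 : 0 < t := by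
    rw [ht]
    positivity
  have htl : t ≤ 1 := by
    rw [ht, div_le_one hM0]
    exact_mod_cast hM1
  rw [← hj, ← hM, ← ht]
  obtain ⟨R, hR⟩ : ∃ R : ℝ, R = Real.exp (-(1 / (16 * C) * (j : ℕ))) * t ^ (1 / (16 * C)) :=
    ⟨_, rfl⟩
  have hR0 : 0 < R := by
    rw [hR]
    positivity
  rw [← hR]
  have hK1 : 0 ≤ 8 / κ ^ 2 := by positivity
  by_cases hne : 2 ^ j * H ≤ n
  swap
  · have h1 : Lg ρ β h n H S (2 ^ p) κ (κ / 8 * 2 ^ p) j ⊆ ∅ := by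
      rw [hj]
      rintro η ⟨N, hN1, hN2, hN3, _⟩
      rw [← hj] at hN1
      exact absurd ((Nat.mul_le_mul_right H hN1).trans hN3) hne
    have h2 := measureReal_mono (μ := law d ρ) h1 (measure_ne_top _ _)
    rw [measureReal_empty] at h2
    refine h2.trans ?_
    positivity
  obtain ⟨Ψ, hΨ⟩ : ∃ Ψ : ℝ, Ψ = κ * 2 ^ p * 2 ^ j / 16 := ⟨_, rfl⟩
  have hΨ0 : 0 < Ψ := by
    rw [hΨ]
    positivity
  obtain ⟨m', hm'⟩ : ∃ m' : ℕ, m' = 2 ^ j * H + (2 ^ j * H + S) := ⟨_, rfl⟩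
  have hm1 : m' ≤ 2 ^ (j + 1) * m p := by
    rw [← hHS, hm', pow_succ]
    have h1 : 1 ≤ 2 ^ j := Nat.one_le_pow _ _ (by norm_num)
    nlinarith [Nat.zero_le S]
  have hm2 : m' ≤ 4 * n := by omega
  have hm3 : 1 ≤ m' := by
    have := (hS.big p hp).2
    omega
  have hjx : κ * 2 ^ p * 1 ≤ κ * 2 ^ p * 2 ^ j := mul_le_mul_of_nonneg_left hjr hκx.le
  -- the passage to one horizon
  have hpass : (∀ r : ℕ, r ≤ m' → En ρ β h r ≤ Ψ ∧ Fn ρ β h r ≤ Ψ) →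
      (law d ρ).real (Lg ρ β h n H S (2 ^ p) κ (κ / 8 * 2 ^ p) j) ≤
        2 * (law d ρ).real {η | A ρ β h m' + 2 * (κ * 2 ^ p * 2 ^ j / 4) < X β h η m'} := by
    intro hr
    have h1 := ott (ρ := ρ) hd hρ β h (2 ^ j * H) (2 ^ j * H + S)
      (κ * 2 ^ p * 2 ^ j - κ / 8 * 2 ^ p) hΨ0 (fun r hr' => hr r (by omega))
    rw [← hm'] at h1
    have h2 : (law d ρ).real (Lg ρ β h n H S (2 ^ p) κ (κ / 8 * 2 ^ p) j) ≤
        (law d ρ).real {η | ∃ s : ℕ, s ≤ 2 ^ j * H + S ∧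
          ((2 ^ j * H + s : ℕ) : ℝ) * lam ρ β h + (κ * 2 ^ p * 2 ^ j - κ / 8 * 2 ^ p) ≤
            X β h η (2 ^ j * H + s)} := by
      refine measureReal_mono ?_ (measure_ne_top _ _)
      rw [hj]
      rintro η ⟨N, hN1, hN2, hN3, s, hs1, hs2⟩
      rw [← hj] at hN1 ⊢
      have hN2' : N < 2 ^ j * 2 := by
        rw [← pow_succ, hj]
        exact hN2
      obtain ⟨N', rfl⟩ : ∃ N', N = 2 ^ j + N' := ⟨N - 2 ^ j, by omega⟩
      have h3 : N' * H ≤ 2 ^ j * H := Nat.mul_le_mul_right _ (by omega)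
      refine ⟨N' * H + s, by omega, ?_⟩
      have h4 : (2 ^ j + N') * H + s = 2 ^ j * H + (N' * H + s) := by ring
      rw [h4] at hs2
      have h5 : (2 : ℝ) ^ j ≤ ((2 ^ j + N' : ℕ) : ℝ) := by exact_mod_cast hN1
      have h6 : κ * 2 ^ p * 2 ^ j ≤ κ * 2 ^ p * ((2 ^ j + N' : ℕ) : ℝ) :=
        mul_le_mul_of_nonneg_left h5 hκx.le
      have h7 : κ * ((2 ^ j + N' : ℕ) : ℝ) * 2 ^ p = κ * 2 ^ p * ((2 ^ j + N' : ℕ) : ℝ) := by ring
      rw [h7] at hs2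
      linarith
    have h5 : (law d ρ).real {η | ((m' : ℕ) : ℝ) * lam ρ β h +
        (κ * 2 ^ p * 2 ^ j - κ / 8 * 2 ^ p) - 2 * Ψ ≤ X β h η m'} ≤
        (law d ρ).real {η | A ρ β h m' + 2 * (κ * 2 ^ p * 2 ^ j / 4) < X β h η m'} := by
      refine measureReal_mono ?_ (measure_ne_top _ _)
      intro η hη
      have h6 : ((m' : ℕ) : ℝ) * lam ρ β h +
        (κ * 2 ^ p * 2 ^ j - κ / 8 * 2 ^ p) - 2 * Ψ ≤ X β h η m' := hη
      show A ρ β h m' + 2 * (κ * 2 ^ p * 2 ^ j / 4) < X β h η m'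
      have h7 := En_nonneg15 (ρ := ρ) hd hρ β h m'
      unfold En at h7
      rw [hΨ] at h6
      linarith
    linarith
  by_cases hAB : m (p + j + 1) ≤ n ∨ 256 ^ j ≤ n
  · have h16 : 16 ^ j * m p ≤ M := by
      by_cases h1 : m (p + j + 1) ≤ n
      · rw [hM, min_eq_left h1]
        have h2 := hS.nc p hp j h1
        refine le_trans (Nat.mul_le_mul_right _ ?_) h2.le
        calc 16 ^ j ≤ 256 ^ j := Nat.pow_le_pow_left (by norm_num) _
          _ ≤ 256 ^ (j + 1) := Nat.pow_le_pow_right (by norm_num) (by omega)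
      · rw [hM, min_eq_right (by omega)]
        exact num16 (hAB.resolve_left h1) (hS.sm p hp)
    have hreg : ∀ r : ℕ, r ≤ m' → En ρ β h r ≤ Ψ ∧ Fn ρ β h r ≤ Ψ := by
      intro r hr
      obtain ⟨q, hq⟩ : ∃ q : ℕ, q = (j + 1) / 8 := ⟨_, rfl⟩
      have h1 : r < m (p + q + 1) := by
        by_cases h2 : m (p + q + 1) ≤ n
        · have h3 := hS.nc p hp q h2
          refine lt_of_le_of_lt (hr.trans (hm1.trans (Nat.mul_le_mul_right _ ?_))) h3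
          rw [show (256 : ℕ) = 2 ^ 8 by norm_num, ← pow_mul]
          exact Nat.pow_le_pow_right (by norm_num) (by omega)
        · have h3 : ¬ m (p + j + 1) ≤ n := fun h4 =>
            h2 (le_trans (mono hS (by omega)) h4)
          have h4 := num16 (hAB.resolve_left h3) (hS.sm p hp)
          have h5 : 2 ^ (j + 1) * m p ≤ 16 ^ j * m p := by
            refine Nat.mul_le_mul_right _ ?_
            rw [show (16 : ℕ) = 2 ^ 4 by norm_num, ← pow_mul]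
            exact Nat.pow_le_pow_right (by norm_num) (by omega)
          omega
      obtain ⟨h2, h3⟩ := fM_lt (hS.lo (p + q + 1) r h1)
      have h4 : (2 : ℝ) ^ (p + q + 1) ≤ Ψ := by
        have h5 : (2 : ℝ) ^ k₀ * 2 ^ (q + 1) ≤ 2 ^ j := by
          rw [← pow_add]
          exact pow_le_pow_right₀ (by norm_num) (by omega)
        have h6 : 16 / κ * 2 ^ (q + 1) ≤ 2 ^ j :=
          le_trans (mul_le_mul_of_nonneg_right hk₀.le (by positivity)) h5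
        have h7 : (2 : ℝ) ^ (p + q + 1) = κ * 2 ^ p / 16 * (16 / κ * 2 ^ (q + 1)) := by
          rw [Nat.add_assoc, pow_add]
          field_simp
        rw [h7, hΨ]
        have h8 := mul_le_mul_of_nonneg_left h6 (show 0 ≤ κ * 2 ^ p / 16 by positivity)
        linarith
      exact ⟨by linarith, by linarith⟩
    have h1 := hpass hreg
    have h3 := hor (ρ := ρ) (β := β) (h := h) hC hs hS (p := p) j (by omega)
      (q1.trans hmono) (m' := m') hm3 hm1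
      (u := κ * 2 ^ p * 2 ^ j / 4) (by positivity)
      (by
        have := (hreg m' le_rfl).2
        rw [hΨ] at this
        linarith)
      (by
        have h4 : 64 / κ * (κ * 2 ^ p * 2 ^ j / 4) = 16 * (2 ^ p * 2 ^ j) := by
          field_simp
          norm_num
        rw [h4, pow_succ, pow_add]
        have h5 : (1 : ℝ) ≤ 2 ^ p * 2 ^ j := one_le_mul_of_one_le_of_one_le hx hjr
        linarith)
    rw [← hM, ← ht] at h3
    have h4 := numB hC ht0 j (by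
      rw [ht, ← mul_div_assoc, div_le_one hM0]
      exact_mod_cast h16)
    rw [← hR] at h4
    have h5 : 0 ≤ 8 / κ ^ 2 * R := by positivity
    linarith
  · rw [not_or, not_le, not_le] at hAB
    obtain ⟨hc1, hc2⟩ := hAB
    obtain ⟨g, hg⟩ : ∃ g : ℝ, g = (n : ℝ) ^ (1 / 16 : ℝ) := ⟨_, rfl⟩
    rw [← hg] at hVE
    have hn1 : 1 ≤ n := by omega
    have hnr : (1 : ℝ) ≤ n := by exact_mod_cast hn1
    have hg1 : 1 ≤ g := by
      rw [hg]
      exact Real.one_le_rpow hnr (by norm_num)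
    have hg16 : g ^ 16 = n := by
      rw [hg, ← Real.rpow_natCast, ← Real.rpow_mul (by linarith)]
      norm_num
    have hgj : g ^ 2 ≤ 2 ^ j := by
      by_contra hcon
      rw [not_le] at hcon
      have h1 : ((2 : ℝ) ^ j) ^ 8 ≤ (g ^ 2) ^ 8 := pow_le_pow_left₀ (by positivity) hcon.le 8
      have h2 : (g ^ 2) ^ 8 = n := by
        rw [← hg16]
        ring
      have h3 : ((2 : ℝ) ^ j) ^ 8 = 256 ^ j := by
        rw [← pow_mul, mul_comm, pow_mul]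
        norm_num
      have h4 : (n : ℝ) < 256 ^ j := by exact_mod_cast hc2
      linarith
    have hgΨ : g ≤ Ψ := by
      have h1 : (16 / κ * g) ^ 2 ≤ (2 ^ j) ^ 2 := by
        have h2 : (16 / κ) ^ 2 ≤ 2 ^ j := by
          have h3 : (16 / κ) ^ 2 ≤ (2 ^ k₀) ^ 2 := pow_le_pow_left₀ (by positivity) hk₀.le 2
          refine h3.trans ?_
          rw [← pow_mul]
          exact pow_le_pow_right₀ (by norm_num) (by omega)
        rw [mul_pow, sq ((2 : ℝ) ^ j)]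
        exact mul_le_mul h2 hgj (by positivity) (by positivity)
      have h2 : 16 / κ * g ≤ 2 ^ j := by
        refine le_of_not_gt fun h3 => ?_
        have h4 : ((2 : ℝ) ^ j) ^ 2 < (16 / κ * g) ^ 2 :=
          pow_lt_pow_left₀ h3 (by positivity) (by norm_num)
        linarith
      have h3 : g = κ / 16 * (16 / κ * g) := by field_simp
      have h4 : g ≤ κ / 16 * 2 ^ j := by
        rw [h3]
        exact mul_le_mul_of_nonneg_left h2 (by positivity)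
      have h5 : κ / 16 * 2 ^ j ≤ Ψ := by
        rw [hΨ]
        have h6 : κ / 16 * 2 ^ j * 1 ≤ κ / 16 * 2 ^ j * 2 ^ p :=
          mul_le_mul_of_nonneg_left hx (by positivity)
        linarith
      exact h4.trans h5
    have hreg : ∀ r : ℕ, r ≤ m' → En ρ β h r ≤ Ψ ∧ Fn ρ β h r ≤ Ψ := by
      intro r hr
      obtain ⟨h1, h2⟩ := hVE r (hr.trans hm2)
      have h3 := Fn_sq15 (ρ := ρ) hd hρ β h r
      have h4 : Fn ρ β h r ≤ g := by
        refine le_of_not_gt fun h5 => ?_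
        nlinarith
      exact ⟨h2.trans hgΨ, h4.trans hgΨ⟩
    have h1 := hpass hreg
    have h2 := cheb (ρ := ρ) hd hρ β h m' (u := κ * 2 ^ p * 2 ^ j / 4) (by positivity)
    have h3 := (hVE m' hm2).1
    have h4 : Va ρ β h m' / (4 * (κ * 2 ^ p * 2 ^ j / 4) ^ 2) ≤ 4 / κ ^ 2 * (g / 4 ^ j) := by
      have h5 : (4 : ℝ) ^ j = 2 ^ j * 2 ^ j := by
        rw [← mul_pow]
        norm_num
      have h6 : 4 / κ ^ 2 * (g / 4 ^ j) = g / (κ ^ 2 * 4 ^ j / 4) := by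
        field_simp
      rw [h6]
      refine div_le_div₀ (by linarith) h3 (by positivity) ?_
      have h7 : 4 * (κ * 2 ^ p * 2 ^ j / 4) ^ 2 = κ ^ 2 * 4 ^ j / 4 * (2 ^ p) ^ 2 := by
        rw [h5]
        ring
      rw [h7]
      exact le_mul_of_one_le_right (by positivity) (one_le_pow₀ hx)
    have hMn : M = n := by
      rw [hM]
      exact min_eq_right hc1.le
    have h5 := numC hC hn1 j (t := t) (by
      rw [ht, hMn]
      refine div_le_div_of_nonneg_right ?_ (by positivity)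
      exact_mod_cast (by omega : 1 ≤ m p)) hg hgj
    rw [← hR] at h5
    have h6 := mul_le_mul_of_nonneg_left h5 (show 0 ≤ 4 / κ ^ 2 by positivity)
    have h7 : 0 ≤ 8 * C * R := by positivity
    have h8 : 8 / κ ^ 2 * R = 2 * (4 / κ ^ 2 * R) := by ring
    rw [add_mul, h8]
    linarith

end Main

end P78

open P78 in
/-- Leaf COST of Theorem PL. -/
theorem cost78 {d : ℕ} {ρ : Measure ℝ} [IsProbabilityMeasure ρ] (hd : 0 < d) (hρ : EM ρ) {β : ℝ}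
    (hG : GrowP d ρ β) : CostP d ρ β := by
  intro c₀ κ hc hκ hκ2
  have h64 : 1 ≤ 64 / κ := by
    rw [le_div_iff₀ hκ]
    linarith
  obtain ⟨C, hC, hsing⟩ := single hd hρ hG hc h64
  obtain ⟨k₀, hk₀⟩ := pow_unbounded_of_one_lt (16 / κ) (one_lt_two : (1 : ℝ) < 2)
  obtain ⟨a₀, ha₀⟩ := pow_unbounded_of_one_lt (320 / κ) (one_lt_two : (1 : ℝ) < 2)
  have hC0 : 0 < C := by linarith
  obtain ⟨E₀, hE₀⟩ : ∃ E₀ : ℝ, E₀ = Real.exp ((2 * k₀ : ℕ) : ℝ) := ⟨_, rfl⟩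
  have hE0 : 0 < E₀ := by
    rw [hE₀]
    positivity
  obtain ⟨K₁, hK₁⟩ : ∃ K₁ : ℝ, K₁ = 2 ^ (2 * k₀) * (2 * (C * 2 ^ (2 * k₀ + 2))) * E₀ := ⟨_, rfl⟩
  have hK0 : 0 < K₁ := by
    rw [hK₁]
    positivity
  have hκ3 : 0 ≤ 8 / κ ^ 2 := by positivity
  refine ⟨a₀, 2 ^ (2 * k₀), 256, κ / 64, 1 / (16 * C), 8 * C + 8 / κ ^ 2 + K₁, by positivity,
    by positivity, by linarith, fun a haa h hL n m I hS hVE p hp i => ?_⟩
  have ha : 320 / κ < 2 ^ a := ha₀.trans_le (pow_le_pow_right₀ (by norm_num) haa)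
  have hB : 1 ≤ 2 ^ (2 * k₀) := Nat.one_le_pow _ _ (by norm_num)
  have hs := hsing h hL
  obtain ⟨q1, q2, q3, q4, q5⟩ := nums (ρ := ρ) (β := β) (h := h) hd hρ hκ hκ2 hS hB ha hp
  obtain ⟨M, hM⟩ : ∃ M : ℕ, M = min (m (p + i + 1)) n := ⟨_, rfl⟩
  have hM1 : m p ≤ M := by
    rw [hM]
    exact le_min (mono hS (by omega)) q2
  have hM0 : (0 : ℝ) < M := by
    have : 0 < M := by omega
    exact_mod_cast this
  have hmp0 : (0 : ℝ) < m p := by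
    have : 0 < m p := by omega
    exact_mod_cast this
  obtain ⟨t, ht⟩ : ∃ t : ℝ, t = (m p : ℝ) / M := ⟨_, rfl⟩
  have ht0 : 0 < t := by
    rw [ht]
    positivity
  have htl : t ≤ 1 := by
    rw [ht, div_le_one hM0]
    exact_mod_cast hM1
  obtain ⟨R, hR⟩ : ∃ R : ℝ, R = Real.exp (-(1 / (16 * C) * (i : ℕ))) * t ^ (1 / (16 * C)) :=
    ⟨_, rfl⟩
  have hR0 : 0 < R := by
    rw [hR]
    positivity
  rw [← hM, ← ht, mul_assoc, ← hR]
  rcases Nat.eq_zero_or_pos i with hi0 | hi0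
  · subst hi0
    have h1 := grp0 (ρ := ρ) (β := β) (h := h) hd hρ hκ hκ2 hC hs hS hB ha hp
    have hM' : M = min (m (p + 0 + 1)) n := hM
    rw [← hM', ← ht] at h1
    have h2 := numA hC ht0 htl (y := 2 ^ (0 + 2)) (by norm_num)
    have h3 : R = t ^ (1 / (16 * C)) := by
      rw [hR]
      simp
    have h4 : C * 2 ^ (0 + 2) * t ^ (1 / (16 * C)) = 4 * C * R := by
      rw [h3]
      ring
    rw [h4] at h2
    have h5 : 0 ≤ 8 / κ ^ 2 * R := by positivity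
    have h6 : 0 ≤ K₁ * R := by positivity
    show (law d ρ).real (Lg0 ρ β h (m p - 2 * m (p - a)) (2 * m (p - a)) (2 ^ p) κ
      (κ / 8 * 2 ^ p)) ≤ _
    linarith
  obtain ⟨i', rfl⟩ : ∃ i', i = i' + 1 := ⟨i - 1, by omega⟩
  by_cases hbig : 2 * k₀ ≤ i' + 1
  · have h1 := grpL (ρ := ρ) (β := β) (h := h) hd hρ hκ hκ2 hC hs hS hB ha hVE hp hk₀ hbig
    rw [← hM, ← ht, ← hR] at h1
    have h6 : 0 ≤ K₁ * R := by positivity
    linarith
  · have h1 : Lg ρ β h n (m p - 2 * m (p - a)) (2 * m (p - a)) (2 ^ p) κ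
        (κ / 8 * 2 ^ p) (i' + 1) ⊆ ⋃ N ∈ Finset.Ico (2 ^ (i' + 1)) (2 ^ (i' + 2)),
          LgN ρ β h (m p - 2 * m (p - a)) (2 * m (p - a)) (2 ^ p) κ (κ / 8 * 2 ^ p) N := by
      rintro η ⟨N, hN1, hN2, _, hN3⟩
      simp only [Set.mem_iUnion, Finset.mem_Ico]
      exact ⟨N, ⟨hN1, hN2⟩, hN3⟩
    have h2 : ∀ N ∈ Finset.Ico (2 ^ (i' + 1)) (2 ^ (i' + 2)),
        (law d ρ).real (LgN ρ β h (m p - 2 * m (p - a)) (2 * m (p - a)) (2 ^ p) κ
          (κ / 8 * 2 ^ p) N) ≤ 2 * (C * 2 ^ (2 * k₀ + 2) * t ^ (1 / (16 * C))) := by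
      intro N hN
      obtain ⟨hN1, hN2⟩ := Finset.mem_Ico.1 hN
      have h3 := grpN (ρ := ρ) (β := β) (h := h) hd hρ hκ hκ2 hC hs hS ha hp
        (N := N) (j := i' + 1) hN1 hN2 (hN2.le.trans (Nat.pow_le_pow_right (by norm_num) (by omega)))
      rw [← hM, ← ht] at h3
      have h4 : (1 : ℝ) ≤ 2 ^ (i' + 1 + 2) := one_le_pow₀ (by norm_num)
      have h5 := numA hC ht0 htl h4
      have h6 : C * 2 ^ (i' + 1 + 2) * t ^ (1 / (16 * C)) ≤
          C * 2 ^ (2 * k₀ + 2) * t ^ (1 / (16 * C)) := by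
        refine mul_le_mul_of_nonneg_right (mul_le_mul_of_nonneg_left ?_ hC0.le) (by positivity)
        exact pow_le_pow_right₀ (by norm_num) (by omega)
      linarith
    have h3 : (law d ρ).real (Lg ρ β h n (m p - 2 * m (p - a)) (2 * m (p - a)) (2 ^ p) κ
        (κ / 8 * 2 ^ p) (i' + 1)) ≤
        2 ^ (2 * k₀) * (2 * (C * 2 ^ (2 * k₀ + 2) * t ^ (1 / (16 * C)))) := by
      refine (measureReal_mono h1 (measure_ne_top _ _)).trans ?_
      refine (measureReal_biUnion_finset_le _ _).trans ?_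
      refine (Finset.sum_le_sum h2).trans ?_
      rw [Finset.sum_const, nsmul_eq_mul, Nat.card_Ico]
      refine mul_le_mul_of_nonneg_right ?_ (by positivity)
      have h4 : 2 ^ (i' + 2) - 2 ^ (i' + 1) ≤ 2 ^ (2 * k₀) :=
        (Nat.sub_le _ _).trans (Nat.pow_le_pow_right (by norm_num) (by omega))
      exact_mod_cast h4
    have h4 : t ^ (1 / (16 * C)) ≤ E₀ * R := by
      rw [hR, ← mul_assoc]
      refine le_mul_of_one_le_left (by positivity) ?_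
      rw [hE₀, ← Real.exp_add]
      refine Real.one_le_exp ?_
      have h5 : ((i' + 1 : ℕ) : ℝ) ≤ ((2 * k₀ : ℕ) : ℝ) := by exact_mod_cast (by omega)
      have h6 : 1 / (16 * C) * ((i' + 1 : ℕ) : ℝ) ≤ 1 * ((i' + 1 : ℕ) : ℝ) := by
        refine mul_le_mul_of_nonneg_right ?_ (Nat.cast_nonneg _)
        rw [div_le_one (by positivity)]
        linarith
      linarith
    have h5 : 2 ^ (2 * k₀) * (2 * (C * 2 ^ (2 * k₀ + 2) * t ^ (1 / (16 * C)))) ≤ K₁ * R := by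
      have h6 : 2 ^ (2 * k₀) * (2 * (C * 2 ^ (2 * k₀ + 2) * t ^ (1 / (16 * C)))) =
          2 ^ (2 * k₀) * (2 * (C * 2 ^ (2 * k₀ + 2))) * t ^ (1 / (16 * C)) := by ring
      have h7 : K₁ * R = 2 ^ (2 * k₀) * (2 * (C * 2 ^ (2 * k₀ + 2))) * (E₀ * R) := by
        rw [hK₁]
        ring
      rw [h6, h7]
      exact mul_le_mul_of_nonneg_left h4 (by positivity)
    have h6 : 0 ≤ (8 * C + 8 / κ ^ 2) * R := by positivity
    linarith

end Pool.Agent.W_7d29a1_PL
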