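import Pool.Agent.W_7d29a1_PL.DefsPL
import Pool.Agent.W_7d29a1_PL.Sing79
import Pool.Agent.W_7d29a1_SP.Bas15

/-!
Leaf COST: the price of a single luck.
-/

set_option autoImplicit false

namespace Pool.Agent.W_7d29a1_PL.K79

open MeasureTheory ProbabilityTheory Filter Topology Pool.Agent.W_MP_7d29a1_pr
  Pool.Agent.W_7d29a1_h46 Pool.Agent.W_7d29a1_h46u Pool.Agent.W_7d29a1_D2.B35
  Pool.Agent.W_7d29a1_Q29 Pool.Agent.W_7d29a1_R34 Pool.Agent.W_7d29a1_SP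
  Pool.Agent.W_7d29a1_SP.C79 Pool.Agent.W_7d29a1_PL.S79

variable {d : ℕ} {ρ : Measure ℝ}

lemma fM_E (β : ℝ) (h : Vec d) (k : ℕ) : En ρ β h k ≤ fM ρ β h k := le_max_left _ _

lemma fM_F (β : ℝ) (h : Vec d) (k : ℕ) : Fn ρ β h k ≤ fM ρ β h k := le_max_right _ _

lemma fM_nn [IsProbabilityMeasure ρ] (β : ℝ) (h : Vec d) (k : ℕ) : 0 ≤ fM ρ β h k :=
  (Fn_nonneg15 β h k).trans (fM_F β h k)

/-- The random fluctuation of a sum. -/
lemma Fn_add [IsProbabilityMeasure ρ] (hd : 0 < d) (hρ : EM ρ) (β : ℝ) (h : Vec d) (a b : ℕ) :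
    Fn ρ β h (a + b) ≤ 2 * (Fn ρ β h a + Fn ρ β h b + En ρ β h a + En ρ β h b) := by
  obtain ⟨hi, hI⟩ := Wd_int (ρ := ρ) hd hρ β h a b (B := Set.univ) MeasurableSet.univ
    (fun η η' _ => rfl)
  have hu : ∀ η : Env d, one (Set.univ : Set (Env d)) η = 1 := fun η => one_of (Set.mem_univ _)
  simp only [hu, one_mul] at hi hI
  rw [probReal_univ, one_mul] at hI
  have i0 := intX15 (ρ := ρ) hd hρ β h (a + b)
  have i1 := (intX15 (ρ := ρ) hd hρ β h a).abs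
  have hpt : ∀ η : Env d, |X β h η (a + b) - A ρ β h (a + b)| ≤
      (X β h η (a + b) - A ρ β h (a + b)) +
        2 * (|X β h η a - A ρ β h a| + Wd ρ β h a b η + (En ρ β h a + En ρ β h b)) := by
    intro η
    have h1 := Wd_pt (ρ := ρ) hd β h a b η
    have h2 := Wd_nn (ρ := ρ) hd β h a b η
    have h3 := neg_abs_le (X β h η a - A ρ β h a)
    have h4 : A ρ β h (a + b) ≤ A ρ β h a + A ρ β h b + (En ρ β h a + En ρ β h b) := by
      have h5 := En_nonneg15 (ρ := ρ) hd hρ β h (a + b)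
      unfold En at h5 ⊢
      push_cast at h5
      linarith
    have h6 := En_nonneg15 (ρ := ρ) hd hρ β h a
    have h7 := En_nonneg15 (ρ := ρ) hd hρ β h b
    have h8 := abs_nonneg (X β h η a - A ρ β h a)
    rcases abs_cases (X β h η (a + b) - A ρ β h (a + b)) with ⟨h9, _⟩ | ⟨h9, _⟩
    · rw [h9]
      linarith
    · rw [h9]
      linarith
  have i2 : Integrable (fun η => (X β h η (a + b) - A ρ β h (a + b)) +
      2 * (|X β h η a - A ρ β h a| + Wd ρ β h a b η + (En ρ β h a + En ρ β h b))) (law d ρ) :=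
    i0.add (((i1.add hi).add (integrable_const _)).const_mul 2)
  have h1 := integral_mono i0.abs i2 hpt
  have e1 : ∫ η, ((X β h η (a + b) - A ρ β h (a + b)) +
      2 * (|X β h η a - A ρ β h a| + Wd ρ β h a b η + (En ρ β h a + En ρ β h b))) ∂(law d ρ) =
      (∫ η, (X β h η (a + b) - A ρ β h (a + b)) ∂(law d ρ)) +
      2 * ((∫ η, |X β h η a - A ρ β h a| ∂(law d ρ)) + (∫ η, Wd ρ β h a b η ∂(law d ρ)) +
        (En ρ β h a + En ρ β h b)) := by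
    have e0 : ∫ η, ((X β h η (a + b) - A ρ β h (a + b)) +
        2 * (|X β h η a - A ρ β h a| + Wd ρ β h a b η + (En ρ β h a + En ρ β h b))) ∂(law d ρ) =
        (∫ η, (X β h η (a + b) - A ρ β h (a + b)) ∂(law d ρ)) +
        ∫ η, 2 * (|X β h η a - A ρ β h a| + Wd ρ β h a b η + (En ρ β h a + En ρ β h b))
          ∂(law d ρ) :=
      integral_add i0 (((i1.add hi).add (integrable_const _)).const_mul 2)
    rw [e0, integral_const_mul]
    congr 2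
    have e2 : ∫ η, (|X β h η a - A ρ β h a| + Wd ρ β h a b η + (En ρ β h a + En ρ β h b))
        ∂(law d ρ) = ∫ η, (|X β h η a - A ρ β h a| + Wd ρ β h a b η) ∂(law d ρ) +
        ∫ _, (En ρ β h a + En ρ β h b) ∂(law d ρ) :=
      integral_add (i1.add hi) (integrable_const _)
    have e3 : ∫ η, (|X β h η a - A ρ β h a| + Wd ρ β h a b η) ∂(law d ρ) =
        (∫ η, |X β h η a - A ρ β h a| ∂(law d ρ)) + ∫ η, Wd ρ β h a b η ∂(law d ρ) :=
      integral_add i1 hi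
    rw [e2, e3]
    simp
  rw [e1, mean15 hd hρ β h (a + b), hI] at h1
  have h2 : ∫ η, |X β h η (a + b) - A ρ β h (a + b)| ∂(law d ρ) = Fn ρ β h (a + b) := rfl
  have h3 : ∫ η, |X β h η a - A ρ β h a| ∂(law d ρ) = Fn ρ β h a := rfl
  rw [h2, h3] at h1
  linarith

lemma fM_add [IsProbabilityMeasure ρ] (hd : 0 < d) (hρ : EM ρ) (β : ℝ) (h : Vec d) (a b : ℕ) :
    fM ρ β h (a + b) ≤ 4 * (fM ρ β h a + fM ρ β h b) := by
  have h1 := Fn_add (ρ := ρ) hd hρ β h a b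
  have h2 := En_add15 (ρ := ρ) hd hρ β h a b
  have a1 := fM_E (ρ := ρ) β h a
  have a2 := fM_F (ρ := ρ) β h a
  have b1 := fM_E (ρ := ρ) β h b
  have b2 := fM_F (ρ := ρ) β h b
  have a3 := fM_nn (ρ := ρ) β h a
  have b3 := fM_nn (ρ := ρ) β h b
  refine max_le ?_ ?_
  · linarith
  · linarith

lemma fM_dbl [IsProbabilityMeasure ρ] (hd : 0 < d) (hρ : EM ρ) (β : ℝ) (h : Vec d) {u : ℕ} {w : ℝ}
    (hw : ∀ j : ℕ, j ≤ u → fM ρ β h j ≤ w) : ∀ j : ℕ, j ≤ 2 * u → fM ρ β h j ≤ 8 * w := by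
  intro j hj
  have h1 := fM_add (ρ := ρ) hd hρ β h (j / 2) (j - j / 2)
  have h2 : j / 2 + (j - j / 2) = j := by omega
  rw [h2] at h1
  have h3 := hw (j / 2) (by omega)
  have h4 := hw (j - j / 2) (by omega)
  linarith

lemma fM_small [IsProbabilityMeasure ρ] (hd : 0 < d) (hρ : EM ρ) (β : ℝ) (h : Vec d) {u : ℕ}
    {w : ℝ} (hu : 2 ≤ u) (hw : ∀ j : ℕ, j < u → fM ρ β h j < w) :
    ∀ j : ℕ, j ≤ 4 * u → fM ρ β h j ≤ 512 * w := by
  have hw0 : 0 ≤ w := (fM_nn (ρ := ρ) β h 0).trans (hw 0 (by omega)).le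
  have h1 : ∀ j : ℕ, j ≤ u → fM ρ β h j ≤ 8 * w := by
    intro j hj
    rcases hj.lt_or_eq with h2 | h2
    · have := hw j h2
      linarith
    · have h3 := fM_add (ρ := ρ) hd hρ β h (j / 2) (j - j / 2)
      have h4 : j / 2 + (j - j / 2) = j := by omega
      rw [h4] at h3
      have h5 := hw (j / 2) (by omega)
      have h6 := hw (j - j / 2) (by omega)
      linarith
  have h2 := fM_dbl (ρ := ρ) hd hρ β h h1
  have h3 := fM_dbl (ρ := ρ) hd hρ β h h2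
  intro j hj
  have := h3 j (by omega)
  linarith

/-- The bound of one horizon, at one tilt. -/
def SgH (ρ : Measure ℝ) (β : ℝ) (h : Vec d) (D C : ℝ) : Prop :=
  ∀ (T₀ T₁ T : ℕ) (θ s₀ φ Φ : ℝ),
    1 ≤ T₁ → T₁ ≤ T → 0 ≤ φ →
    (∀ k : ℕ, k ≤ T₁ - T₀ → En ρ β h k ≤ φ ∧ Fn ρ β h k ≤ φ) →
    (∀ k : ℕ, k ≤ T → En ρ β h k ≤ Φ ∧ Fn ρ β h k ≤ Φ) →
    A ρ β h T₁ + 4 * Fn ρ β h T₁ ≤ s₀ →
    Φ + 1 < D * (lam ρ β h * T₁ + θ - (3 * φ + 1) - s₀) →
    (law d ρ).real {η | ∃ s : ℕ, T₀ ≤ s ∧ s ≤ T₁ ∧ lam ρ β h * s + θ ≤ X β h η s} ≤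
      C * ((T₁ : ℝ) / T) ^ (1 / C)

/-- Group 0. -/
lemma grp0 [IsProbabilityMeasure ρ] {β : ℝ} {h : Vec d} {D C κ x φ : ℝ} (hs : SgH ρ β h D C)
    {H S T : ℕ} (hκ : 0 < κ) (hD : 8 / κ ≤ D) (hx : 1 ≤ x) (hS : 1 ≤ H + S) (hT : H + S ≤ T)
    (hφ : 0 ≤ φ) (hφ1 : 3 * φ + 1 ≤ κ / 16 * x)
    (hk : ∀ k : ℕ, k ≤ S → En ρ β h k ≤ φ ∧ Fn ρ β h k ≤ φ)
    (hK : ∀ k : ℕ, k ≤ T → En ρ β h k ≤ 2 * x ∧ Fn ρ β h k ≤ 2 * x)
    (hE : x ≤ En ρ β h (H + S)) (hF : Fn ρ β h (H + S) ≤ κ / 64 * x) :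
    (law d ρ).real (Lg0 ρ β h H S x κ (κ / 8 * x)) ≤ C * (((H + S : ℕ) : ℝ) / T) ^ (1 / C) := by
  refine le_trans (measureReal_mono ?_ (measure_ne_top _ _)) (hs H (H + S) T
    (-(1 - κ) * x - κ / 8 * x) (lam ρ β h * ((H + S : ℕ) : ℝ) - (1 - κ / 4) * x) φ (2 * x)
    hS hT hφ (fun k hk' => hk k (by omega)) hK ?_ ?_)
  · rintro η ⟨s, hs1, hs2⟩
    refine ⟨H + s, by omega, by omega, ?_⟩
    linarith
  · have h1 : A ρ β h (H + S) = ((H + S : ℕ) : ℝ) * lam ρ β h - En ρ β h (H + S) := by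
      unfold En
      ring
    have h2 : 0 < κ * x := by positivity
    rw [h1]
    nlinarith
  · have h2 : 0 < κ * x := by positivity
    have h3 : 8 ≤ D * κ := by
      rw [div_le_iff₀ hκ] at hD
      exact hD
    have hD0 : 0 < D := lt_of_lt_of_le (by positivity) hD
    have h4 : κ * x / 2 ≤ lam ρ β h * ((H + S : ℕ) : ℝ) + (-(1 - κ) * x - κ / 8 * x) -
        (3 * φ + 1) - (lam ρ β h * ((H + S : ℕ) : ℝ) - (1 - κ / 4) * x) := by
      nlinarith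
    have h5 := mul_le_mul_of_nonneg_left h4 hD0.le
    have h6 : 4 * x ≤ D * (κ * x / 2) := by nlinarith
    linarith

/-- One horizon of a near group. -/
lemma grpN [IsProbabilityMeasure ρ] (hd : 0 < d) (hρ : EM ρ) {β : ℝ} {h : Vec d} {D C κ x φ : ℝ}
    (hs : SgH ρ β h D C)
    {H S T N : ℕ} (hκ : 0 < κ) (hD : 8 / κ ≤ D) (hx : 1 ≤ x) (hN : 1 ≤ N) (hS : 1 ≤ N * H + S)
    (hT : N * H + S ≤ T) (hφ : 0 ≤ φ) (hφ1 : 3 * φ + 1 ≤ κ / 16 * x)
    (hk : ∀ k : ℕ, k ≤ S → En ρ β h k ≤ φ ∧ Fn ρ β h k ≤ φ)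
    (hK : ∀ k : ℕ, k ≤ T → En ρ β h k ≤ 2 * N * x ∧ Fn ρ β h k ≤ 2 * N * x)
    (hF : Fn ρ β h (N * H + S) ≤ κ / 64 * x) :
    (law d ρ).real (LgN ρ β h H S x κ (κ / 8 * x) N) ≤
      C * (((N * H + S : ℕ) : ℝ) / T) ^ (1 / C) := by
  have hN' : (1 : ℝ) ≤ N := by exact_mod_cast hN
  have h2 : 0 < κ * x := by positivity
  have h2N : κ * x ≤ κ * N * x := by nlinarith
  refine le_trans (measureReal_mono ?_ (measure_ne_top _ _)) (hs (N * H) (N * H + S) T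
    (κ * N * x - κ / 8 * x) (lam ρ β h * ((N * H + S : ℕ) : ℝ) + κ / 16 * x) φ (2 * N * x)
    hS hT hφ (fun k hk' => hk k (by omega)) hK ?_ ?_)
  · rintro η ⟨s, hs1, hs2⟩
    refine ⟨N * H + s, by omega, by omega, ?_⟩
    linarith
  · have h1 : A ρ β h (N * H + S) =
        ((N * H + S : ℕ) : ℝ) * lam ρ β h - En ρ β h (N * H + S) := by
      unfold En
      ring
    have h3 := En_nonneg15 (ρ := ρ) hd hρ β h (N * H + S)
    rw [h1]
    nlinarith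
  · have h3 : 8 ≤ D * κ := by
      rw [div_le_iff₀ hκ] at hD
      exact hD
    have hD0 : 0 < D := lt_of_lt_of_le (by positivity) hD
    have h4 : κ * N * x / 2 ≤ lam ρ β h * ((N * H + S : ℕ) : ℝ) + (κ * N * x - κ / 8 * x) -
        (3 * φ + 1) - (lam ρ β h * ((N * H + S : ℕ) : ℝ) + κ / 16 * x) := by
      linarith
    have h5 := mul_le_mul_of_nonneg_left h4 hD0.le
    have hNx : 1 ≤ N * x := one_le_mul_of_one_le_of_one_le hN' hx
    have h6 : 4 * (N * x) ≤ D * (κ * N * x / 2) := by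
      have : D * (κ * N * x / 2) = D * κ * (N * x) / 2 := by ring
      rw [this]
      nlinarith
    linarith

/-- The event of a far group. -/
lemma far_sub {β : ℝ} {h : Vec d} {κ x z : ℝ} {n H S M : ℕ} (hκ : 0 < κ) (hx : 0 ≤ x) :
    {η : Env d | ∃ N : ℕ, M ≤ N ∧ N < 2 * M ∧ N * H ≤ n ∧ η ∈ LgN ρ β h H S x κ z N} ⊆
      {η | ∃ s : ℕ, M * H ≤ s ∧ s ≤ 2 * M * H + S ∧
        lam ρ β h * s + (κ * M * x - z) ≤ X β h η s} := by
  rintro η ⟨N, h1, h2, h3, s, h4, h5⟩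
  refine ⟨N * H + s, ?_, ?_, ?_⟩
  · have := Nat.mul_le_mul_right H h1
    omega
  · have := Nat.mul_le_mul_right H h2.le
    omega
  · have h6 : (M : ℝ) ≤ N := by exact_mod_cast h1
    have h7 : κ * M * x ≤ κ * N * x :=
      mul_le_mul_of_nonneg_right (mul_le_mul_of_nonneg_left h6 hκ.le) hx
    linarith

/-- A far group. -/
lemma grpF [IsProbabilityMeasure ρ] (hd : 0 < d) (hρ : EM ρ) {β : ℝ} {h : Vec d} {D C κ x φ : ℝ}
    (hs : SgH ρ β h D C)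
    {n H S T M : ℕ} (hκ : 0 < κ) (hD : 8 / κ ≤ D) (hx : 1 ≤ x) (hM : 1 ≤ M)
    (hS : 1 ≤ 2 * M * H + S)
    (hT : 2 * M * H + S ≤ T) (hφ : 0 ≤ φ) (hφ1 : 3 * φ + 1 ≤ κ / 8 * M * x)
    (hk : ∀ k : ℕ, k ≤ 2 * M * H + S → En ρ β h k ≤ φ ∧ Fn ρ β h k ≤ φ)
    (hK : ∀ k : ℕ, k ≤ T → En ρ β h k ≤ 2 * M * x ∧ Fn ρ β h k ≤ 2 * M * x) :
    (law d ρ).real {η : Env d | ∃ N : ℕ, M ≤ N ∧ N < 2 * M ∧ N * H ≤ n ∧
      η ∈ LgN ρ β h H S x κ (κ / 8 * x) N} ≤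
      C * (((2 * M * H + S : ℕ) : ℝ) / T) ^ (1 / C) := by
  have hM' : (1 : ℝ) ≤ M := by exact_mod_cast hM
  have h2 : 0 < κ * x := by positivity
  have h2N : κ * x ≤ κ * M * x := by nlinarith
  refine le_trans (measureReal_mono (far_sub hκ (by linarith)) (measure_ne_top _ _))
    (hs (M * H) (2 * M * H + S) T
    (κ * M * x - κ / 8 * x) (lam ρ β h * ((2 * M * H + S : ℕ) : ℝ) + 4 * φ) φ (2 * M * x)
    hS hT hφ (fun k hk' => hk k (by omega)) hK ?_ ?_)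
  · have h1 : A ρ β h (2 * M * H + S) =
        ((2 * M * H + S : ℕ) : ℝ) * lam ρ β h - En ρ β h (2 * M * H + S) := by
      unfold En
      ring
    have h3 := En_nonneg15 (ρ := ρ) hd hρ β h (2 * M * H + S)
    have h4 := (hk (2 * M * H + S) le_rfl).2
    rw [h1]
    linarith
  · have h3 : 8 ≤ D * κ := by
      rw [div_le_iff₀ hκ] at hD
      exact hD
    have hD0 : 0 < D := lt_of_lt_of_le (by positivity) hD
    have h4 : κ * M * x / 2 ≤ lam ρ β h * ((2 * M * H + S : ℕ) : ℝ) + (κ * M * x - κ / 8 * x) -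
        (3 * φ + 1) - (lam ρ β h * ((2 * M * H + S : ℕ) : ℝ) + 4 * φ) := by
      linarith
    have h5 := mul_le_mul_of_nonneg_left h4 hD0.le
    have hNx : 1 ≤ M * x := one_le_mul_of_one_le_of_one_le hM' hx
    have h6 : 4 * (M * x) ≤ D * (κ * M * x / 2) := by
      have : D * (κ * M * x / 2) = D * κ * (M * x) / 2 := by ring
      rw [this]
      nlinarith
    linarith

/-- Chebyshev. -/
lemma cheb79 [IsProbabilityMeasure ρ] (hd : 0 < d) (hρ : EM ρ) (β : ℝ) (h : Vec d) (m : ℕ)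
    {G : ℝ} (hG : 0 < G) :
    (law d ρ).real {η | A ρ β h m + G ≤ X β h η m} ≤ Va ρ β h m / G ^ 2 := by
  have hm : MeasurableSet {η : Env d | A ρ β h m + G ≤ X β h η m} :=
    measurableSet_le measurable_const (measurable_X β h m)
  have h1 : ∀ η : Env d, G ^ 2 * one {η : Env d | A ρ β h m + G ≤ X β h η m} η ≤
      (X β h η m - A ρ β h m) ^ 2 := by
    intro η
    by_cases hη : η ∈ {η : Env d | A ρ β h m + G ≤ X β h η m}
    · rw [one_of hη, mul_one]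
      have h2 : A ρ β h m + G ≤ X β h η m := hη
      nlinarith
    · rw [one_not hη, mul_zero]
      exact sq_nonneg _
  have h2 := integral_mono ((one_int hm).const_mul (G ^ 2)) (N85.Va_int (ρ := ρ) hd hρ β h m) h1
  rw [integral_const_mul, one_I hm] at h2
  have h3 : ∫ η, (X β h η m - A ρ β h m) ^ 2 ∂(law d ρ) = Va ρ β h m := rfl
  rw [h3] at h2
  rw [le_div_iff₀ (by positivity)]
  linarith

/-- A very far group. -/
lemma grpC [IsProbabilityMeasure ρ] (hd : 0 < d) (hρ : EM ρ) {β : ℝ} {h : Vec d} {κ x φ V : ℝ}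
    {n H S M : ℕ} (hκ : 0 < κ) (hx : 1 ≤ x) (hM : 1 ≤ M)
    (hφ : 0 ≤ φ) (hφ1 : 3 * φ + 1 ≤ κ / 4 * M * x)
    (hk : ∀ k : ℕ, k ≤ 2 * M * H + S → En ρ β h k ≤ φ ∧ Fn ρ β h k ≤ φ)
    (hV : Va ρ β h (2 * M * H + S) ≤ V) :
    (law d ρ).real {η : Env d | ∃ N : ℕ, M ≤ N ∧ N < 2 * M ∧ N * H ≤ n ∧
      η ∈ LgN ρ β h H S x κ (κ / 8 * x) N} ≤ 2 * (V / (κ * M * x / 2) ^ 2) := by
  have hM' : (1 : ℝ) ≤ M := by exact_mod_cast hM
  have h2 : 0 < κ * x := by positivity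
  have h2N : κ * x ≤ κ * M * x := by nlinarith
  refine le_trans (measureReal_mono (far_sub hκ (by linarith)) (measure_ne_top _ _)) ?_
  refine le_trans (push79 hd hρ β h hφ (fun k hk' => hk k (by omega))) ?_
  refine mul_le_mul_of_nonneg_left ?_ (by norm_num)
  have hG : 0 < κ * M * x / 2 := by linarith
  refine le_trans (measureReal_mono ?_ (measure_ne_top _ _))
    ((cheb79 hd hρ β h (2 * M * H + S) hG).trans
      (div_le_div_of_nonneg_right hV (by positivity)))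
  intro η hη
  have h3 : lam ρ β h * ((2 * M * H + S : ℕ) : ℝ) + (κ * M * x - κ / 8 * x) - (3 * φ + 1) ≤
    X β h η (2 * M * H + S) := hη
  have h4 := En_nonneg15 (ρ := ρ) hd hρ β h (2 * M * H + S)
  have h1 : A ρ β h (2 * M * H + S) =
      ((2 * M * H + S : ℕ) : ℝ) * lam ρ β h - En ρ β h (2 * M * H + S) := by
    unfold En
    ring
  show A ρ β h (2 * M * H + S) + κ * M * x / 2 ≤ X β h η (2 * M * H + S)
  rw [h1]
  linarith

end Pool.Agent.W_7d29a1_PL.K79
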