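import Pool.Agent.W_7d29a1_PL.CostM90

/-!
COST: the price of a single luck, over the single probability (SING).
-/

set_option autoImplicit false

namespace Pool.Agent.W_7d29a1_PL

open MeasureTheory ProbabilityTheory Filter Topology Pool.Agent.W_MP_7d29a1_pr
  Pool.Agent.W_7d29a1_h46 Pool.Agent.W_7d29a1_h46u Pool.Agent.W_7d29a1_D2.B35
  Pool.Agent.W_7d29a1_Q29 Pool.Agent.W_7d29a1_R34 Pool.Agent.W_7d29a1_SP

lemma numM90 {C c R : ℝ} {j : ℕ} (hC : 1 ≤ C) (hcC : c ≤ 1 / (2 * C)) (hR : 0 < R)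
    (hRj : R ≤ (1 / 16) ^ (j + 1)) :
    (2 ^ (j + 2) * R) ^ (1 / C) ≤ Real.exp (-(c * j)) * R ^ c := by
  have hC0 : 0 < C := by linarith
  have hR1 : R ≤ 1 := hRj.trans (pow_le_one₀ (by norm_num) (by norm_num))
  have h1 : Real.sqrt R ≤ (1 / 4) ^ (j + 1) := by
    refine Real.sqrt_le_iff.2 ⟨by positivity, hRj.trans (le_of_eq ?_)⟩
    rw [← pow_mul, mul_comm (j + 1) 2, pow_mul]
    norm_num
  have h2 : Real.sqrt R * Real.sqrt R = R := Real.mul_self_sqrt hR.le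
  have h3 : (2 : ℝ) ^ (j + 2) * R ≤ (1 / 2) ^ j * Real.sqrt R := by
    calc (2 : ℝ) ^ (j + 2) * R = 2 ^ (j + 2) * Real.sqrt R * Real.sqrt R := by
          rw [mul_assoc, h2]
      _ ≤ 2 ^ (j + 2) * (1 / 4) ^ (j + 1) * Real.sqrt R :=
          mul_le_mul_of_nonneg_right (mul_le_mul_of_nonneg_left h1 (by positivity))
            (Real.sqrt_nonneg _)
      _ = (1 / 2) ^ j * Real.sqrt R := by
          congr 1
          have h4 : (2 : ℝ) ^ (j + 2) * (1 / 4) ^ (j + 1) = (2 * (1 / 4)) ^ j := by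
            rw [mul_pow]
            ring
          rw [h4]
          norm_num
  refine (Real.rpow_le_rpow (by positivity) h3 (by positivity)).trans ?_
  rw [Real.mul_rpow (by positivity) (Real.sqrt_nonneg _)]
  refine mul_le_mul ?_ ?_ (by positivity) (Real.exp_pos _).le
  · have h5 : ((1 : ℝ) / 2) ^ j = Real.exp (-(Real.log 2 * j)) := by
      rw [Real.exp_neg, mul_comm, Real.exp_nat_mul, Real.exp_log (by norm_num), ← inv_pow]
      norm_num
    rw [h5, ← Real.exp_mul]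
    refine Real.exp_le_exp.2 ?_
    have h6 := Real.log_two_gt_d9
    have h7 : (0 : ℝ) ≤ j := Nat.cast_nonneg _
    have h8 : c ≤ Real.log 2 * (1 / C) := by
      refine hcC.trans ?_
      have h9 : 1 / (2 * C) = 1 / 2 * (1 / C) := by
        field_simp
      rw [h9]
      exact mul_le_mul_of_nonneg_right (by linarith) (by positivity)
    have h9 : c * j ≤ Real.log 2 * (1 / C) * j := mul_le_mul_of_nonneg_right h8 h7
    have h10 : -(Real.log 2 * j) * (1 / C) = -(Real.log 2 * (1 / C) * j) := by ring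
    rw [h10]
    linarith
  · rw [Real.sqrt_eq_rpow, ← Real.rpow_mul hR.le]
    refine Real.rpow_le_rpow_of_exponent_ge hR hR1 (hcC.trans (le_of_eq ?_))
    field_simp

lemma numS90 {C c R : ℝ} {j : ℕ} (hC : 1 ≤ C) (hcC : c ≤ 1 / C) (hR : 0 < R)
    (hR1 : R ≤ 1) : (2 ^ (j + 2) * R) ^ (1 / C) ≤ 2 ^ (j + 2) * R ^ c := by
  have hC0 : 0 < C := by linarith
  rw [Real.mul_rpow (by positivity) hR.le]
  refine mul_le_mul ?_ (Real.rpow_le_rpow_of_exponent_ge hR hR1 hcC) (by positivity)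
    (by positivity)
  have h1 : (1 : ℝ) ≤ 2 ^ (j + 2) := one_le_pow₀ (by norm_num)
  have h2 : 1 / C ≤ 1 := by
    rw [div_le_one hC0]
    exact hC
  calc ((2 : ℝ) ^ (j + 2)) ^ (1 / C) ≤ ((2 : ℝ) ^ (j + 2)) ^ (1 : ℝ) :=
        Real.rpow_le_rpow_of_exponent_le h1 h2
    _ = 2 ^ (j + 2) := Real.rpow_one _

/-- **COST** over SING. -/
theorem costS90 {d : ℕ} {ρ : Measure ℝ} [IsProbabilityMeasure ρ] {β : ℝ} (hd : 0 < d)
    (hρ : EM ρ) (hSing : S79.SingP d ρ β) : CostP d ρ β := by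
  intro c₀ κ hc₀ hκ hκ1
  obtain ⟨i₁, hi₁⟩ : ∃ i₁ : ℕ, 128 / κ < 2 ^ i₁ := pow_unbounded_of_one_lt _ (by norm_num)
  obtain ⟨a₁, ha₁⟩ : ∃ a₁ : ℕ, 256 / κ < 2 ^ a₁ := pow_unbounded_of_one_lt _ (by norm_num)
  have hi₁1 : 1 ≤ i₁ := by
    by_contra hcon
    have : i₁ = 0 := by omega
    rw [this, pow_zero, div_lt_one hκ] at hi₁
    linarith
  set i₀ : ℕ := 2 * i₁ with hi₀
  set D : ℝ := 2 ^ (i₀ + 3) / κ with hD
  have hDκ : D * κ = 2 ^ (i₀ + 3) := by
    rw [hD]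
    field_simp
  have h8 : (8 : ℝ) ≤ 2 ^ (i₀ + 3) := by
    have : (2 : ℝ) ^ 3 ≤ 2 ^ (i₀ + 3) := pow_le_pow_right₀ (by norm_num) (by omega)
    linarith
  have hD1 : 1 ≤ D := by
    rw [hD, le_div_iff₀ hκ]
    linarith
  obtain ⟨C₁, hC₁, hsg⟩ := hSing c₀ D hc₀ hD1
  have hC₁0 : 0 < C₁ := by linarith
  set c : ℝ := min (1 / 32) (1 / (2 * C₁)) with hc
  have hc0 : 0 < c := lt_min (by norm_num) (by positivity)
  have hc1 : c ≤ 1 / 32 := min_le_left _ _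
  have hc2 : c ≤ 1 / (2 * C₁) := min_le_right _ _
  have hc3 : c ≤ 1 / C₁ := by
    refine hc2.trans ?_
    exact one_div_le_one_div_of_le hC₁0 (by linarith)
  set E : ℝ := C₁ * 2 ^ (2 * i₀ + 2) * Real.exp i₀ + 8 / κ ^ 2 with hE
  have hE1 : 1 ≤ Real.exp (i₀ : ℝ) := Real.one_le_exp (Nat.cast_nonneg _)
  have h2p : (4 : ℝ) ≤ 2 ^ (2 * i₀ + 2) := by
    have : (2 : ℝ) ^ 2 ≤ 2 ^ (2 * i₀ + 2) := pow_le_pow_right₀ (by norm_num) (by omega)
    linarith
  have hEa : C₁ * 2 ^ (2 * i₀ + 2) * Real.exp i₀ ≤ E := by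
    rw [hE]
    have : 0 < 8 / κ ^ 2 := by positivity
    linarith
  have hEb : 4 * C₁ ≤ C₁ * 2 ^ (2 * i₀ + 2) * Real.exp i₀ := by
    calc 4 * C₁ = C₁ * 4 * 1 := by ring
      _ ≤ C₁ * 2 ^ (2 * i₀ + 2) * Real.exp i₀ :=
        mul_le_mul (mul_le_mul_of_nonneg_left h2p hC₁0.le) hE1 (by norm_num) (by positivity)
  refine ⟨max (max 3 a₁) (i₀ + 1), 2 ^ (i₀ + 1), 16, κ / 64, c, E, by positivity, hc0,
    by linarith, ?_⟩
  intro a ha h hL n m I hS hV p hp i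
  have ha3 : 3 ≤ a := le_trans (le_trans (le_max_left _ _) (le_max_left _ _)) ha
  have haa : a₁ ≤ a := le_trans (le_trans (le_max_right _ _) (le_max_left _ _)) ha
  have hai : i₀ + 1 ≤ a := le_trans (le_max_right _ _) ha
  have haκ : 256 / κ ≤ 2 ^ a := ha₁.le.trans (pow_le_pow_right₀ (by norm_num) haa)
  have hsing : Sg90 ρ β h D C₁ := hsg h hL
  have hε0 : 0 < κ / 64 := by positivity
  have hε1 : κ / 64 < 1 := by linarith
  have hB1 : 1 ≤ 2 ^ (i₀ + 1) := Nat.one_le_two_pow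
  obtain ⟨hap, hm2⟩ := hS.big p hp
  have hfar := hS.far90' hd hρ hB1 hε1 hp (by omega)
  have hma : 2 ^ a ≤ m p := by
    have h9 : 2 ^ a = 2 ^ (a - 1) * 2 := by
      rw [← pow_succ]
      congr 1
      omega
    have h10 : 2 ^ (a - 1) * 2 ≤ 2 ^ (a - 1) * m (p - a) := Nat.mul_le_mul_left _ hm2
    omega
  have hsm := hS.sm p hp
  have hm8 : 8 ≤ m p := by
    have : 2 ^ 3 ≤ 2 ^ a := Nat.pow_le_pow_right (by norm_num) ha3
    omega
  have hsq : m p * m p ≤ n := by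
    refine le_trans ?_ hsm
    calc m p * m p = m p ^ 2 := by ring
      _ ≤ m p ^ 4 := Nat.pow_le_pow_right (by omega) (by norm_num)
  have hmn : m p ≤ n := le_trans (Nat.le_mul_of_pos_left _ (by omega)) hsq
  have hn1 : 1 ≤ n := by omega
  have hmm : m p ≤ m (p + i + 1) := hS.mono90 (by omega)
  -- the ratio
  set ν : ℕ := min (m (p + i + 1)) n with hν
  have hmν : m p ≤ ν := le_min hmm hmn
  have hν1 : 1 ≤ ν := by omega
  have hm0' : (0 : ℝ) < m p := by exact_mod_cast (by omega : 0 < m p)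
  have hν0' : (0 : ℝ) < ν := by exact_mod_cast (by omega : 0 < ν)
  have hR0 : 0 < (m p : ℝ) / ν := by positivity
  have hR1 : (m p : ℝ) / ν ≤ 1 := by
    rw [div_le_one hν0']
    exact_mod_cast hmν
  have hRc0 : 0 ≤ ((m p : ℝ) / ν) ^ c := Real.rpow_nonneg hR0.le _
  have hex1 : ∀ j : ℕ, j ≤ i₀ → 1 ≤ Real.exp i₀ * Real.exp (-(c * j)) := by
    intro j hj
    rw [← Real.exp_add]
    refine Real.one_le_exp ?_
    have h9 : (j : ℝ) ≤ i₀ := by exact_mod_cast hj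
    have h10 : (0 : ℝ) ≤ j := Nat.cast_nonneg _
    nlinarith
  -- a small group
  have hsmall : ∀ j : ℕ, j ≤ i₀ → ∀ P : ℝ, P ≤ 2 ^ j * (C₁ * (2 ^ (j + 2) * ((m p : ℝ) / ν)) ^
      (1 / C₁)) → P ≤ E * Real.exp (-(c * j)) * ((m p : ℝ) / ν) ^ c := by
    intro j hj P hP
    refine hP.trans ?_
    have h9 := numS90 (j := j) hC₁ hc3 hR0 hR1
    have h10 : (2 : ℝ) ^ j * 2 ^ (j + 2) ≤ 2 ^ (2 * i₀ + 2) := by
      rw [← pow_add]
      exact pow_le_pow_right₀ (by norm_num) (by omega)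
    calc (2 : ℝ) ^ j * (C₁ * (2 ^ (j + 2) * ((m p : ℝ) / ν)) ^ (1 / C₁))
        ≤ 2 ^ j * (C₁ * (2 ^ (j + 2) * ((m p : ℝ) / ν) ^ c)) :=
          mul_le_mul_of_nonneg_left (mul_le_mul_of_nonneg_left h9 hC₁0.le) (by positivity)
      _ = C₁ * (2 ^ j * 2 ^ (j + 2)) * ((m p : ℝ) / ν) ^ c := by ring
      _ ≤ C₁ * 2 ^ (2 * i₀ + 2) * ((m p : ℝ) / ν) ^ c :=
          mul_le_mul_of_nonneg_right (mul_le_mul_of_nonneg_left h10 hC₁0.le) hRc0
      _ = C₁ * 2 ^ (2 * i₀ + 2) * 1 * ((m p : ℝ) / ν) ^ c := by ring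
      _ ≤ C₁ * 2 ^ (2 * i₀ + 2) * (Real.exp i₀ * Real.exp (-(c * j))) * ((m p : ℝ) / ν) ^ c :=
          mul_le_mul_of_nonneg_right (mul_le_mul_of_nonneg_left (hex1 j hj) (by positivity)) hRc0
      _ = C₁ * 2 ^ (2 * i₀ + 2) * Real.exp i₀ * Real.exp (-(c * j)) * ((m p : ℝ) / ν) ^ c := by
          ring
      _ ≤ E * Real.exp (-(c * j)) * ((m p : ℝ) / ν) ^ c :=
          mul_le_mul_of_nonneg_right (mul_le_mul_of_nonneg_right hEa (Real.exp_pos _).le) hRc0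
  rcases i with _ | i
  · -- group 0
    have h9 := zero90 hd hρ hC₁ hsing hS hB1 (by norm_num) hε0 hκ hκ1 le_rfl hp ha3 haκ
      (by rw [hDκ]; exact h8) (by nlinarith)
    refine hsmall 0 (Nat.zero_le _) _ ?_
    rw [pow_zero, one_mul]
    exact h9
  rcases Nat.lt_or_ge i₀ (i + 1) with hbig | hle
  swap
  · have h10 : 2 ^ (i + 2) * m p ≤ n := by
      refine le_trans (Nat.mul_le_mul_right _ ?_) hsq
      exact le_trans (Nat.pow_le_pow_right (by norm_num) (by omega)) hma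
    have h9 := small90 (i₀ := i₀) (i := i) hd hρ hC₁ hsing hS (by norm_num) hε0 hκ hκ1 le_rfl hp
      ha3 haκ (by rw [hDκ]) hle le_rfl h10
    exact hsmall (i + 1) hle _ h9
  -- the large groups
  rcases le_or_gt ((n : ℝ) ^ (1 / 8 : ℝ)) (2 ^ (i + 1)) with hlarge | hmid
  · obtain ⟨φ, hφ0, hφκ, hφ⟩ := sl90 hd hρ hS hB1 hε0 hκ1 le_rfl hp (by omega) haκ hκ
    have hx : (0 : ℝ) < 2 ^ p := by positivity
    have h9 := costL90 (h := h) (β := β) (n := n) (H := m p - 2 * m (p - a))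
      (S := 2 * m (p - a)) (p := p) (i := i) (φ := φ) (μ := m p) (ν := ν) hd hρ hκ hn1
      (by
        have := (hS.one90 hd hρ hB1 hε1 hp ha3).1
        omega) hφ0 hφ
      (by nlinarith) (fun k hk => (hV k hk).1) hlarge hc0 hc1 (by exact_mod_cast (by omega : 1 ≤ m p))
      (by exact_mod_cast hν1) (by exact_mod_cast (min_le_right _ _ : ν ≤ n))
    refine h9.trans ?_
    refine mul_le_mul_of_nonneg_right (mul_le_mul_of_nonneg_right ?_ (Real.exp_pos _).le) hRc0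
    rw [hE]
    have : 0 < C₁ * 2 ^ (2 * i₀ + 2) * Real.exp i₀ := by positivity
    linarith
  · -- the middle groups
    have hn0 : (0 : ℝ) < n := by exact_mod_cast hn1
    have hj8 : (2 ^ (i + 1)) ^ 8 ≤ n := by
      have h9 : ((2 : ℝ) ^ (i + 1)) ^ 8 ≤ ((n : ℝ) ^ (1 / 8 : ℝ)) ^ 8 :=
        pow_le_pow_left₀ (by positivity) hmid.le 8
      have h10 : ((n : ℝ) ^ (1 / 8 : ℝ)) ^ 8 = n := by
        rw [← Real.rpow_natCast, ← Real.rpow_mul hn0.le]
        norm_num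
      rw [h10] at h9
      exact_mod_cast h9
    have hmid16 : 16 ^ (i + 2) * m p ≤ n := by
      have h9 : (16 ^ (i + 2) * m p) ^ 4 ≤ n ^ 4 := by
        calc (16 ^ (i + 2) * m p) ^ 4 = (16 ^ (i + 2)) ^ 4 * m p ^ 4 := by ring
          _ ≤ ((2 ^ (i + 1)) ^ 8) ^ 3 * m p ^ 4 := by
            refine Nat.mul_le_mul_right _ ?_
            rw [← pow_mul, ← pow_mul, ← pow_mul, show (16 : ℕ) = 2 ^ 4 by norm_num, ← pow_mul]
            exact Nat.pow_le_pow_right (by norm_num) (by omega)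
          _ ≤ n ^ 3 * n := Nat.mul_le_mul (Nat.pow_le_pow_left hj8 3) hsm
          _ = n ^ 4 := by ring
      exact (Nat.pow_le_pow_iff_left (by norm_num)).1 h9
    have h10 : 2 ^ (i + 2) * m p ≤ n :=
      le_trans (Nat.mul_le_mul_right _ (Nat.pow_le_pow_left (by norm_num) _)) hmid16
    have h9 := mid90 (i₁ := i₁) (i := i) hd hρ hC₁ hsing hS hB1 (by norm_num) hε1 hκ hp ha3 hi₁.le
      (by rw [hDκ]; exact h8) (by omega) h10
    have h11 : 16 ^ (i + 2) * m p ≤ ν := by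
      rw [hν]
      refine le_min ?_ hmid16
      by_cases hcc : m (p + (i + 1) + 1) ≤ n
      · exact (hS.nc p hp (i + 1) hcc).le
      · push Not at hcc
        exact hmid16.trans hcc.le
    have h12 : (m p : ℝ) / ν ≤ (1 / 16) ^ (i + 1 + 1) := by
      rw [div_le_iff₀ hν0', one_div, inv_pow, inv_mul_eq_div, le_div_iff₀ (by positivity)]
      have h13 : ((16 ^ (i + 2) * m p : ℕ) : ℝ) ≤ ν := by exact_mod_cast h11
      push_cast at h13
      have h14 : (16 : ℝ) ^ (i + 1 + 1) = 16 ^ (i + 2) := rfl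
      rw [h14]
      linarith
    have h13 := numM90 (j := i + 1) hC₁ hc2 hR0 h12
    refine h9.trans ((mul_le_mul_of_nonneg_left h13 hC₁0.le).trans ?_)
    rw [← mul_assoc]
    refine mul_le_mul_of_nonneg_right (mul_le_mul_of_nonneg_right ?_ (Real.exp_pos _).le) hRc0
    linarith

end Pool.Agent.W_7d29a1_PL
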