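import Pool.Agent.W_7d29a1_PL.Sing79
import Pool.Agent.W_7d29a1_PL.SyB90

/-!
COST, the large groups (Chebyshev).
-/

set_option autoImplicit false

namespace Pool.Agent.W_7d29a1_PL

open MeasureTheory ProbabilityTheory Filter Topology Pool.Agent.W_MP_7d29a1_pr
  Pool.Agent.W_7d29a1_h46 Pool.Agent.W_7d29a1_h46u Pool.Agent.W_7d29a1_D2.B35
  Pool.Agent.W_7d29a1_Q29 Pool.Agent.W_7d29a1_R34 Pool.Agent.W_7d29a1_SP

variable {d : ℕ} {ρ : Measure ℝ} {β : ℝ} {h : Vec d}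

/-- Chebyshev above the line. -/
lemma cheb90 [IsProbabilityMeasure ρ] (hd : 0 < d) (hρ : EM ρ) (T : ℕ) {u : ℝ} (hu : 0 < u) :
    (law d ρ).real {η | lam ρ β h * T + u ≤ X β h η T} ≤ Va ρ β h T / u ^ 2 := by
  have h1 : Integrable (fun η => (X β h η T - A ρ β h T) ^ 2) (law d ρ) :=
    N85.Va_int (ρ := ρ) hd hρ β h T
  have h2 := mul_meas_ge_le_integral_of_nonneg (μ := law d ρ)
    (Eventually.of_forall fun η => sq_nonneg (X β h η T - A ρ β h T)) h1 (u ^ 2)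
  have h3 : ∫ η, (X β h η T - A ρ β h T) ^ 2 ∂(law d ρ) = Va ρ β h T := rfl
  rw [h3] at h2
  rw [le_div_iff₀ (by positivity), mul_comm]
  refine le_trans (mul_le_mul_of_nonneg_left (measureReal_mono ?_ (measure_ne_top _ _))
    (by positivity)) h2
  intro η hη
  have h4 : lam ρ β h * T + u ≤ X β h η T := hη
  have h5 := A_le_lam hd hρ β h T
  show u ^ 2 ≤ (X β h η T - A ρ β h T) ^ 2
  have h6 : u ≤ X β h η T - A ρ β h T := by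
    have : A ρ β h T ≤ lam ρ β h * T := by linarith
    linarith
  exact pow_le_pow_left₀ hu.le h6 2

/-- One horizon. -/
lemma lgN90 [IsProbabilityMeasure ρ] (hd : 0 < d) (hρ : EM ρ) {n H S p N : ℕ} {κ φ : ℝ}
    (hκ : 0 < κ) (hφ0 : 0 ≤ φ)
    (hφ : ∀ k : ℕ, k ≤ S → En ρ β h k ≤ φ ∧ Fn ρ β h k ≤ φ)
    (hφκ : 3 * φ + 1 ≤ κ / 4 * 2 ^ p) (hN : 2 ≤ N) (hV : Va ρ β h (N * H + S) ≤ (n : ℝ) ^ (1 / 16 : ℝ)) :
    (law d ρ).real (LgN ρ β h H S (2 ^ p) κ (κ / 8 * 2 ^ p) N) ≤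
      8 * (n : ℝ) ^ (1 / 16 : ℝ) / (κ ^ 2 * N ^ 2) := by
  have hx : (1 : ℝ) ≤ 2 ^ p := one_le_pow₀ (by norm_num)
  have hN' : (2 : ℝ) ≤ N := by exact_mod_cast hN
  have h1 := S79.push79 (T₀ := N * H) (T₁ := N * H + S) (θ := κ * N * 2 ^ p - κ / 8 * 2 ^ p)
    hd hρ β h hφ0 (fun k hk => hφ k (by omega))
  have h2 : (law d ρ).real (LgN ρ β h H S (2 ^ p) κ (κ / 8 * 2 ^ p) N) ≤
      (law d ρ).real {η | ∃ s : ℕ, N * H ≤ s ∧ s ≤ N * H + S ∧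
        lam ρ β h * s + (κ * N * 2 ^ p - κ / 8 * 2 ^ p) ≤ X β h η s} := by
    refine measureReal_mono ?_ (measure_ne_top _ _)
    rintro η ⟨s, hs, h3⟩
    refine ⟨N * H + s, by omega, by omega, ?_⟩
    have h4 : ((N * H + s : ℕ) : ℝ) * lam ρ β h = lam ρ β h * ((N * H + s : ℕ) : ℝ) := mul_comm _ _
    rw [h4] at h3
    linarith
  refine h2.trans (h1.trans ?_)
  set u : ℝ := κ * N * 2 ^ p / 2 with hu
  have hu0 : 0 < u := by positivity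
  have h5 : (law d ρ).real {η | lam ρ β h * (N * H + S : ℕ) +
      (κ * N * 2 ^ p - κ / 8 * 2 ^ p) - (3 * φ + 1) ≤ X β h η (N * H + S)} ≤
      (law d ρ).real {η | lam ρ β h * (N * H + S : ℕ) + u ≤ X β h η (N * H + S)} := by
    refine measureReal_mono ?_ (measure_ne_top _ _)
    intro η hη
    have h6 : lam ρ β h * (N * H + S : ℕ) +
      (κ * N * 2 ^ p - κ / 8 * 2 ^ p) - (3 * φ + 1) ≤ X β h η (N * H + S) := hη
    show lam ρ β h * (N * H + S : ℕ) + u ≤ X β h η (N * H + S)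
    have h7 : κ * 2 ^ p * 2 ≤ κ * 2 ^ p * N := mul_le_mul_of_nonneg_left hN' (by positivity)
    have h8 : 0 < κ * 2 ^ p := by positivity
    rw [hu]
    nlinarith
  have h9 := cheb90 (β := β) (h := h) hd hρ (N * H + S) hu0
  have h10 : Va ρ β h (N * H + S) / u ^ 2 ≤ 4 * (n : ℝ) ^ (1 / 16 : ℝ) / (κ ^ 2 * N ^ 2) := by
    have h11 : u ^ 2 = κ ^ 2 * N ^ 2 / 4 * (2 ^ p) ^ 2 := by
      rw [hu]
      ring
    have h12 : κ ^ 2 * N ^ 2 / 4 ≤ u ^ 2 := by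
      rw [h11]
      exact le_mul_of_one_le_right (by positivity) (one_le_pow₀ hx)
    have h13 : 0 < κ ^ 2 * (N : ℝ) ^ 2 / 4 := by positivity
    calc Va ρ β h (N * H + S) / u ^ 2 ≤ (n : ℝ) ^ (1 / 16 : ℝ) / u ^ 2 :=
          div_le_div_of_nonneg_right hV (by positivity)
      _ ≤ (n : ℝ) ^ (1 / 16 : ℝ) / (κ ^ 2 * (N : ℝ) ^ 2 / 4) :=
          div_le_div_of_nonneg_left (by positivity) h13 h12
      _ = 4 * (n : ℝ) ^ (1 / 16 : ℝ) / (κ ^ 2 * N ^ 2) := by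
          field_simp
  calc 2 * _ ≤ 2 * (4 * (n : ℝ) ^ (1 / 16 : ℝ) / (κ ^ 2 * N ^ 2)) :=
        mul_le_mul_of_nonneg_left (h5.trans (h9.trans h10)) (by norm_num)
    _ = 8 * (n : ℝ) ^ (1 / 16 : ℝ) / (κ ^ 2 * N ^ 2) := by ring

/-- The large groups. -/
theorem costL90 [IsProbabilityMeasure ρ] (hd : 0 < d) (hρ : EM ρ) {n H S p i : ℕ} {κ φ c μ ν : ℝ}
    (hκ : 0 < κ) (hn : 1 ≤ n) (hSn : S ≤ n) (hφ0 : 0 ≤ φ)
    (hφ : ∀ k : ℕ, k ≤ S → En ρ β h k ≤ φ ∧ Fn ρ β h k ≤ φ)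
    (hφκ : 3 * φ + 1 ≤ κ / 4 * 2 ^ p)
    (hV : ∀ k : ℕ, k ≤ 4 * n → Va ρ β h k ≤ (n : ℝ) ^ (1 / 16 : ℝ))
    (hi : (n : ℝ) ^ (1 / 8 : ℝ) ≤ 2 ^ (i + 1)) (hc : 0 < c) (hc1 : c ≤ 1 / 32)
    (hμ : 1 ≤ μ) (hν : 1 ≤ ν) (hνn : ν ≤ n) :
    (law d ρ).real (Lg ρ β h n H S (2 ^ p) κ (κ / 8 * 2 ^ p) (i + 1)) ≤
      8 / κ ^ 2 * Real.exp (-(c * (i + 1 : ℕ))) * (μ / ν) ^ c := by
  classical
  have hn' : (1 : ℝ) ≤ n := by exact_mod_cast hn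
  have hn0 : (0 : ℝ) < n := by linarith
  set G : ℝ := 2 ^ (i + 1) with hG
  have hG1 : 1 ≤ G := one_le_pow₀ (by norm_num)
  have hG0 : 0 < G := by linarith
  -- the union
  set F : Finset ℕ := (Finset.Ico (2 ^ (i + 1)) (2 ^ (i + 2))).filter fun N => N * H ≤ n with hF
  have h1 : Lg ρ β h n H S (2 ^ p) κ (κ / 8 * 2 ^ p) (i + 1) ⊆
      ⋃ N ∈ F, LgN ρ β h H S (2 ^ p) κ (κ / 8 * 2 ^ p) N := by
    rintro η ⟨N, hN1, hN2, hN3, hN4⟩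
    refine Set.mem_iUnion₂.2 ⟨N, ?_, hN4⟩
    rw [hF, Finset.mem_filter, Finset.mem_Ico]
    exact ⟨⟨hN1, hN2⟩, hN3⟩
  have h2 : (law d ρ).real (Lg ρ β h n H S (2 ^ p) κ (κ / 8 * 2 ^ p) (i + 1)) ≤
      ∑ N ∈ F, (law d ρ).real (LgN ρ β h H S (2 ^ p) κ (κ / 8 * 2 ^ p) N) :=
    (measureReal_mono h1 (measure_ne_top _ _)).trans (measureReal_biUnion_finset_le _ _)
  have h3 : ∀ N ∈ F, (law d ρ).real (LgN ρ β h H S (2 ^ p) κ (κ / 8 * 2 ^ p) N) ≤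
      8 * (n : ℝ) ^ (1 / 16 : ℝ) / (κ ^ 2 * G ^ 2) := by
    intro N hN
    rw [hF, Finset.mem_filter, Finset.mem_Ico] at hN
    obtain ⟨⟨hN1, hN2⟩, hN3⟩ := hN
    have hN4 : 2 ≤ N := by
      have : 2 ^ 1 ≤ 2 ^ (i + 1) := Nat.pow_le_pow_right (by norm_num) (by omega)
      omega
    have h4 := lgN90 (β := β) (h := h) (n := n) (H := H) hd hρ hκ hφ0 hφ hφκ hN4 (hV _ (by omega))
    refine h4.trans ?_
    have h5 : G ≤ N := by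
      rw [hG]
      exact_mod_cast hN1
    have h6 : κ ^ 2 * G ^ 2 ≤ κ ^ 2 * (N : ℝ) ^ 2 :=
      mul_le_mul_of_nonneg_left (pow_le_pow_left₀ hG0.le h5 2) (by positivity)
    exact div_le_div_of_nonneg_left (by positivity) (by positivity) h6
  have h4 : (F.card : ℝ) ≤ G := by
    have h5 : F.card ≤ 2 ^ (i + 1) := by
      rw [hF]
      refine (Finset.card_filter_le _ _).trans ?_
      rw [Nat.card_Ico]
      have : 2 ^ (i + 2) = 2 * 2 ^ (i + 1) := by ring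
      omega
    rw [hG]
    exact_mod_cast h5
  have h5 : (law d ρ).real (Lg ρ β h n H S (2 ^ p) κ (κ / 8 * 2 ^ p) (i + 1)) ≤
      8 / κ ^ 2 * ((n : ℝ) ^ (1 / 16 : ℝ) / G) := by
    refine h2.trans ((Finset.sum_le_card_nsmul F _ _ h3).trans ?_)
    rw [nsmul_eq_mul]
    refine (mul_le_mul_of_nonneg_right h4 (by positivity)).trans (le_of_eq ?_)
    field_simp
  refine h5.trans ?_
  rw [mul_assoc]
  refine mul_le_mul_of_nonneg_left ?_ (by positivity)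
  -- numbers
  set w : ℝ := (n : ℝ) ^ (1 / 8 : ℝ) with hw
  have hw0 : 0 < w := Real.rpow_pos_of_pos hn0 _
  have h6 : (n : ℝ) ^ (1 / 16 : ℝ) = w ^ (1 / 2 : ℝ) := by
    rw [hw, ← Real.rpow_mul hn0.le]
    norm_num
  have h7 : (n : ℝ) ^ (1 / 32 : ℝ) = w ^ (1 / 4 : ℝ) := by
    rw [hw, ← Real.rpow_mul hn0.le]
    norm_num
  have h8 : (n : ℝ) ^ (1 / 16 : ℝ) ≤ G ^ (1 / 2 : ℝ) := by
    rw [h6]
    exact Real.rpow_le_rpow hw0.le hi (by norm_num)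
  have h9 : (n : ℝ) ^ (1 / 32 : ℝ) ≤ G ^ (1 / 4 : ℝ) := by
    rw [h7]
    exact Real.rpow_le_rpow hw0.le hi (by norm_num)
  have h10 : Real.exp (c * (i + 1 : ℕ)) ≤ G ^ (1 / 4 : ℝ) := by
    have h11 : G = Real.exp (Real.log 2 * (i + 1 : ℕ)) := by
      rw [hG, mul_comm, Real.exp_nat_mul, Real.exp_log (by norm_num)]
    rw [h11, ← Real.exp_mul]
    refine Real.exp_le_exp.2 ?_
    have h12 := Real.log_two_gt_d9
    have h13 : (0 : ℝ) ≤ (i + 1 : ℕ) := Nat.cast_nonneg _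
    nlinarith
  have h11 : (n : ℝ) ^ (-(1 / 32 : ℝ)) ≤ (μ / ν) ^ c := by
    have h12 : (1 : ℝ) / n ≤ μ / ν := by
      rw [div_le_div_iff₀ hn0 (by linarith)]
      nlinarith
    have h13 : ((1 : ℝ) / n) ^ c ≤ (μ / ν) ^ c := Real.rpow_le_rpow (by positivity) h12 hc.le
    refine le_trans ?_ h13
    have h14 : ((1 : ℝ) / n) ^ c = (n : ℝ) ^ (-c) := by
      rw [one_div, Real.inv_rpow hn0.le, ← Real.rpow_neg hn0.le]
    rw [h14]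
    exact Real.rpow_le_rpow_of_exponent_le hn' (by linarith)
  have h12 : Real.exp (-(c * (i + 1 : ℕ))) * (n : ℝ) ^ (-(1 / 32 : ℝ)) ≤
      Real.exp (-(c * (i + 1 : ℕ))) * (μ / ν) ^ c :=
    mul_le_mul_of_nonneg_left h11 (Real.exp_pos _).le
  refine le_trans ?_ h12
  rw [Real.exp_neg, Real.rpow_neg hn0.le, ← mul_inv, div_le_iff₀ hG0, inv_mul_eq_div,
    le_div_iff₀ (mul_pos (Real.exp_pos _) (Real.rpow_pos_of_pos hn0 _))]
  have h13 : G ^ (1 / 2 : ℝ) * (G ^ (1 / 4 : ℝ) * G ^ (1 / 4 : ℝ)) = G := by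
    rw [← Real.rpow_add hG0, ← Real.rpow_add hG0]
    norm_num
  calc (n : ℝ) ^ (1 / 16 : ℝ) * (Real.exp (c * (i + 1 : ℕ)) * (n : ℝ) ^ (1 / 32 : ℝ))
      ≤ G ^ (1 / 2 : ℝ) * (G ^ (1 / 4 : ℝ) * G ^ (1 / 4 : ℝ)) :=
        mul_le_mul h8 (mul_le_mul h10 h9 (Real.rpow_nonneg hn0.le _) (Real.rpow_nonneg hG0.le _))
          (by positivity) (Real.rpow_nonneg hG0.le _)
    _ = G := h13

end Pool.Agent.W_7d29a1_PL
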