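import Pool.Agent.W_7d29a1_PL.Cost79

/-!
Leaf COST: the assembly.
-/

set_option autoImplicit false

namespace Pool.Agent.W_7d29a1_PL.K79

open MeasureTheory ProbabilityTheory Filter Topology Pool.Agent.W_MP_7d29a1_pr
  Pool.Agent.W_7d29a1_h46 Pool.Agent.W_7d29a1_h46u Pool.Agent.W_7d29a1_D2.B35
  Pool.Agent.W_7d29a1_Q29 Pool.Agent.W_7d29a1_R34 Pool.Agent.W_7d29a1_SP
  Pool.Agent.W_7d29a1_SP.C79 Pool.Agent.W_7d29a1_PL.S79

variable {d : ℕ} {ρ : Measure ℝ}

lemma log2_half : (1 : ℝ) / 2 ≤ Real.log 2 := by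
  have := Real.log_two_gt_d9
  linarith

lemma num1 {C y r : ℝ} (hC : 1 ≤ C) (hy : 1 ≤ y) (hr : 0 < r) (hr1 : r ≤ 1) :
    (y * r) ^ (1 / C) ≤ y * r ^ (1 / (10 * C)) := by
  have hC0 : 0 < C := by linarith
  rw [Real.mul_rpow (by linarith) hr.le]
  have h1 : y ^ (1 / C) ≤ y := by
    have h2 : y ^ (1 / C) ≤ y ^ (1 : ℝ) := by
      refine Real.rpow_le_rpow_of_exponent_le hy ?_
      rw [div_le_one hC0]
      exact hC
    rwa [Real.rpow_one] at h2
  have h2 : r ^ (1 / C) ≤ r ^ (1 / (10 * C)) := by
    refine Real.rpow_le_rpow_of_exponent_ge hr hr1 ?_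
    exact one_div_le_one_div_of_le hC0 (by linarith)
  exact mul_le_mul h1 h2 (Real.rpow_nonneg hr.le _) (by linarith)

lemma num2 {C r : ℝ} {j : ℕ} (hC : 1 ≤ C) (hr : 0 < r) (hr1 : r * 16 ^ j ≤ 1) :
    (2 ^ (j + 2) * r) ^ (1 / C) ≤ 4 * Real.exp (-(1 / (10 * C) * j)) * r ^ (1 / (10 * C)) := by
  have hC0 : 0 < C := by linarith
  have hl := log2_half
  have hj : (0 : ℝ) ≤ j := Nat.cast_nonneg _
  have hL : Real.log r ≤ -(4 * j * Real.log 2) := by
    have h1 := Real.log_le_log (by positivity) hr1
    rw [Real.log_mul hr.ne' (by positivity), Real.log_pow, Real.log_one] at h1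
    have h2 : Real.log 16 = 4 * Real.log 2 := by
      rw [show (16 : ℝ) = 2 ^ 4 by norm_num, Real.log_pow]
      norm_num
    rw [h2] at h1
    linarith
  have hx : 0 < 2 ^ (j + 2) * r := by positivity
  rw [Real.rpow_def_of_pos hx, Real.rpow_def_of_pos hr, Real.log_mul (by positivity) hr.ne',
    Real.log_pow]
  have h4 : (4 : ℝ) = Real.exp (2 * Real.log 2) := by
    rw [mul_comm, Real.exp_mul, Real.exp_log (by norm_num)]
    norm_num
  rw [h4, ← Real.exp_add, ← Real.exp_add]
  refine Real.exp_le_exp.2 ?_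
  push_cast
  set L := Real.log r
  set l := Real.log 2
  have h5 : ((j + 2) * l + L) ≤ 2 * C * l - j / 10 + L / 10 := by
    have h6 : l ≤ C * l := by nlinarith
    have h7 : (j : ℝ) / 2 ≤ j * l := by nlinarith
    nlinarith
  have h6 : (1 / C) * ((j + 2) * l + L) ≤ (1 / C) * (2 * C * l - j / 10 + L / 10) :=
    mul_le_mul_of_nonneg_left h5 (by positivity)
  have h7 : (1 / C) * (2 * C * l - j / 10 + L / 10) =
      2 * l + -(1 / (10 * C) * j) + L * (1 / (10 * C)) := by
    field_simp
    ring
  have h8 : ((j + 2) * l + L) * (1 / C) = (1 / C) * ((j + 2) * l + L) := by ring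
  rw [h8]
  linarith

lemma num3 {C r : ℝ} {j : ℕ} (hC : 1 ≤ C) (hr : 0 < r) (hr1 : 1 ≤ r * (2 ^ j) ^ 8) :
    1 / 2 ^ j ≤ Real.exp (-(1 / (10 * C) * j)) * r ^ (1 / (10 * C)) := by
  have hC0 : 0 < C := by linarith
  have hl := log2_half
  have hj : (0 : ℝ) ≤ j := Nat.cast_nonneg _
  have hL : -(8 * j * Real.log 2) ≤ Real.log r := by
    have h1 := Real.log_le_log one_pos hr1
    rw [Real.log_mul hr.ne' (by positivity), Real.log_pow, Real.log_pow, Real.log_one] at h1
    push_cast at h1
    linarith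
  rw [Real.rpow_def_of_pos hr, ← Real.exp_add]
  have h1 : (1 : ℝ) / 2 ^ j = Real.exp (-(j * Real.log 2)) := by
    rw [Real.exp_neg, mul_comm, Real.exp_mul, Real.exp_log (by norm_num), Real.rpow_natCast,
      one_div]
  rw [h1]
  refine Real.exp_le_exp.2 ?_
  set L := Real.log r
  set l := Real.log 2
  have h2 : 1 / (10 * C) ≤ 1 / 10 := one_div_le_one_div_of_le (by norm_num) (by linarith)
  have h3 : 0 ≤ 1 / (10 * C) := by positivity
  have h4 : -(8 * j * l) * (1 / (10 * C)) ≤ L * (1 / (10 * C)) :=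
    mul_le_mul_of_nonneg_right hL h3
  have h5 : (1 / (10 * C)) * (j + 8 * j * l) ≤ 1 / 10 * (j + 8 * j * l) :=
    mul_le_mul_of_nonneg_right h2 (by nlinarith)
  have h7 : (j : ℝ) / 2 ≤ j * l := by nlinarith
  nlinarith

/-- The constant. -/
noncomputable def KK (κ C : ℝ) (b : ℕ) : ℝ :=
  Real.exp (2 * b + 1) * (C * 4 ^ (2 * b + 3) + 2 ^ (2 * b + 2)) + 8 * C + 8 / κ ^ 2 + 1

theorem core79 [IsProbabilityMeasure ρ] (hd : 0 < d) (hρ : EM ρ) {β : ℝ} {h : Vec d} {C κ : ℝ}
    (hs : SgH ρ β h (8 / κ) C) (hC : 1 ≤ C) (hκ : 0 < κ) (hκ2 : κ ≤ 1 / 2) {b : ℕ}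
    (hb : 32 / κ ≤ 2 ^ b) {a n : ℕ} {m : ℕ → ℕ} {I : Finset ℕ} (ha : b + 10 ≤ a)
    (hSy : Sy ρ β h n a (2 ^ (2 * b + 2)) 16 (κ / 64) m I)
    (hn : ∀ k : ℕ, k ≤ 4 * n → Va ρ β h k ≤ (n : ℝ) ^ (1 / 16 : ℝ) ∧
      En ρ β h k ≤ (n : ℝ) ^ (1 / 16 : ℝ)) {p : ℕ} (hp : p ∈ I) (i : ℕ) :
    (law d ρ).real (Lg ρ β h n (m p - 2 * m (p - a)) (2 * m (p - a)) (2 ^ p) κ (κ / 8 * 2 ^ p) i) ≤
      KK κ C b * Real.exp (-(1 / (10 * C) * i)) *
        ((m p : ℝ) / (min (m (p + i + 1)) n : ℕ)) ^ (1 / (10 * C)) := by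
  have hC0 : 0 < C := by linarith
  obtain ⟨hap, hu⟩ := hSy.big p hp
  set u := m (p - a) with hudef
  set w : ℝ := 2 ^ (p - a) with hwdef
  have hw1 : 1 ≤ w := one_le_pow₀ (by norm_num)
  have hw : ∀ j : ℕ, j < u → fM ρ β h j < w := fun j hj => hSy.lo (p - a) j hj
  have h512 := fM_small hd hρ β h hu hw
  set x : ℝ := 2 ^ p with hxdef
  have hx1 : 1 ≤ x := one_le_pow₀ (by norm_num)
  have hpa : x = 2 ^ a * w := by
    rw [hxdef, hwdef, ← pow_add]
    congr 1
    omega
  have h2a : 32768 ≤ κ * 2 ^ a := by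
    have h1 : (2 : ℝ) ^ (b + 10) ≤ 2 ^ a := pow_le_pow_right₀ (by norm_num) ha
    have h2 : 32 ≤ κ * 2 ^ b := by
      rw [div_le_iff₀ hκ] at hb
      linarith
    have h3 : κ * 2 ^ (b + 10) ≤ κ * 2 ^ a := mul_le_mul_of_nonneg_left h1 hκ.le
    rw [pow_add] at h3
    nlinarith
  have hκx : 32768 * w ≤ κ * x := by
    rw [hpa]
    nlinarith
  have hφ0 : (0 : ℝ) ≤ 512 * w := by linarith
  have hφ1 : 3 * (512 * w) + 1 ≤ κ / 16 * x := by linarith
  have h4u : 4 * u < m p := by
    by_contra hcon
    have h1 := h512 (m p) (by omega)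
    have h2 := hSy.hi p
    rw [← hxdef] at h2
    have h3 : κ * x ≤ 1 / 2 * x := mul_le_mul_of_nonneg_right hκ2 (by linarith)
    linarith
  have hfs := hSy.fs p hp
  have hB1 : 1 ≤ 2 ^ (2 * b + 2) := Nat.one_le_two_pow
  have hE : x ≤ En ρ β h (m p) := by
    have h1 := hSy.hi p
    have h2 := hfs (m p) (Nat.le_mul_of_pos_left _ (by omega))
    rw [← hxdef] at h1 h2
    unfold fM at h1
    rcases le_max_iff.1 h1 with h3 | h3
    · exact h3
    · have h4 : κ / 64 * x ≤ 1 / 2 * x := mul_le_mul_of_nonneg_right (by linarith) (by linarith)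
      linarith
  have hm8 : 9 ≤ m p := by omega
  set H := m p - 2 * u with hH
  set S := 2 * u with hS
  have hHS : H + S = m p := by omega
  have hkS : ∀ k : ℕ, k ≤ S → En ρ β h k ≤ 512 * w ∧ Fn ρ β h k ≤ 512 * w := fun k hk =>
    ⟨(fM_E β h k).trans (h512 k (by omega)), (fM_F β h k).trans (h512 k (by omega))⟩
  have hsm := hSy.sm p hp
  have hmn : 64 * m p ≤ n := by
    have h1 : m p ^ 4 = m p * m p * m p * m p := by ring
    have h2 : 9 * 9 * 9 * m p ≤ m p * m p * m p * m p :=
      Nat.mul_le_mul_right _ (Nat.mul_le_mul (Nat.mul_le_mul hm8 hm8) hm8)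
    omega
  set R := min (m (p + i + 1)) n with hR
  have hnc := hSy.nc p hp i
  have hR2 : 2 * m p ≤ R := by
    refine le_min ?_ (by omega)
    rcases le_or_gt (m (p + i + 1)) n with h1 | h1
    · have h2 := hnc h1
      have h3 : 16 * m p ≤ 16 ^ (i + 1) * m p :=
        Nat.mul_le_mul_right _ (Nat.le_self_pow (by omega) 16)
      omega
    · omega
  have hRn : R ≤ n := min_le_right _ _
  have hRm : R ≤ m (p + i + 1) := min_le_left _ _
  have hm0 : (0 : ℝ) < m p := by
    have : 0 < m p := by omega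
    exact_mod_cast this
  have hR0 : (0 : ℝ) < R := by
    have : 0 < R := by omega
    exact_mod_cast this
  set r : ℝ := (m p : ℝ) / R with hr
  have hr0 : 0 < r := by positivity
  have hr1 : r ≤ 1 := by
    rw [hr, div_le_one hR0]
    exact_mod_cast (by omega : m p ≤ R)
  have hT2 : (R : ℝ) / 2 ≤ ((R - 1 : ℕ) : ℝ) := by
    have h1 : R ≤ 2 * (R - 1) := by omega
    have h2 : (R : ℝ) ≤ 2 * ((R - 1 : ℕ) : ℝ) := by exact_mod_cast h1
    linarith
  have hKT : ∀ k : ℕ, k ≤ R - 1 → fM ρ β h k ≤ 2 * 2 ^ i * x := by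
    intro k hk
    have h1 := (hSy.lo (p + i + 1) k (by omega)).le
    have h2 : (2 : ℝ) ^ (p + i + 1) = 2 * 2 ^ i * x := by
      rw [hxdef]
      ring
    rw [h2] at h1
    exact h1
  have hratio : ∀ {T₁ y : ℕ}, T₁ ≤ y * m p →
      ((T₁ : ℝ) / ((R - 1 : ℕ) : ℝ)) ^ (1 / C) ≤ ((2 * y : ℕ) * r) ^ (1 / C) := by
    intro T₁ y hy
    refine Real.rpow_le_rpow (by positivity) ?_ (by positivity)
    have h1 : (T₁ : ℝ) ≤ y * m p := by exact_mod_cast hy
    rw [hr, div_le_iff₀ (by linarith)]
    push_cast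
    have h2 : 2 * (y : ℝ) * ((m p : ℝ) / R) * (R / 2) ≤
        2 * (y : ℝ) * ((m p : ℝ) / R) * ((R - 1 : ℕ) : ℝ) :=
      mul_le_mul_of_nonneg_left hT2 (by positivity)
    have h3 : 2 * (y : ℝ) * ((m p : ℝ) / R) * (R / 2) = y * m p := by
      field_simp
    linarith
  have hD8 : 8 / κ ≤ 8 / κ := le_rfl
  have hexp1 : 1 ≤ Real.exp (2 * b + 1) := Real.one_le_exp (by positivity)
  have hrc : 0 ≤ r ^ (1 / (10 * C)) := Real.rpow_nonneg hr0.le _
  have hKK : 8 * C ≤ KK κ C b := by
    unfold KK
    have h1 : 0 ≤ Real.exp (2 * b + 1) * (C * 4 ^ (2 * b + 3) + 2 ^ (2 * b + 2)) := by positivity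
    have h2 : 0 ≤ 8 / κ ^ 2 := by positivity
    linarith
  rcases Nat.eq_zero_or_pos i with hi0 | hi0
  · -- group 0
    subst hi0
    have h1 := grp0 hs (H := H) (S := S) (T := R - 1) hκ hD8 hx1 (by omega) (by omega) hφ0 hφ1 hkS
      (fun k hk => by
        have := hKT k hk
        have h1 := fM_E (ρ := ρ) β h k
        have h2 := fM_F (ρ := ρ) β h k
        constructor <;> linarith)
      (by rw [hHS]; exact hE) (by
        rw [hHS]
        exact hfs (m p) (Nat.le_mul_of_pos_left _ (by omega)))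
    have h2 := hratio (T₁ := H + S) (y := 1) (by omega)
    have h3 := num1 (y := 2) hC (by norm_num) hr0 hr1
    have h4 : (((2 * 1 : ℕ) : ℝ) * r) ^ (1 / C) = (2 * r) ^ (1 / C) := by norm_num
    rw [h4] at h2
    show (law d ρ).real (Lg0 ρ β h H S x κ (κ / 8 * x)) ≤ _
    refine h1.trans ?_
    have h5 : C * (((H + S : ℕ) : ℝ) / ((R - 1 : ℕ) : ℝ)) ^ (1 / C) ≤
        C * (2 * r ^ (1 / (10 * C))) := mul_le_mul_of_nonneg_left (h2.trans h3) hC0.le
    refine h5.trans ?_
    have h6 : Real.exp (-(1 / (10 * C) * ((0 : ℕ) : ℝ))) = 1 := by simp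
    rw [h6, mul_one, ← mul_assoc]
    exact mul_le_mul_of_nonneg_right (by linarith) hrc
  · obtain ⟨j, rfl⟩ : ∃ j, i = j + 1 := ⟨i - 1, by omega⟩
    set M : ℕ := 2 ^ (j + 1) with hM
    have hM1 : 1 ≤ M := Nat.one_le_two_pow
    have hM2 : 2 ^ (j + 2) = 2 * M := by
      rw [hM]
      ring
    have hMr : ((M : ℕ) : ℝ) = 2 ^ (j + 1) := by
      rw [hM]
      push_cast
      rfl
    set G : Set (Env d) := {η : Env d | ∃ N : ℕ, M ≤ N ∧ N < 2 * M ∧ N * H ≤ n ∧
      η ∈ LgN ρ β h H S x κ (κ / 8 * x) N} with hG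
    have hLG : Lg ρ β h n H S x κ (κ / 8 * x) (j + 1) = G := by
      show {η : Env d | ∃ N : ℕ, 2 ^ (j + 1) ≤ N ∧ N < 2 ^ (j + 2) ∧ N * H ≤ n ∧
        η ∈ LgN ρ β h H S x κ (κ / 8 * x) N} = G
      rw [hM2]
    rw [hLG]
    have hG1 : (law d ρ).real G ≤ 1 := measureReal_le_one
    have hexpn : 0 < Real.exp (-(1 / (10 * C) * ((j + 1 : ℕ) : ℝ))) := Real.exp_pos _
    rcases lt_or_ge (j + 1) (2 * b + 1) with hj | hj
    · -- near groups
      have hexp2 : 1 ≤ Real.exp (2 * b + 1) * Real.exp (-(1 / (10 * C) * ((j + 1 : ℕ) : ℝ))) := by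
        rw [← Real.exp_add]
        refine Real.one_le_exp ?_
        have h1 : 1 / (10 * C) ≤ 1 := by
          rw [div_le_one (by positivity)]
          linarith
        have h2 : ((j + 1 : ℕ) : ℝ) ≤ 2 * b + 1 := by exact_mod_cast hj.le
        have h3 : 1 / (10 * C) * ((j + 1 : ℕ) : ℝ) ≤ 1 * ((j + 1 : ℕ) : ℝ) :=
          mul_le_mul_of_nonneg_right h1 (Nat.cast_nonneg _)
        linarith
      have key : (law d ρ).real G ≤
          (C * 4 ^ (2 * b + 3) + 2 ^ (2 * b + 2)) * r ^ (1 / (10 * C)) := by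
        rcases le_or_gt (2 * M * m p) (R - 1) with hcase | hcase
        · have hsub : G ⊆ ⋃ N ∈ Finset.Ico M (2 * M), LgN ρ β h H S x κ (κ / 8 * x) N := by
            rintro η ⟨N, h1, h2, h3, h4⟩
            simp only [Set.mem_iUnion]
            exact ⟨N, Finset.mem_Ico.2 ⟨h1, h2⟩, h4⟩
          have hone : ∀ N ∈ Finset.Ico M (2 * M),
              (law d ρ).real (LgN ρ β h H S x κ (κ / 8 * x) N) ≤
                C * ((2 * (2 * M) : ℕ) * r ^ (1 / (10 * C))) := by
            intro N hN
            obtain ⟨hN1, hN2⟩ := Finset.mem_Ico.1 hN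
            have hNm : N * H + S ≤ 2 * M * m p := by
              have e1 : N * H + S ≤ N * (H + S) := by
                have : S ≤ N * S := Nat.le_mul_of_pos_left _ (by omega)
                rw [Nat.mul_add]
                omega
              rw [hHS] at e1
              exact e1.trans (Nat.mul_le_mul_right _ hN2.le)
            have hMN : (M : ℝ) ≤ N := by exact_mod_cast hN1
            have h1 := grpN hd hρ hs (H := H) (S := S) (T := R - 1) (N := N) hκ hD8 hx1
              (by omega) (by omega) (hNm.trans hcase) hφ0 hφ1 hkS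
              (fun k hk => by
                have h0 := hKT k hk
                rw [← hMr] at h0
                have h1 := fM_E (ρ := ρ) β h k
                have h2 := fM_F (ρ := ρ) β h k
                have h3 : (M : ℝ) * x ≤ N * x := mul_le_mul_of_nonneg_right hMN (by linarith)
                constructor <;> linarith)
              (hfs (N * H + S) (by
                refine hNm.trans (Nat.mul_le_mul_right _ ?_)
                rw [hM]
                have : 2 * 2 ^ (j + 1) = 2 ^ (j + 2) := by ring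
                rw [this]
                exact Nat.pow_le_pow_right (by norm_num) (by omega)))
            refine h1.trans (mul_le_mul_of_nonneg_left ?_ hC0.le)
            refine (hratio hNm).trans ?_
            exact num1 hC (by
              have : 1 ≤ 2 * (2 * M) := by omega
              exact_mod_cast this) hr0 hr1
          have h1 : (law d ρ).real G ≤ ∑ N ∈ Finset.Ico M (2 * M),
              (law d ρ).real (LgN ρ β h H S x κ (κ / 8 * x) N) :=
            (measureReal_mono hsub (measure_ne_top _ _)).trans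
              (measureReal_biUnion_finset_le _ _)
          have h2 := h1.trans (Finset.sum_le_sum hone)
          rw [Finset.sum_const, Nat.card_Ico, nsmul_eq_mul] at h2
          refine h2.trans ?_
          have h3 : ((2 * M - M : ℕ) : ℝ) = M := by
            congr 1
            omega
          rw [h3]
          have h4 : (M : ℝ) * (C * ((2 * (2 * M) : ℕ) * r ^ (1 / (10 * C)))) =
              (C * (4 * M ^ 2)) * r ^ (1 / (10 * C)) := by
            push_cast
            ring
          rw [h4]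
          refine mul_le_mul_of_nonneg_right ?_ hrc
          have h5 : 4 * (M : ℝ) ^ 2 ≤ 4 ^ (2 * b + 3) := by
            rw [hMr, ← pow_mul]
            have h6 : (2 : ℝ) ^ ((j + 1) * 2) ≤ 2 ^ ((2 * b + 1) * 2) :=
              pow_le_pow_right₀ (by norm_num) (by omega)
            have h7 : (4 : ℝ) ^ (2 * b + 3) = 16 * 2 ^ ((2 * b + 1) * 2) := by
              rw [show (4 : ℝ) = 2 ^ 2 by norm_num, ← pow_mul]
              rw [show 2 * (2 * b + 3) = (2 * b + 1) * 2 + 4 by ring, pow_add]
              ring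
            rw [h7]
            have h8 : (0 : ℝ) ≤ 2 ^ ((2 * b + 1) * 2) := by positivity
            linarith
          have h6 : C * (4 * (M : ℝ) ^ 2) ≤ C * 4 ^ (2 * b + 3) :=
            mul_le_mul_of_nonneg_left h5 hC0.le
          have h7 : (0 : ℝ) ≤ 2 ^ (2 * b + 2) := by positivity
          linarith
        · have h1 : R ≤ 2 * M * m p := by omega
          have h2 : (R : ℝ) ≤ 2 * M * m p := by exact_mod_cast h1
          have hM0 : (1 : ℝ) ≤ M := by exact_mod_cast hM1
          have h3 : 1 / (2 * M) ≤ r := by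
            rw [hr, div_le_div_iff₀ (by positivity) hR0]
            linarith
          have h4 : 1 / (2 * (M : ℝ)) ≤ r ^ (1 / (10 * C)) := by
            have h5 : r ≤ r ^ (1 / (10 * C)) := by
              have h6 : r ^ (1 : ℝ) ≤ r ^ (1 / (10 * C)) := by
                refine Real.rpow_le_rpow_of_exponent_ge hr0 hr1 ?_
                rw [div_le_one (by positivity)]
                linarith
              rwa [Real.rpow_one] at h6
            exact h3.trans h5
          have h5 : 2 * (M : ℝ) ≤ 2 ^ (2 * b + 2) := by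
            rw [hMr]
            have h6 : (2 : ℝ) ^ (j + 2) ≤ 2 ^ (2 * b + 2) :=
              pow_le_pow_right₀ (by norm_num) (by omega)
            have h7 : (2 : ℝ) * 2 ^ (j + 1) = 2 ^ (j + 2) := by ring
            rw [h7]
            exact h6
          have h6 : 1 ≤ 2 ^ (2 * b + 2) * r ^ (1 / (10 * C)) := by
            have h7 : 2 * (M : ℝ) * (1 / (2 * M)) = 1 := by
              field_simp
            calc (1 : ℝ) = 2 * (M : ℝ) * (1 / (2 * M)) := h7.symm
              _ ≤ 2 ^ (2 * b + 2) * r ^ (1 / (10 * C)) :=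
                mul_le_mul h5 h4 (by positivity) (by positivity)
          have h7 : 0 ≤ C * 4 ^ (2 * b + 3) * r ^ (1 / (10 * C)) := by positivity
          rw [add_mul]
          linarith
      refine key.trans ?_
      have h1 : (C * 4 ^ (2 * b + 3) + 2 ^ (2 * b + 2)) * 1 ≤
          (C * 4 ^ (2 * b + 3) + 2 ^ (2 * b + 2)) *
            (Real.exp (2 * b + 1) * Real.exp (-(1 / (10 * C) * ((j + 1 : ℕ) : ℝ)))) :=
        mul_le_mul_of_nonneg_left hexp2 (by positivity)
      have h2 : (C * 4 ^ (2 * b + 3) + 2 ^ (2 * b + 2)) ≤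
          KK κ C b * Real.exp (-(1 / (10 * C) * ((j + 1 : ℕ) : ℝ))) := by
        have h3 : 0 ≤ (8 * C + 8 / κ ^ 2 + 1) *
            Real.exp (-(1 / (10 * C) * ((j + 1 : ℕ) : ℝ))) := by positivity
        have h4 : KK κ C b * Real.exp (-(1 / (10 * C) * ((j + 1 : ℕ) : ℝ))) =
            (C * 4 ^ (2 * b + 3) + 2 ^ (2 * b + 2)) *
            (Real.exp (2 * b + 1) * Real.exp (-(1 / (10 * C) * ((j + 1 : ℕ) : ℝ)))) +
            (8 * C + 8 / κ ^ 2 + 1) * Real.exp (-(1 / (10 * C) * ((j + 1 : ℕ) : ℝ))) := by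
          unfold KK
          ring
        rw [h4]
        linarith
      exact mul_le_mul_of_nonneg_right h2 hrc
    · have hb' : 32 ≤ κ * 2 ^ b := by
        rw [div_le_iff₀ hκ] at hb
        linarith
      rcases lt_or_ge ((2 ^ (j + 1)) ^ 8) n with hcase | hcase
      · -- middle groups
        rw [← hM] at hcase
        have hMm8 : (2 * M * m p) ^ 8 < n ^ 8 := by
          have e1 : (2 * M * m p) ^ 8 = 256 * (M ^ 8) * (m p ^ 4) ^ 2 := by ring
          have e2 : n ^ 8 = n ^ 5 * (n * n ^ 2) := by ring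
          have hn0 : 0 < n := by omega
          have e3 : M ^ 8 * (m p ^ 4) ^ 2 ≤ n * n ^ 2 :=
            Nat.mul_le_mul hcase.le (Nat.pow_le_pow_left hsm 2)
          have e4 : 256 < n ^ 5 := by
            have : 64 ^ 5 ≤ n ^ 5 := Nat.pow_le_pow_left (by omega) 5
            omega
          rw [e1, e2]
          calc 256 * M ^ 8 * (m p ^ 4) ^ 2 = 256 * (M ^ 8 * (m p ^ 4) ^ 2) := by ring
            _ ≤ 256 * (n * n ^ 2) := Nat.mul_le_mul_left _ e3
            _ < n ^ 5 * (n * n ^ 2) := Nat.mul_lt_mul_of_pos_right e4 (by positivity)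
        have hMm : 2 * M * m p < n := lt_of_pow_lt_pow_left₀ 8 (Nat.zero_le _) hMm8
        have h16n : 16 ^ (j + 1) * m p ≤ n := by
          have e1 : (16 ^ (j + 1) * m p) ^ 4 ≤ n ^ 4 := by
            have e2 : (16 ^ (j + 1) * m p) ^ 4 = (M ^ 8) ^ 2 * m p ^ 4 := by
              rw [hM]
              have : (16 : ℕ) ^ (j + 1) = (2 ^ (j + 1)) ^ 4 := by
                rw [← pow_mul, mul_comm, pow_mul]
                norm_num
              rw [this]
              ring
            have e3 : n ^ 4 = n * (n ^ 2 * n) := by ring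
            rw [e2, e3]
            have e4 : (M ^ 8) ^ 2 * m p ^ 4 ≤ n ^ 2 * n :=
              Nat.mul_le_mul (Nat.pow_le_pow_left hcase.le 2) hsm
            have e5 : n ^ 2 * n ≤ n * (n ^ 2 * n) := Nat.le_mul_of_pos_left _ (by omega)
            exact e4.trans e5
          exact le_of_pow_le_pow_left₀ (by norm_num) (Nat.zero_le _) e1
        have hR16 : 16 ^ (j + 1) * m p ≤ R := by
          refine le_min ?_ h16n
          rcases le_or_gt (m (p + (j + 1) + 1)) n with h1 | h1
          · have h2 := hnc h1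
            have h3 : 16 ^ (j + 1) * m p ≤ 16 ^ (j + 1 + 1) * m p :=
              Nat.mul_le_mul_right _ (Nat.pow_le_pow_right (by norm_num) (by omega))
            omega
          · omega
        have hT1 : 2 * M * m p ≤ R - 1 := by
          have e1 : 16 ^ (j + 1) = 8 ^ (j + 1) * M := by
            rw [hM, ← mul_pow]
            norm_num
          have e2 : 8 * M ≤ 8 ^ (j + 1) * M :=
            Nat.mul_le_mul_right _ (Nat.le_self_pow (by omega) 8)
          have e3 : 8 * M * m p ≤ 16 ^ (j + 1) * m p := by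
            rw [e1]
            exact Nat.mul_le_mul_right _ e2
          have e4 : 8 * M * m p = 4 * (2 * M * m p) := by ring
          have e5 : 1 ≤ 2 * M * m p := Nat.mul_pos (by omega) (by omega)
          omega
        have hT1' : 2 * M * H + S ≤ 2 * M * m p := by
          have e1 : S ≤ 2 * M * S := Nat.le_mul_of_pos_left _ (by omega)
          have e2 : 2 * M * m p = 2 * M * H + 2 * M * S := by
            rw [← hHS]
            ring
          omega
        -- the bound of the fluctuations up to the horizon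
        set φ : ℝ := 2 ^ (p + (j + 1 - b)) with hφd
        have hφ1' : 1 ≤ φ := one_le_pow₀ (by norm_num)
        have hφk : ∀ k : ℕ, k ≤ 2 * M * m p → fM ρ β h k ≤ φ := by
          intro k hk
          obtain ⟨q, hq⟩ : ∃ q, j + 1 - b = q + 1 := ⟨j - b, by omega⟩
          rw [hφd, hq]
          have hnc2 := hSy.nc p hp q
          have e1 : k < m (p + q + 1) := by
            rcases le_or_gt (m (p + q + 1)) n with h1 | h1
            · have h2 := hnc2 h1
              have h3 : 2 * M ≤ 16 ^ (q + 1) := by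
                have e4 : 16 ^ (q + 1) = 2 ^ (4 * (q + 1)) := by
                  rw [pow_mul]
                  norm_num
                have e5 : 2 * M = 2 ^ (j + 2) := hM2.symm
                rw [e4, e5]
                exact Nat.pow_le_pow_right (by norm_num) (by omega)
              have h4 : 2 * M * m p ≤ 16 ^ (q + 1) * m p := Nat.mul_le_mul_right _ h3
              omega
            · omega
          exact (hSy.lo (p + q + 1) k e1).le
        have hφ2 : 3 * φ + 1 ≤ κ / 8 * M * x := by
          have e1 : φ * 2 ^ b = M * x := by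
            rw [hφd, hMr, hxdef, ← pow_add, ← pow_add]
            congr 1
            omega
          have e2 : 32 * φ ≤ κ * (M * x) := by
            rw [← e1]
            have e3 : φ * 32 ≤ φ * (κ * 2 ^ b) := mul_le_mul_of_nonneg_left hb' (by linarith)
            linarith
          linarith
        have h1 := grpF hd hρ hs (n := n) (H := H) (S := S) (T := R - 1) (M := M) hκ hD8 hx1 hM1
          (by omega) (hT1'.trans hT1) (by linarith) hφ2
          (fun k hk => by
            have h0 := hφk k (hk.trans hT1')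
            exact ⟨(fM_E β h k).trans h0, (fM_F β h k).trans h0⟩)
          (fun k hk => by
            have h0 := hKT k hk
            rw [← hMr] at h0
            exact ⟨(fM_E β h k).trans h0, (fM_F β h k).trans h0⟩)
        refine h1.trans ?_
        have h2 := hratio hT1'
        have h3 : (((2 * (2 * M) : ℕ) : ℝ) * r) ^ (1 / C) = (2 ^ (j + 1 + 2) * r) ^ (1 / C) := by
          congr 2
          push_cast
          rw [hMr]
          ring
        rw [h3] at h2
        have h4 : r * 16 ^ (j + 1) ≤ 1 := by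
          rw [hr, div_mul_eq_mul_div, div_le_one hR0]
          have : m p * 16 ^ (j + 1) ≤ R := by
            rw [mul_comm]
            exact hR16
          exact_mod_cast this
        have h5 := num2 (j := j + 1) hC hr0 h4
        have h6 := mul_le_mul_of_nonneg_left (h2.trans h5) hC0.le
        refine h6.trans ?_
        have h7 : 0 ≤ Real.exp (-(1 / (10 * C) * ((j + 1 : ℕ) : ℝ))) * r ^ (1 / (10 * C)) := by
          positivity
        have h8 : (4 * C) * (Real.exp (-(1 / (10 * C) * ((j + 1 : ℕ) : ℝ))) *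
            r ^ (1 / (10 * C))) ≤ KK κ C b * (Real.exp (-(1 / (10 * C) * ((j + 1 : ℕ) : ℝ))) *
            r ^ (1 / (10 * C))) := mul_le_mul_of_nonneg_right (by linarith) h7
        linarith
      · -- very far groups
        rw [← hM] at hcase
        have hM0 : (1 : ℝ) ≤ M := by exact_mod_cast hM1
        rcases le_or_gt (M * H) n with hMH | hMH
        · set ν : ℝ := (n : ℝ) ^ (1 / 16 : ℝ) with hν
          have hn1 : (1 : ℝ) ≤ n := by
            have : 1 ≤ n := by omega
            exact_mod_cast this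
          have hν1 : 1 ≤ ν := Real.one_le_rpow hn1 (by norm_num)
          have hνM : ν ^ 2 ≤ M := by
            have e1 : ν ^ 2 = (n : ℝ) ^ (1 / 8 : ℝ) := by
              rw [hν, ← Real.rpow_natCast, ← Real.rpow_mul (by positivity)]
              norm_num
            rw [e1]
            have e2 : (n : ℝ) ≤ (M : ℝ) ^ (8 : ℝ) := by
              have : (n : ℝ) ≤ ((M ^ 8 : ℕ) : ℝ) := by exact_mod_cast hcase
              rw [show (8 : ℝ) = ((8 : ℕ) : ℝ) by norm_num, Real.rpow_natCast]
              push_cast at this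
              exact this
            have e3 := Real.rpow_le_rpow (by positivity) e2 (by norm_num : (0 : ℝ) ≤ 1 / 8)
            rw [← Real.rpow_mul (by positivity)] at e3
            norm_num at e3
            have e4 : (n : ℝ) ^ (1 / 8 : ℝ) = (n : ℝ) ^ (8⁻¹ : ℝ) := by norm_num
            exact e3
          have hkn : ∀ k : ℕ, k ≤ 2 * M * H + S → k ≤ 4 * n := by
            intro k hk
            have e1 : 2 * M * H = 2 * (M * H) := by ring
            omega
          have hk : ∀ k : ℕ, k ≤ 2 * M * H + S → En ρ β h k ≤ ν ∧ Fn ρ β h k ≤ ν := by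
            intro k hk
            have e1 := hn k (hkn k hk)
            refine ⟨e1.2, ?_⟩
            have e2 := Fn_sq15 (ρ := ρ) hd hρ β h k
            by_contra hcon
            have e3 := not_le.1 hcon
            have e4 : ν ^ 2 < Fn ρ β h k ^ 2 := pow_lt_pow_left₀ e3 (by linarith) (by norm_num)
            have e5 : ν ≤ ν ^ 2 := by
              rw [sq]
              exact le_mul_of_one_le_left (by linarith) hν1
            linarith [e1.1]
          have hM2b : (2 : ℝ) ^ (2 * b) ≤ M := by
            rw [hMr]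
            exact pow_le_pow_right₀ (by norm_num) (by omega)
          have hκν : 16 * ν ≤ κ * M := by
            have e1 : (32 * ν) ^ 2 ≤ (κ * M) ^ 2 := by
              have e2 : (32 : ℝ) ^ 2 ≤ (κ * 2 ^ b) ^ 2 := by
                exact pow_le_pow_left₀ (by norm_num) hb' 2
              have e3 : (κ * 2 ^ b) ^ 2 = κ ^ 2 * 2 ^ (2 * b) := by
                rw [mul_pow, ← pow_mul, mul_comm b 2]
              rw [e3] at e2
              have e4 : κ ^ 2 * 2 ^ (2 * b) ≤ κ ^ 2 * M :=
                mul_le_mul_of_nonneg_left hM2b (by positivity)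
              have e5 : (32 : ℝ) ^ 2 ≤ κ ^ 2 * M := e2.trans e4
              calc (32 * ν) ^ 2 = (32 : ℝ) ^ 2 * ν ^ 2 := by ring
                _ ≤ (κ ^ 2 * M) * M := mul_le_mul e5 hνM (by positivity) (by positivity)
                _ = (κ * M) ^ 2 := by ring
            have e6 := abs_le_of_sq_le_sq' e1 (by positivity)
            linarith [e6.2]
          have h1 := grpC hd hρ (n := n) (H := H) (S := S) (M := M) (φ := ν) hκ hx1 hM1
            (by linarith) (by
              have e1 : κ / 4 * M * 1 ≤ κ / 4 * M * x :=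
                mul_le_mul_of_nonneg_left hx1 (by positivity)
              linarith) hk (hn _ (hkn _ le_rfl)).1
          refine h1.trans ?_
          have h2 : 2 * (ν / (κ * M * x / 2) ^ 2) ≤ 8 / κ ^ 2 * (1 / 2 ^ (j + 1)) := by
            rw [← hMr]
            have e1 : (κ * M * 1 / 2) ^ 2 ≤ (κ * M * x / 2) ^ 2 := by
              refine pow_le_pow_left₀ (by positivity) ?_ 2
              have : κ * M * 1 ≤ κ * M * x := mul_le_mul_of_nonneg_left hx1 (by positivity)
              linarith
            have e2 : ν / (κ * M * x / 2) ^ 2 ≤ ν / (κ * M * 1 / 2) ^ 2 :=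
              div_le_div_of_nonneg_left (by positivity) (by positivity) e1
            have e3 : ν ≤ M := by
              have e6 : ν ≤ ν ^ 2 := by
                rw [sq]
                exact le_mul_of_one_le_left (by linarith) hν1
              exact e6.trans hνM
            have e4 : ν / (κ * M * 1 / 2) ^ 2 ≤ M / (κ * M * 1 / 2) ^ 2 :=
              div_le_div_of_nonneg_right e3 (by positivity)
            have e5 : 2 * ((M : ℝ) / (κ * M * 1 / 2) ^ 2) = 8 / κ ^ 2 * (1 / M) := by
              field_simp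
              ring
            rw [← e5]
            linarith [e2.trans e4]
          refine h2.trans ?_
          have h3 : 1 ≤ r * (2 ^ (j + 1)) ^ 8 := by
            rw [← hMr, hr, div_mul_eq_mul_div, le_div_iff₀ hR0]
            have e1 : 1 * R ≤ m p * M ^ 8 := by
              have e2 : R ≤ M ^ 8 := hRn.trans hcase
              have e3 : M ^ 8 ≤ m p * M ^ 8 := Nat.le_mul_of_pos_left _ (by omega)
              omega
            exact_mod_cast e1
          have h4 := num3 (j := j + 1) hC hr0 h3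
          have h5 : 8 / κ ^ 2 * (1 / 2 ^ (j + 1)) ≤ 8 / κ ^ 2 *
              (Real.exp (-(1 / (10 * C) * ((j + 1 : ℕ) : ℝ))) * r ^ (1 / (10 * C))) :=
            mul_le_mul_of_nonneg_left h4 (by positivity)
          refine h5.trans ?_
          have h6 : 8 / κ ^ 2 ≤ KK κ C b := by
            unfold KK
            have h7 : 0 ≤ Real.exp (2 * b + 1) * (C * 4 ^ (2 * b + 3) + 2 ^ (2 * b + 2)) := by
              positivity
            linarith
          rw [mul_assoc]
          exact mul_le_mul_of_nonneg_right h6 (by positivity)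
        · have hemp : G = ∅ := by
            rw [Set.eq_empty_iff_forall_notMem]
            rintro η ⟨N, h1, h2, h3, h4⟩
            have := Nat.mul_le_mul_right H h1
            omega
          rw [hemp]
          simp only [measureReal_empty]
          have : 0 ≤ KK κ C b := by linarith
          positivity

theorem cost79 {d : ℕ} {ρ : Measure ℝ} [IsProbabilityMeasure ρ] (hd : 0 < d) (hρ : EM ρ)
    {β : ℝ} (hC : CntP d ρ β) (hA : AmpP d ρ β) : CostP d ρ β := by
  intro c₀ κ hc₀ hκ hκ2
  have h8 : 1 ≤ 8 / κ := by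
    rw [le_div_iff₀ hκ]
    linarith
  obtain ⟨C, hC1, hS⟩ := sing79 hd hρ hC hA c₀ (8 / κ) hc₀ h8
  obtain ⟨b, hb⟩ := pow_unbounded_of_one_lt (32 / κ) (by norm_num : (1 : ℝ) < 2)
  have hC0 : 0 < C := by linarith
  refine ⟨b + 10, 2 ^ (2 * b + 2), 16, κ / 64, 1 / (10 * C), KK κ C b, by positivity,
    by positivity, ?_, ?_⟩
  · unfold KK
    have h1 : 0 ≤ Real.exp (2 * b + 1) * (C * 4 ^ (2 * b + 3) + 2 ^ (2 * b + 2)) := by positivity
    have h2 : 0 ≤ 8 / κ ^ 2 := by positivity
    linarith
  · intro a ha h hL n m I hSy hn p hp i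
    exact core79 hd hρ (hS h hL) hC1 hκ hκ2 hb.le ha hSy hn hp i

end Pool.Agent.W_7d29a1_PL.K79
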