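import Pool.Agent.W_7d29a1_PL.CostL90

/-!
COST, the groups with a small number of horizons and the middle groups, over the single
probability (SING).
-/

set_option autoImplicit false

namespace Pool.Agent.W_7d29a1_PL

open MeasureTheory ProbabilityTheory Filter Topology Pool.Agent.W_MP_7d29a1_pr
  Pool.Agent.W_7d29a1_h46 Pool.Agent.W_7d29a1_h46u Pool.Agent.W_7d29a1_D2.B35
  Pool.Agent.W_7d29a1_Q29 Pool.Agent.W_7d29a1_R34 Pool.Agent.W_7d29a1_SP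

variable {d : ℕ} {ρ : Measure ℝ} {β : ℝ} {h : Vec d}

/-- SING at one tilt. -/
def Sg90 (ρ : Measure ℝ) (β : ℝ) (h : Vec d) (D C : ℝ) : Prop :=
  ∀ (T₀ T₁ T : ℕ) (θ s₀ φ Φ : ℝ), 1 ≤ T₁ → T₁ ≤ T → 0 ≤ φ →
    (∀ k : ℕ, k ≤ T₁ - T₀ → En ρ β h k ≤ φ ∧ Fn ρ β h k ≤ φ) →
    (∀ k : ℕ, k ≤ T → En ρ β h k ≤ Φ ∧ Fn ρ β h k ≤ Φ) →
    A ρ β h T₁ + 4 * Fn ρ β h T₁ ≤ s₀ →
    Φ + 1 < D * (lam ρ β h * T₁ + θ - (3 * φ + 1) - s₀) →
    (law d ρ).real {η | ∃ s : ℕ, T₀ ≤ s ∧ s ≤ T₁ ∧ lam ρ β h * s + θ ≤ X β h η s} ≤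
      C * ((T₁ : ℝ) / T) ^ (1 / C)

/-- SING at the length of a level. -/
lemma core90 {n a B Λ : ℕ} {ε : ℝ} {m : ℕ → ℕ} {I : Finset ℕ} {C D : ℝ} (hC : 1 ≤ C)
    (hsing : Sg90 ρ β h D C) (hS : Sy ρ β h n a B Λ ε m I) (hΛ : 2 ≤ Λ) {p : ℕ} (hp : p ∈ I)
    (hm : 1 ≤ m p) {j T₀ T₁ : ℕ} (hT1 : 1 ≤ T₁) (hT2 : T₁ ≤ 2 ^ (j + 1) * m p)
    (hn : 2 ^ (j + 1) * m p ≤ n) {θ φ : ℝ} (hφ0 : 0 ≤ φ)
    (hφ : ∀ k : ℕ, k ≤ T₁ - T₀ → En ρ β h k ≤ φ ∧ Fn ρ β h k ≤ φ)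
    (hkey : 2 ^ (p + j + 1) + 1 < D * (En ρ β h T₁ + θ - (3 * φ + 1) - 4 * Fn ρ β h T₁)) :
    (law d ρ).real {η | ∃ s : ℕ, T₀ ≤ s ∧ s ≤ T₁ ∧ lam ρ β h * s + θ ≤ X β h η s} ≤
      C * (2 ^ (j + 2) * ((m p : ℝ) / (min (m (p + j + 1)) n : ℕ))) ^ (1 / C) := by
  have hΛ2 : 2 ^ (j + 1) ≤ Λ ^ (j + 1) := Nat.pow_le_pow_left hΛ _
  have hm' : (1 : ℝ) ≤ m p := by exact_mod_cast hm
  have hC0 : 0 < C := by linarith
  -- the horizon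
  obtain ⟨T, hT, hTm, hTc⟩ : ∃ T : ℕ, T₁ ≤ T ∧ T < m (p + j + 1) ∧
      min (m (p + j + 1)) n ≤ 2 * T := by
    by_cases hc : m (p + j + 1) ≤ n
    · have h1 := hS.nc p hp j hc
      have h2 : 2 ^ (j + 1) * m p ≤ Λ ^ (j + 1) * m p := Nat.mul_le_mul_right _ hΛ2
      refine ⟨m (p + j + 1) - 1, by omega, by omega, ?_⟩
      rw [min_eq_left hc]
      have h3 : 1 ≤ 2 ^ (j + 1) := Nat.one_le_two_pow
      have h4 : 1 * 1 ≤ 2 ^ (j + 1) * m p := Nat.mul_le_mul h3 hm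
      omega
    · push Not at hc
      refine ⟨n, by omega, hc, ?_⟩
      rw [min_eq_right hc.le]
      omega
  have hT0 : 0 < T := by omega
  have hK : ∀ k : ℕ, k ≤ T → En ρ β h k ≤ 2 ^ (p + j + 1) ∧ Fn ρ β h k ≤ 2 ^ (p + j + 1) := by
    intro k hk
    have h1 := hS.lo (p + j + 1) k (by omega)
    exact ⟨(le_max_left _ _).trans h1.le, (le_max_right _ _).trans h1.le⟩
  have h1 := hsing T₀ T₁ T θ (A ρ β h T₁ + 4 * Fn ρ β h T₁) φ (2 ^ (p + j + 1)) hT1 hT hφ0 hφ hK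
    le_rfl (by
      refine lt_of_lt_of_eq hkey ?_
      unfold En
      ring)
  refine h1.trans (mul_le_mul_of_nonneg_left (Real.rpow_le_rpow (by positivity) ?_
    (by positivity)) hC0.le)
  have hT' : (0 : ℝ) < T := by exact_mod_cast hT0
  set ν : ℕ := min (m (p + j + 1)) n with hν
  have hν0 : 0 < ν := by
    rw [hν]
    refine lt_min (by omega) ?_
    have : 1 ≤ 2 ^ (j + 1) * m p := Nat.one_le_iff_ne_zero.2 (by positivity)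
    omega
  have hν' : (0 : ℝ) < ν := by exact_mod_cast hν0
  have hTc' : (ν : ℝ) ≤ 2 * T := by exact_mod_cast hTc
  have hT2' : (T₁ : ℝ) ≤ 2 ^ (j + 1) * m p := by exact_mod_cast hT2
  rw [← mul_div_assoc, div_le_div_iff₀ hT' hν']
  calc (T₁ : ℝ) * ν ≤ (2 ^ (j + 1) * m p) * (2 * T) :=
        mul_le_mul hT2' hTc' hν'.le (by positivity)
    _ = 2 ^ (j + 2) * (m p : ℝ) * T := by ring

/-- The fluctuation on a middle group. -/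
lemma mid_f90 {n a B Λ : ℕ} {ε : ℝ} {m : ℕ → ℕ} {I : Finset ℕ}
    (hS : Sy ρ β h n a B Λ ε m I) (hΛ : 4 ≤ Λ) {p : ℕ} (hp : p ∈ I) {j : ℕ}
    (hn : 2 ^ (j + 1) * m p ≤ n) {k : ℕ} (hk : k ≤ 2 ^ (j + 1) * m p) :
    En ρ β h k ≤ 2 ^ (p + ((j + 1) / 2 + 1)) ∧ Fn ρ β h k ≤ 2 ^ (p + ((j + 1) / 2 + 1)) := by
  have h1 : k < m (p + ((j + 1) / 2 + 1)) := by
    by_cases hc : m (p + (j + 1) / 2 + 1) ≤ n
    · have h2 := hS.nc p hp ((j + 1) / 2) hc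
      have h3 : 2 ^ (j + 1) ≤ Λ ^ ((j + 1) / 2 + 1) := by
        calc 2 ^ (j + 1) ≤ 2 ^ (2 * ((j + 1) / 2 + 1)) :=
              Nat.pow_le_pow_right (by norm_num) (by omega)
          _ = 4 ^ ((j + 1) / 2 + 1) := by rw [pow_mul]; norm_num
          _ ≤ Λ ^ ((j + 1) / 2 + 1) := Nat.pow_le_pow_left hΛ _
      have h4 : 2 ^ (j + 1) * m p ≤ Λ ^ ((j + 1) / 2 + 1) * m p := Nat.mul_le_mul_right _ h3
      have h5 : p + ((j + 1) / 2 + 1) = p + (j + 1) / 2 + 1 := by ring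
      rw [h5]
      omega
    · push Not at hc
      have h5 : p + ((j + 1) / 2 + 1) = p + (j + 1) / 2 + 1 := by ring
      rw [h5]
      omega
  have h2 := hS.lo _ k h1
  exact ⟨(le_max_left _ _).trans h2.le, (le_max_right _ _).trans h2.le⟩

/-- The fluctuation up to the slack. -/
lemma slack90 [IsProbabilityMeasure ρ] (hd : 0 < d) (hρ : EM ρ) {n a B Λ : ℕ} {ε : ℝ}
    {m : ℕ → ℕ} {I : Finset ℕ} (hS : Sy ρ β h n a B Λ ε m I) (hB : 1 ≤ B) (hε : ε < 1) {p : ℕ}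
    (hp : p ∈ I) (ha : 2 ≤ a) {k : ℕ} (hk : k ≤ 2 * m (p - a)) :
    En ρ β h k ≤ 4 * 2 ^ (p - a) ∧ Fn ρ β h k ≤ ε * 2 ^ p := by
  obtain ⟨hap, h2⟩ := hS.big p hp
  constructor
  · have h3 : ∀ v : ℕ, v ≤ m (p - a) → En ρ β h v ≤ 2 * 2 ^ (p - a) := by
      intro v hv
      have h4 : En ρ β h (v / 2) < 2 ^ (p - a) :=
        lt_of_le_of_lt (le_max_left _ _) (hS.lo (p - a) _ (by omega))
      have h5 : En ρ β h (v - v / 2) < 2 ^ (p - a) :=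
        lt_of_le_of_lt (le_max_left _ _) (hS.lo (p - a) _ (by omega))
      have h6 := En_add15 hd hρ β h (v / 2) (v - v / 2)
      have h7 : v / 2 + (v - v / 2) = v := by omega
      rw [h7] at h6
      linarith
    have h4 := h3 (k / 2) (by omega)
    have h5 := h3 (k - k / 2) (by omega)
    have h6 := En_add15 hd hρ β h (k / 2) (k - k / 2)
    have h7 : k / 2 + (k - k / 2) = k := by omega
    rw [h7] at h6
    linarith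
  · have h3 := hS.far90' hd hρ hB hε hp (by omega)
    have h4 : 2 ^ 1 ≤ 2 ^ (a - 1) := Nat.pow_le_pow_right (by norm_num) (by omega)
    have h5 : 2 ^ 1 * m (p - a) ≤ 2 ^ (a - 1) * m (p - a) := Nat.mul_le_mul_right _ h4
    have h6 : m p ≤ B * m p := Nat.le_mul_of_pos_left _ hB
    exact hS.fs p hp k (by omega)

/-- The slack at the length of the overlap. -/
lemma sl90 [IsProbabilityMeasure ρ] (hd : 0 < d) (hρ : EM ρ) {n a B Λ : ℕ} {ε κ : ℝ}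
    {m : ℕ → ℕ} {I : Finset ℕ} (hS : Sy ρ β h n a B Λ ε m I) (hB : 1 ≤ B) (hε : 0 < ε)
    (hκ1 : κ ≤ 1 / 2) (hεκ : ε ≤ κ / 64) {p : ℕ}
    (hp : p ∈ I) (ha : 2 ≤ a) (haκ : 256 / κ ≤ 2 ^ a) (hκ : 0 < κ) :
    ∃ φ : ℝ, 0 ≤ φ ∧ 3 * φ + 1 ≤ κ / 8 * 2 ^ p ∧
      ∀ k : ℕ, k ≤ 2 * m (p - a) → En ρ β h k ≤ φ ∧ Fn ρ β h k ≤ φ := by
  obtain ⟨hap, h2⟩ := hS.big p hp
  have h3 : (2 : ℝ) ^ p = 2 ^ a * 2 ^ (p - a) := by
    rw [← pow_add]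
    congr 1
    omega
  have h4 : (1 : ℝ) ≤ 2 ^ (p - a) := one_le_pow₀ (by norm_num)
  have h5 : (2 : ℝ) ^ (p - a) * 256 ≤ κ * 2 ^ p := by
    rw [div_le_iff₀ hκ] at haκ
    rw [h3]
    nlinarith
  have h6 : (0 : ℝ) < 2 ^ p := by positivity
  have h7 : ε * 2 ^ p ≤ κ / 64 * 2 ^ p := mul_le_mul_of_nonneg_right hεκ h6.le
  refine ⟨4 * 2 ^ (p - a) + ε * 2 ^ p, by positivity, by nlinarith, fun k hk => ?_⟩
  obtain ⟨h8, h9⟩ := slack90 hd hρ hS hB (by linarith) hp ha hk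
  have h10 : 0 < ε * 2 ^ p := by positivity
  exact ⟨by linarith, by linarith⟩

/-- Group `0`. -/
lemma zero90 [IsProbabilityMeasure ρ] (hd : 0 < d) (hρ : EM ρ) {n a B Λ : ℕ} {ε κ C D : ℝ}
    {m : ℕ → ℕ} {I : Finset ℕ} (hC : 1 ≤ C) (hsing : Sg90 ρ β h D C)
    (hS : Sy ρ β h n a B Λ ε m I) (hB : 1 ≤ B) (hΛ : 2 ≤ Λ) (hε : 0 < ε) (hκ : 0 < κ)
    (hκ1 : κ ≤ 1 / 2) (hεκ : ε ≤ κ / 64) {p : ℕ} (hp : p ∈ I) (ha : 3 ≤ a)
    (haκ : 256 / κ ≤ 2 ^ a) (hD : 8 ≤ D * κ) (hn : 2 * m p ≤ n) :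
    (law d ρ).real (Lg ρ β h n (m p - 2 * m (p - a)) (2 * m (p - a)) (2 ^ p) κ
      (κ / 8 * 2 ^ p) 0) ≤
      C * (2 ^ 2 * ((m p : ℝ) / (min (m (p + 1)) n : ℕ))) ^ (1 / C) := by
  have hε1 : ε < 1 := by linarith
  obtain ⟨φ, hφ0, hφκ, hφ⟩ := sl90 hd hρ hS hB hε hκ1 hεκ hp (by omega) haκ hκ
  obtain ⟨h1, h2⟩ := hS.one90 hd hρ hB hε1 hp ha
  obtain ⟨hap, h3⟩ := hS.big p hp
  have hx : (1 : ℝ) ≤ 2 ^ p := one_le_pow₀ (by norm_num)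
  have hm1 : 1 ≤ m p := by omega
  have hE := hS.en90 hB hε1 hp
  have hF := hS.fs p hp (m p) (Nat.le_mul_of_pos_left _ hB)
  have hF' : ε * 2 ^ p ≤ κ / 64 * 2 ^ p := mul_le_mul_of_nonneg_right hεκ (by linarith)
  have h4 := core90 (T₀ := m p - 2 * m (p - a)) (T₁ := m p) (j := 0)
    (θ := -((1 - κ) * 2 ^ p) - κ / 8 * 2 ^ p) hC hsing hS hΛ hp hm1
    hm1 (by omega) (by omega) hφ0 (fun k hk => hφ k (by omega)) (by
      have h5 : κ / 2 * 2 ^ p ≤ En ρ β h (m p) + (-((1 - κ) * 2 ^ p) - κ / 8 * 2 ^ p) -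
          (3 * φ + 1) - 4 * Fn ρ β h (m p) := by nlinarith
      have h6 : 0 < D := by
        by_contra hcon
        push Not at hcon
        nlinarith
      have h7 := mul_le_mul_of_nonneg_left h5 h6.le
      have h8 : D * (κ / 2 * 2 ^ p) = D * κ * (2 ^ p / 2) := by ring
      have h9 : 8 * ((2 : ℝ) ^ p / 2) ≤ D * κ * (2 ^ p / 2) :=
        mul_le_mul_of_nonneg_right hD (by positivity)
      have h10 : (2 : ℝ) ^ (p + 0 + 1) = 2 * 2 ^ p := by ring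
      rw [h10]
      linarith)
  refine le_trans (measureReal_mono ?_ (measure_ne_top _ _)) h4
  rintro η ⟨s, hs, h5⟩
  refine ⟨m p - 2 * m (p - a) + s, by omega, by omega, ?_⟩
  have h6 : ((m p - 2 * m (p - a) + s : ℕ) : ℝ) * lam ρ β h =
    lam ρ β h * ((m p - 2 * m (p - a) + s : ℕ) : ℝ) := mul_comm _ _
  rw [h6] at h5
  linarith

/-- The small groups. -/
lemma small90 [IsProbabilityMeasure ρ] (hd : 0 < d) (hρ : EM ρ) {n a B Λ : ℕ} {ε κ C D : ℝ}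
    {m : ℕ → ℕ} {I : Finset ℕ} (hC : 1 ≤ C) (hsing : Sg90 ρ β h D C)
    (hS : Sy ρ β h n a B Λ ε m I) (hΛ : 2 ≤ Λ) (hε : 0 < ε) (hκ : 0 < κ)
    (hκ1 : κ ≤ 1 / 2) (hεκ : ε ≤ κ / 64) {p : ℕ} (hp : p ∈ I) (ha : 3 ≤ a)
    (haκ : 256 / κ ≤ 2 ^ a) {i₀ i : ℕ} (hD : 2 ^ (i₀ + 3) ≤ D * κ) (hi : i + 1 ≤ i₀)
    (hB : 2 ^ (i₀ + 1) ≤ B) (hn : 2 ^ (i + 2) * m p ≤ n) :
    (law d ρ).real (Lg ρ β h n (m p - 2 * m (p - a)) (2 * m (p - a)) (2 ^ p) κ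
      (κ / 8 * 2 ^ p) (i + 1)) ≤ 2 ^ (i + 1) *
      (C * (2 ^ (i + 1 + 2) * ((m p : ℝ) / (min (m (p + (i + 1) + 1)) n : ℕ))) ^ (1 / C)) := by
  classical
  have hε1 : ε < 1 := by linarith
  have hB1 : 1 ≤ B := le_trans Nat.one_le_two_pow hB
  obtain ⟨φ, hφ0, hφκ, hφ⟩ := sl90 hd hρ hS hB1 hε hκ1 hεκ hp (by omega) haκ hκ
  obtain ⟨h1, h2⟩ := hS.one90 hd hρ hB1 hε1 hp ha
  obtain ⟨hap, h3⟩ := hS.big p hp
  have hx : (1 : ℝ) ≤ 2 ^ p := one_le_pow₀ (by norm_num)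
  have hm1 : 1 ≤ m p := by omega
  obtain ⟨H, hH⟩ : ∃ H : ℕ, H = m p - 2 * m (p - a) := ⟨_, rfl⟩
  rw [← hH]
  rw [← hH] at h1 h2
  have hHS : H + 2 * m (p - a) = m p := by omega
  have hC0 : 0 < C := by linarith
  set R : ℝ := C * (2 ^ (i + 1 + 2) * ((m p : ℝ) / (min (m (p + (i + 1) + 1)) n : ℕ))) ^ (1 / C)
    with hR
  have hR0 : 0 ≤ R := by positivity
  set F : Finset ℕ := Finset.Ico (2 ^ (i + 1)) (2 ^ (i + 2)) with hF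
  have h4 : Lg ρ β h n H (2 * m (p - a)) (2 ^ p) κ (κ / 8 * 2 ^ p) (i + 1) ⊆
      ⋃ N ∈ F, LgN ρ β h H (2 * m (p - a)) (2 ^ p) κ (κ / 8 * 2 ^ p) N := by
    rintro η ⟨N, hN1, hN2, hN3, hN4⟩
    refine Set.mem_iUnion₂.2 ⟨N, ?_, hN4⟩
    rw [hF, Finset.mem_Ico]
    exact ⟨hN1, hN2⟩
  have h5 : ∀ N ∈ F, (law d ρ).real (LgN ρ β h H (2 * m (p - a)) (2 ^ p) κ
      (κ / 8 * 2 ^ p) N) ≤ R := by
    intro N hN
    rw [hF, Finset.mem_Ico] at hN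
    obtain ⟨hN1, hN2⟩ := hN
    have hN3 : 2 ≤ N := by
      have : 2 ^ 1 ≤ 2 ^ (i + 1) := Nat.pow_le_pow_right (by norm_num) (by omega)
      omega
    have hN4 : N * H + 2 * m (p - a) ≤ N * m p := by
      rw [← hHS, mul_add]
      have : 1 * (2 * m (p - a)) ≤ N * (2 * m (p - a)) := Nat.mul_le_mul_right _ (by omega)
      omega
    have hN5 : N * m p ≤ 2 ^ (i + 2) * m p := Nat.mul_le_mul_right _ hN2.le
    have hN6 : 2 ^ (i + 2) * m p ≤ B * m p := Nat.mul_le_mul_right _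
      (le_trans (Nat.pow_le_pow_right (by norm_num) (by omega)) hB)
    have hN' : (2 : ℝ) ≤ N := by exact_mod_cast hN3
    have hFn := hS.fs p hp (N * H + 2 * m (p - a)) (by omega)
    have hEn := En_nonneg15 hd hρ β h (N * H + 2 * m (p - a))
    have hF' : ε * 2 ^ p ≤ κ / 64 * 2 ^ p := mul_le_mul_of_nonneg_right hεκ (by linarith)
    have h6 := core90 (T₀ := N * H) (T₁ := N * H + 2 * m (p - a)) (j := i + 1)
      (θ := κ * N * 2 ^ p - κ / 8 * 2 ^ p) hC hsing hS hΛ hp hm1 (by omega)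
      (by
        have : i + 1 + 1 = i + 2 := rfl
        rw [this]
        omega) (by
        have : i + 1 + 1 = i + 2 := rfl
        rw [this]
        exact hn) hφ0 (fun k hk => hφ k (by omega)) (by
        have h7 : κ * 2 ^ p * 2 ≤ κ * 2 ^ p * N := mul_le_mul_of_nonneg_left hN' (by positivity)
        have h8 : 0 < κ * 2 ^ p := by positivity
        have h9 : κ / 2 * 2 ^ p ≤ En ρ β h (N * H + 2 * m (p - a)) +
            (κ * N * 2 ^ p - κ / 8 * 2 ^ p) - (3 * φ + 1) -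
            4 * Fn ρ β h (N * H + 2 * m (p - a)) := by nlinarith
        have h10 : 0 < D := by
          by_contra hcon
          push Not at hcon
          have : (0 : ℝ) < 2 ^ (i₀ + 3) := by positivity
          nlinarith
        have h11 := mul_le_mul_of_nonneg_left h9 h10.le
        have h12 : D * (κ / 2 * 2 ^ p) = D * κ * (2 ^ p / 2) := by ring
        have h13 : (2 : ℝ) ^ (i₀ + 3) * (2 ^ p / 2) ≤ D * κ * (2 ^ p / 2) :=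
          mul_le_mul_of_nonneg_right hD (by positivity)
        have h14 : (2 : ℝ) ^ (p + (i + 1) + 1) ≤ 2 ^ (p + i₀ + 1) :=
          pow_le_pow_right₀ (by norm_num) (by omega)
        have h15 : (2 : ℝ) ^ (i₀ + 3) * (2 ^ p / 2) = 2 * 2 ^ (p + i₀ + 1) := by ring
        have h16 : (1 : ℝ) < 2 ^ (p + i₀ + 1) := one_lt_pow₀ (by norm_num) (by omega)
        linarith)
    refine le_trans (measureReal_mono ?_ (measure_ne_top _ _)) h6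
    rintro η ⟨s, hs, h7⟩
    refine ⟨N * H + s, by omega, by omega, ?_⟩
    have h8 : ((N * H + s : ℕ) : ℝ) * lam ρ β h = lam ρ β h * ((N * H + s : ℕ) : ℝ) :=
      mul_comm _ _
    rw [h8] at h7
    linarith
  refine ((measureReal_mono h4 (measure_ne_top _ _)).trans
    ((measureReal_biUnion_finset_le _ _).trans (Finset.sum_le_card_nsmul F _ _ h5))).trans ?_
  rw [nsmul_eq_mul]
  refine mul_le_mul_of_nonneg_right ?_ hR0
  have h6 : F.card = 2 ^ (i + 1) := by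
    rw [hF, Nat.card_Ico]
    have : 2 ^ (i + 2) = 2 * 2 ^ (i + 1) := by ring
    omega
  rw [h6]
  push_cast
  exact le_rfl

/-- The middle groups. -/
lemma mid90 [IsProbabilityMeasure ρ] (hd : 0 < d) (hρ : EM ρ) {n a B Λ : ℕ} {ε κ C D : ℝ}
    {m : ℕ → ℕ} {I : Finset ℕ} (hC : 1 ≤ C) (hsing : Sg90 ρ β h D C)
    (hS : Sy ρ β h n a B Λ ε m I) (hB : 1 ≤ B) (hΛ : 4 ≤ Λ) (hε1 : ε < 1) (hκ : 0 < κ)
    {p : ℕ} (hp : p ∈ I) (ha : 3 ≤ a) {i₁ i : ℕ} (hi₁ : 128 / κ ≤ 2 ^ i₁)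
    (hD : 8 ≤ D * κ) (hi : 2 * i₁ ≤ i + 1) (hn : 2 ^ (i + 2) * m p ≤ n) :
    (law d ρ).real (Lg ρ β h n (m p - 2 * m (p - a)) (2 * m (p - a)) (2 ^ p) κ
      (κ / 8 * 2 ^ p) (i + 1)) ≤
      C * (2 ^ (i + 1 + 2) * ((m p : ℝ) / (min (m (p + (i + 1) + 1)) n : ℕ))) ^ (1 / C) := by
  obtain ⟨h1, h2⟩ := hS.one90 hd hρ hB hε1 hp ha
  obtain ⟨hap, h3⟩ := hS.big p hp
  have hx : (1 : ℝ) ≤ 2 ^ p := one_le_pow₀ (by norm_num)
  have hm1 : 1 ≤ m p := by omega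
  obtain ⟨H, hH⟩ : ∃ H : ℕ, H = m p - 2 * m (p - a) := ⟨_, rfl⟩
  rw [← hH]
  rw [← hH] at h1 h2
  have hHS : H + 2 * m (p - a) = m p := by omega
  have hC0 : 0 < C := by linarith
  obtain ⟨j, hj⟩ : ∃ j : ℕ, j = i + 1 := ⟨_, rfl⟩
  have hn' : 2 ^ (j + 1) * m p ≤ n := by
    rw [hj]
    exact hn
  rw [← hj]
  obtain ⟨l, hl⟩ : ∃ l : ℕ, l = (j + 1) / 2 + 1 := ⟨_, rfl⟩
  have hf : ∀ k : ℕ, k ≤ 2 ^ (j + 1) * m p → En ρ β h k ≤ 2 ^ (p + l) ∧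
      Fn ρ β h k ≤ 2 ^ (p + l) := by
    intro k hk
    rw [hl]
    exact mid_f90 hS hΛ hp hn' hk
  have hT1 : 2 ^ (j + 1) * H + 2 * m (p - a) ≤ 2 ^ (j + 1) * m p := by
    rw [← hHS, mul_add]
    have : 1 * (2 * m (p - a)) ≤ 2 ^ (j + 1) * (2 * m (p - a)) :=
      Nat.mul_le_mul_right _ Nat.one_le_two_pow
    omega
  have hpow : 2 ^ (j + 1) = 2 * 2 ^ j := by ring
  have hT1' : 1 * H ≤ 2 ^ (j + 1) * H := Nat.mul_le_mul_right _ Nat.one_le_two_pow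
  -- the numbers
  have hnum : 7 * (2 : ℝ) ^ (p + l) + 1 ≤ κ / 4 * (2 ^ j * 2 ^ p) := by
    have h4 : (2 : ℝ) ^ (l + 3) ≤ 2 ^ (j / 2 + 5) :=
      pow_le_pow_right₀ (by norm_num) (by omega)
    have h5 : (2 : ℝ) ^ (j / 2) * 2 ^ (j / 2) ≤ 2 ^ j := by
      rw [← pow_add]
      exact pow_le_pow_right₀ (by norm_num) (by omega)
    have h6 : (128 : ℝ) / κ ≤ 2 ^ (j / 2) :=
      hi₁.trans (pow_le_pow_right₀ (by norm_num) (by omega))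
    have h7 : (128 : ℝ) ≤ κ * 2 ^ (j / 2) := by
      rw [div_le_iff₀ hκ] at h6
      linarith
    have h8 : (2 : ℝ) ^ (j / 2 + 5) ≤ κ / 4 * 2 ^ j := by
      have h9 : (0 : ℝ) < 2 ^ (j / 2) := by positivity
      have h10 : (2 : ℝ) ^ (j / 2 + 5) = 32 * 2 ^ (j / 2) := by ring
      have h11 : 128 * (2 : ℝ) ^ (j / 2) ≤ κ * 2 ^ (j / 2) * 2 ^ (j / 2) :=
        mul_le_mul_of_nonneg_right h7 h9.le
      have h12 : κ * (2 ^ (j / 2) * 2 ^ (j / 2)) ≤ κ * 2 ^ j :=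
        mul_le_mul_of_nonneg_left h5 hκ.le
      rw [h10]
      linarith
    have h9 : 7 * (2 : ℝ) ^ (p + l) + 1 ≤ 2 ^ (l + 3) * 2 ^ p := by
      have h10 : (2 : ℝ) ^ (l + 3) * 2 ^ p = 8 * 2 ^ (p + l) := by ring
      have h11 : (1 : ℝ) ≤ 2 ^ (p + l) := one_le_pow₀ (by norm_num)
      rw [h10]
      linarith
    calc 7 * (2 : ℝ) ^ (p + l) + 1 ≤ 2 ^ (l + 3) * 2 ^ p := h9
      _ ≤ (κ / 4 * 2 ^ j) * 2 ^ p := mul_le_mul_of_nonneg_right (h4.trans h8) (by linarith)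
      _ = κ / 4 * (2 ^ j * 2 ^ p) := by ring
  have h6 := core90 (T₀ := 2 ^ j * H) (T₁ := 2 ^ (j + 1) * H + 2 * m (p - a)) (j := j)
    (θ := κ * 2 ^ j * 2 ^ p - κ / 8 * 2 ^ p) (φ := 2 ^ (p + l)) hC hsing hS (by omega) hp hm1
    (by omega) hT1 hn' (by positivity) (fun k hk => hf k (by omega)) (by
      have hFn := (hf _ hT1).2
      have hEn := En_nonneg15 hd hρ β h (2 ^ (j + 1) * H + 2 * m (p - a))
      have h7 : κ / 8 * (2 : ℝ) ^ p ≤ κ / 8 * (2 ^ j * 2 ^ p) :=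
        mul_le_mul_of_nonneg_left (le_mul_of_one_le_left (by positivity)
          (one_le_pow₀ (by norm_num))) (by positivity)
      have h8 : 0 < κ * (2 ^ j * 2 ^ p) := by positivity
      have h9 : κ / 2 * (2 ^ j * 2 ^ p) ≤ En ρ β h (2 ^ (j + 1) * H + 2 * m (p - a)) +
          (κ * 2 ^ j * 2 ^ p - κ / 8 * 2 ^ p) - (3 * 2 ^ (p + l) + 1) -
          4 * Fn ρ β h (2 ^ (j + 1) * H + 2 * m (p - a)) := by nlinarith
      have h10 : 0 < D := by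
        by_contra hcon
        push Not at hcon
        nlinarith
      have h11 := mul_le_mul_of_nonneg_left h9 h10.le
      have h12 : D * (κ / 2 * (2 ^ j * 2 ^ p)) = D * κ * (2 ^ j * 2 ^ p / 2) := by ring
      have h13 : 8 * ((2 : ℝ) ^ j * 2 ^ p / 2) ≤ D * κ * (2 ^ j * 2 ^ p / 2) :=
        mul_le_mul_of_nonneg_right hD (by positivity)
      have h15 : (2 : ℝ) ^ (p + j + 1) = 2 * (2 ^ j * 2 ^ p) := by ring
      have h16 : (1 : ℝ) ≤ 2 ^ j * 2 ^ p := by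
        rw [← pow_add]
        exact one_le_pow₀ (by norm_num)
      rw [h15]
      linarith)
  refine le_trans (measureReal_mono ?_ (measure_ne_top _ _)) h6
  rw [hj]
  rintro η ⟨N, hN1, hN2, hN3, s, hs, h7⟩
  have hN4 : 2 ^ (i + 1) * H ≤ N * H := Nat.mul_le_mul_right _ hN1
  have hN5 : N * H ≤ 2 ^ (i + 1 + 1) * H := Nat.mul_le_mul_right _ hN2.le
  refine ⟨N * H + s, by omega, by omega, ?_⟩
  have h8 : ((N * H + s : ℕ) : ℝ) * lam ρ β h = lam ρ β h * ((N * H + s : ℕ) : ℝ) :=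
    mul_comm _ _
  rw [h8] at h7
  have h9 : (2 : ℝ) ^ (i + 1) ≤ N := by exact_mod_cast hN1
  have h10 : κ * 2 ^ (i + 1) * 2 ^ p ≤ κ * N * 2 ^ p :=
    mul_le_mul_of_nonneg_right (mul_le_mul_of_nonneg_left h9 hκ.le) (by linarith)
  linarith

end Pool.Agent.W_7d29a1_PL
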