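import Pool.Agent.W_7d29a1_PL.Sing79
import Pool.Agent.W_7d29a1_PL.DefsPX

/-!
SING for every law, over GROWN.
-/

set_option autoImplicit false

namespace Pool.Agent.W_7d29a1_PL

open MeasureTheory ProbabilityTheory Filter Topology Pool.Agent.W_MP_7d29a1_pr
  Pool.Agent.W_7d29a1_h46 Pool.Agent.W_7d29a1_h46u Pool.Agent.W_7d29a1_D2.B35
  Pool.Agent.W_7d29a1_Q29 Pool.Agent.W_7d29a1_R34 Pool.Agent.W_7d29a1_SP

/-- SING with the logarithmic condition. -/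
def SingX90 (d : ℕ) (ρ : Measure ℝ) (β : ℝ) : Prop := ∀ c₀ D : ℝ, 0 < c₀ → 1 ≤ D →
  ∃ C : ℝ, 1 ≤ C ∧ ∀ h : Vec d, Loc1 ρ β h c₀ → ∀ (T₀ T₁ T : ℕ) (θ s₀ φ Φ : ℝ),
    C * (1 + Real.log T) ≤ Φ + 1 → 1 ≤ T₁ → T₁ ≤ T → 0 ≤ φ →
    (∀ k : ℕ, k ≤ T₁ - T₀ → En ρ β h k ≤ φ ∧ Fn ρ β h k ≤ φ) →
    (∀ k : ℕ, k ≤ T → En ρ β h k ≤ Φ ∧ Fn ρ β h k ≤ Φ) →
    A ρ β h T₁ + 4 * Fn ρ β h T₁ ≤ s₀ →
    Φ + 1 < D * (lam ρ β h * T₁ + θ - (3 * φ + 1) - s₀) →
    (law d ρ).real {η | ∃ s : ℕ, T₀ ≤ s ∧ s ≤ T₁ ∧ lam ρ β h * s + θ ≤ X β h η s} ≤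
      C * ((T₁ : ℝ) / T) ^ (1 / C)

theorem singX90 {d : ℕ} {ρ : Measure ℝ} [IsProbabilityMeasure ρ] (hd : 0 < d) (hρ : EM ρ)
    {β : ℝ} (hG : GrowN d ρ β) : SingX90 d ρ β := by
  intro c₀ D hc hD
  obtain ⟨C1, h1, hgr⟩ := hG c₀ D hc hD
  have hC1 : 0 < C1 := by linarith
  have hD0 : 0 < D := by linarith
  obtain ⟨C, hCdef⟩ : ∃ C, C = max (4 * C1) (D * C1) := ⟨_, rfl⟩
  have hCa : 4 * C1 ≤ C := by
    rw [hCdef]
    exact le_max_left _ _
  have hCb : D * C1 ≤ C := by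
    rw [hCdef]
    exact le_max_right _ _
  have hC0 : 0 < C := by linarith
  refine ⟨C, by linarith, ?_⟩
  intro h hL T₀ T₁ T θ s₀ φ Φ hlog hT1 hTT hφ hk hK hs₀ hΦ
  have hT1' : (1 : ℝ) ≤ T₁ := by exact_mod_cast hT1
  have hTT' : (T₁ : ℝ) ≤ T := by exact_mod_cast hTT
  have hT1'' : (1 : ℝ) ≤ T := by linarith
  have hT0 : (0 : ℝ) < T := by linarith
  have hlT : 0 ≤ Real.log T := Real.log_nonneg hT1''
  have hr0 : 0 < (T₁ : ℝ) / T := by positivity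
  have hr1 : (T₁ : ℝ) / T ≤ 1 := by
    rw [div_le_one hT0]
    exact hTT'
  have hF0 : 0 ≤ Fn ρ β h T₁ := integral_nonneg fun η => abs_nonneg _
  have hΦ0 : 0 ≤ Φ := by
    have h3 := (hK T₁ hTT).2
    linarith
  -- the level
  set g : ℝ := lam ρ β h * T₁ + θ - (3 * φ + 1) with hg
  set s₁ : ℝ := (s₀ + (Φ + 1) / D + g) / 2 with hs₁
  have h2 : (Φ + 1) / D < g - s₀ := by
    rw [div_lt_iff₀ hD0]
    linarith
  have h20 : 0 ≤ (Φ + 1) / D := by positivity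
  have hs₁g : s₁ < g := by
    rw [hs₁]
    linarith
  have hs₁s : (Φ + 1) / D < s₁ - s₀ := by
    rw [hs₁]
    linarith
  have hs01 : s₀ ≤ s₁ := by linarith
  set p : ℝ := (law d ρ).real {η | s₁ < X β h η T₁} with hp
  have hp0 : 0 ≤ p := measureReal_nonneg
  have h3 := S79.push79 hd hρ β h hφ hk (θ := θ)
  have h4 : (law d ρ).real {η | lam ρ β h * T₁ + θ - (3 * φ + 1) ≤ X β h η T₁} ≤ p := by
    refine measureReal_mono ?_ (measure_ne_top _ _)
    intro η hη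
    have h5 : lam ρ β h * T₁ + θ - (3 * φ + 1) ≤ X β h η T₁ := hη
    show s₁ < X β h η T₁
    linarith
  refine h3.trans ?_
  refine (mul_le_mul_of_nonneg_left h4 (by norm_num : (0 : ℝ) ≤ 2)).trans ?_
  rcases hp0.lt_or_eq with hp1 | hp1
  swap
  · rw [← hp1, mul_zero]
    positivity
  set q : ℝ := min p (1 / 2) with hq
  have hq0 : 0 < q := lt_min hp1 (by norm_num)
  have hq1 : q ≤ 1 / 2 := min_le_right _ _
  have hpq : p ≤ 2 * q := by
    have hp2 : p ≤ 1 := measureReal_le_one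
    rcases le_total p (1 / 2) with h5 | h5
    · rw [hq, min_eq_left h5]
      linarith
    · rw [hq, min_eq_right h5]
      linarith
  have h6 : q ≤ C1 * ((T₁ : ℝ) / T) ^ (1 / C1) := by
    by_contra hcon
    push Not at hcon
    set r : ℝ := ((T₁ : ℝ) / T) ^ (1 / C1) with hr
    have hr' : 0 < r := Real.rpow_pos_of_pos hr0 _
    have hrC : r ^ C1 = (T₁ : ℝ) / T := by
      rw [hr, ← Real.rpow_mul hr0.le, one_div_mul_cancel hC1.ne', Real.rpow_one]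
    -- the logarithm
    have h7 : Real.log (1 / q) ≤ Real.log T := by
      refine Real.log_le_log (by positivity) ?_
      rw [div_le_iff₀ hq0]
      have h8 : (1 : ℝ) / T ≤ r := by
        have h9 : (1 : ℝ) / T ≤ (T₁ : ℝ) / T := div_le_div_of_nonneg_right hT1' hT0.le
        have h10 : (T₁ : ℝ) / T ≤ r := by
          calc (T₁ : ℝ) / T = ((T₁ : ℝ) / T) ^ (1 : ℝ) := (Real.rpow_one _).symm
            _ ≤ r := Real.rpow_le_rpow_of_exponent_ge hr0 hr1 (by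
              rw [div_le_one hC1]
              exact h1)
        exact h9.trans h10
      have h9 : r ≤ C1 * r := le_mul_of_one_le_left hr'.le h1
      have h10 : (1 : ℝ) / T ≤ q := by linarith
      rw [div_le_iff₀ hT0] at h10
      linarith
    have h8 : C1 * (1 + Real.log (1 / q)) ≤ s₁ - s₀ := by
      have h9 : C1 * (1 + Real.log T) ≤ (Φ + 1) / D := by
        rw [le_div_iff₀ hD0]
        have h10 : D * C1 * (1 + Real.log T) ≤ C * (1 + Real.log T) :=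
          mul_le_mul_of_nonneg_right hCb (by linarith)
        linarith
      have h10 : C1 * (1 + Real.log (1 / q)) ≤ C1 * (1 + Real.log T) :=
        mul_le_mul_of_nonneg_left (by linarith) hC1.le
      linarith
    have h9 : C1 * T₁ * (1 / q) ^ C1 ≤ T := by
      have h10 : r < q := by
        have := le_mul_of_one_le_left hr'.le h1
        linarith
      have h11 : (C1 * r) ^ C1 ≤ q ^ C1 := Real.rpow_le_rpow (by positivity) hcon.le hC1.le
      rw [Real.mul_rpow hC1.le hr'.le, hrC] at h11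
      have h12 : C1 ≤ C1 ^ C1 := by
        calc C1 = C1 ^ (1 : ℝ) := (Real.rpow_one _).symm
          _ ≤ C1 ^ C1 := Real.rpow_le_rpow_of_exponent_le h1 h1
      have h13 : C1 * ((T₁ : ℝ) / T) ≤ q ^ C1 :=
        (mul_le_mul_of_nonneg_right h12 hr0.le).trans h11
      have hqC : 0 < q ^ C1 := Real.rpow_pos_of_pos hq0 _
      rw [one_div, Real.inv_rpow hq0.le, ← div_eq_mul_inv, div_le_iff₀ hqC]
      rw [← mul_div_assoc, div_le_iff₀ hT0] at h13
      linarith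
    have h10 := hgr h hL T₁ T s₀ s₁ q Φ hT1 hq0 (by linarith) h8 (by linarith)
      (hq1.trans (S79.half79 hd hρ β h T₁ hs₀)) (min_le_left _ _) h9 hK
    rw [div_lt_iff₀ hD0] at hs₁s
    linarith
  have h7 : ((T₁ : ℝ) / T) ^ (1 / C1) ≤ ((T₁ : ℝ) / T) ^ (1 / C) :=
    Real.rpow_le_rpow_of_exponent_ge hr0 hr1 (one_div_le_one_div_of_le hC1 (by linarith))
  calc 2 * p ≤ 2 * (2 * q) := by linarith
    _ = 4 * q := by ring
    _ ≤ 4 * (C1 * ((T₁ : ℝ) / T) ^ (1 / C1)) := by linarith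
    _ = 4 * C1 * ((T₁ : ℝ) / T) ^ (1 / C1) := by ring
    _ ≤ C * ((T₁ : ℝ) / T) ^ (1 / C) :=
      mul_le_mul hCa h7 (Real.rpow_nonneg hr0.le _) hC0.le

end Pool.Agent.W_7d29a1_PL
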