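import Pool.Agent.W_7d29a1_PL.DefsPL

/-!
THEOREM PLA: the power law of the variance at ALL large lengths, at almost every tilt (`d = 2`, laws with
`AmpP`). Literals (helper84).
-/

namespace Pool.Agent.W_7d29a1_PL

open MeasureTheory ProbabilityTheory Filter Topology Pool.Agent.W_MP_7d29a1_pr
  Pool.Agent.W_7d29a1_h46 Pool.Agent.W_7d29a1_h46u Pool.Agent.W_7d29a1_D2.B35
  Pool.Agent.W_7d29a1_Q29 Pool.Agent.W_7d29a1_R34 Pool.Agent.W_7d29a1_SP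

section Leaves

variable (d : ℕ) (ρ : Measure ℝ) (β : ℝ)

/-- CORA: the core, at one tilt and one length, from a constant level on (`CorP` without its lower bound of the
fluctuation: `UseL` in place of `UseP`). -/
def CorA : Prop := ∀ g C₀ : ℝ, 0 < g → 0 ≤ C₀ → ∃ c : ℝ, 0 < c ∧ ∀ h : Vec d,
  lam ρ β h + g ≤ Real.log (Phi h) + Real.log (∫ t, Real.exp (β * t) ∂ρ) →
    ∃ n₀ : ℕ, ∀ n : ℕ, n₀ ≤ n →
      (∀ k : ℕ, k ≤ 4 * n → Va ρ β h k ≤ (n : ℝ) ^ c ∧ En ρ β h k ≤ (n : ℝ) ^ c) →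
      ¬ Bd ρ β h n (c * Real.log n) C₀

/-- LEKA (`d = 2`): the mass outside a window, with one neighbour in each direction and the first moment there. -/
def LekA : Prop := ∀ (h v : Vec 2) (n t : ℕ) (K L e r U : ℝ), 1 ≤ t → t ≤ n → 1 ≤ K → 0 ≤ L → 0 < r →
  1 ≤ U → 16 * e ≤ r * U → Va ρ β h n ≤ K → Va ρ β h t ≤ K → Va ρ β h (n - t) ≤ K →
  (∀ g : Vec 2, A ρ β h t + inner ℝ v (g - h) ≤ A ρ β g t) →
  (∀ (j : Fin 2) (s : ℝ), (s = 1 ∨ s = -1) → Fn ρ β (h + (s * r) • ej j) t ≤ L) →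
  (∀ j : Fin 2, A ρ β (h + r • ej j) t + A ρ β (h - r • ej j) t - 2 * A ρ β h t ≤ e) →
  ∫ η, (1 - ∑ y ∈ (boxF 2 t).filter (fun y => ∀ j, |(emb y - v) j| < U),
    Qt β h n t y η) ∂(law 2 ρ) ≤
    100 * (L + Real.sqrt K) / (r * U) + 4 * Real.exp (-(r * U / 4)) +
      10 * (3 * Real.log (t + 1) + 5) * Real.sqrt (K * St ρ β h n t) / r

/-- VSHA: the tilts where the fluctuation is small but not at a neighbour are rare. -/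
def VshA : Prop := ∀ (t : ℕ) (r κ₀ D₀ L b : ℝ) (j : Fin 2) (s : ℝ), 0 < r → r ≤ 1 → 0 ≤ κ₀ → 0 ≤ D₀ →
  κ₀ < L → 0 ≤ b → (s = 1 ∨ s = -1) →
  volume {h : Vec 2 | ‖h‖ ≤ b ∧ Fn ρ β h t ≤ κ₀ ∧
    A ρ β (h + r • ej j) t + A ρ β (h - r • ej j) t - 2 * A ρ β h t ≤ D₀ ∧
    L < Fn ρ β (h + (s * r) • ej j) t} ≤
    ENNReal.ofReal ((4 * κ₀ + 4 * D₀) / (L - κ₀)) * volume (Metric.closedBall (0 : Vec 2) (b + 2))

/-- BUDA (`d = 2`): the budget at one tilt and one length, from the small fluctuation at the neighbours for most of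
the times. -/
def BudA : Prop := ∃ c₁ C : ℝ, 0 < c₁ ∧ 0 ≤ C ∧ ∀ (h : Vec 2) (M δ c : ℝ), 0 ≤ M → 0 < δ → 0 < c → c ≤ c₁ →
  (∀ r : ℝ, 0 < r → r ≤ δ → ∀ j : Fin 2,
    lam ρ β (h + r • ej j) + lam ρ β (h - r • ej j) - 2 * lam ρ β h ≤ M * r ^ 2) →
  ∃ n₀ : ℕ, ∀ n : ℕ, n₀ ≤ n → (∀ k : ℕ, k ≤ n → Va ρ β h k ≤ (n : ℝ) ^ c ∧ En ρ β h k ≤ (n : ℝ) ^ c) →
    (∃ T : Finset ℕ, T ⊆ Finset.range n ∧ (((Finset.range n) \ T).card : ℝ) ≤ n / 40 ∧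
      ∀ t ∈ T, ∀ (j : Fin 2) (s : ℝ), (s = 1 ∨ s = -1) →
        Fn ρ β (h + (s * (n : ℝ) ^ (3 * c - 1 / 2)) • ej j) t ≤ (n : ℝ) ^ (9 * c)) →
    Bd ρ β h n (C * c * Real.log n) C

/-- MON: the variance is monotone up to small powers. -/
def MonA : Prop := ∀ (h : Vec d) (ε : ℝ), 0 < ε → ∃ C : ℝ, ∀ k n : ℕ, k ≤ n → 1 ≤ n →
  Va ρ β h k ≤ C * (Va ρ β h n + 1) * (n : ℝ) ^ ε

/-- NR (L): the nonrandom fluctuation is at most the random one up to small powers. -/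
def NrlA : Prop := ∀ (h : Vec d) (ε : ℝ), 0 < ε → ∃ C : ℝ, 0 ≤ C ∧ ∀ (k : ℕ) (Φ : ℝ), 1 ≤ k →
  (∀ n : ℕ, n ≤ k ^ 3 → Va ρ β h n ≤ Φ) → En ρ β h k ≤ C * (1 + Real.sqrt Φ) * (k : ℝ) ^ ε

/-- THEOREM PLA (`d = 2`). -/
def MainPLA : Prop := ∀ᵐ h : Vec 2, VSD ρ β h → ∃ c : ℝ, 0 < c ∧ ∀ᶠ n : ℕ in atTop,
  (n : ℝ) ^ c ≤ Va ρ β h n

/-- ASMA: the assembly. -/
def AsmA : Prop := CorA 2 ρ β → BudA ρ β → VshA ρ β → MonA 2 ρ β → NrlA 2 ρ β → CurvP ρ β → MainPLA ρ β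

end Leaves

end Pool.Agent.W_7d29a1_PL
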