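import Pool.Agent.W_7d29a1_SP.Bas15

/-!
THEOREM PL, the F-jump (helper34): a time at which the random fluctuation is comparable with the
current level is followed by a jump of `i + 1` levels within `C ^ (i + 1)` times the time. No
variance, no comparison of mean and median.
-/

namespace Pool.Agent.W_7d29a1_PL

open MeasureTheory ProbabilityTheory Filter Topology Pool.Agent.W_MP_7d29a1_pr
  Pool.Agent.W_7d29a1_h46 Pool.Agent.W_7d29a1_h46u Pool.Agent.W_7d29a1_D2.B35
  Pool.Agent.W_7d29a1_Q29 Pool.Agent.W_7d29a1_R34 Pool.Agent.W_7d29a1_SP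

/-- Dyadic pigeonhole for the positive part. -/
lemma pig34 {Ω : Type*} [MeasurableSpace Ω] {μ : Measure Ω} [IsProbabilityMeasure μ] {Y : Ω → ℝ}
    (hY : Measurable Y) {F : ℝ} (hF : 0 < F) (h : F / 2 ≤ ∫ w, max (Y w) 0 ∂μ) :
    ∃ i : ℕ, (1 / 4 : ℝ) ^ i ≤ μ.real {w | 2 ^ i * (F / 8) < Y w} := by
  by_contra hno
  push Not at hno
  set S : ℕ → Set Ω := fun i => {w | 2 ^ i * (F / 8) < Y w} with hS
  have hSm : ∀ i, MeasurableSet (S i) := fun i => measurableSet_lt measurable_const hY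
  have hF8 : 0 < F / 8 := by linarith
  -- the pointwise bound
  have hpt : ∀ w, ENNReal.ofReal (max (Y w) 0) ≤ ENNReal.ofReal (F / 8) +
      ∑' i, (S i).indicator (fun _ => ENNReal.ofReal (2 ^ i * (F / 8))) w := by
    intro w
    have hex : ∃ m : ℕ, Y w ≤ 2 ^ m * (F / 8) := by
      obtain ⟨m, hm⟩ := pow_unbounded_of_one_lt (Y w / (F / 8)) (one_lt_two (α := ℝ))
      refine ⟨m, ?_⟩
      rw [div_lt_iff₀ hF8] at hm
      exact hm.le
    classical
    set m := Nat.find hex with hm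
    have hm1 : Y w ≤ 2 ^ m * (F / 8) := Nat.find_spec hex
    have hm2 : ∀ i, i < m → 2 ^ i * (F / 8) < Y w := fun i hi => by
      have := Nat.find_min hex hi
      exact not_le.mp this
    have e1 : ∑ i ∈ Finset.range m, (2 : ℝ) ^ i * (F / 8) = (2 ^ m - 1) * (F / 8) := by
      rw [← Finset.sum_mul, geom_sum_eq (by norm_num)]
      norm_num
    have e2 : ENNReal.ofReal (∑ i ∈ Finset.range m, (2 : ℝ) ^ i * (F / 8)) =
        ∑ i ∈ Finset.range m, (S i).indicator
          (fun _ => ENNReal.ofReal (2 ^ i * (F / 8))) w := by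
      rw [ENNReal.ofReal_sum_of_nonneg (fun i _ => by positivity)]
      refine Finset.sum_congr rfl fun i hi => ?_
      rw [Set.indicator_of_mem (show w ∈ S i from hm2 i (Finset.mem_range.mp hi))]
    calc ENNReal.ofReal (max (Y w) 0)
        ≤ ENNReal.ofReal (F / 8 + ∑ i ∈ Finset.range m, (2 : ℝ) ^ i * (F / 8)) := by
          apply ENNReal.ofReal_le_ofReal
          rw [e1]
          have : (0 : ℝ) ≤ 2 ^ m * (F / 8) := by positivity
          refine max_le ?_ ?_ <;> linarith
      _ = ENNReal.ofReal (F / 8) + ∑ i ∈ Finset.range m, (S i).indicator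
          (fun _ => ENNReal.ofReal (2 ^ i * (F / 8))) w := by
          rw [ENNReal.ofReal_add hF8.le (Finset.sum_nonneg fun i _ => by positivity), e2]
      _ ≤ _ := by
          gcongr
          exact ENNReal.sum_le_tsum _
  -- the integral
  have hint : ∫⁻ w, ENNReal.ofReal (max (Y w) 0) ∂μ ≤ ENNReal.ofReal (3 * F / 8) := by
    calc ∫⁻ w, ENNReal.ofReal (max (Y w) 0) ∂μ
        ≤ ∫⁻ w, (ENNReal.ofReal (F / 8) +
          ∑' i, (S i).indicator (fun _ => ENNReal.ofReal (2 ^ i * (F / 8))) w) ∂μ :=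
          lintegral_mono hpt
      _ = ENNReal.ofReal (F / 8) + ∑' i, ENNReal.ofReal (2 ^ i * (F / 8)) * μ (S i) := by
          rw [lintegral_add_left measurable_const, lintegral_const, measure_univ, mul_one,
            lintegral_tsum fun i => (measurable_const.indicator (hSm i)).aemeasurable]
          congr 1
          refine tsum_congr fun i => ?_
          rw [lintegral_indicator_const (hSm i)]
      _ ≤ ENNReal.ofReal (F / 8) + ∑' i : ℕ, ENNReal.ofReal ((1 / 2) ^ i * (F / 8)) := by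
          gcongr with i
          have h2 : μ (S i) ≤ ENNReal.ofReal ((1 / 4) ^ i) := by
            rw [← ofReal_measureReal (measure_ne_top μ (S i))]
            exact ENNReal.ofReal_le_ofReal (hno i).le
          calc ENNReal.ofReal (2 ^ i * (F / 8)) * μ (S i)
              ≤ ENNReal.ofReal (2 ^ i * (F / 8)) * ENNReal.ofReal ((1 / 4) ^ i) := by gcongr
            _ = ENNReal.ofReal ((1 / 2) ^ i * (F / 8)) := by
                rw [← ENNReal.ofReal_mul (by positivity)]
                congr 1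
                have : (1 / 2 : ℝ) ^ i = 2 ^ i * (1 / 4) ^ i := by
                  rw [← mul_pow]
                  norm_num
                rw [this]
                ring
      _ = ENNReal.ofReal (3 * F / 8) := by
          rw [← ENNReal.ofReal_tsum_of_nonneg (fun i => by positivity)
            (summable_geometric_two.mul_right _), tsum_mul_right, tsum_geometric_two,
            ← ENNReal.ofReal_add hF8.le (by positivity)]
          congr 1
          ring
  have h2 : ∫ w, max (Y w) 0 ∂μ ≤ 3 * F / 8 := by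
    have hmm : Measurable fun w => max (Y w) 0 := hY.max measurable_const
    rw [integral_eq_lintegral_of_nonneg_ae (f := fun w => max (Y w) 0)
      (Eventually.of_forall fun w => le_max_right _ _) hmm.aestronglyMeasurable]
    exact ENNReal.toReal_le_of_le_ofReal (by linarith) hint
  linarith

/-- Both dyadic tails of a centred variable. -/
lemma pig2_34 {Ω : Type*} [MeasurableSpace Ω] {μ : Measure Ω} [IsProbabilityMeasure μ]
    {Y : Ω → ℝ} (hY : Measurable Y) (h1 : Integrable Y μ) (h0 : ∫ w, Y w ∂μ = 0) {F : ℝ}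
    (hF : 0 < F) (hF1 : ∫ w, |Y w| ∂μ = F) : ∃ i i₁ i₂ : ℕ, i₁ ≤ i ∧ i₂ ≤ i ∧
      (i₁ = i ∨ i₂ = i) ∧ (1 / 4 : ℝ) ^ i ≤ μ.real {w | 2 ^ i₁ * (F / 8) < Y w} ∧
      (1 / 4 : ℝ) ^ i ≤ μ.real {w | Y w ≤ -(2 ^ i₂ * (F / 8))} := by
  have e1 : ∫ w, max (Y w) 0 ∂μ = F / 2 := by
    have e2 : ∀ w, max (Y w) 0 = 1 / 2 * |Y w| + 1 / 2 * Y w := by
      intro w
      rcases le_total 0 (Y w) with h3 | h3
      · rw [max_eq_left h3, abs_of_nonneg h3]
        ring
      · rw [max_eq_right h3, abs_of_nonpos h3]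
        ring
    simp only [e2]
    rw [integral_add (h1.abs.const_mul _) (h1.const_mul _), integral_const_mul,
      integral_const_mul, hF1, h0]
    ring
  have e2 : ∫ w, max (-Y w) 0 ∂μ = F / 2 := by
    have e2 : ∀ w, max (-Y w) 0 = 1 / 2 * |Y w| - 1 / 2 * Y w := by
      intro w
      rcases le_total 0 (Y w) with h3 | h3
      · rw [max_eq_right (by linarith), abs_of_nonneg h3]
        ring
      · rw [max_eq_left (by linarith), abs_of_nonpos h3]
        ring
    simp only [e2]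
    rw [integral_sub (h1.abs.const_mul _) (h1.const_mul _), integral_const_mul,
      integral_const_mul, hF1, h0]
    ring
  obtain ⟨i₁, h2⟩ := pig34 hY hF e1.ge
  obtain ⟨i₂, h3⟩ := pig34 hY.neg hF e2.ge
  have hq : ∀ {a b : ℕ}, a ≤ b → (1 / 4 : ℝ) ^ b ≤ (1 / 4) ^ a := fun hab =>
    pow_le_pow_of_le_one (by norm_num) (by norm_num) hab
  refine ⟨max i₁ i₂, i₁, i₂, le_max_left _ _, le_max_right _ _, ?_, ?_, ?_⟩
  · rcases le_total i₁ i₂ with h4 | h4
    · exact Or.inr (max_eq_right h4).symm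
    · exact Or.inl (max_eq_left h4).symm
  · exact (hq (le_max_left _ _)).trans h2
  · refine (hq (le_max_right _ _)).trans (h3.trans (measureReal_mono ?_ (measure_ne_top _ _)))
    intro w hw
    simp only [Set.mem_ofPred_eq, Pi.neg_apply] at hw ⊢
    linarith

/-- FJ: the jump of the fluctuation at a time with a large random fluctuation. -/
def FJumpP (d : ℕ) (ρ : Measure ℝ) (β : ℝ) : Prop :=
  ∀ c₀ D : ℝ, 0 < c₀ → 1 ≤ D → ∃ C : ℝ, 1 ≤ C ∧ ∀ h : Vec d, Loc1 ρ β h c₀ →
    ∀ k : ℕ, 1 ≤ k → 1 ≤ Fn ρ β h k → ∃ i T : ℕ, k ≤ T ∧ (T : ℝ) ≤ C ^ (i + 1) * k ∧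
      ∃ j : ℕ, j ≤ T ∧ D * 2 ^ i * Fn ρ β h k ≤ max (En ρ β h j) (Fn ρ β h j)

theorem fJump34 {d : ℕ} {ρ : Measure ℝ} [IsProbabilityMeasure ρ] (hd : 0 < d) (hρ : EM ρ)
    {β : ℝ} (hG : GrowP d ρ β) : FJumpP d ρ β := by
  intro c₀ D hc hD
  obtain ⟨C, hC, hgrow⟩ := hG c₀ (16 * D) hc (by linarith)
  have hC0 : 0 < C := by linarith
  set B : ℝ := (4 : ℝ) ^ C with hB
  have hB1 : 1 ≤ B := Real.one_le_rpow (by norm_num) hC0.le
  refine ⟨max (C + 1) B, le_max_of_le_right hB1, fun h hL k hk hF1 => ?_⟩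
  have hF : 0 < Fn ρ β h k := by linarith
  have hm : Measurable fun η => X β h η k - A ρ β h k := (measurable_X β h k).sub_const _
  obtain ⟨i, i₁, i₂, hi1, hi2, hi, hp1, hp2⟩ := pig2_34 (μ := law d ρ) hm
    (intX15 hd hρ β h k) (mean15 hd hρ β h k) hF rfl
  set F := Fn ρ β h k with hFdef
  have hkr : (1 : ℝ) ≤ k := by exact_mod_cast hk
  set T : ℕ := max k ⌈C * k * (1 / (1 / 4 : ℝ) ^ i) ^ C⌉₊ with hT
  have hpw : (1 / (1 / 4 : ℝ) ^ i) ^ C = B ^ i := by
    have e1 : (1 / (1 / 4 : ℝ) ^ i) = (4 : ℝ) ^ i := by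
      rw [one_div, ← inv_pow]
      norm_num
    rw [e1, hB, ← Real.rpow_natCast, ← Real.rpow_mul (by norm_num), mul_comm,
      Real.rpow_mul (by norm_num), Real.rpow_natCast]
  have hBi : 1 ≤ B ^ i := one_le_pow₀ hB1
  refine ⟨i, T, le_max_left _ _, ?_, ?_⟩
  · -- the bound of the time
    have h1 : (T : ℝ) ≤ (C + 1) * k * B ^ i := by
      rw [hT, Nat.cast_max, max_le_iff]
      constructor
      · have : (k : ℝ) * 1 ≤ (C + 1) * k * B ^ i := by
          have h2 : (k : ℝ) ≤ (C + 1) * k := by nlinarith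
          have h3 : 0 ≤ (C + 1) * (k : ℝ) := by positivity
          nlinarith
        linarith
      · have h2 : 0 ≤ C * k * (1 / (1 / 4 : ℝ) ^ i) ^ C := by positivity
        refine (Nat.ceil_lt_add_one h2).le.trans ?_
        rw [hpw]
        have h3 : (1 : ℝ) ≤ k * B ^ i := by nlinarith
        nlinarith
    refine h1.trans ?_
    rw [pow_succ]
    have h4 : B ^ i ≤ (max (C + 1) B) ^ i := pow_le_pow_left₀ (by linarith) (le_max_right _ _) i
    have h5 : C + 1 ≤ max (C + 1) B := le_max_left _ _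
    have h6 : 0 ≤ (max (C + 1) B) := le_trans (by linarith) h5
    calc (C + 1) * k * B ^ i = B ^ i * (C + 1) * k := by ring
      _ ≤ (max (C + 1) B) ^ i * (max (C + 1) B) * k := by gcongr
  · obtain ⟨j, hj, hmax⟩ : ∃ j : ℕ, j ≤ T ∧
        ∀ i : ℕ, i ≤ T → En ρ β h i ≤ max (En ρ β h j) (Fn ρ β h j) ∧
          Fn ρ β h i ≤ max (En ρ β h j) (Fn ρ β h j) := by
      obtain ⟨j, hj, hmax⟩ := Finset.exists_max_image (Finset.range (T + 1))
        (fun i => max (En ρ β h i) (Fn ρ β h i)) ⟨0, by simp⟩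
      refine ⟨j, by simpa [Nat.lt_succ_iff] using hj, fun i hi => ?_⟩
      have := hmax i (by simpa [Nat.lt_succ_iff] using hi)
      exact ⟨(le_max_left _ _).trans this, (le_max_right _ _).trans this⟩
    refine ⟨j, hj, ?_⟩
    have hF8 : 0 < F / 8 := by linarith
    have hg := hgrow h hL k T (A ρ β h k - 2 ^ i₂ * (F / 8)) (A ρ β h k + 2 ^ i₁ * (F / 8))
      ((1 / 4) ^ i) (max (En ρ β h j) (Fn ρ β h j)) hk (by positivity)
      (pow_le_one₀ (by norm_num) (by norm_num)) (by
        have : 0 ≤ (2 : ℝ) ^ i₂ * (F / 8) := by positivity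
        have : 0 ≤ (2 : ℝ) ^ i₁ * (F / 8) := by positivity
        linarith) (by
        have : 0 ≤ (2 : ℝ) ^ i₁ * (F / 8) := by positivity
        linarith)
      (hp2.trans (le_of_eq (by
        congr 1
        ext η
        simp only [Set.mem_ofPred_eq]
        constructor <;> intro h3 <;> linarith)))
      (hp1.trans (le_of_eq (by
        congr 1
        ext η
        simp only [Set.mem_ofPred_eq]
        constructor <;> intro h3 <;> linarith)))
      ((Nat.le_ceil _).trans (by exact_mod_cast le_max_right _ _)) hmax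
    have h7 : (2 : ℝ) ^ i * (F / 8) ≤ 2 ^ i₁ * (F / 8) + 2 ^ i₂ * (F / 8) := by
      rcases hi with h8 | h8
      · rw [h8]
        have : 0 ≤ (2 : ℝ) ^ i₂ * (F / 8) := by positivity
        linarith
      · rw [h8]
        have : 0 ≤ (2 : ℝ) ^ i₁ * (F / 8) := by positivity
        linarith
    have h9 : 16 * D * ((2 : ℝ) ^ i * (F / 8)) ≤ max (En ρ β h j) (Fn ρ β h j) + 1 := by
      refine le_trans ?_ hg
      apply mul_le_mul_of_nonneg_left _ (by linarith)
      linarith
    have h10 : 1 ≤ D * 2 ^ i * F := by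
      have h11 : (1 : ℝ) ≤ 2 ^ i := one_le_pow₀ (by norm_num)
      have h12 : 1 ≤ D * 2 ^ i := by nlinarith
      nlinarith
    have h13 : 16 * D * ((2 : ℝ) ^ i * (F / 8)) = 2 * (D * 2 ^ i * F) := by ring
    linarith

end Pool.Agent.W_7d29a1_PL
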