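import Pool.Agent.W_7d29a1_PL.Unb47

/-!
COR, piece P1 (helper47): a level which is not good is cheap.
-/

set_option autoImplicit false

namespace Pool.Agent.W_7d29a1_PL

open MeasureTheory ProbabilityTheory Filter Topology Pool.Agent.W_MP_7d29a1_pr
  Pool.Agent.W_7d29a1_h46 Pool.Agent.W_7d29a1_h46u Pool.Agent.W_7d29a1_D2.B35
  Pool.Agent.W_7d29a1_Q29 Pool.Agent.W_7d29a1_R34 Pool.Agent.W_7d29a1_SP

/-- A bound of finitely many fluctuations below a power of two. -/
lemma top47 {d : ℕ} (ρ : Measure ℝ) (β : ℝ) (h : Vec d) {T : ℕ} {b : ℝ}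
    (hT : ∀ k : ℕ, k ≤ T → fM ρ β h k < b) :
    ∃ Φ : ℝ, Φ < b ∧ ∀ k : ℕ, k ≤ T → En ρ β h k ≤ Φ ∧ Fn ρ β h k ≤ Φ := by
  classical
  have hne : (Finset.range (T + 1)).Nonempty := ⟨0, Finset.mem_range.2 (Nat.succ_pos T)⟩
  refine ⟨(Finset.range (T + 1)).sup' hne fun k => fM ρ β h k, ?_, fun k hk => ?_⟩
  · rw [Finset.sup'_lt_iff]
    intro k hk
    exact hT k (Nat.lt_succ_iff.1 (Finset.mem_range.1 hk))
  · have h1 := Finset.le_sup' (fun k => fM ρ β h k)
      (Finset.mem_range.2 (Nat.lt_succ_of_le hk))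
    unfold fM at h1
    exact ⟨(le_max_left _ _).trans h1, (le_max_right _ _).trans h1⟩

lemma Fn_zero47 {d : ℕ} (ρ : Measure ℝ) [IsProbabilityMeasure ρ] (β : ℝ) (h : Vec d) :
    Fn ρ β h 0 = 0 := by
  have h1 : ∀ η : Env d, X β h η 0 = 0 := fun η => by
    unfold X
    rw [Z_zero, Real.log_one]
  have h2 : A ρ β h 0 = 0 := by
    unfold A
    simp only [h1, integral_zero]
  unfold Fn
  simp only [h1, h2, sub_zero, abs_zero, integral_zero]

/-- P1: a level which is not good is cheap. -/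
theorem fail47 {d : ℕ} {ρ : Measure ℝ} [IsProbabilityMeasure ρ] {β : ℝ} (hchp : ChpP d ρ β)
    {c₀ ε : ℝ} (hc : 0 < c₀) (hε : 0 < ε) (B Λ₀ : ℕ) :
    ∃ (Λ : ℕ) (C : ℝ), Λ₀ ≤ Λ ∧ 2 ≤ Λ ∧ 1 ≤ C ∧ ∀ h : Vec d, Loc1 ρ β h c₀ →
      ∀ (n : ℕ) (m : ℕ → ℕ) (K : ℝ), (∀ l k : ℕ, k < m l → fM ρ β h k < 2 ^ l) →
        (∀ k : ℕ, k ≤ n → Va ρ β h k ≤ K) → ∀ l : ℕ, 1 ≤ m l →
        C * m l * (1 + K) ^ C ≤ n →
        ((∀ j : ℕ, m (l + j + 1) ≤ n → Λ ^ (j + 1) * m l < m (l + j + 1)) ∧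
          (∀ k : ℕ, k ≤ B * m l → Fn ρ β h k ≤ ε * 2 ^ l)) ∨
        ∃ j : ℕ, m (l + j + 1) ≤ n ∧ m (l + j + 1) ≤ Λ ^ (j + 1) * m l := by
  obtain ⟨C, hC, hch⟩ := hchp c₀ ε hc hε
  obtain ⟨Λ, hΛ⟩ := exists_nat_ge (max (max (Λ₀ : ℝ) 2) (2 * C * (B + 1) * Real.exp C))
  have hΛ0 : (Λ₀ : ℝ) ≤ Λ := (le_max_left _ _).trans ((le_max_left _ _).trans hΛ)
  have hΛ2 : (2 : ℝ) ≤ Λ := (le_max_right _ _).trans ((le_max_left _ _).trans hΛ)
  have hΛC : 2 * C * (B + 1) * Real.exp C ≤ Λ := (le_max_right _ _).trans hΛ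
  have hC0 : 0 ≤ C := zero_le_one.trans hC
  -- the constant
  set C' : ℝ := max (4 * C) (2 * C * (B + 1) * C ^ (2 * C)) with hC'
  have hC'1 : 4 * C ≤ C' := le_max_left _ _
  have hC'2 : 2 * C * (B + 1) * C ^ (2 * C) ≤ C' := le_max_right _ _
  refine ⟨Λ, C', by exact_mod_cast hΛ0, by exact_mod_cast hΛ2, by linarith,
    fun h hloc n m K hlo hK l hl hn => ?_⟩
  by_cases hnc : ∀ j : ℕ, m (l + j + 1) ≤ n → Λ ^ (j + 1) * m l < m (l + j + 1)
  swap
  · push Not at hnc
    obtain ⟨j, h1, h2⟩ := hnc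
    exact Or.inr ⟨j, h1, h2⟩
  by_cases hfs : ∀ k : ℕ, k ≤ B * m l → Fn ρ β h k ≤ ε * 2 ^ l
  · exact Or.inl ⟨hnc, hfs⟩
  refine Or.inr ?_
  push Not at hfs
  obtain ⟨k, hk, hF⟩ := hfs
  have h2l : (1 : ℝ) ≤ 2 ^ l := one_le_pow₀ one_le_two
  have hk1 : 1 ≤ k := by
    rcases Nat.eq_zero_or_pos k with h0 | h0
    · rw [h0, Fn_zero47 ρ β h] at hF
      have : 0 < ε * 2 ^ l := by positivity
      linarith
    · exact h0
  obtain ⟨j, hj, hT⟩ := hch h hloc k (2 ^ l) hk1 h2l hF.le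
  have hkr : (k : ℝ) ≤ B * m l := by exact_mod_cast hk
  have hml : (1 : ℝ) ≤ m l := by exact_mod_cast hl
  have hk1r : (1 : ℝ) ≤ k := by exact_mod_cast hk1
  set T : ℕ := ⌈C * k * Real.exp (C * j)⌉₊ with hTd
  have hTge : C * k * Real.exp (C * j) ≤ T := Nat.le_ceil _
  have hexp1 : 1 ≤ Real.exp (C * j) := Real.one_le_exp (by positivity)
  have hone : 1 ≤ C * k * Real.exp (C * j) := by
    have h1 : 1 ≤ C * k := by nlinarith
    nlinarith
  have hTle : (T : ℝ) ≤ 2 * (C * k * Real.exp (C * j)) := by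
    have h1 : (T : ℝ) < C * k * Real.exp (C * j) + 1 := Nat.ceil_lt_add_one (by positivity)
    linarith
  have hTle2 : (T : ℝ) ≤ 2 * C * (B + 1) * m l * Real.exp (C * j) := by
    refine hTle.trans ?_
    have h1 : C * k ≤ C * ((B + 1) * m l) := by
      refine mul_le_mul_of_nonneg_left ?_ hC0
      have : (0 : ℝ) ≤ m l := by linarith
      linarith
    have h2 := mul_le_mul_of_nonneg_right h1 (Real.exp_pos (C * j)).le
    calc 2 * (C * k * Real.exp (C * j)) ≤ 2 * (C * ((B + 1) * m l) * Real.exp (C * j)) := by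
          linarith
      _ = 2 * C * (B + 1) * m l * Real.exp (C * j) := by ring
  -- the level `l + j + 1` is reached before `T`
  have hmT : m (l + j + 1) ≤ T := by
    by_contra hcon
    rw [not_le] at hcon
    obtain ⟨Φ, hΦ1, hΦ2⟩ := top47 ρ β h (T := T) (b := 2 ^ (l + j + 1)) fun k' hk' =>
      hlo (l + j + 1) k' (lt_of_le_of_lt hk' hcon)
    have h1 := hT T Φ hTge hΦ2
    have h2 : (2 : ℝ) ^ (j + 1) * 2 ^ l = 2 ^ (l + j + 1) := by ring
    rw [h2] at h1
    linarith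
  refine ⟨j, ?_, ?_⟩
  · -- `T ≤ n`
    have hVn : k ≤ n ∨ n < k := le_or_gt k n
    have hK0 : 0 ≤ K := by
      have h1 := hK 0 (Nat.zero_le _)
      have h2 : 0 ≤ Va ρ β h 0 := integral_nonneg fun η => sq_nonneg _
      linarith
    have h1K : 1 ≤ (1 + K) ^ C' := Real.one_le_rpow (by linarith) (by linarith)
    have hkn : k ≤ n := by
      have h1 : (k : ℝ) ≤ n := by
        refine hkr.trans (le_trans ?_ hn)
        have h2 : (B : ℝ) * m l ≤ C' * m l := by
          refine mul_le_mul_of_nonneg_right ?_ (by linarith)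
          refine le_trans ?_ hC'2
          have h3 : 1 ≤ C ^ (2 * C) := Real.one_le_rpow hC (by linarith)
          have h4 : (B : ℝ) ≤ 2 * C * (B + 1) := by
            have : (0 : ℝ) ≤ B := Nat.cast_nonneg B
            nlinarith
          have h5 : 0 ≤ 2 * C * ((B : ℝ) + 1) := by positivity
          nlinarith
        refine h2.trans ?_
        have h3 : 0 ≤ C' * m l := by
          have : 0 ≤ C' := by linarith
          positivity
        nlinarith
      exact_mod_cast h1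
    have hVk := hK k hkn
    have hVk0 : 0 ≤ Va ρ β h k := integral_nonneg fun η => sq_nonneg _
    have hj2 : (2 : ℝ) ^ j ≤ C * (1 + K) ^ 2 := by
      refine hj.trans (mul_le_mul_of_nonneg_left ?_ hC0)
      exact pow_le_pow_left₀ (by linarith) (by linarith) 2
    have hexp : Real.exp (C * j) ≤ C ^ (2 * C) * (1 + K) ^ (4 * C) := by
      have h1 : Real.exp (C * j) ≤ ((2 : ℝ) ^ j) ^ (2 * C) := by
        rw [← Real.rpow_natCast, ← Real.rpow_mul (by norm_num),
          Real.rpow_def_of_pos (by norm_num : (0 : ℝ) < 2)]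
        refine Real.exp_le_exp.2 ?_
        have h2 := Real.log_two_gt_d9
        have h3 : (0 : ℝ) ≤ C * j := by positivity
        nlinarith
      refine h1.trans ((Real.rpow_le_rpow (by positivity) hj2 (by positivity)).trans ?_)
      rw [Real.mul_rpow hC0 (by positivity), ← Real.rpow_natCast, ← Real.rpow_mul (by linarith)]
      refine le_of_eq ?_
      congr 2
      push_cast
      ring
    have hTn : (T : ℝ) ≤ n := by
      refine hTle2.trans (le_trans ?_ hn)
      have h1 : 0 ≤ 2 * C * (B + 1) * (m l : ℝ) := by positivity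
      refine (mul_le_mul_of_nonneg_left hexp h1).trans ?_
      have h2 : (1 + K) ^ (4 * C) ≤ (1 + K) ^ C' :=
        Real.rpow_le_rpow_of_exponent_le (by linarith) hC'1
      have h3 : 2 * C * (B + 1) * (m l : ℝ) * (C ^ (2 * C) * (1 + K) ^ (4 * C)) =
          (2 * C * (B + 1) * C ^ (2 * C)) * m l * (1 + K) ^ (4 * C) := by ring
      rw [h3]
      refine mul_le_mul (mul_le_mul_of_nonneg_right hC'2 (by linarith)) h2 (by positivity) ?_
      have : 0 ≤ C' := by linarith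
      positivity
    have : T ≤ n := by exact_mod_cast hTn
    exact hmT.trans this
  · -- `T ≤ Λ ^ (j + 1) m l`
    have h1 : (T : ℝ) ≤ Λ ^ (j + 1) * m l := by
      refine hTle2.trans ?_
      have h2 : 2 * C * (B + 1) * (m l : ℝ) * Real.exp (C * j) =
          (2 * C * (B + 1) * Real.exp (C * j)) * m l := by ring
      rw [h2]
      refine mul_le_mul_of_nonneg_right ?_ (by linarith)
      have h3 : Real.exp (C * j) = Real.exp C ^ j := by
        rw [← Real.exp_nat_mul]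
        congr 1
        ring
      have h4 : Real.exp C ≤ Λ := by
        refine le_trans ?_ hΛC
        have h5 : 1 ≤ 2 * C * ((B : ℝ) + 1) := by
          have : (0 : ℝ) ≤ B := Nat.cast_nonneg B
          nlinarith
        have h6 := Real.exp_pos C
        nlinarith
      have h5 : 2 * C * ((B : ℝ) + 1) ≤ Λ := by
        refine le_trans ?_ hΛC
        have h6 : 1 ≤ Real.exp C := Real.one_le_exp hC0
        have h7 : 0 ≤ 2 * C * ((B : ℝ) + 1) := by positivity
        nlinarith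
      rw [h3, pow_succ, mul_comm]
      exact mul_le_mul (pow_le_pow_left₀ (Real.exp_pos C).le h4 j) h5 (by positivity)
        (by positivity)
    have h2 : T ≤ Λ ^ (j + 1) * m l := by exact_mod_cast h1
    exact hmT.trans h2

end Pool.Agent.W_7d29a1_PL
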