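import Pool.Agent.W_7d29a1_PL.Plug81b
import Pool.Agent.W_7d29a1_PL.Cost7

/-!
Theorem PL: a power law for the variance in two transversal dimensions (helper81): assembly.
-/

namespace Pool.Agent.W_7d29a1_PL

open MeasureTheory ProbabilityTheory Filter Topology Pool.Agent.W_MP_7d29a1_pr
  Pool.Agent.W_7d29a1_h46 Pool.Agent.W_7d29a1_h46u Pool.Agent.W_7d29a1_D2.B35
  Pool.Agent.W_7d29a1_Q29 Pool.Agent.W_7d29a1_R34 Pool.Agent.W_7d29a1_SP

variable {ρ : Measure ℝ} [IsProbabilityMeasure ρ]

/-- **Theorem PL**, for every law with the amplification. -/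
theorem mainPLA81 (hρ : EM ρ) (hnc : ∀ c : ℝ, ρ {c} ≠ 1) {β : ℝ} (hβ : 0 < β)
    (hA : AmpP 2 ρ β) : MainPL ρ β :=
  plugB81 hρ hnc hβ (grow78 (cnt79 (by norm_num) hρ β) hA)
    (costP7 (by norm_num) hρ (cnt79 (by norm_num) hρ β) hA)

/-- **Theorem PL.** In dimension two, if the law of the environment is the law of a convex function
of a Gaussian, then for almost every tilt of very strong disorder there is `c > 0` such that the
variance of the logarithm of the partition function is infinitely often at least `n ^ c`. -/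
theorem mainPL81 (hG : GC ρ) (hρ : EM ρ) (hnc : ∀ c : ℝ, ρ {c} ≠ 1) {β : ℝ} (hβ : 0 < β) :
    MainPL ρ β :=
  mainPLA81 hρ hnc hβ (amp84 (by norm_num) hG hβ.le)

end Pool.Agent.W_7d29a1_PL
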