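import Pool.Agent.W_7d29a1_PL.TopS32
import Pool.Agent.W_7d29a1_SQ.FinSQ32
import Pool.Agent.W_7d29a1_WP.FinX98

/-!
THEOREM SQ with a power: assembly (helper32).
-/

namespace Pool.Agent.W_7d29a1_PL

open MeasureTheory ProbabilityTheory Filter Topology Pool.Agent.W_MP_7d29a1_pr
  Pool.Agent.W_7d29a1_h46 Pool.Agent.W_7d29a1_h46u Pool.Agent.W_7d29a1_D2.B35
  Pool.Agent.W_7d29a1_Q29 Pool.Agent.W_7d29a1_R34 Pool.Agent.W_7d29a1_SP Pool.Agent.W_7d29a1_SD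
  Pool.Agent.W_7d29a1_SQ Pool.Agent.W_7d29a1_SW Pool.Agent.W_7d29a1_WP

variable {ρ : Measure ℝ} {β : ℝ}

/-- **THEOREM SQ with a power** (`d = 2`, the disorder has the law of a convex function of a
Gaussian variable): almost every velocity, EVERY tilt. -/
theorem mainSP32 [IsProbabilityMeasure ρ] (hG : GC ρ) (hρ : EM ρ) (hnc : ∀ c : ℝ, ρ {c} ≠ 1)
    (hβ : 0 < β) : MainSP ρ β := by
  have hd : 0 < 2 := by norm_num
  have hC : CntP 2 ρ β := cnt79 hd hρ β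
  have hT : TaiP 2 ρ β := tai94 hC
  have hE : EhlP 2 ρ β := ehl84 hd hG hβ.le
  have hP : PriP 2 ρ β := pri74 hd hρ β
  exact topSP32 hρ (balP62 hd hρ hT hE) (amp84 hd hG hβ.le) (sscF35 hd hρ β) hP hC hE
    (flu78 hd hρ hT) seq37 (lkt93 hρ hβ (npt64 hd hρ hnc hβ)) (Csy42.loc42 hd hρ β)
    (pointAll98 hρ hnc hβ)

end Pool.Agent.W_7d29a1_PL
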