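import Pool.Agent.W_7d29a1_NV.Marg77
import Pool.Agent.W_7d29a1_S90.RpT73
import Pool.Agent.W_7d29a1_Q29.Vsd61
import Pool.Agent.W_7d29a1_SP.DefsSP

/-!
Usage of the lucky sites: the Gibbs inequality for the skeleton of the walk.
-/

namespace Pool.Agent.W_7d29a1_PL

open MeasureTheory ProbabilityTheory Filter Topology Pool.Agent.W_MP_7d29a1_pr
  Pool.Agent.W_7d29a1_h46 Pool.Agent.W_7d29a1_h46u Pool.Agent.W_7d29a1_D2.B35
  Pool.Agent.W_7d29a1_Q29 Pool.Agent.W_7d29a1_S90 Pool.Agent.W_7d29a1_NV Pool.Agent.W_7d29a1_SP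

/-- Rising sun, from a bad index. -/
lemma sun_aux63 (f : ℕ → ℝ) (N : ℕ) (g G : ℝ) (B : Finset ℕ) (hB : B ⊆ Finset.range N)
    (hG : 0 ≤ G) (h1 : ∀ k ∈ B, f k ≤ g - G)
    (h2 : ∀ k ∈ B, ∀ H : ℕ, k + H ≤ N → ∑ i ∈ Finset.range H, f (k + i) ≤ g * H) :
    ∀ j k : ℕ, N - k ≤ j → k ≤ N → (k ∈ B ∨ k = N) →
      ∑ i ∈ Finset.Ico k N, f i ≤ g * ((N : ℝ) - k) -
        G * (2 * ((B.filter fun b => k ≤ b).card : ℝ) - ((N : ℝ) - k)) := by
  intro j
  induction j with
  | zero =>
    intro k hk hkN _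
    have hkN' : k = N := by omega
    subst hkN'
    have hc : (B.filter fun b => k ≤ b) = ∅ := by
      refine Finset.filter_eq_empty_iff.2 fun b hb => ?_
      have := Finset.mem_range.1 (hB hb)
      omega
    rw [hc]
    simp
  | succ j ih =>
    intro k hk hkN hkB
    rcases hkB with hkB | hkN'
    · have hkN2 : k < N := Finset.mem_range.1 (hB hkB)
      obtain ⟨k', hk1, hk2, hk3, hk4⟩ : ∃ k' : ℕ, k < k' ∧ k' ≤ N ∧ (k' ∈ B ∨ k' = N) ∧
          ∀ b ∈ B, k < b → k' ≤ b := by
        by_cases hne : (B.filter fun b => k < b).Nonempty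
        · refine ⟨(B.filter fun b => k < b).min' hne, ?_, ?_, ?_, ?_⟩
          · exact (Finset.mem_filter.1 (Finset.min'_mem _ hne)).2
          · exact (Finset.mem_range.1 (hB (Finset.mem_filter.1 (Finset.min'_mem _ hne)).1)).le
          · exact Or.inl (Finset.mem_filter.1 (Finset.min'_mem _ hne)).1
          · intro b hb hkb
            exact Finset.min'_le _ _ (Finset.mem_filter.2 ⟨hb, hkb⟩)
        · refine ⟨N, hkN2, le_rfl, Or.inr rfl, fun b hb hkb => ?_⟩
          exact absurd ⟨b, Finset.mem_filter.2 ⟨hb, hkb⟩⟩ hne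
      have hih := ih k' (by omega) hk2 hk3
      have hsplit : ∑ i ∈ Finset.Ico k N, f i =
          (∑ i ∈ Finset.Ico k k', f i) + ∑ i ∈ Finset.Ico k' N, f i :=
        (Finset.sum_Ico_consecutive f hk1.le hk2).symm
      have hcard : (B.filter fun b => k ≤ b) = insert k (B.filter fun b => k' ≤ b) := by
        ext b
        simp only [Finset.mem_filter, Finset.mem_insert]
        constructor
        · rintro ⟨hb, hkb⟩
          rcases hkb.eq_or_lt with h3 | h3
          · exact Or.inl h3.symm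
          · exact Or.inr ⟨hb, hk4 b hb h3⟩
        · rintro (h3 | ⟨hb, h3⟩)
          · exact ⟨h3 ▸ hkB, h3 ▸ le_rfl⟩
          · exact ⟨hb, by omega⟩
      have hcard' : ((B.filter fun b => k ≤ b).card : ℝ) =
          ((B.filter fun b => k' ≤ b).card : ℝ) + 1 := by
        rw [hcard, Finset.card_insert_of_notMem]
        · push_cast
          ring
        · intro h3
          have := (Finset.mem_filter.1 h3).2
          omega
      rw [hsplit, hcard']
      have hblock : ∑ i ∈ Finset.Ico k k', f i ≤ g * ((k' : ℝ) - k) -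
          G * (2 - ((k' : ℝ) - k)) := by
        rcases Nat.lt_or_ge (k + 1) k' with h3 | h3
        · have h4 : ∑ i ∈ Finset.Ico k k', f i = ∑ i ∈ Finset.range (k' - k), f (k + i) := by
            rw [Finset.sum_Ico_eq_sum_range]
          rw [h4]
          refine (h2 k hkB (k' - k) (by omega)).trans ?_
          rw [Nat.cast_sub hk1.le]
          have h5 : (k : ℝ) + 2 ≤ k' := by exact_mod_cast h3
          nlinarith
        · have h4 : k' = k + 1 := by omega
          subst h4
          rw [Nat.Ico_succ_singleton, Finset.sum_singleton]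
          push_cast
          have h5 := h1 k hkB
          linarith
      linarith
    · subst hkN'
      exact ih k (by omega) le_rfl (Or.inr rfl)

/-- **Rising sun.** -/
theorem sun63 (f : ℕ → ℝ) (N : ℕ) (g G M : ℝ) (B : Finset ℕ) (hB : B ⊆ Finset.range N)
    (hG : 0 ≤ G) (h1 : ∀ k ∈ B, f k ≤ g - G)
    (h2 : ∀ k ∈ B, ∀ H : ℕ, k + H ≤ N → ∑ i ∈ Finset.range H, f (k + i) ≤ g * H)
    (h0 : ∀ H : ℕ, H ≤ N → ∑ i ∈ Finset.range H, f i ≤ g * H + M) :
    ∑ k ∈ Finset.range N, f k ≤ g * N + M - G * (2 * (B.card : ℝ) - N) := by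
  by_cases hne : B.Nonempty
  · set k := B.min' hne with hk
    have hkB : k ∈ B := Finset.min'_mem _ hne
    have hkN : k < N := Finset.mem_range.1 (hB hkB)
    have h3 := sun_aux63 f N g G B hB hG h1 h2 (N - k) k le_rfl hkN.le (Or.inl hkB)
    have h4 : (B.filter fun b => k ≤ b) = B :=
      Finset.filter_true_of_mem fun b hb => Finset.min'_le _ _ hb
    rw [h4] at h3
    have h5 : ∑ i ∈ Finset.range N, f i =
        (∑ i ∈ Finset.range k, f i) + ∑ i ∈ Finset.Ico k N, f i := by
      simp only [Finset.range_eq_Ico]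
      exact (Finset.sum_Ico_consecutive f (Nat.zero_le k) hkN.le).symm
    rw [h5]
    have h6 := h0 k hkN.le
    have h7 : (0 : ℝ) ≤ G * k := by positivity
    linarith
  · rw [Finset.not_nonempty_iff_eq_empty] at hne
    subst hne
    have h6 := h0 N le_rfl
    have h7 : (0 : ℝ) ≤ G * N := by positivity
    simp only [Finset.card_empty, Nat.cast_zero]
    linarith

/-- The Gibbs inequality. -/
lemma gibbs63 {α γ : Type*} [Fintype α] [DecidableEq γ] (q : α → ℝ) (hq : ∀ a, 0 < q a)
    (φ : α → γ) (T : Finset γ) (hT : ∀ a, φ a ∈ T) {L : ℝ} (hL : 0 < L) (hc : (T.card : ℝ) ≤ L)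
    (hsum : ∑ a, q a = 1) :
    -Real.log L ≤ ∑ a, q a * Real.log (∑ a', if φ a' = φ a then q a' else 0) := by
  set Q : γ → ℝ := fun σ => ∑ a', if φ a' = σ then q a' else 0 with hQ
  have hQ0 : ∀ σ, 0 ≤ Q σ := fun σ => Finset.sum_nonneg fun a _ => by
    split_ifs
    · exact (hq a).le
    · exact le_rfl
  have hQpos : ∀ a, 0 < Q (φ a) := by
    intro a
    refine Finset.sum_pos' (fun a' _ => by
      split_ifs
      · exact (hq a').le
      · exact le_rfl) ⟨a, Finset.mem_univ a, by rw [if_pos rfl]; exact hq a⟩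
  have h1 : ∀ a, q a * (1 - 1 / (L * Q (φ a))) ≤ q a * (Real.log L + Real.log (Q (φ a))) := by
    intro a
    refine mul_le_mul_of_nonneg_left ?_ (hq a).le
    have h2 : 0 < L * Q (φ a) := mul_pos hL (hQpos a)
    have h3 := Real.one_sub_inv_le_log_of_pos h2
    rw [Real.log_mul hL.ne' (hQpos a).ne'] at h3
    rwa [one_div]
  have h4 := Finset.sum_le_sum fun a (_ : a ∈ Finset.univ) => h1 a
  have h5 : ∑ a, q a * (1 / (L * Q (φ a))) ≤ 1 := by
    have e1 : ∑ a, q a * (1 / (L * Q (φ a))) =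
        ∑ σ ∈ T, (∑ a, if φ a = σ then q a else 0) * (1 / (L * Q σ)) := by
      have e2 : ∀ σ ∈ T, (∑ a, if φ a = σ then q a else 0) * (1 / (L * Q σ)) =
          ∑ a, if φ a = σ then q a * (1 / (L * Q (φ a))) else 0 := by
        intro σ _
        rw [Finset.sum_mul]
        refine Finset.sum_congr rfl fun a _ => ?_
        by_cases h6 : φ a = σ
        · rw [if_pos h6, if_pos h6, h6]
        · rw [if_neg h6, if_neg h6, zero_mul]
      rw [Finset.sum_congr rfl e2, Finset.sum_comm]
      refine Finset.sum_congr rfl fun a _ => ?_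
      rw [Finset.sum_ite_eq, if_pos (hT a)]
    rw [e1]
    have e3 : ∀ σ ∈ T, (∑ a, if φ a = σ then q a else 0) * (1 / (L * Q σ)) ≤ 1 / L := by
      intro σ _
      show Q σ * (1 / (L * Q σ)) ≤ 1 / L
      rcases (hQ0 σ).eq_or_lt with h6 | h6
      · rw [← h6, zero_mul]
        positivity
      · refine le_of_eq ?_
        field_simp
    refine (Finset.sum_le_sum e3).trans ?_
    rw [Finset.sum_const, nsmul_eq_mul]
    rw [mul_one_div, div_le_one hL]
    exact hc
  have h6 : ∑ a, q a * (1 - 1 / (L * Q (φ a))) = 1 - ∑ a, q a * (1 / (L * Q (φ a))) := by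
    calc ∑ a, q a * (1 - 1 / (L * Q (φ a))) =
        ∑ a, (q a - q a * (1 / (L * Q (φ a)))) := Finset.sum_congr rfl fun a _ => by ring
      _ = _ := by rw [Finset.sum_sub_distrib, hsum]
  have h7 : ∑ a, q a * (Real.log L + Real.log (Q (φ a))) =
      Real.log L + ∑ a, q a * Real.log (Q (φ a)) := by
    simp only [mul_add]
    rw [Finset.sum_add_distrib, ← Finset.sum_mul, hsum, one_mul]
  rw [h6, h7] at h4
  show -Real.log L ≤ ∑ a, q a * Real.log (Q (φ a))
  linarith

end Pool.Agent.W_7d29a1_PL
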