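import Mathlib

/-!
Doubling at a small power of the logarithm gives every power of the logarithm (helper15).
-/

namespace Pool.Agent.W_7d29a1_PL

open Filter Topology

/-- If `f` doubles from `n` to some `T` with `log T ≤ (1 + η) log n`, `η M ≤ 1 / 4`, then `f` is
at least `(log n) ^ M` for all large `n`. -/
theorem iterM15 {f : ℕ → ℝ} (hf : Monotone f) {η M : ℝ} (hη : 0 < η) (hη1 : η ≤ 1) (hM : 0 < M)
    (hηM : η * M ≤ 1 / 4) {n₀ : ℕ} (h1 : ∀ n : ℕ, n₀ ≤ n → 1 ≤ f n)
    (hs : ∀ n : ℕ, n₀ ≤ n → ∃ T : ℕ, n ≤ T ∧ 2 * f n ≤ f T ∧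
      Real.log T ≤ (1 + η) * Real.log n) :
    ∃ n₁ : ℕ, ∀ n : ℕ, n₁ ≤ n → Real.log n ^ M ≤ f n := by
  choose! τ hτ1 hτ2 hτ3 using hs
  obtain ⟨m₀, hm₀⟩ : ∃ m₀, m₀ = max n₀ 3 := ⟨_, rfl⟩
  obtain ⟨s, hs0, hss⟩ : ∃ s : ℕ → ℕ, s 0 = m₀ ∧ ∀ k, s (k + 1) = τ (s k) :=
    ⟨fun k => Nat.rec m₀ (fun _ x => τ x) k, rfl, fun k => rfl⟩
  have hsn : ∀ k, m₀ ≤ s k := by
    intro k
    induction k with
    | zero => rw [hs0]
    | succ k ih =>
      rw [hss]
      exact ih.trans (hτ1 _ (by omega))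
  have hs1 : ∀ k, s k < s (k + 1) := by
    intro k
    have h2 := hτ1 (s k) (by have := hsn k; omega)
    have h3 := hτ2 (s k) (by have := hsn k; omega)
    rcases Nat.lt_or_ge (s k) (s (k + 1)) with h4 | h4
    · exact h4
    · have h5 : τ (s k) = s k := by
        rw [hss] at h4
        omega
      rw [h5] at h3
      have := h1 (s k) (by have := hsn k; omega)
      linarith
  have hsk : ∀ k, k ≤ s k := by
    intro k
    induction k with
    | zero => exact Nat.zero_le _
    | succ k ih => exact (Nat.succ_le_of_lt (lt_of_le_of_lt ih (hs1 k)))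
  have hlog : ∀ k, 1 ≤ Real.log (s k) := by
    intro k
    have h2 : (3 : ℝ) ≤ s k := by
      have := hsn k
      have h3 : 3 ≤ s k := by omega
      exact_mod_cast h3
    rw [Real.le_log_iff_exp_le (by linarith)]
    have := Real.exp_one_lt_d9
    linarith
  -- the growth along the sequence
  obtain ⟨g, hg⟩ : ∃ g, g = f (s 0) / Real.log (s 0) ^ M := ⟨_, rfl⟩
  have hg0 : 0 < g := by
    rw [hg]
    have h2 := h1 (s 0) (by have := hsn 0; omega)
    have h3 := hlog 0
    positivity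
  have hq : (1 + η) ^ M ≤ 4 / 3 := by
    have h2 : (1 + η) ^ M ≤ Real.exp η ^ M :=
      Real.rpow_le_rpow (by linarith) (by have := Real.add_one_le_exp η; linarith) hM.le
    rw [← Real.exp_mul] at h2
    have h3 : Real.exp (η * M) ≤ Real.exp (1 / 4) := Real.exp_le_exp.2 hηM
    have h4 : Real.exp (1 / 4 : ℝ) ≤ 4 / 3 := by
      have h5 := Real.add_one_le_exp (-(1 / 4) : ℝ)
      rw [Real.exp_neg] at h5
      have h6 : (3 / 4 : ℝ) ≤ (Real.exp (1 / 4))⁻¹ := by linarith
      have h7 := Real.exp_pos (1 / 4 : ℝ)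
      rw [le_inv_comm₀ (by norm_num) h7] at h6
      linarith
    linarith
  have hk : ∀ k, (3 / 2 : ℝ) ^ k * g * Real.log (s k) ^ M ≤ f (s k) := by
    intro k
    induction k with
    | zero =>
      rw [pow_zero, one_mul, hg]
      have h3 : 0 < Real.log (s 0) ^ M := by
        have := hlog 0
        positivity
      rw [div_mul_cancel₀ _ h3.ne']
    | succ k ih =>
      have h2 := hτ2 (s k) (by have := hsn k; omega)
      have h3 := hτ3 (s k) (by have := hsn k; omega)
      rw [← hss] at h2 h3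
      have h4 := hlog k
      have h5 := hlog (k + 1)
      have h6 : Real.log (s (k + 1)) ^ M ≤ (1 + η) ^ M * Real.log (s k) ^ M := by
        rw [← Real.mul_rpow (by linarith) (by linarith)]
        exact Real.rpow_le_rpow (by linarith) h3 hM.le
      have h7 : 0 < Real.log (s k) ^ M := by positivity
      have h8 : (1 + η) ^ M * Real.log (s k) ^ M ≤ 4 / 3 * Real.log (s k) ^ M :=
        mul_le_mul_of_nonneg_right hq h7.le
      have h9 : 0 ≤ (3 / 2 : ℝ) ^ (k + 1) * g := by positivity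
      calc (3 / 2 : ℝ) ^ (k + 1) * g * Real.log (s (k + 1)) ^ M
          ≤ (3 / 2 : ℝ) ^ (k + 1) * g * (4 / 3 * Real.log (s k) ^ M) :=
            mul_le_mul_of_nonneg_left (h6.trans h8) h9
        _ = 2 * ((3 / 2 : ℝ) ^ k * g * Real.log (s k) ^ M) := by
            rw [pow_succ]
            ring
        _ ≤ 2 * f (s k) := mul_le_mul_of_nonneg_left ih (by norm_num)
        _ ≤ f (s (k + 1)) := h2
  -- the number of steps
  obtain ⟨k₀, hk₀⟩ := pow_unbounded_of_one_lt (2 ^ M / g) (show (1 : ℝ) < 3 / 2 by norm_num)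
  refine ⟨s k₀, fun n hn => ?_⟩
  -- the last term below `n`
  obtain ⟨k, hk1, hk2⟩ : ∃ k, s k ≤ n ∧ n < s (k + 1) := by
    have hex : ∃ k, n < s (k + 1) := ⟨n, lt_of_le_of_lt (hsk n) (hs1 n)⟩
    classical
    refine ⟨Nat.find hex, ?_, Nat.find_spec hex⟩
    rcases Nat.eq_zero_or_pos (Nat.find hex) with h2 | h2
    · rw [h2]
      exact (strictMono_nat_of_lt_succ hs1).monotone (Nat.zero_le k₀) |>.trans hn
    · have h3 := Nat.find_min hex (m := Nat.find hex - 1) (by omega)
      rw [not_lt, Nat.sub_add_cancel h2] at h3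
      exact h3
  have hkk : k₀ ≤ k := by
    by_contra hcon
    have h2 : k + 1 ≤ k₀ := by omega
    have h3 := (strictMono_nat_of_lt_succ hs1).monotone h2
    omega
  have h2 := hτ3 (s k) (by have := hsn k; omega)
  rw [← hss] at h2
  have h3 : Real.log n ≤ 2 * Real.log (s k) := by
    have h4 : Real.log n ≤ Real.log (s (k + 1)) := by
      refine Real.log_le_log ?_ (by exact_mod_cast hk2.le)
      have h5 := hsn k
      have h6 : 0 < n := by omega
      exact_mod_cast h6
    have h5 := hlog k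
    have h6 : (1 + η) * Real.log (s k) ≤ 2 * Real.log (s k) :=
      mul_le_mul_of_nonneg_right (by linarith) (by linarith)
    linarith
  have h4 : Real.log n ^ M ≤ 2 ^ M * Real.log (s k) ^ M := by
    rw [← Real.mul_rpow (by norm_num) (by linarith [hlog k])]
    exact Real.rpow_le_rpow (Real.log_natCast_nonneg n) h3 hM.le
  have h5 : 2 ^ M ≤ (3 / 2 : ℝ) ^ k * g := by
    rw [div_lt_iff₀ hg0] at hk₀
    have h6 : (3 / 2 : ℝ) ^ k₀ ≤ (3 / 2 : ℝ) ^ k := pow_le_pow_right₀ (by norm_num) hkk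
    have h7 := mul_le_mul_of_nonneg_right h6 hg0.le
    linarith
  have h6 : 0 ≤ Real.log (s k) ^ M := by
    have := hlog k
    positivity
  calc Real.log n ^ M ≤ 2 ^ M * Real.log (s k) ^ M := h4
    _ ≤ (3 / 2 : ℝ) ^ k * g * Real.log (s k) ^ M := mul_le_mul_of_nonneg_right h5 h6
    _ ≤ f (s k) := hk k
    _ ≤ f n := hf hk1

end Pool.Agent.W_7d29a1_PL
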