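import Pool.Agent.W_7d29a1_PL.BetaK15
import Pool.Agent.W_7d29a1_PL.IterM15
import Pool.Agent.W_7d29a1_SP.Point15

/-!
A variance of small power order makes the fluctuations larger than every power of the logarithm
(helper15).
-/

namespace Pool.Agent.W_7d29a1_PL

open MeasureTheory ProbabilityTheory Filter Topology Pool.Agent.W_MP_7d29a1_pr
  Pool.Agent.W_7d29a1_h46 Pool.Agent.W_7d29a1_h46u Pool.Agent.W_7d29a1_D2.B35
  Pool.Agent.W_7d29a1_Q29 Pool.Agent.W_7d29a1_R34 Pool.Agent.W_7d29a1_SP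

/-- The power bound. -/
noncomputable def kq15 (Q ε : ℝ) (t : ℕ) : ℝ := Q * ((t : ℝ) + 1) ^ ε

lemma kq_mono15 {Q ε : ℝ} (hQ : 1 ≤ Q) (hε : 0 < ε) : Monotone (kq15 Q ε) := by
  intro s t hst
  unfold kq15
  have h1 : (s : ℝ) ≤ t := by exact_mod_cast hst
  have h0 : (0 : ℝ) ≤ s := Nat.cast_nonneg s
  exact mul_le_mul_of_nonneg_left (Real.rpow_le_rpow (by linarith) (by linarith) hε.le)
    (by linarith)

lemma one_le_kq15 {Q ε : ℝ} (hQ : 1 ≤ Q) (hε : 0 < ε) (t : ℕ) : 1 ≤ kq15 Q ε t := by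
  unfold kq15
  have h0 : (0 : ℝ) ≤ t := Nat.cast_nonneg t
  exact one_le_mul_of_one_le_of_one_le hQ (Real.one_le_rpow (by linarith) hε.le)

lemma log_kq15 {Q ε : ℝ} (hQ : 1 ≤ Q) (t : ℕ) :
    Real.log (kq15 Q ε t) = Real.log Q + ε * Real.log ((t : ℝ) + 1) := by
  unfold kq15
  have h0 : (0 : ℝ) ≤ t := Nat.cast_nonneg t
  have h1 : (0 : ℝ) < ((t : ℝ) + 1) ^ ε := Real.rpow_pos_of_pos (by linarith) _
  rw [Real.log_mul (by linarith) h1.ne', Real.log_rpow (by linarith)]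

/-- The numbers of BETA. -/
lemma numB15 {Q ε : ℝ} (hQ : 1 ≤ Q) (hε : 0 < ε) (hε1 : ε ≤ 1 / 80) :
    ∃ e₀ : ℝ, ∀ (n N : ℕ) (e : ℝ), 1 ≤ n → 1 ≤ N → e₀ ≤ e →
      ((n : ℝ) + 1) ^ (10 * ε) ≤ 2 * e → (N : ℝ) ≤ n * (2 * e) ^ 2 → kq15 Q ε (2 * N) ^ 4 ≤ e := by
  refine ⟨max 1 ((24 * Q ^ 4) ^ 2), fun n N e hn hN he hY hNe => ?_⟩
  have he1 : 1 ≤ e := (le_max_left _ _).trans he
  have he2 : (24 * Q ^ 4) ^ 2 ≤ e := (le_max_right _ _).trans he
  have he0 : 0 < e := by linarith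
  have hn1 : (1 : ℝ) ≤ n := by exact_mod_cast hn
  have hN1 : (1 : ℝ) ≤ N := by exact_mod_cast hN
  have h1 : ((2 * N : ℕ) : ℝ) + 1 ≤ 12 * (((n : ℝ) + 1) * e ^ 2) := by
    push_cast
    have h2 : 0 ≤ e ^ 2 := sq_nonneg e
    have h3 : (n : ℝ) * (2 * e) ^ 2 = 4 * (n * e ^ 2) := by ring
    have h4 : ((n : ℝ) + 1) * e ^ 2 = n * e ^ 2 + e ^ 2 := by ring
    rw [h3] at hNe
    rw [h4]
    linarith
  have h2 : kq15 Q ε (2 * N) ^ 4 = Q ^ 4 * (((2 * N : ℕ) : ℝ) + 1) ^ (4 * ε) := by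
    unfold kq15
    rw [mul_pow, ← Real.rpow_natCast ((((2 * N : ℕ) : ℝ) + 1) ^ ε) 4, ← Real.rpow_mul (by positivity)]
    congr 2
    push_cast
    ring
  have h3 : (((2 * N : ℕ) : ℝ) + 1) ^ (4 * ε) ≤ 12 * (2 * e ^ (1 / 2 : ℝ)) := by
    have h4 : (((2 * N : ℕ) : ℝ) + 1) ^ (4 * ε) ≤ (12 * (((n : ℝ) + 1) * e ^ 2)) ^ (4 * ε) :=
      Real.rpow_le_rpow (by positivity) h1 (by positivity)
    rw [Real.mul_rpow (by norm_num) (by positivity), Real.mul_rpow (by positivity) (by positivity)]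
      at h4
    have h5 : (12 : ℝ) ^ (4 * ε) ≤ 12 := by
      have := Real.rpow_le_rpow_of_exponent_le (show (1 : ℝ) ≤ 12 by norm_num)
        (show 4 * ε ≤ 1 by linarith)
      rwa [Real.rpow_one] at this
    have h6 : ((n : ℝ) + 1) ^ (4 * ε) ≤ 2 * e ^ (2 / 5 : ℝ) := by
      have h7 : ((n : ℝ) + 1) ^ (4 * ε) = (((n : ℝ) + 1) ^ (10 * ε)) ^ (2 / 5 : ℝ) := by
        rw [← Real.rpow_mul (by positivity)]
        congr 1
        ring
      rw [h7]
      have h8 : (((n : ℝ) + 1) ^ (10 * ε)) ^ (2 / 5 : ℝ) ≤ (2 * e) ^ (2 / 5 : ℝ) :=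
        Real.rpow_le_rpow (by positivity) hY (by norm_num)
      rw [Real.mul_rpow (by norm_num) he0.le] at h8
      refine h8.trans (mul_le_mul_of_nonneg_right ?_ (by positivity))
      have := Real.rpow_le_rpow_of_exponent_le (show (1 : ℝ) ≤ 2 by norm_num)
        (show (2 / 5 : ℝ) ≤ 1 by norm_num)
      rwa [Real.rpow_one] at this
    have h9 : (e ^ 2) ^ (4 * ε) ≤ e ^ (1 / 10 : ℝ) := by
      rw [← Real.rpow_natCast e 2, ← Real.rpow_mul he0.le]
      refine Real.rpow_le_rpow_of_exponent_le he1 ?_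
      push_cast
      linarith
    have h10 : e ^ (1 / 2 : ℝ) = e ^ (2 / 5 : ℝ) * e ^ (1 / 10 : ℝ) := by
      rw [← Real.rpow_add he0]
      norm_num
    rw [h10]
    refine h4.trans (mul_le_mul h5 ?_ (by positivity) (by norm_num))
    have h11 := mul_le_mul h6 h9 (by positivity) (show (0 : ℝ) ≤ 2 * e ^ (2 / 5 : ℝ) by positivity)
    linarith
  have h12 : e ^ (1 / 2 : ℝ) = Real.sqrt e := (Real.sqrt_eq_rpow e).symm
  rw [h12] at h3
  have h13 : 24 * Q ^ 4 ≤ Real.sqrt e := Real.le_sqrt_of_sq_le he2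
  have h14 := Real.mul_self_sqrt he0.le
  have h15 := Real.sqrt_nonneg e
  have h16 : 0 ≤ Q ^ 4 := by positivity
  rw [h2]
  calc Q ^ 4 * (((2 * N : ℕ) : ℝ) + 1) ^ (4 * ε) ≤ Q ^ 4 * (12 * (2 * Real.sqrt e)) :=
        mul_le_mul_of_nonneg_left h3 h16
    _ = 24 * Q ^ 4 * Real.sqrt e := by ring
    _ ≤ Real.sqrt e * Real.sqrt e := mul_le_mul_of_nonneg_right h13 h15
    _ = e := h14

variable {ρ : Measure ℝ} [IsProbabilityMeasure ρ]

/-- The fluctuation is at least a multiple of the logarithm. -/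
lemma unbK15 (hρ : EM ρ) {β : ℝ} {h : Vec 2} {a C : ℝ} (ha : 0 < a)
    (hgp : ∀ n : ℕ, 1 ≤ n → ∀ K : ℝ, 0 < K → Va ρ β h (2 * n) ≤ K →
      a * n ≤ (((Finset.range n).filter fun t => a * Real.log (n / K) ≤
        C + (A ρ β h (2 * n) - A ρ β h t - A ρ β h (2 * n - t))).card : ℝ))
    {Q ε : ℝ} (hQ : 1 ≤ Q) (hε : 0 < ε) (hε1 : ε ≤ 1 / 80)
    (hvar : ∀ t : ℕ, Va ρ β h t ≤ kq15 Q ε t) :
    ∃ n₀ : ℕ, ∀ n : ℕ, n₀ ≤ n → ∀ Φ : ℝ, (∀ i : ℕ, i ≤ n → En ρ β h i ≤ Φ) →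
      a / 4 * Real.log n ≤ Φ := by
  have hl : Tendsto (fun n : ℕ => Real.log n) atTop atTop :=
    Real.tendsto_log_atTop.comp tendsto_natCast_atTop_atTop
  obtain ⟨n₀, hn₀⟩ := eventually_atTop.1 (hl.eventually_ge_atTop
    (4 * (3 + Real.log Q + |C| / a)))
  refine ⟨max n₀ 2, fun N hN Φ hΦ => ?_⟩
  have hs1 := hn₀ N ((le_max_left _ _).trans hN)
  have hN2 : 2 ≤ N := (le_max_right _ _).trans hN
  obtain ⟨n, hn⟩ : ∃ n, n = N / 2 := ⟨_, rfl⟩
  have hn1 : 1 ≤ n := by omega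
  have h2n : 2 * n ≤ N := by omega
  have h3n : N ≤ 3 * n := by omega
  have hn0 : (0 : ℝ) < n := by exact_mod_cast hn1
  have hN0 : (0 : ℝ) < N := by
    have : 0 < N := by omega
    exact_mod_cast this
  have hK1 : 1 ≤ kq15 Q ε (2 * n) := one_le_kq15 hQ hε _
  have h1 := hgp n hn1 (kq15 Q ε (2 * n)) (by linarith) (hvar _)
  have h2 : 0 < ((Finset.range n).filter fun t => a * Real.log (n / kq15 Q ε (2 * n)) ≤
      C + (A ρ β h (2 * n) - A ρ β h t - A ρ β h (2 * n - t))).card := by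
    have : 0 < a * n := by positivity
    have h3 := this.trans_le h1
    exact_mod_cast h3
  obtain ⟨t, ht⟩ := Finset.card_pos.1 h2
  obtain ⟨ht1, ht2⟩ := Finset.mem_filter.1 ht
  rw [Finset.mem_range] at ht1
  have h3 : A ρ β h (2 * n) - A ρ β h t - A ρ β h (2 * n - t) =
      En ρ β h t + En ρ β h (2 * n - t) - En ρ β h (2 * n) := by
    unfold En
    rw [Nat.cast_sub (by omega)]
    ring
  have h4 := En_nonneg15 (ρ := ρ) (d := 2) (by norm_num) hρ β h (2 * n)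
  have h5 := hΦ t (by omega)
  have h6 := hΦ (2 * n - t) (by omega)
  have h7 : Real.log (n / kq15 Q ε (2 * n)) =
      Real.log n - (Real.log Q + ε * Real.log (((2 * n : ℕ) : ℝ) + 1)) := by
    rw [Real.log_div hn0.ne' (by linarith), log_kq15 hQ]
  have hlog2 : Real.log (((2 * n : ℕ) : ℝ) + 1) ≤ Real.log N + 1 := by
    have e1 : ((2 * n : ℕ) : ℝ) + 1 ≤ 2 * N := by
      have : ((2 * n : ℕ) : ℝ) ≤ N := by exact_mod_cast h2n
      have e2 : (1 : ℝ) ≤ N := by
        have : 1 ≤ N := by omega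
        exact_mod_cast this
      linarith
    have e2 := Real.log_le_log (by positivity) e1
    rw [Real.log_mul (by norm_num) hN0.ne'] at e2
    have := Real.log_two_lt_d9
    linarith
  have h9 : Real.log N ≤ Real.log n + 2 := by
    have e1 : Real.log (N : ℝ) ≤ Real.log (3 * n) := by
      refine Real.log_le_log hN0 ?_
      exact_mod_cast h3n
    rw [Real.log_mul (by norm_num) hn0.ne'] at e1
    have e2 : Real.log (3 : ℝ) ≤ 2 := by
      have := Real.log_le_sub_one_of_pos (show (0 : ℝ) < 3 by norm_num)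
      linarith
    linarith
  have hl0 : 0 ≤ Real.log (N : ℝ) := Real.log_natCast_nonneg N
  have h11 : ε * Real.log (((2 * n : ℕ) : ℝ) + 1) ≤ 1 / 80 * (Real.log N + 1) := by
    have e0 : 0 ≤ Real.log (((2 * n : ℕ) : ℝ) + 1) := Real.log_nonneg (by
      have : (0 : ℝ) ≤ ((2 * n : ℕ) : ℝ) := Nat.cast_nonneg _
      linarith)
    exact mul_le_mul hε1 hlog2 e0 (by norm_num)
  have h12 : 3 / 4 * Real.log N - 3 - Real.log Q ≤ Real.log (n / kq15 Q ε (2 * n)) := by
    rw [h7]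
    linarith
  have h13 := mul_le_mul_of_nonneg_left h12 ha.le
  have hC : C ≤ |C| := le_abs_self C
  have h14 : a * (4 * (3 + Real.log Q + |C| / a)) ≤ a * Real.log N :=
    mul_le_mul_of_nonneg_left hs1 ha.le
  have h15 : a * (4 * (3 + Real.log Q + |C| / a)) = 4 * (a * (3 + Real.log Q)) + 4 * |C| := by
    field_simp
  have h16 : a * (3 / 4 * Real.log N - 3 - Real.log Q) =
      3 / 4 * (a * Real.log N) - a * (3 + Real.log Q) := by ring
  have h17 : a / 4 * Real.log N = 1 / 4 * (a * Real.log N) := by ring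
  have h18 : 0 ≤ a * (3 + Real.log Q) := by
    have := Real.log_nonneg hQ
    positivity
  have h19 : 0 ≤ |C| := abs_nonneg C
  linarith

/-- GROW, one tilt. A variance of small power order makes the fluctuations larger than
`(log n) ^ M`. -/
theorem growK15 (hρ : EM ρ) {β : ℝ} (hS : SeqP) {C c₂ a M : ℝ} (hC : 1 ≤ C) (hc₂ : 0 < c₂)
    (hc₂1 : c₂ ≤ 1 / 2) (ha : 0 < a) (hM : 1 ≤ M) : ∃ ε₀ : ℝ, 0 < ε₀ ∧
      ∀ (h : Vec 2) (C' Q ε R : ℝ) (N₀ : ℕ), 1 ≤ Q → 0 < ε → ε ≤ ε₀ → 1000 ≤ N₀ →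
      (∀ n : ℕ, 1 ≤ n → ∀ K : ℝ, 0 < K → Va ρ β h (2 * n) ≤ K →
        a * n ≤ (((Finset.range n).filter fun t => a * Real.log (n / K) ≤
          C' + (A ρ β h (2 * n) - A ρ β h t - A ρ β h (2 * n - t))).card : ℝ)) →
      GrK ρ β h C (10 ^ 5) → LkK ρ β h c₂ (kq15 Q ε) N₀ → (∀ t : ℕ, Va ρ β h t ≤ kq15 Q ε t) →
      (∀ n : ℕ, En ρ β h n ≤ R * (n : ℝ) ^ (49 / 100 : ℝ)) →
      (∃ n₁ : ℕ, ∀ n k : ℕ, n₁ ≤ n → k ≤ n → En ρ β h k ≤ ((n : ℝ) + 1) ^ (10 * ε) ∧
        Fn ρ β h k ≤ ((n : ℝ) + 1) ^ (10 * ε)) ∧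
      ∃ n₁ : ℕ, ∀ n : ℕ, n₁ ≤ n → ∀ Φ : ℝ,
        (∀ i : ℕ, i ≤ n → En ρ β h i ≤ Φ ∧ Fn ρ β h i ≤ Φ) → Real.log n ^ M ≤ Φ := by
  have hC0 : 0 < C := by linarith
  have hCa : 1 ≤ CaK C c₂ := by
    unfold CaK
    have h1 : 0 ≤ C * 130 * (8 : ℝ) ^ C := by positivity
    have h2 : 0 ≤ C * 64 * (2 / c₂) ^ C := by positivity
    linarith
  obtain ⟨η, hη⟩ : ∃ η, η = 1 / (4 * M) := ⟨_, rfl⟩
  have hη0 : 0 < η := by
    rw [hη]
    positivity
  have hη1 : η ≤ 1 / 4 := by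
    rw [hη, div_le_div_iff₀ (by positivity) (by norm_num)]
    linarith
  obtain ⟨ε₀, hε₀⟩ : ∃ ε₀, ε₀ = min (1 / 80) (min (a / (10 ^ 8 * C)) (η / (200 * C))) := ⟨_, rfl⟩
  refine ⟨ε₀, by rw [hε₀]; positivity, fun h C' Q ε R N₀ hQ hε hεε hN₀ hgp hG hL hvar hrate => ?_⟩
  have hε1 : ε ≤ 1 / 80 := hεε.trans (by rw [hε₀]; exact min_le_left _ _)
  have hε2 : ε ≤ a / (10 ^ 8 * C) :=
    hεε.trans (by rw [hε₀]; exact (min_le_right _ _).trans (min_le_left _ _))
  have hε3 : ε ≤ η / (200 * C) :=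
    hεε.trans (by rw [hε₀]; exact (min_le_right _ _).trans (min_le_right _ _))
  have hYt : Tendsto (fun n : ℕ => ((n : ℝ) + 1) ^ (10 * ε)) atTop atTop :=
    (tendsto_rpow_atTop (show 0 < 10 * ε by positivity)).comp
      (tendsto_atTop_add_const_right _ _ tendsto_natCast_atTop_atTop)
  obtain ⟨n₁, hn₁⟩ := betaK15 hρ hS hc₂ (kq_mono15 hQ hε) (one_le_kq15 hQ hε) hN₀ hL hvar hrate
    hYt (numB15 hQ hε hε1)
  -- both fluctuations are at most `(n + 1) ^ (10 ε)`
  obtain ⟨n₂, hn₂⟩ := eventually_atTop.1 (hYt.eventually_ge_atTop Q)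
  have hup : ∀ n k : ℕ, max n₁ n₂ ≤ n → k ≤ n → En ρ β h k ≤ ((n : ℝ) + 1) ^ (10 * ε) ∧
      Fn ρ β h k ≤ ((n : ℝ) + 1) ^ (10 * ε) := by
    intro n k hn hk
    refine ⟨hn₁ n k ((le_max_left _ _).trans hn) hk, ?_⟩
    have h1 := Fn_sq15 (ρ := ρ) (d := 2) (by norm_num) hρ β h k
    have h2 : Va ρ β h k ≤ kq15 Q ε n := (hvar _).trans (kq_mono15 hQ hε hk)
    have h3 := hn₂ n ((le_max_right _ _).trans hn)
    have hn0 : (0 : ℝ) ≤ n := Nat.cast_nonneg n
    have h4 : kq15 Q ε n ≤ (((n : ℝ) + 1) ^ (10 * ε)) ^ 2 := by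
      unfold kq15
      have h5 : ((n : ℝ) + 1) ^ ε ≤ ((n : ℝ) + 1) ^ (10 * ε) :=
        Real.rpow_le_rpow_of_exponent_le (by linarith) (by linarith)
      rw [pow_two]
      exact mul_le_mul h3 h5 (by positivity) (by positivity)
    exact (pow_le_pow_iff_left₀ (Fn_nonneg15 β h _) (by positivity) two_ne_zero).1
      ((h1.trans h2).trans h4)
  refine ⟨⟨max n₁ n₂, hup⟩, ?_⟩
  obtain ⟨Cs, hCs⟩ := stepK15 hρ hS hC hc₂ hc₂1 hG (kq_mono15 hQ hε) (one_le_kq15 hQ hε) hN₀ hL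
    hvar hrate
  choose j hj hmax using exmax15 ρ β h
  obtain ⟨f, hf⟩ : ∃ f : ℕ → ℝ, f = fun n => max (En ρ β h (j n)) (Fn ρ β h (j n)) := ⟨_, rfl⟩
  have hfE : ∀ n i : ℕ, i ≤ n → En ρ β h i ≤ f n := fun n i hi => by
    rw [hf]
    exact (hmax n i hi).1
  have hfF : ∀ n i : ℕ, i ≤ n → Fn ρ β h i ≤ f n := fun n i hi => by
    rw [hf]
    exact (hmax n i hi).2
  have hfle : ∀ (n : ℕ) (Φ : ℝ), (∀ i : ℕ, i ≤ n → En ρ β h i ≤ Φ ∧ Fn ρ β h i ≤ Φ) → f n ≤ Φ := by
    intro n Φ hΦ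
    rw [hf]
    exact max_le (hΦ _ (hj n)).1 (hΦ _ (hj n)).2
  have hfm : Monotone f := by
    intro s t hst
    exact hfle s _ fun i hi => ⟨hfE t i (hi.trans hst), hfF t i (hi.trans hst)⟩
  obtain ⟨n₃, hn₃⟩ := unbK15 hρ ha hgp hQ hε hε1 hvar
  have hl : Tendsto (fun n : ℕ => Real.log n) atTop atTop :=
    Real.tendsto_log_atTop.comp tendsto_natCast_atTop_atTop
  obtain ⟨B, hB⟩ : ∃ B, B = (|Cs| + 1 + 10 ^ 6 * C * (Real.log Q + 1)) / (a / 8) +
      (Real.log (CaK C c₂) + 3 * C * (Real.log Q + 6)) * 2 / η := ⟨_, rfl⟩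
  obtain ⟨n₄, hn₄⟩ := eventually_atTop.1 (hl.eventually_ge_atTop B)
  have hlQ : 0 ≤ Real.log Q := Real.log_nonneg hQ
  have hlCa : 0 ≤ Real.log (CaK C c₂) := Real.log_nonneg hCa
  have hB1 : 0 ≤ (|Cs| + 1 + 10 ^ 6 * C * (Real.log Q + 1)) / (a / 8) := by positivity
  have hB2 : 0 ≤ (Real.log (CaK C c₂) + 3 * C * (Real.log Q + 6)) * 2 / η := by positivity
  obtain ⟨n₅, hn₅⟩ : ∃ n₅, n₅ = max (max (max n₁ n₂) (max n₃ n₄)) 1 := ⟨_, rfl⟩
  -- the size of `f`
  have hfl : ∀ n : ℕ, n₅ ≤ n → |Cs| + 1 ≤ f n ∧ 10 ^ 6 * C * Real.log (kq15 Q ε (128 * n)) ≤ f n := by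
    intro n hn
    have h1 := hn₃ n (by omega) (f n) (hfE n)
    have h2 := hn₄ n (by omega)
    have hn1 : 1 ≤ n := by omega
    have hn0 : (0 : ℝ) < n := by exact_mod_cast hn1
    have h3 : (|Cs| + 1 + 10 ^ 6 * C * (Real.log Q + 1)) / (a / 8) ≤ Real.log n := by
      rw [hB] at h2
      linarith
    rw [div_le_iff₀ (by positivity)] at h3
    have h4 : Real.log (((128 * n : ℕ) : ℝ) + 1) ≤ Real.log n + 6 := by
      have e1 : ((128 * n : ℕ) : ℝ) + 1 ≤ 129 * n := by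
        push_cast
        have : (1 : ℝ) ≤ n := by exact_mod_cast hn1
        linarith
      have e2 := Real.log_le_log (by positivity) e1
      rw [Real.log_mul (by norm_num) hn0.ne'] at e2
      have e3 : Real.log (129 : ℝ) ≤ 6 := by
        rw [Real.log_le_iff_le_exp (by norm_num)]
        have e4 := Real.exp_one_gt_d9
        have e5 : (2.7 : ℝ) ^ 6 ≤ Real.exp 1 ^ 6 := pow_le_pow_left₀ (by norm_num) (by linarith) 6
        rw [← Real.exp_nat_mul] at e5
        norm_num at e5 ⊢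
        linarith
      linarith
    have h5 : 10 ^ 6 * C * Real.log (kq15 Q ε (128 * n)) ≤
        10 ^ 6 * C * (Real.log Q + 1) + a / 100 * Real.log n := by
      rw [log_kq15 hQ]
      have hl0 : 0 ≤ Real.log (n : ℝ) := Real.log_natCast_nonneg n
      have e1 : ε * Real.log (((128 * n : ℕ) : ℝ) + 1) ≤ ε * (Real.log n + 6) :=
        mul_le_mul_of_nonneg_left h4 hε.le
      have e2 : 10 ^ 6 * C * ε ≤ a / 100 := by
        rw [le_div_iff₀ (by positivity)] at hε2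
        linarith
      have e3 : ε * 6 ≤ 1 := by linarith
      have e4 : 10 ^ 6 * C * (Real.log Q + ε * Real.log (((128 * n : ℕ) : ℝ) + 1)) ≤
          10 ^ 6 * C * (Real.log Q + (ε * Real.log n + 1)) :=
        mul_le_mul_of_nonneg_left (by linarith) (by positivity)
      have e5 : 10 ^ 6 * C * ε * Real.log n ≤ a / 100 * Real.log n :=
        mul_le_mul_of_nonneg_right e2 hl0
      have e6 : 10 ^ 6 * C * (Real.log Q + (ε * Real.log n + 1)) =
          10 ^ 6 * C * (Real.log Q + 1) + 10 ^ 6 * C * ε * Real.log n := by ring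
      linarith
    have h6 : 0 ≤ a * Real.log (n : ℝ) := by
      have := Real.log_natCast_nonneg n
      positivity
    have h7 : 0 ≤ 10 ^ 6 * C * (Real.log Q + 1) := by positivity
    have h8 : 0 ≤ |Cs| := abs_nonneg _
    constructor <;> linarith
  obtain ⟨n₆, hn₆⟩ := iterM15 hfm hη0 (by linarith) (show 0 < M by linarith)
    (by rw [hη]; field_simp; norm_num) (n₀ := n₅) (fun n hn => by
      have := (hfl n hn).1
      have h8 : 0 ≤ |Cs| := abs_nonneg _
      linarith) (fun n hn => by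
      obtain ⟨h0, h00⟩ := hfl n hn
      obtain ⟨T, i, hT, hi, h1, h2⟩ := hCs n (j n) (f n) (by omega) (hj n)
        (by
          have := le_abs_self Cs
          linarith) h00 (by
          rw [hf]
          rcases max_choice (En ρ β h (j n)) (Fn ρ β h (j n)) with h3 | h3
          · exact Or.inl h3.symm
          · exact Or.inr h3.symm)
      refine ⟨T, hT, ?_, ?_⟩
      · rcases h1 with h1 | h1
        · exact h1.trans (hfE T i hi)
        · exact h1.trans (hfF T i hi)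
      · have hTn : n₅ ≤ T := hn.trans hT
        have hn1 : 1 ≤ n := by omega
        have hT1 : 1 ≤ T := by omega
        have hn0 : (0 : ℝ) < n := by exact_mod_cast hn1
        have hT0 : (0 : ℝ) < T := by exact_mod_cast hT1
        have hT1' : (1 : ℝ) ≤ T := by exact_mod_cast hT1
        have hfT : f T ≤ ((T : ℝ) + 1) ^ (10 * ε) := hfle T _ fun i hi => hup T i (by omega) hi
        have hfT1 : 1 ≤ f T := by
          have := (hfl T hTn).1
          have h8 : 0 ≤ |Cs| := abs_nonneg _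
          linarith
        have h3 := h2 (f T) fun i hi => ⟨hfE T i hi, hfF T i hi⟩
        have hK0 : 0 < kq15 Q ε (128 * T) := by
          have := one_le_kq15 hQ hε (128 * T)
          linarith
        have h4 := Real.log_le_log hT0 h3
        rw [Real.log_mul (by positivity) (by positivity), Real.log_mul (by positivity) hn0.ne',
          Real.log_rpow (by positivity), Real.log_mul hK0.ne' (by positivity), log_kq15 hQ] at h4
        have h5 : Real.log (f T) ≤ 10 * ε * Real.log ((T : ℝ) + 1) := by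
          have := Real.log_le_log (by linarith) hfT
          rwa [Real.log_rpow (by linarith)] at this
        have h6 : Real.log ((T : ℝ) + 1) ≤ Real.log (((128 * T : ℕ) : ℝ) + 1) := by
          refine Real.log_le_log (by linarith) ?_
          push_cast
          linarith
        have h7 : Real.log (((128 * T : ℕ) : ℝ) + 1) ≤ Real.log T + 6 := by
          have e1 : ((128 * T : ℕ) : ℝ) + 1 ≤ 129 * T := by
            push_cast
            linarith
          have e2 := Real.log_le_log (by positivity) e1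
          rw [Real.log_mul (by norm_num) hT0.ne'] at e2
          have e3 : Real.log (129 : ℝ) ≤ 6 := by
            rw [Real.log_le_iff_le_exp (by norm_num)]
            have e4 := Real.exp_one_gt_d9
            have e5 : (2.7 : ℝ) ^ 6 ≤ Real.exp 1 ^ 6 :=
              pow_le_pow_left₀ (by norm_num) (by linarith) 6
            rw [← Real.exp_nat_mul] at e5
            norm_num at e5 ⊢
            linarith
          linarith
        obtain ⟨lT, hlT⟩ : ∃ l, l = Real.log (T : ℝ) := ⟨_, rfl⟩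
        have hlT0 : 0 ≤ lT := by
          rw [hlT]
          exact Real.log_natCast_nonneg T
        rw [← hlT] at h4 h7 ⊢
        have h8 : ε * Real.log (((128 * T : ℕ) : ℝ) + 1) ≤ ε * (lT + 6) :=
          mul_le_mul_of_nonneg_left h7 hε.le
        have h9 : 10 * ε * Real.log ((T : ℝ) + 1) ≤ 10 * ε * (lT + 6) :=
          mul_le_mul_of_nonneg_left (h6.trans h7) (by positivity)
        have h10 : 3 * C * (Real.log Q + ε * Real.log (((128 * T : ℕ) : ℝ) + 1) +
            Real.log (f T)) ≤ 3 * C * (Real.log Q + 11 * ε * (lT + 6)) :=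
          mul_le_mul_of_nonneg_left (by linarith) (by positivity)
        -- `33 C ε ≤ η / 6`
        have h11 : 200 * (C * ε) ≤ η := by
          rw [le_div_iff₀ (by positivity)] at hε3
          linarith
        have h12 : 3 * C * (Real.log Q + 11 * ε * (lT + 6)) =
            3 * C * Real.log Q + 33 * (C * ε) * lT + 198 * (C * ε) := by ring
        have h13 : C * ε * lT ≤ η / 200 * lT := mul_le_mul_of_nonneg_right (by linarith) hlT0
        have h14 : (Real.log (CaK C c₂) + 3 * C * (Real.log Q + 6)) * 2 / η ≤ Real.log n := by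
          have := hn₄ n (by omega)
          rw [hB] at this
          linarith
        rw [div_le_iff₀ hη0] at h14
        have h15 : lT ≤ Real.log n + Real.log (CaK C c₂) + 3 * C * Real.log Q +
            33 * (η / 200 * lT) + η := by linarith
        have hln : 0 ≤ Real.log (n : ℝ) := Real.log_natCast_nonneg n
        have h16 : 0 ≤ C * Real.log Q := by positivity
        have h17 : η ≤ 18 * C := by linarith
        have h18 : lT ≤ Real.log n + η / 2 * Real.log n + 33 / 200 * (η * lT) := by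
          have : Real.log (CaK C c₂) + 3 * C * Real.log Q + η ≤ η / 2 * Real.log n := by
            linarith
          linarith
        -- first `lT ≤ 2 log n`
        have h19 : η * lT ≤ 1 / 4 * lT := mul_le_mul_of_nonneg_right hη1 hlT0
        have h20 : η * Real.log n ≤ 1 / 4 * Real.log n := mul_le_mul_of_nonneg_right hη1 hln
        have h21 : lT ≤ 2 * Real.log n := by linarith
        have h22 : η * lT ≤ η * (2 * Real.log n) := mul_le_mul_of_nonneg_left h21 hη0.le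
        have h23 : 0 ≤ η * Real.log n := by positivity
        have h24 : (1 + η) * Real.log n = Real.log n + η * Real.log n := by ring
        linarith)
  exact ⟨n₆, fun n hn Φ hΦ => (hn₆ n hn).trans (hfle n Φ hΦ)⟩

end Pool.Agent.W_7d29a1_PL
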