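import Pool.Agent.W_7d29a1_PL.DefsPX
import Pool.Agent.W_7d29a1_AM.AmpNU5
import Pool.Agent.W_7d29a1_SP.Cnt79

/-!
GROWN for every law with exponential moments, without any moment hypothesis (helper5).
-/

namespace Pool.Agent.W_7d29a1_PL

open MeasureTheory ProbabilityTheory Filter Topology Pool.Agent.W_MP_7d29a1_pr
  Pool.Agent.W_7d29a1_h46 Pool.Agent.W_7d29a1_h46u Pool.Agent.W_7d29a1_D2.B35
  Pool.Agent.W_7d29a1_Q29 Pool.Agent.W_7d29a1_R34 Pool.Agent.W_7d29a1_SP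

/-- GROWN from the counting and the amplification. -/
theorem growNX5 {d : ℕ} {ρ : Measure ℝ} [IsProbabilityMeasure ρ] {β : ℝ} (hC : CntP d ρ β)
    (hA : Pool.Agent.W_7d29a1_AM.AmpN ρ β d) : GrowN d ρ β := by
  intro c₀ D hc hD
  obtain ⟨C, hC1, hG⟩ := Pool.Agent.W_7d29a1_AM.growN5 hC hA c₀ D hc hD
  refine ⟨C, hC1, fun h hL m T s₀ s₁ q Φ hm hq hq1 hs hAm hp0 hp1 hT hk => ?_⟩
  refine hG h hL m T s₀ s₁ q Φ hm hq ?_ hs hAm hp0 hp1 hT hk
  have hlq : 0 ≤ Real.log (1 / q) := Real.log_nonneg (by rw [le_div_iff₀ hq]; linarith)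
  have hs0 : s₀ ≤ s₁ := by
    have : 0 ≤ C * (1 + Real.log (1 / q)) := by positivity
    linarith
  have mX := measurable_X (d := d) β h m
  have h1 : (law d ρ).real {η | X β h η m ≤ s₀} + (law d ρ).real {η | s₁ < X β h η m} ≤ 1 := by
    rw [← measureReal_union ?_ (measurableSet_lt measurable_const mX)]
    · exact measureReal_le_one
    · rw [Set.disjoint_left]
      intro η h2 h3
      have h2' : X β h η m ≤ s₀ := h2
      have h3' : s₁ < X β h η m := h3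
      linarith
  linarith

/-- GROWN for every law. -/
theorem growNAll5 {d : ℕ} (hd : 0 < d) {ρ : Measure ℝ} [IsProbabilityMeasure ρ] (hρ : EM ρ)
    (hnc : ∀ c : ℝ, ρ {c} ≠ 1) {β : ℝ} (hβ : 0 < β) : GrowN d ρ β :=
  growNX5 (cnt79 hd hρ β) (Pool.Agent.W_7d29a1_AM.ampNAll5 hd hρ hnc hβ)

end Pool.Agent.W_7d29a1_PL
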