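import Pool.Agent.W_7d29a1_PL.DefsPL
import Pool.Agent.W_7d29a1_SP.Luck93

/-!
Leaf JEN: a function of the future at the position of the polymer.
-/

namespace Pool.Agent.W_7d29a1_PL

open MeasureTheory ProbabilityTheory Filter Topology Pool.Agent.W_MP_7d29a1_pr
  Pool.Agent.W_7d29a1_h46 Pool.Agent.W_7d29a1_h46u Pool.Agent.W_7d29a1_D2.B35
  Pool.Agent.W_7d29a1_Q29 Pool.Agent.W_7d29a1_R34 Pool.Agent.W_7d29a1_SP

open S98 in
theorem jenP62 {d : ℕ} {ρ : Measure ℝ} [IsProbabilityMeasure ρ] (hd : 0 < d) (β : ℝ) :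
    JenP d ρ β := by
  intro h n t R W ht hR hWm hWdep hW0 hW2
  set P : Measure (Env d) := law d ρ with hP
  set g : Site d → Env d → ℝ := fun y => cE ρ (Pa d t)ᶜ (Qt β h n t y) with hg
  set V : Site d → Env d → ℝ := fun y η => W (sh t y η) with hV
  have hgm : ∀ y, Measurable (g y) := fun y => S98.measurable_cE (measurable_Qt β h n t y) _
  have hg0 : ∀ y η, 0 ≤ g y η := fun y η => S98.cE_nonneg (fun η => Qt_nonneg hd β h n t y η) _ η
  have hg1 : ∀ y η, g y η ≤ 1 := fun y η => cE_le_one (measurable_Qt β h n t y)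
    (fun η => Qt_nonneg hd β h n t y η) (fun η => Qt_le_one hd β h ht y η) _ η
  have hVm : ∀ y, Measurable (V y) := fun y => hWm.comp (measurable_sh t y)
  have hV0 : ∀ y η, 0 ≤ V y η := fun y η => hW0 _
  have bdd : ∀ {F : Env d → ℝ} {M : ℝ}, Measurable F → (∀ η, 0 ≤ F η) → (∀ η, F η ≤ M) →
      Integrable F P := by
    intro F M hF h0 h1
    refine Integrable.mono' (integrable_const M) hF.aestronglyMeasurable
      (Eventually.of_forall fun η => ?_)
    rw [Real.norm_eq_abs, abs_of_nonneg (h0 η)]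
    exact h1 η
  have hVd : ∀ y, DependsOn (V y) (Pa d t)ᶜ := by
    intro y η η' hη
    refine hWdep fun q hq => ?_
    have hq1 : 1 ≤ q.1 := hq
    unfold sh
    refine hη _ ?_
    show ¬ _ ≤ t
    simp only
    omega
  have hV2i : ∀ y, Integrable (fun η => V y η ^ 2) P := fun y =>
    (mp_sh (ρ := ρ) t y).integrable_comp_of_integrable hW2
  have hVi : ∀ y, Integrable (V y) P := by
    intro y
    refine ((integrable_const (1 : ℝ)).add (hV2i y)).mono' (hVm y).aestronglyMeasurable
      (Eventually.of_forall fun η => ?_)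
    rw [Real.norm_eq_abs, abs_of_nonneg (hV0 y η)]
    show V y η ≤ 1 + V y η ^ 2
    nlinarith [sq_nonneg (V y η - 1)]
  have hQVi : ∀ y, Integrable (fun η => V y η * Qt β h n t y η) P := fun y =>
    (hVi y).mono' ((hVm y).mul (measurable_Qt β h n t y)).aestronglyMeasurable
      (Eventually.of_forall fun η => by
        rw [Real.norm_eq_abs, abs_of_nonneg (mul_nonneg (hV0 y η) (Qt_nonneg hd β h n t y η))]
        exact mul_le_of_le_one_right (hV0 y η) (Qt_le_one hd β h ht y η))
  have hgVi : ∀ y, Integrable (fun η => V y η * g y η) P := fun y =>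
    (hVi y).mono' ((hVm y).mul (hgm y)).aestronglyMeasurable
      (Eventually.of_forall fun η => by
        rw [Real.norm_eq_abs, abs_of_nonneg (mul_nonneg (hV0 y η) (hg0 y η))]
        exact mul_le_of_le_one_right (hV0 y η) (hg1 y η))
  have hg2i : ∀ y, Integrable (fun η => g y η ^ 2) P := fun y =>
    bdd (M := 1) ((hgm y).pow_const 2) (fun η => sq_nonneg _)
      (fun η => pow_le_one₀ (hg0 y η) (hg1 y η))
  have hsum : ∑ y ∈ R, ∫ η, g y η ^ 2 ∂P ≤ St ρ β h n t := by
    unfold St
    rw [integral_finsetSum _ fun y _ => hg2i y]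
    exact Finset.sum_le_sum_of_subset_of_nonneg (hR.trans (boxF_mono ht))
      fun _ _ _ => integral_nonneg fun _ => sq_nonneg _
  have hS0 : 0 ≤ St ρ β h n t := le_trans (Finset.sum_nonneg fun y _ =>
    integral_nonneg fun _ => sq_nonneg _) hsum
  have e0 : ∫ η, ∑ y ∈ R, Qt β h n t y η * W (sh t y η) ∂P = ∑ y ∈ R, ∫ η, V y η * g y η ∂P := by
    have e1 : ∀ η, ∑ y ∈ R, Qt β h n t y η * W (sh t y η) = ∑ y ∈ R, V y η * Qt β h n t y η :=
      fun η => Finset.sum_congr rfl fun y _ => mul_comm _ _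
    simp only [e1]
    rw [integral_finsetSum _ fun y _ => hQVi y]
    exact Finset.sum_congr rfl fun y _ => S98.int_mul_cE _ (hQVi y) (hVd y)
  set D := ∫ η, W η ^ 2 ∂P with hD
  have hD0 : 0 ≤ D := integral_nonneg fun _ => sq_nonneg _
  have hp : ∀ y, ∫ η, V y η ^ 2 ∂P = D := fun y =>
    integral_sh t y (F := fun η => W η ^ 2) (hWm.pow_const 2)
  have hN0 : (0 : ℝ) ≤ R.card := Nat.cast_nonneg _
  rw [e0, show (R.card : ℝ) * St ρ β h n t * D = D * R.card * St ρ β h n t by ring]
  refine S98.sqrt_of_all hS0 (mul_nonneg hD0 hN0) fun s hs => ?_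
  have h1 : ∀ y ∈ R, 2 * ∫ η, V y η * g y η ∂P ≤ s * ∫ η, g y η ^ 2 ∂P + D / s := by
    intro y _
    have h2 : ∫ η, 2 * (V y η * g y η) ∂P ≤ ∫ η, (s * g y η ^ 2 + 1 / s * V y η ^ 2) ∂P := by
      refine integral_mono ((hgVi y).const_mul 2) (((hg2i y).const_mul s).add
        ((hV2i y).const_mul (1 / s))) fun η => ?_
      simp only
      set x := V y η
      set z := g y η
      have h5 : 0 ≤ (s * z - x) ^ 2 / s := div_nonneg (sq_nonneg _) hs.le
      have h6 : (s * z - x) ^ 2 / s = s * z ^ 2 + 1 / s * x ^ 2 - 2 * (x * z) := by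
        field_simp
        ring
      linarith
    rw [integral_const_mul, integral_add ((hg2i y).const_mul s) ((hV2i y).const_mul (1 / s)),
      integral_const_mul, integral_const_mul, hp y] at h2
    rw [one_div, inv_mul_eq_div] at h2
    exact h2
  rw [Finset.mul_sum]
  refine (Finset.sum_le_sum h1).trans ?_
  rw [Finset.sum_add_distrib, ← Finset.mul_sum, Finset.sum_const, nsmul_eq_mul]
  have h9 : (R.card : ℝ) * (D / s) = D * R.card / s := by ring
  have h11 := mul_le_mul_of_nonneg_left hsum hs.le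
  rw [h9]
  linarith

end Pool.Agent.W_7d29a1_PL
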