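import Pool.Agent.W_7d29a1_PL.BetQ26
import Pool.Agent.W_7d29a1_SP.Lk96

/-!
LKQ (second text): luck at a good point, power bound (copy of Lk96 by helper96 with the bound `kp`).
-/

namespace Pool.Agent.W_7d29a1_PL

open MeasureTheory ProbabilityTheory Filter Topology Pool.Agent.W_MP_7d29a1_pr
  Pool.Agent.W_7d29a1_h46 Pool.Agent.W_7d29a1_h46u Pool.Agent.W_7d29a1_D2.B35
  Pool.Agent.W_7d29a1_Q29 Pool.Agent.W_7d29a1_R34 Pool.Agent.W_7d29a1_SP

variable {ρ : Measure ℝ}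

/-- The window is small for large `N`. -/
lemma winQ26 {C₁ Q c R δ : ℝ} (hC₁ : 0 ≤ C₁) (hQ : 1 ≤ Q) (hc1 : c ≤ 1 / 4)
    (hδ : 0 < δ) : ∃ N₀ : ℕ, 1000 ≤ N₀ ∧ ∀ N : ℕ, N₀ ≤ N → ∀ e : ℝ,
      e ≤ |R| * (N : ℝ) ^ (49 / 100 : ℝ) →
      C₁ * (kp Q c (2 * N) + Real.sqrt e) ≤ δ * Real.sqrt ((N : ℝ) / 1000) := by
  obtain ⟨D, hD⟩ : ∃ D, D = 32 * C₁ * (2 * Q + Real.sqrt |R|) / δ := ⟨_, rfl⟩
  have hD0 : 0 ≤ D := by
    rw [hD]
    have := Real.sqrt_nonneg |R|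
    positivity
  refine ⟨max 1000 (⌈Real.exp 16⌉₊ + ⌈D ^ 4⌉₊), le_max_left _ _, ?_⟩
  intro N hN e he
  have hN1 : 1000 ≤ N := le_trans (le_max_left _ _) hN
  have hN2 : ⌈Real.exp 16⌉₊ + ⌈D ^ 4⌉₊ ≤ N := le_trans (le_max_right _ _) hN
  have hN1' : (1000 : ℝ) ≤ N := by exact_mod_cast hN1
  have hN0 : (0 : ℝ) < N := by linarith
  have hNe : Real.exp 16 ≤ N := by
    have h1 : (⌈Real.exp 16⌉₊ : ℝ) ≤ N := by exact_mod_cast le_trans (Nat.le_add_right _ _) hN2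
    exact le_trans (Nat.le_ceil _) h1
  have hND : D ^ 4 ≤ N := by
    have h1 : (⌈D ^ 4⌉₊ : ℝ) ≤ N := by exact_mod_cast le_trans (Nat.le_add_left _ _) hN2
    exact le_trans (Nat.le_ceil _) h1
  obtain ⟨s, hs⟩ : ∃ s, s = Real.sqrt (Real.sqrt N) := ⟨_, rfl⟩
  have hs0 : 0 < s := by
    rw [hs]
    exact Real.sqrt_pos.2 (Real.sqrt_pos.2 hN0)
  have hs2 : s ^ 2 = Real.sqrt N := by
    rw [hs]
    exact Real.sq_sqrt (Real.sqrt_nonneg _)
  have hs4 : s ^ 4 = N := by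
    have h1 : s ^ 4 = (s ^ 2) ^ 2 := by ring
    rw [h1, hs2]
    exact Real.sq_sqrt hN0.le
  have hDs : D ≤ s := by
    by_contra hcon
    push Not at hcon
    have h1 : s ^ 4 < D ^ 4 := pow_lt_pow_left₀ hcon hs0.le (by norm_num)
    linarith
  -- the power
  have hkap : kp Q c (2 * N) ≤ 2 * Q * s := by
    have h2N : (1 : ℝ) ≤ ((2 * N : ℕ) : ℝ) := by
      push_cast
      linarith
    have h1 : ((2 * N : ℕ) : ℝ) ^ c ≤ ((2 * N : ℕ) : ℝ) ^ (1 / 4 : ℝ) :=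
      Real.rpow_le_rpow_of_exponent_le h2N hc1
    have h2 : ((2 * N : ℕ) : ℝ) ^ (1 / 4 : ℝ) ≤ 2 * s := by
      have e1 : (2 * s) = ((2 * s) ^ 4) ^ (1 / 4 : ℝ) := by
        rw [← Real.rpow_natCast (2 * s) 4, ← Real.rpow_mul (by positivity)]
        norm_num
      rw [e1]
      refine Real.rpow_le_rpow (by positivity) ?_ (by norm_num)
      rw [mul_pow, hs4]
      push_cast
      linarith
    unfold kp
    calc Q * ((2 * N : ℕ) : ℝ) ^ c ≤ Q * (2 * s) :=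
          mul_le_mul_of_nonneg_left (h1.trans h2) (by linarith)
      _ = 2 * Q * s := by ring
  -- the square root of `e`
  have he2 : e ≤ |R| * s ^ 2 := by
    refine he.trans (mul_le_mul_of_nonneg_left ?_ (abs_nonneg _))
    rw [hs2, Real.sqrt_eq_rpow]
    exact Real.rpow_le_rpow_of_exponent_le (by linarith) (by norm_num)
  have hse : Real.sqrt e ≤ Real.sqrt |R| * s := by
    refine (Real.sqrt_le_sqrt he2).trans ?_
    rw [Real.sqrt_mul (abs_nonneg _), Real.sqrt_sq hs0.le]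
  have hlow : s ^ 2 / 32 ≤ Real.sqrt ((N : ℝ) / 1000) := by
    refine Real.le_sqrt_of_sq_le ?_
    have h1 : (s ^ 2 / 32) ^ 2 = N / 1024 := by
      rw [← hs4]
      ring
    rw [h1]
    exact div_le_div_of_nonneg_left hN0.le (by norm_num) (by norm_num)
  have h1 : C₁ * (kp Q c (2 * N) + Real.sqrt e) ≤ C₁ * (2 * Q + Real.sqrt |R|) * s := by
    calc C₁ * (kp Q c (2 * N) + Real.sqrt e) ≤ C₁ * (2 * Q * s + Real.sqrt |R| * s) :=
          mul_le_mul_of_nonneg_left (add_le_add hkap hse) hC₁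
      _ = C₁ * (2 * Q + Real.sqrt |R|) * s := by ring
  have h2 : C₁ * (2 * Q + Real.sqrt |R|) * s ≤ δ * (s ^ 2 / 32) := by
    have h3 : 32 * C₁ * (2 * Q + Real.sqrt |R|) ≤ s * δ := by
      rw [hD, div_le_iff₀ hδ] at hDs
      exact hDs
    nlinarith
  exact h1.trans (h2.trans (mul_le_mul_of_nonneg_left hlow hδ.le))

/-- **LKQ** (second text): luck at a good point, power bound. -/
theorem lkQ26 [IsProbabilityMeasure ρ] (hρ : EM ρ) {β : ℝ} (hLk : LuckP ρ β)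
    (hNP : NPB 2 ρ β) : LkQ26 ρ β := by
  intro g₀ M hg₀ hM
  obtain ⟨C₀, hC₀, hNP⟩ := hNP
  obtain ⟨C, hCdef⟩ : ∃ C, C = C₀ + 1 := ⟨_, rfl⟩
  have hC : 1 ≤ C := by linarith
  obtain ⟨M', hM'⟩ : ∃ M', M' = 8 * M + 8 := ⟨_, rfl⟩
  have hM1 : 1 ≤ M' := by linarith
  obtain ⟨C₁, hC₁⟩ : ∃ C₁, C₁ = 8 * M' + 240000 * M' * Real.sqrt (200 * C) + 50 * M' := ⟨_, rfl⟩
  have hr0 : 0 ≤ M' * Real.sqrt (200 * C) := by positivity
  have hC11 : 1 ≤ C₁ := by
    rw [hC₁]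
    nlinarith
  have hC18 : 8 * M' ≤ C₁ := by
    rw [hC₁]
    nlinarith
  refine ⟨min (1 / 2) (1 / (28800 * C * C₁ ^ 2)), 1 / 4, lt_min (by norm_num) (by positivity),
    min_le_left _ _, by norm_num, ?_⟩
  intro h δ Q c R hδ hQ hc hc1 P
  obtain ⟨δ', hδ'⟩ : ∃ δ', δ' = min δ 1 / 2 := ⟨_, rfl⟩
  have hδ'0 : 0 < δ' := by
    rw [hδ']
    exact half_pos (lt_min hδ one_pos)
  have hδ'1 : δ' ≤ 1 := by
    rw [hδ']
    have := min_le_right δ 1
    linarith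
  have hδ'2 : 2 * δ' ≤ δ := by
    rw [hδ']
    have := min_le_left δ 1
    linarith
  obtain ⟨N₀, hN₀, hwin⟩ := winQ26 (C₁ := C₁) (Q := Q) (c := c) (R := R) (δ := δ' ^ 4)
    (by linarith) hQ hc1 (by positivity)
  refine ⟨N₀, hN₀, ?_⟩
  intro N L e S hN he hE ⟨t₀, ht₀, het₀⟩ hF hcard hS
  have hN1000 : (1000 : ℝ) ≤ N := by exact_mod_cast hN₀.trans hN
  have hN0 : (0 : ℝ) < N := by linarith
  obtain ⟨K, hK⟩ : ∃ K, K = kp Q c (2 * N) := ⟨_, rfl⟩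
  have hK1 : 1 ≤ K := by
    rw [hK]
    exact kp_one26 hQ hc (by
      have : 1000 ≤ N := hN₀.trans hN
      omega)
  have hkK : ∀ t : ℕ, t ≤ 2 * N → kp Q c t ≤ K := by
    intro t ht
    rw [hK]
    exact kp_mono26 hQ hc ht
  have hVa : ∀ t : ℕ, t ≤ 2 * N → Va ρ β h t ≤ K := fun t ht => (P.var t).trans (hkK t ht)
  -- the good time
  have hSne : S.Nonempty := by
    rw [Finset.nonempty_iff_ne_empty]
    intro h0
    rw [h0] at hcard
    simp at hcard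
    linarith
  have hL : L ≤ 2 * N := by
    obtain ⟨t, ht⟩ := hSne
    obtain ⟨h1, -, h2, -, h3, -⟩ := hS t ht
    have h2' : t ≤ N := by exact_mod_cast h2
    omega
  have hSL : S ⊆ Finset.Icc 1 L := by
    intro t ht
    obtain ⟨h1, h2, -⟩ := hS t ht
    rw [Finset.mem_Icc]
    refine ⟨?_, h1⟩
    have h3 : (1 : ℝ) ≤ t := by linarith
    exact_mod_cast h3
  have hSt0 : ∀ t : ℕ, 0 ≤ St ρ β h L t := fun t => by
    unfold St
    exact integral_nonneg fun η => Finset.sum_nonneg fun y _ => sq_nonneg _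
  obtain ⟨t, htS, hSt⟩ : ∃ t ∈ S, St ρ β h L t ≤ 200 * C * K / N := by
    refine Finset.exists_le_of_sum_le hSne ?_
    have h1 : ∑ t ∈ S, St ρ β h L t ≤ ∑ t ∈ Finset.Icc 1 L, St ρ β h L t :=
      Finset.sum_le_sum_of_subset_of_nonneg hSL fun t _ _ => hSt0 t
    have h2 : ∑ t ∈ Finset.Icc 1 L, St ρ β h L t ≤ C₀ * Va ρ β h L := hNP h L
    have h3 : C₀ * Va ρ β h L ≤ C * K := by
      calc C₀ * Va ρ β h L ≤ C₀ * K := mul_le_mul_of_nonneg_left (hVa L hL) hC₀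
        _ ≤ C * K := mul_le_mul_of_nonneg_right (by linarith) (by linarith)
    have h4 : C * K ≤ ∑ _t ∈ S, 200 * C * K / N := by
      rw [Finset.sum_const, nsmul_eq_mul]
      calc C * K = (N : ℝ) / 200 * (200 * C * K / N) := by field_simp
        _ ≤ S.card * (200 * C * K / N) := mul_le_mul_of_nonneg_right hcard (by positivity)
    linarith
  obtain ⟨htL, htN1, htN2, hmN1, hmN2, hgap⟩ := hS t htS
  have ht1 : 1 ≤ t := (Finset.mem_Icc.1 (hSL htS)).1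
  have ht0 : (0 : ℝ) < t := by exact_mod_cast ht1
  have htN : t ≤ N := by exact_mod_cast htN2
  have ht2N : t ≤ 2 * N := by omega
  have hm1 : 1 ≤ L - t := by
    have h1 : (1 : ℝ) ≤ (L - t : ℕ) := by linarith
    exact_mod_cast h1
  -- the window
  obtain ⟨W, hW⟩ : ∃ W, W = C₁ * (K + Real.sqrt e) := ⟨_, rfl⟩
  have hse := Real.sqrt_nonneg e
  have he0 : 0 ≤ e := by linarith
  have hWK : C₁ * K ≤ W := by
    rw [hW]
    nlinarith
  have hWe : 8 * M' * Real.sqrt e ≤ W := by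
    rw [hW]
    nlinarith
  have hW0 : 0 < W := by
    have : 0 < C₁ * K := by positivity
    linarith
  have heR : e ≤ |R| * (N : ℝ) ^ (49 / 100 : ℝ) := by
    refine het₀.trans ((P.rate t₀).trans ?_)
    calc R * (t₀ : ℝ) ^ (49 / 100 : ℝ) ≤ |R| * (t₀ : ℝ) ^ (49 / 100 : ℝ) :=
          mul_le_mul_of_nonneg_right (le_abs_self R) (by positivity)
      _ ≤ |R| * (N : ℝ) ^ (49 / 100 : ℝ) := by
          refine mul_le_mul_of_nonneg_left ?_ (abs_nonneg _)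
          exact Real.rpow_le_rpow (by positivity) (by exact_mod_cast ht₀) (by norm_num)
  have hWt : W ≤ δ' ^ 4 * Real.sqrt t := by
    have h1 := hwin N hN e heR
    rw [← hK, ← hW] at h1
    exact h1.trans (mul_le_mul_of_nonneg_left (Real.sqrt_le_sqrt htN1) (by positivity))
  obtain ⟨v, -, hv⟩ := sub94 (d := 2) (by norm_num) hρ β h t
  have hv' : ∀ g : Vec 2, A ρ β h t + inner ℝ v (g - h) ≤ A ρ β g t := by
    intro g
    have := hv (g - h)
    rwa [add_sub_cancel] at this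
  have hdens : ∀ r : ℝ, 0 < r → r ≤ δ' → ∀ (j : Fin 2) (s : ℝ), (s = 1 ∨ s = -1) →
      ∃ g : Vec 2, ‖g - h - (s * r) • ej j‖ ≤ r / 9 ∧ Va ρ β g t ≤ K := by
    intro r hr hrδ j s hs
    obtain ⟨g, hg1, hg2⟩ := P.dens t r hr (by linarith) j s hs
    exact ⟨g, hg1, hg2.trans (hkK t ht2N)⟩
  have hsd := sd96 (ρ := ρ) hρ (β := β) (h := h) (M := M) hM.le hM' hδ'2 ht1 he0 hW0 hWe P.curv
    (hE t htN)
  have hleak := leakN96 (M := M') (K := K) (W := W) (t := t) (x := St ρ β h L t) (C := C)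
    (C₁ := C₁) (N := N) hM1 hK1 hC ht0 (Nat.cast_le.2 htN) (hSt0 t) hSt (by rw [hC₁]; linarith) hWK
  have hgap2 : e / 20 ≤ A ρ β h L - A ρ β h t - A ρ β h (L - t) := by
    refine hgap.trans (le_of_eq ?_)
    unfold En
    rw [Nat.cast_sub htL]
    ring
  have hFF : Fn ρ β h L + Fn ρ β h t ≤ e / 20 / 32 := by
    have h1 := hF L hL
    have h2 := hF t ht2N
    linarith
  have h1 := hLk M' K δ' W (e / 20) h v L t hM1 hK1 hδ'0 hδ'1 ht1 htL hW0 hWt (hVa L hL)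
    (hVa (L - t) (by omega)) hv' hdens hsd hleak (by linarith) hgap2 hFF
  refine ⟨L - t, hm1, by exact_mod_cast hmN2, ?_⟩
  have h2 : A ρ β h (L - t) + e / 20 / 4 = A ρ β h (L - t) + e / 80 := by ring
  rw [h2] at h1
  rw [← hK]
  exact endN96 hK1 hC hC11 (Nat.cast_le.2 htN) (by linarith) (hSt0 t) hSt he0 hW measureReal_nonneg h1

end Pool.Agent.W_7d29a1_PL
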