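import Pool.Agent.W_7d29a1_PL.GrowK15
import Pool.Agent.W_7d29a1_PL.DefsPL

/-!
When the variance is at most a small power, the fluctuation beats every multiple of the logarithm,
and it is at most a small power (helper15): the leaves LOWQ and BETQ.
-/

namespace Pool.Agent.W_7d29a1_PL

open MeasureTheory ProbabilityTheory Filter Topology Pool.Agent.W_MP_7d29a1_pr
  Pool.Agent.W_7d29a1_h46 Pool.Agent.W_7d29a1_h46u Pool.Agent.W_7d29a1_D2.B35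
  Pool.Agent.W_7d29a1_Q29 Pool.Agent.W_7d29a1_R34 Pool.Agent.W_7d29a1_SP
  Pool.Agent.W_7d29a1_AM

/-- Luck at a good point, power bound. -/
def LkQ15 (ρ : Measure ℝ) (β : ℝ) : Prop := ∀ g M : ℝ, 0 < g → 0 < M → ∃ c₁ c₂ : ℝ,
  0 < c₁ ∧ 0 < c₂ ∧ c₂ ≤ 1 / 2 ∧
  ∀ (h : Vec 2) (δ Q c R : ℝ), 0 < δ → 1 ≤ Q → 0 < c → c ≤ c₁ → Pq ρ β h g M δ Q c R →
    ∃ N₀ : ℕ, 1000 ≤ N₀ ∧ LkK ρ β h c₂ (kp Q c) N₀

lemma kp_le_kq15 {Q c : ℝ} (hQ : 0 ≤ Q) (hc : 0 ≤ c) (t : ℕ) : kp Q c t ≤ kq15 Q c t := by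
  unfold kp kq15
  have h0 : (0 : ℝ) ≤ t := Nat.cast_nonneg t
  exact mul_le_mul_of_nonneg_left (Real.rpow_le_rpow h0 (by linarith) hc) hQ

lemma kp_pos15 {Q c : ℝ} (hQ : 1 ≤ Q) {t : ℕ} (ht : 1 ≤ t) : 0 < kp Q c t := by
  unfold kp
  have h0 : (0 : ℝ) < t := by exact_mod_cast ht
  exact mul_pos (by linarith) (Real.rpow_pos_of_pos h0 _)

/-- Luck with a larger bound. -/
lemma lkK_mono15 {ρ : Measure ℝ} {β : ℝ} {h : Vec 2} {c₂ : ℝ} {K K' : ℕ → ℝ} {N₀ : ℕ}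
    (hc₂ : 0 ≤ c₂) (hN₀ : 1 ≤ N₀) (hK : ∀ t : ℕ, 1 ≤ t → 0 < K t) (hKK : ∀ t : ℕ, K t ≤ K' t)
    (hL : LkK ρ β h c₂ K N₀) : LkK ρ β h c₂ K' N₀ := by
  intro N L e S hN he h1 h2 h3 h4 h5
  obtain ⟨m, hm1, hm2, hm3⟩ := hL N L e S hN he h1 h2 h3 h4 h5
  refine ⟨m, hm1, hm2, le_trans ?_ hm3⟩
  have hK0 : 0 < K (2 * N) := hK _ (by omega)
  have hKK' := hKK (2 * N)
  refine div_le_div_of_nonneg_left hc₂ (by positivity) ?_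
  refine mul_le_mul hKK' ?_ (by positivity) (hK0.le.trans hKK')
  have := pow_le_pow_left₀ hK0.le hKK' 2
  linarith

variable {ρ : Measure ℝ} [IsProbabilityMeasure ρ]

/-- The data of one tilt from a good point. -/
lemma dat15 {β : ℝ} (hL : LkQ15 ρ β) : ∀ g M : ℝ, 0 < g → 0 < M → ∃ c₁ c₂ : ℝ,
    0 < c₁ ∧ 0 < c₂ ∧ c₂ ≤ 1 / 2 ∧
    ∀ (h : Vec 2) (δ Q c R : ℝ), 0 < δ → 1 ≤ Q → 0 < c → c ≤ c₁ → Pq ρ β h g M δ Q c R →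
      ∃ N₀ : ℕ, 1000 ≤ N₀ ∧ LkK ρ β h c₂ (kq15 Q c) N₀ := by
  intro g M hg hM
  obtain ⟨c₁, c₂, hc₁, hc₂, hc₂1, hL'⟩ := hL g M hg hM
  refine ⟨c₁, c₂, hc₁, hc₂, hc₂1, fun h δ Q c R hδ hQ hc hcc hP => ?_⟩
  obtain ⟨N₀, hN₀, hL''⟩ := hL' h δ Q c R hδ hQ hc hcc hP
  exact ⟨N₀, hN₀, lkK_mono15 hc₂.le (by omega) (fun t ht => kp_pos15 hQ ht)
    (kp_le_kq15 (by linarith) hc.le) hL''⟩

/-- **LOWQ.** -/
theorem lowQ15 (hρ : EM ρ) {β : ℝ} (hS : SeqP) (hG : GrowU 2 ρ β) (hL : LkQ15 ρ β)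
    (hLoc : LocE 2 ρ β) (hGap : GapQ 2 ρ β) : LowQ ρ β := by
  intro g M B hg hM
  obtain ⟨c₀, hc₀, hLoc'⟩ := hLoc g hg
  obtain ⟨c₁, c₂, hc₁, hc₂, hc₂1, hL'⟩ := dat15 hL g M hg hM
  obtain ⟨C, hC, hG'⟩ := hG c₀ (10 ^ 5) hc₀ (by norm_num)
  obtain ⟨a, C', ha, hC', hgp⟩ := hGap g hg
  obtain ⟨ε₀, hε₀, hX⟩ := growK15 hρ (β := β) hS hC hc₂ hc₂1 ha (M := 2) (by norm_num)
  refine ⟨min c₁ ε₀, lt_min hc₁ hε₀, fun h δ Q c R hδ hQ hc hcc hP => ?_⟩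
  obtain ⟨N₀, hN₀, hLK⟩ := hL' h δ Q c R hδ hQ hc (hcc.trans (min_le_left _ _)) hP
  obtain ⟨-, n₁, hn₁⟩ := hX h C' Q c R N₀ hQ hc (hcc.trans (min_le_right _ _)) hN₀
    (fun n hn K hK hV => hgp h hP.gap n hn K hK hV) (hG' h (hLoc' h hP.gap)) hLK
    (fun t => (hP.var t).trans (kp_le_kq15 (by linarith) hc.le t)) hP.rate
  have hl : Tendsto (fun n : ℕ => Real.log n) atTop atTop :=
    Real.tendsto_log_atTop.comp tendsto_natCast_atTop_atTop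
  obtain ⟨n₂, hn₂⟩ := eventually_atTop.1 (hl.eventually_ge_atTop (|B| + 1))
  refine ⟨max n₁ n₂, fun n hn => ?_⟩
  by_contra hcon
  push Not at hcon
  have h1 := hn₁ n (by omega) (B * Real.log n) fun i hi => by
    have h2 := (hcon i hi).le
    unfold fM at h2
    exact ⟨(le_max_left _ _).trans h2, (le_max_right _ _).trans h2⟩
  have h3 := hn₂ n (by omega)
  rw [Real.rpow_two] at h1
  have h4 : 0 ≤ |B| := abs_nonneg B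
  have h5 : B ≤ |B| := le_abs_self B
  have h6 : B * Real.log n ≤ |B| * Real.log n := mul_le_mul_of_nonneg_right h5 (by linarith)
  have h7 : (|B| + 1) * Real.log n ≤ Real.log n * Real.log n :=
    mul_le_mul_of_nonneg_right h3 (by linarith)
  have h8 : Real.log (n : ℝ) ^ 2 = Real.log n * Real.log n := sq _
  have h9 : (|B| + 1) * Real.log n = |B| * Real.log n + Real.log n := by ring
  linarith

end Pool.Agent.W_7d29a1_PL
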