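import Pool.Agent.W_7d29a1_PL.LkQ95
import Pool.Agent.W_7d29a1_PL.LowQ15

/-!
Luck at a good point with a power bound of the variance, in the form of `LowQ15` (helper95).
-/

set_option autoImplicit false

namespace Pool.Agent.W_7d29a1_PL

open MeasureTheory ProbabilityTheory Filter Topology Pool.Agent.W_MP_7d29a1_pr
  Pool.Agent.W_7d29a1_h46 Pool.Agent.W_7d29a1_h46u Pool.Agent.W_7d29a1_D2.B35
  Pool.Agent.W_7d29a1_Q29 Pool.Agent.W_7d29a1_R34 Pool.Agent.W_7d29a1_SP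

/-- **LKQ.** Luck at a good point, power bound, the form used by `lowQ15`. -/
theorem lkQP95 {ρ : Measure ℝ} [IsProbabilityMeasure ρ] (hρ : EM ρ) {β : ℝ} (hLk : LuckP ρ β)
    (hNP : NPB 2 ρ β) : LkQ15 ρ β := by
  intro g M hg hM
  obtain ⟨c₂, h1, h2, h3⟩ := lkQ95 hρ hLk hNP g M hg hM
  exact ⟨1 / 8, c₂, by norm_num, h1, h2, h3⟩

end Pool.Agent.W_7d29a1_PL
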