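import Pool.Agent.W_7d29a1_SQ.Rec26
import Pool.Agent.W_7d29a1_SQ.Fin24

/-!
The upper bound of the fluctuations at one tilt, with a general bound of the influence of the last
rows: at the right records, then at every length.
-/

set_option autoImplicit false

namespace Pool.Agent.W_7d29a1_PL

open MeasureTheory ProbabilityTheory Filter Topology Pool.Agent.W_MP_7d29a1_pr
  Pool.Agent.W_7d29a1_h46 Pool.Agent.W_7d29a1_h46u Pool.Agent.W_7d29a1_D2.B35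
  Pool.Agent.W_7d29a1_Q29 Pool.Agent.W_7d29a1_R34 Pool.Agent.W_7d29a1_SP Pool.Agent.W_7d29a1_SD
  Pool.Agent.W_7d29a1_SQ

/-- Luck at the right records, with the bound `kp`. -/
def LmX26 (ρ : Measure ℝ) (β : ℝ) (h : Vec 2) (c : ℝ) (K : ℕ) (kp : ℕ → ℝ) : Prop :=
  ∃ Cs : ℝ, ∀ n : ℕ, RRec (Ps ρ β h) n → Cs ≤ Ps ρ β h n → ∃ m : ℕ, 1 ≤ m ∧ m ≤ K * n ∧
    c / kp (2000 * m) ^ 12 ≤ (law 2 ρ).real {η | A ρ β h m + c * Ps ρ β h n < X β h η m}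

/-- The influence of the last rows, with the bound `kp`. -/
def RsX26 (ρ : Measure ℝ) (β : ℝ) (h : Vec 2) (κ : ℝ) (kp : ℕ → ℝ) (j : ℕ) : Prop :=
  ∀ᶠ L : ℕ in atTop, RS ρ β h L ⌊κ * L⌋₊ (kp L ^ (2 * j + 3)) (10 / kp L ^ j)

/-- The upper bound at a right record, one tilt, a general bound. -/
theorem recX26 {ρ : Measure ℝ} [IsProbabilityMeasure ρ] (hρ : EM ρ) {β : ℝ} (hB : BalP 2 ρ β)
    (hA : AmpP 2 ρ β) (hS : SscF 2 ρ β) (c₀ κ c : ℝ) (K : ℕ) (Gc : ℝ) (hc₀ : 0 < c₀)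
    (hκ : 0 < κ) (hκ1 : κ ≤ c₀ / 4) (hc : 0 < c) (hK : 1 ≤ K) (hGc1 : 1 ≤ Gc) :
    ∃ (C Q₁ : ℝ) (j : ℕ), 1 ≤ C ∧ 1 ≤ Q₁ ∧ ∀ (h : Vec 2) (kp : ℕ → ℝ), Loc1 ρ β h c₀ →
      Monotone kp → (∀ n, Q₁ ≤ kp n) → (∀ m, kp (2000 * m) ≤ Gc * kp m) →
      LmX26 ρ β h c K kp → RsX26 ρ β h κ kp j → ∃ Cs : ℝ, ∀ n : ℕ, RRec (Ps ρ β h) n →
        Cs ≤ Ps ρ β h n → Ps ρ β h n ≤ C * kp (2 * K * n) ^ (2 * j + 3) := by
  obtain ⟨cB, hcB, hB'⟩ := hB c₀ (c / 2) hc₀ (by linarith) K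
  obtain ⟨CS, δ₀, hCS, hδ₀, hS'⟩ := hS c₀ hc₀
  obtain ⟨t, ht⟩ : ∃ t : ℝ, t = max 1 (2 * (CS * K + 1) / c) := ⟨_, rfl⟩
  have ht1 : 1 ≤ t := by
    rw [ht]
    exact le_max_left _ _
  have ht2 : CS * K + 1 ≤ c * t / 2 := by
    have h1 : 2 * (CS * K + 1) / c ≤ t := by
      rw [ht]
      exact le_max_right _ _
    rw [div_le_iff₀ hc] at h1
    linarith
  obtain ⟨CA, cA, hCA, hcA, hA'⟩ := hA t ht1
  obtain ⟨q₀, hq₀d⟩ : ∃ x : ℝ, x = min cB c := ⟨_, rfl⟩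
  have hq₀ : 0 < q₀ := by
    rw [hq₀d]
    exact lt_min hcB hc
  have hq₀B : q₀ ≤ cB := by
    rw [hq₀d]
    exact min_le_left _ _
  have hq₀c : q₀ ≤ c := by
    rw [hq₀d]
    exact min_le_right _ _
  obtain ⟨j, hj⟩ : ∃ j : ℕ, j = ⌈12 * CA + 1⌉₊ := ⟨_, rfl⟩
  have hj1 : 12 * CA + 1 ≤ (j : ℝ) := by
    rw [hj]
    exact Nat.le_ceil _
  have hj0 : 1 ≤ j := by
    have h1 : (1 : ℝ) ≤ j := by linarith
    exact_mod_cast h1
  obtain ⟨B₁, hB₁⟩ : ∃ x : ℝ, x = 10 * CS * Gc ^ (12 * CA) / (cA * q₀ ^ CA) := ⟨_, rfl⟩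
  refine ⟨2 * CS, max 1 (max (10 / δ₀) B₁), j, by linarith, le_max_left _ _,
    fun h kp hloc hkm hkQ hkG hLm hRs => ?_⟩
  obtain ⟨Q, hQd⟩ : ∃ x : ℝ, x = max 1 (max (10 / δ₀) B₁) := ⟨_, rfl⟩
  rw [← hQd] at hkQ
  have hQ1 : 1 ≤ Q := by
    rw [hQd]
    exact le_max_left _ _
  have hQ0 : 0 < Q := by linarith
  have hQδ : 10 / δ₀ ≤ Q := by
    rw [hQd]
    exact (le_max_left _ _).trans (le_max_right _ _)
  have hQB : B₁ ≤ Q := by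
    rw [hQd]
    exact (le_max_right _ _).trans (le_max_right _ _)
  obtain ⟨Cs, hCs⟩ := hLm
  obtain ⟨L₀, hL₀⟩ := Filter.eventually_atTop.1 hRs
  have hk1 : ∀ n, 1 ≤ kp n := fun n => hQ1.trans (hkQ n)
  have hP1 := one_le_Ps32 (ρ := ρ) (β := β) h
  refine ⟨max Cs (Ps ρ β h L₀ * kp (2000 * L₀) ^ 12 / c ^ 2 + 1), fun n hR hn => ?_⟩
  obtain ⟨m, hm1, hmK, hlm⟩ := hCs n hR ((le_max_left _ _).trans hn)
  have hbal := hB' h hloc n hR m hm1 hmK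
  have hΨ1 := hP1 n
  have hΨ0 : 0 < Ps ρ β h n := by linarith
  -- the length `m` is large
  have hmL : L₀ ≤ m := by
    by_contra hcon
    rw [not_le] at hcon
    have hx : 0 ≤ c * Ps ρ β h n := by positivity
    have h1 := markov26 (ρ := ρ) (d := 2) (by norm_num) hρ β h m hx
    have h2 : Fn ρ β h m ≤ Ps ρ β h L₀ := by
      have := Fn_le_Ps32 (ρ := ρ) (β := β) h hcon.le
      linarith
    have h3 : c * Ps ρ β h n * (c / kp (2000 * m) ^ 12) ≤ Ps ρ β h L₀ :=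
      (mul_le_mul_of_nonneg_left hlm hx).trans (h1.trans h2)
    have hkp : 0 < kp (2000 * m) ^ 12 := by
      have := hk1 (2000 * m)
      positivity
    have h4 : c * Ps ρ β h n * (c / kp (2000 * m) ^ 12) =
        c ^ 2 * Ps ρ β h n / kp (2000 * m) ^ 12 := by
      ring
    rw [h4, div_le_iff₀ hkp] at h3
    have h5 : kp (2000 * m) ^ 12 ≤ kp (2000 * L₀) ^ 12 :=
      pow_le_pow_left₀ (zero_le_one.trans (hk1 _)) (hkm (Nat.mul_le_mul_left _ hcon.le)) 12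
    have h6 : c ^ 2 * Ps ρ β h n ≤ Ps ρ β h L₀ * kp (2000 * L₀) ^ 12 :=
      h3.trans (mul_le_mul_of_nonneg_left h5 (zero_le_one.trans (hP1 L₀)))
    have h7 : Ps ρ β h n ≤ Ps ρ β h L₀ * kp (2000 * L₀) ^ 12 / c ^ 2 := by
      rw [le_div_iff₀ (by positivity)]
      linarith
    have h8 := (le_max_right Cs _).trans hn
    linarith
  -- amplification
  have hkx1 : 1 ≤ kp (2000 * m) := hk1 _
  have hkx0 : 0 < kp (2000 * m) := by linarith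
  have hkp : 1 ≤ kp (2000 * m) ^ 12 := one_le_pow₀ hkx1
  have hq0 : 0 < q₀ / kp (2000 * m) ^ 12 := by positivity
  have hqB : q₀ / kp (2000 * m) ^ 12 ≤ cB := by
    refine le_trans ?_ hq₀B
    rw [div_le_iff₀ (by positivity)]
    nlinarith
  have hqc : q₀ / kp (2000 * m) ^ 12 ≤ c / kp (2000 * m) ^ 12 :=
    div_le_div_of_nonneg_right hq₀c (by positivity)
  have hamp := hA' h m (A ρ β h m + c / 2 * Ps ρ β h n) (A ρ β h m + c * Ps ρ β h n)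
    (q₀ / kp (2000 * m) ^ 12) hq0 (by nlinarith) (hqB.trans hbal) (hqc.trans hlm)
  obtain ⟨x, hx⟩ : ∃ x : ℝ, x = c * Ps ρ β h n + t * (c / 2 * Ps ρ β h n) := ⟨_, rfl⟩
  have e1 : A ρ β h m + c * Ps ρ β h n +
      t * (A ρ β h m + c * Ps ρ β h n - (A ρ β h m + c / 2 * Ps ρ β h n)) =
      A ρ β h m + x := by
    rw [hx]
    ring
  rw [e1] at hamp
  have hamp2 : cA * (q₀ / kp (2000 * m) ^ 12) ^ CA ≤
      (law 2 ρ).real {η | A ρ β h m + x ≤ X β h η m} :=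
    hamp.trans (measureReal_mono fun η hη => by
      have h1 : A ρ β h m + x < X β h η m := hη
      exact h1.le)
  -- the scale
  have hkm1 : 1 ≤ kp m := hk1 m
  have hkm0 : 0 < kp m := by linarith
  have hp := prob26 (cA := cA) (q₀ := q₀) (CA := CA) (CS := CS) (Gc := Gc)
    (kx := kp (2000 * m)) (k1 := kp m) (Q := Q) (j' := (j : ℝ)) hcA hq₀ hCA hGc1
    hkm1 hkx0 (hkG m) (hkQ m) (by linarith) hj1 (by rwa [← hB₁])
  rw [Real.rpow_natCast] at hp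
  have hδ0 : 0 < 10 / kp m ^ j := by positivity
  have hδδ : 10 / kp m ^ j ≤ δ₀ := by
    have h1 : Q ≤ kp m ^ j := (hkQ m).trans (le_self_pow₀ hkm1 (by omega))
    rw [div_le_iff₀ hδ₀] at hQδ
    rw [div_le_iff₀ (by positivity)]
    calc (10 : ℝ) ≤ Q * δ₀ := hQδ
      _ ≤ kp m ^ j * δ₀ := mul_le_mul_of_nonneg_right h1 hδ₀.le
      _ = δ₀ * kp m ^ j := by ring
  have hM1 : 1 ≤ kp (2 * m) ^ (2 * j + 3) := one_le_pow₀ (hk1 _)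
  have hfin := hS' h hloc κ m x (kp (2 * m) ^ (2 * j + 3)) (10 / kp m ^ j)
    (K * Ps ρ β h n) hκ hκ1 hm1 (by linarith) hδ0 hδδ
    (fun L hL1 hL2 => by
      refine RS_mono26 ?_ ?_ (hL₀ L (hmL.trans hL1))
      · exact pow_le_pow_left₀ (zero_le_one.trans (hk1 _)) (hkm hL2) _
      · exact div_le_div_of_nonneg_left (by norm_num) (by positivity)
          (pow_le_pow_left₀ hkm0.le (hkm hL1) _))
    (fun k hk => by
      have h1 : Ps ρ β h (K * n) ≤ K * Ps ρ β h n :=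
        rrec26 (fun n => zero_le_one.trans (hP1 n)) hK hR
      have h2 := En_le_Ps32 (ρ := ρ) (β := β) h (hk.trans hmK)
      have h3 := Fn_le_Ps32 (ρ := ρ) (β := β) h (hk.trans hmK)
      exact ⟨by linarith, by linarith⟩)
    (hp.trans hamp2)
  -- the conclusion
  have h9 : (CS * K + 1) * Ps ρ β h n ≤ c * t / 2 * Ps ρ β h n :=
    mul_le_mul_of_nonneg_right ht2 hΨ0.le
  have h10 : 0 ≤ c * Ps ρ β h n := by positivity
  have h11 : Ps ρ β h n ≤ CS * (kp (2 * m) ^ (2 * j + 3) + 1) := by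
    have h12 : x = c * Ps ρ β h n + c * t / 2 * Ps ρ β h n := by
      rw [hx]
      ring
    nlinarith
  have h13 : kp (2 * m) ^ (2 * j + 3) ≤ kp (2 * K * n) ^ (2 * j + 3) := by
    refine pow_le_pow_left₀ (zero_le_one.trans (hk1 _)) (hkm ?_) _
    rw [mul_assoc]
    exact Nat.mul_le_mul_left _ hmK
  calc Ps ρ β h n ≤ CS * (kp (2 * m) ^ (2 * j + 3) + 1) := h11
    _ ≤ CS * (kp (2 * K * n) ^ (2 * j + 3) + kp (2 * K * n) ^ (2 * j + 3)) :=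
        mul_le_mul_of_nonneg_left (by linarith) (by linarith)
    _ = 2 * CS * kp (2 * K * n) ^ (2 * j + 3) := by ring

/-- From the right records to every length (real analysis): a power bound. -/
theorem allX26 {f : ℕ → ℝ} {C₀ C Cs a : ℝ} {K : ℕ} (hC₀ : 0 ≤ C₀) (hC : 0 ≤ C) (ha : 0 ≤ a)
    (ha1 : a ≤ 2 / 3) (h1 : ∀ n, 1 ≤ f n)
    (hf : ∀ n : ℕ, f n ≤ 1 + C₀ * (n : ℝ) ^ (51 / 100 : ℝ))
    (hr : ∀ n : ℕ, RRec f n → Cs ≤ f n → f n ≤ C * ((K * n : ℕ) : ℝ) ^ a) (n : ℕ) (hn : 1 ≤ n) :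
    f n ≤ max Cs (C * (K : ℝ) ^ a * (n : ℝ) ^ a) := by
  by_cases hcs : f n ≤ Cs
  · exact hcs.trans (le_max_left _ _)
  rw [not_le] at hcs
  refine le_trans ?_ (le_max_right _ _)
  obtain ⟨T, hnT, hT, hT2⟩ := rrec24 f C₀ hC₀ h1 hf n hn
  have hn0 : (0 : ℝ) < n := by exact_mod_cast hn
  have hT0 : (0 : ℝ) < T := by exact_mod_cast (Nat.lt_of_lt_of_le hn hnT)
  have hx1 : 1 ≤ (T : ℝ) / n := by
    rw [le_div_iff₀ hn0, one_mul]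
    exact_mod_cast hnT
  have hf0 : 0 < f n := by linarith [h1 n]
  have hge : f n ≤ f T := by
    have h2 : (1 : ℝ) ≤ ((T : ℝ) / n) ^ (2 / 3 : ℝ) := Real.one_le_rpow hx1 (by norm_num)
    nlinarith
  have h3 := hr T hT (hcs.le.trans hge)
  have h4 : ((K * T : ℕ) : ℝ) ^ a = (K : ℝ) ^ a * (n : ℝ) ^ a * ((T : ℝ) / n) ^ a := by
    have e1 : ((K * T : ℕ) : ℝ) = K * (n * ((T : ℝ) / n)) := by
      push_cast
      field_simp
    rw [e1, Real.mul_rpow (by positivity) (by positivity),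
      Real.mul_rpow hn0.le (by positivity), mul_assoc]
  have h5 : ((T : ℝ) / n) ^ a ≤ ((T : ℝ) / n) ^ (2 / 3 : ℝ) :=
    Real.rpow_le_rpow_of_exponent_le hx1 ha1
  have h6 : 0 < ((T : ℝ) / n) ^ (2 / 3 : ℝ) := by positivity
  have h7 : f n * ((T : ℝ) / n) ^ (2 / 3 : ℝ) ≤
      (C * (K : ℝ) ^ a * (n : ℝ) ^ a) * ((T : ℝ) / n) ^ (2 / 3 : ℝ) := by
    calc f n * ((T : ℝ) / n) ^ (2 / 3 : ℝ) ≤ f T := hT2
      _ ≤ C * ((K * T : ℕ) : ℝ) ^ a := h3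
      _ = (C * (K : ℝ) ^ a * (n : ℝ) ^ a) * ((T : ℝ) / n) ^ a := by
          rw [h4]
          ring
      _ ≤ (C * (K : ℝ) ^ a * (n : ℝ) ^ a) * ((T : ℝ) / n) ^ (2 / 3 : ℝ) :=
          mul_le_mul_of_nonneg_left h5 (by positivity)
  exact le_of_mul_le_mul_right h7 h6

/-- The power bound as a bound `kp`. -/
noncomputable def kpw26 (Q ε : ℝ) (n : ℕ) : ℝ := Q * (max 1 (n : ℝ)) ^ ε

lemma kpw26_mono {Q ε : ℝ} (hQ : 0 ≤ Q) (hε : 0 ≤ ε) : Monotone (kpw26 Q ε) := by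
  intro a b hab
  unfold kpw26
  have hab' : (a : ℝ) ≤ b := by exact_mod_cast hab
  refine mul_le_mul_of_nonneg_left (Real.rpow_le_rpow ?_ (max_le_max le_rfl hab') hε) hQ
  exact zero_le_one.trans (le_max_left _ _)

lemma le_kpw26 {Q ε : ℝ} (hQ : 0 ≤ Q) (hε : 0 ≤ ε) (n : ℕ) : Q ≤ kpw26 Q ε n := by
  unfold kpw26
  have h1 : (1 : ℝ) ≤ (max 1 (n : ℝ)) ^ ε := Real.one_le_rpow (le_max_left _ _) hε
  nlinarith

lemma kpw26_mul {Q ε : ℝ} (hQ : 0 ≤ Q) (hε : 0 ≤ ε) (hε1 : ε ≤ 1) (m : ℕ) :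
    kpw26 Q ε (2000 * m) ≤ 2000 * kpw26 Q ε m := by
  unfold kpw26
  have h1 : max 1 ((2000 * m : ℕ) : ℝ) ≤ 2000 * max 1 (m : ℝ) := by
    push_cast
    refine max_le ?_ ?_
    · have : (1 : ℝ) ≤ max 1 (m : ℝ) := le_max_left _ _
      linarith
    · exact mul_le_mul_of_nonneg_left (le_max_right _ _) (by norm_num)
  have h0 : (0 : ℝ) ≤ max 1 ((2000 * m : ℕ) : ℝ) := zero_le_one.trans (le_max_left _ _)
  have h2 : (max 1 ((2000 * m : ℕ) : ℝ)) ^ ε ≤ 2000 * (max 1 (m : ℝ)) ^ ε := by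
    refine (Real.rpow_le_rpow h0 h1 hε).trans ?_
    rw [Real.mul_rpow (by norm_num) (zero_le_one.trans (le_max_left _ _))]
    refine mul_le_mul_of_nonneg_right ?_ (Real.rpow_nonneg
      (zero_le_one.trans (le_max_left _ _)) _)
    calc (2000 : ℝ) ^ ε ≤ 2000 ^ (1 : ℝ) :=
          Real.rpow_le_rpow_of_exponent_le (by norm_num) hε1
      _ = 2000 := Real.rpow_one _
  calc Q * (max 1 ((2000 * m : ℕ) : ℝ)) ^ ε ≤ Q * (2000 * (max 1 (m : ℝ)) ^ ε) :=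
        mul_le_mul_of_nonneg_left h2 hQ
    _ = 2000 * (Q * (max 1 (m : ℝ)) ^ ε) := by ring

/-- **(Up)**: the fluctuations are at most `n ^ (ε (2 j + 3))` at every length. -/
theorem upX26 {ρ : Measure ℝ} [IsProbabilityMeasure ρ] (hρ : EM ρ) {β : ℝ} (hB : BalP 2 ρ β)
    (hA : AmpP 2 ρ β) (hS : SscF 2 ρ β) (hP : PriP 2 ρ β) (c₀ κ c : ℝ) (K : ℕ) (hc₀ : 0 < c₀)
    (hκ : 0 < κ) (hκ1 : κ ≤ c₀ / 4) (hc : 0 < c) (hK : 1 ≤ K) :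
    ∃ (Q₁ : ℝ) (j : ℕ), 1 ≤ Q₁ ∧ ∀ (h : Vec 2) (Q ε : ℝ), Loc1 ρ β h c₀ → Q₁ ≤ Q → 0 ≤ ε →
      ε * (2 * j + 3 : ℕ) ≤ 2 / 3 → LmX26 ρ β h c K (kpw26 Q ε) →
      RsX26 ρ β h κ (kpw26 Q ε) j →
        ∃ C' : ℝ, ∀ n : ℕ, 1 ≤ n → Ps ρ β h n ≤ C' * (n : ℝ) ^ (ε * (2 * j + 3 : ℕ)) := by
  obtain ⟨C, Q₁, j, hC, hQ₁, H⟩ := recX26 hρ hB hA hS c₀ κ c K 2000 hc₀ hκ hκ1 hc hK
    (by norm_num)
  refine ⟨Q₁, j, hQ₁, fun h Q ε hloc hQ hε hεj hLm hRs => ?_⟩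
  have hQ0 : 0 ≤ Q := by linarith
  have hj3 : (3 : ℝ) ≤ ((2 * j + 3 : ℕ) : ℝ) := by
    push_cast
    have : (0 : ℝ) ≤ j := Nat.cast_nonneg j
    linarith
  have hε1 : ε ≤ 1 := by nlinarith
  obtain ⟨Cs, hCs⟩ := H h (kpw26 Q ε) hloc (kpw26_mono hQ0 hε)
    (fun n => hQ.trans (le_kpw26 hQ0 hε n)) (kpw26_mul hQ0 hε hε1) hLm hRs
  obtain ⟨C₀, hC₀, hP'⟩ := hP h
  have ha : 0 ≤ ε * ((2 * j + 3 : ℕ) : ℝ) := by positivity
  have hall := fun (n : ℕ) (hn : 1 ≤ n) => allX26 (f := Ps ρ β h) (C₀ := 2 * C₀)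
    (C := C * Q ^ (2 * j + 3)) (Cs := Cs) (a := ε * ((2 * j + 3 : ℕ) : ℝ)) (K := 2 * K)
    (by positivity) (by positivity) ha hεj (one_le_Ps32 h) (Ps_le32 h hC₀ hP')
    (fun n hn hcs => by
      have h1 := hCs n hn hcs
      have h2 : 1 ≤ 2 * K * n := by
        have := hn.1
        have h3 : 1 ≤ K * n := Nat.mul_le_mul hK this
        nlinarith
      have h2' : (1 : ℝ) ≤ ((2 * K * n : ℕ) : ℝ) := by exact_mod_cast h2
      have e1 : kpw26 Q ε (2 * K * n) ^ (2 * j + 3) =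
          Q ^ (2 * j + 3) * ((2 * K * n : ℕ) : ℝ) ^ (ε * ((2 * j + 3 : ℕ) : ℝ)) := by
        unfold kpw26
        rw [max_eq_right h2', mul_pow, Real.rpow_mul (by positivity), Real.rpow_natCast]
      rw [e1] at h1
      rw [mul_assoc]
      exact h1) n hn
  refine ⟨max (max Cs 0) (C * Q ^ (2 * j + 3) *
    ((2 * K : ℕ) : ℝ) ^ (ε * ((2 * j + 3 : ℕ) : ℝ))), fun n hn => ?_⟩
  have hn1 : (1 : ℝ) ≤ n := by exact_mod_cast hn
  have hp1 : (1 : ℝ) ≤ (n : ℝ) ^ (ε * ((2 * j + 3 : ℕ) : ℝ)) := Real.one_le_rpow hn1 ha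
  refine (hall n hn).trans (max_le ?_ ?_)
  · calc Cs ≤ max Cs 0 := le_max_left _ _
      _ ≤ max (max Cs 0) _ := le_max_left _ _
      _ = max (max Cs 0) _ * 1 := (mul_one _).symm
      _ ≤ _ := mul_le_mul_of_nonneg_left hp1 ((le_max_right Cs 0).trans (le_max_left _ _))
  · exact mul_le_mul_of_nonneg_right (le_max_right _ _) (zero_le_one.trans hp1)

end Pool.Agent.W_7d29a1_PL
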