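import Pool.Agent.W_7d29a1_SQ.LmP96
import Pool.Agent.W_7d29a1_PL.UpX26

/-!
Luck at a right record with a general bound of the tube (helper96): leaf LMX.
-/

namespace Pool.Agent.W_7d29a1_PL

open MeasureTheory ProbabilityTheory Filter Topology Pool.Agent.W_MP_7d29a1_pr
  Pool.Agent.W_7d29a1_h46 Pool.Agent.W_7d29a1_h46u Pool.Agent.W_7d29a1_D2.B35
  Pool.Agent.W_7d29a1_Q29 Pool.Agent.W_7d29a1_R34 Pool.Agent.W_7d29a1_SP Pool.Agent.W_7d29a1_SD
  Pool.Agent.W_7d29a1_SQ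

open Pool.Agent.W_7d29a1_SQ.LM96

/-- **LMX.** Luck at a right record, with a general bound `kp` of the tube. -/
theorem lmX96 {ρ : Measure ℝ} [IsProbabilityMeasure ρ] (hρ : EM ρ) {β : ℝ} (hF : FluP 2 ρ β)
    (hS : SeqQ) (hL : LktP ρ β) (hP : PriP 2 ρ β) (c₀ κ : ℝ) (hc₀ : 0 < c₀) (hκ : 0 < κ)
    (hκ1 : κ ≤ 1 / 4000) : ∃ (c : ℝ) (K : ℕ) (Q₀ : ℝ), 0 < c ∧ c ≤ 1 ∧ 1 ≤ K ∧ 1 ≤ Q₀ ∧
      ∀ (h v : Vec 2) (kp : ℕ → ℝ), Monotone kp → (∀ n, Q₀ ≤ kp n) → Loc1 ρ β h c₀ →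
        (∀ᶠ L : ℕ in atTop, Tb ρ β h v (kp L) L ≤ 1 / Q₀) →
        (∀ᶠ L : ℕ in atTop, RS ρ β h L ⌊κ * L⌋₊ (kp L ^ 5) (10 / kp L)) →
          LmX26 ρ β h c K kp := by
  obtain ⟨N₁, hS⟩ := hS
  obtain ⟨C, θ, M₀, hC, hθ, hM₀, hL⟩ := hL
  obtain ⟨K, hK⟩ : ∃ K : ℕ, K = 2 * 4 ^ 12 := ⟨_, rfl⟩
  obtain ⟨cF, hcF, hF⟩ := hF c₀ (1 / 10240) hc₀ (by norm_num) K
  obtain ⟨c, hcdef⟩ : ∃ c : ℝ, c = min (min cF (1 / 81920)) (1 / (400 * C)) := ⟨_, rfl⟩
  have hc0 : 0 < c := by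
    rw [hcdef]
    exact lt_min (lt_min hcF (by norm_num)) (by positivity)
  have hc1 : c ≤ cF := by
    rw [hcdef]
    exact (min_le_left _ _).trans (min_le_left _ _)
  have hc2 : c ≤ 1 / 81920 := by
    rw [hcdef]
    exact (min_le_left _ _).trans (min_le_right _ _)
  have hc3 : c ≤ 1 / (400 * C) := by
    rw [hcdef]
    exact min_le_right _ _
  obtain ⟨Q, hQd⟩ : ∃ Q : ℝ, Q = max (max M₀ (10 / θ)) (1 / θ) := ⟨_, rfl⟩
  have hQ1 : M₀ ≤ Q := by rw [hQd]; exact (le_max_left _ _).trans (le_max_left _ _)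
  have hQ2 : 10 / θ ≤ Q := by rw [hQd]; exact (le_max_right _ _).trans (le_max_left _ _)
  have hQ3 : 1 / θ ≤ Q := by rw [hQd]; exact le_max_right _ _
  have hQone : 1 ≤ Q := hM₀.trans hQ1
  refine ⟨c, K, Q, hc0, by linarith, by rw [hK]; norm_num, hQone, ?_⟩
  intro h v kp hmono hle hLoc htb hrsE
  have hQ0 : 0 < Q := by linarith
  obtain ⟨C₀, hC₀, hP⟩ := hP h
  obtain ⟨L₁, hL₁⟩ := eventually_atTop.1 htb
  obtain ⟨L₂, hL₂⟩ := eventually_atTop.1 hrsE
  -- the threshold for `N`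
  obtain ⟨N₂, hN₂⟩ : ∃ N₂ : ℕ, N₂ = N₁ + 1000 * (L₁ + L₂) + 1000 := ⟨_, rfl⟩
  refine ⟨4 * C₀ * (N₂ : ℝ) ^ (51 / 100 : ℝ) + 2000, ?_⟩
  intro n hn hΨ
  obtain ⟨Ψ, hΨdef⟩ : ∃ Ψ, Ψ = Ps ρ β h n := ⟨_, rfl⟩
  rw [← hΨdef] at hΨ ⊢
  have hN20 : 0 ≤ 4 * C₀ * (N₂ : ℝ) ^ (51 / 100 : ℝ) := by positivity
  have hΨ2 : 2000 ≤ Ψ := by linarith
  have hΨ0 : 0 < Ψ := by linarith
  have hkap1 : ∀ a : ℕ, 1 ≤ kp a := fun a => hQone.trans (hle a)
  by_cases hcase : ∃ m : ℕ, 1 ≤ m ∧ m ≤ K * n ∧ 1 / 10240 * Ψ ≤ Fn ρ β h m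
  · -- a large random fluctuation
    obtain ⟨m, hm1, hm2, hm3⟩ := hcase
    refine ⟨m, hm1, hm2, ?_⟩
    have h1 := hF h hLoc n hn m hm1 hm2 (by rw [← hΨdef]; exact hm3)
    have h2 : (law 2 ρ).real {η | A ρ β h m + Fn ρ β h m / 8 < X β h η m} ≤
        (law 2 ρ).real {η | A ρ β h m + c * Ψ < X β h η m} := by
      refine measureReal_mono (fun η hη => ?_) (measure_ne_top _ _)
      have h3 : A ρ β h m + Fn ρ β h m / 8 < X β h η m := hη
      have h4 : c * Ψ ≤ 1 / 81920 * Ψ := mul_le_mul_of_nonneg_right hc2 hΨ0.le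
      change A ρ β h m + c * Ψ < X β h η m
      linarith
    have h3 : c / kp (2000 * m) ^ 12 ≤ c := by
      rw [div_le_iff₀ (pow_pos (by linarith [hkap1 (2000 * m)]) 12)]
      exact le_mul_of_one_le_right hc0.le (one_le_pow₀ (hkap1 _))
    linarith
  -- all the random fluctuations are small
  push Not at hcase
  by_contra hcon
  push Not at hcon
  have hFs : ∀ m : ℕ, m ≤ K * n → Fn ρ β h m < 1 / 10240 * Ψ := by
    intro m hm
    rcases Nat.eq_zero_or_pos m with h0 | h0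
    · subst h0
      rw [Fn_zero15]
      positivity
    · exact hcase m h0 hm
  have hKn : n ≤ K * n := Nat.le_mul_of_pos_left n (by rw [hK]; norm_num)
  obtain ⟨k, j, hkn, hjn, hPs⟩ := Ps_eq ρ β h n
  rw [← hΨdef] at hPs
  have hEk : Ψ / 2 ≤ En ρ β h k := by
    have h1 := hFs j (hjn.trans hKn)
    linarith
  have hE0 : ∀ m : ℕ, 0 ≤ En ρ β h m := fun m => En_nonneg15 (by norm_num) hρ β h m
  obtain ⟨N, e, hN1, he0, hEN, ⟨t₀, ht₀, het₀⟩, hke, hlen, hseq⟩ := hS (En ρ β h) C₀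
    (En_zero15 β h) hE0 (fun a b => En_add15 (by norm_num) hρ β h a b) (fun m => by
      rcases Nat.eq_zero_or_pos m with h0 | h0
      · subst h0
        rw [En_zero15]
        positivity
      · have h1 : (1 : ℝ) ≤ m := by exact_mod_cast h0
        exact (hP m).1.trans (mul_le_mul_of_nonneg_left
          (Real.rpow_le_rpow_of_exponent_le h1 (by norm_num)) hC₀)) n k hkn (by linarith)
  have he1 : Ψ / 4 ≤ e := by linarith
  have hNn : N ≤ 4 ^ 12 * n := by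
    refine len_le hn.1 hΨ0 hEk hlen fun hnN => ?_
    have h1 : 1 + En ρ β h t₀ + Fn ρ β h 0 ≤ Ps ρ β h N := Ps_ge ht₀ (Nat.zero_le _)
    rw [Fn_zero15] at h1
    have h2 := hn.2 N hnN
    rw [← hΨdef] at h2
    linarith
  have h2N : 2 * N ≤ K * n := by
    rw [hK]
    calc 2 * N ≤ 2 * (4 ^ 12 * n) := Nat.mul_le_mul_left 2 hNn
      _ = 2 * 4 ^ 12 * n := by ring
  have hNN2 : N₂ < N := by
    by_contra hcon2
    push Not at hcon2
    have h1 : e ≤ C₀ * (N₂ : ℝ) ^ (51 / 100 : ℝ) := by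
      refine het₀.trans ((hP t₀).1.trans (mul_le_mul_of_nonneg_left ?_ hC₀))
      exact Real.rpow_le_rpow (by positivity) (by exact_mod_cast ht₀.trans hcon2) (by norm_num)
    linarith
  obtain ⟨L, S, hL2, hcard, hSt⟩ := hseq (by omega)
  have hN0 : (0 : ℝ) < N := by exact_mod_cast hN1
  have hNbig : ((N₁ + 1000 * (L₁ + L₂) + 1000 : ℕ) : ℝ) < N := by
    rw [← hN₂]
    exact_mod_cast hNN2
  have hSne : S.Nonempty := by
    rw [Finset.nonempty_iff_ne_empty]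
    intro h0
    rw [h0] at hcard
    simp at hcard
    linarith
  have hLN : (N : ℝ) / 1000 ≤ L := by
    obtain ⟨t, ht⟩ := hSne
    obtain ⟨h1, h2, -⟩ := hSt t ht
    have h3 : (t : ℝ) ≤ L := by exact_mod_cast h1
    linarith
  have hLbig : L₁ + L₂ ≤ L := by
    have h1 : ((L₁ + L₂ : ℕ) : ℝ) ≤ L := by
      push_cast at hNbig ⊢
      linarith
    exact_mod_cast h1
  have hL2' : (L : ℝ) ≤ 2 * N := by exact_mod_cast hL2
  have hL0 : (0 : ℝ) < L := by
    have : (0 : ℝ) < (N : ℝ) / 1000 := by positivity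
    linarith
  obtain ⟨R, hR⟩ : ∃ R, R = kp L := ⟨_, rfl⟩
  have hRQ : Q ≤ R := by
    rw [hR]
    exact hle L
  have hR1 : 1 ≤ R := hQone.trans hRQ
  have hR0 : 0 < R := by linarith
  have htub : Tb ρ β h v R L ≤ θ := by
    rw [hR]
    refine (hL₁ L (by omega)).trans ?_
    rw [div_le_iff₀ hQ0]
    rw [div_le_iff₀ hθ] at hQ3
    linarith
  have hrs : RS ρ β h L ⌊κ * L⌋₊ (R ^ 5) θ := by
    have h1 := hL₂ L (by omega)
    rw [← hR] at h1
    unfold RS at h1 ⊢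
    refine h1.trans ?_
    rw [div_le_iff₀ hR0]
    rw [div_le_iff₀ hθ] at hQ2
    nlinarith
  have hM5 : M₀ ≤ R ^ 5 := by
    have h1 : R ≤ R ^ 5 := le_self_pow₀ hR1 (by norm_num)
    linarith
  obtain ⟨P, hPdef⟩ : ∃ P, P = c / R ^ 12 := ⟨_, rfl⟩
  have hP0 : 0 ≤ P := by
    rw [hPdef]
    positivity
  have hmain := hL h v L ⌊κ * L⌋₊ R (R ^ 5) (e / 40) P S hR1 hM5 (by linarith) hP0 hrs htub
    (fun t ht => by
      obtain ⟨h1, h2, h3, h4, h5, h6⟩ := hSt t ht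
      have h3' : t ≤ N := by exact_mod_cast h3
      have h5' : L - t ≤ N := by exact_mod_cast h5
      have hm1 : 1 ≤ L - t := by
        have h7 : (0 : ℝ) < (L - t : ℕ) := by
          have : (0 : ℝ) < (N : ℝ) / 1000 := by positivity
          linarith
        exact_mod_cast h7
      refine ⟨?_, h1, ?_, ?_, ?_⟩
      · have h7 : (⌊κ * L⌋₊ : ℝ) ≤ κ * L := Nat.floor_le (by positivity)
        have h8 : κ * L ≤ 1 / 4000 * (2 * N) := mul_le_mul hκ1 hL2' hL0.le (by norm_num)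
        have h9 : (⌊κ * L⌋₊ : ℝ) < t := by linarith
        exact_mod_cast h9
      · refine h6.trans (le_of_eq ?_)
        unfold Gp En
        rw [Nat.add_sub_cancel' h1, Nat.cast_sub h1]
        ring
      · have h7 := hFs L (hL2.trans h2N)
        have h8 := hFs t (by omega)
        linarith
      · have h7 := hcon (L - t) hm1 (by omega)
        have h8 : (law 2 ρ).real {η | A ρ β h (L - t) + e / 40 / 4 < X β h η (L - t)} ≤
            (law 2 ρ).real {η | A ρ β h (L - t) + c * Ψ < X β h η (L - t)} := by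
          refine measureReal_mono (fun η hη => ?_) (measure_ne_top _ _)
          have h9 : A ρ β h (L - t) + e / 40 / 4 < X β h η (L - t) := hη
          have h10 : c * Ψ ≤ 1 / 81920 * Ψ := mul_le_mul_of_nonneg_right hc2 hΨ0.le
          change A ρ β h (L - t) + c * Ψ < X β h η (L - t)
          linarith
        have h9 : L ≤ 2000 * (L - t) := by
          have h10 : (L : ℝ) ≤ ((2000 * (L - t) : ℕ) : ℝ) := by
            rw [Nat.cast_mul]
            push_cast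
            linarith
          exact_mod_cast h10
        have h10 : R ≤ kp (2000 * (L - t)) := by
          rw [hR]
          exact hmono h9
        have h11 : c / kp (2000 * (L - t)) ^ 12 ≤ P := by
          rw [hPdef]
          exact div_le_div_of_nonneg_left hc0.le (by positivity)
            (pow_le_pow_left₀ hR0.le h10 12)
        linarith)
  have h1 : C * (R ^ 5) ^ 2 * R ^ 2 * L * P = C * c * L := by
    rw [hPdef]
    field_simp
  rw [h1] at hmain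
  have h2 : C * c ≤ 1 / 400 := by
    have h3 : C * c ≤ C * (1 / (400 * C)) := mul_le_mul_of_nonneg_left hc3 (by linarith)
    have h4 : C * (1 / (400 * C)) = 1 / 400 := by
      field_simp
    linarith
  have h3 : C * c * L ≤ 1 / 400 * (2 * N) := by
    calc C * c * L ≤ 1 / 400 * L := mul_le_mul_of_nonneg_right h2 hL0.le
      _ ≤ 1 / 400 * (2 * N) := by linarith
  linarith

end Pool.Agent.W_7d29a1_PL
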