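import Pool.Agent.W_7d29a1_SW.WZero98
import Pool.Agent.W_7d29a1_Q29.Pt94
import Pool.Agent.W_7d29a1_WP.DefsWP

/-!
The window of the point data from the tubes (helper32).
-/

namespace Pool.Agent.W_7d29a1_PL

open MeasureTheory ProbabilityTheory Filter Topology Pool.Agent.W_MP_7d29a1_pr
  Pool.Agent.W_7d29a1_h46 Pool.Agent.W_7d29a1_h46u Pool.Agent.W_7d29a1_D2.B35
  Pool.Agent.W_7d29a1_Q29 Pool.Agent.W_7d29a1_R34 Pool.Agent.W_7d29a1_SP Pool.Agent.W_7d29a1_SD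
  Pool.Agent.W_7d29a1_SW Pool.Agent.W_7d29a1_WP

variable {ρ : Measure ℝ} {β : ℝ}

/-- The window from the tubes. -/
lemma locS32 [IsProbabilityMeasure ρ] {h v : Vec 2} {Q ε Q' ε' : ℝ} {N : ℕ} (hQ0 : 0 ≤ Q)
    (hε : 0 ≤ ε) (hεε : ε ≤ ε') (hQQ : Q ≤ Q') (hQN : (1 + ‖v‖) * ((N : ℝ) + 1) ≤ Q')
    (htub : ∀ n : ℕ, N ≤ n → Tb ρ β h v (Q * (n : ℝ) ^ ε) n ≤ 1 / 8) (n t : ℕ) (ht : t ≤ n) :
    ∫ η, (1 - ∑ y ∈ bal v t (pg Q' ε' n * Real.sqrt n), Qt β h n t y η) ∂(law 2 ρ) ≤ 1 / 8 := by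
  have hd : 0 < 2 := by norm_num
  have hv0 := norm_nonneg v
  have hQ'0 : 0 < Q' := by
    have hN0 : (0 : ℝ) ≤ N := Nat.cast_nonneg N
    have : (1 : ℝ) ≤ (1 + ‖v‖) * ((N : ℝ) + 1) := by nlinarith
    linarith
  have hn0 : (0 : ℝ) ≤ n := Nat.cast_nonneg n
  have hp1 : 1 ≤ ((n : ℝ) + 1) ^ ε' := Real.one_le_rpow (by linarith) (hε.trans hεε)
  have hpg : Q' ≤ pg Q' ε' n := by
    unfold pg
    nlinarith
  have hs0 := Real.sqrt_nonneg (n : ℝ)
  rcases Nat.lt_or_ge n N with hN | hN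
  · have hw : (1 + ‖v‖) * (t : ℝ) ≤ pg Q' ε' n * Real.sqrt n := by
      rcases Nat.eq_zero_or_pos n with h0 | h0
      · subst h0
        have : t = 0 := by omega
        subst this
        simp
      · have hn1 : (1 : ℝ) ≤ n := by exact_mod_cast h0
        have hs1 : 1 ≤ Real.sqrt n := by
          rw [Real.one_le_sqrt]
          exact hn1
        have ht' : (t : ℝ) ≤ N := by exact_mod_cast ht.trans hN.le
        have h1 : (1 + ‖v‖) * (t : ℝ) ≤ (1 + ‖v‖) * ((N : ℝ) + 1) :=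
          mul_le_mul_of_nonneg_left (by linarith) (by linarith)
        have h2 : Q' * 1 ≤ pg Q' ε' n * Real.sqrt n :=
          mul_le_mul hpg hs1 zero_le_one (hQ'0.le.trans hpg)
        linarith
    have h1 : ∀ η : Env 2, 1 - ∑ y ∈ bal v t (pg Q' ε' n * Real.sqrt n), Qt β h n t y η = 0 :=
      fun η => W098.bal_all98 hd ht β h v hw η
    simp only [h1, integral_zero]
    norm_num
  · have hr : Q * (n : ℝ) ^ ε * Real.sqrt n ≤ pg Q' ε' n * Real.sqrt n := by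
      refine mul_le_mul_of_nonneg_right ?_ hs0
      unfold pg
      have h1 : (n : ℝ) ^ ε ≤ ((n : ℝ) + 1) ^ ε := Real.rpow_le_rpow hn0 (by linarith) hε
      have h2 : ((n : ℝ) + 1) ^ ε ≤ ((n : ℝ) + 1) ^ ε' :=
        Real.rpow_le_rpow_of_exponent_le (by linarith) hεε
      exact mul_le_mul hQQ (h1.trans h2) (Real.rpow_nonneg hn0 _) hQ'0.le
    have h1 : ∫ η, (1 - ∑ y ∈ bal v t (pg Q' ε' n * Real.sqrt n), Qt β h n t y η) ∂(law 2 ρ) ≤
        Tb ρ β h v (Q * (n : ℝ) ^ ε) n := by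
      unfold Tb
      refine integral_mono_of_nonneg (Eventually.of_forall fun η => ?_)
        ((integrable_const 1).sub (integrable_PolT72 β h _))
        (Eventually.of_forall fun η => W098.bal_tube98 ht β h v hr η)
      have h2 := sumQt_le94 hd β h ht (bal v t (pg Q' ε' n * Real.sqrt n)) η
      show (0 : ℝ) ≤ 1 - ∑ y ∈ bal v t (pg Q' ε' n * Real.sqrt n), Qt β h n t y η
      linarith
    exact h1.trans (htub n hN)

end Pool.Agent.W_7d29a1_PL
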