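import Pool.Agent.W_7d29a1_PL.DefsPL
import Pool.Agent.W_7d29a1_SP.Bas15
import Pool.Agent.W_7d29a1_SP.Step15

/-!
LOWQ: the fluctuation beats every multiple of the logarithm (helper94).
-/

set_option autoImplicit false

namespace Pool.Agent.W_7d29a1_PL

open MeasureTheory ProbabilityTheory Filter Topology Pool.Agent.W_MP_7d29a1_pr
  Pool.Agent.W_7d29a1_h46 Pool.Agent.W_7d29a1_h46u Pool.Agent.W_7d29a1_D2.B35
  Pool.Agent.W_7d29a1_Q29 Pool.Agent.W_7d29a1_R34 Pool.Agent.W_7d29a1_SP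

variable {ρ : Measure ℝ} [IsProbabilityMeasure ρ]

lemma kp_mono94 {Q c : ℝ} (hQ : 1 ≤ Q) (hc : 0 < c) {s t : ℕ} (hst : s ≤ t) :
    kp Q c s ≤ kp Q c t := by
  unfold kp
  refine mul_le_mul_of_nonneg_left ?_ (by linarith)
  exact Real.rpow_le_rpow (Nat.cast_nonneg s) (by exact_mod_cast hst) hc.le

lemma kp_pos94 {Q c : ℝ} (hQ : 1 ≤ Q) {t : ℕ} (ht : 1 ≤ t) : 0 < kp Q c t := by
  unfold kp
  have h1 : (0 : ℝ) < t := by exact_mod_cast ht
  have h2 : 0 < (t : ℝ) ^ c := Real.rpow_pos_of_pos h1 c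
  nlinarith

lemma log_kp94 {Q c : ℝ} (hQ : 1 ≤ Q) {t : ℕ} (ht : 1 ≤ t) :
    Real.log (kp Q c t) = Real.log Q + c * Real.log t := by
  unfold kp
  have h1 : (0 : ℝ) < t := by exact_mod_cast ht
  rw [Real.log_mul (by linarith) (Real.rpow_pos_of_pos h1 c).ne', Real.log_rpow h1]

/-- The fluctuation is at least a multiple of the logarithm. -/
lemma low94 (hρ : EM ρ) {β : ℝ} (hGap : GapQ 2 ρ β) {g : ℝ} (hg : 0 < g) : ∃ a : ℝ, 0 < a ∧
    ∀ (h : Vec 2) (M δ Q c R : ℝ), 1 ≤ Q → 0 < c → c ≤ 1 / 2 → Pq ρ β h g M δ Q c R →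
      ∃ n₀ : ℕ, ∀ n : ℕ, n₀ ≤ n → ∀ Φ : ℝ, (∀ i : ℕ, i ≤ n → En ρ β h i ≤ Φ) →
        a * Real.log n ≤ Φ := by
  obtain ⟨a, C, ha, hC, hgap⟩ := hGap g hg
  refine ⟨a / 8, by positivity, fun h M δ Q c R hQ hc hc1 hP => ?_⟩
  have hl : Tendsto (fun n : ℕ => Real.log n) atTop atTop :=
    Real.tendsto_log_atTop.comp tendsto_natCast_atTop_atTop
  obtain ⟨n₀, hn₀⟩ := eventually_atTop.1 ((hl.eventually_ge_atTop
    (8 / a * (a / 2 * (Real.log 3 + Real.log Q) + C / 2))).and (eventually_ge_atTop 2))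
  refine ⟨n₀, fun n hn Φ hΦ => ?_⟩
  obtain ⟨hn1, hn2⟩ := hn₀ n hn
  obtain ⟨m, hm⟩ : ∃ m, m = n / 2 := ⟨_, rfl⟩
  have hm1 : 1 ≤ m := by omega
  have hm2 : 2 * m ≤ n := by omega
  have hm3 : n ≤ 3 * m := by omega
  have hn0 : (0 : ℝ) < n := by exact_mod_cast (show 0 < n by omega)
  have hm0 : (0 : ℝ) < m := by exact_mod_cast hm1
  have hK0 : 0 < kp Q c (2 * m) := kp_pos94 hQ (by omega)
  have hV : Va ρ β h (2 * m) ≤ kp Q c (2 * m) := hP.var _
  have h1 := hgap h hP.gap m hm1 (kp Q c (2 * m)) hK0 hV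
  have h2 : 0 < ((Finset.range m).filter fun t => a * Real.log (m / kp Q c (2 * m)) ≤
      C + (A ρ β h (2 * m) - A ρ β h t - A ρ β h (2 * m - t))).card := by
    have : 0 < a * m := by positivity
    have h3 := this.trans_le h1
    exact_mod_cast h3
  obtain ⟨t, ht⟩ := Finset.card_pos.1 h2
  obtain ⟨ht1, ht2⟩ := Finset.mem_filter.1 ht
  rw [Finset.mem_range] at ht1
  have h3 : A ρ β h (2 * m) - A ρ β h t - A ρ β h (2 * m - t) =
      En ρ β h t + En ρ β h (2 * m - t) - En ρ β h (2 * m) := by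
    unfold En
    rw [Nat.cast_sub (by omega)]
    ring
  have h4 := En_nonneg15 (ρ := ρ) (d := 2) (by norm_num) hρ β h (2 * m)
  have h5 := hΦ t (by omega)
  have h6 := hΦ (2 * m - t) (by omega)
  have h7 : Real.log (m / kp Q c (2 * m)) =
      Real.log m - Real.log Q - c * Real.log ((2 * m : ℕ) : ℝ) := by
    rw [Real.log_div hm0.ne' hK0.ne', log_kp94 hQ (by omega)]
    ring
  have h8 : Real.log n ≤ Real.log 3 + Real.log m := by
    rw [← Real.log_mul (by norm_num) hm0.ne']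
    refine Real.log_le_log hn0 ?_
    exact_mod_cast hm3
  have h9 : Real.log ((2 * m : ℕ) : ℝ) ≤ Real.log n := log_mono15 hm2
  have hl0 : 0 ≤ Real.log (n : ℝ) := Real.log_natCast_nonneg n
  have h10 : c * Real.log ((2 * m : ℕ) : ℝ) ≤ 1 / 2 * Real.log n :=
    (mul_le_mul_of_nonneg_left h9 hc.le).trans (mul_le_mul_of_nonneg_right hc1 hl0)
  have h11 : 1 / 2 * Real.log n - (Real.log 3 + Real.log Q) ≤
      Real.log (m / kp Q c (2 * m)) := by
    rw [h7]
    linarith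
  have h12 := mul_le_mul_of_nonneg_left h11 ha.le
  have h13 : a / 2 * (Real.log 3 + Real.log Q) + C / 2 ≤ a / 8 * Real.log n := by
    have := mul_le_mul_of_nonneg_left hn1 (show 0 ≤ a / 8 by positivity)
    have e1 : a / 8 * (8 / a * (a / 2 * (Real.log 3 + Real.log Q) + C / 2)) =
        a / 2 * (Real.log 3 + Real.log Q) + C / 2 := by
      field_simp
    rw [e1] at this
    exact this
  linarith

/-- Iterated doubling. -/
lemma dbl94 {F : ℕ → ℝ} {n₀ : ℕ} {η : ℝ} (hη : 0 ≤ η) (h : ∀ n : ℕ, n₀ ≤ n → ∃ T : ℕ, n ≤ T ∧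
    2 * F n ≤ F T ∧ Real.log T ≤ (1 + η) * Real.log n) (J : ℕ) :
    ∀ n : ℕ, n₀ ≤ n → ∃ T : ℕ, n ≤ T ∧ 2 ^ J * F n ≤ F T ∧
      Real.log T ≤ (1 + η) ^ J * Real.log n := by
  induction J with
  | zero => exact fun n _ => ⟨n, le_rfl, by simp, by simp⟩
  | succ J ih =>
    intro n hn
    obtain ⟨T, hT1, hT2, hT3⟩ := ih n hn
    obtain ⟨U, hU1, hU2, hU3⟩ := h T (hn.trans hT1)
    refine ⟨U, hT1.trans hU1, ?_, ?_⟩
    · rw [pow_succ]
      linarith
    · rw [pow_succ]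
      have := mul_le_mul_of_nonneg_left hT3 (show 0 ≤ 1 + η by linarith)
      linarith

/-- **LOWQ.** -/
theorem lowQ94 (hρ : EM ρ) {β : ℝ} (hStep : StepQ ρ β) (hBet : BetQ ρ β)
    (hGap : GapQ 2 ρ β) : LowQ ρ β := by
  intro g M A₀ hg hM
  obtain ⟨Ca, Cb, c₁, hCa, hCb, hc₁, hst⟩ := hStep g M hg hM
  obtain ⟨c₂, hc₂, hbt⟩ := hBet g M hg hM
  obtain ⟨a, ha, hlow⟩ := low94 hρ hGap hg
  obtain ⟨J, hJ⟩ : ∃ J : ℕ, 3 * A₀ / a ≤ 2 ^ J := by
    obtain ⟨J, hJ⟩ := pow_unbounded_of_one_lt (3 * A₀ / a) (show (1 : ℝ) < 2 by norm_num)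
    exact ⟨J, hJ.le⟩
  obtain ⟨η, hη⟩ : ∃ η, η = Real.log 2 / (J + 1) := ⟨_, rfl⟩
  have hlog2 : 0 < Real.log 2 := Real.log_pos (by norm_num)
  have hlog21 : Real.log 2 ≤ 1 := by
    have := Real.log_two_lt_d9
    linarith
  have hη0 : 0 < η := by
    rw [hη]
    positivity
  have hJ0 : (0 : ℝ) ≤ J := Nat.cast_nonneg J
  have hη1 : η ≤ 1 := by
    rw [hη, div_le_one (by linarith)]
    linarith
  have hηJ : (1 + η) ^ J ≤ 2 := by
    have h1 : 1 + η ≤ Real.exp η := by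
      have := Real.add_one_le_exp η
      linarith
    have h2 : (1 + η) ^ J ≤ Real.exp η ^ J := pow_le_pow_left₀ (by linarith) h1 J
    have h3 : Real.exp η ^ J ≤ 2 := by
      rw [← Real.exp_nat_mul]
      have h4 : (J : ℝ) * η ≤ Real.log 2 := by
        rw [hη, mul_div_assoc', div_le_iff₀ (by linarith)]
        nlinarith
      calc Real.exp (J * η) ≤ Real.exp (Real.log 2) := Real.exp_le_exp.2 h4
        _ = 2 := Real.exp_log (by norm_num)
    exact h2.trans h3
  refine ⟨min (min c₁ c₂) (min (1 / 2) (η / (36 * Cb))), by positivity,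
    fun h δ Q c R hδ hQ hc hcc hP => ?_⟩
  have hcc1 : c ≤ c₁ := hcc.trans ((min_le_left _ _).trans (min_le_left _ _))
  have hcc2 : c ≤ c₂ := hcc.trans ((min_le_left _ _).trans (min_le_right _ _))
  have hcc3 : c ≤ 1 / 2 := hcc.trans ((min_le_right _ _).trans (min_le_left _ _))
  have hcc4 : c ≤ η / (36 * Cb) := hcc.trans ((min_le_right _ _).trans (min_le_right _ _))
  have hcCb : 9 * c * Cb ≤ η / 4 := by
    rw [le_div_iff₀ (by positivity)] at hcc4
    linarith
  obtain ⟨Cs, hCs⟩ := hst h δ Q c R hδ hQ hc hcc1 hP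
  obtain ⟨n₁, hn₁⟩ := hbt h δ Q c R hδ hQ hc hcc2 hP
  obtain ⟨n₂, hn₂⟩ := hlow h M δ Q c R hQ hc hcc3 hP
  choose j hj hmax using exmax15 ρ β h
  obtain ⟨F, hF⟩ : ∃ F : ℕ → ℝ, F = fun n => max (En ρ β h (j n)) (Fn ρ β h (j n)) := ⟨_, rfl⟩
  have hFE : ∀ n i : ℕ, i ≤ n → En ρ β h i ≤ F n := fun n i hi => by
    rw [hF]
    exact (hmax n i hi).1
  have hFF : ∀ n i : ℕ, i ≤ n → Fn ρ β h i ≤ F n := fun n i hi => by
    rw [hF]
    exact (hmax n i hi).2
  have hl : Tendsto (fun n : ℕ => Real.log n) atTop atTop :=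
    Real.tendsto_log_atTop.comp tendsto_natCast_atTop_atTop
  obtain ⟨C', hC'⟩ : ∃ C', C' = Real.log Ca + Cb * (Real.log Q + c * Real.log 128) := ⟨_, rfl⟩
  obtain ⟨n₃, hn₃⟩ := eventually_atTop.1 ((((hl.eventually_ge_atTop (4 / η * C')).and
    (hl.eventually_ge_atTop (max Cs 1 / a))).and
      (hl.eventually_ge_atTop (Real.log Q / (15 * c)))).and (eventually_ge_atTop 3))
  -- the doubling
  have hdbl : ∀ n : ℕ, max (max n₁ n₂) n₃ ≤ n → ∃ T : ℕ, n ≤ T ∧
      2 * F n ≤ F T ∧ Real.log T ≤ (1 + η) * Real.log n := by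
    intro n hn
    obtain ⟨⟨⟨hn31, hn32⟩, hn33⟩, hn34⟩ := hn₃ n (by omega)
    have hFn : a * Real.log n ≤ F n := hn₂ n (by omega) (F n) (hFE n)
    rw [div_le_iff₀ ha] at hn32
    have hFn1 : max Cs 1 ≤ F n := by linarith
    obtain ⟨T, i, hT, hi, h1, h2⟩ := hCs n (j n) (F n) (by omega) (hj n)
      ((le_max_left _ _).trans hFn1) (by
        rw [hF]
        rcases max_choice (En ρ β h (j n)) (Fn ρ β h (j n)) with h3 | h3
        · exact Or.inl h3.symm
        · exact Or.inr h3.symm)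
    have hFT : 2 * F n ≤ F T := by
      rcases h1 with h1 | h1
      · exact h1.trans (hFE T i hi)
      · exact h1.trans (hFF T i hi)
    have hFn1' : 1 ≤ F n := (le_max_right _ _).trans hFn1
    have hFT1 : 1 ≤ F T := by linarith
    refine ⟨T, hT, hFT, ?_⟩
    have h3 := h2 (F T) fun i hi => ⟨hFE T i hi, hFF T i hi⟩
    have hn0 : (0 : ℝ) < n := by exact_mod_cast (show 0 < n by omega)
    have hT1 : 1 ≤ T := by omega
    have hT0 : (0 : ℝ) < T := by exact_mod_cast hT1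
    have hlnT : Real.log n ≤ Real.log T := log_mono15 hT
    have hln0 : 0 ≤ Real.log (n : ℝ) := Real.log_natCast_nonneg n
    -- the upper bound of `F T`
    have hFTb : Real.log (F T) ≤ 8 * c * Real.log T := by
      have h4 : F T ≤ (T : ℝ) ^ (8 * c) := by
        rw [hF]
        refine max_le (hn₁ T (j T) (by omega) (hj T)) ?_
        have h5 := Fn_sq15 (ρ := ρ) (d := 2) (by norm_num) hρ β h (j T)
        have h6 : Va ρ β h (j T) ≤ kp Q c T := (hP.var _).trans (kp_mono94 hQ hc (hj T))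
        have h7 : kp Q c T ≤ ((T : ℝ) ^ (8 * c)) ^ 2 := by
          have h8 : Real.log (kp Q c T) ≤ Real.log (((T : ℝ) ^ (8 * c)) ^ 2) := by
            rw [log_kp94 hQ hT1, Real.log_pow, Real.log_rpow hT0]
            rw [div_le_iff₀ (by positivity)] at hn33
            have h9 : Real.log Q ≤ 15 * c * Real.log T := by
              have := mul_le_mul_of_nonneg_left hlnT (show 0 ≤ 15 * c by linarith)
              linarith
            push_cast
            linarith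
          exact (Real.log_le_log_iff (kp_pos94 hQ hT1) (by positivity)).1 h8
        exact (pow_le_pow_iff_left₀ (Fn_nonneg15 β h _) (by positivity) two_ne_zero).1
          ((h5.trans h6).trans h7)
      have h5 := Real.log_le_log (by linarith) h4
      rwa [Real.log_rpow hT0] at h5
    have hk0 : 0 < kp Q c (128 * T) := kp_pos94 hQ (by omega)
    have hkF : 0 < kp Q c (128 * T) * F T := by positivity
    have h4 : Real.log T ≤ Real.log Ca + Real.log n +
        Cb * (Real.log Q + c * (Real.log 128 + Real.log T) + Real.log (F T)) := by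
      have h5 := Real.log_le_log hT0 h3
      rw [Real.log_mul (by positivity) (Real.rpow_pos_of_pos hkF _).ne',
        Real.log_mul (by linarith) hn0.ne', Real.log_rpow hkF,
        Real.log_mul hk0.ne' (by linarith), log_kp94 hQ (by omega)] at h5
      have h6 : Real.log ((128 * T : ℕ) : ℝ) = Real.log 128 + Real.log T := by
        push_cast
        rw [Real.log_mul (by norm_num) hT0.ne']
      rwa [h6] at h5
    have h5 : Cb * Real.log (F T) ≤ Cb * (8 * c * Real.log T) :=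
      mul_le_mul_of_nonneg_left hFTb (by linarith)
    have hlT0 : 0 ≤ Real.log (T : ℝ) := Real.log_natCast_nonneg T
    have h6 : 9 * c * Cb * Real.log T ≤ η / 4 * Real.log T :=
      mul_le_mul_of_nonneg_right hcCb hlT0
    have h7 : C' ≤ η / 4 * Real.log n := by
      have := mul_le_mul_of_nonneg_left hn31 (show 0 ≤ η / 4 by linarith)
      have e1 : η / 4 * (4 / η * C') = C' := by
        field_simp
      rw [e1] at this
      exact this
    have h8 : (1 - η / 4) * Real.log T ≤ (1 + η / 4) * Real.log n := by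
      rw [hC'] at h7
      nlinarith
    have h9 : (1 + η / 4) * Real.log n ≤ (1 - η / 4) * ((1 + η) * Real.log n) := by
      have h10 : 1 + η / 4 ≤ (1 - η / 4) * (1 + η) := by nlinarith
      have := mul_le_mul_of_nonneg_right h10 hln0
      linarith
    exact le_of_mul_le_mul_left (h8.trans h9) (by linarith)
  obtain ⟨n₄, hn₄⟩ : ∃ n₄, n₄ = max (max n₁ n₂) n₃ := ⟨_, rfl⟩
  refine ⟨(n₄ + 3) ^ 2, fun n hn => ?_⟩
  obtain ⟨s, hs⟩ : ∃ s, s = Nat.sqrt n := ⟨_, rfl⟩
  have hs1 : n₄ + 3 ≤ s := by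
    rw [hs, Nat.le_sqrt, ← pow_two]
    exact hn
  have hs2 : s ^ 2 ≤ n := by
    rw [hs]
    exact Nat.sqrt_le' n
  have hs3 : n < (s + 1) ^ 2 := by
    rw [hs]
    exact Nat.lt_succ_sqrt' n
  obtain ⟨T, hT1, hT2, hT3⟩ := dbl94 hη0.le hdbl J s (by omega)
  have hs0 : (0 : ℝ) < s := by exact_mod_cast (show 0 < s by omega)
  have hn0 : (0 : ℝ) < n := by
    have : 0 < s ^ 2 := pow_pos (show 0 < s by omega) 2
    exact_mod_cast (show 0 < n by omega)
  have hls0 : 0 ≤ Real.log (s : ℝ) := Real.log_natCast_nonneg s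
  have hT0 : (0 : ℝ) < T := by exact_mod_cast (show 0 < T by omega)
  have hTn : T ≤ n := by
    have h1 : Real.log T ≤ Real.log n := by
      have h2 : (1 + η) ^ J * Real.log s ≤ 2 * Real.log s := mul_le_mul_of_nonneg_right hηJ hls0
      have h3 : 2 * Real.log s = Real.log ((s ^ 2 : ℕ) : ℝ) := by
        push_cast
        rw [Real.log_pow]
        norm_num
      have h4 : Real.log ((s ^ 2 : ℕ) : ℝ) ≤ Real.log n := log_mono15 hs2
      linarith
    have h2 := (Real.log_le_log_iff hT0 hn0).1 h1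
    exact_mod_cast h2
  have hlogn : Real.log n ≤ 3 * Real.log s := by
    have h1 : n ≤ s ^ 3 := by
      have h2 : (s + 1) ^ 2 ≤ s ^ 3 := by
        have h3 : 3 ≤ s := by omega
        nlinarith
      omega
    have h2 : Real.log n ≤ Real.log ((s ^ 3 : ℕ) : ℝ) := log_mono15 h1
    push_cast at h2
    rw [Real.log_pow] at h2
    push_cast at h2
    exact h2
  refine ⟨j T, (hj T).trans hTn, ?_⟩
  have h1 : fM ρ β h (j T) = F T := by
    rw [hF]
    rfl
  rw [h1]
  have h2 : a * Real.log s ≤ F s := hn₂ s (by omega) (F s) (hFE s)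
  have h3 : 2 ^ J * (a * Real.log s) ≤ 2 ^ J * F s := mul_le_mul_of_nonneg_left h2 (by positivity)
  have h4 : 3 * A₀ ≤ 2 ^ J * a := by
    rwa [div_le_iff₀ ha] at hJ
  have h5 : 3 * A₀ * Real.log s ≤ 2 ^ J * a * Real.log s := mul_le_mul_of_nonneg_right h4 hls0
  rcases le_total 0 A₀ with hA | hA
  · have h6 := mul_le_mul_of_nonneg_left hlogn hA
    linarith
  · have h6 : A₀ * Real.log n ≤ 0 :=
      mul_nonpos_of_nonpos_of_nonneg hA (Real.log_natCast_nonneg n)
    have h7 : 0 ≤ 2 ^ J * (a * Real.log s) := by positivity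
    linarith

end Pool.Agent.W_7d29a1_PL
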