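import Pool.Agent.W_7d29a1_PL.LkQ26
import Pool.Agent.W_7d29a1_PL.StepK15

/-!
The literal of the luck of LowQ15 (written out) from `lkQ26`, and BETQ from `LuckP`, `NPB` and
`SeqP`.
-/

namespace Pool.Agent.W_7d29a1_PL

open MeasureTheory ProbabilityTheory Filter Topology Pool.Agent.W_MP_7d29a1_pr
  Pool.Agent.W_7d29a1_h46 Pool.Agent.W_7d29a1_h46u Pool.Agent.W_7d29a1_D2.B35
  Pool.Agent.W_7d29a1_Q29 Pool.Agent.W_7d29a1_R34 Pool.Agent.W_7d29a1_SP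

/-- The luck of LowQ15, written out. -/
theorem lkQL26 {ρ : Measure ℝ} [IsProbabilityMeasure ρ] (hρ : EM ρ) {β : ℝ} (hLk : LuckP ρ β)
    (hNP : NPB 2 ρ β) : ∀ g M : ℝ, 0 < g → 0 < M → ∃ c₁ c₂ : ℝ,
      0 < c₁ ∧ 0 < c₂ ∧ c₂ ≤ 1 / 2 ∧
      ∀ (h : Vec 2) (δ Q c R : ℝ), 0 < δ → 1 ≤ Q → 0 < c → c ≤ c₁ → Pq ρ β h g M δ Q c R →
        ∃ N₀ : ℕ, 1000 ≤ N₀ ∧ LkK ρ β h c₂ (kp Q c) N₀ := by
  intro g M hg hM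
  obtain ⟨c₂, c₁, h1, h2, h3, H⟩ := lkQ26 hρ hLk hNP g M hg hM
  refine ⟨c₁, c₂, h3, h1, h2, fun h δ Q c R hδ hQ hc hc1 P => ?_⟩
  obtain ⟨N₀, hN₀, H2⟩ := H h δ Q c R hδ hQ hc hc1 P
  exact ⟨N₀, hN₀, H2⟩

/-- BETQ, closed up to the three inputs of THEOREM G. -/
theorem betQL26 {ρ : Measure ℝ} [IsProbabilityMeasure ρ] (hρ : EM ρ) (β : ℝ) (hS : SeqP)
    (hLk : LuckP ρ β) (hNP : NPB 2 ρ β) : BetQ ρ β :=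
  betQ26 hρ β hS (lkQ26 hρ hLk hNP)

end Pool.Agent.W_7d29a1_PL
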