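import Pool.Agent.W_7d29a1_PL.DefsPX
import Pool.Agent.W_7d29a1_SP.Cnt79
import Pool.Agent.W_7d29a1_Q29.R6a65

/-!
MOM (helper47): the `7 / 5` moment of the upper part under regularity.
-/

set_option autoImplicit false

namespace Pool.Agent.W_7d29a1_PL.M47

open MeasureTheory ProbabilityTheory Filter Topology Pool.Agent.W_MP_7d29a1_pr
  Pool.Agent.W_7d29a1_h46 Pool.Agent.W_7d29a1_h46u Pool.Agent.W_7d29a1_D2.B35
  Pool.Agent.W_7d29a1_Q29 Pool.Agent.W_7d29a1_R34 Pool.Agent.W_7d29a1_SP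

/-- `w ^ (7/5) ≤ l w ^ 2 + l ^ (- 7/3)`. -/
lemma young47 {w l : ℝ} (hw : 0 ≤ w) (hl : 0 < l) :
    w ^ (7 / 5 : ℝ) ≤ l * w ^ 2 + l ^ (-(7 / 3) : ℝ) := by
  have hl1 : 0 ≤ l ^ (-(7 / 3) : ℝ) := by positivity
  rcases le_or_gt w (l ^ (-(5 / 3) : ℝ)) with h | h
  · have h1 := Real.rpow_le_rpow hw h (show (0 : ℝ) ≤ 7 / 5 by norm_num)
    rw [← Real.rpow_mul hl.le] at h1
    have h2 : (-(5 / 3) : ℝ) * (7 / 5) = -(7 / 3) := by norm_num
    rw [h2] at h1
    have h3 : 0 ≤ l * w ^ 2 := by positivity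
    linarith
  · have hw0 : 0 < w := lt_trans (by positivity) h
    have h1 : w ^ (-(3 / 5) : ℝ) ≤ l := by
      have h2 := Real.rpow_le_rpow_of_nonpos (by positivity) h.le
        (show (-(3 / 5) : ℝ) ≤ 0 by norm_num)
      rw [← Real.rpow_mul hl.le] at h2
      have h3 : (-(5 / 3) : ℝ) * (-(3 / 5)) = 1 := by norm_num
      rwa [h3, Real.rpow_one] at h2
    have h2 : w ^ (7 / 5 : ℝ) = w ^ 2 * w ^ (-(3 / 5) : ℝ) := by
      rw [← Real.rpow_natCast w 2, ← Real.rpow_add hw0]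
      norm_num
    rw [h2]
    have h3 := mul_le_mul_of_nonneg_left h1 (sq_nonneg w)
    linarith

/-- The dyadic bound of `w ^ (7/5)`. -/
lemma dya47 {w : ℝ} (hw : 0 ≤ w) (b : ℕ → ℝ) (hb : ∀ j, 0 ≤ b j) (J : ℕ) :
    w ^ (7 / 5 : ℝ) ≤ b 0 ^ (7 / 5 : ℝ) + ∑ j ∈ Finset.range J,
      b (j + 1) ^ (7 / 5 : ℝ) * (if b j < w then 1 else 0) +
      w ^ (7 / 5 : ℝ) * (if b J < w then 1 else 0) := by
  induction J with
  | zero =>
    rw [Finset.sum_range_zero, add_zero]
    by_cases h : b 0 < w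
    · rw [if_pos h, mul_one]
      have : 0 ≤ b 0 ^ (7 / 5 : ℝ) := Real.rpow_nonneg (hb 0) _
      linarith
    · rw [if_neg h, mul_zero, add_zero]
      exact Real.rpow_le_rpow hw (not_lt.1 h) (by norm_num)
  | succ J ih =>
    refine ih.trans ?_
    rw [Finset.sum_range_succ]
    have key : w ^ (7 / 5 : ℝ) * (if b J < w then 1 else 0) ≤
        b (J + 1) ^ (7 / 5 : ℝ) * (if b J < w then 1 else 0) +
          w ^ (7 / 5 : ℝ) * (if b (J + 1) < w then 1 else 0) := by
      have hw1 : 0 ≤ w ^ (7 / 5 : ℝ) := Real.rpow_nonneg hw _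
      have hb1 : 0 ≤ b (J + 1) ^ (7 / 5 : ℝ) := Real.rpow_nonneg (hb _) _
      by_cases h : b J < w
      · rw [if_pos h, mul_one, mul_one]
        by_cases h' : b (J + 1) < w
        · rw [if_pos h', mul_one]
          linarith
        · rw [if_neg h', mul_zero, add_zero]
          exact Real.rpow_le_rpow hw (not_lt.1 h') (by norm_num)
      · rw [if_neg h, mul_zero, mul_zero, zero_add]
        split_ifs
        · linarith
        · linarith
    linarith

end Pool.Agent.W_7d29a1_PL.M47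

namespace Pool.Agent.W_7d29a1_PL

open MeasureTheory ProbabilityTheory Filter Topology Pool.Agent.W_MP_7d29a1_pr
  Pool.Agent.W_7d29a1_h46 Pool.Agent.W_7d29a1_h46u Pool.Agent.W_7d29a1_D2.B35
  Pool.Agent.W_7d29a1_Q29 Pool.Agent.W_7d29a1_R34 Pool.Agent.W_7d29a1_SP

/-- MOM. -/
theorem momP47 {d : ℕ} {ρ : Measure ℝ} [IsProbabilityMeasure ρ] (hd : 0 < d) (hρ : EM ρ)
    (β : ℝ) : MomP d ρ β := by
  intro c₀ K hc hK
  obtain ⟨C₁, hC₁, hcnt⟩ := cnt79 (d := d) (ρ := ρ) hd hρ β c₀ hc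
  set C : ℝ := (4 * C₁) ^ (7 / 5 : ℝ) + 2 * (C₁ * (8 * C₁) ^ (7 / 5 : ℝ)) + K + 8 * C₁ with hC
  have hq1 : (1 : ℝ) ≤ (4 * C₁) ^ (7 / 5 : ℝ) := Real.one_le_rpow (by linarith) (by norm_num)
  have hq2 : (0 : ℝ) ≤ C₁ * (8 * C₁) ^ (7 / 5 : ℝ) := by positivity
  refine ⟨C, by linarith, fun h hloc n m y hm hmn hy hreg hVa => ?_⟩
  have hm0 : (0 : ℝ) < m := by exact_mod_cast hm
  have hm1 : (1 : ℝ) ≤ m := by exact_mod_cast hm
  have hn0 : (0 : ℝ) < n := lt_of_lt_of_le hm0 (by exact_mod_cast hmn)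
  -- `J`: the last `j` with `8 ^ j m ≤ n`
  obtain ⟨J, hJ1, hJ2⟩ : ∃ J : ℕ, 8 ^ J * m ≤ n ∧ n < 8 ^ (J + 1) * m := by
    have hex : ∃ j : ℕ, n < 8 ^ (j + 1) * m := by
      refine ⟨n, ?_⟩
      have h1 : n < 8 ^ n := Nat.lt_pow_self (by norm_num)
      have h2 : 8 ^ n ≤ 8 ^ (n + 1) := Nat.pow_le_pow_right (by norm_num) (Nat.le_succ n)
      nlinarith
    refine ⟨Nat.find hex, ?_, Nat.find_spec hex⟩
    rcases Nat.eq_zero_or_pos (Nat.find hex) with h0 | h0
    · rw [h0, pow_zero, one_mul]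
      exact hmn
    · have h1 := Nat.find_min hex (m := Nat.find hex - 1) (by omega)
      rw [Nat.sub_add_cancel h0] at h1
      exact not_lt.1 h1
  set W : Env d → ℝ := fun η => max (X β h η m - A ρ β h m) 0 with hW
  have hW0 : ∀ η, 0 ≤ W η := fun η => le_max_right _ _
  have hWm : Measurable W := ((measurable_X β h m).sub_const _).max measurable_const
  set b : ℕ → ℝ := fun j => 4 * C₁ * 2 ^ j * y with hb
  have hbpos : ∀ j, 0 < b j := fun j => by
    have : 0 < y := by linarith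
    positivity
  -- integrability
  have hSq : Integrable (fun η => (X β h η m - A ρ β h m) ^ 2) (law d ρ) := by
    have h1 := sq_int65 (ρ := ρ) hd hρ β h m 0
    simpa only [add_zero, sq_abs] using h1
  have hWsq : ∀ η, W η ^ 2 ≤ (X β h η m - A ρ β h m) ^ 2 := by
    intro η
    rcases le_total 0 (X β h η m - A ρ β h m) with h0 | h0
    · rw [hW]
      simp only [max_eq_left h0, le_refl]
    · rw [hW]
      simp only [max_eq_right h0]
      nlinarith [sq_nonneg (X β h η m - A ρ β h m)]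
  have hWsqi : Integrable (fun η => W η ^ 2) (law d ρ) := by
    refine hSq.mono' (hWm.pow_const 2).aestronglyMeasurable (Eventually.of_forall fun η => ?_)
    rw [Real.norm_eq_abs, abs_of_nonneg (sq_nonneg _)]
    exact hWsq η
  have hWV : ∫ η, W η ^ 2 ∂(law d ρ) ≤ Va ρ β h m := integral_mono hWsqi hSq hWsq
  have hW75m : Measurable fun η => W η ^ (7 / 5 : ℝ) := hWm.pow_const _
  have hW75i : Integrable (fun η => W η ^ (7 / 5 : ℝ)) (law d ρ) := by
    refine ((hWsqi.const_mul 1).add (integrable_const (1 : ℝ))).mono'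
      hW75m.aestronglyMeasurable (Eventually.of_forall fun η => ?_)
    rw [Real.norm_eq_abs, abs_of_nonneg (Real.rpow_nonneg (hW0 η) _)]
    have h1 := M47.young47 (hW0 η) one_pos
    rw [Real.one_rpow] at h1
    exact h1
  -- the tails
  set p : ℕ → ℝ := fun j => (law d ρ).real {η | b j < W η} with hp
  have hpm : ∀ j, MeasurableSet {η | b j < W η} := fun j => measurableSet_lt measurable_const hWm
  have htail : ∀ j : ℕ, j ≤ J → p j ≤ C₁ * (1 / 8) ^ j := by
    intro j hj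
    by_contra hcon
    rw [not_le] at hcon
    have h8 : (8 : ℕ) ^ j * m ≤ n :=
      (Nat.mul_le_mul_right m (Nat.pow_le_pow_right (by norm_num) hj)).trans hJ1
    have hp0 : 0 < p j := lt_trans (by positivity) hcon
    have h1 : p j ≤ (law d ρ).real {η | A ρ β h m + b j ≤ X β h η m} := by
      refine measureReal_mono fun η hη => ?_
      have h2 : b j < W η := hη
      show A ρ β h m + b j ≤ X β h η m
      rcases lt_max_iff.1 h2 with h3 | h3
      · linarith
      · exact absurd h3 (not_lt.2 (hbpos j).le)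
    have h2 : C₁ * m / p j ≤ (8 ^ j * m : ℕ) := by
      rw [div_le_iff₀ hp0]
      push_cast
      have h3 : (8 : ℝ) ^ j * (1 / 8) ^ j = 1 := by
        rw [← mul_pow]
        norm_num
      have h4 : (0 : ℝ) < 8 ^ j * m := by positivity
      have h5 := mul_le_mul_of_nonneg_left hcon.le h4.le
      calc C₁ * m = C₁ * m * (8 ^ j * (1 / 8) ^ j) := by rw [h3, mul_one]
        _ = 8 ^ j * m * (C₁ * (1 / 8) ^ j) := by ring
        _ ≤ 8 ^ j * m * p j := h5
    have h3 := hcnt h hloc m (8 ^ j * m) (b j) (p j) (2 ^ j * y) hm hp0 h1 h2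
      fun k hk => hreg j k (hk.trans h8) hk
    have h4 : (1 : ℝ) ≤ 2 ^ j * y := by
      have := one_le_pow₀ (M₀ := ℝ) (n := j) one_le_two
      nlinarith
    have h5 : b j = 4 * C₁ * (2 ^ j * y) := by
      rw [hb]
      ring
    rw [h5] at h3
    nlinarith
  -- the pointwise bound
  have hind : ∀ j, (fun η => (if b j < W η then (1 : ℝ) else 0)) =
      {η | b j < W η}.indicator fun _ => (1 : ℝ) := by
    intro j
    funext η
    by_cases h1 : b j < W η
    · rw [if_pos h1, Set.indicator_of_mem (by exact h1)]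
    · rw [if_neg h1, Set.indicator_of_notMem (by exact h1)]
  have hindi : ∀ j, Integrable (fun η => (if b j < W η then (1 : ℝ) else 0)) (law d ρ) := by
    intro j
    rw [hind j]
    exact (integrable_const (1 : ℝ)).indicator (hpm j)
  have hindI : ∀ j, ∫ η, (if b j < W η then (1 : ℝ) else 0) ∂(law d ρ) = p j := by
    intro j
    rw [hind j, integral_indicator_const _ (hpm j), smul_eq_mul, mul_one]
  -- the last term
  set r : ℝ := n / m with hr
  have hr0 : 0 < r := by positivity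
  set l : ℝ := r ^ (-(3 / 7) : ℝ) with hl
  have hl0 : 0 < l := by positivity
  have hlast : ∀ η, W η ^ (7 / 5 : ℝ) * (if b J < W η then 1 else 0) ≤
      l * W η ^ 2 + l ^ (-(7 / 3) : ℝ) * (if b J < W η then 1 else 0) := by
    intro η
    have h1 := M47.young47 (hW0 η) hl0
    by_cases h2 : b J < W η
    · rw [if_pos h2, mul_one, mul_one]
      exact h1
    · rw [if_neg h2, mul_zero, mul_zero, add_zero]
      positivity
  have hpt : ∀ η, W η ^ (7 / 5 : ℝ) ≤ b 0 ^ (7 / 5 : ℝ) + ∑ j ∈ Finset.range J,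
      b (j + 1) ^ (7 / 5 : ℝ) * (if b j < W η then 1 else 0) +
      (l * W η ^ 2 + l ^ (-(7 / 3) : ℝ) * (if b J < W η then 1 else 0)) := by
    intro η
    have h1 := M47.dya47 (hW0 η) b (fun j => (hbpos j).le) J
    have h2 := hlast η
    linarith
  have i1 : Integrable (fun η => ∑ j ∈ Finset.range J,
      b (j + 1) ^ (7 / 5 : ℝ) * (if b j < W η then (1 : ℝ) else 0)) (law d ρ) :=
    integrable_finsetSum _ fun j _ => (hindi j).const_mul _
  have i2 : Integrable (fun η => l * W η ^ 2 + l ^ (-(7 / 3) : ℝ) *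
      (if b J < W η then (1 : ℝ) else 0)) (law d ρ) :=
    (hWsqi.const_mul _).add ((hindi J).const_mul _)
  have i3 : Integrable (fun η => b 0 ^ (7 / 5 : ℝ) + ∑ j ∈ Finset.range J,
      b (j + 1) ^ (7 / 5 : ℝ) * (if b j < W η then (1 : ℝ) else 0)) (law d ρ) :=
    (integrable_const (b 0 ^ (7 / 5 : ℝ))).add i1
  have hI := integral_mono hW75i (i3.add i2) hpt
  simp only [Pi.add_apply] at hI
  rw [integral_add i3 i2, integral_add (integrable_const _) i1,
    integral_const, integral_finsetSum _ fun j _ => (hindi j).const_mul _,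
    integral_add (hWsqi.const_mul _) ((hindi J).const_mul _), integral_const_mul,
    integral_const_mul, hindI J] at hI
  simp only [probReal_univ, smul_eq_mul, one_mul, integral_const_mul, hindI] at hI
  refine hI.trans ?_
  -- the numbers
  have hy75 : (1 : ℝ) ≤ y ^ (7 / 5 : ℝ) := Real.one_le_rpow hy (by norm_num)
  have n1 : b 0 ^ (7 / 5 : ℝ) = (4 * C₁) ^ (7 / 5 : ℝ) * y ^ (7 / 5 : ℝ) := by
    rw [hb]
    simp only [pow_zero, mul_one]
    rw [Real.mul_rpow (by linarith) (by linarith)]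
  have n2 : ∑ j ∈ Finset.range J, b (j + 1) ^ (7 / 5 : ℝ) * p j ≤
      2 * (C₁ * (8 * C₁) ^ (7 / 5 : ℝ)) * y ^ (7 / 5 : ℝ) := by
    have h1 : ∀ j ∈ Finset.range J, b (j + 1) ^ (7 / 5 : ℝ) * p j ≤
        (C₁ * (8 * C₁) ^ (7 / 5 : ℝ) * y ^ (7 / 5 : ℝ)) * (1 / 2) ^ j := by
      intro j hj
      have h2 := htail j (Finset.mem_range.1 hj).le
      have h3 : b (j + 1) ^ (7 / 5 : ℝ) ≤ (8 * C₁) ^ (7 / 5 : ℝ) * y ^ (7 / 5 : ℝ) * 4 ^ j := by
        have e1 : b (j + 1) = 8 * C₁ * y * 2 ^ j := by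
          rw [hb]
          ring
        rw [e1, Real.mul_rpow (by positivity) (by positivity),
          Real.mul_rpow (by positivity) (by linarith)]
        refine mul_le_mul_of_nonneg_left ?_ (by positivity)
        rw [← Real.rpow_natCast (2 : ℝ) j, ← Real.rpow_mul (by norm_num)]
        have e2 : (4 : ℝ) ^ j = (2 : ℝ) ^ (2 * (j : ℝ)) := by
          rw [Real.rpow_mul (by norm_num), Real.rpow_natCast]
          norm_num
        rw [e2]
        refine Real.rpow_le_rpow_of_exponent_le (by norm_num) ?_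
        have : (0 : ℝ) ≤ j := Nat.cast_nonneg j
        linarith
      have h4 : 0 ≤ p j := measureReal_nonneg
      have h5 : 0 ≤ (8 * C₁) ^ (7 / 5 : ℝ) * y ^ (7 / 5 : ℝ) * 4 ^ j := by positivity
      refine (mul_le_mul h3 h2 h4 h5).trans (le_of_eq ?_)
      have h6 : (4 : ℝ) ^ j * (1 / 8) ^ j = (1 / 2) ^ j := by
        rw [← mul_pow]
        norm_num
      rw [← h6]
      ring
    refine (Finset.sum_le_sum h1).trans ?_
    rw [← Finset.mul_sum]
    have h2 : ∑ j ∈ Finset.range J, (1 / 2 : ℝ) ^ j ≤ 2 := by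
      have h3 := (summable_geometric_of_lt_one (by norm_num : (0 : ℝ) ≤ 1 / 2)
        (by norm_num)).sum_le_tsum (Finset.range J) fun j _ => by positivity
      rw [tsum_geometric_of_lt_one (by norm_num) (by norm_num)] at h3
      norm_num at h3 ⊢
      exact h3
    have h3 : 0 ≤ C₁ * (8 * C₁) ^ (7 / 5 : ℝ) * y ^ (7 / 5 : ℝ) := by positivity
    refine (mul_le_mul_of_nonneg_left h2 h3).trans (le_of_eq (by ring))
  have n3 : l * ∫ η, W η ^ 2 ∂(law d ρ) ≤ K := by
    have h1 : (∫ η, W η ^ 2 ∂(law d ρ)) ≤ Va ρ β h m := hWV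
    have hV0 : 0 ≤ Va ρ β h m := integral_nonneg fun η => sq_nonneg _
    have h2 : Va ρ β h m ≤ K * r ^ (3 / 7 : ℝ) := by
      have h3 : Va ρ β h m ^ 7 ≤ (K * r ^ (3 / 7 : ℝ)) ^ 7 := by
        rw [mul_pow, ← Real.rpow_natCast (r ^ (3 / 7 : ℝ)), ← Real.rpow_mul hr0.le]
        have h4 : (3 / 7 : ℝ) * (7 : ℕ) = (3 : ℕ) := by norm_num
        rw [h4, Real.rpow_natCast, hr, div_pow, ← mul_div_assoc, le_div_iff₀ (by positivity)]
        refine hVa.trans ?_
        refine mul_le_mul_of_nonneg_right ?_ (by positivity)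
        calc K = K ^ 1 := (pow_one K).symm
          _ ≤ K ^ 7 := pow_le_pow_right₀ hK (by norm_num)
      exact le_of_pow_le_pow_left₀ (by norm_num) (by positivity) h3
    have h3 : l * r ^ (3 / 7 : ℝ) = 1 := by
      rw [hl, ← Real.rpow_add hr0]
      norm_num
    calc l * ∫ η, W η ^ 2 ∂(law d ρ) ≤ l * (K * r ^ (3 / 7 : ℝ)) :=
          mul_le_mul_of_nonneg_left (h1.trans h2) hl0.le
      _ = K * (l * r ^ (3 / 7 : ℝ)) := by ring
      _ = K := by rw [h3, mul_one]
  have n4 : l ^ (-(7 / 3) : ℝ) * p J ≤ 8 * C₁ := by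
    have h1 : l ^ (-(7 / 3) : ℝ) = r := by
      rw [hl, ← Real.rpow_mul hr0.le]
      norm_num
    have h2 := htail J le_rfl
    have h3 : r ≤ 8 ^ (J + 1) := by
      rw [hr, div_le_iff₀ hm0]
      exact_mod_cast hJ2.le
    rw [h1]
    have h4 : 0 ≤ p J := measureReal_nonneg
    refine (mul_le_mul h3 h2 h4 (by positivity)).trans (le_of_eq ?_)
    have h5 : (8 : ℝ) ^ J * (1 / 8) ^ J = 1 := by
      rw [← mul_pow]
      norm_num
    calc (8 : ℝ) ^ (J + 1) * (C₁ * (1 / 8) ^ J) = 8 * C₁ * (8 ^ J * (1 / 8) ^ J) := by ring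
      _ = 8 * C₁ := by rw [h5, mul_one]
  rw [n1, hC]
  have n5 : K + 8 * C₁ ≤ (K + 8 * C₁) * y ^ (7 / 5 : ℝ) := by
    have : 0 ≤ K + 8 * C₁ := by linarith
    nlinarith
  nlinarith

end Pool.Agent.W_7d29a1_PL
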