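import Pool.Agent.W_7d29a1_PL.DefsPX

/-!
The `7 / 5` moment of the upper part of the free energy under regularity of the fluctuations:
counting in time (helper64).
-/

namespace Pool.Agent.W_7d29a1_PL

open MeasureTheory ProbabilityTheory Filter Topology Pool.Agent.W_MP_7d29a1_pr
  Pool.Agent.W_7d29a1_h46 Pool.Agent.W_7d29a1_h46u Pool.Agent.W_7d29a1_D2.B35
  Pool.Agent.W_7d29a1_Q29 Pool.Agent.W_7d29a1_R34 Pool.Agent.W_7d29a1_SP

/-- Dyadic levels. -/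
lemma dya64 {x₀ a : ℝ} (hx : 0 ≤ x₀) (J : ℕ) (h : a ≤ x₀ * 2 ^ J) :
    (max a 0) ^ (7 / 5 : ℝ) ≤ x₀ ^ (7 / 5 : ℝ) *
      (1 + ∑ j ∈ Finset.range J, 4 ^ (j + 1) * {a : ℝ | x₀ * 2 ^ j ≤ a}.indicator (fun _ => (1 : ℝ)) a) := by
  have hx7 : 0 ≤ x₀ ^ (7 / 5 : ℝ) := Real.rpow_nonneg hx _
  induction J with
  | zero =>
    rw [Finset.range_zero, Finset.sum_empty, add_zero, mul_one]
    refine Real.rpow_le_rpow (le_max_right _ _) ?_ (by norm_num)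
    rw [pow_zero, mul_one] at h
    exact max_le h hx
  | succ J ih =>
    rw [Finset.sum_range_succ]
    rcases le_total a (x₀ * 2 ^ J) with h1 | h1
    · refine (ih h1).trans (mul_le_mul_of_nonneg_left ?_ hx7)
      have h2 : (0 : ℝ) ≤ 4 ^ (J + 1) *
          {a : ℝ | x₀ * 2 ^ J ≤ a}.indicator (fun _ => (1 : ℝ)) a :=
        mul_nonneg (by positivity) (Set.indicator_nonneg (fun _ _ => zero_le_one) _)
      linarith
    · have h2 : {a : ℝ | x₀ * 2 ^ J ≤ a}.indicator (fun _ => (1 : ℝ)) a = 1 :=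
        Set.indicator_of_mem (s := {a : ℝ | x₀ * 2 ^ J ≤ a}) h1 _
      have h3 : (0 : ℝ) ≤ ∑ j ∈ Finset.range J, 4 ^ (j + 1) *
          {a : ℝ | x₀ * 2 ^ j ≤ a}.indicator (fun _ => (1 : ℝ)) a :=
        Finset.sum_nonneg fun j _ => mul_nonneg (by positivity)
          (Set.indicator_nonneg (fun _ _ => zero_le_one) _)
      rw [h2, mul_one]
      have h4 : (max a 0) ^ (7 / 5 : ℝ) ≤ (x₀ * 2 ^ (J + 1)) ^ (7 / 5 : ℝ) :=
        Real.rpow_le_rpow (le_max_right _ _) (max_le h (by positivity)) (by norm_num)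
      rw [Real.mul_rpow hx (by positivity)] at h4
      have h5 : ((2 : ℝ) ^ (J + 1)) ^ (7 / 5 : ℝ) ≤ 4 ^ (J + 1) := by
        have h6 : ((2 : ℝ) ^ (J + 1)) ^ (7 / 5 : ℝ) ≤ ((2 : ℝ) ^ (J + 1)) ^ (2 : ℝ) :=
          Real.rpow_le_rpow_of_exponent_le (one_le_pow₀ (by norm_num)) (by norm_num)
        refine h6.trans (le_of_eq ?_)
        rw [Real.rpow_two, ← pow_mul, mul_comm, pow_mul]
        norm_num
      refine h4.trans (mul_le_mul_of_nonneg_left ?_ hx7)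
      linarith

/-- Beyond the levels. -/
lemma bey64 {a b : ℝ} (ha : 0 ≤ a) (hb : 0 < b) :
    a ^ (7 / 5 : ℝ) ≤ b ^ (7 / 5 : ℝ) + b ^ (-(3 / 5) : ℝ) * a ^ 2 := by
  have hb7 : 0 ≤ b ^ (7 / 5 : ℝ) := Real.rpow_nonneg hb.le _
  have hb3 : 0 ≤ b ^ (-(3 / 5) : ℝ) := Real.rpow_nonneg hb.le _
  rcases le_total a b with h | h
  · have h1 := Real.rpow_le_rpow ha h (show (0 : ℝ) ≤ 7 / 5 by norm_num)
    have h2 : 0 ≤ b ^ (-(3 / 5) : ℝ) * a ^ 2 := by positivity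
    linarith
  · have ha0 : 0 < a := hb.trans_le h
    have h1 : a ^ (7 / 5 : ℝ) = a ^ (-(3 / 5) : ℝ) * a ^ 2 := by
      rw [← Real.rpow_two, ← Real.rpow_add ha0]
      norm_num
    have h2 : a ^ (-(3 / 5) : ℝ) ≤ b ^ (-(3 / 5) : ℝ) :=
      Real.rpow_le_rpow_of_nonpos hb h (by norm_num)
    have h3 := mul_le_mul_of_nonneg_right h2 (sq_nonneg a)
    linarith

/-- The geometric sum. -/
lemma geo64 (J : ℕ) : ∑ j ∈ Finset.range J, (4 : ℝ) ^ (j + 1) * (1 / 8) ^ j ≤ 8 := by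
  have h : ∀ J : ℕ, ∑ j ∈ Finset.range J, (4 : ℝ) ^ (j + 1) * (1 / 8) ^ j = 8 - 8 * (1 / 2) ^ J := by
    intro J
    induction J with
    | zero => norm_num
    | succ J ih =>
      rw [Finset.sum_range_succ, ih]
      have h1 : (4 : ℝ) ^ (J + 1) * (1 / 8) ^ J = 4 * (1 / 2) ^ J := by
        rw [pow_succ, mul_comm ((4 : ℝ) ^ J) 4, mul_assoc, ← mul_pow]
        norm_num
      rw [h1]
      ring
  rw [h]
  have : (0 : ℝ) ≤ (1 / 2) ^ J := by positivity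
  linarith

/-- The `7 / 5` moment from the tail at the dyadic levels and the second moment. -/
lemma mom64 {Ω : Type*} [MeasurableSpace Ω] {μ : Measure Ω} [IsProbabilityMeasure μ] {Y : Ω → ℝ}
    (hY : Measurable Y) (hY2 : Integrable (fun ω => Y ω ^ 2) μ) {x₀ C b : ℝ} (hx : 0 ≤ x₀)
    (hC : 0 ≤ C) (hb : 0 < b) (J : ℕ)
    (ht : ∀ j : ℕ, j ≤ J → μ.real {ω | x₀ * 2 ^ j ≤ Y ω} ≤ C * (1 / 8) ^ j) :
    ∫ ω, (max (Y ω) 0) ^ (7 / 5 : ℝ) ∂μ ≤ x₀ ^ (7 / 5 : ℝ) * (1 + 8 * C) +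
      b ^ (7 / 5 : ℝ) * (C * (1 / 8) ^ J) + b ^ (-(3 / 5) : ℝ) * ∫ ω, Y ω ^ 2 ∂μ := by
  have hx7 : 0 ≤ x₀ ^ (7 / 5 : ℝ) := Real.rpow_nonneg hx _
  have hb7 : 0 ≤ b ^ (7 / 5 : ℝ) := Real.rpow_nonneg hb.le _
  have hb3 : 0 ≤ b ^ (-(3 / 5) : ℝ) := Real.rpow_nonneg hb.le _
  have hS : ∀ j : ℕ, MeasurableSet {ω | x₀ * 2 ^ j ≤ Y ω} := fun j =>
    measurableSet_le measurable_const hY
  have hI : ∀ j : ℕ, Integrable ({ω | x₀ * 2 ^ j ≤ Y ω}.indicator fun _ => (1 : ℝ)) μ := fun j =>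
    (integrable_const (1 : ℝ)).indicator (hS j)
  have hE : ∀ j : ℕ, ∫ ω, {ω | x₀ * 2 ^ j ≤ Y ω}.indicator (fun _ => (1 : ℝ)) ω ∂μ =
      μ.real {ω | x₀ * 2 ^ j ≤ Y ω} := fun j => by
    rw [integral_indicator_const (1 : ℝ) (hS j), smul_eq_mul, mul_one]
  have hi1 : Integrable (fun ω => ∑ j ∈ Finset.range J, 4 ^ (j + 1) *
      {ω | x₀ * 2 ^ j ≤ Y ω}.indicator (fun _ => (1 : ℝ)) ω) μ :=
    integrable_finsetSum _ fun j _ => (hI j).const_mul _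
  have hi2 : Integrable (fun ω => x₀ ^ (7 / 5 : ℝ) * (1 + ∑ j ∈ Finset.range J, 4 ^ (j + 1) *
      {ω | x₀ * 2 ^ j ≤ Y ω}.indicator (fun _ => (1 : ℝ)) ω)) μ :=
    ((integrable_const (1 : ℝ)).add hi1).const_mul _
  have hi3 : Integrable (fun ω => b ^ (7 / 5 : ℝ) *
      {ω | x₀ * 2 ^ J ≤ Y ω}.indicator (fun _ => (1 : ℝ)) ω) μ := (hI J).const_mul _
  have hi4 : Integrable (fun ω => b ^ (-(3 / 5) : ℝ) * Y ω ^ 2) μ := hY2.const_mul _
  have hpw : ∀ ω, (max (Y ω) 0) ^ (7 / 5 : ℝ) ≤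
      x₀ ^ (7 / 5 : ℝ) * (1 + ∑ j ∈ Finset.range J, 4 ^ (j + 1) *
        {ω | x₀ * 2 ^ j ≤ Y ω}.indicator (fun _ => (1 : ℝ)) ω) +
      b ^ (7 / 5 : ℝ) * {ω | x₀ * 2 ^ J ≤ Y ω}.indicator (fun _ => (1 : ℝ)) ω +
      b ^ (-(3 / 5) : ℝ) * Y ω ^ 2 := by
    intro ω
    have h0 : 0 ≤ b ^ (-(3 / 5) : ℝ) * Y ω ^ 2 := by positivity
    have h3 : (0 : ℝ) ≤ ∑ j ∈ Finset.range J, 4 ^ (j + 1) *
        {ω | x₀ * 2 ^ j ≤ Y ω}.indicator (fun _ => (1 : ℝ)) ω :=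
      Finset.sum_nonneg fun j _ => mul_nonneg (by positivity)
        (Set.indicator_nonneg (fun _ _ => zero_le_one) _)
    rcases le_total (Y ω) (x₀ * 2 ^ J) with h | h
    · have h1 := dya64 hx J h
      have h2 : ∑ j ∈ Finset.range J, 4 ^ (j + 1) *
          {a : ℝ | x₀ * 2 ^ j ≤ a}.indicator (fun _ => (1 : ℝ)) (Y ω) =
          ∑ j ∈ Finset.range J, 4 ^ (j + 1) *
          {ω | x₀ * 2 ^ j ≤ Y ω}.indicator (fun _ => (1 : ℝ)) ω :=
        Finset.sum_congr rfl fun j _ => rfl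
      rw [h2] at h1
      have h4 : (0 : ℝ) ≤ b ^ (7 / 5 : ℝ) *
          {ω | x₀ * 2 ^ J ≤ Y ω}.indicator (fun _ => (1 : ℝ)) ω :=
        mul_nonneg hb7 (Set.indicator_nonneg (fun _ _ => zero_le_one) _)
      linarith
    · have h1 : {ω | x₀ * 2 ^ J ≤ Y ω}.indicator (fun _ => (1 : ℝ)) ω = 1 :=
        Set.indicator_of_mem (s := {ω | x₀ * 2 ^ J ≤ Y ω}) h _
      have h2 : 0 ≤ Y ω := le_trans (by positivity) h
      rw [h1, mul_one, max_eq_left h2]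
      have h4 := bey64 h2 hb
      have h5 : 0 ≤ x₀ ^ (7 / 5 : ℝ) * (1 + ∑ j ∈ Finset.range J, 4 ^ (j + 1) *
        {ω | x₀ * 2 ^ j ≤ Y ω}.indicator (fun _ => (1 : ℝ)) ω) := mul_nonneg hx7 (by linarith)
      linarith
  have h1 : ∫ ω, (max (Y ω) 0) ^ (7 / 5 : ℝ) ∂μ ≤ ∫ ω,
      (x₀ ^ (7 / 5 : ℝ) * (1 + ∑ j ∈ Finset.range J, 4 ^ (j + 1) *
        {ω | x₀ * 2 ^ j ≤ Y ω}.indicator (fun _ => (1 : ℝ)) ω) +
      b ^ (7 / 5 : ℝ) * {ω | x₀ * 2 ^ J ≤ Y ω}.indicator (fun _ => (1 : ℝ)) ω +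
      b ^ (-(3 / 5) : ℝ) * Y ω ^ 2) ∂μ :=
    integral_mono_of_nonneg (Eventually.of_forall fun ω => Real.rpow_nonneg (le_max_right _ _) _)
      ((hi2.add hi3).add hi4) (Eventually.of_forall hpw)
  have hi23 : Integrable (fun ω => x₀ ^ (7 / 5 : ℝ) * (1 + ∑ j ∈ Finset.range J, 4 ^ (j + 1) *
      {ω | x₀ * 2 ^ j ≤ Y ω}.indicator (fun _ => (1 : ℝ)) ω) + b ^ (7 / 5 : ℝ) *
      {ω | x₀ * 2 ^ J ≤ Y ω}.indicator (fun _ => (1 : ℝ)) ω) μ := hi2.add hi3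
  rw [integral_add hi23 hi4, integral_add hi2 hi3, integral_const_mul,
    integral_const_mul, integral_const_mul, integral_add (integrable_const _) hi1, integral_const,
    probReal_univ, one_smul, integral_finsetSum _ fun j _ => (hI j).const_mul _] at h1
  simp only [integral_const_mul, hE] at h1
  have h2 : ∑ j ∈ Finset.range J, 4 ^ (j + 1) * μ.real {ω | x₀ * 2 ^ j ≤ Y ω} ≤ 8 * C := by
    calc ∑ j ∈ Finset.range J, 4 ^ (j + 1) * μ.real {ω | x₀ * 2 ^ j ≤ Y ω}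
        ≤ ∑ j ∈ Finset.range J, C * (4 ^ (j + 1) * (1 / 8) ^ j) :=
          Finset.sum_le_sum fun j hj => by
            have h3 := mul_le_mul_of_nonneg_left (ht j (Finset.mem_range.1 hj).le)
              (show (0 : ℝ) ≤ 4 ^ (j + 1) by positivity)
            linarith
      _ = C * ∑ j ∈ Finset.range J, (4 : ℝ) ^ (j + 1) * (1 / 8) ^ j := by rw [Finset.mul_sum]
      _ ≤ C * 8 := mul_le_mul_of_nonneg_left (geo64 J) hC
      _ = 8 * C := mul_comm _ _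
  have h3 := mul_le_mul_of_nonneg_left (ht J le_rfl) hb7
  have h4 := mul_le_mul_of_nonneg_left (show 1 + ∑ j ∈ Finset.range J, 4 ^ (j + 1) *
    μ.real {ω | x₀ * 2 ^ j ≤ Y ω} ≤ 1 + 8 * C by linarith) hx7
  linarith

/-- **MOM**: the `7 / 5` moment of the upper part under regularity. -/
theorem momP64 {d : ℕ} (hd : 0 < d) {ρ : Measure ℝ} [IsProbabilityMeasure ρ] (hρ : EM ρ) {β : ℝ}
    (hC : CntP d ρ β) : MomP d ρ β := by
  intro c₀ K hc hK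
  obtain ⟨C1, h1, hcnt⟩ := hC c₀ hc
  have hC1 : 0 < C1 := by linarith
  refine ⟨(3 * C1) ^ (7 / 5 : ℝ) * (1 + 8 * C1) + (8 * C1 * K + 1), ?_, ?_⟩
  · have e1 : 0 ≤ (3 * C1) ^ (7 / 5 : ℝ) * (1 + 8 * C1) := by positivity
    have e2 : 0 ≤ 8 * C1 * K := by positivity
    linarith
  intro h hL n m y hm hmn hy hreg hVa
  have hm0 : (1 : ℝ) ≤ m := by exact_mod_cast hm
  have hn0 : (1 : ℝ) ≤ n := by exact_mod_cast hm.trans hmn
  have hmn' : (m : ℝ) ≤ n := by exact_mod_cast hmn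
  -- the number of levels
  obtain ⟨J, hJ⟩ : ∃ J, J = Nat.log 8 (n / m) := ⟨_, rfl⟩
  have hnm : n / m ≠ 0 := (Nat.div_pos hmn (by omega)).ne'
  have hJ1 : 8 ^ J * m ≤ n := by
    have e1 := Nat.pow_log_le_self 8 hnm
    rw [← hJ] at e1
    exact (Nat.mul_le_mul_right m e1).trans (Nat.div_mul_le_self n m)
  have hJ2 : n < 8 ^ (J + 1) * m := by
    have e1 := Nat.lt_pow_succ_log_self (b := 8) (by norm_num) (n / m)
    rw [← hJ] at e1
    exact (Nat.div_lt_iff_lt_mul (by omega)).1 e1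
  -- the integrability
  have hY : Measurable fun η : Env d => X β h η m - A ρ β h m :=
    (measurable_X β h m).sub_const _
  have hY2 : Integrable (fun η : Env d => (X β h η m - A ρ β h m) ^ 2) (law d ρ) := by
    obtain ⟨C, _, hC⟩ := momU (ρ := ρ) hd hρ β 2
    simpa only [sq_abs] using (hC h m hm).1
  -- the tail
  have ht : ∀ j : ℕ, j ≤ J → (law d ρ).real {η | 3 * C1 * y * 2 ^ j ≤
      X β h η m - A ρ β h m} ≤ C1 * (1 / 8) ^ j := by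
    intro j hj
    by_contra hcon
    rw [not_le] at hcon
    obtain ⟨q, hq⟩ : ∃ q, q = (law d ρ).real {η | 3 * C1 * y * 2 ^ j ≤
      X β h η m - A ρ β h m} := ⟨_, rfl⟩
    rw [← hq] at hcon
    have e0 : (0 : ℝ) < C1 * (1 / 8) ^ j := by positivity
    have hq0 : 0 < q := e0.trans hcon
    have e1 : q ≤ (law d ρ).real {η | A ρ β h m + 3 * C1 * y * 2 ^ j ≤ X β h η m} := by
      rw [hq]
      refine measureReal_mono (fun η hη => ?_) (measure_ne_top _ _)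
      have e2 : 3 * C1 * y * 2 ^ j ≤ X β h η m - A ρ β h m := hη
      show A ρ β h m + 3 * C1 * y * 2 ^ j ≤ X β h η m
      linarith
    have e3 : 8 ^ j * m ≤ n :=
      (Nat.mul_le_mul_right m (Nat.pow_le_pow_right (by norm_num) hj)).trans hJ1
    have e4 : C1 * m / q ≤ ((8 ^ j * m : ℕ) : ℝ) := by
      rw [div_le_iff₀ hq0]
      push_cast
      have e5 : (8 : ℝ) ^ j * (1 / 8) ^ j = 1 := by
        rw [← mul_pow]
        norm_num
      have e6 : (8 : ℝ) ^ j * m * (C1 * (1 / 8) ^ j) ≤ 8 ^ j * m * q :=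
        mul_le_mul_of_nonneg_left hcon.le (by positivity)
      calc C1 * (m : ℝ) = (8 : ℝ) ^ j * m * (C1 * (1 / 8) ^ j) := by
            rw [show (8 : ℝ) ^ j * m * (C1 * (1 / 8) ^ j) =
              (8 : ℝ) ^ j * (1 / 8) ^ j * (C1 * m) by ring, e5, one_mul]
        _ ≤ _ := e6
    have e7 := hcnt h hL m (8 ^ j * m) (3 * C1 * y * 2 ^ j) q (2 ^ j * y) hm hq0 e1 e4
      fun k hk => hreg j k (hk.trans e3) hk
    have e8 : (1 : ℝ) ≤ 2 ^ j * y := one_le_mul_of_one_le_of_one_le (one_le_pow₀ (by norm_num)) hy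
    have e9 : 3 * C1 * y * 2 ^ j = C1 * (3 * (2 ^ j * y)) := by ring
    rw [e9] at e7
    have e10 := le_of_mul_le_mul_left e7 hC1
    linarith
  -- the threshold
  obtain ⟨w, hw⟩ : ∃ w, w = max 1 (Va ρ β h m) := ⟨_, rfl⟩
  have hw1 : 1 ≤ w := by
    rw [hw]
    exact le_max_left _ _
  have hwV : Va ρ β h m ≤ w := by
    rw [hw]
    exact le_max_right _ _
  have hw0 : 0 < w := by linarith
  have hb : 0 < w ^ (5 / 3 : ℝ) := Real.rpow_pos_of_pos hw0 _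
  have h2 := mom64 hY hY2 (show 0 ≤ 3 * C1 * y by positivity) hC1.le hb J ht
  have h3 : (w ^ (5 / 3 : ℝ)) ^ (-(3 / 5) : ℝ) * ∫ η, (X β h η m - A ρ β h m) ^ 2 ∂(law d ρ) ≤ 1 := by
    rw [← Real.rpow_mul hw0.le, show (5 / 3 * -(3 / 5) : ℝ) = -1 by norm_num, Real.rpow_neg_one]
    have e1 : w⁻¹ * Va ρ β h m ≤ w⁻¹ * w := mul_le_mul_of_nonneg_left hwV (by positivity)
    rw [inv_mul_cancel₀ hw0.ne'] at e1
    exact e1
  have h4 : (w ^ (5 / 3 : ℝ)) ^ (7 / 5 : ℝ) * (C1 * (1 / 8) ^ J) ≤ 8 * C1 * K := by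
    rw [← Real.rpow_mul hw0.le, show (5 / 3 * (7 / 5) : ℝ) = 7 / 3 by norm_num]
    obtain ⟨u, hu⟩ : ∃ u, u = w ^ (7 / 3 : ℝ) := ⟨_, rfl⟩
    have hu0 : 0 ≤ u := by
      rw [hu]
      positivity
    have hu3 : u ^ 3 = w ^ 7 := by
      rw [hu, ← Real.rpow_natCast (w ^ (7 / 3 : ℝ)) 3, ← Real.rpow_mul hw0.le,
        ← Real.rpow_natCast w 7]
      norm_num
    rw [← hu]
    have e1 : w ^ 7 * (m : ℝ) ^ 3 ≤ K * n ^ 3 := by
      rcases le_total (Va ρ β h m) 1 with e2 | e2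
      · rw [hw, max_eq_left e2, one_pow, one_mul]
        have e3 : (m : ℝ) ^ 3 ≤ n ^ 3 := pow_le_pow_left₀ (by linarith) hmn' 3
        have e4 : (0 : ℝ) ≤ n ^ 3 := by positivity
        nlinarith
      · rw [hw, max_eq_right e2]
        exact hVa
    have e5 : u * m ≤ K * n := by
      have e6 : (u * m) ^ 3 ≤ (K * n) ^ 3 := by
        rw [mul_pow, mul_pow, hu3]
        refine e1.trans (mul_le_mul_of_nonneg_right ?_ (by positivity))
        have e7 : K ^ 1 ≤ K ^ 3 := pow_le_pow_right₀ hK (by norm_num)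
        rwa [pow_one] at e7
      exact le_of_pow_le_pow_left₀ three_ne_zero (by positivity) e6
    have e8 : (n : ℝ) * (1 / 8) ^ J ≤ 8 * m := by
      have e9 : (n : ℝ) < 8 ^ (J + 1) * m := by exact_mod_cast hJ2
      have e10 : (8 : ℝ) ^ (J + 1) * (1 / 8) ^ J = 8 := by
        rw [pow_succ, mul_comm ((8 : ℝ) ^ J) 8, mul_assoc, ← mul_pow]
        norm_num
      calc (n : ℝ) * (1 / 8) ^ J ≤ 8 ^ (J + 1) * m * (1 / 8) ^ J :=
            mul_le_mul_of_nonneg_right e9.le (by positivity)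
        _ = 8 ^ (J + 1) * (1 / 8) ^ J * m := by ring
        _ = 8 * m := by rw [e10]
    have e11 : (m : ℝ) * (u * (C1 * (1 / 8) ^ J)) ≤ m * (8 * C1 * K) := by
      have e12 : u * m * (C1 * (1 / 8) ^ J) ≤ K * n * (C1 * (1 / 8) ^ J) :=
        mul_le_mul_of_nonneg_right e5 (by positivity)
      have e13 : K * C1 * ((n : ℝ) * (1 / 8) ^ J) ≤ K * C1 * (8 * m) :=
        mul_le_mul_of_nonneg_left e8 (by positivity)
      calc (m : ℝ) * (u * (C1 * (1 / 8) ^ J)) = u * m * (C1 * (1 / 8) ^ J) := by ring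
        _ ≤ K * n * (C1 * (1 / 8) ^ J) := e12
        _ = K * C1 * ((n : ℝ) * (1 / 8) ^ J) := by ring
        _ ≤ K * C1 * (8 * m) := e13
        _ = m * (8 * C1 * K) := by ring
    exact le_of_mul_le_mul_left e11 (by linarith)
  have h5 : (3 * C1 * y) ^ (7 / 5 : ℝ) = (3 * C1) ^ (7 / 5 : ℝ) * y ^ (7 / 5 : ℝ) :=
    Real.mul_rpow (by positivity) (by linarith)
  have h6 : (1 : ℝ) ≤ y ^ (7 / 5 : ℝ) := Real.one_le_rpow hy (by norm_num)
  rw [h5] at h2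
  have h7 : 0 ≤ 8 * C1 * K + 1 := by positivity
  calc ∫ η, (max (X β h η m - A ρ β h m) 0) ^ (7 / 5 : ℝ) ∂(law d ρ)
      ≤ (3 * C1) ^ (7 / 5 : ℝ) * y ^ (7 / 5 : ℝ) * (1 + 8 * C1) + 8 * C1 * K + 1 := by linarith
    _ ≤ (3 * C1) ^ (7 / 5 : ℝ) * y ^ (7 / 5 : ℝ) * (1 + 8 * C1) +
        (8 * C1 * K + 1) * y ^ (7 / 5 : ℝ) := by
        have := mul_le_mul_of_nonneg_left h6 h7
        linarith
    _ = ((3 * C1) ^ (7 / 5 : ℝ) * (1 + 8 * C1) + (8 * C1 * K + 1)) * y ^ (7 / 5 : ℝ) := by ring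

end Pool.Agent.W_7d29a1_PL
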