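import Pool.Agent.W_7d29a1_PL.LocS32
import Pool.Agent.W_7d29a1_KZ.DefsA70
import Pool.Agent.W_7d29a1_SP.Bas15

/-!
THEOREM NU2 (helper32): the wandering exponent of the problem is above `1 / 2`, `d = 2`, at almost
every velocity and EVERY tilt, from theorem KZ (all large `n`) and the point theorem `PointPL`.
-/

namespace Pool.Agent.W_7d29a1_PL

open MeasureTheory ProbabilityTheory Filter Topology Pool.Agent.W_MP_7d29a1_pr
  Pool.Agent.W_7d29a1_h46 Pool.Agent.W_7d29a1_h46u Pool.Agent.W_7d29a1_D2.B35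
  Pool.Agent.W_7d29a1_Q29 Pool.Agent.W_7d29a1_R34 Pool.Agent.W_7d29a1_SP Pool.Agent.W_7d29a1_SD
  Pool.Agent.W_7d29a1_SW Pool.Agent.W_7d29a1_WP Pool.Agent.W_7d29a1_KZ

variable {ρ : Measure ℝ} {β : ℝ}

/-- **THEOREM NU2.** The tube of radius `n ^ (1 / 2 + c)` is not typical, `c` depends only on the gap
of the tilt. -/
theorem nuT32 [IsProbabilityMeasure ρ] (hρ : EM ρ) (hK : MainKA 2 ρ β) (hPt : PointPL ρ β) :
    ∀ g : ℝ, 0 < g → ∃ c : ℝ, 0 < c ∧ ∀ᵐ v : Vec 2, ∀ h : Vec 2,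
      lam ρ β h + g ≤ Real.log (Phi h) + Real.log (∫ t, Real.exp (β * t) ∂ρ) →
        ¬ HalfD ρ β h v c := by
  have hd : 0 < 2 := by norm_num
  intro g hg
  obtain ⟨ε, hε, hε1, hP⟩ := hPt g hg
  refine ⟨ε / 16, by positivity, ?_⟩
  filter_upwards [hK] with v hv h hgap hH
  have hV : VSD ρ β h := by
    unfold VSD
    linarith
  have h1 := hv h hV (ε / 16) (by positivity) (by linarith) hH (ε / 4) (by linarith)
  obtain ⟨N₁, hN₁⟩ := eventually_atTop.1 h1
  obtain ⟨N₂, hN₂⟩ := eventually_atTop.1 (hH (1 / 8) (by norm_num))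
  obtain ⟨N, hN⟩ : ∃ N : ℕ, N = N₁ + N₂ + 1 := ⟨_, rfl⟩
  obtain ⟨S, hS⟩ : ∃ S : ℝ, S = ∑ n ∈ Finset.range N, |Va ρ β h n| := ⟨_, rfl⟩
  obtain ⟨S', hS'⟩ : ∃ S' : ℝ, S' = ∑ n ∈ Finset.range N, |En ρ β h n| := ⟨_, rfl⟩
  have hS0 : 0 ≤ S := by
    rw [hS]
    exact Finset.sum_nonneg fun n _ => abs_nonneg _
  have hS'0 : 0 ≤ S' := by
    rw [hS']
    exact Finset.sum_nonneg fun n _ => abs_nonneg _
  have hv0 := norm_nonneg v
  have hvN : 0 ≤ (1 + ‖v‖) * ((N : ℝ) + 1) := by positivity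
  obtain ⟨Q, hQ⟩ : ∃ Q : ℝ, Q = 1 + S + (1 + ‖v‖) * ((N : ℝ) + 1) := ⟨_, rfl⟩
  have hQ1 : 1 ≤ Q := by linarith
  refine hP h v Q (1 + S') hQ1 ⟨hgap, fun n t ht => ?_, fun t => ?_, fun n => ?_⟩
  · refine locS32 (ρ := ρ) (β := β) (h := h) (v := v) (Q := 1) (ε := ε / 16) (Q' := Q) (ε' := ε)
      (N := N) zero_le_one (by positivity) (by linarith) (by linarith) (by linarith)
      (fun n hn => ?_) n t ht
    rw [one_mul]
    exact hN₂ n (by omega)
  · have ht0 : (0 : ℝ) ≤ t := Nat.cast_nonneg t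
    have hp1 : 1 ≤ ((t : ℝ) + 1) ^ ε := Real.one_le_rpow (by linarith) hε.le
    unfold pg
    rcases Nat.lt_or_ge t N with hl | hl
    · have h2 : |Va ρ β h t| ≤ S := by
        rw [hS]
        exact Finset.single_le_sum (f := fun n => |Va ρ β h n|) (fun i _ => abs_nonneg _)
          (Finset.mem_range.2 hl)
      have h3 := le_abs_self (Va ρ β h t)
      nlinarith
    · have h2 := (hN₁ t (by omega)).1
      have h3 : (t : ℝ) ^ (2 * (ε / 4)) ≤ ((t : ℝ) + 1) ^ ε :=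
        (Real.rpow_le_rpow ht0 (by linarith) (by positivity)).trans
          (Real.rpow_le_rpow_of_exponent_le (by linarith) (by linarith))
      nlinarith
  · rcases Nat.eq_zero_or_pos n with h0 | h0
    · subst h0
      rw [En_zero15]
      positivity
    · have hn1 : (1 : ℝ) ≤ n := by exact_mod_cast h0
      have hp1 : 1 ≤ (n : ℝ) ^ (49 / 100 : ℝ) := Real.one_le_rpow hn1 (by norm_num)
      rcases Nat.lt_or_ge n N with hl | hl
      · have h2 : |En ρ β h n| ≤ S' := by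
          rw [hS']
          exact Finset.single_le_sum (f := fun n => |En ρ β h n|) (fun i _ => abs_nonneg _)
            (Finset.mem_range.2 hl)
        have h3 := le_abs_self (En ρ β h n)
        nlinarith
      · have h2 := (hN₁ n (by omega)).2
        have h3 : (n : ℝ) ^ (ε / 4) ≤ (n : ℝ) ^ (49 / 100 : ℝ) :=
          Real.rpow_le_rpow_of_exponent_le hn1 (by linarith)
        nlinarith

end Pool.Agent.W_7d29a1_PL
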