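import Pool.Agent.W_7d29a1_PL.CorL63
import Pool.Agent.W_7d29a1_WP.BudW98
import Pool.Agent.W_7d29a1_SW.WZero98

/-!
The core at one tilt and one scale in two transversal dimensions: small fluctuations up to `4 n`
force the polymer of length `n` out of every tube of radius `n ^ (1 / 2 + c)`.
-/

set_option autoImplicit false

namespace Pool.Agent.W_7d29a1_PL

open MeasureTheory ProbabilityTheory Filter Topology Pool.Agent.W_MP_7d29a1_pr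
  Pool.Agent.W_7d29a1_h46 Pool.Agent.W_7d29a1_h46u Pool.Agent.W_7d29a1_D2.B35
  Pool.Agent.W_7d29a1_Q29 Pool.Agent.W_7d29a1_R34 Pool.Agent.W_7d29a1_SP Pool.Agent.W_7d29a1_V
  Pool.Agent.W_7d29a1_SW Pool.Agent.W_7d29a1_WP

/-- One scale, balls: at some time the polymer is out of the ball. -/
def OneB (ρ : Measure ℝ) (β : ℝ) : Prop := ∀ g : ℝ, 0 < g → ∃ c : ℝ, 0 < c ∧ ∀ h : Vec 2,
  lam ρ β h + g ≤ Real.log (Phi h) + Real.log (∫ t, Real.exp (β * t) ∂ρ) →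
  ∃ n₀ : ℕ, ∀ n : ℕ, n₀ ≤ n →
    (∀ k : ℕ, k ≤ 4 * n → Va ρ β h k ≤ (n : ℝ) ^ c ∧ En ρ β h k ≤ (n : ℝ) ^ c) →
    ∀ v : Vec 2, ∃ t : ℕ, t ≤ n ∧
      1 / 8 < ∫ η, (1 - ∑ y ∈ bal v t ((n : ℝ) ^ c * Real.sqrt n), Qt β h n t y η) ∂(law 2 ρ)

/-- One scale, tubes. -/
def OneT (ρ : Measure ℝ) (β : ℝ) : Prop := ∀ g : ℝ, 0 < g → ∃ c : ℝ, 0 < c ∧ ∀ h : Vec 2,
  lam ρ β h + g ≤ Real.log (Phi h) + Real.log (∫ t, Real.exp (β * t) ∂ρ) →
  ∃ n₀ : ℕ, ∀ n : ℕ, n₀ ≤ n →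
    (∀ k : ℕ, k ≤ 4 * n → Va ρ β h k ≤ (n : ℝ) ^ c ∧ En ρ β h k ≤ (n : ℝ) ^ c) →
    ∀ v : Vec 2,
      1 / 8 < ∫ η, (1 - PolT β h η (tube 2 n v ((n : ℝ) ^ (1 / 2 + c)))) ∂(law 2 ρ)

theorem oneB63 {ρ : Measure ℝ} [IsProbabilityMeasure ρ] {β : ℝ} (hNP : NPB 2 ρ β)
    (hCor : CorL 2 ρ β) : OneB ρ β := by
  obtain ⟨C₀, hC₀, hNP⟩ := hNP
  intro g hg
  obtain ⟨c₁, hc₁, hcor⟩ := hCor g 1 hg zero_le_one
  refine ⟨c₁ / 6, by positivity, fun h hgap => ?_⟩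
  obtain ⟨n₁, hn₁⟩ := hcor h hgap
  have hl : Tendsto (fun n : ℕ => Real.log n) atTop atTop :=
    Real.tendsto_log_atTop.comp tendsto_natCast_atTop_atTop
  obtain ⟨n₂, hn₂⟩ := eventually_atTop.1 (hl.eventually_ge_atTop
    ((Real.log (C₀ + 1) + 8) / (c₁ / 2)))
  refine ⟨max n₁ (max n₂ 6), fun n hn hV v => ?_⟩
  have hn1 : n₁ ≤ n := (le_max_left _ _).trans hn
  have hn2 : n₂ ≤ n := (le_max_left _ _).trans ((le_max_right _ _).trans hn)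
  have hn6 : 6 ≤ n := (le_max_right _ _).trans ((le_max_right _ _).trans hn)
  have hn0 : (1 : ℝ) ≤ n := by exact_mod_cast (by omega : 1 ≤ n)
  by_contra hcon
  push Not at hcon
  have hK : 1 ≤ (n : ℝ) ^ (c₁ / 6) := Real.one_le_rpow hn0 (by positivity)
  have h1 := bd98 (ρ := ρ) (β := β) hC₀ (h := h) (v := v) (n := n) hn6 hK (hNP h n)
    (fun t ht => hcon t ht) (hV n (by omega)).1
  have h2 := hn₂ n hn2
  rw [div_le_iff₀ (by positivity)] at h2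
  have h3 : (n : ℝ) ^ (c₁ / 6) ≤ (n : ℝ) ^ c₁ :=
    Real.rpow_le_rpow_of_exponent_le hn0 (by linarith)
  refine hn₁ n hn1 (fun k hk => ⟨(hV k hk).1.trans h3, (hV k hk).2.trans h3⟩) ?_
  intro I B θ D hB hD hJ
  refine (h1 I B θ D hB hD hJ).trans ?_
  rw [Real.log_rpow (by linarith)]
  linarith

theorem oneT63 {ρ : Measure ℝ} [IsProbabilityMeasure ρ] {β : ℝ} (h : OneB ρ β) :
    OneT ρ β := by
  intro g hg
  obtain ⟨c, hc, H⟩ := h g hg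
  refine ⟨c, hc, fun h hgap => ?_⟩
  obtain ⟨n₀, hn₀⟩ := H h hgap
  refine ⟨max n₀ 1, fun n hn hV v => ?_⟩
  obtain ⟨t, ht, hlt⟩ := hn₀ n ((le_max_left _ _).trans hn) hV v
  have hn1 : 1 ≤ n := (le_max_right _ _).trans hn
  have hn0 : (0 : ℝ) < n := by exact_mod_cast hn1
  have hr : (n : ℝ) ^ (1 / 2 + c) ≤ (n : ℝ) ^ c * Real.sqrt n := by
    rw [Real.rpow_add hn0, Real.sqrt_eq_rpow, mul_comm]
  refine hlt.trans_le (integral_mono ?_ ?_ fun η => W098.bal_tube98 ht β h v hr η)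
  · have h5 : (fun η : Env 2 => 1 - ∑ y ∈ bal v t ((n : ℝ) ^ c * Real.sqrt n),
        Qt β h n t y η) = fun η => 1 - PolT β h η {s : Fin n → Step 2 |
          pos s t ∈ bal v t ((n : ℝ) ^ c * Real.sqrt n)} := by
      funext η
      rw [sum_Qt ht]
    rw [h5]
    exact (integrable_const 1).sub (integrable_PolT72 β h _)
  · exact (integrable_const 1).sub (integrable_PolT72 β h _)

end Pool.Agent.W_7d29a1_PL
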