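import Pool.Agent.W_7d29a1_PL.LowQ15
import Pool.Agent.W_7d29a1_PL.LkQ26
import Pool.Agent.W_7d29a1_PL.BetQ26
import Pool.Agent.W_7d29a1_PL.Pnt73
import Pool.Agent.W_7d29a1_PL.Aeq81
import Pool.Agent.W_7d29a1_AM.FinU73
import Pool.Agent.W_7d29a1_AM.GrowU78
import Pool.Agent.W_7d29a1_SP.Fin15

/-!
Theorem PL: the plug, from the leaves COR and BUD to the theorem, every law (helper81).
-/

namespace Pool.Agent.W_7d29a1_PL

open MeasureTheory ProbabilityTheory Filter Topology Pool.Agent.W_MP_7d29a1_pr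
  Pool.Agent.W_7d29a1_h46 Pool.Agent.W_7d29a1_h46u Pool.Agent.W_7d29a1_D2.B35
  Pool.Agent.W_7d29a1_Q29 Pool.Agent.W_7d29a1_R34 Pool.Agent.W_7d29a1_SP
  Pool.Agent.W_7d29a1_AM

variable {ρ : Measure ℝ} [IsProbabilityMeasure ρ]

/-- The luck at a good point, every law. -/
theorem lkQ81 (hρ : EM ρ) (hnc : ∀ c : ℝ, ρ {c} ≠ 1) {β : ℝ} (hβ : 0 < β) : LkQ26 ρ β :=
  lkQ26 hρ (luck93 hρ (leak34 hρ (box34 (by norm_num) hρ β) (tail13 (by norm_num) hρ β)))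
    (npb98 (by norm_num) hρ hnc hβ)

/-- The fluctuation beats every multiple of the logarithm, every law. -/
theorem lowQ81 (hρ : EM ρ) (hnc : ∀ c : ℝ, ρ {c} ≠ 1) {β : ℝ} (hβ : 0 < β) : LowQ ρ β := by
  have hLoc : LocE 2 ρ β := Csy42.loc42 (by norm_num) hρ β
  have hGrow : GrowU 2 ρ β :=
    growU78 (cnt79 (by norm_num) hρ β) (ampU73 (by norm_num) hρ hnc hβ)
  refine lowQ15 hρ seqP69 hGrow ?_ hLoc
    (gapQ72 (npf98 (by norm_num) hρ hnc hβ) hLoc (lowP85 (by norm_num) hρ β))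
  intro g M hg hM
  obtain ⟨c₂, c₁, h1, h2, h3, h4⟩ := lkQ81 hρ hnc hβ g M hg hM
  exact ⟨c₁, c₂, h3, h1, h2, h4⟩

/-- The upper bound of the nonrandom fluctuation, every law. -/
theorem betQ81 (hρ : EM ρ) (hnc : ∀ c : ℝ, ρ {c} ≠ 1) {β : ℝ} (hβ : 0 < β) : BetQ ρ β :=
  betQ26 hρ β seqP69 (lkQ81 hρ hnc hβ)

/-- **Theorem PL** from the two leaves COR and BUD, every law. -/
theorem plug81 (hρ : EM ρ) (hnc : ∀ c : ℝ, ρ {c} ≠ 1) {β : ℝ} (hβ : 0 < β)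
    (hC : CorP 2 ρ β) (hB : BudP ρ β) : MainPL ρ β :=
  aeq81 hρ β (pntQ73 hC hB (lowQ81 hρ hnc hβ) (betQ81 hρ hnc hβ)) (Rate74.rateP74 hρ β)
    (curv13 hρ)

end Pool.Agent.W_7d29a1_PL
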