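import Pool.Agent.W_7d29a1_PL.Plug81
import Pool.Agent.W_7d29a1_PL.AddP34
import Pool.Agent.W_7d29a1_PL.CatP47
import Pool.Agent.W_7d29a1_PL.BudP67
import Pool.Agent.W_7d29a1_PL.Use10
import Pool.Agent.W_7d29a1_PL.Cor24
import Pool.Agent.W_7d29a1_PL.Chp35
import Pool.Agent.W_7d29a1_PL.Sel66

/-!
Theorem PL: the plug, from the leaf COST to the theorem (helper81).
-/

namespace Pool.Agent.W_7d29a1_PL

open MeasureTheory ProbabilityTheory Filter Topology Pool.Agent.W_MP_7d29a1_pr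
  Pool.Agent.W_7d29a1_h46 Pool.Agent.W_7d29a1_h46u Pool.Agent.W_7d29a1_D2.B35
  Pool.Agent.W_7d29a1_Q29 Pool.Agent.W_7d29a1_R34 Pool.Agent.W_7d29a1_SP
  Pool.Agent.W_7d29a1_AM

variable {ρ : Measure ℝ} [IsProbabilityMeasure ρ]

/-- The budget at a good point, every law. -/
theorem budP81 (hρ : EM ρ) (hnc : ∀ c : ℝ, ρ {c} ≠ 1) {β : ℝ} (hβ : 0 < β) : BudP ρ β :=
  budP67 hρ (leak34 hρ (box34 (by norm_num) hρ β) (tail13 (by norm_num) hρ β))
    (npb98 (by norm_num) hρ hnc hβ) (betQ81 hρ hnc hβ)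

/-- The core from COST, every dimension, every law with the growth. -/
theorem corP81 {d : ℕ} (hd : 0 < d) (hρ : EM ρ) {β : ℝ} (hG : GrowP d ρ β)
    (hC : CostP d ρ β) : CorP d ρ β :=
  C24.cor24 hd hρ (Csy42.loc42 hd hρ β) (useP10 hd hρ β)
    (addP34 hd hρ (catP47 hd hρ β) hC) (chp35 hd hρ hG) sel66

/-- **Theorem PL** from the leaf COST, every law with the growth. -/
theorem plugB81 (hρ : EM ρ) (hnc : ∀ c : ℝ, ρ {c} ≠ 1) {β : ℝ} (hβ : 0 < β)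
    (hG : GrowP 2 ρ β) (hC : CostP 2 ρ β) : MainPL ρ β :=
  plug81 hρ hnc hβ (corP81 (by norm_num) hρ hG hC) (budP81 hρ hnc hβ)

/-- **Theorem PL** from the leaf COST, the law of a convex function of a Gaussian. -/
theorem plugG81 (hG : GC ρ) (hρ : EM ρ) (hnc : ∀ c : ℝ, ρ {c} ≠ 1) {β : ℝ} (hβ : 0 < β)
    (hC : CostP 2 ρ β) : MainPL ρ β :=
  plugB81 hρ hnc hβ
    (grow78 (cnt79 (by norm_num) hρ β) (amp84 (by norm_num) hG hβ.le)) hC

end Pool.Agent.W_7d29a1_PL
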