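import Pool.Agent.W_7d29a1_PL.Plug81b
import Pool.Agent.W_7d29a1_PL.CorX24
import Pool.Agent.W_7d29a1_PL.AddX54
import Pool.Agent.W_7d29a1_PL.ChpX34

/-!
Theorem PL for every law with exponential moments: the plug, from the growth and the leaf COSTX to
the theorem (helper73).
-/

namespace Pool.Agent.W_7d29a1_PL

open MeasureTheory ProbabilityTheory Filter Topology Pool.Agent.W_MP_7d29a1_pr
  Pool.Agent.W_7d29a1_h46 Pool.Agent.W_7d29a1_h46u Pool.Agent.W_7d29a1_D2.B35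
  Pool.Agent.W_7d29a1_Q29 Pool.Agent.W_7d29a1_R34 Pool.Agent.W_7d29a1_SP
  Pool.Agent.W_7d29a1_AM

variable {ρ : Measure ℝ} [IsProbabilityMeasure ρ]

/-- The core, every dimension, every law. -/
theorem corX73 {d : ℕ} (hd : 0 < d) (hρ : EM ρ) {β : ℝ} (hG : Pool.Agent.W_7d29a1_PL.GrowN d ρ β)
    (hC : CostX d ρ β) : CorP d ρ β :=
  C24.corX24 hd hρ (Csy42.loc42 hd hρ β) (useP10 hd hρ β)
    (Ad54.addX54 hd (catP47 hd hρ β) hC) (chpX34 hd hρ hG) sel66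

/-- **Theorem PL** for every law from the growth and COSTX. -/
theorem plugX73 (hρ : EM ρ) (hnc : ∀ c : ℝ, ρ {c} ≠ 1) {β : ℝ} (hβ : 0 < β)
    (hG : Pool.Agent.W_7d29a1_PL.GrowN 2 ρ β) (hC : CostX 2 ρ β) : MainPL ρ β :=
  plug81 hρ hnc hβ (corX73 (by norm_num) hρ hG hC) (budP81 hρ hnc hβ)

end Pool.Agent.W_7d29a1_PL
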