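import Mathlib

/-!
Theorem PL, the deterministic half of USAGE: a rising-sun count.
-/

set_option autoImplicit false

namespace Pool.Agent.W_7d29a1_PL

open Finset

open Classical in
/-- Number of the bad indices in `[a, N)`. -/
noncomputable def nB26 (Good : ℕ → Prop) (a N : ℕ) : ℝ :=
  (((Finset.Ico a N).filter fun k => ¬ Good k).card : ℝ)

open Classical in
/-- Number of the good indices in `[a, N)`. -/
noncomputable def nG26 (Good : ℕ → Prop) (a N : ℕ) : ℝ :=
  (((Finset.Ico a N).filter fun k => Good k).card : ℝ)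

lemma nB_add26 (Good : ℕ → Prop) {a b N : ℕ} (hab : a ≤ b) (hbN : b ≤ N) :
    nB26 Good a N = nB26 Good a b + nB26 Good b N := by
  classical
  unfold nB26
  rw [← Finset.Ico_union_Ico_eq_Ico hab hbN, Finset.filter_union,
    Finset.card_union_of_disjoint]
  · push_cast
    ring
  · exact Finset.disjoint_filter_filter (Finset.Ico_disjoint_Ico_consecutive a b N)

lemma nG_add26 (Good : ℕ → Prop) {a b N : ℕ} (hab : a ≤ b) (hbN : b ≤ N) :
    nG26 Good a N = nG26 Good a b + nG26 Good b N := by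
  classical
  unfold nG26
  rw [← Finset.Ico_union_Ico_eq_Ico hab hbN, Finset.filter_union,
    Finset.card_union_of_disjoint]
  · push_cast
    ring
  · exact Finset.disjoint_filter_filter (Finset.Ico_disjoint_Ico_consecutive a b N)

lemma nB_nonneg26 (Good : ℕ → Prop) (a b : ℕ) : 0 ≤ nB26 Good a b := by
  unfold nB26
  positivity

lemma nG_nonneg26 (Good : ℕ → Prop) (a b : ℕ) : 0 ≤ nG26 Good a b := by
  unfold nG26
  positivity

lemma nB_add_nG26 (Good : ℕ → Prop) (a N : ℕ) (h : a ≤ N) :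
    nB26 Good a N + nG26 Good a N = N - a := by
  classical
  unfold nB26 nG26
  have h1 := Finset.card_filter_add_card_filter_not (s := Finset.Ico a N) Good
  rw [Nat.card_Ico] at h1
  have h2 : ((((Finset.Ico a N).filter fun k => Good k).card : ℝ) +
      (((Finset.Ico a N).filter fun k => ¬ Good k).card : ℝ)) = ((N - a : ℕ) : ℝ) := by
    exact_mod_cast h1
  rw [Nat.cast_sub h] at h2
  linarith

lemma nB_one26 (Good : ℕ → Prop) {a : ℕ} (h : ¬ Good a) : nB26 Good a (a + 1) = 1 := by
  classical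
  unfold nB26
  have : (Finset.Ico a (a + 1)).filter (fun k => ¬ Good k) = {a} := by
    ext k
    simp only [Finset.mem_filter, Finset.mem_Ico, Finset.mem_singleton]
    constructor
    · rintro ⟨⟨h1, h2⟩, -⟩
      omega
    · rintro rfl
      exact ⟨⟨le_refl _, by omega⟩, h⟩
  rw [this]
  simp

lemma nG_one26 (Good : ℕ → Prop) {a : ℕ} (h : Good a) : nG26 Good a (a + 1) = 1 := by
  classical
  unfold nG26
  have : (Finset.Ico a (a + 1)).filter (fun k => Good k) = {a} := by
    ext k
    simp only [Finset.mem_filter, Finset.mem_Ico, Finset.mem_singleton]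
    constructor
    · rintro ⟨⟨h1, h2⟩, -⟩
      omega
    · rintro rfl
      exact ⟨⟨le_refl _, by omega⟩, h⟩
  rw [this]
  simp

lemma nB_zero26 (Good : ℕ → Prop) {a b : ℕ} (h : ∀ k, a ≤ k → k < b → Good k) :
    nB26 Good a b = 0 := by
  classical
  unfold nB26
  have : (Finset.Ico a b).filter (fun k => ¬ Good k) = ∅ := by
    ext k
    simp only [Finset.mem_filter, Finset.mem_Ico, Finset.notMem_empty, iff_false, not_and,
      not_not]
    rintro ⟨h1, h2⟩
    exact h k h1 h2
  rw [this]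
  simp

/-- The first bad index after `a`, or `N`. -/
lemma next26 (Good : ℕ → Prop) {a N : ℕ} (ha : a ≤ N) : ∃ b, a ≤ b ∧ b ≤ N ∧
    (∀ k, a ≤ k → k < b → Good k) ∧ (b < N → ¬ Good b) := by
  induction' hn : N - a with m ih generalizing a
  · exact ⟨a, le_refl _, ha, fun k h1 h2 => by omega, fun h => by omega⟩
  · by_cases hg : Good a
    · obtain ⟨b, h1, h2, h3, h4⟩ := ih (a := a + 1) (by omega) (by omega)
      refine ⟨b, by omega, h2, fun k hk1 hk2 => ?_, h4⟩
      rcases Nat.lt_or_ge a k with h | h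
      · exact h3 k (by omega) hk2
      · have : k = a := by omega
        rw [this]
        exact hg
    · exact ⟨a, le_refl _, ha, fun k h1 h2 => by omega, fun _ => hg⟩

/-- The count from a bad index. -/
lemma bad26 {N : ℕ} {f : ℕ → ℝ} {Good : ℕ → Prop} {κ E : ℝ} (hE : 0 ≤ E)
    (ha : ∀ k < N, ¬ Good k → f k ≤ -((1 - κ) * E))
    (hb : ∀ k < N, ¬ Good k → ∀ H : ℕ, 1 ≤ H → k + H ≤ N →
      ∑ i ∈ range H, (f (k + i) - κ * E) ≤ 0) (m : ℕ) :
    ∀ a : ℕ, a ≤ N → N - a ≤ m → (a < N → ¬ Good a) →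
      ∑ i ∈ Finset.Ico a N, f i ≤
        κ * E * (N - a : ℝ) - E * (nB26 Good a N - nG26 Good a N) := by
  induction' m with m ih
  · intro a h1 h2 _
    have h3 : a = N := by omega
    rw [h3]
    have e1 : nB26 Good N N = 0 := nB_zero26 Good fun k h1 h2 => by omega
    have e2 : nG26 Good N N = 0 := by
      unfold nG26
      simp
    rw [e1, e2]
    simp
  · intro a h1 h2 h3
    rcases Nat.eq_or_lt_of_le h1 with h4 | h4
    · exact ih a h1 (by omega) h3
    have hba := h3 h4
    obtain ⟨b, k1, k2, k3, k4⟩ := next26 Good (a := a + 1) (N := N) (by omega)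
    have hI := ih b k2 (by omega) k4
    have e1 : nB26 Good a N = 1 + nB26 Good b N := by
      rw [nB_add26 Good (show a ≤ a + 1 by omega) (show a + 1 ≤ N by omega), nB_one26 Good hba,
        nB_add26 Good k1 k2, nB_zero26 Good k3]
      ring
    have e2 : nG26 Good a N = nG26 Good a (a + 1) + (nG26 Good (a + 1) b + nG26 Good b N) := by
      rw [nG_add26 Good (show a ≤ a + 1 by omega) (show a + 1 ≤ N by omega),
        nG_add26 Good k1 k2]
    have hsplit : ∑ i ∈ Finset.Ico a N, f i =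
        ∑ i ∈ Finset.Ico a b, f i + ∑ i ∈ Finset.Ico b N, f i :=
      (Finset.sum_Ico_consecutive f (by omega) k2).symm
    rw [hsplit]
    rcases Nat.eq_or_lt_of_le k1 with k5 | k5
    · -- the next index is bad
      subst k5
      have e3 : nG26 Good a (a + 1) = 0 := by
        have := nB_add_nG26 Good a (a + 1) (by omega)
        rw [nB_one26 Good hba] at this
        push_cast at this
        linarith
      have e4 : nG26 Good (a + 1) (a + 1) = 0 := by
        unfold nG26
        simp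
      have e5 : ∑ i ∈ Finset.Ico a (a + 1), f i = f a := by simp
      rw [e5]
      have h5 := ha a h4 hba
      rw [e1, e2, e3, e4]
      push_cast at hI ⊢
      nlinarith
    · have h5 := hb a h4 hba (b - a) (by omega) (by omega)
      have e5 : ∑ i ∈ Finset.Ico a b, f i = ∑ i ∈ range (b - a), f (a + i) := by
        rw [Finset.sum_Ico_eq_sum_range]
      have e6 : ∑ i ∈ range (b - a), (f (a + i) - κ * E) =
          ∑ i ∈ range (b - a), f (a + i) - (b - a : ℝ) * (κ * E) := by
        rw [Finset.sum_sub_distrib, Finset.sum_const, Finset.card_range, nsmul_eq_mul,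
          Nat.cast_sub (by omega)]
      have e7 : 1 ≤ nG26 Good (a + 1) b := by
        rw [nG_add26 Good (show a + 1 ≤ a + 1 + 1 by omega) (show a + 1 + 1 ≤ b by omega),
          nG_one26 Good (k3 (a + 1) (le_refl _) k5)]
        have := nG_nonneg26 Good (a + 1 + 1) b
        linarith
      have e8 := nG_nonneg26 Good a (a + 1)
      rw [e6] at h5
      rw [e5, e1, e2]
      have h6 : ∑ i ∈ range (b - a), f (a + i) ≤ κ * E * (b - a : ℝ) := by linarith
      have h7 : E * (nB26 Good b N - nG26 Good b N) ≥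
          E * (1 + nB26 Good b N - (nG26 Good a (a + 1) +
            (nG26 Good (a + 1) b + nG26 Good b N))) :=
        mul_le_mul_of_nonneg_left (by linarith) hE
      linarith

/-- **Rising-sun count.** -/
theorem ris26 {N : ℕ} {f : ℕ → ℝ} {Good : ℕ → Prop} {κ E W : ℝ} (hE : 0 ≤ E) (hκ : 0 ≤ κ)
    (ha : ∀ k < N, ¬ Good k → f k ≤ -((1 - κ) * E))
    (hb : ∀ k < N, ¬ Good k → ∀ H : ℕ, 1 ≤ H → k + H ≤ N →
      ∑ i ∈ range H, (f (k + i) - κ * E) ≤ 0)
    (hc : ∀ b : ℕ, b ≤ N → ∑ i ∈ range b, f i ≤ W) :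
    ∑ i ∈ range N, f i ≤ W + κ * E * N - E * (nB26 Good 0 N - nG26 Good 0 N) := by
  obtain ⟨b, k1, k2, k3, k4⟩ := next26 Good (a := 0) (N := N) (by omega)
  have h1 := bad26 hE ha hb N b k2 (by omega) k4
  have h2 : ∑ i ∈ range N, f i = ∑ i ∈ range b, f i + ∑ i ∈ Finset.Ico b N, f i := by
    rw [Finset.range_eq_Ico, Finset.range_eq_Ico]
    exact (Finset.sum_Ico_consecutive f k1 k2).symm
  have h3 := hc b k2
  have e1 : nB26 Good 0 N = nB26 Good b N := by
    rw [nB_add26 Good k1 k2, nB_zero26 Good k3, zero_add]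
  have e2 : nG26 Good b N ≤ nG26 Good 0 N := by
    rw [nG_add26 Good k1 k2]
    have := nG_nonneg26 Good 0 b
    linarith
  have h4 : E * (nB26 Good 0 N - nG26 Good 0 N) ≤ E * (nB26 Good b N - nG26 Good b N) :=
    mul_le_mul_of_nonneg_left (by rw [e1]; linarith) hE
  have h5 : κ * E * ((N : ℝ) - b) ≤ κ * E * N := by
    have h6 : 0 ≤ κ * E * (b : ℝ) := by positivity
    nlinarith
  rw [h2]
  linarith

/-- The count of the good indices. -/
theorem ris26' {N : ℕ} {f : ℕ → ℝ} {Good : ℕ → Prop} {κ E W : ℝ} (hE : 0 ≤ E) (hκ : 0 ≤ κ)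
    (ha : ∀ k < N, ¬ Good k → f k ≤ -((1 - κ) * E))
    (hb : ∀ k < N, ¬ Good k → ∀ H : ℕ, 1 ≤ H → k + H ≤ N →
      ∑ i ∈ range H, (f (k + i) - κ * E) ≤ 0)
    (hc : ∀ b : ℕ, b ≤ N → ∑ i ∈ range b, f i ≤ W) :
    E * ((1 - κ) * N) ≤ 2 * E * nG26 Good 0 N + W - ∑ i ∈ range N, f i := by
  have h1 := ris26 hE hκ ha hb hc
  have h2 := nB_add_nG26 Good 0 N (by omega)
  have h3 : nB26 Good 0 N = N - nG26 Good 0 N := by
    push_cast at h2
    linarith
  rw [h3] at h1
  nlinarith

end Pool.Agent.W_7d29a1_PL
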