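import Mathlib

namespace Pool.Agent.W_7d29a1_PL.R53

/-- Bad indices with all partial sums small: the sum is small (no rising sun is needed). -/
theorem rise53 (f : ℕ → ℝ) (N : ℕ) (E κ M₀ : ℝ) (B : Finset ℕ) (hE : 0 ≤ E)
    (h1 : ∀ k ∈ B, k < N → f k ≤ -(1 - κ) * E)
    (h2 : ∀ k ∈ B, ∀ H : ℕ, k + H ≤ N → ∑ i ∈ Finset.range H, f (k + i) ≤ κ * H * E)
    (h0 : ∀ H : ℕ, H ≤ N → ∑ i ∈ Finset.range H, f i ≤ κ * H * E + M₀) :
    ∀ n : ℕ, n ≤ N → ∑ k ∈ Finset.range n, f k ≤
      κ * E * n + M₀ - E * (2 * ((B.filter (· < n)).card : ℝ) - n) := by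
  intro n
  induction n using Nat.strong_induction_on with
  | _ n ih =>
    intro hn
    rcases (B.filter (· < n)).eq_empty_or_nonempty with he | hne
    · rw [he]
      have := h0 n hn
      have h3 : 0 ≤ E * (n : ℝ) := by positivity
      simp only [Finset.card_empty, Nat.cast_zero]
      linarith
    · obtain ⟨a, ha, hmax⟩ : ∃ a ∈ B.filter (· < n), ∀ b ∈ B.filter (· < n), b ≤ a :=
        ⟨_, Finset.max'_mem _ hne, fun b hb => Finset.le_max' _ b hb⟩
      rw [Finset.mem_filter] at ha
      obtain ⟨haB, han⟩ := ha
      have hcard : (B.filter (· < n)).card = (B.filter (· < a)).card + 1 := by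
        have h3 : B.filter (· < n) = insert a (B.filter (· < a)) := by
          ext b
          simp only [Finset.mem_insert, Finset.mem_filter]
          constructor
          · rintro ⟨hb, hbn⟩
            have := hmax b (Finset.mem_filter.2 ⟨hb, hbn⟩)
            rcases this.eq_or_lt with h | h
            · exact Or.inl h
            · exact Or.inr ⟨hb, h⟩
          · rintro (h | ⟨hb, hba⟩)
            · rw [h]
              exact ⟨haB, han⟩
            · exact ⟨hb, hba.trans han⟩
        rw [h3, Finset.card_insert_of_notMem]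
        simp
      have ih1 := ih a han (by omega)
      obtain ⟨H, hH⟩ : ∃ H, n = a + H := ⟨n - a, by omega⟩
      have hsplit : ∑ k ∈ Finset.range n, f k = ∑ k ∈ Finset.range a, f k +
          ∑ i ∈ Finset.range H, f (a + i) := by
        rw [hH, Finset.sum_range_add]
      have hnH : (n : ℝ) = a + H := by rw [hH]; push_cast; ring
      have hseg : ∑ i ∈ Finset.range H, f (a + i) ≤ κ * H * E - E * (2 - H) := by
        rcases Nat.lt_or_ge H 2 with h | h
        · have hH1 : H = 1 := by omega
          have := h1 a haB (by omega)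
          rw [hH1]
          simp only [Finset.range_one, Finset.sum_singleton, add_zero, Nat.cast_one]
          linarith
        · have h3 := h2 a haB H (by omega)
          have h4 : (2 : ℝ) ≤ H := by exact_mod_cast h
          have h5 : 0 ≤ E * ((H : ℝ) - 2) := mul_nonneg hE (by linarith)
          linarith
      rw [hsplit, hcard, hnH]
      push_cast
      linarith

end Pool.Agent.W_7d29a1_PL.R53
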