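import Mathlib

/-!
Rising sun: a sequence with large negative values at the points of `B` and small partial sums from
these points.
-/

set_option autoImplicit false

namespace Pool.Agent.W_7d29a1_PL.R62

open Finset

/-- Number of the points of `B` which are `≥ k`. -/
def cnt (B : Finset ℕ) (k : ℕ) : ℕ := (B.filter (k ≤ ·)).card

lemma cnt_succ_not {B : Finset ℕ} {k : ℕ} (hk : k ∉ B) : cnt B k = cnt B (k + 1) := by
  unfold cnt
  congr 1
  ext x
  simp only [mem_filter, and_congr_right_iff]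
  intro hx
  constructor
  · intro h
    rcases eq_or_lt_of_le h with h1 | h1
    · exact absurd (h1 ▸ hx) hk
    · exact h1
  · intro h
    omega

lemma cnt_succ_mem {B : Finset ℕ} {k : ℕ} (hk : k ∈ B) : cnt B k = cnt B (k + 1) + 1 := by
  unfold cnt
  have h1 : B.filter (k ≤ ·) = insert k (B.filter (k + 1 ≤ ·)) := by
    ext x
    simp only [mem_filter, mem_insert]
    constructor
    · rintro ⟨hx, h⟩
      rcases eq_or_lt_of_le h with h1 | h1
      · exact Or.inl h1.symm
      · exact Or.inr ⟨hx, h1⟩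
    · rintro (h | ⟨hx, h⟩)
      · subst h
        exact ⟨hk, le_rfl⟩
      · exact ⟨hx, by omega⟩
  rw [h1, card_insert_of_notMem]
  simp

lemma cnt_zero (B : Finset ℕ) : cnt B 0 = B.card := by
  unfold cnt
  congr 1
  simp

lemma cnt_end {B : Finset ℕ} {N : ℕ} (hB : B ⊆ range N) : cnt B N = 0 := by
  unfold cnt
  rw [card_eq_zero, filter_eq_empty_iff]
  intro x hx
  have := mem_range.1 (hB hx)
  omega

theorem core (g : ℕ → ℝ) (N : ℕ) (E : ℝ) (B : Finset ℕ) (hE : 0 ≤ E) (hB : B ⊆ range N)
    (h1 : ∀ k ∈ B, g k ≤ -E)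
    (h2 : ∀ k ∈ B, ∀ H : ℕ, k + H ≤ N → ∑ i ∈ range H, g (k + i) ≤ 0) :
    ∀ m k : ℕ, k + m = N → ∃ H : ℕ, k + H ≤ N ∧ 0 ≤ ∑ i ∈ range H, g (k + i) ∧
      ∑ i ∈ Ico k N, g i ≤ (∑ i ∈ range H, g (k + i)) - E * (2 * cnt B k - ((N : ℝ) - k)) ∧
      (k < N → k ∉ B → ∑ i ∈ Ico k N, g i ≤
        (∑ i ∈ range H, g (k + i)) - E * (2 * cnt B k - ((N : ℝ) - k)) - E) := by
  intro m
  induction m with
  | zero =>
    intro k hk
    have hkN : k = N := by omega
    subst hkN
    refine ⟨0, by omega, by simp, ?_, fun h => absurd h (lt_irrefl _)⟩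
    rw [cnt_end hB]
    simp
  | succ m ih =>
    intro k hk
    obtain ⟨H', hH', hp', hS', hS2'⟩ := ih (k + 1) (by omega)
    have hkN : k < N := by omega
    set p' := ∑ i ∈ range H', g (k + 1 + i) with hp'd
    have hsplit : ∑ i ∈ Ico k N, g i = g k + ∑ i ∈ Ico (k + 1) N, g i :=
      sum_eq_sum_Ico_succ_bot hkN g
    have hpart : ∑ i ∈ range (H' + 1), g (k + i) = g k + p' := by
      rw [sum_range_succ', add_comm]
      congr 1
      refine sum_congr rfl fun i _ => ?_
      congr 1
      omega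
    have hc : (((k + 1 : ℕ)) : ℝ) = (k : ℝ) + 1 := by push_cast; ring
    rw [hc] at hS' hS2'
    by_cases hkB : k ∈ B
    · -- a point of `B`
      have hcm : (cnt B k : ℝ) = cnt B (k + 1) + 1 := by
        rw [cnt_succ_mem hkB]
        push_cast
        ring
      refine ⟨0, by omega, by simp, ?_, fun _ h => absurd hkB h⟩
      rw [range_zero, sum_empty, hcm, hsplit]
      by_cases hcase : k + 1 < N ∧ k + 1 ∉ B
      · have h3 := hS2' hcase.1 hcase.2
        have h4 := h2 k hkB (H' + 1) (by omega)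
        rw [hpart] at h4
        linarith
      · have hp0 : p' ≤ 0 := by
          by_cases hlt : k + 1 < N
          · have hmem : k + 1 ∈ B := by
              by_contra hcon
              exact hcase ⟨hlt, hcon⟩
            exact h2 (k + 1) hmem H' hH'
          · have hH0 : H' = 0 := by omega
            rw [hp'd, hH0]
            simp
        have h5 := h1 k hkB
        linarith
    · have hcm : (cnt B k : ℝ) = cnt B (k + 1) := by rw [cnt_succ_not hkB]
      have h6 : ∑ i ∈ Ico k N, g i ≤ g k + p' - E * (2 * cnt B k - ((N : ℝ) - k)) - E := by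
        rw [hsplit, hcm]
        linarith
      by_cases hpos : 0 ≤ g k + p'
      · refine ⟨H' + 1, by omega, by rw [hpart]; exact hpos, ?_, fun _ _ => ?_⟩
        · rw [hpart]
          linarith
        · rw [hpart]
          exact h6
      · have hneg := not_le.1 hpos
        refine ⟨0, by omega, by simp, ?_, fun _ _ => ?_⟩
        · rw [range_zero, sum_empty]
          linarith
        · rw [range_zero, sum_empty]
          linarith

end Pool.Agent.W_7d29a1_PL.R62

namespace Pool.Agent.W_7d29a1_PL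

open Finset

/-- Rising sun. -/
theorem rise62 (f : ℕ → ℝ) (N : ℕ) (E κ M₀ : ℝ) (B : Finset ℕ) (hE : 0 ≤ E)
    (hB : B ⊆ range N) (h1 : ∀ k ∈ B, f k ≤ -((1 - κ) * E))
    (h2 : ∀ k ∈ B, ∀ H : ℕ, k + H ≤ N → ∑ i ∈ range H, f (k + i) ≤ κ * H * E)
    (h0 : ∀ H : ℕ, H ≤ N → ∑ i ∈ range H, f i ≤ κ * H * E + M₀) :
    ∑ k ∈ range N, f k ≤ κ * E * N + M₀ - E * (2 * B.card - N) := by
  set g : ℕ → ℝ := fun k => f k - κ * E with hg
  have hgs : ∀ k H : ℕ, ∑ i ∈ range H, g (k + i) = ∑ i ∈ range H, f (k + i) - κ * H * E := by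
    intro k H
    simp only [hg]
    rw [sum_sub_distrib, sum_const, card_range, nsmul_eq_mul]
    ring
  obtain ⟨H, hH, -, hS, -⟩ := R62.core g N E B hE hB
    (fun k hk => by
      have := h1 k hk
      show f k - κ * E ≤ -E
      linarith)
    (fun k hk H hH => by
      rw [hgs]
      linarith [h2 k hk H hH]) N 0 (by omega)
  rw [hgs, R62.cnt_zero] at hS
  have h3 := h0 H (by omega)
  have h4 : ∑ i ∈ Ico 0 N, g i = ∑ k ∈ range N, f k - κ * N * E := by
    have := hgs 0 N
    simp only [zero_add] at this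
    rw [← this, ← range_eq_Ico]
  rw [h4] at hS
  simp only [zero_add, Nat.cast_zero, sub_zero] at hS
  linarith

end Pool.Agent.W_7d29a1_PL
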