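import Pool.Agent.W_7d29a1_PL.DefsPL

/-!
THEOREM PL (helper38), leaf RSL (helper69): the rising sun lemma.
-/

open Finset

namespace Pool.Agent.W_7d29a1_PL

theorem rsl69 : RslP := by
  intro N f a b e W ha hb hW hf hM hE he
  classical
  set w : ℕ → ℝ := fun k => ∑ i ∈ Ico k N, (if i ∈ W then (1 : ℝ) else 0) with hw
  set T : ℕ → ℝ := fun k => ∑ i ∈ Ico k N, f i with hT
  set B : ℕ → ℝ := fun k => 2 * a * ((N - k : ℝ) - w k) - b * (2 * w k - (N - k : ℝ)) with hB
  -- no elements of `W` in `[k, q)`
  have hwq : ∀ k q : ℕ, k ≤ q → q ≤ N → (∀ i, k ≤ i → i < q → i ∉ W) → w k = w q := by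
    intro k q hkq hqN h
    simp only [hw]
    rw [← Finset.sum_Ico_consecutive _ hkq hqN]
    have h0 : ∑ i ∈ Ico k q, (if i ∈ W then (1 : ℝ) else 0) = 0 := by
      refine Finset.sum_eq_zero fun i hi => ?_
      rw [Finset.mem_Ico] at hi
      rw [if_neg (h i hi.1 hi.2)]
    rw [h0, zero_add]
  have hTq : ∀ k q : ℕ, k ≤ q → q ≤ N → T k = ∑ i ∈ range (q - k), f (k + i) + T q := by
    intro k q hkq hqN
    simp only [hT]
    rw [← Finset.sum_Ico_consecutive _ hkq hqN, Finset.sum_Ico_eq_sum_range]
  have key : ∀ j : ℕ, j ≤ N → ∃ q, N - j ≤ q ∧ q ≤ N ∧ (∀ i, N - j ≤ i → i < q → i ∉ W) ∧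
      T q ≤ B q := by
    intro j
    induction j with
    | zero =>
      intro _
      refine ⟨N, by omega, le_refl _, fun i h1 h2 => by omega, ?_⟩
      simp [hT, hB, hw]
    | succ j ih =>
      intro hj
      obtain ⟨q, h1, h2, h3, h4⟩ := ih (by omega)
      set k := N - (j + 1) with hk
      have hkj : N - j = k + 1 := by omega
      rw [hkj] at h1 h3
      by_cases hkW : k ∈ W
      · refine ⟨k, le_refl _, by omega, fun i h5 h6 => by omega, ?_⟩
        have h5 : w k = 1 + w q := by
          have h6 : w k = 1 + w (k + 1) := by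
            simp only [hw]
            rw [Finset.sum_eq_sum_Ico_succ_bot (by omega : k < N), if_pos hkW]
          rw [h6, hwq (k + 1) q h1 h2 h3]
        have h6 := hTq k q (by omega) h2
        obtain ⟨l, hl⟩ : ∃ l, q = k + 1 + l := ⟨q - (k + 1), by omega⟩
        have h7 : (q : ℝ) = k + 1 + l := by rw [hl]; push_cast; ring
        rw [show q - k = l + 1 by omega] at h6
        have h8 : ∑ i ∈ range (l + 1), f (k + i) ≤ 2 * a * l - b * (1 - l) := by
          rcases Nat.eq_zero_or_pos l with h | h
          · subst h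
            simp only [zero_add, Finset.sum_range_one, add_zero, Nat.cast_zero, mul_zero,
              sub_zero, mul_one, zero_sub]
            exact hf k hkW
          · have h9 := hM k hkW (l + 1) (by omega) (by omega)
            have h10 : (1 : ℝ) ≤ l := by exact_mod_cast h
            push_cast at h9
            nlinarith
        rw [h6]
        simp only [hB] at h4 ⊢
        rw [h5]
        rw [h7] at h4
        nlinarith
      · refine ⟨q, by omega, h2, fun i h5 h6 => ?_, h4⟩
        rcases Nat.eq_or_lt_of_le h5 with h | h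
        · rw [← h]; exact hkW
        · exact h3 i h h6
  obtain ⟨q, -, h2, h3, h4⟩ := key N (le_refl _)
  rw [Nat.sub_self] at h3
  have h5 := hTq 0 q (Nat.zero_le _) h2
  have h6 := hwq 0 q (Nat.zero_le _) h2 h3
  have h7 : w 0 = W.card := by
    simp only [hw]
    rw [← Finset.range_eq_Ico, Finset.sum_ite_mem, Finset.inter_eq_right.mpr hW]
    simp
  have h8 : T 0 = ∑ k ∈ range N, f k := by
    simp only [hT]
    rw [← Finset.range_eq_Ico]
  have h9 := hE q h2
  rw [Finset.sum_sub_distrib, Finset.sum_const, Finset.card_range, nsmul_eq_mul] at h9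
  simp only [Nat.sub_zero, Nat.zero_add, zero_add] at h5
  rw [← h8, h5]
  simp only [hB] at h4
  rw [← h6, h7] at h4
  have hq0 : (0 : ℝ) ≤ q := Nat.cast_nonneg q
  nlinarith [mul_nonneg ha hq0, mul_nonneg hb hq0]

end Pool.Agent.W_7d29a1_PL
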