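import Pool.Agent.W_7d29a1_PL.Skel90

/-!
Sums of the logarithms of the segments of a walk are bounded by free energies.
-/

namespace Pool.Agent.W_7d29a1_PL

open MeasureTheory ProbabilityTheory Filter Topology Pool.Agent.W_MP_7d29a1_pr
  Pool.Agent.W_7d29a1_h46 Pool.Agent.W_7d29a1_h46u Pool.Agent.W_7d29a1_D2.B35
  Pool.Agent.W_7d29a1_Q29 Pool.Agent.W_7d29a1_NV

variable {d : ℕ}

/-- The segments and the initial piece of a walk are positive. -/
lemma seg_pos90 (hd : 0 < d) (β : ℝ) (h : Vec d) (η : Env d) {n : ℕ} (w : Fin n → Step d)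
    {a b : ℕ} (hab : a ≤ b) (hb : b ≤ n) :
    0 < PP β h η a (pos w a) ∧ 0 < sg β h a b (pos w a) (pos w b) η := by
  have h1 := mass77 (k := 1) (n := n) β h η ![a, b] ![pos w a, pos w b] (fun i => by
    rw [Fin.fin_one_eq_zero i]; exact hab) hb
  have h2 : 0 < ZT β h η {q : Fin n → Step d | ∀ i, pos q ((![a, b] : Fin 2 → ℕ) i) =
      (![pos w a, pos w b] : Fin 2 → Site d) i} := by
    refine ZT_pos90 β h η (w := w) fun i => ?_
    fin_cases i <;> rfl
  rw [← h1, Fin.prod_univ_one] at h2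
  have h3 : 0 < PP β h η a (pos w a) * sg β h a b (pos w a) (pos w b) η *
      Z β h (sh b (pos w b) η) (n - b) := h2
  have h4 := pos_of_mul_pos_left h3 (Z_pos hd β h _ _).le
  have h5 : 0 ≤ sg β h a b (pos w a) (pos w b) η := PP_nonneg _ _ _ _ _
  have h6 := pos_of_mul_pos_left h4 h5
  exact ⟨h6, pos_of_mul_pos_right h4 h6.le⟩

lemma sh_comp90 {a b : ℕ} (hab : a ≤ b) (x y : Site d) (η : Env d) :
    sh (b - a) (y - x) (sh a x η) = sh b y η := by
  funext p
  unfold sh
  congr 1
  refine Prod.ext ?_ ?_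
  · show p.1 + (b - a) + a = p.1 + b
    omega
  · show p.2 + (y - x) + x = p.2 + y
    abel

/-- One segment. -/
lemma step90 (hd : 0 < d) (β : ℝ) (h : Vec d) (η : Env d) {n : ℕ} (w : Fin n → Step d)
    {a b : ℕ} (hab : a ≤ b) (hb : b ≤ n) (l : ℕ) :
    Real.log (sg β h a b (pos w a) (pos w b) η) + X β h (sh b (pos w b) η) l ≤
      X β h (sh a (pos w a) η) (b - a + l) := by
  have h1 := (seg_pos90 hd β h η w hab hb).2
  have h2 : 0 < Z β h (sh b (pos w b) η) l := Z_pos hd β h _ _
  unfold X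
  rw [← Real.log_mul h1.ne' h2.ne']
  refine Real.log_le_log (mul_pos h1 h2) ?_
  have h3 := PP_chainZ β h (sh a (pos w a) η) (b - a) l (pos w b - pos w a)
  rwa [sh_comp90 hab] at h3

/-- Several segments. -/
lemma gen90 (hd : 0 < d) (β : ℝ) (h : Vec d) (η : Env d) {n j m N : ℕ} (hn : j + N * m ≤ n)
    (w : Fin n → Step d) (l : ℕ) : ∀ H k : ℕ, k + H ≤ N →
    ∑ i ∈ Finset.range H, Real.log (sg β h (j + (k + i) * m) (j + (k + i + 1) * m)
      (pos w (j + (k + i) * m)) (pos w (j + (k + i + 1) * m)) η) +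
      X β h (sh (j + (k + H) * m) (pos w (j + (k + H) * m)) η) l ≤
    X β h (sh (j + k * m) (pos w (j + k * m)) η) (H * m + l) := by
  intro H
  induction H with
  | zero =>
    intro k _
    simp
  | succ H ih =>
    intro k hk
    rw [Finset.sum_range_succ']
    have h1 := ih (k + 1) (by omega)
    have h2 : ∑ i ∈ Finset.range H, Real.log (sg β h (j + (k + (i + 1)) * m)
        (j + (k + (i + 1) + 1) * m) (pos w (j + (k + (i + 1)) * m))
        (pos w (j + (k + (i + 1) + 1) * m)) η) =
        ∑ i ∈ Finset.range H, Real.log (sg β h (j + (k + 1 + i) * m) (j + (k + 1 + i + 1) * m)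
        (pos w (j + (k + 1 + i) * m)) (pos w (j + (k + 1 + i + 1) * m)) η) := by
      refine Finset.sum_congr rfl fun i _ => ?_
      rw [show k + (i + 1) = k + 1 + i by omega]
    have h3 : k + (H + 1) = k + 1 + H := by omega
    have hle : j + (k + 1) * m ≤ n :=
      (Nat.add_le_add_left (Nat.mul_le_mul_right m (by omega)) j).trans hn
    have h4 := step90 hd β h η w (a := j + k * m) (b := j + (k + 1) * m)
      (Nat.add_le_add_left (Nat.mul_le_mul_right m (by omega)) j) hle (H * m + l)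
    have h5 : j + (k + 1) * m - (j + k * m) + (H * m + l) = (H + 1) * m + l := by
      have : j + (k + 1) * m = (j + k * m) + m := by ring
      rw [this, Nat.add_sub_cancel_left]
      ring
    rw [h5] at h4
    rw [h2, h3]
    simp only [Nat.add_zero]
    linarith

lemma X_zero90 (β : ℝ) (h : Vec d) (η : Env d) : X β h η 0 = 0 := by
  unfold X
  rw [Z_zero, Real.log_one]

/-- Segments and a free energy. -/
theorem segZ90 (hd : 0 < d) (β : ℝ) (h : Vec d) (η : Env d) {n j m N : ℕ} (hn : j + N * m ≤ n)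
    (w : Fin n → Step d) {k H : ℕ} (hk : k + H ≤ N) :
    ∑ i ∈ Finset.range H, Real.log (sg β h (j + (k + i) * m) (j + (k + i + 1) * m)
      (pos w (j + (k + i) * m)) (pos w (j + (k + i + 1) * m)) η) ≤
    X β h (sh (j + k * m) (pos w (j + k * m)) η) (H * m) := by
  have h1 := gen90 hd β h η hn w 0 H k hk
  rwa [X_zero90, add_zero, add_zero] at h1

/-- From the index `k` to the end. -/
theorem z1_90 (hd : 0 < d) (β : ℝ) (h : Vec d) (η : Env d) {n j m N : ℕ} (hn : j + N * m ≤ n)
    (w : Fin n → Step d) {k : ℕ} (hk : k ≤ N) :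
    ∑ i ∈ Finset.range (N - k), Real.log (sg β h (j + (k + i) * m) (j + (k + i + 1) * m)
      (pos w (j + (k + i) * m)) (pos w (j + (k + i + 1) * m)) η) +
      X β h (sh (j + N * m) (pos w (j + N * m)) η) (n - (j + N * m)) ≤
    X β h (sh (j + k * m) (pos w (j + k * m)) η) (n - (j + k * m)) := by
  have h1 := gen90 hd β h η hn w (n - (j + N * m)) (N - k) k (by omega)
  have h2 : k + (N - k) = N := by omega
  have h3 : (N - k) * m + (n - (j + N * m)) = n - (j + k * m) := by
    have h4 : N * m = (N - k) * m + k * m := by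
      rw [← Nat.add_mul]
      congr 1
      omega
    omega
  rwa [h2, h3] at h1

/-- With the initial piece. -/
lemma z0gen90 (hd : 0 < d) (β : ℝ) (h : Vec d) (η : Env d) {n j m N : ℕ} (hn : j + N * m ≤ n)
    (w : Fin n → Step d) {H : ℕ} (hH : H ≤ N) (l : ℕ) :
    Real.log (PP β h η j (pos w j)) +
      ∑ i ∈ Finset.range H, Real.log (sg β h (j + i * m) (j + (i + 1) * m) (pos w (j + i * m))
        (pos w (j + (i + 1) * m)) η) +
      X β h (sh (j + H * m) (pos w (j + H * m)) η) l ≤ X β h η (j + (H * m + l)) := by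
  have h1 := gen90 hd β h η hn w l H 0 (by omega)
  simp only [Nat.zero_add, Nat.zero_mul, Nat.add_zero] at h1
  have hjn : j ≤ n := by omega
  have h2 := (seg_pos90 hd β h η w (le_refl j) hjn).1
  have h3 : 0 < Z β h (sh j (pos w j) η) (H * m + l) := Z_pos hd β h _ _
  have h4 : Real.log (PP β h η j (pos w j)) + X β h (sh j (pos w j) η) (H * m + l) ≤
      X β h η (j + (H * m + l)) := by
    unfold X
    rw [← Real.log_mul h2.ne' h3.ne']
    exact Real.log_le_log (mul_pos h2 h3) (PP_chainZ β h η j (H * m + l) (pos w j))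
  linarith

theorem z0_90 (hd : 0 < d) (β : ℝ) (h : Vec d) (η : Env d) {n j m N : ℕ} (hn : j + N * m ≤ n)
    (w : Fin n → Step d) {H : ℕ} (hH : H ≤ N) :
    Real.log (PP β h η j (pos w j)) +
      ∑ i ∈ Finset.range H, Real.log (sg β h (j + i * m) (j + (i + 1) * m) (pos w (j + i * m))
        (pos w (j + (i + 1) * m)) η) ≤ X β h η (j + H * m) := by
  have h1 := z0gen90 hd β h η hn w hH 0
  rwa [X_zero90, add_zero, add_zero] at h1

theorem z2_90 (hd : 0 < d) (β : ℝ) (h : Vec d) (η : Env d) {n j m N : ℕ} (hn : j + N * m ≤ n)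
    (w : Fin n → Step d) :
    Real.log (PP β h η j (pos w j)) +
      ∑ i ∈ Finset.range N, Real.log (sg β h (j + i * m) (j + (i + 1) * m) (pos w (j + i * m))
        (pos w (j + (i + 1) * m)) η) +
      X β h (sh (j + N * m) (pos w (j + N * m)) η) (n - (j + N * m)) ≤ X β h η n := by
  have h1 := z0gen90 hd β h η hn w (le_refl N) (n - (j + N * m))
  have h2 : j + (N * m + (n - (j + N * m))) = n := by omega
  rwa [h2] at h1

end Pool.Agent.W_7d29a1_PL
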