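import Mathlib

/-!
Theorem PL: the choice of the scales (pure sequences, helper28).
-/

namespace Pool.Agent.W_7d29a1_PL

open Finset

/-- The first time at which the sequence is at least twice its value at `x`. -/
noncomputable def dbl28 (Ψ : ℕ → ℝ) (hU : ∀ B : ℝ, ∃ n : ℕ, B ≤ Ψ n) (x : ℕ) : ℕ :=
  @Nat.find (fun n => 2 * Ψ x ≤ Ψ n) (fun _ => Classical.propDecidable _) (hU (2 * Ψ x))

section

variable {Ψ : ℕ → ℝ} (hU : ∀ B : ℝ, ∃ n : ℕ, B ≤ Ψ n)

theorem dbl28_spec (x : ℕ) : 2 * Ψ x ≤ Ψ (dbl28 Ψ hU x) := by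
  classical
  unfold dbl28
  exact @Nat.find_spec (fun n => 2 * Ψ x ≤ Ψ n) (fun _ => Classical.propDecidable _) _

theorem dbl28_lt {x m : ℕ} (hm : m < dbl28 Ψ hU x) : Ψ m < 2 * Ψ x := by
  classical
  unfold dbl28 at hm
  exact not_le.1 (@Nat.find_min (fun n => 2 * Ψ x ≤ Ψ n) (fun _ => Classical.propDecidable _) _ m hm)

theorem lt_dbl28 (hmono : Monotone Ψ) (h1 : ∀ n, 1 ≤ Ψ n) (x : ℕ) : x < dbl28 Ψ hU x := by
  by_contra hcon
  have h2 := hmono (not_lt.1 hcon)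
  have h3 := dbl28_spec hU x
  have h4 := h1 x
  linarith

end

/-- Greedy choice of the scales. -/
theorem greedy28 {Ψ : ℕ → ℝ} (hU : ∀ B : ℝ, ∃ n : ℕ, B ≤ Ψ n) (hmono : Monotone Ψ)
    (h1 : ∀ n, 1 ≤ Ψ n) {C L : ℝ} (hC : 0 ≤ C) (hL : 0 ≤ L) {N₀ n : ℕ} (hN₀ : 1 ≤ N₀)
    (Sel : ℕ → Prop) (hcase : ∀ x : ℕ, N₀ ≤ x → x ≤ n → Sel x ∨ ∃ y : ℕ, x < y ∧ 2 * Ψ x ≤ Ψ y ∧
      Real.log y - Real.log x ≤ C * (Real.log (Ψ y) - Real.log (Ψ x)) ∧
      Real.log y - Real.log x ≤ L) :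
    ∀ k x : ℕ, n - x ≤ k → N₀ ≤ x → x ≤ n → ∃ S : Finset ℕ, (∀ a ∈ S, x ≤ a ∧ a ≤ n ∧ Sel a) ∧
      (∀ a ∈ S, ∀ b ∈ S, a < b → 2 * Ψ a ≤ Ψ b) ∧
      Real.log n ≤ Real.log x + L + C * (Real.log (Ψ n) - Real.log (Ψ x)) +
        ∑ a ∈ S, (Real.log (dbl28 Ψ hU a) - Real.log a) := by
  intro k
  induction k with
  | zero =>
    intro x hk hx hn
    have hxn : x = n := by omega
    refine ⟨∅, by simp, by simp, ?_⟩
    rw [hxn]
    simp
    linarith
  | succ k ih =>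
    intro x hk hx hn
    have hx0 : 1 ≤ x := hN₀.trans hx
    have hxr : (1 : ℝ) ≤ x := by exact_mod_cast hx0
    have hnr : (1 : ℝ) ≤ n := by exact_mod_cast hx0.trans hn
    have hΨn : Real.log (Ψ x) ≤ Real.log (Ψ n) :=
      Real.log_le_log (by linarith [h1 x]) (hmono hn)
    rcases hcase x hx hn with hs | ⟨y, hxy, hy2, hy3, hy4⟩
    · have hz := lt_dbl28 hU hmono h1 x
      have hzs := dbl28_spec hU x
      set z := dbl28 Ψ hU x with hzd
      rcases Nat.lt_or_ge n z with hzn | hzn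
      · refine ⟨{x}, ?_, ?_, ?_⟩
        · simp only [mem_singleton, forall_eq]
          exact ⟨le_rfl, hn, hs⟩
        · simp
        · rw [sum_singleton, ← hzd]
          have h2 : Real.log n ≤ Real.log z :=
            Real.log_le_log (by linarith) (by exact_mod_cast hzn.le)
          have h3 : 0 ≤ C * (Real.log (Ψ n) - Real.log (Ψ x)) :=
            mul_nonneg hC (by linarith)
          linarith
      · obtain ⟨S, hS1, hS2, hS3⟩ := ih z (by omega) (hx.trans hz.le) hzn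
        have hxS : x ∉ S := fun h => by
          have := (hS1 x h).1
          omega
        refine ⟨insert x S, ?_, ?_, ?_⟩
        · intro a ha
          rcases mem_insert.1 ha with h | h
          · rw [h]
            exact ⟨le_rfl, hn, hs⟩
          · obtain ⟨h4, h5, h6⟩ := hS1 a h
            exact ⟨hz.le.trans h4, h5, h6⟩
        · intro a ha b hb hab
          rcases mem_insert.1 ha with h | h <;> rcases mem_insert.1 hb with h' | h'
          · omega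
          · rw [h]
            exact hzs.trans (hmono (hS1 b h').1)
          · have := (hS1 a h).1
            omega
          · exact hS2 a h b h' hab
        · rw [sum_insert hxS, ← hzd]
          have h4 : Real.log (Ψ x) ≤ Real.log (Ψ z) :=
            Real.log_le_log (by linarith [h1 x]) (hmono hz.le)
          have h5 : C * (Real.log (Ψ n) - Real.log (Ψ z)) ≤
              C * (Real.log (Ψ n) - Real.log (Ψ x)) := mul_le_mul_of_nonneg_left (by linarith) hC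
          linarith
    · have hyr : (1 : ℝ) ≤ y := by exact_mod_cast hx0.trans hxy.le
      rcases Nat.lt_or_ge n y with hyn | hyn
      · refine ⟨∅, by simp, by simp, ?_⟩
        have h2 : Real.log n ≤ Real.log y :=
          Real.log_le_log (by linarith) (by exact_mod_cast hyn.le)
        have h3 : 0 ≤ C * (Real.log (Ψ n) - Real.log (Ψ x)) := mul_nonneg hC (by linarith)
        rw [sum_empty]
        linarith
      · obtain ⟨S, hS1, hS2, hS3⟩ := ih y (by omega) (hx.trans hxy.le) hyn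
        refine ⟨S, fun a ha => ?_, hS2, ?_⟩
        · obtain ⟨h4, h5, h6⟩ := hS1 a ha
          exact ⟨hxy.le.trans h4, h5, h6⟩
        · have h6 : C * (Real.log (Ψ n) - Real.log (Ψ x)) =
              C * (Real.log (Ψ n) - Real.log (Ψ y)) + C * (Real.log (Ψ y) - Real.log (Ψ x)) := by
            ring
          rw [h6]
          linarith

/-- A chain of doublings: the values grow geometrically with the rank. -/
theorem rank28 {Ψ : ℕ → ℝ} {S : Finset ℕ}
    (hS : ∀ a ∈ S, ∀ b ∈ S, a < b → 2 * Ψ a ≤ Ψ b) :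
    ∀ j a b : ℕ, a ∈ S → b ∈ S → a ≤ b → (S.filter fun c => a ≤ c ∧ c < b).card = j →
      2 ^ j * Ψ a ≤ Ψ b := by
  intro j
  induction j with
  | zero =>
    intro a b ha hb hab hc
    rcases hab.eq_or_lt with h | h
    · rw [h]
      simp
    · have h2 : a ∈ S.filter fun c => a ≤ c ∧ c < b := mem_filter.2 ⟨ha, le_rfl, h⟩
      rw [card_eq_zero] at hc
      rw [hc] at h2
      simp at h2
  | succ j ih =>
    intro a b ha hb hab hc
    obtain ⟨c, hc1, hc2⟩ := (S.filter fun c => a ≤ c ∧ c < b).exists_max_image id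
      (by rw [← card_pos, hc]; omega)
    obtain ⟨hcS, hac, hcb⟩ := mem_filter.1 hc1
    have h2 : (S.filter fun d => a ≤ d ∧ d < b) = insert c (S.filter fun d => a ≤ d ∧ d < c) := by
      ext d
      simp only [mem_filter, mem_insert]
      constructor
      · rintro ⟨h3, h4, h5⟩
        have h6 := hc2 d (mem_filter.2 ⟨h3, h4, h5⟩)
        simp only [id] at h6
        rcases h6.eq_or_lt with h7 | h7
        · exact Or.inl h7
        · exact Or.inr ⟨h3, h4, h7⟩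
      · rintro (h3 | ⟨h3, h4, h5⟩)
        · rw [h3]
          exact ⟨hcS, hac, hcb⟩
        · exact ⟨h3, h4, h5.trans hcb⟩
    rw [h2, card_insert_of_notMem (by simp)] at hc
    have h3 := ih a c ha hcS hac (by omega)
    have h4 := hS c hcS b hb hcb
    rw [pow_succ]
    linarith

/-- The number of elements of a chain of doublings. -/
theorem card28 {Ψ : ℕ → ℝ} (hmono : Monotone Ψ) (h1 : ∀ n, 1 ≤ Ψ n) {S : Finset ℕ} {n : ℕ}
    (hn : ∀ a ∈ S, a ≤ n) (hS : ∀ a ∈ S, ∀ b ∈ S, a < b → 2 * Ψ a ≤ Ψ b) :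
    (S.card : ℝ) * Real.log 2 ≤ Real.log (Ψ n) + Real.log 2 := by
  have hl2 : 0 < Real.log 2 := Real.log_pos (by norm_num)
  have hΨn : 0 ≤ Real.log (Ψ n) := Real.log_nonneg (h1 n)
  rcases S.eq_empty_or_nonempty with h | h
  · rw [h]
    simp
    linarith
  · obtain ⟨a, ha, ha2⟩ := S.exists_min_image id h
    obtain ⟨b, hb, hb2⟩ := S.exists_max_image id h
    have hab : a ≤ b := ha2 b hb
    have h2 : insert b (S.filter fun c => a ≤ c ∧ c < b) = S := by
      ext c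
      simp only [mem_insert, mem_filter]
      constructor
      · rintro (h3 | h3)
        · rw [h3]
          exact hb
        · exact h3.1
      · intro hc
        have h3 : a ≤ c := ha2 c hc
        have h4 : c ≤ b := hb2 c hc
        rcases h4.eq_or_lt with h5 | h5
        · exact Or.inl h5
        · exact Or.inr ⟨hc, h3, h5⟩
    have h3 := card_insert_of_notMem (s := S.filter fun c => a ≤ c ∧ c < b) (a := b) (by simp)
    rw [h2] at h3
    have h4 := rank28 hS _ a b ha hb hab rfl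
    set j := (S.filter fun c => a ≤ c ∧ c < b).card
    have h5 : (2 : ℝ) ^ j ≤ Ψ n := by
      have h6 := hmono (hn b hb)
      have h7 := h1 a
      have h8 : (0 : ℝ) < 2 ^ j := by positivity
      nlinarith
    have h6 : Real.log ((2 : ℝ) ^ j) ≤ Real.log (Ψ n) := Real.log_le_log (by positivity) h5
    rw [Real.log_pow] at h6
    rw [h3]
    push_cast
    linarith

/-- A spaced subset. -/
theorem space28 {Ψ : ℕ → ℝ} (h1 : ∀ n, 1 ≤ Ψ n) {S : Finset ℕ}
    (hS : ∀ a ∈ S, ∀ b ∈ S, a < b → 2 * Ψ a ≤ Ψ b) {a₁ : ℕ} (ha₁ : 1 ≤ a₁) (D : ℕ → ℝ) :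
    ∃ S' ⊆ S, (∀ a ∈ S', ∀ b ∈ S', a < b → 2 ^ a₁ * Ψ a ≤ Ψ b) ∧
      ∑ a ∈ S, D a ≤ a₁ * ∑ a ∈ S', D a := by
  classical
  set rk : ℕ → ℕ := fun b => (S.filter fun c => c < b).card with hrk
  have h2 : ∑ i ∈ range a₁, ∑ a ∈ S.filter (fun b => rk b % a₁ = i), D a = ∑ a ∈ S, D a := by
    rw [sum_fiberwise_of_maps_to]
    intro b _
    exact mem_range.2 (Nat.mod_lt _ (by omega))
  obtain ⟨i, hi, hi2⟩ : ∃ i ∈ range a₁, ∑ a ∈ S, D a ≤
      a₁ * ∑ a ∈ S.filter (fun b => rk b % a₁ = i), D a := by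
    by_contra hcon
    push Not at hcon
    have h3 : ∑ i ∈ range a₁, (a₁ : ℝ) * ∑ a ∈ S.filter (fun b => rk b % a₁ = i), D a <
        ∑ _i ∈ range a₁, ∑ a ∈ S, D a :=
      sum_lt_sum_of_nonempty ⟨0, mem_range.2 (by omega)⟩ hcon
    rw [← mul_sum, h2, sum_const, card_range, nsmul_eq_mul] at h3
    exact lt_irrefl _ h3
  refine ⟨S.filter (fun b => rk b % a₁ = i), filter_subset _ _, ?_, hi2⟩
  intro a ha b hb hab
  obtain ⟨haS, hai⟩ := mem_filter.1 ha
  obtain ⟨hbS, hbi⟩ := mem_filter.1 hb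
  have h4 : rk b = rk a + (S.filter fun c => a ≤ c ∧ c < b).card := by
    rw [hrk]
    simp only
    rw [← card_union_of_disjoint]
    · congr 1
      ext c
      simp only [mem_filter, mem_union]
      constructor
      · rintro ⟨h5, h6⟩
        rcases Nat.lt_or_ge c a with h7 | h7
        · exact Or.inl ⟨h5, h7⟩
        · exact Or.inr ⟨h5, h7, h6⟩
      · rintro (⟨h5, h6⟩ | ⟨h5, h6, h7⟩)
        · exact ⟨h5, h6.trans hab⟩
        · exact ⟨h5, h7⟩
    · rw [disjoint_left]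
      intro c hc hc'
      have h5 := (mem_filter.1 hc).2
      have h6 := (mem_filter.1 hc').2.1
      omega
  set j := (S.filter fun c => a ≤ c ∧ c < b).card with hj
  have hj0 : 0 < j := by
    rw [hj, card_pos]
    exact ⟨a, mem_filter.2 ⟨haS, le_rfl, hab⟩⟩
  have h5 : a₁ ∣ j := by
    have h6 : rk b ≡ rk a [MOD a₁] := by
      unfold Nat.ModEq
      rw [hai, hbi]
    rw [h4] at h6
    have h7 : rk a + j ≡ rk a + 0 [MOD a₁] := by simpa using h6
    have h8 := Nat.ModEq.add_left_cancel' (rk a) h7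
    exact (Nat.modEq_zero_iff_dvd).1 h8
  have h6 : a₁ ≤ j := Nat.le_of_dvd hj0 h5
  have h7 := rank28 hS j a b haS hbS hab.le hj.symm
  have h8 : (2 : ℝ) ^ a₁ ≤ 2 ^ j := pow_le_pow_right₀ (by norm_num) h6
  have h9 := h1 a
  calc (2 : ℝ) ^ a₁ * Ψ a ≤ 2 ^ j * Ψ a := mul_le_mul_of_nonneg_right h8 (by linarith)
    _ ≤ Ψ b := h7

/-- SEL: the choice of the scales. -/
theorem sel28 {Ψ : ℕ → ℝ} (hU : ∀ B : ℝ, ∃ n : ℕ, B ≤ Ψ n) (hmono : Monotone Ψ)
    (h1 : ∀ n, 1 ≤ Ψ n) {C L : ℝ} (hC : 0 ≤ C) (hL : 0 ≤ L) {N₀ n a₁ : ℕ} (hN₀ : 1 ≤ N₀)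
    (hn : N₀ ≤ n) (ha₁ : 1 ≤ a₁) (Sel : ℕ → Prop)
    (hcase : ∀ x : ℕ, N₀ ≤ x → x ≤ n → Sel x ∨ ∃ y : ℕ, x < y ∧ 2 * Ψ x ≤ Ψ y ∧
      Real.log y - Real.log x ≤ C * (Real.log (Ψ y) - Real.log (Ψ x)) ∧
      Real.log y - Real.log x ≤ L) :
    ∃ S : Finset ℕ, (∀ a ∈ S, N₀ ≤ a ∧ a ≤ n ∧ Sel a) ∧
      (∀ a ∈ S, ∀ b ∈ S, a < b → 2 ^ a₁ * Ψ a ≤ Ψ b) ∧
      (S.card : ℝ) * Real.log 2 ≤ Real.log (Ψ n) + Real.log 2 ∧
      Real.log n ≤ Real.log N₀ + L + C * Real.log (Ψ n) +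
        a₁ * ∑ a ∈ S, (Real.log (dbl28 Ψ hU a) - Real.log a) := by
  obtain ⟨S, hS1, hS2, hS3⟩ := greedy28 hU hmono h1 hC hL hN₀ Sel hcase _ N₀ le_rfl le_rfl hn
  obtain ⟨S', hS', hS4, hS5⟩ := space28 h1 hS2 ha₁
    (fun a => Real.log (dbl28 Ψ hU a) - Real.log a)
  refine ⟨S', fun a ha => hS1 a (hS' ha), hS4, ?_, ?_⟩
  · exact card28 hmono h1 (fun a ha => (hS1 a (hS' ha)).2.1)
      fun a ha b hb hab => hS2 a (hS' ha) b (hS' hb) hab
  · have h2 : 0 ≤ Real.log (Ψ N₀) := Real.log_nonneg (h1 N₀)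
    have h3 : C * (Real.log (Ψ n) - Real.log (Ψ N₀)) ≤ C * Real.log (Ψ n) :=
      mul_le_mul_of_nonneg_left (by linarith) hC
    linarith

end Pool.Agent.W_7d29a1_PL
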