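import Pool.Agent.W_7d29a1_PL.Gib63
import Pool.Agent.W_7d29a1_Q29.Qf39

/-!
Usage of the lucky sites: one environment, one offset.
-/

namespace Pool.Agent.W_7d29a1_PL

open MeasureTheory ProbabilityTheory Filter Topology Pool.Agent.W_MP_7d29a1_pr
  Pool.Agent.W_7d29a1_h46 Pool.Agent.W_7d29a1_h46u Pool.Agent.W_7d29a1_D2.B35
  Pool.Agent.W_7d29a1_Q29 Pool.Agent.W_7d29a1_S90 Pool.Agent.W_7d29a1_NV Pool.Agent.W_7d29a1_SP

variable {d : ℕ}

lemma shsh63 (t m : ℕ) (x y : Site d) (η : Env d) :
    sh m y (sh t x η) = sh (t + m) (x + y) η := by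
  funext p
  unfold sh
  simp only
  rw [add_assoc p.1 m t, add_comm m t, add_assoc p.2 y x, add_comm y x]

/-- The increments of a walk. -/
lemma inc_mem63 {n : ℕ} (w : Fin n → Step d) (a b : ℕ) (hab : a + b ≤ n) :
    pos w (a + b) - pos w a ∈ boxF d b := by
  obtain ⟨k, rfl⟩ := Nat.exists_eq_add_of_le (show a ≤ n by omega)
  have h1 : w = Fin.append (fun i => w (Fin.castAdd k i)) (fun i => w (Fin.natAdd a i)) :=
    (Fin.append_castAdd_natAdd (f := w)).symm
  rw [h1, pos_glue_add, pos_glue_le _ _ le_rfl, add_sub_cancel_left]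
  exact pos_mem_boxF39 _ le_rfl

/-- A segment of the skeleton of a walk. -/
noncomputable def SG (β : ℝ) (h : Vec d) (η : Env d) (o b : ℕ) {n : ℕ} (w : Fin n → Step d)
    (k : ℕ) : ℝ :=
  PP β h (sh (o + k * b) (pos w (o + k * b)) η) b (pos w (o + (k + 1) * b) - pos w (o + k * b))

lemma SG_nonneg63 (β : ℝ) (h : Vec d) (η : Env d) (o b : ℕ) {n : ℕ} (w : Fin n → Step d)
    (k : ℕ) : 0 ≤ SG β h η o b w k := PP_nonneg _ _ _ _ _

/-- Segments multiply. -/
lemma prod_SG63 (β : ℝ) (h : Vec d) (η : Env d) (o b : ℕ) {n : ℕ} (w : Fin n → Step d) :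
    ∀ H k : ℕ, ∏ i ∈ Finset.range H, SG β h η o b w (k + i) ≤
      Z β h (sh (o + k * b) (pos w (o + k * b)) η) (H * b) := by
  intro H
  induction H with
  | zero =>
    intro k
    rw [Finset.range_zero, Finset.prod_empty, zero_mul, Z_zero]
  | succ H ih =>
    intro k
    rw [Finset.prod_range_succ', mul_comm, add_zero]
    have h1 := ih (k + 1)
    have h2 : ∏ i ∈ Finset.range H, SG β h η o b w (k + (i + 1)) =
        ∏ i ∈ Finset.range H, SG β h η o b w (k + 1 + i) :=
      Finset.prod_congr rfl fun i _ => by rw [show k + (i + 1) = k + 1 + i by omega]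
    rw [h2]
    refine (mul_le_mul_of_nonneg_left h1 (SG_nonneg63 _ _ _ _ _ _ _)).trans ?_
    have h3 : sh (o + (k + 1) * b) (pos w (o + (k + 1) * b)) η =
        sh b (pos w (o + (k + 1) * b) - pos w (o + k * b))
          (sh (o + k * b) (pos w (o + k * b)) η) := by
      rw [shsh63]
      congr 1
      · ring
      · abel
    rw [h3]
    unfold SG
    refine (PP_chainZ β h _ b (H * b) _).trans (le_of_eq ?_)
    congr 1
    ring

/-- The first piece and segments multiply. -/
lemma prod0_SG63 (β : ℝ) (h : Vec d) (η : Env d) (o b : ℕ) {n : ℕ} (w : Fin n → Step d)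
    (H : ℕ) : PP β h η o (pos w o) * ∏ i ∈ Finset.range H, SG β h η o b w i ≤
      Z β h η (o + H * b) := by
  have h1 := prod_SG63 β h η o b w H 0
  simp only [zero_add, zero_mul, add_zero] at h1
  exact (mul_le_mul_of_nonneg_left h1 (PP_nonneg _ _ _ _ _)).trans (PP_chainZ β h η o (H * b) _)

/-- The whole skeleton. -/
lemma whole63 (β : ℝ) (h : Vec d) (η : Env d) (o b N : ℕ) {n : ℕ} (hn : o + N * b ≤ n)
    (w : Fin n → Step d) :
    PP β h η o (pos w o) * (∏ i ∈ Finset.range N, SG β h η o b w i) *
      Z β h (sh (o + N * b) (pos w (o + N * b)) η) (n - (o + N * b)) =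
    ZT β h η {w' : Fin n → Step d | ∀ i : Fin (N + 1),
      pos w' (o + (i : ℕ) * b) = pos w (o + (i : ℕ) * b)} := by
  have h1 := mass77 β h η (n := n) (k := N) (fun i : Fin (N + 1) => o + (i : ℕ) * b)
    (fun i => pos w (o + (i : ℕ) * b)) (fun i => by
      simp only [Fin.val_castSucc, Fin.val_succ]
      have : (i : ℕ) * b ≤ ((i : ℕ) + 1) * b := Nat.mul_le_mul_right _ (Nat.le_succ _)
      omega) (by simpa using hn)
  rw [← h1]
  simp only [Fin.val_zero, zero_mul, add_zero, Fin.val_last]
  congr 2
  rw [← Fin.prod_univ_eq_prod_range (fun i => SG β h η o b w i) N]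
  refine Finset.prod_congr rfl fun i _ => ?_
  unfold SG sg
  simp only [Fin.val_castSucc, Fin.val_succ]
  congr 1
  have : ((i : ℕ) + 1) * b = (i : ℕ) * b + b := by ring
  omega

open Classical in
/-- The number of the skeletons. -/
lemma cardT63 (o b N : ℕ) {n : ℕ} (hn : o + N * b ≤ n) :
    ((Finset.univ.image fun w : Fin n → Step d => fun i : Fin (N + 1) =>
      pos w (o + (i : ℕ) * b)).card : ℝ) ≤
      ((boxF d o).card : ℝ) * ((boxF d b).card : ℝ) ^ N := by
  set Ψ : Site d × (Fin N → Site d) → (Fin (N + 1) → Site d) := fun p i =>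
    p.1 + ∑ j : Fin N, if (j : ℕ) < i then p.2 j else 0 with hΨ
  have hsub : (Finset.univ.image fun w : Fin n → Step d => fun i : Fin (N + 1) =>
      pos w (o + (i : ℕ) * b)) ⊆
      ((boxF d o) ×ˢ (Fintype.piFinset fun _ : Fin N => boxF d b)).image Ψ := by
    intro σ hσ
    obtain ⟨w, -, rfl⟩ := Finset.mem_image.1 hσ
    refine Finset.mem_image.2 ⟨(pos w o, fun j => pos w (o + ((j : ℕ) + 1) * b) -
      pos w (o + (j : ℕ) * b)), ?_, ?_⟩
    · refine Finset.mem_product.2 ⟨?_, Fintype.mem_piFinset.2 fun j => ?_⟩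
      · have h1 := inc_mem63 w 0 o (by omega)
        have h2 : pos w 0 = 0 := pos_zero73 w
        rwa [zero_add, h2, sub_zero] at h1
      · have h1 : o + ((j : ℕ) + 1) * b = o + (j : ℕ) * b + b := by ring
        have h2 : (j : ℕ) * b + b ≤ N * b := by
          have : ((j : ℕ) + 1) * b ≤ N * b := Nat.mul_le_mul_right _ j.2
          linarith
        show pos w (o + ((j : ℕ) + 1) * b) - pos w (o + (j : ℕ) * b) ∈ boxF d b
        rw [h1]
        exact inc_mem63 w _ b (by omega)
    · funext i
      simp only [hΨ]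
      have h3 : ∀ m : ℕ, m ≤ N → ∑ j : Fin N, (if (j : ℕ) < m then
          (pos w (o + ((j : ℕ) + 1) * b) - pos w (o + (j : ℕ) * b)) else 0) =
          pos w (o + m * b) - pos w o := by
        intro m hm
        rw [Fin.sum_univ_eq_sum_range (fun j => if j < m then
          (pos w (o + (j + 1) * b) - pos w (o + j * b)) else 0) N, ← Finset.sum_filter]
        have h4 : (Finset.range N).filter (fun j => j < m) = Finset.range m := by
          ext j
          simp only [Finset.mem_filter, Finset.mem_range]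
          omega
        rw [h4, Finset.sum_range_sub (fun j => pos w (o + j * b)) m]
        simp
      rw [h3 i (by have := i.2; omega)]
      abel
  have h5 := (Finset.card_le_card hsub).trans Finset.card_image_le
  rw [Finset.card_product, Fintype.card_piFinset_const] at h5
  exact_mod_cast h5

/-- The site is bad for the scale `b` and the size `e`, with the horizon `m`. -/
def Bad (β lm κ e : ℝ) (h : Vec d) (b m : ℕ) (η : Env d) : Prop :=
  X β h η b ≤ lm * b - (1 - κ) * e ∧
    ∀ H : ℕ, H * b ≤ m → X β h η (H * b) ≤ lm * (H * b : ℕ) + κ * (H * e)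

open Classical in
/-- One environment, one offset: the quenched number of the bad blocks. -/
theorem use63 (hd : 0 < d) (β lm κ e : ℝ) (h : Vec d) (η : Env d) (o b N : ℕ) {n : ℕ}
    (hn : o + N * b ≤ n) (he : 0 ≤ e) (hκ : 0 ≤ κ) {M : ℝ}
    (hM : ∀ m : ℕ, m ≤ n → X β h η m ≤ lm * m + M) :
    2 * e * ∑ k ∈ Finset.range N, pe β h η (fun w : Fin n → Step d =>
      if Bad β lm κ e h b (n - (o + k * b)) (sh (o + k * b) (pos w (o + k * b)) η)
        then (1 : ℝ) else 0) ≤
      (1 + κ) * e * N + M + lm * (o + N * b : ℕ) - X β h η n +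
        (Real.log (boxF d o).card + N * Real.log (boxF d b).card) +
        Real.log (∑ y ∈ boxF d n, Z β h (sh (o + N * b) y η) (n - (o + N * b))) := by
  have hZ := Z_pos hd β h η n
  -- one walk
  have hwalk : ∀ w : Fin n → Step d,
      Real.log (∑ w' : Fin n → Step d, if (fun i : Fin (N + 1) => pos w' (o + (i : ℕ) * b)) =
          (fun i : Fin (N + 1) => pos w (o + (i : ℕ) * b)) then wgt β h η w' / Z β h η n else 0) ≤
        (1 + κ) * e * N + M + lm * (o + N * b : ℕ) - X β h η n +
        Real.log (∑ y ∈ boxF d n, Z β h (sh (o + N * b) y η) (n - (o + N * b))) -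
        2 * e * ∑ k ∈ Finset.range N,
          (if Bad β lm κ e h b (n - (o + k * b)) (sh (o + k * b) (pos w (o + k * b)) η)
            then (1 : ℝ) else 0) := by
    intro w
    have h1 := whole63 β h η o b N hn w
    set L := Z β h (sh (o + N * b) (pos w (o + N * b)) η) (n - (o + N * b)) with hL
    set P0 := PP β h η o (pos w o) with hP0
    have hWpos : 0 < ZT β h η {w' : Fin n → Step d | ∀ i : Fin (N + 1),
        pos w' (o + (i : ℕ) * b) = pos w (o + (i : ℕ) * b)} :=
      ZT_pos β h η ⟨w, fun _ => rfl⟩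
    have hsumW : (∑ w' : Fin n → Step d, if (fun i : Fin (N + 1) => pos w' (o + (i : ℕ) * b)) =
          (fun i : Fin (N + 1) => pos w (o + (i : ℕ) * b)) then wgt β h η w' / Z β h η n else 0) =
        ZT β h η {w' : Fin n → Step d | ∀ i : Fin (N + 1),
          pos w' (o + (i : ℕ) * b) = pos w (o + (i : ℕ) * b)} / Z β h η n := by
      unfold ZT
      rw [Finset.sum_div]
      refine Finset.sum_congr rfl fun w' _ => ?_
      by_cases h2 : (fun i : Fin (N + 1) => pos w' (o + (i : ℕ) * b)) =
          (fun i : Fin (N + 1) => pos w (o + (i : ℕ) * b))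
      · rw [if_pos h2, if_pos (show w' ∈ {w' : Fin n → Step d | ∀ i : Fin (N + 1),
          pos w' (o + (i : ℕ) * b) = pos w (o + (i : ℕ) * b)} from fun i => congrFun h2 i)]
      · rw [if_neg h2, if_neg (fun h3 : w' ∈ {w' : Fin n → Step d | ∀ i : Fin (N + 1),
          pos w' (o + (i : ℕ) * b) = pos w (o + (i : ℕ) * b)} => h2 (funext h3)), zero_div]
    rw [hsumW, Real.log_div hWpos.ne' hZ.ne', ← h1]
    have hLpos : 0 < L := Z_pos hd _ _ _ _
    have hpos : 0 < P0 * ∏ i ∈ Finset.range N, SG β h η o b w i := by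
      rw [← h1] at hWpos
      exact (pos_iff_pos_of_mul_pos hWpos).2 hLpos
    have hP0nn : 0 ≤ P0 := PP_nonneg _ _ _ _ _
    have hPr : 0 ≤ ∏ i ∈ Finset.range N, SG β h η o b w i :=
      Finset.prod_nonneg fun i _ => SG_nonneg63 _ _ _ _ _ _ _
    have hP0pos : 0 < P0 := by
      rcases hP0nn.eq_or_lt with h2 | h2
      · rw [← h2, zero_mul] at hpos
        exact absurd hpos (lt_irrefl _)
      · exact h2
    have hprpos : 0 < ∏ i ∈ Finset.range N, SG β h η o b w i := by
      rcases hPr.eq_or_lt with h2 | h2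
      · rw [← h2, mul_zero] at hpos
        exact absurd hpos (lt_irrefl _)
      · exact h2
    have hSG : ∀ i < N, 0 < SG β h η o b w i := by
      intro i hi
      rcases (SG_nonneg63 β h η o b w i).eq_or_lt with h2 | h2
      · exact absurd (Finset.prod_eq_zero (Finset.mem_range.2 hi) h2.symm) hprpos.ne'
      · exact h2
    rw [Real.log_mul hpos.ne' hLpos.ne', Real.log_mul hP0pos.ne' hprpos.ne',
      Real.log_prod fun i hi => (hSG i (Finset.mem_range.1 hi)).ne']
    -- the last piece
    have hlast : Real.log L ≤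
        Real.log (∑ y ∈ boxF d n, Z β h (sh (o + N * b) y η) (n - (o + N * b))) := by
      refine Real.log_le_log hLpos ?_
      exact Finset.single_le_sum (f := fun y => Z β h (sh (o + N * b) y η) (n - (o + N * b)))
        (fun y _ => (Z_pos hd _ _ _ _).le) (pos_mem_boxF39 w hn)
    -- the rising sun
    set f : ℕ → ℝ := fun k => Real.log (SG β h η o b w k) - lm * b with hf
    set B : Finset ℕ := (Finset.range N).filter fun k =>
      Bad β lm κ e h b (n - (o + k * b)) (sh (o + k * b) (pos w (o + k * b)) η) with hB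
    have hBmem : ∀ k ∈ B, k < N ∧
        Bad β lm κ e h b (n - (o + k * b)) (sh (o + k * b) (pos w (o + k * b)) η) := by
      intro k hk
      rw [hB, Finset.mem_filter, Finset.mem_range] at hk
      exact hk
    have hsumf : ∀ k H : ℕ, k + H ≤ N → ∑ i ∈ Finset.range H, f (k + i) =
        Real.log (∏ i ∈ Finset.range H, SG β h η o b w (k + i)) - lm * (H * b : ℕ) := by
      intro k H hkH
      rw [Real.log_prod fun i hi => (hSG (k + i) (by
        have := Finset.mem_range.1 hi
        omega)).ne']
      simp only [hf]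
      rw [Finset.sum_sub_distrib, Finset.sum_const, Finset.card_range, nsmul_eq_mul]
      push_cast
      ring
    have hprk : ∀ k H : ℕ, k + H ≤ N → Real.log (∏ i ∈ Finset.range H, SG β h η o b w (k + i)) ≤
        X β h (sh (o + k * b) (pos w (o + k * b)) η) (H * b) := by
      intro k H hkH
      refine Real.log_le_log (Finset.prod_pos fun i hi => hSG (k + i) (by
        have := Finset.mem_range.1 hi
        omega)) (prod_SG63 β h η o b w H k)
    have hsun := sun63 f N (κ * e) e (M - (Real.log P0 - lm * o)) B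
      (fun k hk => Finset.mem_range.2 (hBmem k hk).1)
      he
      (fun k hk => by
        obtain ⟨hk', hbd⟩ := hBmem k hk
        have h4 : SG β h η o b w k ≤ Z β h (sh (o + k * b) (pos w (o + k * b)) η) b :=
          PP_le_Z _ _ _ _ _
        have h5 := Real.log_le_log (hSG k hk') h4
        have h6 := hbd.1
        unfold X at h6
        simp only [hf]
        linarith)
      (fun k hk H hkH => by
        obtain ⟨hk', hbd⟩ := hBmem k hk
        rw [hsumf k H hkH]
        have h5 := hprk k H hkH
        have h7 : o + (k + H) * b ≤ n := by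
          have : (k + H) * b ≤ N * b := Nat.mul_le_mul_right _ hkH
          omega
        have h8 : (k + H) * b = k * b + H * b := by ring
        have h6 := hbd.2 H (by omega)
        linarith)
      (fun H hH => by
        have h9 := hsumf 0 H (by omega)
        simp only [zero_add] at h9
        have hprH : 0 < ∏ i ∈ Finset.range H, SG β h η o b w i :=
          Finset.prod_pos fun i hi => hSG i (by
            have := Finset.mem_range.1 hi
            omega)
        have h10 := Real.log_le_log (mul_pos hP0pos hprH) (prod0_SG63 β h η o b w H)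
        rw [Real.log_mul hP0pos.ne' hprH.ne'] at h10
        have h11 : o + H * b ≤ n := by
          have : H * b ≤ N * b := Nat.mul_le_mul_right _ hH
          omega
        have h12 := hM (o + H * b) h11
        unfold X at h12
        rw [h9]
        have h13 : (0 : ℝ) ≤ κ * e * (H : ℝ) := by positivity
        push_cast at h12 ⊢
        linarith)
    have hBcard : (B.card : ℝ) = ∑ k ∈ Finset.range N,
        (if Bad β lm κ e h b (n - (o + k * b)) (sh (o + k * b) (pos w (o + k * b)) η)
          then (1 : ℝ) else 0) := by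
      rw [hB, Finset.sum_boole]
    have hsumall : ∑ k ∈ Finset.range N, f k =
        (∑ i ∈ Finset.range N, Real.log (SG β h η o b w i)) - lm * (N * b : ℕ) := by
      simp only [hf]
      rw [Finset.sum_sub_distrib, Finset.sum_const, Finset.card_range, nsmul_eq_mul]
      push_cast
      ring
    rw [hsumall, hBcard] at hsun
    push_cast at hsun ⊢
    have hXn : X β h η n = Real.log (Z β h η n) := rfl
    rw [hXn]
    linarith
  -- the mean
  set q : (Fin n → Step d) → ℝ := fun w => wgt β h η w / Z β h η n with hq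
  have hq0 : ∀ w, 0 < q w := fun w => div_pos (wgt_pos _ _ _ _) hZ
  have hq1 : ∑ w, q w = 1 := by
    simp only [hq]
    rw [← Finset.sum_div, ← Z_eq, div_self hZ.ne']
  have hne : ∀ r : ℕ, 0 < ((boxF d r).card : ℝ) := fun r => by
    exact_mod_cast Finset.card_pos.2 ⟨0, zero_mem_boxF r⟩
  have hg := gibbs63 q hq0 (fun w => fun i : Fin (N + 1) => pos w (o + (i : ℕ) * b)) _
    (fun w => Finset.mem_image_of_mem _ (Finset.mem_univ w))
    (mul_pos (hne o) (pow_pos (hne b) N)) (cardT63 o b N hn) hq1
  rw [Real.log_mul (hne o).ne' (pow_pos (hne b) N).ne', Real.log_pow] at hg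
  have hm := Finset.sum_le_sum fun w (_ : w ∈ Finset.univ) =>
    mul_le_mul_of_nonneg_left (hwalk w) (hq0 w).le
  have hpe : ∑ k ∈ Finset.range N, pe β h η (fun w : Fin n → Step d =>
      if Bad β lm κ e h b (n - (o + k * b)) (sh (o + k * b) (pos w (o + k * b)) η)
        then (1 : ℝ) else 0) = ∑ w, q w * ∑ k ∈ Finset.range N,
          (if Bad β lm κ e h b (n - (o + k * b)) (sh (o + k * b) (pos w (o + k * b)) η)
            then (1 : ℝ) else 0) := by
    unfold pe
    rw [← Finset.sum_div, Finset.sum_comm]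
    simp only [hq]
    rw [Finset.sum_div]
    refine Finset.sum_congr rfl fun w _ => ?_
    rw [← Finset.mul_sum]
    ring
  rw [hpe]
  have hsp : ∀ (c a : ℝ) (F : (Fin n → Step d) → ℝ),
      ∑ w, q w * (c - a * F w) = c - a * ∑ w, q w * F w := by
    intro c a F
    simp only [mul_sub]
    rw [Finset.sum_sub_distrib, ← Finset.sum_mul, hq1, one_mul, Finset.mul_sum]
    congr 1
    exact Finset.sum_congr rfl fun w _ => by ring
  rw [hsp] at hm
  linarith

end Pool.Agent.W_7d29a1_PL
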