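import Pool.Agent.W_7d29a1_NV.Marg77

/-!
The positions of the polymer at the times `j + i m`: the means of the logarithms of the segments,
from the entropy of the skeleton.
-/

namespace Pool.Agent.W_7d29a1_PL

open MeasureTheory ProbabilityTheory Filter Topology Pool.Agent.W_MP_7d29a1_pr
  Pool.Agent.W_7d29a1_h46 Pool.Agent.W_7d29a1_h46u Pool.Agent.W_7d29a1_D2.B35
  Pool.Agent.W_7d29a1_Q29 Pool.Agent.W_7d29a1_NV

variable {d : ℕ}

/-- The entropy is at most the logarithm of the number of the atoms. -/
lemma ent90 {ι : Type*} (S : Finset ι) (p : ι → ℝ) (hp : ∀ s ∈ S, 0 ≤ p s)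
    (h1 : ∑ s ∈ S, p s = 1) : -Real.log S.card ≤ ∑ s ∈ S, p s * Real.log (p s) := by
  have hne : S.Nonempty := by
    by_contra h
    rw [Finset.not_nonempty_iff_eq_empty] at h
    rw [h, Finset.sum_empty] at h1
    exact zero_ne_one h1
  set K : ℝ := (S.card : ℝ) with hK
  have hK0 : 0 < K := by
    rw [hK]
    exact_mod_cast hne.card_pos
  have h2 : ∀ s ∈ S, p s * (-Real.log (p s)) - p s * Real.log K ≤ 1 / K - p s := by
    intro s hs
    rcases (hp s hs).lt_or_eq with h | h
    · have h3 : Real.log (1 / (p s * K)) ≤ 1 / (p s * K) - 1 :=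
        Real.log_le_sub_one_of_pos (by positivity)
      rw [one_div, Real.log_inv, Real.log_mul h.ne' hK0.ne'] at h3
      have h4 := mul_le_mul_of_nonneg_left h3 h.le
      have h5 : p s * ((p s * K)⁻¹ - 1) = 1 / K - p s := by
        field_simp
      rw [h5] at h4
      linarith
    · rw [← h]
      simp only [zero_mul, sub_zero, Real.log_zero]
      positivity
  have h3 := Finset.sum_le_sum h2
  rw [Finset.sum_sub_distrib, Finset.sum_sub_distrib, ← Finset.sum_mul, h1, Finset.sum_const,
    nsmul_eq_mul, ← hK, mul_one_div_cancel hK0.ne', one_mul, sub_self] at h3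
  have h4 : ∑ s ∈ S, p s * (-Real.log (p s)) = -∑ s ∈ S, p s * Real.log (p s) := by
    rw [← Finset.sum_neg_distrib]
    exact Finset.sum_congr rfl fun s _ => by ring
  rw [h4] at h3
  linarith

lemma ZT_pos90 (β : ℝ) (h : Vec d) (η : Env d) {n : ℕ} {A : Set (Fin n → Step d)}
    {w : Fin n → Step d} (hw : w ∈ A) : 0 < ZT β h η A := by
  classical
  unfold ZT
  refine Finset.sum_pos' (fun s _ => ?_) ⟨w, Finset.mem_univ _, ?_⟩
  · split_ifs
    · exact (Real.exp_pos _).le
    · exact le_rfl
  · rw [if_pos hw]
    exact Real.exp_pos _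

lemma abs_vec90 (e : Step d) (i : Fin d) : |vec e i| ≤ 1 := by
  unfold vec
  by_cases h : i = e.1
  · subst h
    rw [Pi.single_eq_same]
    split_ifs <;> norm_num
  · rw [Pi.single_eq_of_ne h]
    norm_num

/-- The displacement between two times. -/
lemma disp_mem90 {n : ℕ} (w : Fin n → Step d) (a m : ℕ) : pos w (a + m) - pos w a ∈ boxF d m := by
  have h1 : ∀ i, |(pos w (a + m) - pos w a) i| ≤ (m : ℤ) := by
    intro i
    have h2 : (pos w (a + m) - pos w a) i =
        ∑ j : Fin n, if a ≤ (j : ℕ) ∧ (j : ℕ) < a + m then vec (w j) i else 0 := by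
      unfold pos
      rw [← Finset.sum_sub_distrib, Finset.sum_apply]
      refine Finset.sum_congr rfl fun j _ => ?_
      by_cases h3 : (j : ℕ) < a
      · rw [if_pos h3, if_pos (by omega), if_neg (by omega), sub_self]
        rfl
      · by_cases h4 : (j : ℕ) < a + m
        · rw [if_neg h3, if_pos h4, if_pos ⟨by omega, h4⟩, sub_zero]
        · rw [if_neg h3, if_neg h4, if_neg (by omega), sub_zero]
          rfl
    rw [h2]
    refine (Finset.abs_sum_le_sum_abs _ _).trans ?_
    have h5 : ∀ j ∈ (Finset.univ : Finset (Fin n)),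
        |if a ≤ (j : ℕ) ∧ (j : ℕ) < a + m then vec (w j) i else 0| ≤
          if a ≤ (j : ℕ) ∧ (j : ℕ) < a + m then (1 : ℤ) else 0 := by
      intro j _
      split_ifs
      · exact abs_vec90 _ _
      · simp
    refine (Finset.sum_le_sum h5).trans ?_
    rw [← Finset.sum_filter, Finset.sum_const, nsmul_eq_mul, mul_one]
    have h6 : (Finset.univ.filter fun j : Fin n => a ≤ (j : ℕ) ∧ (j : ℕ) < a + m).card ≤
        (Finset.Ico a (a + m)).card := by
      refine Finset.card_le_card_of_injOn (fun j => (j : ℕ)) ?_ ?_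
      · intro j hj
        have := (Finset.mem_filter.1 hj).2
        exact Finset.mem_coe.2 (Finset.mem_Ico.2 this)
      · intro j _ j' _ h
        exact Fin.ext h
    rw [Nat.card_Ico, Nat.add_sub_cancel_left] at h6
    exact_mod_cast h6
  unfold boxF
  rw [Fintype.mem_piFinset]
  intro i
  rw [Finset.mem_Icc]
  have := abs_le.1 (h1 i)
  exact ⟨this.1, this.2⟩

/-- The times of the skeleton. -/
def rt90 (j m : ℕ) {N : ℕ} (i : Fin (N + 1)) : ℕ := j + i * m

/-- The number of the skeletons. -/
lemma card_skel90 (n j m N : ℕ) :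
    ((Finset.univ : Finset (Fin n → Step d)).image (spw (rt90 j m (N := N)))).card ≤
      (boxF d j).card * (boxF d m).card ^ N := by
  classical
  have h1 : (boxF d j).card * (boxF d m).card ^ N =
      (boxF d j ×ˢ Fintype.piFinset fun _ : Fin N => boxF d m).card := by
    rw [Finset.card_product, Fintype.card_piFinset, Finset.prod_const, Finset.card_univ,
      Fintype.card_fin]
  rw [h1]
  refine Finset.card_le_card_of_injOn
    (fun s => ((s 0 : Site d), fun i : Fin N => (s i.succ : Site d) - s i.castSucc)) ?_ ?_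
  · intro s hs
    obtain ⟨w, -, rfl⟩ := Finset.mem_image.1 hs
    simp only [Finset.coe_product, Set.mem_prod, Finset.mem_coe, Fintype.mem_piFinset]
    refine ⟨?_, fun i => ?_⟩
    · show pos w (j + (0 : Fin (N + 1)) * m) ∈ boxF d j
      have := disp_mem90 w 0 j
      have h2 : pos w 0 = 0 := by
        unfold pos
        exact Finset.sum_eq_zero fun j _ => if_neg (Nat.not_lt_zero _)
      simpa [h2] using this
    · show pos w (j + (i.succ : Fin (N + 1)) * m) - pos w (j + (i.castSucc : Fin (N + 1)) * m) ∈ _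
      have h2 : j + ((i.succ : Fin (N + 1)) : ℕ) * m =
          j + ((i.castSucc : Fin (N + 1)) : ℕ) * m + m := by
        rw [Fin.val_succ, Fin.val_castSucc]
        ring
      rw [h2]
      exact disp_mem90 w _ m
  · intro s _ s' _ hss
    simp only [Prod.mk.injEq] at hss
    obtain ⟨h0, h2⟩ := hss
    funext i
    induction i using Fin.induction with
    | zero => exact Subtype.ext h0
    | succ i ih =>
      have h3 : (s i.succ : Site d) - s i.castSucc = (s' i.succ : Site d) - s' i.castSucc :=
        congrFun h2 i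
      rw [ih] at h3
      exact Subtype.ext (sub_left_injective h3)

lemma rt_le90 (j m : ℕ) {N : ℕ} (i : Fin N) :
    rt90 j m (N := N) i.castSucc ≤ rt90 j m (N := N) i.succ := by
  unfold rt90
  rw [Fin.val_succ, Fin.val_castSucc]
  exact Nat.add_le_add_left (Nat.mul_le_mul_right m (Nat.le_succ _)) j

/-- **The skeleton.** -/
theorem skel90 (hd : 0 < d) (β : ℝ) (h : Vec d) (η : Env d) {n j m N : ℕ} (hn : j + N * m ≤ n) :
    X β h η n ≤ (∑ w : Fin n → Step d, wgt β h η w * (Real.log (PP β h η j (pos w j)) +
      ∑ i ∈ Finset.range N, Real.log (sg β h (j + i * m) (j + (i + 1) * m) (pos w (j + i * m))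
        (pos w (j + (i + 1) * m)) η) +
      X β h (sh (j + N * m) (pos w (j + N * m)) η) (n - (j + N * m)))) / Z β h η n +
      Real.log (boxF d j).card + N * Real.log (boxF d m).card := by
  classical
  set r : Fin (N + 1) → ℕ := rt90 j m with hr
  have hr1 : ∀ i : Fin N, r i.castSucc ≤ r i.succ := rt_le90 j m
  have hrl : r (Fin.last N) = j + N * m := rfl
  have hr0 : r 0 = j := by
    show j + ((0 : Fin (N + 1)) : ℕ) * m = j
    simp
  have hrn : r (Fin.last N) ≤ n := hn
  have hZ : 0 < Z β h η n := Z_pos hd β h η n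
  set W : Sp d n N → ℝ := fun s => PP β h η (r 0) (s 0) *
    (∏ i : Fin N, sg β h (r i.castSucc) (r i.succ) (s i.castSucc) (s i.succ) η) *
      Z β h (sh (r (Fin.last N)) (s (Fin.last N)) η) (n - r (Fin.last N)) with hW
  have hWZ : ∀ s : Sp d n N, W s = ZT β h η {w : Fin n → Step d | ∀ i, pos w (r i) = s i} :=
    fun s => mass77 β h η r (fun i => (s i : Site d)) hr1 hrn
  have hmsp : ∀ s : Sp d n N, msp β h n r s η = W s / Z β h η n := fun s => rfl
  set T : Finset (Sp d n N) := (Finset.univ : Finset (Fin n → Step d)).image (spw r) with hT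
  have hout : ∀ s : Sp d n N, s ∉ T → W s = 0 := by
    intro s hs
    rw [hWZ]
    unfold ZT
    refine Finset.sum_eq_zero fun w _ => if_neg fun hw => hs ?_
    rw [hT, Finset.mem_image]
    exact ⟨w, Finset.mem_univ _, funext fun i => Subtype.ext (hw i)⟩
  have hin : ∀ s ∈ T, 0 < W s := by
    intro s hs
    obtain ⟨w, -, rfl⟩ := Finset.mem_image.1 hs
    rw [hWZ]
    exact ZT_pos90 β h η (w := w) fun i => rfl
  have hsum : ∀ G : Sp d n N → ℝ, (∀ s, s ∉ T → G s = G s) →
      ∑ s ∈ T, msp β h n r s η * G s =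
        (∑ w : Fin n → Step d, wgt β h η w * G (spw r w)) / Z β h η n := by
    intro G _
    rw [← sum_msp77 β h η r hr1 hrn G]
    refine Finset.sum_subset (Finset.subset_univ _) fun s _ hs => ?_
    rw [hmsp, hout s hs, zero_div, zero_mul]
  have h1 : ∑ s ∈ T, msp β h n r s η = 1 := by
    have := hsum (fun _ => 1) fun _ _ => rfl
    simp only [mul_one] at this
    rw [this, ← Z_eq]
    exact div_self hZ.ne'
  have h2 := ent90 T (fun s => msp β h n r s η) (fun s hs => by
    show 0 ≤ msp β h n r s η
    rw [hmsp]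
    exact (div_pos (hin s hs) hZ).le) h1
  have h3 : ∑ s ∈ T, msp β h n r s η * Real.log (msp β h n r s η) =
      (∑ w : Fin n → Step d, wgt β h η w * Real.log (W (spw r w))) / Z β h η n - X β h η n := by
    have h4 : ∀ s ∈ T, msp β h n r s η * Real.log (msp β h n r s η) =
        msp β h n r s η * Real.log (W s) - msp β h n r s η * X β h η n := by
      intro s hs
      rw [← mul_sub]
      congr 1
      rw [hmsp, Real.log_div (hin s hs).ne' hZ.ne']
      rfl
    rw [Finset.sum_congr rfl h4, Finset.sum_sub_distrib, ← Finset.sum_mul, h1, one_mul,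
      hsum (fun s => Real.log (W s)) fun _ _ => rfl]
  rw [h3] at h2
  -- the number of the skeletons
  have hcard : Real.log T.card ≤ Real.log (boxF d j).card + N * Real.log (boxF d m).card := by
    have h4 : T.Nonempty := by
      by_contra hcon
      rw [Finset.not_nonempty_iff_eq_empty] at hcon
      rw [hcon, Finset.sum_empty] at h1
      exact zero_ne_one h1
    have h5 : (0 : ℝ) < T.card := by exact_mod_cast h4.card_pos
    have h6 : (T.card : ℝ) ≤ (boxF d j).card * (boxF d m).card ^ N := by
      exact_mod_cast card_skel90 n j m N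
    have h7 : (0 : ℝ) < (boxF d j).card := by
      rw [card_boxF]
      positivity
    have h8 : (0 : ℝ) < (boxF d m).card := by
      rw [card_boxF]
      positivity
    refine (Real.log_le_log h5 h6).trans (le_of_eq ?_)
    rw [Real.log_mul h7.ne' (by positivity), Real.log_pow]
  -- the logarithm of the mass
  have hlog : ∀ w : Fin n → Step d, Real.log (W (spw r w)) =
      Real.log (PP β h η j (pos w j)) +
      ∑ i ∈ Finset.range N, Real.log (sg β h (j + i * m) (j + (i + 1) * m) (pos w (j + i * m))
        (pos w (j + (i + 1) * m)) η) +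
      X β h (sh (j + N * m) (pos w (j + N * m)) η) (n - (j + N * m)) := by
    intro w
    have hpos : 0 < W (spw r w) := hin _ (by
      rw [hT, Finset.mem_image]
      exact ⟨w, Finset.mem_univ _, rfl⟩)
    have e1 : W (spw r w) = PP β h η j (pos w j) *
        (∏ i ∈ Finset.range N, sg β h (j + i * m) (j + (i + 1) * m) (pos w (j + i * m))
          (pos w (j + (i + 1) * m)) η) *
        Z β h (sh (j + N * m) (pos w (j + N * m)) η) (n - (j + N * m)) := by
      rw [Finset.prod_range]
      show PP β h η (r 0) (pos w (r 0)) * _ * _ = _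
      rw [hr0]
      rfl
    rw [e1] at hpos ⊢
    have hz : 0 < Z β h (sh (j + N * m) (pos w (j + N * m)) η) (n - (j + N * m)) :=
      Z_pos hd β h _ _
    have h5 := pos_of_mul_pos_left hpos hz.le
    have h6 : PP β h η j (pos w j) ≠ 0 := fun h7 => by
      rw [h7, zero_mul] at h5
      exact lt_irrefl _ h5
    have h8 : (∏ i ∈ Finset.range N, sg β h (j + i * m) (j + (i + 1) * m) (pos w (j + i * m))
        (pos w (j + (i + 1) * m)) η) ≠ 0 := fun h7 => by
      rw [h7, mul_zero] at h5
      exact lt_irrefl _ h5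
    rw [Real.log_mul (mul_ne_zero h6 h8) hz.ne', Real.log_mul h6 h8, Real.log_prod]
    · rfl
    · intro i hi
      exact Finset.prod_ne_zero_iff.1 h8 i hi
  simp only [hlog] at h2
  linarith

end Pool.Agent.W_7d29a1_PL
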