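import Pool.Agent.W_7d29a1_PL.VarUp32
import Pool.Agent.W_7d29a1_PL.LmX67
import Pool.Agent.W_7d29a1_PL.UpX26
import Pool.Agent.W_7d29a1_SQ.SelP67
import Pool.Agent.W_7d29a1_PL.LocS32

/-!
THEOREM SQ with a power (helper32): at almost every velocity and EVERY tilt the first moment of the
maximal displacement is at least `n ^ (1 / 2 + c)`, infinitely often. Everything but the point
theorem `PointPL`.
-/

namespace Pool.Agent.W_7d29a1_PL

open MeasureTheory ProbabilityTheory Filter Topology Pool.Agent.W_MP_7d29a1_pr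
  Pool.Agent.W_7d29a1_h46 Pool.Agent.W_7d29a1_h46u Pool.Agent.W_7d29a1_D2.B35
  Pool.Agent.W_7d29a1_Q29 Pool.Agent.W_7d29a1_R34 Pool.Agent.W_7d29a1_SP Pool.Agent.W_7d29a1_SD
  Pool.Agent.W_7d29a1_SQ Pool.Agent.W_7d29a1_SW Pool.Agent.W_7d29a1_WP

variable {ρ : Measure ℝ} {β : ℝ}

/-- THEOREM SQ with a power (`d = 2`). -/
def MainSP (ρ : Measure ℝ) (β : ℝ) : Prop := ∀ᵐ v : Vec 2, ∀ h : Vec 2, VSD ρ β h →
  ∃ c : ℝ, 0 < c ∧ ∃ᶠ n : ℕ in atTop, ∃ R : ℝ, 1 ≤ R ∧ (n : ℝ) ^ c < R * Tb ρ β h v R n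

/-- **THEOREM SQ with a power**, from the point theorem. -/
theorem topSP32 [IsProbabilityMeasure ρ] (hρ : EM ρ) (hBal : BalP 2 ρ β) (hAmp : AmpP 2 ρ β)
    (hSsc : SscF 2 ρ β) (hPri : PriP 2 ρ β) (hCnt : CntP 2 ρ β) (hEhl : EhlP 2 ρ β)
    (hFlu : FluP 2 ρ β) (hSeq : SeqQ) (hLkt : LktP ρ β) (hLoc : LocE 2 ρ β)
    (hPt : PointPL ρ β) : MainSP ρ β := by
  have hd : 0 < 2 := by norm_num
  filter_upwards [selP67 (ρ := ρ) (β := β) hd hρ] with v hv h hV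
  by_contra hneg
  have hN : ∀ c : ℝ, 0 < c → ∀ᶠ n : ℕ in atTop, ∀ R : ℝ, 1 ≤ R →
      R * Tb ρ β h v R n ≤ (n : ℝ) ^ c := by
    intro c hc
    by_contra h1
    refine hneg ⟨c, hc, ?_⟩
    rw [Filter.not_eventually] at h1
    refine h1.mono fun n hn => ?_
    push Not at hn
    exact hn
  have hD := hv h hN
  -- the constants
  obtain ⟨g, hg⟩ : ∃ g : ℝ, g = Real.log (Phi h) + Real.log (∫ t, Real.exp (β * t) ∂ρ) -
    lam ρ β h := ⟨_, rfl⟩
  have hg0 : 0 < g := by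
    have := hV
    unfold VSD at this
    linarith
  obtain ⟨c₀, hc₀, hL⟩ := hLoc g hg0
  have hL1 : Loc1 ρ β h c₀ := hL h (by rw [hg]; linarith)
  obtain ⟨κ, hκ⟩ : ∃ κ : ℝ, κ = min (c₀ / 4) (1 / 4000) := ⟨_, rfl⟩
  have hκ0 : 0 < κ := by
    rw [hκ]
    exact lt_min (by positivity) (by norm_num)
  have hκ1 : κ ≤ c₀ / 4 := by
    rw [hκ]
    exact min_le_left _ _
  have hκ2 : κ ≤ 1 / 4000 := by
    rw [hκ]
    exact min_le_right _ _
  obtain ⟨c₁, K, Q₀, hc₁, hc₁', hK, hQ₀, hLM⟩ :=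
    lmX67 hρ hFlu hSeq hLkt hPri c₀ κ hc₀ hκ0 hκ2
  obtain ⟨Q₁, j, hQ₁, hUp⟩ := upX26 hρ hBal hAmp hSsc hPri c₀ κ c₁ K hc₀ hκ0 hκ1 hc₁ hK
  obtain ⟨ε₀, hε₀, hε₁, hPt'⟩ := hPt g hg0
  obtain ⟨J, hJ⟩ : ∃ J : ℝ, J = ((2 * j + 3 : ℕ) : ℝ) := ⟨_, rfl⟩
  have hj0 : (0 : ℝ) ≤ j := Nat.cast_nonneg j
  have hJ2 : J = 2 * j + 3 := by
    rw [hJ]
    push_cast
    ring
  have hJ3 : 3 ≤ J := by linarith
  obtain ⟨a, ha⟩ : ∃ a : ℝ, a = ε₀ / 12 := ⟨_, rfl⟩
  have ha0 : 0 < a := by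
    rw [ha]
    positivity
  obtain ⟨ε, hε⟩ : ∃ ε : ℝ, ε = a / J := ⟨_, rfl⟩
  have hJ0 : 0 < J := by linarith
  have hεJ : ε * J = a := by
    rw [hε]
    field_simp
  have hε0 : 0 < ε := by
    rw [hε]
    positivity
  have hεa : ε ≤ a := by nlinarith
  have ha1 : a ≤ 1 / 12 := by
    rw [ha]
    linarith
  obtain ⟨Q, hQ⟩ : ∃ Q : ℝ, Q = max (max Q₀ Q₁) 8 := ⟨_, rfl⟩
  have hQQ0 : Q₀ ≤ Q := by
    rw [hQ]
    exact (le_max_left _ _).trans (le_max_left _ _)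
  have hQQ1 : Q₁ ≤ Q := by
    rw [hQ]
    exact (le_max_right _ _).trans (le_max_left _ _)
  have hQ8 : 8 ≤ Q := by
    rw [hQ]
    exact le_max_right _ _
  have hQ1 : 1 ≤ Q := by linarith
  have hQp : 0 < Q := by linarith
  have hDat := hD κ Q ε hκ0 (hκ2.trans (by norm_num)) hQ1 hε0
  have hkk : ∀ L : ℕ, 1 ≤ L → kpw26 Q ε L = kpw Q ε L := by
    intro L hL'
    unfold kpw26 kpw
    have : (1 : ℝ) ≤ L := by exact_mod_cast hL'
    rw [max_eq_right this]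
  have hRsj : ∀ i : ℕ, ((i : ℝ) + 1) * ε < 1 / 2 → RsX26 ρ β h κ (kpw26 Q ε) i := by
    intro i hi
    unfold RsX26
    filter_upwards [hDat.rs i hi, eventually_ge_atTop 1] with L h1 h2
    rw [hkk L h2]
    exact h1
  have h1j : ((1 : ℕ) : ℝ) + 1 = 2 := by norm_num
  have hRs1 := hRsj 1 (by rw [h1j]; linarith)
  have hRs : RsX26 ρ β h κ (kpw26 Q ε) j := hRsj j (by nlinarith)
  have hLm : LmX26 ρ β h c₁ K (kpw26 Q ε) := by
    refine hLM h v (kpw26 Q ε) (kpw26_mono hQp.le hε0.le)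
      (fun n => hQQ0.trans (le_kpw26 hQp.le hε0.le n)) hL1 ?_ ?_
    · filter_upwards [hDat.tub, eventually_ge_atTop 1] with L h1 h2
      rw [hkk L h2]
      exact h1.trans (one_div_le_one_div_of_le (by linarith) hQQ0)
    · unfold RsX26 at hRs1
      filter_upwards [hRs1] with L h1
      have h2 : 2 * 1 + 3 = 5 := rfl
      rw [h2, pow_one] at h1
      exact h1
  obtain ⟨C', hC'⟩ := hUp h Q ε hL1 hQQ1 hε0.le (by rw [← hJ, hεJ]; linarith) hLm hRs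
  rw [← hJ, hεJ] at hC'
  have hC'1 : 1 ≤ C' := by
    have h1 := hC' 1 le_rfl
    have h2 := one_le_Ps32 (ρ := ρ) (β := β) h 1
    simp only [Nat.cast_one, Real.one_rpow, mul_one] at h1
    linarith
  obtain ⟨C'', hC''1, hVa⟩ := varUp32 hd hρ hCnt hEhl hc₀ hL1 ha0 (by linarith) hC'
  obtain ⟨N, hNt⟩ := eventually_atTop.1 hDat.tub
  have hv0 := norm_nonneg v
  have hvN : 0 ≤ (1 + ‖v‖) * ((N : ℝ) + 1) := by positivity
  obtain ⟨Q', hQ'⟩ : ∃ Q' : ℝ, Q' = Q + C'' + (1 + ‖v‖) * ((N : ℝ) + 1) := ⟨_, rfl⟩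
  have hQ'1 : 1 ≤ Q' := by linarith
  refine hPt' h v Q' C' hQ'1 ⟨by rw [hg]; linarith, fun n t ht => ?_, fun t => ?_, fun n => ?_⟩
  · exact locS32 (ρ := ρ) (β := β) (h := h) (v := v) (Q := Q) (ε := ε) (Q' := Q') (ε' := ε₀)
      (N := N) hQp.le hε0.le (by linarith) (by linarith) (by linarith) (fun n hn =>
        (hNt n hn).trans (one_div_le_one_div_of_le (by norm_num) hQ8)) n t ht
  · rcases Nat.eq_zero_or_pos t with h0 | h0
    · subst h0
      have h1 : Va ρ β h 0 = 0 := by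
        unfold Va
        have h2 : ∀ η : Env 2, X β h η 0 = 0 := fun η => by
          unfold X
          rw [Z_zero, Real.log_one]
        have h3 : A ρ β h 0 = 0 := by
          unfold A
          simp only [h2, integral_zero]
        simp only [h2, h3, sub_zero]
        simp
      rw [h1]
      unfold pg
      positivity
    · have h1 := hVa t h0
      have ht1 : (1 : ℝ) ≤ t := by exact_mod_cast h0
      have h2 : (t : ℝ) ^ (6 * a) ≤ ((t : ℝ) + 1) ^ ε₀ :=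
        (Real.rpow_le_rpow (by linarith) (by linarith) (by positivity)).trans
          (Real.rpow_le_rpow_of_exponent_le (by linarith) (by linarith))
      unfold pg
      exact h1.trans (mul_le_mul (by linarith) h2 (by positivity) (by linarith))
  · rcases Nat.eq_zero_or_pos n with h0 | h0
    · subst h0
      rw [En_zero15]
      positivity
    · have hn1 : (1 : ℝ) ≤ n := by exact_mod_cast h0
      have h1 := En_le_Ps32 (ρ := ρ) (β := β) h (le_refl n)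
      have h2 := hC' n h0
      have h3 : (n : ℝ) ^ a ≤ (n : ℝ) ^ (49 / 100 : ℝ) :=
        Real.rpow_le_rpow_of_exponent_le hn1 (by linarith)
      have h4 := mul_le_mul_of_nonneg_left h3 (show 0 ≤ C' by linarith)
      linarith

end Pool.Agent.W_7d29a1_PL
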