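import Pool.Agent.W_7d29a1_PL.DefsPL

/-!
A set with many pairwise disjoint translates has a small volume.
-/

set_option autoImplicit false

namespace Pool.Agent.W_7d29a1_PL

open MeasureTheory Pool.Agent.W_7d29a1_h46

/-- A set of tilts with `N + 1` disjoint translates in a ball. -/
theorem tra26 {d : ℕ} {A : Set (Vec d)} {R : ℝ} (hA : MeasurableSet A)
    (hAR : A ⊆ Metric.closedBall 0 R) (u : Vec d) (N : ℕ) (hu : N * ‖u‖ ≤ 1)
    (hdis : ∀ i : ℕ, 1 ≤ i → i ≤ N → ∀ h ∈ A, h + (i : ℝ) • u ∉ A) :
    ((N : ENNReal) + 1) * volume A ≤ volume (Metric.closedBall (0 : Vec d) (R + 1)) := by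
  obtain ⟨B, hB⟩ : ∃ B : ℕ → Set (Vec d),
      B = fun i : ℕ => (fun h : Vec d => h + (i : ℝ) • u) '' A := ⟨_, rfl⟩
  have hBv : ∀ i, volume (B i) = volume A := by
    intro i
    rw [hB]
    simp only
    rw [Set.image_add_right, measure_preimage_add_right]
  have hBm : ∀ i, MeasurableSet (B i) := by
    intro i
    rw [hB]
    simp only
    rw [Set.image_add_right]
    exact hA.preimage (measurable_id.add_const _)
  have key : ∀ i j : ℕ, i < j → j ≤ N → Disjoint (B i) (B j) := by
    intro i j hij hj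
    rw [Set.disjoint_left]
    intro x hx hx'
    rw [hB] at hx hx'
    obtain ⟨h, hh, rfl⟩ := hx
    obtain ⟨h', hh', he⟩ := hx'
    simp only at he
    have h1 : h = h' + ((j - i : ℕ) : ℝ) • u := by
      rw [Nat.cast_sub hij.le, sub_smul]
      have h2 : h = h' + (j : ℝ) • u - (i : ℝ) • u := by
        rw [he]
        abel
      rw [h2]
      abel
    exact hdis (j - i) (by omega) (by omega) h' hh' (h1 ▸ hh)
  have hpd : Set.PairwiseDisjoint (↑(Finset.range (N + 1)) : Set ℕ) B := by
    intro i hi j hj hij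
    rw [Finset.mem_coe, Finset.mem_range] at hi hj
    rcases lt_or_gt_of_ne hij with h | h
    · exact key i j h (by omega)
    · exact (key j i h (by omega)).symm
  have hsub : (⋃ i ∈ Finset.range (N + 1), B i) ⊆ Metric.closedBall (0 : Vec d) (R + 1) := by
    intro x hx
    simp only [Set.mem_iUnion, Finset.mem_range] at hx
    obtain ⟨i, hi, hx⟩ := hx
    rw [hB] at hx
    obtain ⟨h, hh, rfl⟩ := hx
    have h1 := hAR hh
    rw [mem_closedBall_zero_iff] at h1 ⊢
    have h2 : ‖(i : ℝ) • u‖ ≤ 1 := by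
      rw [norm_smul, Real.norm_natCast]
      have h3 : (i : ℝ) ≤ N := by exact_mod_cast Nat.lt_succ_iff.1 hi
      exact (mul_le_mul_of_nonneg_right h3 (norm_nonneg u)).trans hu
    simp only
    exact (norm_add_le _ _).trans (add_le_add h1 h2)
  calc ((N : ENNReal) + 1) * volume A = ∑ i ∈ Finset.range (N + 1), volume (B i) := by
        simp only [hBv, Finset.sum_const, Finset.card_range, nsmul_eq_mul]
        push_cast
        rfl
    _ = volume (⋃ i ∈ Finset.range (N + 1), B i) :=
        (measure_biUnion_finset hpd fun i _ => hBm i).symm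
    _ ≤ volume (Metric.closedBall (0 : Vec d) (R + 1)) := measure_mono hsub

end Pool.Agent.W_7d29a1_PL
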