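import Pool.Agent.W_7d29a1_PL.DefsPL

/-!
COR, piece P2 (helper47): the usage of the luck at the scale `H` is at least `4 / 10`.
-/

set_option autoImplicit false

namespace Pool.Agent.W_7d29a1_PL

open MeasureTheory ProbabilityTheory Filter Topology Pool.Agent.W_MP_7d29a1_pr
  Pool.Agent.W_7d29a1_h46 Pool.Agent.W_7d29a1_h46u Pool.Agent.W_7d29a1_D2.B35
  Pool.Agent.W_7d29a1_Q29 Pool.Agent.W_7d29a1_R34 Pool.Agent.W_7d29a1_SP

/-- P2: the usage. -/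
theorem usage47 {d : ℕ} {ρ : Measure ℝ} {β : ℝ} (hU : UseP d ρ β) :
    ∃ A : ℝ, 1 ≤ A ∧ ∀ h : Vec d, ∃ n₀ : ℕ, ∀ n : ℕ, n₀ ≤ n →
      (∀ k : ℕ, k ≤ n → Va ρ β h k ≤ (n : ℝ) ^ (1 / 16 : ℝ)) →
      En ρ β h n ≤ (n : ℝ) ^ (1 / 16 : ℝ) → ∀ (H : ℕ) (x : ℝ), 1 ≤ H → H ^ 4 ≤ n →
      A * Real.log n ≤ x →
      4 / 10 ≤ (∑ t ∈ Finset.range n, us ρ β h n t (Lk ρ β h n H 0 x (1 / 20) 0)) / n := by
  obtain ⟨C₁, hC₁, hu⟩ := hU
  refine ⟨20 * C₁ + 1, by linarith, fun h => ?_⟩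
  obtain ⟨C, hC, hu⟩ := hu h
  -- the choice of `n₀`
  have hlim : Tendsto (fun n : ℕ => (1 + 4 * C) * ((n : ℝ) ^ (-(7 / 32) : ℝ))) atTop (𝓝 0) := by
    have h1 := (tendsto_rpow_neg_atTop (show (0 : ℝ) < 7 / 32 by norm_num)).comp
      tendsto_natCast_atTop_atTop
    have h2 := h1.const_mul (1 + 4 * C)
    rw [mul_zero] at h2
    exact h2
  obtain ⟨n₁, hn₁⟩ := Filter.eventually_atTop.1
    (hlim.eventually (eventually_le_nhds (show (0 : ℝ) < 1 / 100 by norm_num)))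
  refine ⟨max n₁ 500, fun n hn hVa hEn H x hH hH4 hx => ?_⟩
  have hn1 : n₁ ≤ n := (le_max_left _ _).trans hn
  have hn5 : 500 ≤ n := (le_max_right _ _).trans hn
  have hnr : (500 : ℝ) ≤ n := by exact_mod_cast hn5
  have hn0 : (0 : ℝ) < n := by linarith
  have hHr : (1 : ℝ) ≤ H := by exact_mod_cast hH
  have hH4r : (H : ℝ) ^ 4 ≤ n := by exact_mod_cast hH4
  -- `100 H ≤ n`
  have hH100 : 100 * H ≤ n := by
    rcases le_or_gt H 4 with h1 | h1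
    · omega
    · have h2 : 5 ^ 3 ≤ H ^ 3 := Nat.pow_le_pow_left h1 3
      have h3 : H ^ 4 = H ^ 3 * H := by ring
      nlinarith
  have hH100r : 100 * (H : ℝ) ≤ n := by exact_mod_cast hH100
  have hHn : H ≤ n := by omega
  have h2H : 2 * H + 1 ≤ n := by omega
  have hlog1 : 1 ≤ Real.log n := by
    rw [Real.le_log_iff_exp_le hn0]
    have := Real.exp_one_lt_d9
    linarith
  have hA : (1 : ℝ) ≤ 20 * C₁ + 1 := by linarith
  have hx1 : 1 ≤ x := by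
    refine le_trans ?_ hx
    nlinarith
  have hx0 : 0 < x := by linarith
  have hlogH : Real.log (2 * H + 1) ≤ Real.log n := by
    refine Real.log_le_log (by positivity) ?_
    exact_mod_cast h2H
  have hxl : C₁ * Real.log n ≤ x / 20 := by nlinarith
  -- the main inequality
  have hm := hu n H x (1 / 20) ((n : ℝ) ^ (1 / 16 : ℝ)) hH hHn hx0 (by norm_num) (by norm_num) hVa
  set Su : ℝ := ∑ t ∈ Finset.range n, us ρ β h n t (Lk ρ β h n H 0 x (1 / 20) 0) with hS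
  -- the middle term
  have hHq : (H : ℝ) ≤ (n : ℝ) ^ (1 / 4 : ℝ) := by
    have h1 : ((H : ℝ) ^ 4) ^ (1 / 4 : ℝ) ≤ (n : ℝ) ^ (1 / 4 : ℝ) :=
      Real.rpow_le_rpow (by positivity) hH4r (by norm_num)
    have h2 : ((H : ℝ) ^ 4) ^ (1 / 4 : ℝ) = H := by
      rw [← Real.rpow_natCast, ← Real.rpow_mul (by linarith)]
      norm_num
    rwa [h2] at h1
  have hn1' : (1 : ℝ) ≤ n := by linarith
  have e1 : En ρ β h n ≤ (n : ℝ) ^ (17 / 32 : ℝ) :=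
    hEn.trans (Real.rpow_le_rpow_of_exponent_le hn1' (by norm_num))
  have e2 : (H : ℝ) + 1 ≤ 2 * (n : ℝ) ^ (17 / 32 : ℝ) := by
    have h1 : (n : ℝ) ^ (1 / 4 : ℝ) ≤ (n : ℝ) ^ (17 / 32 : ℝ) :=
      Real.rpow_le_rpow_of_exponent_le hn1' (by norm_num)
    linarith
  have e3 : Real.sqrt ((n + 1) * (n : ℝ) ^ (1 / 16 : ℝ)) ≤ 2 * (n : ℝ) ^ (17 / 32 : ℝ) := by
    rw [Real.sqrt_le_left (by positivity)]
    have h1 : (2 * (n : ℝ) ^ (17 / 32 : ℝ)) ^ 2 = 4 * (n * (n : ℝ) ^ (1 / 16 : ℝ)) := by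
      rw [mul_pow, ← Real.rpow_natCast ((n : ℝ) ^ (17 / 32 : ℝ)), ← Real.rpow_mul hn0.le]
      have h2 : (n : ℝ) * (n : ℝ) ^ (1 / 16 : ℝ) = (n : ℝ) ^ (1 + 1 / 16 : ℝ) := by
        rw [Real.rpow_add hn0, Real.rpow_one]
      rw [h2]
      norm_num
    rw [h1]
    have h2 : 0 ≤ (n : ℝ) ^ (1 / 16 : ℝ) := by positivity
    nlinarith
  have e4 : (H : ℝ) * (En ρ β h n + C * (H + 1) + C * Real.sqrt ((n + 1) *
      (n : ℝ) ^ (1 / 16 : ℝ))) ≤ n / 100 := by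
    have h1 : En ρ β h n + C * (H + 1) + C * Real.sqrt ((n + 1) * (n : ℝ) ^ (1 / 16 : ℝ)) ≤
        (1 + 4 * C) * (n : ℝ) ^ (17 / 32 : ℝ) := by
      have h2 := mul_le_mul_of_nonneg_left e2 hC
      have h3 := mul_le_mul_of_nonneg_left e3 hC
      linarith
    have h2 : (H : ℝ) * (En ρ β h n + C * (H + 1) + C * Real.sqrt ((n + 1) *
        (n : ℝ) ^ (1 / 16 : ℝ))) ≤ (n : ℝ) ^ (1 / 4 : ℝ) *
          ((1 + 4 * C) * (n : ℝ) ^ (17 / 32 : ℝ)) := by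
      refine (mul_le_mul_of_nonneg_left h1 (by linarith)).trans ?_
      exact mul_le_mul_of_nonneg_right hHq (by positivity)
    refine h2.trans ?_
    have h3 := hn₁ n hn1
    have h4 : (n : ℝ) ^ (1 / 4 : ℝ) * ((1 + 4 * C) * (n : ℝ) ^ (17 / 32 : ℝ)) =
        ((1 + 4 * C) * (n : ℝ) ^ (-(7 / 32) : ℝ)) * n := by
      have h5 : (n : ℝ) ^ (1 / 4 : ℝ) * (n : ℝ) ^ (17 / 32 : ℝ) =
          (n : ℝ) ^ (-(7 / 32) : ℝ) * n := by
        rw [← Real.rpow_add hn0]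
        nth_rewrite 3 [← Real.rpow_one (n : ℝ)]
        rw [← Real.rpow_add hn0]
        norm_num
      calc (n : ℝ) ^ (1 / 4 : ℝ) * ((1 + 4 * C) * (n : ℝ) ^ (17 / 32 : ℝ)) =
          (1 + 4 * C) * ((n : ℝ) ^ (1 / 4 : ℝ) * (n : ℝ) ^ (17 / 32 : ℝ)) := by ring
        _ = (1 + 4 * C) * ((n : ℝ) ^ (-(7 / 32) : ℝ) * n) := by rw [h5]
        _ = _ := by ring
    rw [h4]
    have h5 := mul_le_mul_of_nonneg_right h3 hn0.le
    linarith
  have e5 : C₁ * n * Real.log (2 * H + 1) ≤ n * (x / 20) := by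
    have h1 : C₁ * n * Real.log (2 * H + 1) ≤ C₁ * n * Real.log n :=
      mul_le_mul_of_nonneg_left hlogH (by positivity)
    refine h1.trans ?_
    have h2 := mul_le_mul_of_nonneg_left hxl hn0.le
    linarith
  rw [le_div_iff₀ hn0]
  have h1 : x * (n - H) ≥ x * (n * (99 / 100)) :=
    mul_le_mul_of_nonneg_left (by linarith) hx0.le
  have h2 : (n : ℝ) / 100 ≤ n * x / 100 := by
    have := mul_le_mul_of_nonneg_left hx1 hn0.le
    linarith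
  have h3 : x * (2 * Su) ≥ x * (n * (88 / 100)) := by nlinarith
  have h4 : n * (88 / 100) ≤ 2 * Su := le_of_mul_le_mul_left h3 hx0
  linarith

end Pool.Agent.W_7d29a1_PL
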