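import Pool.Agent.W_7d29a1_PL.Skel63
import Pool.Agent.W_7d29a1_PL.DefsPL
import Pool.Agent.W_7d29a1_h46u.LamU
import Pool.Agent.W_7d29a1_Q29.Npb39
import Pool.Agent.W_7d29a1_Q29.Vsd61

/-!
Leaf USE.
-/

namespace Pool.Agent.W_7d29a1_PL

open MeasureTheory ProbabilityTheory Filter Topology Pool.Agent.W_MP_7d29a1_pr
  Pool.Agent.W_7d29a1_h46 Pool.Agent.W_7d29a1_h46u Pool.Agent.W_7d29a1_D2.B35
  Pool.Agent.W_7d29a1_Q29 Pool.Agent.W_7d29a1_S90 Pool.Agent.W_7d29a1_SP

/-- Numbers. -/
lemma hlog63 {H n : ℕ} (hH : 1 ≤ H) (hHn : H ≤ n) :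
    (H : ℝ) * Real.log (2 * n + 1) ≤ n * Real.log (2 * H + 1) := by
  have hH0 : (0 : ℝ) < H := by exact_mod_cast hH
  have hn : (H : ℝ) ≤ n := by exact_mod_cast hHn
  have h1 : 1 + (n / H : ℝ) * (2 * H) ≤ (1 + 2 * (H : ℝ)) ^ (n / H : ℝ) :=
    one_add_mul_self_le_rpow_one_add (by linarith) (by rwa [one_le_div hH0])
  have h2 : 1 + (n / H : ℝ) * (2 * H) = 2 * n + 1 := by
    field_simp
    ring
  rw [h2] at h1
  have h3 := Real.log_le_log (by positivity) h1
  rw [Real.log_rpow (by positivity)] at h3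
  have h4 := mul_le_mul_of_nonneg_left h3 hH0.le
  calc (H : ℝ) * Real.log (2 * n + 1) ≤ H * (n / H * Real.log (1 + 2 * H)) := h4
    _ = n * Real.log (2 * H + 1) := by
        rw [add_comm (1 : ℝ) (2 * H)]
        field_simp

/-- The number of the sites of a box. -/
lemma cardbox63 (d r : ℕ) : Real.log ((boxF d r).card : ℝ) = d * Real.log (2 * r + 1) := by
  have h1 : (boxF d r).card = (2 * r + 1) ^ d := by
    unfold boxF
    rw [Fintype.card_piFinset_const, Int.card_Icc]
    congr 1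
    omega
  rw [h1]
  push_cast
  rw [Real.log_pow]

/-- The sum over the offsets. -/
lemma off63 {n H : ℕ} (hH : 1 ≤ H) (hHn : H ≤ n) (a : ℕ → ℝ) :
    ∑ o ∈ Finset.range H, ∑ k ∈ Finset.range ((n - o) / H), a (o + k * H) =
      ∑ t ∈ Finset.range (n + 1 - H), a t := by
  have h1 : ∀ t ∈ Finset.range (n + 1 - H), t % H ∈ Finset.range H := fun t _ =>
    Finset.mem_range.2 (Nat.mod_lt _ hH)
  rw [← Finset.sum_fiberwise_of_maps_to h1 a]
  refine Finset.sum_congr rfl fun o ho => ?_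
  have ho' := Finset.mem_range.1 ho
  have h2 : (Finset.range (n + 1 - H)).filter (fun t => t % H = o) =
      (Finset.range ((n - o) / H)).image fun k => o + k * H := by
    ext t
    simp only [Finset.mem_filter, Finset.mem_range, Finset.mem_image]
    constructor
    · rintro ⟨h3, h4⟩
      refine ⟨t / H, ?_, ?_⟩
      · have h5 := Nat.mod_add_div t H
        rw [Nat.lt_iff_add_one_le, Nat.le_div_iff_mul_le (by omega)]
        have h6 : (t / H + 1) * H = H * (t / H) + H := by ring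
        omega
      · have h5 := Nat.mod_add_div t H
        rw [mul_comm]
        omega
    · rintro ⟨k, h3, rfl⟩
      rw [Nat.lt_iff_add_one_le, Nat.le_div_iff_mul_le (by omega)] at h3
      have h6 : (k + 1) * H = k * H + H := by ring
      refine ⟨by omega, ?_⟩
      rw [Nat.add_mul_mod_self_right, Nat.mod_eq_of_lt ho']
  rw [h2, Finset.sum_image]
  intro k _ k' _ hkk
  have h7 : k * H = k' * H := by
    simp only at hkk
    omega
  exact Nat.eq_of_mul_eq_mul_right (by omega) h7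

variable {d : ℕ} {ρ : Measure ℝ} [IsProbabilityMeasure ρ]

lemma meas_Lg0_63 (β : ℝ) (h : Vec d) (H S : ℕ) (x κ z : ℝ) :
    MeasurableSet (Lg0 ρ β h H S x κ z) := by
  have h1 : Lg0 ρ β h H S x κ z = ⋃ s : ℕ, {η : Env d | s ≤ S ∧
      ((H + s : ℕ) : ℝ) * lam ρ β h - (1 - κ) * x - z ≤ X β h η (H + s)} := by
    ext η
    simp [Lg0]
  rw [h1]
  refine MeasurableSet.iUnion fun s => ?_
  by_cases h2 : s ≤ S
  · simp only [h2, true_and]
    exact measurableSet_le measurable_const (measurable_X β h (H + s))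
  · simp only [h2, false_and, Set.setOf_false, MeasurableSet.empty]

lemma meas_LgN_63 (β : ℝ) (h : Vec d) (H S : ℕ) (x κ z : ℝ) (N : ℕ) :
    MeasurableSet (LgN ρ β h H S x κ z N) := by
  have h1 : LgN ρ β h H S x κ z N = ⋃ s : ℕ, {η : Env d | s ≤ S ∧
      ((N * H + s : ℕ) : ℝ) * lam ρ β h + κ * N * x - z ≤ X β h η (N * H + s)} := by
    ext η
    simp [LgN]
  rw [h1]
  refine MeasurableSet.iUnion fun s => ?_
  by_cases h2 : s ≤ S
  · simp only [h2, true_and]
    exact measurableSet_le measurable_const (measurable_X β h (N * H + s))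
  · simp only [h2, false_and, Set.setOf_false, MeasurableSet.empty]

lemma meas_Lk_63 (β : ℝ) (h : Vec d) (n H S : ℕ) (x κ z : ℝ) :
    MeasurableSet (Lk ρ β h n H S x κ z) := by
  unfold Lk
  refine (meas_Lg0_63 β h H S x κ z).union ?_
  have h1 : {η : Env d | ∃ N : ℕ, 2 ≤ N ∧ N * H ≤ n ∧ η ∈ LgN ρ β h H S x κ z N} =
      ⋃ N : ℕ, {η : Env d | 2 ≤ N ∧ N * H ≤ n ∧ η ∈ LgN ρ β h H S x κ z N} := by
    ext η
    simp
  rw [h1]
  refine MeasurableSet.iUnion fun N => ?_
  by_cases h2 : 2 ≤ N ∧ N * H ≤ n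
  · simp only [h2.1, h2.2, true_and]
    exact meas_LgN_63 β h H S x κ z N
  · have h3 : {η : Env d | 2 ≤ N ∧ N * H ≤ n ∧ η ∈ LgN ρ β h H S x κ z N} = ∅ := by
      ext η
      simp only [Set.mem_setOf_eq, Set.mem_empty_iff_false, iff_false]
      rintro ⟨h4, h5, -⟩
      exact h2 ⟨h4, h5⟩
    rw [h3]
    exact MeasurableSet.empty

/-- A site which is not lucky is bad. -/
lemma bad_of_not63 {β : ℝ} {h : Vec d} {n H m : ℕ} {x κ : ℝ} (hx : 0 < x)
    (hmn : m ≤ n) {η : Env d} (hη : η ∉ Lk ρ β h n H 0 x κ 0) :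
    Bad β (lam ρ β h) κ x h H m η := by
  unfold Lk at hη
  rw [Set.mem_union, not_or] at hη
  obtain ⟨h1, h2⟩ := hη
  have h3 : X β h η H < lam ρ β h * H - (1 - κ) * x := by
    by_contra h4
    push Not at h4
    refine h1 ⟨0, le_rfl, ?_⟩
    rw [add_zero]
    linarith
  refine ⟨h3.le, fun M hM => ?_⟩
  rcases Nat.lt_or_ge M 2 with h5 | h5
  · interval_cases M
    · rw [zero_mul]
      have h6 : X β h η 0 = 0 := by
        unfold X
        rw [Z_zero, Real.log_one]
      rw [h6]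
      simp
    · rw [one_mul]
      push_cast
      nlinarith
  · by_contra h7
    push Not at h7
    refine h2 ⟨M, h5, hM.trans hmn, 0, le_rfl, ?_⟩
    rw [add_zero]
    push_cast at h7 ⊢
    nlinarith

/-- The maximal excess. -/
lemma exc63 (hd : 0 < d) (hρ : EM ρ) (β : ℝ) (h : Vec d) (n : ℕ) {K : ℝ}
    (hK : ∀ k : ℕ, k ≤ n → Va ρ β h k ≤ K) :
    Integrable (fun η : Env d => Real.sqrt (∑ m ∈ Finset.range (n + 1),
      (X β h η m - A ρ β h m) ^ 2)) (law d ρ) ∧
    ∫ η, Real.sqrt (∑ m ∈ Finset.range (n + 1), (X β h η m - A ρ β h m) ^ 2) ∂(law d ρ) ≤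
      Real.sqrt ((n + 1) * K) := by
  set G : Env d → ℝ := fun η => ∑ m ∈ Finset.range (n + 1), (X β h η m - A ρ β h m) ^ 2 with hG
  have hG0 : ∀ η, 0 ≤ G η := fun η => Finset.sum_nonneg fun _ _ => sq_nonneg _
  have hGm : Measurable G := Finset.measurable_sum _ fun m _ =>
    ((measurable_X β h m).sub_const _).pow_const 2
  have hi : ∀ m : ℕ, Integrable (fun η : Env d => (X β h η m - A ρ β h m) ^ 2) (law d ρ) := by
    intro m
    have h1 := integrable_X_sq39 (ρ := ρ) hd hρ β h m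
    have h2 : MemLp (fun η : Env d => X β h η m) 2 (law d ρ) := by
      rwa [memLp_two_iff_integrable_sq (measurable_X β h m).aestronglyMeasurable]
    exact (h2.sub (memLp_const (A ρ β h m))).integrable_sq
  have hGi : Integrable G (law d ρ) := integrable_finset_sum _ fun m _ => hi m
  have hGint : ∫ η, G η ∂(law d ρ) ≤ (n + 1) * K := by
    simp only [hG]
    rw [integral_finset_sum _ fun m _ => hi m]
    refine (Finset.sum_le_card_nsmul _ _ K fun m hm => hK m ?_).trans (le_of_eq ?_)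
    · have := Finset.mem_range.1 hm
      omega
    · rw [Finset.card_range, nsmul_eq_mul]
      push_cast
      ring
  have hpt : ∀ c : ℝ, 0 < c → ∀ η, Real.sqrt (G η) ≤ G η / (2 * c) + c / 2 := by
    intro c hc η
    have h1 := Real.sq_sqrt (hG0 η)
    have h2 : 0 ≤ (Real.sqrt (G η) - c) ^ 2 := sq_nonneg _
    have h3 : Real.sqrt (G η) * (2 * c) ≤ G η + c ^ 2 := by nlinarith
    have h4 : G η / (2 * c) + c / 2 = (G η + c ^ 2) / (2 * c) := by
      field_simp
    rw [h4, le_div_iff₀ (by positivity)]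
    exact h3
  have hsi : Integrable (fun η => Real.sqrt (G η)) (law d ρ) := by
    refine ((hGi.div_const 2).add (integrable_const (1 / 2 : ℝ))).mono'
      (Real.continuous_sqrt.measurable.comp hGm).aestronglyMeasurable
      (Eventually.of_forall fun η => ?_)
    rw [Real.norm_of_nonneg (Real.sqrt_nonneg _)]
    have := hpt 1 one_pos η
    simpa using this
  refine ⟨hsi, le_of_forall_pos_le_add fun δ hδ => ?_⟩
  set V : ℝ := (n + 1) * K with hV
  have hV0 : 0 ≤ V := (integral_nonneg hG0).trans hGint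
  set c : ℝ := Real.sqrt V + δ with hc
  have hc0 : 0 < c := by
    have := Real.sqrt_nonneg V
    linarith
  have h5 : ∫ η, Real.sqrt (G η) ∂(law d ρ) ≤ ∫ η, (G η / (2 * c) + c / 2) ∂(law d ρ) :=
    integral_mono hsi ((hGi.div_const _).add (integrable_const _)) (hpt c hc0)
  rw [integral_add (hGi.div_const _) (integrable_const _), integral_div, integral_const] at h5
  simp only [probReal_univ, one_smul] at h5
  have h6 : (∫ η, G η ∂(law d ρ)) / (2 * c) ≤ Real.sqrt V / 2 := by
    rw [div_le_div_iff₀ (by positivity) two_pos]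
    have h7 := Real.sq_sqrt hV0
    have h8 := Real.sqrt_nonneg V
    nlinarith
  linarith

/-- The last piece. -/
lemma last63 (hd : 0 < d) (hρ : EM ρ) (β : ℝ) (h : Vec d) (n t r : ℕ) :
    Integrable (fun η : Env d => Real.log (∑ y ∈ boxF d n, Z β h (sh t y η) r)) (law d ρ) ∧
    ∫ η, Real.log (∑ y ∈ boxF d n, Z β h (sh t y η) r) ∂(law d ρ) ≤
      Real.log ((boxF d n).card : ℝ) + r * |Real.log (Phi h * ∫ s, Real.exp (β * s) ∂ρ)| := by
  obtain ⟨hZi, hZint⟩ := annealed61 (d := d) hρ β h r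
  set a : ℝ := Phi h * ∫ s, Real.exp (β * s) ∂ρ with ha
  have hZm : ∀ y, Measurable fun η : Env d => Z β h (sh t y η) r := fun y =>
    (measurable_Z β h r).comp (measurable_sh t y)
  have hZi' : ∀ y, Integrable (fun η : Env d => Z β h (sh t y η) r) (law d ρ) := fun y =>
    (mp_sh (ρ := ρ) t y).integrable_comp_of_integrable hZi
  have hZint' : ∀ y, ∫ η, Z β h (sh t y η) r ∂(law d ρ) = a ^ r := fun y => by
    rw [integral_sh t y (F := fun η => Z β h η r) (measurable_Z β h r), hZint]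
  set u : Env d → ℝ := fun η => ∑ y ∈ boxF d n, Z β h (sh t y η) r with hu
  have hui : Integrable u (law d ρ) := integrable_finset_sum _ fun y _ => hZi' y
  have hum : Measurable u := Finset.measurable_sum _ fun y _ => hZm y
  have hu0 : ∀ η, Z β h (sh t 0 η) r ≤ u η := fun η =>
    Finset.single_le_sum (f := fun y => Z β h (sh t y η) r)
      (fun y _ => (Z_pos hd _ _ _ _).le) (zero_mem_boxF n)
  have hupos : ∀ η, 0 < u η := fun η => (Z_pos hd _ _ _ _).trans_le (hu0 η)
  have huint : ∫ η, u η ∂(law d ρ) = (boxF d n).card * a ^ r := by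
    simp only [hu]
    rw [integral_finset_sum _ fun y _ => hZi' y, Finset.sum_congr rfl fun y _ => hZint' y,
      Finset.sum_const, nsmul_eq_mul]
  have hXi : Integrable (fun η : Env d => X β h (sh t 0 η) r) (law d ρ) :=
    (mp_sh (ρ := ρ) t 0).integrable_comp_of_integrable (concU hd hρ β h r).1
  have hli : Integrable (fun η => Real.log (u η)) (law d ρ) := by
    refine (hui.add hXi.abs).mono' (Real.measurable_log.comp hum).aestronglyMeasurable
      (Eventually.of_forall fun η => ?_)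
    rw [Real.norm_eq_abs]
    show |Real.log (u η)| ≤ u η + |X β h (sh t 0 η) r|
    have h1 : X β h (sh t 0 η) r ≤ Real.log (u η) :=
      Real.log_le_log (Z_pos hd _ _ _ _) (hu0 η)
    have h2 := Real.log_le_sub_one_of_pos (hupos η)
    rw [abs_le]
    have h3 := neg_abs_le (X β h (sh t 0 η) r)
    have h4 := abs_nonneg (X β h (sh t 0 η) r)
    have h5 := hupos η
    constructor <;> linarith
  refine ⟨hli, ?_⟩
  have hcard : 0 < ((boxF d n).card : ℝ) := by
    exact_mod_cast Finset.card_pos.2 ⟨0, zero_mem_boxF n⟩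
  have hintpos : 0 < ∫ η, u η ∂(law d ρ) := by
    rw [integral_pos_iff_support_of_nonneg (fun η => (hupos η).le) hui]
    have h6 : Function.support u = Set.univ := by
      ext η
      simp [(hupos η).ne']
    rw [h6]
    simp
  have hc0 : 0 < ((boxF d n).card : ℝ) * a ^ r := huint ▸ hintpos
  have har : 0 < a ^ r := (pos_iff_pos_of_mul_pos hc0).1 hcard
  set c : ℝ := (boxF d n).card * a ^ r with hc
  have hpt : ∀ η, Real.log (u η) ≤ u η / c + (Real.log c - 1) := by
    intro η
    have h7 := Real.log_le_sub_one_of_pos (div_pos (hupos η) hc0)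
    rw [Real.log_div (hupos η).ne' hc0.ne'] at h7
    linarith
  have h8 : ∫ η, Real.log (u η) ∂(law d ρ) ≤ ∫ η, (u η / c + (Real.log c - 1)) ∂(law d ρ) :=
    integral_mono hli ((hui.div_const _).add (integrable_const _)) hpt
  rw [integral_add (hui.div_const _) (integrable_const _), integral_div, integral_const,
    huint, div_self hc0.ne'] at h8
  simp only [probReal_univ, one_smul] at h8
  have h9 : Real.log c = Real.log ((boxF d n).card : ℝ) + r * Real.log a := by
    rw [hc, Real.log_mul hcard.ne' har.ne', Real.log_pow]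
  have h10 : (r : ℝ) * Real.log a ≤ r * |Real.log a| :=
    mul_le_mul_of_nonneg_left (le_abs_self _) (Nat.cast_nonneg _)
  linarith

open Classical in
/-- The site visited at the time `t`. -/
lemma pe_site63 (β : ℝ) (h : Vec d) (η : Env d) {n t : ℕ} (ht : t ≤ n)
    (P : Env d → Prop) :
    pe β h η (fun w : Fin n → Step d => if P (sh t (pos w t) η) then (1 : ℝ) else 0) =
      ∑ y ∈ boxF d t, Qt β h n t y η * (if P (sh t y η) then (1 : ℝ) else 0) := by
  have h1 : ∀ y ∈ boxF d t, Qt β h n t y η * (if P (sh t y η) then (1 : ℝ) else 0) =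
      (∑ s : Fin n → Step d, (if pos s t = y then wgt β h η s *
        (if P (sh t (pos s t) η) then (1 : ℝ) else 0) else 0)) / Z β h η n := by
    intro y _
    rw [Qt_eq39 β h ht, div_mul_eq_mul_div, Finset.sum_mul]
    congr 1
    refine Finset.sum_congr rfl fun s _ => ?_
    by_cases h2 : pos s t = y
    · rw [if_pos h2, if_pos h2, h2]
    · rw [if_neg h2, if_neg h2, zero_mul]
  rw [Finset.sum_congr rfl h1, ← Finset.sum_div, Finset.sum_comm]
  unfold pe
  congr 1
  refine Finset.sum_congr rfl fun s _ => ?_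
  rw [Finset.sum_ite_eq, if_pos (pos_mem_boxF39 s le_rfl)]

/-- The mass of the lucky sites at the time `t`. -/
noncomputable def uq63 (ρ : Measure ℝ) (β : ℝ) (h : Vec d) (n t : ℕ) (B : Set (Env d))
    (η : Env d) : ℝ :=
  ∑ y ∈ boxF d t, Qt β h n t y η * B.indicator (fun _ => (1 : ℝ)) (sh t y η)

lemma uq_mem63 (hd : 0 < d) (β : ℝ) (h : Vec d) {n t : ℕ} (ht : t ≤ n) (B : Set (Env d))
    (η : Env d) : 0 ≤ uq63 ρ β h n t B η ∧ uq63 ρ β h n t B η ≤ 1 := by
  unfold uq63
  refine ⟨Finset.sum_nonneg fun y _ => mul_nonneg (Qt_nonneg39 _ _ _ _ _ _)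
    (Set.indicator_nonneg (fun _ _ => zero_le_one) _), ?_⟩
  refine (Finset.sum_le_sum fun y _ => ?_).trans (Qt_sum_box39 hd β h ht le_rfl η).le
  have h1 : B.indicator (fun _ => (1 : ℝ)) (sh t y η) ≤ 1 :=
    Set.indicator_le_self' (fun _ _ => zero_le_one) _
  have h2 : (0 : ℝ) ≤ Qt β h n t y η := Qt_nonneg39 _ _ _ _ _ _
  nlinarith

lemma uq_meas63 (β : ℝ) (h : Vec d) (n t : ℕ) {B : Set (Env d)} (hB : MeasurableSet B) :
    Measurable (uq63 ρ β h n t B) := by
  unfold uq63
  exact Finset.measurable_sum _ fun y _ => (measurable_Qt39 β h n t y).mul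
    ((measurable_const.indicator hB).comp (measurable_sh t y))

lemma uq_int63 (hd : 0 < d) (β : ℝ) (h : Vec d) {n t : ℕ} (ht : t ≤ n) {B : Set (Env d)}
    (hB : MeasurableSet B) : Integrable (uq63 ρ β h n t B) (law d ρ) := by
  refine (integrable_const (1 : ℝ)).mono' (uq_meas63 β h n t hB).aestronglyMeasurable
    (Eventually.of_forall fun η => ?_)
  obtain ⟨h1, h2⟩ := uq_mem63 (ρ := ρ) hd β h ht B η
  rw [Real.norm_of_nonneg h1]
  exact h2

lemma us_eq63 (β : ℝ) (h : Vec d) (n t : ℕ) (B : Set (Env d)) :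
    us ρ β h n t B = ∫ η, uq63 ρ β h n t B η ∂(law d ρ) := rfl

lemma int4_63 {Ω : Type*} [MeasurableSpace Ω] {μ : Measure Ω} [IsProbabilityMeasure μ] (c : ℝ)
    {f g k : Ω → ℝ} (hf : Integrable f μ) (hg : Integrable g μ) (hk : Integrable k μ) :
    Integrable (fun ω => c + f ω - g ω + k ω) μ ∧
      ∫ ω, (c + f ω - g ω + k ω) ∂μ = c + (∫ ω, f ω ∂μ) - (∫ ω, g ω ∂μ) + ∫ ω, k ω ∂μ := by
  have h1 : Integrable (fun ω => c + f ω) μ := (integrable_const c).add hf
  have h2 : Integrable (fun ω => c + f ω - g ω) μ := h1.sub hg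
  refine ⟨h2.add hk, ?_⟩
  rw [integral_add h2 hk, integral_sub h1 hg, integral_add (integrable_const c) hf]
  simp

open Classical in
/-- One offset, in the mean. -/
lemma one63 (hd : 0 < d) (hρ : EM ρ) (β : ℝ) (h : Vec d) {n H o : ℕ} {x κ K : ℝ}
    (hH : 1 ≤ H) (hHn : H ≤ n) (ho : o < H) (hx : 0 < x) (hκ : 0 < κ)
    (hK : ∀ k : ℕ, k ≤ n → Va ρ β h k ≤ K) :
    2 * x * ∑ k ∈ Finset.range ((n - o) / H), (1 - us ρ β h n (o + k * H)
      (Lk ρ β h n H 0 x κ 0)) ≤
      (1 + κ) * x * ((n - o) / H : ℕ) + Real.sqrt ((n + 1) * K) + W_7d29a1_SP.En ρ β h n +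
        |lam ρ β h| * H + d * Real.log (2 * H + 1) +
        ((n - o) / H : ℕ) * (d * Real.log (2 * H + 1)) + d * Real.log (2 * n + 1) +
        H * |Real.log (Phi h * ∫ s, Real.exp (β * s) ∂ρ)| := by
  set N : ℕ := (n - o) / H with hN
  have hNH : N * H ≤ n - o := Nat.div_mul_le_self _ _
  have hon : o + N * H ≤ n := by omega
  have hrest : n - (o + N * H) < H := by
    have h1 := Nat.mod_add_div (n - o) H
    have h2 := Nat.mod_lt (n - o) (show H > 0 by omega)
    rw [← hN, mul_comm] at h1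
    omega
  set L := Lk ρ β h n H 0 x κ 0 with hL
  have hLm : MeasurableSet L := meas_Lk_63 β h n H 0 x κ 0
  set Mx : Env d → ℝ := fun η => Real.sqrt (∑ m ∈ Finset.range (n + 1),
    (X β h η m - A ρ β h m) ^ 2) with hMx
  obtain ⟨hMi, hMint⟩ := exc63 (ρ := ρ) hd hρ β h n hK
  have hM : ∀ η : Env d, ∀ m : ℕ, m ≤ n → X β h η m ≤ lam ρ β h * m + Mx η := by
    intro η m hm
    have h1 : |X β h η m - A ρ β h m| ≤ Mx η := by
      refine Real.abs_le_sqrt ?_
      exact Finset.single_le_sum (f := fun m => (X β h η m - A ρ β h m) ^ 2)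
        (fun _ _ => sq_nonneg _) (Finset.mem_range.2 (by omega))
    have h2 := A_le_lam (ρ := ρ) hd hρ β h m
    have h3 := le_abs_self (X β h η m - A ρ β h m)
    linarith
  obtain ⟨hLi, hLint⟩ := last63 (ρ := ρ) hd hρ β h n (o + N * H) (n - (o + N * H))
  -- pointwise
  have hpt : ∀ η : Env d, 2 * x * ∑ k ∈ Finset.range N, (1 - uq63 ρ β h n (o + k * H) L η) ≤
      ((1 + κ) * x * N + lam ρ β h * (o + N * H : ℕ) +
        (Real.log (boxF d o).card + N * Real.log (boxF d H).card)) + Mx η - X β h η n +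
        Real.log (∑ y ∈ boxF d n, Z β h (sh (o + N * H) y η) (n - (o + N * H))) := by
    intro η
    have h1 := use63 hd β (lam ρ β h) κ x h η o H N hon hx.le hκ.le (hM η)
    have h2 : ∑ k ∈ Finset.range N, (1 - uq63 ρ β h n (o + k * H) L η) ≤
        ∑ k ∈ Finset.range N, pe β h η (fun w : Fin n → Step d =>
          if Bad β (lam ρ β h) κ x h H (n - (o + k * H))
            (sh (o + k * H) (pos w (o + k * H)) η) then (1 : ℝ) else 0) := by
      refine Finset.sum_le_sum fun k hk => ?_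
      have hk' := Finset.mem_range.1 hk
      have htn : o + k * H ≤ n := by
        have : k * H ≤ N * H := Nat.mul_le_mul_right _ hk'.le
        omega
      rw [pe_site63 β h η htn (Bad β (lam ρ β h) κ x h H (n - (o + k * H)))]
      have h30 := Qt_sum_box39 hd β h htn le_rfl η
      have h31 : (1 : ℝ) - uq63 ρ β h n (o + k * H) L η =
          ∑ y ∈ boxF d (o + k * H), (Qt β h n (o + k * H) y η -
            Qt β h n (o + k * H) y η * L.indicator (fun _ => (1 : ℝ)) (sh (o + k * H) y η)) := by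
        rw [Finset.sum_sub_distrib, h30]
        rfl
      rw [h31]
      refine Finset.sum_le_sum fun y _ => ?_
      have h3 : (0 : ℝ) ≤ Qt β h n (o + k * H) y η := Qt_nonneg39 _ _ _ _ _ _
      by_cases h4 : sh (o + k * H) y η ∈ L
      · rw [Set.indicator_of_mem h4, mul_one, sub_self]
        refine mul_nonneg h3 ?_
        split_ifs
        · exact zero_le_one
        · exact le_rfl
      · rw [Set.indicator_of_notMem h4, mul_zero, sub_zero,
          if_pos (bad_of_not63 hx (Nat.sub_le _ _) h4), mul_one]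
    have h5 := mul_le_mul_of_nonneg_left h2 (show (0 : ℝ) ≤ 2 * x by positivity)
    linarith
  -- the mean
  have hkn : ∀ k ∈ Finset.range N, o + k * H ≤ n := fun k hk => by
    have hk' := Finset.mem_range.1 hk
    have : k * H ≤ N * H := Nat.mul_le_mul_right _ hk'.le
    omega
  have hki : ∀ k ∈ Finset.range N, Integrable (fun η : Env d =>
      1 - uq63 ρ β h n (o + k * H) L η) (law d ρ) := fun k hk =>
    (integrable_const (1 : ℝ)).sub (uq_int63 hd β h (hkn k hk) hLm)
  have hli : Integrable (fun η : Env d => 2 * x * ∑ k ∈ Finset.range N,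
      (1 - uq63 ρ β h n (o + k * H) L η)) (law d ρ) :=
    (integrable_finset_sum _ hki).const_mul _
  have hXi : Integrable (fun η : Env d => X β h η n) (law d ρ) := (concU hd hρ β h n).1
  obtain ⟨hri, hrint⟩ := int4_63 ((1 + κ) * x * N + lam ρ β h * (o + N * H : ℕ) +
    (Real.log (boxF d o).card + N * Real.log (boxF d H).card)) hMi hXi hLi
  have hint := integral_mono hli hri hpt
  rw [integral_const_mul, integral_finset_sum _ hki] at hint
  have h6 : ∑ k ∈ Finset.range N, ∫ η, (1 - uq63 ρ β h n (o + k * H) L η) ∂(law d ρ) =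
      ∑ k ∈ Finset.range N, (1 - us ρ β h n (o + k * H) L) := by
    refine Finset.sum_congr rfl fun k hk => ?_
    rw [integral_sub (integrable_const _) (uq_int63 hd β h (hkn k hk) hLm), us_eq63]
    simp
  rw [h6] at hint
  have hint2 := hint.trans (le_of_eq hrint)
  have hA : ∫ η, X β h η n ∂(law d ρ) = A ρ β h n := rfl
  rw [hA] at hint2
  rw [cardbox63, cardbox63] at hint2
  rw [cardbox63] at hLint
  have h8 : (o : ℝ) ≤ H := by exact_mod_cast ho.le
  have h9 : Real.log (2 * o + 1) ≤ Real.log (2 * H + 1) :=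
    Real.log_le_log (by positivity) (by linarith)
  have h10 : (d : ℝ) * Real.log (2 * o + 1) ≤ d * Real.log (2 * H + 1) :=
    mul_le_mul_of_nonneg_left h9 (Nat.cast_nonneg _)
  have h11 : ((n - (o + N * H) : ℕ) : ℝ) ≤ H := by exact_mod_cast hrest.le
  have h12 : ((n - (o + N * H) : ℕ) : ℝ) * |Real.log (Phi h * ∫ s, Real.exp (β * s) ∂ρ)| ≤
      H * |Real.log (Phi h * ∫ s, Real.exp (β * s) ∂ρ)| :=
    mul_le_mul_of_nonneg_right h11 (abs_nonneg _)
  have h13 : lam ρ β h * (o + N * H : ℕ) - A ρ β h n ≤ W_7d29a1_SP.En ρ β h n + |lam ρ β h| * H := by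
    unfold W_7d29a1_SP.En
    have h14 : ((n - (o + N * H) : ℕ) : ℝ) = n - (o + N * H : ℕ) := Nat.cast_sub hon
    have h15 : -(lam ρ β h * ((n - (o + N * H) : ℕ) : ℝ)) ≤
        |lam ρ β h| * ((n - (o + N * H) : ℕ) : ℝ) := by
      rw [← neg_mul]
      exact mul_le_mul_of_nonneg_right (neg_le_abs _) (Nat.cast_nonneg _)
    have h16 := mul_le_mul_of_nonneg_left h11 (abs_nonneg (lam ρ β h))
    rw [h14] at h15 h16
    nlinarith
  linarith

/-- LEAF USE. -/
theorem use63P (hd : 0 < d) (hρ : EM ρ) (β : ℝ) : UseP d ρ β := by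
  refine ⟨3 * d, by positivity, fun h => ⟨|lam ρ β h| +
    |Real.log (Phi h * ∫ s, Real.exp (β * s) ∂ρ)| + 1, by positivity, ?_⟩⟩
  intro n H x κ K hH hHn hx hκ hκ2 hK
  set L := Lk ρ β h n H 0 x κ 0 with hL
  set la : ℝ := |lam ρ β h| with hla
  set lb : ℝ := |Real.log (Phi h * ∫ s, Real.exp (β * s) ∂ρ)| with hlb
  have hla0 : 0 ≤ la := abs_nonneg _
  have hlb0 : 0 ≤ lb := abs_nonneg _
  have h1 := Finset.sum_le_sum fun o (ho : o ∈ Finset.range H) =>
    one63 (ρ := ρ) hd hρ β h hH hHn (Finset.mem_range.1 ho) hx hκ hK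
  rw [← Finset.mul_sum, off63 hH hHn (fun t => 1 - us ρ β h n t L)] at h1
  have h2 : ∑ o ∈ Finset.range H, (((n - o) / H : ℕ) : ℝ) = n + 1 - H := by
    have h3 := off63 hH hHn (fun _ => (1 : ℝ))
    simp only [Finset.sum_const, Finset.card_range, nsmul_eq_mul, mul_one] at h3
    rw [h3, Nat.cast_sub (by omega)]
    push_cast
    ring
  have h4 : ∑ o ∈ Finset.range H, ((1 + κ) * x * ((n - o) / H : ℕ) +
        Real.sqrt ((n + 1) * K) + W_7d29a1_SP.En ρ β h n +
        la * H + d * Real.log (2 * H + 1) +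
        ((n - o) / H : ℕ) * (d * Real.log (2 * H + 1)) + d * Real.log (2 * n + 1) +
        H * lb) = (1 + κ) * x * (n + 1 - H) + H * (Real.sqrt ((n + 1) * K) + W_7d29a1_SP.En ρ β h n +
        la * H + d * Real.log (2 * H + 1) + d * Real.log (2 * n + 1) + H * lb) +
        (n + 1 - H) * (d * Real.log (2 * H + 1)) := by
    rw [← h2]
    simp only [Finset.sum_add_distrib, Finset.sum_const, Finset.card_range, nsmul_eq_mul,
      ← Finset.mul_sum, ← Finset.sum_mul]
    ring
  rw [h4] at h1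
  have h5 : ∑ t ∈ Finset.range (n + 1 - H), (1 - us ρ β h n t L) =
      (n + 1 - H) - ∑ t ∈ Finset.range (n + 1 - H), us ρ β h n t L := by
    rw [Finset.sum_sub_distrib, Finset.sum_const, Finset.card_range, nsmul_eq_mul, mul_one,
      Nat.cast_sub (by omega)]
    push_cast
    ring
  rw [h5] at h1
  have h6 : ∑ t ∈ Finset.range (n + 1 - H), us ρ β h n t L ≤
      ∑ t ∈ Finset.range n, us ρ β h n t L := by
    refine Finset.sum_le_sum_of_subset_of_nonneg (fun t ht => ?_) fun t ht _ => ?_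
    · rw [Finset.mem_range] at ht ⊢
      omega
    · rw [us_eq63]
      exact integral_nonneg fun η => (uq_mem63 (ρ := ρ) hd β h
        (Finset.mem_range.1 ht).le L η).1
  have h7 := mul_le_mul_of_nonneg_left h6 (show (0 : ℝ) ≤ 2 * x by positivity)
  have h8 := mul_le_mul_of_nonneg_left (hlog63 hH hHn) (Nat.cast_nonneg d : (0 : ℝ) ≤ d)
  have hn1 : (1 : ℝ) ≤ n := by exact_mod_cast hH.trans hHn
  have hlog0 : 0 ≤ Real.log (2 * (H : ℝ) + 1) := Real.log_nonneg (by
    have : (0 : ℝ) ≤ H := Nat.cast_nonneg _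
    linarith)
  have hd0 : (0 : ℝ) ≤ d := Nat.cast_nonneg _
  have h9 : (1 : ℝ) * (d * Real.log (2 * H + 1)) ≤ n * (d * Real.log (2 * H + 1)) :=
    mul_le_mul_of_nonneg_right hn1 (mul_nonneg hd0 hlog0)
  have hH1 : (1 : ℝ) ≤ H := by exact_mod_cast hH
  have hsq0 := Real.sqrt_nonneg ((n + 1) * K)
  have h10 : (H : ℝ) * Real.sqrt ((n + 1) * K) ≤
      H * ((la + lb + 1) * Real.sqrt ((n + 1) * K)) := by
    refine mul_le_mul_of_nonneg_left ?_ (by linarith)
    nlinarith
  have h11 : (H : ℝ) * (la * H + H * lb) ≤ H * ((la + lb + 1) * (H + 1)) := by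
    refine mul_le_mul_of_nonneg_left ?_ (by linarith)
    nlinarith
  have h12 : (1 - κ) * x * (n - H) ≤ (1 - κ) * x * (n + 1 - H) := by
    refine mul_le_mul_of_nonneg_left (by linarith) (mul_nonneg (by linarith) hx.le)
  have e1 : (H : ℝ) * (Real.sqrt ((n + 1) * K) + W_7d29a1_SP.En ρ β h n + la * H +
      d * Real.log (2 * H + 1) + d * Real.log (2 * n + 1) + H * lb) =
      H * Real.sqrt ((n + 1) * K) + H * W_7d29a1_SP.En ρ β h n + H * (la * H + H * lb) +
      H * (d * Real.log (2 * H + 1)) + d * (H * Real.log (2 * n + 1)) := by ring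
  have e2 : (n + 1 - (H : ℝ)) * (d * Real.log (2 * H + 1)) =
      n * (d * Real.log (2 * H + 1)) + 1 * (d * Real.log (2 * H + 1)) -
      H * (d * Real.log (2 * H + 1)) := by ring
  have e3 : (d : ℝ) * (n * Real.log (2 * H + 1)) = n * (d * Real.log (2 * H + 1)) := by ring
  have e4 : (H : ℝ) * (W_7d29a1_SP.En ρ β h n + (la + lb + 1) * (H + 1) +
      (la + lb + 1) * Real.sqrt ((n + 1) * K)) = H * W_7d29a1_SP.En ρ β h n +
      H * ((la + lb + 1) * (H + 1)) + H * ((la + lb + 1) * Real.sqrt ((n + 1) * K)) := by ring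
  have e5 : (3 * (d : ℝ)) * n * Real.log (2 * H + 1) =
      3 * (n * (d * Real.log (2 * H + 1))) := by ring
  rw [e1, e2] at h1
  rw [e3] at h8
  rw [e4, e5]
  linarith

end Pool.Agent.W_7d29a1_PL
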