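import Pool.Agent.W_7d29a1_PL.SegZ90
import Pool.Agent.W_7d29a1_PL.Rise33
import Pool.Agent.W_7d29a1_PL.DefsPL

/-!
Leaf USE, the part for a fixed environment: the mean number of the lucky sites on the polymer.
-/

set_option autoImplicit false

namespace Pool.Agent.W_7d29a1_PL.U10

open MeasureTheory ProbabilityTheory Filter Topology Pool.Agent.W_MP_7d29a1_pr
  Pool.Agent.W_7d29a1_h46 Pool.Agent.W_7d29a1_h46u Pool.Agent.W_7d29a1_D2.B35
  Pool.Agent.W_7d29a1_Q29 Pool.Agent.W_7d29a1_NV Pool.Agent.W_7d29a1_SP Pool.Agent.W_7d29a1_PL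

variable {d : ℕ}

open Classical in
lemma mass10 (β : ℝ) (h : Vec d) (η : Env d) {n t : ℕ} (ht : t ≤ n) (y : Site d) :
    PP β h η t y * Z β h (sh t y η) (n - t) =
      ∑ w : Fin n → Step d, if pos w t = y then wgt β h η w else 0 := by
  have h1 := mass77 (k := 0) (n := n) β h η ![t] ![y] (fun i => i.elim0) ht
  rw [Finset.univ_eq_empty, Finset.prod_empty, mul_one] at h1
  have h2 : PP β h η t y * Z β h (sh t y η) (n - t) =
      ZT β h η {w : Fin n → Step d | ∀ i, pos w ((![t] : Fin 1 → ℕ) i) =
        (![y] : Fin 1 → Site d) i} := h1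
  rw [h2]
  unfold ZT
  refine Finset.sum_congr rfl fun w _ => ?_
  by_cases hw : pos w t = y
  · rw [if_pos hw, if_pos]
    intro i
    rw [Fin.fin_one_eq_zero i]
    exact hw
  · rw [if_neg hw, if_neg]
    intro h3
    exact hw (h3 0)

lemma pos_box10 {n : ℕ} (w : Fin n → Step d) (t : ℕ) : pos w t ∈ boxF d t := by
  have h1 := disp_mem90 w 0 t
  have h2 : pos w 0 = 0 := by
    unfold pos
    exact Finset.sum_eq_zero fun j _ => if_neg (Nat.not_lt_zero _)
  rwa [Nat.zero_add, h2, sub_zero] at h1

/-- The mean over the paths of a function of the position at the time `t`. -/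
lemma avg10 (β : ℝ) (h : Vec d) (η : Env d) {n t : ℕ} (ht : t ≤ n) (φ : Site d → ℝ) :
    (∑ w : Fin n → Step d, wgt β h η w * φ (pos w t)) / Z β h η n =
      ∑ y ∈ boxF d t, Qt β h n t y η * φ y := by
  classical
  have h1 : ∀ y ∈ boxF d t, Qt β h n t y η * φ y =
      (∑ w : Fin n → Step d, if pos w t = y then wgt β h η w * φ (pos w t) else 0) /
        Z β h η n := by
    intro y _
    unfold Qt
    rw [mass10 β h η ht y, div_mul_eq_mul_div, Finset.sum_mul]
    congr 1
    refine Finset.sum_congr rfl fun w _ => ?_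
    by_cases hw : pos w t = y
    · rw [if_pos hw, if_pos hw, hw]
    · rw [if_neg hw, if_neg hw, zero_mul]
  rw [Finset.sum_congr rfl h1, ← Finset.sum_div, Finset.sum_comm]
  congr 1
  refine Finset.sum_congr rfl fun w _ => ?_
  rw [Finset.sum_ite_eq, if_pos (pos_box10 w t)]

/-- The size of the environment. -/
noncomputable def Mx (ρ : Measure ℝ) (β : ℝ) (h : Vec d) (n : ℕ) (η : Env d) : ℝ :=
  Real.sqrt (∑ T ∈ Finset.range (n + 1), (X β h η T - A ρ β h T) ^ 2)

variable {ρ : Measure ℝ}

lemma Mx_nonneg (β : ℝ) (h : Vec d) (n : ℕ) (η : Env d) : 0 ≤ Mx ρ β h n η := Real.sqrt_nonneg _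

lemma le_Mx (β : ℝ) (h : Vec d) {n T : ℕ} (hT : T ≤ n) (η : Env d) :
    X β h η T - A ρ β h T ≤ Mx ρ β h n η := by
  refine (le_abs_self _).trans ?_
  rw [← Real.sqrt_sq_eq_abs]
  refine Real.sqrt_le_sqrt ?_
  exact Finset.single_le_sum (f := fun T => (X β h η T - A ρ β h T) ^ 2)
    (fun i _ => sq_nonneg _) (Finset.mem_range.2 (by omega))

/-- The events seen from the position at the time `t`. -/
noncomputable def ind (B : Set (Env d)) (t : ℕ) (η : Env d) (y : Site d) : ℝ :=
  B.indicator (fun _ => (1 : ℝ)) (sh t y η)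

lemma ind_nonneg (B : Set (Env d)) (t : ℕ) (η : Env d) (y : Site d) : 0 ≤ ind B t η y :=
  Set.indicator_nonneg (fun _ _ => zero_le_one) _

/-- The inequality along a path. -/
lemma path10 [IsProbabilityMeasure ρ] (hd : 0 < d) (hρ : EM ρ) (β : ℝ) (h : Vec d) (η : Env d)
    {n j H N : ℕ} (hn : j + N * H ≤ n) {x κ : ℝ} (hx : 0 < x) (hκ : 0 < κ)
    (hκ2 : κ ≤ 1 / 2) (w : Fin n → Step d) :
    (1 - κ) * x * N ≤ 2 * x * (∑ k ∈ Finset.range N,
        ind (Lk ρ β h n H 0 x κ 0) (j + k * H) η (pos w (j + k * H))) +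
      (Mx ρ β h n η + (j + N * H : ℕ) * lam ρ β h) -
      (Real.log (PP β h η j (pos w j)) +
      ∑ i ∈ Finset.range N, Real.log (sg β h (j + i * H) (j + (i + 1) * H) (pos w (j + i * H))
        (pos w (j + (i + 1) * H)) η)) := by
  classical
  set L := Lk ρ β h n H 0 x κ 0 with hL
  set lm := lam ρ β h with hlm
  set s : ℕ → ℝ := fun i => Real.log (sg β h (j + i * H) (j + (i + 1) * H) (pos w (j + i * H))
    (pos w (j + (i + 1) * H)) η) with hs
  set B : Finset ℕ := (Finset.range N).filter fun k => sh (j + k * H) (pos w (j + k * H)) η ∉ L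
    with hB
  have hseg : ∀ k M : ℕ, k + M ≤ N → ∑ i ∈ Finset.range M, s (k + i) ≤
      X β h (sh (j + k * H) (pos w (j + k * H)) η) (M * H) := by
    intro k M hkM
    exact segZ90 hd β h η hn w hkM
  have hj : j ≤ n := by omega
  have hPP : Real.log (PP β h η j (pos w j)) ≤ X β h η j := by
    have := z0_90 hd β h η hn w (Nat.zero_le N)
    simpa using this
  have h3 : ∀ M : ℕ, M ≤ N → ∑ i ∈ Finset.range M, (s i - H * lm) ≤
      κ * M * x + (Mx ρ β h n η + j * lm - Real.log (PP β h η j (pos w j))) := by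
    intro M hM
    have h4 := z0_90 hd β h η hn w hM
    have hMn : j + M * H ≤ n := (Nat.add_le_add_left (Nat.mul_le_mul_right H hM) j).trans hn
    have h5 := le_Mx (ρ := ρ) β h hMn η
    have h6 := A_le_lam hd hρ β h (j + M * H)
    rw [Finset.sum_sub_distrib, Finset.sum_const, Finset.card_range, nsmul_eq_mul]
    have h7 : (0 : ℝ) ≤ κ * M * x := by positivity
    push_cast at h6
    have h8 : ∑ i ∈ Finset.range M, s i = ∑ i ∈ Finset.range M, Real.log (sg β h (j + i * H)
      (j + (i + 1) * H) (pos w (j + i * H)) (pos w (j + (i + 1) * H)) η) := rfl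
    rw [h8]
    nlinarith
  have hr := Rs33.rise33 (fun i => s i - H * lm) N (E := x) (κ := κ)
    (M := Mx ρ β h n η + j * lm - Real.log (PP β h η j (pos w j))) hx.le B
    (Finset.filter_subset _ _) (fun k hk => by
      have hk1 := Finset.mem_range.1 (Finset.mem_filter.1 hk).1
      have hk2 := (Finset.mem_filter.1 hk).2
      have h4 := hseg k 1 (by omega)
      rw [Finset.sum_range_one, Nat.add_zero, Nat.one_mul] at h4
      have h5 : X β h (sh (j + k * H) (pos w (j + k * H)) η) H < H * lm - (1 - κ) * x := by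
        by_contra hcon
        rw [not_lt] at hcon
        refine hk2 (Or.inl ⟨0, le_rfl, ?_⟩)
        rw [Nat.add_zero, sub_zero]
        exact hcon
      linarith) (fun k hk M hM hkM => by
      have hk1 := Finset.mem_range.1 (Finset.mem_filter.1 hk).1
      have hk2 := (Finset.mem_filter.1 hk).2
      have h4 := hseg k M hkM
      rw [Finset.sum_sub_distrib, Finset.sum_const, Finset.card_range, nsmul_eq_mul]
      rcases Nat.lt_or_ge M 2 with hM2 | hM2
      · have hM1 : M = 1 := by omega
        subst hM1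
        rw [Nat.one_mul] at h4
        have h5 : X β h (sh (j + k * H) (pos w (j + k * H)) η) H < H * lm - (1 - κ) * x := by
          by_contra hcon
          rw [not_lt] at hcon
          refine hk2 (Or.inl ⟨0, le_rfl, ?_⟩)
          rw [Nat.add_zero, sub_zero]
          exact hcon
        push_cast
        have h6 : 0 < κ * x := mul_pos hκ hx
        have h7 : 0 ≤ (1 - κ) * x := mul_nonneg (by linarith) hx.le
        linarith
      · have hMn : M * H ≤ n := by
          have h6 : M * H ≤ N * H := Nat.mul_le_mul_right H (by omega)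
          omega
        have h5 : X β h (sh (j + k * H) (pos w (j + k * H)) η) (M * H) <
            ((M * H : ℕ) : ℝ) * lm + κ * M * x := by
          by_contra hcon
          rw [not_lt] at hcon
          refine hk2 (Or.inr ⟨M, hM2, hMn, 0, le_rfl, ?_⟩)
          rw [Nat.add_zero, sub_zero]
          exact hcon
        push_cast at h5
        nlinarith) h3
  rw [Finset.sum_sub_distrib, Finset.sum_const, Finset.card_range, nsmul_eq_mul] at hr
  have hg : (∑ k ∈ Finset.range N, ind L (j + k * H) η (pos w (j + k * H))) = N - B.card := by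
    have h4 : ∀ k ∈ Finset.range N, ind L (j + k * H) η (pos w (j + k * H)) =
        1 - if sh (j + k * H) (pos w (j + k * H)) η ∉ L then (1 : ℝ) else 0 := by
      intro k _
      unfold ind
      by_cases hk : sh (j + k * H) (pos w (j + k * H)) η ∈ L
      · rw [Set.indicator_of_mem hk, if_neg (not_not.2 hk), sub_zero]
      · rw [Set.indicator_of_notMem hk, if_pos hk, sub_self]
    rw [Finset.sum_congr rfl h4, Finset.sum_sub_distrib, Finset.sum_const, Finset.card_range,
      nsmul_eq_mul, mul_one, ← Finset.sum_filter, Finset.sum_const, nsmul_eq_mul, mul_one]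
  rw [hg]
  have h8 : ∑ i ∈ Finset.range N, s i = ∑ i ∈ Finset.range N, Real.log (sg β h (j + i * H)
    (j + (i + 1) * H) (pos w (j + i * H)) (pos w (j + (i + 1) * H)) η) := rfl
  rw [← h8]
  push_cast
  nlinarith

end Pool.Agent.W_7d29a1_PL.U10
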