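import Pool.Agent.W_7d29a1_PL.UseA10
import Pool.Agent.W_7d29a1_Q29.Vsd61
import Pool.Agent.W_7d29a1_SP.Bas15
import Pool.Agent.W_7d29a1_Q29.Qt98

/-!
Leaf USE, one offset: the mean over the environment.
-/

set_option autoImplicit false

namespace Pool.Agent.W_7d29a1_PL.U10

open MeasureTheory ProbabilityTheory Filter Topology Pool.Agent.W_MP_7d29a1_pr
  Pool.Agent.W_7d29a1_h46 Pool.Agent.W_7d29a1_h46u Pool.Agent.W_7d29a1_D2.B35
  Pool.Agent.W_7d29a1_Q29 Pool.Agent.W_7d29a1_NV Pool.Agent.W_7d29a1_SP Pool.Agent.W_7d29a1_PL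
  Pool.Agent.W_7d29a1_Q29.S98

variable {d : ℕ} {ρ : Measure ℝ}

/-- The mass of the event at the position at the time `t`, for a fixed environment. -/
noncomputable def uη (β : ℝ) (h : Vec d) (n t : ℕ) (B : Set (Env d)) (η : Env d) : ℝ :=
  ∑ y ∈ boxF d t, Qt β h n t y η * ind B t η y

/-- The mean of the end piece. -/
noncomputable def eη (β : ℝ) (h : Vec d) (t r : ℕ) (η : Env d) : ℝ :=
  ∑ y ∈ boxF d t, Z β h (sh t y η) r

/-- The inequality for a fixed environment. -/
lemma fix10 [IsProbabilityMeasure ρ] (hd : 0 < d) (hρ : EM ρ) (β : ℝ) (h : Vec d) (η : Env d)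
    {n j H N : ℕ} (hn : j + N * H ≤ n) {x κ M₀ : ℝ} (hx : 0 < x) (hκ : 0 < κ)
    (hκ2 : κ ≤ 1 / 2) (hM₀ : 0 < M₀) :
    (1 - κ) * x * N ≤ 2 * x * (∑ k ∈ Finset.range N,
        uη β h n (j + k * H) (Lk ρ β h n H 0 x κ 0) η) +
      Mx ρ β h n η + (j + N * H : ℕ) * lam ρ β h - X β h η n +
      (eη β h (j + N * H) (n - (j + N * H)) η / M₀ + Real.log M₀ - 1) +
      Real.log (boxF d j).card + N * Real.log (boxF d H).card := by
  classical
  set L := Lk ρ β h n H 0 x κ 0 with hL
  have hZ : 0 < Z β h η n := Z_pos hd β h η n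
  set F : (Fin n → Step d) → ℝ := fun w => Real.log (PP β h η j (pos w j)) +
      ∑ i ∈ Finset.range N, Real.log (sg β h (j + i * H) (j + (i + 1) * H) (pos w (j + i * H))
        (pos w (j + (i + 1) * H)) η) with hF
  set R : (Fin n → Step d) → ℝ := fun w =>
    X β h (sh (j + N * H) (pos w (j + N * H)) η) (n - (j + N * H)) with hR
  -- the mean of a function of the path
  set av : ((Fin n → Step d) → ℝ) → ℝ := fun G =>
    (∑ w : Fin n → Step d, wgt β h η w * G w) / Z β h η n with hav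
  have hav1 : ∀ c : ℝ, av (fun _ => c) = c := by
    intro c
    simp only [hav]
    rw [← Finset.sum_mul, ← Z_eq, mul_comm, mul_div_assoc, div_self hZ.ne', mul_one]
  have hmono : ∀ G G' : (Fin n → Step d) → ℝ, (∀ w, G w ≤ G' w) → av G ≤ av G' := by
    intro G G' hG
    simp only [hav]
    refine div_le_div_of_nonneg_right ?_ hZ.le
    refine Finset.sum_le_sum fun w _ => mul_le_mul_of_nonneg_left (hG w) ?_
    exact (Real.exp_pos _).le
  have hadd : ∀ G G' : (Fin n → Step d) → ℝ, av (fun w => G w + G' w) = av G + av G' := by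
    intro G G'
    simp only [hav]
    rw [← add_div, ← Finset.sum_add_distrib]
    congr 1
    exact Finset.sum_congr rfl fun w _ => by ring
  have hsub : ∀ G G' : (Fin n → Step d) → ℝ, av (fun w => G w - G' w) = av G - av G' := by
    intro G G'
    simp only [hav]
    rw [← sub_div, ← Finset.sum_sub_distrib]
    congr 1
    exact Finset.sum_congr rfl fun w _ => by ring
  have hmul : ∀ (c : ℝ) (G : (Fin n → Step d) → ℝ), av (fun w => c * G w) = c * av G := by
    intro c G
    simp only [hav]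
    rw [← mul_div_assoc, Finset.mul_sum]
    congr 1
    exact Finset.sum_congr rfl fun w _ => by ring
  have hsum : ∀ G : ℕ → (Fin n → Step d) → ℝ, av (fun w => ∑ k ∈ Finset.range N, G k w) =
      ∑ k ∈ Finset.range N, av (G k) := by
    intro G
    simp only [hav]
    rw [← Finset.sum_div, Finset.sum_comm]
    congr 1
    exact Finset.sum_congr rfl fun w _ => Finset.mul_sum _ _ _
  have h1 := hmono _ _ fun w => path10 (ρ := ρ) hd hρ β h η hn hx hκ hκ2 w
  rw [hav1, hsub, hadd, hmul, hav1, hsum] at h1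
  have h2 : ∀ k ∈ Finset.range N, av (fun w => ind L (j + k * H) η (pos w (j + k * H))) =
      uη β h n (j + k * H) L η := by
    intro k hk
    have hk1 := Finset.mem_range.1 hk
    have h3 : j + k * H ≤ n := by
      have h4 : k * H ≤ N * H := Nat.mul_le_mul_right H hk1.le
      omega
    exact avg10 β h η h3 fun y => ind L (j + k * H) η y
  rw [Finset.sum_congr rfl h2] at h1
  have h3 := skel90 hd β h η hn
  have h4 : (∑ w : Fin n → Step d, wgt β h η w * (Real.log (PP β h η j (pos w j)) +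
      ∑ i ∈ Finset.range N, Real.log (sg β h (j + i * H) (j + (i + 1) * H) (pos w (j + i * H))
        (pos w (j + (i + 1) * H)) η) +
      X β h (sh (j + N * H) (pos w (j + N * H)) η) (n - (j + N * H)))) / Z β h η n =
      av F + av R := by
    rw [← hadd]
  rw [h4] at h3
  -- the end piece
  have h5 : av R ≤ eη β h (j + N * H) (n - (j + N * H)) η / M₀ + Real.log M₀ - 1 := by
    rw [← hav1 (eη β h (j + N * H) (n - (j + N * H)) η / M₀ + Real.log M₀ - 1)]
    refine hmono _ _ fun w => ?_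
    have h6 : 0 < Z β h (sh (j + N * H) (pos w (j + N * H)) η) (n - (j + N * H)) := Z_pos hd β h _ _
    have h7 : Z β h (sh (j + N * H) (pos w (j + N * H)) η) (n - (j + N * H)) ≤
        eη β h (j + N * H) (n - (j + N * H)) η :=
      Finset.single_le_sum (f := fun y => Z β h (sh (j + N * H) y η) (n - (j + N * H)))
        (fun y _ => (Z_pos hd β h _ _).le) (pos_box10 w (j + N * H))
    have h8 := Real.log_le_sub_one_of_pos (div_pos h6 hM₀)
    rw [Real.log_div h6.ne' hM₀.ne'] at h8
    have h9 := div_le_div_of_nonneg_right h7 hM₀.le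
    show Real.log (Z β h (sh (j + N * H) (pos w (j + N * H)) η) (n - (j + N * H))) ≤ _
    linarith
  have h6 : av (fun w => Real.log (PP β h η j (pos w j)) +
      ∑ i ∈ Finset.range N, Real.log (sg β h (j + i * H) (j + (i + 1) * H) (pos w (j + i * H))
        (pos w (j + (i + 1) * H)) η)) = av F := rfl
  rw [h6] at h1
  linarith

lemma ind_meas {B : Set (Env d)} (hB : MeasurableSet B) (t : ℕ) (y : Site d) :
    Measurable fun η : Env d => ind B t η y :=
  (measurable_const.indicator hB).comp (measurable_sh t y)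

lemma uη_int [IsProbabilityMeasure ρ] (hd : 0 < d) (β : ℝ) (h : Vec d) {n t : ℕ} (ht : t ≤ n)
    {B : Set (Env d)} (hB : MeasurableSet B) : Integrable (uη β h n t B) (law d ρ) := by
  unfold uη
  refine integrable_finsetSum _ fun y _ => ?_
  refine Integrable.mono' (integrable_const (1 : ℝ))
    ((measurable_Qt β h n t y).mul (ind_meas hB t y)).aestronglyMeasurable
    (Eventually.of_forall fun η => ?_)
  have h1 := Qt_nonneg hd β h n t y η
  have h2 := Qt_le_one hd β h ht y η
  have h3 := ind_nonneg B t η y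
  have h4 : ind B t η y ≤ 1 := Set.indicator_le_self' (f := fun _ => (1 : ℝ))
    (fun _ _ => zero_le_one) _
  rw [Real.norm_eq_abs, abs_of_nonneg (mul_nonneg h1 h3)]
  nlinarith

lemma us_eq (β : ℝ) (h : Vec d) (n t : ℕ) (B : Set (Env d)) :
    ∫ η, uη β h n t B η ∂(law d ρ) = us ρ β h n t B := rfl

lemma us_nonneg [IsProbabilityMeasure ρ] (hd : 0 < d) (β : ℝ) (h : Vec d) (n t : ℕ)
    (B : Set (Env d)) : 0 ≤ us ρ β h n t B := by
  unfold us
  refine integral_nonneg fun η => Finset.sum_nonneg fun y _ => ?_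
  exact mul_nonneg (Qt_nonneg hd β h n t y η) (ind_nonneg B t η y)

lemma Mx_int [IsProbabilityMeasure ρ] (hd : 0 < d) (hρ : EM ρ) (β : ℝ) (h : Vec d) {n : ℕ}
    {K : ℝ} (hK : ∀ k : ℕ, k ≤ n → Va ρ β h k ≤ K) :
    Integrable (Mx ρ β h n) (law d ρ) ∧
      ∫ η, Mx ρ β h n η ∂(law d ρ) ≤ Real.sqrt ((n + 1) * K) := by
  have hsq : ∀ T, Integrable (fun η => (X β h η T - A ρ β h T) ^ 2) (law d ρ) := fun T =>
    N85.Va_int (ρ := ρ) hd hρ β h T
  have hs : Integrable (fun η => ∑ T ∈ Finset.range (n + 1), (X β h η T - A ρ β h T) ^ 2)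
      (law d ρ) := integrable_finsetSum _ fun T _ => hsq T
  have hm : Measurable (Mx ρ β h n) := by
    unfold Mx
    refine Real.continuous_sqrt.measurable.comp ?_
    refine Finset.measurable_fun_sum _ fun T _ => ?_
    exact ((measurable_X β h T).sub_const _).pow_const 2
  have h1 : ∫ η, ∑ T ∈ Finset.range (n + 1), (X β h η T - A ρ β h T) ^ 2 ∂(law d ρ) ≤
      (n + 1) * K := by
    rw [integral_finsetSum _ fun T _ => hsq T]
    have h2 : ∀ T ∈ Finset.range (n + 1), ∫ η, (X β h η T - A ρ β h T) ^ 2 ∂(law d ρ) ≤ K :=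
      fun T hT => hK T (by have := Finset.mem_range.1 hT; omega)
    refine (Finset.sum_le_sum h2).trans ?_
    rw [Finset.sum_const, Finset.card_range, nsmul_eq_mul]
    push_cast
    exact le_rfl
  have hK0 : 0 ≤ K := by
    refine le_trans ?_ (hK 0 (Nat.zero_le _))
    exact integral_nonneg fun η => sq_nonneg _
  have hi : Integrable (Mx ρ β h n) (law d ρ) := by
    refine Integrable.mono' ((integrable_const (1 : ℝ)).add hs) hm.aestronglyMeasurable
      (Eventually.of_forall fun η => ?_)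
    rw [Real.norm_eq_abs, abs_of_nonneg (Mx_nonneg β h n η)]
    have h3 : 0 ≤ ∑ T ∈ Finset.range (n + 1), (X β h η T - A ρ β h T) ^ 2 :=
      Finset.sum_nonneg fun T _ => sq_nonneg _
    have h4 := Real.sq_sqrt h3
    have h5 := Real.sqrt_nonneg (∑ T ∈ Finset.range (n + 1), (X β h η T - A ρ β h T) ^ 2)
    simp only [Pi.add_apply]
    unfold Mx
    nlinarith [sq_nonneg (Real.sqrt (∑ T ∈ Finset.range (n + 1), (X β h η T - A ρ β h T) ^ 2) - 1)]
  refine ⟨hi, ?_⟩
  have h2 : (∫ η, Mx ρ β h n η ∂(law d ρ)) ^ 2 ≤ (n + 1) * K := by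
    have h3 : ∀ η, (Mx ρ β h n η) ^ 2 =
        ∑ T ∈ Finset.range (n + 1), (X β h η T - A ρ β h T) ^ 2 := fun η =>
      Real.sq_sqrt (Finset.sum_nonneg fun T _ => sq_nonneg _)
    have hi2 : Integrable (fun η => (Mx ρ β h n η) ^ 2) (law d ρ) := by
      simp only [h3]
      exact hs
    set m := ∫ η, Mx ρ β h n η ∂(law d ρ) with hmd
    have h4 : 0 ≤ ∫ η, (Mx ρ β h n η - m) ^ 2 ∂(law d ρ) := integral_nonneg fun η => sq_nonneg _
    have h5 : ∫ η, (Mx ρ β h n η - m) ^ 2 ∂(law d ρ) =
        ∫ η, (Mx ρ β h n η) ^ 2 ∂(law d ρ) - m ^ 2 := by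
      have h6 : ∀ η, (Mx ρ β h n η - m) ^ 2 = (Mx ρ β h n η) ^ 2 - (2 * m * Mx ρ β h n η - m ^ 2) :=
        fun η => by ring
      simp only [h6]
      have e1 : ∫ η, ((Mx ρ β h n η) ^ 2 - (2 * m * Mx ρ β h n η - m ^ 2)) ∂(law d ρ) =
          ∫ η, (Mx ρ β h n η) ^ 2 ∂(law d ρ) -
            ∫ η, (2 * m * Mx ρ β h n η - m ^ 2) ∂(law d ρ) :=
        integral_sub hi2 ((hi.const_mul (2 * m)).sub (integrable_const _))
      have e2 : ∫ η, (2 * m * Mx ρ β h n η - m ^ 2) ∂(law d ρ) = 2 * m * m - m ^ 2 := by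
        rw [integral_sub (hi.const_mul (2 * m)) (integrable_const _), integral_const_mul,
          integral_const, probReal_univ, smul_eq_mul, one_mul]
      rw [e1, e2]
      ring
    rw [h5] at h4
    simp only [h3] at h4
    linarith
  exact (le_abs_self _).trans (Real.abs_le_sqrt h2)

end Pool.Agent.W_7d29a1_PL.U10
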