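import Pool.Agent.W_7d29a1_SQ.DefsSQ
import Pool.Agent.W_7d29a1_SQ.Top32
import Pool.Agent.W_7d29a1_Q29.Box98
import Pool.Agent.W_7d29a1_SP.Bas15
import Pool.Agent.W_7d29a1_h46u.ConcV

/-!
The total variance from the counting in time and the lower tail (helper32): if both fluctuations
are at most a small power of the time, then so is the variance.
-/

namespace Pool.Agent.W_7d29a1_PL

open MeasureTheory ProbabilityTheory Filter Topology Pool.Agent.W_MP_7d29a1_pr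
  Pool.Agent.W_7d29a1_h46 Pool.Agent.W_7d29a1_h46u Pool.Agent.W_7d29a1_D2.B35
  Pool.Agent.W_7d29a1_Q29 Pool.Agent.W_7d29a1_R34 Pool.Agent.W_7d29a1_SP Pool.Agent.W_7d29a1_SD
  Pool.Agent.W_7d29a1_SQ

variable {d : ℕ} {ρ : Measure ℝ} [IsProbabilityMeasure ρ]

/-- The second moment from the fourth moment and the probability of a large deviation. -/
lemma sec32 {Ω : Type*} [MeasurableSpace Ω] {μ : Measure Ω} [IsProbabilityMeasure μ] {Y : Ω → ℝ}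
    (hYm : Measurable Y) (hY2 : Integrable (fun w => Y w ^ 2) μ)
    (hY4 : Integrable (fun w => |Y w| ^ 4) μ) {x r D : ℝ} (hr : 0 < r)
    (h4 : ∫ w, |Y w| ^ 4 ∂μ ≤ D * r ^ 2) :
    ∫ w, Y w ^ 2 ∂μ ≤ x ^ 2 + D + r ^ 2 * μ.real {w | x ≤ |Y w|} := by
  have hS : MeasurableSet {w | x ≤ |Y w|} := measurableSet_le measurable_const hYm.abs
  have hi : Integrable (Set.indicator {w | x ≤ |Y w|} (fun _ => (1 : ℝ))) μ :=
    (integrable_const (1 : ℝ)).indicator hS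
  have h1 : ∀ w, Y w ^ 2 ≤ x ^ 2 + (1 / r ^ 2 * |Y w| ^ 4 +
      r ^ 2 * Set.indicator {w | x ≤ |Y w|} (fun _ => (1 : ℝ)) w) := by
    intro w
    by_cases hw : x ≤ |Y w|
    · rw [Set.indicator_of_mem (show w ∈ {w | x ≤ |Y w|} from hw)]
      have e1 : |Y w| ^ 4 = (Y w ^ 2) ^ 2 := by
        rw [← sq_abs (Y w)]
        ring
      rw [e1]
      have h2 : 0 ≤ (Y w ^ 2 / r - r) ^ 2 := sq_nonneg _
      have h3 : (Y w ^ 2 / r - r) ^ 2 = 1 / r ^ 2 * (Y w ^ 2) ^ 2 + r ^ 2 - 2 * Y w ^ 2 := by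
        field_simp
        ring
      have h4 := sq_nonneg x
      have h5 := sq_nonneg (Y w)
      nlinarith
    · rw [Set.indicator_of_notMem (show w ∉ {w | x ≤ |Y w|} from hw)]
      have h2 : Y w ^ 2 ≤ x ^ 2 := by
        rw [← sq_abs (Y w)]
        exact pow_le_pow_left₀ (abs_nonneg _) (not_le.1 hw).le 2
      have h3 : 0 ≤ 1 / r ^ 2 * |Y w| ^ 4 := by positivity
      linarith
  have i3 : Integrable (fun w => 1 / r ^ 2 * |Y w| ^ 4) μ := hY4.const_mul _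
  have i4 : Integrable (fun w => r ^ 2 *
      Set.indicator {w | x ≤ |Y w|} (fun _ => (1 : ℝ)) w) μ := hi.const_mul _
  have i34 : Integrable (fun w => 1 / r ^ 2 * |Y w| ^ 4 +
      r ^ 2 * Set.indicator {w | x ≤ |Y w|} (fun _ => (1 : ℝ)) w) μ := i3.add i4
  have h2 := integral_mono hY2 ((integrable_const (x ^ 2)).add i34) h1
  have h3 : ∫ w, (x ^ 2 + (1 / r ^ 2 * |Y w| ^ 4 +
      r ^ 2 * Set.indicator {w | x ≤ |Y w|} (fun _ => (1 : ℝ)) w)) ∂μ =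
      x ^ 2 + (1 / r ^ 2 * ∫ w, |Y w| ^ 4 ∂μ + r ^ 2 * μ.real {w | x ≤ |Y w|}) := by
    rw [integral_add (integrable_const _) i34, integral_add i3 i4, integral_const_mul,
      integral_const_mul, integral_indicator_const (1 : ℝ) hS]
    simp
  have h5 : 1 / r ^ 2 * ∫ w, |Y w| ^ 4 ∂μ ≤ D := by
    rw [one_div, inv_mul_le_iff₀ (by positivity)]
    linarith
  have h6 := h2.trans (le_of_eq h3)
  linarith

/-- The upper tail at the probability `n ^ (-2)`. -/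
lemma upT32 {β : ℝ} {h : Vec d} {a C C₁ : ℝ} (ha : 0 < a) (hC0 : 0 ≤ C)
    (hC₁ : 1 ≤ C₁) (hcnt : ∀ (m T : ℕ) (x q Φ : ℝ), 1 ≤ m → 0 < q →
      q ≤ (law d ρ).real {η | A ρ β h m + x ≤ X β h η m} → C₁ * m / q ≤ T →
      (∀ k : ℕ, k ≤ T → En ρ β h k ≤ Φ ∧ Fn ρ β h k ≤ Φ) → x ≤ C₁ * (Φ + 1))
    (hUp : ∀ n : ℕ, 1 ≤ n → Ps ρ β h n ≤ C * (n : ℝ) ^ a) {n : ℕ} (hn : 1 ≤ n) {x : ℝ}
    (hx : C₁ * (C * (2 * C₁) ^ a + 1) * (n : ℝ) ^ (3 * a) < x) :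
    (law d ρ).real {η | A ρ β h n + x ≤ X β h η n} ≤ 1 / (n : ℝ) ^ 2 := by
  by_contra hcon
  have hcon' := (not_le.1 hcon).le
  have hn1 : (1 : ℝ) ≤ n := by exact_mod_cast hn
  have hn0 : (0 : ℝ) < n := by linarith
  have hn3 : (1 : ℝ) ≤ (n : ℝ) ^ 3 := one_le_pow₀ hn1
  obtain ⟨T, hT⟩ : ∃ T : ℕ, T = ⌈C₁ * (n : ℝ) ^ 3⌉₊ := ⟨_, rfl⟩
  have hT1 : C₁ * (n : ℝ) ^ 3 ≤ T := by
    rw [hT]
    exact Nat.le_ceil _
  have hT2 : (T : ℝ) ≤ 2 * C₁ * (n : ℝ) ^ 3 := by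
    have h1 : (⌈C₁ * (n : ℝ) ^ 3⌉₊ : ℝ) < C₁ * (n : ℝ) ^ 3 + 1 := Nat.ceil_lt_add_one (by positivity)
    rw [hT]
    nlinarith
  have hT3 : 1 ≤ T := by
    have h1 : (1 : ℝ) ≤ T := by nlinarith
    exact_mod_cast h1
  have h1 := hcnt n T x (1 / (n : ℝ) ^ 2) (Ps ρ β h T) hn (by positivity) hcon' (by
    have e1 : C₁ * (n : ℝ) / (1 / (n : ℝ) ^ 2) = C₁ * (n : ℝ) ^ 3 := by
      field_simp
    rw [e1]
    exact hT1) fun k hk => ⟨En_le_Ps32 h hk |>.trans (by linarith),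
      Fn_le_Ps32 h hk |>.trans (by linarith)⟩
  have h2 := hUp T hT3
  have h3 : (T : ℝ) ^ a ≤ (2 * C₁) ^ a * (n : ℝ) ^ (3 * a) := by
    have h4 : (T : ℝ) ^ a ≤ (2 * C₁ * (n : ℝ) ^ 3) ^ a :=
      Real.rpow_le_rpow (Nat.cast_nonneg _) hT2 ha.le
    rw [Real.mul_rpow (by positivity) (by positivity), ← Real.rpow_natCast (n : ℝ) 3,
      ← Real.rpow_mul hn0.le] at h4
    simpa using h4
  have h5 : (1 : ℝ) ≤ (n : ℝ) ^ (3 * a) := Real.one_le_rpow hn1 (by positivity)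
  have h6 : C * (T : ℝ) ^ a ≤ C * ((2 * C₁) ^ a * (n : ℝ) ^ (3 * a)) :=
    mul_le_mul_of_nonneg_left h3 hC0
  have h7 : x ≤ C₁ * (C * ((2 * C₁) ^ a * (n : ℝ) ^ (3 * a)) + (n : ℝ) ^ (3 * a)) :=
    h1.trans (mul_le_mul_of_nonneg_left (by linarith) (by linarith))
  have h8 : C₁ * (C * ((2 * C₁) ^ a * (n : ℝ) ^ (3 * a)) + (n : ℝ) ^ (3 * a)) =
      C₁ * (C * (2 * C₁) ^ a + 1) * (n : ℝ) ^ (3 * a) := by ring
  linarith

/-- The lower tail. -/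
lemma loT32 (hd : 0 < d) (hρ : EM ρ) {β : ℝ} (hE : EhlP d ρ β) (h : Vec d) (n : ℕ) {Φ t : ℝ}
    (hΦ : 0 < Φ) (hF : Fn ρ β h n ≤ Φ) (ht : 0 ≤ t) :
    (law d ρ).real {η | X β h η n ≤ A ρ β h n - (5 + 10 * t) * Φ} ≤ Real.exp (-(t ^ 2 / 4)) := by
  have hi := (intX15 (ρ := ρ) hd hρ β h n).abs
  have h1 := mul_meas_ge_le_integral_of_nonneg (μ := law d ρ)
    (Eventually.of_forall fun η => abs_nonneg (X β h η n - A ρ β h n)) hi (5 * Φ)
  have h2 : ∫ η, |X β h η n - A ρ β h n| ∂(law d ρ) = Fn ρ β h n := rfl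
  rw [h2] at h1
  have h3 : (law d ρ).real {η | 5 * Φ ≤ |X β h η n - A ρ β h n|} ≤ 1 / 5 := by
    by_contra hcon
    have h4 := not_le.1 hcon
    nlinarith
  have h5 := hE h n (A ρ β h n - 5 * Φ) (A ρ β h n + 5 * Φ) t ht (by linarith)
    ((measureReal_mono fun η hη => by
      have h6 : X β h η n ≤ A ρ β h n - 5 * Φ := hη
      show 5 * Φ ≤ |X β h η n - A ρ β h n|
      rw [abs_sub_comm]
      exact le_trans (by linarith) (le_abs_self _)).trans (h3.trans (by norm_num)))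
    ((measureReal_mono fun η hη => by
      have h6 : A ρ β h n + 5 * Φ < X β h η n := hη
      show 5 * Φ ≤ |X β h η n - A ρ β h n|
      exact le_trans (by linarith) (le_abs_self _)).trans h3)
  have e1 : A ρ β h n - 5 * Φ - t * (A ρ β h n + 5 * Φ - (A ρ β h n - 5 * Φ)) =
      A ρ β h n - (5 + 10 * t) * Φ := by ring
  rw [e1] at h5
  exact h5

/-- **The total variance from the two fluctuations.** -/
theorem varUp32 (hd : 0 < d) (hρ : EM ρ) {β : ℝ} (hC : CntP d ρ β) (hE : EhlP d ρ β) {h : Vec d}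
    {c₀ a C : ℝ} (hc₀ : 0 < c₀) (hL : Loc1 ρ β h c₀) (ha : 0 < a) (hC0 : 0 ≤ C)
    (hUp : ∀ n : ℕ, 1 ≤ n → Ps ρ β h n ≤ C * (n : ℝ) ^ a) :
    ∃ C' : ℝ, 1 ≤ C' ∧ ∀ n : ℕ, 1 ≤ n → Va ρ β h n ≤ C' * (n : ℝ) ^ (6 * a) := by
  obtain ⟨C₁, hC₁, hcnt⟩ := hC c₀ hc₀
  obtain ⟨D, hD0, hD⟩ := momU (ρ := ρ) hd hρ β 4
  obtain ⟨cₐ, hcₐ⟩ : ∃ x : ℝ, x = 4 / a + 1 := ⟨_, rfl⟩
  have hca0 : 0 < 4 / a := by positivity
  obtain ⟨K, hK⟩ : ∃ K : ℝ, K = C₁ * (C * (2 * C₁) ^ a + 1) + 1 + (5 + 10 * cₐ) * (C + 1) :=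
    ⟨_, rfl⟩
  have hp0 : 0 ≤ C₁ * (C * (2 * C₁) ^ a + 1) := by positivity
  have hp1 : 0 ≤ (5 + 10 * cₐ) * (C + 1) := by
    rw [hcₐ]
    positivity
  refine ⟨K ^ 2 + D + 2, by nlinarith [sq_nonneg K], fun n hn => ?_⟩
  have hn1 : (1 : ℝ) ≤ n := by exact_mod_cast hn
  have hn0 : (0 : ℝ) < n := by linarith
  obtain ⟨N, hN⟩ : ∃ N : ℝ, N = (n : ℝ) ^ a := ⟨_, rfl⟩
  have hN1 : 1 ≤ N := by
    rw [hN]
    exact Real.one_le_rpow hn1 ha.le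
  have hN3 : (n : ℝ) ^ (3 * a) = N ^ 3 := by
    rw [hN, ← Real.rpow_natCast, ← Real.rpow_mul hn0.le]
    congr 1
    push_cast
    ring
  have hN6 : (n : ℝ) ^ (6 * a) = N ^ 6 := by
    rw [hN, ← Real.rpow_natCast, ← Real.rpow_mul hn0.le]
    congr 1
    push_cast
    ring
  have hN31 : 1 ≤ N ^ 3 := one_le_pow₀ hN1
  have hxup : C₁ * (C * (2 * C₁) ^ a + 1) * (n : ℝ) ^ (3 * a) < K * N ^ 3 := by
    rw [hN3, hK]
    nlinarith
  have h1 := upT32 (ρ := ρ) (β := β) (h := h) ha hC0 hC₁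
    (fun m T x q Φ => hcnt h hL m T x q Φ) hUp hn hxup
  have hPs := hUp n hn
  have hF : Fn ρ β h n ≤ (C + 1) * N := by
    have h2 := Fn_le_Ps32 (ρ := ρ) (β := β) h (le_refl n)
    rw [← hN] at hPs
    nlinarith
  have h2 := loT32 hd hρ hE h n (Φ := (C + 1) * N) (t := cₐ * N) (by positivity) hF
    (by rw [hcₐ]; positivity)
  have h3 : (5 + 10 * (cₐ * N)) * ((C + 1) * N) ≤ K * N ^ 3 := by
    have h4 : (5 + 10 * (cₐ * N)) ≤ (5 + 10 * cₐ) * N := by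
      have : (0 : ℝ) ≤ cₐ := by rw [hcₐ]; positivity
      nlinarith
    have h5 : (5 + 10 * (cₐ * N)) * ((C + 1) * N) ≤ ((5 + 10 * cₐ) * N) * ((C + 1) * N) :=
      mul_le_mul_of_nonneg_right h4 (by positivity)
    have h6 : ((5 + 10 * cₐ) * N) * ((C + 1) * N) = (5 + 10 * cₐ) * (C + 1) * N ^ 2 := by ring
    have h7 : N ^ 2 ≤ N ^ 3 := pow_le_pow_right₀ hN1 (by norm_num)
    have h8 : (5 + 10 * cₐ) * (C + 1) * N ^ 2 ≤ (5 + 10 * cₐ) * (C + 1) * N ^ 3 :=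
      mul_le_mul_of_nonneg_left h7 hp1
    have h9 : (5 + 10 * cₐ) * (C + 1) * N ^ 3 ≤ K * N ^ 3 := by
      refine mul_le_mul_of_nonneg_right ?_ (by positivity)
      rw [hK]
      linarith
    linarith
  have h4 : Real.exp (-((cₐ * N) ^ 2 / 4)) ≤ 1 / (n : ℝ) ^ 2 := by
    have h5 : Real.log n ≤ N ^ 2 / (2 * a) := by
      have h6 := Real.log_le_rpow_div hn0.le (show (0 : ℝ) < 2 * a by positivity)
      have h7 : (n : ℝ) ^ (2 * a) = N ^ 2 := by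
        rw [hN, ← Real.rpow_natCast, ← Real.rpow_mul hn0.le]
        congr 1
        push_cast
        ring
      rwa [h7] at h6
    have h8 : 2 * Real.log n ≤ (cₐ * N) ^ 2 / 4 := by
      have h9 : 4 / a ≤ cₐ ^ 2 := by
        rw [hcₐ]
        nlinarith
      have h10 : N ^ 2 / (2 * a) = (4 / a) * N ^ 2 / 8 := by
        field_simp
        ring
      have h11 : (4 / a) * N ^ 2 ≤ cₐ ^ 2 * N ^ 2 := mul_le_mul_of_nonneg_right h9 (sq_nonneg _)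
      rw [h10] at h5
      nlinarith
    have h12 : (1 : ℝ) / (n : ℝ) ^ 2 = Real.exp (-(2 * Real.log n)) := by
      rw [Real.exp_neg, show 2 * Real.log n = Real.log ((n : ℝ) ^ 2) by rw [Real.log_pow]; norm_num,
        Real.exp_log (by positivity), one_div]
    rw [h12]
    exact Real.exp_le_exp.2 (by linarith)
  have hmeas : (law d ρ).real {η | K * N ^ 3 ≤ |X β h η n - A ρ β h n|} ≤ 2 / (n : ℝ) ^ 2 := by
    have h5 : {η : Env d | K * N ^ 3 ≤ |X β h η n - A ρ β h n|} ⊆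
        {η | A ρ β h n + K * N ^ 3 ≤ X β h η n} ∪
          {η | X β h η n ≤ A ρ β h n - (5 + 10 * (cₐ * N)) * ((C + 1) * N)} := by
      intro η hη
      have h6 : K * N ^ 3 ≤ |X β h η n - A ρ β h n| := hη
      rcases le_abs.1 h6 with h7 | h7
      · left
        show A ρ β h n + K * N ^ 3 ≤ X β h η n
        linarith
      · right
        show X β h η n ≤ A ρ β h n - (5 + 10 * (cₐ * N)) * ((C + 1) * N)
        linarith
    refine (measureReal_mono h5).trans ((measureReal_union_le _ _).trans ?_)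
    have h8 : (2 : ℝ) / (n : ℝ) ^ 2 = 1 / (n : ℝ) ^ 2 + 1 / (n : ℝ) ^ 2 := by ring
    rw [h8]
    exact add_le_add h1 (h2.trans h4)
  have hm4 := hD h n hn
  have h5 := sec32 (μ := law d ρ) (Y := fun η => X β h η n - A ρ β h n) (x := K * N ^ 3)
    (r := n) (D := D) ((measurable_X β h n).sub_const _) (S98.X_dev_int hd hρ β h n) hm4.1 hn0
    (by
      have e1 : ((1 / 2 : ℝ) * (4 : ℕ)) = (2 : ℕ) := by norm_num
      have h6 := hm4.2
      rw [e1, Real.rpow_natCast] at h6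
      exact h6)
  have h6 : Va ρ β h n ≤ (K * N ^ 3) ^ 2 + D + (n : ℝ) ^ 2 * (2 / (n : ℝ) ^ 2) := by
    refine le_trans h5 ?_
    have := mul_le_mul_of_nonneg_left hmeas (sq_nonneg (n : ℝ))
    linarith
  have h7 : (n : ℝ) ^ 2 * (2 / (n : ℝ) ^ 2) = 2 := by
    field_simp
  rw [h7] at h6
  rw [hN6]
  have h8 : (1 : ℝ) ≤ N ^ 6 := one_le_pow₀ hN1
  have h9 : (K * N ^ 3) ^ 2 = K ^ 2 * N ^ 6 := by ring
  rw [h9] at h6
  nlinarith

end Pool.Agent.W_7d29a1_PL
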