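import Pool.Agent.W_7d29a1_SP.Bas15
import Pool.Agent.W_7d29a1_D2.Baire21
import Pool.Agent.W_7d29a1_h46u.FreeV

/-!
THEOREM PLA, leaf VSH (helper34): near a tilt with small random fluctuation and small second
difference, the fluctuation at the distance `r` in a direction is large only on a set of tilts of
small volume (convexity on a segment and Tonelli).
-/

namespace Pool.Agent.W_7d29a1_PL

open MeasureTheory ProbabilityTheory Filter Topology Pool.Agent.W_MP_7d29a1_pr
  Pool.Agent.W_7d29a1_h46 Pool.Agent.W_7d29a1_h46u Pool.Agent.W_7d29a1_D2.B35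
  Pool.Agent.W_7d29a1_Q29 Pool.Agent.W_7d29a1_R34 Pool.Agent.W_7d29a1_SP

namespace Vsh34

/-- A convex function on a symmetric interval is close to its chord. -/
lemma chord {φ : ℝ → ℝ} (hφ : ConvexOn ℝ Set.univ φ) {r s : ℝ} (hr : 0 < r) (hs : |s| ≤ r) :
    |φ s - φ 0 - s / r * (φ r - φ 0)| ≤ φ r + φ (-r) - 2 * φ 0 := by
  have hD : 0 ≤ φ r + φ (-r) - 2 * φ 0 := by
    have h1 := hφ.2 (Set.mem_univ r) (Set.mem_univ (-r)) (by norm_num : (0 : ℝ) ≤ 1 / 2)
      (by norm_num : (0 : ℝ) ≤ 1 / 2) (by norm_num)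
    simp only [smul_eq_mul] at h1
    have h2 : (1 / 2 : ℝ) * r + 1 / 2 * -r = 0 := by ring
    rw [h2] at h1
    linarith
  obtain ⟨hs1, hs2⟩ := abs_le.mp hs
  rcases le_total 0 s with h0 | h0
  · obtain ⟨a, ha⟩ : ∃ a, a = s / r := ⟨_, rfl⟩
    have ha0 : 0 ≤ a := by rw [ha]; positivity
    have ha1 : a ≤ 1 := by rw [ha, div_le_one hr]; exact hs2
    have hsa : s = a * r := by rw [ha]; field_simp
    rw [← ha]
    -- above
    have h1 := hφ.2 (Set.mem_univ r) (Set.mem_univ (0 : ℝ)) ha0 (by linarith : 0 ≤ 1 - a)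
      (by ring)
    simp only [smul_eq_mul, mul_zero, add_zero] at h1
    rw [← hsa] at h1
    -- below: `0` between `-r` and `s`
    have h2 := hφ.2 (Set.mem_univ s) (Set.mem_univ (-r))
      (div_nonneg zero_le_one (by linarith : (0 : ℝ) ≤ 1 + a))
      (div_nonneg ha0 (by linarith : (0 : ℝ) ≤ 1 + a)) (by field_simp)
    simp only [smul_eq_mul] at h2
    have h3 : 1 / (1 + a) * s + a / (1 + a) * -r = 0 := by
      rw [hsa]
      field_simp
      ring
    rw [h3] at h2
    have h4 : (1 + a) * φ 0 ≤ φ s + a * φ (-r) := by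
      have h5 : (1 + a) * φ 0 ≤ (1 + a) * (1 / (1 + a) * φ s + a / (1 + a) * φ (-r)) :=
        mul_le_mul_of_nonneg_left h2 (by linarith)
      have h6 : (1 + a) * (1 / (1 + a) * φ s + a / (1 + a) * φ (-r)) = φ s + a * φ (-r) := by
        field_simp
      linarith
    rw [abs_le]
    constructor
    · nlinarith
    · nlinarith
  · obtain ⟨a, ha⟩ : ∃ a, a = -s / r := ⟨_, rfl⟩
    have ha0 : 0 ≤ a := by
      rw [ha]
      exact div_nonneg (by linarith) hr.le
    have ha1 : a ≤ 1 := by rw [ha, div_le_one hr]; linarith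
    have hsa : s = a * -r := by rw [ha]; field_simp
    have hsr : s / r = -a := by rw [ha]; ring
    rw [hsr]
    have h1 := hφ.2 (Set.mem_univ (-r)) (Set.mem_univ (0 : ℝ)) ha0 (by linarith : 0 ≤ 1 - a)
      (by ring)
    simp only [smul_eq_mul, mul_zero, add_zero] at h1
    rw [← hsa] at h1
    have h2 := hφ.2 (Set.mem_univ s) (Set.mem_univ r)
      (div_nonneg zero_le_one (by linarith : (0 : ℝ) ≤ 1 + a))
      (div_nonneg ha0 (by linarith : (0 : ℝ) ≤ 1 + a)) (by field_simp)
    simp only [smul_eq_mul] at h2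
    have h3 : 1 / (1 + a) * s + a / (1 + a) * r = 0 := by
      rw [hsa]
      field_simp
      ring
    rw [h3] at h2
    have h4 : (1 + a) * φ 0 ≤ φ s + a * φ r := by
      have h5 : (1 + a) * φ 0 ≤ (1 + a) * (1 / (1 + a) * φ s + a / (1 + a) * φ r) :=
        mul_le_mul_of_nonneg_left h2 (by linarith)
      have h6 : (1 + a) * (1 / (1 + a) * φ s + a / (1 + a) * φ r) = φ s + a * φ r := by
        field_simp
      linarith
    rw [abs_le]
    constructor
    · nlinarith
    · nlinarith

variable {d : ℕ} {ρ : Measure ℝ} [IsProbabilityMeasure ρ]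

lemma line_convex (hd : 0 < d) (β : ℝ) (η : Env d) (t : ℕ) (h e : Vec d) :
    ConvexOn ℝ Set.univ fun s : ℝ => X β (h + s • e) η t := by
  refine ⟨convex_univ, fun x _ y _ a b ha hb hab => ?_⟩
  have h1 := FreeV_convex hd β η t (h + x • e) (h + y • e) ha hb hab
  have h2 : a • (h + x • e) + b • (h + y • e) = h + (a • x + b • y) • e := by
    have h3 : h = (a + b) • h := by rw [hab, one_smul]
    conv_rhs => rw [h3]
    simp only [smul_add, add_smul, smul_eq_mul, mul_smul]
    abel
  rw [h2] at h1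
  simpa only [smul_eq_mul] using h1

/-- The fluctuation along a segment. -/
lemma seg (hd : 0 < d) (hρ : EM ρ) (β : ℝ) (t : ℕ) (h e : Vec d) {r s : ℝ} (hr : 0 < r)
    (hs : |s| ≤ r) :
    |s| / r * (Fn ρ β (h + r • e) t - Fn ρ β h t) - Fn ρ β h t -
      2 * (A ρ β (h + r • e) t + A ρ β (h - r • e) t - 2 * A ρ β h t) ≤
      Fn ρ β (h + s • e) t := by
  have i0 := (concU hd hρ β h t).1
  have ir := (concU hd hρ β (h + r • e) t).1
  have im := (concU hd hρ β (h - r • e) t).1
  have is := (concU hd hρ β (h + s • e) t).1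
  have j0 := intX15 (ρ := ρ) hd hρ β h t
  have jr := intX15 (ρ := ρ) hd hρ β (h + r • e) t
  have js := intX15 (ρ := ρ) hd hρ β (h + s • e) t
  obtain ⟨D, hD⟩ : ∃ D : Env d → ℝ, D = fun η =>
    X β (h + r • e) η t + X β (h - r • e) η t - 2 * X β h η t := ⟨_, rfl⟩
  have hDi : Integrable D (law d ρ) := by
    rw [hD]
    exact (ir.add im).sub (i0.const_mul 2)
  have hDint : ∫ η, D η ∂(law d ρ) =
      A ρ β (h + r • e) t + A ρ β (h - r • e) t - 2 * A ρ β h t := by
    rw [hD]
    have e1 : ∫ η, (X β (h + r • e) η t + X β (h - r • e) η t - 2 * X β h η t) ∂(law d ρ) =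
        ∫ η, (X β (h + r • e) η t + X β (h - r • e) η t) ∂(law d ρ) -
          ∫ η, 2 * X β h η t ∂(law d ρ) := integral_sub (ir.add im) (i0.const_mul 2)
    rw [e1, integral_add ir im, integral_const_mul]
    rfl
  have hch : ∀ η, |X β (h + s • e) η t - X β h η t -
      s / r * (X β (h + r • e) η t - X β h η t)| ≤ D η := by
    intro η
    have h1 := chord (line_convex hd β η t h e) hr hs
    simp only [zero_smul, add_zero, neg_smul] at h1
    rw [hD]
    simp only [sub_eq_add_neg h] at h1 ⊢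
    exact h1
  -- the mean of the error
  obtain ⟨err, herr⟩ : ∃ err : Env d → ℝ, err = fun η => X β (h + s • e) η t - X β h η t -
      s / r * (X β (h + r • e) η t - X β h η t) := ⟨_, rfl⟩
  have hei : Integrable err (law d ρ) := by
    rw [herr]
    exact (is.sub i0).sub ((ir.sub i0).const_mul _)
  have heint : ∫ η, err η ∂(law d ρ) = A ρ β (h + s • e) t - A ρ β h t -
      s / r * (A ρ β (h + r • e) t - A ρ β h t) := by
    rw [herr]
    have e1 : ∫ η, (X β (h + s • e) η t - X β h η t -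
        s / r * (X β (h + r • e) η t - X β h η t)) ∂(law d ρ) =
        ∫ η, (X β (h + s • e) η t - X β h η t) ∂(law d ρ) -
          ∫ η, s / r * (X β (h + r • e) η t - X β h η t) ∂(law d ρ) :=
      integral_sub (is.sub i0) ((ir.sub i0).const_mul _)
    rw [e1, integral_const_mul, integral_sub is i0, integral_sub ir i0]
    rfl
  have hek : |∫ η, err η ∂(law d ρ)| ≤ ∫ η, D η ∂(law d ρ) := by
    refine (abs_integral_le_integral_abs).trans ?_
    refine integral_mono hei.abs hDi fun η => ?_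
    rw [herr]
    exact hch η
  -- pointwise
  have hpt : ∀ η, |s| / r * (|X β (h + r • e) η t - A ρ β (h + r • e) t| -
      |X β h η t - A ρ β h t|) - |X β h η t - A ρ β h t| - D η - ∫ η, D η ∂(law d ρ) ≤
      |X β (h + s • e) η t - A ρ β (h + s • e) t| := by
    intro η
    obtain ⟨y0, hy0⟩ : ∃ y, y = X β h η t - A ρ β h t := ⟨_, rfl⟩
    obtain ⟨yr, hyr⟩ : ∃ y, y = X β (h + r • e) η t - A ρ β (h + r • e) t := ⟨_, rfl⟩
    obtain ⟨ys, hys⟩ : ∃ y, y = X β (h + s • e) η t - A ρ β (h + s • e) t := ⟨_, rfl⟩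
    have h1 : ys = y0 + s / r * (yr - y0) + (err η - ∫ η, err η ∂(law d ρ)) := by
      rw [heint, herr, hy0, hyr, hys]
      ring
    rw [← hy0, ← hyr, ← hys]
    have h2 : |err η| ≤ D η := by
      rw [herr]
      exact hch η
    have h3 : s / r * yr = ys - (1 - s / r) * y0 - err η + ∫ η, err η ∂(law d ρ) := by
      rw [h1]
      ring
    have h4 : |s| / r * |yr| = |s / r * yr| := by
      rw [abs_mul, abs_div, abs_of_pos hr]
    have h5 : |s / r * yr| ≤ |ys| + |(1 - s / r) * y0| + |err η| + |∫ η, err η ∂(law d ρ)| := by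
      rw [h3]
      have k1 := abs_add_le (ys - (1 - s / r) * y0 - err η) (∫ η, err η ∂(law d ρ))
      have k2 := abs_sub (ys - (1 - s / r) * y0) (err η)
      have k3 := abs_sub ys ((1 - s / r) * y0)
      linarith
    have h6 : |(1 - s / r) * y0| ≤ (1 + |s| / r) * |y0| := by
      rw [abs_mul]
      apply mul_le_mul_of_nonneg_right _ (abs_nonneg _)
      have k1 := abs_sub (1 : ℝ) (s / r)
      rw [abs_one, abs_div, abs_of_pos hr] at k1
      exact k1
    linarith
  have hint := integral_mono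
    ((((jr.abs.sub j0.abs).const_mul (|s| / r)).sub j0.abs).sub hDi |>.sub
      (integrable_const (∫ η, D η ∂(law d ρ)))) js.abs hpt
  have e1 : ∫ η, (|s| / r * (|X β (h + r • e) η t - A ρ β (h + r • e) t| -
      |X β h η t - A ρ β h t|) - |X β h η t - A ρ β h t| - D η -
      ∫ η, D η ∂(law d ρ)) ∂(law d ρ) =
      |s| / r * (Fn ρ β (h + r • e) t - Fn ρ β h t) - Fn ρ β h t - ∫ η, D η ∂(law d ρ) -
        ∫ η, D η ∂(law d ρ) := by
    have k1 : Integrable (fun η => |s| / r * (|X β (h + r • e) η t - A ρ β (h + r • e) t| -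
        |X β h η t - A ρ β h t|)) (law d ρ) := (jr.abs.sub j0.abs).const_mul _
    have k2 : Integrable (fun η => |s| / r * (|X β (h + r • e) η t - A ρ β (h + r • e) t| -
        |X β h η t - A ρ β h t|) - |X β h η t - A ρ β h t|) (law d ρ) := k1.sub j0.abs
    have k3 : Integrable (fun η => |s| / r * (|X β (h + r • e) η t - A ρ β (h + r • e) t| -
        |X β h η t - A ρ β h t|) - |X β h η t - A ρ β h t| - D η) (law d ρ) := k2.sub hDi
    rw [integral_sub k3 (integrable_const _), integral_sub k2 hDi, integral_sub k1 j0.abs,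
      integral_const_mul, integral_sub jr.abs j0.abs]
    simp only [integral_const, probReal_univ, one_smul]
    rfl
  have hint' : |s| / r * (Fn ρ β (h + r • e) t - Fn ρ β h t) - Fn ρ β h t -
      ∫ η, D η ∂(law d ρ) - ∫ η, D η ∂(law d ρ) ≤ Fn ρ β (h + s • e) t := by
    rw [← e1]
    exact hint
  rw [hDint] at hint'
  linarith

lemma Fn_cont (hd : 0 < d) (hρ : EM ρ) (β : ℝ) (t : ℕ) :
    Continuous fun h : Vec d => Fn ρ β h t := by
  have hlip : ∀ h h' : Vec d, |Fn ρ β h' t - Fn ρ β h t| ≤ 2 * t * ‖h' - h‖ := by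
    intro h h'
    have j0 := intX15 (ρ := ρ) hd hρ β h t
    have j1 := intX15 (ρ := ρ) hd hρ β h' t
    have e1 : Fn ρ β h' t - Fn ρ β h t = ∫ η, (|X β h' η t - A ρ β h' t| -
        |X β h η t - A ρ β h t|) ∂(law d ρ) := by
      unfold Fn
      rw [integral_sub j1.abs j0.abs]
    rw [e1, ← Real.norm_eq_abs]
    refine (norm_integral_le_of_norm_le_const (C := 2 * t * ‖h' - h‖)
      (Eventually.of_forall fun η => ?_)).trans_eq (by simp)
    rw [Real.norm_eq_abs]
    have h1 := Pool.Agent.W_7d29a1_D2.X_lip21 hd β h h' η t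
    have h2 := Pool.Agent.W_7d29a1_D2.A_lip21 (ρ := ρ) hd hρ β h h' t
    have h3 := abs_abs_sub_abs_le_abs_sub (X β h' η t - A ρ β h' t) (X β h η t - A ρ β h t)
    have h4 : X β h' η t - A ρ β h' t - (X β h η t - A ρ β h t) =
        (X β h' η t - X β h η t) - (A ρ β h' t - A ρ β h t) := by ring
    rw [h4] at h3
    have h5 := abs_sub (X β h' η t - X β h η t) (A ρ β h' t - A ρ β h t)
    nlinarith
  have hL : LipschitzWith (Real.toNNReal (2 * t)) fun h : Vec d => Fn ρ β h t := by
    apply LipschitzWith.of_dist_le_mul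
    intro h' h
    rw [Real.dist_eq, dist_eq_norm, Real.coe_toNNReal _ (by positivity)]
    exact hlip h h'
  exact hL.continuous

lemma A_cont (hd : 0 < d) (hρ : EM ρ) (β : ℝ) (t : ℕ) :
    Continuous fun h : Vec d => A ρ β h t := by
  have hL : LipschitzWith (Real.toNNReal t) fun h : Vec d => A ρ β h t := by
    apply LipschitzWith.of_dist_le_mul
    intro h' h
    rw [Real.dist_eq, dist_eq_norm, Real.coe_toNNReal _ (by positivity), mul_comm]
    exact Pool.Agent.W_7d29a1_D2.A_lip21 (ρ := ρ) hd hρ β h h' t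
  exact hL.continuous

end Vsh34

/-- VSH: the tilts with small fluctuation and small second difference whose neighbour at the
distance `r` in the direction `e` has a large fluctuation have small volume. -/
def VshP (d : ℕ) (ρ : Measure ℝ) (β : ℝ) : Prop :=
  ∀ (t : ℕ) (e : Vec d) (r k₀ D₀ L R : ℝ), ‖e‖ ≤ 1 → 0 < r → r ≤ 1 → 0 ≤ k₀ → 0 ≤ D₀ → k₀ < L →
    volume {h : Vec d | ‖h‖ ≤ R ∧ Fn ρ β h t ≤ k₀ ∧
      A ρ β (h + r • e) t + A ρ β (h - r • e) t - 2 * A ρ β h t ≤ D₀ ∧
      L < Fn ρ β (h + r • e) t} ≤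
      ENNReal.ofReal ((2 * k₀ + 2 * D₀) / (L - k₀)) * volume (Metric.closedBall (0 : Vec d) (R + 1))

open Vsh34 in
theorem vshP34 {d : ℕ} {ρ : Measure ℝ} [IsProbabilityMeasure ρ] (hd : 0 < d) (hρ : EM ρ)
    (β : ℝ) : VshP d ρ β := by
  intro t e r k₀ D₀ L R he hr hr1 hk hD hL
  obtain ⟨θ, hθ⟩ : ∃ θ, θ = (2 * k₀ + 2 * D₀) / (L - k₀) := ⟨_, rfl⟩
  have hLk : 0 < L - k₀ := by linarith
  have hθ0 : 0 ≤ θ := by
    rw [hθ]
    positivity
  rw [← hθ]
  obtain ⟨B, hB⟩ : ∃ B : Set (Vec d), B = {h : Vec d | ‖h‖ ≤ R ∧ Fn ρ β h t ≤ k₀ ∧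
      A ρ β (h + r • e) t + A ρ β (h - r • e) t - 2 * A ρ β h t ≤ D₀ ∧
      L < Fn ρ β (h + r • e) t} := ⟨_, rfl⟩
  rw [← hB]
  have hF := Fn_cont (ρ := ρ) hd hρ β t
  have hA := A_cont (ρ := ρ) hd hρ β t
  have hBm : MeasurableSet B := by
    rw [hB]
    have m1 : MeasurableSet {h : Vec d | ‖h‖ ≤ R} :=
      (isClosed_le continuous_norm continuous_const).measurableSet
    have m2 : MeasurableSet {h : Vec d | Fn ρ β h t ≤ k₀} :=
      (isClosed_le hF continuous_const).measurableSet
    have m3 : MeasurableSet {h : Vec d |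
        A ρ β (h + r • e) t + A ρ β (h - r • e) t - 2 * A ρ β h t ≤ D₀} := by
      refine (isClosed_le (Continuous.sub (Continuous.add ?_ ?_) (hA.const_mul 2))
        continuous_const).measurableSet
      · exact hA.comp (continuous_id.add continuous_const)
      · exact hA.comp (continuous_id.sub continuous_const)
    have m4 : MeasurableSet {h : Vec d | L < Fn ρ β (h + r • e) t} :=
      (isOpen_lt continuous_const (hF.comp (continuous_id.add continuous_const))).measurableSet
    exact m1.inter (m2.inter (m3.inter m4))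
  -- two bad points on a line
  have htwo : ∀ h : Vec d, ∀ s ∈ Set.Icc 0 r, ∀ s' ∈ Set.Icc 0 r, h + s • e ∈ B →
      h + s' • e ∈ B → |s' - s| ≤ θ * r := by
    intro h s hs s' hs' h1 h2
    rw [hB] at h1 h2
    obtain ⟨-, h1a, h1b, h1c⟩ := h1
    obtain ⟨-, h2a, -, -⟩ := h2
    have hss : |s' - s| ≤ r := by
      rw [abs_le]
      constructor <;> linarith [hs.1, hs.2, hs'.1, hs'.2]
    have h3 := seg (ρ := ρ) hd hρ β t (h + s • e) e hr hss
    have h4 : h + s • e + (s' - s) • e = h + s' • e := by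
      rw [sub_smul]
      abel
    rw [h4] at h3
    have h5 : 0 ≤ |s' - s| / r := by positivity
    have h6 : |s' - s| / r * (L - k₀) ≤
        |s' - s| / r * (Fn ρ β (h + s • e + r • e) t - Fn ρ β (h + s • e) t) :=
      mul_le_mul_of_nonneg_left (by linarith) h5
    have h7 : |s' - s| / r * (L - k₀) ≤ 2 * k₀ + 2 * D₀ := by linarith
    have h8 : |s' - s| / r ≤ θ := by
      rw [hθ, le_div_iff₀ hLk]
      exact h7
    rw [div_le_iff₀ hr] at h8
    exact h8
  -- Tonelli
  have hmeas2 : Measurable fun p : ℝ × Vec d => B.indicator (1 : Vec d → ENNReal) (p.2 + p.1 • e) := by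
    have h1 : Measurable fun p : ℝ × Vec d => p.2 + p.1 • e :=
      (continuous_snd.add (continuous_fst.smul continuous_const)).measurable
    exact (measurable_one.indicator hBm).comp h1
  have hleft : ∫⁻ s in Set.Icc 0 r, ∫⁻ h : Vec d, B.indicator (1 : Vec d → ENNReal) (h + s • e) =
      ENNReal.ofReal r * volume B := by
    have h1 : ∀ s : ℝ, ∫⁻ h : Vec d, B.indicator (1 : Vec d → ENNReal) (h + s • e) = volume B := by
      intro s
      rw [lintegral_add_right_eq_self (fun h => B.indicator (1 : Vec d → ENNReal) h) (s • e),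
        lintegral_indicator_one hBm]
    simp only [h1]
    rw [lintegral_const, Measure.restrict_apply_univ, Real.volume_Icc, sub_zero, mul_comm]
  have hswap : ∫⁻ s in Set.Icc 0 r, ∫⁻ h : Vec d, B.indicator (1 : Vec d → ENNReal) (h + s • e) =
      ∫⁻ h : Vec d, ∫⁻ s in Set.Icc 0 r, B.indicator (1 : Vec d → ENNReal) (h + s • e) :=
    lintegral_lintegral_swap hmeas2.aemeasurable
  have hright : ∀ h : Vec d, ∫⁻ s in Set.Icc 0 r, B.indicator (1 : Vec d → ENNReal) (h + s • e) ≤
      (Metric.closedBall (0 : Vec d) (R + 1)).indicator (fun _ => ENNReal.ofReal (θ * r)) h := by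
    intro h
    have hset : ∫⁻ s in Set.Icc 0 r, B.indicator (1 : Vec d → ENNReal) (h + s • e) =
        volume ({s : ℝ | h + s • e ∈ B} ∩ Set.Icc 0 r) := by
      have hm : MeasurableSet {s : ℝ | h + s • e ∈ B} := by
        have h1 : Measurable fun s : ℝ => h + s • e :=
          (continuous_const.add (continuous_id.smul continuous_const)).measurable
        exact h1 hBm
      have h2 : ∀ s : ℝ, B.indicator (1 : Vec d → ENNReal) (h + s • e) =
          {s : ℝ | h + s • e ∈ B}.indicator 1 s := by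
        intro s
        by_cases h3 : h + s • e ∈ B
        · rw [Set.indicator_of_mem h3, Set.indicator_of_mem (show s ∈ {s : ℝ | h + s • e ∈ B} from h3)]
          rfl
        · rw [Set.indicator_of_notMem h3,
            Set.indicator_of_notMem (show s ∉ {s : ℝ | h + s • e ∈ B} from h3)]
      simp only [h2]
      rw [lintegral_indicator_one hm, Measure.restrict_apply hm]
    rw [hset]
    by_cases hh : h ∈ Metric.closedBall (0 : Vec d) (R + 1)
    · rw [Set.indicator_of_mem hh]
      refine (Real.volume_le_diam _).trans ?_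
      apply Metric.ediam_le
      rintro s ⟨hs1, hs2⟩ s' ⟨hs1', hs2'⟩
      rw [edist_dist, Real.dist_eq]
      apply ENNReal.ofReal_le_ofReal
      exact htwo h s' hs2' s hs2 hs1' hs1
    · rw [Set.indicator_of_notMem hh]
      have h3 : {s : ℝ | h + s • e ∈ B} ∩ Set.Icc 0 r = ∅ := by
        rw [Set.eq_empty_iff_forall_notMem]
        rintro s ⟨hs1, hs2⟩
        apply hh
        rw [hB] at hs1
        have h4 : ‖h + s • e‖ ≤ R := hs1.1
        rw [Metric.mem_closedBall, dist_zero_right]
        have h5 : ‖h‖ ≤ ‖h + s • e‖ + ‖s • e‖ := by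
          have := norm_sub_le (h + s • e) (s • e)
          rwa [add_sub_cancel_right] at this
        have h6 : ‖s • e‖ ≤ 1 := by
          rw [norm_smul, Real.norm_eq_abs, abs_of_nonneg hs2.1]
          have h7 : s ≤ 1 := hs2.2.trans hr1
          have h8 := norm_nonneg e
          nlinarith [hs2.1]
        linarith
      rw [h3, measure_empty]
  have hfin : ENNReal.ofReal r * volume B ≤
      ENNReal.ofReal (θ * r) * volume (Metric.closedBall (0 : Vec d) (R + 1)) := by
    rw [← hleft, hswap]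
    refine (lintegral_mono hright).trans ?_
    rw [lintegral_indicator_const Metric.isClosed_closedBall.measurableSet]
  have hr0 : ENNReal.ofReal r ≠ 0 := by
    rw [ne_eq, ENNReal.ofReal_eq_zero]
    linarith
  rw [mul_comm θ r, ENNReal.ofReal_mul hr.le, mul_assoc] at hfin
  exact (ENNReal.mul_le_mul_iff_right hr0 ENNReal.ofReal_ne_top).mp hfin

end Pool.Agent.W_7d29a1_PL
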